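import Mathlib
import Pool.Agent.H87.BU

set_option autoImplicit false

namespace Pool.Agent.H9.Ellip

open scoped RealInnerProductSpace
open Finset

noncomputable def vec {n k l : ℕ} (e : Fin n ≃ Fin k ⊕ Fin l) (u : Fin k → ℝ) (w : Fin l → ℝ) :
    EuclideanSpace ℝ (Fin n) := WithLp.toLp 2 fun j => Sum.elim u w (e j)

lemma inner_vec {n k l : ℕ} (e : Fin n ≃ Fin k ⊕ Fin l) (u u' : Fin k → ℝ) (w w' : Fin l → ℝ) :
    ⟪vec e u w, vec e u' w'⟫ = ∑ i, u i * u' i + ∑ j, w j * w' j := by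
  simp only [vec, PiLp.inner_apply, RCLike.inner_apply, conj_trivial]
  rw [Equiv.sum_comp e (fun s => Sum.elim u' w' s * Sum.elim u w s), Fintype.sum_sum_type]
  simp [mul_comm]

noncomputable def nrm {n : ℕ} (v : EuclideanSpace ℝ (Fin n)) (h : v ≠ 0) :
    Metric.sphere (0 : EuclideanSpace ℝ (Fin n)) 1 :=
  ⟨‖v‖⁻¹ • v, by simp [norm_smul, inv_mul_cancel₀ (norm_ne_zero_iff.2 h)]⟩

lemma inner_nrm {n : ℕ} (v w : EuclideanSpace ℝ (Fin n)) (h : v ≠ 0) (h' : w ≠ 0) :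
    ⟪(nrm v h).1, (nrm w h').1⟫ = 0 ↔ ⟪v, w⟫ = 0 := by
  simp [nrm, inner_smul_left, inner_smul_right, h, h']

theorem main (n m : ℕ)
    (φ : Metric.sphere (0 : EuclideanSpace ℝ (Fin n)) 1 → EuclideanSpace ℝ (Fin m))
    (hc : Continuous φ)
    (hd : ∀ x y, dist (φ x) (φ y) = Metric.diam (Set.range φ) ↔ ⟪x.1, y.1⟫ = 0) :
    n ^ 2 / 4 ≤ m + 1 := by
  by_contra hlt
  obtain ⟨k, l, hn, hkl⟩ : ∃ k l, k + l = n ∧ k * l = n ^ 2 / 4 := by
    refine ⟨n / 2, n - n / 2, by omega, ?_⟩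
    obtain ⟨q, rfl | rfl⟩ := Nat.even_or_odd' n
    · rw [show 2 * q / 2 = q by omega, show 2 * q - q = q by omega,
        show (2 * q) ^ 2 = 4 * (q * q) by ring]; omega
    · rw [show (2 * q + 1) / 2 = q by omega, show 2 * q + 1 - q = q + 1 by omega,
        show (2 * q + 1) ^ 2 = 4 * (q * (q + 1)) + 1 by ring]; omega
  obtain ⟨N, hN⟩ : ∃ N, k * l = N + 1 := ⟨k * l - 1, by omega⟩
  let e : Fin n ≃ Fin k ⊕ Fin l := (finCongr hn.symm).trans finSumFinEquiv.symm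
  let e' : Fin k × Fin l ≃ Fin (N + 1) := finProdFinEquiv.trans (finCongr hN)
  let y : (Fin (N + 1) → ℝ) → Fin k → EuclideanSpace ℝ (Fin n) := fun x i =>
    vec e (Pi.single i 1) fun j => x (e' (i, j))
  have hy : ∀ x i, y x i ≠ 0 := fun x i h => by
    have := congrArg (fun v : EuclideanSpace ℝ (Fin n) => v (e.symm (Sum.inl i))) h
    simp [y, vec] at this
  have cy : ∀ i, Continuous fun x => y x i := fun i => by
    refine (PiLp.continuous_toLp 2 _).comp (continuous_pi fun j => ?_)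
    rcases e j with a | b
    · exact continuous_const
    · exact continuous_apply _
  let Φ : (Fin (N + 1) → ℝ) → Fin k → EuclideanSpace ℝ (Fin m) := fun x i => φ (nrm (y x i) (hy x i))
  have cΦ : ∀ i, Continuous fun x => Φ x i := fun i =>
    hc.comp (Continuous.subtype_mk (((cy i).norm.inv₀ fun x => norm_ne_zero_iff.2 (hy x i)).smul
      (cy i)) _)
  let G : (Fin (N + 1) → ℝ) → Fin N → ℝ := fun x t =>
    if h : t.1 < m then (∑ i, Φ x i) ⟨t, h⟩ else ∑ i, ‖Φ x i‖ ^ 2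
  have cG : Continuous G := continuous_pi fun t => by
    simp only [G]
    split_ifs with h
    · exact (EuclideanSpace.proj (𝕜 := ℝ) (⟨t, h⟩ : Fin m)).continuous.comp
        (continuous_finset_sum _ fun i _ => cΦ i)
    · exact continuous_finset_sum _ fun i _ => (cΦ i).norm.pow 2
  obtain ⟨x, hx, h0⟩ := Pool.Agent.H87.BU.bu N (fun x => G x - G (-x))
    (cG.sub (cG.comp continuous_neg)).continuousOn (fun x => by simp)
  have h0 : G x = G (-x) := sub_eq_zero.1 h0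
  have g1 : ∑ i, Φ x i = ∑ i, Φ (-x) i := by
    ext t
    have := congrFun h0 ⟨t, by omega⟩
    simpa [G, t.2] using this
  have g2 : ∑ i, ‖Φ x i‖ ^ 2 = ∑ i, ‖Φ (-x) i‖ ^ 2 := by
    have := congrFun h0 ⟨m, by omega⟩
    simpa [G] using this
  obtain ⟨t, ht⟩ : ∃ t, x t ≠ 0 := by
    by_contra h
    push Not at h
    simp [h] at hx
  obtain ⟨⟨i0, j0⟩, rfl⟩ := e'.surjective t
  let z := vec e (fun i => -∑ j, x (e' (i0, j)) * x (e' (i, j))) fun j => x (e' (i0, j))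
  have hz : z ≠ 0 := fun h => by
    have := congrArg (fun v : EuclideanSpace ℝ (Fin n) => v (e.symm (Sum.inr j0))) h
    simp [z, vec, ht] at this
  have z1 : ∀ i, ⟪z, y x i⟫ = 0 := fun i => by
    simp [z, y, inner_vec, Pi.single_apply]
  have z2 : ⟪z, y (-x) i0⟫ ≠ 0 := by
    have : 0 < ∑ j, x (e' (i0, j)) * x (e' (i0, j)) :=
      sum_pos' (fun j _ => mul_self_nonneg _) ⟨j0, mem_univ _, mul_self_pos.2 ht⟩
    simp only [z, y, inner_vec, Pi.single_apply, mul_ite, mul_one, mul_zero, sum_ite_eq', mem_univ,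
      if_true, Pi.neg_apply, mul_neg, sum_neg_distrib]
    linarith
  set D := Metric.diam (Set.range φ)
  have bd : Bornology.IsBounded (Set.range φ) := (isCompact_range hc).isBounded
  let P := φ (nrm z hz)
  have ex : ∀ w : Fin k → EuclideanSpace ℝ (Fin m), ∑ i, dist P (w i) ^ 2 =
      ∑ _i : Fin k, ‖P‖ ^ 2 - 2 * ⟪P, ∑ i, w i⟫ + ∑ i, ‖w i‖ ^ 2 := fun w => by
    simp only [dist_eq_norm, norm_sub_sq_real, inner_sum, mul_sum, sum_add_distrib, sum_sub_distrib]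
  have e1 : ∑ i, dist P (Φ x i) ^ 2 = ∑ _i : Fin k, D ^ 2 :=
    sum_congr rfl fun i _ => by rw [(hd _ _).2 ((inner_nrm _ _ _ _).2 (z1 i))]
  have le : ∀ i, dist P (Φ (-x) i) ≤ D := fun i =>
    Metric.dist_le_diam_of_mem bd ⟨_, rfl⟩ ⟨_, rfl⟩
  have e2 : ∑ i, dist P (Φ (-x) i) ^ 2 < ∑ _i : Fin k, D ^ 2 :=
    sum_lt_sum (fun i _ => pow_le_pow_left₀ dist_nonneg (le i) 2) ⟨i0, mem_univ _,
      pow_lt_pow_left₀ (lt_of_le_of_ne (le i0) fun h => z2 ((inner_nrm _ _ _ _).1 ((hd _ _).1 h)))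
        dist_nonneg two_ne_zero⟩
  rw [ex] at e1 e2
  rw [g1, g2] at e1
  linarith

end Pool.Agent.H9.Ellip
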