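import Mathlib

set_option autoImplicit false

open Finset

namespace Pool.Agent.H9.Fcc

abbrev Z3 := ℤ × ℤ × ℤ

abbrev E := EuclideanSpace ℝ (Fin 3)

def sqd (p q : Z3) : ℤ := (p.1 - q.1) ^ 2 + (p.2.1 - q.2.1) ^ 2 + (p.2.2 - q.2.2) ^ 2

noncomputable def emb (p : Z3) : E :=
  WithLp.toLp 2 ![Real.sqrt 2 * p.1, Real.sqrt 2 * p.2.1, Real.sqrt 2 * p.2.2]

lemma dist_emb (p q : Z3) : dist (emb p) (emb q) = Real.sqrt (2 * sqd p q) := by
  rw [EuclideanSpace.dist_eq]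
  congr 1
  simp only [emb, sqd, Fin.sum_univ_three, Real.dist_eq, sq_abs]
  simp
  have h : Real.sqrt 2 ^ 2 = 2 := Real.sq_sqrt (by norm_num)
  have : ∀ a b : ℝ, (Real.sqrt 2 * a - Real.sqrt 2 * b) ^ 2 = 2 * (a - b) ^ 2 := by
    intro a b; rw [← mul_sub, mul_pow, h]
  rw [this, this, this]; ring

lemma emb_inj : Function.Injective emb := by
  intro p q h
  have h0 := congrArg (fun v : E => v 0) h
  have h1 := congrArg (fun v : E => v 1) h
  have h2 := congrArg (fun v : E => v 2) h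
  simp [emb] at h0 h1 h2
  exact Prod.ext h0 (Prod.ext h1 h2)

lemma dist_two (p q : Z3) (h : sqd p q = 2) : dist (emb p) (emb q) = 2 := by
  rw [dist_emb, h]
  rw [show (2 : ℝ) * ((2 : ℤ) : ℝ) = 2 ^ 2 by norm_num, Real.sqrt_sq (by norm_num)]

lemma dist_ge (p q : Z3) (hne : p ≠ q)
    (hpar : (p.1 + p.2.1 + p.2.2) % 2 = (q.1 + q.2.1 + q.2.2) % 2) :
    2 ≤ dist (emb p) (emb q) := by
  have : 2 ≤ sqd p q := by
    obtain ⟨a, b, c⟩ := p
    obtain ⟨d, e, f⟩ := q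
    simp only [sqd] at *
    have k : ∀ x : ℤ, x ≠ 0 → 1 ≤ x ^ 2 := fun x hx => by
      have := Int.one_le_abs hx; nlinarith [sq_abs x]
    have k2 : ∀ x : ℤ, x ≠ 0 → x % 2 = 0 → 4 ≤ x ^ 2 := fun x hx h2 => by
      have : 2 ≤ |x| := by rcases abs_cases x with h | h <;> omega
      nlinarith [sq_abs x]
    have hh : ¬ (a = d ∧ b = e ∧ c = f) := fun ⟨h1, h2, h3⟩ => hne (by rw [h1, h2, h3])
    have s1 := sq_nonneg (a - d); have s2 := sq_nonneg (b - e); have s3 := sq_nonneg (c - f)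
    by_cases h1 : a - d = 0 <;> by_cases h2 : b - e = 0 <;> by_cases h3 : c - f = 0
    · omega
    · have := k2 _ h3 (by omega); linarith
    · have := k2 _ h2 (by omega); linarith
    · have := k _ h2; have := k _ h3; linarith
    · have := k2 _ h1 (by omega); linarith
    · have := k _ h1; have := k _ h3; linarith
    · have := k _ h1; have := k _ h2; linarith
    · have := k _ h1; have := k _ h2; linarith
  rw [dist_emb]
  apply Real.le_sqrt_of_sq_le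
  have : (2 : ℝ) ≤ sqd p q := by exact_mod_cast this
  linarith

open Classical in
lemma transfer {ι : Type*} (P : Finset Z3) (r : ℕ) (I : Finset ι) (F : ι → Finset Z3)
    (hinj : Set.InjOn F I) (hsub : ∀ i ∈ I, F i ⊆ P) (hcard : ∀ i ∈ I, (F i).card = r)
    (hd : ∀ i ∈ I, ∀ p ∈ F i, ∀ q ∈ F i, p ≠ q → sqd p q = 2) :
    I.card ≤ (((P.image emb).powersetCard r).filter
      (fun T => ∀ x ∈ T, ∀ y ∈ T, x ≠ y → dist x y = 2)).card := by
  refine Finset.card_le_card_of_injOn (fun i => (F i).image emb) ?_ ?_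
  · intro i hi
    simp only [coe_filter, mem_powersetCard, Set.mem_setOf_eq]
    refine ⟨⟨image_subset_image (hsub i hi), ?_⟩, ?_⟩
    · rw [card_image_of_injective _ emb_inj, hcard i hi]
    · intro x hx y hy hxy
      obtain ⟨p, hp, rfl⟩ := mem_image.1 hx
      obtain ⟨q, hq, rfl⟩ := mem_image.1 hy
      exact dist_two p q (hd i hi p hp q hq (fun h => hxy (by rw [h])))
  · intro i hi j hj h
    exact hinj hi hj (Finset.image_injective emb_inj h)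

def sqs (k : ℕ) : Finset (Σ _ : ℕ, ℕ × ℕ) := (range k).sigma fun j => range j ×ˢ range j

def oct (k : ℕ) : Finset Z3 :=
  (sqs (k + 1)).image (fun a => ((a.2.1 : ℤ) + a.2.2 - a.1 + 1, (a.2.1 : ℤ) - a.2.2, (k : ℤ) - a.1)) ∪
  (sqs k).image (fun a => ((a.2.1 : ℤ) + a.2.2 - a.1 + 1, (a.2.1 : ℤ) - a.2.2, (a.1 : ℤ) - k))

lemma card_sqs (k : ℕ) : 6 * ((sqs k).card : ℤ) = k * (k - 1) * (2 * k - 1) := by
  simp only [sqs, card_sigma, card_product, card_range]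
  induction k with
  | zero => simp
  | succ k ih => rw [sum_range_succ]; push_cast at *; linear_combination ih

lemma mem_oct (k : ℕ) (p : Z3) : p ∈ oct k ↔
    p.1.natAbs + p.2.1.natAbs + p.2.2.natAbs + 1 ≤ k ∧ (p.1 + p.2.1 + p.2.2 + k) % 2 = 1 := by
  obtain ⟨x, y, z⟩ := p
  simp only [oct, sqs, mem_union, mem_image, mem_sigma, mem_range, mem_product, Prod.mk.injEq]
  constructor
  · rintro (⟨⟨j, u, v⟩, ⟨h1, h2, h3⟩, h4, h5, h6⟩ | ⟨⟨j, u, v⟩, ⟨h1, h2, h3⟩, h4, h5, h6⟩) <;>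
      simp only at * <;> omega
  · rintro ⟨h1, h2⟩
    by_cases hz : 0 ≤ z
    · left
      refine ⟨⟨k - z.natAbs, ((x + y + k - z - 1) / 2).toNat, ((x - y + k - z - 1) / 2).toNat⟩,
        ?_⟩
      simp only
      omega
    · right
      refine ⟨⟨k - z.natAbs, ((x + y + k + z - 1) / 2).toNat, ((x - y + k + z - 1) / 2).toNat⟩,
        ?_⟩
      simp only
      omega

lemma card_oct (k : ℕ) : 3 * ((oct k).card : ℤ) = 2 * k ^ 3 + k := by
  rw [oct, card_union_of_disjoint, card_image_of_injOn, card_image_of_injOn]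
  · have h1 := card_sqs (k + 1)
    have h2 := card_sqs k
    push_cast at *
    nlinarith
  · rintro ⟨j, u, v⟩ - ⟨j', u', v'⟩ - h
    simp only [Prod.mk.injEq] at h
    have : j = j' := by omega
    subst this
    have : u = u' := by omega
    subst this
    have : v = v' := by omega
    subst this
    rfl
  · rintro ⟨j, u, v⟩ - ⟨j', u', v'⟩ - h
    simp only [Prod.mk.injEq] at h
    have : j = j' := by omega
    subst this
    have : u = u' := by omega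
    subst this
    have : v = v' := by omega
    subst this
    rfl
  · rw [disjoint_left]
    intro p h1 h2
    simp only [sqs, mem_image, mem_sigma, mem_range, mem_product] at h1 h2
    obtain ⟨a, ha, rfl⟩ := h1
    obtain ⟨b, hb, h⟩ := h2
    simp only [Prod.mk.injEq] at h
    omega

def sgn : Finset Z3 := ({1, -1} : Finset ℤ) ×ˢ ({1, -1} : Finset ℤ) ×ˢ ({1, -1} : Finset ℤ)

lemma card_sgn : sgn.card = 8 := by decide

lemma mem_sgn (s : Z3) : s ∈ sgn ↔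
    (s.1 = 1 ∨ s.1 = -1) ∧ (s.2.1 = 1 ∨ s.2.1 = -1) ∧ (s.2.2 = 1 ∨ s.2.2 = -1) := by
  simp [sgn]

def tri (a : Z3 × Z3) : Finset Z3 :=
  {(a.1.1 + a.2.1, a.1.2.1, a.1.2.2), (a.1.1, a.1.2.1 + a.2.2.1, a.1.2.2),
    (a.1.1, a.1.2.1, a.1.2.2 + a.2.2.2)}

lemma tri_card (a : Z3 × Z3) (h : a.2 ∈ sgn) : (tri a).card = 3 := by
  rw [mem_sgn] at h
  rw [tri, card_insert_of_notMem, card_insert_of_notMem, card_singleton]
  · simp only [mem_singleton, Prod.mk.injEq]; omega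
  · simp only [mem_insert, mem_singleton, Prod.mk.injEq]; omega

lemma tri_sum (a : Z3 × Z3) (h : a.2 ∈ sgn) : ∑ p ∈ tri a, p = 3 • a.1 + a.2 := by
  rw [mem_sgn] at h
  rw [tri, sum_insert, sum_insert, sum_singleton]
  · ext <;> simp <;> ring
  · simp only [mem_singleton, Prod.mk.injEq]; omega
  · simp only [mem_insert, mem_singleton, Prod.mk.injEq]; omega

lemma tri_inj (a b : Z3 × Z3) (ha : a.2 ∈ sgn) (hb : b.2 ∈ sgn) (h : tri a = tri b) : a = b := by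
  have h1 := tri_sum a ha
  rw [h, tri_sum b hb] at h1
  rw [mem_sgn] at ha hb
  obtain ⟨⟨x, y, z⟩, ⟨s, t, u⟩⟩ := a
  obtain ⟨⟨x', y', z'⟩, ⟨s', t', u'⟩⟩ := b
  simp only [Prod.smul_mk, Prod.mk_add_mk, Prod.mk.injEq, nsmul_eq_mul] at *
  push_cast at h1
  omega

lemma tri_d (a : Z3 × Z3) (h : a.2 ∈ sgn) : ∀ p ∈ tri a, ∀ q ∈ tri a, p ≠ q → sqd p q = 2 := by
  rw [mem_sgn] at h
  obtain ⟨⟨x, y, z⟩, ⟨s, t, u⟩⟩ := a
  have hs : s ^ 2 = 1 := by rcases h.1 with h | h <;> simp only at h <;> simp [h]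
  have ht : t ^ 2 = 1 := by rcases h.2.1 with h | h <;> simp only at h <;> simp [h]
  have hu : u ^ 2 = 1 := by rcases h.2.2 with h | h <;> simp only at h <;> simp [h]
  intro p hp q hq hpq
  simp only [tri, mem_insert, mem_singleton] at hp hq
  rcases hp with rfl | rfl | rfl <;> rcases hq with rfl | rfl | rfl <;>
    first
    | exact absurd rfl hpq
    | (simp only [sqd]; nlinarith)

def tris (k : ℕ) : Finset (Σ _ : ℕ, ℕ) := (range k).sigma fun j => range j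

lemma card_tris (k : ℕ) : 2 * ((tris k).card : ℤ) = k * (k - 1) := by
  simp only [tris, card_sigma, card_range]
  induction k with
  | zero => simp
  | succ k ih => rw [sum_range_succ]; push_cast at *; linear_combination ih

def cfg3 (k : ℕ) : Finset Z3 :=
  (oct (k + 3) \ {(-(k + 2 : ℤ), 0, 0), (0, -(k + 2 : ℤ), 0), (0, 0, -(k + 2 : ℤ))}) ∪
    {(2, 1, (k + 1 : ℤ)), (1, 2, (k + 1 : ℤ)), (1, 1, (k + 2 : ℤ))}

lemma card_cfg3 (k : ℕ) : (cfg3 k).card = (oct (k + 3)).card := by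
  have h1 : ({(-(k + 2 : ℤ), 0, 0), (0, -(k + 2 : ℤ), 0), (0, 0, -(k + 2 : ℤ))} : Finset Z3) ⊆
      oct (k + 3) := by
    intro p hp
    simp only [mem_insert, mem_singleton] at hp
    rcases hp with rfl | rfl | rfl <;> rw [mem_oct] <;> simp only <;> omega
  have h2 : ({(-(k + 2 : ℤ), 0, 0), (0, -(k + 2 : ℤ), 0), (0, 0, -(k + 2 : ℤ))} :
      Finset Z3).card = 3 := by
    rw [card_insert_of_notMem, card_insert_of_notMem, card_singleton]
    · simp only [mem_singleton, Prod.mk.injEq]; omega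
    · simp only [mem_insert, mem_singleton, Prod.mk.injEq]; omega
  have h3 : ({(2, 1, (k + 1 : ℤ)), (1, 2, (k + 1 : ℤ)), (1, 1, (k + 2 : ℤ))} :
      Finset Z3).card = 3 := by
    rw [card_insert_of_notMem, card_insert_of_notMem, card_singleton]
    · simp only [mem_singleton, Prod.mk.injEq]; omega
    · simp only [mem_insert, mem_singleton, Prod.mk.injEq]; omega
  have h4 := card_le_card h1
  rw [cfg3, card_union_of_disjoint, card_sdiff_of_subset h1, h2, h3]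
  · omega
  · rw [disjoint_right]
    intro p hp hq
    have := (mem_oct _ _).1 (mem_sdiff.1 hq).1
    simp only [mem_insert, mem_singleton] at hp
    rcases hp with rfl | rfl | rfl <;> simp only at this <;> omega

def B8 (n x y z : ℤ) : Prop :=
  x + y + z ≤ n ∧ x + y - z ≤ n ∧ x - y + z ≤ n ∧ x - y - z ≤ n ∧
    -x + y + z ≤ n ∧ -x + y - z ≤ n ∧ -x - y + z ≤ n ∧ -x - y - z ≤ n

lemma mem_oct' (k : ℕ) (x y z : ℤ) : (x, y, z) ∈ oct k ↔
    B8 (k - 1) x y z ∧ (x + y + z + k) % 2 = 1 := by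
  rw [mem_oct]
  simp only [B8]
  constructor
  · rintro ⟨h1, h2⟩
    refine ⟨⟨?_, ?_, ?_, ?_, ?_, ?_, ?_, ?_⟩, h2⟩ <;> clear h2 <;> omega
  · rintro ⟨h1, h2⟩
    refine ⟨?_, h2⟩
    clear h2
    omega

lemma mem_cfg3_of (k : ℕ) (x y z : ℤ) (h1 : B8 (k + 2) x y z) (h2 : (x + y + z + k) % 2 = 0)
    (h3 : x = -(k + 2) → False) (h4 : y = -(k + 2) → False) (h5 : z = -(k + 2) → False) :
    (x, y, z) ∈ cfg3 k := by
  refine mem_union_left _ (mem_sdiff.2 ⟨(mem_oct' _ _ _ _).2 ⟨?_, ?_⟩, ?_⟩)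
  · push_cast
    rw [show (k : ℤ) + 3 - 1 = k + 2 by ring]; exact h1
  · push_cast; omega
  · simp only [mem_insert, mem_singleton, Prod.mk.injEq]
    rintro (h | h | h)
    · exact h3 h.1
    · exact h4 h.2.1
    · exact h5 h.2.2

lemma mem_cfg3_isl (k : ℕ) (x y z : ℤ)
    (h : (x = 2 ∧ y = 1 ∧ z = k + 1) ∨ (x = 1 ∧ y = 2 ∧ z = k + 1) ∨
      (x = 1 ∧ y = 1 ∧ z = k + 2)) : (x, y, z) ∈ cfg3 k := by
  refine mem_union_right _ ?_
  simpa only [mem_insert, mem_singleton, Prod.mk.injEq] using h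

lemma cfg3_par (k : ℕ) (x y z : ℤ) (h : (x, y, z) ∈ cfg3 k) : (x + y + z + k) % 2 = 0 := by
  rcases mem_union.1 h with h | h
  · have := ((mem_oct' _ _ _ _).1 (mem_sdiff.1 h).1).2
    push_cast at this; omega
  · simp only [mem_insert, mem_singleton, Prod.mk.injEq] at h
    omega

def I1 (k : ℕ) : Finset (Z3 × Z3) := oct (k + 2) ×ˢ sgn

def I2 (k : ℕ) : Finset (Z3 × Z3) :=
  (tris (k + 2) ×ˢ sgn).image fun a =>
    ((-a.2.1 * (a.1.2 + 1), -a.2.2.1 * (a.1.1 - a.1.2), -a.2.2.2 * (k + 2 - a.1.1)), a.2)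

def new0 : Finset (Z3 × Z3) :=
  {((1, 1, 1), (1, 1, 1)), ((1, 1, 1), (1, 1, -1)), ((1, 1, 1), (1, -1, 1)),
   ((1, 1, 1), (-1, 1, 1)), ((1, 1, 1), (1, -1, -1)), ((1, 1, 1), (-1, 1, -1)),
   ((1, 1, 1), (-1, -1, 1)),
   ((2, 0, 1), (-1, 1, -1)), ((2, 1, 0), (-1, -1, 1)), ((0, 2, 1), (1, -1, -1)),
   ((1, 2, 0), (-1, -1, 1)), ((0, 1, 2), (1, -1, -1)), ((1, 0, 2), (-1, 1, -1))}

def I3 (k : ℕ) : Finset (Z3 × Z3) :=
  new0.image fun a => ((a.1.1, a.1.2.1, a.1.2.2 + k), a.2)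

def bad (k : ℕ) : Finset (Z3 × Z3) :=
  ({((-(k + 1 : ℤ), (0 : ℤ), (0 : ℤ)) : Z3)} ×ˢ sgn.filter fun s => s.1 = -1) ∪
  ({(((0 : ℤ), -(k + 1 : ℤ), (0 : ℤ)) : Z3)} ×ˢ sgn.filter fun s => s.2.1 = -1) ∪
  ({(((0 : ℤ), (0 : ℤ), -(k + 1 : ℤ)) : Z3)} ×ˢ sgn.filter fun s => s.2.2 = -1)

lemma card_bad (k : ℕ) : (bad k).card ≤ 12 := by
  refine (card_union_le _ _).trans ?_
  refine (Nat.add_le_add_right (card_union_le _ _) _).trans ?_
  simp only [card_product, card_singleton, one_mul]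
  decide

lemma card_I2 (k : ℕ) : ((I2 k).card : ℤ) = 4 * (k + 2) * (k + 1) := by
  rw [I2, card_image_of_injOn, card_product, card_sgn]
  · have := card_tris (k + 2)
    push_cast at *
    linear_combination 4 * this
  · rintro ⟨⟨j, u⟩, s⟩ h1 ⟨⟨j', u'⟩, s'⟩ h2 h
    simp only [Prod.mk.injEq] at h
    obtain ⟨⟨e1, -, e3⟩, rfl⟩ := h
    have hs := (mem_sgn _).1 (mem_product.1 (mem_coe.1 h1)).2
    simp only at hs
    have : j = j' := by rcases hs.2.2 with h | h <;> rw [h] at e3 <;> omega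
    subst this
    have : u = u' := by rcases hs.1 with h | h <;> rw [h] at e1 <;> omega
    subst this
    rfl

lemma card_I3 (k : ℕ) : (I3 k).card = 13 := by
  rw [I3, card_image_of_injective]
  · decide
  · rintro ⟨⟨x, y, z⟩, s⟩ ⟨⟨x', y', z'⟩, s'⟩ h
    simp only [Prod.mk.injEq] at h ⊢
    exact ⟨⟨h.1.1, h.1.2.1, by omega⟩, h.2⟩

lemma mem_I2 (k : ℕ) (a : Z3 × Z3) (h : a ∈ I2 k) : a.2 ∈ sgn ∧
    a.1.1.natAbs + a.1.2.1.natAbs + a.1.2.2.natAbs = k + 3 ∧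
    (a.1.1 + a.1.2.1 + a.1.2.2 + k) % 2 = 1 ∧
    ((a.2.1 = 1 ∧ a.1.1 ≤ -1) ∨ (a.2.1 = -1 ∧ 1 ≤ a.1.1)) ∧
    ((a.2.2.1 = 1 ∧ a.1.2.1 ≤ -1) ∨ (a.2.2.1 = -1 ∧ 1 ≤ a.1.2.1)) ∧
    ((a.2.2.2 = 1 ∧ a.1.2.2 ≤ -1) ∨ (a.2.2.2 = -1 ∧ 1 ≤ a.1.2.2)) := by
  obtain ⟨⟨⟨j, u⟩, ⟨s, t, w⟩⟩, h1, rfl⟩ := mem_image.1 h
  obtain ⟨h2, h3⟩ := mem_product.1 h1
  refine ⟨h3, ?_⟩
  rw [mem_sgn] at h3
  simp only [tris, mem_sigma, mem_range] at h2 h3 ⊢
  obtain ⟨rfl | rfl, rfl | rfl, rfl | rfl⟩ := h3 <;> omega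

lemma main3 (k : ℕ) : ∃ I : Finset (Z3 × Z3), (∀ a ∈ I, a.2 ∈ sgn ∧ tri a ⊆ cfg3 k) ∧
    4 * ((k : ℤ) + 2) * (k + 3) * (4 * k + 7) < 3 * I.card := by
  have d12 : Disjoint (I1 k) (I2 k) := by
    rw [disjoint_left]
    intro a h1 h2
    have := (mem_oct _ _).1 (mem_product.1 h1).1
    have := (mem_I2 k a h2).2.1
    omega
  have m3 : ∀ a ∈ I3 k, a.2 ∈ sgn ∧ tri a ⊆ cfg3 k ∧
      a.1.1.natAbs + a.1.2.1.natAbs + a.1.2.2.natAbs = k + 3 ∧ a ∉ I2 k := by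
    intro a ha
    obtain ⟨b, hb, rfl⟩ := mem_image.1 ha
    simp only [new0, mem_insert, mem_singleton] at hb
    rcases hb with rfl | rfl | rfl | rfl | rfl | rfl | rfl | rfl | rfl | rfl | rfl | rfl | rfl
    all_goals
      refine ⟨by simp [mem_sgn], ?_, by simp only; omega, ?_⟩
      · intro p hp
        simp only [tri, mem_insert, mem_singleton] at hp
        rcases hp with rfl | rfl | rfl <;>
          first
          | (apply mem_cfg3_isl; omega)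
          | (refine mem_cfg3_of _ _ _ _ ⟨?_, ?_, ?_, ?_, ?_, ?_, ?_, ?_⟩ ?_ ?_ ?_ ?_ <;> omega)
      · intro h
        have := mem_I2 k _ h
        simp only at this
        omega
  have d3 : Disjoint (I1 k ∪ I2 k) (I3 k) := by
    rw [disjoint_right]
    intro a h3 h
    rcases mem_union.1 h with h | h
    · have := (mem_oct _ _).1 (mem_product.1 h).1
      have := (m3 a h3).2.2.1
      omega
    · exact (m3 a h3).2.2.2 h
  refine ⟨(I1 k ∪ I2 k ∪ I3 k) \ bad k, ?_, ?_⟩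
  · intro a ha
    obtain ⟨h1, h2⟩ := mem_sdiff.1 ha
    rcases mem_union.1 h1 with h1 | h1
    · rcases mem_union.1 h1 with h1 | h1
      · obtain ⟨h3, h4⟩ := mem_product.1 h1
        refine ⟨h4, ?_⟩
        obtain ⟨⟨x, y, z⟩, ⟨s, t, u⟩⟩ := a
        simp only at h3 h4
        simp only [bad, mem_union, mem_product, mem_singleton, mem_filter, h4, true_and,
          Prod.mk.injEq, not_or] at h2
        obtain ⟨⟨b1, b2⟩, b3⟩ := h2
        rw [mem_oct'] at h3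
        obtain ⟨⟨a1, a2, a3, a4, a5, a6, a7, a8⟩, a9⟩ := h3
        push_cast at a1 a2 a3 a4 a5 a6 a7 a8 a9
        obtain ⟨c1, c2, c3⟩ := (mem_sgn _).1 h4
        simp only at c1 c2 c3
        intro p hp
        simp only [tri, mem_insert, mem_singleton] at hp
        clear h4 h1 ha
        rcases hp with rfl | rfl | rfl
        · refine mem_cfg3_of _ _ _ _ ⟨?_, ?_, ?_, ?_, ?_, ?_, ?_, ?_⟩ ?_ ?_ ?_ ?_ <;>
            clear b2 b3 c2 c3 <;> omega
        · refine mem_cfg3_of _ _ _ _ ⟨?_, ?_, ?_, ?_, ?_, ?_, ?_, ?_⟩ ?_ ?_ ?_ ?_ <;>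
            clear b1 b3 c1 c3 <;> omega
        · refine mem_cfg3_of _ _ _ _ ⟨?_, ?_, ?_, ?_, ?_, ?_, ?_, ?_⟩ ?_ ?_ ?_ ?_ <;>
            clear b1 b2 c1 c2 <;> omega
      · have h3 := mem_I2 k a h1
        refine ⟨h3.1, ?_⟩
        obtain ⟨⟨x, y, z⟩, ⟨s, t, u⟩⟩ := a
        obtain ⟨a1, a2, a3, a4, a5⟩ := h3.2
        intro p hp
        simp only [tri, mem_insert, mem_singleton] at hp a1 a2 a3 a4 a5
        clear h3 h1 h2 ha
        rcases a3 with ⟨rfl, a3⟩ | ⟨rfl, a3⟩ <;> rcases a4 with ⟨rfl, a4⟩ | ⟨rfl, a4⟩ <;>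
          rcases a5 with ⟨rfl, a5⟩ | ⟨rfl, a5⟩ <;> rcases hp with rfl | rfl | rfl <;>
          refine mem_cfg3_of _ _ _ _ ⟨?_, ?_, ?_, ?_, ?_, ?_, ?_, ?_⟩ ?_ ?_ ?_ ?_ <;> omega
    · exact ⟨(m3 a h1).1, (m3 a h1).2.1⟩
  · have h1 := le_card_sdiff (bad k) (I1 k ∪ I2 k ∪ I3 k)
    rw [card_union_of_disjoint d3, card_union_of_disjoint d12, card_I3] at h1
    have h2 := card_bad k
    have h3 := card_I2 k
    have h4 := card_oct (k + 2)
    have h5 : (I1 k).card = (oct (k + 2)).card * 8 := by rw [I1, card_product, card_sgn]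
    have h6 : ((I1 k).card : ℤ) + (I2 k).card + 1 ≤ ((I1 k ∪ I2 k ∪ I3 k) \ bad k).card := by
      omega
    rw [h5] at h6
    push_cast at h4 h6
    nlinarith

open Classical in
theorem triplets (k : ℕ) (hk : 3 ≤ k) : ∃ P : Finset E, 3 * P.card = 2 * k ^ 3 + k ∧
    (∀ x ∈ P, ∀ y ∈ P, x ≠ y → 2 ≤ dist x y) ∧
    4 * ((k : ℤ) - 1) * k * (4 * k - 5) < 3 * (((P.powersetCard 3).filter
      (fun T => ∀ x ∈ T, ∀ y ∈ T, x ≠ y → dist x y = 2)).card : ℤ) := by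
  obtain ⟨k, rfl⟩ := Nat.exists_eq_add_of_le' hk
  refine ⟨(cfg3 k).image emb, ?_, ?_, ?_⟩
  · rw [card_image_of_injective _ emb_inj, card_cfg3]
    have := card_oct (k + 3)
    exact_mod_cast this
  · intro x hx y hy hxy
    obtain ⟨⟨a, b, c⟩, hp, rfl⟩ := mem_image.1 hx
    obtain ⟨⟨d, e, f⟩, hq, rfl⟩ := mem_image.1 hy
    refine dist_ge _ _ (fun h => hxy (by rw [h])) ?_
    have := cfg3_par _ _ _ _ hp
    have := cfg3_par _ _ _ _ hq
    simp only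
    omega
  · obtain ⟨I, hI, hc⟩ := main3 k
    have := transfer (cfg3 k) 3 I tri (fun a ha b hb h => tri_inj a b (hI a ha).1 (hI b hb).1 h)
      (fun a ha => (hI a ha).2) (fun a ha => tri_card a (hI a ha).1)
      (fun a ha => tri_d a (hI a ha).1)
    have h2 : (I.card : ℤ) ≤ _ := Int.ofNat_le.2 this
    push_cast
    nlinarith

end Pool.Agent.H9.Fcc
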