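import Pool.Agent.H9.Fcc

set_option autoImplicit false

open Finset

namespace Pool.Agent.H9.Fcc

def tet (k : ℕ) (c : Z3) : Finset Z3 :=
  if (c.1 + c.2.1 + c.2.2 + k) % 2 = 0 then
    {(c.1 + 1, c.2.1, c.2.2), (c.1, c.2.1 + 1, c.2.2), (c.1, c.2.1, c.2.2 + 1),
      (c.1 + 1, c.2.1 + 1, c.2.2 + 1)}
  else
    {(c.1, c.2.1, c.2.2), (c.1 + 1, c.2.1 + 1, c.2.2), (c.1 + 1, c.2.1, c.2.2 + 1),
      (c.1, c.2.1 + 1, c.2.2 + 1)}

lemma tet_card (k : ℕ) (c : Z3) : (tet k c).card = 4 := by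
  unfold tet
  split_ifs <;>
  · rw [card_insert_of_notMem, card_insert_of_notMem, card_insert_of_notMem, card_singleton] <;>
      simp only [mem_insert, mem_singleton, Prod.mk.injEq] <;> omega

lemma tet_sum (k : ℕ) (c : Z3) : ∑ p ∈ tet k c, p = 4 • c + (2, 2, 2) := by
  unfold tet
  split_ifs <;>
  · rw [sum_insert, sum_insert, sum_insert, sum_singleton]
    · ext <;> simp <;> ring
    all_goals simp only [mem_insert, mem_singleton, Prod.mk.injEq]; omega

lemma tet_inj (k : ℕ) (a b : Z3) (h : tet k a = tet k b) : a = b := by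
  have h1 := tet_sum k a
  rw [h, tet_sum k b] at h1
  obtain ⟨x, y, z⟩ := a
  obtain ⟨x', y', z'⟩ := b
  simp only [Prod.smul_mk, Prod.mk_add_mk, Prod.mk.injEq, nsmul_eq_mul] at *
  push_cast at h1
  omega

lemma tet_d (k : ℕ) (c : Z3) : ∀ p ∈ tet k c, ∀ q ∈ tet k c, p ≠ q → sqd p q = 2 := by
  intro p hp q hq hpq
  unfold tet at hp hq
  split_ifs at hp hq <;>
  · simp only [mem_insert, mem_singleton] at hp hq
    rcases hp with rfl | rfl | rfl | rfl <;> rcases hq with rfl | rfl | rfl | rfl <;>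
      first
      | exact absurd rfl hpq
      | (simp only [sqd]; ring)

def tets (k : ℕ) : Finset (Σ _ : ℕ, Σ _ : ℕ, ℕ) := (range k).sigma fun j => tris (j + 1)

lemma card_tets (k : ℕ) : 6 * ((tets k).card : ℤ) = (k + 1) * k * (k - 1) := by
  simp only [tets, card_sigma]
  induction k with
  | zero => simp
  | succ k ih =>
    rw [sum_range_succ]
    have := card_tris (k + 1)
    push_cast at *
    linear_combination ih + 3 * this

def cfg4 (k : ℕ) : Finset Z3 :=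
  (oct (k + 2) \ {(0, 0, -(k + 1 : ℤ))}) ∪ {((k + 1 : ℤ), 1, 1)}

lemma card_cfg4 (k : ℕ) : (cfg4 k).card = (oct (k + 2)).card := by
  have h1 : ({(0, 0, -(k + 1 : ℤ))} : Finset Z3) ⊆ oct (k + 2) := by
    intro p hp
    simp only [mem_singleton] at hp
    subst hp
    rw [mem_oct]; simp only; omega
  have h4 := card_le_card h1
  rw [cfg4, card_union_of_disjoint, card_sdiff_of_subset h1]
  · simp only [card_singleton] at h4 ⊢; omega
  · rw [disjoint_right]
    intro p hp hq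
    have := (mem_oct _ _).1 (mem_sdiff.1 hq).1
    simp only [mem_singleton] at hp
    subst hp
    simp only at this; omega

lemma mem_cfg4_of (k : ℕ) (x y z : ℤ) (h1 : B8 (k + 1) x y z) (h2 : (x + y + z + k) % 2 = 1)
    (h5 : x = 0 → y = 0 → z = -(k + 1) → False) : (x, y, z) ∈ cfg4 k := by
  refine mem_union_left _ (mem_sdiff.2 ⟨(mem_oct' _ _ _ _).2 ⟨?_, ?_⟩, ?_⟩)
  · push_cast
    rw [show (k : ℤ) + 2 - 1 = k + 1 by ring]; exact h1
  · push_cast; omega
  · simp only [mem_singleton, Prod.mk.injEq]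
    exact fun h => h5 h.1 h.2.1 h.2.2

lemma cfg4_par (k : ℕ) (x y z : ℤ) (h : (x, y, z) ∈ cfg4 k) : (x + y + z + k) % 2 = 1 := by
  rcases mem_union.1 h with h | h
  · have := ((mem_oct' _ _ _ _).1 (mem_sdiff.1 h).1).2
    push_cast at this; omega
  · simp only [mem_singleton, Prod.mk.injEq] at h
    omega

def co (s a : ℤ) : ℤ := if s = 1 then a else -a - 1

def J1 (k : ℕ) : Finset Z3 :=
  (tets (k + 1) ×ˢ sgn).image fun a =>
    (co a.2.1 a.1.2.2, co a.2.2.1 (a.1.2.1 - 1 - a.1.2.2), co a.2.2.2 (a.1.1 - a.1.2.1))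

lemma card_J1 (k : ℕ) : 3 * ((J1 k).card : ℤ) = 4 * (k + 2) * (k + 1) * k := by
  rw [J1, card_image_of_injOn, card_product, card_sgn]
  · have := card_tets (k + 1)
    push_cast at *
    linear_combination 4 * this
  · rintro ⟨⟨j, i, u⟩, ⟨s, t, w⟩⟩ h1 ⟨⟨j', i', u'⟩, ⟨s', t', w'⟩⟩ h2 h
    obtain ⟨a1, a2⟩ := mem_product.1 (mem_coe.1 h1)
    obtain ⟨b1, b2⟩ := mem_product.1 (mem_coe.1 h2)
    rw [mem_sgn] at a2 b2
    simp only [tets, tris, mem_sigma, mem_range] at a1 a2 b1 b2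
    simp only [Prod.mk.injEq, co] at h
    obtain ⟨e1, e2, e3⟩ := h
    have f1 : s = s' ∧ u = u' := by
      have := a2.1; have := b2.1
      clear e2 e3 a2 b2 h1 h2
      split_ifs at e1 <;> omega
    obtain ⟨rfl, rfl⟩ := f1
    have f2 : t = t' ∧ i = i' := by
      have := a2.2.1; have := b2.2.1
      clear e1 e3 a2 b2 h1 h2
      split_ifs at e2 <;> omega
    obtain ⟨rfl, rfl⟩ := f2
    have f3 : w = w' ∧ j = j' := by
      have := a2.2.2; have := b2.2.2
      clear e1 e2 a2 b2 h1 h2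
      split_ifs at e3 <;> omega
    obtain ⟨rfl, rfl⟩ := f3
    rfl

lemma mem_J1 (k : ℕ) (c : Z3) (h : c ∈ J1 k) : tet k c ⊆ cfg4 k ∧ c ≠ ((k : ℤ), 0, 0) := by
  obtain ⟨⟨⟨j, i, u⟩, ⟨s, t, w⟩⟩, h1, rfl⟩ := mem_image.1 h
  obtain ⟨a1, a2⟩ := mem_product.1 h1
  rw [mem_sgn] at a2
  simp only [tets, tris, mem_sigma, mem_range] at a1 a2
  obtain ⟨a1, a3, a4⟩ := a1
  clear h h1
  have n1 : ¬ ((-1 : ℤ) = 1) := by norm_num
  obtain ⟨rfl | rfl, rfl | rfl, rfl | rfl⟩ := a2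
  all_goals
    simp only [co, if_true, n1, if_false]
    refine ⟨?_, by simp only [ne_eq, Prod.mk.injEq]; omega⟩
    intro p hp
    unfold tet at hp
    split_ifs at hp with hpar <;>
    · simp only [mem_insert, mem_singleton] at hp hpar
      rcases hp with rfl | rfl | rfl | rfl <;>
        refine mem_cfg4_of _ _ _ _ ⟨?_, ?_, ?_, ?_, ?_, ?_, ?_, ?_⟩ ?_ ?_ <;> omega

open Classical in
theorem quads (k : ℕ) (hk : 2 ≤ k) : ∃ P : Finset E, 3 * P.card = 2 * k ^ 3 + k ∧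
    (∀ x ∈ P, ∀ y ∈ P, x ≠ y → 2 ≤ dist x y) ∧
    4 * ((k : ℤ) - 2) * (k - 1) * k < 3 * (((P.powersetCard 4).filter
      (fun T => ∀ x ∈ T, ∀ y ∈ T, x ≠ y → dist x y = 2)).card : ℤ) := by
  obtain ⟨k, rfl⟩ := Nat.exists_eq_add_of_le' hk
  refine ⟨(cfg4 k).image emb, ?_, ?_, ?_⟩
  · rw [card_image_of_injective _ emb_inj, card_cfg4]
    have := card_oct (k + 2)
    exact_mod_cast this
  · intro x hx y hy hxy
    obtain ⟨⟨a, b, c⟩, hp, rfl⟩ := mem_image.1 hx
    obtain ⟨⟨d, e, f⟩, hq, rfl⟩ := mem_image.1 hy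
    refine dist_ge _ _ (fun h => hxy (by rw [h])) ?_
    have := cfg4_par _ _ _ _ hp
    have := cfg4_par _ _ _ _ hq
    simp only
    omega
  · have hn : ((k : ℤ), (0 : ℤ), (0 : ℤ)) ∉ J1 k := fun h => (mem_J1 k _ h).2 rfl
    have := transfer (cfg4 k) 4 (insert ((k : ℤ), 0, 0) (J1 k)) (tet k)
      (fun a _ b _ h => tet_inj k a b h)
      (by
        intro a ha
        rcases mem_insert.1 ha with rfl | ha
        · intro p hp
          unfold tet at hp
          rw [if_pos (by simp only; omega)] at hp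
          simp only [mem_insert, mem_singleton] at hp
          rcases hp with rfl | rfl | rfl | rfl
          · refine mem_cfg4_of _ _ _ _ ⟨?_, ?_, ?_, ?_, ?_, ?_, ?_, ?_⟩ ?_ ?_ <;> omega
          · refine mem_cfg4_of _ _ _ _ ⟨?_, ?_, ?_, ?_, ?_, ?_, ?_, ?_⟩ ?_ ?_ <;> omega
          · refine mem_cfg4_of _ _ _ _ ⟨?_, ?_, ?_, ?_, ?_, ?_, ?_, ?_⟩ ?_ ?_ <;> omega
          · exact mem_union_right _ (by simp)
        · exact (mem_J1 k a ha).1)
      (fun a _ => tet_card k a) (fun a _ => tet_d k a)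
    rw [card_insert_of_notMem hn] at this
    have h2 : (((J1 k).card + 1 : ℕ) : ℤ) ≤ _ := Int.ofNat_le.2 this
    have h3 := card_J1 k
    push_cast at h2 ⊢
    nlinarith

end Pool.Agent.H9.Fcc
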