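import Mathlib

set_option autoImplicit false

open Finset

namespace Pool.Agent.H9.PlaneM

abbrev Pt := ℝ × ℝ

noncomputable def H (e : Pt × Pt) (x : ℝ) : ℝ :=
  e.1.2 + (x - e.1.1) * ((e.2.2 - e.1.2) / (e.2.1 - e.1.1))

def In (e : Pt × Pt) (x : ℝ) : Prop := e.1.1 ≤ x ∧ x ≤ e.2.1

def NC (e f : Pt × Pt) : Prop := ∀ x, In e x → In f x → H e x ≠ H f x

lemma NC.symm {e f : Pt × Pt} (h : NC e f) : NC f e := fun x a b => (h x b a).symm

lemma H_left (e : Pt × Pt) : H e e.1.1 = e.1.2 := by simp [H]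

lemma H_right (e : Pt × Pt) (h : e.1.1 < e.2.1) : H e e.2.1 = e.2.2 := by
  have : e.2.1 - e.1.1 ≠ 0 := by linarith [sub_pos.2 h] |> fun (h : 0 < e.2.1 - e.1.1) => h.ne'
  unfold H; field_simp; ring

lemma NC.lt {e f : Pt × Pt} (h : NC e f) {x y : ℝ} (ex : In e x) (fx : In f x) (ey : In e y)
    (fy : In f y) (hx : H e x < H f x) : H e y < H f y := by
  by_contra hc
  have cont : ContinuousOn (fun t => H e t - H f t) (Set.uIcc x y) := by
    unfold H; fun_prop
  have h0 : (0 : ℝ) ∈ Set.uIcc (H e x - H f x) (H e y - H f y) :=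
    Set.mem_uIcc.2 (Or.inl ⟨by linarith, by linarith [not_lt.1 hc]⟩)
  obtain ⟨z, hz, e0⟩ := intermediate_value_uIcc cont h0
  have hz' := Set.mem_uIcc.1 hz
  refine h z ?_ ?_ (by simpa [sub_eq_zero] using e0)
  · obtain ⟨a, b⟩ := ex; obtain ⟨c, d⟩ := ey
    rcases hz' with ⟨u, v⟩ | ⟨u, v⟩ <;> constructor <;> linarith
  · obtain ⟨a, b⟩ := fx; obtain ⟨c, d⟩ := fy
    rcases hz' with ⟨u, v⟩ | ⟨u, v⟩ <;> constructor <;> linarith

open Classical in
noncomputable def Edges (P : Finset Pt) : Finset (Pt × Pt) :=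
  (P ×ˢ P).filter (fun e => e.1.1 < e.2.1)

lemma mem_Edges {P : Finset Pt} {e : Pt × Pt} :
    e ∈ Edges P ↔ e.1 ∈ P ∧ e.2 ∈ P ∧ e.1.1 < e.2.1 := by
  simp [Edges, and_assoc]

def Good (P : Finset Pt) : Prop :=
  (∀ p ∈ P, ∀ q ∈ P, p.1 = q.1 → p = q) ∧
  ∀ e ∈ Edges P, ∀ s ∈ P, e.1.1 < s.1 → s.1 < e.2.1 → s.2 ≠ H e s.1

lemma Good.mono {P A : Finset Pt} (h : Good P) (hA : A ⊆ P) : Good A :=
  ⟨fun p hp q hq => h.1 p (hA hp) q (hA hq), fun e he s hs =>
    h.2 e (mem_Edges.2 ⟨hA (mem_Edges.1 he).1, hA (mem_Edges.1 he).2.1, (mem_Edges.1 he).2.2⟩) s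
      (hA hs)⟩

def Btw (a b c : ℝ) : Prop := (a < c ∧ c < b) ∨ (b < c ∧ c < a)

def Sees (M : Finset (Pt × Pt)) (e : Pt × Pt) (s : Pt) : Prop :=
  e.1.1 < s.1 ∧ s.1 < e.2.1 ∧ ∀ f ∈ M, In f s.1 → ¬ Btw s.2 (H e s.1) (H f s.1)

open Classical in
noncomputable def seers (P : Finset Pt) (M : Finset (Pt × Pt)) (e : Pt × Pt) : Finset Pt :=
  P.filter (Sees M e)

open Classical in
noncomputable def rank (T : Finset Pt) (s : Pt) : ℕ := (T.filter (fun t => t.1 < s.1)).card

lemma rank_lt {T : Finset Pt} {s r : Pt} (hs : s ∈ T) (h : s.1 < r.1) : rank T s < rank T r := by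
  classical
  unfold rank
  apply card_lt_card
  refine ⟨fun t ht => ?_, fun hc => ?_⟩
  · simp only [mem_filter] at ht ⊢
    exact ⟨ht.1, ht.2.trans h⟩
  · have := hc (mem_filter.2 ⟨hs, h⟩)
    simp at this

lemma rank_lt_card {T : Finset Pt} {s : Pt} (hs : s ∈ T) : rank T s < T.card := by
  classical
  unfold rank
  apply card_lt_card
  refine ⟨filter_subset _ _, fun hc => ?_⟩
  have := hc hs
  simp at this

open Classical in
noncomputable def up (P : Finset Pt) (M : Finset (Pt × Pt)) (e : Pt × Pt) : Finset ℕ :=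
  ((seers P M e).filter (fun s => H e s.1 < s.2)).image (rank (seers P M e))

open Classical in
noncomputable def dn (P : Finset Pt) (M : Finset (Pt × Pt)) (e : Pt × Pt) : Finset ℕ :=
  ((seers P M e).filter (fun s => s.2 < H e s.1)).image (rank (seers P M e))

lemma wedge (P : Finset Pt) (hP : Good P) (M : Finset (Pt × Pt)) (hM : M ⊆ Edges P)
    (e e' : Pt × Pt) (he : e ∈ Edges P) (he' : e' ∈ Edges P) (h1 : e.1 = e'.1) (h2 : e.2 ≠ e'.2)
    (hs : ∀ x, e.1.1 ≤ x → H e x ≤ H e' x) (n1 : ∀ f ∈ M, NC e f) (n2 : ∀ f ∈ M, NC e' f)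
    (u : up P M e = up P M e') (d : dn P M e = dn P M e') : False := by
  classical
  obtain ⟨p1, q1, l1⟩ := mem_Edges.1 he
  obtain ⟨p2, q2, l2⟩ := mem_Edges.1 he'
  have h11 : e'.1.1 = e.1.1 := by rw [h1]
  set W := P.filter (fun s => e.1.1 < s.1 ∧ s.1 ≤ e.2.1 ∧ s.1 ≤ e'.2.1 ∧ H e s.1 ≤ s.2 ∧
    s.2 ≤ H e' s.1) with hW
  have hne : W.Nonempty := by
    rcases le_total e.2.1 e'.2.1 with h | h
    · refine ⟨e.2, mem_filter.2 ⟨q1, l1, le_rfl, h, (H_right e l1).le, ?_⟩⟩
      rw [← H_right e l1]; exact hs _ l1.le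
    · refine ⟨e'.2, mem_filter.2 ⟨q2, by linarith, h, le_rfl, ?_, (H_right e' l2).ge⟩⟩
      rw [← H_right e' l2]; exact hs _ (by linarith)
  obtain ⟨r, hr, hmin⟩ := exists_min_image W (fun s => s.1) hne
  obtain ⟨rP, r1, r2, r3, r4, r5⟩ := mem_filter.1 hr
  have key : ∀ f ∈ M, ∀ x, e.1.1 < x → x ≤ r.1 → In f x → H e x ≤ H f x → H f x ≤ H e' x →
      r.1 ≤ f.1.1 := by
    intro f hf x x1 x2 fx a1 a2
    have ex : In e x := ⟨x1.le, by linarith⟩
    have ex' : In e' x := ⟨by linarith, by linarith⟩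
    have b1 : H e x < H f x := lt_of_le_of_ne a1 (n1 f hf x ex fx)
    have b2 : H f x < H e' x := lt_of_le_of_ne a2 (n2 f hf x ex' fx).symm
    obtain ⟨f1, f2, f3⟩ := mem_Edges.1 (hM hf)
    by_cases hc : f.1.1 ≤ e.1.1
    · have fy : In f e.1.1 := ⟨hc, by linarith [fx.2]⟩
      have c1 := (n1 f hf).lt ex fx ⟨le_rfl, l1.le⟩ fy b1
      have c2 := (n2 f hf).symm.lt fx ex' fy ⟨h11.le, by linarith⟩ b2
      have : H e' e.1.1 = H e e.1.1 := by rw [H_left, h1, H_left]
      linarith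
    · push Not at hc
      have fy : In f f.1.1 := ⟨le_rfl, f3.le⟩
      have c1 := (n1 f hf).lt ex fx ⟨hc.le, by linarith [fx.1]⟩ fy b1
      have c2 := (n2 f hf).symm.lt fx ex' fy ⟨by linarith, by linarith [fx.1]⟩ b2
      rw [H_left] at c1 c2
      exact hmin f.1 (mem_filter.2 ⟨f1, hc, by linarith [fx.1], by linarith [fx.1], c1.le, c2.le⟩)
  have same : ∀ s ∈ P, s.1 < r.1 → (Sees M e s ↔ Sees M e' s) := by
    intro s sP sr
    by_cases s0 : e.1.1 < s.1
    swap
    · exact ⟨fun h => (s0 h.1).elim, fun h => (s0 (h11 ▸ h.1)).elim⟩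
    have o1 : ¬ (H e s.1 ≤ s.2 ∧ s.2 ≤ H e' s.1) := fun h =>
      absurd (hmin s (mem_filter.2 ⟨sP, s0, by linarith, by linarith, h⟩)) (not_le.2 sr)
    have o2 := hs s.1 s0.le
    have o3 : ∀ f ∈ M, In f s.1 → ¬ (H e s.1 ≤ H f s.1 ∧ H f s.1 ≤ H e' s.1) :=
      fun f hf fx h => by linarith [key f hf s.1 s0 sr.le fx h.1 h.2, fx.1]
    rw [not_and_or, not_le, not_le] at o1
    constructor
    · rintro ⟨-, -, h⟩
      refine ⟨by linarith, by linarith, fun f hf fx hb => h f hf fx ?_⟩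
      have := o3 f hf fx
      rw [not_and_or, not_le, not_le] at this
      unfold Btw at *
      rcases o1 with o1 | o1 <;> rcases this with t | t <;> rcases hb with ⟨b1, b2⟩ | ⟨b1, b2⟩ <;>
        first | linarith | (left; constructor <;> linarith) | (right; constructor <;> linarith)
    · rintro ⟨-, -, h⟩
      refine ⟨by linarith, by linarith, fun f hf fx hb => h f hf fx ?_⟩
      have := o3 f hf fx
      rw [not_and_or, not_le, not_le] at this
      unfold Btw at *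
      rcases o1 with o1 | o1 <;> rcases this with t | t <;> rcases hb with ⟨b1, b2⟩ | ⟨b1, b2⟩ <;>
        first | linarith | (left; constructor <;> linarith) | (right; constructor <;> linarith)
  have rk : rank (seers P M e) r = rank (seers P M e') r := by
    unfold rank seers
    congr 1
    ext s
    simp only [mem_filter]
    exact ⟨fun h => ⟨⟨h.1.1, (same s h.1.1 h.2).1 h.1.2⟩, h.2⟩,
      fun h => ⟨⟨h.1.1, (same s h.1.1 h.2).2 h.1.2⟩, h.2⟩⟩
  have blk : ∀ f ∈ M, In f r.1 → H e r.1 ≤ H f r.1 → H f r.1 ≤ H e' r.1 → H f r.1 = r.2 := by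
    intro f hf fx a1 a2
    have := key f hf r.1 r1 le_rfl fx a1 a2
    have e1 : f.1 = r := hP.1 _ (mem_Edges.1 (hM hf)).1 _ rP (le_antisymm fx.1 this)
    rw [← e1, H_left]
  have s1 : r.1 < e.2.1 → r ∈ seers P M e := fun h =>
    mem_filter.2 ⟨rP, r1, h, fun f hf fx hb => by
      rcases hb with ⟨b1, b2⟩ | ⟨b1, b2⟩
      · linarith
      · linarith [blk f hf fx b1.le (by linarith)]⟩
  have s2 : r.1 < e'.2.1 → r ∈ seers P M e' := fun h =>
    mem_filter.2 ⟨rP, by linarith, h, fun f hf fx hb => by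
      rcases hb with ⟨b1, b2⟩ | ⟨b1, b2⟩
      · linarith [blk f hf fx (by linarith) b2.le]
      · linarith⟩
  by_cases hq : r = e'.2
  · have t1 : r.1 < e.2.1 := lt_of_le_of_ne r2 fun h => h2 (by rw [← hq]; exact (hP.1 _ rP _ q1 h).symm)
    have t2 : H e r.1 < r.2 := lt_of_le_of_ne r4 (hP.2 e he r rP r1 t1).symm
    have : rank (seers P M e) r ∈ up P M e :=
      mem_image.2 ⟨r, mem_filter.2 ⟨s1 t1, t2⟩, rfl⟩
    rw [u] at this
    obtain ⟨s, hs1, hs2⟩ := mem_image.1 this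
    have hs3 := (mem_filter.1 hs1).1
    have := rank_lt hs3 (r := r) (by rw [hq]; exact (mem_filter.1 hs3).2.2.1)
    omega
  · have t1 : r.1 < e'.2.1 := lt_of_le_of_ne r3 fun h => hq (hP.1 _ rP _ q2 h)
    have t2 : r.2 < H e' r.1 := lt_of_le_of_ne r5 (hP.2 e' he' r rP (by linarith) t1)
    have : rank (seers P M e') r ∈ dn P M e' :=
      mem_image.2 ⟨r, mem_filter.2 ⟨s2 t1, t2⟩, rfl⟩
    rw [← d] at this
    obtain ⟨s, hs1, hs2⟩ := mem_image.1 this
    obtain ⟨hs3, hs4⟩ := mem_filter.1 hs1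
    rcases lt_trichotomy s.1 r.1 with h | h | h
    · have := rank_lt hs3 h
      omega
    · have : s = r := hP.1 _ (mem_filter.1 hs3).1 _ rP h
      rw [this] at hs4
      linarith
    · have := rank_lt (s1 (h.trans (mem_filter.1 hs3).2.2.1)) h
      omega

open Classical in
noncomputable def Ins (P : Finset Pt) (M : Finset (Pt × Pt)) : Finset (Pt × Pt) :=
  (Edges P).filter (fun e => (∀ f ∈ M, NC e f) ∧ (seers P M e).card ≤ 15)

lemma card_Ins (P : Finset Pt) (hP : Good P) (M : Finset (Pt × Pt)) (hM : M ⊆ Edges P) :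
    (Ins P M).card ≤ P.card * 2 ^ 30 := by
  classical
  have : (Ins P M).card ≤ (P ×ˢ ((range 15).powerset ×ˢ (range 15).powerset)).card := by
    refine card_le_card_of_injOn (fun e => (e.1, up P M e, dn P M e)) ?_ ?_
    · intro e he
      obtain ⟨h1, -, h3⟩ := mem_filter.1 he
      simp only [coe_product, Set.mem_prod, mem_coe, mem_powerset]
      refine ⟨(mem_Edges.1 h1).1, fun k hk => ?_, fun k hk => ?_⟩ <;>
      · obtain ⟨s, hs, rfl⟩ := mem_image.1 hk
        have := rank_lt_card (mem_filter.1 hs).1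
        exact mem_range.2 (by omega)
    · intro e he e' he' h
      obtain ⟨h1, h2, -⟩ := mem_filter.1 he
      obtain ⟨h1', h2', -⟩ := mem_filter.1 he'
      simp only [Prod.mk.injEq] at h
      obtain ⟨a, b, c⟩ := h
      by_contra hne
      have hq : e.2 ≠ e'.2 := fun h => hne (Prod.ext a h)
      rcases le_total ((e.2.2 - e.1.2) / (e.2.1 - e.1.1)) ((e'.2.2 - e'.1.2) / (e'.2.1 - e'.1.1))
        with hs | hs
      · refine wedge P hP M hM e e' h1 h1' a hq (fun x hx => ?_) h2 h2' b c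
        unfold H
        rw [← a] at hs ⊢
        nlinarith [mul_le_mul_of_nonneg_left hs (sub_nonneg.2 hx)]
      · refine wedge P hP M hM e' e h1' h1 a.symm hq.symm (fun x hx => ?_) h2' h2 b.symm c.symm
        unfold H
        rw [← a] at hs hx ⊢
        nlinarith [mul_le_mul_of_nonneg_left hs (sub_nonneg.2 hx)]
  rw [card_product, card_product, card_powerset, card_range] at this
  exact this

open Classical in
noncomputable def PM (P : Finset Pt) (m : ℕ) : Finset (Finset (Pt × Pt)) :=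
  ((Edges P).powersetCard m).filter (fun M => ∀ e ∈ M, ∀ f ∈ M, e ≠ f → NC e f)

lemma mem_PM {P : Finset Pt} {m : ℕ} {M : Finset (Pt × Pt)} :
    M ∈ PM P m ↔ M ⊆ Edges P ∧ M.card = m ∧ ∀ e ∈ M, ∀ f ∈ M, e ≠ f → NC e f := by
  classical
  simp only [PM, mem_filter, mem_powersetCard, and_assoc]

lemma deg_sum (P : Finset Pt) (hP : Good P) {m : ℕ} (M : Finset (Pt × Pt)) (hM : M ∈ PM P m) :
    ∑ e ∈ M, (seers P (M.erase e) e).card ≤ 2 * P.card := by
  classical
  obtain ⟨h1, -, h3⟩ := mem_PM.1 hM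
  have e1 : ∑ e ∈ M, (seers P (M.erase e) e).card =
      ∑ s ∈ P, (M.filter (fun e => Sees (M.erase e) e s)).card := by
    unfold seers
    simp only [card_filter]
    rw [sum_comm]
  rw [e1, mul_comm, ← smul_eq_mul]
  refine sum_le_card_nsmul _ _ _ fun s hs => ?_
  have two : ∀ e ∈ M, ∀ f ∈ M, Sees (M.erase e) e s → Sees (M.erase f) f s → e ≠ f →
      ¬ ((H e s.1 < s.2 ∧ H f s.1 < s.2) ∨ (s.2 < H e s.1 ∧ s.2 < H f s.1)) := by
    intro e he f hf se sf hne h
    have ie : In e s.1 := ⟨se.1.le, se.2.1.le⟩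
    have jf : In f s.1 := ⟨sf.1.le, sf.2.1.le⟩
    have a := se.2.2 f (mem_erase.2 ⟨hne.symm, hf⟩) jf
    have b := sf.2.2 e (mem_erase.2 ⟨hne, he⟩) ie
    unfold Btw at a b
    rcases lt_or_gt_of_ne (h3 e he f hf hne s.1 ie jf) with c | c <;> rcases h with h | h
    · exact a (Or.inr ⟨c, h.2⟩)
    · exact b (Or.inl ⟨h.1, c⟩)
    · exact b (Or.inr ⟨c, h.1⟩)
    · exact a (Or.inl ⟨h.2, c⟩)
  have c1 := card_filter_add_card_filter_not (s := M.filter (fun e => Sees (M.erase e) e s))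
    (fun e => H e s.1 < s.2)
  have c2 : ((M.filter (fun e => Sees (M.erase e) e s)).filter (fun e => H e s.1 < s.2)).card ≤ 1 := by
    rw [card_le_one]
    intro e he f hf
    simp only [mem_filter] at he hf
    by_contra hne
    exact two e he.1.1 f hf.1.1 he.1.2 hf.1.2 hne (Or.inl ⟨he.2, hf.2⟩)
  have c3 : ((M.filter (fun e => Sees (M.erase e) e s)).filter
      (fun e => ¬ H e s.1 < s.2)).card ≤ 1 := by
    rw [card_le_one]
    intro e he f hf
    simp only [mem_filter] at he hf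
    by_contra hne
    exact two e he.1.1 f hf.1.1 he.1.2 hf.1.2 hne (Or.inr
      ⟨lt_of_le_of_ne (not_lt.1 he.2) (hP.2 e (h1 he.1.1) s hs he.1.2.1 he.1.2.2.1),
       lt_of_le_of_ne (not_lt.1 hf.2) (hP.2 f (h1 hf.1.1) s hs hf.1.2.1 hf.1.2.2.1)⟩)
  omega

lemma step (P : Finset Pt) (hP : Good P) (m : ℕ) (hm : P.card < 4 * (m + 1)) (h0 : 0 < P.card) :
    (PM P (m + 1)).card ≤ 2 ^ 33 * (PM P m).card := by
  classical
  let low : Finset (Pt × Pt) → Finset (Pt × Pt) := fun M =>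
    M.filter (fun e => (seers P (M.erase e) e).card ≤ 15)
  have a1 : ∀ M ∈ PM P (m + 1), P.card ≤ 8 * (low M).card := by
    intro M hM
    have d := deg_sum P hP M hM
    have c := card_filter_add_card_filter_not (s := M)
      (fun e => (seers P (M.erase e) e).card ≤ 15)
    have : (M.filter (fun e => ¬ (seers P (M.erase e) e).card ≤ 15)).card * 16 ≤
        ∑ e ∈ M, (seers P (M.erase e) e).card := by
      refine le_trans ?_ (sum_le_sum_of_subset (filter_subset
        (fun e => ¬ (seers P (M.erase e) e).card ≤ 15) M))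
      rw [← smul_eq_mul]
      refine card_nsmul_le_sum _ _ _ fun e he => ?_
      have := (mem_filter.1 he).2
      omega
    have e := (mem_PM.1 hM).2.1
    simp only [low]
    omega
  have a2 : ((PM P (m + 1)).sigma low).card ≤ ((PM P m).sigma (Ins P)).card := by
    refine card_le_card_of_injOn (fun u => ⟨u.1.erase u.2, u.2⟩) ?_ ?_
    · rintro ⟨M, e⟩ hu
      obtain ⟨hM, he⟩ := mem_sigma.1 hu
      obtain ⟨h1, h2, h3⟩ := mem_PM.1 hM
      obtain ⟨he1, he2⟩ := mem_filter.1 he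
      refine mem_sigma.2 ⟨mem_PM.2 ⟨(erase_subset _ _).trans h1, ?_, ?_⟩, mem_filter.2 ⟨h1 he1, ?_, he2⟩⟩
      · simp only at h2 he1 ⊢
        rw [card_erase_of_mem he1, h2]; rfl
      · exact fun a ha b hb => h3 a (mem_of_mem_erase ha) b (mem_of_mem_erase hb)
      · exact fun f hf => h3 e he1 f (mem_of_mem_erase hf) (ne_of_mem_erase hf).symm
    · rintro ⟨M, e⟩ hu ⟨M', e'⟩ hu' h
      have he := (mem_filter.1 (mem_sigma.1 hu).2).1
      have he' := (mem_filter.1 (mem_sigma.1 hu').2).1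
      simp only [Sigma.mk.injEq, heq_eq_eq] at h he he' ⊢
      obtain ⟨h1, rfl⟩ := h
      exact ⟨by rw [← insert_erase he, h1, insert_erase he'], rfl⟩
  rw [card_sigma, card_sigma] at a2
  have a3 : ∑ M ∈ PM P m, (Ins P M).card ≤ (PM P m).card * (P.card * 2 ^ 30) := by
    rw [← smul_eq_mul]
    exact sum_le_card_nsmul _ _ _ fun M hM => card_Ins P hP M (mem_PM.1 hM).1
  have a4 : (PM P (m + 1)).card * P.card ≤ 8 * ∑ M ∈ PM P (m + 1), (low M).card := by
    rw [mul_sum, ← smul_eq_mul]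
    exact card_nsmul_le_sum _ _ _ a1
  refine Nat.le_of_mul_le_mul_right ?_ h0
  calc _ ≤ 8 * ((PM P m).card * (P.card * 2 ^ 30)) := by omega
    _ = _ := by ring

theorem card_PM (N : ℕ) : ∀ P : Finset Pt, Good P → P.card = N → ∀ m,
    (PM P m).card ≤ (2 ^ 34) ^ (2 * N) := by
  classical
  induction N using Nat.strong_induction_on with
  | _ N ih =>
  intro P hP hN m
  have big : ∀ M ∈ PM P m, m ≤ N := by
    intro M hM
    obtain ⟨h1, h2, h3⟩ := mem_PM.1 hM
    rw [← h2, ← hN]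
    refine card_le_card_of_injOn Prod.fst (fun e he => (mem_Edges.1 (h1 he)).1) ?_
    intro e he f hf h
    by_contra hne
    refine h3 e he f hf hne e.1.1 ⟨le_rfl, (mem_Edges.1 (h1 he)).2.2.le⟩
      ⟨by rw [h], by rw [h]; exact (mem_Edges.1 (h1 hf)).2.2.le⟩ ?_
    rw [H_left, h, H_left]
  by_cases hm : N < m
  · rw [eq_empty_of_forall_notMem (s := PM P m) fun M hM => by have := big M hM; omega]
    simp
  rcases Nat.eq_zero_or_pos N with h0 | h0
  · have : m = 0 := by omega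
    subst this
    refine le_trans (card_filter_le _ _) ?_
    simp [h0]
  have small : ∀ k, 4 * k ≤ N → (PM P k).card ≤ 2 ^ N * (2 ^ 34) ^ N := by
    intro k hk
    have : PM P k ⊆ (P.powerset.filter (fun A => 2 * A.card ≤ N)).biUnion (fun A => PM A k) := by
      intro M hM
      obtain ⟨h1, h2, h3⟩ := mem_PM.1 hM
      refine mem_biUnion.2 ⟨M.image Prod.fst ∪ M.image Prod.snd, mem_filter.2 ⟨?_, ?_⟩,
        mem_PM.2 ⟨fun e he => mem_Edges.2 ⟨?_, ?_, (mem_Edges.1 (h1 he)).2.2⟩, h2, h3⟩⟩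
      · rw [mem_powerset]
        intro x hx
        rcases mem_union.1 hx with h | h <;> obtain ⟨e, he, rfl⟩ := mem_image.1 h
        exacts [(mem_Edges.1 (h1 he)).1, (mem_Edges.1 (h1 he)).2.1]
      · have a := card_union_le (M.image Prod.fst) (M.image Prod.snd)
        have b := card_image_le (s := M) (f := Prod.fst)
        have c := card_image_le (s := M) (f := Prod.snd)
        omega
      · exact mem_union_left _ (mem_image_of_mem _ he)
      · exact mem_union_right _ (mem_image_of_mem _ he)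
    refine (card_le_card this).trans ((card_biUnion_le_card_mul _ _ ((2 ^ 34) ^ N) ?_).trans ?_)
    · intro A hA
      obtain ⟨a1, a2⟩ := mem_filter.1 hA
      exact (ih A.card (by omega) A (hP.mono (mem_powerset.1 a1)) rfl k).trans
        (Nat.pow_le_pow_right (by norm_num) a2)
    · refine Nat.mul_le_mul_right _ ((card_filter_le _ _).trans ?_)
      rw [card_powerset, hN]
  have all : ∀ k, (PM P k).card ≤ (2 ^ 33) ^ k * (2 ^ N * (2 ^ 34) ^ N) := by
    intro k
    induction k with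
    | zero => simpa using small 0 (by omega)
    | succ k ihk =>
      by_cases hk : 4 * (k + 1) ≤ N
      · exact (small _ hk).trans (Nat.le_mul_of_pos_left _ (by positivity))
      · calc _ ≤ 2 ^ 33 * (PM P k).card := step P hP k (by omega) (by omega)
          _ ≤ 2 ^ 33 * ((2 ^ 33) ^ k * (2 ^ N * (2 ^ 34) ^ N)) := Nat.mul_le_mul_left _ ihk
          _ = _ := by rw [pow_succ (2 ^ 33)]; ring
  calc _ ≤ (2 ^ 33) ^ m * (2 ^ N * (2 ^ 34) ^ N) := all m
    _ ≤ (2 ^ 33) ^ N * (2 ^ N * (2 ^ 34) ^ N) :=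
      Nat.mul_le_mul_right _ (Nat.pow_le_pow_right (by norm_num) (by omega))
    _ = _ := by rw [← mul_assoc, ← mul_pow, two_mul, pow_add]; norm_num

end Pool.Agent.H9.PlaneM
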