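import Mathlib
import Pool.Agent.H9.PlaneM

set_option autoImplicit false

open Finset Pool.Agent.H9.PlaneM

namespace Pool.Agent.H9.Heil

def D (a b c : Pt) : ℝ := (b.1 - a.1) * (c.2 - a.2) - (c.1 - a.1) * (b.2 - a.2)

lemma D_H (e : Pt × Pt) (h : e.1.1 < e.2.1) (s : Pt) :
    D e.1 e.2 s = (e.2.1 - e.1.1) * (s.2 - H e s.1) := by
  have : e.2.1 - e.1.1 ≠ 0 := (sub_pos.2 h).ne'
  unfold D H; field_simp; ring

lemma mem_int (p q r w : Pt) (h1 : 0 < D q r w * D p q r) (h2 : 0 < D r p w * D p q r)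
    (h3 : 0 < D p q w * D p q r) : w ∈ interior (convexHull ℝ ({p, q, r} : Set Pt)) := by
  have ho : IsOpen {w : Pt | 0 < D q r w * D p q r ∧ 0 < D r p w * D p q r ∧
      0 < D p q w * D p q r} := by
    have o : ∀ (u v : Pt) (k : ℝ), IsOpen {w : Pt | 0 < D u v w * k} := fun u v k =>
      isOpen_lt continuous_const (by unfold D; fun_prop)
    exact (o q r _).inter ((o r p _).inter (o p q _))
  refine interior_maximal ?_ ho ⟨h1, h2, h3⟩
  rintro w ⟨h1, h2, h3⟩
  have h0 : D p q r ≠ 0 := by rintro h; rw [h] at h1; simp at h1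
  have hs : 0 < D p q r ^ 2 := by positivity
  have := (convex_convexHull ℝ ({p, q, r} : Set Pt)).sum_mem (t := (univ : Finset (Fin 3)))
    (w := ![D q r w * D p q r / D p q r ^ 2, D r p w * D p q r / D p q r ^ 2,
      D p q w * D p q r / D p q r ^ 2]) (z := ![p, q, r])
    (by intro i _; fin_cases i <;> simp <;> positivity)
    (by
      simp only [Fin.sum_univ_three, Matrix.cons_val_zero, Matrix.cons_val_one, Matrix.cons_val_two,
        Matrix.head_cons, Matrix.tail_cons]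
      field_simp
      unfold D; ring)
    (by intro i _; fin_cases i <;> exact subset_convexHull ℝ _ (by simp))
  convert this using 1
  simp only [Fin.sum_univ_three, Matrix.cons_val_zero, Matrix.cons_val_one, Matrix.cons_val_two,
    Matrix.head_cons, Matrix.tail_cons]
  ext
  · simp only [Prod.fst_add, Prod.smul_fst, smul_eq_mul]
    field_simp
    unfold D; ring
  · simp only [Prod.snd_add, Prod.smul_snd, smul_eq_mul]
    field_simp
    unfold D; ring

lemma on_seg (p q r : Pt) (h : p.1 < q.1) (x : ℝ) (h1 : p.1 < x) (h2 : x < q.1)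
    (h0 : D p q r ≠ 0) :
    0 < D q r (x, H (p, q) x) * D p q r ∧ 0 < D r p (x, H (p, q) x) * D p q r ∧
      D p q (x, H (p, q) x) = 0 := by
  have n : 0 < q.1 - p.1 := sub_pos.2 h
  have a : 0 < x - p.1 := sub_pos.2 h1
  have b : 0 < q.1 - x := sub_pos.2 h2
  have e1 : D q r (x, H (p, q) x) = (q.1 - x) / (q.1 - p.1) * D p q r := by
    unfold D H; field_simp; ring
  have e2 : D r p (x, H (p, q) x) = (x - p.1) / (q.1 - p.1) * D p q r := by
    unfold D H; field_simp; ring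
  refine ⟨?_, ?_, ?_⟩
  · rw [e1, mul_assoc]; exact mul_pos (div_pos b n) (mul_self_pos.2 h0)
  · rw [e2, mul_assoc]; exact mul_pos (div_pos a n) (mul_self_pos.2 h0)
  · unfold D H; field_simp; ring

lemma nc_of_disjoint (p q r p' q' r' : Pt) (h : p.1 < q.1) (h' : p'.1 < q'.1)
    (d1 : D p q r ≠ 0) (d2 : D p' q' r' ≠ 0) (d3 : D p q p' ≠ 0) (d4 : D p q q' ≠ 0)
    (d5 : D p' q' p ≠ 0) (d6 : D p' q' q ≠ 0)
    (hd : Disjoint (interior (convexHull ℝ ({p, q, r} : Set Pt)))
      (interior (convexHull ℝ ({p', q', r'} : Set Pt)))) : NC (p, q) (p', q') := by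
  intro x hx hx' e
  have x1 : p.1 < x := lt_of_le_of_ne hx.1 fun c => d5 (by
    have := H_left (p, q)
    rw [D_H (p', q') h' p, c, ← e, ← c, this]; simp)
  have x2 : x < q.1 := lt_of_le_of_ne hx.2 fun c => d6 (by
    have := H_right (p, q) h
    rw [D_H (p', q') h' q, ← c, ← e, c, this]; simp)
  have x3 : p'.1 < x := lt_of_le_of_ne hx'.1 fun c => d3 (by
    have := H_left (p', q')
    rw [D_H (p, q) h p', c, e, ← c, this]; simp)
  have x4 : x < q'.1 := lt_of_le_of_ne hx'.2 fun c => d4 (by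
    have := H_right (p', q') h'
    rw [D_H (p, q) h q', ← c, e, c, this]; simp)
  obtain ⟨a1, a2, a3⟩ := on_seg p q r h x x1 x2 d1
  obtain ⟨b1, b2, b3⟩ := on_seg p' q' r' h' x x3 x4 d2
  rw [← e] at b1 b2 b3
  set z : Pt := (x, H (p, q) x) with hz
  set c : ℝ := (q.1 - p.1) * (q'.2 - p'.2) - (q'.1 - p'.1) * (q.2 - p.2) with hc
  have c0 : c ≠ 0 := by
    intro c0
    apply d3
    have : D p q p' * (q'.1 - p'.1) = 0 := by
      unfold D at a3 b3 ⊢
      linear_combination (q'.1 - p'.1) * a3 - (q.1 - p.1) * b3 - (z.1 - p'.1) * c0 +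
        (z.1 - p'.1) * hc
    exact (mul_eq_zero.1 this).resolve_right (sub_pos.2 h').ne'
  let w : ℝ → Pt := fun t =>
    (z.1 + t * (-(c * D p' q' r') * (q.1 - p.1) + c * D p q r * (q'.1 - p'.1)),
     z.2 + t * (-(c * D p' q' r') * (q.2 - p.2) + c * D p q r * (q'.2 - p'.2)))
  have w0 : w 0 = z := by simp [w]
  have ev : ∀ (u v : Pt) (k : ℝ), 0 < D u v z * k →
      ∀ᶠ t in nhdsWithin (0 : ℝ) (Set.Ioi 0), 0 < D u v (w t) * k := by
    intro u v k hk
    have : Continuous fun t => D u v (w t) * k := by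
      unfold D; simp only [w]; fun_prop
    refine Filter.Eventually.filter_mono nhdsWithin_le_nhds ?_
    exact (this.tendsto 0).eventually (lt_mem_nhds (by rw [w0]; exact hk))
  obtain ⟨t, ⟨⟨⟨t1, t2⟩, t3⟩, t4⟩, t0⟩ := (((((ev _ _ _ a1).and (ev _ _ _ a2)).and
    (ev _ _ _ b1)).and (ev _ _ _ b2)).and self_mem_nhdsWithin).exists
  have t0 : 0 < t := t0
  refine Set.disjoint_left.1 hd (mem_int p q r (w t) t1 t2 ?_) (mem_int p' q' r' (w t) t3 t4 ?_)
  · have : D p q (w t) = t * (c * c * D p q r) := by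
      have : D p q (w t) = D p q z + t * (c * D p q r *
        ((q.1 - p.1) * (q'.2 - p'.2) - (q'.1 - p'.1) * (q.2 - p.2))) := by
        simp only [w]; generalize D p q r = A; generalize D p' q' r' = B; unfold D; ring
      rw [this, a3, ← hc]; ring
    rw [this, mul_assoc, mul_assoc]
    exact mul_pos t0 (mul_pos (mul_self_pos.2 c0) (mul_self_pos.2 d1))
  · have : D p' q' (w t) = t * (c * c * D p' q' r') := by
      have : D p' q' (w t) = D p' q' z + t * (c * D p' q' r' *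
        ((q.1 - p.1) * (q'.2 - p'.2) - (q'.1 - p'.1) * (q.2 - p.2))) := by
        simp only [w]; generalize D p q r = A; generalize D p' q' r' = B; unfold D; ring
      rw [this, b3, ← hc]; ring
    rw [this, mul_assoc, mul_assoc]
    exact mul_pos t0 (mul_pos (mul_self_pos.2 c0) (mul_self_pos.2 d2))

lemma window (S : Finset ℕ) (c w : ℝ) (hw : 0 ≤ w) (h : ∀ y ∈ S, |(y : ℝ) - c| ≤ w) :
    (S.card : ℝ) ≤ 2 * w + 1 := by
  rcases S.eq_empty_or_nonempty with rfl | hS
  · simp; linarith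
  have h1 : S ⊆ Icc (S.min' hS) (S.max' hS) := fun y hy =>
    mem_Icc.2 ⟨min'_le _ _ hy, le_max' _ _ hy⟩
  have h2 := card_le_card h1
  rw [Nat.card_Icc] at h2
  have h3 : S.min' hS ≤ S.max' hS := min'_le _ _ (max'_mem _ _)
  have h4 : S.card + S.min' hS ≤ S.max' hS + 1 := by omega
  have h5 : (S.card : ℝ) + (S.min' hS : ℕ) ≤ (S.max' hS : ℕ) + 1 := by exact_mod_cast h4
  have a := abs_le.1 (h _ (min'_mem _ hS))
  have b := abs_le.1 (h _ (max'_mem _ hS))
  linarith

noncomputable def q (N : ℕ) (La : ℝ) (i : Fin N) (y : ℕ) : Pt :=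
  ((i : ℝ) / N, ((y : ℝ) + √2 * (i : ℝ) ^ 2) / La)

lemma q_lt {N : ℕ} {La : ℝ} {i j : Fin N} {a b : ℕ} :
    (q N La i a).1 < (q N La j b).1 ↔ i < j := by
  have : (0 : ℝ) < N := by exact_mod_cast i.pos
  simp only [q]
  rw [div_lt_div_iff_of_pos_right this, Nat.cast_lt]; rfl

lemma q_inj {N : ℕ} {La : ℝ} {i j : Fin N} {a b : ℕ} (h : (q N La i a).1 = (q N La j b).1) :
    i = j := by
  rcases lt_trichotomy i j with c | c | c
  · exact absurd h (q_lt.2 c).ne
  · exact c
  · exact absurd h (q_lt.2 c).ne'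

lemma D_q {N : ℕ} {La : ℝ} (hL : 0 < La) {i j k : Fin N} (a b c : ℕ) (h1 : i ≠ j) (h2 : i ≠ k)
    (h3 : j ≠ k) : D (q N La i a) (q N La j b) (q N La k c) ≠ 0 := by
  have : (0 : ℝ) < N := by exact_mod_cast i.pos
  intro h
  have hm : (((j : ℕ) - (i : ℕ)) * ((k : ℕ) - (i : ℕ)) * ((k : ℕ) - (j : ℕ)) : ℤ) ≠ 0 := by
    refine mul_ne_zero (mul_ne_zero ?_ ?_) ?_ <;> intro e
    · exact h1 (Fin.ext (by omega))
    · exact h2 (Fin.ext (by omega))
    · exact h3 (Fin.ext (by omega))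
  refine (irrational_sqrt_two.mul_intCast hm).ne_int
    (((k : ℕ) - (i : ℕ)) * (b - a) - ((j : ℕ) - (i : ℕ)) * (c - a)) ?_
  simp only [D, q] at h
  field_simp at h
  push_cast
  linear_combination h

lemma good {N : ℕ} {La : ℝ} (hL : 0 < La) (Y : Fin N → ℕ) (T : Finset (Fin N)) :
    Good (T.image (fun i => q N La i (Y i))) := by
  classical
  constructor
  · intro p hp r hr h
    obtain ⟨i, -, rfl⟩ := mem_image.1 hp
    obtain ⟨j, -, rfl⟩ := mem_image.1 hr
    rw [q_inj h]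
  · intro e he s hs h1 h2 h
    obtain ⟨a, b, c⟩ := mem_Edges.1 he
    have := D_H e c s
    rw [h, sub_self, mul_zero] at this
    obtain ⟨i, -, ei⟩ := mem_image.1 a
    obtain ⟨j, -, ej⟩ := mem_image.1 b
    obtain ⟨k, -, rfl⟩ := mem_image.1 hs
    rw [← ei] at c h1 this
    rw [← ej] at c h2 this
    exact D_q hL _ _ _ (q_lt.1 c).ne (q_lt.1 h1).ne (q_lt.1 h2).ne' this

open Classical in
noncomputable def U (N L : ℕ) (La a : ℝ) (M : Finset (Pt × Pt)) (i : Fin N) : Finset ℕ :=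
  (range L).filter (fun y => ∃ e ∈ M, e.1.1 < (i : ℝ) / N ∧ (i : ℝ) / N < e.2.1 ∧
    |D e.1 e.2 (q N La i y)| ≤ a)

lemma sumU {N L : ℕ} {La a : ℝ} (hL : 0 < La) (ha : 0 ≤ a) (Y : Fin N → ℕ) (T : Finset (Fin N))
    (M : Finset (Pt × Pt)) (hM : M ⊆ Edges (T.image (fun i => q N La i (Y i)))) :
    ∑ i, ((U N L La a M i).card : ℝ) ≤ M.card * (2 * a * La * N + N) := by
  classical
  have h1 : ∀ i, ((U N L La a M i).card : ℝ) ≤ ∑ e ∈ M,
      if e.1.1 < (i : ℝ) / N ∧ (i : ℝ) / N < e.2.1 then 2 * (a * La / (e.2.1 - e.1.1)) + 1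
      else 0 := by
    intro i
    let V : Pt × Pt → Finset ℕ := fun e => (range L).filter (fun y =>
      (e.1.1 < (i : ℝ) / N ∧ (i : ℝ) / N < e.2.1) ∧ |D e.1 e.2 (q N La i y)| ≤ a)
    have : U N L La a M i ⊆ M.biUnion V := by
      intro y hy
      obtain ⟨y1, e, he, y2, y3, y4⟩ := mem_filter.1 hy
      exact mem_biUnion.2 ⟨e, he, mem_filter.2 ⟨y1, ⟨y2, y3⟩, y4⟩⟩
    have h2 : ((U N L La a M i).card : ℝ) ≤ ∑ e ∈ M, ((V e).card : ℝ) := by
      exact_mod_cast (card_le_card this).trans card_biUnion_le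
    refine h2.trans (sum_le_sum fun e he => ?_)
    have l := (mem_Edges.1 (hM he)).2.2
    have l0 := sub_pos.2 l
    split_ifs with hc
    · refine window _ (La * H e ((i : ℝ) / N) - √2 * (i : ℝ) ^ 2) _ (by positivity) fun y hy => ?_
      have := (mem_filter.1 hy).2.2
      rw [D_H e l, abs_mul, abs_of_pos l0] at this
      have e2 : (y : ℝ) - (La * H e ((i : ℝ) / N) - √2 * (i : ℝ) ^ 2) =
          La * ((q N La i y).2 - H e (q N La i y).1) := by
        simp only [q]; field_simp; ring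
      rw [e2, abs_mul, abs_of_pos hL, le_div_iff₀ l0]
      nlinarith [mul_le_mul_of_nonneg_left this hL.le]
    · have : V e = ∅ := filter_false_of_mem fun y _ h => hc h.1
      rw [this]; simp
  refine (sum_le_sum fun i _ => h1 i).trans ?_
  rw [sum_comm, ← nsmul_eq_mul]
  refine sum_le_card_nsmul _ _ _ fun e he => ?_
  obtain ⟨a1, b1, l⟩ := mem_Edges.1 (hM he)
  have l0 := sub_pos.2 l
  obtain ⟨j, -, ej⟩ := mem_image.1 a1
  obtain ⟨k, -, ek⟩ := mem_image.1 b1
  have N0 : (0 : ℝ) < N := by exact_mod_cast j.pos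
  have f1 : e.1.1 = (j : ℝ) / N := by rw [← ej]; rfl
  have f2 : e.2.1 = (k : ℝ) / N := by rw [← ek]; rfl
  have jk : j < k := by rw [← ej, ← ek] at l; exact q_lt.1 l
  rw [← sum_filter, sum_const, nsmul_eq_mul]
  have c1 : ((univ.filter (fun i : Fin N => e.1.1 < (i : ℝ) / N ∧ (i : ℝ) / N < e.2.1)).card : ℝ)
      ≤ N * (e.2.1 - e.1.1) := by
    have : univ.filter (fun i : Fin N => e.1.1 < (i : ℝ) / N ∧ (i : ℝ) / N < e.2.1) ⊆ Ioo j k := by
      intro i hi
      have := (mem_filter.1 hi).2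
      rw [f1, f2, div_lt_div_iff_of_pos_right N0, div_lt_div_iff_of_pos_right N0, Nat.cast_lt,
        Nat.cast_lt] at this
      exact mem_Ioo.2 this
    have h3 := card_le_card this
    rw [Fin.card_Ioo] at h3
    have h4 : (univ.filter (fun i : Fin N => e.1.1 < (i : ℝ) / N ∧ (i : ℝ) / N < e.2.1)).card + j
      ≤ k := by have : (j : ℕ) < k := jk; omega
    have h5 : ((univ.filter (fun i : Fin N => e.1.1 < (i : ℝ) / N ∧
      (i : ℝ) / N < e.2.1)).card : ℝ) + (j : ℕ) ≤ (k : ℕ) := by exact_mod_cast h4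
    have : (N : ℝ) * (e.2.1 - e.1.1) = (k : ℕ) - (j : ℕ) := by rw [f1, f2]; field_simp
    linarith
  have c2 : e.2.1 - e.1.1 ≤ 1 := by
    rw [f1, f2, ← sub_div, div_le_one N0]
    have : ((k : ℕ) : ℝ) ≤ N := by exact_mod_cast k.2.le
    have : (0 : ℝ) ≤ (j : ℕ) := by positivity
    linarith
  calc _ ≤ N * (e.2.1 - e.1.1) * (2 * (a * La / (e.2.1 - e.1.1)) + 1) :=
        mul_le_mul_of_nonneg_right c1 (by positivity)
    _ = 2 * a * La * N + N * (e.2.1 - e.1.1) := by field_simp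
    _ ≤ _ := by nlinarith

lemma prod_le {N : ℕ} (u : Fin N → ℝ) (hu : ∀ i, 0 ≤ u i) (c n : ℝ) (hc : 0 < c)
    (h : ∑ i, u i ≤ n * c) (B : Finset (Fin N)) : ∏ i ∈ B, u i ≤ c ^ B.card * Real.exp n := by
  calc ∏ i ∈ B, u i ≤ ∏ i ∈ B, c * Real.exp (u i / c) := by
        refine prod_le_prod (fun i _ => hu i) fun i _ => ?_
        have := Real.add_one_le_exp (u i / c)
        have e : u i = c * (u i / c) := by field_simp
        nlinarith
    _ = c ^ B.card * Real.exp (∑ i ∈ B, u i / c) := by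
        rw [prod_mul_distrib, prod_const, Real.exp_sum]
    _ ≤ _ := by
        refine mul_le_mul_of_nonneg_left (Real.exp_le_exp.2 ?_) (by positivity)
        rw [← sum_div, div_le_iff₀ hc]
        exact (sum_le_sum_of_subset_of_nonneg (subset_univ B) fun i _ _ => hu i).trans h

open Classical in
noncomputable def Bad (N L n : ℕ) (La a : ℝ) (B : Finset (Fin N)) : Finset (Fin N → ℕ) :=
  (Fintype.piFinset (fun _ => range L)).filter (fun Y =>
    ∃ M ∈ PM (Bᶜ.image (fun i => q N La i (Y i))) n, ∀ i ∈ B, Y i ∈ U N L La a M i)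

lemma card_Bad {N L n : ℕ} {La a c : ℝ} (hL : 0 < La) (ha : 0 ≤ a) (hc : 0 < c)
    (hac : 2 * a * La * N + N ≤ c) (B : Finset (Fin N)) :
    ((Bad N L n La a B).card : ℝ) * L ^ B.card ≤
      L ^ N * ((2 ^ 34) ^ (2 * N) * (c ^ B.card * Real.exp n)) := by
  classical
  let t : Finset (Fin N → ℕ) := Fintype.piFinset (fun i => if i ∈ B then {0} else range L)
  let f : (Fin N → ℕ) → Fin N → ℕ := fun Y i => if i ∈ B then 0 else Y i
  have h1 : ∀ Y ∈ Bad N L n La a B, f Y ∈ t := by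
    intro Y hY
    have := Fintype.mem_piFinset.1 (mem_filter.1 hY).1
    refine Fintype.mem_piFinset.2 fun i => ?_
    by_cases hi : i ∈ B
    · simp [f, hi]
    · simpa [f, hi] using this i
  have h2 : t.card * L ^ B.card = L ^ N := by
    rw [Fintype.card_piFinset]
    have : ∀ i : Fin N, (if i ∈ B then ({0} : Finset ℕ) else range L).card =
        if i ∈ B then 1 else L := by
      intro i; split_ifs <;> simp
    simp only [this]
    rw [prod_ite, prod_const_one, one_mul, prod_const, ← pow_add]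
    congr 1
    have := card_filter_add_card_filter_not (s := (univ : Finset (Fin N))) (fun i => i ∈ B)
    simp only [filter_mem_eq_inter, univ_inter, card_univ, Fintype.card_fin] at this
    omega
  have h3 : ∀ Z ∈ t, (((Bad N L n La a B).filter (fun Y => f Y = Z)).card : ℝ) ≤
      (2 ^ 34) ^ (2 * N) * (c ^ B.card * Real.exp n) := by
    intro Z _
    set P := Bᶜ.image (fun i => q N La i (Z i)) with hP
    have s1 : (Bad N L n La a B).filter (fun Y => f Y = Z) ⊆ (PM P n).biUnion (fun M =>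
        Fintype.piFinset (fun i => if i ∈ B then U N L La a M i else {Z i})) := by
      intro Y hY
      obtain ⟨y1, y2⟩ := mem_filter.1 hY
      obtain ⟨-, M, hM, y3⟩ := mem_filter.1 y1
      have e : ∀ i, i ∉ B → Y i = Z i := fun i hi => by rw [← y2]; simp [f, hi]
      have : Bᶜ.image (fun i => q N La i (Y i)) = P :=
        image_congr fun i hi => by rw [e i (mem_compl.1 hi)]
      refine mem_biUnion.2 ⟨M, this ▸ hM, Fintype.mem_piFinset.2 fun i => ?_⟩
      by_cases hi : i ∈ B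
      · simpa [hi] using y3 i hi
      · simpa [hi] using e i hi
    have s2 : (((Bad N L n La a B).filter (fun Y => f Y = Z)).card : ℝ) ≤ ∑ M ∈ PM P n,
        ((Fintype.piFinset (fun i => if i ∈ B then U N L La a M i else {Z i})).card : ℝ) := by
      exact_mod_cast (card_le_card s1).trans card_biUnion_le
    refine s2.trans ((sum_le_card_nsmul _ _ (c ^ B.card * Real.exp n) fun M hM => ?_).trans ?_)
    · rw [Fintype.card_piFinset]
      have : ∀ i : Fin N, (if i ∈ B then U N L La a M i else {Z i}).card =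
          if i ∈ B then (U N L La a M i).card else 1 := by
        intro i; split_ifs <;> simp
      simp only [this]
      rw [prod_ite, prod_const_one, mul_one, filter_mem_eq_inter, univ_inter]
      push_cast
      refine prod_le (fun i => ((U N L La a M i).card : ℝ)) (fun i => by positivity) c n hc ?_ B
      refine (sumU hL ha Z Bᶜ M (mem_PM.1 hM).1).trans ?_
      rw [(mem_PM.1 hM).2.1]
      exact mul_le_mul_of_nonneg_left hac (by positivity)
    · rw [nsmul_eq_mul]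
      refine mul_le_mul_of_nonneg_right ?_ (by positivity)
      have := (card_PM _ P (good hL Z Bᶜ) rfl n).trans (Nat.pow_le_pow_right (by norm_num)
        (Nat.mul_le_mul_left 2 (card_image_le.trans ((card_le_univ _).trans
          (Fintype.card_fin N).le))))
      exact_mod_cast this
  have h4 : ((Bad N L n La a B).card : ℝ) ≤
      t.card * ((2 ^ 34) ^ (2 * N) * (c ^ B.card * Real.exp n)) := by
    rw [card_eq_sum_card_fiberwise h1]
    push_cast
    rw [← nsmul_eq_mul]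
    exact sum_le_card_nsmul _ _ _ h3
  have h5 : (t.card : ℝ) * L ^ B.card = L ^ N := by exact_mod_cast h2
  calc _ ≤ t.card * ((2 ^ 34) ^ (2 * N) * (c ^ B.card * Real.exp n)) * L ^ B.card :=
        mul_le_mul_of_nonneg_right h4 (by positivity)
    _ = _ := by rw [← h5]; ring

lemma exists_good {L n : ℕ} {La a d : ℝ} (hn : 0 < n) (L0 : 0 < L) (hL : 0 < La) (ha : 0 ≤ a)
    (hd : 0 < d) (hd1 : 2 ^ 207 * 3 * d < 1)
    (hac : 2 * a * La * (3 * n : ℕ) + (3 * n : ℕ) ≤ d ^ 2 * L) :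
    ∃ Y : Fin (3 * n) → ℕ, (∀ i, Y i < L) ∧
      ∀ B : Finset (Fin (3 * n)), n ≤ 2 * B.card → Y ∉ Bad (3 * n) L n La a B := by
  classical
  by_contra hcon
  push Not at hcon
  have L1 : (0 : ℝ) < L := by exact_mod_cast L0
  have s1 : Fintype.piFinset (fun _ : Fin (3 * n) => range L) ⊆
      (univ.filter (fun B : Finset (Fin (3 * n)) => n ≤ 2 * B.card)).biUnion
        (Bad (3 * n) L n La a) := by
    intro Y hY
    obtain ⟨B, h1, h2⟩ := hcon Y fun i => mem_range.1 (Fintype.mem_piFinset.1 hY i)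
    exact mem_biUnion.2 ⟨B, mem_filter.2 ⟨mem_univ _, h1⟩, h2⟩
  have s2 := (card_le_card s1).trans card_biUnion_le
  rw [Fintype.card_piFinset, prod_const, card_range, card_univ, Fintype.card_fin] at s2
  have s3 : (L : ℝ) ^ (3 * n) ≤ ∑ B ∈ univ.filter (fun B : Finset (Fin (3 * n)) => n ≤ 2 * B.card),
      ((Bad (3 * n) L n La a B).card : ℝ) := by exact_mod_cast s2
  have d1 : d ≤ 1 := by nlinarith
  have s4 := sum_le_card_nsmul (univ.filter (fun B : Finset (Fin (3 * n)) => n ≤ 2 * B.card))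
    (fun B => ((Bad (3 * n) L n La a B).card : ℝ))
    (L ^ (3 * n) * ((2 ^ 34) ^ (2 * (3 * n)) * (d ^ n * 3 ^ n))) (by
      intro B hB
      have h1 := card_Bad (n := n) (L := L) hL ha (by positivity) hac B
      have h2 : (d ^ 2) ^ B.card ≤ d ^ n := by
        rw [← pow_mul]; exact pow_le_pow_of_le_one hd.le d1 (mem_filter.1 hB).2
      have h3 : Real.exp n ≤ 3 ^ n := by
        rw [← Real.exp_one_pow]
        exact pow_le_pow_left₀ (Real.exp_pos 1).le (by linarith [Real.exp_one_lt_d9]) n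
      refine le_of_mul_le_mul_right (h1.trans ?_) (pow_pos L1 B.card)
      rw [mul_pow, mul_assoc, mul_assoc, mul_assoc]
      refine mul_le_mul_of_nonneg_left (mul_le_mul_of_nonneg_left ?_ (by positivity))
        (by positivity)
      rw [mul_comm ((L : ℝ) ^ B.card), ← mul_assoc]
      exact mul_le_mul_of_nonneg_right (mul_le_mul h2 h3 (by positivity) (by positivity))
        (by positivity))
  have s5 : ((univ.filter (fun B : Finset (Fin (3 * n)) => n ≤ 2 * B.card)).card : ℝ) ≤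
      2 ^ (3 * n) := by
    have := card_filter_le (univ : Finset (Finset (Fin (3 * n)))) (fun B => n ≤ 2 * B.card)
    rw [card_univ, Fintype.card_finset, Fintype.card_fin] at this
    exact_mod_cast this
  rw [nsmul_eq_mul] at s4
  have s6 := s3.trans (s4.trans (mul_le_mul_of_nonneg_right s5 (by positivity)))
  have e : (2 : ℝ) ^ (3 * n) * (L ^ (3 * n) * ((2 ^ 34) ^ (2 * (3 * n)) * (d ^ n * 3 ^ n))) =
      L ^ (3 * n) * (2 ^ 207 * 3 * d) ^ n := by
    have : ((2 : ℝ) ^ 207) ^ n = 2 ^ (3 * n) * (2 ^ 34) ^ (2 * (3 * n)) := by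
      rw [← pow_mul, ← pow_mul, ← pow_add]; congr 1; ring
    rw [mul_pow, mul_pow, this]; ring
  rw [e] at s6
  have := pow_lt_one₀ (by positivity) hd1 hn.ne'
  have p := pow_pos L1 (3 * n)
  nlinarith

lemma sort3 {N : ℕ} (p : Fin N → Pt) (R : Fin N → Prop) (a b c : Fin N) (h1 : a ≠ b) (h2 : a ≠ c)
    (h3 : b ≠ c) (ra : R a) (rb : R b) (rc : R c) :
    ∃ lo mid hi : Fin N, lo < mid ∧ mid < hi ∧ R lo ∧ R mid ∧ R hi ∧
      ({p a, p b, p c} : Set Pt) = {p lo, p hi, p mid} ∧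
      |D (p a) (p b) (p c)| = |D (p lo) (p hi) (p mid)| := by
  have pos : ∀ u v : ℝ, u = v → |u| = |v| := fun u v h => by rw [h]
  have neg : ∀ u v : ℝ, u = -v → |u| = |v| := fun u v h => by rw [h, abs_neg]
  rcases lt_or_gt_of_ne h1 with x | x <;> rcases lt_or_gt_of_ne h2 with y | y <;>
    rcases lt_or_gt_of_ne h3 with z | z
  · exact ⟨a, b, c, x, z, ra, rb, rc, by ext; simp; tauto, neg _ _ (by unfold D; ring)⟩
  · exact ⟨a, c, b, y, z, ra, rc, rb, rfl, rfl⟩
  · exact absurd (x.trans z) (not_lt.2 y.le)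
  · exact ⟨c, a, b, y, x, rc, ra, rb, by ext; simp; tauto, neg _ _ (by unfold D; ring)⟩
  · exact ⟨b, a, c, x, y, rb, ra, rc, by ext; simp; tauto, pos _ _ (by unfold D; ring)⟩
  · exact absurd (x.trans y) (not_lt.2 z.le)
  · exact ⟨b, c, a, z, y, rb, rc, ra, by ext; simp; tauto, neg _ _ (by unfold D; ring)⟩
  · exact ⟨c, b, a, z, x, rc, rb, ra, by ext; simp; tauto, pos _ _ (by unfold D; ring)⟩

theorem main (N0 : ℕ) : ∃ n : ℕ, N0 ≤ n ∧ 2 ≤ n ∧ ∃ p : Fin (3 * n) → ℝ × ℝ,
    Function.Injective p ∧ (∀ k, 0 ≤ (p k).1 ∧ (p k).1 ≤ 1 ∧ 0 ≤ (p k).2 ∧ (p k).2 ≤ 1) ∧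
    ∀ σ : Fin (3 * n) ≃ Fin n × Fin 3,
      (∀ i j : Fin n, i ≠ j → Disjoint
        (interior (convexHull ℝ
          ({p (σ.symm (i, 0)), p (σ.symm (i, 1)), p (σ.symm (i, 2))} : Set (ℝ × ℝ))))
        (interior (convexHull ℝ
          ({p (σ.symm (j, 0)), p (σ.symm (j, 1)), p (σ.symm (j, 2))} : Set (ℝ × ℝ))))) →
      (1 / 2 ^ 210) ^ 2 / 73 ≤
        ∑ i : Fin n, |D (p (σ.symm (i, 0))) (p (σ.symm (i, 1))) (p (σ.symm (i, 2)))| / 2 := by
  classical
  obtain ⟨d, hd, hd1, hde⟩ : ∃ d : ℝ, 0 < d ∧ 2 ^ 207 * 3 * d < 1 ∧ 1 / 2 ^ 210 = d :=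
    ⟨1 / 2 ^ 210, by positivity, by norm_num, rfl⟩
  rw [hde]
  set ε := d ^ 2 / 73 with hε
  have ε0 : 0 < ε := by positivity
  obtain ⟨n, n1, n2⟩ : ∃ n, N0 ≤ n ∧ 2 ≤ n := ⟨max N0 2, le_max_left _ _, le_max_right _ _⟩
  have n0 : (0 : ℝ) < n := by exact_mod_cast (by omega : 0 < n)
  obtain ⟨L, hL⟩ := exists_nat_gt ((3 * n : ℝ) ^ 2 + 3 * n / ε)
  have l1 : (3 * n : ℝ) ^ 2 ≤ L := by
    have : 0 < 3 * (n : ℝ) / ε := by positivity
    linarith
  have l2 : 3 * (n : ℝ) ≤ ε * L := by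
    have : 3 * (n : ℝ) / ε ≤ L := by nlinarith [sq_nonneg (3 * n : ℝ)]
    rw [div_le_iff₀ ε0] at this; linarith
  have L0 : (0 : ℝ) < L := lt_of_lt_of_le (by positivity) l1
  obtain ⟨Y, Y1, Y2⟩ := exists_good (L := L) (n := n) (La := 3 * L) (a := 4 * ε / n) (d := d)
    (by omega) (by exact_mod_cast L0) (by positivity) (by positivity) hd hd1 (by
      push_cast
      have : 2 * (4 * ε / n) * (3 * L) * (3 * n) = 72 * ε * L := by field_simp; ring
      rw [this]
      have : d ^ 2 = 73 * ε := by rw [hε]; ring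
      rw [this]; linarith)
  have La0 : (0 : ℝ) < 3 * L := by positivity
  set p : Fin (3 * n) → Pt := fun i => q (3 * n) (3 * L) i (Y i) with hp
  have pinj : Function.Injective p := fun i j h => q_inj (congrArg Prod.fst h)
  refine ⟨n, n1, n2, p, pinj, fun k => ?_, fun σ hdis => ?_⟩
  · have k1 : ((k : ℕ) : ℝ) ≤ 3 * n := by exact_mod_cast k.2.le
    have k0 : (0 : ℝ) ≤ (k : ℕ) := by positivity
    have y1 : (Y k : ℝ) ≤ L := by exact_mod_cast (Y1 k).le
    simp only [hp, q]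
    refine ⟨by positivity, ?_, by positivity, ?_⟩
    · rw [div_le_one (by positivity)]; push_cast; exact k1
    · rw [div_le_one La0]
      have s2 : √2 ≤ 2 := by
        rw [Real.sqrt_le_left (by norm_num)]; norm_num
      have : ((k : ℕ) : ℝ) ^ 2 ≤ (3 * n) ^ 2 := pow_le_pow_left₀ k0 k1 2
      nlinarith [mul_le_mul_of_nonneg_right s2 (sq_nonneg ((k : ℕ) : ℝ))]
  by_contra hcon
  push Not at hcon
  have hs : ∀ i : Fin n, ∃ lo mid hi : Fin (3 * n), lo < mid ∧ mid < hi ∧ (σ lo).1 = i ∧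
      (σ mid).1 = i ∧ (σ hi).1 = i ∧
      ({p (σ.symm (i, 0)), p (σ.symm (i, 1)), p (σ.symm (i, 2))} : Set Pt) = {p lo, p hi, p mid} ∧
      |D (p (σ.symm (i, 0))) (p (σ.symm (i, 1))) (p (σ.symm (i, 2)))| =
        |D (p lo) (p hi) (p mid)| := fun i =>
    sort3 p (fun k => (σ k).1 = i) _ _ _ (by simp) (by simp) (by simp) (by simp) (by simp)
      (by simp)
  choose lo mid hi a1 a2 a3 a4 a5 a6 a7 using hs
  simp only [a6] at hdis
  simp only [a7] at hcon
  set G := univ.filter (fun i : Fin n => |D (p (lo i)) (p (hi i)) (p (mid i))| ≤ 4 * ε / n) with hG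
  have cG : n ≤ 2 * G.card := by
    have c1 := card_filter_add_card_filter_not (s := (univ : Finset (Fin n)))
      (fun i => |D (p (lo i)) (p (hi i)) (p (mid i))| ≤ 4 * ε / n)
    rw [card_univ, Fintype.card_fin] at c1
    set G' := univ.filter (fun i : Fin n => ¬ |D (p (lo i)) (p (hi i)) (p (mid i))| ≤ 4 * ε / n)
    have c2 : (G'.card : ℝ) * (2 * ε / n) ≤ ∑ i, |D (p (lo i)) (p (hi i)) (p (mid i))| / 2 := by
      refine le_trans ?_ (sum_le_sum_of_subset_of_nonneg (subset_univ G') fun i _ _ => by positivity)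
      rw [← nsmul_eq_mul]
      refine card_nsmul_le_sum _ _ _ fun i hi => ?_
      have := not_le.1 (mem_filter.1 hi).2
      have e : 4 * ε / n = 2 * (2 * ε / n) := by ring
      linarith
    have c3 : (G'.card : ℝ) * 2 < n := by
      have := c2.trans_lt hcon
      rw [← mul_div_assoc, div_lt_iff₀ n0] at this
      nlinarith
    have c4 : G'.card * 2 < n := by exact_mod_cast c3
    have c5 : G.card + G'.card = n := c1
    omega
  have minj : Function.Injective mid := fun i j h => by rw [← a4 i, h, a4]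
  have ne : ∀ {i j : Fin n} {u v : Fin (3 * n)}, (σ u).1 = i → (σ v).1 = j → i ≠ j → u ≠ v :=
    fun hu hv h e => h (by rw [← hu, e, hv])
  have lh : ∀ i, lo i < hi i := fun i => (a1 i).trans (a2 i)
  refine Y2 (G.image mid) (by rw [card_image_of_injective _ minj]; exact cG) (mem_filter.2
    ⟨Fintype.mem_piFinset.2 fun i => mem_range.2 (Y1 i),
      univ.image (fun i => (p (lo i), p (hi i))), mem_PM.2 ⟨?_, ?_, ?_⟩, ?_⟩)
  · intro e he
    obtain ⟨i, -, rfl⟩ := mem_image.1 he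
    refine mem_Edges.2 ⟨mem_image.2 ⟨lo i, mem_compl.2 fun h => ?_, rfl⟩,
      mem_image.2 ⟨hi i, mem_compl.2 fun h => ?_, rfl⟩, q_lt.2 (lh i)⟩
    · obtain ⟨j, -, e⟩ := mem_image.1 h
      have : j = i := by rw [← a4 j, e, a3]
      exact (a1 i).ne' (this ▸ e)
    · obtain ⟨j, -, e⟩ := mem_image.1 h
      have : j = i := by rw [← a4 j, e, a5]
      exact (a2 i).ne (this ▸ e)
  · rw [card_image_of_injective, card_univ, Fintype.card_fin]
    intro i j h
    have := pinj (congrArg Prod.fst h)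
    rw [← a3 i, this, a3]
  · intro e he f hf hef
    obtain ⟨i, -, rfl⟩ := mem_image.1 he
    obtain ⟨j, -, rfl⟩ := mem_image.1 hf
    have hij : i ≠ j := fun h => hef (by rw [h])
    exact nc_of_disjoint _ _ (p (mid i)) _ _ (p (mid j)) (q_lt.2 (lh i)) (q_lt.2 (lh j))
      (D_q La0 _ _ _ (lh i).ne (a1 i).ne (a2 i).ne')
      (D_q La0 _ _ _ (lh j).ne (a1 j).ne (a2 j).ne')
      (D_q La0 _ _ _ (lh i).ne (ne (a3 i) (a3 j) hij) (ne (a5 i) (a3 j) hij))
      (D_q La0 _ _ _ (lh i).ne (ne (a3 i) (a5 j) hij) (ne (a5 i) (a5 j) hij))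
      (D_q La0 _ _ _ (lh j).ne (ne (a3 j) (a3 i) hij.symm) (ne (a5 j) (a3 i) hij.symm))
      (D_q La0 _ _ _ (lh j).ne (ne (a3 j) (a5 i) hij.symm) (ne (a5 j) (a5 i) hij.symm))
      (hdis i j hij)
  · intro k hk
    obtain ⟨i, hi', rfl⟩ := mem_image.1 hk
    refine mem_filter.2 ⟨mem_range.2 (Y1 _), _, mem_image_of_mem _ (mem_univ i), ?_, ?_,
      (mem_filter.1 hi').2⟩
    · exact q_lt (La := 3 * L) (a := Y (lo i)) (b := 0).2 (a1 i)
    · exact q_lt (La := 3 * L) (a := 0) (b := Y (hi i)).2 (a2 i)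

end Pool.Agent.H9.Heil
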