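import Mathlib

set_option autoImplicit false

namespace Pool.Agent.H9.Iso

abbrev E := EuclideanSpace ℝ (Fin 3)

structure Pl where
  a : ℤ
  b : ℤ
  c : ℤ
  d : ℤ

structure Nd where
  m : ℕ
  s : Bool
  x : ℤ
  y : ℤ
  z : ℤ
  w : ℤ
  code : ℕ

inductive T where
  | leaf : T
  | node : T → Nd → T → T

def T.toList : T → List Nd
  | .leaf => []
  | .node l v r => l.toList ++ v :: r.toList

def T.look : T → ℕ → Bool
  | .leaf, _ => false
  | .node l v r, x => cond (Nat.blt x v.m) (l.look x) (cond (Nat.blt v.m x) (r.look x) v.s)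

lemma look_sound (t : T) (x : ℕ) (h : t.look x = true) : ∃ v ∈ t.toList, v.m = x ∧ v.s = true := by
  induction t with
  | leaf => simp [T.look] at h
  | node l v r hl hr =>
    simp only [T.look, Bool.cond_eq_ite, Nat.blt_eq] at h
    simp only [T.toList, List.mem_append, List.mem_cons]
    split_ifs at h with h1 h2
    · obtain ⟨u, a, b⟩ := hl h; exact ⟨u, Or.inl a, b⟩
    · obtain ⟨u, a, b⟩ := hr h; exact ⟨u, Or.inr (Or.inr a), b⟩
    · exact ⟨v, Or.inr (Or.inl rfl), by omega, h⟩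

def ev (p : Pl) (v : Nd) : ℤ := p.a * v.x + p.b * v.y + p.c * v.z + p.d * v.w

def wit (n : ℕ) (A : ℕ → Pl) (v : Nd) : Bool :=
  decide (0 < v.w) && Nat.blt v.m (2 ^ n) &&
    (List.range n).all (fun i => cond (v.m.testBit i) (decide (0 < ev (A i) v))
      (decide (ev (A i) v < 0)))

def det3 (p q r : Pl) : ℤ :=
  p.a * (q.b * r.c - q.c * r.b) - p.b * (q.a * r.c - q.c * r.a) + p.c * (q.a * r.b - q.b * r.a)

def det4 (p q r s : Pl) : ℤ :=
  det3 q r s * p.d - det3 p r s * q.d + det3 p q s * r.d - det3 p q r * s.d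

def far (p q r s : Pl) : Bool :=
  cond (decide (0 < det3 q r s))
    (decide (det3 p r s < 0) && decide (0 < det3 p q s) &&
      decide (det3 p q r < 0) && decide (det4 p q r s < 0))
    (decide (det3 q r s < 0) && decide (0 < det3 p r s) && decide (det3 p q s < 0) &&
      decide (0 < det3 p q r) && decide (0 < det4 p q r s))

def sb (b : Bool) (p : Pl) : Pl := cond b p ⟨-p.a, -p.b, -p.c, -p.d⟩

def sg (A : ℕ → Pl) (m i : ℕ) : Pl := sb (m.testBit i) (A i)

def tb (T4 p q r s : ℕ) : ℕ :=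
  T4 >>> (4 * (p + q * (q - 1) / 2 + r * (r - 1) * (r - 2) / 6 +
    s * (s - 1) * (s - 2) * (s - 3) / 24))

def farT (A : ℕ → Pl) (t p q r s : ℕ) : Bool :=
  far (sb (t.testBit 0) (A p)) (sb (t.testBit 1) (A q)) (sb (t.testBit 2) (A r))
    (sb (t.testBit 3) (A s))

def gp4 (n : ℕ) (A : ℕ → Pl) (T4 : ℕ) : Bool :=
  (List.range n).all fun s => (List.range s).all fun r => (List.range r).all fun q =>
    (List.range q).all fun p => farT A (tb T4 p q r s % 16) p q r s

def cert' (n T4 m p q r s : ℕ) : Bool :=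
  Nat.blt p q && Nat.blt q r && Nat.blt r s && Nat.blt s n &&
    Nat.beq (tb T4 p q r s % 16)
      (m >>> p % 2 + 2 * (m >>> q % 2) + 4 * (m >>> r % 2) + 8 * (m >>> s % 2))

def cert (n T4 m c : ℕ) : Bool := cert' n T4 m (c % 32) (c / 32 % 32) (c / 1024 % 32) (c / 32768)

def bad (n T4 : ℕ) (t : T) (v : Nd) : List ℕ :=
  (List.range n).filter (fun i => cond (cert n T4 (v.m ^^^ 2 ^ i) (v.code >>> (20 * i) % 1048576))
    false (!(t.look (v.m ^^^ 2 ^ i))))

def incr : List Nd → Bool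
  | u :: v :: l => Nat.blt u.m v.m && incr (v :: l)
  | _ => true

lemma incr_sound : ∀ l : List Nd, incr l = true → (l.map Nd.m).IsChain (· < ·)
  | [], _ => by simp
  | [_], _ => by simp
  | u :: v :: l, h => by
    simp only [incr, Bool.and_eq_true, Nat.blt_eq] at h
    have := incr_sound (v :: l) h.2
    simp only [List.map_cons] at this ⊢
    exact List.IsChain.cons_cons h.1 this

def gp3 (n : ℕ) (A : ℕ → Pl) : Bool :=
  (List.range n).all fun k => (List.range k).all fun j => (List.range j).all fun i =>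
    decide (det3 (A i) (A j) (A k) ≠ 0)

noncomputable def nv (p : Pl) : E := !₂[p.a, p.b, p.c]

def fv (p : Pl) (x : E) : ℝ := p.a * x 0 + p.b * x 1 + p.c * x 2 + p.d

lemma fv_eq (p : Pl) (x : E) : inner ℝ (nv p) x - (-p.d : ℝ) = fv p x := by
  simp [nv, fv, PiLp.inner_apply, Fin.sum_univ_three]; ring

lemma lin4 (p q r s : Pl) (x : E) : det3 q r s * fv p x - det3 p r s * fv q x +
    det3 p q s * fv r x - det3 p q r * fv s x = det4 p q r s := by
  unfold det4 det3 fv; push_cast; ring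

lemma far_sound {p q r s : Pl} (h : far p q r s = true) (x : E) (h1 : 0 ≤ fv p x) (h2 : 0 ≤ fv q x)
    (h3 : 0 ≤ fv r x) (h4 : 0 ≤ fv s x) : False := by
  have := lin4 p q r s x
  simp only [far, Bool.cond_eq_ite, decide_eq_true_eq] at h
  split_ifs at h with a
  · simp only [Bool.and_eq_true, decide_eq_true_eq] at h
    obtain ⟨⟨⟨b, c⟩, d⟩, e⟩ := h
    have a' : (0 : ℝ) < det3 q r s := by exact_mod_cast a
    have b' : (det3 p r s : ℝ) < 0 := by exact_mod_cast b
    have c' : (0 : ℝ) < det3 p q s := by exact_mod_cast c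
    have d' : (det3 p q r : ℝ) < 0 := by exact_mod_cast d
    have e' : (det4 p q r s : ℝ) < 0 := by exact_mod_cast e
    linarith [mul_nonneg a'.le h1, mul_nonneg c'.le h3, mul_nonneg (neg_pos.2 b').le h2,
      mul_nonneg (neg_pos.2 d').le h4]
  · simp only [Bool.and_eq_true, decide_eq_true_eq] at h
    obtain ⟨⟨⟨⟨a, b⟩, c⟩, d⟩, e⟩ := h
    have a' : (det3 q r s : ℝ) < 0 := by exact_mod_cast a
    have b' : (0 : ℝ) < det3 p r s := by exact_mod_cast b
    have c' : (det3 p q s : ℝ) < 0 := by exact_mod_cast c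
    have d' : (0 : ℝ) < det3 p q r := by exact_mod_cast d
    have e' : (0 : ℝ) < det4 p q r s := by exact_mod_cast e
    linarith [mul_nonneg (neg_pos.2 a').le h1, mul_nonneg (neg_pos.2 c').le h3,
      mul_nonneg b'.le h2, mul_nonneg d'.le h4]

def cell (n : ℕ) (A : ℕ → Pl) (m : ℕ) : Set E := {x | ∀ i < n, 0 < fv (sg A m i) x}

lemma fv_sb (b : Bool) (p : Pl) (x : E) : fv (sb b p) x = if b then fv p x else -fv p x := by
  unfold sb
  cases b
  · simp [fv]; ring
  · simp

lemma fv_sg (A : ℕ → Pl) (m i : ℕ) (x : E) :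
    fv (sg A m i) x = if m.testBit i then fv (A i) x else -fv (A i) x := fv_sb _ _ _

lemma bitv (m p : ℕ) : m >>> p % 2 = if m.testBit p then 1 else 0 := by
  rw [Nat.testBit_eq_decide_div_mod_eq, Nat.shiftRight_eq_div_pow]
  by_cases h : m / 2 ^ p % 2 = 1
  · simp [h]
  · simp only [h, decide_false, Bool.false_eq_true, if_false]; omega

lemma cert_sound {n T4 : ℕ} {A : ℕ → Pl} (g : gp4 n A T4 = true) {m c : ℕ}
    (h : cert n T4 m c = true) : cell n A m = ∅ := by
  unfold cert at h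
  generalize c % 32 = p, c / 32 % 32 = q, c / 1024 % 32 = r, c / 32768 = s at h
  simp only [cert', Bool.and_eq_true, Nat.blt_eq, Nat.beq_eq] at h
  obtain ⟨⟨⟨⟨h1, h2⟩, h3⟩, h4⟩, h5⟩ := h
  simp only [gp4, List.all_eq_true, List.mem_range] at g
  have := g s h4 r h3 q h2 p h1
  rw [h5, bitv, bitv, bitv, bitv] at this
  refine Set.eq_empty_of_forall_notMem fun x hx => ?_
  have a1 := (hx p (by omega)).le
  have a2 := (hx q (by omega)).le
  have a3 := (hx r (by omega)).le
  have a4 := (hx s h4).le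
  unfold sg at a1 a2 a3 a4
  revert this a1 a2 a3 a4
  cases m.testBit p <;> cases m.testBit q <;> cases m.testBit r <;> cases m.testBit s <;>
    exact fun this a1 a2 a3 a4 => far_sound this x a1 a2 a3 a4

lemma wit_sound {n : ℕ} {A : ℕ → Pl} {v : Nd} (h : wit n A v = true) :
    v.m < 2 ^ n ∧ (cell n A v.m).Nonempty := by
  simp only [wit, Bool.and_eq_true, Nat.blt_eq, decide_eq_true_eq, List.all_eq_true,
    List.mem_range] at h
  obtain ⟨⟨h1, h2⟩, h3⟩ := h
  have w0 : (0 : ℝ) < v.w := by exact_mod_cast h1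
  refine ⟨h2, !₂[v.x / v.w, v.y / v.w, v.z / v.w], fun i hi => ?_⟩
  have e : fv (A i) !₂[v.x / v.w, v.y / v.w, v.z / v.w] = (ev (A i) v : ℝ) / v.w := by
    simp [fv, ev]; field_simp
  rw [fv_sg, e]
  have := h3 i hi
  cases hb : v.m.testBit i
  · rw [hb] at this
    have : (ev (A i) v : ℝ) < 0 := by exact_mod_cast of_decide_eq_true this
    simp only [Bool.false_eq_true, if_false]
    exact neg_pos.2 (div_neg_of_neg_of_pos this w0)
  · rw [hb] at this
    have : (0 : ℝ) < ev (A i) v := by exact_mod_cast of_decide_eq_true this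
    simp only [if_true]
    exact div_pos this w0

lemma bit_iff {n : ℕ} {A : ℕ → Pl} {m i : ℕ} {x : E} (hx : x ∈ cell n A m) (hi : i < n) :
    (m.testBit i = true ↔ 0 < fv (A i) x) ∧ fv (A i) x ≠ 0 := by
  have := hx i hi
  rw [fv_sg] at this
  cases hb : m.testBit i
  · rw [hb] at this
    simp only [Bool.false_eq_true, if_false] at this
    exact ⟨⟨by simp, fun h => by linarith⟩, by linarith⟩
  · rw [hb] at this
    simp only [if_true] at this
    exact ⟨by simpa using this, this.ne'⟩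

lemma cell_congr {n : ℕ} {A : ℕ → Pl} {m m' : ℕ} (h : ∀ i < n, m.testBit i = m'.testBit i) :
    cell n A m = cell n A m' := by
  ext x
  refine forall₂_congr fun i hi => ?_
  rw [fv_sg, fv_sg, h i hi]

lemma cell_inj {n : ℕ} {A : ℕ → Pl} {m m' : ℕ} (h1 : m < 2 ^ n) (h2 : m' < 2 ^ n)
    (hn : (cell n A m).Nonempty) (h : cell n A m = cell n A m') : m = m' := by
  obtain ⟨x, hx⟩ := hn
  refine Nat.eq_of_testBit_eq fun i => ?_
  by_cases hi : i < n
  · exact Bool.eq_iff_iff.2 ((bit_iff hx hi).1.trans (bit_iff (h ▸ hx) hi).1.symm)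
  · have : 2 ^ n ≤ 2 ^ i := Nat.pow_le_pow_right (by norm_num) (by omega)
    rw [Nat.testBit_lt_two_pow (by omega), Nat.testBit_lt_two_pow (by omega)]

def U (n : ℕ) (A : ℕ → Pl) : Set E := {x | ∀ i : Fin n, inner ℝ (nv (A i)) x ≠ (-(A i).d : ℝ)}

lemma mem_U {n : ℕ} {A : ℕ → Pl} {x : E} : x ∈ U n A ↔ ∀ i < n, fv (A i) x ≠ 0 :=
  ⟨fun h i hi => by rw [← fv_eq]; exact sub_ne_zero.2 (h ⟨i, hi⟩),
   fun h i => sub_ne_zero.1 (by rw [fv_eq]; exact h i i.2)⟩

lemma cell_convex (n : ℕ) (A : ℕ → Pl) (m : ℕ) : Convex ℝ (cell n A m) := by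
  intro x hx y hy s t hs ht hst i hi
  have e : fv (sg A m i) (s • x + t • y) = s * fv (sg A m i) x + t * fv (sg A m i) y := by
    simp only [fv, PiLp.add_apply, PiLp.smul_apply, smul_eq_mul]
    linear_combination (-((sg A m i).d : ℝ)) * hst
  rw [e]
  have a := hx i hi
  have b := hy i hi
  rcases hs.eq_or_lt with h | h
  · rw [← h] at hst ⊢; nlinarith
  · nlinarith [mul_pos h a, mul_nonneg ht b.le]

lemma comp_eq {n : ℕ} {A : ℕ → Pl} {m : ℕ} {x : E} (hx : x ∈ cell n A m) :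
    connectedComponentIn (U n A) x = cell n A m := by
  have s : cell n A m ⊆ U n A := fun y hy => mem_U.2 fun i hi => (bit_iff hy hi).2
  refine Set.Subset.antisymm (fun y hy i hi => ?_)
    ((cell_convex n A m).isPreconnected.subset_connectedComponentIn hx s)
  by_contra hc
  have c : ContinuousOn (fv (sg A m i)) (connectedComponentIn (U n A) x) := by
    unfold fv; fun_prop
  obtain ⟨z, hz, e⟩ := isPreconnected_connectedComponentIn.intermediate_value hy
    (mem_connectedComponentIn (s hx)) c ⟨not_lt.1 hc, (hx i hi).le⟩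
  have := mem_U.1 (connectedComponentIn_subset _ _ hz) i hi
  rw [fv_sg] at e
  split_ifs at e
  · exact this e
  · exact this (neg_eq_zero.1 e)

lemma exists_cell {n : ℕ} {A : ℕ → Pl} {x : E} (hx : x ∈ U n A) :
    ∃ m < 2 ^ n, x ∈ cell n A m := by
  classical
  refine ⟨Nat.ofBits (fun i : Fin n => decide (0 < fv (A i) x)), Nat.ofBits_lt_two_pow _,
    fun i hi => ?_⟩
  rw [fv_sg, Nat.testBit_ofBits_lt _ _ hi]
  have := mem_U.1 hx i hi
  by_cases h : 0 < fv (A i) x
  · simp [h]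
  · simp only [h, decide_false, Bool.false_eq_true, if_false]
    exact neg_pos.2 (lt_of_le_of_ne (not_lt.1 h) this)

def Ch (n : ℕ) (A : ℕ → Pl) : Set (Set E) := {C | ∃ x ∈ U n A, C = connectedComponentIn (U n A) x}

lemma mem_Ch {n : ℕ} {A : ℕ → Pl} {C : Set E} :
    C ∈ Ch n A ↔ ∃ m < 2 ^ n, (cell n A m).Nonempty ∧ C = cell n A m := by
  constructor
  · rintro ⟨x, hx, rfl⟩
    obtain ⟨m, h1, h2⟩ := exists_cell hx
    exact ⟨m, h1, ⟨x, h2⟩, comp_eq h2⟩
  · rintro ⟨m, -, ⟨x, hx⟩, rfl⟩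
    exact ⟨x, mem_U.2 fun i hi => (bit_iff hx hi).2, (comp_eq hx).symm⟩

lemma Ch_fin (n : ℕ) (A : ℕ → Pl) : (Ch n A).Finite :=
  ((Set.finite_Iio (2 ^ n)).image (cell n A)).subset fun _ h => by
    obtain ⟨m, a, -, b⟩ := mem_Ch.1 h
    exact ⟨m, a, b.symm⟩

def Sep (A : ℕ → Pl) (i : ℕ) (C D : Set E) : Prop :=
  ∀ x ∈ C, ∀ y ∈ D, (inner ℝ (nv (A i)) x - (-(A i).d : ℝ)) *
    (inner ℝ (nv (A i)) y - (-(A i).d : ℝ)) < 0

lemma sep_iff {n : ℕ} {A : ℕ → Pl} {m m' i : ℕ} (h1 : (cell n A m).Nonempty)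
    (h2 : (cell n A m').Nonempty) (hi : i < n) :
    Sep A i (cell n A m) (cell n A m') ↔ m.testBit i ≠ m'.testBit i := by
  have key : ∀ x ∈ cell n A m, ∀ y ∈ cell n A m',
      (fv (A i) x * fv (A i) y < 0 ↔ m.testBit i ≠ m'.testBit i) := by
    intro x hx y hy
    have a := hx i hi
    have b := hy i hi
    rw [fv_sg] at a b
    have := mul_pos a b
    cases h : m.testBit i <;> cases h' : m'.testBit i <;> simp only [h, h'] at this <;>
      simp at this ⊢ <;> linarith
  obtain ⟨x, hx⟩ := h1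
  obtain ⟨y, hy⟩ := h2
  simp only [Sep, fv_eq]
  exact ⟨fun h => (key x hx y hy).1 (h x hx y hy), fun h x hx y hy => (key x hx y hy).2 h⟩

lemma ncard_img {n : ℕ} {A : ℕ → Pl} (l : List Nd) (h1 : ∀ v ∈ l, wit n A v = true)
    (h2 : (l.map Nd.m).Nodup) : (cell n A '' {m | m ∈ l.map Nd.m}).ncard = l.length := by
  rw [Set.InjOn.ncard_image]
  · have : {m | m ∈ l.map Nd.m} = ((l.map Nd.m).toFinset : Set ℕ) := by ext; simp
    rw [this, Set.ncard_coe_finset, List.toFinset_card_of_nodup h2, List.length_map]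
  · intro m hm m' hm' h
    obtain ⟨v, hv, rfl⟩ := List.mem_map.1 hm
    obtain ⟨v', hv', rfl⟩ := List.mem_map.1 hm'
    exact cell_inj (wit_sound (h1 v hv)).1 (wit_sound (h1 v' hv')).1 (wit_sound (h1 v hv)).2 h

theorem main (n T4 : ℕ) (A : ℕ → Pl) (t : T) (h1 : t.toList.all (wit n A) = true)
    (h2 : incr t.toList = true) (g : gp4 n A T4 = true) :
    ∃ S ⊆ Ch n A, S.ncard = (t.toList.filter Nd.s).length ∧ t.toList.length ≤ (Ch n A).ncard ∧
      {p : Set E × Set E | p.1 ∈ S ∧ p.2 ∈ Ch n A \ S ∧ ∃! i : Fin n, Sep A i p.1 p.2}.ncard ≤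
        ((t.toList.filter Nd.s).map (fun v => (bad n T4 t v).length)).sum := by
  classical
  rw [List.all_eq_true] at h1
  have nd : (t.toList.map Nd.m).Nodup :=
    (List.isChain_iff_pairwise.1 (incr_sound _ h2)).imp ne_of_lt
  have sub : ∀ l : List Nd, (∀ v ∈ l, wit n A v = true) →
      cell n A '' {m | m ∈ l.map Nd.m} ⊆ Ch n A := by
    rintro l hl _ ⟨m, hm, rfl⟩
    obtain ⟨v, hv, rfl⟩ := List.mem_map.1 hm
    exact mem_Ch.2 ⟨_, (wit_sound (hl v hv)).1, (wit_sound (hl v hv)).2, rfl⟩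
  have h3 : ∀ v ∈ t.toList.filter Nd.s, wit n A v = true := fun v hv =>
    h1 v (List.mem_filter.1 hv).1
  refine ⟨_, sub _ h3, ncard_img _ h3 (nd.sublist (List.filter_sublist.map _)), ?_, ?_⟩
  · rw [← ncard_img _ h1 nd]
    exact Set.ncard_le_ncard (sub _ h1) (Ch_fin n A)
  · let L : List (Set E × Set E) := (t.toList.filter Nd.s).flatMap fun v =>
      (bad n T4 t v).map fun i => (cell n A v.m, cell n A (v.m ^^^ 2 ^ i))
    have e : L.length = ((t.toList.filter Nd.s).map (fun v => (bad n T4 t v).length)).sum := by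
      simp [L, List.length_flatMap]
    rw [← e]
    refine le_trans (Set.ncard_le_ncard (t := (L.toFinset : Set _)) ?_ (Finset.finite_toSet _)) ?_
    · rintro ⟨C, D⟩ ⟨⟨_, hm, rfl⟩, ⟨hD, hS⟩, i, hi, hu⟩
      obtain ⟨v, hv, rfl⟩ := List.mem_map.1 hm
      obtain ⟨m, -, hne, rfl⟩ := mem_Ch.1 hD
      have hv1 := (wit_sound (h3 v hv)).2
      have e2 : cell n A m = cell n A (v.m ^^^ 2 ^ i.val) := by
        refine cell_congr fun j hj => ?_
        rw [Nat.testBit_xor, Nat.testBit_two_pow]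
        by_cases hij : i.val = j
        · have := (sep_iff hv1 hne i.2).1 hi
          subst hij
          revert this
          cases v.m.testBit i <;> cases m.testBit i <;> simp
        · have : ¬ Sep A j (cell n A v.m) (cell n A m) := fun h =>
            hij (congrArg Fin.val (hu ⟨j, hj⟩ h)).symm
          rw [sep_iff hv1 hne hj] at this
          simp [hij, (not_not.1 this).symm]
      simp only [List.coe_toFinset, Set.mem_ofPred_eq, L, List.mem_flatMap, List.mem_map]
      refine ⟨v, hv, i, List.mem_filter.2 ⟨List.mem_range.2 i.2, ?_⟩, by rw [e2]⟩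
      cases hc : cert n T4 (v.m ^^^ 2 ^ i.val) (v.code >>> (20 * i.val) % 1048576)
      · simp only [cond_false, Bool.not_eq_true']
        by_contra hl
        obtain ⟨u, u1, u2, u3⟩ := look_sound _ _ (by simpa using hl)
        exact (hS ⟨_, List.mem_map.2 ⟨u, List.mem_filter.2 ⟨u1, u3⟩, u2⟩, e2.symm⟩).elim
      · rw [e2, cert_sound g hc] at hne
        exact (Set.not_nonempty_empty hne).elim
    · rw [Set.ncard_coe_finset]
      exact List.toFinset_card_le L

lemma li3 {p q r : Pl} (h : det3 p q r ≠ 0) : LinearIndependent ℝ ![nv p, nv q, nv r] := by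
  rw [Fintype.linearIndependent_iff]
  intro g hg
  have h0 := congrArg (fun v : E => v 0) hg
  have h1 := congrArg (fun v : E => v 1) hg
  have h2 := congrArg (fun v : E => v 2) hg
  simp [Fin.sum_univ_three, nv] at h0 h1 h2
  have h' : (det3 p q r : ℝ) ≠ 0 := by exact_mod_cast h
  have a : g 0 * det3 p q r = 0 := by
    unfold det3; push_cast
    linear_combination ((q.b : ℝ) * r.c - q.c * r.b) * h0 - ((q.a : ℝ) * r.c - q.c * r.a) * h1 +
      ((q.a : ℝ) * r.b - q.b * r.a) * h2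
  have b : g 1 * det3 p q r = 0 := by
    unfold det3; push_cast
    linear_combination -((p.b : ℝ) * r.c - p.c * r.b) * h0 + ((p.a : ℝ) * r.c - p.c * r.a) * h1 -
      ((p.a : ℝ) * r.b - p.b * r.a) * h2
  have c : g 2 * det3 p q r = 0 := by
    unfold det3; push_cast
    linear_combination ((p.b : ℝ) * q.c - p.c * q.b) * h0 - ((p.a : ℝ) * q.c - p.c * q.a) * h1 +
      ((p.a : ℝ) * q.b - p.b * q.a) * h2
  intro i
  fin_cases i
  exacts [(mul_eq_zero.1 a).resolve_right h', (mul_eq_zero.1 b).resolve_right h',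
    (mul_eq_zero.1 c).resolve_right h']

lemma gp3_sound {n : ℕ} {A : ℕ → Pl} (hn : 3 ≤ n) (h : gp3 n A = true) (F : Finset (Fin n))
    (hF : F.card ≤ 3) : LinearIndepOn ℝ (fun i : Fin n => nv (A i)) F := by
  obtain ⟨G, h1, -, h3⟩ := Finset.exists_subsuperset_card_eq (Finset.subset_univ F) hF
    (by simpa using hn)
  refine LinearIndepOn.mono ?_ (Finset.coe_subset.2 h1)
  simp only [gp3, List.all_eq_true, List.mem_range, decide_eq_true_eq] at h
  let e := G.orderEmbOfFin h3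
  have := li3 (h (e 2) (e 2).2 (e 1) (e.strictMono (by decide)) (e 0) (e.strictMono (by decide)))
  rw [← Finset.range_orderEmbOfFin G h3]
  refine (linearIndepOn_range_iff e.injective _).2 ?_
  convert this using 1
  ext1 i
  fin_cases i <;> rfl

lemma gp4_sound {n T4 : ℕ} {A : ℕ → Pl} (h : gp4 n A T4 = true) (F : Finset (Fin n))
    (hF : F.card = 4) : ¬ ∃ x : E, ∀ i ∈ F, inner ℝ (nv (A i)) x = (-(A i).d : ℝ) := by
  rintro ⟨x, hx⟩
  simp only [gp4, List.all_eq_true, List.mem_range] at h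
  let e := F.orderEmbOfFin hF
  have := h (e 3) (e 3).2 (e 2) (e.strictMono (by decide)) (e 1) (e.strictMono (by decide)) (e 0)
    (e.strictMono (by decide))
  have z : ∀ k b, 0 ≤ fv (sb b (A (e k))) x := fun k b => by
    rw [fv_sb, ← fv_eq, hx _ (Finset.orderEmbOfFin_mem _ _ _), sub_self]; simp
  exact far_sound this x (z _ _) (z _ _) (z _ _) (z _ _)

end Pool.Agent.H9.Iso
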