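import Pool.Agent.H9.IsoData

set_option autoImplicit false

namespace Pool.Agent.H9.IsoC

open Pool.Agent.H9.Iso Pool.Agent.H9.IsoData

theorem c1 : root.toList.all (wit 24 A) = true := by decide +kernel

end Pool.Agent.H9.IsoC
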