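import Pool.Agent.H9.IsoData

set_option autoImplicit false

namespace Pool.Agent.H9.IsoC

open Pool.Agent.H9.Iso Pool.Agent.H9.IsoData

theorem c2 : incr root.toList = true := by decide +kernel

theorem c3 : (root.toList.filter Nd.s).length = 1160 := by decide +kernel

theorem c4 : root.toList.length = 2325 := by decide +kernel

theorem c5 : ((root.toList.filter Nd.s).map (fun v => (bad 24 T4 root v).length)).sum = 190 := by
  decide +kernel

theorem c6 : gp3 24 A = true := by decide +kernel

end Pool.Agent.H9.IsoC
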