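import Mathlib

set_option autoImplicit false

open Finset Module

namespace Pool.Agent.H9.Isoclinic

variable {E : Type*} [NormedAddCommGroup E] [InnerProductSpace ℝ E] [FiniteDimensional ℝ E]

lemma inner_proj {ι : Type*} [Fintype ι] (U : Submodule ℝ E) (u : OrthonormalBasis ι ℝ U)
    (x y : E) : inner ℝ (U.starProjection x) y = ∑ a, inner ℝ (u a : E) x * inner ℝ (u a : E) y := by
  rw [Submodule.starProjection_apply, u.orthogonalProjectionOnto_apply_eq_sum]
  simp [sum_inner, inner_smul_left]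

lemma norm_proj_sq (U : Submodule ℝ E) (x : E) :
    ‖U.starProjection x‖ ^ 2 = inner ℝ (U.starProjection x) x := by
  rw [← real_inner_self_eq_norm_sq, ← Submodule.inner_starProjection_left_eq_right,
    Submodule.starProjection_eq_self_iff.2 (U.starProjection_apply_mem x)]

lemma norm_proj_sum {ι : Type*} [Fintype ι] (U : Submodule ℝ E) (u : OrthonormalBasis ι ℝ U)
    (x : E) : ‖U.starProjection x‖ ^ 2 = ∑ a, inner ℝ (u a : E) x ^ 2 := by
  rw [norm_proj_sq, inner_proj U u]; simp [sq]

noncomputable def tr (U V : Submodule ℝ E) : ℝ :=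
  ∑ b, inner ℝ (U.starProjection (stdOrthonormalBasis ℝ E b))
    (V.starProjection (stdOrthonormalBasis ℝ E b))

lemma tr_comm (U V : Submodule ℝ E) : tr U V = tr V U := by
  simp only [tr, real_inner_comm]

lemma tr_eq {ι : Type*} [Fintype ι] (U V : Submodule ℝ E) (u : OrthonormalBasis ι ℝ U) :
    tr U V = ∑ a, ‖V.starProjection (u a)‖ ^ 2 := by
  simp only [tr, inner_proj U u]
  rw [sum_comm]
  refine sum_congr rfl fun a _ => ?_
  rw [norm_proj_sq, real_inner_comm, ← (stdOrthonormalBasis ℝ E).sum_inner_mul_inner]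
  refine sum_congr rfl fun b _ => ?_
  rw [← Submodule.inner_starProjection_left_eq_right, real_inner_comm (V.starProjection _)]

lemma norm_coe_onb {ι : Type*} [Fintype ι] (U : Submodule ℝ E) (u : OrthonormalBasis ι ℝ U)
    (a : ι) : ‖(u a : E)‖ = 1 := u.orthonormal.1 a

lemma tr_self (U : Submodule ℝ E) : tr U U = finrank ℝ U := by
  rw [tr_eq U U (stdOrthonormalBasis ℝ U)]
  simp [norm_coe_onb]

lemma tr_split (U T : Submodule ℝ E) : (finrank ℝ U : ℝ) = tr T U + tr Tᗮ U := by
  rw [tr_comm T, tr_comm Tᗮ, tr_eq U T (stdOrthonormalBasis ℝ U),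
    tr_eq U Tᗮ (stdOrthonormalBasis ℝ U), ← sum_add_distrib]
  simp only [← Submodule.norm_sq_eq_add_norm_sq_starProjection, norm_coe_onb]
  simp

section

variable (k : ℕ) (α : ℝ) (S : Finset (Submodule ℝ E)) (hk : ∀ U ∈ S, finrank ℝ U = k)
  (hα : ∀ U ∈ S, ∀ V ∈ S, U ≠ V → ∀ u ∈ U, ‖V.starProjection u‖ = α * ‖u‖)

include hk hα in
lemma tr_ne (U : Submodule ℝ E) (hU : U ∈ S) (V : Submodule ℝ E) (hV : V ∈ S) (h : U ≠ V) :
    tr U V = k * α ^ 2 := by
  rw [tr_eq U V (stdOrthonormalBasis ℝ U)]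
  have : ∀ a, ‖V.starProjection (stdOrthonormalBasis ℝ U a)‖ ^ 2 = α ^ 2 := by
    intro a
    rw [hα U hU V hV h _ (Submodule.coe_mem _), norm_coe_onb, mul_one]
  simp [this, hk U hU]

include hα in
lemma lam (h0 : 0 ≤ α) (h1 : α ≤ 1) (y : E) :
    ∑ U ∈ S, ‖U.starProjection y‖ ^ 2 ≤ (1 - α + α * S.card) * ‖y‖ ^ 2 := by
  classical
  set s := ∑ U ∈ S, ‖U.starProjection y‖ ^ 2 with hs
  have s0 : 0 ≤ s := by positivity
  set z := ∑ U ∈ S, U.starProjection y with hz
  have e1 : inner ℝ z y = s := by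
    rw [hz, sum_inner]; simp only [hs, norm_proj_sq]
  have e2 : ‖z‖ ^ 2 ≤ (1 - α + α * S.card) * s := by
    rw [← real_inner_self_eq_norm_sq, hz, sum_inner]
    simp only [inner_sum]
    have : ∀ U ∈ S, ∀ V ∈ S, inner ℝ (U.starProjection y) (V.starProjection y) ≤
        (if U = V then (1 - α) * ‖U.starProjection y‖ ^ 2 else 0) +
          α * (‖U.starProjection y‖ ^ 2 + ‖V.starProjection y‖ ^ 2) / 2 := by
      intro U hU V hV
      split_ifs with h
      · subst h; rw [real_inner_self_eq_norm_sq]; linarith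
      · have a : inner ℝ (U.starProjection y) (V.starProjection y) =
            inner ℝ (V.starProjection (U.starProjection y)) (V.starProjection y) := by
          rw [Submodule.inner_starProjection_left_eq_right V,
            Submodule.starProjection_eq_self_iff.2 (V.starProjection_apply_mem y)]
        have b := real_inner_le_norm (V.starProjection (U.starProjection y)) (V.starProjection y)
        rw [hα U hU V hV h _ (U.starProjection_apply_mem y)] at b
        rw [a]
        nlinarith [mul_nonneg h0 (sq_nonneg (‖U.starProjection y‖ - ‖V.starProjection y‖))]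
    refine (sum_le_sum fun U hU => sum_le_sum fun V hV => this U hU V hV).trans (le_of_eq ?_)
    simp only [sum_add_distrib, sum_ite_eq, add_div, mul_add]
    rw [sum_congr rfl fun U hU => if_pos hU]
    simp only [sum_const, nsmul_eq_mul, ← sum_div, ← mul_sum, ← hs]
    ring
  have e3 := real_inner_mul_inner_self_le z y
  rw [e1, real_inner_self_eq_norm_sq, real_inner_self_eq_norm_sq] at e3
  have c0 : 0 ≤ (1 - α + α * S.card) * ‖y‖ ^ 2 := by
    have : 0 ≤ α * S.card := by positivity
    have : 0 ≤ 1 - α + α * S.card := by linarith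
    positivity
  rcases s0.eq_or_lt with h | h
  · rw [← h]; exact c0
  · have := mul_le_mul_of_nonneg_right e2 (sq_nonneg ‖y‖)
    by_contra hh
    push Not at hh
    nlinarith

include hk hα in
lemma bessel (h0 : 0 ≤ α) (h1 : α ≤ 1) (u y : E) (hu : ‖u‖ = 1)
    (h : ∑ U ∈ S, inner ℝ (U.starProjection u) y = 0) :
    ∑ U ∈ S, inner ℝ (U.starProjection u) y ^ 2 ≤ k * (1 - α ^ 2) * ‖y‖ ^ 2 := by
  classical
  set w : Submodule ℝ E → ℝ := fun U => inner ℝ (U.starProjection u) y with hw
  set W := ∑ U ∈ S, w U ^ 2 with hW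
  have W0 : 0 ≤ W := by positivity
  let Y : E → E := fun x => ∑ U ∈ S, w U • U.starProjection x
  have adj : ∀ x z, inner ℝ (Y x) z = inner ℝ x (Y z) := by
    intro x z
    simp only [Y, sum_inner, inner_sum, inner_smul_left, inner_smul_right, conj_trivial,
      Submodule.inner_starProjection_left_eq_right]
  have e1 : inner ℝ u (Y y) = W := by
    rw [← adj]
    simp only [Y, sum_inner, inner_smul_left, conj_trivial, hW, sq, hw]
  have e2 : ∑ b, ‖Y (stdOrthonormalBasis ℝ E b)‖ ^ 2 = k * (1 - α ^ 2) * W := by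
    have : ∀ b, ‖Y (stdOrthonormalBasis ℝ E b)‖ ^ 2 = ∑ U ∈ S, ∑ V ∈ S, w U * w V *
        inner ℝ (U.starProjection (stdOrthonormalBasis ℝ E b))
          (V.starProjection (stdOrthonormalBasis ℝ E b)) := by
      intro b
      rw [← real_inner_self_eq_norm_sq]
      simp only [Y, sum_inner, inner_sum, inner_smul_left, inner_smul_right, conj_trivial]
      rw [sum_comm]
      refine sum_congr rfl fun U _ => ?_
      rw [mul_sum]
      refine sum_congr rfl fun V _ => ?_
      ring
    simp only [this]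
    rw [sum_comm]
    have e3 : ∀ U ∈ S, ∑ b, ∑ V ∈ S, w U * w V *
        inner ℝ (U.starProjection (stdOrthonormalBasis ℝ E b))
          (V.starProjection (stdOrthonormalBasis ℝ E b)) =
        k * (1 - α ^ 2) * w U ^ 2 := by
      intro U hU
      rw [sum_comm]
      have e4 : ∀ V ∈ S, ∑ b, w U * w V *
          inner ℝ (U.starProjection (stdOrthonormalBasis ℝ E b))
            (V.starProjection (stdOrthonormalBasis ℝ E b)) =
          (if U = V then k * (1 - α ^ 2) * w U ^ 2 else 0) + k * α ^ 2 * w U * w V := by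
        intro V hV
        rw [← mul_sum]
        change w U * w V * tr U V = _
        split_ifs with h
        · subst h; rw [tr_self, hk U hU]; ring
        · rw [tr_ne k α S hk hα U hU V hV h]; ring
      rw [sum_congr rfl e4, sum_add_distrib, sum_ite_eq, if_pos hU, ← mul_sum, h]
      ring
    rw [sum_congr rfl e3, ← mul_sum]
  have e3 : ‖Y y‖ ^ 2 ≤ k * (1 - α ^ 2) * W * ‖y‖ ^ 2 := by
    rw [← e2, ← (stdOrthonormalBasis ℝ E).sum_sq_inner_right (Y y), sum_mul]
    refine sum_le_sum fun b _ => ?_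
    rw [← adj, sq]
    have := real_inner_mul_inner_self_le (Y (stdOrthonormalBasis ℝ E b)) y
    rwa [real_inner_self_eq_norm_sq, real_inner_self_eq_norm_sq] at this
  have e4 := real_inner_mul_inner_self_le u (Y y)
  rw [e1, real_inner_self_eq_norm_sq, real_inner_self_eq_norm_sq, hu] at e4
  have c0 : 0 ≤ k * (1 - α ^ 2) * ‖y‖ ^ 2 := by
    have : 0 ≤ 1 - α ^ 2 := by nlinarith
    positivity
  rcases W0.eq_or_lt with h | h
  · rw [← h]; exact c0
  · by_contra hh
    push Not at hh
    nlinarith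

include hk hα in
theorem bound (h0 : 0 ≤ α) (h1 : α ≤ 1) :
    α ^ 2 * (k * S.card) ≤ α ^ 2 * (k * (1 - α + α * S.card)) +
      finrank ℝ E * (k * (k * (1 - α ^ 2))) := by
  classical
  have q0 : 0 ≤ 1 - α ^ 2 := by nlinarith
  have q1 : 0 ≤ 1 - α + α * S.card := by
    have : 0 ≤ α * S.card := by positivity
    linarith
  rcases S.eq_empty_or_nonempty with rfl | ⟨U1, hU1⟩
  · simp only [card_empty, Nat.cast_zero, mul_zero, add_zero]
    have : 0 ≤ 1 - α := by linarith
    positivity
  let M : E →ₗ[ℝ] E := ∑ U ∈ S, (U.starProjection : E →ₗ[ℝ] E)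
  let T := U1.map M
  have hT : finrank ℝ T ≤ k := (Submodule.finrank_map_le M U1).trans (hk U1 hU1).le
  have e1 : (k * S.card : ℝ) = ∑ U ∈ S, tr T U + ∑ U ∈ S, tr Tᗮ U := by
    rw [← sum_add_distrib, sum_congr rfl fun U hU => (tr_split U T).symm,
      sum_congr rfl fun U hU => congrArg (Nat.cast : ℕ → ℝ) (hk U hU)]
    simp [mul_comm]
  have e2 : ∑ U ∈ S, tr T U ≤ k * (1 - α + α * S.card) := by
    simp only [tr_eq T _ (stdOrthonormalBasis ℝ T)]
    rw [sum_comm]
    refine (sum_le_sum fun b _ => lam α S hα h0 h1 _).trans ?_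
    simp only [norm_coe_onb, one_pow, mul_one, sum_const, card_univ, Fintype.card_fin,
      nsmul_eq_mul]
    gcongr
  have e3 : ∀ y ∈ Tᗮ, ‖y‖ = 1 →
      α ^ 2 * ∑ U ∈ S, ‖U.starProjection y‖ ^ 2 ≤ k * (k * (1 - α ^ 2)) := by
    intro y hy hy1
    let u := stdOrthonormalBasis ℝ U1
    have a1 : ∀ a, ∑ U ∈ S, inner ℝ (U.starProjection (u a)) y ^ 2 ≤ k * (1 - α ^ 2) := by
      intro a
      have := bessel k α S hk hα h0 h1 (u a) y (norm_coe_onb _ _ _) (by
        have := (Submodule.mem_orthogonal _ _).1 hy (M (u a))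
          (Submodule.mem_map_of_mem (Submodule.coe_mem _))
        simpa [M, sum_inner] using this)
      rwa [hy1, one_pow, mul_one] at this
    have a2 : ∑ a, ∑ U ∈ S, inner ℝ (U.starProjection (u a)) y ^ 2 ≤ k * (k * (1 - α ^ 2)) := by
      refine (sum_le_sum fun a _ => a1 a).trans ?_
      simp [hk U1 hU1]
    rw [sum_comm] at a2
    refine le_trans ?_ a2
    rw [mul_sum]
    refine sum_le_sum fun U hU => ?_
    simp only [Submodule.inner_starProjection_left_eq_right]
    rw [← norm_proj_sum U1 u]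
    by_cases h : U = U1
    · subst h
      rw [Submodule.starProjection_eq_self_iff.2 (U.starProjection_apply_mem y)]
      nlinarith [sq_nonneg ‖U.starProjection y‖]
    · rw [hα U hU U1 hU1 h _ (U.starProjection_apply_mem y), mul_pow]
  have e4 : α ^ 2 * ∑ U ∈ S, tr Tᗮ U ≤ finrank ℝ E * (k * (k * (1 - α ^ 2))) := by
    simp only [tr_eq Tᗮ _ (stdOrthonormalBasis ℝ Tᗮ)]
    rw [sum_comm, mul_sum]
    refine (sum_le_sum fun b _ => e3 _ (Submodule.coe_mem _) (norm_coe_onb _ _ _)).trans ?_
    simp only [sum_const, card_univ, Fintype.card_fin, nsmul_eq_mul]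
    gcongr
    exact Submodule.finrank_le _
  rw [e1, mul_add]
  gcongr

include hk hα in
theorem bound0 (h0 : α = 0) : (k * S.card : ℝ) ≤ finrank ℝ E := by
  have e1 : (k * S.card : ℝ) = ∑ U ∈ S, tr U U := by
    rw [sum_congr rfl fun U hU => tr_self U,
      sum_congr rfl fun U hU => congrArg (Nat.cast : ℕ → ℝ) (hk U hU)]
    simp [mul_comm]
  rw [e1]
  simp only [tr, real_inner_self_eq_norm_sq]
  rw [sum_comm]
  refine (sum_le_sum fun b _ => lam α S hα h0.ge (by linarith) _).trans ?_
  simp [h0]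

end

end Pool.Agent.H9.Isoclinic
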