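import Mathlib
import Pool.Agent.H55.PNT

set_option autoImplicit false

namespace Pool.Agent.H9.KTao

open Finset Filter Topology

lemma cs {α β : Type*} [DecidableEq α] [DecidableEq β] (X : Finset α) (Y : Finset β) (f : α → β)
    (h : ∀ x ∈ X, f x ∈ Y) :
    X.card ^ 2 ≤ Y.card * ((X ×ˢ X).filter fun z => f z.1 = f z.2).card := by
  have h1 : X.card = ∑ y ∈ Y, (X.filter fun x => f x = y).card := card_eq_sum_card_fiberwise h
  have h2 : ((X ×ˢ X).filter fun z => f z.1 = f z.2).card =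
      ∑ y ∈ Y, (X.filter fun x => f x = y).card ^ 2 := by
    rw [card_eq_sum_card_fiberwise (f := fun z => f z.1) (t := Y)
      (fun z hz => h _ (mem_product.1 (mem_filter.1 hz).1).1)]
    refine sum_congr rfl fun y _ => ?_
    rw [sq, ← card_product]
    congr 1
    ext ⟨a, b⟩
    simp only [mem_filter, mem_product]
    constructor
    · rintro ⟨⟨⟨ha, hb⟩, e⟩, e2⟩
      exact ⟨⟨ha, e2⟩, hb, e ▸ e2⟩
    · rintro ⟨⟨ha, e⟩, hb, e2⟩
      exact ⟨⟨⟨ha, hb⟩, e.trans e2.symm⟩, e⟩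
  rw [h1, h2]
  exact sq_sum_le_card_mul_sum_sq

/-- Katz–Tao `7/4` count with multiplicity. -/
lemma kt (G : Finset (ℤ × ℤ)) (S : Finset ℤ) (m : ℕ)
    (h1 : ∀ g ∈ G, g.1 ∈ S) (h2 : ∀ g ∈ G, g.2 ∈ S)
    (h3 : ∀ g ∈ G, ∃ c ∈ S, 2 * c = g.1 + g.2) (h4 : ∀ g ∈ G, ∃ e ∈ S, 3 * e = g.1 + 2 * g.2)
    (h5 : ∀ d : ℤ, (G.filter fun g => g.2 - g.1 = d).card ≤ m) :
    G.card ^ 4 ≤ m * S.card ^ 7 := by
  set V := (G ×ˢ G).filter fun z => z.1.1 = z.2.1 with hV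
  have a1 : G.card ^ 2 ≤ S.card * V.card := cs G S Prod.fst h1
  have mV : ∀ v ∈ V, v.1 ∈ G ∧ v.2 ∈ G ∧ v.1.1 = v.2.1 := fun v hv => by
    have := mem_filter.1 hv
    exact ⟨(mem_product.1 this.1).1, (mem_product.1 this.1).2, this.2⟩
  let f : (ℤ × ℤ) × (ℤ × ℤ) → ℤ × ℤ := fun v => ((v.1.1 + 2 * v.1.2) / 3, v.2.2)
  set T := (V ×ˢ V).filter fun z => f z.1 = f z.2 with hT
  have a2 : V.card ^ 2 ≤ (S ×ˢ S).card * T.card := cs V (S ×ˢ S) f fun v hv => by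
    obtain ⟨b1, b2, -⟩ := mV v hv
    obtain ⟨e, he, e2⟩ := h4 _ b1
    refine mem_product.2 ⟨?_, h2 v.2 b2⟩
    have : (v.1.1 + 2 * v.1.2) / 3 = e := by omega
    simp only [f]; rw [this]; exact he
  rw [card_product] at a2
  have mT : ∀ t ∈ T, t.1 ∈ V ∧ t.2 ∈ V ∧ t.1.1.1 + 2 * t.1.1.2 = t.2.1.1 + 2 * t.2.1.2 ∧
      t.1.2.2 = t.2.2.2 := fun t ht => by
    have := mem_filter.1 ht
    have c1 := (mem_product.1 this.1).1
    have c2 := (mem_product.1 this.1).2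
    have c3 := this.2
    simp only [f, Prod.mk.injEq] at c3
    obtain ⟨e, -, e2⟩ := h4 _ (mV _ c1).1
    obtain ⟨e', -, e2'⟩ := h4 _ (mV _ c2).1
    exact ⟨c1, c2, by omega, c3.2⟩
  let k : ((ℤ × ℤ) × (ℤ × ℤ)) × ((ℤ × ℤ) × (ℤ × ℤ)) → ℤ × ℤ × ℤ := fun t =>
    ((t.1.1.1 + t.1.1.2) / 2, (t.1.2.1 + t.1.2.2) / 2, t.2.1.2)
  have a3 : T.card ≤ m * (S ×ˢ S ×ˢ S).card := by
    refine card_le_mul_card_image_of_maps_to (f := k) (fun t ht => ?_) m ?_
    · obtain ⟨c1, c2, -, -⟩ := mT t ht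
      obtain ⟨b1, b2, -⟩ := mV _ c1
      obtain ⟨c, hc, e⟩ := h3 _ b1
      obtain ⟨c', hc', e'⟩ := h3 _ b2
      have x1 : (t.1.1.1 + t.1.1.2) / 2 = c := by omega
      have x2 : (t.1.2.1 + t.1.2.2) / 2 = c' := by omega
      simp only [k, mem_product]
      rw [x1, x2]
      exact ⟨hc, hc', h2 _ (mV _ c2).1⟩
    · rintro ⟨c, c', b⟩ -
      refine le_trans (card_le_card_of_injOn (fun t => t.2.2) ?_ ?_) (h5 (2 * c' - 4 * c + 2 * b))
      · intro t ht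
        have ht' := mem_filter.1 (mem_coe.1 ht)
        obtain ⟨c1, c2, c3, c4⟩ := mT t ht'.1
        obtain ⟨b1, b2, b3⟩ := mV _ c1
        obtain ⟨d1, d2, d3⟩ := mV _ c2
        obtain ⟨u, -, e⟩ := h3 _ b1
        obtain ⟨u', -, e'⟩ := h3 _ b2
        have := ht'.2
        simp only [k, Prod.mk.injEq] at this
        refine mem_coe.2 (mem_filter.2 ⟨d2, ?_⟩)
        simp only
        omega
      · intro t ht s hs e
        have ht' := mem_filter.1 (mem_coe.1 ht)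
        have hs' := mem_filter.1 (mem_coe.1 hs)
        obtain ⟨c1, c2, c3, c4⟩ := mT t ht'.1
        obtain ⟨b1, b2, b3⟩ := mV _ c1
        obtain ⟨d1, d2, d3⟩ := mV _ c2
        obtain ⟨u, -, e1⟩ := h3 _ b1
        obtain ⟨u', -, e1'⟩ := h3 _ b2
        obtain ⟨c1', c2', c3', c4'⟩ := mT s hs'.1
        obtain ⟨b1', b2', b3'⟩ := mV _ c1'
        obtain ⟨d1', d2', d3'⟩ := mV _ c2'
        obtain ⟨w, -, e2⟩ := h3 _ b1'
        obtain ⟨w', -, e2'⟩ := h3 _ b2'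
        have x1 := ht'.2
        have x2 := hs'.2
        simp only [k, Prod.mk.injEq] at x1 x2
        have y1 : t.2.2.1 = s.2.2.1 := congrArg Prod.fst e
        have y2 : t.2.2.2 = s.2.2.2 := congrArg Prod.snd e
        refine Prod.ext (Prod.ext (Prod.ext ?_ ?_) (Prod.ext ?_ ?_)) (Prod.ext (Prod.ext ?_ ?_) e) <;>
          omega
  rw [card_product, card_product] at a3
  calc G.card ^ 4 = (G.card ^ 2) ^ 2 := by ring
    _ ≤ (S.card * V.card) ^ 2 := Nat.pow_le_pow_left a1 2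
    _ = S.card ^ 2 * V.card ^ 2 := by ring
    _ ≤ S.card ^ 2 * (S.card * S.card * (m * (S.card * (S.card * S.card)))) := by
      gcongr
      exact a2.trans (by gcongr)
    _ = m * S.card ^ 7 := by ring

/-- A set containing a progression of length `7H` for each prime difference in `Q`. -/
lemma aps (Q : Finset ℕ) (H : ℕ) (S : Finset ℤ) (x : ℕ → ℤ) (hQ : ∀ p ∈ Q, p.Prime ∧ H < p)
    (hS : ∀ p ∈ Q, ∀ i : ℕ, i < 7 * H → x p + i * p ∈ S) :
    Q.card ^ 4 * H ^ 7 ≤ S.card ^ 7 := by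
  rcases Nat.eq_zero_or_pos H with rfl | hH
  · simp
  let φ : ℕ × ℕ × ℕ → ℤ × ℤ := fun z =>
    (x z.1 + z.2.1 * z.1, x z.1 + ((z.2.1 + 6 * z.2.2 : ℕ) : ℤ) * z.1)
  set D := Q ×ˢ range H ×ˢ Icc 1 H with hD
  have mD : ∀ z ∈ D, z.1 ∈ Q ∧ z.2.1 < H ∧ 1 ≤ z.2.2 ∧ z.2.2 ≤ H := fun z hz => by
    simpa [hD, and_assoc] using hz
  have hdiff : ∀ z ∈ D, ∀ w ∈ D, (φ z).2 - (φ z).1 = (φ w).2 - (φ w).1 →
      z.1 = w.1 ∧ z.2.2 = w.2.2 := by
    intro z hz w hw e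
    obtain ⟨a1, -, a3, a4⟩ := mD z hz
    obtain ⟨b1, -, b3, b4⟩ := mD w hw
    have e' : z.2.2 * z.1 = w.2.2 * w.1 := by
      simp only [φ] at e
      push_cast at e
      have : (z.2.2 : ℤ) * z.1 = w.2.2 * w.1 := by linarith
      exact_mod_cast this
    have hp := (hQ _ a1).1
    have : z.1 = w.1 := by
      rcases (Nat.Prime.dvd_mul hp).1 (e' ▸ Dvd.intro_left _ rfl : z.1 ∣ w.2.2 * w.1) with h | h
      · have := Nat.le_of_dvd b3 h
        have := (hQ _ a1).2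
        omega
      · exact (Nat.prime_dvd_prime_iff_eq hp (hQ _ b1).1).1 h
    refine ⟨this, ?_⟩
    rw [← this] at e'
    exact Nat.eq_of_mul_eq_mul_right hp.pos e'
  have hinj : Set.InjOn φ D := by
    intro z hz w hw e
    obtain ⟨a, b⟩ := hdiff z hz w hw (by rw [e])
    have e1 : (φ z).1 = (φ w).1 := by rw [e]
    simp only [φ] at e1
    rw [← a] at e1
    have hp : (z.1 : ℤ) ≠ 0 := by exact_mod_cast (hQ _ (mD z hz).1).1.pos.ne'
    have : (z.2.1 : ℤ) = w.2.1 := mul_right_cancel₀ hp (by linarith)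
    exact Prod.ext a (Prod.ext (by exact_mod_cast this) b)
  have hc : (D.image φ).card = Q.card * (H * H) := by
    rw [card_image_of_injOn hinj, hD]; simp
  have := kt (D.image φ) S H ?_ ?_ ?_ ?_ ?_
  · rw [hc] at this
    refine Nat.le_of_mul_le_mul_left ?_ hH
    calc H * (Q.card ^ 4 * H ^ 7) = (Q.card * (H * H)) ^ 4 := by ring
      _ ≤ _ := this
  · intro g hg
    obtain ⟨z, hz, rfl⟩ := mem_image.1 hg
    obtain ⟨a1, a2, a3, a4⟩ := mD z hz
    exact hS _ a1 _ (by omega)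
  · intro g hg
    obtain ⟨z, hz, rfl⟩ := mem_image.1 hg
    obtain ⟨a1, a2, a3, a4⟩ := mD z hz
    exact hS _ a1 _ (by omega)
  · intro g hg
    obtain ⟨z, hz, rfl⟩ := mem_image.1 hg
    obtain ⟨a1, a2, a3, a4⟩ := mD z hz
    refine ⟨_, hS _ a1 (z.2.1 + 3 * z.2.2) (by omega), ?_⟩
    simp only [φ]; push_cast; ring
  · intro g hg
    obtain ⟨z, hz, rfl⟩ := mem_image.1 hg
    obtain ⟨a1, a2, a3, a4⟩ := mD z hz
    refine ⟨_, hS _ a1 (z.2.1 + 4 * z.2.2) (by omega), ?_⟩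
    simp only [φ]; push_cast; ring
  · intro d
    rcases ((D.image φ).filter fun g => g.2 - g.1 = d).eq_empty_or_nonempty with h | ⟨g, hg⟩
    · rw [h]; simp
    obtain ⟨hg, hd⟩ := mem_filter.1 hg
    obtain ⟨z, hz, rfl⟩ := mem_image.1 hg
    refine le_trans (card_le_card (t := (range H).image fun j => φ (z.1, j, z.2.2)) ?_)
      (card_image_le.trans (by simp))
    intro g hg
    obtain ⟨hg, hd'⟩ := mem_filter.1 hg
    obtain ⟨w, hw, rfl⟩ := mem_image.1 hg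
    obtain ⟨a, b⟩ := hdiff z hz w hw (hd.trans hd'.symm)
    refine mem_image.2 ⟨w.2.1, mem_range.2 (mD w hw).2.1, ?_⟩
    rw [a, b]

open Chebyshev in
lemma primes : ∀ᶠ x : ℝ in atTop,
    x / 2 ≤ (((Ioc ⌊x⌋₊ ⌊19 / 10 * x⌋₊).filter Nat.Prime).card : ℝ) * Real.log (2 * x) := by
  have h1 := Pool.Agent.H55.PNT.theta_pnt
  have h2 : Tendsto (fun x : ℝ => θ (19 / 10 * x) / (19 / 10 * x)) atTop (𝓝 1) :=
    h1.comp (tendsto_id.const_mul_atTop (by norm_num))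
  filter_upwards [h1.eventually (gt_mem_nhds (by norm_num : (1 : ℝ) < 11 / 10)),
    h2.eventually (lt_mem_nhds (by norm_num : (9 / 10 : ℝ) < 1)), eventually_gt_atTop 1]
    with x a1 a2 hx
  rw [div_lt_iff₀ (by linarith)] at a1
  rw [lt_div_iff₀ (by linarith)] at a2
  have hle : ⌊x⌋₊ ≤ ⌊19 / 10 * x⌋₊ := Nat.floor_le_floor (by linarith)
  have e : θ (19 / 10 * x) = θ x + ∑ p ∈ (Ioc ⌊x⌋₊ ⌊19 / 10 * x⌋₊).filter Nat.Prime, Real.log p := by
    unfold Chebyshev.theta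
    rw [← Ioc_union_Ioc_eq_Ioc (Nat.zero_le _) hle, filter_union, sum_union]
    exact disjoint_filter_filter (Ioc_disjoint_Ioc_of_le le_rfl)
  have b : ∑ p ∈ (Ioc ⌊x⌋₊ ⌊19 / 10 * x⌋₊).filter Nat.Prime, Real.log p ≤
      (((Ioc ⌊x⌋₊ ⌊19 / 10 * x⌋₊).filter Nat.Prime).card : ℝ) * Real.log (2 * x) := by
    rw [← nsmul_eq_mul]
    refine sum_le_card_nsmul _ _ _ fun p hp => ?_
    obtain ⟨hp, hp2⟩ := mem_filter.1 hp
    have : (p : ℝ) ≤ 19 / 10 * x := (Nat.le_floor_iff (by linarith)).1 (mem_Ioc.1 hp).2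
    exact Real.log_le_log (by exact_mod_cast hp2.pos) (by linarith)
  linarith

open Classical in
theorem main (α : ℝ) (h1 : 1 / 2 ≤ α) (h2 : α < 1) : ∃ N0 : ℕ, ∀ N ≥ N0, ∀ a : (p : ℕ) → ZMod p,
    (N : ℝ) ^ (1 - 3 * α / 7) / (112 * Real.log N) ≤
      (((Icc 1 N).filter fun n : ℕ => ∃ p : ℕ, p.Prime ∧ (N : ℝ) ^ α ≤ p ∧ (p : ℝ) < 2 * (N : ℝ) ^ α ∧
        (n : ZMod p) = a p).card : ℝ) := by
  have t1 : Tendsto (fun N : ℕ => (N : ℝ) ^ α) atTop atTop :=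
    (tendsto_rpow_atTop (by linarith)).comp tendsto_natCast_atTop_atTop
  have t2 : Tendsto (fun N : ℕ => (N : ℝ) ^ (1 - α)) atTop atTop :=
    (tendsto_rpow_atTop (by linarith)).comp tendsto_natCast_atTop_atTop
  have := ((t1.eventually primes).and (t2.eventually (eventually_ge_atTop 28))).and
    (eventually_ge_atTop 3)
  obtain ⟨N0, hN0⟩ := eventually_atTop.1 this
  refine ⟨N0, fun N hN a => ?_⟩
  obtain ⟨⟨hP, hy⟩, h3⟩ := hN0 N hN
  have hN3 : (3 : ℝ) ≤ N := by exact_mod_cast h3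
  have hN0' : (0 : ℝ) < N := by linarith
  set x := (N : ℝ) ^ α with hx
  set y := (N : ℝ) ^ (1 - α) with hy'
  have hx0 : 0 < x := Real.rpow_pos_of_pos hN0' _
  have hxy : x * y = N := by
    rw [hx, hy', ← Real.rpow_add hN0']; simp
  have hyx : y ≤ x := Real.rpow_le_rpow_of_exponent_le (by linarith) (by linarith)
  set Q := (Ioc ⌊x⌋₊ ⌊19 / 10 * x⌋₊).filter Nat.Prime with hQ
  set H := ⌊y / 14⌋₊ with hH
  have hH1 : (H : ℝ) ≤ y / 14 := Nat.floor_le (by linarith)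
  have hH2 : y / 28 ≤ H := by
    have := Nat.lt_floor_add_one (y / 14)
    linarith
  have mQ : ∀ p ∈ Q, p.Prime ∧ x < p ∧ (p : ℝ) < 2 * x := by
    intro p hp
    obtain ⟨hp, hp2⟩ := mem_filter.1 hp
    have b1 : (p : ℝ) ≤ 19 / 10 * x := (Nat.le_floor_iff (by linarith)).1 (mem_Ioc.1 hp).2
    exact ⟨hp2, Nat.lt_of_floor_lt (mem_Ioc.1 hp).1, by linarith⟩
  set S := (Icc 1 N).filter fun n : ℕ => ∃ p : ℕ, p.Prime ∧ x ≤ p ∧ (p : ℝ) < 2 * x ∧
        (n : ZMod p) = a p with hS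
  have key := aps Q H (S.image fun n : ℕ => (n : ℤ)) (fun p => (((a p - 1).val + 1 : ℕ) : ℤ))
    (fun p hp => ⟨(mQ p hp).1, by
      have := (mQ p hp).2.1
      have : (H : ℝ) < p := by linarith
      exact_mod_cast this⟩) (by
      intro p hp i hi
      obtain ⟨b1, b2, b3⟩ := mQ p hp
      have : NeZero p := ⟨b1.pos.ne'⟩
      refine mem_image.2 ⟨(a p - 1).val + 1 + i * p, mem_filter.2 ⟨mem_Icc.2 ⟨by omega, ?_⟩,
        p, b1, b2.le, b3, ?_⟩, by push_cast; ring⟩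
      · have c1 : (a p - 1).val < p := ZMod.val_lt _
        have c2 : (i + 1) * p ≤ 7 * H * p := Nat.mul_le_mul_right _ hi
        have c3 : ((7 * H * p : ℕ) : ℝ) ≤ N := by
          push_cast
          have : (7 * H : ℝ) * p ≤ (y / 2) * (2 * x) :=
            mul_le_mul (by linarith) b3.le (by positivity) (by linarith)
          nlinarith
        have c4 : 7 * H * p ≤ N := by exact_mod_cast c3
        nlinarith
      · push_cast
        simp)
  rw [card_image_of_injective _ Nat.cast_injective] at key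
  have key' : (Q.card : ℝ) ^ 4 * (H : ℝ) ^ 7 ≤ (S.card : ℝ) ^ 7 := by exact_mod_cast key
  have hl1 : 1 ≤ Real.log N := by
    rw [Real.le_log_iff_exp_le hN0']
    exact (Real.exp_one_lt_three.le).trans hN3
  have hl2 : Real.log (2 * x) ≤ 2 * Real.log N := by
    have : 2 * x ≤ (N : ℝ) ^ 2 := by nlinarith
    calc Real.log (2 * x) ≤ Real.log ((N : ℝ) ^ 2) := Real.log_le_log (by linarith) this
      _ = 2 * Real.log N := by rw [Real.log_pow]; norm_num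
  set l := Real.log N
  have hQ2 : x / (4 * l) ≤ Q.card := by
    rw [div_le_iff₀ (by linarith)]
    have : (Q.card : ℝ) * Real.log (2 * x) ≤ Q.card * (2 * l) := by gcongr
    linarith
  refine le_of_pow_le_pow_left₀ (n := 7) (by norm_num) (by positivity) (le_trans ?_ key')
  have e : ((N : ℝ) ^ (1 - 3 * α / 7)) ^ 7 = x ^ 4 * y ^ 7 := by
    rw [hx, hy', ← Real.rpow_natCast, ← Real.rpow_natCast, ← Real.rpow_natCast,
      ← Real.rpow_mul hN0'.le, ← Real.rpow_mul hN0'.le, ← Real.rpow_mul hN0'.le,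
      ← Real.rpow_add hN0']
    congr 1; push_cast; ring
  have hy0 : 0 < y := by linarith
  calc ((N : ℝ) ^ (1 - 3 * α / 7) / (112 * l)) ^ 7 = x ^ 4 * y ^ 7 / ((4 * l) ^ 7 * 28 ^ 7) := by
        rw [div_pow, e]; congr 1; ring
    _ ≤ x ^ 4 * y ^ 7 / ((4 * l) ^ 4 * 28 ^ 7) := by
        gcongr
        · linarith
        · norm_num
    _ = (x / (4 * l)) ^ 4 * (y / 28) ^ 7 := by rw [div_pow, div_pow, div_mul_div_comm]
    _ ≤ _ := by gcongr

end Pool.Agent.H9.KTao
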