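import Mathlib

set_option autoImplicit false

open Metric Set

namespace Pool.Agent.H9.Kirch

variable {E : Type*} [NormedAddCommGroup E] [InnerProductSpace ℝ E] [FiniteDimensional ℝ E]

theorem key (A B : Set E) (hA : IsCompact A) (hB : IsCompact B) (a0 : E) (ha0 : a0 ∈ A)
    [Nontrivial E]
    (H : ∀ T : Finset E, (T : Set E) ⊆ A ∪ B → T.card ≤ Module.finrank ℝ E + 2 →
      ((T : Set E) ∩ A).Nonempty →
      ∃ c r, 0 < r ∧ r ≤ 1 ∧ (T : Set E) ∩ A ⊆ ball c r ∧ (T : Set E) ∩ B ⊆ (closedBall c r)ᶜ) :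
    ∃ c r, 0 < r ∧ r ≤ 1 ∧ A ⊆ ball c r ∧ B ⊆ (closedBall c r)ᶜ := by
  classical
  obtain ⟨R, hR⟩ := (hA.union hB).isBounded.exists_norm_le
  have R0 : 0 ≤ R := (norm_nonneg _).trans (hR a0 (Or.inl ha0))
  have := isCompact_iff_compactSpace.1 hA
  have := isCompact_iff_compactSpace.1 hB
  let g : A ⊕ B → E × ℝ → ℝ := Sum.elim
    (fun a p => p.2 - (‖a.1‖ ^ 2 - 2 * inner ℝ a.1 p.1))
    (fun b p => (‖b.1‖ ^ 2 - 2 * inner ℝ b.1 p.1) - p.2)
  let K : Set (E × ℝ) := {p | ‖p.1‖ ≤ R + 2 ∧ -(R + 2) ^ 2 ≤ p.2 ∧ ‖p.1‖ ^ 2 + p.2 ≤ 1}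
  have gc : ∀ p, Continuous fun x => g x p := by
    intro p
    refine Continuous.sumElim (f := fun a : A => p.2 - (‖a.1‖ ^ 2 - 2 * inner ℝ a.1 p.1))
      (g := fun b : B => (‖b.1‖ ^ 2 - 2 * inner ℝ b.1 p.1) - p.2) (by fun_prop) (by fun_prop) |>.congr ?_
    rintro (a | b) <;> rfl
  have Kc : IsCompact K := by
    refine ((isCompact_closedBall (0 : E) (R + 2)).prod (isCompact_Icc (a := -(R + 2) ^ 2)
      (b := 1))).of_isClosed_subset ?_ ?_
    · have c1 : IsClosed {p : E × ℝ | ‖p.1‖ ≤ R + 2} := isClosed_le (by fun_prop) (by fun_prop)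
      have c2 : IsClosed {p : E × ℝ | -(R + 2) ^ 2 ≤ p.2} := isClosed_le (by fun_prop) (by fun_prop)
      have c3 : IsClosed {p : E × ℝ | ‖p.1‖ ^ 2 + p.2 ≤ 1} :=
        isClosed_le (by fun_prop) (by fun_prop)
      exact c1.inter (c2.inter c3)
    · rintro p ⟨h1, h2, h3⟩
      exact ⟨mem_closedBall_zero_iff.2 h1, h2, by nlinarith [sq_nonneg ‖p.1‖]⟩
  have Kv : Convex ℝ K := by
    rintro p ⟨p1, p2, p3⟩ q ⟨q1, q2, q3⟩ a b ha hb hab
    have h : ‖a • p.1 + b • q.1‖ ≤ a * ‖p.1‖ + b * ‖q.1‖ := by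
      refine (norm_add_le _ _).trans ?_
      rw [norm_smul, norm_smul, Real.norm_of_nonneg ha, Real.norm_of_nonneg hb]
    have h2 : ‖a • p.1 + b • q.1‖ ^ 2 ≤ (a * ‖p.1‖ + b * ‖q.1‖) ^ 2 := by gcongr
    obtain rfl : b = 1 - a := by linarith
    refine ⟨?_, ?_, ?_⟩ <;>
      simp only [Prod.fst_add, Prod.smul_fst, Prod.snd_add, Prod.smul_snd, smul_eq_mul]
    · nlinarith
    · nlinarith
    · nlinarith [mul_nonneg (mul_nonneg ha hb) (sq_nonneg (‖p.1‖ - ‖q.1‖))]
  set m := Module.finrank ℝ E + 2 with hm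
  let W : ℕ → Set (Fin m → A ⊕ B) := fun n => {T | ∃ p ∈ K, ∀ i, 1 / (n + 1 : ℝ) < g (T i) p}
  have Wo : ∀ n, IsOpen (W n) := by
    intro n
    have : W n = ⋃ p ∈ K, ⋂ i, {T | 1 / (n + 1 : ℝ) < g (T i) p} := by
      ext T; simp [W]
    rw [this]
    refine isOpen_biUnion fun p _ => isOpen_iInter_of_finite fun i => ?_
    exact isOpen_lt continuous_const ((gc p).comp (continuous_apply i))
  have sqf : ∀ x c : E, ‖x‖ ^ 2 - 2 * inner ℝ x c = dist x c ^ 2 - ‖c‖ ^ 2 := by
    intro x c; rw [dist_eq_norm, norm_sub_sq_real]; ring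
  have Wc : ∀ T, ∃ n, T ∈ W n := by
    intro T
    have h1 : ∃ p ∈ K, ∀ i, 0 < g (T i) p := by
      let v : A ⊕ B → E := Sum.elim Subtype.val Subtype.val
      let S : Finset E := Finset.univ.image fun i => v (T i)
      have hS : (S : Set E) ⊆ A ∪ B := by
        intro x hx
        obtain ⟨i, -, rfl⟩ := Finset.mem_image.1 hx
        rcases T i with a | b
        · exact Or.inl a.2
        · exact Or.inr b.2
      have hmem : ∀ i, v (T i) ∈ (S : Set E) := fun i =>
        Finset.mem_coe.2 (Finset.mem_image_of_mem _ (Finset.mem_univ i))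
      by_cases hne : ((S : Set E) ∩ A).Nonempty
      · obtain ⟨c, r, r0, r1, h1, h2⟩ := H S hS (Finset.card_image_le.trans (by simp)) hne
        obtain ⟨a, ha⟩ := hne
        have h3 : ‖c‖ ≤ R + 2 := by
          have := mem_ball.1 (h1 ha)
          have h4 := hR a (Or.inl ha.2)
          have := norm_sub_norm_le c a
          rw [dist_comm, dist_eq_norm] at *
          linarith
        refine ⟨(c, r ^ 2 - ‖c‖ ^ 2), ⟨h3, ?_, ?_⟩, fun i => ?_⟩
        · have : ‖c‖ ^ 2 ≤ (R + 2) ^ 2 := by gcongr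
          simp only; nlinarith
        · simp only; nlinarith
        · have := hmem i
          rcases hT : T i with a | b <;> rw [hT] at this
          · have h5 := mem_ball.1 (h1 ⟨this, a.2⟩)
            simp only [g, Sum.elim_inl, sqf]
            have : dist a.1 c ^ 2 < r ^ 2 := by
              simp only [v, Sum.elim_inl] at h5
              gcongr
            linarith
          · have h5 := h2 ⟨this, b.2⟩
            simp only [v, Sum.elim_inr, mem_compl_iff, mem_closedBall, not_le] at h5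
            simp only [g, Sum.elim_inr, sqf]
            have : r ^ 2 < dist b.1 c ^ 2 := by gcongr
            linarith
      · obtain ⟨c, hc⟩ := exists_norm_eq E (show 0 ≤ R + 2 by linarith)
        refine ⟨(c, 1 - ‖c‖ ^ 2), ⟨hc.le, ?_, ?_⟩, fun i => ?_⟩
        · simp only [hc]; linarith
        · simp
        · have := hmem i
          rcases hT : T i with a | b <;> rw [hT] at this
          · exact absurd ⟨_, this, a.2⟩ hne
          · simp only [g, Sum.elim_inr, sqf]
            have h4 := hR b (Or.inr b.2)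
            have h5 := norm_sub_norm_le c b.1
            rw [dist_comm, dist_eq_norm]
            nlinarith
    obtain ⟨p, hp, h2⟩ := h1
    have h3 : ∀ᶠ n : ℕ in Filter.atTop, ∀ i, 1 / (n + 1 : ℝ) < g (T i) p :=
      Filter.eventually_all.2 fun i =>
        (tendsto_one_div_add_atTop_nhds_zero_nat).eventually (gt_mem_nhds (h2 i))
    obtain ⟨n, hn⟩ := h3.exists
    exact ⟨n, p, hp, hn⟩
  obtain ⟨n, hn⟩ := isCompact_univ.elim_directed_cover W Wo
    (fun T _ => mem_iUnion.2 (Wc T)) (Monotone.directed_le (by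
      rintro a b hab T ⟨p, hp, h⟩
      exact ⟨p, hp, fun i => lt_of_le_of_lt (Nat.one_div_le_one_div hab) (h i)⟩))
  set δ : ℝ := 1 / (n + 1) with hδ
  have δ0 : 0 < δ := by positivity
  obtain ⟨p, hp⟩ := Convex.helly_theorem_compact' (𝕜 := ℝ)
    (F := fun x : A ⊕ B => K ∩ {p | δ ≤ g x p}) (by
      intro x
      refine Kv.inter ?_
      intro p hp q hq a b ha hb hab
      obtain rfl : b = 1 - a := by linarith
      rcases x with x | x <;>
        simp only [g, Sum.elim_inl, Sum.elim_inr, mem_setOf_eq, Prod.fst_add, Prod.smul_fst,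
          Prod.snd_add, Prod.smul_snd, smul_eq_mul, inner_add_right, inner_smul_right] at * <;>
        nlinarith)
    (by
      intro x
      refine Kc.inter_right (isClosed_le continuous_const ?_)
      rcases x with x | x <;> simp only [g, Sum.elim_inl, Sum.elim_inr] <;> fun_prop)
    (by
      intro I hI
      obtain ⟨p, hp, h⟩ := hn (mem_univ fun i : Fin m => I.toList.getD i (Sum.inl ⟨a0, ha0⟩))
      refine ⟨p, mem_iInter₂.2 fun x hx => ⟨hp, ?_⟩⟩
      obtain ⟨i, hi, rfl⟩ := List.getElem_of_mem (Finset.mem_toList.2 hx)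
      have hi2 : i < m := by
        rw [Finset.length_toList] at hi
        simp only [Module.finrank_prod, Module.finrank_self] at hI
        omega
      have := h ⟨i, hi2⟩
      simp only [List.getD_eq_getElem _ _ hi] at this
      exact this.le)
  have hp' := mem_iInter.1 hp
  have h0 := hp' (Sum.inl ⟨a0, ha0⟩)
  have h1 := h0.1.2.2
  have h2 := h0.2
  simp only [g, Sum.elim_inl, sqf, mem_setOf_eq] at h2
  have h3 : 0 < ‖p.1‖ ^ 2 + p.2 := by nlinarith [sq_nonneg (dist a0 p.1)]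
  refine ⟨p.1, Real.sqrt (‖p.1‖ ^ 2 + p.2), Real.sqrt_pos.2 h3, ?_, fun a ha => ?_, fun b hb => ?_⟩
  · rw [Real.sqrt_le_left zero_le_one]; linarith
  · have := (hp' (Sum.inl ⟨a, ha⟩)).2
    simp only [g, Sum.elim_inl, sqf, mem_setOf_eq] at this
    rw [mem_ball]
    apply Real.lt_sqrt_of_sq_lt
    linarith
  · have := (hp' (Sum.inr ⟨b, hb⟩)).2
    simp only [g, Sum.elim_inr, sqf, mem_setOf_eq] at this
    rw [mem_compl_iff, mem_closedBall, not_le, Real.sqrt_lt' (by
      by_contra hh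
      have : dist b p.1 = 0 := le_antisymm (not_lt.1 hh) dist_nonneg
      nlinarith)]
    linarith

end Pool.Agent.H9.Kirch
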