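import Mathlib

namespace Pool.Agent.H9.LatDef

/-- An `m`-dimensional permutation cube of order `n`: every axis-parallel line carries a permutation. -/
def IsPermCube {m n : ℕ} (C : (Fin m → Fin n) → Fin n) : Prop :=
  ∀ (x : Fin m → Fin n) (i : Fin m), Function.Bijective fun a : Fin n => C (Function.update x i a)

/-- A variational set of `k` cubes: any `m` of them (distinct indices) form a variational cube. -/
def IsVarSet {m n k : ℕ} (C : Fin k → (Fin m → Fin n) → Fin n) : Prop :=
  (∀ j, IsPermCube (C j)) ∧
    ∀ σ : Fin m → Fin k, Function.Injective σ →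
      Function.Bijective fun (x : Fin m → Fin n) (i : Fin m) => C (σ i) x

/-- The sizes `k` of variational sets of `m`-dimensional permutation cubes of order `n`. -/
def sizes (m n : ℕ) : Set ℕ :=
  {k | ∃ C : Fin k → (Fin m → Fin n) → Fin n, IsVarSet C}

end Pool.Agent.H9.LatDef
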