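import Mathlib
import Pool.Agent.H9.LatDef

namespace Pool.Agent.H9.LatA
open Pool.Agent.H9.LatDef

variable {α : Type}

def Adj {m : ℕ} (x y : Fin m → α) : Prop := ∃ i, ∀ j, j ≠ i → x j = y j

def Lat {m : ℕ} (f : (Fin m → α) → α) : Prop := ∀ x y, Adj x y → f x = f y → x = y

def KK (α : Type) (m : ℕ) : Prop :=
  ∃ c : Fin (m + 1) → (Fin m → α) → α, (∀ k, Lat (c k)) ∧
    ∀ k0 x y, (∀ k, k ≠ k0 → c k x = c k y) → x = y

def TL (α : Type) (m : ℕ) : Prop :=
  ∃ c : Fin m → (Fin m → α) → α, (∀ k, Lat (c k)) ∧ ∀ x y, (∀ k, c k x = c k y) → x = y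

def MO (α : Type) : Prop :=
  ∃ A B : α → α → α, (∀ x y y', A x y = A x y' → y = y') ∧ (∀ x x' y, A x y = A x' y → x = x') ∧
    (∀ x y y', B x y = B x y' → y = y') ∧ (∀ x x' y, B x y = B x' y → x = x') ∧
    ∀ x y x' y', A x y = A x' y' → B x y = B x' y' → x = x' ∧ y = y'

lemma mkK {m : ℕ} {κ : Type} [Fintype κ] (hc : Fintype.card κ = m + 1)
    (c : κ → (Fin m → α) → α) (hl : ∀ k, Lat (c k))
    (hm : ∀ k0 x y, (∀ k, k ≠ k0 → c k x = c k y) → x = y) : KK α m := by
  let e : Fin (m + 1) ≃ κ := (Fintype.equivFinOfCardEq hc).symm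
  refine ⟨fun k => c (e k), fun k => hl _, fun k0 x y h => hm (e k0) x y fun k hk => ?_⟩
  have := h (e.symm k) (fun h' => hk (by rw [← h']; simp))
  simpa using this

lemma KK.tl {m : ℕ} (h : KK α m) : TL α m := by
  obtain ⟨c, hl, hm⟩ := h
  refine ⟨fun k => c k.castSucc, fun k => hl _, fun x y h => hm (Fin.last m) x y fun k hk => ?_⟩
  obtain ⟨j, rfl⟩ := Fin.exists_castSucc_eq.mpr hk
  exact h j

lemma split (a b : ℕ) : ∃ (L : (Fin (a + b) → α) → Fin a → α) (R : (Fin (a + b) → α) → Fin b → α),
    (∀ x y, L x = L y → R x = R y → x = y) ∧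
    ∀ x y, Adj x y → (L x = L y ∧ Adj (R x) (R y)) ∨ (Adj (L x) (L y) ∧ R x = R y) := by
  refine ⟨fun x i => x (Fin.castAdd b i), fun x i => x (Fin.natAdd a i), ?_, ?_⟩
  · intro x y h1 h2
    funext j
    refine Fin.addCases (fun i => ?_) (fun i => ?_) j
    · exact congrFun h1 i
    · exact congrFun h2 i
  · rintro x y ⟨i, hi⟩
    refine Fin.addCases (motive := fun i => (∀ j, j ≠ i → x j = y j) → _) (fun i hi => ?_)
      (fun i hi => ?_) i hi
    · right
      refine ⟨⟨i, fun j hj => hi _ fun h => hj ?_⟩, ?_⟩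
      · simpa [Fin.ext_iff] using h
      · funext j
        refine hi _ fun h => ?_
        have := i.2
        simp [Fin.ext_iff] at h
        omega
    · left
      refine ⟨?_, ⟨i, fun j hj => hi _ fun h => hj ?_⟩⟩
      · funext j
        refine hi _ fun h => ?_
        have := j.2
        simp [Fin.ext_iff] at h
        omega
      · simpa [Fin.ext_iff] using h

lemma tl_one : TL α 1 := by
  refine ⟨fun _ x => x 0, fun _ x y _ h => ?_, fun x y h => ?_⟩
  · funext j; rw [Subsingleton.elim j 0]; exact h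
  · funext j; rw [Subsingleton.elim j 0]; exact h 0

lemma lat2 (A : α → α → α) (h1 : ∀ x y y', A x y = A x y' → y = y')
    (h2 : ∀ x x' y, A x y = A x' y → x = x') : Lat (fun x : Fin 2 → α => A (x 0) (x 1)) := by
  rintro x y ⟨i, hi⟩ h
  have key : x 0 = y 0 ∧ x 1 = y 1 := by
    fin_cases i
    · have e := hi 1 (by decide)
      simp only [e] at h
      exact ⟨h2 _ _ _ h, e⟩
    · have e := hi 0 (by decide)
      simp only [e] at h
      exact ⟨e, h1 _ _ _ h⟩
  funext j
  fin_cases j
  · exact key.1
  · exact key.2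

lemma tl_two (h : MO α) : TL α 2 := by
  obtain ⟨A, B, a1, a2, b1, b2, o⟩ := h
  refine ⟨![fun x => A (x 0) (x 1), fun x => B (x 0) (x 1)], fun k => ?_, fun x y h => ?_⟩
  · fin_cases k
    · exact lat2 A a1 a2
    · exact lat2 B b1 b2
  · have := o _ _ _ _ (h 0) (h 1)
    funext j
    fin_cases j
    · exact this.1
    · exact this.2

lemma up {A : α → α → α} (a1 : ∀ x y y', A x y = A x y' → y = y') (u w : ℕ → α) (i : ℕ)
    (hi : u i = w i) : ∀ j, i ≤ j →
      (∀ t, i ≤ t → t < j → A (u t) (u (t + 1)) = A (w t) (w (t + 1))) → u j = w j := by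
  intro j hj
  induction j, hj using Nat.le_induction with
  | base => exact fun _ => hi
  | succ j hj ih =>
    intro h
    have e := ih fun t h1 h2 => h t h1 (by omega)
    have := h j hj (by omega)
    rw [e] at this
    exact a1 _ _ _ this

lemma down {A : α → α → α} (a2 : ∀ x x' y, A x y = A x' y → x = x') (u w : ℕ → α) (j : ℕ)
    (hj : u j = w j) : ∀ d i, i + d = j →
      (∀ t, i ≤ t → t < j → A (u t) (u (t + 1)) = A (w t) (w (t + 1))) → u i = w i := by
  intro d
  induction d with
  | zero => intro i hi _; obtain rfl : i = j := by omega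
            exact hj
  | succ d ih =>
    intro i hi h
    have e := ih (i + 1) (by omega) fun t h1 h2 => h t (by omega) h2
    have := h i le_rfl (by omega)
    rw [e] at this
    exact a2 _ _ _ this

lemma path (hM : MO α) (a b N : ℕ) (hN : N + 3 = a + b) (h1 : b ≤ a) (h2 : a ≤ b + 1)
    (ha : TL α a) (hb : TL α b) : KK α (a + b) := by
  obtain ⟨A, B, a1, a2, b1, b2, o⟩ := hM
  obtain ⟨c, cl, ci⟩ := ha
  obtain ⟨p, pl, pi⟩ := hb
  obtain ⟨L, R, hLR, hadj⟩ := split (α := α) a b
  have a0 : 0 < a := by omega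
  have b0 : 0 < b := by omega
  let V : (Fin (a + b) → α) → ℕ → α := fun x j =>
    if j % 2 = 0 then c ⟨(j / 2) % a, Nat.mod_lt _ a0⟩ (L x)
    else p ⟨(j / 2) % b, Nat.mod_lt _ b0⟩ (R x)
  have hV : ∀ x y, (∀ j, j < N + 3 → V x j = V y j) → x = y := by
    intro x y h
    refine hLR x y (ci _ _ fun k => ?_) (pi _ _ fun k => ?_)
    · have := h (2 * k) (by have := k.2; omega)
      have e : (k : ℕ) % a = k := Nat.mod_eq_of_lt k.2
      simpa [V, e] using this
    · have := h (2 * k + 1) (by have := k.2; omega)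
      have e : ((2 * (k : ℕ) + 1) / 2) % b = k := by
        rw [show (2 * (k : ℕ) + 1) / 2 = k by omega, Nat.mod_eq_of_lt k.2]
      have e2 : (2 * (k : ℕ) + 1) % 2 ≠ 0 := by omega
      simpa [V, e, e2] using this
  have hlat : ∀ (F : α → α → α), (∀ x y y', F x y = F x y' → y = y') →
      (∀ x x' y, F x y = F x' y → x = x') → ∀ j, Lat (fun x => F (V x j) (V x (j + 1))) := by
    intro F f1 f2 j x y hxy h
    rcases hadj x y hxy with ⟨e, h'⟩ | ⟨h', e⟩
    · refine hLR x y e ?_
      by_cases hj : j % 2 = 0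
      · have hj' : (j + 1) % 2 ≠ 0 := by omega
        simp only [V, hj, hj', if_true, if_false, e] at h
        exact pl _ _ _ h' (f1 _ _ _ h)
      · have hj' : (j + 1) % 2 = 0 := by omega
        simp only [V, hj, hj', if_true, if_false, e] at h
        exact pl _ _ _ h' (f2 _ _ _ h)
    · refine hLR x y ?_ e
      by_cases hj : j % 2 = 0
      · have hj' : (j + 1) % 2 ≠ 0 := by omega
        simp only [V, hj, hj', if_true, if_false, e] at h
        exact cl _ _ _ h' (f2 _ _ _ h)
      · have hj' : (j + 1) % 2 = 0 := by omega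
        simp only [V, hj, hj', if_true, if_false, e] at h
        exact cl _ _ _ h' (f1 _ _ _ h)
  let col : Fin (N + 2) ⊕ Bool → (Fin (a + b) → α) → α := fun k x =>
    match k with
    | Sum.inl j => A (V x j) (V x (j + 1))
    | Sum.inr false => B (V x 0) (V x (0 + 1))
    | Sum.inr true => B (V x (N + 1)) (V x (N + 1 + 1))
  refine mkK (κ := Fin (N + 2) ⊕ Bool) (by simp; omega) col ?_ ?_
  · rintro (j | _ | _)
    · exact hlat A a1 a2 j
    · exact hlat B b1 b2 0
    · exact hlat B b1 b2 (N + 1)
  · intro k0 x y h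
    refine hV x y ?_
    set u := V x
    set w := V y
    have hE : ∀ t, t < N + 2 → (∀ j : Fin (N + 2), k0 = Sum.inl j → t ≠ j) →
        A (u t) (u (t + 1)) = A (w t) (w (t + 1)) := by
      intro t ht hk
      exact h (Sum.inl ⟨t, ht⟩) fun e => hk ⟨t, ht⟩ e.symm rfl
    rcases k0 with j0 | _ | _
    · have hE' : ∀ t, t < N + 2 → t ≠ j0 → A (u t) (u (t + 1)) = A (w t) (w (t + 1)) := by
        intro t ht hk
        refine hE t ht fun j e => ?_
        obtain rfl : j0 = j := by simpa using e
        exact hk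
      have B0 : B (u 0) (u (0 + 1)) = B (w 0) (w (0 + 1)) := h (Sum.inr false) (by simp)
      have B1 : B (u (N + 1)) (u (N + 1 + 1)) = B (w (N + 1)) (w (N + 1 + 1)) :=
        h (Sum.inr true) (by simp)
      have hj0 := j0.2
      have lo : (j0 : ℕ) ≠ 0 → ∀ j : ℕ, j ≤ (j0 : ℕ) → u j = w j := by
        intro hz j hj
        have := (o _ _ _ _ (hE' 0 (by omega) (by omega)) B0).1
        exact up a1 u w 0 this j (by omega) fun t _ h2 => hE' t (by omega) (by omega)
      have hi : (j0 : ℕ) ≠ N + 1 → ∀ j : ℕ, (j0 : ℕ) < j → j < N + 3 → u j = w j := by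
        intro hz j hj hj'
        have := (o _ _ _ _ (hE' (N + 1) (by omega) (by omega)) B1).2
        exact down a2 u w (N + 2) this (N + 2 - j) j (by omega)
          fun t _ h2 => hE' t (by omega) (by omega)
      intro j hj
      by_cases hz : (j0 : ℕ) = 0
      · have e1 := hi (by omega) 1 (by omega) (by omega)
        by_cases hj0 : j = 0
        · subst hj0
          simp only [zero_add, e1] at B0
          exact b2 _ _ _ B0
        · exact hi (by omega) j (by omega) hj
      · by_cases hz' : (j0 : ℕ) = N + 1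
        · have e1 := lo hz (N + 1) (by omega)
          by_cases hj0 : j = N + 2
          · subst hj0
            rw [e1] at B1
            exact b1 _ _ _ B1
          · exact lo hz j (by omega)
        · by_cases hjj : j ≤ (j0 : ℕ)
          · exact lo hz j hjj
          · exact hi hz' j (by omega) hj
    · have hE' : ∀ t, t < N + 2 → A (u t) (u (t + 1)) = A (w t) (w (t + 1)) :=
        fun t ht => hE t ht fun j e => by simp at e
      have B1 : B (u (N + 1)) (u (N + 1 + 1)) = B (w (N + 1)) (w (N + 1 + 1)) :=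
        h (Sum.inr true) (by simp)
      intro j hj
      have := (o _ _ _ _ (hE' (N + 1) (by omega)) B1).2
      exact down a2 u w (N + 2) this (N + 2 - j) j (by omega) fun t _ h2 => hE' t (by omega)
    · have hE' : ∀ t, t < N + 2 → A (u t) (u (t + 1)) = A (w t) (w (t + 1)) :=
        fun t ht => hE t ht fun j e => by simp at e
      have B0 : B (u 0) (u (0 + 1)) = B (w 0) (w (0 + 1)) := h (Sum.inr false) (by simp)
      intro j hj
      have := (o _ _ _ _ (hE' 0 (by omega)) B0).1
      exact up a1 u w 0 this j (by omega) fun t _ h2 => hE' t (by omega)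

lemma mo_all (hM : MO α) : ∀ m, (1 ≤ m → TL α m) ∧ (3 ≤ m → KK α m) := by
  intro m
  induction m using Nat.strong_induction_on with
  | _ m ih =>
    have hk : 3 ≤ m → KK α m := by
      intro hm
      have := path hM ((m + 1) / 2) (m / 2) (m - 3) (by omega) (by omega) (by omega)
        ((ih _ (by omega)).1 (by omega)) ((ih _ (by omega)).1 (by omega))
      rwa [show (m + 1) / 2 + m / 2 = m by omega] at this
    refine ⟨fun h1 => ?_, hk⟩
    by_cases h : 3 ≤ m
    · exact (hk h).tl
    · obtain rfl | rfl : m = 1 ∨ m = 2 := by omega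
      · exact tl_one
      · exact tl_two hM

lemma KK.mem {m n : ℕ} (h : KK (Fin n) m) : m + 1 ∈ sizes m n := by
  obtain ⟨c, hl, hm⟩ := h
  refine ⟨c, fun j x i => ?_, fun σ hσ => ?_⟩
  · refine Finite.injective_iff_bijective.mp fun a b hab => ?_
    have := hl j _ _ ⟨i, fun t ht => by simp [Function.update_of_ne ht]⟩ hab
    simpa using congrFun this i
  · refine Finite.injective_iff_bijective.mp fun x y hxy => ?_
    have hns : ¬ Function.Surjective σ := fun hs => by
      have := Fintype.card_le_of_surjective σ hs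
      simp at this
    obtain ⟨k0, hk0⟩ : ∃ k0, ∀ i, σ i ≠ k0 := by
      by_contra hc
      push Not at hc
      exact hns hc
    have hsub : Finset.univ.image σ = Finset.univ.erase k0 := by
      apply Finset.eq_of_subset_of_card_le
      · intro k hk
        obtain ⟨i, -, rfl⟩ := Finset.mem_image.mp hk
        simp [hk0 i]
      · rw [Finset.card_image_of_injective _ hσ]
        simp
    refine hm k0 x y fun k hk => ?_
    have : k ∈ Finset.univ.image σ := by rw [hsub]; simp [hk]
    obtain ⟨i, -, rfl⟩ := Finset.mem_image.mp this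
    exact congrFun hxy i

lemma bush {m n k : ℕ} (hn : 2 ≤ n) (hm : n ≤ m) (hk : k ∈ sizes m n) : k ≤ m + 1 := by
  by_contra hlt
  have hk2 : m + 2 ≤ k := by omega
  obtain ⟨C, -, hC⟩ := hk
  obtain ⟨n', rfl⟩ : ∃ n', n = n' + 1 := ⟨n - 1, by omega⟩
  let s0 : Fin m → Fin k := fun i => ⟨i, by have := i.2; omega⟩
  let p : Fin k := ⟨m, by omega⟩
  let q : Fin k := ⟨m + 1, by omega⟩
  have hs0 : Function.Injective s0 := fun i j h => by simpa [s0, Fin.ext_iff] using h
  obtain ⟨-, hsur⟩ := hC s0 hs0
  let x0 : Fin m → Fin (n' + 1) := fun _ => 0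
  let c0 : Fin m → Fin (n' + 1) := fun i => C (s0 i) x0
  choose Y hY using fun (z : Fin m × Fin n') =>
    hsur (Function.update c0 z.1 ((c0 z.1).succAbove z.2))
  have hY1 : ∀ z, C (s0 z.1) (Y z) = (c0 z.1).succAbove z.2 := fun z => by
    simpa using congrFun (hY z) z.1
  have hY2 : ∀ z t, t ≠ z.1 → C (s0 t) (Y z) = c0 t := fun z t ht => by
    simpa [Function.update_of_ne ht] using congrFun (hY z) t
  have one : ∀ (r : Fin k), m ≤ r.1 → ∀ i x y, C r x = C r y →
      (∀ t, t ≠ i → C (s0 t) x = C (s0 t) y) → x = y := by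
    intro r hr i x y h1 h2
    refine (hC (fun t => if t = i then r else s0 t) ?_).1 ?_
    · intro t t' h
      have := t.2
      have := t'.2
      simp only [s0] at h
      split_ifs at h <;> simp_all [Fin.ext_iff] <;> omega
    · funext t
      by_cases ht : t = i
      · simp [ht, h1]
      · simp [ht, h2 t ht]
  have two : ∀ i i' x y, i ≠ i' → C p x = C p y → C q x = C q y →
      (∀ t, t ≠ i → t ≠ i' → C (s0 t) x = C (s0 t) y) → x = y := by
    intro i i' x y hii h1 h1' h2
    refine (hC (fun t => if t = i then p else if t = i' then q else s0 t) ?_).1 ?_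
    · intro t t' h
      have := t.2
      have := t'.2
      simp only [s0, p, q] at h
      split_ifs at h <;> simp_all [Fin.ext_iff] <;> omega
    · funext t
      by_cases ht : t = i
      · simp [ht, h1]
      · by_cases ht' : t = i'
        · subst ht'
          simp [ht, h1']
        · simp [ht, ht', h2 t ht ht']
  have hne : ∀ (r : Fin k), m ≤ r.1 → ∀ z, C r (Y z) ≠ C r x0 := by
    intro r hr z h
    have := one r hr z.1 _ _ h fun t ht => hY2 z t ht
    have h2 := hY1 z
    rw [this] at h2
    exact Fin.succAbove_ne _ _ h2.symm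
  have hcard := Finset.card_le_card_of_injOn (s := (Finset.univ : Finset (Fin m × Fin n')))
    (t := (Finset.univ.erase (C p x0)) ×ˢ (Finset.univ.erase (C q x0)))
    (fun z => (C p (Y z), C q (Y z)))
    (fun z _ => by simp [hne p (by simp [p]) z, hne q (by simp [q]) z])
    (by
      rintro ⟨i, a⟩ - ⟨i', a'⟩ - h
      simp only [Prod.mk.injEq] at h
      by_cases hii : i = i'
      · subst hii
        have := one p (by simp [p]) i _ _ h.1 fun t ht => by
          rw [hY2 (i, a) t ht, hY2 (i, a') t ht]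
        have h1 := hY1 (i, a)
        have h2 := hY1 (i, a')
        rw [this, h2] at h1
        have := Fin.succAbove_right_injective h1
        simp_all
      · have := two i i' _ _ hii h.1 h.2 fun t ht ht' => by
          rw [hY2 (i, a) t ht, hY2 (i', a') t ht']
        have h1 := hY1 (i, a)
        have h2 := hY2 (i', a') i hii
        rw [this, h2] at h1
        exact absurd h1.symm (Fin.succAbove_ne _ _))
  simp [Finset.card_product, Finset.card_erase_of_mem] at hcard
  have : 0 < n' := by omega
  have := Nat.le_of_mul_le_mul_right hcard this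
  omega

end Pool.Agent.H9.LatA
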