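import Mathlib
import Pool.Agent.H9.LatA

namespace Pool.Agent.H9.LatB
open Pool.Agent.H9.LatA

lemma mo_equiv {α β : Type} (e : α ≃ β) (h : MO α) : MO β := by
  obtain ⟨A, B, a1, a2, b1, b2, o⟩ := h
  refine ⟨fun x y => e (A (e.symm x) (e.symm y)), fun x y => e (B (e.symm x) (e.symm y)),
    fun x y y' h => ?_, fun x y y' h => ?_, fun x y y' h => ?_, fun x y y' h => ?_,
    fun x y x' y' h h' => ?_⟩
  · exact e.symm.injective (a1 _ _ _ (e.injective h))
  · exact e.symm.injective (a2 _ _ _ (e.injective h))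
  · exact e.symm.injective (b1 _ _ _ (e.injective h))
  · exact e.symm.injective (b2 _ _ _ (e.injective h))
  · have := o _ _ _ _ (e.injective h) (e.injective h')
    exact ⟨e.symm.injective this.1, e.symm.injective this.2⟩

lemma mo_card {α : Type} [Fintype α] {n : ℕ} (hc : Fintype.card α = n) (h : MO α) : MO (Fin n) :=
  mo_equiv (Fintype.equivFinOfCardEq hc) h

lemma mo_mul {a b : ℕ} (h : MO (Fin a)) (h' : MO (Fin b)) : MO (Fin (a * b)) := by
  refine mo_card (α := Fin a × Fin b) (by simp) ?_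
  obtain ⟨A, B, a1, a2, b1, b2, o⟩ := h
  obtain ⟨A', B', a1', a2', b1', b2', o'⟩ := h'
  refine ⟨fun x y => (A x.1 y.1, A' x.2 y.2), fun x y => (B x.1 y.1, B' x.2 y.2),
    fun x y y' h => ?_, fun x y y' h => ?_, fun x y y' h => ?_, fun x y y' h => ?_,
    fun x y x' y' h h' => ?_⟩
  all_goals simp only [Prod.mk.injEq] at *
  · exact Prod.ext (a1 _ _ _ h.1) (a1' _ _ _ h.2)
  · exact Prod.ext (a2 _ _ _ h.1) (a2' _ _ _ h.2)
  · exact Prod.ext (b1 _ _ _ h.1) (b1' _ _ _ h.2)
  · exact Prod.ext (b2 _ _ _ h.1) (b2' _ _ _ h.2)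
  · have e := o _ _ _ _ h.1 h'.1
    have e' := o' _ _ _ _ h.2 h'.2
    exact ⟨Prod.ext e.1 e'.1, Prod.ext e.2 e'.2⟩

lemma unit2 {n : ℕ} (h : n % 2 = 1) : IsUnit (2 : ZMod n) := by
  have : IsUnit ((2 : ℕ) : ZMod n) := by
    rw [ZMod.isUnit_iff_coprime, Nat.coprime_two_left, Nat.odd_iff]; exact h
  simpa using this

lemma unit3 {n : ℕ} (h : n % 3 ≠ 0) : IsUnit (3 : ZMod n) := by
  have : IsUnit ((3 : ℕ) : ZMod n) := by
    rw [ZMod.isUnit_iff_coprime, Nat.Prime.coprime_iff_not_dvd Nat.prime_three]; omega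
  simpa using this

lemma mo_odd {n : ℕ} (h : n % 2 = 1) : MO (Fin n) := by
  have : NeZero n := ⟨by omega⟩
  refine mo_card (α := ZMod n) (ZMod.card n) ?_
  refine ⟨fun x y => x + y, fun x y => x - y, fun x y y' h => by simpa using h,
    fun x y y' h => by simpa using h, fun x y y' h => by simpa using h,
    fun x y y' h => by simpa using h, fun x y x' y' h1 h2 => ?_⟩
  have e : x = x' := (unit2 h).mul_left_cancel (by linear_combination h1 + h2)
  subst e
  exact ⟨rfl, by simpa using h1⟩

def tb (n : ℕ) (v : ℕ) (x y : Fin (n + 1)) : Fin (n + 1) :=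
  Fin.ofNat (n + 1) (v / 16 ^ (x.1 * (n + 1) + y.1) % 16)

lemma mo_of_tb (n v w : ℕ)
    (h : (∀ x y y', tb n v x y = tb n v x y' → y = y') ∧ (∀ x x' y, tb n v x y = tb n v x' y → x = x') ∧
      (∀ x y y', tb n w x y = tb n w x y' → y = y') ∧ (∀ x x' y, tb n w x y = tb n w x' y → x = x') ∧
      ∀ x y x' y', tb n v x y = tb n v x' y' → tb n w x y = tb n w x' y' → x = x' ∧ y = y') :
    MO (Fin (n + 1)) := ⟨tb n v, tb n w, h⟩

lemma mo4 : MO (Fin 4) := mo_of_tb 3 81927025744491024 1167033740663403024 (by decide +kernel)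

lemma mo8 : MO (Fin 8) := mo_of_tb 7 53039209966134522592959554865748781730619585593708574957640749957321170617639 53039209963760001779618599849297898766983359909135274413269870679585800205889 (by decide +kernel)

lemma mo10 : MO (Fin 10) := mo_of_tb 9 1537831231938583203692533364537024539858065390253168608720146199743777594185807651742174386018793690522576714187081384825 1528332721908023779393470927356743188862708257582293450768917763735581175323431152107163395750435283494334934465543435825 (by decide +kernel)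

lemma mo14 : MO (Fin 14) := mo_of_tb 13 87727511934318830436703004328108009880032790503501664702040803482675258989162339213187412836596952117228229146474165251912973630174797029433148786019302917443795547229398725659214475320775081629660728594213737834584634336411697030024599 87341663885096479191405889672557790455745808220239676225059044459929725924121791012891860466668033189824404783838456580654255913823829074680472397074262998279365683099919853035266085226526798133365175328753057581126473486865279192040449 (by decide +kernel)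

lemma mo_of_td {α R : Type} [Fintype α] [Fintype R] (hc : Fintype.card R = Fintype.card α ^ 2)
    (c : Fin 4 → R → α) (h : ∀ i j, i ≠ j → ∀ r r', c i r = c i r' → c j r = c j r' → r = r') :
    MO α := by
  have hb : Function.Bijective fun r => (c 0 r, c 1 r) := by
    rw [Fintype.bijective_iff_injective_and_card]
    refine ⟨fun r r' e => ?_, by simp [hc, sq]⟩
    simp only [Prod.mk.injEq] at e
    exact h 0 1 (by decide) _ _ e.1 e.2
  let e := Equiv.ofBijective _ hb
  have e0 : ∀ x y, c 0 (e.symm (x, y)) = x := fun x y => congrArg Prod.fst (e.apply_symm_apply (x, y))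
  have e1 : ∀ x y, c 1 (e.symm (x, y)) = y := fun x y => congrArg Prod.snd (e.apply_symm_apply (x, y))
  have fin : ∀ x y x' y', e.symm (x, y) = e.symm (x', y') → x = x' ∧ y = y' := fun x y x' y' h => by
    simpa using h
  refine ⟨fun x y => c 2 (e.symm (x, y)), fun x y => c 3 (e.symm (x, y)),
    fun x y y' h' => ?_, fun x y y' h' => ?_, fun x y y' h' => ?_, fun x y y' h' => ?_,
    fun x y x' y' h1 h2 => ?_⟩
  · exact (fin _ _ _ _ (h 0 2 (by decide) _ _ (by rw [e0, e0]) h')).2
  · exact (fin _ _ _ _ (h 1 2 (by decide) _ _ (by rw [e1, e1]) h')).1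
  · exact (fin _ _ _ _ (h 0 3 (by decide) _ _ (by rw [e0, e0]) h')).2
  · exact (fin _ _ _ _ (h 1 3 (by decide) _ _ (by rw [e1, e1]) h')).1
  · exact fin _ _ _ _ (h 2 3 (by decide) _ _ h1 h2)

lemma td_of_mo {α : Type} (h : MO α) : ∃ c : Fin 4 → α × α → α,
    ∀ i j, i ≠ j → ∀ r r', c i r = c i r' → c j r = c j r' → r = r' := by
  obtain ⟨A, B, a1, a2, b1, b2, o⟩ := h
  refine ⟨![fun r => r.1, fun r => r.2, fun r => A r.1 r.2, fun r => B r.1 r.2], ?_⟩
  rintro i j hij ⟨x, y⟩ ⟨x', y'⟩ h1 h2
  fin_cases i <;> fin_cases j <;> simp at h1 h2 hij ⊢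
  · exact ⟨h1, h2⟩
  · subst h1; exact ⟨rfl, a1 _ _ _ h2⟩
  · subst h1; exact ⟨rfl, b1 _ _ _ h2⟩
  · exact ⟨h2, h1⟩
  · subst h1; exact ⟨a2 _ _ _ h2, rfl⟩
  · subst h1; exact ⟨b2 _ _ _ h2, rfl⟩
  · subst h2; exact ⟨rfl, a1 _ _ _ h1⟩
  · subst h2; exact ⟨a2 _ _ _ h1, rfl⟩
  · exact o _ _ _ _ h1 h2
  · subst h2; exact ⟨rfl, b1 _ _ _ h1⟩
  · subst h2; exact ⟨b2 _ _ _ h1, rfl⟩
  · exact o _ _ _ _ h2 h1

def t3 : Fin 9 → Fin 4 → Fin 3 := ![![0, 0, 0, 0], ![0, 1, 1, 2], ![0, 2, 2, 1], ![1, 0, 1, 1], ![1, 1, 2, 0], ![1, 2, 0, 2], ![2, 0, 2, 2], ![2, 1, 0, 1], ![2, 2, 1, 0]]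

def t4 : Fin 15 → Fin 4 → Option (Fin 3) := ![![none, some 1, some 1, some 1], ![none, some 2, some 2, some 2], ![none, some 0, some 0, some 0], ![some 1, none, some 1, some 0], ![some 1, some 1, none, some 2], ![some 1, some 2, some 0, some 1], ![some 1, some 0, some 2, none], ![some 2, none, some 2, some 1], ![some 2, some 1, some 0, none], ![some 2, some 2, none, some 0], ![some 2, some 0, some 1, some 2], ![some 0, none, some 0, some 2], ![some 0, some 1, some 2, some 0], ![some 0, some 2, some 1, none], ![some 0, some 0, none, some 1]]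

lemma t3_inj : ∀ i j, i ≠ j → ∀ r r', t3 r i = t3 r' i → t3 r j = t3 r' j → r = r' := by
  decide +kernel

lemma t4_inj : ∀ i j, i ≠ j → ∀ r r', t4 r i = t4 r' i → t4 r j = t4 r' j → r = r' := by
  decide +kernel

lemma t4_none : ∀ i j, i ≠ j → ∀ r, t4 r i = none → t4 r j ≠ none := by
  decide +kernel

def sym {X U : Type} (x : X) (w : U) : Option (Fin 3) → (X × Fin 3) ⊕ U
  | some k => Sum.inl (x, k)
  | none => Sum.inr w

lemma sym_eq {X U : Type} {x x' : X} {w w' : U} {o o' : Option (Fin 3)}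
    (h : sym x w o = sym x' w' o') : o = o' ∧ (o ≠ none → x = x') ∧ (o = none → w = w') := by
  cases o <;> cases o' <;> simp_all [sym]

lemma sym_inl {X U : Type} {x x' : X} {w : U} {o : Option (Fin 3)} {k : Fin 3}
    (h : Sum.inl (x', k) = sym x w o) : x' = x := by
  cases o <;> simp_all [sym]

lemma sym_inr {X U : Type} {x : X} {w w' : U} {o : Option (Fin 3)}
    (h : sym x w o = Sum.inr w') : o = none := by
  cases o <;> simp_all [sym]

lemma lin {t : ℕ} (h2 : t % 2 = 1) (h3 : t % 3 ≠ 0) (i j : Fin 4) (hij : i ≠ j) (a b a' b' : ZMod t)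
    (e1 : a + (i.1 : ZMod t) * b = a' + (i.1 : ZMod t) * b')
    (e2 : a + (j.1 : ZMod t) * b = a' + (j.1 : ZMod t) * b') : a = a' ∧ b = b' := by
  have u2 := unit2 h2
  have u3 := unit3 h3
  have e : b = b' := by
    fin_cases i <;> fin_cases j <;> simp only [Nat.cast_ofNat, Nat.cast_zero, Nat.cast_one] at e1 e2 <;>
    first
      | exact absurd rfl hij
      | linear_combination e1 - e2
      | linear_combination e2 - e1
      | exact u2.mul_left_cancel (by linear_combination e1 - e2)
      | exact u2.mul_left_cancel (by linear_combination e2 - e1)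
      | exact u3.mul_left_cancel (by linear_combination e1 - e2)
      | exact u3.mul_left_cancel (by linear_combination e2 - e1)
  subst e
  exact ⟨by simpa using e1, rfl⟩

lemma wilson {t u : ℕ} (h2 : t % 2 = 1) (h3 : t % 3 ≠ 0) (hu : u ≤ t) (hM : MO (Fin u)) :
    MO (Fin (3 * t + u)) := by
  have : NeZero t := ⟨by omega⟩
  obtain ⟨v, rfl⟩ : ∃ v, t = v + u := ⟨t - u, by omega⟩
  obtain ⟨cu, hcu⟩ := td_of_mo hM
  let β : Fin v ⊕ Fin u ≃ ZMod (v + u) := Fintype.equivOfCardEq (by simp [ZMod.card])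
  refine mo_card (α := (ZMod (v + u) × Fin 3) ⊕ Fin u) (by simp [ZMod.card]; ring) ?_
  let c : Fin 4 → ((ZMod (v + u) × Fin v × Fin 9) ⊕ (ZMod (v + u) × Fin u × Fin 15) ⊕ (Fin u × Fin u)) →
      (ZMod (v + u) × Fin 3) ⊕ Fin u := fun i r =>
    match r with
    | Sum.inl (a, b, s) => Sum.inl (a + (i.1 : ZMod (v + u)) * β (Sum.inl b), t3 s i)
    | Sum.inr (Sum.inl (a, w, s)) => sym (a + (i.1 : ZMod (v + u)) * β (Sum.inr w)) w (t4 s i)
    | Sum.inr (Sum.inr r) => Sum.inr (cu i r)
  refine mo_of_td (by simp [ZMod.card]; ring) c ?_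
  rintro i j hij (⟨a, b, s⟩ | ⟨a, w, s⟩ | r) (⟨a', b', s'⟩ | ⟨a', w', s'⟩ | r') e1 e2 <;>
    simp only [c] at e1 e2
  · simp only [Sum.inl.injEq, Prod.mk.injEq] at e1 e2
    obtain ⟨rfl, h⟩ := lin h2 h3 i j hij _ _ _ _ e1.1 e2.1
    obtain rfl : b = b' := by simpa using h
    obtain rfl := t3_inj i j hij _ _ e1.2 e2.2
    rfl
  · have h := (lin h2 h3 i j hij _ _ _ _ (sym_inl e1) (sym_inl e2)).2
    simp at h
  · simp at e1
  · have h := (lin h2 h3 i j hij _ _ _ _ (sym_inl e1.symm) (sym_inl e2.symm)).2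
    simp at h
  · obtain ⟨f1, g1, k1⟩ := sym_eq e1
    obtain ⟨f2, g2, k2⟩ := sym_eq e2
    obtain rfl := t4_inj i j hij _ _ f1 f2
    by_cases n1 : t4 s i = none
    · obtain rfl := k1 n1
      obtain rfl : a = a' := by simpa using g2 (t4_none i j hij s n1)
      rfl
    · by_cases n2 : t4 s j = none
      · obtain rfl := k2 n2
        obtain rfl : a = a' := by simpa using g1 n1
        rfl
      · obtain ⟨rfl, h⟩ := lin h2 h3 i j hij _ _ _ _ (g1 n1) (g2 n2)
        obtain rfl : w = w' := by simpa using h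
        rfl
  · exact absurd (sym_inr e2) (t4_none i j hij s (sym_inr e1))
  · simp at e1
  · exact absurd (sym_inr e2.symm) (t4_none i j hij s' (sym_inr e1.symm))
  · simp only [Sum.inr.injEq] at e1 e2
    rw [hcu i j hij _ _ e1 e2]

theorem bsp : ∀ n, 3 ≤ n → n ≠ 6 → MO (Fin n) := by
  intro n
  induction n using Nat.strong_induction_on with
  | _ n ih =>
    intro h3 h6
    by_cases ho : n % 2 = 1
    · exact mo_odd ho
    by_cases h4 : n % 4 = 0
    · by_cases h8 : n % 8 = 4
      · have := mo_mul mo4 (mo_odd (n := n / 4) (by omega))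
        rwa [show 4 * (n / 4) = n by omega] at this
      by_cases h16 : n % 16 = 8
      · have := mo_mul mo8 (mo_odd (n := n / 8) (by omega))
        rwa [show 8 * (n / 8) = n by omega] at this
      · have := mo_mul mo4 (ih (n / 4) (by omega) (by omega) (by omega))
        rwa [show 4 * (n / 4) = n by omega] at this
    by_cases h10 : n = 10
    · subst h10; exact mo10
    by_cases h14 : n = 14
    · subst h14; exact mo14
    by_cases h30 : n = 30
    · subst h30; exact mo_mul (mo_odd (n := 3) rfl) mo10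
    have key : ∀ t, t % 2 = 1 → t % 3 ≠ 0 → 3 * t ≤ n → n ≤ 4 * t → MO (Fin n) := by
      intro t a b c d
      have := wilson a b (u := n - 3 * t) (by omega) (mo_odd (by omega))
      rwa [show 3 * t + (n - 3 * t) = n by omega] at this
    have hs : (n / 3) % 6 = 0 ∨ (n / 3) % 6 = 1 ∨ (n / 3) % 6 = 2 ∨ (n / 3) % 6 = 3 ∨
      (n / 3) % 6 = 4 ∨ (n / 3) % 6 = 5 := by omega
    rcases hs with h | h | h | h | h | h
    · exact key (n / 3 - 1) (by omega) (by omega) (by omega) (by omega)
    · exact key (n / 3) (by omega) (by omega) (by omega) (by omega)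
    · exact key (n / 3 - 1) (by omega) (by omega) (by omega) (by omega)
    · exact key (n / 3 - 2) (by omega) (by omega) (by omega) (by omega)
    · exact key (n / 3 - 3) (by omega) (by omega) (by omega) (by omega)
    · exact key (n / 3) (by omega) (by omega) (by omega) (by omega)

end Pool.Agent.H9.LatB
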