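import Mathlib
import Pool.Agent.H9.LatA

namespace Pool.Agent.H9.LatC
open Pool.Agent.H9.LatA

abbrev Z := ZMod 6

def g0t : Fin 6 → Fin 6 → Fin 6 := ![![2, 3, 0, 4, 5, 1], ![5, 0, 4, 2, 1, 3], ![0, 2, 5, 1, 3, 4], ![4, 1, 2, 3, 0, 5], ![3, 5, 1, 0, 4, 2], ![1, 4, 3, 5, 2, 0]]
def g1t : Fin 6 → Fin 6 → Fin 6 := ![![2, 1, 0, 5, 3, 4], ![5, 4, 1, 0, 2, 3], ![1, 2, 3, 4, 0, 5], ![3, 0, 4, 2, 5, 1], ![4, 5, 2, 3, 1, 0], ![0, 3, 5, 1, 4, 2]]
def g2t : Fin 6 → Fin 6 → Fin 6 := ![![0, 3, 5, 4, 2, 1], ![5, 2, 1, 3, 0, 4], ![3, 5, 4, 0, 1, 2], ![1, 0, 2, 5, 4, 3], ![4, 1, 3, 2, 5, 0], ![2, 4, 0, 1, 3, 5]]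
def At : Fin 6 → Fin 6 → Fin 6 := ![![0, 5, 3, 1, 2, 4], ![1, 2, 5, 0, 4, 3], ![5, 1, 0, 4, 3, 2], ![4, 3, 2, 5, 0, 1], ![3, 4, 1, 2, 5, 0], ![2, 0, 4, 3, 1, 5]]
def B0t : Fin 6 → Fin 6 → Fin 6 := ![![1, 2, 3, 1, 5, 4], ![0, 4, 5, 0, 3, 2], ![3, 5, 4, 2, 0, 1], ![5, 1, 0, 4, 2, 3], ![4, 0, 2, 3, 1, 5], ![2, 3, 1, 5, 4, 0]]
def B1t : Fin 6 → Fin 6 → Fin 6 := ![![0, 2, 3, 0, 5, 4], ![1, 4, 5, 1, 3, 2], ![3, 5, 4, 2, 0, 1], ![5, 1, 0, 4, 2, 3], ![4, 0, 2, 3, 1, 5], ![2, 3, 1, 5, 4, 0]]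
def rt : Fin 6 → Fin 6 := ![0, 1, 3, 2, 4, 5]

def g0 (s t : Z) : Z := g0t s t
def g1 (s t : Z) : Z := g1t s t
def g2 (s t : Z) : Z := g2t s t
def A (s t : Z) : Z := At s t
def B (b : ZMod 2) (s t : Z) : Z := if b = 0 then B0t s t else B1t s t
def rho (s : Z) : Z := rt s
def par : Z →+* ZMod 2 := ZMod.castHom (by norm_num : 2 ∣ 6) (ZMod 2)

lemma g0a : ∀ x y y', g0 x y = g0 x y' → y = y' := by decide +kernel
lemma g0b : ∀ x x' y, g0 x y = g0 x' y → x = x' := by decide +kernel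
lemma g1a : ∀ x y y', g1 x y = g1 x y' → y = y' := by decide +kernel
lemma g1b : ∀ x x' y, g1 x y = g1 x' y → x = x' := by decide +kernel
lemma g2a : ∀ x y y', g2 x y = g2 x y' → y = y' := by decide +kernel
lemma g2b : ∀ x x' y, g2 x y = g2 x' y → x = x' := by decide +kernel
lemma Aa : ∀ x y y', A x y = A x y' → y = y' := by decide +kernel
lemma Ab : ∀ x x' y, A x y = A x' y → x = x' := by decide +kernel
lemma Bb : ∀ b x x' y, B b x y = B b x' y → x = x' := by decide +kernel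
lemma Ba : ∀ b b' x y y', (y' = y + 3 → b ≠ b') → B b x y = B b' x y' → y = y' := by
  decide +kernel
lemma AB1 : ∀ b b' x y x' y', A x y = A x' y' → B b x y = B b' x' y' →
    par (rho y) = par (rho y') := by decide +kernel
lemma AB2 : ∀ b x y x' y', A x y = A x' y' → B b x y = B b x' y' → x = x' ∧ y = y' := by
  decide +kernel
lemma rho_inj : ∀ x y, rho x = rho y → x = y := by decide +kernel
lemma reveal : ∀ s t s' t', g1 s t - g0 s t = g1 s' t' - g0 s' t' →
    g2 s t - g0 s t = g2 s' t' - g0 s' t' → s = s' ∧ t = t' := by decide +kernel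
lemma ppa : ∀ s t t', g0 s t' = g0 s t + 3 → par (g1 s t) ≠ par (g1 s t') := by decide +kernel
lemma ppb : ∀ s s' t, g0 s' t = g0 s t + 3 → par (g1 s t) ≠ par (g1 s' t) := by decide +kernel
lemma par3 : ∀ x y, y = x + 3 → par x ≠ par y := by decide +kernel

def G0 (x : Fin 2 → Z) : Z := g0 (x 0) (x 1)
def G1 (x : Fin 2 → Z) : Z := g1 (x 0) (x 1)
def G2 (x : Fin 2 → Z) : Z := g2 (x 0) (x 1)

lemma lG0 : Lat G0 := lat2 g0 g0a g0b
lemma lG1 : Lat G1 := lat2 g1 g1a g1b
lemma lG2 : Lat G2 := lat2 g2 g2a g2b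

lemma Reveal (x y : Fin 2 → Z) (h1 : G1 x - G0 x = G1 y - G0 y) (h2 : G2 x - G0 x = G2 y - G0 y) :
    x = y := by
  have := reveal _ _ _ _ h1 h2
  funext j
  fin_cases j
  · exact this.1
  · exact this.2

lemma PPG (x y : Fin 2 → Z) (h : Adj x y) (e : G0 y = G0 x + 3) : par (G1 x) ≠ par (G1 y) := by
  obtain ⟨i, hi⟩ := h
  fin_cases i
  · have e1 := hi 1 (by decide)
    simp only [G0, G1, e1] at e ⊢
    exact ppb _ _ _ e
  · have e1 := hi 0 (by decide)
    simp only [G0, G1, e1] at e ⊢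
    exact ppa _ _ _ e

def Spl {a b : ℕ} (L : (Fin (a + b) → Z) → Fin a → Z) (R : (Fin (a + b) → Z) → Fin b → Z) : Prop :=
  (∀ x y, L x = L y → R x = R y → x = y) ∧
    ∀ x y, Adj x y → (L x = L y ∧ Adj (R x) (R y)) ∨ (Adj (L x) (L y) ∧ R x = R y)

lemma lat_add {a b : ℕ} {L : (Fin (a + b) → Z) → Fin a → Z} {R : (Fin (a + b) → Z) → Fin b → Z}
    (h : Spl L R) {f : (Fin a → Z) → Z} {g : (Fin b → Z) → Z} (hf : Lat f) (hg : Lat g) :
    Lat fun x => f (L x) + g (R x) := by
  intro x y hxy e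
  rcases h.2 x y hxy with ⟨e1, h'⟩ | ⟨h', e1⟩
  · simp only [e1, add_right_inj] at e
    exact h.1 _ _ e1 (hg _ _ h' e)
  · simp only [e1, add_left_inj] at e
    exact h.1 _ _ (hf _ _ h' e) e1

lemma lat_neg {m : ℕ} {f : (Fin m → Z) → Z} (hf : Lat f) : Lat fun x => -f x :=
  fun x y h e => hf x y h (neg_injective e)

def RR (k M : ℕ) : Prop :=
  ∃ (h z q q' : (Fin M → Z) → Z) (rp rm : Fin k → (Fin M → Z) → Z),
    Lat h ∧ Lat z ∧ Lat q ∧ Lat q' ∧ (∀ i, Lat (rp i)) ∧ (∀ i, Lat (rm i)) ∧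
    (∀ x, q x + ∑ i, rp i x = q' x + ∑ i, rm i x) ∧
    (∀ x y, Adj x y → h y = h x + 3 → par (q x) ≠ par (q y)) ∧
    ∀ x y, h x = h y → z x = z y → q x = q y → q' x = q' y → (∀ i, rp i x = rp i y) →
      (∀ i, rm i x = rm i y) → x = y

lemma rr0 : RR 0 (1 + 2) := by
  obtain ⟨L, R, hs⟩ := split (α := Z) 1 2
  have l0 : Lat fun x : Fin 1 → Z => x 0 := fun x y _ h => by
    funext j; rw [Subsingleton.elim j 0]; exact h
  refine ⟨fun x => L x 0 + G0 (R x), fun x => L x 0 + G2 (R x), fun x => L x 0 + G1 (R x),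
    fun x => L x 0 + G1 (R x), Fin.elim0, Fin.elim0, lat_add hs l0 lG0, lat_add hs l0 lG2,
    lat_add hs l0 lG1, lat_add hs l0 lG1, fun i => i.elim0, fun i => i.elim0, fun x => by simp,
    fun x y hxy e => ?_, fun x y e0 e2 e1 _ _ _ => ?_⟩
  · rcases hs.2 x y hxy with ⟨e1, h'⟩ | ⟨h', e1⟩
    · simp only [e1] at e ⊢
      have := PPG _ _ h' (by linear_combination e)
      simpa using this
    · simp only [e1] at e ⊢
      exact par3 _ _ (by linear_combination e)
  · simp only at e0 e1 e2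
    have e := Reveal (R x) (R y) (by linear_combination e1 - e0) (by linear_combination e2 - e0)
    refine hs.1 _ _ ?_ e
    funext j
    rw [Subsingleton.elim j 0]
    rw [e] at e0
    simpa using e0

lemma rr_step {k M : ℕ} (H : RR k M) : RR (k + 1) (M + 2) := by
  obtain ⟨h, z, q, q', rp, rm, lh, lz, lq, lq', lp, lm, hs0, hp, hi⟩ := H
  obtain ⟨L, R, hs⟩ := split (α := Z) M 2
  refine ⟨fun x => h (L x) + G0 (R x), fun x => z (L x) + G2 (R x), fun x => q (L x) + G0 (R x),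
    fun x => q' (L x) + G1 (R x),
    Fin.cons (fun x => z (L x) + G1 (R x)) fun i x => rp i (L x) + G0 (R x),
    Fin.cons (fun x => z (L x) + G0 (R x)) fun i x => rm i (L x) + G0 (R x),
    lat_add hs lh lG0, lat_add hs lz lG2, lat_add hs lq lG0, lat_add hs lq' lG1,
    fun i => ?_, fun i => ?_, fun x => ?_, fun x y hxy e => ?_, fun x y e0 e1 e2 e3 e4 e5 => ?_⟩
  · refine Fin.cases ?_ (fun i => ?_) i
    · exact lat_add hs lz lG1
    · exact lat_add hs (lp i) lG0
  · refine Fin.cases ?_ (fun i => ?_) i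
    · exact lat_add hs lz lG0
    · exact lat_add hs (lm i) lG0
  · simp only [Fin.sum_univ_succ, Fin.cons_zero, Fin.cons_succ, Finset.sum_add_distrib]
    linear_combination hs0 (L x)
  · rcases hs.2 x y hxy with ⟨e1, h'⟩ | ⟨h', e1⟩
    · simp only [e1] at e ⊢
      exact par3 _ _ (by linear_combination e)
    · simp only [e1] at e ⊢
      have := hp _ _ h' (by linear_combination e)
      simpa using this
  · have f4 := e4 0
    have f5 := e5 0
    simp only [Fin.cons_zero] at e0 e1 e2 e3 f4 f5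
    have e := Reveal (R x) (R y) (by linear_combination f4 - f5) (by linear_combination e1 - f5)
    simp only [e, add_left_inj] at e0 e1 e2 e3
    refine hs.1 _ _ (hi _ _ e0 e1 e2 e3 (fun i => ?_) fun i => ?_) e
    · simpa [e] using e4 i.succ
    · simpa [e] using e5 i.succ

lemma rr : ∀ k, RR k (2 * k + 3)
  | 0 => rr0
  | k + 1 => rr_step (rr k)

lemma sum_one {κ γ : Type} [Fintype κ] [AddCommGroup γ] (u w : κ → γ) (k0 : κ)
    (h : ∀ k, k ≠ k0 → u k = w k) (hs : ∑ k, u k = ∑ k, w k) : ∀ k, u k = w k := by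
  classical
  intro k
  by_cases hk : k = k0
  · subst hk
    rw [← Finset.add_sum_erase _ _ (Finset.mem_univ k), ← Finset.add_sum_erase _ w (Finset.mem_univ k),
      Finset.sum_congr rfl fun j hj => h j (Finset.ne_of_mem_erase hj)] at hs
    exact add_right_cancel hs
  · exact h k hk

lemma k_odd (k : ℕ) : KK Z (2 * k + 3 + 2) := by
  obtain ⟨h, z, q, q', rp, rm, lh, lz, lq, lq', lp, lm, hs0, hp, hi⟩ := rr k
  obtain ⟨L, R, hs⟩ := split (α := Z) (2 * k + 3) 2
  let c : Fin 6 ⊕ Fin k ⊕ Fin k → (Fin (2 * k + 3 + 2) → Z) → Z :=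
    Sum.elim ![fun x => h (L x) + G0 (R x), fun x => z (L x) + G1 (R x), fun x => q (L x) + G2 (R x),
        fun x => -(h (L x) + G1 (R x)), fun x => -(z (L x) + G2 (R x)),
        fun x => -(q' (L x) + G0 (R x))]
      (Sum.elim (fun i x => rp i (L x) + G0 (R x)) fun i x => -(rm i (L x) + G0 (R x)))
  have hsum : ∀ x, ∑ j, c j x = 0 := by
    intro x
    simp only [c, Fintype.sum_sum_type, Fin.sum_univ_six, Sum.elim_inl, Sum.elim_inr,
      Finset.sum_add_distrib, Finset.sum_neg_distrib]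
    simp
    linear_combination hs0 (L x)
  refine mkK (κ := Fin 6 ⊕ Fin k ⊕ Fin k) (by simp; omega) c ?_ ?_
  · rintro (j | j | j)
    · fin_cases j
      · exact lat_add hs lh lG0
      · exact lat_add hs lz lG1
      · exact lat_add hs lq lG2
      · exact lat_neg (lat_add hs lh lG1)
      · exact lat_neg (lat_add hs lz lG2)
      · exact lat_neg (lat_add hs lq' lG0)
    · exact lat_add hs (lp j) lG0
    · exact lat_neg (lat_add hs (lm j) lG0)
  · intro k0 x y e
    have e' := sum_one (fun j => c j x) (fun j => c j y) k0 e (by rw [hsum, hsum])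
    have e0 : h (L x) + G0 (R x) = h (L y) + G0 (R y) := e' (Sum.inl 0)
    have e1 : z (L x) + G1 (R x) = z (L y) + G1 (R y) := e' (Sum.inl 1)
    have e2 : q (L x) + G2 (R x) = q (L y) + G2 (R y) := e' (Sum.inl 2)
    have e3 : -(h (L x) + G1 (R x)) = -(h (L y) + G1 (R y)) := e' (Sum.inl 3)
    have e4 : -(z (L x) + G2 (R x)) = -(z (L y) + G2 (R y)) := e' (Sum.inl 4)
    have e5 : -(q' (L x) + G0 (R x)) = -(q' (L y) + G0 (R y)) := e' (Sum.inl 5)
    have eR := Reveal (R x) (R y) (by linear_combination -e3 - e0)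
      (by linear_combination -e3 - e0 - e4 - e1)
    simp only [eR, add_left_inj, neg_inj] at e0 e1 e2 e5
    refine hs.1 _ _ (hi _ _ e0 e1 e2 e5 (fun i => ?_) fun i => ?_) eR
    · have : rp i (L x) + G0 (R x) = rp i (L y) + G0 (R y) := e' (Sum.inr (Sum.inl i))
      simpa [eR] using this
    · have : -(rm i (L x) + G0 (R x)) = -(rm i (L y) + G0 (R y)) := e' (Sum.inr (Sum.inr i))
      simpa [eR] using this

lemma k_even (k : ℕ) : KK Z (3 + (2 * k + 3)) := by
  obtain ⟨h, z, q, q', rp, rm, lh, lz, lq, lq', lp, lm, hs0, hp, hi⟩ := rr k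
  obtain ⟨c0, c2, c1, c1', rp0, rm0, l0, l2, l1, -, -, -, cs, cp, ci⟩ : RR 0 3 := rr 0
  have c11 : ∀ x, c1 x = c1' x := fun x => by simpa using cs x
  obtain ⟨L, R, hs⟩ := split (α := Z) 3 (2 * k + 3)
  have lr : ∀ {m : ℕ} {f : (Fin m → Z) → Z}, Lat f → Lat fun x => rho (f x) :=
    fun hf x y h e => hf x y h (rho_inj _ _ e)
  let f : Fin 2 ⊕ Fin k ⊕ Fin k → (Fin (3 + (2 * k + 3)) → Z) → Z :=
    Sum.elim ![fun x => c1 (L x) + q (R x), fun x => -(rho (c0 (L x)) + q' (R x))]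
      (Sum.elim (fun i x => c1 (L x) + rp i (R x)) fun i x => -(c1 (L x) + rm i (R x)))
  let r : Fin 2 ⊕ Fin k ⊕ Fin k → (Fin (2 * k + 3) → Z) → Z :=
    Sum.elim ![q, fun x => -q' x] (Sum.elim rp fun i x => -rm i x)
  let d : Fin 2 ⊕ Fin k ⊕ Fin k → Z → Z → Z :=
    Sum.elim ![fun a _ => a, fun _ b => -b] (Sum.elim (fun _ a _ => a) fun _ a _ => -a)
  have hfd : ∀ j x, f j x = d j (c1 (L x)) (rho (c0 (L x))) + r j (R x) := by
    rintro (j | j | j) x
    · fin_cases j
      · rfl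
      · simp [f, d, r]; ring
    · rfl
    · simp [f, d, r]; ring
  have hdp : ∀ j a b a' b', par a = par a' → par b = par b' → par (d j a b) = par (d j a' b') := by
    rintro (j | j | j) a b a' b' h1 h2
    · fin_cases j <;> simp [d, h1, h2]
    · simp [d, h1]
    · simp [d, h1]
  have hr : ∀ x, ∑ j, r j x = 0 := by
    intro x
    simp only [r, Fintype.sum_sum_type, Fin.sum_univ_two, Sum.elim_inl, Sum.elim_inr,
      Finset.sum_neg_distrib]
    simp
    linear_combination hs0 x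
  have hf : ∀ x, ∑ j, f j x = c1 (L x) - rho (c0 (L x)) := by
    intro x
    simp only [hfd, Finset.sum_add_distrib, hr]
    simp only [d, Fintype.sum_sum_type, Fin.sum_univ_two, Sum.elim_inl, Sum.elim_inr,
      Finset.sum_neg_distrib]
    simp
    ring
  have fin : ∀ x y, c0 (L x) = c0 (L y) → c1 (L x) = c1 (L y) → c2 (L x) = c2 (L y) →
      h (R x) = h (R y) → z (R x) = z (R y) → (∀ j, r j (R x) = r j (R y)) → x = y := by
    intro x y a0 a1 a2 a3 a4 a5
    refine hs.1 _ _ (ci _ _ a0 a2 a1 (by rw [← c11, ← c11, a1]) (fun i => i.elim0) fun i => i.elim0)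
      (hi _ _ a3 a4 (a5 (Sum.inl 0)) ?_ (fun i => a5 (Sum.inr (Sum.inl i))) fun i => ?_)
    · exact neg_injective (a5 (Sum.inl 1))
    · exact neg_injective (a5 (Sum.inr (Sum.inr i)))
  let c : Fin 5 ⊕ (Fin 2 ⊕ Fin k ⊕ Fin k) → (Fin (3 + (2 * k + 3)) → Z) → Z :=
    Sum.elim ![fun x => A (c2 (L x)) (h (R x)), fun x => B (par (q (R x))) (c2 (L x)) (h (R x)),
        fun x => c1 (L x) + rho (h (R x)), fun x => A (z (R x)) (c0 (L x)),
        fun x => B (par (c1 (L x))) (z (R x)) (c0 (L x))] f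
  refine mkK (κ := Fin 5 ⊕ (Fin 2 ⊕ Fin k ⊕ Fin k)) (by simp; omega) c ?_ ?_
  · rintro (j | j | j | j)
    · fin_cases j
      · intro x y hxy e
        change A (c2 (L x)) (h (R x)) = A (c2 (L y)) (h (R y)) at e
        rcases hs.2 x y hxy with ⟨e1, h'⟩ | ⟨h', e1⟩ <;> rw [e1] at e
        · exact hs.1 _ _ e1 (lh _ _ h' (Aa _ _ _ e))
        · exact hs.1 _ _ (l2 _ _ h' (Ab _ _ _ e)) e1
      · intro x y hxy e
        change B (par (q (R x))) (c2 (L x)) (h (R x)) = B (par (q (R y))) (c2 (L y)) (h (R y)) at e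
        rcases hs.2 x y hxy with ⟨e1, h'⟩ | ⟨h', e1⟩ <;> rw [e1] at e
        · exact hs.1 _ _ e1 (lh _ _ h' (Ba _ _ _ _ _ (hp _ _ h') e))
        · exact hs.1 _ _ (l2 _ _ h' (Bb _ _ _ _ e)) e1
      · exact lat_add hs l1 (lr lh)
      · intro x y hxy e
        change A (z (R x)) (c0 (L x)) = A (z (R y)) (c0 (L y)) at e
        rcases hs.2 x y hxy with ⟨e1, h'⟩ | ⟨h', e1⟩ <;> rw [e1] at e
        · exact hs.1 _ _ e1 (lz _ _ h' (Ab _ _ _ e))
        · exact hs.1 _ _ (l0 _ _ h' (Aa _ _ _ e)) e1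
      · intro x y hxy e
        change B (par (c1 (L x))) (z (R x)) (c0 (L x)) = B (par (c1 (L y))) (z (R y)) (c0 (L y)) at e
        rcases hs.2 x y hxy with ⟨e1, h'⟩ | ⟨h', e1⟩ <;> rw [e1] at e
        · exact hs.1 _ _ e1 (lz _ _ h' (Bb _ _ _ _ e))
        · exact hs.1 _ _ (l0 _ _ h' (Ba _ _ _ _ _ (cp _ _ h') e)) e1
    · fin_cases j
      · exact lat_add hs l1 lq
      · exact lat_neg (lat_add hs (lr l0) lq')
    · exact lat_add hs l1 (lp j)
    · exact lat_neg (lat_add hs l1 (lm j))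
  · intro k0 x y e
    have rall : c0 (L x) = c0 (L y) → c1 (L x) = c1 (L y) → (∀ j, f j x = f j y) →
        ∀ j, r j (R x) = r j (R y) := by
      intro a0 a1 hj j
      have := hj j
      rw [hfd, hfd, a0, a1] at this
      simpa using this
    rcases k0 with j0 | j0
    · have ef : ∀ j, f j x = f j y := fun j => e (Sum.inr j) (by simp)
      have es : c1 (L x) - rho (c0 (L x)) = c1 (L y) - rho (c0 (L y)) := by
        rw [← hf, ← hf]; exact Finset.sum_congr rfl fun j _ => ef j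
      have eq0 : c1 (L x) + q (R x) = c1 (L y) + q (R y) := ef (Sum.inl 0)
      have E0 : j0 ≠ 0 → A (c2 (L x)) (h (R x)) = A (c2 (L y)) (h (R y)) :=
        fun hj => e (Sum.inl 0) (by simpa using hj.symm)
      have E1 : j0 ≠ 1 → B (par (q (R x))) (c2 (L x)) (h (R x)) =
          B (par (q (R y))) (c2 (L y)) (h (R y)) := fun hj => e (Sum.inl 1) (by simpa using hj.symm)
      have E2 : j0 ≠ 2 → c1 (L x) + rho (h (R x)) = c1 (L y) + rho (h (R y)) :=
        fun hj => e (Sum.inl 2) (by simpa using hj.symm)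
      have E3 : j0 ≠ 3 → A (z (R x)) (c0 (L x)) = A (z (R y)) (c0 (L y)) :=
        fun hj => e (Sum.inl 3) (by simpa using hj.symm)
      have E4 : j0 ≠ 4 → B (par (c1 (L x))) (z (R x)) (c0 (L x)) =
          B (par (c1 (L y))) (z (R y)) (c0 (L y)) := fun hj => e (Sum.inl 4) (by simpa using hj.symm)
      have D2 : j0 ≠ 3 → j0 ≠ 4 → z (R x) = z (R y) ∧ c0 (L x) = c0 (L y) ∧ c1 (L x) = c1 (L y) ∧
          q (R x) = q (R y) := by
        intro n3 n4
        have p0 := AB1 _ _ _ _ _ _ (E3 n3) (E4 n4)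
        have p1 : par (c1 (L x)) = par (c1 (L y)) := by
          have := congrArg par es
          simp only [map_sub, p0] at this
          simpa using this
        have b4 := E4 n4
        rw [p1] at b4
        obtain ⟨a4, a0⟩ := AB2 _ _ _ _ _ (E3 n3) b4
        have a1 : c1 (L x) = c1 (L y) := by rw [a0] at es; simpa using es
        exact ⟨a4, a0, a1, by rw [a1] at eq0; simpa using eq0⟩
      have D1 : j0 ≠ 0 → j0 ≠ 1 → j0 ≠ 2 → c2 (L x) = c2 (L y) ∧ h (R x) = h (R y) ∧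
          c1 (L x) = c1 (L y) ∧ c0 (L x) = c0 (L y) := by
        intro n0 n1 n2
        have p0 := AB1 _ _ _ _ _ _ (E0 n0) (E1 n1)
        have p1 : par (c1 (L x)) = par (c1 (L y)) := by
          have := congrArg par (E2 n2)
          simp only [map_add, p0] at this
          simpa using this
        have p2 : par (q (R x)) = par (q (R y)) := by
          have := congrArg par eq0
          simp only [map_add, p1] at this
          simpa using this
        have b1 := E1 n1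
        rw [p2] at b1
        obtain ⟨a2, a3⟩ := AB2 _ _ _ _ _ (E0 n0) b1
        have a1 : c1 (L x) = c1 (L y) := by
          have := E2 n2
          rw [a3] at this
          simpa using this
        exact ⟨a2, a3, a1, rho_inj _ _ (by rw [a1] at es; simpa using es)⟩
      fin_cases j0
      · obtain ⟨a4, a0, a1, a5⟩ := D2 (by decide) (by decide)
        have a3 : h (R x) = h (R y) := rho_inj _ _ (by
          have := E2 (by decide)
          rw [a1] at this
          simpa using this)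
        have b := E1 (by decide)
        rw [a5, a3] at b
        exact fin x y a0 a1 (Bb _ _ _ _ b) a3 a4 (rall a0 a1 ef)
      · obtain ⟨a4, a0, a1, a5⟩ := D2 (by decide) (by decide)
        have a3 : h (R x) = h (R y) := rho_inj _ _ (by
          have := E2 (by decide)
          rw [a1] at this
          simpa using this)
        have b := E0 (by decide)
        rw [a3] at b
        exact fin x y a0 a1 (Ab _ _ _ b) a3 a4 (rall a0 a1 ef)
      · obtain ⟨a4, a0, a1, a5⟩ := D2 (by decide) (by decide)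
        have b := E1 (by decide)
        rw [a5] at b
        obtain ⟨a2, a3⟩ := AB2 _ _ _ _ _ (E0 (by decide)) b
        exact fin x y a0 a1 a2 a3 a4 (rall a0 a1 ef)
      · obtain ⟨a2, a3, a1, a0⟩ := D1 (by decide) (by decide) (by decide)
        have b := E4 (by decide)
        rw [a1, a0] at b
        exact fin x y a0 a1 a2 a3 (Bb _ _ _ _ b) (rall a0 a1 ef)
      · obtain ⟨a2, a3, a1, a0⟩ := D1 (by decide) (by decide) (by decide)
        have b := E3 (by decide)
        rw [a0] at b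
        exact fin x y a0 a1 a2 a3 (Ab _ _ _ b) (rall a0 a1 ef)
    · have ef : ∀ j, j ≠ j0 → f j x = f j y := fun j hj => e (Sum.inr j) (by simpa using hj)
      have E0 : A (c2 (L x)) (h (R x)) = A (c2 (L y)) (h (R y)) := e (Sum.inl 0) (by simp)
      have E1 : B (par (q (R x))) (c2 (L x)) (h (R x)) =
          B (par (q (R y))) (c2 (L y)) (h (R y)) := e (Sum.inl 1) (by simp)
      have E2 : c1 (L x) + rho (h (R x)) = c1 (L y) + rho (h (R y)) := e (Sum.inl 2) (by simp)
      have E3 : A (z (R x)) (c0 (L x)) = A (z (R y)) (c0 (L y)) := e (Sum.inl 3) (by simp)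
      have E4 : B (par (c1 (L x))) (z (R x)) (c0 (L x)) =
          B (par (c1 (L y))) (z (R y)) (c0 (L y)) := e (Sum.inl 4) (by simp)
      have p0 := AB1 _ _ _ _ _ _ E0 E1
      have p0' := AB1 _ _ _ _ _ _ E3 E4
      have p1 : par (c1 (L x)) = par (c1 (L y)) := by
        have := congrArg par E2
        simp only [map_add, p0] at this
        simpa using this
      have pr := sum_one (fun j => par (r j (R x))) (fun j => par (r j (R y))) j0
        (fun j hj => by
          have := congrArg par (ef j hj)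
          rw [hfd, hfd, map_add, map_add, hdp j _ _ _ _ p1 p0'] at this
          simpa using this)
        (by rw [← map_sum, ← map_sum, hr, hr])
      have p2 : par (q (R x)) = par (q (R y)) := pr (Sum.inl 0)
      rw [p2] at E1
      rw [p1] at E4
      obtain ⟨a2, a3⟩ := AB2 _ _ _ _ _ E0 E1
      obtain ⟨a4, a0⟩ := AB2 _ _ _ _ _ E3 E4
      have a1 : c1 (L x) = c1 (L y) := by rw [a3] at E2; simpa using E2
      refine fin x y a0 a1 a2 a3 a4 (sum_one (fun j => r j (R x)) (fun j => r j (R y)) j0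
        (fun j hj => ?_) (by rw [hr, hr]))
      have := ef j hj
      rw [hfd, hfd, a0, a1] at this
      simpa using this

theorem six (m : ℕ) (hm : 5 ≤ m) : KK (Fin 6) m := by
  by_cases h : m % 2 = 1
  · have := k_odd ((m - 5) / 2)
    rwa [show 2 * ((m - 5) / 2) + 3 + 2 = m by omega] at this
  · have := k_even ((m - 6) / 2)
    rwa [show 3 + (2 * ((m - 6) / 2) + 3) = m by omega] at this

end Pool.Agent.H9.LatC
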