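import Mathlib

set_option autoImplicit false

open Finset

namespace Pool.Agent.H9.NearInt

section Abstract

variable {E : Type*} [NormedAddCommGroup E] [InnerProductSpace ℝ E]

noncomputable def tau (w : E) : ℝ := ⌈‖w‖ - 1 / 2⌉ + 1 / 2

lemma le_tau (w : E) : ‖w‖ ≤ tau w := by
  have := Int.le_ceil (‖w‖ - 1 / 2); unfold tau; linarith

lemma tau_le (w : E) : tau w ≤ ‖w‖ + 1 := by
  have := Int.ceil_lt_add_one (‖w‖ - 1 / 2); unfold tau; linarith

lemma tau_half (w : E) (m : ℤ) : 1 / 2 ≤ |tau w - m| := by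
  unfold tau
  rcases le_or_gt m ⌈‖w‖ - 1 / 2⌉ with h | h
  · have : (m : ℝ) ≤ ⌈‖w‖ - 1 / 2⌉ := by exact_mod_cast h
    exact le_abs.2 (Or.inl (by linarith))
  · have : (⌈‖w‖ - 1 / 2⌉ : ℝ) + 1 ≤ m := by exact_mod_cast h
    exact le_abs.2 (Or.inr (by linarith))

theorem exists_norm (V : Set E) (h1 : ∀ w ∈ V, 1 ≤ ‖w‖)
    (h2 : ∀ v ∈ V, ∀ w ∈ V, v ≠ w → v ≠ -w → |inner ℝ v w| * (‖w‖ + 1) ≤ ‖v‖ * ‖w‖ ^ 2) :
    ∃ N : E → ℝ, (∀ x, ‖x‖ ≤ N x) ∧ (∀ x, N x ≤ 2 * ‖x‖) ∧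
      (∀ (c : ℝ) x, N (c • x) = |c| * N x) ∧ (∀ x y, N (x + y) ≤ N x + N y) ∧
      ∀ v ∈ V, N v = tau v := by
  let f : Option V → E → ℝ := fun o x =>
    match o with
    | none => ‖x‖
    | some w => tau w.1 / ‖w.1‖ ^ 2 * |inner ℝ x w.1|
  have hc : ∀ w : V, 0 ≤ tau w.1 / ‖w.1‖ ^ 2 := fun w =>
    div_nonneg ((norm_nonneg w.1).trans (le_tau w.1)) (sq_nonneg _)
  have hb : ∀ o x, f o x ≤ 2 * ‖x‖ := by
    intro o x
    rcases o with _ | w
    · simp only [f]; linarith [norm_nonneg x]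
    · simp only [f]
      have a := h1 w.1 w.2
      have b := abs_real_inner_le_norm x w.1
      have c := tau_le w.1
      have d : tau w.1 / ‖w.1‖ ^ 2 * (‖x‖ * ‖w.1‖) ≤ 2 * ‖x‖ := by
        rw [div_mul_eq_mul_div, div_le_iff₀ (by positivity)]
        have : tau w.1 ≤ 2 * ‖w.1‖ := by linarith
        have := mul_le_mul_of_nonneg_right this (mul_nonneg (norm_nonneg x) (norm_nonneg w.1))
        nlinarith
      exact (mul_le_mul_of_nonneg_left b (hc w)).trans d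
  have hbdd : ∀ x, BddAbove (Set.range fun o => f o x) := fun x =>
    ⟨2 * ‖x‖, by rintro _ ⟨o, rfl⟩; exact hb o x⟩
  refine ⟨fun x => ⨆ o, f o x, fun x => le_ciSup (hbdd x) none, fun x => ciSup_le (hb · x),
    ?_, ?_, ?_⟩
  · intro c x
    rw [Real.mul_iSup_of_nonneg (abs_nonneg c)]
    refine iSup_congr fun o => ?_
    rcases o with _ | w
    · simp [f, norm_smul]
    · simp only [f, inner_smul_left, abs_mul, conj_trivial]; ring
  · intro x y
    refine ciSup_le fun o => ?_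
    refine le_trans ?_ (add_le_add (le_ciSup (hbdd x) o) (le_ciSup (hbdd y) o))
    rcases o with _ | w
    · exact norm_add_le x y
    · simp only [f, inner_add_left]
      rw [← mul_add]
      exact mul_le_mul_of_nonneg_left (abs_add_le _ _) (hc w)
  · intro v hv
    have a := h1 v hv
    have self : tau v / ‖v‖ ^ 2 * |inner ℝ v v| = tau v := by
      rw [real_inner_self_eq_norm_sq, abs_of_nonneg (sq_nonneg _)]
      field_simp
    apply le_antisymm
    · refine ciSup_le fun o => ?_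
      rcases o with _ | w
      · exact le_tau v
      · simp only [f]
        by_cases e1 : v = w.1
        · rw [← e1, self]
        by_cases e2 : v = -w.1
        · have : w.1 = -v := by rw [e2, neg_neg]
          rw [this]
          simp only [tau, norm_neg, inner_neg_right, abs_neg] at self ⊢
          rw [self]
        have b := h2 v hv w.1 w.2 e1 e2
        have c := h1 w.1 w.2
        refine le_trans ?_ (le_tau v)
        rw [div_mul_eq_mul_div, div_le_iff₀ (by positivity)]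
        have := mul_le_mul_of_nonneg_right (tau_le w.1) (abs_nonneg (inner ℝ v w.1))
        linarith
    · rw [← self]
      exact le_ciSup (f := fun o => f o v) (hbdd v) (some ⟨v, hv⟩)

lemma angle (v w : E) (S : ℝ) (hS : 0 < S)
    (h : S * (inner ℝ v w) ^ 2 ≤ (S - 1) * (‖v‖ ^ 2 * ‖w‖ ^ 2)) (hw : 2 * S ≤ ‖w‖) :
    |inner ℝ v w| * (‖w‖ + 1) ≤ ‖v‖ * ‖w‖ ^ 2 := by
  have hw0 : 0 < ‖w‖ := by linarith
  have h1 : |inner ℝ v w| ≤ (1 - 1 / (2 * S)) * (‖v‖ * ‖w‖) := by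
    by_cases hv : ‖v‖ = 0
    · have := abs_real_inner_le_norm v w
      rw [hv] at this ⊢; simpa using this
    have hS1 : 1 ≤ S := by
      by_contra hh
      push Not at hh
      have : 0 < ‖v‖ ^ 2 * ‖w‖ ^ 2 := by positivity
      nlinarith [mul_nonneg hS.le (sq_nonneg (inner ℝ v w))]
    have hp : 0 ≤ 1 - 1 / (2 * S) := by
      rw [sub_nonneg, div_le_one (by positivity)]; linarith
    apply abs_le_of_sq_le_sq' _ (by positivity) |> fun h => abs_le.2 h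
    have e : (1 - 1 / (2 * S)) ^ 2 = (S - 1) / S + 1 / (4 * S ^ 2) := by field_simp; ring
    rw [mul_pow, e, mul_pow]
    have h3 : (inner ℝ v w) ^ 2 ≤ (S - 1) / S * (‖v‖ ^ 2 * ‖w‖ ^ 2) := by
      rw [div_mul_eq_mul_div, le_div_iff₀ hS]; linarith
    have : 0 ≤ 1 / (4 * S ^ 2) * (‖v‖ ^ 2 * ‖w‖ ^ 2) := by positivity
    nlinarith
  have h2 : (1 - 1 / (2 * S)) * (‖w‖ + 1) ≤ ‖w‖ := by
    have : 1 ≤ 1 / (2 * S) * ‖w‖ := by
      rw [div_mul_eq_mul_div, le_div_iff₀ (by positivity)]; linarith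
    have : 0 ≤ 1 / (2 * S) := by positivity
    nlinarith
  calc |inner ℝ v w| * (‖w‖ + 1) ≤ (1 - 1 / (2 * S)) * (‖v‖ * ‖w‖) * (‖w‖ + 1) := by gcongr
    _ = (‖v‖ * ‖w‖) * ((1 - 1 / (2 * S)) * (‖w‖ + 1)) := by ring
    _ ≤ (‖v‖ * ‖w‖) * ‖w‖ := by gcongr
    _ = _ := by ring

lemma bdd [ProperSpace E] (N : E → ℝ) (n1 : ∀ x, ‖x‖ ≤ N x) (n2 : ∀ x, N x ≤ 2 * ‖x‖)
    (X δ : ℝ) (hδ : 0 < δ) : ∃ M : ℕ, ∀ (n : ℕ) (c : E) (p : Fin n → E),
      (∀ i, N (p i - c) ≤ X) →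
      (∀ i j, i ≠ j → δ ≤ |N (p i - p j) - round (N (p i - p j))|) → n ≤ M := by
  obtain ⟨t, -, tf, ht⟩ := finite_cover_balls_of_compact (isCompact_closedBall (0 : E) X)
    (e := δ / 4) (by positivity)
  refine ⟨tf.toFinset.card, fun n c p h1 h2 => ?_⟩
  have : ∀ i, ∃ y ∈ tf.toFinset, p i - c ∈ Metric.ball y (δ / 4) := by
    intro i
    have := ht (show p i - c ∈ Metric.closedBall (0 : E) X from
      mem_closedBall_zero_iff.2 ((n1 _).trans (h1 i)))
    simpa using this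
  choose y hy hy2 using this
  have := card_le_card_of_injOn (s := (univ : Finset (Fin n))) (t := tf.toFinset) y
    (fun i _ => hy i) (by
      intro i _ j _ h
      by_contra hij
      have a := h2 i j hij
      have b := round_le (N (p i - p j)) 0
      have c1 := n1 (p i - p j)
      have c2 := n2 (p i - p j)
      have c3 := norm_nonneg (p i - p j)
      rw [Int.cast_zero, sub_zero, abs_of_nonneg (show 0 ≤ N (p i - p j) by linarith)] at b
      have d1 := hy2 i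
      have d2 := hy2 j
      rw [← h] at d2
      have d3 := dist_triangle_right (p i - c) (p j - c) (y i)
      rw [Metric.mem_ball] at d1 d2
      rw [dist_eq_norm, sub_sub_sub_cancel_right] at d3
      linarith)
  simpa using this

end Abstract

variable {r : ℕ}

abbrev I (r : ℕ) := Fin r × Fin 3

def g (t : Fin r → ℕ) (x : I r) : ℤ := (t x.1 : ℤ) ^ (x.2.val + 1)

def dot (a b : I r → ℤ) : ℤ := ∑ x, a x * b x

lemma lagrange (a b : I r → ℤ) :
    ∑ x, ∑ y, (a x * b y - a y * b x) ^ 2 = 2 * (dot a a * dot b b - dot a b ^ 2) := by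
  simp only [dot, sq, sum_mul_sum]
  have e1 : ∑ x, ∑ y, a y * a y * (b x * b x) = ∑ x, ∑ y, a x * a x * (b y * b y) := sum_comm
  have : ∀ x y, (a x * b y - a y * b x) * (a x * b y - a y * b x) =
      a x * a x * (b y * b y) + a y * a y * (b x * b x) - 2 * (a x * b x * (a y * b y)) := by
    intro x y; ring
  have e2 : ∑ x, ∑ y, 2 * (a x * b x * (a y * b y)) = 2 * ∑ x, ∑ y, a x * b x * (a y * b y) := by
    simp only [mul_sum]
  simp only [this, sum_sub_distrib, sum_add_distrib, e1, e2]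
  ring

lemma cs (a b : I r → ℤ) : dot a b ^ 2 ≤ dot a a * dot b b := by
  have := lagrange a b
  have h : 0 ≤ ∑ x, ∑ y, (a x * b y - a y * b x) ^ 2 := by positivity
  linarith

lemma cs_strict (a b : I r → ℤ) (h : ∃ x y, a x * b y ≠ a y * b x) :
    dot a b ^ 2 + 1 ≤ dot a a * dot b b := by
  obtain ⟨x, y, h⟩ := h
  have := lagrange a b
  have h1 : 0 < (a x * b y - a y * b x) ^ 2 := by
    have : a x * b y - a y * b x ≠ 0 := sub_ne_zero.2 h
    positivity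
  have h2 : (a x * b y - a y * b x) ^ 2 ≤ ∑ y, (a x * b y - a y * b x) ^ 2 :=
    single_le_sum (f := fun y => (a x * b y - a y * b x) ^ 2) (fun _ _ => sq_nonneg _) (mem_univ y)
  have h3 : ∑ y, (a x * b y - a y * b x) ^ 2 ≤ ∑ x, ∑ y, (a x * b y - a y * b x) ^ 2 :=
    single_le_sum (f := fun x => ∑ y, (a x * b y - a y * b x) ^ 2)
      (fun _ _ => by positivity) (mem_univ x)
  omega

lemma parallel (s t s' t' : Fin r → ℕ) (h : s ≠ t) (h' : s' ≠ t')
    (hp : ∀ x y, (g s - g t) x * (g s' - g t') y = (g s - g t) y * (g s' - g t') x) :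
    g s - g t = g s' - g t' ∨ g s - g t = -(g s' - g t') := by
  obtain ⟨i, hi⟩ := Function.ne_iff.1 h
  obtain ⟨j, hj⟩ := Function.ne_iff.1 h'
  have hu : (s i : ℤ) - t i ≠ 0 := by omega
  have hu' : (s' i : ℤ) - t' i ≠ 0 := by
    intro h0
    have := hp (i, 0) (j, 0)
    simp only [g, Pi.sub_apply, Fin.val_zero, zero_add, pow_one] at this
    rw [h0, mul_zero] at this
    rcases mul_eq_zero.1 this with h | h
    · exact hu h
    · omega
  have e1 := hp (i, 0) (i, 1)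
  have e2 := hp (i, 0) (i, 2)
  simp only [g, Pi.sub_apply, Fin.val_zero, zero_add, pow_one, Fin.val_one, Fin.val_two] at e1 e2
  have f1 : (s' i : ℤ) + t' i = s i + t i := by
    have : ((s i : ℤ) - t i) * ((s' i : ℤ) - t' i) * ((s' i + t' i) - (s i + t i)) = 0 := by
      linear_combination e1
    rcases mul_eq_zero.1 this with h | h
    · exact absurd h (mul_ne_zero hu hu')
    · omega
  have f2 : ((s' i : ℤ) - t' i) ^ 2 = ((s i : ℤ) - t i) ^ 2 := by
    have : ((s i : ℤ) - t i) * ((s' i : ℤ) - t' i) *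
        (((s' i : ℤ) - t' i) ^ 2 + 3 * (s' i + t' i) ^ 2 -
          (((s i : ℤ) - t i) ^ 2 + 3 * (s i + t i) ^ 2)) = 0 := by
      linear_combination 4 * e2
    rcases mul_eq_zero.1 this with h | h
    · exact absurd h (mul_ne_zero hu hu')
    · rw [f1] at h; linarith
  rcases sq_eq_sq_iff_eq_or_eq_neg.1 f2 with f | f
  · left
    ext x
    have := hp (i, 0) x
    simp only [g, Pi.sub_apply, Fin.val_zero, zero_add, pow_one] at this ⊢
    rw [f] at this
    apply mul_left_cancel₀ hu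
    linear_combination -this
  · right
    ext x
    have := hp (i, 0) x
    simp only [g, Pi.sub_apply, Pi.neg_apply, Fin.val_zero, zero_add, pow_one] at this ⊢
    rw [f] at this
    apply mul_left_cancel₀ hu
    linear_combination this

lemma dot_pos (s t : Fin r → ℕ) (h : s ≠ t) : 1 ≤ dot (g s - g t) (g s - g t) := by
  obtain ⟨i, hi⟩ := Function.ne_iff.1 h
  have h1 : 0 < (g s - g t) (i, 0) * (g s - g t) (i, 0) := by
    apply mul_self_pos.2
    simp only [g, Pi.sub_apply, Fin.val_zero, zero_add, pow_one]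
    omega
  have h2 := single_le_sum (f := fun x => (g s - g t) x * (g s - g t) x)
    (fun _ _ => mul_self_nonneg _) (mem_univ (i, (0 : Fin 3)))
  unfold dot
  omega

lemma g_bound (K : ℕ) (t : Fin r → ℕ) (ht : ∀ i, t i < K) (x : I r) :
    0 ≤ g t x ∧ g t x ≤ (K : ℤ) ^ 3 := by
  have h1 : (t x.1 : ℤ) ≤ K := by exact_mod_cast (ht x.1).le
  have h2 : (1 : ℤ) ≤ K := by have := ht x.1; omega
  refine ⟨by unfold g; positivity, ?_⟩
  calc g t x ≤ (K : ℤ) ^ (x.2.val + 1) := by unfold g; gcongr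
    _ ≤ (K : ℤ) ^ 3 := pow_le_pow_right₀ h2 (by omega)

lemma dot_le (K : ℕ) (a : I r → ℤ) (h : ∀ x, |a x| ≤ (K : ℤ) ^ 3) :
    dot a a ≤ 3 * r * (K : ℤ) ^ 6 := by
  have : ∀ x ∈ (univ : Finset (I r)), a x * a x ≤ (K : ℤ) ^ 6 := by
    intro x _
    have := abs_mul_abs_self (a x)
    have h2 := mul_self_le_mul_self (abs_nonneg _) (h x)
    nlinarith
  have := sum_le_card_nsmul _ _ _ this
  simp only [card_univ, Fintype.card_prod, Fintype.card_fin, nsmul_eq_mul] at this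
  unfold dot
  push_cast at this
  linarith

abbrev EE (r : ℕ) := EuclideanSpace ℝ (I r × Fin 2)

noncomputable def LL (r K : ℕ) : ℝ := 2 * (16 * (3 * r) ^ 2 * (K : ℝ) ^ 12)

noncomputable def lift (K : ℕ) (a : I r → ℤ) : EE r :=
  WithLp.toLp 2 fun z => LL r K * (a z.1 : ℝ) * (if z.2 = 0 then (K : ℝ) else 1)

lemma lift_sub (K : ℕ) (a b : I r → ℤ) : lift K a - lift K b = lift K (a - b) := by
  ext z; simp only [lift, PiLp.sub_apply, Pi.sub_apply]; push_cast; ring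

lemma lift_neg (K : ℕ) (a : I r → ℤ) : lift K (-a) = -lift K a := by
  ext z; simp only [lift, PiLp.neg_apply, Pi.neg_apply]; push_cast; ring

lemma inner_lift (J K : ℕ) (a b : I r → ℤ) :
    inner ℝ (lift J a) (lift K b) = LL r J * LL r K * (dot a b : ℝ) * (J * K + 1) := by
  simp only [lift, PiLp.inner_apply, dot, Fintype.sum_prod_type (α₁ := I r), Fin.sum_univ_two]
  push_cast
  rw [mul_sum, sum_mul]
  refine sum_congr rfl fun x _ => ?_
  simp
  ring

lemma norm_lift (K : ℕ) (a : I r → ℤ) :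
    ‖lift K a‖ ^ 2 = LL r K ^ 2 * (dot a a : ℝ) * (K ^ 2 + 1) := by
  rw [← real_inner_self_eq_norm_sq, inner_lift]; ring

def VV (r : ℕ) : Set (EE r) :=
  {v | ∃ K : ℕ, ∃ s t : Fin r → ℕ, (∀ i, s i < K) ∧ (∀ i, t i < K) ∧ s ≠ t ∧
    v = lift K (g s - g t)}

lemma diff_bound (K : ℕ) (s t : Fin r → ℕ) (hs : ∀ i, s i < K) (ht : ∀ i, t i < K) :
    dot (g s - g t) (g s - g t) ≤ 3 * r * (K : ℤ) ^ 6 := by
  refine dot_le K _ fun x => ?_
  have := g_bound K s hs x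
  have := g_bound K t ht x
  rw [Pi.sub_apply, abs_le]; constructor <;> linarith

lemma LL_le (K : ℕ) (s t : Fin r → ℕ) (h : s ≠ t) : LL r K ≤ ‖lift K (g s - g t)‖ := by
  have h0 : 0 ≤ LL r K := by unfold LL; positivity
  apply le_of_sq_le_sq' _ (norm_nonneg _)
  rw [norm_lift]
  have : (1 : ℝ) ≤ dot (g s - g t) (g s - g t) := by exact_mod_cast dot_pos s t h
  have h2 : (1 : ℝ) ≤ (dot (g s - g t) (g s - g t) : ℝ) * (K ^ 2 + 1) := by
    nlinarith [sq_nonneg (K : ℝ)]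
  nlinarith [sq_nonneg (LL r K)]
where le_of_sq_le_sq' {a b : ℝ} (h : a ^ 2 ≤ b ^ 2) (hb : 0 ≤ b) : a ≤ b :=
  (abs_le_of_sq_le_sq' h hb).2

lemma pos_of (K : ℕ) (s t : Fin r → ℕ) (hs : ∀ i, s i < K) (h : s ≠ t) :
    (1 : ℝ) ≤ r ∧ (1 : ℝ) ≤ K := by
  obtain ⟨i, -⟩ := Function.ne_iff.1 h
  have := i.2
  have := hs i
  constructor
  · exact_mod_cast (by omega : 1 ≤ r)
  · exact_mod_cast (by omega : 1 ≤ K)

lemma VV_one (w : EE r) (hw : w ∈ VV r) : 1 ≤ ‖w‖ := by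
  obtain ⟨K, s, t, hs, ht, hst, rfl⟩ := hw
  refine le_trans ?_ (LL_le K s t hst)
  obtain ⟨h1, h2⟩ := pos_of K s t hs hst
  unfold LL
  have : (1 : ℝ) ≤ (K : ℝ) ^ 12 := one_le_pow₀ h2
  have : (1 : ℝ) ≤ (3 * r) ^ 2 := one_le_pow₀ (by linarith)
  nlinarith

lemma VV_angle (v : EE r) (hv : v ∈ VV r) (w : EE r) (hw : w ∈ VV r) (e1 : v ≠ w) (e2 : v ≠ -w) :
    |inner ℝ v w| * (‖w‖ + 1) ≤ ‖v‖ * ‖w‖ ^ 2 := by
  obtain ⟨J, s, t, hs, ht, hst, rfl⟩ := hv
  obtain ⟨K, s', t', hs', ht', hst', rfl⟩ := hw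
  obtain ⟨r1, J1⟩ := pos_of J s t hs hst
  obtain ⟨-, K1⟩ := pos_of K s' t' hs' hst'
  set S : ℝ := 16 * (3 * r) ^ 2 * (K : ℝ) ^ 12 with hS
  have hr2 : (1 : ℝ) ≤ (3 * r) ^ 2 := one_le_pow₀ (by linarith)
  have hK12 : (1 : ℝ) ≤ (K : ℝ) ^ 12 := one_le_pow₀ K1
  refine angle _ _ S (by positivity) ?_ (LL_le K s' t' hst')
  rw [inner_lift, norm_lift, norm_lift]
  set a := g s - g t
  set b := g s' - g t'
  have key : S * ((dot a b : ℝ) * (J * K + 1)) ^ 2 ≤
      (S - 1) * ((dot a a : ℝ) * (J ^ 2 + 1) * ((dot b b : ℝ) * (K ^ 2 + 1))) := by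
    have a1 : (1 : ℝ) ≤ dot a a := by exact_mod_cast dot_pos s t hst
    have b1 : (1 : ℝ) ≤ dot b b := by exact_mod_cast dot_pos s' t' hst'
    by_cases hJK : J = K
    · subst hJK
      have h1 : dot a b ^ 2 + 1 ≤ dot a a * dot b b := by
        apply cs_strict
        by_contra hh
        push Not at hh
        rcases parallel s t s' t' hst hst' hh with h | h
        · exact e1 (by rw [show a = b from h])
        · exact e2 (by rw [show a = -b from h, lift_neg])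
      have h1' : (dot a b : ℝ) ^ 2 + 1 ≤ dot a a * dot b b := by exact_mod_cast h1
      have a2 : (dot a a : ℝ) ≤ 3 * r * (J : ℝ) ^ 6 := by exact_mod_cast diff_bound J s t hs ht
      have b2 : (dot b b : ℝ) ≤ 3 * r * (J : ℝ) ^ 6 := by
        exact_mod_cast diff_bound J s' t' hs' ht'
      have h3 : (dot a a : ℝ) * dot b b ≤ S := by
        have : (dot a a : ℝ) * dot b b ≤ (3 * r * (J : ℝ) ^ 6) * (3 * r * (J : ℝ) ^ 6) := by
          gcongr
        have h4 : 0 ≤ (3 * (r : ℝ)) ^ 2 * (J : ℝ) ^ 12 := by positivity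
        rw [hS]; nlinarith
      have h5 : S * (dot a b : ℝ) ^ 2 ≤ (S - 1) * (dot a a * dot b b) := by
        have : 0 ≤ S := by positivity
        nlinarith
      have h6 := mul_le_mul_of_nonneg_right h5 (sq_nonneg ((J : ℝ) ^ 2 + 1))
      calc _ = S * (dot a b : ℝ) ^ 2 * ((J : ℝ) ^ 2 + 1) ^ 2 := by ring
        _ ≤ _ := h6
        _ = _ := by ring
    · have h1 : (dot a b : ℝ) ^ 2 ≤ dot a a * dot b b := by exact_mod_cast cs a b
      have h2 : ((J : ℝ) ^ 2 + 1) ≤ 8 * K ^ 2 * ((J : ℝ) - K) ^ 2 := by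
        have h3 : (1 : ℝ) ≤ ((J : ℝ) - K) ^ 2 := by
          have : (J : ℤ) - K ≠ 0 := by omega
          have h4 : (1 : ℤ) ≤ ((J : ℤ) - K) ^ 2 := by
            have := Int.one_le_abs this; nlinarith [sq_abs ((J : ℤ) - K)]
          exact_mod_cast h4
        have hK2 : (1 : ℝ) ≤ (K : ℝ) ^ 2 := one_le_pow₀ K1
        by_cases h5 : (J : ℝ) ≤ 2 * K
        · nlinarith
        · push Not at h5
          have : (J : ℝ) ^ 2 ≤ 4 * ((J : ℝ) - K) ^ 2 := by nlinarith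
          nlinarith
      have h3 : ((J : ℝ) ^ 2 + 1) * (K ^ 2 + 1) ≤ S * ((J : ℝ) - K) ^ 2 := by
        have hK2 : (1 : ℝ) ≤ (K : ℝ) ^ 2 := one_le_pow₀ K1
        have h4 : (K : ℝ) ^ 4 ≤ (K : ℝ) ^ 12 := pow_le_pow_right₀ K1 (by norm_num)
        have h5 : 16 * (K : ℝ) ^ 4 ≤ S := by rw [hS]; nlinarith
        calc ((J : ℝ) ^ 2 + 1) * (K ^ 2 + 1) ≤ (8 * K ^ 2 * ((J : ℝ) - K) ^ 2) * (2 * K ^ 2) := by
              gcongr; linarith
          _ = 16 * (K : ℝ) ^ 4 * ((J : ℝ) - K) ^ 2 := by ring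
          _ ≤ _ := by gcongr
      have h4 : S * ((J : ℝ) * K + 1) ^ 2 ≤ (S - 1) * (((J : ℝ) ^ 2 + 1) * (K ^ 2 + 1)) := by
        nlinarith
      have hS0 : 0 ≤ S := by positivity
      calc _ = (dot a b : ℝ) ^ 2 * (S * ((J : ℝ) * K + 1) ^ 2) := by ring
        _ ≤ (dot a a * dot b b) * (S * ((J : ℝ) * K + 1) ^ 2) := by gcongr
        _ ≤ (dot a a * dot b b) * ((S - 1) * (((J : ℝ) ^ 2 + 1) * (K ^ 2 + 1))) := by gcongr
        _ = _ := by ring
  have h6 := mul_le_mul_of_nonneg_right key (sq_nonneg (LL r J * LL r K))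
  calc _ = S * ((dot a b : ℝ) * (J * K + 1)) ^ 2 * (LL r J * LL r K) ^ 2 := by ring
    _ ≤ _ := h6
    _ = _ := by ring

lemma lift_le (K : ℕ) (t : Fin r → ℕ) (ht : ∀ i, t i < K) (hr : 1 ≤ r) :
    2 * ‖lift K (g t)‖ ≤ 128 * (3 * r) ^ 3 * (K : ℝ) ^ 16 := by
  have hK : (1 : ℝ) ≤ K := by
    have := ht ⟨0, hr⟩
    exact_mod_cast (by omega : 1 ≤ K)
  have r1 : (1 : ℝ) ≤ r := by exact_mod_cast hr
  have h1 : (dot (g t) (g t) : ℝ) ≤ 3 * r * (K : ℝ) ^ 6 := by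
    have := dot_le K (g t) (fun x => by
      have := g_bound K t ht x
      rw [abs_of_nonneg this.1]; exact this.2)
    exact_mod_cast this
  have h0 : 0 ≤ LL r K := by unfold LL; positivity
  have h2 : ‖lift K (g t)‖ ≤ LL r K * (2 * (3 * r) * (K : ℝ) ^ 4) := by
    refine (abs_le_of_sq_le_sq' ?_ (by positivity)).2
    rw [norm_lift, mul_pow, mul_assoc]
    gcongr
    have hK2 : (1 : ℝ) ≤ (K : ℝ) ^ 2 := one_le_pow₀ hK
    calc (dot (g t) (g t) : ℝ) * (K ^ 2 + 1) ≤ (3 * r * (K : ℝ) ^ 6) * (2 * K ^ 2) := by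
          gcongr; linarith
      _ = (2 * (3 * r)) * (K : ℝ) ^ 8 := by ring
      _ ≤ (2 * (3 * r)) ^ 2 * (K : ℝ) ^ 8 := by
          gcongr; nlinarith
      _ = _ := by ring
  unfold LL at h2
  nlinarith

theorem main (A : ℕ) : ∃ d : ℕ, 1 ≤ d ∧ ∃ N : (Fin d → ℝ) → ℝ,
    (∀ x, N x = 0 → x = 0) ∧ (∀ (c : ℝ) x, N (c • x) = |c| * N x) ∧
    (∀ x y, N (x + y) ≤ N x + N y) ∧
    (∀ X δ : ℝ, 0 < δ → ∃ M : ℕ, ∀ (n : ℕ) (c : Fin d → ℝ) (p : Fin n → Fin d → ℝ),
      (∀ i, N (p i - c) ≤ X) →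
      (∀ i j, i ≠ j → δ ≤ |N (p i - p j) - round (N (p i - p j))|) → n ≤ M) ∧
    ∃ X₀ : ℝ, ∀ X ≥ X₀, ∃ P : Finset (Fin d → ℝ), (∀ p ∈ P, N p ≤ X) ∧
      (∀ p ∈ P, ∀ q ∈ P, p ≠ q → ∀ m : ℤ, 1 / 2 ≤ |N (p - q) - m|) ∧ X ^ A ≤ P.card := by
  classical
  set r := 16 * A + 1 with hr
  obtain ⟨N, n1, n2, n3, n4, n5⟩ := exists_norm (VV r) VV_one VV_angle
  let e := Fintype.equivFin (I r × Fin 2)
  let φ : (Fin (Fintype.card (I r × Fin 2)) → ℝ) ≃ₗ[ℝ] EE r :=
    (LinearEquiv.funCongrLeft ℝ ℝ e).trans (WithLp.linearEquiv 2 ℝ _).symm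
  refine ⟨Fintype.card (I r × Fin 2), by simp; omega, fun x => N (φ x), ?_, ?_, ?_, ?_, ?_⟩
  · intro x hx
    have := n1 (φ x)
    rw [show N (φ x) = 0 from hx] at this
    have h2 : φ x = 0 := norm_le_zero_iff.1 this
    exact φ.map_eq_zero_iff.1 h2
  · intro c x; simp only [map_smul, n3]
  · intro x y; simp only [map_add, n4]
  · intro X δ hδ
    obtain ⟨M, hM⟩ := bdd N n1 n2 X δ hδ
    refine ⟨M, fun n c p h1 h2 => hM n (φ c) (fun i => φ (p i)) ?_ ?_⟩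
    · simpa only [map_sub] using h1
    · simpa only [map_sub] using h2
  set c : ℝ := 128 * (3 * r) ^ 3 with hc
  have r1 : (1 : ℝ) ≤ r := by exact_mod_cast (by omega : 1 ≤ r)
  have c1 : 1 ≤ c := by
    have : (1 : ℝ) ≤ (3 * r) ^ 3 := one_le_pow₀ (by linarith)
    linarith
  obtain ⟨K0, hK0⟩ := exists_nat_ge ((c * 2 ^ 16) ^ A)
  have K01 : (1 : ℝ) ≤ K0 := le_trans (one_le_pow₀ (by linarith)) hK0
  refine ⟨c * (K0 : ℝ) ^ 16, fun X hX => ?_⟩
  have hex : ∃ n : ℕ, X < c * ((n : ℝ) + 1) ^ 16 := by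
    obtain ⟨n, hn⟩ := exists_nat_ge X
    refine ⟨n, ?_⟩
    have h1 : (n : ℝ) + 1 ≤ ((n : ℝ) + 1) ^ 16 :=
      le_self_pow₀ (by linarith [(Nat.cast_nonneg n : (0 : ℝ) ≤ n)]) (by norm_num)
    have : 0 ≤ ((n : ℝ) + 1) ^ 16 := by positivity
    nlinarith
  set K := Nat.find hex with hK
  have h1 : X < c * ((K : ℝ) + 1) ^ 16 := Nat.find_spec hex
  have h2 : K0 ≤ K := by
    by_contra hh
    push Not at hh
    have : ((K : ℝ) + 1) ≤ K0 := by exact_mod_cast hh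
    have : c * ((K : ℝ) + 1) ^ 16 ≤ c * (K0 : ℝ) ^ 16 := by gcongr
    linarith
  have h2' : (K0 : ℝ) ≤ K := by exact_mod_cast h2
  have K1 : (1 : ℝ) ≤ K := K01.trans h2'
  have K1' : 1 ≤ K := by exact_mod_cast K1
  have h3 : c * (K : ℝ) ^ 16 ≤ X := by
    have := Nat.find_min hex (m := K - 1) (by omega)
    push Not at this
    rw [Nat.cast_sub K1'] at this
    simpa using this
  let F : (Fin r → Fin K) → EE r := fun t => lift K (g fun i => (t i).val)
  have hV : ∀ s t : Fin r → Fin K, s ≠ t → F s - F t ∈ VV r := by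
    intro s t hst
    refine ⟨K, fun i => (s i).val, fun i => (t i).val, fun i => (s i).2, fun i => (t i).2, ?_,
      lift_sub _ _ _⟩
    intro h
    exact hst (funext fun i => Fin.ext (congrFun h i))
  have hinj : Function.Injective fun t => φ.symm (F t) := by
    intro s t h
    by_contra hst
    have h4 : F s = F t := φ.symm.injective h
    have := VV_one _ (hV s t hst)
    rw [h4, sub_self, norm_zero] at this
    linarith
  refine ⟨univ.image fun t => φ.symm (F t), ?_, ?_, ?_⟩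
  · intro p hp
    obtain ⟨t, -, rfl⟩ := mem_image.1 hp
    simp only [LinearEquiv.apply_symm_apply]
    exact ((n2 _).trans (lift_le K _ (fun i => (t i).2) (by omega))).trans h3
  · intro p hp q hq hpq m
    obtain ⟨s, -, rfl⟩ := mem_image.1 hp
    obtain ⟨t, -, rfl⟩ := mem_image.1 hq
    simp only [map_sub, LinearEquiv.apply_symm_apply]
    rw [n5 _ (hV s t (fun h => hpq (by rw [h])))]
    exact tau_half _ m
  · rw [card_image_of_injective _ hinj]
    simp only [card_univ, Fintype.card_fun, Fintype.card_fin]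
    push_cast
    have X0 : 0 ≤ X := le_trans (by positivity) h3
    have h4 : X ≤ (c * 2 ^ 16) * (K : ℝ) ^ 16 := by
      have : ((K : ℝ) + 1) ^ 16 ≤ (2 * K) ^ 16 := by gcongr; linarith
      have : c * ((K : ℝ) + 1) ^ 16 ≤ c * (2 * K) ^ 16 := by gcongr
      rw [mul_pow] at this
      linarith
    calc X ^ A ≤ ((c * 2 ^ 16) * (K : ℝ) ^ 16) ^ A := by gcongr
      _ = (c * 2 ^ 16) ^ A * (K : ℝ) ^ (16 * A) := by rw [mul_pow, ← pow_mul]
      _ ≤ K * (K : ℝ) ^ (16 * A) := by gcongr; linarith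
      _ = _ := by rw [hr, pow_succ]; ring

theorem final (A : ℕ) : ∃ d : ℕ, 1 ≤ d ∧ ∃ N : (Fin d → ℝ) → ℝ,
    (∀ x, N x = 0 → x = 0) ∧ (∀ (c : ℝ) x, N (c • x) = |c| * N x) ∧
    (∀ x y, N (x + y) ≤ N x + N y) ∧
    ∀ δ : ℝ, 0 < δ → δ < 1 / 2 →
      Filter.Tendsto (fun X : ℝ => ((sSup {n : ℕ | ∃ (c : Fin d → ℝ) (p : Fin n → Fin d → ℝ),
        (∀ i, N (p i - c) ≤ X) ∧
        ∀ i j, i ≠ j → δ ≤ |N (p i - p j) - round (N (p i - p j))|} : ℕ) : ℝ) / X ^ A)
        Filter.atTop Filter.atTop := by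
  obtain ⟨d, hd, N, n1, n2, n3, n4, X₀, n5⟩ := main (A + 1)
  refine ⟨d, hd, N, n1, n2, n3, fun δ h0 h1 => ?_⟩
  refine Filter.tendsto_atTop_mono' _ ?_ Filter.tendsto_id
  filter_upwards [Filter.eventually_ge_atTop X₀, Filter.eventually_gt_atTop 0] with X hX hX0
  obtain ⟨P, p1, p2, p3⟩ := n5 X hX
  obtain ⟨M, hM⟩ := n4 X δ h0
  have hle : P.card ≤ sSup {n : ℕ | ∃ (c : Fin d → ℝ) (p : Fin n → Fin d → ℝ),
        (∀ i, N (p i - c) ≤ X) ∧
        ∀ i j, i ≠ j → δ ≤ |N (p i - p j) - round (N (p i - p j))|} := by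
    refine le_csSup ⟨M, ?_⟩ ?_
    · rintro n ⟨c, p, h2, h3⟩
      exact hM n c p h2 h3
    · refine ⟨0, fun i => (P.equivFin.symm i).1, fun i => ?_, fun i j hij => ?_⟩
      · rw [sub_zero]; exact p1 _ (P.equivFin.symm i).2
      · refine h1.le.trans (p2 _ (P.equivFin.symm i).2 _ (P.equivFin.symm j).2 ?_ _)
        intro h
        exact hij (P.equivFin.symm.injective (Subtype.ext h))
  rw [id, le_div_iff₀ (by positivity)]
  have : (P.card : ℝ) ≤ _ := Nat.cast_le.2 hle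
  rw [pow_succ] at p3
  linarith

end Pool.Agent.H9.NearInt
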