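import Mathlib

set_option autoImplicit false

open Finset Metric

namespace Pool.Agent.H9.Newton

abbrev E (n : ℕ) := EuclideanSpace ℝ (Fin n)

def Covers {n : ℕ} (C : Set (E n)) (m : ℕ) : Prop :=
  ∃ g : Fin m → (E n ≃ᵢ E n), ∃ ε : ℝ, 0 < ε ∧
    ∀ p ∈ C, ∀ v : E n, ‖v‖ ≤ ε → p + v ∈ ⋃ j, g j '' C

noncomputable def NStar {n : ℕ} (C : Set (E n)) : ℕ∞ := ⨅ m ∈ {m | Covers C m}, (m : ℕ∞)

noncomputable def apex (k : ℕ) (h : ℝ) : E (k + 1) :=
  WithLp.toLp 2 fun i => if i = Fin.last k then h else 1 / 2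

def base (k : ℕ) : Set (E (k + 1)) :=
  {x | x (Fin.last k) = 0 ∧ ∀ i, i ≠ Fin.last k → 0 ≤ x i ∧ x i ≤ 1}

def pyr (k : ℕ) (h : ℝ) : Set (E (k + 1)) := convexHull ℝ (insert (apex k h) (base k))

lemma rupert (m : ℕ) : ∃ u : ℕ → ℕ → ℝ,
    (∀ j ≤ m, ∀ j' ≤ m, ∑ i ∈ range (m + 1), u j i * u j' i = if j = j' then 1 else 0) ∧
    ∃ r < 1, ∀ i ≤ m, ∑ j ∈ range m, |u j i| ≤ r := by
  induction m with
  | zero => exact ⟨fun _ _ => 1, by simp, 0, by simp⟩
  | succ m ih =>
    obtain ⟨u, h1, r, hr, h2⟩ := ih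
    have r0 : 0 ≤ r := le_trans (sum_nonneg fun _ _ => abs_nonneg _) (h2 0 (by omega))
    set s := (1 - r) / 2 with hs
    have s0 : 0 < s := by linarith
    have s1 : s ^ 2 ≤ 1 := by nlinarith
    set c := √(1 - s ^ 2) with hc
    have cc : c * c = 1 - s ^ 2 := Real.mul_self_sqrt (by linarith)
    have c0 : 0 ≤ c := Real.sqrt_nonneg _
    have c1 : c < 1 := by nlinarith
    have b : ∀ i ≤ m, |u m i| ≤ 1 := by
      intro i hi
      have := h1 m le_rfl m le_rfl
      rw [if_pos rfl] at this
      have h3 : u m i * u m i ≤ 1 := this ▸ single_le_sum (f := fun i => u m i * u m i)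
        (fun _ _ => mul_self_nonneg _) (mem_range.2 (by omega))
      exact abs_le_one_iff_mul_self_le_one.2 h3
    let a : ℕ → ℝ := fun j => if j < m then 1 else if j = m then s else c
    let e : ℕ → ℝ := fun j => if j < m then 0 else if j = m then c else -s
    refine ⟨fun j i => if i ≤ m then a j * u (min j m) i else e j, fun j hj j' hj' => ?_,
      max (r + s) c, max_lt (by linarith) c1, fun i hi => ?_⟩
    · have nm : ¬ (m + 1 ≤ m) := by omega
      beta_reduce
      rw [sum_range_succ, if_neg nm, if_neg nm,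
        sum_congr rfl (g := fun i => a j * a j' * (u (min j m) i * u (min j' m) i)) (fun i hi => by
          rw [if_pos (by simpa [Nat.lt_succ_iff] using hi), if_pos (by simpa [Nat.lt_succ_iff] using hi)]
          ring), ← mul_sum, h1 _ (min_le_right _ _) _ (min_le_right _ _)]
      simp only [a, e]
      split_ifs <;> first | omega | linarith | nlinarith
    · by_cases him : i ≤ m
      · simp only [if_pos him]
        rw [sum_range_succ, sum_congr rfl (g := fun j => |u j i|) (fun j hj => by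
          have := mem_range.1 hj
          simp [a, this, min_eq_left this.le])]
        refine le_trans (add_le_add (h2 i him) ?_) (le_max_left _ _)
        simp only [a, lt_irrefl, if_false, if_true, min_self, abs_mul, abs_of_pos s0]
        nlinarith [b i him]
      · simp only [if_neg him]
        rw [sum_range_succ, sum_eq_zero (fun j hj => by simp [e, mem_range.1 hj])]
        simp [e, abs_of_nonneg c0]

lemma rot (k : ℕ) : ∃ (R : E (k + 1) ≃ₗᵢ[ℝ] E (k + 1)) (r : ℝ), r < 1 ∧ ∀ (x : E (k + 1)) (a b : ℝ),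
    0 ≤ a → (∀ i, i ≠ Fin.last k → |x i| ≤ a) → |x (Fin.last k)| ≤ b → ∀ i, |R x i| ≤ r * a + b := by
  obtain ⟨u, h1, r, hr, h2⟩ := rupert k
  let v : Fin (k + 1) → E (k + 1) := fun j => WithLp.toLp 2 fun i => u j i
  have hv : Orthonormal ℝ v := by
    rw [orthonormal_iff_ite]
    intro j j'
    have := h1 j' (Nat.lt_succ_iff.1 j'.2) j (Nat.lt_succ_iff.1 j.2)
    rw [← Fin.sum_univ_eq_sum_range (fun i => u j' i * u j i)] at this
    simp only [PiLp.inner_apply, v, RCLike.inner_apply, conj_trivial]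
    rw [this]
    simp only [Fin.val_inj, eq_comm]
  let B : OrthonormalBasis (Fin (k + 1)) ℝ (E (k + 1)) := OrthonormalBasis.mk hv
    (by
      have := (basisOfOrthonormalOfCardEqFinrank hv (by simp)).span_eq
      rw [coe_basisOfOrthonormalOfCardEqFinrank] at this
      exact this.ge)
  refine ⟨B.repr.symm, r, hr, fun x a b a0 ha hb i => ?_⟩
  have e : B.repr.symm x i = ∑ j, x j * u j i := by
    rw [← B.sum_repr_symm x]
    simp [B, v]
  rw [e, Fin.sum_univ_castSucc]
  have hi := Nat.lt_succ_iff.1 i.2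
  have b1 : |u k i| ≤ 1 := by
    have := h1 k le_rfl k le_rfl
    rw [if_pos rfl] at this
    have h3 : u k i * u k i ≤ 1 := this ▸ single_le_sum (f := fun i => u k i * u k i)
      (fun _ _ => mul_self_nonneg _) (mem_range.2 i.2)
    exact abs_le_one_iff_mul_self_le_one.2 h3
  refine (abs_add_le _ _).trans (add_le_add ((abs_sum_le_sum_abs _ _).trans ?_) ?_)
  · refine le_trans (sum_le_sum (g := fun j : Fin k => |u j i| * a) fun j _ => ?_) ?_
    · rw [abs_mul, mul_comm]
      exact mul_le_mul_of_nonneg_left (ha _ (Fin.castSucc_ne_last j)) (abs_nonneg _)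
    · rw [← sum_mul, Fin.sum_univ_eq_sum_range (fun j => |u j i|)]
      exact mul_le_mul_of_nonneg_right (h2 i hi) a0
  · rw [abs_mul]
    simp only [Fin.val_last]
    nlinarith [abs_nonneg (x (Fin.last k))]

lemma mem_pyr {k : ℕ} {h : ℝ} (h0 : 0 < h) {x : E (k + 1)} : x ∈ pyr k h ↔
    0 ≤ x (Fin.last k) ∧ x (Fin.last k) ≤ h ∧
      ∀ i, i ≠ Fin.last k → |x i - 1 / 2| ≤ (1 - x (Fin.last k) / h) / 2 := by
  constructor
  · intro hx
    refine convexHull_min (t := {x : E (k + 1) | 0 ≤ x (Fin.last k) ∧ x (Fin.last k) ≤ h ∧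
      ∀ i, i ≠ Fin.last k → |x i - 1 / 2| ≤ (1 - x (Fin.last k) / h) / 2}) ?_ ?_ hx
    · rintro y (rfl | ⟨a, b⟩)
      · refine ⟨by simp [apex, h0.le], by simp [apex], fun i hi => ?_⟩
        simp [apex, hi, h0.ne']
      · refine ⟨a.ge, by linarith, fun i hi => ?_⟩
        rw [a, zero_div]
        exact abs_le.2 ⟨by linarith [(b i hi).1], by linarith [(b i hi).2]⟩
    · rintro x ⟨a1, a2, a3⟩ y ⟨b1, b2, b3⟩ s t hs ht hst
      simp only [Set.mem_ofPred_eq, PiLp.add_apply, PiLp.smul_apply, smul_eq_mul]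
      refine ⟨by positivity, by nlinarith, fun i hi => ?_⟩
      have c := abs_le.1 (a3 i hi)
      have d := abs_le.1 (b3 i hi)
      rw [add_div, mul_div_assoc, mul_div_assoc]
      obtain rfl : t = 1 - s := by linarith
      exact abs_le.2 ⟨by nlinarith, by nlinarith⟩
  · rintro ⟨a1, a2, a3⟩
    set t := x (Fin.last k) / h with ht
    have t0 : 0 ≤ t := by positivity
    have t1 : t ≤ 1 := (div_le_one h0).2 a2
    have ap : apex k h ∈ pyr k h := subset_convexHull ℝ _ (Set.mem_insert _ _)
    rcases t1.eq_or_lt with e | e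
    · have : x = apex k h := by
        ext i
        by_cases hi : i = Fin.last k
        · simp only [apex, hi, if_true]
          rw [ht] at e; field_simp at e; exact e
        · have := a3 i hi
          rw [e] at this
          simp only [apex, hi, if_false]
          linarith [abs_le.1 this]
      exact this ▸ ap
    · have e0 : 0 < 1 - t := by linarith
      let b : E (k + 1) := WithLp.toLp 2 fun i => if i = Fin.last k then 0 else (x i - t / 2) / (1 - t)
      have hb : b ∈ pyr k h := subset_convexHull ℝ _ (Set.mem_insert_of_mem _ ⟨by simp [b],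
        fun i hi => by
          have := abs_le.1 (a3 i hi)
          simp only [b, hi, if_false]
          exact ⟨div_nonneg (by linarith) e0.le, (div_le_one e0).2 (by linarith)⟩⟩)
      have := convex_convexHull ℝ _ ap hb t0 e0.le (by ring)
      suffices e : x = t • apex k h + (1 - t) • b from e ▸ this
      ext i
      by_cases hi : i = Fin.last k
      · simp only [apex, b, hi, if_true, PiLp.add_apply, PiLp.smul_apply, smul_eq_mul, ht]
        field_simp; ring
      · simp only [apex, b, hi, if_false, PiLp.add_apply, PiLp.smul_apply, smul_eq_mul]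
        field_simp; ring

lemma tall (k : ℕ) : ∃ h0 > 0, ∀ h ≥ h0, Covers (pyr k h) 2 := by
  obtain ⟨R, r, hr, hR⟩ := rot k
  set y := (1 - max r 0) / 8 with hy
  have m1 : max r 0 < 1 := max_lt hr one_pos
  have m2 := le_max_left r 0
  have m3 := le_max_right r 0
  have y0 : 0 < y := by linarith
  refine ⟨1 / y, by positivity, fun h hh => ?_⟩
  have h0 : 0 < h := lt_of_lt_of_le (by positivity) hh
  have h1 : 1 / h ≤ y := by
    rw [div_le_iff₀ h0]; rw [ge_iff_le, div_le_iff₀ y0] at hh; linarith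
  let g1 : E (k + 1) ≃ᵢ E (k + 1) := IsometryEquiv.addRight (EuclideanSpace.single (Fin.last k) y)
  let g2 : E (k + 1) ≃ᵢ E (k + 1) := (((IsometryEquiv.subRight (apex k 0)).trans
    R.toIsometryEquiv).trans (IsometryEquiv.addRight (apex k 1))).symm
  set ε := y / (2 * h + 1) with hε
  have ε0 : 0 < ε := by positivity
  have ε1 : ε * (2 * h + 1) = y := by rw [hε]; field_simp
  have ε2 : ε ≤ y := by nlinarith
  refine ⟨![g1, g2], ε, ε0, fun p hp v hv => ?_⟩
  obtain ⟨p1, p2, p3⟩ := (mem_pyr h0).1 hp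
  have hv' : ∀ i, |v i| ≤ ε := fun i => (PiLp.norm_apply_le v i).trans hv
  have vl := abs_le.1 (hv' (Fin.last k))
  by_cases c : y ≤ p (Fin.last k) + v (Fin.last k)
  · refine Set.mem_iUnion.2 ⟨0, p + v - EuclideanSpace.single (Fin.last k) y,
      (mem_pyr h0).2 ⟨?_, ?_, fun i hi => ?_⟩, by simp [g1]⟩
    · simp; linarith
    · simp; linarith
    · have a := abs_le.1 (p3 i hi)
      have b := abs_le.1 (hv' i)
      have e : ε ≤ (y - v (Fin.last k)) / h / 2 := by
        rw [div_div, le_div_iff₀ (by positivity)]; nlinarith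
      simp only [PiLp.sub_apply, PiLp.add_apply, PiLp.single_apply, hi, if_false, if_true]
      have e2 : (p (Fin.last k) + v (Fin.last k) - y) / h =
        p (Fin.last k) / h - (y - v (Fin.last k)) / h := by ring
      rw [e2]
      exact abs_le.2 ⟨by linarith, by linarith⟩
  · refine Set.mem_iUnion.2 ⟨1, R (p + v - apex k 0) + apex k 1, ?_, by
      simp only [Matrix.cons_val_one, Matrix.cons_val_zero, g2]
      rw [IsometryEquiv.symm_apply_eq]; rfl⟩
    have key := hR (p + v - apex k 0) (1 / 2 + ε) y (by positivity) (fun i hi => by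
      have a := abs_le.1 (p3 i hi)
      have b := abs_le.1 (hv' i)
      have : 0 ≤ p (Fin.last k) / h := by positivity
      simp only [PiLp.sub_apply, PiLp.add_apply, apex, hi, if_false]
      exact abs_le.2 ⟨by linarith, by linarith⟩) (by
      simp only [PiLp.sub_apply, PiLp.add_apply, apex, if_true]
      exact abs_le.2 ⟨by linarith, by linarith⟩)
    have bd : r * (1 / 2 + ε) + y ≤ 1 / 2 - 2 * y := by nlinarith
    have l := abs_le.1 (key (Fin.last k))
    have h8 : 8 ≤ h := by
      rw [div_le_iff₀ h0] at h1; nlinarith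
    refine (mem_pyr h0).2 ⟨?_, ?_, fun i hi => ?_⟩
    · simp only [PiLp.add_apply, apex, if_true] at l ⊢; linarith
    · simp only [PiLp.add_apply, apex, if_true] at l ⊢; linarith
    · have a := key i
      simp only [PiLp.add_apply, apex, if_true, hi, if_false, add_sub_cancel_right] at l a ⊢
      have : (R (p + v - WithLp.toLp 2 fun i => if i = Fin.last k then (0 : ℝ) else 1 / 2)
          (Fin.last k) + 1) / h ≤ 2 * (1 / h) := by
        rw [mul_one_div]; exact div_le_div_of_nonneg_right (by linarith) h0.le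
      linarith

lemma lower {n : ℕ} {C : Set (E n)} {D : ℝ} (hD : ∀ x ∈ C, ∀ y ∈ C, dist x y ≤ D) (q : ℕ)
    (p w : Fin q → E n) (hp : ∀ j, p j ∈ C)
    (hw : ∀ t : ℝ, 0 < t → ∀ i j, i ≠ j → D < dist (p i + t • w i) (p j + t • w j)) {m : ℕ}
    (h : Covers C m) : q ≤ m := by
  obtain ⟨g, ε, ε0, hg⟩ := h
  have W : 0 < 1 + ∑ j, ‖w j‖ := by positivity
  set t := ε / (1 + ∑ j, ‖w j‖) with ht
  have t0 : 0 < t := by positivity
  have : ∀ j, ∃ l, p j + t • w j ∈ g l '' C := fun j => Set.mem_iUnion.1 (hg _ (hp j) _ (by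
    rw [norm_smul, Real.norm_eq_abs, abs_of_pos t0, ht, div_mul_eq_mul_div, div_le_iff₀ W]
    have := single_le_sum (f := fun j => ‖w j‖) (fun _ _ => norm_nonneg _) (mem_univ j)
    nlinarith))
  choose l hl using this
  have : Function.Injective l := by
    intro i j e
    by_contra hne
    obtain ⟨x, hx, e1⟩ := hl i
    obtain ⟨y, hy, e2⟩ := hl j
    have := hw t t0 i j hne
    rw [← e1, ← e2, e, (g (l j)).dist_eq] at this
    exact absurd (hD x hx y hy) (not_le.2 this)
  simpa using Fintype.card_le_of_injective l this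

lemma two_le {n : ℕ} {C : Set (E n)} (hC : IsCompact C) {a b : E n} (ha : a ∈ C) (hb : b ∈ C)
    (hab : a ≠ b) {m : ℕ} (h : Covers C m) : 2 ≤ m := by
  obtain ⟨x, hx, y, hy, hm⟩ : ∃ x ∈ C, ∃ y ∈ C, ∀ u ∈ C, ∀ v ∈ C, dist u v ≤ dist x y := by
    obtain ⟨z, hz, hm⟩ := (hC.prod hC).exists_isMaxOn ⟨(a, b), ha, hb⟩
      (continuous_fst.dist continuous_snd).continuousOn
    exact ⟨z.1, hz.1, z.2, hz.2, fun u hu v hv => isMaxOn_iff.1 hm (u, v) ⟨hu, hv⟩⟩
  have d0 : 0 < ‖x - y‖ := by
    have := hm a ha b hb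
    rw [← dist_eq_norm]; linarith [dist_pos.2 hab]
  have e : ∀ t : ℝ, 0 < t → dist x y < dist (x + t • (x - y)) (y + t • (0 : E n)) := by
    intro t t0
    have : x + t • (x - y) - (y + t • (0 : E n)) = (1 + t) • (x - y) := by module
    rw [dist_eq_norm, dist_eq_norm, this, norm_smul, Real.norm_eq_abs, abs_of_pos (by linarith)]
    nlinarith
  refine lower (D := dist x y) hm 2
    ![x, y] ![x - y, 0] (fun j => by fin_cases j <;> assumption) (fun t t0 i j hij => ?_) h
  fin_cases i <;> fin_cases j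
  · exact (hij rfl).elim
  · exact e t t0
  · rw [dist_comm (_ + _)]; exact e t t0
  · exact (hij rfl).elim

lemma box_compact {n : ℕ} {C : Set (E n)} (hc : IsClosed C) (M : ℝ) (h : ∀ x ∈ C, ∀ i, |x i| ≤ M) :
    IsCompact C := by
  refine isCompact_of_isClosed_isBounded hc (isBounded_iff_forall_norm_le.2 ⟨√(n * M ^ 2), ?_⟩)
  intro x hx
  rw [EuclideanSpace.norm_eq]
  refine Real.sqrt_le_sqrt ?_
  have := sum_le_card_nsmul univ (fun i => ‖x i‖ ^ 2) (M ^ 2) fun i _ =>
    pow_le_pow_left₀ (norm_nonneg _) (h x hx i) 2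
  simpa using this

lemma pyr_compact (k : ℕ) {h : ℝ} (h0 : 0 < h) : IsCompact (pyr k h) := by
  refine box_compact ?_ (h + 1) fun x hx i => ?_
  · have : pyr k h = {x | 0 ≤ x (Fin.last k)} ∩ ({x | x (Fin.last k) ≤ h} ∩ ⋂ i, ⋂ _ : i ≠ Fin.last k,
        {x | |x i - 1 / 2| ≤ (1 - x (Fin.last k) / h) / 2}) := by
      ext x; simp [mem_pyr h0]
    rw [this]
    exact (isClosed_le (by fun_prop) (by fun_prop)).inter ((isClosed_le (by fun_prop)
      (by fun_prop)).inter (isClosed_iInter fun i => isClosed_iInter fun _ =>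
        isClosed_le (by fun_prop) (by fun_prop)))
  · obtain ⟨a, b, c⟩ := (mem_pyr h0).1 hx
    by_cases hi : i = Fin.last k
    · rw [hi]; exact abs_le.2 ⟨by linarith, by linarith⟩
    · have := abs_le.1 (c i hi)
      have : 0 ≤ x (Fin.last k) / h := by positivity
      exact abs_le.2 ⟨by linarith, by linarith⟩

lemma NStar_ge {n : ℕ} {C : Set (E n)} {q : ℕ} (h : ∀ m, Covers C m → q ≤ m) : q ≤ NStar C :=
  le_iInf₂ fun m hm => by exact_mod_cast h m hm

theorem tall_eq (k : ℕ) : ∃ h0 > 0, ∀ h ≥ h0, NStar (pyr k h) = 2 := by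
  obtain ⟨h0, a, b⟩ := tall k
  refine ⟨h0, a, fun h hh => le_antisymm (iInf₂_le_of_le 2 (b h hh) le_rfl) ?_⟩
  have h1 : 0 < h := lt_of_lt_of_le a hh
  refine NStar_ge (q := 2) fun m => two_le (pyr_compact k h1) (a := apex k h) (b := 0)
    (subset_convexHull ℝ _ (Set.mem_insert _ _))
    (subset_convexHull ℝ _ (Set.mem_insert_of_mem _ (by simp [base]))) fun e => ?_
  have := congrArg (fun x : E (k + 1) => x (Fin.last k)) e
  simp [apex, h1.ne'] at this

theorem cube_ge (k : ℕ) (hk : 1 ≤ k) : 2 ≤ NStar {x : E k | ∀ i, 0 ≤ x i ∧ x i ≤ 1} := by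
  refine NStar_ge (q := 2) fun m => two_le (box_compact ?_ 1 fun x hx i => ?_) (a := 0)
    (b := WithLp.toLp 2 fun _ => 1) (by simp) (by simp) fun e => ?_
  · rw [Set.setOf_forall]
    exact isClosed_iInter fun i =>
      isClosed_Icc.preimage (show Continuous fun x : E k => x i by fun_prop)
  · exact abs_le.2 ⟨by linarith [(hx i).1], (hx i).2⟩
  · have := congrArg (fun x : E k => x ⟨0, hk⟩) e
    simp at this

lemma dist_sq {k : ℕ} (x y : E (k + 1)) : dist x y ^ 2 =
    ∑ i : Fin k, (x i.castSucc - y i.castSucc) ^ 2 + (x (Fin.last k) - y (Fin.last k)) ^ 2 := by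
  rw [EuclideanSpace.dist_sq_eq, Fin.sum_univ_castSucc]
  simp [Real.dist_eq]

theorem three_le (k : ℕ) (hk : 1 ≤ k) : 3 ≤ NStar (pyr k (√(3 * k) / 2)) := by
  set h := √(3 * k) / 2 with hh
  have k0 : (0 : ℝ) < k := by exact_mod_cast hk
  have h0 : 0 < h := by positivity
  have h2 : h ^ 2 = 3 * k / 4 := by
    rw [hh, div_pow, Real.sq_sqrt (by positivity)]; norm_num
  have ab : ∀ y ∈ base k, dist (apex k h) y ≤ √k := by
    intro y hy
    refine Real.le_sqrt_of_sq_le ?_
    rw [dist_sq, hy.1]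
    have := sum_le_card_nsmul univ (fun i : Fin k => (apex k h i.castSucc - y i.castSucc) ^ 2)
      (1 / 4) fun i _ => by
        have := hy.2 _ (Fin.castSucc_ne_last i)
        simp only [apex, Fin.castSucc_ne_last, if_false]
        nlinarith
    simp only [card_univ, Fintype.card_fin, nsmul_eq_mul] at this
    simp only [apex, if_true] at this ⊢
    linarith
  have bb : ∀ x ∈ base k, ∀ y ∈ base k, dist x y ≤ √k := by
    intro x hx y hy
    refine Real.le_sqrt_of_sq_le ?_
    rw [dist_sq, hy.1, hx.1]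
    have := sum_le_card_nsmul univ (fun i : Fin k => (x i.castSucc - y i.castSucc) ^ 2)
      1 fun i _ => by
        have := hy.2 _ (Fin.castSucc_ne_last i)
        have := hx.2 _ (Fin.castSucc_ne_last i)
        nlinarith
    simp only [card_univ, Fintype.card_fin, nsmul_eq_mul] at this
    linarith
  let o : E (k + 1) := WithLp.toLp 2 fun i => if i = Fin.last k then 0 else 1
  have ds : ∀ (x y : E (k + 1)) (a b : ℝ), (∀ i : Fin k, x i.castSucc - y i.castSucc = a) →
      x (Fin.last k) - y (Fin.last k) = b → k < k * a ^ 2 + b ^ 2 → √k < dist x y := by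
    intro x y a b h1 h2 h3
    refine (Real.sqrt_lt' ?_).2 ?_
    · refine lt_of_le_of_ne dist_nonneg fun e => ?_
      have := dist_sq x y
      simp only [← e, h1, h2, sum_const, card_univ, Fintype.card_fin, nsmul_eq_mul] at this
      nlinarith
    · rw [dist_sq]
      simpa [h1, h2] using h3
  refine NStar_ge (q := 3) fun m => lower (D := √k) (fun x hx y hy => ?_) 3
    ![0, o, apex k h] ![0, o, apex k h] (fun j => ?_) (fun t t0 => ?_)
  · obtain ⟨x', hx', y', hy', l⟩ := convexHull_exists_dist_ge2 hx hy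
    refine l.trans ?_
    rcases hx' with rfl | hx' <;> rcases hy' with rfl | hy'
    · simp
    · exact ab _ hy'
    · rw [dist_comm]; exact ab _ hx'
    · exact bb _ hx' _ hy'
  · fin_cases j
    · exact subset_convexHull ℝ _ (Set.mem_insert_of_mem _ (by simp [base]))
    · exact subset_convexHull ℝ _ (Set.mem_insert_of_mem _ ⟨by simp [o], fun i hi => by simp [o, hi]⟩)
    · exact subset_convexHull ℝ _ (Set.mem_insert _ _)
  · have p : 0 < k * t := mul_pos k0 t0
    have p2 : 0 < k * t * t := mul_pos p t0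
    have e : ((1 + t) * h) ^ 2 = (1 + t) ^ 2 * (3 * k / 4) := by rw [mul_pow, h2]
    have d1 : √k < dist (o + t • o) (0 + t • (0 : E (k + 1))) :=
      ds _ _ (1 + t) 0 (fun i => by simp [o]) (by simp [o]) (by nlinarith)
    have d2 : √k < dist (apex k h + t • apex k h) (0 + t • (0 : E (k + 1))) :=
      ds _ _ ((1 + t) / 2) ((1 + t) * h) (fun i => by simp [apex]; ring) (by simp [apex]; ring)
        (by nlinarith)
    have d3 : √k < dist (apex k h + t • apex k h) (o + t • o) :=
      ds _ _ (-(1 + t) / 2) ((1 + t) * h) (fun i => by simp [apex, o]; ring)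
        (by simp [apex, o]; ring) (by nlinarith)
    intro i j hij
    fin_cases i <;> fin_cases j <;> first | exact (hij rfl).elim | assumption | skip
    all_goals rw [dist_comm]; assumption

end Pool.Agent.H9.Newton
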