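import Mathlib

set_option autoImplicit false

namespace Pool.Agent.H9.Oll

open Subgroup
open scoped commutatorElement IsMulCommutative

lemma ext_comm {A B : Type*} [CommGroup A] [CommGroup B] (f : A →* B) (g : A →* Multiplicative ℝ)
    (h : f.ker ≤ g.ker) : ∃ F : B →* Multiplicative ℝ, ∀ a, F (f a) = g a := by
  obtain ⟨F, hF⟩ := (Module.Baer.of_divisible ℝ).extension_property_addMonoidHom
    (MonoidHom.toAdditive (QuotientGroup.kerLift f)) (QuotientGroup.kerLift_injective f)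
    (MonoidHom.toAdditiveLeft (QuotientGroup.lift f.ker g h))
  refine ⟨AddMonoidHom.toMultiplicativeRight F, fun a => ?_⟩
  have := DFunLike.congr_fun hF (Additive.ofMul (QuotientGroup.mk a))
  simpa using congrArg Multiplicative.ofAdd this

/-- extension of a real character from a central subgroup -/
lemma ext_central {A G : Type*} [CommGroup A] [Group G] (i : A →* G) (hi : Function.Injective i)
    (g : A →* Multiplicative ℝ) (h : ∀ a b : G, ∃ z, i z = ⁅a, b⁆ ∧ g z = 1) :
    ∃ F : G →* Multiplicative ℝ, ∀ a, F (i a) = g a := by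
  obtain ⟨F, hF⟩ := ext_comm ((Abelianization.of (G := G)).comp i) g (by
    intro z hz
    have h1 : i z ∈ commutator G := by
      rw [← Abelianization.ker_of]; exact hz
    have h2 : commutator G ≤ g.ker.map i := by
      rw [_root_.commutator_def, commutator_le]
      intro a _ b _
      obtain ⟨z, e, hz⟩ := h a b
      exact ⟨z, hz, e⟩
    obtain ⟨w, hw, e⟩ := h2 h1
    rw [← hi e]; exact hw)
  exact ⟨F.comp Abelianization.of, hF⟩

lemma comm_mul_left {G : Type*} [Group G] (a b c : G) (h : ⁅b, c⁆ ∈ center G) :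
    ⁅a * b, c⁆ = ⁅a, c⁆ * ⁅b, c⁆ := by
  have h1 := mem_center_iff.1 h
  have : ⁅a * b, c⁆ = a * ⁅b, c⁆ * (c * a⁻¹ * c⁻¹) := by
    simp only [commutatorElement_def]; group
  rw [this, mul_assoc, ← h1, ← mul_assoc]
  simp only [commutatorElement_def]; group

lemma comm_pow {G : Type*} [Group G] (b c : G) (h : ⁅b, c⁆ ∈ center G) (m : ℕ) :
    ⁅b ^ m, c⁆ = ⁅b, c⁆ ^ m := by
  induction m with
  | zero => simp
  | succ m ih => rw [pow_succ, comm_mul_left _ _ _ h, ih, pow_succ]

/-- twisted product -/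
@[ext] structure Tw {G : Type*} (ω : G → G → ℝ) where
  g : G
  r : ℝ

structure Bi {G : Type*} [Group G] (ω : G → G → ℝ) : Prop where
  left : ∀ a b c, ω (a * b) c = ω a c + ω b c
  anti : ∀ a b, ω a b = - ω b a

lemma Bi.right {G : Type*} [Group G] {ω : G → G → ℝ} (h : Bi ω) (a b c : G) :
    ω a (b * c) = ω a b + ω a c := by
  rw [h.anti, h.left, h.anti b, h.anti c]; ring
lemma Bi.self {G : Type*} [Group G] {ω : G → G → ℝ} (h : Bi ω) (a : G) : ω a a = 0 := by
  have := h.anti a a; linarith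
lemma Bi.one {G : Type*} [Group G] {ω : G → G → ℝ} (h : Bi ω) (a : G) : ω 1 a = 0 := by
  have := h.left 1 1 a; rw [one_mul] at this; linarith
lemma Bi.one' {G : Type*} [Group G] {ω : G → G → ℝ} (h : Bi ω) (a : G) : ω a 1 = 0 := by
  rw [h.anti, h.one]; simp
lemma Bi.inv {G : Type*} [Group G] {ω : G → G → ℝ} (h : Bi ω) (a b : G) : ω a⁻¹ b = - ω a b := by
  have := h.left a⁻¹ a b; rw [inv_mul_cancel, h.one] at this; linarith
lemma Bi.inv' {G : Type*} [Group G] {ω : G → G → ℝ} (h : Bi ω) (a b : G) : ω a b⁻¹ = - ω a b := by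
  rw [h.anti, h.inv, h.anti b]; ring

@[reducible] noncomputable def twGroup {G : Type*} [Group G] {ω : G → G → ℝ} (h : Bi ω) : Group (Tw ω) where
  mul x y := ⟨x.g * y.g, x.r + y.r + ω x.g y.g / 2⟩
  one := ⟨1, 0⟩
  inv x := ⟨x.g⁻¹, -x.r⟩
  mul_assoc x y z := by
    refine Tw.ext (mul_assoc x.g y.g z.g) ?_
    show x.r + y.r + ω x.g y.g / 2 + z.r + ω (x.g * y.g) z.g / 2 =
      x.r + (y.r + z.r + ω y.g z.g / 2) + ω x.g (y.g * z.g) / 2
    rw [h.left, h.right]; ring
  one_mul x := by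
    refine Tw.ext (one_mul x.g) ?_
    show 0 + x.r + ω 1 x.g / 2 = x.r
    rw [h.one]; ring
  mul_one x := by
    refine Tw.ext (mul_one x.g) ?_
    show x.r + 0 + ω x.g 1 / 2 = x.r
    rw [h.one']; ring
  inv_mul_cancel x := by
    refine Tw.ext (inv_mul_cancel x.g) ?_
    show -x.r + x.r + ω x.g⁻¹ x.g / 2 = 0
    rw [h.inv, h.self]; ring

lemma class_two {G : Type*} [Group G] (hc : ∀ a b : G, ⁅a, b⁆ ∈ center G) (a0 b0 : G)
    (h0 : ∀ m : ℕ, 0 < m → ⁅a0, b0⁆ ^ m ≠ 1) : ∃ (ω : G → G → ℝ) (c : G → ℝ), Bi ω ∧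
      (∀ a b, c (a * b) = c a + c b + ω a b / 2) ∧ ω a0 b0 ≠ 0 := by
  let z0 : center G := ⟨_, hc a0 b0⟩
  have hz : Function.Injective (zpowersHom (center G) z0) := by
    have : ¬ IsOfFinOrder z0 := by
      rw [isOfFinOrder_iff_pow_eq_one]
      rintro ⟨m, hm, e⟩
      exact h0 m hm (congrArg Subtype.val e)
    intro x y e
    exact (injective_zpow_iff_not_isOfFinOrder.2 this) e
  obtain ⟨l, hl⟩ := ext_comm (zpowersHom (center G) z0)
    (AddMonoidHom.toMultiplicative (Int.castAddHom ℝ)) (by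
      rw [(MonoidHom.ker_eq_bot_iff _).2 hz]; exact bot_le)
  let ω : G → G → ℝ := fun a b => (l ⟨⁅a, b⁆, hc a b⟩).toAdd
  have hω : Bi ω := by
    constructor
    · intro a b c
      have : (⟨⁅a * b, c⁆, hc _ _⟩ : center G) = ⟨⁅a, c⁆, hc _ _⟩ * ⟨⁅b, c⁆, hc _ _⟩ :=
        Subtype.ext (comm_mul_left a b c (hc _ _))
      simp only [ω]; rw [this, map_mul, toAdd_mul]
    · intro a b
      have : (⟨⁅a, b⁆, hc _ _⟩ : center G) = (⟨⁅b, a⁆, hc _ _⟩ : center G)⁻¹ :=
        Subtype.ext (commutatorElement_inv b a).symm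
      simp only [ω]; rw [this, map_inv, toAdd_inv]
  have hz0 : ∀ (z : center G) (a : G), ω z a = 0 := by
    intro z a
    have : (⟨⁅(z : G), a⁆, hc _ _⟩ : center G) = 1 :=
      Subtype.ext (commutatorElement_eq_one_iff_mul_comm.2 (mem_center_iff.1 z.2 a).symm)
    simp only [ω]; rw [this, map_one, toAdd_one]
  let := twGroup hω
  have mul_def : ∀ x y : Tw ω, x * y = ⟨x.g * y.g, x.r + y.r + ω x.g y.g / 2⟩ := fun _ _ => rfl
  have inv_def : ∀ x : Tw ω, x⁻¹ = ⟨x.g⁻¹, -x.r⟩ := fun _ => rfl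
  let i : center G × Multiplicative ℝ →* Tw ω :=
    { toFun := fun p => ⟨p.1, p.2.toAdd⟩
      map_one' := rfl
      map_mul' := fun p q => by
        rw [mul_def]
        refine Tw.ext rfl ?_
        simp [hz0] }
  obtain ⟨F, hF⟩ := ext_central i (by
      intro p q e
      exact Prod.ext (Subtype.ext (congrArg Tw.g e)) (congrArg Tw.r e))
    (MonoidHom.snd _ _ / l.comp (MonoidHom.fst _ _)) (by
      intro x y
      refine ⟨(⟨⁅x.g, y.g⁆, hc _ _⟩, l ⟨⁅x.g, y.g⁆, hc _ _⟩), ?_, by simp⟩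
      rw [commutatorElement_def x y, inv_def, inv_def, mul_def, mul_def, mul_def]
      refine Tw.ext rfl ?_
      show ω x.g y.g = _
      simp only [hω.left, hω.inv, hω.inv', hω.self, hω.anti y.g x.g]
      ring)
  refine ⟨ω, fun a => -(F ⟨a, 0⟩).toAdd, hω, fun a b => ?_, ?_⟩
  · have e1 : (⟨a, 0⟩ : Tw ω) * ⟨b, 0⟩ = ⟨a * b, 0⟩ * i (1, Multiplicative.ofAdd (ω a b / 2)) := by
      rw [mul_def, mul_def]
      refine Tw.ext (by simp [i]) ?_
      simp [i, hω.one']
    have e2 := congrArg (fun x => (F x).toAdd) e1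
    simp only [map_mul, hF, toAdd_mul] at e2
    simp at e2
    linarith
  · have := hl (Multiplicative.ofAdd 1)
    simp only [zpowersHom_apply, toAdd_ofAdd, zpow_one] at this
    simp only [ω]
    rw [show (⟨⁅a0, b0⁆, hc a0 b0⟩ : center G) = z0 from rfl, this]
    simp

lemma central_mod {G : Type*} [Group G] (i : ℕ) (x : G) (hx : x ∈ (⊤ : Subgroup G).lowerCentralSeries i) :
    (QuotientGroup.mk x : G ⧸ (⊤ : Subgroup G).lowerCentralSeries (i + 1)) ∈ center _ := by
  rw [mem_center_iff]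
  intro y
  obtain ⟨y, rfl⟩ := QuotientGroup.mk_surjective y
  rw [eq_comm, ← commutatorElement_eq_one_iff_mul_comm]
  have : (QuotientGroup.mk ⁅x, y⁆ : G ⧸ (⊤ : Subgroup G).lowerCentralSeries (i + 1)) = 1 :=
    (QuotientGroup.eq_one_iff _).2 (commutator_mem_commutator hx (mem_top y))
  exact this

/-- from a commutator of infinite order modulo `γ₃` to Heisenberg data -/
lemma heis {G : Type*} [Group G] (a0 b0 : G)
    (h0 : ∀ m : ℕ, 0 < m → ⁅a0, b0⁆ ^ m ∉ (⊤ : Subgroup G).lowerCentralSeries 2) :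
    ∃ (ω : G → G → ℝ) (c : G → ℝ), Bi ω ∧
      (∀ a b, c (a * b) = c a + c b + ω a b / 2) ∧ ω a0 b0 ≠ 0 := by
  obtain ⟨ω, c, h1, h2, h3⟩ := class_two (G := G ⧸ (⊤ : Subgroup G).lowerCentralSeries 2) (by
    intro a b
    obtain ⟨a, rfl⟩ := QuotientGroup.mk_surjective a
    obtain ⟨b, rfl⟩ := QuotientGroup.mk_surjective b
    exact central_mod 1 ⁅a, b⁆ (commutator_mem_commutator (mem_top a) (mem_top b)))
    (QuotientGroup.mk a0) (QuotientGroup.mk b0) (fun m hm e => h0 m hm (by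
      rw [← QuotientGroup.eq_one_iff]; exact e))
  exact ⟨fun a b => ω a b, fun a => c a, ⟨fun a b d => h1.left a b d, fun a b => h1.anti a b⟩,
    fun a b => h2 a b, h3⟩

lemma lcs_torsion {G : Type*} [Group G]
    (h : ∀ a b : G, ∃ m : ℕ, 0 < m ∧ ⁅a, b⁆ ^ m ∈ (⊤ : Subgroup G).lowerCentralSeries 2) (i : ℕ) :
    ∀ x ∈ (⊤ : Subgroup G).lowerCentralSeries (i + 1), ∃ m : ℕ, 0 < m ∧
      x ^ m ∈ (⊤ : Subgroup G).lowerCentralSeries (i + 2) := by
  have gen : ∀ j : ℕ, (∀ x ∈ (⊤ : Subgroup G).lowerCentralSeries j, ∀ g : G, ∃ m : ℕ, 0 < m ∧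
      ⁅x, g⁆ ^ m ∈ (⊤ : Subgroup G).lowerCentralSeries (j + 2)) →
      ∀ x ∈ (⊤ : Subgroup G).lowerCentralSeries (j + 1), ∃ m : ℕ, 0 < m ∧
        x ^ m ∈ (⊤ : Subgroup G).lowerCentralSeries (j + 2) := by
    intro j hj
    let K := (⊤ : Subgroup G).lowerCentralSeries (j + 2)
    let T : Subgroup G :=
      { carrier := {x | x ∈ (⊤ : Subgroup G).lowerCentralSeries (j + 1) ∧
          IsOfFinOrder (QuotientGroup.mk x : G ⧸ K)}
        one_mem' := ⟨one_mem _, by simp⟩
        mul_mem' := fun {a b} ha hb => ⟨mul_mem ha.1 hb.1, by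
          rw [QuotientGroup.mk_mul]
          exact Commute.isOfFinOrder_mul (mem_center_iff.1 (central_mod _ b hb.1) _) ha.2 hb.2⟩
        inv_mem' := fun {a} ha => ⟨inv_mem ha.1, by
          rw [QuotientGroup.mk_inv]; exact ha.2.inv⟩ }
    have conv : ∀ x : G, IsOfFinOrder (QuotientGroup.mk x : G ⧸ K) ↔ ∃ m : ℕ, 0 < m ∧ x ^ m ∈ K := by
      intro x
      rw [isOfFinOrder_iff_pow_eq_one]
      simp only [← QuotientGroup.mk_pow, QuotientGroup.eq_one_iff]
    have : (⊤ : Subgroup G).lowerCentralSeries (j + 1) ≤ T := by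
      show ⁅(⊤ : Subgroup G).lowerCentralSeries j, ⊤⁆ ≤ T
      rw [commutator_le]
      intro x hx g _
      exact ⟨commutator_mem_commutator hx (mem_top g), (conv _).2 (hj x hx g)⟩
    exact fun x hx => (conv x).1 (this hx).2
  induction i with
  | zero => exact gen 0 fun x _ g => h x g
  | succ i ih =>
    refine gen (i + 1) fun x hx g => ?_
    obtain ⟨m, hm, e⟩ := ih x hx
    refine ⟨m, hm, ?_⟩
    have c1 := central_mod (i + 2) ⁅x, g⁆ (commutator_mem_commutator hx (mem_top g))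
    have c2 := comm_pow (G := G ⧸ (⊤ : Subgroup G).lowerCentralSeries (i + 2 + 1))
      (QuotientGroup.mk x) (QuotientGroup.mk g) c1 m
    have c3 : (QuotientGroup.mk ⁅x ^ m, g⁆ : G ⧸ (⊤ : Subgroup G).lowerCentralSeries (i + 2 + 1)) = 1 :=
      (QuotientGroup.eq_one_iff _).2 (commutator_mem_commutator e (mem_top g))
    rw [← QuotientGroup.eq_one_iff]
    exact c2.symm.trans c3

lemma comm_fin {G : Type*} [Group G] [Group.IsNilpotent G]
    (h : ∀ a b : G, ∃ m : ℕ, 0 < m ∧ ⁅a, b⁆ ^ m ∈ (⊤ : Subgroup G).lowerCentralSeries 2) (a b : G) :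
    IsOfFinOrder ⁅a, b⁆ := by
  have : ∀ k : ℕ, ∃ m : ℕ, 0 < m ∧ ⁅a, b⁆ ^ m ∈ (⊤ : Subgroup G).lowerCentralSeries (k + 1) := by
    intro k
    induction k with
    | zero => exact ⟨1, one_pos, by
        rw [pow_one]; exact commutator_mem_commutator (mem_top a) (mem_top b)⟩
    | succ k ih =>
      obtain ⟨m, hm, e⟩ := ih
      obtain ⟨m', hm', e'⟩ := lcs_torsion h k _ e
      exact ⟨m * m', Nat.mul_pos hm hm', by rw [pow_mul]; exact e'⟩
  obtain ⟨n, hn⟩ := Subgroup.nilpotent_iff_lowerCentralSeries.1 (inferInstance : Group.IsNilpotent G)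
  obtain ⟨m, hm, e⟩ := this n
  have hle : (⊤ : Subgroup G).lowerCentralSeries (n + 1) ≤ (⊤ : Subgroup G).lowerCentralSeries n :=
    Subgroup.lowerCentralSeries_antitone _ (Nat.le_succ n)
  have := hle e
  rw [hn, mem_bot] at this
  exact isOfFinOrder_iff_pow_eq_one.2 ⟨m, hm, this⟩

universe u in
lemma center_fin (G : Type u) [Group G] [Group.IsNilpotent G] :
    Group.FG G → (∀ a b : G, IsOfFinOrder ⁅a, b⁆) → (center G).FiniteIndex := by
  refine Group.nilpotent_center_quotient_ind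
    (P := fun G _ _ => Group.FG G → (∀ a b : G, IsOfFinOrder ⁅a, b⁆) → (center G).FiniteIndex) G ?_ ?_
  · intro G _ _ _ _
    infer_instance
  · intro G _ _ ih hfg h
    have h2 := ih inferInstance (by
      intro a b
      obtain ⟨a, rfl⟩ := QuotientGroup.mk_surjective a
      obtain ⟨b, rfl⟩ := QuotientGroup.mk_surjective b
      exact (QuotientGroup.mk' (center G)).isOfFinOrder (h a b))
    let Z2 := (center (G ⧸ center G)).comap (QuotientGroup.mk' (center G))
    have hZ : Z2.FiniteIndex := ⟨by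
      rw [index_comap_of_surjective _ (QuotientGroup.mk'_surjective _)]; exact h2.1⟩
    have hc : ∀ y : Z2, ∀ g : G, ⁅(y : G), g⁆ ∈ center G := by
      intro y g
      rw [← QuotientGroup.eq_one_iff]
      exact commutatorElement_eq_one_iff_mul_comm.2
        (mem_center_iff.1 y.2 (QuotientGroup.mk g)).symm
    obtain ⟨T, hT⟩ := Group.fg_def.1 hfg
    let φ : Z2 →* (T → center G) :=
      { toFun := fun y g => ⟨⁅(y : G), (g : G)⁆, hc y g⟩
        map_one' := by ext g; simp
        map_mul' := fun y z => by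
          ext g
          exact comm_mul_left _ _ _ (hc z g) }
    have hfin : Finite φ.range := by
      apply CommGroup.finite_of_fg_isMulTorsion
      rintro ⟨_, y, rfl⟩
      rw [← (φ.range.subtype_injective).isOfFinOrder_iff]
      refine IsOfFinOrder.pi fun g => ?_
      rw [← ((center G).subtype_injective).isOfFinOrder_iff]
      exact h _ _
    have hker : φ.ker.FiniteIndex := finiteIndex_ker φ
    have hle : φ.ker.map Z2.subtype ≤ center G := by
      rintro _ ⟨y, hy, rfl⟩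
      have : (⊤ : Subgroup G) ≤ centralizer {(y : G)} := by
        rw [← hT, closure_le]
        intro g hg
        have := congrArg Subtype.val (congrFun hy ⟨g, hg⟩)
        rw [SetLike.mem_coe, mem_centralizer_singleton_iff]
        exact (commutatorElement_eq_one_iff_mul_comm.1 this).symm
      rw [mem_center_iff]
      intro g
      exact mem_centralizer_singleton_iff.1 (this (mem_top g))
    have : (φ.ker.map Z2.subtype).FiniteIndex := ⟨by
      rw [index_map_subtype]; exact mul_ne_zero hker.1 hZ.1⟩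
    exact finiteIndex_of_le hle

end Pool.Agent.H9.Oll
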