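import Mathlib
import Pool.Agent.H9.OllA

set_option autoImplicit false

namespace Pool.Agent.H9.Oll

open Finset

variable {Γ : Type*} [Group Γ] (S : Finset Γ) (N : Subgroup Γ)

/-- Laplacian -/
def lap (F : Γ → ℝ) (x : Γ) : ℝ := ∑ t ∈ S, (F (x * t) - F x)

structure Gen : Prop where
  symm : ∀ t ∈ S, t⁻¹ ∈ S
  one : (1 : Γ) ∉ S
  gen : Subgroup.closure (S : Set Γ) = ⊤

variable {S}

lemma Gen.ind (hS : Gen S) (P : Γ → Prop) (x0 : Γ) (h0 : P x0)
    (h : ∀ x, ∀ t ∈ S, P x → P (x * t)) : ∀ x, P x := by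
  have : ∀ y ∈ Subgroup.closure (S : Set Γ), ∀ x, P x → P (x * y) := by
    intro y hy
    induction hy using Subgroup.closure_induction'' with
    | one => intro x hx; simpa using hx
    | mem t ht => exact fun x hx => h x t ht hx
    | inv_mem t ht => exact fun x hx => h x _ (hS.symm t ht) hx
    | mul a b _ _ ha hb => intro x hx; rw [← mul_assoc]; exact hb _ (ha _ hx)
  intro x
  have := this (x0⁻¹ * x) (by rw [hS.gen]; trivial) x0 h0
  simpa using this

noncomputable def rep (x : Γ) : Γ := ((x⁻¹ : Γ) : Γ ⧸ N).out⁻¹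

lemma rep_mem (x : Γ) : x * (rep N x)⁻¹ ∈ N := by
  obtain ⟨h, e⟩ := QuotientGroup.mk_out_eq_mul N x⁻¹
  unfold rep
  rw [e]; simp

lemma rep_mul (n : N) (x : Γ) : rep N (n * x) = rep N x := by
  unfold rep
  congr 2
  rw [QuotientGroup.eq]
  simp

noncomputable def nn (x : Γ) : N := ⟨_, rep_mem N x⟩

lemma nn_rep (x : Γ) : (nn N x : Γ) * rep N x = x := by simp [nn]

lemma nn_mul (n : N) (x : Γ) : nn N (n * x) = n * nn N x := by
  apply Subtype.ext
  simp [nn, rep_mul, mul_assoc]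

lemma inv_rep {α : Type*} (F : Γ → α) (h : ∀ (n : N) x, F (n * x) = F x) (x : Γ) :
    F (rep N x) = F x := by
  conv_rhs => rw [← nn_rep N x, h]

variable [N.FiniteIndex]

lemma exists_max {α : Type*} (A : Finset α) (P : Γ → α → Prop) (Φ : Γ → α → ℝ)
    (hP : ∀ (n : N) x a, P x a → P (n * x) a ∧ Φ (n * x) a = Φ x a)
    (h0 : ∃ x, ∃ a ∈ A, P x a) :
    ∃ x0, ∃ a0 ∈ A, P x0 a0 ∧ ∀ x, ∀ a ∈ A, P x a → Φ x a ≤ Φ x0 a0 := by
  classical
  have := Fintype.ofFinite (Γ ⧸ N)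
  have key : ∀ x a, P x a → P (rep N x) a ∧ Φ (rep N x) a = Φ x a := by
    intro x a h
    have e : rep N x = ((nn N x)⁻¹ : N) * x := by simp [nn]
    rw [e]; exact hP _ _ _ h
  obtain ⟨x, a, ha, h⟩ := h0
  obtain ⟨⟨q, a0⟩, hq, hm⟩ := exists_max_image
    (((univ : Finset (Γ ⧸ N)) ×ˢ A).filter fun z => P z.1.out⁻¹ z.2) (fun z => Φ z.1.out⁻¹ z.2)
    ⟨((x⁻¹ : Γ), a), mem_filter.2 ⟨mem_product.2 ⟨mem_univ _, ha⟩, (key x a h).1⟩⟩
  obtain ⟨h1, h2⟩ := mem_filter.1 hq
  refine ⟨q.out⁻¹, a0, (mem_product.1 h1).2, h2, fun y b hb hy => ?_⟩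
  rw [← (key y b hy).2]
  exact hm ((y⁻¹ : Γ), b) (mem_filter.2 ⟨mem_product.2 ⟨mem_univ _, hb⟩, (key y b hy).1⟩)

lemma max_principle (hS : Gen S) (h : Γ → ℝ) (hi : ∀ (n : N) x, h (n * x) = h x)
    (hl : ∀ x, 0 ≤ lap S h x) : ∀ x y, h x = h y := by
  obtain ⟨x0, -, -, -, hm⟩ := exists_max N {()} (fun _ _ => True) (fun x _ => h x)
    (fun n x _ _ => ⟨trivial, hi n x⟩) ⟨1, (), mem_singleton_self _, trivial⟩
  have hm' : ∀ x, h x ≤ h x0 := fun x => hm x () (mem_singleton_self _) trivial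
  have : ∀ x, h x = h x0 := hS.ind _ x0 rfl fun x t ht hx => by
    have h1 := (sum_eq_zero_iff_of_nonpos (s := S) (f := fun t => h (x * t) - h x)
      (fun t _ => by linarith [hm' (x * t)])).1
      (le_antisymm (sum_nonpos fun t _ => by linarith [hm' (x * t)]) (hl x)) t ht
    linarith
  intro x y; rw [this x, this y]

omit [N.FiniteIndex] in
lemma lap_add (F G : Γ → ℝ) (x : Γ) : lap S (fun y => F y + G y) x = lap S F x + lap S G x := by
  unfold lap; rw [← sum_add_distrib]; exact sum_congr rfl fun _ _ => by ring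

omit [N.FiniteIndex] in
lemma lap_smul (c : ℝ) (F : Γ → ℝ) (x : Γ) : lap S (fun y => c * F y) x = c * lap S F x := by
  unfold lap; rw [mul_sum]; exact sum_congr rfl fun _ _ => by ring

omit [N.FiniteIndex] in
lemma lap_const (c : ℝ) (x : Γ) : lap S (fun _ => c) x = 0 := by simp [lap]

omit [N.FiniteIndex] in
lemma lap_left (F : Γ → ℝ) (g x : Γ) : lap S F (g * x) = lap S (fun y => F (g * y)) x := by
  simp [lap, mul_assoc]

lemma poisson (hS : Gen S) (g : Γ → ℝ) (hg : ∀ (n : N) x, g (n * x) = g x) :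
    ∃ (h : Γ → ℝ) (k : ℝ), (∀ (n : N) x, h (n * x) = h x) ∧ ∀ x, g x + lap S h x = k := by
  let I : Submodule ℝ (Γ → ℝ) :=
    { carrier := {h | ∀ (n : N) x, h (n * x) = h x}
      add_mem' := fun {a b} ha hb n x => by simp [ha n x, hb n x]
      zero_mem' := fun _ _ => rfl
      smul_mem' := fun c a ha n x => by simp [ha n x] }
  have hfin : FiniteDimensional ℝ I := by
    let ι : I →ₗ[ℝ] (Γ ⧸ N → ℝ) :=
      { toFun := fun h q => h.1 q.out⁻¹
        map_add' := fun _ _ => rfl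
        map_smul' := fun _ _ => rfl }
    refine FiniteDimensional.of_injective ι fun a b e => Subtype.ext (funext fun x => ?_)
    rw [← inv_rep N a.1 a.2 x, ← inv_rep N b.1 b.2 x]
    exact congrFun e ((x⁻¹ : Γ) : Γ ⧸ N)
  let T : I →ₗ[ℝ] I :=
    { toFun := fun h => ⟨fun x => lap S h.1 x + h.1 1, fun n x => by
        show lap S h.1 (n * x) + h.1 1 = lap S h.1 x + h.1 1
        rw [lap_left]; congr 2; funext y; exact h.2 n y⟩
      map_add' := fun a b => Subtype.ext (funext fun x => by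
        have := lap_add (S := S) a.1 b.1 x
        show lap S (fun y => a.1 y + b.1 y) x + (a.1 1 + b.1 1) = lap S a.1 x + a.1 1 + (lap S b.1 x + b.1 1)
        linarith)
      map_smul' := fun c a => Subtype.ext (funext fun x => by
        have := lap_smul (S := S) c a.1 x
        show lap S (fun y => c * a.1 y) x + c * a.1 1 = c * (lap S a.1 x + a.1 1)
        linarith) }
  have hinj : Function.Injective T := by
    rw [injective_iff_map_eq_zero]
    intro a ha
    have h1 : ∀ x, lap S a.1 x + a.1 1 = 0 := fun x => congrFun (congrArg Subtype.val ha) x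
    have hc : ∀ x y, a.1 x = a.1 y := by
      rcases le_total (a.1 1) 0 with h | h
      · exact max_principle N hS a.1 a.2 fun x => by linarith [h1 x]
      · intro x y
        have := max_principle N hS (fun y => -1 * a.1 y) (fun n x => by simp only [a.2 n x])
          (fun x => by rw [lap_smul]; linarith [h1 x]) x y
        linarith
    have h2 : lap S a.1 1 = 0 := sum_eq_zero fun t _ => by rw [hc (1 * t) 1]; ring
    refine Subtype.ext (funext fun x => ?_)
    show a.1 x = 0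
    rw [hc x 1]; linarith [h1 1]
  obtain ⟨h, e⟩ := (LinearMap.injective_iff_surjective.1 hinj) ⟨fun x => -g x, fun n x => by
    simp only [hg n x]⟩
  refine ⟨h.1, -h.1 1, h.2, fun x => ?_⟩
  have : lap S h.1 x + h.1 1 = -g x := congrFun (congrArg Subtype.val e) x
  linarith

lemma const_zero (hS : Gen S) (F : Γ → ℝ) (η : N → ℝ) (hF : ∀ (n : N) x, F (n * x) = F x + η n)
    (k : ℝ) (hk : ∀ x, lap S F x = k) : k = 0 := by
  classical
  have := Fintype.ofFinite (Γ ⧸ N)
  let θ : Γ → ℝ := fun t => ∑ q : Γ ⧸ N, (F (q.out⁻¹ * t) - F q.out⁻¹)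
  have hθ : ∀ t, θ t⁻¹ = - θ t := by
    intro t
    simp only [θ]
    rw [← sum_neg_distrib, ← Equiv.sum_comp (MulAction.toPerm t⁻¹ : Equiv.Perm (Γ ⧸ N))]
    refine sum_congr rfl fun q _ => ?_
    have e : (MulAction.toPerm t⁻¹ q : Γ ⧸ N) = (((q.out⁻¹ * t)⁻¹ : Γ) : Γ ⧸ N) := by
      rw [MulAction.toPerm_apply, mul_inv_rev, inv_inv]
      conv_lhs => rw [← QuotientGroup.out_eq' q]
      rfl
    rw [e]
    have := inv_rep N (fun x => F (x * t⁻¹) - F x) (fun n x => by
      simp only [mul_assoc, hF]; ring) (q.out⁻¹ * t)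
    simp only [rep] at this
    rw [this]; simp
  have h1 : ∑ t ∈ S, θ t = ∑ t ∈ S, θ t⁻¹ :=
    sum_nbij' (·⁻¹) (·⁻¹) (fun t ht => hS.symm t ht) (fun t ht => hS.symm t ht) (by simp) (by simp)
      (by simp)
  simp only [hθ, sum_neg_distrib] at h1
  have h2 : ∑ t ∈ S, θ t = ∑ q : Γ ⧸ N, k := by
    simp only [θ]
    rw [sum_comm]
    exact sum_congr rfl fun q _ => hk _
  have h3 : (Fintype.card (Γ ⧸ N) : ℝ) * k = 0 := by
    rw [sum_const, card_univ, nsmul_eq_mul] at h2; linarith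
  exact (mul_eq_zero.1 h3).resolve_left (by exact_mod_cast Fintype.card_ne_zero)

lemma harm (hS : Gen S) (η : N → ℝ) (hη : ∀ n m, η (n * m) = η n + η m) :
    ∃ F : Γ → ℝ, F 1 = 0 ∧ (∀ x, lap S F x = 0) ∧ ∀ (n : N) x, F (n * x) = F x + η n := by
  let F0 : Γ → ℝ := fun x => η (nn N x)
  have h0 : ∀ (n : N) x, F0 (n * x) = F0 x + η n := fun n x => by
    simp only [F0]; rw [nn_mul, hη]; ring
  obtain ⟨h, k, h1, h2⟩ := poisson N hS (lap S F0) fun n x => by
    rw [lap_left]; simp only [h0]; rw [lap_add, lap_const]; simp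
  have h3 : ∀ (n : N) x, (fun y => F0 y + h y + -(F0 1 + h 1)) (n * x) =
      (fun y => F0 y + h y + -(F0 1 + h 1)) x + η n := fun n x => by
    simp only [h0, h1]; ring
  have h4 : ∀ x, lap S (fun y => F0 y + h y + -(F0 1 + h 1)) x = k := fun x => by
    rw [lap_add (fun y => F0 y + h y), lap_add, lap_const, h2, add_zero]
  have := const_zero N hS _ η h3 k h4
  exact ⟨_, by simp, fun x => (h4 x).trans this, h3⟩

lemma harm_unique (hS : Gen S) (F G : Γ → ℝ) (h1 : F 1 = G 1) (hF : ∀ x, lap S F x = 0)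
    (hG : ∀ x, lap S G x = 0) (η : N → ℝ) (h2 : ∀ (n : N) x, F (n * x) = F x + η n)
    (h3 : ∀ (n : N) x, G (n * x) = G x + η n) (x : Γ) : F x = G x := by
  have := max_principle N hS (fun y => F y + -1 * G y) (fun n x => by simp only [h2, h3]; ring)
    (fun x => by rw [lap_add, lap_smul, hF, hG]; simp) x 1
  linarith

lemma cycle (nxt : Γ → Γ) (x : Γ) : ∃ (i l : ℕ) (n : N), 0 < l ∧ nxt^[l] (nxt^[i] x) = n * nxt^[i] x := by
  obtain ⟨i, j, hij, e⟩ := Finite.exists_ne_map_eq_of_infinite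
    (fun k : ℕ => (((nxt^[k] x)⁻¹ : Γ) : Γ ⧸ N))
  wlog h : i < j generalizing i j
  · exact this j i hij.symm e.symm (by omega)
  refine ⟨i, j - i, ⟨nxt^[j] x * (nxt^[i] x)⁻¹, ?_⟩, by omega, ?_⟩
  · have := QuotientGroup.eq.1 e.symm
    simpa using this
  · rw [← Function.iterate_add_apply, Nat.sub_add_cancel h.le]; simp

omit [N.FiniteIndex] [Group Γ] in
lemma iter_add (nxt : Γ → Γ) (g : Γ → ℝ) (a : ℝ) (h : ∀ y, g (nxt y) = g y + a) (l : ℕ) (x : Γ) :
    g (nxt^[l] x) = g x + l * a := by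
  induction l with
  | zero => simp
  | succ l ih => rw [Function.iterate_succ_apply', h, ih]; push_cast; ring

end Pool.Agent.H9.Oll
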