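import Mathlib
import Pool.Agent.H9.OllB

set_option autoImplicit false

namespace Pool.Agent.H9.Oll

open Finset

variable {Γ : Type*} [Group Γ] {S : Finset Γ}

abbrev Cay (S : Finset Γ) : SimpleGraph Γ := SimpleGraph.mulCayley (S : Set Γ)

lemma Gen.adj (hS : Gen S) (x y : Γ) : (Cay S).Adj x y ↔ ∃ t ∈ S, y = x * t := by
  rw [SimpleGraph.mulCayley_adj']
  constructor
  · rintro ⟨-, g, hg, h | h⟩
    · exact ⟨g, hg, h.symm⟩
    · exact ⟨g⁻¹, hS.symm g hg, by rw [h]; simp⟩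
  · rintro ⟨t, ht, rfl⟩
    refine ⟨fun e => hS.one ?_, t, ht, Or.inl rfl⟩
    have : t = 1 := by simpa using e.symm
    rwa [this] at ht

lemma Gen.reach (hS : Gen S) (x y : Γ) : (Cay S).Reachable x y :=
  hS.ind (fun y => (Cay S).Reachable x y) x (SimpleGraph.Reachable.refl x)
    (fun z t ht h => h.trans ((hS.adj _ _).2 ⟨t, ht, rfl⟩).reachable) y

/-- non-negative curvature in permutation form -/
def Perm1 (S : Finset Γ) : Prop := ∀ x, ∀ s ∈ S, ∃ π : Equiv.Perm S,
  ∑ t : S, ((Cay S).dist (x * t) (x * s * π t) : ℝ) ≤ S.card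

structure HL (S : Finset Γ) (f : Γ → ℝ) : Prop where
  lip : ∀ x, ∀ t ∈ S, f (x * t) ≤ f x + 1
  harm : ∀ x, lap S f x = 0

def Mono (S : Finset Γ) (f g : Γ → ℝ) : Prop := ∀ x, ∀ t ∈ S, f (x * t) = f x + 1 → g (x * t) ≤ g x

def Perf (S : Finset Γ) (f g : Γ → ℝ) (x : Γ) : Prop :=
  ∃ t ∈ S, f (x * t) = f x + 1 ∧ g (x * t) = g x

lemma path (hS : Gen S) {f g : Γ → ℝ} (hf : HL S f) (hg : Mono S f g) {x y : Γ}
    (p : (Cay S).Walk x y) : f y ≤ f x + p.length ∧
      (f y = f x + p.length → g y ≤ g x ∧ (g y = g x → x = y ∨ Perf S f g x)) := by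
  induction p with
  | nil => simp
  | @cons a b c h p ih =>
    obtain ⟨t, ht, rfl⟩ := (hS.adj _ _).1 h
    have h1 := hf.lip a t ht
    simp only [SimpleGraph.Walk.length_cons, Nat.cast_add, Nat.cast_one]
    refine ⟨by linarith [ih.1], fun e => ?_⟩
    have e1 : f (a * t) = f a + 1 := by linarith [ih.1]
    have e2 := (ih.2 (by linarith)).1
    have e3 := hg a t ht e1
    exact ⟨by linarith, fun e4 => Or.inr ⟨t, ht, e1, by linarith⟩⟩

lemma pathd (hS : Gen S) {f g : Γ → ℝ} (hf : HL S f) (hg : Mono S f g) (x y : Γ) :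
    f y ≤ f x + (Cay S).dist x y ∧
      (f y = f x + (Cay S).dist x y → g y ≤ g x ∧ (g y = g x → x = y ∨ Perf S f g x)) := by
  obtain ⟨p, hp⟩ := (hS.reach x y).exists_walk_length_eq_dist
  rw [← hp]; exact path hS hf hg p

lemma sum_nb (F : Γ → ℝ) (x : Γ) : ∑ t : S, F (x * t) = lap S F x + S.card * F x := by
  unfold lap
  rw [sum_sub_distrib, sum_const, nsmul_eq_mul, sum_coe_sort S (fun t => F (x * t))]; ring

lemma couple (hS : Gen S) (hP : Perm1 S) {f g : Γ → ℝ} (hf : HL S f) (hg : Mono S f g) (k : ℝ)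
    (hk : ∀ x, lap S g x = k) (x s : Γ) (hs : s ∈ S) (e1 : f (x * s) = f x + 1)
    (e2 : g (x * s) = g x) : ∃ π : Equiv.Perm S, ∀ t : S,
      f (x * s * π t) = f (x * t) + (Cay S).dist (x * t) (x * s * π t) ∧ g (x * s * π t) = g (x * t) := by
  obtain ⟨π, hπ⟩ := hP x s hs
  have a1 : ∑ t : S, f (x * s * π t) = S.card * (f x + 1) := by
    rw [Equiv.sum_comp π (fun t : S => f (x * s * t)), sum_nb, hf.harm, e1, zero_add]
  have a2 : ∑ t : S, f (x * t) = S.card * f x := by rw [sum_nb, hf.harm, zero_add]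
  have a3 := (sum_eq_zero_iff_of_nonneg (s := (univ : Finset S)) (f := fun t : S =>
    f (x * t) + (Cay S).dist (x * t) (x * s * π t) - f (x * s * π t))
    (fun (t : S) _ => by linarith [(pathd hS hf hg (x * t) (x * s * π t)).1])).1 (le_antisymm (by
      rw [sum_sub_distrib, sum_add_distrib, a1, a2]; linarith)
      (sum_nonneg fun (t : S) _ => by linarith [(pathd hS hf hg (x * t) (x * s * π t)).1]))
  have a4 : ∀ t : S, f (x * s * π t) = f (x * t) + (Cay S).dist (x * t) (x * s * π t) :=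
    fun t => by linarith [a3 t (mem_univ t)]
  have b1 : ∑ t : S, g (x * s * π t) = k + S.card * g x := by
    rw [Equiv.sum_comp π (fun t : S => g (x * s * t)), sum_nb, hk, e2]
  have b2 : ∑ t : S, g (x * t) = k + S.card * g x := by rw [sum_nb, hk]
  have b3 := (sum_eq_zero_iff_of_nonneg (s := (univ : Finset S)) (f := fun t : S =>
    g (x * t) - g (x * s * π t))
    (fun (t : S) _ => by linarith [((pathd hS hf hg (x * t) (x * s * π t)).2 (a4 t)).1])).1 (by
      rw [sum_sub_distrib, b1, b2]; ring)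
  exact ⟨π, fun t => ⟨a4 t, by linarith [b3 t (mem_univ t)]⟩⟩

lemma all_perf (hS : Gen S) (hP : Perm1 S) {f g : Γ → ℝ} (hf : HL S f) (hg : Mono S f g) (k : ℝ)
    (hk : ∀ x, lap S g x = k) (x0 : Γ) (h0 : Perf S f g x0) : ∀ x, Perf S f g x := by
  classical
  have A : ∀ x, ∀ s ∈ S, f (x * s) = f x + 1 → g (x * s) = g x → Perf S f g (x * s) := by
    intro x s hs e1 e2
    obtain ⟨π, hπ⟩ := couple hS hP hf hg k hk x s hs e1 e2
    obtain ⟨a, b⟩ := hπ ⟨s, hs⟩
    rcases ((pathd hS hf hg _ _).2 a).2 b with h | h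
    · have : (π ⟨s, hs⟩ : Γ) = 1 := by simpa using h.symm
      exact absurd (this ▸ (π ⟨s, hs⟩).2) hS.one
    · exact h
  refine hS.ind _ x0 h0 fun x t ht hx => ?_
  by_contra hp
  set p := x * t with hpd
  obtain ⟨u, hu, hm⟩ := exists_max_image (S.filter fun u => Perf S f g (p * u⁻¹))
    (fun u => f (p * u⁻¹)) ⟨t, mem_filter.2 ⟨ht, by simpa [hpd] using hx⟩⟩
  obtain ⟨hu, s, hs, e1, e2⟩ := mem_filter.1 hu
  obtain ⟨π, hπ⟩ := couple hS hP hf hg k hk _ s hs e1 e2
  obtain ⟨a, b⟩ := hπ ⟨u, hu⟩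
  rcases ((pathd hS hf hg _ _).2 a).2 b with h | h
  · have e : p * (π ⟨u, hu⟩ : Γ)⁻¹ = p * u⁻¹ * s := by
      rw [mul_inv_eq_iff_eq_mul, ← h]; simp
    have := hm (π ⟨u, hu⟩) (mem_filter.2 ⟨(π ⟨u, hu⟩).2, by rw [e]; exact A _ s hs e1 e2⟩)
    rw [e] at this
    linarith
  · exact hp (by simpa using h)

theorem no_heis (hS : Gen S) (hP : Perm1 S) (N : Subgroup Γ) [N.FiniteIndex] (ω : N → N → ℝ)
    (c : N → ℝ) (hω : Bi ω) (hc : ∀ a b, c (a * b) = c a + c b + ω a b / 2) (a0 b0 : N) :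
    ω a0 b0 = 0 := by
  classical
  have : Group.FG Γ := ⟨⟨S, hS.gen⟩⟩
  obtain ⟨T, hT⟩ := Group.fg_def.1 (inferInstance : Group.FG N)
  choose Ω Ω1 Ωh Ωe using fun n : N => harm N hS (ω n) (hω.right n)
  have Ωm : ∀ n m x, Ω (n * m) x = Ω n x + Ω m x := fun n m x =>
    harm_unique N hS (Ω (n * m)) (fun y => Ω n y + Ω m y) (by simp [Ω1]) (Ωh _)
      (fun y => by rw [lap_add, Ωh, Ωh]; simp) (ω (n * m)) (Ωe _)
      (fun k y => by simp only [Ωe, hω.left]; ring) x
  -- a homomorphism vanishing on `T` vanishes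
  have homT : ∀ φ : N → ℝ, (∀ a b, φ (a * b) = φ a + φ b) → (∀ g ∈ T, φ g = 0) → ∀ n, φ n = 0 := by
    intro φ h1 h2 n
    have h0 : φ 1 = 0 := by have := h1 1 1; rw [one_mul] at this; linarith
    have hn : n ∈ Subgroup.closure (T : Set N) := by rw [hT]; trivial
    induction hn using Subgroup.closure_induction with
    | mem g hg => exact h2 g hg
    | one => exact h0
    | mul a b _ _ ha hb => rw [h1, ha, hb]; simp
    | inv a _ ha => have := h1 a⁻¹ a; rw [inv_mul_cancel] at this; linarith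
  have cst : ∀ F : Γ → ℝ, (∀ x, ∀ t ∈ S, F (x * t) = F x) → ∀ x, F x = F 1 := fun F h =>
    hS.ind _ 1 rfl fun x t ht hx => (h x t ht).trans hx
  by_contra hne
  have hSne : S.Nonempty := by
    rw [nonempty_iff_ne_empty]
    rintro rfl
    apply hne
    have := cst (Ω a0) (by simp) (b0 * 1)
    rw [Ωe] at this; linarith
  obtain ⟨s', hs'⟩ := hSne
  obtain ⟨x0, s0, hs0, -, hM⟩ := exists_max N S (fun _ _ => True)
    (fun x t => ∑ g ∈ T, (Ω g (x * t) - Ω g x) ^ 2) (fun n x t _ => ⟨trivial, by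
      simp only [mul_assoc, Ωe]; exact sum_congr rfl fun _ _ => by ring⟩) ⟨1, s', hs', trivial⟩
  set M := ∑ g ∈ T, (Ω g (x0 * s0) - Ω g x0) ^ 2 with hMd
  let τ : N → ℝ := fun n => Ω n (x0 * s0) - Ω n x0
  have τm : ∀ a b, τ (a * b) = τ a + τ b := fun a b => by simp only [τ, Ωm]; ring
  have hM0 : 0 < M := by
    by_contra h
    apply hne
    refine homT (fun a => ω a b0) (fun a b => hω.left a b b0) (fun g hg => ?_) a0
    have := cst (Ω g) (fun x t ht => by
      have h1 := hM x t ht trivial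
      have h2 := single_le_sum (f := fun g => (Ω g (x * t) - Ω g x) ^ 2) (fun _ _ => sq_nonneg _) hg
      nlinarith [sq_nonneg (Ω g (x * t) - Ω g x)]) (b0 * 1)
    rw [Ωe] at this; linarith
  let f : Γ → ℝ := fun x => M⁻¹ * ∑ g ∈ T, τ g * Ω g x
  have finc : ∀ x y, M * (f y - f x) = ∑ g ∈ T, τ g * (Ω g y - Ω g x) := by
    intro x y
    simp only [f]
    rw [← mul_sub, ← mul_assoc, mul_inv_cancel₀ hM0.ne', one_mul, ← sum_sub_distrib]
    exact sum_congr rfl fun _ _ => by ring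
  have fsq : ∀ x y, ∑ g ∈ T, (τ g - (Ω g y - Ω g x)) ^ 2 =
      M + ∑ g ∈ T, (Ω g y - Ω g x) ^ 2 - 2 * (M * (f y - f x)) := by
    intro x y
    rw [finc, hMd, mul_sum, ← sum_add_distrib, ← sum_sub_distrib]
    exact sum_congr rfl fun _ _ => by simp only [τ]; ring
  have hf : HL S f := by
    constructor
    · intro x t ht
      have h1 := fsq x (x * t)
      have h2 := hM x t ht trivial
      have h3 : 0 ≤ ∑ g ∈ T, (τ g - (Ω g (x * t) - Ω g x)) ^ 2 := sum_nonneg fun _ _ => sq_nonneg _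
      nlinarith
    · intro x
      have : M * lap S f x = 0 := by
        unfold lap
        rw [mul_sum]
        simp only [finc]
        rw [sum_comm]
        refine sum_eq_zero fun g _ => ?_
        rw [← mul_sum]
        exact mul_eq_zero_of_right _ (Ωh g x)
      exact (mul_eq_zero.1 this).resolve_left hM0.ne'
  have tight : ∀ x, ∀ t ∈ S, f (x * t) = f x + 1 → ∀ n, Ω n (x * t) = Ω n x + τ n := by
    intro x t ht e n
    have h1 := fsq x (x * t)
    have h2 := hM x t ht trivial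
    have h3 := (sum_eq_zero_iff_of_nonneg (s := T) (f := fun g => (τ g - (Ω g (x * t) - Ω g x)) ^ 2)
      (fun _ _ => sq_nonneg _)).1 (le_antisymm (by rw [h1, e]; linarith)
        (sum_nonneg fun _ _ => sq_nonneg _))
    have := homT (fun g => τ g - (Ω g (x * t) - Ω g x)) (fun a b => by simp only [τm, Ωm]; ring)
      (fun g hg => pow_eq_zero_iff two_ne_zero |>.1 (h3 g hg)) n
    linarith
  have t0 : f (x0 * s0) = f x0 + 1 := by
    have h1 := finc x0 (x0 * s0)
    have h2 : ∑ g ∈ T, τ g * (Ω g (x0 * s0) - Ω g x0) = M := sum_congr rfl fun _ _ => by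
      simp only [τ]; ring
    have : M * (f (x0 * s0) - f x0) = M * 1 := by rw [h1, h2, mul_one]
    have := mul_left_cancel₀ hM0.ne' this
    linarith
  let φ : N → ℝ := fun n => M⁻¹ * ∑ g ∈ T, τ g * ω g n
  have fe : ∀ (n : N) x, f (n * x) = f x + φ n := fun n x => by
    simp only [f, φ, Ωe, mul_add, sum_add_distrib]
  -- cycles along tight edges
  have cyc : ∀ g : Γ → ℝ, (∀ x, Perf S f g x) → ∃ nxt : Γ → Γ, (∀ x, ∃ t ∈ S, nxt x = x * t ∧
      f (x * t) = f x + 1 ∧ g (x * t) = g x) ∧ ∀ x, ∃ (i l : ℕ) (n : N), 0 < l ∧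
        nxt^[l] (nxt^[i] x) = n * nxt^[i] x ∧ φ n = l ∧ ∀ m, ω m n = l * τ m := by
    intro g hg
    choose t ht e1 e2 using hg
    refine ⟨fun x => x * t x, fun x => ⟨t x, ht x, rfl, e1 x, e2 x⟩, fun x => ?_⟩
    obtain ⟨i, l, n, hl, e⟩ := cycle N (fun x => x * t x) x
    refine ⟨i, l, n, hl, e, ?_, fun m => ?_⟩
    · have := iter_add (fun x => x * t x) f 1 e1 l ((fun x => x * t x)^[i] x)
      rw [e, fe] at this; linarith
    · have := iter_add (fun x => x * t x) (Ω m) (τ m) (fun y => tight y _ (ht y) (e1 y) m) l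
        ((fun x => x * t x)^[i] x)
      rw [e, Ωe] at this; linarith
  obtain ⟨n0, l0, hl0, hn0⟩ : ∃ (n0 : N) (l0 : ℝ), 0 < l0 ∧ ∀ m, ω m n0 = l0 * τ m := by
    obtain ⟨nxt, -, h⟩ := cyc (fun _ => 0) (all_perf hS hP hf (fun _ _ _ _ => le_rfl) 0
      (lap_const 0) x0 ⟨s0, hs0, t0, rfl⟩)
    obtain ⟨-, l, n, hl, -, -, h⟩ := h 1
    exact ⟨n, l, by exact_mod_cast hl, h⟩
  have τ0 : τ n0 = 0 := by
    have := hn0 n0
    rw [hω.self] at this
    exact (mul_eq_zero.1 this.symm).resolve_left hl0.ne'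
  set w := Ω n0 with hw
  have we : ∀ (n : N) x, w (n * x) = w x - l0 * τ n := fun n x => by
    rw [hw, Ωe, hω.anti, hn0]; ring
  have wt : ∀ x, ∀ t ∈ S, f (x * t) = f x + 1 → w (x * t) = w x := fun x t ht e => by
    rw [hw, tight x t ht e, τ0, add_zero]
  let B0 : Γ → ℝ := fun x => c (nn N x) + Ω (nn N x) (rep N x) / 2 + w x * f x / (2 * l0)
  have B0e : ∀ (n : N) x, B0 (n * x) = B0 x + (c n - τ n * φ n / 2) +
      (1 / 2 * Ω n x + (φ n / (2 * l0) * w x + -(τ n / 2) * f x)) := by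
    intro n x
    have : Ω n x = Ω n (rep N x) + ω n (nn N x) := by
      conv_lhs => rw [← nn_rep N x, Ωe]
    simp only [B0, nn_mul, rep_mul, hc, Ωm, we, fe]
    rw [this]
    field_simp
    ring
  clear_value B0
  obtain ⟨h, k, hi, hk⟩ := poisson N hS (lap S B0) fun n x => by
    rw [lap_left]
    simp only [B0e]
    rw [lap_add (fun y => B0 y + (c n - τ n * φ n / 2)), lap_add, lap_const, lap_add, lap_add,
      lap_smul, lap_smul, lap_smul, Ωh, Ωh, hf.harm]
    simp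
  obtain ⟨x1, s1, hs1, e1, hμ⟩ := exists_max N S (fun x t => t ∈ S ∧ f (x * t) = f x + 1)
    (fun x t => B0 (x * t) + h (x * t) - (B0 x + h x)) (fun n x t ht => ⟨⟨ht.1, by
      rw [mul_assoc, fe, fe, ht.2]; ring⟩, by
      simp only [mul_assoc, B0e, hi, tight x t ht.1 ht.2 n, wt x t ht.1 ht.2, ht.2]; ring⟩)
    ⟨x0, s0, hs0, hs0, t0⟩
  set μ := B0 (x1 * s1) + h (x1 * s1) - (B0 x1 + h x1) with hμd
  let b : Γ → ℝ := fun x => B0 x + h x + -μ * f x
  have bm : Mono S f b := fun x t ht e => by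
    have := hμ x t ht ⟨ht, e⟩
    simp only [b, e]; linarith
  have bl : ∀ x, lap S b x = k := fun x => by
    simp only [b]
    rw [lap_add (fun y => B0 y + h y), lap_add, lap_smul, hf.harm, hk]; simp
  obtain ⟨nxt, hn1, hn2⟩ := cyc b (all_perf hS hP hf bm k bl x1 ⟨s1, hs1, e1.2, by
    simp only [b, e1.2]; linarith⟩)
  let Θ : Γ → ℝ := fun x => ∑ t : S, (w (x * t) - w x) ^ 2
  let Ψ : Γ → ℝ := fun x => ∑ t : S, (w (x * t) - w x) * (b (x * t) - b x)
  have inv : ∀ x, Θ (nxt x) = Θ x + 0 ∧ Ψ (nxt x) = Ψ x + 0 := by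
    intro x
    obtain ⟨s, hs, e, a1, a2⟩ := hn1 x
    obtain ⟨π, hπ⟩ := couple hS hP hf bm k bl x s hs a1 a2
    have ww : ∀ t : S, w (x * s * π t) = w (x * t) := fun t => by
      have p1 := ((pathd hS hf (g := w) (fun y u hu e => (wt y u hu e).le) _ _).2 (hπ t).1).1
      have p2 := ((pathd hS hf (g := fun y => -w y) (fun y u hu e => by
        simp only [wt y u hu e, le_refl]) _ _).2 (hπ t).1).1
      linarith
    simp only [Θ, Ψ, e, add_zero]
    rw [← Equiv.sum_comp π, ← Equiv.sum_comp π (fun t : S => (w (x * s * t) - w (x * s)) *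
      (b (x * s * t) - b (x * s)))]
    simp only [ww, (hπ _).2, wt x s hs a1, a2, and_self]
  have Θ0 : ∀ x, Θ x = 0 := by
    intro x
    obtain ⟨i, l, n, hl, e, a1, a2⟩ := hn2 x
    have hl' : (0 : ℝ) < l := by exact_mod_cast hl
    have c1 := iter_add nxt Θ 0 (fun y => (inv y).1) i x
    have c2 := iter_add nxt Ψ 0 (fun y => (inv y).2) l (nxt^[i] x)
    rw [e] at c2
    set y := nxt^[i] x
    have τn : τ n = 0 := by
      have d1 := hn0 n
      rw [hω.anti, a2, τ0] at d1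
      exact (mul_eq_zero.1 (by linarith : l0 * τ n = 0)).resolve_left hl0.ne'
    have Ωn : ∀ z, Ω n z = l / l0 * w z := harm_unique N hS (Ω n) (fun z => l / l0 * w z)
      (by simp [hw, Ω1]) (Ωh n) (fun z => by rw [lap_smul, Ωh, mul_zero]) (ω n) (Ωe n)
      (fun m z => by
        rw [we, hω.anti, a2]; field_simp; ring)
    have be : ∀ z, b (n * z) = b z + (c n - μ * l) + l / l0 * w z := fun z => by
      simp only [b, B0e, hi, fe, τn, a1, Ωn]; field_simp; ring
    have c3 : Ψ (n * y) = Ψ y + l / l0 * Θ y := by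
      simp only [Ψ, Θ, mul_assoc, be, we, τn]
      rw [mul_sum, ← sum_add_distrib]
      exact sum_congr rfl fun _ _ => by ring
    have c4 : l / l0 * Θ y = 0 := by linarith
    have := (mul_eq_zero.1 c4).resolve_left (by positivity)
    linarith
  have wc := cst w fun x t ht => by
    have := (sum_eq_zero_iff_of_nonneg (fun _ _ => sq_nonneg _)).1 (Θ0 x) ⟨t, ht⟩ (mem_univ _)
    have := pow_eq_zero_iff two_ne_zero |>.1 this
    linarith
  have : M = 0 := sum_eq_zero fun g _ => by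
    have d1 := wc (g * 1)
    rw [we] at d1
    have : τ g = 0 := (mul_eq_zero.1 (by linarith : l0 * τ g = 0)).resolve_left hl0.ne'
    simp only [τ] at this
    rw [this]; simp
  linarith

end Pool.Agent.H9.Oll
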