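import Mathlib

set_option autoImplicit false

namespace Pool.Agent.H9.Oll

open Classical

variable {V : Type*}

/-- One-step law of simple random walk from `x`: uniform on the neighbours of `x`. -/
noncomputable def walkLaw (G : SimpleGraph V) (x : V) (y : V) : ℝ :=
  if G.Adj x y then 1 / ((G.neighborSet x).ncard : ℝ) else 0

/-- `π` is a finitely supported coupling with marginals `a` and `b`. -/
def IsCoupling (π : V × V →₀ ℝ) (a b : V → ℝ) : Prop :=
  (∀ p, 0 ≤ π p) ∧ (∀ u, ∑ p ∈ π.support with p.1 = u, π p = a u) ∧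
    (∀ v, ∑ p ∈ π.support with p.2 = v, π p = b v)

/-- `L¹`-Wasserstein distance for the graph metric. -/
noncomputable def W1 (G : SimpleGraph V) (a b : V → ℝ) : ℝ :=
  sInf {c | ∃ π : V × V →₀ ℝ, IsCoupling π a b ∧
    c = ∑ p ∈ π.support, π p * (G.dist p.1 p.2 : ℝ)}

/-- Ollivier–Ricci curvature of the edge `x y` (non-lazy walk). -/
noncomputable def kappa (G : SimpleGraph V) (x y : V) : ℝ := 1 - W1 G (walkLaw G x) (walkLaw G y)

end Pool.Agent.H9.Oll
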