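import Mathlib
import Pool.Agent.H9.OllC
import Pool.Agent.H9.OllDef

set_option autoImplicit false

namespace Pool.Agent.H9.Oll

open Finset
open scoped commutatorElement

variable {Γ : Type*} [Group Γ] {S : Finset Γ}

open Classical in
lemma law (hS : Gen S) (x y : Γ) :
    walkLaw (Cay S) x y = if ∃ t ∈ S, y = x * t then 1 / (S.card : ℝ) else 0 := by
  have : (Cay S).neighborSet x = (fun t => x * t) '' (S : Set Γ) := by
    ext y
    simp only [SimpleGraph.mem_neighborSet, hS.adj, Set.mem_image, mem_coe, eq_comm]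
  unfold walkLaw
  rw [this, Set.ncard_image_of_injective _ (mul_right_injective x), Set.ncard_coe_finset, hS.adj]
  congr

lemma perm1 (hS : Gen S) (h : ∀ x y, (Cay S).Adj x y → 0 ≤ kappa (Cay S) x y) : Perm1 S := by
  classical
  intro x s hs
  have hn : (0 : ℝ) < S.card := by exact_mod_cast card_pos.2 ⟨s, hs⟩
  have h1 := h x (x * s) ((hS.adj _ _).2 ⟨s, hs, rfl⟩)
  unfold kappa W1 at h1
  have hne : {c | ∃ π : Γ × Γ →₀ ℝ, IsCoupling π (walkLaw (Cay S) x) (walkLaw (Cay S) (x * s)) ∧
      c = ∑ p ∈ π.support, π p * ((Cay S).dist p.1 p.2 : ℝ)}.Nonempty := by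
    let e : Γ → Γ × Γ := fun t => (x * t, x * s * t)
    have he : Function.Injective e := fun a b h => mul_left_cancel (congrArg Prod.fst h)
    let π : Γ × Γ →₀ ℝ := Finsupp.indicator (S.image e) fun _ _ => 1 / (S.card : ℝ)
    have hπ : ∀ p, π p = if p ∈ S.image e then 1 / (S.card : ℝ) else 0 := fun p => by
      simp only [π, Finsupp.indicator_apply]; split_ifs <;> rfl
    have hs : π.support = S.image e := by
      ext p; rw [Finsupp.mem_support_iff, hπ]; split_ifs with h <;> simp [h, hn.ne']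
    refine ⟨_, π, ⟨fun p => by rw [hπ]; split_ifs <;> positivity, fun u => ?_, fun u => ?_⟩, rfl⟩
    · rw [law hS, hs]
      split_ifs with hu
      · obtain ⟨t, ht, rfl⟩ := hu
        refine Eq.trans (sum_eq_single_of_mem (e t) ?_ ?_)
          ((hπ _).trans (if_pos (mem_image_of_mem _ ht)))
        · exact mem_filter.2 ⟨mem_image_of_mem _ ht, rfl⟩
        intro p hp hne
        obtain ⟨hp, e1⟩ := mem_filter.1 hp
        obtain ⟨u, -, rfl⟩ := mem_image.1 hp
        exact absurd (by rw [mul_left_cancel e1]) hne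
      · refine sum_eq_zero fun p hp => ?_
        obtain ⟨hp, e1⟩ := mem_filter.1 hp
        obtain ⟨t, ht, rfl⟩ := mem_image.1 hp
        exact absurd ⟨t, ht, e1.symm⟩ hu
    · rw [law hS, hs]
      split_ifs with hu
      · obtain ⟨t, ht, rfl⟩ := hu
        refine Eq.trans (sum_eq_single_of_mem (e t) ?_ ?_)
          ((hπ _).trans (if_pos (mem_image_of_mem _ ht)))
        · exact mem_filter.2 ⟨mem_image_of_mem _ ht, rfl⟩
        intro p hp hne
        obtain ⟨hp, e1⟩ := mem_filter.1 hp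
        obtain ⟨u, -, rfl⟩ := mem_image.1 hp
        exact absurd (by rw [mul_left_cancel e1]) hne
      · refine sum_eq_zero fun p hp => ?_
        obtain ⟨hp, e1⟩ := mem_filter.1 hp
        obtain ⟨t, ht, rfl⟩ := mem_image.1 hp
        exact absurd ⟨t, ht, e1.symm⟩ hu
  obtain ⟨_, ⟨π, ⟨p0, p1, p2⟩, rfl⟩, hc⟩ := exists_lt_of_csInf_lt hne
    (lt_of_le_of_lt (sub_nonneg.1 h1) (by have := one_div_pos.2 hn; linarith : (1 : ℝ) < 1 + 1 / S.card))
  let e : S × S → Γ × Γ := fun z => (x * z.1, x * s * z.2)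
  have he : Function.Injective e := fun a b h => Prod.ext
    (Subtype.ext (mul_left_cancel (congrArg Prod.fst h)))
    (Subtype.ext (mul_left_cancel (congrArg Prod.snd h)))
  have hsub : π.support ⊆ univ.image e := by
    intro p hp
    have hp0 : 0 < π p := lt_of_le_of_ne (p0 p) (Finsupp.mem_support_iff.1 hp).symm
    have a1 := single_le_sum (f := fun p => π p) (s := π.support.filter fun q => q.1 = p.1)
      (fun q _ => p0 q) (mem_filter.2 ⟨hp, rfl⟩)
    have a2 := single_le_sum (f := fun p => π p) (s := π.support.filter fun q => q.2 = p.2)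
      (fun q _ => p0 q) (mem_filter.2 ⟨hp, rfl⟩)
    have b1 := p1 p.1
    have b2 := p2 p.2
    rw [law hS] at b1 b2
    split_ifs at b1 with c1
    · split_ifs at b2 with c2
      · obtain ⟨t, ht, e1⟩ := c1
        obtain ⟨u, hu, e2⟩ := c2
        exact mem_image.2 ⟨(⟨t, ht⟩, ⟨u, hu⟩), mem_univ _, Prod.ext e1.symm e2.symm⟩
      · exact absurd (a2.trans (le_of_eq (by convert b2))) (not_le.2 hp0)
    · exact absurd (a1.trans (le_of_eq (by convert b1))) (not_le.2 hp0)
  have conv : ∀ F : Γ × Γ → ℝ, ∑ p ∈ π.support, π p * F p =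
      ∑ t : S, ∑ u : S, π (x * t, x * s * u) * F (x * t, x * s * u) := by
    intro F
    rw [sum_subset hsub (fun p _ hp => by rw [Finsupp.notMem_support_iff.1 hp, zero_mul]),
      sum_image (fun a _ b _ h => he h), Fintype.sum_prod_type]
  let A : Matrix S S ℝ := fun t u => S.card * π (x * t, x * s * u)
  have hA : A ∈ doublyStochastic ℝ S := by
    rw [mem_doublyStochastic_iff_sum]
    refine ⟨fun t u => mul_nonneg hn.le (p0 _), fun t => ?_, fun u => ?_⟩
    · have a := p1 (x * t)
      rw [law hS, if_pos ⟨t, t.2, rfl⟩, sum_filter] at a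
      have b := conv fun p => if p.1 = x * t then 1 else 0
      simp only [mul_ite, mul_one, mul_zero, mul_right_inj, Subtype.coe_inj] at b
      rw [sum_comm] at b
      simp only [sum_ite_eq', mem_univ, if_true] at b
      simp only [A]
      rw [← mul_sum, ← b]
      convert (show (S.card : ℝ) * (1 / S.card) = 1 by field_simp) using 2
    · have a := p2 (x * s * u)
      rw [law hS, if_pos ⟨u, u.2, rfl⟩, sum_filter] at a
      have b := conv fun p => if p.2 = x * s * u then 1 else 0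
      simp only [mul_ite, mul_one, mul_zero, mul_right_inj, Subtype.coe_inj] at b
      simp only [sum_ite_eq', mem_univ, if_true] at b
      simp only [A]
      rw [← mul_sum, ← b]
      convert (show (S.card : ℝ) * (1 / S.card) = 1 by field_simp) using 2
  obtain ⟨w, w0, w1, w2⟩ := exists_eq_sum_perm_of_mem_doublyStochastic hA
  let D : S → S → ℝ := fun t u => (Cay S).dist (x * t) (x * s * u)
  have c1 : ∑ t, ∑ u, A t u * D t u < S.card + 1 := by
    rw [conv fun p => ((Cay S).dist p.1 p.2 : ℝ)] at hc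
    have := mul_lt_mul_of_pos_left hc hn
    simp only [mul_sum, ← mul_assoc] at this
    have e : (S.card : ℝ) * (1 + 1 / S.card) = S.card + 1 := by field_simp
    rw [e] at this
    exact this
  have c2 : ∑ t, ∑ u, A t u * D t u = ∑ σ : Equiv.Perm S, w σ * ∑ t, D t (σ t) := by
    rw [← w2]
    simp only [Matrix.sum_apply, Matrix.smul_apply, smul_eq_mul, sum_mul, mul_sum]
    conv_rhs => rw [sum_comm]
    refine sum_congr rfl fun t _ => ?_
    rw [sum_comm]
    refine sum_congr rfl fun σ _ => ?_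
    simp [Equiv.Perm.permMatrix, PEquiv.toMatrix_apply, Equiv.toPEquiv_apply]
  by_contra hh
  push Not at hh
  have c3 : ∀ σ : Equiv.Perm S, (S.card : ℝ) + 1 ≤ ∑ t, D t (σ t) := fun σ => by
    have := hh σ
    simp only [D]
    exact_mod_cast this
  have c4 : ∑ σ : Equiv.Perm S, w σ * ((S.card : ℝ) + 1) ≤ ∑ σ : Equiv.Perm S, w σ * ∑ t, D t (σ t) :=
    sum_le_sum fun σ _ => mul_le_mul_of_nonneg_left (c3 σ) (w0 σ)
  rw [← sum_mul, w1] at c4
  linarith

theorem main1 (hS : Gen S) (h : ∀ x y, (Cay S).Adj x y → 0 ≤ kappa (Cay S) x y) (N : Subgroup Γ)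
    [N.FiniteIndex] (a b : N) :
    ∃ m : ℕ, 0 < m ∧ ⁅a, b⁆ ^ m ∈ (⊤ : Subgroup N).lowerCentralSeries 2 := by
  by_contra hc
  push Not at hc
  obtain ⟨ω, c, h1, h2, h3⟩ := heis a b hc
  exact h3 (no_heis hS (perm1 hS h) N ω c h1 h2 a b)

theorem main2 (hS : Gen S) (h : ∀ x y, (Cay S).Adj x y → 0 ≤ kappa (Cay S) x y)
    (hv : Group.IsVirtuallyNilpotent Γ) :
    ∃ A : Subgroup Γ, A.FiniteIndex ∧ ∀ a ∈ A, ∀ b ∈ A, a * b = b * a := by
  obtain ⟨N, h1, h2⟩ := hv
  have : Group.FG Γ := ⟨⟨S, hS.gen⟩⟩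
  have h3 := center_fin N inferInstance (comm_fin (main1 hS h N))
  refine ⟨(Subgroup.center N).map N.subtype, ⟨by
    rw [Subgroup.index_map_subtype]; exact mul_ne_zero h3.1 h2.1⟩, ?_⟩
  rintro _ ⟨a, -, rfl⟩ _ ⟨b, hb, rfl⟩
  exact congrArg Subtype.val (Subgroup.mem_center_iff.1 hb a)

end Pool.Agent.H9.Oll
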