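import Mathlib

set_option autoImplicit false

open Classical

namespace Pool.Agent.H9.Onl

def Tf (G : SimpleGraph ℕ) : Prop := ∀ a b c, G.Adj a b → G.Adj b c → ¬ G.Adj a c

def P6 (G : SimpleGraph ℕ) : Prop := ∀ a b c d e f, G.Adj a b → G.Adj b c → G.Adj c d → G.Adj d e →
  G.Adj e f → a ≠ c → b ≠ d → c ≠ e → d ≠ f → ¬ G.Adj a d → ¬ G.Adj a e → ¬ G.Adj a f →
  ¬ G.Adj b e → ¬ G.Adj b f → ¬ G.Adj c f → False

def Con (G : SimpleGraph ℕ) (W : Set ℕ) : ℕ → ℕ → Prop :=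
  Relation.ReflTransGen (fun a b => G.Adj a b ∧ a ∈ W ∧ b ∈ W)

lemma Con.symm {G : SimpleGraph ℕ} {W : Set ℕ} {x y : ℕ} (h : Con G W x y) : Con G W y x := by
  induction h with
  | refl => exact Relation.ReflTransGen.refl
  | tail _ h2 ih => exact Relation.ReflTransGen.head ⟨h2.1.symm, h2.2.2, h2.2.1⟩ ih

lemma Con.mono {G : SimpleGraph ℕ} {W W' : Set ℕ} (hW : W ⊆ W') {x y : ℕ} (h : Con G W x y) :
    Con G W' x y := by
  induction h with
  | refl => exact Relation.ReflTransGen.refl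
  | tail _ h2 ih => exact ih.tail ⟨h2.1, hW h2.2.1, hW h2.2.2⟩

lemma Con.mem {G : SimpleGraph ℕ} {W : Set ℕ} {x y : ℕ} (h : Con G W x y) (hx : x ∈ W) : y ∈ W := by
  induction h with
  | refl => exact hx
  | tail _ h2 _ => exact h2.2.2

def Cn (G : SimpleGraph ℕ) (S : Set ℕ) : Prop := ∀ x ∈ S, ∀ y ∈ S, Con G S x y

def Ed (G : SimpleGraph ℕ) (S : Set ℕ) : Prop := ∃ a ∈ S, ∃ b ∈ S, G.Adj a b

lemma nbr {G : SimpleGraph ℕ} {S : Set ℕ} (h : Cn G S) (e : Ed G S) {x : ℕ} (hx : x ∈ S) :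
    ∃ y ∈ S, G.Adj x y := by
  obtain ⟨a, ha, b, hb, hab⟩ := e
  rcases Relation.ReflTransGen.cases_head (h x hx a ha) with rfl | ⟨y, h1, -⟩
  exacts [⟨b, hb, hab⟩, ⟨y, h1.2.2, h1.1⟩]

def Pr (G : SimpleGraph ℕ) (S : Set ℕ) (c : ℕ → Bool) : Prop :=
  ∀ a ∈ S, ∀ b ∈ S, G.Adj a b → c a ≠ c b

lemma split {G : SimpleGraph ℕ} (T : Tf G) (P : P6 G) {K1 K2 : Set ℕ} (c1 : Cn G K1) (c2 : Cn G K2)
    (e2 : Ed G K2) (d : ∀ x ∈ K1, ∀ y ∈ K2, x ≠ y ∧ ¬ G.Adj x y) {w a u : ℕ} (ha : a ∈ K1)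
    (hu : u ∈ K2) (wa : G.Adj w a) (wu : G.Adj w u) : Pr G K1 (fun z => decide (G.Adj w z)) := by
  obtain ⟨u', hu', uu⟩ := nbr c2 e2 hu
  have key : ∀ p ∈ K1, ∀ q ∈ K1, G.Adj p q → (∃ p' ∈ K1, G.Adj p p' ∧ G.Adj w p') → G.Adj w q := by
    rintro p hp q hq pq ⟨p', hp', h1, h2⟩
    by_contra hc
    exact P q p p' w u u' pq.symm h1 h2.symm wu uu (fun e => hc (e ▸ h2))
      (fun e => (d p hp u hu).2 (e ▸ wu)) (d p' hp' u hu).1
      (fun e => (d p' hp' u' hu').2 (e ▸ h2.symm)) (fun e => hc e.symm) (d q hq u hu).2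
      (d q hq u' hu').2 (d p hp u hu).2 (d p hp u' hu').2 (d p' hp' u' hu').2
  have inv : ∀ z, Con G K1 a z → G.Adj w z ∨ ∃ p' ∈ K1, G.Adj z p' ∧ G.Adj w p' := by
    intro z hz
    induction hz with
    | refl => exact Or.inl wa
    | tail _ h2 ih =>
      rcases ih with h | h
      · exact Or.inr ⟨_, h2.2.1, h2.1.symm, h⟩
      · exact Or.inl (key _ h2.2.1 _ h2.2.2 h2.1 h)
  intro p hp q hq pq e
  simp only [decide_eq_decide] at e
  rcases inv p (c1 a ha p hp) with h | h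
  · exact T w p q h pq (e.1 h)
  · have := key p hp q hq pq h
    exact T w p q (e.2 this) pq this

def lay (G : SimpleGraph ℕ) (W K : Set ℕ) : ℕ → Set ℕ
  | 0 => K
  | i + 1 => lay G W K i ∪ {v | v ∈ W ∧ ∃ u ∈ lay G W K i, G.Adj u v}

lemma join {G : SimpleGraph ℕ} (T : Tf G) (P : P6 G) {W K1 K2 : Set ℕ} (s1 : K1 ⊆ W) (s2 : K2 ⊆ W)
    (c1 : Cn G K1) (c2 : Cn G K2) (e1 : Ed G K1) (e2 : Ed G K2)
    (d : ∀ x ∈ K1, ∀ y ∈ K2, x ≠ y ∧ ¬ G.Adj x y) {x1 x2 : ℕ} (h1 : x1 ∈ K1) (h2 : x2 ∈ K2)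
    (hc : Con G W x1 x2) : ∃ w ∈ W, Pr G K1 (fun z => decide (G.Adj w z)) ∧
      Pr G K2 (fun z => decide (G.Adj w z)) := by
  have reach : ∀ z, Con G W x1 z → ∃ i, z ∈ lay G W K1 i := by
    intro z hz
    induction hz with
    | refl => exact ⟨0, h1⟩
    | tail _ h ih => obtain ⟨i, hi⟩ := ih; exact ⟨i + 1, Or.inr ⟨h.2.2, _, hi, h.1⟩⟩
  have sub : ∀ i, lay G W K1 i ⊆ W := by
    intro i
    induction i with
    | zero => exact s1
    | succ i ih => rintro z (h | h); exacts [ih h, h.1]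
  have mono : ∀ {i j}, i ≤ j → lay G W K1 i ⊆ lay G W K1 j := fun h =>
    monotone_nat_of_le_succ (f := lay G W K1) (fun _ => Set.subset_union_left) h
  have step : ∀ {i u v}, u ∈ lay G W K1 i → v ∈ W → G.Adj u v → v ∈ lay G W K1 (i + 1) :=
    fun a b c => Or.inr ⟨b, _, a, c⟩
  have pred : ∀ {i v}, v ∈ lay G W K1 (i + 1) → v ∉ lay G W K1 i →
      ∃ u ∈ lay G W K1 i, G.Adj u v := fun a b => (a.resolve_left b).2
  have ex : ∃ n, ∃ x ∈ K2, x ∈ lay G W K1 n := by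
    obtain ⟨i, hi⟩ := reach x2 hc; exact ⟨i, x2, h2, hi⟩
  obtain ⟨x, hx, xn⟩ := Nat.find_spec ex
  have mn : ∀ i < Nat.find ex, ∀ y ∈ K2, y ∉ lay G W K1 i := fun i hi y hy h =>
    Nat.find_min ex hi ⟨y, hy, h⟩
  generalize Nat.find ex = n at xn mn
  match n with
  | 0 => exact ((d x xn x hx).1 rfl).elim
  | 1 =>
    obtain ⟨u, hu, a⟩ := pred xn (mn 0 (by omega) x hx)
    exact ((d u hu x hx).2 a).elim
  | 2 =>
    obtain ⟨w, hw, a⟩ := pred xn (mn 1 (by omega) x hx)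
    obtain ⟨u, hu, b⟩ := pred hw fun h => (d w h x hx).2 a
    exact ⟨w, sub _ hw, split T P c1 c2 e2 d hu hx b.symm a,
      split T P c2 c1 e1 (fun y hy z hz => ⟨(d z hz y hy).1.symm, fun h => (d z hz y hy).2 h.symm⟩)
        hx hu a b.symm⟩
  | k + 3 =>
    exfalso
    obtain ⟨y, hy, xy⟩ := nbr c2 e2 hx
    have nx := mn (k + 2) (by omega) x hx
    have ny := mn (k + 2) (by omega) y hy
    obtain ⟨z2, m2, a2⟩ := pred xn nx
    have n2 : z2 ∉ lay G W K1 (k + 1) := fun h => nx (step h (s2 hx) a2)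
    obtain ⟨z1, m1, a1⟩ := pred m2 n2
    have n1 : z1 ∉ lay G W K1 k := fun h => n2 (step h (sub _ m2) a1)
    obtain ⟨z0, m0, a0⟩ := pred m1 n1
    obtain ⟨t, mt, at'⟩ : ∃ t ∈ lay G W K1 k, G.Adj t z0 := by
      cases k with
      | zero => obtain ⟨t, h, a⟩ := nbr c1 e1 m0; exact ⟨t, h, a.symm⟩
      | succ k =>
        obtain ⟨t, h, a⟩ := pred m0 fun h => n1 (step h (sub _ m1) a0)
        exact ⟨t, mono (by omega) h, a⟩
    exact P t z0 z1 z2 x y at' a0 a1 a2 xy (fun e => n1 (e ▸ mt))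
      (fun e => n2 (e ▸ mono (by omega) m0)) (fun e => nx (e ▸ mono (by omega) m1))
      (fun e => ny (e ▸ m2)) (fun h => n2 (step mt (sub _ m2) h))
      (fun h => nx (mono (by omega) (step mt (s2 hx) h)))
      (fun h => ny (mono (by omega) (step mt (s2 hy) h)))
      (fun h => nx (mono (by omega) (step m0 (s2 hx) h)))
      (fun h => ny (mono (by omega) (step m0 (s2 hy) h))) (fun h => ny (step m1 (s2 hy) h))

lemma uniq {G : SimpleGraph ℕ} {S : Set ℕ} {c c' : ℕ → Bool} (h : Pr G S c) (h' : Pr G S c')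
    {x y : ℕ} (hc : Con G S x y) : (c x = c y ↔ c' x = c' y) := by
  induction hc with
  | refl => simp
  | @tail p q _ h2 ih =>
    have a := h _ h2.2.1 _ h2.2.2 h2.1
    have b := h' _ h2.2.1 _ h2.2.2 h2.1
    revert a b ih
    cases c x <;> cases c p <;> cases c q <;> cases c' x <;> cases c' p <;> cases c' q <;> simp

def K (G : SimpleGraph ℕ) (U : Set ℕ) (v : ℕ) : Set ℕ := {u | Con G (U ∩ Set.Iic v) v u}

lemma K_self (G : SimpleGraph ℕ) (U : Set ℕ) (v : ℕ) : v ∈ K G U v := Relation.ReflTransGen.refl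

lemma K_sub {G : SimpleGraph ℕ} {U : Set ℕ} {v : ℕ} (hv : v ∈ U) : K G U v ⊆ U ∩ Set.Iic v :=
  fun _ h => Con.mem h ⟨hv, Set.mem_Iic.2 le_rfl⟩

lemma K_le {G : SimpleGraph ℕ} {U : Set ℕ} {v u : ℕ} (h : u ∈ K G U v) : u ≤ v := by
  rcases Relation.ReflTransGen.cases_tail h with rfl | ⟨_, _, h⟩
  exacts [le_rfl, h.2.2.2]

lemma K_cn (G : SimpleGraph ℕ) (U : Set ℕ) (v : ℕ) : Cn G (K G U v) := by
  have : ∀ y, Con G (U ∩ Set.Iic v) v y → Con G (K G U v) v y := by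
    intro y hy
    induction hy with
    | refl => exact Relation.ReflTransGen.refl
    | tail h1 h2 ih => exact ih.tail ⟨h2.1, h1, h1.tail h2⟩
  exact fun x hx y hy => (this x hx).symm.trans (this y hy)

lemma K_trans {G : SimpleGraph ℕ} {U : Set ℕ} {v u : ℕ} (h : u ∈ K G U v) : K G U u ⊆ K G U v :=
  fun _ hz => Relation.ReflTransGen.trans h
    (Con.mono (Set.inter_subset_inter_right _ (Set.Iic_subset_Iic.2 (K_le h))) hz)

lemma K_sep {G : SimpleGraph ℕ} {U : Set ℕ} {z m : ℕ} (hz : z ∈ U) (hm : m ∈ U) (hmz : m ≤ z)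
    (h : m ∉ K G U z) : ∀ x ∈ K G U z, ∀ y ∈ K G U m, x ≠ y ∧ ¬ G.Adj x y := by
  intro x hx y hy
  have s : U ∩ Set.Iic m ⊆ U ∩ Set.Iic z := Set.inter_subset_inter_right _ (Set.Iic_subset_Iic.2 hmz)
  have b : Con G (U ∩ Set.Iic z) y m := (Con.mono s hy).symm
  exact ⟨fun e => h (Relation.ReflTransGen.trans hx (e ▸ b)), fun e =>
    h (Relation.ReflTransGen.trans (Relation.ReflTransGen.tail hx
      ⟨e, K_sub hz hx, s (K_sub hm hy)⟩) b)⟩

def nb (G : SimpleGraph ℕ) (v : ℕ) : Prop := ¬ ∃ c, Pr G (K G Set.univ v) c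

noncomputable def u0 (G : SimpleGraph ℕ) (v : ℕ) : ℕ := sInf {u | u ∈ K G Set.univ v ∧ nb G u}

noncomputable def an (G : SimpleGraph ℕ) (v : ℕ) : ℕ := sInf {a | a ≤ u0 G v ∧ G.Adj (u0 G v) a}

noncomputable def cls (G : SimpleGraph ℕ) (v : ℕ) : ℕ :=
  if ¬ nb G v then 0 else if G.Adj v (u0 G v) then 1 else if G.Adj v (an G v) then 2 else 3

lemma nb_ed {G : SimpleGraph ℕ} {v : ℕ} (h : nb G v) : Ed G (K G Set.univ v) := by
  by_contra hc
  exact h ⟨fun _ => true, fun a ha b hb e => (hc ⟨a, ha, b, hb, e⟩).elim⟩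

lemma u0_spec {G : SimpleGraph ℕ} {v : ℕ} (h : nb G v) :
    u0 G v ∈ K G Set.univ v ∧ nb G (u0 G v) :=
  Nat.sInf_mem (s := {u | u ∈ K G Set.univ v ∧ nb G u}) ⟨v, K_self _ _ _, h⟩

lemma an_spec {G : SimpleGraph ℕ} {v : ℕ} (h : nb G v) :
    an G v ≤ u0 G v ∧ G.Adj (u0 G v) (an G v) := by
  obtain ⟨y, hy, e⟩ := nbr (K_cn G Set.univ _) (nb_ed (u0_spec h).2) (K_self _ _ _)
  exact Nat.sInf_mem (s := {a | a ≤ u0 G v ∧ G.Adj (u0 G v) a}) ⟨y, K_le hy, e⟩

lemma u0_stab {G : SimpleGraph ℕ} (T : Tf G) (P : P6 G) {v z : ℕ} (hz : z ∈ K G Set.univ v)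
    (h : nb G z) (hv : nb G v) : u0 G z = u0 G v := by
  have a : u0 G v ≤ u0 G z := Nat.sInf_le ⟨K_trans hz (u0_spec h).1, (u0_spec h).2⟩
  refine le_antisymm (Nat.sInf_le ⟨?_, (u0_spec hv).2⟩) a
  by_contra hc
  obtain ⟨w, -, p, -⟩ := join T P (W := K G Set.univ v) (K_trans hz) (K_trans (u0_spec hv).1)
    (K_cn _ _ _) (K_cn _ _ _) (nb_ed h) (nb_ed (u0_spec hv).2)
    (K_sep trivial trivial (a.trans (K_le (u0_spec h).1)) hc) (K_self _ _ _) (K_self _ _ _)
    (K_cn _ _ _ _ hz _ (u0_spec hv).1)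
  exact h ⟨_, p⟩

def Uc (G : SimpleGraph ℕ) (i : ℕ) : Set ℕ := {u | cls G u = i}

lemma K_univ {G : SimpleGraph ℕ} (U : Set ℕ) (v : ℕ) : K G U v ⊆ K G Set.univ v := fun _ h =>
  Con.mono (Set.inter_subset_inter_left _ (Set.subset_univ _)) h

lemma cls3 {G : SimpleGraph ℕ} {v : ℕ} (h : cls G v = 3) :
    nb G v ∧ ¬ G.Adj v (u0 G v) ∧ ¬ G.Adj v (an G v) := by
  unfold cls at h
  split_ifs at h with a b c <;> first | omega | exact ⟨a, b, c⟩

lemma bip {G : SimpleGraph ℕ} (T : Tf G) (P : P6 G) {v : ℕ} (h : cls G v = 0 ∨ cls G v = 3) :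
    ∃ c, Pr G (K G (Uc G (cls G v)) v) c := by
  by_cases hv : nb G v
  swap
  · obtain ⟨c, hc⟩ := not_not.1 hv
    exact ⟨c, fun a ha b hb => hc a (K_univ _ _ ha) b (K_univ _ _ hb)⟩
  have h3 : cls G v = 3 := h.resolve_left (by unfold cls; split_ifs <;> simp_all)
  by_cases e : Ed G (K G (Uc G (cls G v)) v)
  swap
  · exact ⟨fun _ => true, fun a ha b hb h => (e ⟨a, ha, b, hb, h⟩).elim⟩
  obtain ⟨a1, a2⟩ := an_spec hv
  obtain ⟨b1, b2⟩ := u0_spec hv
  have am : an G v ∈ K G Set.univ v :=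
    Relation.ReflTransGen.tail b1 ⟨a2, ⟨trivial, K_le b1⟩, trivial, a1.trans (K_le b1)⟩
  obtain ⟨w, -, p, -⟩ := join T P (W := K G Set.univ v) (K2 := {u0 G v, an G v}) (K_univ _ _)
    (by rintro _ (rfl | rfl); exacts [b1, am]) (K_cn _ _ _)
    (by
      rintro _ (rfl | rfl) _ (rfl | rfl)
      exacts [Relation.ReflTransGen.refl, Relation.ReflTransGen.single ⟨a2, by simp, by simp⟩,
        Relation.ReflTransGen.single ⟨a2.symm, by simp, by simp⟩, Relation.ReflTransGen.refl])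
    e ⟨_, by simp, _, by simp, a2⟩
    (by
      intro x hx y hy
      obtain ⟨x1, x2, x3⟩ := cls3 ((K_sub (U := Uc G (cls G v)) rfl hx).1.trans h3)
      have s := u0_stab T P (K_univ _ _ hx) x1 hv
      have s' : an G x = an G v := by unfold an; rw [s]
      rw [s] at x2
      rw [s'] at x3
      rcases hy with rfl | rfl
      · exact ⟨fun e => x3 (e ▸ a2), x2⟩
      · exact ⟨fun e => x2 (e ▸ a2.symm), x3⟩)
    (K_self _ _ _) (Or.inl rfl) (K_cn _ _ _ _ (K_self _ _ _) _ b1)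
  exact ⟨_, p⟩

def par : List Bool → Bool
  | [] => false
  | b :: l => xor b (par l)

def XA (l l' : List Bool) : Prop := (l <+: l' ∨ l' <+: l) ∧ par l ≠ par l'

lemma XA_cons (b b' : Bool) (l l' : List Bool) : XA (b :: l) (b' :: l') ↔ b = b' ∧ XA l l' := by
  simp only [XA, List.cons_prefix_cons, par]
  cases b <;> cases b' <;> simp

lemma XA_nil (l : List Bool) : XA [] l ↔ par l = true := by simp [XA, par]

lemma XA_symm {l l' : List Bool} : XA l l' ↔ XA l' l := by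
  simp only [XA, or_comm, ne_comm]

def Sd (G : SimpleGraph ℕ) (S : Set ℕ) (v u : ℕ) : Prop := ∀ c, Pr G S c → c v = c u

lemma Sd_iff {G : SimpleGraph ℕ} {U : Set ℕ} {v u : ℕ} {c : ℕ → Bool} (hc : Pr G (K G U v) c)
    (hu : u ∈ K G U v) : Sd G (K G U v) v u ↔ c v = c u :=
  ⟨fun h => h c hc, fun h _ h' => (uniq hc h' (K_cn _ _ _ _ (K_self _ _ _) _ hu)).1 h⟩

def Ind (G : SimpleGraph ℕ) (S : Set ℕ) (t : ℕ) (f : List Bool → ℕ) : Prop :=
  (∀ l, l.length ≤ t → f l ∈ S) ∧ ∀ l l', l.length ≤ t → l'.length ≤ t →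
    (f l = f l' → l = l') ∧ (G.Adj (f l) (f l') ↔ XA l l')

def Emb (G : SimpleGraph ℕ) (U : Set ℕ) (v t : ℕ) (s : Bool) : Prop :=
  ∃ f, Ind G (K G U v) t f ∧ ∀ l, l.length ≤ t → (Sd G (K G U v) v (f l) ↔ par l = s)

lemma Emb_iff {G : SimpleGraph ℕ} {U : Set ℕ} {v t : ℕ} {s : Bool} {c : ℕ → Bool}
    (hc : Pr G (K G U v) c) : Emb G U v t s ↔
      ∃ f, Ind G (K G U v) t f ∧ ∀ l, l.length ≤ t → c (f l) = xor (xor (c v) s) (par l) := by
  refine exists_congr fun f => and_congr_right fun h => forall₂_congr fun l hl => ?_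
  rw [Sd_iff hc (h.1 l hl)]
  cases c v <;> cases s <;> cases par l <;> cases c (f l) <;> simp

lemma Emb_le {G : SimpleGraph ℕ} {U : Set ℕ} {v t : ℕ} {s : Bool} (h : Emb G U v t s) : t ≤ v := by
  obtain ⟨f, ⟨h1, h2⟩, -⟩ := h
  have := Finset.card_le_card_of_injOn (s := Finset.range (t + 1)) (t := Finset.range (v + 1))
    (fun k => f (List.replicate k false)) (fun k hk => by
      simp only [Finset.coe_range, Set.mem_Iio] at hk ⊢
      exact Nat.lt_succ_of_le (K_le (h1 _ (by simp; omega)))) (fun k hk k' hk' e => by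
      simp only [Finset.coe_range, Set.mem_Iio] at hk hk'
      simpa using congrArg List.length ((h2 _ _ (by simp; omega) (by simp; omega)).1 e))
  simpa using this

noncomputable def tt (G : SimpleGraph ℕ) (U : Set ℕ) (v : ℕ) : ℕ :=
  Nat.findGreatest (fun t => Emb G U v t false ∨ Emb G U v t true) v

lemma tt_spec (G : SimpleGraph ℕ) (U : Set ℕ) (v : ℕ) :
    Emb G U v (tt G U v) false ∨ Emb G U v (tt G U v) true := by
  refine Nat.findGreatest_spec (P := fun t => Emb G U v t false ∨ Emb G U v t true) (m := 0)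
    (by omega) (Or.inl ⟨fun _ => v, ⟨fun _ _ => K_self _ _ _, fun l l' a b => ?_⟩, fun l a => ?_⟩)
  · rw [List.length_eq_zero_iff.1 (by omega : l.length = 0),
      List.length_eq_zero_iff.1 (by omega : l'.length = 0)]
    simp [XA]
  · rw [List.length_eq_zero_iff.1 (by omega : l.length = 0)]
    simp [Sd, par]

lemma tt_max {G : SimpleGraph ℕ} {U : Set ℕ} {v t : ℕ} {s : Bool} (h : Emb G U v t s) :
    t ≤ tt G U v :=
  Nat.le_findGreatest (Emb_le h) (by cases s; exacts [Or.inl h, Or.inr h])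

def both (G : SimpleGraph ℕ) (U : Set ℕ) (v t : ℕ) : Prop :=
  tt G U v = t ∧ Emb G U v t false ∧ Emb G U v t true

noncomputable def u1 (G : SimpleGraph ℕ) (U : Set ℕ) (v : ℕ) : ℕ :=
  sInf {u | u ∈ K G U v ∧ both G U u (tt G U v)}

noncomputable def col2 (G : SimpleGraph ℕ) (U : Set ℕ) (v : ℕ) : ℕ :=
  4 * tt G U v + if ¬ Emb G U v (tt G U v) false then 0 else if ¬ Emb G U v (tt G U v) true then 1
    else if Sd G (K G U v) v (u1 G U v) then 2 else 3

lemma both_any {G : SimpleGraph ℕ} {U : Set ℕ} {v t : ℕ} {c : ℕ → Bool} (hc : Pr G (K G U v) c)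
    (h : both G U v t) (s : Bool) :
    ∃ f, Ind G (K G U v) t f ∧ ∀ l, l.length ≤ t → c (f l) = xor s (par l) := by
  have := (Emb_iff (s := xor (c v) s) hc).1 (by cases xor (c v) s; exacts [h.2.1, h.2.2])
  simpa using this

lemma both_ed {G : SimpleGraph ℕ} {U : Set ℕ} {v t : ℕ} (h : both G U v t) : Ed G (K G U v) := by
  obtain ⟨f, h1, h2⟩ := h.2.2
  rcases Relation.ReflTransGen.cases_head (K_cn G U v v (K_self _ _ _) _ (h1.1 [] (by simp))) with
    e | ⟨y, a, -⟩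
  · have := (h2 [] (by simp)).1 (by rw [← e]; exact fun _ _ => rfl)
    simp [par] at this
  · exact ⟨v, a.2.1, y, a.2.2, a.1⟩

lemma u1_stab {G : SimpleGraph ℕ} (T : Tf G) (P : P6 G) {U : Set ℕ} {v z : ℕ} {c : ℕ → Bool}
    (hU : v ∈ U) (hc : Pr G (K G U v) c) (hz : z ∈ K G U v) (h : both G U z (tt G U v))
    (hv : both G U v (tt G U v)) : u1 G U z = u1 G U v ∧ u1 G U z ∈ K G U z := by
  have sz : u1 G U z ∈ K G U z ∧ both G U (u1 G U z) (tt G U z) :=
    Nat.sInf_mem (s := {u | u ∈ K G U z ∧ both G U u (tt G U z)}) ⟨z, K_self _ _ _, h.1.symm ▸ h⟩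
  have sv : u1 G U v ∈ K G U v ∧ both G U (u1 G U v) (tt G U v) :=
    Nat.sInf_mem (s := {u | u ∈ K G U v ∧ both G U u (tt G U v)}) ⟨v, K_self _ _ _, hv⟩
  have a : u1 G U v ≤ u1 G U z := Nat.sInf_le ⟨K_trans hz sz.1, h.1 ▸ sz.2⟩
  refine ⟨le_antisymm (Nat.sInf_le ⟨?_, h.1.symm ▸ sv.2⟩) a, sz.1⟩
  by_contra hm
  set m := u1 G U v
  have d := K_sep (K_sub hU hz).1 (K_sub hU sv.1).1 (a.trans (K_le sz.1)) hm
  obtain ⟨w, wK, p1, p2⟩ := join T P (W := K G U v) (K_trans hz) (K_trans sv.1)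
    (K_cn _ _ _) (K_cn _ _ _) (both_ed h) (both_ed sv.2) d (K_self _ _ _) (K_self _ _ _)
    (K_cn _ _ _ _ hz _ sv.1)
  have side : ∀ y ∈ K G U v, Ed G (K G U y) → Pr G (K G U y) (fun z => decide (G.Adj w z)) →
      (∀ x ∈ K G U y, G.Adj w x ↔ c x ≠ c w) ∧ ∃ x ∈ K G U y, G.Adj w x := by
    intro y hy e p
    have c' : Pr G (K G U y) c := fun a ha b hb => hc a (K_trans hy ha) b (K_trans hy hb)
    obtain ⟨q, hq, wq⟩ : ∃ x ∈ K G U y, G.Adj w x := by
      obtain ⟨a, ha, b, hb, e⟩ := e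
      have := p a ha b hb e
      by_cases h : G.Adj w a
      exacts [⟨a, ha, h⟩, ⟨b, hb, by simpa [h] using this⟩]
    refine ⟨fun x hx => ?_, q, hq, wq⟩
    have u := uniq p c' (K_cn _ _ _ _ hq _ hx)
    have k := hc w wK q (K_trans hy hq) wq
    simp only [wq, decide_true, true_eq_decide_iff] at u
    rw [u]
    revert k
    cases c w <;> cases c q <;> cases c x <;> simp
  obtain ⟨s1, q1, hq1, wq1⟩ := side z hz (both_ed h) p1
  obtain ⟨s2, q2, hq2, wq2⟩ := side m sv.1 (both_ed sv.2) p2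
  obtain ⟨f1, ⟨i1, j1⟩, k1⟩ := both_any (fun a ha b hb => hc a (K_trans hz ha) b (K_trans hz hb)) h
    (c w)
  obtain ⟨f2, ⟨i2, j2⟩, k2⟩ := both_any (fun a ha b hb => hc a (K_trans sv.1 ha) b (K_trans sv.1 hb))
    sv.2 (!(c w))
  let f : List Bool → ℕ := fun l => match l with
    | [] => w
    | false :: l => f1 l
    | true :: l => f2 l
  have w1 : ∀ x ∈ K G U z, w ≠ x := fun x hx e => (d x hx q2 hq2).2 (e ▸ wq2)
  have w2 : ∀ x ∈ K G U m, w ≠ x := fun x hx e => (d q1 hq1 x hx).2 (e ▸ wq1.symm)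
  have r : ∀ l : List Bool, l.length ≤ tt G U v + 1 → (w = f l → [] = l) ∧ (G.Adj w (f l) ↔ XA [] l) := by
    rintro (_ | ⟨_ | _, l⟩) hl
    · simp [f, XA]
    · have hl : l.length ≤ tt G U v := by simpa using hl
      refine ⟨fun e => (w1 _ (i1 l hl) e).elim, ?_⟩
      simp only [f, XA_nil, par, s1 _ (i1 l hl), k1 l hl]
      cases c w <;> cases par l <;> simp
    · have hl : l.length ≤ tt G U v := by simpa using hl
      refine ⟨fun e => (w2 _ (i2 l hl) e).elim, ?_⟩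
      simp only [f, XA_nil, par, s2 _ (i2 l hl), k2 l hl]
      cases c w <;> cases par l <;> simp
  have : Emb G U v (tt G U v + 1) (xor (c v) (c w)) := (Emb_iff hc).2 ⟨f, ⟨?_, ?_⟩, ?_⟩
  · have := tt_max this
    omega
  · rintro (_ | ⟨_ | _, l⟩) hl
    exacts [wK, K_trans hz (i1 l (by simpa using hl)), K_trans sv.1 (i2 l (by simpa using hl))]
  · rintro (_ | ⟨b, l⟩) l' hl hl'
    · exact r l' hl'
    rcases l' with _ | ⟨b', l'⟩
    · exact ⟨fun e => ((r _ hl).1 e.symm).symm, by rw [G.adj_comm, XA_symm]; exact (r _ hl).2⟩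
    replace hl : l.length ≤ tt G U v := by simpa using hl
    replace hl' : l'.length ≤ tt G U v := by simpa using hl'
    rw [XA_cons]
    cases b <;> cases b' <;> simp only [f]
    · simpa using j1 l l' hl hl'
    · simpa using d _ (i1 l hl) _ (i2 l' hl')
    · have := d _ (i1 l' hl') _ (i2 l hl)
      simpa using ⟨this.1.symm, fun h => this.2 h.symm⟩
    · simpa using j2 l l' hl hl'
  · rintro (_ | ⟨_ | _, l⟩) hl
    · simp [f, par]
    · simp only [f, par, k1 l (by simpa using hl)]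
      cases c w <;> cases c v <;> cases par l <;> simp
    · simp only [f, par, k2 l (by simpa using hl)]
      cases c w <;> cases c v <;> cases par l <;> simp

lemma col2_ne {G : SimpleGraph ℕ} (T : Tf G) (P : P6 G) {U : Set ℕ} {u v : ℕ} {c : ℕ → Bool}
    (hu : u ∈ U) (hv : v ∈ U) (huv : u < v) (e : G.Adj u v) (hc : Pr G (K G U v) c) :
    col2 G U u ≠ col2 G U v := by
  have uK : u ∈ K G U v := Relation.ReflTransGen.single ⟨e.symm, ⟨hv, Set.mem_Iic.2 le_rfl⟩, hu, huv.le⟩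
  have c' : Pr G (K G U u) c := fun a ha b hb => hc a (K_trans uK ha) b (K_trans uK hb)
  have ne := hc u uK v (K_self _ _ _) e
  have tr : ∀ t s, Emb G U u t s → Emb G U v t (!s) := by
    intro t s h
    obtain ⟨f, ⟨a, b⟩, d⟩ := (Emb_iff c').1 h
    refine (Emb_iff hc).2 ⟨f, ⟨fun l hl => K_trans uK (a l hl), b⟩, fun l hl => ?_⟩
    rw [d l hl]
    revert ne
    cases c u <;> cases c v <;> cases s <;> simp
  intro h
  have t : tt G U u = tt G U v := by
    unfold col2 at h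
    split_ifs at h <;> omega
  have su := tt_spec G U u
  unfold col2 at h
  rw [t] at h su
  by_cases a1 : Emb G U u (tt G U v) false <;> by_cases a2 : Emb G U u (tt G U v) true
  · have b1 : Emb G U v (tt G U v) true := tr _ _ a1
    have b2 : Emb G U v (tt G U v) false := tr _ _ a2
    obtain ⟨s1, s2⟩ := u1_stab T P hv hc uK ⟨t, a1, a2⟩ ⟨rfl, b2, b1⟩
    rw [Sd_iff c' s2, ← s1, Sd_iff hc (K_trans uK s2)] at h
    revert ne h
    simp only [a1, a2, b1, b2, not_true, if_false]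
    cases c u <;> cases c v <;> cases c (u1 G U u) <;> simp
  · have b1 : Emb G U v (tt G U v) true := tr _ _ a1
    simp only [a1, a2, b1, not_true, not_false_iff, if_false, if_true] at h
    split_ifs at h <;> omega
  · have b2 : Emb G U v (tt G U v) false := tr _ _ a2
    simp only [a1, b2, not_true, not_false_iff, if_false, if_true] at h
    split_ifs at h <;> omega
  · tauto

noncomputable def col (G : SimpleGraph ℕ) (v : ℕ) : ℕ := 4 * col2 G (Uc G (cls G v)) v + cls G v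

lemma cls_lt (G : SimpleGraph ℕ) (v : ℕ) : cls G v < 4 := by
  unfold cls; split_ifs <;> omega

lemma col_ne {G : SimpleGraph ℕ} (T : Tf G) (P : P6 G) {u v : ℕ} (huv : u < v) (e : G.Adj u v) :
    col G u ≠ col G v := by
  intro h
  unfold col at h
  have a := cls_lt G u
  have b := cls_lt G v
  have c : cls G u = cls G v := by omega
  by_cases h03 : cls G v = 0 ∨ cls G v = 3
  · obtain ⟨s, hs⟩ := bip T P h03
    refine col2_ne T P (U := Uc G (cls G v)) c rfl huv e hs ?_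
    rw [c] at h; omega
  · have uK : u ∈ K G Set.univ v :=
      Relation.ReflTransGen.single ⟨e.symm, ⟨trivial, Set.mem_Iic.2 le_rfl⟩, trivial, huv.le⟩
    have nv : nb G v := by by_contra x; simp [cls, x] at h03
    have nu : nb G u := by by_contra x; rw [← c] at h03; simp [cls, x] at h03
    have s := u0_stab T P uK nu nv
    have s' : an G u = an G v := by unfold an; rw [s]
    unfold cls at c h03
    rw [s, s'] at c
    simp only [nu, nv, not_true, if_false] at c h03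
    split_ifs at c h03 with x y z <;> first | omega | skip
    · exact T u v _ e y x
    · exact T u v _ e ‹_› ‹_›

lemma col_lt (G : SimpleGraph ℕ) (v : ℕ) :
    ∃ t f, Ind G (Set.Iic v) t f ∧ col G v < 16 * (t + 1) := by
  obtain ⟨f, h, -⟩ : ∃ f, Ind G (K G (Uc G (cls G v)) v) (tt G (Uc G (cls G v)) v) f ∧ True := by
    rcases tt_spec G (Uc G (cls G v)) v with ⟨f, h, -⟩ | ⟨f, h, -⟩ <;> exact ⟨f, h, trivial⟩
  refine ⟨_, f, ⟨fun l hl => K_le (h.1 l hl), h.2⟩, ?_⟩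
  have := cls_lt G v
  unfold col col2
  split_ifs <;> omega

def Ag (G G' : SimpleGraph ℕ) (v : ℕ) : Prop := ∀ a ≤ v, ∀ b ≤ v, (G.Adj a b ↔ G'.Adj a b)

lemma Ag.mono {G G' : SimpleGraph ℕ} {v u : ℕ} (h : Ag G G' v) (e : u ≤ v) : Ag G G' u :=
  fun a ha b hb => h a (ha.trans e) b (hb.trans e)

lemma K_cg {G G' : SimpleGraph ℕ} {v : ℕ} {U U' : Set ℕ} (h : Ag G G' v)
    (e : ∀ u ≤ v, u ∈ U ↔ u ∈ U') : K G U v = K G' U' v := by
  unfold K Con
  have : (fun a b => G.Adj a b ∧ a ∈ U ∩ Set.Iic v ∧ b ∈ U ∩ Set.Iic v) =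
      fun a b => G'.Adj a b ∧ a ∈ U' ∩ Set.Iic v ∧ b ∈ U' ∩ Set.Iic v := by
    ext a b
    exact ⟨fun ⟨x, y, z⟩ => ⟨(h a y.2 b z.2).1 x, ⟨(e a y.2).1 y.1, y.2⟩, (e b z.2).1 z.1, z.2⟩,
      fun ⟨x, y, z⟩ => ⟨(h a y.2 b z.2).2 x, ⟨(e a y.2).2 y.1, y.2⟩, (e b z.2).2 z.1, z.2⟩⟩
  rw [this]

lemma Pr_cg {G G' : SimpleGraph ℕ} {v : ℕ} (h : Ag G G' v) (X : SimpleGraph ℕ) (U : Set ℕ) :
    Pr G (K X U v) = Pr G' (K X U v) := by
  ext c
  exact forall₂_congr fun a ha => forall₂_congr fun b hb => by rw [h a (K_le ha) b (K_le hb)]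

lemma nb_cg {G G' : SimpleGraph ℕ} {v : ℕ} (h : Ag G G' v) : nb G v ↔ nb G' v := by
  unfold nb
  rw [K_cg h (U' := Set.univ) (fun _ _ => Iff.rfl), Pr_cg h]

lemma sInf_le' {S : Set ℕ} {v : ℕ} (h : ∀ x ∈ S, x ≤ v) : sInf S ≤ v := by
  rcases S.eq_empty_or_nonempty with rfl | e
  exacts [by simp, h _ (Nat.sInf_mem e)]

lemma cls_cg {G G' : SimpleGraph ℕ} {v : ℕ} (h : Ag G G' v) : cls G v = cls G' v := by
  have a : u0 G v = u0 G' v := by
    unfold u0
    rw [K_cg h (U' := Set.univ) (fun _ _ => Iff.rfl)]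
    congr 1
    ext u
    exact and_congr_right fun hu => nb_cg (h.mono (K_le hu))
  have a' : u0 G' v ≤ v := sInf_le' fun x hx => K_le hx.1
  have b : an G v = an G' v := by
    unfold an
    rw [a]
    congr 1
    ext u
    exact and_congr_right fun hu => h _ a' _ (hu.trans a')
  have b' : an G' v ≤ v := sInf_le' fun x hx => hx.1.trans a'
  unfold cls
  rw [a, b, nb_cg h, h v le_rfl _ a', h v le_rfl _ b']

lemma Sd_cg {G G' : SimpleGraph ℕ} {v : ℕ} (h : Ag G G' v) (X : SimpleGraph ℕ) (U : Set ℕ) :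
    Sd G (K X U v) = Sd G' (K X U v) := by
  unfold Sd
  rw [Pr_cg h]

lemma Emb_cg {G G' : SimpleGraph ℕ} {v : ℕ} {U U' : Set ℕ} (h : Ag G G' v)
    (e : ∀ u ≤ v, u ∈ U ↔ u ∈ U') : Emb G U v = Emb G' U' v := by
  ext t s
  unfold Emb
  rw [K_cg h e, Sd_cg h]
  refine exists_congr fun f => and_congr_left fun _ => and_congr_right fun a =>
    forall₄_congr fun l l' x y => ?_
  rw [h _ (K_le (a l x)) _ (K_le (a l' y))]

lemma tt_cg {G G' : SimpleGraph ℕ} {v : ℕ} {U U' : Set ℕ} (h : Ag G G' v)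
    (e : ∀ u ≤ v, u ∈ U ↔ u ∈ U') : tt G U v = tt G' U' v := by
  unfold tt
  rw [Emb_cg h e]

lemma col_cg {G G' : SimpleGraph ℕ} {v : ℕ} (h : Ag G G' v) : col G v = col G' v := by
  have e : ∀ u ≤ v, u ∈ Uc G (cls G v) ↔ u ∈ Uc G' (cls G' v) := fun u hu => by
    simp only [Uc, Set.mem_setOf_eq]
    rw [cls_cg h, cls_cg (h.mono hu)]
  have a : u1 G (Uc G (cls G v)) v = u1 G' (Uc G' (cls G' v)) v := by
    unfold u1
    rw [K_cg h e, tt_cg h e]
    congr 1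
    ext u
    refine and_congr_right fun hu => ?_
    have e' : ∀ x ≤ u, x ∈ Uc G (cls G v) ↔ x ∈ Uc G' (cls G' v) :=
      fun x hx => e x (hx.trans (K_le hu))
    unfold both
    rw [tt_cg (h.mono (K_le hu)) e', Emb_cg (h.mono (K_le hu)) e']
  unfold col col2
  rw [a, tt_cg h e, Emb_cg h e, K_cg h e, Sd_cg h, cls_cg h]

lemma adv (β : SimpleGraph ℕ → ℕ → ℕ) (hβ : ∀ G G' v, Ag G G' v → β G v = β G' v) (j : ℕ) :
    ∀ (H0 : SimpleGraph ℕ) (n0 : ℕ), ∃ (H : SimpleGraph ℕ) (n : ℕ) (φ : ℕ → List Bool), n0 ≤ n ∧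
      (∀ a < n0, ∀ b < n, (H.Adj a b ↔ b < n0 ∧ H0.Adj a b)) ∧
      (∀ a, n0 ≤ a → a < n → (φ a).length ≤ 2 * j ∧ ∀ b, n0 ≤ b → b < n →
        (φ a = φ b → a = b) ∧ (H.Adj a b ↔ XA (φ a) (φ b))) ∧
      ((∀ a, n0 ≤ a → a < n → ∀ b, n0 ≤ b → b < n → H.Adj a b → β H a ≠ β H b) →
        j ≤ (((Finset.Ico n0 n).filter fun a => par (φ a) = false).image (β H)).card) := by
  induction j with
  | zero =>
    exact fun H0 n0 => ⟨H0, n0, fun _ => [], le_rfl, fun a _ b hb => by simp [hb],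
      fun a x y => by omega, fun _ => by omega⟩
  | succ j ih =>
    intro H0 n0
    obtain ⟨H1, n1, φ1, l1, a1, b1, c1⟩ := ih H0 n0
    obtain ⟨H2, n2, φ2, l2, a2, b2, c2⟩ := ih H1 n1
    set C1 := ((Finset.Ico n0 n1).filter fun a => par (φ1 a) = false).image (β H1) with hC1
    set C2 := ((Finset.Ico n1 n2).filter fun a => par (φ2 a) = false).image (β H2) with hC2
    obtain ⟨s, hs⟩ : ∃ s : Bool, s = true ↔ j + 1 ≤ (C1 ∪ C2).card := ⟨decide (j + 1 ≤ (C1 ∪ C2).card), by simp⟩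
    let φ : ℕ → List Bool := fun a =>
      if a < n1 then true :: s :: φ1 a else if a < n2 then false :: false :: φ2 a else []
    have p1 : ∀ a < n1, φ a = true :: s :: φ1 a := fun a h => if_pos h
    have p2 : ∀ a, n1 ≤ a → a < n2 → φ a = false :: false :: φ2 a := fun a h h' => by
      simp only [φ, if_neg (not_lt.2 h), if_pos h']
    have p3 : φ n2 = [] := by simp only [φ, if_neg (not_lt.2 l2), lt_irrefl, if_false]
    let H : SimpleGraph ℕ := ⟨fun a b => (a < n0 ∧ b < n0 ∧ H0.Adj a b) ∨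
        (n0 ≤ a ∧ n0 ≤ b ∧ XA (φ a) (φ b)),
      ⟨fun a b h => h.imp (fun h => ⟨h.2.1, h.1, h.2.2.symm⟩) fun h => ⟨h.2.1, h.1, XA_symm.1 h.2.2⟩⟩,
      ⟨fun a h => h.elim (fun h => h.2.2.ne rfl) fun h => h.2.2.2 rfl⟩⟩
    have q0 : ∀ a < n0, ∀ b, (H.Adj a b ↔ b < n0 ∧ H0.Adj a b) := fun a h b => by
      simp [H, h, not_le.2 h]
    have q1 : ∀ a, n0 ≤ a → ∀ b, n0 ≤ b → (H.Adj a b ↔ XA (φ a) (φ b)) := fun a h b h' => by
      simp [H, h, h', not_lt.2 h]
    have g2 : ∀ a < n2, ∀ b < n2, a ≤ b → (H.Adj a b ↔ H2.Adj a b) := by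
      intro a ha b hb ab
      by_cases x : a < n1
      · rw [a2 a x b hb]
        by_cases y : a < n0
        · rw [q0 a y]
          by_cases z : b < n1
          · simp [a1 a y b z, z]
          · simp [z, show ¬ b < n0 by omega]
        · rw [q1 a (by omega) b (by omega), p1 a x]
          by_cases z : b < n1
          · simp [p1 b z, XA_cons, z, ((b1 a (by omega) x).2 b (by omega) z).2]
          · simp [p2 b (by omega) hb, XA_cons, z]
      · rw [q1 a (by omega) b (by omega), p2 a (by omega) ha, p2 b (by omega) hb,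
          ((b2 a (by omega) ha).2 b (by omega) hb).2]
        simp [XA_cons]
    replace g2 : ∀ a < n2, ∀ b < n2, (H.Adj a b ↔ H2.Adj a b) := fun a ha b hb => by
      rcases le_total a b with h | h
      · exact g2 a ha b hb h
      · rw [H.adj_comm, H2.adj_comm]; exact g2 b hb a ha h
    have g1 : ∀ a < n1, ∀ b < n1, (H.Adj a b ↔ H1.Adj a b) := fun a ha b hb => by
      rw [g2 a (by omega) b (by omega), a2 a ha b (by omega)]; simp [hb]
    have k2 : ∀ a < n2, β H a = β H2 a := fun a h => hβ _ _ _ fun x _ y _ =>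
      g2 x (by omega) y (by omega)
    have k1 : ∀ a < n1, β H a = β H1 a := fun a h => hβ _ _ _ fun x _ y _ =>
      g1 x (by omega) y (by omega)
    refine ⟨H, n2 + 1, φ, by omega, fun a h b _ => q0 a h b, fun a x y => ⟨?_, fun b z w =>
      ⟨?_, q1 a x b z⟩⟩, fun pr => ?_⟩
    · simp only [φ]
      split_ifs with u v
      · have := (b1 a x u).1; simp; omega
      · have := (b2 a (by omega) v).1; simp; omega
      · simp
    · simp only [φ]
      split_ifs with u v w u v w <;> simp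
      · exact ((b1 a x u).2 b z v).1
      · exact ((b2 a (by omega) ‹_›).2 b (by omega) ‹_›).1
      · omega
    have d1 : j ≤ C1.card := c1 fun a x y b z w e => by
      rw [← k1 a y, ← k1 b w]
      exact pr a x (by omega) b z (by omega) ((g1 a y b w).2 e)
    have d2 : j ≤ C2.card := c2 fun a x y b z w e => by
      rw [← k2 a y, ← k2 b w]
      exact pr a (by omega) (by omega) b (by omega) (by omega) ((g2 a y b w).2 e)
    have s2 : C2 ⊆ ((Finset.Ico n0 (n2 + 1)).filter fun a => par (φ a) = false).image (β H) := by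
      intro x hx
      simp only [hC2, Finset.mem_image, Finset.mem_filter, Finset.mem_Ico] at hx ⊢
      obtain ⟨a, ⟨⟨x, y⟩, z⟩, rfl⟩ := hx
      exact ⟨a, ⟨⟨by omega, by omega⟩, by simp [p2 a x y, par, z]⟩, k2 a y⟩
    cases s with
    | true =>
      refine (hs.1 rfl).trans (Finset.card_le_card (Finset.union_subset ?_ s2))
      intro x hx
      simp only [hC1, Finset.mem_image, Finset.mem_filter, Finset.mem_Ico] at hx ⊢
      obtain ⟨a, ⟨⟨x, y⟩, z⟩, rfl⟩ := hx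
      exact ⟨a, ⟨⟨by omega, by omega⟩, by simp [p1 a y, par, z]⟩, k1 a y⟩
    | false =>
      have h : (C1 ∪ C2).card ≤ C1.card := by
        have := mt hs.2 (by simp); omega
      have e := Finset.eq_of_subset_of_card_le Finset.subset_union_left h
      have nm : β H n2 ∉ C2 := by
        intro hx
        replace hx : β H n2 ∈ C1 := e ▸ Finset.mem_union_right _ hx
        simp only [hC1, Finset.mem_image, Finset.mem_filter, Finset.mem_Ico] at hx
        obtain ⟨a, ⟨⟨x, y⟩, z⟩, w⟩ := hx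
        refine pr n2 (by omega) (by omega) a x (by omega) ?_ (by rw [k1 a y, w])
        rw [q1 _ (by omega) _ x, p3, XA_nil, p1 a y]
        simp [par, z]
      refine le_trans (by rw [Finset.card_insert_of_notMem nm]; omega)
        (Finset.card_le_card (Finset.insert_subset ?_ s2))
      exact Finset.mem_image.2 ⟨n2, by simp [p3, par]; omega, rfl⟩

def ext {N : ℕ} (G : SimpleGraph (Fin N)) : SimpleGraph ℕ :=
  ⟨fun a b => ∃ (ha : a < N) (hb : b < N), G.Adj ⟨a, ha⟩ ⟨b, hb⟩,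
    ⟨fun _ _ ⟨x, y, h⟩ => ⟨y, x, h.symm⟩⟩, ⟨fun _ ⟨_, _, h⟩ => h.ne rfl⟩⟩

lemma ext_adj {N : ℕ} (G : SimpleGraph (Fin N)) {a b : ℕ} (ha : a < N) (hb : b < N) :
    (ext G).Adj a b ↔ G.Adj ⟨a, ha⟩ ⟨b, hb⟩ := ⟨fun ⟨_, _, h⟩ => h, fun h => ⟨ha, hb, h⟩⟩

def pre {N : ℕ} (G : SimpleGraph (Fin N)) (π : Equiv.Perm (Fin N)) (i : Fin N) :
    SimpleGraph (Fin (i + 1)) := G.comap fun j => π (Fin.castLE i.isLt j)

lemma col_pre {N : ℕ} (G : SimpleGraph (Fin N)) (π : Equiv.Perm (Fin N)) (i : Fin N) :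
    col (ext (pre G π i)) i = col (ext (G.comap π)) i := col_cg fun a ha b hb => by
  rw [ext_adj _ (Nat.lt_succ_of_le ha) (Nat.lt_succ_of_le hb),
    ext_adj _ (ha.trans_lt i.isLt) (hb.trans_lt i.isLt)]
  rfl

lemma tf_ext {N : ℕ} {G : SimpleGraph (Fin N)} (h : G.CliqueFree 3) (π : Equiv.Perm (Fin N)) :
    Tf (ext (G.comap π)) := by
  rintro a b c ⟨_, _, x⟩ ⟨_, _, y⟩ ⟨_, _, z⟩
  exact h _ (SimpleGraph.is3Clique_triple_iff.2 ⟨x, z, y⟩)

lemma p6_ext {N : ℕ} {G : SimpleGraph (Fin N)} (h : G.CliqueFree 3)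
    (h6 : IsEmpty (SimpleGraph.pathGraph 6 ↪g G)) (π : Equiv.Perm (Fin N)) :
    P6 (ext (G.comap π)) := by
  have T := tf_ext h π
  intro a b c d e f ab bc cd de ef ac bd ce df ad ae af be bf cf
  have n1 := T a b c ab bc
  have n2 := T b c d bc cd
  have n3 := T c d e cd de
  have n4 := T d e f de ef
  have key : ∀ i j : Fin 6, i < j → ![a, b, c, d, e, f] i ≠ ![a, b, c, d, e, f] j ∧
      ((ext (G.comap π)).Adj (![a, b, c, d, e, f] i) (![a, b, c, d, e, f] j) ↔ i.1 + 1 = j.1) := by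
    have m1 : a ≠ d := fun x => ae (x ▸ de)
    have m2 : a ≠ e := fun x => af (x ▸ ef)
    have m3 : a ≠ f := fun x => ae (x ▸ ef.symm)
    have m4 : b ≠ e := fun x => bf (x ▸ ef)
    have m5 : b ≠ f := fun x => be (x ▸ ef.symm)
    have m6 : c ≠ f := fun x => bf (x ▸ bc)
    have := ab.ne
    have := bc.ne
    have := cd.ne
    have := de.ne
    have := ef.ne
    intro i j
    fin_cases i <;> fin_cases j <;> simp [*]
  have lt : ∀ i : Fin 6, ![a, b, c, d, e, f] i < N := by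
    intro i
    fin_cases i
    exacts [ab.1, bc.1, cd.1, de.1, ef.1, ef.symm.1]
  refine h6.false ⟨⟨fun i => π ⟨_, lt i⟩, fun i j x => ?_⟩, fun {i j} => ?_⟩
  · have y := congrArg Fin.val (π.injective x)
    rcases lt_trichotomy i j with z | z | z
    exacts [((key i j z).1 y).elim, z, ((key j i z).1 y.symm).elim]
  · rw [SimpleGraph.pathGraph_adj]
    refine ((ext_adj (G.comap π) (lt i) (lt j)).symm).trans ?_
    rcases lt_trichotomy i j with z | rfl | z
    · rw [(key i j z).2]; omega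
    · simp
    · rw [SimpleGraph.adj_comm, (key j i z).2]; omega

lemma proper {N : ℕ} {G : SimpleGraph (Fin N)} (h : G.CliqueFree 3)
    (h6 : IsEmpty (SimpleGraph.pathGraph 6 ↪g G)) (π : Equiv.Perm (Fin N)) (i j : Fin N)
    (e : G.Adj (π i) (π j)) : col (ext (pre G π i)) i ≠ col (ext (pre G π j)) j := by
  rw [col_pre, col_pre]
  have e' : (ext (G.comap π)).Adj i j := ⟨i.2, j.2, e⟩
  rcases lt_trichotomy (i : ℕ) j with z | z | z
  · exact col_ne (tf_ext h π) (p6_ext h h6 π) z e'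
  · exact (e'.ne z).elim
  · exact (col_ne (tf_ext h π) (p6_ext h h6 π) z e'.symm).symm

lemma bound {N : ℕ} {G : SimpleGraph (Fin N)} (B : (n : ℕ) → SimpleGraph (Fin (n + 1)) → ℕ)
    (hB : ∀ (π : Equiv.Perm (Fin N)) (i j : Fin N), G.Adj (π i) (π j) → B i (pre G π i) ≠ B j (pre G π j))
    (q : ℕ) (hq : ∀ π : Equiv.Perm (Fin N), 
      (Finset.univ.image fun i : Fin N => B i (pre G π i)).card ≤ q)
    (π : Equiv.Perm (Fin N)) (i : Fin N) : col (ext (pre G π i)) i < 32 * (q + 1) := by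
  rw [col_pre]
  obtain ⟨t, f, ⟨f1, f2⟩, ht⟩ := col_lt (ext (G.comap π)) i
  obtain ⟨H, n, φ, -, -, b, c⟩ := adv (fun H a => B a (H.comap Fin.val)) (fun H H' v h => by
    congr 1
    ext x y
    exact h _ (Nat.le_of_lt_succ x.2) _ (Nat.le_of_lt_succ y.2)) (t / 2) ⊥ 0
  have len : ∀ a < n, (φ a).length ≤ t := fun a h => (b a (by omega) h).1.trans (by omega)
  have lt : ∀ a < n, f (φ a) < N := fun a h => lt_of_le_of_lt (f1 _ (len a h)) i.2
  have inj : Function.Injective fun a : Fin n => π ⟨f (φ a), lt a a.2⟩ := fun x y e =>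
    Fin.ext (((b x (by omega) x.2).2 y (by omega) y.2).1
      ((f2 _ _ (len x x.2) (len y y.2)).1 (congrArg Fin.val (π.injective e))))
  have nN : n ≤ N := by simpa using Fintype.card_le_of_injective _ inj
  obtain ⟨σ, hσ⟩ := Equiv.Perm.exists_extending_pair (Fin.castLE nN) _ (Fin.castLE_injective nN) inj
  have ad : ∀ x (hx : x < n) y (hy : y < n), G.Adj (σ ⟨x, by omega⟩) (σ ⟨y, by omega⟩) ↔
      H.Adj x y := fun x hx y hy => by
    rw [((b x (by omega) hx).2 y (by omega) hy).2, ← (f2 _ _ (len x hx) (len y hy)).2,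
      ext_adj _ (lt x hx) (lt y hy)]
    exact Iff.of_eq (congrArg₂ G.Adj (hσ ⟨x, hx⟩) (hσ ⟨y, hy⟩))
  have eq : ∀ a (h : a < n), B a (H.comap Fin.val) = B a (pre G σ ⟨a, by omega⟩) := fun a h => by
    congr 1
    ext x y
    exact (ad x (by omega) y (by omega)).symm
  have := (c fun a _ x b _ y e => by
    rw [eq a x, eq b y]
    exact hB σ ⟨a, by omega⟩ ⟨b, by omega⟩ ((ad a x b y).2 e)).trans
    ((Finset.card_le_card fun x hx => by
      simp only [Finset.mem_image, Finset.mem_filter, Finset.mem_Ico] at hx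
      obtain ⟨a, ⟨⟨_, y⟩, _⟩, rfl⟩ := hx
      exact Finset.mem_image.2 ⟨⟨a, by omega⟩, Finset.mem_univ _, (eq a y).symm⟩).trans (hq σ))
  omega

end Pool.Agent.H9.Onl
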