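import Mathlib

set_option autoImplicit false

namespace Pool.Agent.H9.Par

noncomputable def ps (a b r s : ℝ) : ℝ :=
  (b + (r - b) / (r - a) * (max a (min s r) - a)) / max a (min s r)

lemma ps_lo {a b r s : ℝ} (h : s ≤ a) : ps a b r s = b / a := by
  simp [ps, max_eq_left ((min_le_left s r).trans h)]

lemma ps_hi {a b r s : ℝ} (ha : 0 < a) (har : a < r) (h : r ≤ s) : ps a b r s = 1 := by
  have : r - a ≠ 0 := by linarith
  have : r ≠ 0 := by linarith
  simp only [ps, min_eq_right h, max_eq_right har.le]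
  field_simp
  ring

lemma ps_key {a b r s : ℝ} (ha : 0 < a) (hb : 0 < b) (har : a < r) (hbr : b < r) (hs : 0 ≤ s) :
    0 < ps a b r s ∧ ps b a r (ps a b r s * s) * ps a b r s = 1 ∧ (s < r → ps a b r s * s < r) := by
  rcases le_total s a with h | h
  · have : b / a * s ≤ b := by rw [div_mul_eq_mul_div, div_le_iff₀ ha]; nlinarith
    rw [ps_lo h, ps_lo this]
    exact ⟨by positivity, by field_simp, fun _ => by linarith⟩
  rcases le_total r s with h' | h'
  · rw [ps_hi ha har h', one_mul, ps_hi hb hbr h']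
    exact ⟨one_pos, one_mul _, fun h => h⟩
  have e1 : 0 < r - a := by linarith
  have e2 : 0 < r - b := by linarith
  have s0 : 0 < s := by linarith
  have q : 0 ≤ (r - b) / (r - a) * (s - a) := by have := sub_nonneg.2 h; positivity
  have q' : (r - b) / (r - a) * (r - s) = r - (b + (r - b) / (r - a) * (s - a)) := by
    field_simp; ring
  have q2 : 0 ≤ (r - b) / (r - a) * (r - s) := by have := sub_nonneg.2 h'; positivity
  have e : ps a b r s = (b + (r - b) / (r - a) * (s - a)) / s := by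
    simp only [ps, min_eq_left h', max_eq_right h]
  rw [e, div_mul_cancel₀ _ s0.ne']
  refine ⟨div_pos (by linarith) s0, ?_, fun h => ?_⟩
  · have p : 0 < b + (r - b) / (r - a) * (s - a) := by linarith
    rw [ps, min_eq_left (by linarith), max_eq_right (by linarith), div_mul_div_comm,
      div_eq_one_iff_eq (by positivity)]
    field_simp
    ring
  · have : 0 < (r - b) / (r - a) * (r - s) := by have := sub_pos.2 h; positivity
    linarith

noncomputable def rad (c : ℝ × ℝ) (a b r : ℝ) (z : ℝ × ℝ) : ℝ × ℝ := c + ps a b r ‖z - c‖ • (z - c)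

lemma rad_inv (c : ℝ × ℝ) {a b r : ℝ} (ha : 0 < a) (hb : 0 < b) (har : a < r) (hbr : b < r)
    (z : ℝ × ℝ) : rad c b a r (rad c a b r z) = z := by
  obtain ⟨h1, h2, -⟩ := ps_key ha hb har hbr (norm_nonneg (z - c))
  simp only [rad, add_sub_cancel_left, norm_smul, Real.norm_of_nonneg h1.le, smul_smul, h2]
  simp

lemma rad_cont (c : ℝ × ℝ) {a : ℝ} (b r : ℝ) (ha : 0 < a) : Continuous (rad c a b r) := by
  unfold rad ps
  refine continuous_const.add (Continuous.smul (Continuous.div (by fun_prop) (by fun_prop)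
    fun z => (ha.trans_le (le_max_left _ _)).ne') (by fun_prop))

lemma rad_maps {M N : Set (ℝ × ℝ)} {c u : ℝ × ℝ} {a b r : ℝ} (ha : 0 < a) (hb : 0 < b) (hu : u ≠ 0)
    (har : a * ‖u‖ < r) (hbr : b * ‖u‖ < r)
    (hM : ∀ v (k : ℝ), 0 < k → ‖v‖ < r → ‖k • v‖ < r → c + v ∈ M → c + k • v ∈ M)
    (hN : ∀ p ∈ N, p = c ∨ r ≤ ‖p - c‖) :
    Set.MapsTo (rad c (a * ‖u‖) (b * ‖u‖) r) (M ∪ segment ℝ c (c + a • u))
      (M ∪ segment ℝ c (c + b • u)) ∧
    Set.MapsTo (rad c (a * ‖u‖) (b * ‖u‖) r) (N ∪ {c + a • u}) (N ∪ {c + b • u}) := by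
  have u0 : 0 < ‖u‖ := norm_pos_iff.2 hu
  have fix : ∀ z, r ≤ ‖z - c‖ → rad c (a * ‖u‖) (b * ‖u‖) r z = z := fun z h => by
    simp [rad, ps_hi (mul_pos ha u0) har h]
  have sg : ∀ t : ℝ, 0 ≤ t → t ≤ 1 →
      rad c (a * ‖u‖) (b * ‖u‖) r (c + t • a • u) = c + t • b • u := fun t h0 h1 => by
    have : ‖t • a • u‖ ≤ a * ‖u‖ := by
      rw [norm_smul, norm_smul, Real.norm_of_nonneg h0, Real.norm_of_nonneg ha.le]
      exact mul_le_of_le_one_left (by positivity) h1
    simp only [rad, add_sub_cancel_left, ps_lo this]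
    simp only [smul_smul]
    congr 2
    field_simp
  constructor
  · rintro z (h | h)
    · by_cases hz : r ≤ ‖z - c‖
      · rw [fix z hz]; exact Or.inl h
      obtain ⟨h1, -, h3⟩ := ps_key (mul_pos ha u0) (mul_pos hb u0) har hbr (norm_nonneg (z - c))
      refine Or.inl (hM _ _ h1 (not_le.1 hz) ?_ (by simpa using h))
      rw [norm_smul, Real.norm_of_nonneg h1.le]
      exact h3 (not_le.1 hz)
    · rw [segment_eq_image'] at h
      obtain ⟨t, ⟨h0, h1⟩, rfl⟩ := h
      right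
      rw [segment_eq_image']
      exact ⟨t, ⟨h0, h1⟩, by simpa using (sg t h0 h1).symm⟩
  · rintro z (h | rfl)
    · rcases hN z h with rfl | hz
      · left; simpa [rad] using h
      · rw [fix z hz]; exact Or.inl h
    · right; simpa using sg 1 zero_le_one le_rfl

def Rel (M N M' N' : Set (ℝ × ℝ)) : Prop :=
  ∃ h : Homeomorph (ℝ × ℝ) (ℝ × ℝ), h '' M = M' ∧ h '' N = N'

lemma Rel.trans {M N M' N' M'' N'' : Set (ℝ × ℝ)} (a : Rel M N M' N') (b : Rel M' N' M'' N'') :
    Rel M N M'' N'' := by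
  obtain ⟨h, rfl, rfl⟩ := a
  obtain ⟨g, rfl, rfl⟩ := b
  exact ⟨h.trans g, by simp [Set.image_image], by simp [Set.image_image]⟩

lemma step {M N : Set (ℝ × ℝ)} {c u : ℝ × ℝ} {a b r : ℝ} (ha : 0 < a) (hb : 0 < b) (hu : u ≠ 0)
    (har : a * ‖u‖ < r) (hbr : b * ‖u‖ < r)
    (hM : ∀ v (k : ℝ), 0 < k → ‖v‖ < r → ‖k • v‖ < r → c + v ∈ M → c + k • v ∈ M)
    (hN : ∀ p ∈ N, p = c ∨ r ≤ ‖p - c‖) :
    Rel (M ∪ segment ℝ c (c + a • u)) (N ∪ {c + a • u}) (M ∪ segment ℝ c (c + b • u))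
      (N ∪ {c + b • u}) := by
  have u0 : 0 < ‖u‖ := norm_pos_iff.2 hu
  have i1 := rad_inv c (mul_pos ha u0) (mul_pos hb u0) har hbr
  have i2 := rad_inv c (mul_pos hb u0) (mul_pos ha u0) hbr har
  obtain ⟨m1, n1⟩ := rad_maps ha hb hu har hbr hM hN
  obtain ⟨m2, n2⟩ := rad_maps hb ha hu hbr har hM hN
  exact ⟨⟨⟨_, _, i1, i2⟩, rad_cont c _ _ (mul_pos ha u0), rad_cont c _ _ (mul_pos hb u0)⟩,
    m1.image_subset.antisymm fun z hz => ⟨_, m2 hz, i2 z⟩,
    n1.image_subset.antisymm fun z hz => ⟨_, n2 hz, i2 z⟩⟩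

lemma resize {ι : Type} [Fintype ι] {M N : Set (ℝ × ℝ)} {x u : ι → ℝ × ℝ} {r : ℝ}
    (hu : ∀ i, u i ≠ 0)
    (hM : ∀ j v (k : ℝ), 0 < k → ‖v‖ < r → ‖k • v‖ < r → x j + v ∈ M → x j + k • v ∈ M)
    (hN : ∀ j, ∀ p ∈ N, p = x j ∨ r ≤ ‖p - x j‖) (hx : ∀ i j, i ≠ j → 2 * r ≤ ‖x i - x j‖)
    {a b : ℝ} (ha : 0 < a) (hb : 0 < b) (har : ∀ i, a * ‖u i‖ < r) (hbr : ∀ i, b * ‖u i‖ < r) :
    Rel (M ∪ ⋃ i, segment ℝ (x i) (x i + a • u i)) (N ∪ Set.range fun i => x i + a • u i)
      (M ∪ ⋃ i, segment ℝ (x i) (x i + b • u i)) (N ∪ Set.range fun i => x i + b • u i) := by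
  classical
  have key : ∀ s : Finset ι, Rel (M ∪ ⋃ i, segment ℝ (x i) (x i + a • u i))
      (N ∪ Set.range fun i => x i + a • u i)
      (M ∪ ⋃ i, segment ℝ (x i) (x i + (if i ∈ s then b else a) • u i))
      (N ∪ Set.range fun i => x i + (if i ∈ s then b else a) • u i) := by
    intro s
    induction s using Finset.induction_on with
    | empty => exact ⟨Homeomorph.refl _, by simp, by simp⟩
    | insert j s hj ih =>
      refine ih.trans ?_
      have far : ∀ i, i ≠ j → ∀ p ∈ segment ℝ (x i) (x i + (if i ∈ s then b else a) • u i),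
          r ≤ ‖p - x j‖ := by
        intro i hi p hp
        have h1 : ‖p - x i‖ ≤ ‖x i + (if i ∈ s then b else a) • u i - x i‖ :=
          norm_sub_le_of_mem_segment hp
        have h2 : ‖x i + (if i ∈ s then b else a) • u i - x i‖ < r := by
          rw [add_sub_cancel_left, norm_smul]
          split_ifs
          exacts [by rw [Real.norm_of_nonneg hb.le]; exact hbr i,
            by rw [Real.norm_of_nonneg ha.le]; exact har i]
        have h3 := norm_sub_le_norm_sub_add_norm_sub (x i) p (x j)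
        have := hx i j hi
        rw [norm_sub_rev (x i) p] at h3
        linarith
      have := step (M := M ∪ ⋃ i : {i // i ≠ j},
          segment ℝ (x i) (x i + (if i.1 ∈ s then b else a) • u i))
        (N := N ∪ Set.range fun i : {i // i ≠ j} => x i + (if i.1 ∈ s then b else a) • u i)
        (c := x j) ha hb (hu j) (har j) (hbr j)
        (by
          rintro v k h1 h2 h3 (h | h)
          · exact Or.inl (hM j v k h1 h2 h3 h)
          · obtain ⟨i, hi⟩ := Set.mem_iUnion.1 h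
            have := far i i.2 _ hi
            rw [add_sub_cancel_left] at this
            linarith)
        (by
          rintro p (h | ⟨i, rfl⟩)
          exacts [hN j p h, Or.inr (far i i.2 _ (right_mem_segment _ _ _))])
      have e1 : ∀ f : ι → Set (ℝ × ℝ), ⋃ i, f i = (⋃ i : {i // i ≠ j}, f i) ∪ f j := fun f => by
        ext z
        simp only [Set.mem_iUnion, Set.mem_union]
        refine ⟨fun ⟨i, h⟩ => ?_, fun h => h.elim (fun ⟨i, h⟩ => ⟨i, h⟩) fun h => ⟨j, h⟩⟩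
        by_cases e : i = j
        exacts [Or.inr (e ▸ h), Or.inl ⟨⟨i, e⟩, h⟩]
      have e2 : ∀ f : ι → ℝ × ℝ, Set.range f = (Set.range fun i : {i // i ≠ j} => f i) ∪ {f j} :=
        fun f => by simpa only [Set.iUnion_singleton_eq_range] using e1 fun i => {f i}
      have e3 : ∀ i : {i // i ≠ j}, (i.1 ∈ insert j s) = (i.1 ∈ s) := fun i => by simp [i.2]
      rw [e1, e2, e1 fun i => segment ℝ (x i) (x i + (if i ∈ insert j s then b else a) • u i),
        e2 fun i => x i + (if i ∈ insert j s then b else a) • u i]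
      simpa only [e3, hj, if_false, Finset.mem_insert_self, if_true, Set.union_assoc] using this
  simpa using key Finset.univ

lemma seg_sat {c w v : ℝ × ℝ} {k r : ℝ} (hw : r ≤ ‖w - c‖) (hk : 0 < k) (h : ‖k • v‖ < r)
    (hv : c + v ∈ segment ℝ c w) : c + k • v ∈ segment ℝ c w := by
  rw [segment_eq_image'] at hv ⊢
  obtain ⟨t, ⟨h0, h1⟩, e⟩ := hv
  obtain rfl : t • (w - c) = v := add_left_cancel e
  refine ⟨k * t, ⟨by positivity, ?_⟩, by simp [smul_smul]⟩
  rw [smul_smul, norm_smul, Real.norm_of_nonneg (by positivity)] at h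
  by_contra hc
  nlinarith [norm_nonneg (w - c)]

lemma cross_zero {p q r : ℝ × ℝ} (h : Collinear ℝ ({p, q, r} : Set (ℝ × ℝ))) :
    (p.1 - q.1) * (r.2 - q.2) = (p.2 - q.2) * (r.1 - q.1) := by
  obtain ⟨v, hv⟩ := (collinear_iff_of_mem (p₀ := q) (by simp)).1 h
  obtain ⟨a, rfl⟩ := hv p (by simp)
  obtain ⟨b, rfl⟩ := hv r (by simp)
  simp; ring

lemma mem_seg {v w p : ℝ × ℝ} {c : ℝ} (d e : ℝ) (hc : 0 < c) (h1 : w.1 - v.1 = c * d)
    (h2 : w.2 - v.2 = c * e) (hd : 0 < d ^ 2 + e ^ 2) (cr : d * (p.2 - v.2) = e * (p.1 - v.1))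
    (lo : 0 ≤ d * (p.1 - v.1) + e * (p.2 - v.2)) (hi : d * (p.1 - w.1) + e * (p.2 - w.2) ≤ 0) :
    p ∈ segment ℝ v w := by
  rw [segment_eq_image']
  refine ⟨(d * (p.1 - v.1) + e * (p.2 - v.2)) / (c * (d ^ 2 + e ^ 2)), ⟨by positivity, ?_⟩, ?_⟩
  · rw [div_le_one (by positivity)]
    have a : w.1 = v.1 + c * d := by linarith
    have b : w.2 = v.2 + c * e := by linarith
    rw [a, b] at hi
    linarith
  · ext
    · simp only [Prod.fst_add, Prod.smul_fst, Prod.fst_sub, h1, smul_eq_mul]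
      field_simp
      linear_combination e * cr
    · simp only [Prod.snd_add, Prod.smul_snd, Prod.snd_sub, h2, smul_eq_mul]
      field_simp
      linear_combination -d * cr

end Pool.Agent.H9.Par
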