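import Mathlib
import Pool.Agent.H9.Par

set_option autoImplicit false

namespace Pool.Agent.H9.Par

def x : Fin 10 → ℝ × ℝ :=
  ![(-9, -10), (6, -10), (-1, 4), (4, 4), (-9, -9), (-9, 11), (3, 11), (3, -3), (-10, 10), (1, 10)]

def y : Fin 10 → ℝ × ℝ :=
  ![(-6, -10), (9, -10), (-1, 10), (10, 10), (-3, -3), (-3, 11), (9, 11), (9, -9), (-4, 4), (1, 4)]

def E (z : Fin 10 → ℝ × ℝ) (i : Fin 10) : Set (ℝ × ℝ) := segment ℝ (z i) (z (i + 1))

def Px : ℕ → ℝ → ℝ → Prop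
  | 0, a, b => b = -10 ∧ -9 ≤ a ∧ a ≤ 6
  | 1, a, b => b = 2 - 2 * a ∧ -1 ≤ a ∧ a ≤ 6
  | 2, a, b => b = 4 ∧ -1 ≤ a ∧ a ≤ 4
  | 3, a, b => b = a ∧ -9 ≤ a ∧ a ≤ 4
  | 4, a, b => a = -9 ∧ -9 ≤ b ∧ b ≤ 11
  | 5, a, b => b = 11 ∧ -9 ≤ a ∧ a ≤ 3
  | 6, a, b => a = 3 ∧ -3 ≤ b ∧ b ≤ 11
  | 7, a, b => b = -a ∧ -10 ≤ a ∧ a ≤ 3
  | 8, a, b => b = 10 ∧ -10 ≤ a ∧ a ≤ 1
  | _, a, b => b = 8 + 2 * a ∧ -9 ≤ a ∧ a ≤ 1

lemma memP (i : Fin 10) (p : ℝ × ℝ) (h : p ∈ E x i) : Px i p.1 p.2 := by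
  obtain ⟨s, t, hs, ht, e, rfl⟩ := h
  fin_cases i <;> simp [Px, x] <;> (repeat' apply And.intro) <;> linarith

lemma tri : ∀ k < 10, ∀ j < k, ∀ i < j, ∀ a b : ℝ, Px i a b → Px j a b → Px k a b → False := by
  intro k hk j hj i hi a b
  interval_cases k <;> interval_cases j <;> interval_cases i <;> simp only [Px] <;>
    rintro ⟨h1, h2, h3⟩ ⟨h4, h5, h6⟩ ⟨h7, h8, h9⟩ <;> linarith

lemma ordx (p : ℝ × ℝ) (i j k : Fin 10) (a : p ∈ E x i) (b : p ∈ E x j) (c : p ∈ E x k) :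
    i = j ∨ j = k ∨ i = k := by
  have a := memP i p a
  have b := memP j p b
  have c := memP k p c
  by_contra h
  simp only [not_or, Fin.ext_iff] at h
  rcases lt_or_gt_of_ne h.1 with u | u <;> rcases lt_or_gt_of_ne h.2.1 with v | v <;>
    rcases lt_or_gt_of_ne h.2.2 with w | w <;> try omega
  exacts [tri _ k.2 _ v _ u _ _ a b c, tri _ j.2 _ v _ w _ _ a c b, tri _ j.2 _ u _ w _ _ c a b,
    tri _ k.2 _ w _ u _ _ b a c, tri _ i.2 _ w _ v _ _ b c a, tri _ i.2 _ u _ v _ _ c b a]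

lemma far (j i : Fin 10) (h : i ≠ j) (h' : i + 1 ≠ j) (p : ℝ × ℝ) (hp : p ∈ E x i) :
    1 / 3 ≤ ‖p - x j‖ := by
  have a := memP i p hp
  by_contra c
  rw [not_le, Prod.norm_def, max_lt_iff, Real.norm_eq_abs, Real.norm_eq_abs, abs_lt, abs_lt] at c
  obtain ⟨⟨c1, c2⟩, c3, c4⟩ := c
  fin_cases i <;> fin_cases j <;>
    first | exact h rfl | exact h' rfl | (simp [Px, x] at a c1 c2 c3 c4; linarith [a.1, a.2.1, a.2.2])

lemma sep (i j : Fin 10) (h : i ≠ j) : 2 * (1 / 3) ≤ ‖x i - x j‖ := by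
  rw [Prod.norm_def, le_max_iff, Real.norm_eq_abs, Real.norm_eq_abs, le_abs, le_abs]
  fin_cases i <;> fin_cases j <;> first | exact (h rfl).elim | (simp [x]; try norm_num)

lemma ncx (i : Fin 10) : ¬ Collinear ℝ ({x (i - 1), x i, x (i + 1)} : Set (ℝ × ℝ)) := by
  intro h
  have := cross_zero h
  revert this
  fin_cases i <;> simp [x] <;> norm_num

lemma ncy (i : Fin 10) : ¬ Collinear ℝ ({y (i - 1), y i, y (i + 1)} : Set (ℝ × ℝ)) := by
  intro h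
  have := cross_zero h
  revert this
  fin_cases i <;> simp [y] <;> norm_num

def mir : (ℝ × ℝ) ≃L[ℝ] (ℝ × ℝ) :=
  (ContinuousLinearEquiv.neg ℝ).prodCongr (ContinuousLinearEquiv.refl ℝ ℝ)

lemma ym (i : Fin 10) : y i = mir (x (1 - i)) := by
  fin_cases i <;> simp [x, y, mir]

lemma mir_seg (p q : ℝ × ℝ) : mir '' segment ℝ p q = segment ℝ (mir p) (mir q) :=
  image_segment ℝ (mir : (ℝ × ℝ) →ₗ[ℝ] (ℝ × ℝ)).toAffineMap p q

lemma Em (i : Fin 10) : E y i = mir '' E x (-i) := by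
  rw [E, E, mir_seg, segment_symm, ym, ym]
  congr 3 <;> abel

def U (z : Fin 10 → ℝ × ℝ) (i : Fin 10) : ℝ × ℝ := (2 : ℝ) • z i - z (i - 1) - z (i + 1)

def MS (z : Fin 10 → ℝ × ℝ) (e : ℝ) : Set (ℝ × ℝ) :=
  (⋃ i, E z i) ∪ ⋃ i, segment ℝ (z i) (z i + e • U z i)

def NS (z : Fin 10 → ℝ × ℝ) (e : ℝ) : Set (ℝ × ℝ) :=
  Set.range z ∪ {p | ∃ i j, i ≠ j ∧ p ∈ E z i ∧ p ∈ E z j} ∪ Set.range fun i => z i + e • U z i

lemma relm (e : ℝ) : Rel (MS x e) (NS x e) (MS y e) (NS y e) := by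
  have u : ∀ i, y i + e • U y i = mir (x (1 - i) + e • U x (1 - i)) := fun i => by
    simp only [U, ym, map_add, map_smul, map_sub]
    rw [show 1 - (i - 1) = 1 - i + 1 by abel, show 1 - (i + 1) = 1 - i - 1 by abel]
    congr 2
    abel
  have s1 : Function.Surjective fun i : Fin 10 => -i := neg_surjective
  have s2 : Function.Surjective fun i : Fin 10 => 1 - i := (Equiv.subLeft 1).surjective
  refine ⟨mir.toHomeomorph, ?_, ?_⟩
  · simp only [MS, ContinuousLinearEquiv.coe_toHomeomorph, Set.image_union, Set.image_iUnion, Em, u]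
    simp only [ym, ← mir_seg]
    rw [s1.iUnion_comp fun i => mir '' E x i,
      s2.iUnion_comp fun i => mir '' segment ℝ (x i) (x i + e • U x i)]
  · simp only [NS, ContinuousLinearEquiv.coe_toHomeomorph, Set.image_union, ← Set.range_comp, Em, u]
    refine congrArg₂ _ (congrArg₂ _ ?_ ?_) ?_
    · rw [show y = (mir ∘ x) ∘ fun i => 1 - i from funext ym, s2.range_comp]
    · ext p
      constructor
      · rintro ⟨q, ⟨i, j, h, a, b⟩, rfl⟩
        exact ⟨-i, -j, by simpa using h, ⟨q, by simpa using a, rfl⟩, q, by simpa using b, rfl⟩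
      · rintro ⟨i, j, h, ⟨q, a, rfl⟩, q', b, e⟩
        exact ⟨q, ⟨-i, -j, by simpa using h, a, mir.injective e ▸ b⟩, rfl⟩
    · exact (s2.range_comp (mir ∘ fun i => x i + e • U x i)).symm

lemma relx {a b : ℝ} (ha : 0 < a) (ha' : a < 1 / 300) (hb : 0 < b) (hb' : b < 1 / 300) :
    Rel (MS x a) (NS x a) (MS x b) (NS x b) := by
  have n : ∀ i, ‖U x i‖ ≤ 100 := fun i => by
    rw [Prod.norm_def, max_le_iff, Real.norm_eq_abs, Real.norm_eq_abs, abs_le, abs_le]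
    fin_cases i <;> simp [U, x] <;> norm_num
  have inc : ∀ j i p, p ∈ E x i → ‖p - x j‖ < 1 / 3 → i = j ∨ i = j - 1 := fun j i p h h' => by
    by_contra c
    rw [not_or] at c
    linarith [far j i c.1 (fun e => c.2 (by rw [← e]; abel)) p h]
  refine resize (r := 1 / 3) (fun i => ?_) ?_ ?_ sep ha hb (fun i => by nlinarith [n i])
    fun i => by nlinarith [n i]
  · fin_cases i <;> simp [U, x] <;> norm_num
  · intro j v k h1 h2 h3 h
    obtain ⟨i, hi⟩ := Set.mem_iUnion.1 h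
    refine Set.mem_iUnion.2 ⟨i, ?_⟩
    rcases inc j i _ hi (by simpa using h2) with rfl | rfl
    · exact seg_sat (by linarith [sep (i + 1) i (by simp)]) h1 h3 hi
    · rw [E, sub_add_cancel, segment_symm] at hi ⊢
      exact seg_sat (by linarith [sep (j - 1) j (by simp)]) h1 h3 hi
  · rintro j p (⟨i, rfl⟩ | ⟨i, k, h, a, b⟩)
    · by_cases e : i = j
      exacts [Or.inl (by rw [e]), Or.inr (by linarith [sep i j e])]
    · by_contra c
      rw [not_or, not_le] at c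
      have key : p ∈ E x j → p ∈ E x (j - 1) → False := by
        intro a b
        rw [E, sub_add_cancel, segment_symm] at b
        rw [E] at a
        rw [segment_eq_image'] at a b
        obtain ⟨s, -, a⟩ := a
        obtain ⟨t, -, b⟩ := b
        have t0 : t ≠ 0 := fun e => c.1 (by rw [← b, e]; simp)
        have s0 : s ≠ 0 := fun e => c.1 (by rw [← a, e]; simp)
        refine ncx j ((collinear_iff_of_mem (p₀ := x j) (by simp)).2 ⟨p - x j, ?_⟩)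
        rintro q (rfl | rfl | rfl)
        · exact ⟨t⁻¹, by rw [← b]; simp [smul_smul, t0]⟩
        · exact ⟨0, by simp⟩
        · exact ⟨s⁻¹, by rw [← a]; simp [smul_smul, s0]⟩
      rcases inc j i p a c.2 with rfl | rfl <;> rcases inc _ k p b c.2 with rfl | rfl
      exacts [h rfl, key a b, key b a, h rfl]

lemma ordy (p : ℝ × ℝ) (i j k : Fin 10) (a : p ∈ E y i) (b : p ∈ E y j) (c : p ∈ E y k) :
    i = j ∨ j = k ∨ i = k := by
  rw [Em] at a b c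
  obtain ⟨q, a, rfl⟩ := a
  obtain ⟨q', b, e⟩ := b
  obtain ⟨q'', c, e'⟩ := c
  have n : ∀ i j : Fin 10, -i = -j → i = j := by decide
  exact (ordx q _ _ _ a (mir.injective e ▸ b) (mir.injective e' ▸ c)).imp (n _ _)
    (Or.imp (n _ _) (n _ _))

def Pl (z : Fin 10 → ℝ × ℝ) : Prop := ∀ i, ∃ c : ℝ, 0 < c ∧ z (i + 1) - z i = c • (x (i + 1) - x i)

lemma ply : Pl y := by
  intro i
  fin_cases i
  exacts [⟨1, by simp [x, y]; norm_num⟩, ⟨10 / 7, by simp [x, y]; norm_num⟩,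
    ⟨11 / 5, by simp [x, y]; norm_num⟩, ⟨1, by simp [x, y]; norm_num⟩, ⟨7 / 10, by simp [x, y]; norm_num⟩,
    ⟨1, by simp [x, y]; norm_num⟩, ⟨10 / 7, by simp [x, y]; norm_num⟩, ⟨1, by simp [x, y]; norm_num⟩,
    ⟨5 / 11, by simp [x, y]; norm_num⟩, ⟨7 / 10, by simp [x, y]; norm_num⟩]

lemma uniq (σ : Fin 10 → Fin 10) (h : (∀ i, σ (i + 1) = σ i + 1) ∨ ∀ i, σ (i + 1) = σ i - 1)
    (p : Pl fun i => y (σ i)) : (fun i => y (σ i)) = y := by
  obtain ⟨c, hc, e⟩ := p 1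
  have e1 := congrArg Prod.fst e
  have e2 := congrArg Prod.snd e
  rcases h with h | h
  · have h1 : σ 1 = 1 := by
      simp only [h 1] at e1 e2
      generalize σ 1 = m at e1 e2
      fin_cases m <;> first | rfl | (simp [x, y, -mul_eq_zero, -zero_eq_mul] at e1 e2 <;> (exfalso; linarith))
    have key : ∀ k : ℕ, σ (1 + Fin.ofNat 10 k) = 1 + Fin.ofNat 10 k := by
      intro k
      induction k with
      | zero => exact h1
      | succ k ih =>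
        have : Fin.ofNat 10 (k + 1) = Fin.ofNat 10 k + 1 := by simp [Fin.ext_iff, Fin.add_def]
        rw [this, ← add_assoc, h, ih]
    funext i
    simpa using congrArg y (key (i - 1).1)
  · exfalso
    simp only [h 1] at e1 e2
    generalize σ 1 = m at e1 e2
    fin_cases m <;> simp [x, y, -mul_eq_zero, -zero_eq_mul] at e1 e2 <;> linarith

noncomputable def L (z : Fin 10 → ℝ × ℝ) (k : Fin 11) : ℝ :=
  let cx := ((z 7).1 + (z 7).2 - (z 3).2 + (z 3).1) / 2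
  let cy := ((z 7).1 + (z 7).2 + (z 3).2 - (z 3).1) / 2
  let a := 2 * ((z 1).1 - cx) + ((z 1).2 - cy)
  let b := -2 * ((z 0).1 - cx) + ((z 0).2 - cy)
  ![(a + b) / 2 - ((z 2).2 - cy), (z 2).2 - cy - ((z 6).1 - cx), (z 6).1 - cx - a, (z 5).2 - (z 2).2,
    cy - (z 0).2 - a, a, (z 8).2 - cy - (cx - (z 4).1), cx - (z 4).1 - b, (z 5).2 - (z 8).2,
    cy - (z 0).2 - b, b] k

lemma wall {z : Fin 10 → ℝ × ℝ} (p : Pl z) (o : ∀ (p : ℝ × ℝ) (i j k : Fin 10), p ∈ E z i → p ∈ E z j →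
    p ∈ E z k → i = j ∨ j = k ∨ i = k) (h : ∀ k, 0 ≤ L z k) (k : Fin 11) : L z k ≠ 0 := by
  choose c hc e using p
  have m : ∀ (i : Fin 10) (q : ℝ × ℝ),
      ((x (i + 1)).1 - (x i).1) * (q.2 - (z i).2) = ((x (i + 1)).2 - (x i).2) * (q.1 - (z i).1) →
      0 ≤ ((x (i + 1)).1 - (x i).1) * (q.1 - (z i).1) + ((x (i + 1)).2 - (x i).2) * (q.2 - (z i).2) →
      ((x (i + 1)).1 - (x i).1) * (q.1 - (z (i + 1)).1) +
        ((x (i + 1)).2 - (x i).2) * (q.2 - (z (i + 1)).2) ≤ 0 → q ∈ E z i := fun i q =>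
    mem_seg _ _ (hc i) (by simpa using congrArg Prod.fst (e i))
      (by simpa using congrArg Prod.snd (e i)) (by fin_cases i <;> simp [x] <;> norm_num)
  have f : ∀ i, ((z (i + 1)).1 - (z i).1 = c i * ((x (i + 1)).1 - (x i).1) ∧
      (z (i + 1)).2 - (z i).2 = c i * ((x (i + 1)).2 - (x i).2)) ∧ 0 < c i := fun i =>
    ⟨⟨by simpa using congrArg Prod.fst (e i), by simpa using congrArg Prod.snd (e i)⟩, hc i⟩
  simp only [Fin.forall_fin_succ, L] at f h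
  simp [x] at f h
  obtain ⟨⟨⟨_, _⟩, _⟩, ⟨⟨_, _⟩, _⟩, ⟨⟨_, _⟩, _⟩, ⟨⟨_, _⟩, _⟩, ⟨⟨_, _⟩, _⟩, ⟨⟨_, _⟩, _⟩, ⟨⟨_, _⟩, _⟩,
    ⟨⟨_, _⟩, _⟩, ⟨⟨_, _⟩, _⟩, ⟨_, _⟩, _⟩ := f
  obtain ⟨_, _, _, _, _, _, _, _, _, _, _⟩ := h
  intro h0
  have g : ∀ (q : ℝ × ℝ) (i j k : Fin 10), ¬ (i = j ∨ j = k ∨ i = k) → q ∈ E z i → q ∈ E z j →
    q ∈ E z k → False := fun q i j k n a b c => n (o q i j k a b c)
  fin_cases k <;> simp [L] at h0
  on_goal 1 => refine g (z 2) 1 2 9 (by decide) ?_ ?_ ?_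
  on_goal 4 => refine g (z 3) 2 3 6 (by decide) ?_ ?_ ?_
  on_goal 7 => refine g (z 7) 6 7 1 (by decide) ?_ ?_ ?_
  on_goal 10 => refine g (z 6) 5 6 2 (by decide) ?_ ?_ ?_
  on_goal 13 => refine g (z 1) 0 1 7 (by decide) ?_ ?_ ?_
  on_goal 16 => refine g (((z 7).1 + (z 7).2 - (z 3).2 + (z 3).1) / 2,
    ((z 7).1 + (z 7).2 + (z 3).2 - (z 3).1) / 2) 1 3 7 (by decide) ?_ ?_ ?_
  on_goal 19 => refine g (z 8) 7 8 4 (by decide) ?_ ?_ ?_
  on_goal 22 => refine g (z 4) 3 4 9 (by decide) ?_ ?_ ?_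
  on_goal 25 => refine g (z 5) 4 5 8 (by decide) ?_ ?_ ?_
  on_goal 28 => refine g (z 0) 9 0 3 (by decide) ?_ ?_ ?_
  on_goal 31 => refine g (((z 7).1 + (z 7).2 - (z 3).2 + (z 3).1) / 2,
    ((z 7).1 + (z 7).2 + (z 3).2 - (z 3).1) / 2) 9 3 7 (by decide) ?_ ?_ ?_
  all_goals refine m _ _ ?_ ?_ ?_ <;>
    simp [x, -mul_eq_zero, -zero_eq_mul, -mul_eq_mul_left_iff, -mul_eq_mul_right_iff] <;> linarith

lemma nodef (X : ℝ → Fin 10 → ℝ × ℝ) (hc : ∀ j, ContinuousOn (fun t => X t j) (Set.Icc 0 1))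
    (h0 : X 0 = x) (h1 : X 1 = y) (h : ∀ t ∈ Set.Icc (0 : ℝ) 1, Pl (X t) ∧ ∀ (p : ℝ × ℝ)
      (i j k : Fin 10), p ∈ E (X t) i → p ∈ E (X t) j → p ∈ E (X t) k → i = j ∨ j = k ∨ i = k) :
    False := by
  have c : Continuous fun z => Finset.univ.inf' Finset.univ_nonempty (L z) :=
    Continuous.finset_inf'_apply _ fun k _ => by fin_cases k <;> simp [L] <;> fun_prop
  obtain ⟨t, ht, e⟩ := intermediate_value_Icc' zero_le_one
    (c.comp_continuousOn (continuousOn_pi.2 hc)) (show (0 : ℝ) ∈ _ from ⟨by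
      refine (Finset.inf'_le _ (Finset.mem_univ 0)).trans ?_
      simp [h1, L, y]; norm_num, by
      refine Finset.le_inf' Finset.univ_nonempty _ fun k _ => ?_
      fin_cases k <;> simp [h0, L, x] <;> norm_num⟩)
  obtain ⟨k, -, e'⟩ := Finset.exists_mem_eq_inf' Finset.univ_nonempty (L (X t))
  exact wall (h t ht).1 (h t ht).2 (fun k => e ▸ Finset.inf'_le _ (Finset.mem_univ k)) k
    (e'.symm.trans e)

end Pool.Agent.H9.Par
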