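import Mathlib

set_option autoImplicit false

open Finset Real

namespace Pool.Agent.H9.PathCover

abbrev Pt := ℝ × ℝ

def D (a b c : Pt) : ℝ := (b.1 - a.1) * (c.2 - a.2) - (b.2 - a.2) * (c.1 - a.1)

lemma D_cyc (a b c : Pt) : D a b c = D b c a := by unfold D; ring

lemma D_swap (a b c : Pt) : D a b c = -D a c b := by unfold D; ring

lemma D_col {a b c : Pt} (h : Collinear ℝ {a, b, c}) : D a b c = 0 := by
  obtain ⟨v, hv⟩ := (collinear_iff_of_mem (p₀ := a) (by simp)).1 h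
  obtain ⟨r, hr⟩ := hv b (by simp)
  obtain ⟨s, hs⟩ := hv c (by simp)
  rw [hr, hs]
  simp [D]; ring

lemma cross (a b c d : Pt) (h1 : 0 < D a b c) (h2 : 0 < D b c d) (h3 : 0 < D c d a)
    (h4 : 0 < D d a b) : (segment ℝ a c ∩ segment ℝ b d).Nonempty := by
  have hS : D b c d + D d a b = D c d a + D a b c := by unfold D; ring
  have S0 : D b c d + D d a b ≠ 0 := by linarith
  refine ⟨(D b c d / (D b c d + D d a b)) • a + (D d a b / (D b c d + D d a b)) • c,
    ⟨_, _, by positivity, by positivity, by field_simp, rfl⟩,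
    ⟨D c d a / (D b c d + D d a b), D a b c / (D b c d + D d a b), by positivity, by positivity,
      by rw [← add_div, ← hS]; field_simp, ?_⟩⟩
  ext
  · simp only [Prod.fst_add, Prod.smul_fst, smul_eq_mul]
    field_simp
    unfold D; ring
  · simp only [Prod.snd_add, Prod.smul_snd, smul_eq_mul]
    field_simp
    unfold D; ring

noncomputable def P (N a : ℕ) : Pt := (cos (2 * π * a / N), sin (2 * π * a / N))

lemma P_per (N a : ℕ) (hN : 0 < N) : P N (a + N) = P N a := by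
  have : (N : ℝ) ≠ 0 := by positivity
  have e : 2 * π * ((a + N : ℕ) : ℝ) / N = 2 * π * a / N + 2 * π := by push_cast; field_simp
  simp only [P, e, cos_add_two_pi, sin_add_two_pi]

lemma sin_pos' (N j : ℕ) (h0 : 0 < j) (h1 : j < N) : 0 < sin (π * j / N) := by
  have a : (0 : ℝ) < j := by exact_mod_cast h0
  have b : (j : ℝ) < N := by exact_mod_cast h1
  have := pi_pos
  refine sin_pos_of_pos_of_lt_pi (by have : (0 : ℝ) < N := by linarith
                                     positivity) ?_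
  rw [div_lt_iff₀ (by linarith)]; nlinarith

lemma D_P (N a b c : ℕ) (h1 : a < b) (h2 : b < c) (h3 : c < a + N) :
    0 < D (P N a) (P N b) (P N c) := by
  obtain ⟨i, rfl⟩ := Nat.exists_eq_add_of_le h1.le
  obtain ⟨j, rfl⟩ := Nat.exists_eq_add_of_le h2.le
  have s1 := sin_pos' N i (by omega) (by omega)
  have s2 := sin_pos' N j (by omega) (by omega)
  have s3 := sin_pos' N (i + j) (by omega) (by omega)
  set x := π * i / N
  set y := π * j / N
  set α := 2 * π * a / N
  have e1 : 2 * π * ((a + i : ℕ) : ℝ) / N = α + 2 * x := by push_cast; simp only [α, x]; ring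
  have e2 : 2 * π * ((a + i + j : ℕ) : ℝ) / N = α + 2 * (x + y) := by
    push_cast; simp only [α, x, y]; ring
  have e3 : π * ((i + j : ℕ) : ℝ) / N = x + y := by push_cast; simp only [x, y]; ring
  rw [e3] at s3
  have key : D (P N a) (P N (a + i)) (P N (a + i + j)) = 4 * sin x * sin y * sin (x + y) := by
    simp only [D, P, e1, e2, cos_add, sin_add, cos_two_mul, sin_two_mul]
    have a1 := sin_sq_add_cos_sq α
    have a2 := sin_sq_add_cos_sq x
    have a3 := sin_sq_add_cos_sq y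
    have : ∀ u v w : ℝ, (cos α * u - sin α * v - cos α) * (sin α * w + cos α * (2 * (sin x * cos y + cos x * sin y) * (cos x * cos y - sin x * sin y)) - sin α) -
      (sin α * u + cos α * v - sin α) * (cos α * w - sin α * (2 * (sin x * cos y + cos x * sin y) * (cos x * cos y - sin x * sin y)) - cos α) =
      (sin α ^ 2 + cos α ^ 2) * ((u - 1) * (2 * (sin x * cos y + cos x * sin y) * (cos x * cos y - sin x * sin y)) - v * (w - 1)) := by
      intro u v w; ring
    rw [this, a1]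
    linear_combination (-4 * cos x * sin x * sin y ^ 2 + 4 * cos x ^ 2 * cos y * sin y) * a2 +
      (-4 * cos x * sin x) * a3
  rw [key]; positivity

lemma D_zero (k a l : ℕ) (h0 : 0 < l) (h1 : l ≤ k) :
    0 < D (0, 0) (P (2 * k + 1) a) (P (2 * k + 1) (a + l)) := by
  have := sin_pos' (2 * k + 1) (2 * l) (by omega) (by omega)
  have e : π * ((2 * l : ℕ) : ℝ) / (2 * k + 1 : ℕ) =
      2 * π * ((a + l : ℕ) : ℝ) / (2 * k + 1 : ℕ) - 2 * π * a / (2 * k + 1 : ℕ) := by
    push_cast; ring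
  rw [e, sin_sub] at this
  simp only [D, P, sub_zero]
  linarith

lemma cos_ne (k a : ℕ) : (P (2 * k + 1) a).1 ≠ 0 := by
  intro h
  obtain ⟨n, hn⟩ := cos_eq_zero_iff.1 h
  have h0 : ((2 * k + 1 : ℕ) : ℝ) ≠ 0 := by positivity
  have h1 := pi_pos
  field_simp at hn
  have : (2 : ℤ) ^ 2 * a = ((2 * k + 1 : ℕ) : ℤ) * (2 * n + 1) := by exact_mod_cast hn
  push_cast at this
  have h2 : (2 * (k : ℤ) + 1) * (2 * n + 1) = 2 * (2 * k * n + k + n) + 1 := by ring
  omega

def X (η : ℝ) (s : ℕ) : Pt := ((s * η) ^ 2, s * η)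

lemma exists_eta (k w : ℕ) : ∃ η : ℝ, 0 < η ∧
    (∀ s < w, ∀ a < 2 * k + 1, ∀ l, 0 < l → l ≤ k →
      0 < D (X η s) (P (2 * k + 1) a) (P (2 * k + 1) (a + l))) ∧
    (∀ s < w, ∀ s' < w, s ≠ s' → ∀ a < 2 * k + 1, D (X η s) (X η s') (P (2 * k + 1) a) ≠ 0) := by
  have h1 : ∀ᶠ η in nhds (0 : ℝ), ∀ s ∈ range w, ∀ a ∈ range (2 * k + 1), ∀ l ∈ Ioc 0 k,
      0 < D (X η s) (P (2 * k + 1) a) (P (2 * k + 1) (a + l)) := by
    simp only [Filter.eventually_all_finset]
    intro s _ a _ l hl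
    have c : Continuous fun η => D (X η s) (P (2 * k + 1) a) (P (2 * k + 1) (a + l)) := by
      unfold D X; fun_prop
    refine c.continuousAt.eventually (lt_mem_nhds ?_)
    simpa [X] using D_zero k a l (mem_Ioc.1 hl).1 (mem_Ioc.1 hl).2
  have h2 : ∀ᶠ η in nhds (0 : ℝ), ∀ s ∈ range w, ∀ s' ∈ range w, ∀ a ∈ range (2 * k + 1),
      (s' + s) * η * ((P (2 * k + 1) a).2 - s * η) - ((P (2 * k + 1) a).1 - (s * η) ^ 2) ≠ 0 := by
    simp only [Filter.eventually_all_finset]
    intro s _ s' _ a _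
    have c : Continuous fun η : ℝ =>
        (s' + s) * η * ((P (2 * k + 1) a).2 - s * η) - ((P (2 * k + 1) a).1 - (s * η) ^ 2) := by
      fun_prop
    refine c.continuousAt.eventually_ne ?_
    simpa using cos_ne k a
  obtain ⟨η, ⟨a1, a2⟩, a3⟩ := (((h1.and h2).filter_mono nhdsWithin_le_nhds).and
    (self_mem_nhdsWithin (a := (0 : ℝ)) (s := Set.Ioi 0))).exists
  refine ⟨η, a3, fun s hs a ha l l0 l1 => a1 s (mem_range.2 hs) a (mem_range.2 ha) l
    (mem_Ioc.2 ⟨l0, l1⟩), fun s hs s' hs' hne a ha => ?_⟩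
  have := a2 s (mem_range.2 hs) s' (mem_range.2 hs') a (mem_range.2 ha)
  have e : D (X η s) (X η s') (P (2 * k + 1) a) = ((s' - s) * η) * ((s' + s) * η *
      ((P (2 * k + 1) a).2 - s * η) - ((P (2 * k + 1) a).1 - (s * η) ^ 2)) := by
    simp only [D, X]; ring
  rw [e]
  refine mul_ne_zero (mul_ne_zero ?_ (ne_of_gt a3)) this
  rw [sub_ne_zero]; exact_mod_cast hne.symm

def Pl (t : ℕ) (v : ℕ → Pt) : Prop :=
  Set.InjOn v (Set.Iio t) ∧ ∀ i j, i + 1 < t → j + 1 < t → i ≠ j →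
    segment ℝ (v i) (v (i + 1)) ∩ segment ℝ (v j) (v (j + 1)) ⊆ {v i, v (i + 1)} ∩ {v j, v (j + 1)}

def Adj (t : ℕ) (v : ℕ → Pt) (a b : Pt) : Prop :=
  ∃ i, i + 1 < t ∧ ((v i = a ∧ v (i + 1) = b) ∨ (v i = b ∧ v (i + 1) = a))

lemma Adj.symm {t : ℕ} {v : ℕ → Pt} {a b : Pt} (h : Adj t v a b) : Adj t v b a := by
  obtain ⟨i, h1, h2⟩ := h
  exact ⟨i, h1, h2.symm⟩

lemma deg {ι : Type*} {t : ℕ} {v : ℕ → Pt} (h : Pl t v) (a : Pt) (J : Finset ι) (f : ι → Pt)
    (hf : Set.InjOn f J) (hJ : ∀ j ∈ J, Adj t v a (f j)) : J.card ≤ 2 := by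
  classical
  rcases J.eq_empty_or_nonempty with rfl | ⟨j0, hj0⟩
  · simp
  obtain ⟨i0, hi0, e0⟩ : ∃ i0, i0 < t ∧ v i0 = a := by
    obtain ⟨i, h1, h2 | h2⟩ := hJ j0 hj0
    · exact ⟨i, by omega, h2.1⟩
    · exact ⟨i + 1, h1, h2.2⟩
  rw [← card_image_of_injOn hf]
  refine (card_le_card (t := {v (i0 + 1), v (i0 - 1)}) ?_).trans card_le_two
  intro z hz
  obtain ⟨j, hj, rfl⟩ := mem_image.1 hz
  obtain ⟨i, h1, h2 | h2⟩ := hJ j hj
  · have : i = i0 := h.1 (show i < t by omega) hi0 (h2.1.trans e0.symm)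
    subst this
    simp [h2.2]
  · have : i + 1 = i0 := h.1 h1 hi0 (h2.2.trans e0.symm)
    subst this
    simp [h2.1]

lemma nc {t : ℕ} {v : ℕ → Pt} (h : Pl t v) (a b c d : Pt) (h1 : 0 < D a b c) (h2 : 0 < D b c d)
    (h3 : 0 < D c d a) (h4 : 0 < D d a b) (e1 : Adj t v a c) (e2 : Adj t v b d) : False := by
  obtain ⟨z, z1, z2⟩ := cross a b c d h1 h2 h3 h4
  have n1 : a ≠ b := by rintro rfl; simp [D] at h1
  have n2 : a ≠ d := by rintro rfl; simp [D] at h4
  have n3 : c ≠ b := by rintro rfl; simp [D] at h2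
  have n4 : c ≠ d := by rintro rfl; simp [D] at h3
  have key : ∀ i j, i + 1 < t → j + 1 < t → ({v i, v (i + 1)} : Set Pt) = {a, c} →
      ({v j, v (j + 1)} : Set Pt) = {b, d} → segment ℝ (v i) (v (i + 1)) = segment ℝ a c →
      segment ℝ (v j) (v (j + 1)) = segment ℝ b d → False := by
    intro i j hi hj f1 f2 f3 f4
    by_cases hij : i = j
    · subst hij
      have : a ∈ ({b, d} : Set Pt) := by rw [← f2, f1]; simp
      simp [n1, n2] at this
    · have := h.2 i j hi hj hij (show z ∈ _ from ⟨f3 ▸ z1, f4 ▸ z2⟩)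
      rw [f1, f2] at this
      obtain ⟨rfl | rfl, g2⟩ := this
      · simp [n1, n2] at g2
      · simp [n3, n4] at g2
  obtain ⟨i, hi, ⟨rfl, rfl⟩ | ⟨rfl, rfl⟩⟩ := e1 <;> obtain ⟨j, hj, ⟨rfl, rfl⟩ | ⟨rfl, rfl⟩⟩ := e2
  · exact key i j hi hj rfl rfl rfl rfl
  · exact key i j hi hj rfl (Set.pair_comm _ _) rfl (segment_symm _ _ _)
  · exact key i j hi hj (Set.pair_comm _ _) rfl (segment_symm _ _ _) rfl
  · exact key i j hi hj (Set.pair_comm _ _) (Set.pair_comm _ _) (segment_symm _ _ _)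
      (segment_symm _ _ _)

lemma P_inj (N : ℕ) (hN : 3 ≤ N) (a b : ℕ) (h1 : a < b) (h2 : b < a + N) : P N a ≠ P N b := by
  intro h
  by_cases h3 : b + 1 < a + N
  · have := D_P N a b (b + 1) h1 (by omega) h3
    rw [h] at this; simp [D] at this
  · have := D_P N a (a + 1) b (by omega) (by omega) h2
    rw [h] at this; simp [D] at this

lemma P_injOn (N : ℕ) (hN : 3 ≤ N) (a b : ℕ) (h1 : a < N) (h2 : b < N) (h : P N a = P N b) :
    a = b := by
  rcases lt_trichotomy a b with g | g | g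
  · exact absurd h (P_inj N hN a b g (by omega))
  · exact g
  · exact absurd h.symm (P_inj N hN b a g (by omega))

lemma X_inj (η : ℝ) (h : 0 < η) : Function.Injective (X η) := by
  intro s s' e
  have := congrArg Prod.snd e
  simp only [X] at this
  exact_mod_cast mul_right_cancel₀ h.ne' this

open Classical in
lemma weight (k w : ℕ) (hk : 3 * w + 1 ≤ k) (η : ℝ) (h0 : 0 < η)
    (hD : ∀ s < w, ∀ a < 2 * k + 1, ∀ l, 0 < l → l ≤ k →
      0 < D (X η s) (P (2 * k + 1) a) (P (2 * k + 1) (a + l)))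
    (t : ℕ) (v : ℕ → Pt) (h : Pl t v) :
    2 * ((range (2 * k + 1) ×ˢ Ioc (k - w) k).filter fun a =>
        Adj t v (P (2 * k + 1) a.1) (P (2 * k + 1) (a.1 + a.2))).card +
      ((range w ×ˢ range (2 * k + 1)).filter fun a =>
        Adj t v (X η a.1) (P (2 * k + 1) a.2)).card ≤ 4 * w + 6 := by
  set N := 2 * k + 1 with hN
  set L := (range N ×ˢ Ioc (k - w) k).filter fun a => Adj t v (P N a.1) (P N (a.1 + a.2)) with hL
  set R := (range w ×ˢ range N).filter fun a => Adj t v (X η a.1) (P N a.2) with hR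
  have N0 : 0 < N := by omega
  have hD' : ∀ s < w, ∀ a < 2 * N, ∀ l, 0 < l → l ≤ k → 0 < D (X η s) (P N a) (P N (a + l)) := by
    intro s hs a ha l l0 l1
    by_cases g : a < N
    · exact hD s hs a g l l0 l1
    · obtain ⟨a, rfl⟩ := Nat.exists_eq_add_of_le' (not_lt.1 g)
      rw [P_per _ _ N0, show a + N + l = a + l + N by ring, P_per _ _ N0]
      exact hD s hs a (by omega) l l0 l1
  have NC : ∀ a b c d, a < b → b < c → c < d → d < a + N → Adj t v (P N a) (P N c) →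
      Adj t v (P N b) (P N d) → False := by
    intro a b c d h1 h2 h3 h4 e1 e2
    refine nc h _ _ _ _ (D_P N a b c h1 h2 (by omega)) (D_P N b c d h2 h3 (by omega)) ?_ ?_ e1 e2
    · rw [← D_cyc]; exact D_P N a c d (by omega) h3 h4
    · rw [D_cyc]; exact D_P N a b d h1 (by omega) h4
  have NX : ∀ s < w, ∀ a b l, a < b → b < a + l → l ≤ k → b < 2 * N →
      Adj t v (P N a) (P N (a + l)) → Adj t v (X η s) (P N b) → False := by
    intro s hs a b l h1 h2 h3 h4 e1 e2
    refine nc h _ _ _ _ (D_P N a b (a + l) h1 h2 (by omega)) ?_ ?_ ?_ e1 e2.symm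
    · rw [← D_cyc]
      have := hD' s hs b h4 (a + l - b) (by omega) (by omega)
      rwa [show b + (a + l - b) = a + l by omega] at this
    · rw [D_cyc]; exact hD' s hs a (by omega) l (by omega) h3
    · have := hD' s hs a (by omega) (b - a) (by omega) (by omega)
      rwa [show a + (b - a) = b by omega] at this
  have R1 : R.card ≤ 2 * w := by
    have := card_le_mul_card_image_of_maps_to (s := R) (t := range w) (f := Prod.fst)
      (fun a ha => (mem_product.1 (mem_filter.1 ha).1).1) 2 (fun s _ => by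
        refine deg h (X η s) _ (fun a => P N a.2) ?_ ?_
        · intro a ha b hb e
          obtain ⟨a1, a2⟩ := mem_filter.1 (mem_coe.1 ha)
          obtain ⟨b1, b2⟩ := mem_filter.1 (mem_coe.1 hb)
          refine Prod.ext (a2.trans b2.symm) (P_injOn N (by omega) _ _ ?_ ?_ e)
          · exact mem_range.1 (mem_product.1 (mem_filter.1 a1).1).2
          · exact mem_range.1 (mem_product.1 (mem_filter.1 b1).1).2
        · intro a ha
          obtain ⟨a1, a2⟩ := mem_filter.1 ha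
          rw [← a2]; exact (mem_filter.1 a1).2)
    simpa using this
  rcases L.eq_empty_or_nonempty with hE | hne
  · rw [hE]; simp; omega
  obtain ⟨⟨i0, l0⟩, m0, max0⟩ := exists_max_image L Prod.snd hne
  let r : ℕ → ℕ := fun j => if i0 ≤ j then j else j + N
  have Pr : ∀ j l, P N (r j + l) = P N (j + l) := by
    intro j l
    simp only [r]
    split_ifs
    · rfl
    · rw [show j + N + l = j + l + N by ring, P_per _ _ N0]
  have Pr0 : ∀ j, P N (r j) = P N j := fun j => Pr j 0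
  have memL : ∀ a ∈ L, a.1 < N ∧ k - w < a.2 ∧ a.2 ≤ k ∧
      Adj t v (P N (r a.1)) (P N (r a.1 + a.2)) := by
    intro a ha
    obtain ⟨a1, a2⟩ := mem_filter.1 ha
    obtain ⟨a3, a4⟩ := mem_product.1 a1
    rw [Pr, Pr0]
    exact ⟨mem_range.1 a3, (mem_Ioc.1 a4).1, (mem_Ioc.1 a4).2, a2⟩
  have r0 : r i0 = i0 := by simp [r]
  obtain ⟨b1, b2, b3, b4⟩ := memL _ m0
  simp only [r0] at b1 b2 b3 b4
  have rr : ∀ j, j < N → i0 ≤ r j ∧ r j < i0 + N := by
    intro j hj; simp only [r]; split_ifs <;> omega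
  have rinj : ∀ j j', j < N → j' < N → r j = r j' → j = j' := by
    intro j j' hj hj'; simp only [r]; split_ifs <;> omega
  have cls : ∀ a ∈ L, r a.1 + a.2 ≤ i0 + l0 ∨ (i0 + l0 ≤ r a.1 ∧ r a.1 + a.2 ≤ i0 + N) := by
    intro a ha
    obtain ⟨a1, a2, a3, a4⟩ := memL a ha
    have a5 := max0 a ha
    obtain ⟨a6, a7⟩ := rr _ a1
    simp only at a5
    by_contra hh
    by_cases g : r a.1 < i0 + l0
    · exact NC i0 (r a.1) (i0 + l0) (r a.1 + a.2) (by omega) g (by omega) (by omega) b4 a4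
    · refine NC (r a.1) (i0 + N) (r a.1 + a.2) (i0 + l0 + N) a7 (by omega) (by omega) (by omega)
        a4 ?_
      rwa [P_per _ _ N0, P_per _ _ N0]
  have inj : ∀ (S : Finset (ℕ × ℕ)) (lo hi m : ℕ), S ⊆ L → hi ≤ lo + (k + w) →
      (∀ a ∈ S, lo ≤ r a.1 ∧ r a.1 + a.2 ≤ hi ∧ a.2 ≤ m) → S.card ≤ m - (k - w) := by
    intro S lo hi m hS hh hb
    rw [← Nat.card_Ioc]
    refine card_le_card_of_injOn Prod.snd (fun a ha => ?_) (fun a ha b hb' e => ?_)
    · exact mem_coe.2 (mem_Ioc.2 ⟨(memL a (hS ha)).2.1, (hb a ha).2.2⟩)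
    · obtain ⟨a1, a2, a3, a4⟩ := memL a (hS ha)
      obtain ⟨c1, c2, c3, c4⟩ := memL b (hS hb')
      obtain ⟨a5, a6, -⟩ := hb a ha
      obtain ⟨c5, c6, -⟩ := hb b hb'
      refine Prod.ext (rinj _ _ a1 c1 ?_) e
      rcases lt_trichotomy (r a.1) (r b.1) with g | g | g
      · exact (NC _ _ _ _ g (by omega) (by omega) (by omega) a4 c4).elim
      · exact g
      · exact (NC _ _ _ _ g (by omega) (by omega) (by omega) c4 a4).elim
  have split := card_filter_add_card_filter_not (s := L) (fun a => r a.1 + a.2 ≤ i0 + l0)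
  have c1 := inj (L.filter fun a => r a.1 + a.2 ≤ i0 + l0) i0 (i0 + l0) l0 (filter_subset _ _)
    (by omega) (fun a ha => ⟨(rr _ (memL a (mem_filter.1 ha).1).1).1, (mem_filter.1 ha).2,
      max0 a (mem_filter.1 ha).1⟩)
  rcases (L.filter fun a => ¬ r a.1 + a.2 ≤ i0 + l0).eq_empty_or_nonempty with hE | hne2
  · rw [hE] at split
    simp only [card_empty] at split
    omega
  obtain ⟨⟨i1, l1⟩, m1, max1⟩ := exists_max_image _ Prod.snd hne2
  have c2 := inj (L.filter fun a => ¬ r a.1 + a.2 ≤ i0 + l0) (i0 + l0) (i0 + N) l1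
    (filter_subset _ _) (by omega) (fun a ha => by
      have := (cls a (mem_filter.1 ha).1).resolve_left (mem_filter.1 ha).2
      exact ⟨this.1, this.2, max1 a ha⟩)
  obtain ⟨d1, d2, d3, d4⟩ := memL _ (mem_filter.1 m1).1
  obtain ⟨d5, d6⟩ := (cls _ (mem_filter.1 m1).1).resolve_left (mem_filter.1 m1).2
  simp only at d1 d2 d3 d4 d5 d6
  have R2 : R.card ≤ 2 * ({i0} ∪ Icc (i0 + l0) (r i1) ∪ Ico (r i1 + l1) (i0 + N)).card := by
    refine card_le_mul_card_image_of_maps_to (f := fun a => r a.2) (fun a ha => ?_) 2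
      (fun j _ => ?_)
    · obtain ⟨a1, a2⟩ := mem_filter.1 ha
      obtain ⟨a3, a4⟩ := mem_product.1 a1
      obtain ⟨a5, a6⟩ := rr _ (mem_range.1 a4)
      rw [← Pr0] at a2
      have n1 := fun g1 g2 => NX _ (mem_range.1 a3) i0 (r a.2) l0 g1 g2 b3 (by omega) b4 a2
      have n2 := fun g1 g2 => NX _ (mem_range.1 a3) (r i1) (r a.2) l1 g1 g2 d3 (by omega) d4 a2
      simp only [mem_union, mem_singleton, mem_Icc, mem_Ico]
      by_contra hh
      by_cases g : r a.2 < i0 + l0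
      · exact n1 (by omega) g
      · exact n2 (by omega) (by omega)
    · refine deg h (P N j) _ (fun a => X η a.1) ?_ ?_
      · intro a ha b hb e
        obtain ⟨a1, a2⟩ := mem_filter.1 (mem_coe.1 ha)
        obtain ⟨e1, e2⟩ := mem_filter.1 (mem_coe.1 hb)
        refine Prod.ext (X_inj η h0 e) (rinj _ _ ?_ ?_ (a2.trans e2.symm))
        · exact mem_range.1 (mem_product.1 (mem_filter.1 a1).1).2
        · exact mem_range.1 (mem_product.1 (mem_filter.1 e1).1).2
      · intro a ha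
        obtain ⟨a1, a2⟩ := mem_filter.1 ha
        rw [← a2, Pr0]; exact (mem_filter.1 a1).2.symm
  have R3 := card_union_le ({i0} ∪ Icc (i0 + l0) (r i1)) (Ico (r i1 + l1) (i0 + N))
  have R4 := card_union_le {i0} (Icc (i0 + l0) (r i1))
  simp only [card_singleton, Nat.card_Icc, Nat.card_Ico] at R3 R4
  omega

lemma D_P_ne (N a b c : ℕ) (ha : a < N) (hb : b < N) (hc : c < N) (h1 : a ≠ b) (h2 : a ≠ c)
    (h3 : b ≠ c) : D (P N a) (P N b) (P N c) ≠ 0 := by
  have k := fun a b c h1 h2 h3 => (D_P N a b c h1 h2 h3).ne'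
  rcases lt_or_gt_of_ne h1 with g1 | g1 <;> rcases lt_or_gt_of_ne h2 with g2 | g2 <;>
    rcases lt_or_gt_of_ne h3 with g3 | g3
  · exact k a b c g1 g3 (by omega)
  · rw [D_swap, neg_ne_zero]; exact k a c b g2 g3 (by omega)
  · omega
  · rw [← D_cyc]; exact k c a b g2 g1 (by omega)
  · rw [D_cyc, D_swap, neg_ne_zero]; exact k b a c g1 g2 (by omega)
  · omega
  · rw [D_cyc]; exact k b c a g3 g2 (by omega)
  · rw [D_swap, D_cyc, neg_ne_zero]; exact k c b a g3 g1 (by omega)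

lemma conf (k w : ℕ) (hk : 3 * w + 1 ≤ k) : ∃ A : Finset Pt, A.card = 2 * k + 1 + w ∧
    (∀ a ∈ A, ∀ b ∈ A, ∀ d ∈ A, a ≠ b → a ≠ d → b ≠ d → ¬ Collinear ℝ {a, b, d}) ∧
    ∀ (M : ℕ) (t : Fin M → ℕ) (v : Fin M → ℕ → Pt), (∀ s, Pl (t s) (v s)) →
      (∀ a ∈ A, ∀ b ∈ A, a ≠ b → ∃ s, Adj (t s) (v s) a b) →
      3 * ((2 * k + 1) * w) ≤ M * (4 * w + 6) := by
  classical
  obtain ⟨η, h0, h1, h2⟩ := exists_eta k w
  set N := 2 * k + 1 with hN
  have N0 : 0 < N := by omega
  have XP : ∀ s < w, ∀ a < N, X η s ≠ P N a := by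
    intro s hs a ha e
    have := h1 s hs a ha 1 one_pos (by omega)
    rw [e] at this; simp [D] at this
  have XPP : ∀ s < w, ∀ a < N, ∀ b < N, a ≠ b → D (X η s) (P N a) (P N b) ≠ 0 := by
    have : ∀ s < w, ∀ a < N, ∀ b < N, a < b → D (X η s) (P N a) (P N b) ≠ 0 := by
      intro s hs a ha b hb hab
      by_cases g : b - a ≤ k
      · have := h1 s hs a ha (b - a) (by omega) g
        rw [show a + (b - a) = b by omega] at this
        exact this.ne'
      · have := h1 s hs b hb (a + N - b) (by omega) (by omega)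
        rw [show b + (a + N - b) = a + N by omega, P_per _ _ N0] at this
        rw [D_swap, neg_ne_zero]; exact this.ne'
    intro s hs a ha b hb hab
    rcases lt_or_gt_of_ne hab with g | g
    · exact this s hs a ha b hb g
    · rw [D_swap, neg_ne_zero]; exact this s hs b hb a ha g
  have XXX : ∀ a b c : ℕ, a ≠ b → a ≠ c → b ≠ c → D (X η a) (X η b) (X η c) ≠ 0 := by
    intro a b c h1 h2 h3
    have e : D (X η a) (X η b) (X η c) = η ^ 3 * (((b : ℝ) - a) * ((c : ℝ) - a) * ((b : ℝ) - c)) := by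
      simp only [D, X]; ring
    rw [e]
    refine mul_ne_zero (pow_ne_zero _ h0.ne') (mul_ne_zero (mul_ne_zero ?_ ?_) ?_) <;>
      rw [sub_ne_zero]
    · exact_mod_cast h1.symm
    · exact_mod_cast h2.symm
    · exact_mod_cast h3
  refine ⟨(range N).image (P N) ∪ (range w).image (X η), ?_, ?_, ?_⟩
  · rw [card_union_of_disjoint, card_image_of_injOn, card_image_of_injective _ (X_inj η h0)]
    · simp
    · intro a ha b hb e
      exact P_injOn N (by omega) a b (by simpa using ha) (by simpa using hb) e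
    · rw [disjoint_left]
      intro z z1 z2
      obtain ⟨a, ha, rfl⟩ := mem_image.1 z1
      obtain ⟨s, hs, e⟩ := mem_image.1 z2
      exact XP s (mem_range.1 hs) a (mem_range.1 ha) e
  · intro a ha b hb d hd n1 n2 n3 hc
    have hc := D_col hc
    simp only [mem_union, mem_image, mem_range] at ha hb hd
    rcases ha with ⟨a, ha, rfl⟩ | ⟨a, ha, rfl⟩ <;> rcases hb with ⟨b, hb, rfl⟩ | ⟨b, hb, rfl⟩ <;>
      rcases hd with ⟨d, hd, rfl⟩ | ⟨d, hd, rfl⟩
    · exact D_P_ne N a b d ha hb hd (fun h => n1 (by rw [h])) (fun h => n2 (by rw [h]))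
        (fun h => n3 (by rw [h])) hc
    · rw [← D_cyc] at hc; exact XPP d hd a ha b hb (fun h => n1 (by rw [h])) hc
    · rw [D_cyc] at hc; exact XPP b hb d hd a ha (fun h => n2 (by rw [h])) hc
    · rw [D_cyc] at hc; exact h2 b hb d hd (fun h => n3 (by rw [h])) a ha hc
    · exact XPP a ha b hb d hd (fun h => n3 (by rw [h])) hc
    · rw [← D_cyc] at hc; exact h2 d hd a ha (fun h => n2 (by rw [h])) b hb hc
    · exact h2 a ha b hb (fun h => n1 (by rw [h])) d hd hc
    · exact XXX a b d (fun h => n1 (by rw [h])) (fun h => n2 (by rw [h]))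
        (fun h => n3 (by rw [h])) hc
  · intro M t v hp hcov
    have mP : ∀ a, P N a ∈ (range N).image (P N) ∪ (range w).image (X η) := by
      intro a
      refine mem_union_left _ (mem_image.2 ⟨a % N, mem_range.2 (Nat.mod_lt _ N0), ?_⟩)
      induction a using Nat.strong_induction_on with
      | _ a ih =>
        by_cases g : a < N
        · rw [Nat.mod_eq_of_lt g]
        · obtain ⟨a, rfl⟩ := Nat.exists_eq_add_of_le' (not_lt.1 g)
          rw [Nat.add_mod_right, P_per _ _ N0]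
          exact ih a (by omega)
    have c1 : (range N ×ˢ Ioc (k - w) k).card ≤ ∑ s : Fin M,
        ((range N ×ˢ Ioc (k - w) k).filter fun a =>
          Adj (t s) (v s) (P N a.1) (P N (a.1 + a.2))).card := by
      refine le_trans (card_le_card ?_) card_biUnion_le
      intro a ha
      have := mem_Ioc.1 (mem_product.1 ha).2
      obtain ⟨s, hs⟩ := hcov _ (mP a.1) _ (mP (a.1 + a.2))
        (P_inj N (by omega) _ _ (by omega) (by omega))
      exact mem_biUnion.2 ⟨s, mem_univ _, mem_filter.2 ⟨ha, hs⟩⟩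
    have c2 : (range w ×ˢ range N).card ≤ ∑ s : Fin M,
        ((range w ×ˢ range N).filter fun a => Adj (t s) (v s) (X η a.1) (P N a.2)).card := by
      refine le_trans (card_le_card ?_) card_biUnion_le
      intro a ha
      obtain ⟨a1, a2⟩ := mem_product.1 ha
      obtain ⟨s, hs⟩ := hcov _ (mem_union_right _ (mem_image_of_mem _ a1)) _ (mP a.2)
        (XP _ (mem_range.1 a1) _ (mem_range.1 a2))
      exact mem_biUnion.2 ⟨s, mem_univ _, mem_filter.2 ⟨ha, hs⟩⟩
    have c3 := sum_le_sum fun s (_ : s ∈ (univ : Finset (Fin M))) =>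
      weight k w hk η h0 h1 (t s) (v s) (hp s)
    rw [sum_add_distrib, ← mul_sum] at c3
    simp only [sum_const, card_univ, Fintype.card_fin, smul_eq_mul] at c3
    simp only [card_product, card_range, Nat.card_Ioc] at c1 c2
    rw [show k - (k - w) = w by omega] at c1
    rw [mul_comm] at c2
    simp only [← hN] at c3
    omega

theorem main (c : ℝ) (hc : c < 3 / 4) : ∃ n₀ : ℕ, ∀ n ≥ n₀, ∃ A : Finset Pt, A.card = n ∧
    (∀ a ∈ A, ∀ b ∈ A, ∀ d ∈ A, a ≠ b → a ≠ d → b ≠ d → ¬ Collinear ℝ {a, b, d}) ∧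
    ∀ (M : ℕ) (t : Fin M → ℕ) (v : Fin M → ℕ → Pt), (∀ s, Pl (t s) (v s)) →
      (∀ a ∈ A, ∀ b ∈ A, a ≠ b → ∃ s, Adj (t s) (v s) a b) → c * n ≤ M := by
  obtain ⟨w0, hw0⟩ := exists_nat_ge ((6 * c + 1) / (3 - 4 * c))
  rw [div_le_iff₀ (by linarith)] at hw0
  refine ⟨3 * (w0 + 1) ^ 2 + 7 * (w0 + 1) + 10, fun n hn => ?_⟩
  obtain ⟨w, k, h1, h2, h3⟩ : ∃ w k, w0 ≤ w ∧ w ≤ w0 + 1 ∧ n = 2 * k + 1 + w := by
    by_cases g : (n + w0) % 2 = 1
    · exact ⟨w0, (n - w0) / 2, le_rfl, by omega, by omega⟩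
    · exact ⟨w0 + 1, (n - w0 - 1) / 2, by omega, le_rfl, by omega⟩
  obtain ⟨A, a1, a2, a3⟩ := conf k w (by omega)
  refine ⟨A, by omega, a2, fun M t v h4 h5 => ?_⟩
  have h6 : (3 : ℝ) * ((2 * k + 1) * w) ≤ M * (4 * w + 6) := by exact_mod_cast a3 M t v h4 h5
  have h7 : (n : ℝ) = 2 * k + 1 + w := by exact_mod_cast h3
  have h8 : 3 * w ^ 2 ≤ n := by
    have : w ^ 2 ≤ (w0 + 1) ^ 2 := by gcongr
    omega
  have h8' : 3 * (w : ℝ) ^ 2 ≤ n := by exact_mod_cast h8
  have h9 : (w0 : ℝ) ≤ w := by exact_mod_cast h1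
  have h10 : c * (4 * w + 6) + 1 ≤ 3 * w := by nlinarith
  have w0' : (0 : ℝ) < 4 * w + 6 := by positivity
  refine le_of_mul_le_mul_right ?_ w0'
  have n0 : (0 : ℝ) ≤ n := Nat.cast_nonneg _
  have := mul_le_mul_of_nonneg_left h10 n0
  nlinarith

end Pool.Agent.H9.PathCover
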