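import Mathlib

set_option autoImplicit false

namespace Pool.Agent.H9.Phy

/-- A phylogenetic tree with leaves labelled by `Fin n` and `m` internal vertices. -/
structure PTree (n : ℕ) where
  m : ℕ
  G : SimpleGraph (Fin n ⊕ Fin m)
  tree : G.IsTree
  leaf : ∀ i, (G.neighborSet (Sum.inl i)).ncard = 1
  inner : ∀ j, (G.neighborSet (Sum.inr j)).ncard = 3

/-- The internal vertices induce a path on `n - 2` vertices (no condition for `n ≤ 2`). -/
def Cat {n : ℕ} (T : PTree n) : Prop :=
  n ≤ 2 ∨ Nonempty (T.G.comap Sum.inr ≃g SimpleGraph.pathGraph (n - 2))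

/-- Partitions of the leaves obtained by deleting a set of edges. -/
def Parts {n : ℕ} (T : PTree n) : Set (Setoid (Fin n)) :=
  {P | ∃ D : Set (Sym2 (Fin n ⊕ Fin T.m)),
    ∀ a b, P a b ↔ (T.G.deleteEdges D).Reachable (Sum.inl a) (Sum.inl b)}

/-- Number of common partitions with exactly `k` classes. -/
noncomputable def common {n : ℕ} (T F : PTree n) (k : ℕ) : ℕ :=
  {P | P ∈ Parts T ∧ P ∈ Parts F ∧ Nat.card (Quotient P) = k}.ncard

noncomputable def s (n k : ℕ) : ℕ := sInf {x | ∃ T F : PTree n, common T F k = x}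

noncomputable def c (n k : ℕ) : ℕ := sInf {x | ∃ T F : PTree n, Cat T ∧ Cat F ∧ common T F k = x}

end Pool.Agent.H9.Phy
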