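import Mathlib
import Pool.Agent.H9.PhyDef

set_option autoImplicit false

namespace Pool.Agent.H9.Phy

open SimpleGraph Sum

def rl (p : Fin 7 → Fin 5) (u : Fin 5 → Fin 5) : Fin 7 ⊕ Fin 5 → Fin 7 ⊕ Fin 5 → Bool
  | inl a, inr j => p a == j
  | inr j, inr k => j != 0 && u j == k
  | _, _ => false

def gr (p : Fin 7 → Fin 5) (u : Fin 5 → Fin 5) : SimpleGraph (Fin 7 ⊕ Fin 5) :=
  fromRel fun x y => rl p u x y = true

instance (p : Fin 7 → Fin 5) (u : Fin 5 → Fin 5) : DecidableRel (gr p u).Adj := fun x y =>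
  inferInstanceAs (Decidable (x ≠ y ∧ (rl p u x y = true ∨ rl p u y x = true)))

def mkT (p : Fin 7 → Fin 5) (u : Fin 5 → Fin 5) (h1 : ∀ j, j ≠ 0 → u j < j)
    (h2 : (gr p u).edgeFinset.card = 11) (h3 : ∀ i, ((gr p u).neighborFinset (inl i)).card = 1)
    (h4 : ∀ j, ((gr p u).neighborFinset (inr j)).card = 3) : PTree 7 where
  m := 5
  G := gr p u
  tree := by
    have r : ∀ j, (gr p u).Reachable (inr j) (inr 0) := by
      intro j
      induction j using WellFoundedLT.induction with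
      | ind j ih =>
        by_cases e : j = 0
        · rw [e]
        · exact (Adj.reachable (show (gr p u).Adj (inr j) (inr (u j)) from
            ⟨by simpa using (h1 j e).ne', Or.inl (by simp [rl, e])⟩)).trans (ih _ (h1 j e))
    have r' : ∀ x, (gr p u).Reachable x (inr 0) := by
      rintro (a | j)
      exacts [(Adj.reachable (show (gr p u).Adj (inl a) (inr (p a)) from
        ⟨by simp, Or.inl (by simp [rl])⟩)).trans (r (p a)), r j]
    refine isTree_iff_connected_and_card.2 ⟨⟨fun x y => (r' x).trans (r' y).symm⟩, ?_⟩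
    rw [Nat.card_eq_fintype_card, ← edgeFinset_card, h2]
    simp
  leaf := fun i => by rw [← coe_neighborFinset, Set.ncard_coe_finset, h3]
  inner := fun i => by rw [← coe_neighborFinset, Set.ncard_coe_finset, h4]

def T0 : PTree 7 := mkT ![0, 4, 0, 2, 3, 4, 2] ![0, 0, 1, 1, 3] (by decide) (by decide +kernel)
  (by decide +kernel) (by decide +kernel)

def F0 : PTree 7 := mkT ![0, 1, 3, 1, 4, 3, 4] ![0, 0, 0, 2, 2] (by decide) (by decide +kernel)
  (by decide +kernel) (by decide +kernel)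

def C0 : PTree 7 := mkT ![0, 0, 1, 2, 3, 4, 4] ![0, 0, 1, 2, 3] (by decide) (by decide +kernel)
  (by decide +kernel) (by decide +kernel)

lemma cat0 : Cat C0 := Or.inr ⟨⟨Equiv.refl (Fin 5), fun {a b} => by
  rw [pathGraph_adj]
  show _ ↔ (gr _ _).Adj (inr a) (inr b)
  revert a b
  decide⟩⟩

lemma thru {V : Type} {G H : SimpleGraph V} (h : H ≤ G) {v a b : V} (br : V → ℕ)
    (hb : ∀ x y, G.Adj x y → x ≠ v → y ≠ v → br x = br y) (ha : a ≠ v) (_hb' : b ≠ v)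
    (r : H.Reachable a b) (n : br a ≠ br b) : H.Reachable a v := by
  have : ∀ y, Relation.ReflTransGen H.Adj a y → H.Reachable a v ∨ (y ≠ v ∧ br a = br y) := by
    intro y hy
    induction hy with
    | refl => exact Or.inr ⟨ha, rfl⟩
    | @tail p q h1 h2 ih =>
      refine ih.elim Or.inl fun ih => ?_
      by_cases e : q = v
      · exact Or.inl (e ▸ (reachable_iff_reflTransGen _ _).2 (h1.tail h2))
      · exact Or.inr ⟨e, ih.2.trans (hb p q (h h2) ih.1 e)⟩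
  exact (this b ((reachable_iff_reflTransGen _ _).1 r)).resolve_right fun h => n h.2

def bb (l i : Fin 5 → ℕ) (v : Fin 5) : Fin 7 ⊕ Fin 5 → ℕ
  | inl a => l v / 3 ^ a.1 % 3
  | inr j => i v / 3 ^ j.1 % 3

def b0 := bb ![19, 1410, 1485, 408, 489] ![0, 225, 0, 81, 0]

def b1 := bb ![1064, 57, 1872, 495, 1539] ![117, 0, 189, 0, 0]

def bad (a b c d : Fin 7) : Prop := ∃ v, (b0 v (inl a) ≠ b0 v (inl b) ∧ b0 v (inl c) ≠ b0 v (inl d)) ∨
  (b1 v (inl a) ≠ b1 v (inl b) ∧ b1 v (inl c) ≠ b1 v (inl d))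

instance (a b c d : Fin 7) : Decidable (bad a b c d) := by unfold bad; infer_instance

set_option synthInstance.maxSize 1000 in
lemma L3 : ∀ a b, a ≠ b → ∀ c, a ≠ c → b ≠ c → ∀ d, a ≠ d → b ≠ d → c ≠ d → bad a b c d ∨
    ∃ e, (bad e a c d ∧ bad e c a b) ∧ ∃ f, (bad f a c d ∧ bad f c a b) ∧
      (bad e f a b ∨ bad e f c d) ∧ ∃ g, (bad g a c d ∧ bad g c a b) ∧
        (bad e g a b ∨ bad e g c d) ∧ (bad f g a b ∨ bad f g c d) := by
  decide +kernel

def Triv (P : Setoid (Fin 7)) : Prop := ∀ a b, P a b → a ≠ b → ∀ c d, P c d → c ≠ d → P a c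

lemma upper (P : Setoid (Fin 7)) (h0 : P ∈ Parts T0) (h1 : P ∈ Parts F0)
    (h : Nat.card (Quotient P) = 4) : Triv P := by
  have q : ∀ (G : SimpleGraph (Fin 7 ⊕ Fin 5)) (b : Fin 5 → Fin 7 ⊕ Fin 5 → ℕ)
      (D : Set (Sym2 (Fin 7 ⊕ Fin 5))),
      (∀ v x y, G.Adj x y → x ≠ inr v → y ≠ inr v → b v x = b v y) →
      (∀ a b, P a b ↔ (G.deleteEdges D).Reachable (inl a) (inl b)) → ∀ v a a' c c',
      b v (inl a) ≠ b v (inl a') ∧ b v (inl c) ≠ b v (inl c') → P a a' → P c c' → P a c :=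
    fun G b D hb hD v a a' c c' n x y => (hD _ _).2
      ((thru (deleteEdges_le D) (b v) (hb v) (by simp) (by simp) ((hD _ _).1 x) n.1).trans
        (thru (deleteEdges_le D) (b v) (hb v) (by simp) (by simp) ((hD _ _).1 y) n.2).symm)
  obtain ⟨D0, h0⟩ := h0
  obtain ⟨D1, h1⟩ := h1
  have q0 := q (gr ![0, 4, 0, 2, 3, 4, 2] ![0, 0, 1, 1, 3]) b0 D0 (by decide +kernel) h0
  have q1 := q (gr ![0, 1, 3, 1, 4, 3, 4] ![0, 0, 0, 2, 2]) b1 D1 (by decide +kernel) h1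
  have k : ∀ a b c d, bad a b c d → P a b → P c d → P a c := fun a b c d ⟨v, h⟩ =>
    h.elim (q0 v _ _ _ _) (q1 v _ _ _ _)
  intro a b x n c d y n'
  by_contra m
  obtain z | ⟨e, e1, f, f1, ef, g, g1, eg, fg⟩ := L3 a b n c (fun e => m (e ▸ P.refl a))
    (fun e => m (e ▸ x)) d (fun e => m (e ▸ P.symm y)) (fun e => m (P.trans x (e ▸ P.symm y))) n'
  · exact m (k _ _ _ _ z x y)
  have u : ∀ e, bad e a c d ∧ bad e c a b → ¬ P e a ∧ ¬ P e c := fun e h =>
    have w : ¬ P e a := fun w => m (P.trans (P.symm w) (k _ _ _ _ h.1 w y))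
    ⟨w, fun w' => w (k _ _ _ _ h.2 w' x)⟩
  have u2 : ∀ e f, bad e a c d ∧ bad e c a b → bad e f a b ∨ bad e f c d → ¬ P e f :=
    fun e f h h' w => h'.elim (fun z => (u e h).1 (k _ _ _ _ z w x)) fun z => (u e h).2 (k _ _ _ _ z w y)
  have ef := u2 e f e1 ef
  have eg := u2 e g e1 eg
  have fg := u2 f g f1 fg
  obtain ⟨e1, e2⟩ := u e e1
  obtain ⟨f1, f2⟩ := u f f1
  obtain ⟨g1, g2⟩ := u g g1
  have := Nat.card_le_card_of_injective (fun i : Fin 5 => Quotient.mk P (![e, f, g, a, c] i))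
    fun i j w => by
      have w1 : P _ _ := Quotient.exact w
      have w2 := P.symm w1
      fin_cases i <;> fin_cases j <;> first | rfl | (simp at w1 w2; tauto)
  simp [h] at this

def std : Fin 7 → Fin 5 := ![0, 0, 1, 2, 3, 4, 4]

lemma cat {T : PTree 7} (h : Cat T) : ∃ σ : Fin 7 ≃ Fin 7, ∀ (P : Setoid (Fin 7)) (big : Fin 7 → Prop)
    (sg : ℕ → ℕ), Monotone sg → (∀ a b, P a b ↔ a = b ∨ (big a ∧ big b ∧
      sg (std (σ a)) = sg (std (σ b)))) → P ∈ Parts T := by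
  classical
  obtain ⟨e⟩ : Nonempty (T.G.comap inr ≃g pathGraph 5) := h.resolve_left (by omega)
  have nb : ∀ a, ∃ j, ∀ y, T.G.Adj (inl a) y ↔ y = inr j := by
    intro a
    obtain ⟨x, hx⟩ := Set.ncard_eq_one.1 (T.leaf a)
    have hx' : ∀ y, T.G.Adj (inl a) y ↔ y = x := fun y => Set.ext_iff.1 hx y
    rcases x with b | j
    · exfalso
      obtain ⟨x, hb⟩ := Set.ncard_eq_one.1 (T.leaf b)
      have hb' : ∀ y, T.G.Adj (inl b) y ↔ y = x := fun y => Set.ext_iff.1 hb y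
      obtain rfl := (hb' _).1 ((hx' _).2 rfl).symm
      have : ∀ y, Relation.ReflTransGen T.G.Adj (inl a) y → y = inl a ∨ y = inl b := by
        intro y hy
        induction hy with
        | refl => exact Or.inl rfl
        | tail _ h2 ih =>
          rcases ih with rfl | rfl
          exacts [Or.inr ((hx' _).1 h2), Or.inl ((hb' _).1 h2)]
      simpa using this _ ((reachable_iff_reflTransGen _ _).1
        (T.tree.connected.preconnected _ (inr (e.symm 0))))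
    · exact ⟨j, hx'⟩
  choose nb hnb using nb
  have ad : ∀ i k, T.G.Adj (inr (e.symm i)) (inr (e.symm k)) ↔ i.1 + 1 = k.1 ∨ k.1 + 1 = i.1 :=
    fun i k => (e.symm.map_rel_iff (a := i) (b := k)).trans pathGraph_adj
  have fib : ∀ i, Fintype.card {a // e (nb a) = i} = Fintype.card {a // std a = i} := by
    intro i
    have h3 := T.inner (e.symm i)
    have : T.G.neighborSet (inr (e.symm i)) = ↑((Finset.univ.filter fun a => e (nb a) = i).disjSum
        ((Finset.univ.filter fun k : Fin 5 => i.1 + 1 = k.1 ∨ k.1 + 1 = i.1).map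
          e.symm.toEquiv.toEmbedding)) := by
      ext (a | j)
      · simp only [mem_neighborSet, T.G.adj_comm, hnb, Finset.mem_coe, Finset.inl_mem_disjSum,
          Finset.mem_filter, Finset.mem_univ, true_and, inr.injEq]
        exact ⟨fun h => by rw [← h]; simp, fun h => by rw [← h]; simp⟩
      · obtain ⟨k, rfl⟩ := e.symm.surjective j
        simp only [mem_neighborSet, ad, Finset.mem_coe, Finset.inr_mem_disjSum, Finset.mem_map,
          Finset.mem_filter, Finset.mem_univ, true_and]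
        exact ⟨fun h => ⟨k, h, rfl⟩, fun ⟨k', h, h'⟩ => e.symm.injective h' ▸ h⟩
    rw [this, Set.ncard_coe_finset, Finset.card_disjSum, Finset.card_map] at h3
    rw [Fintype.card_subtype, Fintype.card_subtype]
    have : ∀ i : Fin 5, (Finset.univ.filter fun a => std a = i).card + (Finset.univ.filter
      fun k : Fin 5 => i.1 + 1 = k.1 ∨ k.1 + 1 = i.1).card = 3 := by decide
    have := this i
    omega
  refine ⟨Equiv.ofFiberEquiv fun i => Fintype.equivOfCardEq (fib i), fun P big sg mo hP => ?_⟩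
  simp only [Equiv.ofFiberEquiv_map] at hP
  let l : Fin 7 ⊕ Fin T.m → Fin 7 ⊕ ℕ := fun x => match x with
    | inl a => if big a then inr (sg (e (nb a))) else inl a
    | inr j => inr (sg (e j))
  let D : Set (Sym2 (Fin 7 ⊕ Fin T.m)) := {z | ∃ x y, z = s(x, y) ∧ l x ≠ l y}
  have hD : ∀ x y, (T.G.deleteEdges D).Adj x y ↔ T.G.Adj x y ∧ l x = l y := by
    intro x y
    rw [deleteEdges_adj]
    refine and_congr_right fun _ => ⟨fun h => by_contra fun n => h ⟨x, y, rfl, n⟩, ?_⟩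
    rintro h ⟨x', y', e, n⟩
    rcases Sym2.eq_iff.1 e with ⟨rfl, rfl⟩ | ⟨rfl, rfl⟩
    exacts [n h, n h.symm]
  have pa : ∀ (d : ℕ) (i k : Fin 5), k.1 = i.1 + d → sg i = sg k →
      (T.G.deleteEdges D).Reachable (inr (e.symm i)) (inr (e.symm k)) := by
    intro d
    induction d with
    | zero => intro i k h _; rw [show i = k from Fin.ext h.symm]
    | succ d ih =>
      intro i k h h'
      have m1 := mo (show i.1 ≤ k.1 - 1 by omega)
      have m2 := mo (show k.1 - 1 ≤ k.1 by omega)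
      refine (ih i ⟨k - 1, by omega⟩ (by simp; omega) (by simp; omega)).trans
        (Adj.reachable ((hD _ _).2 ⟨(ad _ _).2 (Or.inl (by simp; omega)), ?_⟩))
      simp [l]; omega
  refine ⟨D, fun a b => (hP a b).trans ⟨?_, fun h => ?_⟩⟩
  · rintro (rfl | ⟨x, y, z⟩)
    · rfl
    have s : ∀ a, big a → (T.G.deleteEdges D).Reachable (inl a) (inr (e.symm (e (nb a)))) :=
      fun a h => Adj.reachable ((hD _ _).2 ⟨(hnb _ _).2 (by simp), by simp [l, h]⟩)
    refine (s a x).trans (Reachable.trans ?_ (s b y).symm)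
    rcases le_total (e (nb a)).1 (e (nb b)).1 with h | h
    exacts [pa _ _ _ (Nat.add_sub_cancel' h).symm z, (pa _ _ _ (Nat.add_sub_cancel' h).symm z.symm).symm]
  · have : ∀ y, Relation.ReflTransGen (T.G.deleteEdges D).Adj (inl a) y → l (inl a) = l y := by
      intro y hy
      induction hy with
      | refl => rfl
      | tail _ h2 ih => exact ih.trans ((hD _ _).1 h2).2
    have := this _ ((reachable_iff_reflTransGen _ _).1 h)
    simp only [l] at this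
    split_ifs at this with x y <;> simp_all

def dg (N : ℕ) (a : Fin 7) : ℕ := N / 4 ^ a.1 % 4

def W : List (ℕ × ℕ × ℕ × ℕ × ℕ × ℕ) :=
  [(14656, 0, 1, 2, 3, 4), (121, 4, 5, 6, 0, 3), (12805, 2, 3, 5, 0, 1), (5314, 1, 2, 4, 5, 6),
  (13570, 1, 2, 3, 4, 5), (3097, 3, 4, 6, 0, 2), (3205, 2, 4, 6, 0, 1), (5320, 0, 2, 4, 5, 6),
  (3094, 3, 4, 6, 1, 2), (13576, 0, 2, 3, 4, 5), (7426, 1, 2, 3, 4, 6), (13600, 0, 1, 3, 4, 5),
  (12313, 3, 4, 5, 0, 2), (5176, 0, 3, 4, 5, 6), (13888, 0, 1, 2, 3, 5), (7432, 0, 2, 3, 4, 6),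
  (12310, 3, 4, 5, 1, 2)]

def sp (q : ℕ → ℕ) (w : ℕ × ℕ × ℕ × ℕ × ℕ × ℕ) : Bool :=
  Nat.blt (max (q w.2.1) (max (q w.2.2.1) (q w.2.2.2.1))) (min (q w.2.2.2.2.1) (q w.2.2.2.2.2)) ||
  Nat.blt (max (q w.2.2.2.2.1) (q w.2.2.2.2.2)) (min (q w.2.1) (min (q w.2.2.1) (q w.2.2.2.1)))

def qq (b2 b3 b4 b5 b6 a : ℕ) : ℕ :=
  cond (a.beq b2) 1 (cond (a.beq b3) 2 (cond (a.beq b4) 3 (cond (a.beq b5 || a.beq b6) 4 0)))

set_option synthInstance.maxSize 1000 in
lemma L1 : ∀ w ∈ W, sp (qq 2 3 4 5 6) w = true ∧ (∀ v < 4, ∃ a, dg w.1 a = v) ∧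
    (∀ a, (dg w.1 a = 0 → a.1 = w.2.1 ∨ a.1 = w.2.2.1 ∨ a.1 = w.2.2.2.1) ∧
      (dg w.1 a = 1 → a.1 = w.2.2.2.2.1 ∨ a.1 = w.2.2.2.2.2) ∧
      ∀ b, dg w.1 a = dg w.1 b → a = b ∨ dg w.1 a < 2) ∧
    ¬ ∀ a b, dg w.1 a = dg w.1 b → a ≠ b → ∀ c d, dg w.1 c = dg w.1 d → c ≠ d →
      dg w.1 a = dg w.1 c := by
  decide +kernel

lemma L2' : ((List.range 7).all fun b2 => (List.range 7).all fun b3 => b2.beq b3 ||
    (List.range 7).all fun b4 => b2.beq b4 || b3.beq b4 || (List.range 7).all fun b5 =>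
      b2.beq b5 || b3.beq b5 || b4.beq b5 || (List.range 7).all fun b6 => b2.beq b6 || b3.beq b6 ||
        b4.beq b6 || b5.beq b6 || W.any (sp (qq b2 b3 b4 b5 b6))) = true := by
  decide +kernel

lemma L2 : ∀ b2 < 7, ∀ b3 < 7, b2 ≠ b3 → ∀ b4 < 7, b2 ≠ b4 → b3 ≠ b4 → ∀ b5 < 7, b2 ≠ b5 → b3 ≠ b5 →
    b4 ≠ b5 → ∀ b6 < 7, b2 ≠ b6 → b3 ≠ b6 → b4 ≠ b6 → b5 ≠ b6 →
    W.any (sp (qq b2 b3 b4 b5 b6)) = true := by
  intro b2 h2 b3 h3 n1 b4 h4 n2 n3 b5 h5 n4 n5 n6 b6 h6 n7 n8 n9 n10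
  have := L2'
  simp only [List.all_eq_true, List.mem_range, Bool.or_eq_true, Nat.beq_eq, or_assoc] at this
  exact (((((((((((this b2 h2 b3 h3).resolve_left n1) b4 h4).resolve_left n2).resolve_left n3 b5
    h5).resolve_left n4).resolve_left n5).resolve_left n6 b6 h6).resolve_left n7).resolve_left
    n8).resolve_left n9).resolve_left n10

lemma cut {w : ℕ × ℕ × ℕ × ℕ × ℕ × ℕ} (hw : w ∈ W) {q : ℕ → ℕ} (h : sp q w = true) :
    ∃ sg : ℕ → ℕ, Monotone sg ∧ ∀ a b, dg w.1 a = dg w.1 b ↔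
      a = b ∨ (dg w.1 a < 2 ∧ dg w.1 b < 2 ∧ sg (q a) = sg (q b)) := by
  obtain ⟨-, -, k, -⟩ := L1 w hw
  have mo : ∀ s : ℕ, Monotone fun j => if s < j then 1 else 0 := fun s a b h => by
    dsimp only; split_ifs <;> omega
  have fin : ∀ sg : ℕ → ℕ, (∀ a b, dg w.1 a < 2 → dg w.1 b < 2 →
      (dg w.1 a = dg w.1 b ↔ sg (q a) = sg (q b))) → ∀ a b, dg w.1 a = dg w.1 b ↔
      a = b ∨ (dg w.1 a < 2 ∧ dg w.1 b < 2 ∧ sg (q a) = sg (q b)) := fun sg h a b =>
    ⟨fun e => ((k a).2.2 b e).imp_right fun x => ⟨x, e ▸ x, (h a b x (e ▸ x)).1 e⟩,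
      fun e => e.elim (fun e => by rw [e]) fun e => (h a b e.1 e.2.1).2 e.2.2⟩
  simp only [sp, Bool.or_eq_true, Nat.blt_eq] at h
  rcases h with h | h
  · refine ⟨_, mo (max (q w.2.1) (max (q w.2.2.1) (q w.2.2.2.1))), fin (fun j =>
      if max (q w.2.1) (max (q w.2.2.1) (q w.2.2.2.1)) < j then 1 else 0) fun a b x y => ?_⟩
    have : ∀ a, dg w.1 a < 2 → (if max (q w.2.1) (max (q w.2.2.1) (q w.2.2.2.1)) < q a then 1
        else 0) = dg w.1 a := fun a x => by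
      rcases (by omega : dg w.1 a = 0 ∨ dg w.1 a = 1) with e | e
      · rcases (k a).1 e with z | z | z <;> rw [e, z, if_neg (by omega)]
      · rcases (k a).2.1 e with z | z <;> rw [e, z, if_pos (by omega)]
    rw [this a x, this b y]
  · refine ⟨_, mo (max (q w.2.2.2.2.1) (q w.2.2.2.2.2)), fin (fun j =>
      if max (q w.2.2.2.2.1) (q w.2.2.2.2.2) < j then 1 else 0) fun a b x y => ?_⟩
    have : ∀ a, dg w.1 a < 2 → (if max (q w.2.2.2.2.1) (q w.2.2.2.2.2) < q a then 1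
        else 0) = 1 - dg w.1 a := fun a x => by
      rcases (by omega : dg w.1 a = 0 ∨ dg w.1 a = 1) with e | e
      · rcases (k a).1 e with z | z | z <;> rw [e, z, if_pos (by omega)]
      · rcases (k a).2.1 e with z | z <;> rw [e, z, if_neg (by omega)]
    rw [this a x, this b y]
    omega

lemma qq_eq (τ : Fin 7 ≃ Fin 7) (a : Fin 7) :
    qq (τ.symm 2) (τ.symm 3) (τ.symm 4) (τ.symm 5) (τ.symm 6) a = std (τ a) := by
  have : ∀ i, Nat.beq a (τ.symm i) = decide (τ a = i) := fun i => by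
    rw [Bool.eq_iff_iff]; simp [Fin.val_inj, Equiv.eq_symm_apply]
  simp only [qq, this]
  generalize τ a = i
  revert i
  decide

lemma lower {T F : PTree 7} (hT : Cat T) (hF : Cat F) :
    {P | Triv P ∧ Nat.card (Quotient P) = 4} ⊂
      {P | P ∈ Parts T ∧ P ∈ Parts F ∧ Nat.card (Quotient P) = 4} := by
  obtain ⟨σ, hσ⟩ := cat hT
  obtain ⟨τ, hτ⟩ := cat hF
  have tr : ∀ P, Triv P → ∀ a b, P a b ↔ a = b ∨ ((∃ c, P a c ∧ a ≠ c) ∧ (∃ c, P b c ∧ b ≠ c) ∧ 0 = 0) :=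
    fun P h a b => ⟨fun x => (em (a = b)).imp_right fun n =>
      ⟨⟨b, x, n⟩, ⟨a, P.symm x, Ne.symm n⟩, rfl⟩, fun x => x.elim (fun e => e ▸ P.refl a)
        fun ⟨⟨c, x, y⟩, ⟨d, z, w⟩, _⟩ => h a c x y b d z w⟩
  refine ⟨fun P h => ⟨hσ P _ _ monotone_const (tr P h.1), hτ P _ _ monotone_const (tr P h.1), h.2⟩,
    fun h => ?_⟩
  have n : ∀ i j, i ≠ j → ((σ.symm.trans τ).symm i).1 ≠ ((σ.symm.trans τ).symm j).1 :=
    fun i j h => by simpa [Fin.val_inj] using h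
  obtain ⟨w, hw, k⟩ := List.any_eq_true.1 (L2 _ (Fin.is_lt _) _ (Fin.is_lt _) (n 2 3 (by decide))
    _ (Fin.is_lt _) (n 2 4 (by decide)) (n 3 4 (by decide)) _ (Fin.is_lt _) (n 2 5 (by decide))
    (n 3 5 (by decide)) (n 4 5 (by decide)) _ (Fin.is_lt _) (n 2 6 (by decide)) (n 3 6 (by decide))
    (n 4 6 (by decide)) (n 5 6 (by decide)))
  obtain ⟨s2, m2, k2⟩ := cut hw k
  obtain ⟨k, su, -, nt⟩ := L1 w hw
  obtain ⟨s1, m1, k1⟩ := cut hw k
  have e1 : ∀ a : Fin 7, qq 2 3 4 5 6 a = std a := qq_eq (Equiv.refl _)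
  simp only [e1, qq_eq] at k1 k2
  let f : Fin 7 → Fin 4 := fun a => ⟨dg w.1 (σ a), Nat.mod_lt _ (by norm_num)⟩
  have kf : ∀ a b, Setoid.ker f a b ↔ dg w.1 (σ a) = dg w.1 (σ b) := fun a b => Fin.ext_iff
  refine nt fun a b x y c d z u => ?_
  have := (h (show Setoid.ker f ∈ _ from ⟨hσ _ (fun a => dg w.1 (σ a) < 2) _ m1
    fun a b => by rw [kf, k1, σ.apply_eq_iff_eq], hτ _ (fun a => dg w.1 (σ a) < 2) _ m2
    fun a b => by rw [kf, k2, σ.apply_eq_iff_eq]; simp, by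
      rw [Nat.card_congr (Setoid.quotientKerEquivOfSurjective f fun v => by
        obtain ⟨a, ha⟩ := su v v.2
        exact ⟨σ.symm a, Fin.ext (by simpa [f] using ha)⟩)]
      simp⟩)).1 (σ.symm a) (σ.symm b) ((kf _ _).2 (by simpa using x)) (by simpa using y) (σ.symm c)
    (σ.symm d) ((kf _ _).2 (by simpa using z)) (by simpa using u)
  simpa using (kf _ _).1 this

theorem main : s 7 4 < c 7 4 := by
  obtain ⟨T, F, hT, hF, e⟩ : c 7 4 ∈ {x | ∃ T F : PTree 7, Cat T ∧ Cat F ∧ common T F 4 = x} :=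
    Nat.sInf_mem ⟨_, C0, C0, cat0, cat0, rfl⟩
  have : Finite (Setoid (Fin 7)) := Finite.of_injective (fun P : Setoid (Fin 7) => P.r)
    fun _ _ h => Setoid.ext fun a b => Iff.of_eq (congrFun₂ h a b)
  rw [← e]
  have sb : {P | P ∈ Parts T0 ∧ P ∈ Parts F0 ∧ Nat.card (Quotient P) = 4} ⊆
      {P | Triv P ∧ Nat.card (Quotient P) = 4} := fun P h => ⟨upper P h.1 h.2.1 h.2.2, h.2.2⟩
  exact lt_of_le_of_lt (Nat.sInf_le (show common T0 F0 4 ∈ _ from ⟨T0, F0, rfl⟩))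
    (lt_of_le_of_lt (Set.ncard_le_ncard sb) (Set.ncard_lt_ncard (lower hT hF)))

end Pool.Agent.H9.Phy
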