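import Mathlib
import Pool.Agent.H9.PhyDef

set_option autoImplicit false

namespace Pool.Agent.H9.Phy

/-- At least two classes of size at least two. -/
def NonTriv {n : ℕ} (P : Setoid (Fin n)) : Prop :=
  ∃ a b c d, a ≠ b ∧ c ≠ d ∧ P a b ∧ P c d ∧ ¬ P a c

/-- Number of common non-trivial partitions with exactly `k` classes. -/
noncomputable def commonNT {n : ℕ} (T F : PTree n) (k : ℕ) : ℕ :=
  {P | P ∈ Parts T ∧ P ∈ Parts F ∧ Nat.card (Quotient P) = k ∧ NonTriv P}.ncard

end Pool.Agent.H9.Phy
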