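import Mathlib

set_option autoImplicit false

namespace Pool.Agent.H9.PhyE

variable (PM : ℕ → ℕ → ℕ)

def val : List ℕ → ℕ → ℕ
  | [], _ => 0
  | v :: N, d => if d = N.length then v else val N d

def rs : List ℕ → List ℕ
  | [] => []
  | v :: N => if v = N.length then v :: rs N else rs N

def st : List ℕ → List (ℕ × ℕ)
  | [] => []
  | v :: N => if v = N.length then st N else (v, PM v N.length) :: st N

def conf (r m : ℕ) : List (ℕ × ℕ) → Bool
  | [] => false
  | e :: s => (!(Nat.beq e.1 r) && !(Nat.beq (Nat.land e.2 m) 0)) || conf r m s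

lemma conf_false {r m : ℕ} {s : List (ℕ × ℕ)} :
    conf r m s = false ↔ ∀ e ∈ s, e.1 ≠ r → e.2 &&& m = 0 := by
  induction s with
  | nil => simp [conf]
  | cons e s ih =>
    have : Nat.land e.2 m = e.2 &&& m := rfl
    simp only [conf, Bool.or_eq_false_iff, ih, List.forall_mem_cons, this, Bool.and_eq_false_iff,
      Bool.not_eq_false', Nat.beq_eq]
    tauto

def Valid : List ℕ → Prop
  | [] => True
  | v :: N => Valid N ∧ (v = N.length ∨ (v ∈ rs N ∧ conf v (PM v N.length) (st PM N) = false))

def NT (s : List (ℕ × ℕ)) : Prop := ∃ e ∈ s, ∃ e' ∈ s, e.1 ≠ e'.1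

instance (s : List (ℕ × ℕ)) : Decidable (NT s) := by unfold NT; infer_instance

lemma val_lt {v : ℕ} {N : List ℕ} {d : ℕ} (h : d < N.length) : val (v :: N) d = val N d := by
  simp [val, h.ne]

lemma mem_rs {M : List ℕ} {r : ℕ} : r ∈ rs M ↔ r < M.length ∧ val M r = r := by
  induction M with
  | nil => simp [rs]
  | cons v N ih =>
    simp only [rs, val, List.length_cons]
    split_ifs with h1 h2 h2 <;> simp [ih] <;> omega

lemma mem_st {M : List ℕ} {e : ℕ × ℕ} :
    e ∈ st PM M ↔ ∃ d < M.length, val M d ≠ d ∧ e = (val M d, PM (val M d) d) := by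
  induction M with
  | nil => simp [st]
  | cons v N ih =>
    simp only [st, List.length_cons, Nat.exists_lt_succ_right]
    have e1 : (∃ d < N.length, val (v :: N) d ≠ d ∧ e = (val (v :: N) d, PM (val (v :: N) d) d)) ↔
        ∃ d < N.length, val N d ≠ d ∧ e = (val N d, PM (val N d) d) :=
      exists_congr fun d => and_congr_right fun h => by rw [val_lt h]
    have e2 : val (v :: N) N.length = v := by simp [val]
    rw [e1, e2, ← ih]
    split_ifs with h <;> simp [h, or_comm]

lemma len_rs_st (M : List ℕ) : (rs M).length + (st PM M).length = M.length := by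
  induction M with
  | nil => simp [rs, st]
  | cons v N ih => simp only [rs, st]; split_ifs <;> simp <;> omega

lemma nodup_rs (M : List ℕ) : (rs M).Nodup := by
  induction M with
  | nil => simp [rs]
  | cons v N ih =>
    simp only [rs]; split_ifs with h
    · exact List.nodup_cons.2 ⟨fun x => by have := (mem_rs.1 x).1; omega, ih⟩
    · exact ih

def Good (f : ℕ → ℕ) (n : ℕ) : Prop :=
  (∀ d < n, f d ≤ d ∧ f (f d) = f d) ∧
  ∀ d < n, ∀ d' < n, f d ≠ d → f d' ≠ d' → f d ≠ f d' → PM (f d) d &&& PM (f d') d' = 0

lemma valid_iff {M : List ℕ} : Valid PM M ↔ Good PM (val M) M.length := by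
  induction M with
  | nil => simp [Valid, Good]
  | cons v N ih =>
    have e2 : val (v :: N) N.length = v := by simp [val]
    simp only [Valid, ih, List.length_cons, Good, mem_rs, conf_false, mem_st]
    constructor
    · rintro ⟨⟨h1, h2⟩, h3⟩
      have k : ∀ d < N.length, val N d ≠ d → v ≠ N.length → val N d ≠ v →
          PM (val N d) d &&& PM v N.length = 0 := fun d hd x y z =>
        ((h3.resolve_left y).2 _ ⟨d, hd, x, rfl⟩ z)
      refine ⟨fun d hd => ?_, fun d hd d' hd' => ?_⟩
      · rcases Nat.lt_succ_iff_lt_or_eq.1 hd with hd | rfl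
        · have := h1 d hd
          rw [val_lt hd, val_lt (by omega)]; exact this
        · rw [e2]
          rcases h3 with h | h
          · exact ⟨h.le, by rw [h]; rw [h] at e2; exact e2⟩
          · exact ⟨h.1.1.le, by rw [val_lt h.1.1, h.1.2]⟩
      · rcases Nat.lt_succ_iff_lt_or_eq.1 hd with hd | rfl <;>
          rcases Nat.lt_succ_iff_lt_or_eq.1 hd' with hd' | rfl
        · rw [val_lt hd, val_lt hd']; exact h2 d hd d' hd'
        · rw [val_lt hd, e2]; exact k d hd
        · rw [val_lt hd', e2]; intro x y z; rw [Nat.land_comm]; exact k d' hd' y x (Ne.symm z)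
        · intro _ _ z; exact absurd rfl z
    · rintro ⟨h1, h2⟩
      refine ⟨⟨fun d hd => ?_, fun d hd d' hd' => ?_⟩, ?_⟩
      · have := h1 d (by omega)
        rw [val_lt hd] at this
        rw [val_lt (by omega)] at this; exact this
      · have := h2 d (by omega) d' (by omega)
        rwa [val_lt hd, val_lt hd'] at this
      · by_cases h : v = N.length
        · exact Or.inl h
        · have := h1 N.length (by omega)
          rw [e2] at this
          have hv : v < N.length := by omega
          refine Or.inr ⟨⟨hv, by rw [← val_lt (v := v) hv]; exact this.2⟩, ?_⟩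
          rintro e ⟨d, hd, x, rfl⟩ z
          have := h2 d (by omega) N.length (by omega)
          rw [val_lt hd, e2] at this
          exact this x h z

lemma v1 {N : List ℕ} (hN : Valid PM N) : Valid PM (N.length :: N) := ⟨hN, Or.inl rfl⟩

lemma v2 {N : List ℕ} {r : ℕ} (hN : Valid PM N) (hr : r ∈ rs N)
    (hc : conf r (PM r N.length) (st PM N) = false) : Valid PM (r :: N) := ⟨hN, Or.inr ⟨hr, hc⟩⟩

def E (J : ℕ) : ℕ → List ℕ → List (List ℕ)
  | 0, N => if (st PM N).length = J ∧ NT (st PM N) then [N] else []
  | t + 1, N => E J t (N.length :: N) ++ (rs N).flatMap fun r =>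
      if conf r (PM r N.length) (st PM N) = false then E J t (r :: N) else []

lemma valid_drop {M : List ℕ} (h : Valid PM M) (t : ℕ) : Valid PM (M.drop t) := by
  induction t generalizing M with
  | zero => simpa
  | succ t ih =>
    cases M with
    | nil => simpa
    | cons v N => exact ih h.1

lemma mem_E {J t : ℕ} {N M : List ℕ} (hN : Valid PM N) : M ∈ E PM J t N ↔
    Valid PM M ∧ ((st PM M).length = J ∧ NT (st PM M)) ∧ M.length = N.length + t ∧ M.drop t = N := by
  induction t generalizing N with
  | zero =>
    simp only [E, List.drop_zero, add_zero]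
    split_ifs with h
    · simp only [List.mem_singleton]
      exact ⟨fun e => by subst e; exact ⟨hN, h, rfl, rfl⟩, fun e => e.2.2.2⟩
    · simp only [List.not_mem_nil, false_iff]
      rintro ⟨-, h', -, rfl⟩; exact h h'
  | succ t ih =>
    have dr : ∀ v, M.drop t = v :: N → M.drop (t + 1) = N := fun v h => by
      rw [← List.drop_drop, h]; rfl
    simp only [E, List.mem_append, List.mem_flatMap]
    constructor
    · rintro (h | ⟨r, hr, h⟩)
      · obtain ⟨a, b, c, d⟩ := (ih (v1 PM hN)).1 h
        exact ⟨a, b, by simp at c; omega, dr _ d⟩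
      · split_ifs at h with hc
        · obtain ⟨a, b, c, d⟩ := (ih (v2 PM hN hr hc)).1 h
          exact ⟨a, b, by simp at c; omega, dr _ d⟩
        · simp at h
    · rintro ⟨a, b, c, d⟩
      have e : M.drop t = M[t]'(by omega) :: N := by
        rw [List.drop_eq_getElem_cons (by omega), d]
      have hv := valid_drop PM a t
      rw [e] at hv
      rcases hv.2 with h | h
      · rw [h] at e hv
        exact Or.inl ((ih hv).2 ⟨a, b, by simp; omega, e⟩)
      · refine Or.inr ⟨_, h.1, ?_⟩
        rw [if_pos h.2]
        exact (ih hv).2 ⟨a, b, by simp; omega, e⟩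

lemma nodup_E {J t : ℕ} {N : List ℕ} (hN : Valid PM N) : (E PM J t N).Nodup := by
  induction t generalizing N with
  | zero => simp only [E]; split_ifs <;> simp
  | succ t ih =>
    have k : ∀ r ∈ rs N, ∀ M ∈ (if conf r (PM r N.length) (st PM N) = false then E PM J t (r :: N)
        else []), M.drop t = r :: N := fun r hr M h => by
      split_ifs at h with hc
      · exact ((mem_E PM (v2 PM hN hr hc)).1 h).2.2.2
      · simp at h
    simp only [E]
    refine List.Nodup.append (ih (v1 PM hN)) ?_ ?_
    · refine List.nodup_flatMap.2 ⟨fun r hr => ?_, ?_⟩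
      · split_ifs with hc
        · exact ih (v2 PM hN hr hc)
        · simp
      · refine List.Pairwise.imp_of_mem ?_ (nodup_rs N)
        intro a b ha hb n M x y
        have := (k a ha M x).symm.trans (k b hb M y)
        exact n (List.cons.inj this).1
    · intro M x y
      obtain ⟨r, hr, y⟩ := List.mem_flatMap.1 y
      have := (((mem_E PM (v1 PM hN)).1 x).2.2.2).symm.trans (k r hr M y)
      have := (List.cons.inj this).1
      have := (mem_rs.1 hr).1
      omega

/-! Fast counting. -/

def un : List (ℕ × ℕ) → ℕ
  | [] => 0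
  | e :: s => Nat.lor e.2 (un s)

def viable (U : ℕ) : List ℕ → Bool
  | [] => false
  | m :: l => Nat.beq (Nat.land m U) 0 || viable U l

def other (r : ℕ) : List (ℕ × ℕ) → Bool
  | [] => false
  | e :: s => !(Nat.beq e.1 r) || other r s

def loop (g : ℕ → ℕ → ℕ) (row : ℕ) (s : List (ℕ × ℕ)) : List ℕ → ℕ
  | [] => 0
  | r :: l => (cond (conf r (Nat.mod (Nat.shiftRight row (Nat.mul 32 r)) 4294967296) s) 0
      (g r (Nat.mod (Nat.shiftRight row (Nat.mul 32 r)) 4294967296))) + loop g row s l

def go : List (ℕ × List ℕ) → ℕ → ℕ → List ℕ → List (ℕ × ℕ) → ℕ → Bool → ℕ → ℕ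
  | [], _, _, _, _, _, nt, left => cond (Nat.beq left 0 && nt) 1 0
  | w :: rows, t, i, R, s, U, nt, left =>
    cond (Nat.blt t left || (!nt && (Nat.beq left 0 || !(viable U w.2)))) 0
      (go rows (Nat.pred t) (Nat.succ i) (i :: R) s U nt left +
        cond (Nat.beq left 0) 0 (loop (fun r m => go rows (Nat.pred t) (Nat.succ i) R ((r, m) :: s)
          (Nat.lor m U) (nt || other r s) (Nat.pred left)) w.1 s R))

lemma other_iff {r : ℕ} {s : List (ℕ × ℕ)} : other r s = true ↔ ∃ e ∈ s, e.1 ≠ r := by
  induction s with
  | nil => simp [other]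
  | cons e s ih =>
    simp only [other, Bool.or_eq_true, ih, Bool.not_eq_true', List.mem_cons, exists_eq_or_imp]
    rw [← Bool.not_eq_true, Nat.beq_eq]

lemma viable_iff {U : ℕ} {l : List ℕ} : viable U l = true ↔ ∃ m ∈ l, m &&& U = 0 := by
  induction l with
  | nil => simp [viable]
  | cons e s ih =>
    have : Nat.land e U = e &&& U := rfl
    simp [viable, ih, this]

lemma land_un {m : ℕ} {s : List (ℕ × ℕ)} (h : ∀ e ∈ s, e.2 &&& m = 0) : m &&& un s = 0 := by
  induction s with
  | nil => simp [un]
  | cons e s ih =>
    have : Nat.lor e.2 (un s) = e.2 ||| un s := rfl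
    rw [un, this, Nat.and_or_distrib_left, ih fun x hx => h x (List.mem_cons_of_mem _ hx),
      Nat.land_comm, h e List.mem_cons_self]
    rfl

lemma NT_cons {r m : ℕ} {s : List (ℕ × ℕ)} :
    decide (NT ((r, m) :: s)) = (decide (NT s) || other r s) := by
  rw [Bool.eq_iff_iff]
  simp only [decide_eq_true_eq, Bool.or_eq_true, other_iff, NT, List.mem_cons, exists_eq_or_imp]
  constructor
  · rintro ((h | ⟨e, h, n⟩) | ⟨e, h, n | ⟨e', h', n⟩⟩)
    · exact absurd rfl h
    · exact Or.inr ⟨e, h, n.symm⟩
    · exact Or.inr ⟨e, h, n⟩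
    · exact Or.inl ⟨e, h, e', h', n⟩
  · rintro (⟨e, h, e', h', n⟩ | ⟨e, h, n⟩)
    · exact Or.inr ⟨e, h, Or.inr ⟨e', h', n⟩⟩
    · exact Or.inr ⟨e, h, Or.inl n⟩

lemma val_drop {M : List ℕ} {t d : ℕ} (h : d < (M.drop t).length) : val (M.drop t) d = val M d := by
  induction t generalizing M with
  | zero => simp
  | succ t ih =>
    cases M with
    | nil => simp
    | cons v N =>
      rw [List.drop_succ_cons] at h ⊢
      rw [ih h, val_lt (by simp at h; omega)]

lemma st_drop (M : List ℕ) (t : ℕ) : (st PM (M.drop t)).length ≤ (st PM M).length ∧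
    (st PM M).length ≤ (st PM (M.drop t)).length + t := by
  induction t generalizing M with
  | zero => simp
  | succ t ih =>
    cases M with
    | nil => simp
    | cons v N =>
      have := ih N
      rw [List.drop_succ_cons]
      simp only [st]
      split_ifs
      · omega
      · simp only [List.length_cons]; omega

lemma st_drop_eq (M : List ℕ) (t : ℕ) (h : (st PM (M.drop t)).length = (st PM M).length) :
    st PM (M.drop t) = st PM M := by
  induction t generalizing M with
  | zero => simp
  | succ t ih =>
    cases M with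
    | nil => simp
    | cons v N =>
      have := st_drop PM N t
      rw [List.drop_succ_cons] at h ⊢
      simp only [st] at h ⊢
      split_ifs at h ⊢
      · exact ih N h
      · simp at h; omega

lemma go_eq (J n : ℕ) (ROW : List (ℕ × List ℕ)) (hl : ROW.length = n)
    (hP : ∀ i (h : i < ROW.length) r, PM r i = (ROW[i].1 >>> (32 * r)) % 4294967296)
    (hV : ∀ i (h : i < ROW.length), ∀ d < n, i ≤ d → ∀ c < d, ∃ m ∈ ROW[i].2, m &&& PM c d = m)
    (t : ℕ) (N : List ℕ) (hN : Valid PM N) (ht : N.length + t = n) (hJ : (st PM N).length ≤ J) :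
    go (ROW.drop N.length) t N.length (rs N) (st PM N) (un (st PM N)) (decide (NT (st PM N)))
      (J - (st PM N).length) = (E PM J t N).length := by
  induction t generalizing N with
  | zero =>
    rw [List.drop_of_length_le (by omega)]
    simp only [go, E]
    by_cases h : (st PM N).length = J ∧ NT (st PM N)
    · rw [if_pos h]; simp [h]
    · rw [if_neg h]
      have : (Nat.beq (J - (st PM N).length) 0 && decide (NT (st PM N))) = false := by
        rw [Bool.eq_false_iff]; intro x; simp at x; exact h ⟨by omega, x.2⟩
      rw [this]; rfl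
  | succ t ih =>
    have hi : N.length < ROW.length := by omega
    rw [List.drop_eq_getElem_cons hi]
    simp only [go]
    have emp : (∀ M, M ∉ E PM J (t + 1) N) → (E PM J (t + 1) N).length = 0 := fun h => by
      rw [List.eq_nil_iff_forall_not_mem.2 h]; rfl
    cases hc : (Nat.blt (t + 1) (J - (st PM N).length) || (!decide (NT (st PM N)) &&
        (Nat.beq (J - (st PM N).length) 0 || !(viable (un (st PM N)) ROW[N.length].2))))
    swap
    · refine (emp fun M hM => ?_).symm
      obtain ⟨a, ⟨b, b'⟩, c, d⟩ := (mem_E PM hN).1 hM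
      have s1 := st_drop PM M (t + 1)
      have s2 := st_drop_eq PM M (t + 1)
      rw [d] at s1 s2
      simp only [Bool.or_eq_true, Nat.blt_eq, Bool.and_eq_true, Bool.not_eq_true',
        decide_eq_false_iff_not, Nat.beq_eq] at hc
      rcases hc with hc | ⟨nt, hc | hc⟩
      · omega
      · exact nt (s2 (by omega) ▸ b')
      · rw [← Bool.not_eq_true, viable_iff] at hc
        apply hc
        have g := (valid_iff PM).1 a
        have vd : ∀ x < N.length, val N x = val M x := fun x hx => by
          rw [← d] at hx ⊢; exact val_drop hx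
        have key : ∃ x < M.length, N.length ≤ x ∧ val M x ≠ x ∧ ∀ e ∈ st PM N, e.1 ≠ val M x := by
          obtain ⟨e, he, e', he', ne⟩ := b'
          obtain ⟨x, hx, x1, rfl⟩ := (mem_st PM).1 he
          obtain ⟨y, hy, y1, rfl⟩ := (mem_st PM).1 he'
          have inN : ∀ x < N.length, val M x ≠ x → (val M x, PM (val M x) x) ∈ st PM N :=
            fun x hx h => (mem_st PM).2 ⟨x, hx, by rwa [vd x hx], by rw [vd x hx]⟩
          by_contra hn
          push Not at hn
          have : ∀ x < M.length, val M x ≠ x → ∃ e ∈ st PM N, e.1 = val M x := fun x hx h =>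
            (lt_or_ge x N.length).elim (fun k => ⟨_, inN x k h, rfl⟩) fun k => hn x hx k h
          obtain ⟨e, he, e1⟩ := this x hx x1
          obtain ⟨e', he', e2⟩ := this y hy y1
          exact nt ⟨e, he, e', he', by rw [e1, e2]; exact ne⟩
        obtain ⟨x, hx, x0, x1, x2⟩ := key
        obtain ⟨m, hm, hm'⟩ := hV _ hi x (by omega) x0 (val M x) (by have := (g.1 x hx).1; omega)
        refine ⟨m, hm, ?_⟩
        rw [← hm', Nat.and_assoc, land_un, Nat.and_zero]
        intro e he
        have ne := x2 e he
        obtain ⟨y, hy, y1, rfl⟩ := (mem_st PM).1 he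
        rw [vd y hy] at y1 ne ⊢
        exact g.2 y (by omega) x hx y1 x1 ne
    · simp only [cond_false, E, List.length_append, Nat.pred_succ, Nat.succ_eq_add_one]
      have i1 := ih _ (v1 PM hN) (by simp; omega) (by simpa [st] using hJ)
      simp only [st, rs, if_true, List.length_cons] at i1
      rw [i1]
      congr 1
      have lp : ∀ R : List ℕ, (∀ r ∈ R, r ∈ rs N) → (st PM N).length < J →
          loop (fun r m => go (ROW.drop (N.length + 1)) t (N.length + 1) (rs N) ((r, m) :: st PM N)
            (Nat.lor m (un (st PM N))) (decide (NT (st PM N)) || other r (st PM N))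
            (J - (st PM N).length).pred) ROW[N.length].1 (st PM N) R =
          (R.flatMap fun r => if conf r (PM r N.length) (st PM N) = false then E PM J t (r :: N)
            else []).length := by
        intro R hR hlt
        induction R with
        | nil => rfl
        | cons r R ihR =>
          have e : Nat.mod (Nat.shiftRight ROW[N.length].1 (Nat.mul 32 r)) 4294967296 =
            PM r N.length := (hP _ hi r).symm
          simp only [loop, e, List.flatMap_cons, List.length_append]
          rw [ihR fun x hx => hR x (List.mem_cons_of_mem _ hx)]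
          congr 1
          cases hcf : conf r (PM r N.length) (st PM N)
          · have hr := hR r List.mem_cons_self
            have ne : r ≠ N.length := (mem_rs.1 hr).1.ne
            have i2 := ih _ (v2 PM hN hr hcf) (by simp; omega) (by simp [st, ne]; omega)
            simp only [st, rs, if_neg ne, List.length_cons, un, NT_cons] at i2
            simp only [cond_false, if_true]
            rw [← i2]; rfl
          · simp
      cases hb : Nat.beq (J - (st PM N).length) 0
      · exact lp _ (fun _ h => h) (by have := Nat.ne_of_beq_eq_false hb; omega)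
      · have := Nat.eq_of_beq_eq_true hb
        simp only [cond_true]
        symm
        rw [List.length_eq_zero_iff, List.eq_nil_iff_forall_not_mem]
        intro M hM
        obtain ⟨r, hr, hM⟩ := List.mem_flatMap.1 hM
        split_ifs at hM with hcf
        · obtain ⟨a, ⟨b, b'⟩, c, d⟩ := (mem_E PM (v2 PM hN hr hcf)).1 hM
          have s1 := st_drop PM M t
          rw [d] at s1
          simp [st, (mem_rs.1 hr).1.ne] at s1
          omega
        · simp at hM

end Pool.Agent.H9.PhyE
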