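import Mathlib
import Pool.Agent.H9.PhyDef2
import Pool.Agent.H9.PhyE

set_option autoImplicit false

namespace Pool.Agent.H9.PhyB

open SimpleGraph Sum Pool.Agent.H9.Phy Pool.Agent.H9.PhyE

variable {n m : ℕ} [NeZero m]

def rl (p : Fin n → Fin m) (u : Fin m → Fin m) : Fin n ⊕ Fin m → Fin n ⊕ Fin m → Bool
  | inl a, inr j => p a == j
  | inr j, inr k => j != 0 && u j == k
  | _, _ => false

def gr (p : Fin n → Fin m) (u : Fin m → Fin m) : SimpleGraph (Fin n ⊕ Fin m) :=
  fromRel fun x y => rl p u x y = true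

instance (p : Fin n → Fin m) (u : Fin m → Fin m) : DecidableRel (gr p u).Adj := fun x y =>
  inferInstanceAs (Decidable (x ≠ y ∧ (rl p u x y = true ∨ rl p u y x = true)))

lemma adj_u {p : Fin n → Fin m} {u : Fin m → Fin m} (h1 : ∀ j, j ≠ 0 → u j < j) {j : Fin m}
    (e : j ≠ 0) : (gr p u).Adj (inr j) (inr (u j)) :=
  ⟨by simpa using (h1 j e).ne', Or.inl (by simp [rl, e])⟩

lemma adj_p {p : Fin n → Fin m} {u : Fin m → Fin m} (a : Fin n) :
    (gr p u).Adj (inl a) (inr (p a)) := ⟨by simp, Or.inl (by simp [rl])⟩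

def mkT (p : Fin n → Fin m) (u : Fin m → Fin m) (h1 : ∀ j, j ≠ 0 → u j < j)
    (h2 : (gr p u).edgeFinset.card + 1 = n + m)
    (h3 : ∀ i, ((gr p u).neighborFinset (inl i)).card = 1)
    (h4 : ∀ j, ((gr p u).neighborFinset (inr j)).card = 3) : PTree n where
  m := m
  G := gr p u
  tree := by
    have r : ∀ j, (gr p u).Reachable (inr j) (inr 0) := by
      intro j
      induction j using WellFoundedLT.induction with
      | ind j ih =>
        by_cases e : j = 0
        · rw [e]
        · exact (adj_u h1 e).reachable.trans (ih _ (h1 j e))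
    have r' : ∀ x, (gr p u).Reachable x (inr 0) := by
      rintro (a | j)
      exacts [(adj_p a).reachable.trans (r (p a)), r j]
    have : Nonempty (Fin n ⊕ Fin m) := ⟨inr 0⟩
    refine isTree_iff_connected_and_card.2 ⟨⟨fun x y => (r' x).trans (r' y).symm⟩, ?_⟩
    rw [Nat.card_eq_fintype_card, ← edgeFinset_card, h2]
    simp
  leaf := fun i => by rw [← coe_neighborFinset, Set.ncard_coe_finset, h3]
  inner := fun i => by rw [← coe_neighborFinset, Set.ncard_coe_finset, h4]

lemma thru {V : Type} {G H : SimpleGraph V} (h : H ≤ G) {v a b : V} (br : V → ℕ)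
    (hb : ∀ x y, G.Adj x y → x ≠ v → y ≠ v → br x = br y) (ha : a ≠ v)
    (r : H.Reachable a b) (n : br a ≠ br b) : H.Reachable a v := by
  have : ∀ y, Relation.ReflTransGen H.Adj a y → H.Reachable a v ∨ (y ≠ v ∧ br a = br y) := by
    intro y hy
    induction hy with
    | refl => exact Or.inr ⟨ha, rfl⟩
    | @tail p q h1 h2 ih =>
      refine ih.elim Or.inl fun ih => ?_
      by_cases e : q = v
      · exact Or.inl (e ▸ (reachable_iff_reflTransGen _ _).2 (h1.tail h2))
      · exact Or.inr ⟨e, ih.2.trans (hb p q (h h2) ih.1 e)⟩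
  exact (this b ((reachable_iff_reflTransGen _ _).1 r)).resolve_right fun h => n h.2

def PartsG (G : SimpleGraph (Fin n ⊕ Fin m)) (P : Setoid (Fin n)) : Prop :=
  ∃ D : Set (Sym2 (Fin n ⊕ Fin m)), ∀ a b, P a b ↔ (G.deleteEdges D).Reachable (inl a) (inl b)

omit [NeZero m] in
lemma nec {G : SimpleGraph (Fin n ⊕ Fin m)} {P : Setoid (Fin n)} (h : PartsG G P) (v : Fin m)
    (br : Fin n ⊕ Fin m → ℕ) (hb : ∀ x y, G.Adj x y → x ≠ inr v → y ≠ inr v → br x = br y)
    {a b c d : Fin n} (x : P a b) (y : P c d) (n1 : br (inl a) ≠ br (inl b))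
    (n2 : br (inl c) ≠ br (inl d)) : P a c := by
  obtain ⟨D, hD⟩ := h
  exact (hD _ _).2 ((thru (deleteEdges_le D) br hb (by simp) ((hD _ _).1 x) n1).trans
    (thru (deleteEdges_le D) br hb (by simp) ((hD _ _).1 y) n2).symm)

def top (u : Fin m → Fin m) (M off : ℕ) : ℕ → Fin m → Fin m
  | 0, v => v
  | k + 1, v => cond (v != 0 && M.testBit (off + (u v).1)) (top u M off k (u v)) v

lemma suf {p : Fin n → Fin m} {u : Fin m → Fin m} (h1 : ∀ j, j ≠ 0 → u j < j) (PM : ℕ → ℕ → ℕ)
    (off : ℕ) (hc : ∀ r d : Fin n, r < d → (PM r d).testBit (off + (p r).1) = true ∧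
      (PM r d).testBit (off + (p d).1) = true ∧
      top u (PM r d) off m (p r) = top u (PM r d) off m (p d))
    {f : ℕ → ℕ} (g : Good PM f n) : PartsG (gr p u) (Setoid.ker fun a : Fin n => f a) := by
  classical
  let l : Fin n ⊕ Fin m → ℕ := fun x => match x with
    | inl a => f a
    | inr v => if h : ∃ d, d < n ∧ f d ≠ d ∧ (PM (f d) d).testBit (off + v.1) = true
        then f h.choose else n + v.1
  have hl : ∀ d < n, f d ≠ d → ∀ v : Fin m, (PM (f d) d).testBit (off + v.1) = true →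
      l (inr v) = f d := fun d hd x v y => by
    have h : ∃ d, d < n ∧ f d ≠ d ∧ (PM (f d) d).testBit (off + v.1) = true := ⟨d, hd, x, y⟩
    simp only [l, dif_pos h]
    by_contra ne
    have := g.2 _ h.choose_spec.1 d hd h.choose_spec.2.1 x ne
    have := congrArg (fun z => Nat.testBit z (off + v.1)) this
    simp [Nat.testBit_and, h.choose_spec.2.2, y] at this
  let D : Set (Sym2 (Fin n ⊕ Fin m)) := {e | ∃ x y, e = s(x, y) ∧ l x ≠ l y}
  have hD : ∀ x y, ((gr p u).deleteEdges D).Adj x y ↔ (gr p u).Adj x y ∧ l x = l y := fun x y => by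
    rw [deleteEdges_adj]
    refine and_congr_right fun _ => ⟨fun h => by_contra fun ne => h ⟨x, y, rfl, ne⟩, ?_⟩
    rintro h ⟨a, b, e, ne⟩
    rcases Sym2.eq_iff.1 e with ⟨rfl, rfl⟩ | ⟨rfl, rfl⟩
    exacts [ne h, ne h.symm]
  have tp : ∀ d < n, f d ≠ d → ∀ k (v : Fin m), (PM (f d) d).testBit (off + v.1) = true →
      ((gr p u).deleteEdges D).Reachable (inr v) (inr (top u (PM (f d) d) off k v)) := by
    intro d hd x k
    induction k with
    | zero => intro v _; rfl
    | succ k ih =>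
      intro v y
      simp only [top]
      cases e : (v != 0 && (PM (f d) d).testBit (off + (u v).1))
      · rfl
      · simp only [Bool.and_eq_true, bne_iff_ne] at e
        exact ((hD _ _).2 ⟨adj_u h1 e.1, by rw [hl d hd x v y, hl d hd x _ e.2]⟩).reachable.trans
          (ih _ e.2)
  have rp : ∀ a : Fin n, ∀ r : Fin n, r.1 = f a →
      ((gr p u).deleteEdges D).Reachable (inl a) (inl r) := by
    intro a r e
    by_cases x : f a = a
    · rw [show r = a from Fin.ext (e.trans x)]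
    · have := g.1 a a.2
      obtain ⟨c1, c2, c3⟩ := hc r a (by rw [Fin.lt_def]; omega)
      rw [e] at c1 c2 c3
      have a1 : ((gr p u).deleteEdges D).Adj (inl a) (inr (p a)) :=
        (hD _ _).2 ⟨adj_p a, (hl a a.2 x _ c2).symm⟩
      have a2 : ((gr p u).deleteEdges D).Adj (inl r) (inr (p r)) :=
        (hD _ _).2 ⟨adj_p r, by rw [hl a a.2 x _ c1]; simp only [l]; rw [e, this.2]⟩
      exact (a1.reachable.trans (tp a a.2 x m _ c2)).trans
        (c3 ▸ (a2.reachable.trans (tp a a.2 x m _ c1)).symm)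
  refine ⟨D, fun a b => ⟨fun h => ?_, fun h => ?_⟩⟩
  · have h : f a = f b := h
    have := (g.1 a a.2).1
    exact (rp a ⟨f a, by omega⟩ rfl).trans (rp b _ h).symm
  · have : ∀ y, Relation.ReflTransGen ((gr p u).deleteEdges D).Adj (inl a) y → l (inl a) = l y := by
      intro y hy
      induction hy with
      | refl => rfl
      | tail _ h2 ih => exact ih.trans ((hD _ _).1 h2).2
    exact this _ ((reachable_iff_reflTransGen _ _).1 h)

def NN (f : ℕ → ℕ) : ℕ → List ℕ
  | 0 => []
  | i + 1 => f i :: NN f i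

lemma NN_len (f : ℕ → ℕ) (i : ℕ) : (NN f i).length = i := by
  induction i <;> simp_all [NN]

lemma val_NN (f : ℕ → ℕ) (i : ℕ) : ∀ d < i, val (NN f i) d = f d := by
  induction i with
  | zero => simp
  | succ i ih =>
    intro d hd
    simp only [NN, val, NN_len]
    split_ifs with h
    · rw [h]
    · exact ih d (by omega)

lemma eq_of_val : ∀ M M' : List ℕ, M.length = M'.length → (∀ d < M.length, val M d = val M' d) →
    M = M'
  | [], [], _, _ => rfl
  | [], _ :: _, h, _ => by simp at h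
  | _ :: _, [], h, _ => by simp at h
  | v :: N, v' :: N', h, k => by
    have h : N.length = N'.length := by simpa using h
    have e := k N.length (by simp)
    simp only [val, if_true, h] at e
    rw [e, eq_of_val N N' h fun d hd => by
      have := k d (by simp; omega)
      rwa [val_lt hd, val_lt (h ▸ hd)] at this]

lemma good_congr {PM : ℕ → ℕ → ℕ} {f f' : ℕ → ℕ} {n : ℕ} (h : ∀ d < n, f' d = f d)
    (g : Good PM f n) : Good PM f' n := by
  refine ⟨fun d hd => ?_, fun d hd d' hd' => ?_⟩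
  · have := g.1 d hd
    rw [h d hd, h _ (by omega)]; exact this
  · rw [h d hd, h d' hd']; exact g.2 d hd d' hd'

lemma card_ker {PM : ℕ → ℕ → ℕ} {M : List ℕ} (hl : M.length = n) (g : Good PM (val M) n) :
    Nat.card (Quotient (Setoid.ker fun a : Fin n => val M a)) = (rs M).length := by
  rw [Nat.card_congr (Setoid.quotientKerEquivRange _), Nat.card_coe_set_eq,
    ← List.toFinset_card_of_nodup (nodup_rs M), ← Set.ncard_coe_finset]
  congr 1
  ext r
  simp only [Set.mem_range, List.coe_toFinset, Set.mem_setOf_eq, mem_rs, hl]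
  constructor
  · rintro ⟨a, rfl⟩
    have := g.1 a a.2
    exact ⟨by omega, this.2⟩
  · rintro ⟨a, b⟩; exact ⟨⟨r, a⟩, b⟩

lemma nt_ker {PM : ℕ → ℕ → ℕ} {M : List ℕ} (hl : M.length = n) (g : Good PM (val M) n) :
    NonTriv (Setoid.ker fun a : Fin n => val M a) ↔ NT (st PM M) := by
  constructor
  · rintro ⟨a, b, c, d, n1, n2, x, y, z⟩
    have x : val M a = val M b := x
    have y : val M c = val M d := y
    have z : val M a ≠ val M c := z
    have k : ∀ a b : Fin n, a ≠ b → val M a = val M b → ∃ e ∈ st PM M, e.1 = val M a := by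
      intro a b ne x
      by_cases h : val M a = a
      · refine ⟨_, (mem_st PM).2 ⟨b, by omega, fun w => ne (Fin.ext ?_), rfl⟩, x.symm⟩
        omega
      · exact ⟨_, (mem_st PM).2 ⟨a, by omega, h, rfl⟩, rfl⟩
    obtain ⟨e, he, e1⟩ := k a b n1 x
    obtain ⟨e', he', e2⟩ := k c d n2 y
    exact ⟨e, he, e', he', by rw [e1, e2]; exact z⟩
  · rintro ⟨e, he, e', he', ne⟩
    obtain ⟨x, hx, x1, rfl⟩ := (mem_st PM).1 he
    obtain ⟨y, hy, y1, rfl⟩ := (mem_st PM).1 he'
    have gx := g.1 x (by omega)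
    have gy := g.1 y (by omega)
    refine ⟨⟨x, by omega⟩, ⟨val M x, by omega⟩, ⟨y, by omega⟩, ⟨val M y, by omega⟩,
      fun h => x1 (congrArg Fin.val h).symm, fun h => y1 (congrArg Fin.val h).symm,
      gx.2.symm, gy.2.symm, ne⟩

theorem count (T F : PTree n) (PM : ℕ → ℕ → ℕ)
    (hs : ∀ f, Good PM f n → Setoid.ker (fun a : Fin n => f a) ∈ Parts T ∧
      Setoid.ker (fun a : Fin n => f a) ∈ Parts F)
    (hn : ∀ P, P ∈ Parts T → P ∈ Parts F → ∀ a b c d : Fin n, P a b → P c d →
      PM a b &&& PM c d ≠ 0 → P a c) (k J : ℕ) (hk : k + J = n) :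
    commonNT T F k = (E PM J n []).length := by
  have v0 : Valid PM [] := trivial
  have me : ∀ M, M ∈ E PM J n [] ↔ M.length = n ∧ Good PM (val M) n ∧ (st PM M).length = J ∧
      NT (st PM M) := fun M => by
    rw [mem_E PM v0, valid_iff]
    constructor
    · rintro ⟨a, b, c, -⟩
      have c : M.length = n := by simpa using c
      exact ⟨c, c ▸ a, b⟩
    · rintro ⟨a, b, c⟩
      exact ⟨a ▸ b, c, by simpa using a, List.drop_of_length_le a.le⟩
  rw [← List.toFinset_card_of_nodup (nodup_E PM v0), ← Set.ncard_coe_finset, commonNT]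
  symm
  refine Set.ncard_congr (fun M _ => Setoid.ker fun a : Fin n => val M a) ?_ ?_ ?_
  · intro M hM
    obtain ⟨a, b, c, d⟩ := (me M).1 (by simpa using hM)
    have := len_rs_st PM M
    exact ⟨(hs _ b).1, (hs _ b).2, by rw [card_ker a b]; omega, (nt_ker a b).2 d⟩
  · intro M M' hM hM' e
    obtain ⟨a, b, -⟩ := (me M).1 (by simpa using hM)
    obtain ⟨a', b', -⟩ := (me M').1 (by simpa using hM')
    have k : ∀ {f f' : ℕ → ℕ}, Good PM f n → Good PM f' n →
        (Setoid.ker fun a : Fin n => f a) = (Setoid.ker fun a : Fin n => f' a) →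
        ∀ d < n, f' d ≤ f d := fun {f f'} g g' e d hd => by
      have h := g.1 d hd
      have x : (Setoid.ker fun a : Fin n => f a) ⟨f d, by omega⟩ ⟨d, hd⟩ := h.2
      rw [e] at x
      have x : f' (f d) = f' d := x
      have := (g'.1 (f d) (by omega)).1
      omega
    exact eq_of_val M M' (a.trans a'.symm) fun d hd =>
      le_antisymm (k b' b e.symm d (a ▸ hd)) (k b b' e d (a ▸ hd))
  · rintro P ⟨p1, p2, p3, p4⟩
    classical
    have ex : ∀ d : Fin n, ∃ c, ∃ h : c < n, P ⟨c, h⟩ d := fun d => ⟨d, d.2, P.refl _⟩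
    let f : ℕ → ℕ := fun d => if h : d < n then Nat.find (ex ⟨d, h⟩) else 0
    have f1 : ∀ d : Fin n, ∃ h : f d < n, P ⟨f d, h⟩ d := fun d => by
      simp only [f, dif_pos d.2]; exact Nat.find_spec (ex d)
    have f2 : ∀ c d : Fin n, P c d → f d ≤ c := fun c d h => by
      simp only [f, dif_pos d.2]; exact Nat.find_min' (ex d) ⟨c.2, h⟩
    have f3 : ∀ c d : Fin n, P c d ↔ f c = f d := fun c d => by
      obtain ⟨hc, x⟩ := f1 c
      obtain ⟨hd, y⟩ := f1 d
      refine ⟨fun h => le_antisymm (f2 ⟨_, hd⟩ c (P.trans y (P.symm h)))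
        (f2 ⟨_, hc⟩ d (P.trans x h)), fun h => P.trans (P.symm x) ?_⟩
      simp only [h]; exact y
    have g : Good PM f n := by
      refine ⟨fun d hd => ⟨f2 ⟨d, hd⟩ ⟨d, hd⟩ (P.refl _), ?_⟩, fun d hd d' hd' _ _ ne => ?_⟩
      · obtain ⟨h, x⟩ := f1 ⟨d, hd⟩
        exact (f3 _ _).1 x
      · obtain ⟨h, x⟩ := f1 ⟨d, hd⟩
        obtain ⟨h', x'⟩ := f1 ⟨d', hd'⟩
        by_contra z
        have := hn P p1 p2 _ _ _ _ x x' z
        exact ne ((f3 ⟨d, hd⟩ ⟨d', hd'⟩).1 (P.trans (P.symm x) (P.trans this x')))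
    have g' := good_congr (val_NN f n) g
    have e : (Setoid.ker fun a : Fin n => val (NN f n) a) = P := Setoid.ext fun a b => by
      rw [f3, ← val_NN f n a a.2, ← val_NN f n b b.2]; rfl
    have c := card_ker (NN_len f n) g'
    have := len_rs_st PM (NN f n)
    rw [NN_len] at this
    have z : NN f n ∈ E PM J n [] := (me _).2 ⟨NN_len f n, g', by rw [e, p3] at c; omega,
      (nt_ker (NN_len f n) g').1 (by rw [e]; exact p4)⟩
    exact ⟨NN f n, by simpa using z, e⟩

/-- Packaged statement for two trees given by parent functions. -/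
theorem count' (p p' : Fin n → Fin m) (u u' : Fin m → Fin m) (h1 h2 h3 h4) (h1' h2' h3' h4')
    (ROW : List (ℕ × List ℕ)) (hl : ROW.length = n) (PM : ℕ → ℕ → ℕ)
    (hP : ∀ i r, PM r i = ((ROW.getD i (0, [])).1 >>> (32 * r)) % 4294967296)
    (hV : ∀ i < n, ∀ d < n, i ≤ d → ∀ c < d, ∃ x ∈ (ROW.getD i (0, [])).2, x &&& PM c d = x)
    (hc : ∀ r d : Fin n, r < d → (PM r d).testBit (0 + (p r).1) = true ∧
      (PM r d).testBit (0 + (p d).1) = true ∧
      top u (PM r d) 0 m (p r) = top u (PM r d) 0 m (p d))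
    (hc' : ∀ r d : Fin n, r < d → (PM r d).testBit (16 + (p' r).1) = true ∧
      (PM r d).testBit (16 + (p' d).1) = true ∧
      top u' (PM r d) 16 m (p' r) = top u' (PM r d) 16 m (p' d))
    (br br' : Fin m → Fin n ⊕ Fin m → ℕ)
    (hb : ∀ v x y, (gr p u).Adj x y → x ≠ inr v → y ≠ inr v → br v x = br v y)
    (hb' : ∀ v x y, (gr p' u').Adj x y → x ≠ inr v → y ≠ inr v → br' v x = br' v y)
    (hm : m ≤ 16)
    (hx : ∀ a b : Fin n, ∀ i < 32, (PM a b).testBit i = true →
      (∃ v : Fin m, i = v ∧ br v (inl a) ≠ br v (inl b)) ∨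
      (∃ v : Fin m, i = 16 + v ∧ br' v (inl a) ≠ br' v (inl b))) (k J : ℕ) (hk : k + J = n) :
    commonNT (mkT p u h1 h2 h3 h4) (mkT p' u' h1' h2' h3' h4') k =
      go ROW n 0 [] [] 0 false J := by
  rw [count (mkT p u h1 h2 h3 h4) (mkT p' u' h1' h2' h3' h4') PM (fun f g => ⟨suf h1 PM 0 hc g, suf h1' PM 16 hc' g⟩) ?_ k J hk]
  · have gd : ∀ i (h : i < ROW.length), ROW.getD i (0, []) = ROW[i] := fun i h => by simp [h]
    have := go_eq PM J n ROW hl (fun i h r => by rw [hP, gd i h])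
      (fun i h => by rw [← gd i h]; exact hV i (hl ▸ h)) n [] trivial (by simp) (by simp [st])
    rw [← this]
    simp [rs, st, un, NT]
  · intro P t1 t2 a b c d x y z
    obtain ⟨i, hi⟩ := Nat.exists_testBit_of_ne_zero z
    rw [Nat.testBit_and, Bool.and_eq_true] at hi
    have i32 : i < 32 := by
      have := hi.1
      rw [hP, show 4294967296 = 2 ^ 32 by norm_num, Nat.testBit_mod_two_pow] at this
      simp only [Bool.and_eq_true, decide_eq_true_eq] at this
      exact this.1
    rcases hx a b i i32 hi.1 with ⟨v, e, w⟩ | ⟨v, e, w⟩ <;>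
      rcases hx c d i i32 hi.2 with ⟨v', e', w'⟩ | ⟨v', e', w'⟩
    · obtain rfl : v = v' := Fin.ext (by omega)
      exact nec t1 v (br v) (hb v) x y w w'
    · have := v.2; omega
    · have := v'.2; omega
    · obtain rfl : v = v' := Fin.ext (by omega)
      exact nec t2 v (br' v) (hb' v) x y w w'

end Pool.Agent.H9.PhyB
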