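import Mathlib

set_option autoImplicit false

open Finset Pointwise Metric Filter Topology

namespace Pool.Agent.H9.Thick

abbrev E := EuclideanSpace ℝ (Fin 3)

def Th (S : Finset E) (r : ℝ) : Set E := convexHull ℝ (S : Set E) + closedBall (0 : E) r

lemma Th_compact (S : Finset E) (r : ℝ) : IsCompact (Th S r) :=
  (S.finite_toSet.isCompact_convexHull ℝ).add (isCompact_closedBall _ _)

lemma Th_convex (S : Finset E) (r : ℝ) : Convex ℝ (Th S r) :=
  (convex_convexHull ℝ _).add (convex_closedBall _ _)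

lemma ball_sub {S : Finset E} {w : E} (hw : w ∈ S) (r : ℝ) : closedBall w r ⊆ Th S r := by
  intro x hx
  refine ⟨w, subset_convexHull ℝ _ hw, x - w, ?_, by simp⟩
  simpa [dist_eq_norm] using hx

lemma Th_le {S : Finset E} {r t : ℝ} (u : E) (h : ∀ w ∈ S, inner ℝ u w ≤ t) :
    ∀ x ∈ Th S r, inner ℝ u x ≤ t + r * ‖u‖ := by
  rintro _ ⟨y, hy, v, hv, rfl⟩
  have h1 : inner ℝ u y ≤ t := by
    refine convexHull_min (t := {y : E | inner ℝ u y ≤ t}) h ?_ hy
    exact convex_halfSpace_le (innerSL ℝ u).isLinear t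
  have h2 : ‖v‖ ≤ r := by simpa using hv
  have h3 := real_inner_le_norm u v
  simp only [inner_add_right]
  nlinarith [norm_nonneg u]

lemma Th_ge {S : Finset E} {r t : ℝ} (u : E) (h : ∀ w ∈ S, t ≤ inner ℝ u w) :
    ∀ x ∈ Th S r, t - r * ‖u‖ ≤ inner ℝ u x := by
  intro x hx
  have := Th_le (t := -t) (-u) (fun w hw => by rw [inner_neg_left]; linarith [h w hw]) x hx
  rw [inner_neg_left, norm_neg] at this
  linarith

lemma front {X : Set E} {w x : E} {r : ℝ} (hx : x ≠ w) (h1 : closedBall w r ⊆ X)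
    (h2 : ∀ z ∈ X, inner ℝ (x - w) z ≤ inner ℝ (x - w) w + r * ‖x - w‖) :
    x ∈ frontier X ↔ ‖x - w‖ = r := by
  have n0 : 0 < ‖x - w‖ := norm_pos_iff.2 (sub_ne_zero.2 hx)
  have e : inner ℝ (x - w) x = inner ℝ (x - w) w + ‖x - w‖ ^ 2 := by
    rw [← real_inner_self_eq_norm_sq, inner_sub_right]; ring
  constructor
  · rintro ⟨a, b⟩
    have c : closure X ⊆ {z | inner ℝ (x - w) z ≤ inner ℝ (x - w) w + r * ‖x - w‖} :=
      closure_minimal h2 (isClosed_le (by fun_prop) continuous_const)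
    have d : inner ℝ (x - w) x ≤ inner ℝ (x - w) w + r * ‖x - w‖ := c a
    refine le_antisymm (by nlinarith) (not_lt.1 fun h => b ?_)
    exact interior_maximal (ball_subset_closedBall.trans h1) isOpen_ball
      (by simpa [dist_eq_norm] using h)
  · intro h
    refine ⟨subset_closure (h1 (by simpa [dist_eq_norm] using h.le)), fun hi => ?_⟩
    have c : Continuous fun s : ℝ => x + s • (x - w) := by fun_prop
    have : ∀ᶠ s in 𝓝[>] (0 : ℝ), x + s • (x - w) ∈ interior X :=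
      Eventually.filter_mono nhdsWithin_le_nhds
        ((c.tendsto 0).eventually (isOpen_interior.mem_nhds (by simpa using hi)))
    obtain ⟨s, s1, s2⟩ := (this.and self_mem_nhdsWithin).exists
    have s2 : 0 < s := s2
    have := h2 _ (interior_subset s1)
    rw [inner_add_right, inner_smul_right, real_inner_self_eq_norm_sq, e, ← h] at this
    nlinarith [mul_pos s2 (pow_pos n0 2)]

lemma piece {ι : Type} (S : ι → Finset E) {r : ℝ} (hr : 0 < r) (F : Finset ι) (i : ι) (hi : i ∈ F)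
    (w : E) (hw : w ∈ S i) (u : E) (hu : u ≠ 0)
    (h : ∀ j ∈ F, ∀ y ∈ S j, y ≠ w → inner ℝ u y < inner ℝ u w) :
    ∃ O : Set E, IsOpen O ∧ (O ∩ frontier (Th (S i) r)).Nonempty ∧
      O ∩ frontier (Th (S i) r) ⊆ frontier (convexHull ℝ (⋃ j ∈ F, Th (S j) r)) := by
  classical
  let O : Set E := {x | x ≠ w} ∩ ⋂ y ∈ (F.biUnion S).erase w,
    {x | inner ℝ (x - w) y < inner ℝ (x - w) w}
  have ho : IsOpen O := isOpen_ne.inter (isOpen_biInter_finset fun y _ =>
    isOpen_lt (by fun_prop) (by fun_prop))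
  have key : ∀ x ∈ O, ∀ j ∈ F, ∀ z ∈ Th (S j) r,
      inner ℝ (x - w) z ≤ inner ℝ (x - w) w + r * ‖x - w‖ := by
    intro x hx j hj
    refine Th_le _ fun y hy => ?_
    by_cases e : y = w
    · rw [e]
    · exact (Set.mem_iInter₂.1 hx.2 y (mem_erase.2 ⟨e, mem_biUnion.2 ⟨j, hj, hy⟩⟩)).le
  have n0 : 0 < ‖u‖ := norm_pos_iff.2 hu
  have k0 : 0 < r / ‖u‖ := by positivity
  have x0 : w + (r / ‖u‖) • u ∈ O := by
    refine ⟨by simp [hu, hr.ne'], Set.mem_iInter₂.2 fun y hy => ?_⟩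
    obtain ⟨y1, y2⟩ := mem_erase.1 hy
    obtain ⟨j, j1, j2⟩ := mem_biUnion.1 y2
    simp only [Set.mem_setOf_eq, add_sub_cancel_left, real_inner_smul_left]
    exact mul_lt_mul_of_pos_left (h j j1 y j2 y1) k0
  refine ⟨O, ho, ⟨_, x0, (front x0.1 (ball_sub hw r) (key _ x0 i hi)).2 ?_⟩, ?_⟩
  · rw [add_sub_cancel_left, norm_smul, Real.norm_eq_abs, abs_of_pos k0]; field_simp
  · rintro x ⟨hx, hf⟩
    refine (front hx.1 ?_ ?_).2 ((front hx.1 (ball_sub hw r) (key x hx i hi)).1 hf)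
    · exact (ball_sub hw r).trans ((Set.subset_biUnion_of_mem (u := fun j => Th (S j) r)
        (mem_coe.2 hi)).trans (subset_convexHull ℝ _))
    · refine convexHull_min (t := {z : E | inner ℝ (x - w) z ≤ _}) ?_
        (convex_halfSpace_le (innerSL ℝ (x - w)).isLinear _)
      intro z hz
      obtain ⟨j, hj, hz⟩ := Set.mem_iUnion₂.1 hz
      exact key x hx j hj z hz

lemma hidden {ι : Type} [Fintype ι] (S : ι → Finset E) (r : ℝ) (i : ι) (T : Set E)
    (hT : ∀ y ∈ T, ∃ j, y ∈ S j) (h : ∀ w ∈ S i, w ∈ interior (convexHull ℝ T)) :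
    ¬ ∃ O : Set E, IsOpen O ∧ (O ∩ frontier (Th (S i) r)).Nonempty ∧
      O ∩ frontier (Th (S i) r) ⊆ frontier (convexHull ℝ (⋃ j ∈ (univ : Finset ι), Th (S j) r)) := by
  rintro ⟨O, -, ⟨x, hx⟩, h2⟩
  refine (h2 hx).2 ?_
  have h3 : x ∈ Th (S i) r := (Th_compact _ _).isClosed.frontier_subset hx.2
  have h4 : Th (S i) r ⊆ interior (convexHull ℝ T) + closedBall (0 : E) r :=
    Set.add_subset_add_right (convexHull_min h (convex_convexHull ℝ T).interior)
  refine interior_maximal ?_ isOpen_interior.add_right (h4 h3)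
  refine (Set.add_subset_add_right interior_subset).trans ?_
  rw [← (convex_closedBall (0 : E) r).convexHull_eq, ← convexHull_add]
  refine convexHull_mono ?_
  rintro _ ⟨y, hy, v, hv, rfl⟩
  obtain ⟨j, hj⟩ := hT y hy
  exact Set.mem_iUnion₂.2 ⟨j, mem_univ _, y, subset_convexHull ℝ _ hj, v, hv, rfl⟩

lemma sep (A B : Finset E) (hA : A.Nonempty) (hB : B.Nonempty) (u : E)
    (h : ∀ x ∈ A, ∀ y ∈ B, inner ℝ u x < inner ℝ u y) :
    ∀ᶠ r in 𝓝[>] (0 : ℝ), u ≠ 0 ∧ ∃ t, (∀ A' ⊆ A, ∀ x ∈ Th A' r, inner ℝ u x < t) ∧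
      ∀ y ∈ Th B r, t < inner ℝ u y := by
  obtain ⟨a, ha, h1⟩ := exists_max_image A (fun x => inner ℝ u x) hA
  obtain ⟨b, hb, h2⟩ := exists_min_image B (fun x => inner ℝ u x) hB
  have h3 := h a ha b hb
  have c : Continuous fun r : ℝ => r * ‖u‖ := by fun_prop
  have : ∀ᶠ r in 𝓝[>] (0 : ℝ), r * ‖u‖ < (inner ℝ u b - inner ℝ u a) / 2 :=
    Eventually.filter_mono nhdsWithin_le_nhds
      ((c.tendsto 0).eventually (gt_mem_nhds (by simpa using h3)))
  refine this.mono fun r hr => ⟨?_, (inner ℝ u a + inner ℝ u b) / 2, fun A' hA' x hx => ?_,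
    fun y hy => ?_⟩
  · rintro rfl; simp at h3
  · linarith [Th_le u (fun w hw => h1 w (hA' hw)) x hx]
  · linarith [Th_ge u h2 y hy]

def Supp (X : Set E) (u : E) (t : ℝ) : Prop :=
  (∃ x ∈ X, inner ℝ u x = t) ∧ ((∀ x ∈ X, inner ℝ u x ≤ t) ∨ (∀ x ∈ X, t ≤ inner ℝ u x))

lemma supp_Th {S : Finset E} (hS : S.Nonempty) {r t : ℝ} (hr : 0 ≤ r) {u : E} (h : Supp (Th S r) u t) :
    ∃ w ∈ S, |inner ℝ u w - t| ≤ r * ‖u‖ ∧
      ∃ s : Bool, ∀ y ∈ S, (if s then 1 else -1) * (inner ℝ u y - t) ≤ 0 := by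
  obtain ⟨⟨x, hx, e⟩, h2⟩ := h
  have m : ∀ y ∈ S, y ∈ Th S r := fun y hy => ball_sub hy r (mem_closedBall_self hr)
  have p : 0 ≤ r * ‖u‖ := by positivity
  rcases h2 with h2 | h2
  · obtain ⟨a, ha, h1⟩ := exists_max_image S (fun x => inner ℝ u x) hS
    have := Th_le u h1 x hx
    have := h2 a (m a ha)
    exact ⟨a, ha, abs_le.2 ⟨by linarith, by linarith⟩, true, fun y hy => by
      simp only [if_true]; linarith [h2 y (m y hy)]⟩
  · obtain ⟨a, ha, h1⟩ := exists_min_image S (fun x => inner ℝ u x) hS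
    have := Th_ge u h1 x hx
    have := h2 a (m a ha)
    exact ⟨a, ha, abs_le.2 ⟨by linarith, by linarith⟩, false, fun y hy => by
      simp only [Bool.false_eq_true, if_false]; linarith [h2 y (m y hy)]⟩

lemma nondeg {ι : Type} [Fintype ι] (S : ι → Finset E) (hS : ∀ i, (S i).Nonempty) (F : Finset ι)
    (hF : F.Nonempty) (h : ∀ u : E, u ≠ 0 → ∀ t, ¬ ∀ i ∈ F, Supp (S i) u t) :
    ∀ᶠ r in 𝓝[>] (0 : ℝ), ∀ u : E, u ≠ 0 → ∀ t, ¬ ∀ i ∈ F, Supp (Th (S i) r) u t := by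
  classical
  obtain ⟨i0, hi0⟩ := hF
  have one : ∀ (w : ∀ i, S i) (s : ι → Bool), ∀ᶠ r in 𝓝[>] (0 : ℝ), ∀ u : E, ‖u‖ = 1 → ∀ t,
      ¬ ∀ i ∈ F, |inner ℝ u (w i : E) - t| ≤ r ∧
        ∀ y ∈ S i, (if s i then 1 else -1) * (inner ℝ u y - t) ≤ 0 := by
    intro w s
    let G : E → ℝ := fun u => ∑ i ∈ F, (|inner ℝ u (w i : E) - inner ℝ u (w i0 : E)| +
      ∑ y ∈ S i, max ((if s i then 1 else -1) * (inner ℝ u y - inner ℝ u (w i0 : E))) 0)
    have cG : Continuous G := by fun_prop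
    have pos : ∀ u : E, u ≠ 0 → 0 < G u := by
      intro u hu
      have nn : ∀ i ∈ F, 0 ≤ |inner ℝ u (w i : E) - inner ℝ u (w i0 : E)| +
          ∑ y ∈ S i, max ((if s i then (1 : ℝ) else -1) * (inner ℝ u y - inner ℝ u (w i0 : E))) 0 :=
        fun i _ => add_nonneg (abs_nonneg _) (sum_nonneg fun y _ => le_max_right _ _)
      refine lt_of_le_of_ne (sum_nonneg nn) fun e => h u hu (inner ℝ u (w i0 : E)) fun i hi => ?_
      have e1 := (sum_eq_zero_iff_of_nonneg nn).1 e.symm i hi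
      have a1 := abs_nonneg (inner ℝ u (w i : E) - inner ℝ u (w i0 : E))
      have a2 : ∀ y ∈ S i, 0 ≤ max ((if s i then (1 : ℝ) else -1) *
        (inner ℝ u y - inner ℝ u (w i0 : E))) 0 := fun y _ => le_max_right _ _
      have a3 := sum_nonneg a2
      have a4 := (sum_eq_zero_iff_of_nonneg a2).1 (by linarith)
      refine ⟨⟨w i, (w i).2, sub_eq_zero.1 (abs_eq_zero.1 (by linarith))⟩, ?_⟩
      cases hs : s i
      · right; intro y hy
        have := max_eq_right_iff.1 (a4 y hy)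
        simp only [hs, Bool.false_eq_true, if_false] at this; linarith
      · left; intro y hy
        have := max_eq_right_iff.1 (a4 y hy)
        simp only [hs, if_true] at this; linarith
    obtain ⟨u0, h0, hm⟩ := (isCompact_sphere (0 : E) 1).exists_isMinOn
      (NormedSpace.sphere_nonempty.2 zero_le_one) cG.continuousOn
    have p0 := pos u0 (by rintro rfl; simp at h0)
    have c : Continuous fun r : ℝ => ∑ i ∈ F, (2 * r + ∑ _y ∈ S i, r) := by fun_prop
    have : ∀ᶠ r in 𝓝[>] (0 : ℝ), ∑ i ∈ F, (2 * r + ∑ _y ∈ S i, r) < G u0 :=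
      Eventually.filter_mono nhdsWithin_le_nhds
        ((c.tendsto 0).eventually (gt_mem_nhds (by simpa using p0)))
    refine this.mono fun r hr u hu t hc => ?_
    have b0 := abs_le.1 (hc i0 hi0).1
    have : G u ≤ ∑ i ∈ F, (2 * r + ∑ _y ∈ S i, r) := by
      refine sum_le_sum fun i hi => add_le_add ?_ (sum_le_sum fun y hy => max_le ?_ ?_)
      · have := abs_le.1 (hc i hi).1
        exact abs_le.2 ⟨by linarith, by linarith⟩
      · have := (hc i hi).2 y hy
        split_ifs at this ⊢ <;> linarith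
      · linarith
    have := hm (show u ∈ sphere (0 : E) 1 by simpa using hu)
    simp only [Set.mem_setOf_eq] at this
    linarith
  have all := eventually_all.2 fun w => eventually_all.2 (one w)
  refine (all.and self_mem_nhdsWithin).mono fun r ⟨hr, r0⟩ u hu t hc => ?_
  have r0 : 0 < r := r0
  have n0 : 0 < ‖u‖ := norm_pos_iff.2 hu
  have : ∀ i, ∃ w : S i, ∃ s : Bool, i ∈ F → |inner ℝ u (w : E) - t| ≤ r * ‖u‖ ∧
      ∀ y ∈ S i, (if s then 1 else -1) * (inner ℝ u y - t) ≤ 0 := by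
    intro i
    by_cases hi : i ∈ F
    · obtain ⟨w, hw, h1, s, h2⟩ := supp_Th (hS i) r0.le (hc i hi)
      exact ⟨⟨w, hw⟩, s, fun _ => ⟨h1, h2⟩⟩
    · obtain ⟨w, hw⟩ := hS i
      exact ⟨⟨w, hw⟩, true, fun h => (hi h).elim⟩
  choose w s hws using this
  refine hr w s (‖u‖⁻¹ • u) (by rw [norm_smul, norm_inv, norm_norm]; field_simp) (‖u‖⁻¹ * t)
    fun i hi => ⟨?_, fun y hy => ?_⟩
  · rw [real_inner_smul_left, ← mul_sub, abs_mul, abs_of_pos (inv_pos.2 n0), inv_mul_le_iff₀ n0]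
    linarith [(hws i hi).1]
  · rw [real_inner_smul_left, ← mul_sub, mul_left_comm]
    exact mul_nonpos_of_nonneg_of_nonpos (inv_pos.2 n0).le ((hws i hi).2 y hy)

end Pool.Agent.H9.Thick
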