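import Mathlib
import Pool.Agent.H9.Thick

set_option autoImplicit false

open Finset Pointwise Metric Filter Topology Pool.Agent.H9.Thick

namespace Pool.Agent.H9.Pyr

noncomputable def sg (j : ℕ) : ℝ := if j = 0 then 0 else 1

noncomputable def P (j : ℕ) : E := !₂[sg j * j, sg j * j ^ 2, sg j]

noncomputable def g : E := !₂[3 / 2, 7 / 2, 3 / 4]

def Q (u : E) (x : ℝ) : ℝ := u 0 * x + u 1 * x ^ 2 + u 2

lemma ip (u x : E) : inner ℝ u x = u 0 * x 0 + u 1 * x 1 + u 2 * x 2 := by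
  simp [PiLp.inner_apply, Fin.sum_univ_three]; ring

noncomputable def c (h : ℝ) (j : ℕ) : E := (1 - h * j ^ 3)⁻¹ • P j

noncomputable def w (d : ℝ) (j : ℕ) : E := (1 - d) • P j + d • g

lemma ip_c (u : E) (h : ℝ) (j : ℕ) : inner ℝ u (c h j) = (1 - h * j ^ 3)⁻¹ * (sg j * Q u j) := by
  rw [c, inner_smul_right, ip]; simp [P, Q]; left; ring

lemma ip_w (u : E) (d : ℝ) (j : ℕ) :
    inner ℝ u (w d j) = (1 - d) * (sg j * Q u j) + d * ((Q u 1 + Q u 2 + Q u 3) / 4) := by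
  rw [w, inner_add_right, inner_smul_right, inner_smul_right, ip, ip]; simp [P, Q, g]; ring

lemma sg0 : sg 0 = 0 := by simp [sg]

lemma sg1 {j : ℕ} (h : j ≠ 0) : sg j = 1 := by simp [sg, h]

structure Par (m : ℕ) (d h : ℝ) : Prop where
  m3 : 3 ≤ m
  d0 : 0 < d
  d1 : d * m ^ 2 ≤ 1 / 4
  h0 : 0 < h
  h1 : h * m ^ 3 < d / 4

lemma Par.d2 {m : ℕ} {d h : ℝ} (H : Par m d h) : d ≤ 1 / 4 := by
  have : (3 : ℝ) ≤ m := by exact_mod_cast H.m3
  nlinarith [H.d0, H.d1, mul_le_mul_of_nonneg_left (show (1 : ℝ) ≤ m ^ 2 by nlinarith) H.d0.le]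

lemma Par.den {m : ℕ} {d h : ℝ} (H : Par m d h) {j : ℕ} (hj : j ≤ m) :
    0 < 1 - h * j ^ 3 ∧ 1 - h * j ^ 3 ≤ 1 := by
  have a : (j : ℝ) ^ 3 ≤ m ^ 3 := by gcongr
  have b : 0 ≤ h * (j : ℝ) ^ 3 := by have := H.h0; positivity
  constructor
  · nlinarith [H.d2, H.h1, mul_le_mul_of_nonneg_left a H.h0.le]
  · linarith

lemma Par.lam {m : ℕ} {d h : ℝ} (H : Par m d h) {j : ℕ} (hj : j ≤ m) : 1 ≤ (1 - h * j ^ 3)⁻¹ :=
  (one_le_inv₀ (H.den hj).1).2 (H.den hj).2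

lemma sq1 {i j : ℕ} (h : i ≠ j) : (1 : ℝ) ≤ ((i : ℝ) - j) ^ 2 := by
  have : (1 : ℤ) ≤ ((i : ℤ) - j) ^ 2 := by
    have : (i : ℤ) - j ≠ 0 := by omega
    have := pow_pos (abs_pos.2 this) 2
    rw [sq_abs] at this; omega
  exact_mod_cast this

lemma expose {m : ℕ} {d h : ℝ} (H : Par m d h) {j : ℕ} (hj : j ≤ m) : ∃ u : E, u ≠ 0 ∧
    (∀ i ≤ m, i ≠ j → inner ℝ u (c h i) < inner ℝ u (w d j)) ∧
    (∀ i ≤ m, i ≠ j → inner ℝ u (w d i) < inner ℝ u (w d j)) ∧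
    inner ℝ u (w d j) < inner ℝ u (c h j) := by
  have d0 := H.d0
  have d2 := H.d2
  by_cases j0 : j = 0
  · subst j0
    have q : ∀ x, Q !₂[0, 0, -1] x = -1 := fun x => by simp [Q]
    refine ⟨!₂[0, 0, -1], fun e => by simpa using congrArg (fun v : E => v 2) e,
      fun i hi h0 => ?_, fun i hi h0 => ?_, ?_⟩ <;>
      simp only [ip_c, ip_w, q, sg0]
    · rw [sg1 h0]; linarith [H.lam hi]
    · rw [sg1 h0]; linarith
    · linarith
  · have q : ∀ x, Q !₂[2 * j, -1, 1 / 2 - j ^ 2] x = 1 / 2 - (x - j) ^ 2 := fun x => by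
      simp [Q]; ring
    have j1 : (1 : ℝ) ≤ j := by exact_mod_cast Nat.one_le_iff_ne_zero.2 j0
    have j2 : (j : ℝ) ≤ m := by exact_mod_cast hj
    have m3 : (3 : ℝ) ≤ m := by exact_mod_cast H.m3
    have b : (1 - j : ℝ) ^ 2 + (2 - j) ^ 2 + (3 - j) ^ 2 ≤ 3 * m ^ 2 := by nlinarith
    have b' := mul_le_mul_of_nonneg_left b d0.le
    have d1 := H.d1
    refine ⟨!₂[2 * j, -1, 1 / 2 - j ^ 2], fun e => by simpa using congrArg (fun v : E => v 1) e,
      fun i hi h0 => ?_, fun i hi h0 => ?_, ?_⟩ <;>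
      simp only [ip_c, ip_w, q, sg1 j0, sub_self]
    · have : (1 - h * i ^ 3)⁻¹ * (sg i * (1 / 2 - ((i : ℝ) - j) ^ 2)) ≤ 0 := by
        refine mul_nonpos_of_nonneg_of_nonpos (by linarith [H.lam hi]) ?_
        refine mul_nonpos_of_nonneg_of_nonpos (by unfold sg; split_ifs <;> norm_num) ?_
        linarith [sq1 h0]
      nlinarith
    · have : sg i * (1 / 2 - ((i : ℝ) - j) ^ 2) ≤ 0 := by
        refine mul_nonpos_of_nonneg_of_nonpos (by unfold sg; split_ifs <;> norm_num) ?_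
        linarith [sq1 h0]
      nlinarith
    · nlinarith [H.lam hj, mul_nonneg d0.le (sq_nonneg (1 - j : ℝ)),
        mul_nonneg d0.le (sq_nonneg (2 - j : ℝ)), mul_nonneg d0.le (sq_nonneg (3 - j : ℝ))]

lemma sepc {m : ℕ} {d h : ℝ} (H : Par m d h) {i j : ℕ} (hi : i ≤ m) (hj : j ≤ m) : ∃ u : E,
    ∀ l, inner ℝ u (c h i) < inner ℝ u (w d l) ∧ inner ℝ u (c h j) < inner ℝ u (w d l) := by
  have d0 := H.d0
  have d2 := H.d2
  have one : ∀ k : ℕ, ∃ u : E, inner ℝ u (c h 0) = 0 ∧ inner ℝ u (c h k) = 0 ∧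
      ∀ l, 0 < inner ℝ u (w d l) := by
    intro k
    have q : ∀ x, Q !₂[-2 * k, 1, k ^ 2] x = (x - k) ^ 2 := fun x => by simp [Q]; ring
    refine ⟨!₂[-2 * k, 1, k ^ 2], by simp [ip_c, sg0], by simp only [ip_c, q]; simp, fun l => ?_⟩
    simp only [ip_w, q]
    have : 0 ≤ sg l * ((l : ℝ) - k) ^ 2 :=
      mul_nonneg (by unfold sg; split_ifs <;> norm_num) (sq_nonneg _)
    have a : 0 < ((1 - k : ℝ) ^ 2 + (2 - k) ^ 2 + (3 - k) ^ 2) / 4 := by
      nlinarith [sq_nonneg (2 - k : ℝ)]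
    have := mul_pos d0 a
    nlinarith
  by_cases i0 : i = 0
  · obtain ⟨u, a, b, e⟩ := one j
    exact ⟨u, fun l => by rw [i0, a, b]; exact ⟨e l, e l⟩⟩
  by_cases j0 : j = 0
  · obtain ⟨u, a, b, e⟩ := one i
    exact ⟨u, fun l => by rw [j0, a, b]; exact ⟨e l, e l⟩⟩
  have q : ∀ x, Q !₂[0, 0, -1] x = -1 := fun x => by simp [Q]
  refine ⟨!₂[0, 0, -1], fun l => ?_⟩
  simp only [ip_c, ip_w, q, sg1 i0, sg1 j0]
  have : sg l ≤ 1 := by unfold sg; split_ifs <;> norm_num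
  constructor <;> nlinarith [H.lam hi, H.lam hj]

lemma quad3 {A B C a b c : ℝ} (h1 : a ≠ b) (h2 : a ≠ c) (h3 : b ≠ c)
    (e1 : A * a ^ 2 + B * a + C = 0) (e2 : A * b ^ 2 + B * b + C = 0)
    (e3 : A * c ^ 2 + B * c + C = 0) : A = 0 ∧ B = 0 ∧ C = 0 := by
  have f1 : A * (a + b) + B = 0 :=
    mul_left_cancel₀ (sub_ne_zero.2 h1) (by linear_combination e1 - e2)
  have f2 : A * (a + c) + B = 0 :=
    mul_left_cancel₀ (sub_ne_zero.2 h2) (by linear_combination e1 - e3)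
  have f3 : A = 0 := mul_left_cancel₀ (sub_ne_zero.2 h3) (by linear_combination f1 - f2)
  have f4 : B = 0 := by rw [f3] at f1; linarith
  exact ⟨f3, f4, by rw [f3, f4] at e1; linarith⟩

lemma vec0 {u : E} (h0 : u 0 = 0) (h1 : u 1 = 0) (h2 : u 2 = 0) : u = 0 := by
  ext i; fin_cases i <;> simpa

lemma on_c {m : ℕ} {d h t : ℝ} (H : Par m d h) {u : E} {j : ℕ} (hj : j ≤ m) (j0 : j ≠ 0)
    (e : inner ℝ u (c h j) = t) : Q u j = t * (1 - h * j ^ 3) := by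
  rw [ip_c, sg1 j0, one_mul] at e
  have := (H.den hj).1.ne'
  rw [← e]; field_simp

lemma cub {h t a b c : ℝ} {u : E} (h1 : a ≠ b) (h2 : a ≠ c) (h3 : b ≠ c)
    (e1 : Q u a = t * (1 - h * a ^ 3)) (e2 : Q u b = t * (1 - h * b ^ 3))
    (e3 : Q u c = t * (1 - h * c ^ 3)) (hu : u ≠ 0) :
    t ≠ 0 ∧ ∀ x, Q u x = t * (1 + h * ((x - a) * (x - b) * (x - c) - x ^ 3)) := by
  unfold Q at *
  obtain ⟨f1, f2, f3⟩ := quad3 (A := u 1 + t * h * (a + b + c))
    (B := u 0 - t * h * (a * b + b * c + c * a)) (C := u 2 - t + t * h * (a * b * c)) h1 h2 h3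
    (by linear_combination e1) (by linear_combination e2) (by linear_combination e3)
  refine ⟨?_, fun x => by linear_combination x ^ 2 * f1 + x * f2 + f3⟩
  rintro rfl
  exact hu (vec0 (by linarith) (by linarith) (by linarith))

lemma nd4 {m : ℕ} {d h t : ℝ} (H : Par m d h) {u : E} (hu : u ≠ 0) {a b k l : ℕ} (ha : a ≤ m)
    (hb : b ≤ m) (hk : k ≤ m) (hl : l ≤ m) (a0 : a ≠ 0) (b0 : b ≠ 0) (k0 : k ≠ 0) (ab : a ≠ b)
    (ak : a ≠ k) (bk : b ≠ k) (la : l ≠ a) (lb : l ≠ b) (lk : l ≠ k)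
    (e1 : inner ℝ u (c h a) = t) (e2 : inner ℝ u (c h b) = t) (e3 : inner ℝ u (c h k) = t)
    (e4 : inner ℝ u (c h l) = t) : False := by
  obtain ⟨t0, q⟩ := cub (Nat.cast_injective.ne ab) (Nat.cast_injective.ne ak)
    (Nat.cast_injective.ne bk) (on_c H ha a0 e1) (on_c H hb b0 e2) (on_c H hk k0 e3) hu
  by_cases l0 : l = 0
  · rw [l0, ip_c, sg0] at e4
    exact t0 (by linarith)
  have := on_c H hl l0 e4
  rw [q] at this
  have z : t * h * (((l : ℝ) - a) * (l - b) * (l - k)) = 0 := by linear_combination this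
  exact mul_ne_zero (mul_ne_zero t0 H.h0.ne') (mul_ne_zero (mul_ne_zero
    (sub_ne_zero.2 (Nat.cast_injective.ne la)) (sub_ne_zero.2 (Nat.cast_injective.ne lb)))
    (sub_ne_zero.2 (Nat.cast_injective.ne lk))) z

lemma nd3 {m : ℕ} {d h t : ℝ} (H : Par m d h) {u : E} (hu : u ≠ 0) {a b k l : ℕ} (ha : a ≤ m)
    (hb : b ≤ m) (hk : k ≤ m) (hl : l ≤ m) (a0 : a ≠ 0) (b0 : b ≠ 0) (k0 : k ≠ 0) (ab : a ≠ b)
    (ak : a ≠ k) (bk : b ≠ k)
    (e1 : inner ℝ u (c h a) = t) (e2 : inner ℝ u (c h b) = t) (e3 : inner ℝ u (c h k) = t)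
    (e4 : inner ℝ u (w d l) = t) : False := by
  obtain ⟨t0, q⟩ := cub (Nat.cast_injective.ne ab) (Nat.cast_injective.ne ak)
    (Nat.cast_injective.ne bk) (on_c H ha a0 e1) (on_c H hb b0 e2) (on_c H hk k0 e3) hu
  have bd : ∀ x : ℕ, x ≤ m → h * (((x : ℝ) - a) * (x - b) * (x - k) - x ^ 3) < d / 4 := by
    intro x hx
    have s : ∀ y : ℕ, y ≤ m → |(x : ℝ) - y| ≤ m := by
      intro y hy
      have a1 : (x : ℝ) ≤ m := by exact_mod_cast hx
      have a2 : (y : ℝ) ≤ m := by exact_mod_cast hy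
      have a3 : (0 : ℝ) ≤ x := by positivity
      have a4 : (0 : ℝ) ≤ y := by positivity
      exact abs_le.2 ⟨by linarith, by linarith⟩
    have : ((x : ℝ) - a) * (x - b) * (x - k) ≤ m * m * m := by
      refine (le_abs_self _).trans ?_
      rw [abs_mul, abs_mul]
      have := s a ha
      have := s b hb
      have := s k hk
      gcongr
    have p : (0 : ℝ) ≤ x ^ 3 := by positivity
    nlinarith [H.h1, H.h0]
  have m3 := H.m3
  have b1 := bd 1 (by omega)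
  have b2 := bd 2 (by omega)
  have b3 := bd 3 (by omega)
  have b4 := bd l hl
  push_cast at b1 b2 b3
  rw [ip_w, q, q, q, q] at e4
  generalize h * (((l : ℝ) - a) * (l - b) * (l - k) - l ^ 3) = y4 at *
  generalize h * (((1 : ℝ) - a) * (1 - b) * (1 - k) - 1 ^ 3) = y1 at *
  generalize h * (((2 : ℝ) - a) * (2 - b) * (2 - k) - 2 ^ 3) = y2 at *
  generalize h * (((3 : ℝ) - a) * (3 - b) * (3 - k) - 3 ^ 3) = y3 at *
  have e5 : (1 - d) * (sg l * (1 + y4)) + d * ((3 + y1 + y2 + y3) / 4) = 1 :=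
    mul_left_cancel₀ t0 (by linear_combination e4)
  have d0 := H.d0
  have d2 := H.d2
  have : sg l * (1 + y4) ≤ 1 + d / 4 := by unfold sg; split_ifs <;> linarith
  nlinarith [mul_le_mul_of_nonneg_left this (show 0 ≤ 1 - d by linarith),
    mul_lt_mul_of_pos_left (show y1 + y2 + y3 < 3 * (d / 4) by linarith) d0]

lemma nd2' {m : ℕ} {d h : ℝ} (H : Par m d h) (X : ℕ → ℤ) (hX : ∀ x ≤ m, |X x| ≤ m ^ 2)
    (h3 : ¬ (X 1 = 0 ∧ X 2 = 0 ∧ X 3 = 0))
    (hp : ∀ x ≤ m, 0 ≤ (1 - d) * (sg x * X x) + d * ((X 1 + X 2 + X 3) / 4)) :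
    ∀ x ≤ m, 0 < (1 - d) * (sg x * X x) + d * ((X 1 + X 2 + X 3) / 4) := by
  have d0 := H.d0
  have d1 := H.d1
  have d2 := H.d2
  have m3 := H.m3
  have r : ∀ x ≤ m, (X x : ℝ) ≤ m ^ 2 := fun x hx => by
    exact_mod_cast (le_abs_self _).trans (hX x hx)
  have nn : ∀ x ≤ m, x ≠ 0 → 0 ≤ X x := by
    intro x hx x0
    by_contra hc
    have : (X x : ℝ) ≤ -1 := by exact_mod_cast (by omega : X x ≤ -1)
    have a := hp x hx
    rw [sg1 x0] at a
    have b : ((X 1 : ℝ) + X 2 + X 3) / 4 ≤ m ^ 2 := by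
      nlinarith [r 1 (by omega), r 2 (by omega), r 3 (by omega), sq_nonneg (m : ℝ)]
    nlinarith [mul_le_mul_of_nonneg_left b d0.le]
  have s : (0 : ℝ) < X 1 + X 2 + X 3 := by
    have := nn 1 (by omega) (by omega)
    have := nn 2 (by omega) (by omega)
    have := nn 3 (by omega) (by omega)
    exact_mod_cast (by omega : 0 < X 1 + X 2 + X 3)
  intro x hx
  have : 0 ≤ sg x * X x := by
    by_cases x0 : x = 0
    · rw [x0, sg0]; simp
    · rw [sg1 x0, one_mul]; exact_mod_cast nn x hx x0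
  nlinarith [mul_pos d0 s]

lemma nd2 {m : ℕ} {d h t : ℝ} (H : Par m d h) {u : E} (hu : u ≠ 0) {a b l : ℕ} (ha : a ≤ m)
    (hb : b ≤ m) (hl : l ≤ m) (a0 : a ≠ 0) (b0 : b ≠ 0) (ab : a ≠ b)
    (e0 : inner ℝ u (c h 0) = t) (e1 : inner ℝ u (c h a) = t) (e2 : inner ℝ u (c h b) = t)
    (e4 : inner ℝ u (w d l) = t)
    (e5 : (∀ x ≤ m, inner ℝ u (w d x) ≤ t) ∨ (∀ x ≤ m, t ≤ inner ℝ u (w d x))) : False := by
  have t0 : t = 0 := by rw [← e0, ip_c, sg0]; simp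
  subst t0
  have f1 := on_c H ha a0 e1
  have f2 := on_c H hb b0 e2
  have ab' : (a : ℝ) - b ≠ 0 := sub_ne_zero.2 (Nat.cast_injective.ne ab)
  have g1 : u 0 + u 1 * (a + b) = 0 :=
    mul_left_cancel₀ ab' (by unfold Q at f1 f2; linear_combination f1 - f2)
  have q : ∀ x, Q u x = u 1 * ((x - a) * (x - b)) := fun x => by
    unfold Q at *; linear_combination f1 + (x - a) * g1
  have u1 : u 1 ≠ 0 := fun e => hu (vec0 (by rw [e] at g1; linarith) e (by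
    have := q 0
    rw [e] at this; unfold Q at this; linarith))
  have v : ∀ (s : ℤ) (x : ℕ), s * inner ℝ u (w d x) = u 1 * ((1 - d) * (sg x *
      ((s * (((x : ℤ) - a) * (x - b)) : ℤ) : ℝ)) + d * ((((s * ((((1 : ℕ) : ℤ) - a) *
      ((1 : ℕ) - b)) : ℤ) : ℝ) + ((s * ((((2 : ℕ) : ℤ) - a) * ((2 : ℕ) - b)) : ℤ) : ℝ) +
      ((s * ((((3 : ℕ) : ℤ) - a) * ((3 : ℕ) - b)) : ℤ) : ℝ)) / 4)) := by
    intro s x
    rw [ip_w, q, q, q, q]; push_cast; ring
  have fin : ∀ s : ℤ, |s| = 1 → (∀ x ≤ m, 0 ≤ u 1 * (s * inner ℝ u (w d x))) → False := by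
    intro s hs hp
    have s0 : s ≠ 0 := by rintro rfl; simp at hs
    have := nd2' H (fun x => s * (((x : ℤ) - a) * (x - b))) (fun x hx => by
      rw [abs_mul, hs, one_mul, abs_mul, sq]
      exact mul_le_mul (abs_le.2 ⟨by omega, by omega⟩) (abs_le.2 ⟨by omega, by omega⟩)
        (abs_nonneg _) (by positivity)) (by
      simp only [mul_eq_zero, s0, false_or]
      omega) (fun x hx => by
      have := hp x hx
      rw [v, ← mul_assoc] at this
      exact nonneg_of_mul_nonneg_right this (mul_self_pos.2 u1) |> fun h => h) l hl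
    have e := v s l
    rw [e4, mul_zero] at e
    exact mul_ne_zero u1 this.ne' e.symm
  rcases e5 with e5 | e5 <;> rcases lt_or_gt_of_ne u1 with p | p
  · exact fin 1 (by norm_num) fun x hx => by push_cast; nlinarith [e5 x hx]
  · exact fin (-1) (by norm_num) fun x hx => by push_cast; nlinarith [e5 x hx]
  · exact fin (-1) (by norm_num) fun x hx => by push_cast; nlinarith [e5 x hx]
  · exact fin 1 (by norm_num) fun x hx => by push_cast; nlinarith [e5 x hx]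

lemma w_int {m : ℕ} {d h : ℝ} (H : Par m d h) {l : ℕ} (hl : l ≤ m) :
    w d l ∈ interior (convexHull ℝ (c h '' {j | j ≤ m})) := by
  set K := convexHull ℝ (c h '' {j | j ≤ m})
  have cv : Convex ℝ K := convex_convexHull _ _
  have mc : ∀ j ≤ m, c h j ∈ K := fun j hj => subset_convexHull ℝ _ ⟨j, hj, rfl⟩
  have z : (0 : E) ∈ K := by
    have : c h 0 = 0 := by
      apply vec0 <;> simp [c, P, sg0]
    exact this ▸ mc 0 (by omega)
  have mp : ∀ j ≤ m, P j ∈ K := by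
    intro j hj
    obtain ⟨a, b⟩ := H.den hj
    have := cv (mc j hj) z a.le (show 0 ≤ h * (j : ℝ) ^ 3 by linarith) (by ring)
    rwa [smul_zero, add_zero, c, smul_inv_smul₀ a.ne'] at this
  have m3 := H.m3
  have gi : g ∈ interior K := by
    have ho : IsOpen {x : E | 0 < x 1 - 5 * x 0 + 6 * x 2 ∧ 0 < -(x 1 - 4 * x 0 + 3 * x 2) ∧
        0 < x 1 - 3 * x 0 + 2 * x 2 ∧ 0 < 1 - x 2} := by
      have o : ∀ f : E → ℝ, Continuous f → IsOpen {x | 0 < f x} := fun f hf =>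
        isOpen_lt continuous_const hf
      exact (o _ (by fun_prop)).inter ((o _ (by fun_prop)).inter ((o _ (by fun_prop)).inter
        (o _ (by fun_prop))))
    refine interior_maximal ?_ ho (by simp [g]; norm_num)
    rintro x ⟨h1, h2, h3, h4⟩
    have := cv.sum_mem (t := (univ : Finset (Fin 4)))
      (w := ![(x 1 - 5 * x 0 + 6 * x 2) / 2, -(x 1 - 4 * x 0 + 3 * x 2),
        (x 1 - 3 * x 0 + 2 * x 2) / 2, 1 - x 2]) (z := ![P 1, P 2, P 3, 0])
      (by intro i _; fin_cases i <;> simp <;> linarith)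
      (by simp [Fin.sum_univ_four]; ring)
      (by
        intro i _; fin_cases i
        exacts [mp 1 (by omega), mp 2 (by omega), mp 3 (by omega), z])
    convert this using 1
    ext i
    fin_cases i <;> simp [Fin.sum_univ_four, P, sg] <;> ring
  rw [w, add_comm]
  exact cv.combo_interior_self_mem_interior gi (mp l hl) H.d0 (by linarith [H.d2]) (by ring)

open Classical in
noncomputable def S (m : ℕ) (d h : ℝ) : Option (Fin (m + 1)) → Finset E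
  | none => univ.image (fun j : Fin (m + 1) => w d j)
  | some j => {c h j}

lemma le' {m : ℕ} (j : Fin (m + 1)) : (j : ℕ) ≤ m := Nat.lt_succ_iff.1 j.2

lemma mem_none {m : ℕ} {d h : ℝ} {y : E} : y ∈ S m d h none ↔ ∃ j ≤ m, w d j = y := by
  simp only [S, mem_image, mem_univ, true_and]
  exact ⟨fun ⟨j, hj⟩ => ⟨j, le' j, hj⟩, fun ⟨j, h1, h2⟩ => ⟨⟨j, by omega⟩, h2⟩⟩

lemma mem_some {m : ℕ} {d h : ℝ} {y : E} {j : Fin (m + 1)} : y ∈ S m d h (some j) ↔ y = c h j := by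
  simp [S]

lemma S_ne (m : ℕ) (d h : ℝ) (i : Option (Fin (m + 1))) : (S m d h i).Nonempty := by
  cases i with
  | none => exact ⟨_, mem_none.2 ⟨0, by omega, rfl⟩⟩
  | some j => exact ⟨_, mem_some.2 rfl⟩

lemma top {m : ℕ} {d h : ℝ} (H : Par m d h) (j : Fin (m + 1)) : ∃ u : E, u ≠ 0 ∧
    ∀ i, i ≠ some j → ∀ y ∈ S m d h i, inner ℝ u y < inner ℝ u (c h j) := by
  obtain ⟨u, u0, h1, h2, h3⟩ := expose H (le' j)
  refine ⟨u, u0, fun i hi y hy => ?_⟩
  cases i with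
  | none =>
    obtain ⟨l, hl, rfl⟩ := mem_none.1 hy
    by_cases e : l = j
    · rw [e]; exact h3
    · exact (h2 l hl e).trans h3
  | some l =>
    rw [mem_some.1 hy]
    exact (h1 l (le' l) fun e => hi (by rw [Fin.ext e])).trans h3

lemma sep0 {m : ℕ} {d h : ℝ} (H : Par m d h) (A B C : Option (Fin (m + 1))) (h1 : A ≠ C)
    (h2 : B ≠ C) : ∃ u : E, ∀ x, (x ∈ S m d h A ∨ x ∈ S m d h B) → ∀ y ∈ S m d h C,
      inner ℝ u x < inner ℝ u y := by
  cases C with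
  | some j =>
    obtain ⟨u, -, hu⟩ := top H j
    refine ⟨u, fun x hx y hy => ?_⟩
    rw [mem_some.1 hy]
    exact hx.elim (hu A h1 x) (hu B h2 x)
  | none =>
    obtain ⟨i, rfl⟩ := Option.ne_none_iff_exists'.1 h1
    obtain ⟨j, rfl⟩ := Option.ne_none_iff_exists'.1 h2
    obtain ⟨u, hu⟩ := sepc H (le' i) (le' j)
    refine ⟨u, fun x hx y hy => ?_⟩
    obtain ⟨l, -, rfl⟩ := mem_none.1 hy
    rcases hx with hx | hx <;> rw [mem_some.1 hx]
    exacts [(hu l).1, (hu l).2]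

lemma pos0 {m : ℕ} {d h : ℝ} (H : Par m d h) (k i : Option (Fin (m + 1))) (hk : i ≠ k) :
    ∃ v ∈ S m d h i, ∃ u : E, u ≠ 0 ∧ ∀ j, j ≠ k → ∀ y ∈ S m d h j, y ≠ v →
      inner ℝ u y < inner ℝ u v := by
  cases i with
  | some j =>
    obtain ⟨u, u0, hu⟩ := top H j
    refine ⟨_, mem_some.2 rfl, u, u0, fun l _ y hy hne => hu l ?_ y hy⟩
    rintro rfl
    exact hne (mem_some.1 hy)
  | none =>
    obtain ⟨j, rfl⟩ := Option.ne_none_iff_exists'.1 hk.symm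
    obtain ⟨u, u0, h1, h2, -⟩ := expose H (le' j)
    refine ⟨_, mem_none.2 ⟨j, le' j, rfl⟩, u, u0, fun l hl y hy hne => ?_⟩
    cases l with
    | none =>
      obtain ⟨l, hl, rfl⟩ := mem_none.1 hy
      exact h2 l hl fun e => hne (by rw [e])
    | some l =>
      rw [mem_some.1 hy]
      exact h1 l (le' l) fun e => hl (by rw [Fin.ext e])

lemma nd0 {m : ℕ} {d h : ℝ} (H : Par m d h) (F : Finset (Option (Fin (m + 1)))) (hF : F.card = 4)
    (u : E) (hu : u ≠ 0) (t : ℝ) : ¬ ∀ i ∈ F, Supp (S m d h i) u t := by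
  classical
  intro hs
  have hc : ∀ j, some j ∈ F → inner ℝ u (c h j) = t := by
    intro j hj
    obtain ⟨⟨x, hx, e⟩, -⟩ := hs _ hj
    rwa [mem_some.1 hx] at e
  have hn : none ∈ F → (∃ l ≤ m, inner ℝ u (w d l) = t) ∧
      ((∀ x ≤ m, inner ℝ u (w d x) ≤ t) ∨ (∀ x ≤ m, t ≤ inner ℝ u (w d x))) := by
    intro hj
    obtain ⟨⟨x, hx, e⟩, h2⟩ := hs _ hj
    obtain ⟨l, hl, rfl⟩ := mem_none.1 hx
    exact ⟨⟨l, hl, e⟩, h2.imp (fun a x hx => a _ (mem_none.2 ⟨x, hx, rfl⟩))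
      (fun a x hx => a _ (mem_none.2 ⟨x, hx, rfl⟩))⟩
  have ex : ∀ x ∈ (F.erase none).erase (some 0), ∃ a : Fin (m + 1), x = some a ∧ (a : ℕ) ≠ 0 ∧
      some a ∈ F := by
    intro x hx
    obtain ⟨h1, h2⟩ := mem_erase.1 hx
    obtain ⟨h3, h4⟩ := mem_erase.1 h2
    obtain ⟨a, rfl⟩ := Option.ne_none_iff_exists'.1 h3
    exact ⟨a, rfl, fun e => h1 (by rw [Fin.ext (a := a) (b := 0) e]), h4⟩
  have nv : ∀ {a b : Fin (m + 1)}, some a ≠ some b → (a : ℕ) ≠ b := fun h e => h (by rw [Fin.ext e])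
  by_cases h3 : 2 < ((F.erase none).erase (some 0)).card
  · obtain ⟨x, y, z, hx, hy, hz, xy, xz, yz⟩ := two_lt_card_iff.1 h3
    obtain ⟨a, rfl, a0, aF⟩ := ex x hx
    obtain ⟨b, rfl, b0, bF⟩ := ex y hy
    obtain ⟨k, rfl, k0, kF⟩ := ex z hz
    obtain ⟨x, xF, hx⟩ := exists_mem_notMem_of_card_lt_card (s := {some a, some b, some k}) (t := F)
      (lt_of_le_of_lt card_le_three (by omega))
    simp only [mem_insert, mem_singleton, not_or] at hx
    cases x with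
    | none =>
      obtain ⟨⟨l, hl, e⟩, -⟩ := hn xF
      exact nd3 H hu (le' a) (le' b) (le' k) hl a0 b0 k0 (nv xy) (nv xz) (nv yz) (hc a aF) (hc b bF)
        (hc k kF) e
    | some l =>
      exact nd4 H hu (le' a) (le' b) (le' k) (le' l) a0 b0 k0 (nv xy) (nv xz) (nv yz) (nv hx.1)
        (nv hx.2.1) (nv hx.2.2) (hc a aF) (hc b bF) (hc k kF) (hc l xF)
  · have c1 := pred_card_le_card_erase (s := F) (a := none)
    have c2 := pred_card_le_card_erase (s := F.erase none) (a := some 0)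
    have n1 : none ∈ F := by
      by_contra e
      rw [erase_eq_of_notMem e] at h3 c2
      omega
    have n2 : some 0 ∈ F.erase none := by
      by_contra e
      rw [erase_eq_of_notMem e] at h3
      omega
    obtain ⟨x, hx, y, hy, xy⟩ := one_lt_card.1 (show 1 < ((F.erase none).erase (some 0)).card by omega)
    obtain ⟨a, rfl, a0, aF⟩ := ex x hx
    obtain ⟨b, rfl, b0, bF⟩ := ex y hy
    obtain ⟨⟨l, hl, e⟩, e5⟩ := hn n1
    exact nd2 H hu (le' a) (le' b) hl a0 b0 (nv xy) (hc 0 (mem_of_mem_erase n2)) (hc a aF) (hc b bF)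
      e e5

lemma par (m : ℕ) (hm : 3 ≤ m) : ∃ d h, Par m d h := by
  have m0 : (0 : ℝ) < m := by exact_mod_cast (by omega : 0 < m)
  refine ⟨1 / (4 * m ^ 2), 1 / (4 * m ^ 2) / (8 * m ^ 3), hm, by positivity, le_of_eq ?_,
    by positivity, ?_⟩
  · field_simp
  · have : 1 / (4 * (m : ℝ) ^ 2) / (8 * m ^ 3) * m ^ 3 = 1 / (4 * m ^ 2) / 8 := by field_simp
    rw [this]
    have : 0 < 1 / (4 * (m : ℝ) ^ 2) := by positivity
    linarith

theorem main (n : ℕ) (hn : 5 ≤ n) : ∃ C : Fin n → Set E,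
    (∀ i, IsCompact (C i) ∧ Convex ℝ (C i) ∧ (interior (C i)).Nonempty) ∧
    (∀ i j l, i ≠ l → j ≠ l → ∃ u : E, u ≠ 0 ∧ ∃ t, (∀ x ∈ C i ∪ C j, inner ℝ u x < t) ∧
      ∀ y ∈ C l, t < inner ℝ u y) ∧
    (∀ F : Finset (Fin n), F.card = 4 → ∀ u : E, u ≠ 0 → ∀ t, ¬ ∀ i ∈ F, Supp (C i) u t) ∧
    (∀ F : Finset (Fin n), F.card < n → ∀ i ∈ F, ∃ O : Set E, IsOpen O ∧
      (O ∩ frontier (C i)).Nonempty ∧
      O ∩ frontier (C i) ⊆ frontier (convexHull ℝ (⋃ j ∈ F, C j))) ∧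
    ∃ i, ¬ ∃ O : Set E, IsOpen O ∧ (O ∩ frontier (C i)).Nonempty ∧
      O ∩ frontier (C i) ⊆ frontier (convexHull ℝ (⋃ j ∈ (univ : Finset (Fin n)), C j)) := by
  classical
  obtain ⟨m, rfl⟩ : ∃ m, n = m + 1 + 1 := ⟨n - 2, by omega⟩
  obtain ⟨d, h, H⟩ := par m (by omega)
  let e := finSuccEquiv (m + 1)
  let T : Fin (m + 1 + 1) → Finset E := fun i => S m d h (e i)
  have a1 : ∀ᶠ r in 𝓝[>] (0 : ℝ), ∀ i j l, i ≠ l → j ≠ l → ∃ u : E, u ≠ 0 ∧ ∃ t,
      (∀ x ∈ Th (T i) r ∪ Th (T j) r, inner ℝ u x < t) ∧ ∀ y ∈ Th (T l) r, t < inner ℝ u y := by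
    refine eventually_all.2 fun i => eventually_all.2 fun j => eventually_all.2 fun l => ?_
    by_cases il : i = l
    · exact Eventually.of_forall fun r h => (h il).elim
    by_cases jl : j = l
    · exact Eventually.of_forall fun r _ h => (h jl).elim
    obtain ⟨u, hu⟩ := sep0 H (e i) (e j) (e l) (e.injective.ne il) (e.injective.ne jl)
    refine (sep (T i ∪ T j) (T l) ((S_ne _ _ _ _).mono subset_union_left) (S_ne _ _ _ _) u
      fun x hx => hu x (mem_union.1 hx)).mono fun r ⟨u0, t, h1, h2⟩ _ _ => ⟨u, u0, t, ?_, h2⟩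
    rintro x (hx | hx)
    exacts [h1 _ subset_union_left x hx, h1 _ subset_union_right x hx]
  have a2 : ∀ᶠ r in 𝓝[>] (0 : ℝ), ∀ F : Finset (Fin (m + 1 + 1)), F.card = 4 →
      ∀ u : E, u ≠ 0 → ∀ t, ¬ ∀ i ∈ F, Supp (Th (T i) r) u t := by
    refine eventually_all.2 fun F => ?_
    by_cases hF : F.card = 4
    · refine (nondeg T (fun i => S_ne _ _ _ _) F (card_pos.1 (by omega)) fun u hu t hc =>
        nd0 H (F.map e.toEmbedding) (by rw [card_map, hF]) u hu t fun i hi => ?_).mono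
        fun r hr _ => hr
      obtain ⟨j, hj, rfl⟩ := mem_map.1 hi
      exact hc j hj
    · exact Eventually.of_forall fun r h => (hF h).elim
  obtain ⟨r, ⟨r1, r2⟩, r0⟩ := ((a1.and a2).and self_mem_nhdsWithin).exists
  have r0 : 0 < r := r0
  refine ⟨fun i => Th (T i) r, fun i => ⟨Th_compact _ _, Th_convex _ _, ?_⟩, r1, r2,
    fun F hF i hi => ?_, e.symm none, ?_⟩
  · obtain ⟨v, hv⟩ := S_ne m d h (e i)
    exact ⟨v, interior_maximal (ball_subset_closedBall.trans (ball_sub hv r)) isOpen_ball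
      (mem_ball_self r0)⟩
  · obtain ⟨k, -, hk⟩ := exists_mem_notMem_of_card_lt_card (s := F) (t := univ) (by simpa using hF)
    obtain ⟨v, hv, u, u0, hu⟩ := pos0 H (e k) (e i) (e.injective.ne fun c => hk (c ▸ hi))
    exact piece T r0 F i hi v hv u u0 fun j hj =>
      hu (e j) (e.injective.ne fun c => hk (c ▸ hj))
  · refine hidden T r _ (c h '' {j | j ≤ m}) ?_ fun v hv => ?_
    · rintro _ ⟨j, hj, rfl⟩
      refine ⟨e.symm (some ⟨j, Nat.lt_succ_iff.2 hj⟩), ?_⟩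
      simp only [T, Equiv.apply_symm_apply]
      exact mem_some.2 rfl
    · simp only [T, Equiv.apply_symm_apply] at hv
      obtain ⟨l, hl, rfl⟩ := mem_none.1 hv
      exact w_int H hl

end Pool.Agent.H9.Pyr
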