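import Mathlib

set_option autoImplicit false

open MeasureTheory Set

namespace Pool.Agent.H9.Sausage

abbrev X := Fin 3 → ℝ

def n1 (v : X) : ℝ := |v 0| + |v 1| + |v 2|

def K (u : X) : Set X := {z | ∃ t : ℝ, 0 ≤ t ∧ t ≤ 1 ∧ n1 (z - t • u) ≤ 1}

lemma vol_aff (M : Matrix (Fin 3) (Fin 3) ℝ) (p : X) (S : Set X) :
    volume ((fun w => p + M.mulVec w) '' S) = ENNReal.ofReal |M.det| * volume S := by
  have h : (fun w => p + M.mulVec w) '' S = (fun z => p + z) '' ((Matrix.toLin' M) '' S) := by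
    rw [Set.image_image]; simp
  rw [h, Set.image_add_left, measure_preimage_add, Measure.addHaar_image_linearMap,
    LinearMap.det_toLin']

def cube : Set X := Set.Icc 0 1

def prism : Set X := {w | 0 ≤ w 0 ∧ 0 ≤ w 1 ∧ w 0 + w 1 < 1 ∧ 0 ≤ w 2 ∧ w 2 ≤ 1}

lemma vol_cube : volume cube = 1 := by
  simp [cube, Real.volume_Icc_pi]

lemma vol_plane : volume {w : X | w 0 + w 1 = 1} = 0 := by
  let s : AffineSubspace ℝ X := ⟨{w | w 0 + w 1 = 1}, by
    intro c p1 p2 p3 h1 h2 h3
    simp only [mem_setOf_eq, vsub_eq_sub, vadd_eq_add, Pi.add_apply, Pi.smul_apply,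
      Pi.sub_apply, smul_eq_mul] at *
    have : c * (p1 0 - p2 0) + c * (p1 1 - p2 1) = 0 := by
      have : p1 0 - p2 0 + (p1 1 - p2 1) = 0 := by linarith
      rw [← mul_add, this, mul_zero]
    linarith⟩
  refine Measure.addHaar_affineSubspace volume s ?_
  intro h
  have : (0 : X) ∈ s := h ▸ AffineSubspace.mem_top ℝ _ _
  have h2 : (0 : X) 0 + (0 : X) 1 = 1 := this
  simp at h2

lemma vol_prism : 1 ≤ 2 * volume prism := by
  have h1 : cube ⊆ prism ∪ ((fun w => ![1, 1, 0] + (!![-1, 0, 0; 0, -1, 0; 0, 0, 1] :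
      Matrix (Fin 3) (Fin 3) ℝ).mulVec w) '' prism) ∪ {w : X | w 0 + w 1 = 1} := by
    intro w hw
    obtain ⟨h0, h1⟩ := hw
    have a0 := h0 0; have a1 := h0 1; have a2 := h0 2
    have b0 := h1 0; have b1 := h1 1; have b2 := h1 2
    simp only [Pi.zero_apply, Pi.one_apply] at a0 a1 a2 b0 b1 b2
    rcases lt_trichotomy (w 0 + w 1) 1 with h | h | h
    · left; left; exact ⟨a0, a1, h, a2, b2⟩
    · right; exact h
    · left; right
      refine ⟨![1 - w 0, 1 - w 1, w 2], ⟨by simp; linarith, by simp; linarith,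
        by simp; linarith, by simpa using a2, by simpa using b2⟩, ?_⟩
      ext i; fin_cases i <;> simp [Matrix.mulVec, dotProduct, Fin.sum_univ_three]
  have h2 := measure_mono (μ := volume) h1
  rw [vol_cube] at h2
  refine h2.trans ((measure_union_le _ _).trans ?_)
  rw [vol_plane, add_zero]
  refine (measure_union_le _ _).trans ?_
  rw [vol_aff]
  simp [Matrix.det_fin_three, two_mul]

lemma volK_norm (u : X) (h2 : 0 ≤ u 2) (h0 : u 2 ≤ u 0) (h1 : u 2 ≤ u 1)
    (hp : 0 < u 0 + u 1 + u 2) :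
    ENNReal.ofReal (u 0 + u 1 + u 2) ≤ volume (K u) := by
  set a := u 0 with ha
  set b := u 1 with hb
  set c := u 2 with hc
  have hab : 0 < a + b - c := by linarith
  let lam : X → ℝ := fun z => c * (z 0 + z 1) - (a + b) * z 2
  have hl : Continuous lam := by fun_prop
  have m1 : MeasurableSet {z | c < lam z} := (isOpen_lt continuous_const hl).measurableSet
  have m2 : MeasurableSet {z | lam z < -c} := (isOpen_lt hl continuous_const).measurableSet
  have e1 := measure_inter_add_diff (μ := volume) (K u) m1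
  have e2 := measure_inter_add_diff (μ := volume) (K u \ {z | c < lam z}) m2
  have F1 : (fun w => ![0, 0, -1] + (!![1, 0, a; 0, 1, b; 1, 1, c] :
      Matrix (Fin 3) (Fin 3) ℝ).mulVec w) '' prism ⊆ K u ∩ {z | c < lam z} := by
    rintro _ ⟨w, ⟨w0, w1, w01, w2, w3⟩, rfl⟩
    refine ⟨⟨w 2, w2, w3, ?_⟩, ?_⟩
    · simp only [n1, Pi.sub_apply, Pi.add_apply, Pi.smul_apply, smul_eq_mul]
      simp [Matrix.mulVec, dotProduct, Fin.sum_univ_three, ← ha, ← hb, ← hc]
      have q0 : w 0 + a * w 2 - w 2 * a = w 0 := by ring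
      have q1 : w 1 + b * w 2 - w 2 * b = w 1 := by ring
      have q2 : -1 + (w 0 + w 1 + c * w 2) - w 2 * c = -(1 - w 0 - w 1) := by ring
      rw [q0, q1, q2, abs_neg, abs_of_nonneg w0, abs_of_nonneg w1, abs_of_nonneg (by linarith)]
      linarith
    · simp only [lam, mem_setOf_eq, Pi.add_apply]
      simp [Matrix.mulVec, dotProduct, Fin.sum_univ_three]
      nlinarith [mul_pos hab (sub_pos.2 w01)]
  have F2 : (fun w => ![0, 0, 1] + (!![-1, 0, a; 0, -1, b; -1, -1, c] :
      Matrix (Fin 3) (Fin 3) ℝ).mulVec w) '' prism ⊆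
      (K u \ {z | c < lam z}) ∩ {z | lam z < -c} := by
    rintro _ ⟨w, ⟨w0, w1, w01, w2, w3⟩, rfl⟩
    have hh : lam (![0, 0, 1] + (!![-1, 0, a; 0, -1, b; -1, -1, c] :
      Matrix (Fin 3) (Fin 3) ℝ).mulVec w) < -c := by
      simp only [lam, Pi.add_apply]
      simp [Matrix.mulVec, dotProduct, Fin.sum_univ_three]
      nlinarith [mul_pos hab (sub_pos.2 w01)]
    refine ⟨⟨⟨w 2, w2, w3, ?_⟩, ?_⟩, hh⟩
    · simp only [n1, Pi.sub_apply, Pi.add_apply, Pi.smul_apply, smul_eq_mul]
      simp [Matrix.mulVec, dotProduct, Fin.sum_univ_three, ← ha, ← hb, ← hc]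
      have q0 : -w 0 + a * w 2 - w 2 * a = -w 0 := by ring
      have q1 : -w 1 + b * w 2 - w 2 * b = -w 1 := by ring
      have q2 : 1 + (-w 0 + -w 1 + c * w 2) - w 2 * c = (1 - w 0 - w 1) := by ring
      rw [q0, q1, q2, abs_neg, abs_neg, abs_of_nonneg w0, abs_of_nonneg w1,
        abs_of_nonneg (by linarith)]
      linarith
    · simp only [mem_setOf_eq, not_lt]; linarith
  have F3 : (fun w => ![-1, 0, 0] + (!![1, 1, a; 1, -1, b; 0, 0, c] :
      Matrix (Fin 3) (Fin 3) ℝ).mulVec w) '' cube ⊆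
      (K u \ {z | c < lam z}) \ {z | lam z < -c} := by
    rintro _ ⟨w, ⟨h0, h1⟩, rfl⟩
    have a0 := h0 0; have a1 := h0 1; have a2 := h0 2
    have b0 := h1 0; have b1 := h1 1; have b2 := h1 2
    simp only [Pi.zero_apply, Pi.one_apply] at a0 a1 a2 b0 b1 b2
    have hh : lam (![-1, 0, 0] + (!![1, 1, a; 1, -1, b; 0, 0, c] :
      Matrix (Fin 3) (Fin 3) ℝ).mulVec w) = c * (2 * w 0 - 1) := by
      simp only [lam, Pi.add_apply]
      simp [Matrix.mulVec, dotProduct, Fin.sum_univ_three]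
      ring
    refine ⟨⟨⟨w 2, a2, b2, ?_⟩, ?_⟩, ?_⟩
    · simp only [n1, Pi.sub_apply, Pi.add_apply, Pi.smul_apply, smul_eq_mul]
      simp [Matrix.mulVec, dotProduct, Fin.sum_univ_three, ← ha, ← hb, ← hc]
      have q0 : -1 + (w 0 + w 1 + a * w 2) - w 2 * a = w 0 + w 1 - 1 := by ring
      have q1 : w 0 + -w 1 + b * w 2 - w 2 * b = w 0 - w 1 := by ring
      have q2 : c * w 2 - w 2 * c = 0 := by ring
      rw [q0, q1, q2, abs_zero]
      rcases abs_cases (w 0 + w 1 - 1) with h | h <;> rcases abs_cases (w 0 - w 1) with g | g <;>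
        linarith
    · simp only [mem_setOf_eq, not_lt, hh]; nlinarith
    · simp only [mem_setOf_eq, not_lt, hh]; nlinarith
  have G1 := measure_mono (μ := volume) F1
  have G2 := measure_mono (μ := volume) F2
  have G3 := measure_mono (μ := volume) F3
  rw [vol_aff] at G1 G2 G3
  have d1 : |(!![1, 0, a; 0, 1, b; 1, 1, c] : Matrix (Fin 3) (Fin 3) ℝ).det| = a + b - c := by
    simp [Matrix.det_fin_three]
    rw [abs_of_neg (by linarith)]; ring
  have d2 : |(!![-1, 0, a; 0, -1, b; -1, -1, c] : Matrix (Fin 3) (Fin 3) ℝ).det| = a + b - c := by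
    simp [Matrix.det_fin_three]
    rw [abs_of_neg (by linarith)]; ring
  have d3 : |(!![1, 1, a; 1, -1, b; 0, 0, c] : Matrix (Fin 3) (Fin 3) ℝ).det| = 2 * c := by
    simp [Matrix.det_fin_three]
    rw [abs_of_nonpos (by linarith)]; ring
  rw [d1] at G1; rw [d2] at G2; rw [d3, vol_cube, mul_one] at G3
  rw [← e1, ← e2]
  calc ENNReal.ofReal (a + b + c) = ENNReal.ofReal (a + b - c) * 1 + ENNReal.ofReal (2 * c) := by
        rw [mul_one, ← ENNReal.ofReal_add hab.le (by linarith)]; congr 1; ring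
    _ ≤ ENNReal.ofReal (a + b - c) * (2 * volume prism) + ENNReal.ofReal (2 * c) := by
        gcongr; exact vol_prism
    _ = ENNReal.ofReal (a + b - c) * volume prism + (ENNReal.ofReal (a + b - c) * volume prism
          + ENNReal.ofReal (2 * c)) := by ring
    _ ≤ _ := by gcongr

lemma volK_tr (M : Matrix (Fin 3) (Fin 3) ℝ) (hd : |M.det| = 1)
    (hn : ∀ v, n1 (M.mulVec v) = n1 v) (u : X) : volume (K u) ≤ volume (K (M.mulVec u)) := by
  have h : (fun w => (0 : X) + M.mulVec w) '' K u ⊆ K (M.mulVec u) := by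
    rintro _ ⟨z, ⟨t, t0, t1, h⟩, rfl⟩
    refine ⟨t, t0, t1, ?_⟩
    rw [← hn] at h
    simpa [Matrix.mulVec_sub, Matrix.mulVec_smul] using h
  have := measure_mono (μ := volume) h
  rwa [vol_aff, hd, ENNReal.ofReal_one, one_mul] at this

lemma volK_pos (u : X) (h0 : 0 ≤ u 0) (h1 : 0 ≤ u 1) (h2 : 0 ≤ u 2)
    (hp : 0 < u 0 + u 1 + u 2) :
    ENNReal.ofReal (u 0 + u 1 + u 2) ≤ volume (K u) := by
  by_cases c2 : u 2 ≤ u 0 ∧ u 2 ≤ u 1
  · exact volK_norm u h2 c2.1 c2.2 hp
  by_cases c1 : u 1 ≤ u 0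
  · have c3 : u 1 ≤ u 2 := by
      by_contra h; push Not at h; exact c2 ⟨by linarith, by linarith⟩
    have := volK_norm ![u 0, u 2, u 1] (by simpa) (by simpa) (by simpa) (by simp; linarith)
    have h := volK_tr !![1, 0, 0; 0, 0, 1; 0, 1, 0] (by simp [Matrix.det_fin_three])
      (by intro v; simp [n1, Matrix.mulVec, dotProduct, Fin.sum_univ_three]; ring)
      ![u 0, u 2, u 1]
    have e : (!![1, 0, 0; 0, 0, 1; 0, 1, 0] : Matrix (Fin 3) (Fin 3) ℝ).mulVec
        ![u 0, u 2, u 1] = u := by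
      ext i; fin_cases i <;> simp [Matrix.mulVec, dotProduct, Fin.sum_univ_three]
    rw [e] at h
    refine le_trans (le_of_eq ?_) (this.trans h)
    congr 1; simp; ring
  · push Not at c1
    have c3 : u 0 ≤ u 2 := by
      by_contra h; push Not at h; exact c2 ⟨by linarith, by linarith⟩
    have := volK_norm ![u 2, u 1, u 0] (by simpa) (by simpa) (by simpa using c1.le)
      (by simp; linarith)
    have h := volK_tr !![0, 0, 1; 0, 1, 0; 1, 0, 0] (by simp [Matrix.det_fin_three])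
      (by intro v; simp [n1, Matrix.mulVec, dotProduct, Fin.sum_univ_three]; ring)
      ![u 2, u 1, u 0]
    have e : (!![0, 0, 1; 0, 1, 0; 1, 0, 0] : Matrix (Fin 3) (Fin 3) ℝ).mulVec
        ![u 2, u 1, u 0] = u := by
      ext i; fin_cases i <;> simp [Matrix.mulVec, dotProduct, Fin.sum_univ_three]
    rw [e] at h
    refine le_trans (le_of_eq ?_) (this.trans h)
    congr 1; simp; ring

lemma volK (u : X) (hp : 0 < n1 u) : ENNReal.ofReal (n1 u) ≤ volume (K u) := by
  let s : Fin 3 → ℝ := fun i => if 0 ≤ u i then 1 else -1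
  have hs : ∀ i, |s i| = 1 := by
    intro i; simp only [s]; split_ifs <;> simp
  have hs2 : ∀ i, s i * |u i| = u i := by
    intro i; simp only [s]; split_ifs with h
    · rw [abs_of_nonneg h, one_mul]
    · rw [abs_of_neg (not_le.1 h)]; ring
  have := volK_pos (fun i => |u i|) (abs_nonneg _) (abs_nonneg _) (abs_nonneg _) hp
  have h := volK_tr (Matrix.diagonal s) (by
      rw [Matrix.det_diagonal, Fin.prod_univ_three, abs_mul, abs_mul, hs, hs, hs]; norm_num)
      (by intro v; simp [n1, Matrix.mulVec_diagonal, abs_mul, hs]) (fun i => |u i|)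
  have e : (Matrix.diagonal s).mulVec (fun i => |u i|) = u := by
    ext i; simp [Matrix.mulVec_diagonal, hs2]
  rw [e] at h
  exact this.trans h

lemma vol_ball4 : volume {v : X | n1 v ≤ 4} = ENNReal.ofReal (256 / 3) := by
  have := volume_sum_rpow_le (Fin 3) (p := 1) le_rfl 4
  simp only [Real.rpow_one, div_one, Fin.sum_univ_three, Fintype.card_fin] at this
  have g2 : Real.Gamma (1 + 1) = 1 := by
    have := Real.Gamma_nat_eq_factorial 1
    simpa using this
  have g4 : Real.Gamma (((3 : ℕ) : ℝ) + 1) = 6 := by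
    have := Real.Gamma_nat_eq_factorial 3
    rw [this]; norm_num [Nat.factorial]
  rw [g2, g4] at this
  simp only [n1]
  rw [this, ← ENNReal.ofReal_pow (by norm_num), ← ENNReal.ofReal_mul (by norm_num)]
  norm_num

lemma spread (n : ℕ) (δ : ℝ) (S : Finset ℝ) (hS : S.card = n + 1)
    (h : ∀ a ∈ S, ∀ b ∈ S, a ≠ b → δ ≤ |a - b|) :
    ∃ a ∈ S, ∃ b ∈ S, n * δ ≤ b - a := by
  induction n generalizing S with
  | zero =>
    obtain ⟨a, ha⟩ := Finset.card_pos.1 (by omega : 0 < S.card)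
    exact ⟨a, ha, a, ha, by simp⟩
  | succ n ih =>
    have hne : S.Nonempty := Finset.card_pos.1 (by omega)
    set m := S.max' hne with hm
    have hmS : m ∈ S := S.max'_mem hne
    obtain ⟨a, ha, b, hb, hab⟩ := ih (S.erase m) (by rw [Finset.card_erase_of_mem hmS]; omega)
      (fun a ha b hb => h a (Finset.mem_of_mem_erase ha) b (Finset.mem_of_mem_erase hb))
    have hbm : b ≤ m := S.le_max' b (Finset.mem_of_mem_erase hb)
    have := h m hmS b (Finset.mem_of_mem_erase hb) (Finset.ne_of_mem_erase hb).symm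
    rw [abs_of_nonneg (by linarith)] at this
    refine ⟨a, Finset.mem_of_mem_erase ha, m, hmS, ?_⟩
    push_cast; linarith

end Pool.Agent.H9.Sausage
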