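import Mathlib

set_option autoImplicit false

namespace Pool.Agent.H9.Sey

/-- A loopless digraph on `V` (arc relation `E`) in which every node has in- and outdegree `k`. -/
def Diregular {V : Type} (E : V → V → Prop) (k : ℕ) : Prop :=
  (∀ v, ¬ E v v) ∧ ∀ v, {u | E v u}.ncard = k ∧ {u | E u v}.ncard = k

/-- `v, l₁, …, lₘ, v` (with `m ≥ 1` and no repeated node) is a directed cycle through `v`. -/
def Cyc {V : Type} (E : V → V → Prop) (v : V) (l : List V) : Prop :=
  l ≠ [] ∧ (v :: l).Nodup ∧ List.IsChain E (v :: l ++ [v])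

/-- Property (S): every nonempty finite `k`-diregular digraph has a node `v` and `k` directed
cycles through `v` that pairwise share only `v`. -/
def PropS (k : ℕ) : Prop :=
  ∀ (V : Type) [Finite V] [Nonempty V] (E : V → V → Prop), Diregular E k →
    ∃ (v : V) (C : Fin k → List V), (∀ i, Cyc E v (C i)) ∧ ∀ i j, i ≠ j → (C i).Disjoint (C j)

end Pool.Agent.H9.Sey
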