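import Mathlib
import Pool.Agent.H9.SeyDef

set_option autoImplicit false

namespace Pool.Agent.H9.Sey

lemma hit {V : Type} {E : V → V → Prop} {v : V} {Z R : V → Prop}
    (h1 : ∀ u, R u → ∀ w, E u w → w ≠ v ∧ (R w ∨ Z w)) :
    ∀ (l : List V) (u : V), R u → List.IsChain E (u :: l ++ [v]) → ∃ z ∈ l, Z z := by
  intro l
  induction l with
  | nil => intro u hu h; exact absurd rfl (h1 u hu v (by simpa using h)).1
  | cons a l ih =>
    intro u hu h
    have h' : E u a ∧ List.IsChain E (a :: l ++ [v]) := by simpa using h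
    rcases (h1 u hu a h'.1).2 with r | z
    · obtain ⟨z, hz, e⟩ := ih a r h'.2
      exact ⟨z, by simp [hz], e⟩
    · exact ⟨a, by simp, z⟩

def bit (L : List ℕ) (v u : Fin 26) : Prop := (L.getD v 0).testBit u = true

instance (L : List ℕ) (v u : Fin 26) : Decidable (bit L v u) := by unfold bit; infer_instance

def O : List ℕ := [50333348, 50334040, 3538, 16778917, 50332556, 50333317, 1709, 33555802, 1645,
  2524, 50334034, 50331994, 1474595, 13125635, 3641344, 12394496, 15229440, 1349665, 16277504,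
  2609152, 15294464, 1546240, 2019328, 6316082, 12824576, 13316096]

def Z : List ℕ := [50332008, 50334852, 50331992, 50333316, 50333316, 50331977, 50333316, 50331992,
  50333316, 50331992, 50331992, 50333190, 51806208, 63455232, 51740672, 57163776, 57163776,
  51679232, 57163776, 51740672, 57163776, 51740672, 51740672, 56647680, 2611, 2611]

def R : List ℕ := [3734, 889, 3202, 33, 361, 3734, 41, 3074, 105, 3206, 2050, 505, 4095, 4095,
  2236415, 9777151, 8400895, 4095, 9515007, 2252799, 8466431, 139263, 2777087, 4095, 16773120,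
  16773120]

lemma c1 : ∀ v, ¬ bit O v v ∧ (Finset.univ.filter fun u => bit O v u).card = 7 ∧
    (Finset.univ.filter fun u => bit O u v).card = 7 ∧
    (Finset.univ.filter fun u => bit Z v u).card = 6 ∧ ∀ u, bit O v u → bit R v u ∨ bit Z v u := by
  decide +kernel

lemma c2 : ∀ v u, bit R v u → ∀ w, bit O u w → w ≠ v ∧ (bit R v w ∨ bit Z v w) := by
  decide +kernel

theorem main : ¬ PropS 7 := by
  intro h
  obtain ⟨v, C, hC, hd⟩ := h (Fin 26) (bit O) ⟨fun v => (c1 v).1, fun v =>
    ⟨by rw [← (c1 v).2.1, ← Set.ncard_coe_finset]; simp,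
      by rw [← (c1 v).2.2.1, ← Set.ncard_coe_finset]; simp⟩⟩
  have : ∀ i, ∃ z ∈ C i, bit Z v z := fun i => by
    obtain ⟨n, -, c⟩ := hC i
    obtain ⟨a, l, e⟩ := List.exists_cons_of_ne_nil n
    rw [e] at c ⊢
    have c' : bit O v a ∧ List.IsChain (bit O) (a :: l ++ [v]) := by simpa using c
    rcases (c1 v).2.2.2.2 a c'.1 with r | z
    · obtain ⟨z, hz, e⟩ := hit (c2 v) l a r c'.2
      exact ⟨z, by simp [hz], e⟩
    · exact ⟨a, by simp, z⟩
  choose z hz hZ using this
  have := Finset.card_le_card_of_injOn (s := Finset.univ)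
    (t := Finset.univ.filter fun u => bit Z v u) z (fun i _ => by simp [hZ i])
    fun i _ j _ e => by_contra fun n => hd i j n (hz i) (e ▸ hz j)
  rw [(c1 v).2.2.2.1] at this
  simp at this

end Pool.Agent.H9.Sey
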