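import Mathlib

set_option autoImplicit false

open Finset Module Real

namespace Pool.Agent.H9.Shrink

variable {E : Type*} [NormedAddCommGroup E] [InnerProductSpace ℝ E] [FiniteDimensional ℝ E]
  {k : ℕ}

noncomputable def cc (b : OrthonormalBasis (Fin 2 ⊕ Fin k) ℝ E) (e : Fin k → E) (u v : E) : ℂ :=
  ⟨inner ℝ u v - ∑ j, inner ℝ (e j) u * inner ℝ (e j) v, b.toBasis.det (Sum.elim ![u, v] e)⟩

lemma det_self (f : OrthonormalBasis (Fin 2 ⊕ Fin k) ℝ E) (u v : E) :
    f.toBasis.det (Sum.elim ![u, v] fun j => f (Sum.inr j)) =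
      inner ℝ (f (Sum.inl 0)) u * inner ℝ (f (Sum.inl 1)) v -
        inner ℝ (f (Sum.inl 1)) u * inner ℝ (f (Sum.inl 0)) v := by
  rw [Basis.det_apply]
  have : f.toBasis.toMatrix (Sum.elim ![u, v] fun j => f (Sum.inr j)) =
      Matrix.fromBlocks (Matrix.of fun i j => inner ℝ (f (Sum.inl i)) (![u, v] j)) 0
        (Matrix.of fun i j => inner ℝ (f (Sum.inr i)) (![u, v] j)) 1 := by
    ext (i | i) (j | j) <;>
      simp [Basis.toMatrix_apply, OrthonormalBasis.repr_apply_apply, Matrix.one_apply,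
        orthonormal_iff_ite.1 f.orthonormal]
  rw [this, Matrix.det_fromBlocks_zero₁₂, Matrix.det_fin_two]
  simp
  ring

lemma re_self (f : OrthonormalBasis (Fin 2 ⊕ Fin k) ℝ E) (u v : E) :
    inner ℝ u v - ∑ j, inner ℝ (f (Sum.inr j)) u * inner ℝ (f (Sum.inr j)) v =
      inner ℝ (f (Sum.inl 0)) u * inner ℝ (f (Sum.inl 0)) v +
        inner ℝ (f (Sum.inl 1)) u * inner ℝ (f (Sum.inl 1)) v := by
  rw [← f.sum_inner_mul_inner u v, Fintype.sum_sum_type, Fin.sum_univ_two]
  simp only [real_inner_comm (f _) u]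
  ring

lemma cc_factor (b : OrthonormalBasis (Fin 2 ⊕ Fin k) ℝ E) (e : Fin k → E)
    (he : Orthonormal ℝ e) : ∃ ζ : E → ℂ, ∀ u v, cc b e u v = (starRingEnd ℂ) (ζ u) * ζ v := by
  obtain ⟨f, hf⟩ := Orthonormal.exists_orthonormalBasis_extension_of_card_eq (𝕜 := ℝ) (E := E)
    (ι := Fin 2 ⊕ Fin k) (finrank_eq_card_basis b.toBasis) (v := Sum.elim (fun _ => 0) e)
    (s := Set.range Sum.inr) (by
      rw [orthonormal_iff_ite]
      rintro ⟨_, i, rfl⟩ ⟨_, j, rfl⟩
      simpa using orthonormal_iff_ite.1 he i j)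
  have he' : e = fun j => f (Sum.inr j) := by
    funext j; rw [hf _ ⟨j, rfl⟩]; rfl
  set ε := b.toBasis.det f with hε
  have hε2 : ε * ε = 1 := by
    rcases b.det_to_matrix_orthonormalBasis_real f with h | h <;> rw [hε, h] <;> norm_num
  refine ⟨fun u => ⟨inner ℝ (f (Sum.inl 0)) u, ε * inner ℝ (f (Sum.inl 1)) u⟩, fun u v => ?_⟩
  apply Complex.ext
  · simp only [cc, he', re_self]
    simp
    linear_combination (-(inner ℝ (f (Sum.inl 1)) u * inner ℝ (f (Sum.inl 1)) v)) * hε2
  · simp only [cc]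
    rw [AlternatingMap.eq_smul_basis_det f.toBasis b.toBasis.det]
    simp only [AlternatingMap.smul_apply, he', det_self, smul_eq_mul]
    simp [← hε]
    ring

lemma winding {n : ℕ} [NeZero n] (b : OrthonormalBasis (Fin 2 ⊕ Fin k) ℝ E)
    (e : Fin k → ℝ → E) (u : Fin n → ℝ → E)
    (ce : ∀ j, ContinuousOn (e j) (Set.Icc 0 1)) (cu : ∀ i, ContinuousOn (u i) (Set.Icc 0 1))
    (he : ∀ t ∈ Set.Icc (0 : ℝ) 1, Orthonormal ℝ fun j => e j t)
    (hp : ∀ t ∈ Set.Icc (0 : ℝ) 1, ∀ i, 0 < (cc b (fun j => e j t) (u i t) (u (i + 1) t)).re)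
    (h0 : ∑ i, Complex.arg (cc b (fun j => e j 0) (u i 0) (u (i + 1) 0)) = 2 * π)
    (h1 : ∑ i, Complex.arg (cc b (fun j => e j 1) (u i 1) (u (i + 1) 1)) = 0) : False := by
  let c : Fin n → ℝ → ℂ := fun i t => cc b (fun j => e j t) (u i t) (u (i + 1) t)
  have cc' : ∀ i, ContinuousOn (c i) (Set.Icc 0 1) := by
    intro i
    have : c i = fun t => ((c i t).re : ℂ) + (c i t).im * Complex.I := by
      funext t; simp
    rw [this]
    refine ContinuousOn.add (Complex.continuous_ofReal.comp_continuousOn ?_)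
      (ContinuousOn.mul (Complex.continuous_ofReal.comp_continuousOn ?_) continuousOn_const)
    · simp only [c, cc]
      exact (ContinuousOn.inner (𝕜 := ℝ) (cu i) (cu (i + 1))).sub (continuousOn_finset_sum _ fun j _ =>
        (ContinuousOn.inner (𝕜 := ℝ) (ce j) (cu i)).mul (ContinuousOn.inner (𝕜 := ℝ) (ce j) (cu (i + 1))))
    · simp only [c, cc, Basis.det_apply]
      refine (Continuous.matrix_det continuous_id).comp_continuousOn ?_
      refine continuousOn_pi.2 fun r => continuousOn_pi.2 fun s => ?_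
      simp only [Basis.toMatrix_apply, OrthonormalBasis.coe_toBasis_repr_apply,
        OrthonormalBasis.repr_apply_apply]
      refine ContinuousOn.inner (𝕜 := ℝ) continuousOn_const ?_
      rcases s with s | s
      · fin_cases s
        · exact cu i
        · exact cu (i + 1)
      · exact ce s
  have cW : ContinuousOn (fun t => ∑ i, Complex.arg (c i t)) (Set.Icc 0 1) := by
    refine continuousOn_finset_sum _ fun i _ t ht => ?_
    exact ContinuousAt.comp_continuousWithinAt (f := c i)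
      (Complex.continuousAt_arg (Or.inl (hp t ht i))) (cc' i t ht)
  obtain ⟨t, ht, hW⟩ := intermediate_value_Icc' zero_le_one cW (show π ∈ _ from by
    simp only [c, h0, h1, Set.mem_Icc]; constructor <;> linarith [pi_pos])
  obtain ⟨ζ, hζ⟩ := cc_factor b _ (he t ht)
  have p1 : ∏ i, c i t = ((∏ i, Complex.normSq (ζ (u i t)) : ℝ) : ℂ) := by
    simp only [c, hζ, prod_mul_distrib]
    rw [show ∏ x, ζ (u (x + 1) t) = ∏ x, ζ (u x t) from
      Equiv.prod_comp (Equiv.addRight (1 : Fin n)) (fun i => ζ (u i t)), ← prod_mul_distrib]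
    push_cast
    refine prod_congr rfl fun i _ => ?_
    rw [Complex.normSq_eq_conj_mul_self]
  have p2 : ∏ i, c i t = -((∏ i, ‖c i t‖ : ℝ) : ℂ) := by
    rw [prod_congr rfl fun i _ => (Complex.norm_mul_exp_arg_mul_I (c i t)).symm,
      prod_mul_distrib, ← Complex.exp_sum, ← sum_mul]
    have : ∑ i, (Complex.arg (c i t) : ℂ) = (π : ℂ) := by exact_mod_cast hW
    rw [this, Complex.exp_pi_mul_I]
    simp
  have p3 : 0 < ∏ i, ‖c i t‖ := prod_pos fun i _ => norm_pos_iff.2 fun h => by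
    have := hp t ht i
    change 0 < (c i t).re at this
    rw [h] at this; simp at this
  have p4 : 0 ≤ ∏ i, Complex.normSq (ζ (u i t)) := prod_nonneg fun i _ => Complex.normSq_nonneg _
  have p5 : (∏ i, Complex.normSq (ζ (u i t)) : ℝ) = -(∏ i, ‖c i t‖) := by
    have := p1.symm.trans p2
    exact_mod_cast this
  linarith

noncomputable def pol (b : OrthonormalBasis (Fin 2 ⊕ Fin k) ℝ E) (r θ : ℝ) : E :=
  (r * cos θ) • b (Sum.inl 0) + (r * sin θ) • b (Sum.inl 1)

lemma inner_pol (b : OrthonormalBasis (Fin 2 ⊕ Fin k) ℝ E) (r θ : ℝ) :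
    inner ℝ (b (Sum.inl 0)) (pol b r θ) = r * cos θ ∧
    inner ℝ (b (Sum.inl 1)) (pol b r θ) = r * sin θ ∧
    ∀ j, inner ℝ (b (Sum.inr j)) (pol b r θ) = 0 := by
  simp [pol, inner_add_right, inner_smul_right, orthonormal_iff_ite.1 b.orthonormal]

lemma inner_pol_pol (b : OrthonormalBasis (Fin 2 ⊕ Fin k) ℝ E) (r θ r' θ' : ℝ) :
    inner ℝ (pol b r θ) (pol b r' θ') = r * r' * cos (θ' - θ) := by
  have := re_self b (pol b r θ) (pol b r' θ')
  simp only [inner_pol, mul_zero, sum_const_zero, sub_zero] at this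
  rw [this, cos_sub]; ring

lemma cc_pol (b : OrthonormalBasis (Fin 2 ⊕ Fin k) ℝ E) (r θ θ' : ℝ) :
    cc b (fun j => b (Sum.inr j)) (pol b r θ) (pol b r θ') =
      ((r ^ 2 : ℝ) : ℂ) * (Complex.cos ((θ' - θ : ℝ) : ℂ) +
        Complex.sin ((θ' - θ : ℝ) : ℂ) * Complex.I) := by
  rw [← Complex.ofReal_cos, ← Complex.ofReal_sin]
  apply Complex.ext
  · simp only [cc, inner_pol, inner_pol_pol, Complex.re_ofReal_mul, Complex.add_re,
      Complex.ofReal_re, Complex.I_re, mul_zero, sum_const_zero]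
    ring
  · simp only [cc, det_self, inner_pol, Complex.im_ofReal_mul, Complex.add_im,
      Complex.ofReal_im, Complex.I_im, sin_sub]
    ring

lemma dist_pol (b : OrthonormalBasis (Fin 2 ⊕ Fin k) ℝ E) (r θ θ' : ℝ) (hr : 0 ≤ r) :
    dist (pol b r θ) (pol b r θ') = 2 * (r * |sin ((θ - θ') / 2)|) := by
  rw [dist_eq_norm, ← sq_eq_sq₀ (norm_nonneg _) (by positivity), ← real_inner_self_eq_norm_sq]
  simp only [inner_sub_left, inner_sub_right, inner_pol_pol, sub_self, cos_zero, mul_pow, sq_abs]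
  have h1 : cos (θ - θ') = 1 - 2 * sin ((θ - θ') / 2) ^ 2 := by
    have := cos_two_mul ((θ - θ') / 2)
    rw [cos_sq', show 2 * ((θ - θ') / 2) = θ - θ' by ring] at this
    linarith
  rw [show θ' - θ = -(θ - θ') by ring, cos_neg, h1]
  ring

lemma anti (g D : ℝ) (g0 : 0 < g) (g1 : g ≤ π / 2) (D0 : 0 ≤ D) (D1 : D ≤ π - g) :
    AntitoneOn (fun t => exp (-(π / sin g) * t) * sin (D * (1 - t))) (Set.Icc 0 1) := by
  have sg : 0 < sin g := sin_pos_of_pos_of_lt_pi g0 (by linarith)
  set C := π / sin g with hC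
  have hd : ∀ t, HasDerivAt (fun t => exp (-C * t) * sin (D * (1 - t)))
      (exp (-C * t) * (-C) * sin (D * (1 - t)) + exp (-C * t) * (cos (D * (1 - t)) * (-D))) t := by
    intro t
    have a : HasDerivAt (fun t => -C * t) (-C) t := by simpa using (hasDerivAt_id t).const_mul (-C)
    have b : HasDerivAt (fun t => D * (1 - t)) (-D) t := by
      simpa using ((hasDerivAt_id t).const_sub 1).const_mul D
    exact a.exp.mul b.sin
  refine antitoneOn_of_deriv_nonpos (convex_Icc 0 1) (by fun_prop) (by fun_prop) ?_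
  intro t ht
  rw [interior_Icc] at ht
  rw [(hd t).deriv]
  set x := D * (1 - t) with hx
  have x0 : 0 ≤ x := mul_nonneg D0 (by linarith [ht.2])
  have x1 : x ≤ π - g := by nlinarith [ht.1]
  have s0 : 0 ≤ sin x := sin_nonneg_of_nonneg_of_le_pi x0 (by linarith)
  have C0 : 0 < C := div_pos pi_pos sg
  have key : 0 ≤ C * sin x + cos x * D := by
    by_cases h : x ≤ π / 2
    · have : 0 ≤ cos x := cos_nonneg_of_mem_Icc ⟨by linarith [pi_pos], h⟩
      positivity
    · push Not at h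
      have h1 : sin g ≤ sin x := by
        rw [← sin_pi_sub x]
        exact sin_le_sin_of_le_of_le_pi_div_two (by linarith) (by linarith) (by linarith)
      have h2 : π ≤ C * sin x := by
        calc π = C * sin g := by rw [hC]; field_simp
          _ ≤ _ := by gcongr
      have := neg_one_le_cos x
      nlinarith
  have := exp_pos (-C * t)
  nlinarith

def Shr {ι : Type*} (p q : ι → E) (I : Finset ι) : Prop :=
  ∃ x : ι → ℝ → E, (∀ i ∈ I, ContinuousOn (x i) (Set.Icc 0 1) ∧ x i 0 = p i ∧ x i 1 = q i) ∧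
    ∀ i ∈ I, ∀ j ∈ I, AntitoneOn (fun t => dist (x i t) (x j t)) (Set.Icc 0 1)

noncomputable def FF (b : OrthonormalBasis (Fin 2 ⊕ Fin k) ℝ E) (L : ℝ) :
    Option (Fin k × Bool) → E
  | none => 0
  | some (j, true) => L • b (Sum.inr j)
  | some (j, false) => -(L • b (Sum.inr j))

lemma dist_pol_FF (b : OrthonormalBasis (Fin 2 ⊕ Fin k) ℝ E) (L r θ : ℝ)
    (s : Option (Fin k × Bool)) :
    dist (pol b r θ) (FF b L s) = Real.sqrt (r ^ 2 + ‖FF b L s‖ ^ 2) := by
  have h : inner ℝ (pol b r θ) (FF b L s) = 0 := by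
    rw [real_inner_comm]
    rcases s with _ | ⟨j, _ | _⟩ <;> simp [FF, inner_smul_left, inner_pol]
  rw [dist_eq_norm, ← Real.sqrt_sq (norm_nonneg _), norm_sub_sq_real, h,
    ← real_inner_self_eq_norm_sq (pol b r θ), inner_pol_pol]
  simp [sq]

noncomputable def pp (b : OrthonormalBasis (Fin 2 ⊕ Fin k) ℝ E) (L : ℝ) (n : ℕ) :
    Option (Fin k × Bool) ⊕ Fin n → E :=
  Sum.elim (FF b L) fun i => pol b 1 (2 * π * i / n)

noncomputable def qq (b : OrthonormalBasis (Fin 2 ⊕ Fin k) ℝ E) (L ρ : ℝ) (n : ℕ) :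
    Option (Fin k × Bool) ⊕ Fin n → E :=
  Sum.elim (FF b L) fun _ => pol b ρ 0

lemma sub_ok (b : OrthonormalBasis (Fin 2 ⊕ Fin k) ℝ E) (L : ℝ) (m s : ℕ) (hs : 0 < s)
    (I : Finset (Option (Fin k × Bool) ⊕ Fin ((m + 2) * s))) (hI : I.card ≤ m) :
    Shr (pp b L ((m + 2) * s)) (qq b L (exp (-(π / sin (π / (m + 2))))) ((m + 2) * s)) I := by
  classical
  obtain ⟨β, hβ, hβI⟩ : ∃ β ∈ range (m + 2),
      β ∉ I.image (Sum.elim (fun _ => 0) fun i => i.val / s) := by
    apply exists_mem_notMem_of_card_lt_card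
    have := card_image_le (s := I) (f := Sum.elim (fun _ => 0) fun i => i.val / s)
    simp only [card_range]; omega
  set g := π / (m + 2) with hg
  set C := π / sin g with hC
  have m2 : (2 : ℝ) ≤ m + 2 := by linarith [(Nat.cast_nonneg m : (0 : ℝ) ≤ m)]
  have g0 : 0 < g := by have := pi_pos; positivity
  have g1 : g ≤ π / 2 := div_le_div_of_nonneg_left pi_pos.le (by norm_num) m2
  have C0 : 0 < C := div_pos pi_pos (sin_pos_of_pos_of_lt_pi g0 (by linarith))
  have s0 : (0 : ℝ) < s := by exact_mod_cast hs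
  have gm : g * (m + 2) = π := by rw [hg]; field_simp
  let θ : Fin ((m + 2) * s) → ℝ := fun i =>
    if i.val / s < β then 2 * π * i / ((m + 2) * s : ℕ) else 2 * π * i / ((m + 2) * s : ℕ) - 2 * π
  have hθ : ∀ i, Sum.inr i ∈ I → 2 * g * β - 2 * π + 2 * g ≤ θ i ∧ θ i ≤ 2 * g * β := by
    intro i hi
    have h1 : i.val / s ≠ β := fun h => hβI (mem_image.2 ⟨_, hi, h⟩)
    have e : 2 * π * i / ((m + 2) * s : ℕ) = 2 * g * (i / s) := by
      rw [hg]; push_cast; field_simp
    have b1 : (β : ℝ) + 1 ≤ m + 2 := by exact_mod_cast mem_range.1 hβ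
    have b0 : (0 : ℝ) ≤ β := Nat.cast_nonneg _
    have i0 : (0 : ℝ) ≤ (i : ℝ) / s := by positivity
    simp only [θ, e]
    split_ifs with h
    · have : (i : ℝ) / s ≤ β := by
        rw [div_le_iff₀ s0]
        exact_mod_cast ((Nat.div_lt_iff_lt_mul hs).1 h).le
      constructor <;> nlinarith
    · have h2 : (β : ℝ) + 1 ≤ (i : ℝ) / s := by
        rw [le_div_iff₀ s0]
        exact_mod_cast (Nat.le_div_iff_mul_le hs).1 (by omega : β + 1 ≤ i.val / s)
      have h3 : (i : ℝ) / s ≤ m + 2 := by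
        rw [div_le_iff₀ s0]
        exact_mod_cast i.2.le
      constructor <;> nlinarith
  have mono : ∀ (i : Fin ((m + 2) * s)) (a : Option (Fin k × Bool)), AntitoneOn
      (fun t => dist (pol b (exp (-C * t)) (θ i * (1 - t))) (FF b L a)) (Set.Icc 0 1) := by
    intro i a t _ t' _ h
    simp only [dist_pol_FF]
    have : exp (-C * t') ≤ exp (-C * t) := exp_le_exp.2 (by nlinarith)
    gcongr
  refine ⟨Sum.elim (fun a _ => FF b L a) fun i t => pol b (exp (-C * t)) (θ i * (1 - t)), ?_, ?_⟩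
  · rintro (a | i) hi
    · exact ⟨continuousOn_const, rfl, rfl⟩
    · refine ⟨?_, ?_, ?_⟩
      · simp only [Sum.elim_inr, pol]; fun_prop
      · simp only [Sum.elim_inr, pp, θ, mul_zero, exp_zero, sub_zero, mul_one]
        split_ifs
        · rfl
        · simp only [pol, cos_sub_two_pi, sin_sub_two_pi]
      · simp [qq]
  · rintro (a | i) hi (a' | j) hj
    · intro t _ t' _ _; exact le_rfl
    · simpa only [Sum.elim_inl, Sum.elim_inr, dist_comm] using mono j a
    · exact mono i a'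
    · obtain ⟨i1, i2⟩ := hθ i hi
      obtain ⟨j1, j2⟩ := hθ j hj
      have D1 : |(θ i - θ j) / 2| ≤ π - g := by rw [abs_le]; constructor <;> linarith
      have key := anti g _ g0 g1 (abs_nonneg _) D1
      have e : ∀ t ∈ Set.Icc (0 : ℝ) 1,
          dist (pol b (exp (-C * t)) (θ i * (1 - t))) (pol b (exp (-C * t)) (θ j * (1 - t))) =
          2 * (exp (-C * t) * sin (|(θ i - θ j) / 2| * (1 - t))) := by
        intro t ht
        have t1 : 0 ≤ 1 - t := by linarith [ht.2]
        rw [dist_pol _ _ _ _ (exp_pos _).le, abs_sin_eq_sin_abs_of_abs_le_pi]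
        · rw [show (θ i * (1 - t) - θ j * (1 - t)) / 2 = (θ i - θ j) / 2 * (1 - t) by ring,
            abs_mul, abs_of_nonneg t1]
        · rw [show (θ i * (1 - t) - θ j * (1 - t)) / 2 = (θ i - θ j) / 2 * (1 - t) by ring,
            abs_mul, abs_of_nonneg t1]
          nlinarith [ht.1, abs_nonneg ((θ i - θ j) / 2)]
      intro t ht t' ht' h
      simp only [Sum.elim_inr, e t ht, e t' ht']
      have := key ht ht' h
      simp only at this
      linarith

lemma pol_succ (b : OrthonormalBasis (Fin 2 ⊕ Fin k) ℝ E) (n : ℕ) [NeZero n] (hn : 2 ≤ n)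
    (i : Fin n) : pol b 1 (2 * π * ((i + 1 : Fin n) : ℕ) / n) = pol b 1 (2 * π * i / n + 2 * π / n) := by
  have n0 : (n : ℝ) ≠ 0 := by exact_mod_cast NeZero.ne n
  have h1 : ((1 : Fin n) : ℕ) = 1 := by rw [Fin.val_one', Nat.mod_eq_of_lt (by omega)]
  rw [Fin.val_add, h1]
  by_cases h : i.val + 1 < n
  · rw [Nat.mod_eq_of_lt h]; push_cast; congr 1; ring
  · have h2 : i.val + 1 = n := by have := i.2; omega
    have h3 : (i : ℝ) + 1 = n := by exact_mod_cast h2
    have : 2 * π * i / n + 2 * π / n = 2 * π := by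
      rw [← add_div, ← mul_add_one, h3]; field_simp
    rw [this, h2]
    simp [pol]

lemma not_all (b : OrthonormalBasis (Fin 2 ⊕ Fin k) ℝ E) (ρ : ℝ) (n : ℕ) [NeZero n]
    (ρ0 : 0 < ρ) (ρ1 : ρ ≤ 1) (hn : 2 * π / n ≤ ρ) :
    ¬ Shr (pp b ((k + 1) / ρ) n) (qq b ((k + 1) / ρ) ρ n) univ := by
  set L := (k + 1) / ρ with hL
  have L0 : 0 < L := by positivity
  have n0 : (0 : ℝ) < n := by exact_mod_cast NeZero.pos n
  have n2 : 2 ≤ n := by
    by_contra h
    have : n = 1 := by have := NeZero.pos n; omega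
    subst this
    have := pi_gt_three
    simp at hn; linarith
  rintro ⟨x, hx, hd⟩
  have up : ∀ t ∈ Set.Icc (0 : ℝ) 1, ∀ i j, dist (x i t) (x j t) ≤
      dist (pp b L n i) (pp b L n j) := by
    intro t ht i j
    have := hd i (mem_univ _) j (mem_univ _) ⟨le_rfl, zero_le_one⟩ ht ht.1
    simpa only [(hx i (mem_univ _)).2.1, (hx j (mem_univ _)).2.1] using this
  have dn : ∀ t ∈ Set.Icc (0 : ℝ) 1, ∀ i j, dist (qq b L ρ n i) (qq b L ρ n j) ≤
      dist (x i t) (x j t) := by
    intro t ht i j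
    have := hd i (mem_univ _) j (mem_univ _) ht ⟨zero_le_one, le_rfl⟩ ht.2
    simpa only [(hx i (mem_univ _)).2.2, (hx j (mem_univ _)).2.2] using this
  have fx : ∀ t ∈ Set.Icc (0 : ℝ) 1, ∀ a a', dist (x (Sum.inl a) t) (x (Sum.inl a') t) =
      dist (FF b L a) (FF b L a') := fun t ht a a' =>
    le_antisymm (up t ht _ _) (dn t ht (Sum.inl a) (Sum.inl a'))
  have nb : ∀ j, ‖b j‖ = 1 := b.orthonormal.1
  let A : Fin k → Bool → ℝ → E := fun j c t => x (Sum.inl (some (j, c))) t - x (Sum.inl none) t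
  let u : Fin n → ℝ → E := fun i t => x (Sum.inr i) t - x (Sum.inl none) t
  have nA : ∀ t ∈ Set.Icc (0 : ℝ) 1, ∀ j c, ‖A j c t‖ = L := by
    intro t ht j c
    have := fx t ht (some (j, c)) none
    rw [dist_eq_norm] at this
    simp only [A, this]
    cases c <;> simp [FF, norm_smul, nb, abs_of_pos L0]
  have oA : ∀ t ∈ Set.Icc (0 : ℝ) 1, ∀ j, A j false t = -A j true t := by
    intro t ht j
    have h1 := fx t ht (some (j, false)) (some (j, true))
    have h2 : dist (FF b L (some (j, false))) (FF b L (some (j, true))) = 2 * L := by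
      simp only [FF, dist_eq_norm]
      rw [← neg_add', norm_neg, ← add_smul, norm_smul, nb, Real.norm_eq_abs,
        abs_of_pos (by linarith)]
      ring
    rw [h2, dist_eq_norm, ← sub_sub_sub_cancel_right _ _ (x (Sum.inl none) t)] at h1
    have h3 := parallelogram_law_with_norm ℝ (A j false t) (A j true t)
    rw [nA t ht, nA t ht, show ‖A j false t - A j true t‖ = 2 * L from h1] at h3
    have h4 : ‖A j false t + A j true t‖ = 0 := by
      have : ‖A j false t + A j true t‖ ^ 2 = 0 := by nlinarith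
      exact pow_eq_zero_iff two_ne_zero |>.1 this
    exact eq_neg_of_add_eq_zero_left (norm_eq_zero.1 h4)
  have iA : ∀ t ∈ Set.Icc (0 : ℝ) 1, ∀ j j', j ≠ j' → inner ℝ (A j true t) (A j' true t) = 0 := by
    intro t ht j j' hj
    have h1 := fx t ht (some (j, true)) (some (j', true))
    rw [dist_eq_norm, dist_eq_norm, ← sub_sub_sub_cancel_right _ _ (x (Sum.inl none) t)] at h1
    have h2 := norm_sub_sq_real (A j true t) (A j' true t)
    have h3 := norm_sub_sq_real (FF b L (some (j, true))) (FF b L (some (j', true)))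
    rw [← h1] at h3
    rw [nA t ht, nA t ht] at h2
    simp only [FF, inner_smul_left, inner_smul_right, norm_smul, nb, Real.norm_eq_abs,
      abs_of_pos L0, b.orthonormal.2 (show Sum.inr j ≠ Sum.inr j' by simpa using hj)] at h3
    simp only [A] at h2 ⊢
    linarith
  have nu : ∀ t ∈ Set.Icc (0 : ℝ) 1, ∀ i, ρ ^ 2 ≤ ‖u i t‖ ^ 2 ∧ ‖u i t‖ ^ 2 ≤ 1 := by
    intro t ht i
    have h1 := up t ht (Sum.inr i) (Sum.inl none)
    have h2 := dn t ht (Sum.inr i) (Sum.inl none)
    simp only [pp, qq, Sum.elim_inl, Sum.elim_inr, dist_pol_FF] at h1 h2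
    simp only [FF, norm_zero, ne_eq, OfNat.ofNat_ne_zero, not_false_eq_true, zero_pow, add_zero,
      one_pow, sqrt_one, Real.sqrt_sq ρ0.le, dist_eq_norm] at h1 h2
    constructor
    · gcongr
    · have := norm_nonneg (u i t); simp only [u] at this ⊢; nlinarith
  have iu : ∀ t ∈ Set.Icc (0 : ℝ) 1, ∀ i j c, 2 * inner ℝ (A j c t) (u i t) ≤ 1 := by
    intro t ht i j c
    have h2 := dn t ht (Sum.inr i) (Sum.inl (some (j, c)))
    simp only [qq, Sum.elim_inl, Sum.elim_inr, dist_pol_FF] at h2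
    have h3 : ‖FF b L (some (j, c))‖ = L := by
      cases c <;> simp [FF, norm_smul, nb, abs_of_pos L0]
    rw [h3, Real.sqrt_le_left dist_nonneg, dist_eq_norm,
      ← sub_sub_sub_cancel_right _ _ (x (Sum.inl none) t)] at h2
    have h4 := norm_sub_sq_real (u i t) (A j c t)
    rw [nA t ht, real_inner_comm] at h4
    have h5 := (nu t ht i).2
    simp only [u, A] at h4 h5 ⊢
    nlinarith
  refine winding b (fun j t => L⁻¹ • A j true t) u ?_ ?_ ?_ ?_ ?_ ?_
  · intro j
    exact ((hx _ (mem_univ _)).1.sub (hx _ (mem_univ _)).1).const_smul _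
  · intro i
    exact (hx _ (mem_univ _)).1.sub (hx _ (mem_univ _)).1
  · intro t ht
    refine ⟨fun j => ?_, fun j j' hj => ?_⟩
    · simp only [norm_smul, nA t ht, norm_inv, Real.norm_eq_abs, abs_of_pos L0]; field_simp
    · simp only [inner_smul_left, inner_smul_right, iA t ht j j' hj, mul_zero]
  · intro t ht i
    simp only [cc]
    have h1 : ∀ i j, |inner ℝ (L⁻¹ • A j true t) (u i t)| ≤ 1 / (2 * L) := by
      intro i j
      have a := iu t ht i j true
      have c := iu t ht i j false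
      rw [oA t ht, inner_neg_left] at c
      rw [inner_smul_left, conj_trivial, abs_mul, abs_inv, abs_of_pos L0]
      have : |inner ℝ (A j true t) (u i t)| ≤ 1 / 2 := abs_le.2 ⟨by linarith, by linarith⟩
      calc _ ≤ L⁻¹ * (1 / 2) := by gcongr
        _ = _ := by field_simp
    have h2 : ∑ j, inner ℝ (L⁻¹ • A j true t) (u i t) * inner ℝ (L⁻¹ • A j true t) (u (i + 1) t)
        ≤ k * (1 / (2 * L) * (1 / (2 * L))) := by
      have := sum_le_card_nsmul (univ : Finset (Fin k)) (fun j =>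
        inner ℝ (L⁻¹ • A j true t) (u i t) * inner ℝ (L⁻¹ • A j true t) (u (i + 1) t))
        (1 / (2 * L) * (1 / (2 * L))) (fun j _ => by
          refine (le_abs_self _).trans ?_
          rw [abs_mul]
          exact mul_le_mul (h1 _ _) (h1 _ _) (abs_nonneg _) (by positivity))
      simpa using this
    have h3 : k * (1 / (2 * L) * (1 / (2 * L))) < ρ ^ 2 / 2 := by
      rw [hL]
      have k0 : (0 : ℝ) ≤ k := Nat.cast_nonneg _
      field_simp
      nlinarith
    have h4 : ‖u i t - u (i + 1) t‖ ≤ ρ := by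
      have a := up t ht (Sum.inr i) (Sum.inr (i + 1))
      simp only [pp, Sum.elim_inr] at a
      rw [pol_succ b n n2, dist_pol _ _ _ _ zero_le_one, dist_eq_norm] at a
      simp only [u, sub_sub_sub_cancel_right]
      have c := abs_sin_le_abs (x := (2 * π * i / n - (2 * π * i / n + 2 * π / n)) / 2)
      have d : |(2 * π * i / n - (2 * π * i / n + 2 * π / n)) / 2| = 2 * π / n / 2 := by
        rw [show (2 * π * i / n - (2 * π * i / n + 2 * π / n)) / 2 = -(2 * π / n / 2) by ring,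
          abs_neg, abs_of_pos (by have := pi_pos; positivity)]
      linarith
    have h5 := norm_sub_sq_real (u i t) (u (i + 1) t)
    have h6 := (nu t ht i).1
    have h7 := (nu t ht (i + 1)).1
    have h8 : ‖u i t - u (i + 1) t‖ ^ 2 ≤ ρ ^ 2 := by gcongr
    linarith
  · have e1 : (fun j => L⁻¹ • A j true 0) = fun j => b (Sum.inr j) := by
      funext j
      simp only [A, (hx _ (mem_univ _)).2.1, pp, Sum.elim_inl, FF, sub_zero, smul_smul]
      rw [inv_mul_cancel₀ L0.ne', one_smul]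
    have e2 : ∀ i, u i 0 = pol b 1 (2 * π * i / n) := by
      intro i
      simp only [u, (hx _ (mem_univ _)).2.1, pp, Sum.elim_inl, Sum.elim_inr, FF, sub_zero]
    have e3 : 2 * π / n ∈ Set.Ioc (-π) π := by
      have := pi_gt_three
      constructor
      · have : 0 < 2 * π / n := by positivity
        linarith
      · linarith
    simp only [e1, e2, pol_succ b n n2, cc_pol, add_sub_cancel_left]
    simp only [Complex.arg_mul_cos_add_sin_mul_I (show (0 : ℝ) < 1 ^ 2 by norm_num) e3]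
    simp
    field_simp
  · have e1 : (fun j => L⁻¹ • A j true 1) = fun j => b (Sum.inr j) := by
      funext j
      simp only [A, (hx _ (mem_univ _)).2.2, qq, Sum.elim_inl, FF, sub_zero, smul_smul]
      rw [inv_mul_cancel₀ L0.ne', one_smul]
    have e2 : ∀ i, u i 1 = pol b ρ 0 := by
      intro i
      simp only [u, (hx _ (mem_univ _)).2.2, qq, Sum.elim_inl, Sum.elim_inr, FF, sub_zero]
    have e3 : (0 : ℝ) - 0 ∈ Set.Ioc (-π) π := by
      have := pi_pos
      constructor <;> linarith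
    simp only [e1, e2, cc_pol]
    simp only [Complex.arg_mul_cos_add_sin_mul_I (show (0 : ℝ) < ρ ^ 2 by positivity) e3]
    simp

theorem main (d : ℕ) (hd : 2 ≤ d) (m : ℕ) :
    ∃ (n : ℕ) (p q : Fin n → EuclideanSpace ℝ (Fin d)),
      (∀ I : Finset (Fin n), I.card ≤ m → Shr p q I) ∧ ¬ Shr p q univ := by
  classical
  obtain ⟨k, rfl⟩ := Nat.exists_eq_add_of_le hd
  let b : OrthonormalBasis (Fin 2 ⊕ Fin k) ℝ (EuclideanSpace ℝ (Fin (2 + k))) :=
    (EuclideanSpace.basisFun (Fin (2 + k)) ℝ).reindex finSumFinEquiv.symm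
  set ρ := exp (-(π / sin (π / (m + 2)))) with hρ
  have ρ0 : 0 < ρ := exp_pos _
  have m2 : (2 : ℝ) ≤ m + 2 := by linarith [(Nat.cast_nonneg m : (0 : ℝ) ≤ m)]
  have ρ1 : ρ ≤ 1 := by
    rw [hρ, exp_le_one_iff, neg_nonpos]
    refine div_nonneg pi_pos.le (sin_nonneg_of_nonneg_of_le_pi (by have := pi_pos; positivity) ?_)
    exact div_le_self pi_pos.le (by linarith)
  obtain ⟨s, hs⟩ := exists_nat_gt (2 * π / ρ)
  have s0 : (0 : ℝ) < s := lt_trans (by have := pi_pos; positivity) hs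
  have s1 : 0 < s := by exact_mod_cast s0
  haveI : NeZero ((m + 2) * s) := ⟨by positivity⟩
  let e := Fintype.equivFin (Option (Fin k × Bool) ⊕ Fin ((m + 2) * s))
  refine ⟨_, pp b ((k + 1) / ρ) ((m + 2) * s) ∘ e.symm, qq b ((k + 1) / ρ) ρ ((m + 2) * s) ∘ e.symm,
    fun I hI => ?_, fun h => ?_⟩
  · obtain ⟨x, h1, h2⟩ := sub_ok b ((k + 1) / ρ) m s s1 (I.map e.symm.toEmbedding) (by simpa)
    exact ⟨x ∘ e.symm, fun i hi => h1 _ (mem_map_of_mem _ hi),
      fun i hi j hj => h2 _ (mem_map_of_mem _ hi) _ (mem_map_of_mem _ hj)⟩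
  · refine not_all b ρ ((m + 2) * s) ρ0 ρ1 ?_ ?_
    · rw [div_lt_iff₀ ρ0] at hs
      push_cast
      rw [div_le_iff₀ (by positivity)]
      nlinarith [mul_pos s0 ρ0]
    · obtain ⟨x, h1, h2⟩ := h
      refine ⟨x ∘ e, fun i _ => ?_, fun i _ j _ => h2 _ (mem_univ _) _ (mem_univ _)⟩
      simpa using h1 (e i) (mem_univ _)

end Pool.Agent.H9.Shrink
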