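import Mathlib

namespace H9St

/-- A Steiner system `S(n,q,r)` exists on the point type `V` (with `n = |V|`). -/
def StOn (V : Type) [DecidableEq V] (q : ℕ) : Prop :=
  ∃ B : Finset (Finset V), (∀ b ∈ B, b.card = q) ∧
    ∀ x y : V, x ≠ y → ∃! b, b ∈ B ∧ x ∈ b ∧ y ∈ b

theorem StOn.equiv {V W : Type} [DecidableEq V] [DecidableEq W] {q : ℕ} (e : V ≃ W)
    (h : StOn V q) : StOn W q := by
  obtain ⟨B, h1, h2⟩ := h
  refine ⟨B.image (fun b => b.map e.toEmbedding), ?_, ?_⟩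
  · intro b hb
    obtain ⟨c, hc, rfl⟩ := Finset.mem_image.1 hb
    simp [h1 c hc]
  · intro x y hxy
    obtain ⟨b, ⟨hb, hx, hy⟩, hu⟩ := h2 (e.symm x) (e.symm y) (by simpa using hxy)
    refine ⟨b.map e.toEmbedding, ⟨Finset.mem_image_of_mem _ hb, by simpa using hx,
      by simpa using hy⟩, ?_⟩
    rintro c0 ⟨hc0, hx', hy'⟩
    obtain ⟨c, hc, rfl⟩ := Finset.mem_image.1 hc0
    rw [hu c ⟨hc, by simpa using hx', by simpa using hy'⟩]

theorem StOn.card {V W : Type} [DecidableEq V] [DecidableEq W] [Fintype V] [Fintype W] {q : ℕ}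
    (hc : Fintype.card V = Fintype.card W) (h : StOn V q) : StOn W q :=
  h.equiv (Fintype.equivOfCardEq hc)

/-- one block -/
theorem stOn_triv (V : Type) [DecidableEq V] [Fintype V] : StOn V (Fintype.card V) :=
  ⟨{Finset.univ}, by simp, fun x y _ => ⟨Finset.univ, by simp, by simp +contextual⟩⟩

/-- Group divisible design on `H × K` with groups `H × {c}`. -/
def Gdd (H K : Type) [DecidableEq H] [DecidableEq K] (q : ℕ) : Prop :=
  ∃ B : Finset (Finset (H × K)), (∀ b ∈ B, b.card = q) ∧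
    (∀ b ∈ B, ∀ x ∈ b, ∀ y ∈ b, x ≠ y → x.2 ≠ y.2) ∧
    ∀ x y : H × K, x.2 ≠ y.2 → ∃! b, b ∈ B ∧ x ∈ b ∧ y ∈ b

/-- Design on `W ⊕ H` with hole `W`. -/
def Hole (W H : Type) [DecidableEq W] [DecidableEq H] (q : ℕ) : Prop :=
  ∃ B : Finset (Finset (W ⊕ H)), (∀ b ∈ B, b.card = q) ∧
    (∀ b ∈ B, ∀ x y : W, .inl x ∈ b → .inl y ∈ b → x = y) ∧
    ∀ (x : W ⊕ H) (y : H), x ≠ .inr y → ∃! b, b ∈ B ∧ x ∈ b ∧ .inr y ∈ b

theorem fill {W H K : Type} [DecidableEq W] [DecidableEq H] [DecidableEq K] [Fintype K] {q : ℕ}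
    (hG : Gdd H K q) (hH : Hole W H q) (hW : StOn W q) : StOn (W ⊕ H × K) q := by
  obtain ⟨B, b1, b2, b3⟩ := hG
  obtain ⟨C, c1, c2, c3⟩ := hH
  obtain ⟨D, d1, d2⟩ := hW
  let f : K → (W ⊕ H) → (W ⊕ H × K) := fun c => Sum.map id (fun h => (h, c))
  have hf : ∀ c, Function.Injective (f c) := fun c =>
    Function.Injective.sumMap Function.injective_id (fun a b h => by simpa using h)
  have mf1 : ∀ c (b : Finset (W ⊕ H)) (w : W), (Sum.inl w : W ⊕ H × K) ∈ b.image (f c) ↔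
      Sum.inl w ∈ b := by
    intro c b w
    have : (Sum.inl w : W ⊕ H × K) = f c (.inl w) := rfl
    rw [this, (hf c).mem_finset_image]
  have mf2 : ∀ c (b : Finset (W ⊕ H)) (x : H × K), (Sum.inr x : W ⊕ H × K) ∈ b.image (f c) ↔
      x.2 = c ∧ Sum.inr x.1 ∈ b := by
    intro c b x
    constructor
    · intro h
      obtain ⟨z, hz, e⟩ := Finset.mem_image.1 h
      cases z with
      | inl w => simp [f] at e
      | inr h' =>
        simp only [f, Sum.map_inr, Sum.inr.injEq] at e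
        subst e; exact ⟨rfl, hz⟩
    · rintro ⟨rfl, h⟩
      exact Finset.mem_image.2 ⟨_, h, rfl⟩
  let S : Finset (Finset (W ⊕ H × K)) :=
    B.image (fun b => b.image Sum.inr) ∪ (Finset.univ ×ˢ C).image (fun p => p.2.image (f p.1)) ∪
      D.image (fun b => b.image Sum.inl)
  have hS : ∀ s, s ∈ S ↔ (∃ b ∈ B, b.image Sum.inr = s) ∨ (∃ c, ∃ b ∈ C, b.image (f c) = s) ∨
      ∃ b ∈ D, b.image Sum.inl = s := by
    intro s
    simp only [S, Finset.mem_union, Finset.mem_image, Finset.mem_product, Finset.mem_univ,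
      true_and, Prod.exists, or_assoc]
  have key : ∀ (x : W ⊕ H × K) (y : H × K), x ≠ .inr y → ∃! b, b ∈ S ∧ x ∈ b ∧ .inr y ∈ b := by
    intro x y hxy
    cases x with
    | inl w =>
      obtain ⟨b, ⟨hb, h1, h2⟩, hu⟩ := c3 (.inl w) y.1 (by simp)
      refine ⟨b.image (f y.2), ⟨(hS _).2 (.inr (.inl ⟨_, b, hb, rfl⟩)), (mf1 _ _ _).2 h1,
        (mf2 _ _ _).2 ⟨rfl, h2⟩⟩, ?_⟩
      rintro s ⟨hs, k1, k2⟩
      rcases (hS s).1 hs with ⟨b', -, rfl⟩ | ⟨c, b', hb', rfl⟩ | ⟨b', -, rfl⟩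
      · simp at k1
      · obtain ⟨rfl, k3⟩ := (mf2 _ _ _).1 k2
        rw [hu b' ⟨hb', (mf1 _ _ _).1 k1, k3⟩]
      · simp at k2
    | inr x =>
      have hne : x ≠ y := fun h => hxy (by rw [h])
      by_cases h2 : x.2 = y.2
      · have h1 : x.1 ≠ y.1 := fun h => hne (Prod.ext h h2)
        obtain ⟨b, ⟨hb, k1, k2⟩, hu⟩ := c3 (.inr x.1) y.1 (by simpa using h1)
        refine ⟨b.image (f y.2), ⟨(hS _).2 (.inr (.inl ⟨_, b, hb, rfl⟩)),
          (mf2 _ _ _).2 ⟨h2, k1⟩, (mf2 _ _ _).2 ⟨rfl, k2⟩⟩, ?_⟩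
        rintro s ⟨hs, k1, k2⟩
        rcases (hS s).1 hs with ⟨b', hb', rfl⟩ | ⟨c, b', hb', rfl⟩ | ⟨b', -, rfl⟩
        · exact absurd h2 (b2 b' hb' x (by simpa using k1) y (by simpa using k2) hne)
        · obtain ⟨rfl, k3⟩ := (mf2 _ _ _).1 k2
          rw [hu b' ⟨hb', ((mf2 _ _ _).1 k1).2, k3⟩]
        · simp at k2
      · obtain ⟨b, ⟨hb, k1, k2⟩, hu⟩ := b3 x y h2
        refine ⟨b.image Sum.inr, ⟨(hS _).2 (.inl ⟨b, hb, rfl⟩), by simpa using k1,
          by simpa using k2⟩, ?_⟩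
        rintro s ⟨hs, k1, k2⟩
        rcases (hS s).1 hs with ⟨b', hb', rfl⟩ | ⟨c, b', hb', rfl⟩ | ⟨b', -, rfl⟩
        · rw [hu b' ⟨hb', by simpa using k1, by simpa using k2⟩]
        · exact absurd (((mf2 _ _ _).1 k1).1.trans ((mf2 _ _ _).1 k2).1.symm) h2
        · simp at k2
  refine ⟨S, ?_, ?_⟩
  · intro s hs
    rcases (hS s).1 hs with ⟨b, hb, rfl⟩ | ⟨c, b, hb, rfl⟩ | ⟨b, hb, rfl⟩
    · rw [Finset.card_image_of_injective _ Sum.inr_injective, b1 b hb]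
    · rw [Finset.card_image_of_injective _ (hf c), c1 b hb]
    · rw [Finset.card_image_of_injective _ Sum.inl_injective, d1 b hb]
  · intro x y hxy
    cases y with
    | inr y => exact key x y hxy
    | inl w =>
      cases x with
      | inr x =>
        obtain ⟨b, hb, hu⟩ := key (.inl w) x (by simp)
        exact ⟨b, ⟨hb.1, hb.2.2, hb.2.1⟩, fun c hc => hu c ⟨hc.1, hc.2.2, hc.2.1⟩⟩
      | inl v =>
        have hvw : v ≠ w := fun h => hxy (by rw [h])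
        obtain ⟨b, ⟨hb, k1, k2⟩, hu⟩ := d2 v w hvw
        refine ⟨b.image Sum.inl, ⟨(hS _).2 (.inr (.inr ⟨b, hb, rfl⟩)), by simpa using k1,
          by simpa using k2⟩, ?_⟩
        rintro s ⟨hs, k1, k2⟩
        rcases (hS s).1 hs with ⟨b', -, rfl⟩ | ⟨c, b', hb', rfl⟩ | ⟨b', hb', rfl⟩
        · simp at k1
        · exact absurd (c2 b' hb' v w ((mf1 _ _ _).1 k1) ((mf1 _ _ _).1 k2)) hvw
        · rw [hu b' ⟨hb', by simpa using k1, by simpa using k2⟩]

/-- a design is a design with a hole of size at most one -/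
theorem hole_of_subsingleton {W H : Type} [DecidableEq W] [DecidableEq H] [Subsingleton W] {q : ℕ}
    (h : StOn (W ⊕ H) q) : Hole W H q := by
  obtain ⟨B, h1, h2⟩ := h
  exact ⟨B, h1, fun _ _ _ _ _ _ => Subsingleton.elim _ _, fun x y hxy => h2 x _ hxy⟩

theorem stOn_of_subsingleton (W : Type) [DecidableEq W] [Subsingleton W] (q : ℕ) : StOn W q :=
  ⟨∅, by simp, fun x y h => absurd (Subsingleton.elim x y) h⟩

/-- removing a block gives a hole of size `q` -/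
theorem hole_of_block {V W H : Type} [DecidableEq V] [DecidableEq W] [DecidableEq H] [Fintype V]
    [Fintype W] [Fintype H] {q : ℕ} (h : StOn V q) (h2 : 1 < Fintype.card V)
    (hW : Fintype.card W = q) (hV : Fintype.card V = q + Fintype.card H) : Hole W H q := by
  obtain ⟨B, h1, h3⟩ := h
  obtain ⟨x0, y0, hxy0⟩ := Fintype.exists_pair_of_one_lt_card h2
  obtain ⟨b0, ⟨hb0, -, -⟩, -⟩ := h3 x0 y0 hxy0
  have eW : W ≃ {v // v ∈ b0} := Fintype.equivOfCardEq (by simp [hW, h1 b0 hb0])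
  have eH : H ≃ {v // v ∉ b0} := Fintype.equivOfCardEq (by
    rw [Fintype.card_subtype_compl]; simp [h1 b0 hb0, hV])
  let e : W ⊕ H ≃ V := (eW.sumCongr eH).trans (Equiv.sumCompl _)
  have el : ∀ w, e (.inl w) ∈ b0 := fun w => (eW w).2
  have er : ∀ w, e (.inr w) ∉ b0 := fun w => (eH w).2
  refine ⟨(B.erase b0).image (fun b => b.map e.symm.toEmbedding), ?_, ?_, ?_⟩
  · intro b hb
    obtain ⟨c, hc, rfl⟩ := Finset.mem_image.1 hb
    simp [h1 c (Finset.mem_of_mem_erase hc)]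
  · intro b hb x y hx hy
    obtain ⟨c, hc, rfl⟩ := Finset.mem_image.1 hb
    by_contra hne
    obtain ⟨b', -, hu⟩ := h3 (e (.inl x)) (e (.inl y)) (by simpa using hne)
    have a1 := hu c ⟨Finset.mem_of_mem_erase hc, by simpa using hx, by simpa using hy⟩
    have a2 := hu b0 ⟨hb0, el x, el y⟩
    exact (Finset.ne_of_mem_erase hc) (a1.trans a2.symm)
  · intro x y hxy
    obtain ⟨b, ⟨hb, k1, k2⟩, hu⟩ := h3 (e x) (e (.inr y)) (by simpa using hxy)
    refine ⟨b.map e.symm.toEmbedding, ⟨Finset.mem_image_of_mem _ (Finset.mem_erase.2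
      ⟨fun hh => er y (hh ▸ k2), hb⟩), by simpa using k1, by simpa using k2⟩, ?_⟩
    rintro c0 ⟨hc0, k1', k2'⟩
    obtain ⟨c, hc, rfl⟩ := Finset.mem_image.1 hc0
    rw [hu c ⟨Finset.mem_of_mem_erase hc, by simpa using k1', by simpa using k2'⟩]

end H9St
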