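import Mathlib
import Pool.Agent.H9.StDef

namespace H9St

theorem gdd_of_df {H K : Type} [DecidableEq H] [DecidableEq K] [Fintype H] [Fintype K]
    [AddCommGroup H] [AddCommGroup K] {q : ℕ} (D : Finset (Finset (H × K)))
    (h1 : ∀ b ∈ D, b.card = q) (h2 : ∀ b ∈ D, ∀ x ∈ b, ∀ y ∈ b, x ≠ y → x.2 ≠ y.2)
    (h3 : ∀ d : H × K, d.2 ≠ 0 → ∃ b ∈ D, ∃ x ∈ b, ∃ y ∈ b, x - y = d)
    (h4 : D.card * (q * q - q) ≤ Fintype.card H * (Fintype.card K - 1)) : Gdd H K q := by
  let T : Finset (Σ _ : Finset (H × K), (H × K) × (H × K)) := D.sigma (fun b => b.offDiag)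
  let O : Finset (H × K) := Finset.univ ×ˢ (Finset.univ.erase 0)
  have hO : ∀ d, d ∈ O ↔ d.2 ≠ 0 := by intro d; simp [O]
  have hT : T.card ≤ O.card := by
    have : T.card = D.card * (q * q - q) := by
      rw [Finset.card_sigma, Finset.sum_congr rfl (g := fun _ => q * q - q)]
      · simp
      · intro b hb; rw [Finset.offDiag_card, h1 b hb]
    rw [this]; simpa [O] using h4
  have hinj : Set.InjOn (fun t : (Σ _ : Finset (H × K), (H × K) × (H × K)) => t.2.1 - t.2.2) T := by
    refine Finset.injOn_of_surjOn_of_card_le (t := O) _ ?_ ?_ hT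
    · rintro ⟨b, x, y⟩ ht
      simp only [T, Finset.coe_sigma, Set.mem_sigma_iff, Finset.mem_coe, Finset.mem_offDiag] at ht
      simp only [Finset.mem_coe, hO, Prod.snd_sub, sub_ne_zero]
      exact h2 b ht.1 x ht.2.1 y ht.2.2.1 ht.2.2.2
    · intro d hd
      have hd' := (hO d).1 hd
      obtain ⟨b, hb, x, hx, y, hy, e⟩ := h3 d hd'
      refine ⟨⟨b, x, y⟩, ?_, e⟩
      simp only [T, Finset.coe_sigma, Set.mem_sigma_iff, Finset.mem_coe, Finset.mem_offDiag]
      refine ⟨hb, hx, hy, ?_⟩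
      rintro rfl
      apply hd'; rw [← e]; simp
  refine ⟨(D ×ˢ Finset.univ).image (fun p => p.1.image (· + p.2)), ?_, ?_, ?_⟩
  · intro s hs
    obtain ⟨⟨b, g⟩, hp, rfl⟩ := Finset.mem_image.1 hs
    rw [Finset.card_image_of_injective _ (add_left_injective g)]
    exact h1 b (Finset.mem_product.1 hp).1
  · intro s hs x hx y hy hxy
    obtain ⟨⟨b, g⟩, hp, rfl⟩ := Finset.mem_image.1 hs
    obtain ⟨x', hx', rfl⟩ := Finset.mem_image.1 hx
    obtain ⟨y', hy', rfl⟩ := Finset.mem_image.1 hy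
    have := h2 b (Finset.mem_product.1 hp).1 x' hx' y' hy' (fun h => hxy (by rw [h]))
    simpa using this
  · intro u v huv
    obtain ⟨b, hb, x, hx, y, hy, e⟩ := h3 (u - v) (by simpa [sub_ne_zero] using huv)
    refine ⟨b.image (· + (v - y)), ⟨Finset.mem_image.2 ⟨(b, v - y), by simp [hb], rfl⟩,
      Finset.mem_image.2 ⟨x, hx, by rw [show x + (v - y) = (x - y) + v by abel, e]; abel⟩,
      Finset.mem_image.2 ⟨y, hy, by abel⟩⟩, ?_⟩
    rintro s ⟨hs, k1, k2⟩
    obtain ⟨⟨b', g⟩, hp, rfl⟩ := Finset.mem_image.1 hs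
    obtain ⟨x', hx', e1⟩ := Finset.mem_image.1 k1
    obtain ⟨y', hy', e2⟩ := Finset.mem_image.1 k2
    have hb' := (Finset.mem_product.1 hp).1
    have huv' : u ≠ v := fun h => huv (by rw [h])
    have n1 : x' ≠ y' := by rintro rfl; exact huv' (e1.symm.trans e2)
    have n2 : x ≠ y := by
      rintro rfl; apply huv'; rw [sub_self] at e; exact sub_eq_zero.1 e.symm
    have := @hinj ⟨b', x', y'⟩ (by simp [T]; exact ⟨hb', hx', hy', n1⟩) ⟨b, x, y⟩
      (by simp [T]; exact ⟨hb, hx, hy, n2⟩) (by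
        show x' - y' = x - y
        rw [e, ← e1, ← e2]; abel)
    simp only [Sigma.mk.injEq, heq_eq_eq, Prod.mk.injEq] at this
    obtain ⟨rfl, rfl, rfl⟩ := this
    have : g = v - y' := by rw [← e2]; abel
    simp only [this]

abbrev G3 (a b c : ℕ) := ZMod a × ZMod b × ZMod c

def ph (a b c n : ℕ) : G3 a b c := (((n / (b * c) : ℕ) : ZMod a), ((n / c : ℕ) : ZMod b), (n : ZMod c))

def enc {a b c : ℕ} (g : G3 a b c) : ℕ := (g.1.val * b + g.2.1.val) * c + g.2.2.val

def sb (a m n : ℕ) : ℕ := (m + a - n % a) % a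

def sub3 (a b c m n : ℕ) : ℕ :=
  (sb a (m / (b * c)) (n / (b * c)) * b + sb b (m / c) (n / c)) * c + sb c m n

theorem val_sb (a m n : ℕ) [NeZero a] : ((m : ZMod a) - (n : ZMod a)).val = sb a m n := by
  have h : n % a ≤ m + a := (Nat.mod_lt _ (NeZero.pos a)).le.trans (Nat.le_add_left _ _)
  have : ((m : ZMod a) - (n : ZMod a)) = ((m + a - n % a : ℕ) : ZMod a) := by
    rw [Nat.cast_sub h]; simp
  rw [this, ZMod.val_natCast, sb]

theorem enc_sub (a b c m n : ℕ) [NeZero a] [NeZero b] [NeZero c] :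
    enc (ph a b c m - ph a b c n) = sub3 a b c m n := by
  simp only [enc, ph, sub3, Prod.fst_sub, Prod.snd_sub, val_sb]

theorem dm {c x y u v : ℕ} (hu : u < c) (hv : v < c) (h : x * c + u = y * c + v) :
    x = y ∧ u = v := by
  have h1 : (x * c + u) % c = (y * c + v) % c := by rw [h]
  rw [Nat.mul_add_mod_self_right, Nat.mul_add_mod_self_right, Nat.mod_eq_of_lt hu,
    Nat.mod_eq_of_lt hv] at h1
  subst h1
  exact ⟨Nat.eq_of_mul_eq_mul_right (by omega) (Nat.add_right_cancel h), rfl⟩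

theorem enc_inj {a b c : ℕ} [NeZero a] [NeZero b] [NeZero c] {g h : G3 a b c}
    (e : enc g = enc h) : g = h := by
  obtain ⟨e1, e2⟩ := dm (ZMod.val_lt _) (ZMod.val_lt _) e
  obtain ⟨e3, e4⟩ := dm (ZMod.val_lt _) (ZMod.val_lt _) e1
  exact Prod.ext (ZMod.val_injective _ e3) (Prod.ext (ZMod.val_injective _ e4)
    (ZMod.val_injective _ e2))

theorem lt_mul' {x u a c : ℕ} (hx : x < a) (hu : u < c) : x * c + u < a * c := by
  have : (x + 1) * c ≤ a * c := Nat.mul_le_mul_right _ hx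
  nlinarith

theorem enc_lt {a b c : ℕ} [NeZero a] [NeZero b] [NeZero c] (g : G3 a b c) :
    enc g < a * b * c :=
  lt_mul' (lt_mul' (ZMod.val_lt _) (ZMod.val_lt _)) (ZMod.val_lt _)

theorem enc_zero {a b c : ℕ} : enc (0 : G3 a b c) = 0 := by simp [enc]

def mk1 (l : List ℕ) : ℕ := l.foldr (fun i m => m ||| 2 ^ i) 0

def mk2 (ll : List (List ℕ)) : ℕ := ll.foldr (fun l m => m ||| mk1 l) 0

theorem mk1_bit {l : List ℕ} {i : ℕ} (h : (mk1 l).testBit i = true) : i ∈ l := by
  induction l with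
  | nil => simp [mk1] at h
  | cons x t ih =>
    simp only [mk1, List.foldr_cons, Nat.testBit_or, Bool.or_eq_true] at h
    rcases h with h | h
    · exact List.mem_cons_of_mem _ (ih h)
    · rw [Nat.testBit_two_pow] at h
      simp only [decide_eq_true_eq] at h
      simp [h]

theorem mk2_bit {ll : List (List ℕ)} {i : ℕ} (h : (mk2 ll).testBit i = true) :
    ∃ l ∈ ll, i ∈ l := by
  induction ll with
  | nil => simp [mk2] at h
  | cons x t ih =>
    simp only [mk2, List.foldr_cons, Nat.testBit_or, Bool.or_eq_true] at h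
    rcases h with h | h
    · obtain ⟨l, hl, hi⟩ := ih h
      exact ⟨l, List.mem_cons_of_mem _ hl, hi⟩
    · exact ⟨x, by simp, mk1_bit h⟩

def codes (a b c d e f : ℕ) (l : List (ℕ × ℕ)) : List ℕ :=
  l.flatMap fun x => l.map fun y => sub3 a b c x.1 y.1 * (d * e * f) + sub3 d e f x.2 y.2

def sep (d e f : ℕ) : List (ℕ × ℕ) → Bool
  | [] => true
  | x :: t => t.all (fun y => sub3 d e f x.2 y.2 != 0) && sep d e f t

def chk (a b c d e f q : ℕ) (L : List (List (ℕ × ℕ))) : Bool :=
  L.all (fun l => l.length == q && sep d e f l) &&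
  (mk2 (((List.range (a * b * c)).map (· * (d * e * f))) :: L.map (codes a b c d e f)) ==
    2 ^ (a * b * c * (d * e * f)) - 1) &&
  decide (L.length * (q * q - q) ≤ a * b * c * (d * e * f - 1))

theorem sep_pw {d e f : ℕ} [NeZero d] [NeZero e] [NeZero f] {l : List (ℕ × ℕ)}
    (h : sep d e f l = true) : l.Pairwise (fun x y => ph d e f x.2 ≠ ph d e f y.2) := by
  induction l with
  | nil => simp
  | cons x t ih =>
    simp only [sep, Bool.and_eq_true, List.all_eq_true, bne_iff_ne] at h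
    refine List.Pairwise.cons (fun y hy e0 => h.1 y hy ?_) (ih h.2)
    rw [← enc_sub, e0, sub_self, enc_zero]

theorem gdd_of_chk (a b c d e f q : ℕ) [NeZero a] [NeZero b] [NeZero c] [NeZero d] [NeZero e]
    [NeZero f] (L : List (List (ℕ × ℕ))) (h : chk a b c d e f q L = true) :
    Gdd (G3 a b c) (G3 d e f) q := by
  simp only [chk, Bool.and_eq_true, List.all_eq_true, beq_iff_eq, decide_eq_true_eq] at h
  obtain ⟨⟨h1, h2⟩, h3⟩ := h
  let φ : ℕ × ℕ → G3 a b c × G3 d e f := fun x => (ph a b c x.1, ph d e f x.2)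
  have pw : ∀ l ∈ L, (l.map φ).Pairwise (fun x y => x.2 ≠ y.2) := fun l hl =>
    List.pairwise_map.2 (sep_pw (h1 l hl).2)
  refine gdd_of_df (L.map (fun l => (l.map φ).toFinset)).toFinset ?_ ?_ ?_ ?_
  · intro s hs
    obtain ⟨l, hl, rfl⟩ := List.mem_map.1 (List.mem_toFinset.1 hs)
    rw [List.toFinset_card_of_nodup, List.length_map, (h1 l hl).1]
    exact (pw l hl).imp (fun h e0 => h (by rw [e0]))
  · intro s hs x hx y hy hxy
    obtain ⟨l, hl, rfl⟩ := List.mem_map.1 (List.mem_toFinset.1 hs)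
    have : Std.Symm (fun x y : G3 a b c × G3 d e f => x.2 ≠ y.2) := ⟨fun _ _ h => h.symm⟩
    exact (pw l hl).forall (List.mem_toFinset.1 hx) (List.mem_toFinset.1 hy) hxy
  · intro g hg
    have hlt : enc g.1 * (d * e * f) + enc g.2 < a * b * c * (d * e * f) :=
      lt_mul' (enc_lt _) (enc_lt _)
    have hb : (mk2 (((List.range (a * b * c)).map (· * (d * e * f))) ::
        L.map (codes a b c d e f))).testBit (enc g.1 * (d * e * f) + enc g.2) = true := by
      rw [h2, Nat.testBit_two_pow_sub_one]; simpa using hlt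
    obtain ⟨l, hl, hi⟩ := mk2_bit hb
    rcases List.mem_cons.1 hl with rfl | hl0
    · obtain ⟨i, -, hi⟩ := List.mem_map.1 hi
      have := (dm (x := i) (u := 0) (lt_of_le_of_lt (Nat.zero_le _) (enc_lt g.2)) (enc_lt g.2) hi).2
      exact absurd (enc_inj (this.symm.trans enc_zero.symm)) hg
    · clear hl
      obtain ⟨l, hl, rfl⟩ := List.mem_map.1 hl0
      simp only [codes, List.mem_flatMap, List.mem_map] at hi
      obtain ⟨x, hx, y, hy, hi⟩ := hi
      rw [← enc_sub, ← enc_sub] at hi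
      obtain ⟨e1, e2⟩ := dm (enc_lt _) (enc_lt _) hi
      refine ⟨(l.map φ).toFinset, List.mem_toFinset.2 (List.mem_map.2 ⟨l, hl, rfl⟩), φ x,
        List.mem_toFinset.2 (List.mem_map_of_mem hx), φ y,
        List.mem_toFinset.2 (List.mem_map_of_mem hy), Prod.ext (enc_inj e1) (enc_inj e2)⟩
  · refine le_trans (Nat.mul_le_mul_right _ (List.toFinset_card_le _)) ?_
    simpa [G3, mul_assoc] using h3

/-- fill a GDD whose groups have size `m`, adding `w ≤ 1` points -/
theorem st_fill1 {H K : Type} [DecidableEq H] [DecidableEq K] [Fintype H] [Fintype K] {q m w n : ℕ}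
    (hG : Gdd H K q) (hw : w ≤ 1) (hm : Fintype.card H + w = m) (hS : StOn (Fin m) q)
    (hn : w + Fintype.card H * Fintype.card K = n) : StOn (Fin n) q := by
  have : Subsingleton (Fin w) := Fin.subsingleton_iff_le_one.2 hw
  refine StOn.card (by simp [hn]) (fill (W := Fin w) hG (hole_of_subsingleton
    (StOn.card (by simp; omega) hS)) (stOn_of_subsingleton _ _))

/-- fill a GDD adding a block of `q` points -/
theorem st_fillq {H K : Type} [DecidableEq H] [DecidableEq K] [Fintype H] [Fintype K] {q m n : ℕ}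
    (hG : Gdd H K q) (h1 : 1 < m) (hm : q + Fintype.card H = m) (hS : StOn (Fin m) q)
    (hn : q + Fintype.card H * Fintype.card K = n) : StOn (Fin n) q := by
  refine StOn.card (by simp [hn]) (fill (W := Fin q) hG (hole_of_block hS (by simpa using h1)
    (by simp) (by simp [hm])) ?_)
  simpa using stOn_triv (Fin q)

theorem st_one (q : ℕ) : StOn (Fin 1) q := stOn_of_subsingleton _ _

theorem st_self (q : ℕ) : StOn (Fin q) q := by simpa using stOn_triv (Fin q)

end H9St
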