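import Mathlib
import Pool.Agent.H9.StDF

namespace H9St

def St3 (V : Type) [DecidableEq V] (q : ℕ) : Prop :=
  ∃ B : Finset (Finset V), (∀ b ∈ B, b.card = q) ∧
    ∀ x y z : V, x ≠ y → x ≠ z → y ≠ z → ∃! b, b ∈ B ∧ x ∈ b ∧ y ∈ b ∧ z ∈ b

theorem St3.equiv {V W : Type} [DecidableEq V] [DecidableEq W] {q : ℕ} (e : V ≃ W)
    (h : St3 V q) : St3 W q := by
  obtain ⟨B, h1, h2⟩ := h
  refine ⟨B.image (fun b => b.map e.toEmbedding), ?_, ?_⟩
  · intro b hb
    obtain ⟨c, hc, rfl⟩ := Finset.mem_image.1 hb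
    simp [h1 c hc]
  · intro x y z hxy hxz hyz
    obtain ⟨b, ⟨hb, hx, hy, hz⟩, hu⟩ := h2 (e.symm x) (e.symm y) (e.symm z) (by simpa using hxy)
      (by simpa using hxz) (by simpa using hyz)
    refine ⟨b.map e.toEmbedding, ⟨Finset.mem_image_of_mem _ hb, by simpa using hx,
      by simpa using hy, by simpa using hz⟩, ?_⟩
    rintro c0 ⟨hc0, hx', hy', hz'⟩
    obtain ⟨c, hc, rfl⟩ := Finset.mem_image.1 hc0
    rw [hu c ⟨hc, by simpa using hx', by simpa using hy', by simpa using hz'⟩]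

theorem St3.card {V W : Type} [DecidableEq V] [DecidableEq W] [Fintype V] [Fintype W] {q : ℕ}
    (hc : Fintype.card V = Fintype.card W) (h : St3 V q) : St3 W q :=
  h.equiv (Fintype.equivOfCardEq hc)

/-- translation-invariant designs from the blocks through `0` -/
theorem st3_of_zero {G : Type} [DecidableEq G] [Fintype G] [AddCommGroup G] {q : ℕ}
    (D : Finset (Finset G)) (h1 : ∀ b ∈ D, b.card = q) (h0 : ∀ b ∈ D, (0 : G) ∈ b)
    (hc : ∀ b ∈ D, ∀ x ∈ b, b.image (· - x) ∈ D)
    (h3 : ∀ y z : G, y ≠ 0 → z ≠ 0 → y ≠ z → ∃ b ∈ D, y ∈ b ∧ z ∈ b)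
    (h4 : D.card * ((q - 1) * (q - 1) - (q - 1)) ≤
      (Fintype.card G - 1) * (Fintype.card G - 1) - (Fintype.card G - 1)) : St3 G q := by
  let T : Finset (Σ _ : Finset G, G × G) := D.sigma (fun b => (b.erase 0).offDiag)
  let O : Finset (G × G) := (Finset.univ.erase (0 : G)).offDiag
  have hT : T.card ≤ O.card := by
    have : T.card = D.card * ((q - 1) * (q - 1) - (q - 1)) := by
      rw [Finset.card_sigma, Finset.sum_congr rfl (g := fun _ => (q - 1) * (q - 1) - (q - 1))]
      · simp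
      · intro b hb; rw [Finset.offDiag_card, Finset.card_erase_of_mem (h0 b hb), h1 b hb]
    rw [this]; simpa [O] using h4
  have hinj : Set.InjOn (fun t : (Σ _ : Finset G, G × G) => t.2) T := by
    refine Finset.injOn_of_surjOn_of_card_le (t := O) _ ?_ ?_ hT
    · rintro ⟨b, x, y⟩ ht
      simp only [T, Finset.coe_sigma, Set.mem_sigma_iff, Finset.mem_coe, Finset.mem_offDiag,
        Finset.mem_erase] at ht
      simp only [O, Finset.mem_coe, Finset.mem_offDiag, Finset.mem_erase, Finset.mem_univ]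
      tauto
    · rintro ⟨y, z⟩ hd
      simp only [O, Finset.mem_coe, Finset.mem_offDiag, Finset.mem_erase, Finset.mem_univ] at hd
      obtain ⟨b, hb, k1, k2⟩ := h3 y z hd.1.1 hd.2.1.1 hd.2.2
      refine ⟨⟨b, y, z⟩, ?_, rfl⟩
      simp only [T, Finset.coe_sigma, Set.mem_sigma_iff, Finset.mem_coe, Finset.mem_offDiag,
        Finset.mem_erase]
      tauto
  have hu : ∀ y z : G, y ≠ 0 → z ≠ 0 → y ≠ z → ∀ b ∈ D, ∀ c ∈ D, y ∈ b → z ∈ b → y ∈ c → z ∈ c →
      b = c := by
    intro y z hy hz hyz b hb c hc' k1 k2 k3 k4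
    have := @hinj ⟨b, y, z⟩ (by simp [T]; tauto) ⟨c, y, z⟩ (by simp [T]; tauto) rfl
    simpa using this
  refine ⟨(D ×ˢ Finset.univ).image (fun p => p.1.image (· + p.2)), ?_, ?_⟩
  · intro s hs
    obtain ⟨⟨b, g⟩, hp, rfl⟩ := Finset.mem_image.1 hs
    rw [Finset.card_image_of_injective _ (add_left_injective g)]
    exact h1 b (Finset.mem_product.1 hp).1
  · intro u v w huv huw hvw
    have n1 : v - u ≠ 0 := sub_ne_zero.2 huv.symm
    have n2 : w - u ≠ 0 := sub_ne_zero.2 huw.symm
    have n3 : v - u ≠ w - u := by simpa using hvw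
    obtain ⟨b, hb, k1, k2⟩ := h3 _ _ n1 n2 n3
    refine ⟨b.image (· + u), ⟨Finset.mem_image.2 ⟨(b, u), by simp [hb], rfl⟩,
      Finset.mem_image.2 ⟨0, h0 b hb, by simp⟩, Finset.mem_image.2 ⟨_, k1, by simp⟩,
      Finset.mem_image.2 ⟨_, k2, by simp⟩⟩, ?_⟩
    rintro s ⟨hs, l1, l2, l3⟩
    obtain ⟨⟨b', g⟩, hp, rfl⟩ := Finset.mem_image.1 hs
    obtain ⟨x, hx, rfl⟩ := Finset.mem_image.1 l1
    obtain ⟨y, hy, rfl⟩ := Finset.mem_image.1 l2
    obtain ⟨z, hz, rfl⟩ := Finset.mem_image.1 l3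
    have hb' := (Finset.mem_product.1 hp).1
    have := hu _ _ n1 n2 n3 _ (hc b' hb' x hx) b hb
      (Finset.mem_image.2 ⟨y, hy, by simp⟩) (Finset.mem_image.2 ⟨z, hz, by simp⟩) k1 k2
    rw [← this, Finset.image_image]
    congr 1
    funext t
    simp only [Function.comp]
    abel

def codes3 (a b c : ℕ) (l : List ℕ) : List ℕ :=
  l.flatMap fun x => l.flatMap fun y => l.map fun z => sub3 a b c y x * (a * b * c) + sub3 a b c z x

def sep3 (a b c : ℕ) : List ℕ → Bool
  | [] => true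
  | x :: t => t.all (fun y => sub3 a b c x y != 0) && sep3 a b c t

/-- `l` is closed under differences -/
def sg (a b c : ℕ) (l : List ℕ) : Bool :=
  l.all fun x => l.all fun y => l.any fun z => sub3 a b c y x == sub3 a b c z 0

def chk3 (a b c q : ℕ) (L1 L2 : List (List ℕ)) : Bool :=
  (L1 ++ L2).all (fun l => l.length == q && sep3 a b c l) && L2.all (sg a b c) &&
  (mk2 (((List.range (a * b * c)).flatMap fun i => [i, i * (a * b * c), i * (a * b * c) + i]) ::
    (L1 ++ L2).map (codes3 a b c)) == 2 ^ (a * b * c * (a * b * c)) - 1) &&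
  decide ((L1.length * q + L2.length) * ((q - 1) * (q - 1) - (q - 1)) ≤
    (a * b * c - 1) * (a * b * c - 1) - (a * b * c - 1))

theorem sep3_pw {d e f : ℕ} [NeZero d] [NeZero e] [NeZero f] {l : List ℕ}
    (h : sep3 d e f l = true) : l.Pairwise (fun x y => ph d e f x ≠ ph d e f y) := by
  induction l with
  | nil => simp
  | cons x t ih =>
    simp only [sep3, Bool.and_eq_true, List.all_eq_true, bne_iff_ne] at h
    refine List.Pairwise.cons (fun y hy e0 => h.1 y hy ?_) (ih h.2)
    rw [← enc_sub, e0, sub_self, enc_zero]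

theorem st3_of_chk (a b c q : ℕ) [NeZero a] [NeZero b] [NeZero c] (L1 L2 : List (List ℕ))
    (h : chk3 a b c q L1 L2 = true) : St3 (G3 a b c) q := by
  simp only [chk3, Bool.and_eq_true, List.all_eq_true, beq_iff_eq, decide_eq_true_eq] at h
  obtain ⟨⟨⟨h1, hs⟩, h2⟩, h3⟩ := h
  let F : List ℕ → Finset (G3 a b c) := fun l => (l.map (ph a b c)).toFinset
  have hF : ∀ l ∈ L1 ++ L2, (F l).card = q := by
    intro l hl
    rw [List.toFinset_card_of_nodup, List.length_map, (h1 l hl).1]
    exact List.pairwise_map.2 (sep3_pw (h1 l hl).2)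
  let S : Finset (Finset (G3 a b c)) := ((L1 ++ L2).map F).toFinset
  let D : Finset (Finset (G3 a b c)) := (S.sigma (fun s => s)).image (fun p => p.1.image (· - p.2))
  have hD : ∀ d, d ∈ D ↔ ∃ l ∈ L1 ++ L2, ∃ x ∈ F l, (F l).image (· - x) = d := by
    intro d
    simp only [D, S, Finset.mem_image, Finset.mem_sigma, List.mem_toFinset, List.mem_map]
    constructor
    · rintro ⟨⟨s, x⟩, ⟨⟨l, hl, rfl⟩, hx⟩, rfl⟩; exact ⟨l, hl, x, hx, rfl⟩
    · rintro ⟨l, hl, x, hx, rfl⟩; exact ⟨⟨F l, x⟩, ⟨⟨l, hl, rfl⟩, hx⟩, rfl⟩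
  have p0 : ph a b c 0 = 0 := by simp [ph]
  have hsg : ∀ l ∈ L2, ∀ x ∈ F l, (F l).image (· - x) = F l := by
    intro l hl x hx
    apply Finset.eq_of_subset_of_card_le
    · intro t ht
      obtain ⟨y, hy, rfl⟩ := Finset.mem_image.1 ht
      obtain ⟨x, hx', rfl⟩ := List.mem_map.1 (List.mem_toFinset.1 hx)
      obtain ⟨y, hy', rfl⟩ := List.mem_map.1 (List.mem_toFinset.1 hy)
      have := hs l hl
      simp only [sg, List.all_eq_true, List.any_eq_true, beq_iff_eq] at this
      obtain ⟨z, hz, e⟩ := this x hx' y hy'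
      rw [← enc_sub, ← enc_sub, p0, sub_zero] at e
      rw [enc_inj e]
      exact List.mem_toFinset.2 (List.mem_map_of_mem hz)
    · rw [Finset.card_image_of_injective _ sub_left_injective]
  refine st3_of_zero D ?_ ?_ ?_ ?_ ?_
  · intro d hd
    obtain ⟨l, hl, x, -, rfl⟩ := (hD d).1 hd
    rw [Finset.card_image_of_injective _ sub_left_injective, hF l hl]
  · intro d hd
    obtain ⟨l, -, x, hx, rfl⟩ := (hD d).1 hd
    exact Finset.mem_image.2 ⟨x, hx, sub_self x⟩
  · intro d hd t ht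
    obtain ⟨l, hl, x, -, rfl⟩ := (hD d).1 hd
    obtain ⟨y, hy, rfl⟩ := Finset.mem_image.1 ht
    refine (hD _).2 ⟨l, hl, y, hy, ?_⟩
    rw [Finset.image_image]
    congr 1
    funext t
    simp
  · intro y z hy hz hyz
    have hlt : enc y * (a * b * c) + enc z < a * b * c * (a * b * c) :=
      lt_mul' (enc_lt _) (enc_lt _)
    have hb := congrArg (fun m => m.testBit (enc y * (a * b * c) + enc z)) h2
    simp only [Nat.testBit_two_pow_sub_one, hlt, decide_true] at hb
    obtain ⟨l, hl, hi⟩ := mk2_bit hb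
    have z0 : 0 < a * b * c := lt_of_le_of_lt (Nat.zero_le _) (enc_lt y)
    rcases List.mem_cons.1 hl with rfl | hl0
    · exfalso
      simp only [List.mem_flatMap, List.mem_range, List.mem_cons, List.not_mem_nil, or_false] at hi
      obtain ⟨i, hi, e | e | e⟩ := hi
      · have := (dm (y := 0) (enc_lt z) hi (by simpa using e)).1
        exact hy (enc_inj (this.trans enc_zero.symm))
      · have := (dm (v := 0) (enc_lt z) z0 (by simpa using e)).2
        exact hz (enc_inj (this.trans enc_zero.symm))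
      · have := dm (enc_lt z) hi e
        exact hyz (enc_inj (this.1.trans this.2.symm))
    · clear hl
      obtain ⟨l, hl, rfl⟩ := List.mem_map.1 hl0
      simp only [codes3, List.mem_flatMap, List.mem_map] at hi
      obtain ⟨x, hx, u, hu, w, hw, hi⟩ := hi
      rw [← enc_sub, ← enc_sub] at hi
      obtain ⟨e1, e2⟩ := dm (enc_lt _) (enc_lt _) hi
      have m : ∀ t ∈ l, ph a b c t ∈ F l := fun t ht => List.mem_toFinset.2 (List.mem_map_of_mem ht)
      exact ⟨_, (hD _).2 ⟨l, hl, _, m x hx, rfl⟩, Finset.mem_image.2 ⟨_, m u hu, enc_inj e1⟩,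
        Finset.mem_image.2 ⟨_, m w hw, enc_inj e2⟩⟩
  · have hc : D.card ≤ L1.length * q + L2.length := by
      have hsub : D ⊆ ((L1.map F).toFinset.biUnion (fun s => s.image (fun x => s.image (· - x)))) ∪
          (L2.map F).toFinset := by
        intro d hd
        obtain ⟨l, hl, x, hx, rfl⟩ := (hD d).1 hd
        rcases List.mem_append.1 hl with hl | hl
        · exact Finset.mem_union_left _ (Finset.mem_biUnion.2 ⟨F l, List.mem_toFinset.2
            (List.mem_map_of_mem hl), Finset.mem_image.2 ⟨x, hx, rfl⟩⟩)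
        · rw [hsg l hl x hx]
          exact Finset.mem_union_right _ (List.mem_toFinset.2 (List.mem_map_of_mem hl))
      refine (Finset.card_le_card hsub).trans ((Finset.card_union_le _ _).trans (add_le_add ?_ ?_))
      · refine (Finset.card_biUnion_le_card_mul _ _ q ?_).trans (Nat.mul_le_mul_right _ ?_)
        · intro s hs'
          obtain ⟨l, hl, rfl⟩ := List.mem_map.1 (List.mem_toFinset.1 hs')
          exact Finset.card_image_le.trans (hF l (List.mem_append_left _ hl)).le
        · simpa using List.toFinset_card_le (L1.map F)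
      · simpa using List.toFinset_card_le (L2.map F)
    refine le_trans (Nat.mul_le_mul_right _ hc) ?_
    simpa [G3, mul_assoc] using h3

end H9St
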