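import Mathlib
import Pool.Agent.H9.St3Def

namespace H9St

set_option maxRecDepth 100000

def ON : List (List ℕ) := [[0,0,0,0,0],[0,1,3,2,1],[0,2,1,3,2],[0,3,2,1,3],[0,1,2,3,0],[0,0,1,1,1],[0,3,3,0,2],[0,2,0,2,3],[0,2,3,1,0],[0,3,0,3,1],[0,0,2,2,2],[0,1,1,0,3],[0,3,1,2,0],[0,2,2,0,1],[0,1,0,1,2],[0,0,3,3,3],[1,1,1,1,0],[1,0,2,3,1],[1,3,0,2,2],[1,2,3,0,3],[1,0,3,2,0],[1,1,0,0,1],[1,2,2,1,2],[1,3,1,3,3],[1,3,2,0,0],[1,2,1,2,1],[1,1,3,3,2],[1,0,0,1,3],[1,2,0,3,0],[1,3,3,1,1],[1,0,1,0,2],[1,1,2,2,3],[2,2,2,2,0],[2,3,1,0,1],[2,0,3,1,2],[2,1,0,3,3],[2,3,0,1,0],[2,2,3,3,1],[2,1,1,2,2],[2,0,2,0,3],[2,0,1,3,0],[2,1,2,1,1],[2,2,0,0,2],[2,3,3,2,3],[2,1,3,0,0],[2,0,0,2,1],[2,3,2,3,2],[2,2,1,1,3],[3,3,3,3,0],[3,2,0,1,1],[3,1,2,0,2],[3,0,1,2,3],[3,2,1,0,0],[3,3,2,2,1],[3,0,0,3,2],[3,1,3,1,3],[3,1,0,2,0],[3,0,3,0,1],[3,3,1,1,2],[3,2,2,3,3],[3,0,2,1,0],[3,1,1,3,1],[3,2,3,2,2],[3,3,0,0,3]]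

def OA : List (Fin 5 → Fin 4) := ON.map (fun l i => Fin.ofNat 4 (l.getD i 0))

def oc (i j k : ℕ) : List ℕ := ON.map fun l =>
  (l.getD i 0 % 4 * 4 + l.getD j 0 % 4) * 4 + l.getD k 0 % 4

theorem oa_mask : ∀ i j k : Fin 5, i ≠ j → i ≠ k → j ≠ k → mk1 (oc i j k) = 2 ^ (4 * 4 * 4) - 1 := by
  decide +kernel

theorem oa_ex : ∀ i j k : Fin 5, i ≠ j → i ≠ k → j ≠ k → ∀ a b c : Fin 4,
    ∃ f ∈ OA, f i = a ∧ f j = b ∧ f k = c := by
  intro i j k h1 h2 h3 a b c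
  have hlt : (a.val * 4 + b.val) * 4 + c.val < 4 * 4 * 4 := lt_mul' (lt_mul' a.2 b.2) c.2
  have hb := congrArg (fun m => m.testBit ((a.val * 4 + b.val) * 4 + c.val)) (oa_mask i j k h1 h2 h3)
  simp only [Nat.testBit_two_pow_sub_one, hlt, decide_true] at hb
  obtain ⟨l, hl, e⟩ := List.mem_map.1 (mk1_bit hb)
  obtain ⟨e1, e2⟩ := dm (Nat.mod_lt _ (by norm_num)) c.2 e
  obtain ⟨e3, e4⟩ := dm (Nat.mod_lt _ (by norm_num)) b.2 e1
  exact ⟨_, List.mem_map_of_mem hl, Fin.ext e3, Fin.ext e4, Fin.ext e2⟩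

theorem oa_un : ∀ f ∈ OA, ∀ g ∈ OA, ∀ i j k : Fin 5, i ≠ j → i ≠ k → j ≠ k →
    f i = g i → f j = g j → f k = g k → f = g := by
  intro f hf g hg i j k h1 h2 h3 a1 a2 a3
  have := Finset.injOn_of_surjOn_of_card_le (s := OA.toFinset)
    (t := (Finset.univ : Finset (Fin 4 × Fin 4 × Fin 4))) (fun f => (f i, f j, f k))
    (fun _ _ => by simp) (fun p _ => by
      obtain ⟨f, hf, e⟩ := oa_ex i j k h1 h2 h3 p.1 p.2.1 p.2.2
      exact ⟨f, by simpa using hf, by simp [e]⟩)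
    ((List.toFinset_card_le _).trans (by simp [OA, ON]))
  exact this (by simpa using hf) (by simpa using hg) (by simp [*])

abbrev P17 := Option (Fin 4 × Fin 4)

def LN : List (List ℕ) := [[0, 1, 2, 3, 16], [0, 1, 4, 12, 15], [0, 1, 5, 13, 14], [0, 1, 6, 8, 10], [0, 1, 7, 9, 11], [0, 2, 4, 7, 13], [0, 2, 5, 6, 15], [0, 2, 8, 9, 14], [0, 2, 10, 11, 12], [0, 3, 4, 6, 9], [0, 3, 5, 7, 10], [0, 3, 8, 12, 13], [0, 3, 11, 14, 15], [0, 4, 5, 8, 11], [0, 4, 10, 14, 16], [0, 5, 9, 12, 16], [0, 6, 7, 12, 14], [0, 6, 11, 13, 16], [0, 7, 8, 15, 16], [0, 9, 10, 13, 15], [1, 2, 4, 6, 11], [1, 2, 5, 7, 8], [1, 2, 9, 12, 13], [1, 2, 10, 14, 15], [1, 3, 4, 7, 14], [1, 3, 5, 6, 12], [1, 3, 8, 9, 15], [1, 3, 10, 11, 13], [1, 4, 5, 9, 10], [1, 4, 8, 13, 16], [1, 5, 11, 15, 16], [1, 6, 7, 13, 15], [1, 6, 9, 14, 16], [1, 7, 10, 12, 16], [1, 8, 11, 12, 14], [2, 3, 4, 8, 10],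 [2, 3, 5, 9, 11], [2, 3, 6, 13, 14], [2, 3, 7, 12, 15], [2, 4, 5, 12, 14], [2, 4, 9, 15, 16], [2, 5, 10, 13, 16], [2, 6, 7, 9, 10], [2, 6, 8, 12, 16], [2, 7, 11, 14, 16], [2, 8, 11, 13, 15], [3, 4, 5, 13, 15], [3, 4, 11, 12, 16], [3, 5, 8, 14, 16], [3, 6, 7, 8, 11], [3, 6, 10, 15, 16], [3, 7, 9, 13, 16], [3, 9, 10, 12, 14], [4, 5, 6, 7, 16], [4, 6, 8, 14, 15], [4, 6, 10, 12, 13], [4, 7, 8, 9, 12], [4, 7, 10, 11, 15], [4, 9, 11, 13, 14], [5, 6, 8, 9, 13], [5, 6, 10, 11, 14], [5, 7, 9, 14, 15], [5, 7, 11, 12, 13], [5, 8, 10, 12, 15], [6, 9, 11, 12, 15], [7, 8, 10, 13, 14], [8, 9, 10, 11, 16], [12, 13, 14, 15, 16]]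

def ps (n : ℕ) : P17 := if n = 16 then none else some (Fin.ofNat 4 (n / 4), Fin.ofNat 4 n)

def e17 : P17 → ℕ
  | none => 16
  | some p => p.1.val * 4 + p.2.val

theorem ps_e : ∀ x, ps (e17 x) = x ∧ e17 x < 17 := by decide +kernel

def I17 : List (Finset P17) := LN.map (fun l => (l.map ps).toFinset)

def cd (l : List ℕ) : List ℕ := l.flatMap fun x => l.flatMap fun y => l.map fun z =>
  (x * 17 + y) * 17 + z

theorem ln_mask : mk2 (LN.map cd) = 2 ^ (17 * 17 * 17) - 1 := by decide +kernel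

theorem ln_lt : ∀ l ∈ LN, ∀ x ∈ l, x < 17 := by decide +kernel

theorem ln_nd : ∀ l ∈ LN, l.Nodup ∧ l.length = 5 := by decide +kernel

theorem e_ps : ∀ n < 17, e17 (ps n) = n := by decide +kernel

theorem i_card : ∀ c ∈ I17, c.card = 5 := by
  intro c hc
  obtain ⟨l, hl, rfl⟩ := List.mem_map.1 hc
  rw [List.toFinset_card_of_nodup, List.length_map, (ln_nd l hl).2]
  refine (ln_nd l hl).1.map_on (fun x hx y hy e => ?_)
  rw [← e_ps x (ln_lt l hl x hx), e, e_ps y (ln_lt l hl y hy)]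

theorem i_ex : ∀ x y z : P17, ∃ c ∈ I17, x ∈ c ∧ y ∈ c ∧ z ∈ c := by
  intro x y z
  have hlt : (e17 x * 17 + e17 y) * 17 + e17 z < 17 * 17 * 17 :=
    lt_mul' (lt_mul' (ps_e x).2 (ps_e y).2) (ps_e z).2
  have hb := congrArg (fun m => m.testBit ((e17 x * 17 + e17 y) * 17 + e17 z)) ln_mask
  simp only [Nat.testBit_two_pow_sub_one, hlt, decide_true] at hb
  obtain ⟨l0, hl0, hi⟩ := mk2_bit hb
  obtain ⟨l, hl, rfl⟩ := List.mem_map.1 hl0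
  simp only [cd, List.mem_flatMap, List.mem_map] at hi
  obtain ⟨u, hu, v, hv, w, hw, e⟩ := hi
  obtain ⟨e1, e2⟩ := dm (ln_lt l hl w hw) (ps_e z).2 e
  obtain ⟨e3, e4⟩ := dm (ln_lt l hl v hv) (ps_e y).2 e1
  have m : ∀ t ∈ l, ∀ p, t = e17 p → p ∈ (l.map ps).toFinset := fun t ht p hp =>
    List.mem_toFinset.2 (List.mem_map.2 ⟨t, ht, by rw [hp, (ps_e p).1]⟩)
  exact ⟨_, List.mem_map_of_mem hl, m u hu x e3, m v hv y e4, m w hw z e2⟩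

theorem i_grp : ∀ i : Fin 4, ({none, some (i, 0), some (i, 1), some (i, 2), some (i, 3)} :
    Finset P17) ∈ I17 := by
  intro i
  refine List.mem_map.2 ⟨[4 * i, 4 * i + 1, 4 * i + 2, 4 * i + 3, 16], ?_, ?_⟩ <;> revert i <;>
    decide +kernel

theorem i_un {c d : Finset P17} (hc : c ∈ I17) (hd : d ∈ I17) {x y z : P17} (h1 : x ≠ y)
    (h2 : x ≠ z) (h3 : y ≠ z) (a1 : x ∈ c) (a2 : y ∈ c) (a3 : z ∈ c) (b1 : x ∈ d) (b2 : y ∈ d)
    (b3 : z ∈ d) : c = d := by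
  have := Finset.injOn_of_surjOn_of_card_le
    (s := I17.toFinset.sigma (fun c => c.powersetCard 3))
    (t := (Finset.univ : Finset P17).powersetCard 3) (fun p => p.2)
    (fun p hp => by
      simp only [Finset.coe_sigma, Set.mem_sigma_iff, Finset.mem_coe, Finset.mem_powersetCard] at hp
      simp [hp.2.2])
    (fun t ht => by
      obtain ⟨x, y, z, -, -, -, rfl⟩ := Finset.card_eq_three.1
        (Finset.mem_powersetCard.1 (Finset.mem_coe.1 ht)).2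
      obtain ⟨c, hc, k1, k2, k3⟩ := i_ex x y z
      refine ⟨⟨c, {x, y, z}⟩, ?_, rfl⟩
      simp only [Finset.coe_sigma, Set.mem_sigma_iff, Finset.mem_coe, Finset.mem_powersetCard,
        List.mem_toFinset]
      exact ⟨hc, by simp [Finset.insert_subset_iff, *],
        (Finset.mem_powersetCard.1 (Finset.mem_coe.1 ht)).2⟩)
    (by
      rw [Finset.card_sigma, Finset.sum_congr rfl (g := fun _ => 10)]
      · have : I17.toFinset.card ≤ 68 := (List.toFinset_card_le _).trans (by simp [I17, LN])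
        simp only [Finset.sum_const, smul_eq_mul, Finset.card_powersetCard, Finset.card_univ]
        refine (Nat.mul_le_mul_right _ this).trans ?_
        simp [Nat.choose]
      · intro c hc
        rw [Finset.card_powersetCard, i_card c (List.mem_toFinset.1 hc)]; rfl)
  have h3' : ({x, y, z} : Finset P17).card = 3 := Finset.card_eq_three.2 ⟨x, y, z, h1, h2, h3, rfl⟩
  have := @this ⟨c, {x, y, z}⟩ (by simp [Finset.insert_subset_iff, *]) ⟨d, {x, y, z}⟩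
    (by simp [Finset.insert_subset_iff, *]) rfl
  simpa using this

end H9St
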