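import Mathlib
import Pool.Agent.H9.St3Ing

namespace H9St

theorem enum_of_card {X : Type} [DecidableEq X] {n : ℕ} (s : Finset X) (h : s.card = n) :
    ∃ e : Fin n → X, Function.Injective e ∧ ∀ x, x ∈ s ↔ ∃ i, e i = x := by
  refine ⟨fun i => ((Finset.equivFinOfCardEq h).symm i : X), fun i j e => ?_, fun x => ⟨fun hx =>
    ⟨Finset.equivFinOfCardEq h ⟨x, hx⟩, by simp⟩, ?_⟩⟩
  · exact (Finset.equivFinOfCardEq h).symm.injective (Subtype.ext e)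
  · rintro ⟨i, rfl⟩; exact Subtype.prop _

theorem st3_rec {X : Type} [DecidableEq X] [Nontrivial X] (h : St3 (Option X) 5) :
    St3 (Option (X × Fin 4)) 5 := by
  obtain ⟨B, h1, h2⟩ := h
  have E5 : ∀ b : Finset (Option X), ∃ e : Fin 5 → X, b ∈ B → none ∉ b →
      Function.Injective e ∧ ∀ x, some x ∈ b ↔ ∃ i, e i = x := by
    intro b
    by_cases hb : b ∈ B ∧ none ∉ b
    · obtain ⟨e, he⟩ := enum_of_card (n := 5) b.eraseNone (by
        rw [Finset.card_eraseNone_of_not_mem hb.2, h1 b hb.1])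
      exact ⟨e, fun _ _ => by simpa using he⟩
    · exact ⟨fun _ => Classical.arbitrary X, fun a c => absurd ⟨a, c⟩ hb⟩
  have E4 : ∀ b : Finset (Option X), ∃ e : Fin 4 → X, b ∈ B → none ∈ b →
      Function.Injective e ∧ ∀ x, some x ∈ b ↔ ∃ i, e i = x := by
    intro b
    by_cases hb : b ∈ B ∧ none ∈ b
    · obtain ⟨e, he⟩ := enum_of_card (n := 4) b.eraseNone (by
        rw [Finset.card_eraseNone_of_mem hb.2, h1 b hb.1])
      exact ⟨e, fun _ _ => by simpa using he⟩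
    · exact ⟨fun _ => Classical.arbitrary X, fun a c => absurd ⟨a, c⟩ hb⟩
  choose e5 he5 using E5
  choose e4 he4 using E4
  let π : Option (X × Fin 4) → Option X := Option.map Prod.fst
  let φ : Finset (Option X) → P17 → Option (X × Fin 4) := fun b => Option.map (Prod.map (e4 b) id)
  let td : Finset (Option X) → (Fin 5 → Fin 4) → Finset (Option (X × Fin 4)) := fun b f =>
    Finset.univ.image (fun i => some (e5 b i, f i))
  have φi : ∀ b ∈ B, none ∈ b → Function.Injective (φ b) := fun b hb hn =>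
    Option.map_injective ((he4 b hb hn).1.prodMap Function.injective_id)
  have φπ : ∀ b ∈ B, none ∈ b → ∀ p, π (φ b p) ∈ b := by
    intro b hb hn p
    cases p with
    | none => exact hn
    | some p => exact ((he4 b hb hn).2 _).2 ⟨p.1, rfl⟩
  have φs : ∀ b ∈ B, none ∈ b → ∀ t, π t ∈ b → ∃ p, φ b p = t := by
    intro b hb hn t ht
    cases t with
    | none => exact ⟨none, rfl⟩
    | some t =>
      obtain ⟨i, hi⟩ := ((he4 b hb hn).2 _).1 ht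
      exact ⟨some (i, t.2), by simp [φ, hi]⟩
  let N : Finset (Finset (Option (X × Fin 4))) :=
    ((B.filter (none ∉ ·)) ×ˢ OA.toFinset).image (fun p => td p.1 p.2) ∪
    ((B.filter (none ∈ ·)) ×ˢ I17.toFinset).image (fun p => p.2.image (φ p.1))
  have hN : ∀ s, s ∈ N ↔ (∃ b ∈ B, none ∉ b ∧ ∃ f ∈ OA, td b f = s) ∨
      ∃ b ∈ B, none ∈ b ∧ ∃ c ∈ I17, c.image (φ b) = s := by
    intro s
    simp only [N, Finset.mem_union, Finset.mem_image, Finset.mem_product, Finset.mem_filter,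
      List.mem_toFinset, Prod.exists]
    constructor
    · rintro (⟨b, f, ⟨⟨a1, a2⟩, a3⟩, a4⟩ | ⟨b, f, ⟨⟨a1, a2⟩, a3⟩, a4⟩)
      · exact .inl ⟨b, a1, a2, f, a3, a4⟩
      · exact .inr ⟨b, a1, a2, f, a3, a4⟩
    · rintro (⟨b, a1, a2, f, a3, a4⟩ | ⟨b, a1, a2, f, a3, a4⟩)
      · exact .inl ⟨b, f, ⟨⟨a1, a2⟩, a3⟩, a4⟩
      · exact .inr ⟨b, f, ⟨⟨a1, a2⟩, a3⟩, a4⟩
  have mtd : ∀ b f t, t ∈ td b f ↔ ∃ i, some (e5 b i, f i) = t := by
    intro b f t; simp [td]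
  have tdπ : ∀ b ∈ B, none ∉ b → ∀ f t, t ∈ td b f → π t ∈ b := by
    intro b hb hn f t ht
    obtain ⟨i, rfl⟩ := (mtd _ _ _).1 ht
    exact ((he5 b hb hn).2 _).2 ⟨i, rfl⟩
  have tdne : ∀ b ∈ B, none ∉ b → ∀ f t u, t ∈ td b f → u ∈ td b f → π t = π u → t = u := by
    intro b hb hn f t u ht hu e
    obtain ⟨i, rfl⟩ := (mtd _ _ _).1 ht
    obtain ⟨j, rfl⟩ := (mtd _ _ _).1 hu
    obtain rfl : i = j := (he5 b hb hn).1 (by simpa [π] using e)
    rfl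
  have imπ : ∀ b ∈ B, none ∈ b → ∀ (c : Finset P17) t, t ∈ c.image (φ b) → π t ∈ b := by
    intro b hb hn c t ht
    obtain ⟨p, -, rfl⟩ := Finset.mem_image.1 ht
    exact φπ b hb hn p
  have hun : ∀ x y z, x ≠ y → x ≠ z → y ≠ z → ∀ b ∈ B, ∀ c ∈ B, x ∈ b → y ∈ b → z ∈ b → x ∈ c →
      y ∈ c → z ∈ c → b = c := fun x y z a1 a2 a3 b hb c hc k1 k2 k3 k4 k5 k6 =>
    (h2 x y z a1 a2 a3).unique ⟨hb, k1, k2, k3⟩ ⟨hc, k4, k5, k6⟩
  -- a block through `∞` and any two points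
  have hinf : ∀ x y : Option X, ∃ b ∈ B, none ∈ b ∧ x ∈ b ∧ y ∈ b := by
    have aux : ∀ x y : X, x ≠ y → ∃ b ∈ B, none ∈ b ∧ some x ∈ b ∧ some y ∈ b := fun x y hxy =>
      (h2 none (some x) (some y) (by simp) (by simp) (by simpa using hxy)).exists
    have aux1 : ∀ x : X, ∃ b ∈ B, none ∈ b ∧ some x ∈ b := by
      intro x
      obtain ⟨y, hy⟩ := exists_ne x
      obtain ⟨b, k1, k2, k3, -⟩ := aux x y hy.symm
      exact ⟨b, k1, k2, k3⟩
    intro x y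
    rcases x with _ | x <;> rcases y with _ | y
    · obtain ⟨b, k1, k2, -⟩ := aux1 (Classical.arbitrary X); exact ⟨b, k1, k2, k2, k2⟩
    · obtain ⟨b, k1, k2, k3⟩ := aux1 y; exact ⟨b, k1, k2, k2, k3⟩
    · obtain ⟨b, k1, k2, k3⟩ := aux1 x; exact ⟨b, k1, k2, k3, k2⟩
    · by_cases hxy : x = y
      · obtain ⟨b, k1, k2, k3⟩ := aux1 x; exact ⟨b, k1, k2, k3, hxy ▸ k3⟩
      · exact aux x y hxy
  have exI : ∀ b ∈ B, none ∈ b → ∀ x y z, π x ∈ b → π y ∈ b → π z ∈ b →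
      ∃ s ∈ N, x ∈ s ∧ y ∈ s ∧ z ∈ s := by
    intro b hb hn x y z k1 k2 k3
    obtain ⟨x, rfl⟩ := φs b hb hn x k1
    obtain ⟨y, rfl⟩ := φs b hb hn y k2
    obtain ⟨z, rfl⟩ := φs b hb hn z k3
    obtain ⟨c, hc, a1, a2, a3⟩ := i_ex x y z
    exact ⟨_, (hN _).2 (.inr ⟨b, hb, hn, c, hc, rfl⟩), Finset.mem_image_of_mem _ a1,
      Finset.mem_image_of_mem _ a2, Finset.mem_image_of_mem _ a3⟩
  have unI : ∀ b ∈ B, none ∈ b → ∀ c ∈ I17, ∀ d ∈ I17, ∀ x y z, x ≠ y → x ≠ z → y ≠ z →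
      x ∈ c.image (φ b) → y ∈ c.image (φ b) → z ∈ c.image (φ b) → x ∈ d.image (φ b) →
      y ∈ d.image (φ b) → z ∈ d.image (φ b) → c = d := by
    intro b hb hn c hc d hd x y z a1 a2 a3 k1 k2 k3 k4 k5 k6
    obtain ⟨x, l1, rfl⟩ := Finset.mem_image.1 k1
    obtain ⟨y, l2, rfl⟩ := Finset.mem_image.1 k2
    obtain ⟨z, l3, rfl⟩ := Finset.mem_image.1 k3
    rw [(φi b hb hn).mem_finset_image] at k4 k5 k6
    exact i_un hc hd (fun e => a1 (by rw [e])) (fun e => a2 (by rw [e])) (fun e => a3 (by rw [e]))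
      l1 l2 l3 k4 k5 k6
  -- the group blocks
  have grp : ∀ b ∈ B, none ∈ b → ∀ a : X, some a ∈ b → ∃ c ∈ I17, ∀ t, t ∈ c.image (φ b) ↔
      π t = none ∨ π t = some a := by
    intro b hb hn a ha
    obtain ⟨i, rfl⟩ := ((he4 b hb hn).2 _).1 ha
    refine ⟨_, i_grp i, fun t => ?_⟩
    rcases t with _ | ⟨u, v⟩
    · simp [φ, π]
    · simp only [φ, π, Finset.image_insert, Finset.image_singleton, Option.map_some, Prod.map,
        Finset.mem_insert, Finset.mem_singleton, id, Option.map_none, reduceCtorEq, false_or,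
        Option.some.injEq, Prod.mk.injEq]
      fin_cases v <;> simp
  refine ⟨N, ?_, ?_⟩
  · intro s hs
    rcases (hN s).1 hs with ⟨b, hb, hn, f, -, rfl⟩ | ⟨b, hb, hn, c, hc, rfl⟩
    · rw [Finset.card_image_of_injective]
      · simp
      · intro i j e
        exact (he5 b hb hn).1 (by simp only [Option.some.injEq, Prod.mk.injEq] at e; exact e.1)
    · rw [Finset.card_image_of_injective _ (φi b hb hn), i_card c hc]
  intro x y z hxy hxz hyz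
  by_cases hd : π x ≠ π y ∧ π x ≠ π z ∧ π y ≠ π z
  · obtain ⟨d1, d2, d3⟩ := hd
    obtain ⟨b, hb, k1, k2, k3⟩ := (h2 _ _ _ d1 d2 d3).exists
    apply existsUnique_of_exists_of_unique
    · by_cases hn : none ∈ b
      · exact exI b hb hn x y z k1 k2 k3
      · have ex : ∀ t, π t ∈ b → ∃ i a, t = some (e5 b i, a) := by
          intro t ht
          rcases t with _ | ⟨u, a⟩
          · exact absurd ht hn
          · obtain ⟨i, rfl⟩ := ((he5 b hb hn).2 _).1 ht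
            exact ⟨i, a, rfl⟩
        obtain ⟨i, a, rfl⟩ := ex x k1
        obtain ⟨j, a', rfl⟩ := ex y k2
        obtain ⟨k, a'', rfl⟩ := ex z k3
        obtain ⟨f, hf, rfl, rfl, rfl⟩ := oa_ex i j k (by rintro rfl; exact d1 rfl)
          (by rintro rfl; exact d2 rfl) (by rintro rfl; exact d3 rfl) a a' a''
        exact ⟨_, (hN _).2 (.inl ⟨b, hb, hn, f, hf, rfl⟩), (mtd _ _ _).2 ⟨i, rfl⟩,
          (mtd _ _ _).2 ⟨j, rfl⟩, (mtd _ _ _).2 ⟨k, rfl⟩⟩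
    · rintro s s' ⟨hs, l1, l2, l3⟩ ⟨hs', m1, m2, m3⟩
      rcases (hN s).1 hs with ⟨b1, hb1, hn1, f, hf, rfl⟩ | ⟨b1, hb1, hn1, c, hc, rfl⟩ <;>
      rcases (hN s').1 hs' with ⟨b2, hb2, hn2, f', hf', rfl⟩ | ⟨b2, hb2, hn2, c', hc', rfl⟩
      · obtain rfl := hun _ _ _ d1 d2 d3 b1 hb1 b2 hb2 (tdπ _ hb1 hn1 _ _ l1) (tdπ _ hb1 hn1 _ _ l2)
          (tdπ _ hb1 hn1 _ _ l3) (tdπ _ hb2 hn2 _ _ m1) (tdπ _ hb2 hn2 _ _ m2)
          (tdπ _ hb2 hn2 _ _ m3)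
        have ag : ∀ i, some (e5 b1 i, f i) ∈ td b1 f' → f i = f' i := by
          intro i hi
          have := tdne b1 hb1 hn1 f' _ _ hi ((mtd _ _ _).2 ⟨i, rfl⟩) rfl
          simpa using this
        obtain ⟨i, rfl⟩ := (mtd _ _ _).1 l1
        obtain ⟨j, rfl⟩ := (mtd _ _ _).1 l2
        obtain ⟨k, rfl⟩ := (mtd _ _ _).1 l3
        rw [oa_un f hf f' hf' i j k (by rintro rfl; exact d1 rfl) (by rintro rfl; exact d2 rfl)
          (by rintro rfl; exact d3 rfl) (ag i m1) (ag j m2) (ag k m3)]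
      · obtain rfl := hun _ _ _ d1 d2 d3 b1 hb1 b2 hb2 (tdπ _ hb1 hn1 _ _ l1) (tdπ _ hb1 hn1 _ _ l2)
          (tdπ _ hb1 hn1 _ _ l3) (imπ _ hb2 hn2 _ _ m1) (imπ _ hb2 hn2 _ _ m2)
          (imπ _ hb2 hn2 _ _ m3)
        exact absurd hn2 hn1
      · obtain rfl := hun _ _ _ d1 d2 d3 b1 hb1 b2 hb2 (imπ _ hb1 hn1 _ _ l1) (imπ _ hb1 hn1 _ _ l2)
          (imπ _ hb1 hn1 _ _ l3) (tdπ _ hb2 hn2 _ _ m1) (tdπ _ hb2 hn2 _ _ m2)
          (tdπ _ hb2 hn2 _ _ m3)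
        exact absurd hn1 hn2
      · obtain rfl := hun _ _ _ d1 d2 d3 b1 hb1 b2 hb2 (imπ _ hb1 hn1 _ _ l1) (imπ _ hb1 hn1 _ _ l2)
          (imπ _ hb1 hn1 _ _ l3) (imπ _ hb2 hn2 _ _ m1) (imπ _ hb2 hn2 _ _ m2)
          (imπ _ hb2 hn2 _ _ m3)
        rw [unI b1 hb1 hn1 c hc c' hc' x y z hxy hxz hyz l1 l2 l3 m1 m2 m3]
  · -- two of the projections coincide
    have key : ∀ x y z : Option (X × Fin 4), x ≠ y → x ≠ z → y ≠ z → π x = π y →
        ∃! s, s ∈ N ∧ x ∈ s ∧ y ∈ s ∧ z ∈ s := by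
      intro x y z hxy hxz hyz e
      obtain ⟨a, ha⟩ : ∃ a, π x = some a := by
        rcases x with _ | x
        · rcases y with _ | y
          · exact absurd rfl hxy
          · simp [π] at e
        · exact ⟨x.1, rfl⟩
      apply existsUnique_of_exists_of_unique
      · obtain ⟨b, hb, hn, k1, k2⟩ := hinf (π x) (π z)
        exact exI b hb hn x y z k1 (e ▸ k1) k2
      · rintro s s' ⟨hs, l1, l2, l3⟩ ⟨hs', m1, m2, m3⟩
        rcases (hN s).1 hs with ⟨b1, hb1, hn1, f, hf, rfl⟩ | ⟨b1, hb1, hn1, c, hc, rfl⟩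
        · exact absurd (tdne _ hb1 hn1 _ _ _ l1 l2 e) hxy
        rcases (hN s').1 hs' with ⟨b2, hb2, hn2, f', hf', rfl⟩ | ⟨b2, hb2, hn2, c', hc', rfl⟩
        · exact absurd (tdne _ hb2 hn2 _ _ _ m1 m2 e) hxy
        by_cases hz : π z = none ∨ π z = some a
        · obtain ⟨g1, hg1, p1⟩ := grp b1 hb1 hn1 a (ha ▸ imπ _ hb1 hn1 _ _ l1)
          obtain ⟨g2, hg2, p2⟩ := grp b2 hb2 hn2 a (ha ▸ imπ _ hb2 hn2 _ _ m1)
          rw [unI b1 hb1 hn1 c hc g1 hg1 x y z hxy hxz hyz l1 l2 l3 ((p1 _).2 (.inr ha))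
            ((p1 _).2 (.inr (e ▸ ha))) ((p1 _).2 hz), unI b2 hb2 hn2 c' hc' g2 hg2 x y z hxy hxz hyz
            m1 m2 m3 ((p2 _).2 (.inr ha)) ((p2 _).2 (.inr (e ▸ ha))) ((p2 _).2 hz)]
          ext t; rw [p1, p2]
        · push Not at hz
          obtain rfl := hun none (π x) (π z) (by simp [ha]) hz.1.symm (ha ▸ hz.2.symm) b1 hb1 b2 hb2
            hn1 (imπ _ hb1 hn1 _ _ l1) (imπ _ hb1 hn1 _ _ l3) hn2 (imπ _ hb2 hn2 _ _ m1)
            (imπ _ hb2 hn2 _ _ m3)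
          rw [unI b1 hb1 hn1 c hc c' hc' x y z hxy hxz hyz l1 l2 l3 m1 m2 m3]
    by_cases e1 : π x = π y
    · exact key x y z hxy hxz hyz e1
    by_cases e2 : π x = π z
    · simpa only [and_comm (a := z ∈ _)] using key x z y hxz hxy hyz.symm e2
    have e3 : π y = π z := by by_contra e3; exact hd ⟨e1, e2, e3⟩
    obtain ⟨s, hs, hu⟩ := key y z x hyz hxy.symm hxz.symm e3
    exact ⟨s, ⟨hs.1, hs.2.2.2, hs.2.1, hs.2.2.1⟩, fun t ht => hu t ⟨ht.1, ht.2.2.1, ht.2.2.2, ht.2.1⟩⟩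

theorem st3_pow {m : ℕ} (hm : 2 ≤ m) (h : St3 (Fin (m + 1)) 5) (k : ℕ) :
    St3 (Fin (m * 4 ^ k + 1)) 5 := by
  induction k with
  | zero => exact h.card (by simp)
  | succ k ih =>
    have : Nontrivial (Fin (m * 4 ^ k)) := Fin.nontrivial_iff_two_le.2
      (hm.trans (Nat.le_mul_of_pos_right _ (by positivity)))
    exact (st3_rec (X := Fin (m * 4 ^ k)) (ih.card (by simp))).card (by simp; ring)

end H9St
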