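import Mathlib
import Pool.Agent.H9.StDF

namespace H9St

set_option maxRecDepth 100000

def L57 : List (List (ℕ × ℕ)) := [
[(0,0),(0,1),(0,3),(0,13),(0,32),(0,36),(0,43),(0,52)]]

theorem g57 : Gdd (G3 1 1 1) (G3 1 1 57) 8 :=
  gdd_of_chk 1 1 1 1 1 57 8 L57 (by decide +kernel)

def L73 : List (List (ℕ × ℕ)) := [
[(0,1),(0,2),(0,4),(0,8),(0,16),(0,32),(0,64),(0,55),(0,37)]]

theorem g73 : Gdd (G3 1 1 1) (G3 1 1 73) 9 :=
  gdd_of_chk 1 1 1 1 1 73 9 L73 (by decide +kernel)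

def L81 : List (List (ℕ × ℕ)) := [
[(0,0),(6,1),(6,2),(3,3),(2,4),(1,5),(3,6),(1,7),(2,8)]]

theorem g81 : Gdd (G3 1 3 3) (G3 1 3 3) 9 :=
  gdd_of_chk 1 3 3 1 3 3 9 L81 (by decide +kernel)

theorem s57 : StOn (Fin 57) 8 := st_fill1 (w := 0) g57 (by norm_num) (by simp) (st_one _) (by simp)
theorem s73 : StOn (Fin 73) 9 := st_fill1 (w := 0) g73 (by norm_num) (by simp) (st_one _) (by simp)
theorem s81 : StOn (Fin 81) 9 := st_fill1 (w := 0) g81 (by norm_num) (by simp) (st_self _) (by simp)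

end H9St
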