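import Mathlib
import Pool.Agent.H9.StBase

namespace H9St

set_option maxRecDepth 100000

def L925 : List (List (ℕ × ℕ)) := [
[(0,0),(0,141),(0,447),(0,707),(0,205),(0,409),(0,496)],
[(0,0),(0,351),(0,801),(0,143),(0,197),(0,238),(0,675)],
[(0,0),(0,75),(0,100),(0,10),(0,375),(0,833),(0,827)],
[(0,0),(0,45),(0,60),(0,80),(0,484),(0,411),(0,215)],
[(0,0),(0,121),(0,482),(0,692),(0,51),(0,512),(0,732)],
[(0,0),(0,191),(0,896),(0,23),(0,186),(0,766),(0,158)],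
[(0,0),(0,126),(0,427),(0,557),(0,17),(0,849),(0,244)],
[(0,0),(0,231),(0,826),(0,53),(0,432),(0,687),(0,176)],
[(0,0),(0,11),(0,397),(0,702),(0,54),(0,738),(0,503)],
[(0,0),(0,236),(0,771),(0,103),(0,839),(0,354),(0,102)],
[(0,0),(0,166),(0,542),(0,587),(0,247),(0,243),(0,620)],
[(0,0),(0,366),(0,821),(0,108),(0,644),(0,760),(0,631)],
[(0,0),(0,116),(0,537),(0,642),(0,586),(0,584),(0,865)],
[(0,0),(0,336),(0,781),(0,178),(0,877),(0,380),(0,778)],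
[(0,0),(0,71),(0,477),(0,562),(0,445),(0,803),(0,787)],
[(0,0),(0,346),(0,856),(0,93),(0,489),(0,541),(0,265)],
[(0,0),(0,151),(0,522),(0,622),(0,57),(0,779),(0,274)],
[(0,0),(0,246),(0,846),(0,18),(0,382),(0,682),(0,46)],
[(0,0),(0,21),(0,472),(0,617),(0,84),(0,593),(0,433)],
[(0,0),(0,316),(0,816),(0,163),(0,894),(0,304),(0,97)],
[(0,0),(0,171),(0,487),(0,637),(0,666),(0,629),(0,740)],
[(0,0),(0,221),(0,751),(0,138),(0,777),(0,370),(0,888)]]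

theorem g925 : Gdd (G3 1 1 1) (G3 1 5 185) 7 :=
  gdd_of_chk 1 1 1 1 5 185 7 L925 (by decide +kernel)

def L1387 : List (List (ℕ × ℕ)) := [
[(0,0),(0,742),(0,330),(0,315),(0,1264),(0,450),(0,1060)],
[(0,0),(0,800),(0,1268),(0,706),(0,1217),(0,216),(0,1341)],
[(0,0),(0,384),(0,997),(0,6),(0,1028),(0,603),(0,1143)],
[(0,0),(0,76),(0,703),(0,608),(0,232),(0,978),(0,177)],
[(0,0),(0,1368),(0,171),(0,1235),(0,1110),(0,303),(0,1361)],
[(0,0),(0,1045),(0,304),(0,38),(0,1365),(0,1366),(0,43)],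
[(0,0),(0,666),(0,1014),(0,1094),(0,442),(0,548),(0,397)],
[(0,0),(0,819),(0,1097),(0,858),(0,656),(0,374),(0,357)],
[(0,0),(0,726),(0,693),(0,1355),(0,1369),(0,235),(0,1170)],
[(0,0),(0,894),(0,349),(0,144),(0,1085),(0,90),(0,212)],
[(0,0),(0,762),(0,223),(0,402),(0,1353),(0,598),(0,823)],
[(0,0),(0,1087),(0,218),(0,82),(0,483),(0,398),(0,506)],
[(0,0),(0,818),(0,1033),(0,923),(0,992),(0,1073),(0,709)],
[(0,0),(0,781),(0,52),(0,554),(0,920),(0,626),(0,1228)],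
[(0,0),(0,42),(0,1301),(0,44),(0,719),(0,245),(0,423)],
[(0,0),(0,1331),(0,577),(0,866),(0,78),(0,831),(0,478)],
[(0,0),(0,306),(0,166),(0,915),(0,1258),(0,66),(0,63)],
[(0,0),(0,1201),(0,579),(0,994),(0,160),(0,531),(0,696)],
[(0,0),(0,950),(0,1159),(0,665),(0,1357),(0,854),(0,563)],
[(0,0),(0,456),(0,57),(0,874),(0,263),(0,188),(0,936)],
[(0,0),(0,1273),(0,1026),(0,475),(0,792),(0,756),(0,1226)],
[(0,0),(0,153),(0,83),(0,1151),(0,559),(0,1101),(0,1114)],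
[(0,0),(0,1294),(0,983),(0,497),(0,1156),(0,473),(0,1145)],
[(0,0),(0,954),(0,28),(0,405),(0,222),(0,338),(0,827)],
[(0,0),(0,685),(0,843),(0,1246),(0,1338),(0,1025),(0,411)],
[(0,0),(0,1161),(0,793),(0,820),(0,1308),(0,492),(0,974)],
[(0,0),(0,1334),(0,769),(0,671),(0,184),(0,680),(0,523)],
[(0,0),(0,248),(0,615),(0,524),(0,252),(0,871),(0,264)],
[(0,0),(0,230),(0,850),(0,307),(0,10),(0,640),(0,737)],
[(0,0),(0,1220),(0,408),(0,1146),(0,837),(0,862),(0,1075)],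
[(0,0),(0,1179),(0,558),(0,1037),(0,578),(0,930),(0,1266)],
[(0,0),(0,344),(0,1211),(0,1219),(0,111),(0,169),(0,1107)],
[(0,0),(0,498),(0,1358),(0,918),(0,830),(0,414),(0,143)]]

theorem g1387 : Gdd (G3 1 1 1) (G3 1 1 1387) 7 :=
  gdd_of_chk 1 1 1 1 1 1387 7 L1387 (by decide +kernel)

theorem s925 : StOn (Fin 925) 7 :=
  st_fill1 (w := 0) g925 (by norm_num) (by simp) (st_one _) (by simp)
theorem s1387 : StOn (Fin 1387) 7 :=
  st_fill1 (w := 0) g1387 (by norm_num) (by simp) (st_one _) (by simp)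
def L8x31 : List (List (ℕ × ℕ)) := [
[(0,0),(28,20),(37,23),(10,21),(11,19),(46,8),(36,1),(13,12)],
[(0,0),(7,16),(25,6),(6,23),(22,9),(29,25),(9,7),(26,22)],
[(0,0),(14,19),(50,11),(12,6),(30,1),(23,20),(18,18),(38,30)],
[(0,0),(28,9),(37,15),(10,11),(11,7),(46,16),(36,2),(13,24)],
[(0,0),(7,1),(25,12),(6,15),(22,18),(29,19),(9,14),(26,13)],
[(0,0),(14,7),(50,22),(12,12),(30,2),(23,9),(18,5),(38,29)],
[(0,0),(28,18),(37,30),(10,22),(11,14),(46,1),(36,4),(13,17)],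
[(0,0),(7,2),(25,24),(6,30),(22,5),(29,7),(9,28),(26,26)],
[(0,0),(14,14),(50,13),(12,24),(30,4),(23,18),(18,10),(38,27)],
[(0,0),(28,5),(37,29),(10,13),(11,28),(46,2),(36,8),(13,3)],
[(0,0),(7,4),(25,17),(6,29),(22,10),(29,14),(9,25),(26,21)],
[(0,0),(14,28),(50,26),(12,17),(30,8),(23,5),(18,20),(38,23)],
[(0,0),(28,10),(37,27),(10,26),(11,25),(46,4),(36,16),(13,6)],
[(0,0),(7,8),(25,3),(6,27),(22,20),(29,28),(9,19),(26,11)],
[(0,0),(14,25),(50,21),(12,3),(30,16),(23,10),(18,9),(38,15)],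
[(0,0),(19,18),(26,29),(31,26),(35,20),(55,24),(12,8),(35,27)],
[(0,0),(52,2),(38,17),(27,27),(21,16),(47,13),(10,25),(21,3)],
[(0,0),(41,14),(13,26),(54,3),(42,19),(45,29),(6,20),(42,21)],
[(0,0),(19,5),(26,27),(31,21),(35,9),(55,17),(12,16),(35,23)],
[(0,0),(52,4),(38,3),(27,23),(21,1),(47,26),(10,19),(21,6)],
[(0,0),(41,28),(13,21),(54,6),(42,7),(45,27),(6,9),(42,11)],
[(0,0),(19,10),(26,23),(31,11),(35,18),(55,3),(12,1),(35,15)],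
[(0,0),(52,8),(38,6),(27,15),(21,2),(47,21),(10,7),(21,12)],
[(0,0),(41,25),(13,11),(54,12),(42,14),(45,23),(6,18),(42,22)],
[(0,0),(19,20),(26,15),(31,22),(35,5),(55,6),(12,2),(35,30)],
[(0,0),(52,16),(38,12),(27,30),(21,4),(47,11),(10,14),(21,24)],
[(0,0),(41,19),(13,22),(54,24),(42,28),(45,15),(6,5),(42,13)],
[(0,0),(19,9),(26,30),(31,13),(35,10),(55,12),(12,4),(35,29)],
[(0,0),(52,1),(38,24),(27,29),(21,8),(47,22),(10,28),(21,17)],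
[(0,0),(41,7),(13,13),(54,17),(42,25),(45,30),(6,10),(42,26)]]

theorem g8x31 : Gdd (G3 2 2 14) (G3 1 1 31) 8 :=
  gdd_of_chk 2 2 14 1 1 31 8 L8x31 (by decide +kernel)

theorem s1737 : StOn (Fin 1737) 8 :=
  st_fill1 (w := 1) g8x31 (by norm_num) (by simp) s57 (by simp)
def L8x67 : List (List (ℕ × ℕ)) := [
[(0,0),(28,8),(37,39),(10,10),(11,61),(46,11),(36,4),(13,60)],
[(0,0),(7,32),(25,22),(6,40),(22,43),(29,44),(9,16),(26,39)],
[(0,0),(14,61),(50,21),(12,26),(30,38),(23,42),(18,64),(38,22)],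
[(0,0),(28,43),(37,17),(10,37),(11,18),(46,34),(36,55),(13,21)],
[(0,0),(7,38),(25,1),(6,14),(22,5),(29,2),(9,19),(26,17)],
[(0,0),(14,18),(50,4),(12,56),(30,20),(23,8),(18,9),(38,1)],
[(0,0),(28,5),(37,16),(10,23),(11,13),(46,32),(36,36),(13,4)],
[(0,0),(7,20),(25,64),(6,25),(22,52),(29,61),(9,10),(26,16)],
[(0,0),(14,13),(50,55),(12,33),(30,7),(23,43),(18,40),(38,64)],
[(0,0),(28,52),(37,19),(10,65),(11,28),(46,38),(36,26),(13,55)],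
[(0,0),(7,7),(25,9),(6,59),(22,45),(29,18),(9,37),(26,19)],
[(0,0),(14,28),(50,36),(12,35),(30,46),(23,5),(18,14),(38,9)],
[(0,0),(28,45),(37,10),(10,6),(11,50),(46,20),(36,56),(13,36)],
[(0,0),(7,46),(25,40),(6,24),(22,66),(29,13),(9,23),(26,10)],
[(0,0),(14,50),(50,26),(12,29),(30,63),(23,52),(18,25),(38,40)],
[(0,0),(28,66),(37,37),(10,49),(11,51),(46,7),(36,33),(13,26)],
[(0,0),(7,63),(25,14),(6,62),(22,3),(29,28),(9,65),(26,37)],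
[(0,0),(14,51),(50,56),(12,47),(30,12),(23,45),(18,59),(38,14)],
[(0,0),(28,3),(37,23),(10,54),(11,48),(46,46),(36,35),(13,56)],
[(0,0),(7,12),(25,25),(6,15),(22,58),(29,50),(9,6),(26,23)],
[(0,0),(14,48),(50,33),(12,60),(30,31),(23,66),(18,24),(38,25)],
[(0,0),(28,58),(37,65),(10,39),(11,57),(46,63),(36,29),(13,33)],
[(0,0),(7,31),(25,59),(6,22),(22,27),(29,51),(9,49),(26,65)],
[(0,0),(14,57),(50,35),(12,21),(30,41),(23,3),(18,62),(38,59)],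
[(0,0),(28,27),(37,6),(10,17),(11,30),(46,12),(36,47),(13,35)],
[(0,0),(7,41),(25,24),(6,1),(22,53),(29,48),(9,54),(26,6)],
[(0,0),(14,30),(50,29),(12,4),(30,11),(23,58),(18,15),(38,24)],
[(0,0),(28,53),(37,49),(10,16),(11,44),(46,31),(36,60),(13,29)],
[(0,0),(7,11),(25,62),(6,64),(22,42),(29,57),(9,39),(26,49)],
[(0,0),(14,44),(50,47),(12,55),(30,34),(23,27),(18,22),(38,62)],
[(0,0),(28,42),(37,54),(10,19),(11,2),(46,41),(36,21),(13,47)],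
[(0,0),(7,34),(25,15),(6,9),(22,8),(29,30),(9,17),(26,54)],
[(0,0),(14,2),(50,60),(12,36),(30,32),(23,53),(18,1),(38,15)],
[(0,0),(19,42),(26,36),(31,4),(35,51),(55,39),(12,7),(35,29)],
[(0,0),(52,34),(38,10),(27,16),(21,3),(47,22),(10,28),(21,49)],
[(0,0),(41,2),(13,40),(54,64),(42,12),(45,21),(6,45),(42,62)],
[(0,0),(19,8),(26,26),(31,55),(35,48),(55,17),(12,46),(35,47)],
[(0,0),(52,32),(38,37),(27,19),(21,58),(47,1),(10,50),(21,54)],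
[(0,0),(41,61),(13,14),(54,9),(42,31),(45,4),(6,66),(42,15)],
[(0,0),(19,43),(26,56),(31,36),(35,57),(55,16),(12,63),(35,60)],
[(0,0),(52,38),(38,23),(27,10),(21,27),(47,64),(10,51),(21,39)],
[(0,0),(41,18),(13,25),(54,40),(42,41),(45,55),(6,3),(42,22)],
[(0,0),(19,5),(26,33),(31,26),(35,30),(55,19),(12,12),(35,21)],
[(0,0),(52,20),(38,65),(27,37),(21,53),(47,9),(10,48),(21,17)],
[(0,0),(41,13),(13,59),(54,14),(42,11),(45,36),(6,58),(42,1)],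
[(0,0),(19,52),(26,35),(31,56),(35,44),(55,10),(12,31),(35,4)],
[(0,0),(52,7),(38,6),(27,23),(21,42),(47,40),(10,57),(21,16)],
[(0,0),(41,28),(13,24),(54,25),(42,34),(45,26),(6,27),(42,64)],
[(0,0),(19,45),(26,29),(31,33),(35,2),(55,37),(12,41),(35,55)],
[(0,0),(52,46),(38,49),(27,65),(21,8),(47,14),(10,30),(21,19)],
[(0,0),(41,50),(13,62),(54,59),(42,32),(45,56),(6,53),(42,9)],
[(0,0),(19,66),(26,47),(31,35),(35,61),(55,23),(12,11),(35,36)],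
[(0,0),(52,63),(38,54),(27,6),(21,43),(47,25),(10,44),(21,10)],
[(0,0),(41,51),(13,15),(54,24),(42,38),(45,33),(6,42),(42,40)],
[(0,0),(19,3),(26,60),(31,29),(35,18),(55,65),(12,34),(35,26)],
[(0,0),(52,12),(38,39),(27,49),(21,5),(47,59),(10,2),(21,37)],
[(0,0),(41,48),(13,22),(54,62),(42,20),(45,35),(6,8),(42,14)],
[(0,0),(19,58),(26,21),(31,47),(35,13),(55,6),(12,32),(35,56)],
[(0,0),(52,31),(38,17),(27,54),(21,52),(47,24),(10,61),(21,23)],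
[(0,0),(41,57),(13,1),(54,15),(42,7),(45,29),(6,43),(42,25)],
[(0,0),(19,27),(26,4),(31,60),(35,28),(55,49),(12,38),(35,33)],
[(0,0),(52,41),(38,16),(27,39),(21,45),(47,62),(10,18),(21,65)],
[(0,0),(41,30),(13,64),(54,22),(42,46),(45,47),(6,5),(42,59)],
[(0,0),(19,53),(26,55),(31,21),(35,50),(55,54),(12,20),(35,35)],
[(0,0),(52,11),(38,19),(27,17),(21,66),(47,15),(10,13),(21,6)],
[(0,0),(41,44),(13,9),(54,1),(42,63),(45,60),(6,52),(42,24)]]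

theorem g8x67 : Gdd (G3 2 2 14) (G3 1 1 67) 8 :=
  gdd_of_chk 2 2 14 1 1 67 8 L8x67 (by decide +kernel)

theorem s3753 : StOn (Fin 3753) 8 :=
  st_fill1 (w := 1) g8x67 (by norm_num) (by simp) s57 (by simp)
def L873 : List (List (ℕ × ℕ)) := [
[(0,0),(5,1),(8,79),(0,52),(0,91),(4,65),(7,78),(2,16),(4,90)],
[(0,0),(6,4),(1,25),(0,14),(0,73),(2,66),(3,21),(5,64),(2,69)],
[(0,0),(8,16),(7,3),(0,56),(0,1),(5,70),(4,84),(6,62),(5,82)],
[(0,0),(1,64),(3,12),(0,30),(0,4),(6,86),(2,45),(8,54),(6,37)],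
[(0,0),(7,62),(4,48),(0,23),(0,16),(8,53),(5,83),(1,22),(8,51)],
[(0,0),(3,54),(2,95),(0,92),(0,64),(1,18),(6,41),(7,88),(1,10)],
[(0,0),(4,22),(5,89),(0,77),(0,62),(7,72),(8,67),(3,61),(7,40)],
[(0,0),(2,88),(6,65),(0,17),(0,54),(3,94),(1,74),(4,50),(3,63)],
[(0,0),(5,61),(8,66),(0,68),(0,22),(4,85),(7,5),(2,6),(4,58)],
[(0,0),(6,50),(1,70),(0,78),(0,88),(2,49),(3,20),(5,24),(2,38)],
[(0,0),(8,6),(7,86),(0,21),(0,61),(5,2),(4,80),(6,96),(5,55)],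
[(0,0),(1,24),(3,53),(0,84),(0,50),(6,8),(2,29),(8,93),(6,26)]]

theorem g873 : Gdd (G3 1 3 3) (G3 1 1 97) 9 :=
  gdd_of_chk 1 3 3 1 1 97 9 L873 (by decide +kernel)

theorem s873 : StOn (Fin 873) 9 :=
  st_fill1 (w := 0) g873 (by norm_num) (by simp) (st_self _) (by simp)
def L1017 : List (List (ℕ × ℕ)) := [
[(0,0),(2,1),(3,93),(2,104),(8,57),(1,22),(8,83),(3,86),(0,3)],
[(0,0),(3,2),(1,73),(3,95),(5,1),(6,44),(5,53),(1,59),(0,6)],
[(0,0),(1,4),(6,33),(1,77),(4,2),(2,88),(4,106),(6,5),(0,12)],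
[(0,0),(6,8),(2,66),(6,41),(7,4),(3,63),(7,99),(2,10),(0,24)],
[(0,0),(2,16),(3,19),(2,82),(8,8),(1,13),(8,85),(3,20),(0,48)],
[(0,0),(3,32),(1,38),(3,51),(5,16),(6,26),(5,57),(1,40),(0,96)],
[(0,0),(1,64),(6,76),(1,102),(4,32),(2,52),(4,1),(6,80),(0,79)],
[(0,0),(6,15),(2,39),(6,91),(7,64),(3,104),(7,2),(2,47),(0,45)],
[(0,0),(2,30),(3,78),(2,69),(8,15),(1,95),(8,4),(3,94),(0,90)],
[(0,0),(3,60),(1,43),(3,25),(5,30),(6,77),(5,8),(1,75),(0,67)],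
[(0,0),(1,7),(6,86),(1,50),(4,60),(2,41),(4,16),(6,37),(0,21)],
[(0,0),(6,14),(2,59),(6,100),(7,7),(3,82),(7,32),(2,74),(0,42)],
[(0,0),(2,28),(3,5),(2,87),(8,14),(1,51),(8,64),(3,35),(0,84)],
[(0,0),(3,56),(1,10),(3,61),(5,28),(6,102),(5,15),(1,70),(0,55)]]

theorem g1017 : Gdd (G3 1 3 3) (G3 1 1 113) 9 :=
  gdd_of_chk 1 3 3 1 1 113 9 L1017 (by decide +kernel)

theorem s1017 : StOn (Fin 1017) 9 :=
  st_fill1 (w := 0) g1017 (by norm_num) (by simp) (st_self _) (by simp)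

end H9St
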