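import Mathlib
import Pool.Agent.H9.StBase

namespace H9St

set_option maxRecDepth 100000

def L9x31 : List (List (ℕ × ℕ)) := [
[(0,0),(61,27),(29,22),(63,25),(31,1),(28,17),(33,19),(15,26),(43,12)],
[(0,0),(31,3),(20,30),(9,20),(58,7),(16,26),(66,9),(30,27),(67,22)],
[(0,0),(58,21),(50,24),(42,16),(61,18),(4,27),(51,1),(48,3),(55,30)],
[(0,0),(61,23),(29,13),(63,19),(31,2),(28,3),(33,7),(15,21),(43,24)],
[(0,0),(31,6),(20,29),(9,9),(58,14),(16,21),(66,18),(30,23),(67,13)],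
[(0,0),(58,11),(50,17),(42,1),(61,5),(4,23),(51,2),(48,6),(55,29)],
[(0,0),(61,15),(29,26),(63,7),(31,4),(28,6),(33,14),(15,11),(43,17)],
[(0,0),(31,12),(20,27),(9,18),(58,28),(16,11),(66,5),(30,15),(67,26)],
[(0,0),(58,22),(50,3),(42,2),(61,10),(4,15),(51,4),(48,12),(55,27)],
[(0,0),(61,30),(29,21),(63,14),(31,8),(28,12),(33,28),(15,22),(43,3)],
[(0,0),(31,24),(20,23),(9,5),(58,25),(16,22),(66,10),(30,30),(67,21)],
[(0,0),(58,13),(50,6),(42,4),(61,20),(4,30),(51,8),(48,24),(55,23)],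
[(0,0),(61,29),(29,11),(63,28),(31,16),(28,24),(33,25),(15,13),(43,6)],
[(0,0),(31,17),(20,15),(9,10),(58,19),(16,13),(66,20),(30,29),(67,11)],
[(0,0),(58,26),(50,12),(42,8),(61,9),(4,29),(51,16),(48,17),(55,15)],
[(0,0),(59,7),(38,13),(26,4),(7,11),(45,17),(62,20),(13,1),(38,29)],
[(0,0),(71,18),(17,29),(2,28),(70,15),(45,26),(5,16),(22,7),(17,17)],
[(0,0),(47,2),(8,17),(14,10),(37,12),(45,27),(32,19),(64,18),(8,26)],
[(0,0),(59,14),(38,26),(26,8),(7,22),(45,3),(62,9),(13,2),(38,27)],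
[(0,0),(71,5),(17,27),(2,25),(70,30),(45,21),(5,1),(22,14),(17,3)],
[(0,0),(47,4),(8,3),(14,20),(37,24),(45,23),(32,7),(64,5),(8,21)],
[(0,0),(59,28),(38,21),(26,16),(7,13),(45,6),(62,18),(13,4),(38,23)],
[(0,0),(71,10),(17,23),(2,19),(70,29),(45,11),(5,2),(22,28),(17,6)],
[(0,0),(47,8),(8,6),(14,9),(37,17),(45,15),(32,14),(64,10),(8,11)],
[(0,0),(59,25),(38,11),(26,1),(7,26),(45,12),(62,5),(13,8),(38,15)],
[(0,0),(71,20),(17,15),(2,7),(70,27),(45,22),(5,4),(22,25),(17,12)],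
[(0,0),(47,16),(8,12),(14,18),(37,3),(45,30),(32,28),(64,20),(8,22)],
[(0,0),(59,19),(38,22),(26,2),(7,21),(45,24),(62,10),(13,16),(38,30)],
[(0,0),(71,9),(17,30),(2,14),(70,23),(45,13),(5,8),(22,19),(17,24)],
[(0,0),(47,1),(8,24),(14,5),(37,6),(45,29),(32,25),(64,9),(8,13)]]

theorem g9x31 : Gdd (G3 2 6 6) (G3 1 1 31) 9 :=
  gdd_of_chk 2 6 6 1 1 31 9 L9x31 (by decide +kernel)

theorem s2233 : StOn (Fin 2233) 9 :=
  st_fill1 (w := 1) g9x31 (by norm_num) (by simp) s73 (by simp)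
theorem s2241 : StOn (Fin 2241) 9 :=
  st_fillq g9x31 (by norm_num) (by simp) s81 (by simp)
def L9x43 : List (List (ℕ × ℕ)) := [
[(0,0),(8,6),(38,22),(67,40),(37,33),(40,31),(62,27),(25,42),(53,39)],
[(0,0),(38,11),(17,26),(55,16),(7,39),(25,21),(5,28),(34,34),(11,7)],
[(0,0),(17,13),(8,19),(43,15),(70,7),(34,17),(32,37),(40,5),(56,20)],
[(0,0),(8,31),(38,42),(67,6),(37,20),(40,24),(62,32),(25,2),(53,8)],
[(0,0),(38,21),(17,34),(55,11),(7,8),(25,1),(5,30),(34,18),(11,29)],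
[(0,0),(17,17),(8,5),(43,13),(70,29),(34,9),(32,12),(40,33),(56,3)],
[(0,0),(8,24),(38,2),(67,31),(37,3),(40,38),(62,22),(25,39),(53,27)],
[(0,0),(38,1),(17,18),(55,21),(7,27),(25,41),(5,26),(34,7),(11,28)],
[(0,0),(17,9),(8,33),(43,17),(70,28),(34,25),(32,19),(40,20),(56,37)],
[(0,0),(8,38),(38,39),(67,24),(37,37),(40,10),(62,42),(25,8),(53,32)],
[(0,0),(38,41),(17,7),(55,1),(7,32),(25,4),(5,34),(34,29),(11,30)],
[(0,0),(17,25),(8,20),(43,9),(70,30),(34,36),(32,5),(40,3),(56,12)],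
[(0,0),(8,10),(38,8),(67,38),(37,12),(40,23),(62,2),(25,27),(53,22)],
[(0,0),(38,4),(17,29),(55,41),(7,22),(25,35),(5,18),(34,28),(11,26)],
[(0,0),(17,36),(8,3),(43,25),(70,26),(34,14),(32,33),(40,37),(56,19)],
[(0,0),(8,23),(38,27),(67,10),(37,19),(40,40),(62,39),(25,32),(53,42)],
[(0,0),(38,35),(17,28),(55,4),(7,42),(25,16),(5,7),(34,30),(11,34)],
[(0,0),(17,14),(8,37),(43,36),(70,34),(34,15),(32,20),(40,12),(56,5)],
[(0,0),(8,40),(38,32),(67,23),(37,5),(40,6),(62,8),(25,22),(53,2)],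
[(0,0),(38,16),(17,30),(55,35),(7,2),(25,11),(5,29),(34,26),(11,18)],
[(0,0),(17,15),(8,12),(43,14),(70,18),(34,13),(32,3),(40,19),(56,33)],
[(0,0),(21,22),(1,20),(58,28),(13,14),(31,33),(22,3),(68,41),(68,5)],
[(0,0),(54,26),(10,8),(61,37),(22,40),(58,39),(64,27),(65,25),(65,2)],
[(0,0),(39,19),(52,29),(31,32),(64,16),(61,7),(13,28),(23,10),(23,18)],
[(0,0),(21,42),(1,3),(58,30),(13,15),(31,20),(22,37),(68,4),(68,33)],
[(0,0),(54,34),(10,27),(61,12),(22,6),(58,8),(64,32),(65,36),(65,39)],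
[(0,0),(39,5),(52,28),(31,22),(64,11),(61,29),(13,30),(23,23),(23,7)],
[(0,0),(21,2),(1,37),(58,26),(13,13),(31,3),(22,12),(68,35),(68,20)],
[(0,0),(54,18),(10,32),(61,19),(22,31),(58,27),(64,22),(65,14),(65,8)],
[(0,0),(39,33),(52,30),(31,42),(64,21),(61,28),(13,26),(23,40),(23,29)],
[(0,0),(21,39),(1,12),(58,34),(13,17),(31,37),(22,19),(68,16),(68,3)],
[(0,0),(54,7),(10,22),(61,5),(22,24),(58,32),(64,42),(65,15),(65,27)],
[(0,0),(39,20),(52,26),(31,2),(64,1),(61,30),(13,34),(23,6),(23,28)],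
[(0,0),(21,8),(1,19),(58,18),(13,9),(31,12),(22,5),(68,11),(68,37)],
[(0,0),(54,29),(10,42),(61,33),(22,38),(58,22),(64,2),(65,13),(65,32)],
[(0,0),(39,3),(52,34),(31,39),(64,41),(61,26),(13,18),(23,31),(23,30)],
[(0,0),(21,27),(1,5),(58,7),(13,25),(31,19),(22,33),(68,21),(68,12)],
[(0,0),(54,28),(10,2),(61,20),(22,10),(58,42),(64,39),(65,17),(65,22)],
[(0,0),(39,37),(52,18),(31,8),(64,4),(61,34),(13,7),(23,24),(23,26)],
[(0,0),(21,32),(1,33),(58,29),(13,36),(31,5),(22,20),(68,1),(68,19)],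
[(0,0),(54,30),(10,39),(61,3),(22,23),(58,2),(64,8),(65,9),(65,42)],
[(0,0),(39,12),(52,7),(31,27),(64,35),(61,18),(13,29),(23,38),(23,34)]]

theorem g9x43 : Gdd (G3 2 6 6) (G3 1 1 43) 9 :=
  gdd_of_chk 2 6 6 1 1 43 9 L9x43 (by decide +kernel)

theorem s3097 : StOn (Fin 3097) 9 :=
  st_fill1 (w := 1) g9x43 (by norm_num) (by simp) s73 (by simp)
theorem s3105 : StOn (Fin 3105) 9 :=
  st_fillq g9x43 (by norm_num) (by simp) s81 (by simp)
def L9x67 : List (List (ℕ × ℕ)) := [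
[(0,0),(8,9),(38,44),(67,48),(37,61),(40,43),(62,65),(25,58),(53,35)],
[(0,0),(38,36),(17,42),(55,58),(7,43),(25,38),(5,59),(34,31),(11,6)],
[(0,0),(17,10),(8,34),(43,31),(70,38),(34,18),(32,35),(40,57),(56,24)],
[(0,0),(8,40),(38,2),(67,57),(37,18),(40,5),(62,6),(25,27),(53,29)],
[(0,0),(38,26),(17,8),(55,27),(7,5),(25,20),(5,24),(34,41),(11,49)],
[(0,0),(17,37),(8,32),(43,41),(70,20),(34,13),(32,29),(40,30),(56,62)],
[(0,0),(8,14),(38,61),(67,30),(37,13),(40,52),(62,49),(25,53),(53,47)],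
[(0,0),(38,56),(17,43),(55,53),(7,52),(25,7),(5,62),(34,11),(11,54)],
[(0,0),(17,23),(8,38),(43,11),(70,7),(34,28),(32,47),(40,44),(56,15)],
[(0,0),(8,25),(38,18),(67,44),(37,28),(40,45),(62,54),(25,42),(53,60)],
[(0,0),(38,33),(17,5),(55,42),(7,45),(25,46),(5,15),(34,34),(11,39)],
[(0,0),(17,65),(8,20),(43,34),(70,46),(34,50),(32,60),(40,2),(56,22)],
[(0,0),(8,59),(38,13),(67,2),(37,50),(40,66),(62,39),(25,8),(53,21)],
[(0,0),(38,35),(17,52),(55,8),(7,66),(25,63),(5,22),(34,32),(11,17)],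
[(0,0),(17,6),(8,7),(43,32),(70,63),(34,51),(32,21),(40,61),(56,1)],
[(0,0),(8,24),(38,28),(67,61),(37,51),(40,3),(62,17),(25,43),(53,4)],
[(0,0),(38,29),(17,45),(55,43),(7,3),(25,12),(5,1),(34,38),(11,16)],
[(0,0),(17,49),(8,46),(43,38),(70,12),(34,48),(32,4),(40,18),(56,64)],
[(0,0),(8,62),(38,50),(67,18),(37,48),(40,58),(62,16),(25,5),(53,55)],
[(0,0),(38,47),(17,66),(55,5),(7,58),(25,31),(5,64),(34,20),(11,19)],
[(0,0),(17,54),(8,63),(43,20),(70,31),(34,57),(32,55),(40,13),(56,9)],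
[(0,0),(8,15),(38,51),(67,13),(37,57),(40,27),(62,19),(25,52),(53,36)],
[(0,0),(38,60),(17,3),(55,52),(7,27),(25,41),(5,9),(34,7),(11,10)],
[(0,0),(17,39),(8,12),(43,7),(70,41),(34,30),(32,36),(40,28),(56,40)],
[(0,0),(8,22),(38,48),(67,28),(37,30),(40,53),(62,10),(25,45),(53,26)],
[(0,0),(38,21),(17,58),(55,45),(7,53),(25,11),(5,40),(34,46),(11,37)],
[(0,0),(17,17),(8,31),(43,46),(70,11),(34,44),(32,26),(40,50),(56,14)],
[(0,0),(8,1),(38,57),(67,50),(37,44),(40,42),(62,37),(25,66),(53,56)],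
[(0,0),(38,4),(17,27),(55,66),(7,42),(25,34),(5,14),(34,63),(11,23)],
[(0,0),(17,16),(8,41),(43,63),(70,34),(34,2),(32,56),(40,51),(56,25)],
[(0,0),(8,64),(38,30),(67,51),(37,2),(40,8),(62,23),(25,3),(53,33)],
[(0,0),(38,55),(17,53),(55,3),(7,8),(25,32),(5,25),(34,12),(11,65)],
[(0,0),(17,19),(8,11),(43,12),(70,32),(34,61),(32,33),(40,48),(56,59)],
[(0,0),(21,63),(1,55),(58,56),(13,11),(31,21),(22,5),(68,58),(68,61)],
[(0,0),(54,51),(10,19),(61,23),(22,44),(58,17),(64,20),(65,31),(65,43)],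
[(0,0),(39,3),(52,9),(31,25),(64,42),(61,1),(13,13),(23,57),(23,38)],
[(0,0),(21,12),(1,36),(58,33),(13,34),(31,4),(22,52),(68,27),(68,18)],
[(0,0),(54,48),(10,10),(61,65),(22,2),(58,16),(64,7),(65,41),(65,5)],
[(0,0),(39,58),(52,40),(31,59),(64,8),(61,64),(13,28),(23,30),(23,20)],
[(0,0),(21,31),(1,26),(58,35),(13,32),(31,55),(22,45),(68,53),(68,13)],
[(0,0),(54,57),(10,37),(61,6),(22,61),(58,19),(64,46),(65,11),(65,52)],
[(0,0),(39,27),(52,14),(31,24),(64,43),(61,9),(13,50),(23,44),(23,7)],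
[(0,0),(21,41),(1,56),(58,29),(13,38),(31,36),(22,66),(68,42),(68,28)],
[(0,0),(54,30),(10,23),(61,49),(22,18),(58,10),(64,63),(65,34),(65,45)],
[(0,0),(39,53),(52,25),(31,62),(64,5),(61,40),(13,51),(23,2),(23,46)],
[(0,0),(21,11),(1,33),(58,47),(13,20),(31,26),(22,3),(68,8),(68,50)],
[(0,0),(54,44),(10,65),(61,54),(22,13),(58,37),(64,12),(65,32),(65,66)],
[(0,0),(39,42),(52,59),(31,15),(64,52),(61,14),(13,48),(23,61),(23,63)],
[(0,0),(21,34),(1,35),(58,60),(13,7),(31,56),(22,58),(68,43),(68,51)],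
[(0,0),(54,2),(10,6),(61,39),(22,28),(58,23),(64,31),(65,38),(65,3)],
[(0,0),(39,8),(52,24),(31,22),(64,45),(61,25),(13,57),(23,18),(23,12)],
[(0,0),(21,32),(1,29),(58,21),(13,46),(31,33),(22,27),(68,5),(68,48)],
[(0,0),(54,61),(10,49),(61,17),(22,50),(58,65),(64,41),(65,20),(65,58)],
[(0,0),(39,43),(52,62),(31,1),(64,66),(61,59),(13,30),(23,13),(23,31)],
[(0,0),(21,38),(1,47),(58,4),(13,63),(31,35),(22,53),(68,52),(68,57)],
[(0,0),(54,18),(10,54),(61,16),(22,51),(58,6),(64,11),(65,7),(65,27)],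
[(0,0),(39,5),(52,15),(31,64),(64,3),(61,24),(13,44),(23,28),(23,41)],
[(0,0),(21,20),(1,60),(58,55),(13,12),(31,29),(22,42),(68,45),(68,30)],
[(0,0),(54,13),(10,39),(61,19),(22,48),(58,49),(64,34),(65,46),(65,53)],
[(0,0),(39,52),(52,22),(31,9),(64,58),(61,62),(13,2),(23,50),(23,11)],
[(0,0),(21,7),(1,21),(58,36),(13,31),(31,47),(22,8),(68,66),(68,44)],
[(0,0),(54,28),(10,17),(61,10),(22,57),(58,54),(64,32),(65,63),(65,42)],
[(0,0),(39,45),(52,1),(31,40),(64,27),(61,15),(13,61),(23,51),(23,34)],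
[(0,0),(21,46),(1,4),(58,26),(13,41),(31,60),(22,43),(68,3),(68,2)],
[(0,0),(54,50),(10,16),(61,37),(22,30),(58,39),(64,38),(65,12),(65,8)],
[(0,0),(39,66),(52,64),(31,14),(64,53),(61,22),(13,18),(23,48),(23,32)]]

theorem g9x67 : Gdd (G3 2 6 6) (G3 1 1 67) 9 :=
  gdd_of_chk 2 6 6 1 1 67 9 L9x67 (by decide +kernel)

theorem s4825 : StOn (Fin 4825) 9 :=
  st_fill1 (w := 1) g9x67 (by norm_num) (by simp) s73 (by simp)
theorem s4833 : StOn (Fin 4833) 9 :=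
  st_fillq g9x67 (by norm_num) (by simp) s81 (by simp)
def L9x103 : List (List (ℕ × ℕ)) := [
[(0,0),(8,47),(38,29),(67,8),(37,25),(40,82),(62,42),(25,87),(53,69)],
[(0,0),(38,94),(17,58),(55,16),(7,50),(25,61),(5,84),(34,71),(11,35)],
[(0,0),(17,85),(8,13),(43,32),(70,100),(34,19),(32,65),(40,39),(56,70)],
[(0,0),(8,67),(38,26),(67,64),(37,97),(40,38),(62,27),(25,78),(53,37)],
[(0,0),(38,31),(17,52),(55,25),(7,91),(25,76),(5,54),(34,53),(11,74)],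
[(0,0),(17,62),(8,1),(43,50),(70,79),(34,49),(32,5),(40,3),(56,45)],
[(0,0),(8,21),(38,2),(67,100),(37,55),(40,98),(62,10),(25,6),(53,90)],
[(0,0),(38,42),(17,4),(55,97),(7,7),(25,93),(5,20),(34,12),(11,77)],
[(0,0),(17,84),(8,8),(43,91),(70,14),(34,83),(32,40),(40,24),(56,51)],
[(0,0),(8,65),(38,16),(67,79),(37,28),(40,63),(62,80),(25,48),(53,102)],
[(0,0),(38,27),(17,32),(55,55),(7,56),(25,23),(5,57),(34,96),(11,101)],
[(0,0),(17,54),(8,64),(43,7),(70,9),(34,46),(32,11),(40,89),(56,99)],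
[(0,0),(8,5),(38,25),(67,14),(37,18),(40,92),(62,22),(25,75),(53,95)],
[(0,0),(38,10),(17,50),(55,28),(7,36),(25,81),(5,44),(34,47),(11,87)],
[(0,0),(17,20),(8,100),(43,56),(70,72),(34,59),(32,88),(40,94),(56,71)],
[(0,0),(8,40),(38,97),(67,9),(37,41),(40,15),(62,73),(25,85),(53,39)],
[(0,0),(38,80),(17,91),(55,18),(7,82),(25,30),(5,43),(34,67),(11,78)],
[(0,0),(17,57),(8,79),(43,36),(70,61),(34,60),(32,86),(40,31),(56,53)],
[(0,0),(8,11),(38,55),(67,72),(37,19),(40,17),(62,69),(25,62),(53,3)],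
[(0,0),(38,22),(17,7),(55,41),(7,38),(25,34),(5,35),(34,21),(11,6)],
[(0,0),(17,44),(8,14),(43,82),(70,76),(34,68),(32,70),(40,42),(56,12)],
[(0,0),(8,88),(38,28),(67,61),(37,49),(40,33),(62,37),(25,84),(53,24)],
[(0,0),(38,73),(17,56),(55,19),(7,98),(25,66),(5,74),(34,65),(11,48)],
[(0,0),(17,43),(8,9),(43,38),(70,93),(34,29),(32,45),(40,27),(56,96)],
[(0,0),(8,86),(38,18),(67,76),(37,83),(40,58),(62,90),(25,54),(53,89)],
[(0,0),(38,69),(17,36),(55,49),(7,63),(25,13),(5,77),(34,5),(11,75)],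
[(0,0),(17,35),(8,72),(43,98),(70,23),(34,26),(32,51),(40,10),(56,47)],
[(0,0),(8,70),(38,41),(67,93),(37,46),(40,52),(62,102),(25,20),(53,94)],
[(0,0),(38,37),(17,82),(55,83),(7,92),(25,1),(5,101),(34,40),(11,85)],
[(0,0),(17,74),(8,61),(43,63),(70,81),(34,2),(32,99),(40,80),(56,67)],
[(0,0),(8,45),(38,19),(67,23),(37,59),(40,4),(62,95),(25,57),(53,31)],
[(0,0),(38,90),(17,38),(55,46),(7,15),(25,8),(5,87),(34,11),(11,62)],
[(0,0),(17,77),(8,76),(43,92),(70,30),(34,16),(32,71),(40,22),(56,21)],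
[(0,0),(8,51),(38,49),(67,81),(37,60),(40,32),(62,39),(25,44),(53,42)],
[(0,0),(38,102),(17,98),(55,59),(7,17),(25,64),(5,78),(34,88),(11,84)],
[(0,0),(17,101),(8,93),(43,15),(70,34),(34,25),(32,53),(40,73),(56,65)],
[(0,0),(8,99),(38,83),(67,30),(37,68),(40,50),(62,3),(25,43),(53,27)],
[(0,0),(38,95),(17,63),(55,60),(7,33),(25,100),(5,6),(34,86),(11,54)],
[(0,0),(17,87),(8,23),(43,17),(70,66),(34,97),(32,12),(40,69),(56,5)],
[(0,0),(8,71),(38,46),(67,34),(37,29),(40,91),(62,24),(25,35),(53,10)],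
[(0,0),(38,39),(17,92),(55,68),(7,58),(25,79),(5,48),(34,70),(11,20)],
[(0,0),(17,78),(8,81),(43,33),(70,13),(34,55),(32,96),(40,37),(56,40)],
[(0,0),(8,53),(38,59),(67,66),(37,26),(40,7),(62,89),(25,74),(53,80)],
[(0,0),(38,3),(17,15),(55,29),(7,52),(25,14),(5,75),(34,45),(11,57)],
[(0,0),(17,6),(8,30),(43,58),(70,1),(34,28),(32,47),(40,90),(56,11)],
[(0,0),(8,12),(38,60),(67,13),(37,2),(40,56),(62,94),(25,77),(53,22)],
[(0,0),(38,24),(17,17),(55,26),(7,4),(25,9),(5,85),(34,51),(11,44)],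
[(0,0),(17,48),(8,34),(43,52),(70,8),(34,18),(32,67),(40,102),(56,88)],
[(0,0),(8,96),(38,68),(67,1),(37,16),(40,36),(62,31),(25,101),(53,73)],
[(0,0),(38,89),(17,33),(55,2),(7,32),(25,72),(5,62),(34,99),(11,43)],
[(0,0),(17,75),(8,66),(43,4),(70,64),(34,41),(32,21),(40,95),(56,86)],
[(0,0),(21,100),(1,96),(58,66),(13,72),(31,47),(22,91),(68,5),(68,30)],
[(0,0),(54,97),(10,89),(61,29),(22,41),(58,94),(64,79),(65,10),(65,60)],
[(0,0),(39,91),(52,75),(31,58),(64,82),(61,85),(13,55),(23,20),(23,17)],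
[(0,0),(21,79),(1,47),(58,13),(13,61),(31,67),(22,7),(68,40),(68,34)],
[(0,0),(54,55),(10,94),(61,26),(22,19),(58,31),(64,14),(65,80),(65,68)],
[(0,0),(39,7),(52,85),(31,52),(64,38),(61,62),(13,28),(23,57),(23,33)],
[(0,0),(21,14),(1,67),(58,1),(13,76),(31,21),(22,56),(68,11),(68,66)],
[(0,0),(54,28),(10,31),(61,2),(22,49),(58,42),(64,9),(65,22),(65,29)],
[(0,0),(39,56),(52,62),(31,4),(64,98),(61,84),(13,18),(23,44),(23,58)],
[(0,0),(21,9),(1,21),(58,8),(13,93),(31,65),(22,36),(68,88),(68,13)],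
[(0,0),(54,18),(10,42),(61,16),(22,83),(58,27),(64,72),(65,73),(65,26)],
[(0,0),(39,36),(52,84),(31,32),(64,63),(61,54),(13,41),(23,43),(23,52)],
[(0,0),(21,72),(1,65),(58,64),(13,23),(31,5),(22,82),(68,86),(68,1)],
[(0,0),(54,41),(10,27),(61,25),(22,46),(58,10),(64,61),(65,69),(65,2)],
[(0,0),(39,82),(52,54),(31,50),(64,92),(61,20),(13,19),(23,35),(23,4)],
[(0,0),(21,61),(1,5),(58,100),(13,81),(31,40),(22,38),(68,70),(68,8)],
[(0,0),(54,19),(10,10),(61,97),(22,59),(58,80),(64,76),(65,37),(65,16)],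
[(0,0),(39,38),(52,20),(31,91),(64,15),(61,57),(13,49),(23,74),(23,32)],
[(0,0),(21,76),(1,40),(58,79),(13,30),(31,11),(22,98),(68,45),(68,64)],
[(0,0),(54,49),(10,80),(61,55),(22,60),(58,22),(64,93),(65,90),(65,25)],
[(0,0),(39,98),(52,57),(31,7),(64,17),(61,44),(13,83),(23,77),(23,50)],
[(0,0),(21,93),(1,11),(58,14),(13,34),(31,88),(22,63),(68,51),(68,100)],
[(0,0),(54,83),(10,22),(61,28),(22,68),(58,73),(64,23),(65,102),(65,97)],
[(0,0),(39,63),(52,44),(31,56),(64,33),(61,43),(13,46),(23,101),(23,91)],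
[(0,0),(21,23),(1,88),(58,9),(13,66),(31,86),(22,92),(68,99),(68,79)],
[(0,0),(54,46),(10,73),(61,18),(22,29),(58,69),(64,81),(65,95),(65,55)],
[(0,0),(39,92),(52,43),(31,36),(64,58),(61,35),(13,59),(23,87),(23,7)],
[(0,0),(21,81),(1,86),(58,72),(13,13),(31,70),(22,15),(68,71),(68,14)],
[(0,0),(54,59),(10,69),(61,41),(22,26),(58,37),(64,30),(65,39),(65,28)],
[(0,0),(39,15),(52,35),(31,82),(64,52),(61,74),(13,60),(23,78),(23,56)],
[(0,0),(21,30),(1,70),(58,61),(13,1),(31,45),(22,17),(68,53),(68,9)],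
[(0,0),(54,60),(10,37),(61,19),(22,2),(58,90),(64,34),(65,3),(65,18)],
[(0,0),(39,17),(52,74),(31,38),(64,4),(61,77),(13,68),(23,6),(23,36)],
[(0,0),(21,34),(1,45),(58,76),(13,8),(31,51),(22,33),(68,12),(68,72)],
[(0,0),(54,68),(10,90),(61,49),(22,16),(58,102),(64,66),(65,24),(65,41)],
[(0,0),(39,33),(52,77),(31,98),(64,32),(61,101),(13,29),(23,48),(23,82)],
[(0,0),(21,66),(1,51),(58,93),(13,64),(31,99),(22,58),(68,96),(68,61)],
[(0,0),(54,29),(10,102),(61,83),(22,25),(58,95),(64,13),(65,89),(65,19)],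
[(0,0),(39,58),(52,101),(31,63),(64,50),(61,87),(13,26),(23,75),(23,38)],
[(0,0),(21,13),(1,99),(58,23),(13,100),(31,71),(22,52),(68,47),(68,76)],
[(0,0),(54,26),(10,95),(61,46),(22,97),(58,39),(64,1),(65,94),(65,49)],
[(0,0),(39,52),(52,87),(31,92),(64,91),(61,78),(13,2),(23,85),(23,98)],
[(0,0),(21,1),(1,71),(58,81),(13,79),(31,53),(22,4),(68,67),(68,93)],
[(0,0),(54,2),(10,39),(61,59),(22,55),(58,3),(64,8),(65,31),(65,83)],
[(0,0),(39,4),(52,78),(31,15),(64,7),(61,6),(13,16),(23,62),(23,63)],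
[(0,0),(21,8),(1,53),(58,30),(13,14),(31,12),(22,32),(68,21),(68,23)],
[(0,0),(54,16),(10,3),(61,60),(22,28),(58,24),(64,64),(65,42),(65,46)],
[(0,0),(39,32),(52,6),(31,17),(64,56),(61,48),(13,25),(23,84),(23,92)],
[(0,0),(21,64),(1,12),(58,34),(13,9),(31,96),(22,50),(68,65),(68,81)],
[(0,0),(54,25),(10,24),(61,68),(22,18),(58,89),(64,100),(65,27),(65,59)],
[(0,0),(39,50),(52,48),(31,33),(64,36),(61,75),(13,97),(23,54),(23,15)]]

theorem g9x103 : Gdd (G3 2 6 6) (G3 1 1 103) 9 :=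
  gdd_of_chk 2 6 6 1 1 103 9 L9x103 (by decide +kernel)

theorem s7425 : StOn (Fin 7425) 9 :=
  st_fillq g9x103 (by norm_num) (by simp) s81 (by simp)
def L9x37 : List (List (ℕ × ℕ)) := [
[(0,0),(4,1),(61,33),(23,34),(18,5),(0,2),(62,23),(71,22),(54,3)],
[(0,0),(24,2),(35,29),(49,31),(40,10),(0,4),(20,9),(53,7),(10,6)],
[(0,0),(8,4),(23,21),(61,25),(66,20),(0,8),(22,18),(13,14),(30,12)],
[(0,0),(48,8),(49,5),(35,13),(44,3),(0,16),(64,36),(31,28),(2,24)],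
[(0,0),(4,16),(61,10),(23,26),(18,6),(0,32),(62,35),(71,19),(54,11)],
[(0,0),(24,32),(35,20),(49,15),(40,12),(0,27),(20,33),(53,1),(10,22)],
[(0,0),(8,27),(23,3),(61,30),(66,24),(0,17),(22,29),(13,2),(30,7)],
[(0,0),(48,17),(49,6),(35,23),(44,11),(0,34),(64,21),(31,4),(2,14)],
[(0,0),(4,34),(61,12),(23,9),(18,22),(0,31),(62,5),(71,8),(54,28)],
[(0,0),(24,31),(35,24),(49,18),(40,7),(0,25),(20,10),(53,16),(10,19)],
[(0,0),(8,25),(23,11),(61,36),(66,14),(0,13),(22,20),(13,32),(30,1)],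
[(0,0),(48,13),(49,22),(35,35),(44,28),(0,26),(64,3),(31,27),(2,2)],
[(0,0),(4,26),(61,7),(23,33),(18,19),(0,15),(62,6),(71,17),(54,4)],
[(0,0),(24,15),(35,14),(49,29),(40,1),(0,30),(20,12),(53,34),(10,8)],
[(0,0),(8,30),(23,28),(61,21),(66,2),(0,23),(22,24),(13,31),(30,16)],
[(0,0),(48,23),(49,19),(35,5),(44,4),(0,9),(64,11),(31,25),(2,32)],
[(0,0),(4,9),(61,1),(23,10),(18,8),(0,18),(62,22),(71,13),(54,27)],
[(0,0),(24,18),(35,2),(49,20),(40,16),(0,36),(20,7),(53,26),(10,17)],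
[(0,0),(15,1),(53,29),(6,18),(57,24),(18,12),(52,7),(20,28),(32,31)],
[(0,0),(1,2),(13,21),(6,36),(37,11),(40,24),(28,14),(22,19),(56,25)],
[(0,0),(69,4),(31,5),(6,35),(27,22),(66,11),(32,28),(64,1),(52,13)],
[(0,0),(11,8),(71,10),(6,33),(47,7),(44,22),(56,19),(62,2),(28,26)],
[(0,0),(15,16),(53,20),(6,29),(57,14),(18,7),(52,1),(20,4),(32,15)],
[(0,0),(1,32),(13,3),(6,21),(37,28),(40,14),(28,2),(22,8),(56,30)],
[(0,0),(69,27),(31,6),(6,5),(27,19),(66,28),(32,4),(64,16),(52,23)],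
[(0,0),(11,17),(71,12),(6,10),(47,1),(44,19),(56,8),(62,32),(28,9)],
[(0,0),(15,34),(53,24),(6,20),(57,2),(18,1),(52,16),(20,27),(32,18)],
[(0,0),(1,31),(13,11),(6,3),(37,4),(40,2),(28,32),(22,17),(56,36)],
[(0,0),(69,25),(31,22),(6,6),(27,8),(66,4),(32,27),(64,34),(52,35)],
[(0,0),(11,13),(71,7),(6,12),(47,16),(44,8),(56,17),(62,31),(28,33)],
[(0,0),(15,26),(53,14),(6,24),(57,32),(18,16),(52,34),(20,25),(32,29)],
[(0,0),(1,15),(13,28),(6,11),(37,27),(40,32),(28,31),(22,13),(56,21)],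
[(0,0),(69,30),(31,19),(6,22),(27,17),(66,27),(32,25),(64,26),(52,5)],
[(0,0),(11,23),(71,1),(6,7),(47,34),(44,17),(56,13),(62,15),(28,10)],
[(0,0),(15,9),(53,2),(6,14),(57,31),(18,34),(52,26),(20,30),(32,20)],
[(0,0),(1,18),(13,4),(6,28),(37,25),(40,31),(28,15),(22,23),(56,3)]]

theorem g9x37 : Gdd (G3 1 6 12) (G3 1 1 37) 9 :=
  gdd_of_chk 1 6 12 1 1 37 9 L9x37 (by decide +kernel)

theorem s2665 : StOn (Fin 2665) 9 :=
  st_fill1 (w := 1) g9x37 (by norm_num) (by simp) s73 (by simp)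
def L9x53 : List (List (ℕ × ℕ)) := [
[(0,0),(4,1),(61,17),(23,50),(18,3),(0,43),(62,10),(71,21),(54,5)],
[(0,0),(24,2),(35,34),(49,47),(40,6),(0,33),(20,20),(53,42),(10,10)],
[(0,0),(8,4),(23,15),(61,41),(66,12),(0,13),(22,40),(13,31),(30,20)],
[(0,0),(48,8),(49,30),(35,29),(44,24),(0,26),(64,27),(31,9),(2,40)],
[(0,0),(4,16),(61,7),(23,5),(18,48),(0,52),(62,1),(71,18),(54,27)],
[(0,0),(24,32),(35,14),(49,10),(40,43),(0,51),(20,2),(53,36),(10,1)],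
[(0,0),(8,11),(23,28),(61,20),(66,33),(0,49),(22,4),(13,19),(30,2)],
[(0,0),(48,22),(49,3),(35,40),(44,13),(0,45),(64,8),(31,38),(2,4)],
[(0,0),(4,44),(61,6),(23,27),(18,26),(0,37),(62,16),(71,23),(54,8)],
[(0,0),(24,35),(35,12),(49,1),(40,52),(0,21),(20,32),(53,46),(10,16)],
[(0,0),(8,17),(23,24),(61,2),(66,51),(0,42),(22,11),(13,39),(30,32)],
[(0,0),(48,34),(49,48),(35,4),(44,49),(0,31),(64,22),(31,25),(2,11)],
[(0,0),(4,15),(61,43),(23,8),(18,45),(0,9),(62,44),(71,50),(54,22)],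
[(0,0),(24,30),(35,33),(49,16),(40,37),(0,18),(20,35),(53,47),(10,44)],
[(0,0),(8,7),(23,13),(61,32),(66,21),(0,36),(22,17),(13,41),(30,35)],
[(0,0),(48,14),(49,26),(35,11),(44,42),(0,19),(64,34),(31,29),(2,17)],
[(0,0),(4,28),(61,52),(23,22),(18,31),(0,38),(62,15),(71,5),(54,34)],
[(0,0),(24,3),(35,51),(49,44),(40,9),(0,23),(20,30),(53,10),(10,15)],
[(0,0),(8,6),(23,49),(61,35),(66,18),(0,46),(22,7),(13,20),(30,30)],
[(0,0),(48,12),(49,45),(35,17),(44,36),(0,39),(64,14),(31,40),(2,7)],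
[(0,0),(4,24),(61,37),(23,34),(18,19),(0,25),(62,28),(71,27),(54,14)],
[(0,0),(24,48),(35,21),(49,15),(40,38),(0,50),(20,3),(53,1),(10,28)],
[(0,0),(8,43),(23,42),(61,30),(66,23),(0,47),(22,6),(13,2),(30,3)],
[(0,0),(48,33),(49,31),(35,7),(44,46),(0,41),(64,12),(31,4),(2,6)],
[(0,0),(4,13),(61,9),(23,14),(18,39),(0,29),(62,24),(71,8),(54,12)],
[(0,0),(24,26),(35,18),(49,28),(40,25),(0,5),(20,48),(53,16),(10,24)],
[(0,0),(15,10),(53,3),(6,25),(57,30),(18,21),(52,49),(20,47),(32,5)],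
[(0,0),(1,20),(13,6),(6,50),(37,7),(40,42),(28,45),(22,41),(56,10)],
[(0,0),(69,40),(31,12),(6,47),(27,14),(66,31),(32,37),(64,29),(52,20)],
[(0,0),(11,27),(71,24),(6,41),(47,28),(44,9),(56,21),(62,5),(28,40)],
[(0,0),(15,1),(53,48),(6,29),(57,3),(18,18),(52,42),(20,10),(32,27)],
[(0,0),(1,2),(13,43),(6,5),(37,6),(40,36),(28,31),(22,20),(56,1)],
[(0,0),(69,4),(31,33),(6,10),(27,12),(66,19),(32,9),(64,40),(52,2)],
[(0,0),(11,8),(71,13),(6,20),(47,24),(44,38),(56,18),(62,27),(28,4)],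
[(0,0),(15,16),(53,26),(6,40),(57,48),(18,23),(52,36),(20,1),(32,8)],
[(0,0),(1,32),(13,52),(6,27),(37,43),(40,46),(28,19),(22,2),(56,16)],
[(0,0),(69,11),(31,51),(6,1),(27,33),(66,39),(32,38),(64,4),(52,32)],
[(0,0),(11,22),(71,49),(6,2),(47,13),(44,25),(56,23),(62,8),(28,11)],
[(0,0),(15,44),(53,45),(6,4),(57,26),(18,50),(52,46),(20,16),(32,22)],
[(0,0),(1,35),(13,37),(6,8),(37,52),(40,47),(28,39),(22,32),(56,44)],
[(0,0),(69,17),(31,21),(6,16),(27,51),(66,41),(32,25),(64,11),(52,35)],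
[(0,0),(11,34),(71,42),(6,32),(47,49),(44,29),(56,50),(62,22),(28,17)],
[(0,0),(15,15),(53,31),(6,11),(57,45),(18,5),(52,47),(20,44),(32,34)],
[(0,0),(1,30),(13,9),(6,22),(37,37),(40,10),(28,41),(22,35),(56,15)],
[(0,0),(69,7),(31,18),(6,44),(27,21),(66,20),(32,29),(64,17),(52,30)],
[(0,0),(11,14),(71,36),(6,35),(47,42),(44,40),(56,5),(62,34),(28,7)],
[(0,0),(15,28),(53,19),(6,17),(57,31),(18,27),(52,10),(20,15),(32,14)],
[(0,0),(1,3),(13,38),(6,34),(37,9),(40,1),(28,20),(22,30),(56,28)],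
[(0,0),(69,6),(31,23),(6,15),(27,18),(66,2),(32,40),(64,7),(52,3)],
[(0,0),(11,12),(71,46),(6,30),(47,36),(44,4),(56,27),(62,14),(28,6)],
[(0,0),(15,24),(53,39),(6,7),(57,19),(18,8),(52,1),(20,28),(32,12)],
[(0,0),(1,48),(13,25),(6,14),(37,38),(40,16),(28,2),(22,3),(56,24)]]

theorem g9x53 : Gdd (G3 1 6 12) (G3 1 1 53) 9 :=
  gdd_of_chk 1 6 12 1 1 53 9 L9x53 (by decide +kernel)

theorem s3817 : StOn (Fin 3817) 9 :=
  st_fill1 (w := 1) g9x53 (by norm_num) (by simp) s73 (by simp)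
def L9x61 : List (List (ℕ × ℕ)) := [
[(0,0),(4,1),(61,30),(23,24),(18,33),(0,8),(62,3),(71,58),(54,16)],
[(0,0),(24,2),(35,60),(49,48),(40,5),(0,16),(20,6),(53,55),(10,32)],
[(0,0),(8,4),(23,59),(61,35),(66,10),(0,32),(22,12),(13,49),(30,3)],
[(0,0),(48,8),(49,57),(35,9),(44,20),(0,3),(64,24),(31,37),(2,6)],
[(0,0),(4,16),(61,53),(23,18),(18,40),(0,6),(62,48),(71,13),(54,12)],
[(0,0),(24,32),(35,45),(49,36),(40,19),(0,12),(20,35),(53,26),(10,24)],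
[(0,0),(8,3),(23,29),(61,11),(66,38),(0,24),(22,9),(13,52),(30,48)],
[(0,0),(48,6),(49,58),(35,22),(44,15),(0,48),(64,18),(31,43),(2,35)],
[(0,0),(4,12),(61,55),(23,44),(18,30),(0,35),(62,36),(71,25),(54,9)],
[(0,0),(24,24),(35,49),(49,27),(40,60),(0,9),(20,11),(53,50),(10,18)],
[(0,0),(8,48),(23,37),(61,54),(66,59),(0,18),(22,22),(13,39),(30,36)],
[(0,0),(48,35),(49,13),(35,47),(44,57),(0,36),(64,44),(31,17),(2,11)],
[(0,0),(4,9),(61,26),(23,33),(18,53),(0,11),(62,27),(71,34),(54,22)],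
[(0,0),(24,18),(35,52),(49,5),(40,45),(0,22),(20,54),(53,7),(10,44)],
[(0,0),(8,36),(23,43),(61,10),(66,29),(0,44),(22,47),(13,14),(30,27)],
[(0,0),(48,11),(49,25),(35,20),(44,58),(0,27),(64,33),(31,28),(2,54)],
[(0,0),(4,22),(61,50),(23,40),(18,55),(0,54),(62,5),(71,56),(54,47)],
[(0,0),(24,44),(35,39),(49,19),(40,49),(0,47),(20,10),(53,51),(10,33)],
[(0,0),(8,27),(23,17),(61,38),(66,37),(0,33),(22,20),(13,41),(30,5)],
[(0,0),(48,54),(49,34),(35,15),(44,13),(0,5),(64,40),(31,21),(2,10)],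
[(0,0),(4,47),(61,7),(23,30),(18,26),(0,10),(62,19),(71,42),(54,20)],
[(0,0),(24,33),(35,14),(49,60),(40,52),(0,20),(20,38),(53,23),(10,40)],
[(0,0),(8,5),(23,28),(61,59),(66,43),(0,40),(22,15),(13,46),(30,19)],
[(0,0),(48,10),(49,56),(35,57),(44,25),(0,19),(64,30),(31,31),(2,38)],
[(0,0),(4,20),(61,51),(23,53),(18,50),(0,38),(62,60),(71,1),(54,15)],
[(0,0),(24,40),(35,41),(49,45),(40,39),(0,15),(20,59),(53,2),(10,30)],
[(0,0),(8,19),(23,21),(61,29),(66,17),(0,30),(22,57),(13,4),(30,60)],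
[(0,0),(48,38),(49,42),(35,58),(44,34),(0,60),(64,53),(31,8),(2,59)],
[(0,0),(4,15),(61,23),(23,55),(18,7),(0,59),(62,45),(71,16),(54,57)],
[(0,0),(24,30),(35,46),(49,49),(40,14),(0,57),(20,29),(53,32),(10,53)],
[(0,0),(15,56),(53,59),(6,38),(57,46),(18,11),(52,48),(20,58),(32,50)],
[(0,0),(1,51),(13,57),(6,15),(37,31),(40,22),(28,35),(22,55),(56,39)],
[(0,0),(69,41),(31,53),(6,30),(27,1),(66,44),(32,9),(64,49),(52,17)],
[(0,0),(11,21),(71,45),(6,60),(47,2),(44,27),(56,18),(62,37),(28,34)],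
[(0,0),(15,42),(53,29),(6,59),(57,4),(18,54),(52,36),(20,13),(32,7)],
[(0,0),(1,23),(13,58),(6,57),(37,8),(40,47),(28,11),(22,26),(56,14)],
[(0,0),(69,46),(31,55),(6,53),(27,16),(66,33),(32,22),(64,52),(52,28)],
[(0,0),(11,31),(71,49),(6,45),(47,32),(44,5),(56,44),(62,43),(28,56)],
[(0,0),(15,1),(53,37),(6,29),(57,3),(18,10),(52,27),(20,25),(32,51)],
[(0,0),(1,2),(13,13),(6,58),(37,6),(40,20),(28,54),(22,50),(56,41)],
[(0,0),(69,4),(31,26),(6,55),(27,12),(66,40),(32,47),(64,39),(52,21)],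
[(0,0),(11,8),(71,52),(6,49),(47,24),(44,19),(56,33),(62,17),(28,42)],
[(0,0),(15,16),(53,43),(6,37),(57,48),(18,38),(52,5),(20,34),(32,23)],
[(0,0),(1,32),(13,25),(6,13),(37,35),(40,15),(28,10),(22,7),(56,46)],
[(0,0),(69,3),(31,50),(6,26),(27,9),(66,30),(32,20),(64,14),(52,31)],
[(0,0),(11,6),(71,39),(6,52),(47,18),(44,60),(56,40),(62,28),(28,1)],
[(0,0),(15,12),(53,17),(6,43),(57,36),(18,59),(52,19),(20,56),(32,2)],
[(0,0),(1,24),(13,34),(6,25),(37,11),(40,57),(28,38),(22,51),(56,4)],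
[(0,0),(69,48),(31,7),(6,50),(27,22),(66,53),(32,15),(64,41),(52,8)],
[(0,0),(11,35),(71,14),(6,39),(47,44),(44,45),(56,30),(62,21),(28,16)],
[(0,0),(15,9),(53,28),(6,17),(57,27),(18,29),(52,60),(20,42),(32,32)],
[(0,0),(1,18),(13,56),(6,34),(37,54),(40,58),(28,59),(22,23),(56,3)],
[(0,0),(69,36),(31,51),(6,7),(27,47),(66,55),(32,57),(64,46),(52,6)],
[(0,0),(11,11),(71,41),(6,14),(47,33),(44,49),(56,53),(62,31),(28,12)],
[(0,0),(15,22),(53,21),(6,28),(57,5),(18,37),(52,45),(20,1),(32,24)],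
[(0,0),(1,44),(13,42),(6,56),(37,10),(40,13),(28,29),(22,2),(56,48)],
[(0,0),(69,27),(31,23),(6,51),(27,20),(66,26),(32,58),(64,4),(52,35)],
[(0,0),(11,54),(71,46),(6,41),(47,40),(44,52),(56,55),(62,8),(28,9)],
[(0,0),(15,47),(53,31),(6,21),(57,19),(18,43),(52,49),(20,16),(32,18)],
[(0,0),(1,33),(13,1),(6,42),(37,38),(40,25),(28,37),(22,32),(56,36)]]

theorem g9x61 : Gdd (G3 1 6 12) (G3 1 1 61) 9 :=
  gdd_of_chk 1 6 12 1 1 61 9 L9x61 (by decide +kernel)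

theorem s4393 : StOn (Fin 4393) 9 :=
  st_fill1 (w := 1) g9x61 (by norm_num) (by simp) s73 (by simp)
theorem s4401 : StOn (Fin 4401) 9 :=
  st_fillq g9x61 (by norm_num) (by simp) s81 (by simp)

end H9St
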