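import Mathlib
import Pool.Agent.H9.StBase

namespace H9St

set_option maxRecDepth 100000

def L9x139 : List (List (ℕ × ℕ)) := [
[(0,0),(8,77),(38,137),(67,97),(37,68),(40,62),(62,134),(25,106),(53,131)],
[(0,0),(38,30),(17,131),(55,110),(7,133),(25,109),(5,119),(34,7),(11,107)],
[(0,0),(17,120),(8,107),(43,23),(70,115),(34,19),(32,59),(40,28),(56,11)],
[(0,0),(8,63),(38,11),(67,92),(37,43),(40,76),(62,97),(25,112),(53,44)],
[(0,0),(38,113),(17,44),(55,90),(7,33),(25,26),(5,110),(34,31),(11,37)],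
[(0,0),(17,35),(8,37),(43,82),(70,132),(34,104),(32,23),(40,124),(56,9)],
[(0,0),(8,1),(38,9),(67,50),(37,111),(40,138),(62,92),(25,79),(53,36)],
[(0,0),(38,4),(17,36),(55,61),(7,27),(25,135),(5,90),(34,38),(11,5)],
[(0,0),(17,16),(8,5),(43,105),(70,108),(34,123),(32,82),(40,13),(56,20)],
[(0,0),(8,64),(38,20),(67,3),(37,15),(40,75),(62,50),(25,52),(53,80)],
[(0,0),(38,117),(17,80),(55,12),(7,60),(25,22),(5,61),(34,69),(11,42)],
[(0,0),(17,51),(8,42),(43,48),(70,101),(34,88),(32,105),(40,137),(56,29)],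
[(0,0),(8,65),(38,29),(67,53),(37,126),(40,74),(62,3),(25,131),(53,116)],
[(0,0),(38,121),(17,116),(55,73),(7,87),(25,18),(5,12),(34,107),(11,47)],
[(0,0),(17,67),(8,47),(43,14),(70,70),(34,72),(32,48),(40,11),(56,49)],
[(0,0),(8,129),(38,49),(67,56),(37,2),(40,10),(62,53),(25,44),(53,57)],
[(0,0),(38,99),(17,57),(55,85),(7,8),(25,40),(5,73),(34,37),(11,89)],
[(0,0),(17,118),(8,89),(43,62),(70,32),(34,21),(32,14),(40,9),(56,78)],
[(0,0),(8,55),(38,78),(67,109),(37,128),(40,84),(62,56),(25,36),(53,34)],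
[(0,0),(38,81),(17,34),(55,19),(7,95),(25,58),(5,85),(34,5),(11,136)],
[(0,0),(17,46),(8,136),(43,76),(70,102),(34,93),(32,62),(40,20),(56,127)],
[(0,0),(8,45),(38,127),(67,26),(37,130),(40,94),(62,109),(25,80),(53,91)],
[(0,0),(38,41),(17,91),(55,104),(7,103),(25,98),(5,19),(34,42),(11,86)],
[(0,0),(17,25),(8,86),(43,138),(70,134),(34,114),(32,76),(40,29),(56,66)],
[(0,0),(8,100),(38,66),(67,135),(37,119),(40,39),(62,26),(25,116),(53,125)],
[(0,0),(38,122),(17,125),(55,123),(7,59),(25,17),(5,104),(34,47),(11,83)],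
[(0,0),(17,71),(8,83),(43,75),(70,97),(34,68),(32,138),(40,49),(56,54)],
[(0,0),(8,6),(38,54),(67,22),(37,110),(40,133),(62,135),(25,57),(53,77)],
[(0,0),(38,24),(17,77),(55,88),(7,23),(25,115),(5,123),(34,89),(11,30)],
[(0,0),(17,96),(8,30),(43,74),(70,92),(34,43),(32,75),(40,78),(56,120)],
[(0,0),(8,106),(38,120),(67,18),(37,90),(40,33),(62,22),(25,34),(53,63)],
[(0,0),(38,7),(17,63),(55,72),(7,82),(25,132),(5,88),(34,136),(11,113)],
[(0,0),(17,28),(8,113),(43,10),(70,50),(34,111),(32,74),(40,127),(56,35)],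
[(0,0),(8,112),(38,35),(67,40),(37,61),(40,27),(62,18),(25,91),(53,1)],
[(0,0),(38,31),(17,1),(55,21),(7,105),(25,108),(5,72),(34,86),(11,4)],
[(0,0),(17,124),(8,4),(43,84),(70,3),(34,15),(32,10),(40,66),(56,16)],
[(0,0),(8,79),(38,16),(67,58),(37,12),(40,60),(62,40),(25,125),(53,64)],
[(0,0),(38,38),(17,64),(55,93),(7,48),(25,101),(5,21),(34,83),(11,117)],
[(0,0),(17,13),(8,117),(43,94),(70,53),(34,126),(32,84),(40,54),(56,51)],
[(0,0),(8,52),(38,51),(67,98),(37,73),(40,87),(62,58),(25,77),(53,65)],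
[(0,0),(38,69),(17,65),(55,114),(7,14),(25,70),(5,93),(34,30),(11,121)],
[(0,0),(17,137),(8,121),(43,39),(70,56),(34,2),(32,94),(40,120),(56,67)],
[(0,0),(8,131),(38,67),(67,17),(37,85),(40,8),(62,98),(25,63),(53,129)],
[(0,0),(38,107),(17,129),(55,68),(7,62),(25,32),(5,114),(34,113),(11,99)],
[(0,0),(17,11),(8,99),(43,133),(70,109),(34,128),(32,39),(40,35),(56,118)],
[(0,0),(8,44),(38,118),(67,115),(37,19),(40,95),(62,17),(25,1),(53,55)],
[(0,0),(38,37),(17,55),(55,43),(7,76),(25,102),(5,68),(34,4),(11,81)],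
[(0,0),(17,9),(8,81),(43,33),(70,26),(34,130),(32,133),(40,16),(56,46)],
[(0,0),(8,36),(38,46),(67,132),(37,104),(40,103),(62,115),(25,64),(53,45)],
[(0,0),(38,5),(17,45),(55,111),(7,138),(25,134),(5,43),(34,117),(11,41)],
[(0,0),(17,20),(8,41),(43,27),(70,135),(34,119),(32,33),(40,51),(56,25)],
[(0,0),(8,80),(38,25),(67,108),(37,123),(40,59),(62,132),(25,65),(53,100)],
[(0,0),(38,42),(17,100),(55,15),(7,75),(25,97),(5,111),(34,121),(11,122)],
[(0,0),(17,29),(8,122),(43,60),(70,22),(34,110),(32,27),(40,67),(56,71)],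
[(0,0),(8,116),(38,71),(67,101),(37,88),(40,23),(62,108),(25,129),(53,6)],
[(0,0),(38,47),(17,6),(55,126),(7,74),(25,92),(5,15),(34,99),(11,24)],
[(0,0),(17,49),(8,24),(43,87),(70,18),(34,90),(32,60),(40,118),(56,96)],
[(0,0),(8,57),(38,96),(67,70),(37,72),(40,82),(62,101),(25,55),(53,106)],
[(0,0),(38,89),(17,106),(55,2),(7,10),(25,50),(5,126),(34,81),(11,7)],
[(0,0),(17,78),(8,7),(43,8),(70,40),(34,61),(32,87),(40,46),(56,28)],
[(0,0),(8,34),(38,28),(67,32),(37,21),(40,105),(62,70),(25,45),(53,112)],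
[(0,0),(38,136),(17,112),(55,128),(7,84),(25,3),(5,2),(34,41),(11,31)],
[(0,0),(17,127),(8,31),(43,95),(70,58),(34,12),(32,8),(40,25),(56,124)],
[(0,0),(8,91),(38,124),(67,102),(37,93),(40,48),(62,32),(25,100),(53,79)],
[(0,0),(38,86),(17,79),(55,130),(7,94),(25,53),(5,128),(34,122),(11,38)],
[(0,0),(17,66),(8,38),(43,103),(70,98),(34,73),(32,95),(40,71),(56,13)],
[(0,0),(8,125),(38,13),(67,134),(37,114),(40,14),(62,102),(25,6),(53,52)],
[(0,0),(38,83),(17,52),(55,119),(7,39),(25,56),(5,130),(34,24),(11,69)],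
[(0,0),(17,54),(8,69),(43,59),(70,17),(34,85),(32,103),(40,96),(56,137)],
[(0,0),(21,112),(1,82),(58,116),(13,22),(31,43),(22,138),(68,101),(68,123)],
[(0,0),(54,31),(10,50),(61,47),(22,88),(58,33),(64,135),(65,126),(65,75)],
[(0,0),(39,124),(52,61),(31,49),(64,74),(61,132),(13,123),(23,87),(23,22)],
[(0,0),(21,79),(1,105),(58,57),(13,18),(31,111),(22,75),(68,70),(68,88)],
[(0,0),(54,38),(10,3),(61,89),(22,72),(58,27),(64,22),(65,2),(65,74)],
[(0,0),(39,13),(52,12),(31,78),(64,10),(61,108),(13,88),(23,8),(23,18)],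
[(0,0),(21,52),(1,48),(58,34),(13,40),(31,15),(22,74),(68,32),(68,72)],
[(0,0),(54,69),(10,53),(61,136),(22,21),(58,60),(64,18),(65,128),(65,10)],
[(0,0),(39,137),(52,73),(31,127),(64,84),(61,101),(13,72),(23,95),(23,40)],
[(0,0),(21,131),(1,14),(58,91),(13,58),(31,126),(22,10),(68,102),(68,21)],
[(0,0),(54,107),(10,56),(61,86),(22,93),(58,87),(64,40),(65,130),(65,84)],
[(0,0),(39,11),(52,85),(31,66),(64,94),(61,70),(13,21),(23,103),(23,58)],
[(0,0),(21,44),(1,62),(58,125),(13,98),(31,2),(22,84),(68,134),(68,93)],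
[(0,0),(54,37),(10,109),(61,83),(22,114),(58,8),(64,58),(65,119),(65,94)],
[(0,0),(39,9),(52,19),(31,54),(64,39),(61,32),(13,93),(23,59),(23,98)],
[(0,0),(21,36),(1,76),(58,77),(13,17),(31,128),(22,94),(68,97),(68,114)],
[(0,0),(54,5),(10,26),(61,30),(22,68),(58,95),(64,98),(65,110),(65,39)],
[(0,0),(39,20),(52,104),(31,120),(64,133),(61,102),(13,114),(23,23),(23,17)],
[(0,0),(21,80),(1,138),(58,63),(13,115),(31,130),(22,39),(68,92),(68,68)],
[(0,0),(54,42),(10,135),(61,113),(22,43),(58,103),(64,17),(65,90),(65,133)],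
[(0,0),(39,29),(52,123),(31,35),(64,33),(61,134),(13,68),(23,82),(23,115)],
[(0,0),(21,116),(1,75),(58,1),(13,132),(31,119),(22,133),(68,50),(68,43)],
[(0,0),(54,47),(10,22),(61,4),(22,111),(58,59),(64,115),(65,61),(65,33)],
[(0,0),(39,49),(52,88),(31,16),(64,27),(61,97),(13,43),(23,105),(23,132)],
[(0,0),(21,57),(1,74),(58,64),(13,108),(31,110),(22,33),(68,3),(68,111)],
[(0,0),(54,89),(10,18),(61,117),(22,15),(58,23),(64,132),(65,12),(65,27)],
[(0,0),(39,78),(52,72),(31,51),(64,60),(61,92),(13,111),(23,48),(23,108)],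
[(0,0),(21,34),(1,10),(58,65),(13,101),(31,90),(22,27),(68,53),(68,15)],
[(0,0),(54,136),(10,40),(61,121),(22,126),(58,82),(64,108),(65,73),(65,60)],
[(0,0),(39,127),(52,21),(31,67),(64,87),(61,50),(13,15),(23,14),(23,101)],
[(0,0),(21,91),(1,84),(58,129),(13,70),(31,61),(22,60),(68,56),(68,126)],
[(0,0),(54,86),(10,58),(61,99),(22,2),(58,105),(64,101),(65,85),(65,87)],
[(0,0),(39,66),(52,93),(31,118),(64,8),(61,3),(13,126),(23,62),(23,70)],
[(0,0),(21,125),(1,94),(58,55),(13,32),(31,12),(22,87),(68,109),(68,2)],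
[(0,0),(54,83),(10,98),(61,81),(22,128),(58,48),(64,70),(65,19),(65,8)],
[(0,0),(39,54),(52,114),(31,46),(64,95),(61,53),(13,2),(23,76),(23,32)],
[(0,0),(21,77),(1,39),(58,45),(13,102),(31,73),(22,8),(68,26),(68,128)],
[(0,0),(54,30),(10,17),(61,41),(22,130),(58,14),(64,32),(65,104),(65,95)],
[(0,0),(39,120),(52,68),(31,25),(64,103),(61,56),(13,128),(23,138),(23,102)],
[(0,0),(21,63),(1,133),(58,100),(13,134),(31,85),(22,95),(68,135),(68,130)],
[(0,0),(54,113),(10,115),(61,122),(22,119),(58,62),(64,102),(65,123),(65,103)],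
[(0,0),(39,35),(52,43),(31,71),(64,59),(61,109),(13,130),(23,75),(23,134)],
[(0,0),(21,1),(1,33),(58,6),(13,97),(31,19),(22,103),(68,22),(68,119)],
[(0,0),(54,4),(10,132),(61,24),(22,110),(58,76),(64,134),(65,88),(65,59)],
[(0,0),(39,16),(52,111),(31,96),(64,23),(61,26),(13,119),(23,74),(23,97)],
[(0,0),(21,64),(1,27),(58,106),(13,92),(31,104),(22,59),(68,18),(68,110)],
[(0,0),(54,117),(10,108),(61,7),(22,90),(58,138),(64,97),(65,72),(65,23)],
[(0,0),(39,51),(52,15),(31,28),(64,82),(61,135),(13,110),(23,10),(23,92)],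
[(0,0),(21,65),(1,60),(58,112),(13,50),(31,123),(22,23),(68,40),(68,90)],
[(0,0),(54,121),(10,101),(61,31),(22,61),(58,75),(64,92),(65,21),(65,82)],
[(0,0),(39,67),(52,126),(31,124),(64,105),(61,22),(13,90),(23,84),(23,50)],
[(0,0),(21,129),(1,87),(58,79),(13,3),(31,88),(22,82),(68,58),(68,61)],
[(0,0),(54,99),(10,70),(61,38),(22,12),(58,74),(64,50),(65,93),(65,105)],
[(0,0),(39,118),(52,2),(31,13),(64,48),(61,18),(13,61),(23,94),(23,3)],
[(0,0),(21,55),(1,8),(58,52),(13,53),(31,72),(22,105),(68,98),(68,12)],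
[(0,0),(54,81),(10,32),(61,69),(22,73),(58,10),(64,3),(65,114),(65,48)],
[(0,0),(39,46),(52,128),(31,137),(64,14),(61,40),(13,12),(23,39),(23,53)],
[(0,0),(21,45),(1,95),(58,131),(13,56),(31,21),(22,48),(68,17),(68,73)],
[(0,0),(54,41),(10,102),(61,107),(22,85),(58,84),(64,53),(65,68),(65,14)],
[(0,0),(39,25),(52,130),(31,11),(64,62),(61,58),(13,73),(23,133),(23,56)],
[(0,0),(21,100),(1,103),(58,44),(13,109),(31,93),(22,14),(68,115),(68,85)],
[(0,0),(54,122),(10,134),(61,37),(22,19),(58,94),(64,56),(65,43),(65,62)],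
[(0,0),(39,71),(52,119),(31,9),(64,76),(61,98),(13,85),(23,33),(23,109)],
[(0,0),(21,6),(1,59),(58,36),(13,26),(31,114),(22,62),(68,132),(68,19)],
[(0,0),(54,24),(10,97),(61,5),(22,104),(58,39),(64,109),(65,111),(65,76)],
[(0,0),(39,96),(52,110),(31,20),(64,138),(61,17),(13,19),(23,27),(23,26)],
[(0,0),(21,106),(1,23),(58,80),(13,135),(31,68),(22,76),(68,108),(68,104)],
[(0,0),(54,7),(10,92),(61,42),(22,123),(58,133),(64,26),(65,15),(65,138)],
[(0,0),(39,28),(52,90),(31,29),(64,75),(61,115),(13,104),(23,60),(23,135)]]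

theorem g9x139 : Gdd (G3 2 6 6) (G3 1 1 139) 9 :=
  gdd_of_chk 2 6 6 1 1 139 9 L9x139 (by decide +kernel)

theorem s10017 : StOn (Fin 10017) 9 :=
  st_fillq g9x139 (by norm_num) (by simp) s81 (by simp)
def L9x229 : List (List (ℕ × ℕ)) := [
[(0,0),(4,1),(61,158),(23,2),(18,120),(0,90),(62,13),(71,160),(54,87)],
[(0,0),(24,6),(35,32),(49,12),(40,33),(0,82),(20,78),(53,44),(10,64)],
[(0,0),(8,36),(23,192),(61,72),(66,198),(0,34),(22,10),(13,35),(30,155)],
[(0,0),(48,216),(49,7),(35,203),(44,43),(0,204),(64,60),(31,210),(2,14)],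
[(0,0),(4,151),(61,42),(23,73),(18,29),(0,79),(62,131),(71,115),(54,84)],
[(0,0),(24,219),(35,23),(49,209),(40,174),(0,16),(20,99),(53,3),(10,46)],
[(0,0),(8,169),(23,138),(61,109),(66,128),(0,96),(22,136),(13,18),(30,47)],
[(0,0),(48,98),(49,141),(35,196),(44,81),(0,118),(64,129),(31,108),(2,53)],
[(0,0),(4,130),(61,159),(23,31),(18,28),(0,21),(62,87),(71,190),(54,89)],
[(0,0),(24,93),(35,38),(49,186),(40,168),(0,126),(20,64),(53,224),(10,76)],
[(0,0),(8,100),(23,228),(61,200),(66,92),(0,69),(22,155),(13,199),(30,227)],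
[(0,0),(48,142),(49,223),(35,55),(44,94),(0,185),(64,14),(31,49),(2,217)],
[(0,0),(4,165),(61,193),(23,101),(18,106),(0,194),(62,84),(71,65),(54,157)],
[(0,0),(24,74),(35,13),(49,148),(40,178),(0,19),(20,46),(53,161),(10,26)],
[(0,0),(8,215),(23,78),(61,201),(66,152),(0,114),(22,47),(13,50),(30,156)],
[(0,0),(48,145),(49,10),(35,61),(44,225),(0,226),(64,53),(31,71),(2,20)],
[(0,0),(4,183),(61,60),(23,137),(18,205),(0,211),(62,89),(71,197),(54,120)],
[(0,0),(24,182),(35,131),(49,135),(40,85),(0,121),(20,76),(53,37),(10,33)],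
[(0,0),(8,176),(23,99),(61,123),(66,52),(0,39),(22,227),(13,222),(30,198)],
[(0,0),(48,140),(49,136),(35,51),(44,83),(0,5),(64,217),(31,187),(2,43)],
[(0,0),(4,153),(61,129),(23,77),(18,40),(0,30),(62,157),(71,206),(54,29)],
[(0,0),(24,2),(35,87),(49,4),(40,11),(0,180),(20,26),(53,91),(10,174)],
[(0,0),(8,12),(23,64),(61,24),(66,66),(0,164),(22,156),(13,88),(30,128)],
[(0,0),(48,72),(49,155),(35,144),(44,167),(0,68),(64,20),(31,70),(2,81)],
[(0,0),(4,203),(61,14),(23,177),(18,86),(0,179),(62,120),(71,191),(54,28)],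
[(0,0),(24,73),(35,84),(49,146),(40,58),(0,158),(20,33),(53,1),(10,168)],
[(0,0),(8,209),(23,46),(61,189),(66,119),(0,32),(22,198),(13,6),(30,92)],
[(0,0),(48,109),(49,47),(35,218),(44,27),(0,192),(64,43),(31,36),(2,94)],
[(0,0),(4,196),(61,53),(23,163),(18,162),(0,7),(62,29),(71,216),(54,106)],
[(0,0),(24,31),(35,89),(49,62),(40,56),(0,42),(20,174),(53,151),(10,178)],
[(0,0),(8,186),(23,76),(61,143),(66,107),(0,23),(22,128),(13,219),(30,152)],
[(0,0),(48,200),(49,227),(35,171),(44,184),(0,138),(64,81),(31,169),(2,225)],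
[(0,0),(4,55),(61,217),(23,110),(18,188),(0,141),(62,28),(71,98),(54,205)],
[(0,0),(24,101),(35,157),(49,202),(40,212),(0,159),(20,168),(53,130),(10,85)],
[(0,0),(8,148),(23,26),(61,67),(66,127),(0,38),(22,92),(13,93),(30,52)],
[(0,0),(48,201),(49,156),(35,173),(44,75),(0,228),(64,94),(31,100),(2,83)],
[(0,0),(4,61),(61,20),(23,122),(18,221),(0,223),(62,106),(71,142),(54,40)],
[(0,0),(24,137),(35,120),(49,45),(40,181),(0,193),(20,178),(53,165),(10,11)],
[(0,0),(8,135),(23,33),(61,41),(66,170),(0,13),(22,152),(13,74),(30,66)],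
[(0,0),(48,123),(49,198),(35,17),(44,104),(0,78),(64,225),(31,215),(2,167)],
[(0,0),(4,51),(61,43),(23,102),(18,166),(0,10),(62,205),(71,145),(54,86)],
[(0,0),(24,77),(35,29),(49,154),(40,80),(0,60),(20,85),(53,183),(10,58)],
[(0,0),(8,4),(23,174),(61,8),(66,22),(0,131),(22,52),(13,182),(30,119)],
[(0,0),(48,24),(49,128),(35,48),(44,132),(0,99),(64,83),(31,176),(2,27)],
[(0,0),(4,144),(61,81),(23,59),(18,105),(0,136),(62,40),(71,140),(54,162)],
[(0,0),(24,177),(35,28),(49,125),(40,172),(0,129),(20,11),(53,153),(10,56)],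
[(0,0),(8,146),(23,168),(61,63),(66,116),(0,87),(22,66),(13,2),(30,107)],
[(0,0),(48,189),(49,92),(35,149),(44,9),(0,64),(64,167),(31,12),(2,184)],
[(0,0),(4,218),(61,94),(23,207),(18,54),(0,155),(62,86),(71,72),(54,188)],
[(0,0),(24,163),(35,106),(49,97),(40,95),(0,14),(20,58),(53,203),(10,212)],
[(0,0),(8,62),(23,178),(61,124),(66,112),(0,84),(22,119),(13,73),(30,127)],
[(0,0),(48,143),(49,152),(35,57),(44,214),(0,46),(64,27),(31,209),(2,75)],
[(0,0),(4,171),(61,225),(23,113),(18,139),(0,47),(62,162),(71,109),(54,221)],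
[(0,0),(24,110),(35,205),(49,220),(40,147),(0,53),(20,56),(53,196),(10,181)],
[(0,0),(8,202),(23,85),(61,175),(66,195),(0,89),(22,107),(13,31),(30,170)],
[(0,0),(48,67),(49,52),(35,134),(44,25),(0,76),(64,184),(31,186),(2,104)],
[(0,0),(4,173),(61,83),(23,117),(18,150),(0,227),(62,188),(71,200),(54,166)],
[(0,0),(24,122),(35,40),(49,15),(40,213),(0,217),(20,212),(53,55),(10,80)],
[(0,0),(8,45),(23,11),(61,90),(66,133),(0,157),(22,127),(13,101),(30,22)],
[(0,0),(48,41),(49,66),(35,82),(44,111),(0,26),(64,75),(31,148),(2,132)],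
[(0,0),(4,17),(61,167),(23,34),(18,208),(0,156),(62,221),(71,201),(54,105)],
[(0,0),(24,102),(35,86),(49,204),(40,103),(0,20),(20,181),(53,61),(10,172)],
[(0,0),(8,154),(23,58),(61,79),(66,160),(0,120),(22,170),(13,137),(30,116)],
[(0,0),(48,8),(49,119),(35,16),(44,44),(0,33),(64,104),(31,135),(2,9)],
[(0,0),(4,48),(61,27),(23,96),(18,35),(0,198),(62,166),(71,123),(54,54)],
[(0,0),(24,59),(35,162),(49,118),(40,210),(0,43),(20,80),(53,51),(10,95)],
[(0,0),(8,125),(23,56),(61,21),(66,115),(0,29),(22,22),(13,77),(30,112)],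
[(0,0),(48,63),(49,107),(35,126),(44,3),(0,174),(64,132),(31,4),(2,214)],
[(0,0),(4,149),(61,184),(23,69),(18,18),(0,128),(62,105),(71,24),(54,139)],
[(0,0),(24,207),(35,188),(49,185),(40,108),(0,81),(20,172),(53,144),(10,147)],
[(0,0),(8,97),(23,212),(61,194),(66,190),(0,28),(22,116),(13,177),(30,195)],
[(0,0),(48,124),(49,127),(35,19),(44,224),(0,168),(64,9),(31,146),(2,25)],
[(0,0),(4,57),(61,75),(23,114),(18,199),(0,92),(62,54),(71,189),(54,150)],
[(0,0),(24,113),(35,221),(49,226),(40,49),(0,94),(20,95),(53,218),(10,213)],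
[(0,0),(8,220),(23,181),(61,211),(66,65),(0,106),(22,112),(13,163),(30,133)],
[(0,0),(48,175),(49,170),(35,121),(44,161),(0,178),(64,214),(31,62),(2,111)],
[(0,0),(4,134),(61,104),(23,39),(18,50),(0,152),(62,139),(71,143),(54,208)],
[(0,0),(24,117),(35,166),(49,5),(40,71),(0,225),(20,147),(53,171),(10,103)],
[(0,0),(8,15),(23,80),(61,30),(66,197),(0,205),(22,195),(13,110),(30,160)],
[(0,0),(48,90),(49,22),(35,180),(44,37),(0,85),(64,25),(31,202),(2,44)],
[(0,0),(4,82),(61,132),(23,164),(18,222),(0,52),(62,150),(71,67),(54,35)],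
[(0,0),(24,34),(35,105),(49,68),(40,187),(0,83),(20,213),(53,173),(10,210)],
[(0,0),(8,204),(23,172),(61,179),(66,206),(0,40),(22,133),(13,122),(30,115)],
[(0,0),(48,79),(49,116),(35,158),(44,91),(0,11),(64,111),(31,45),(2,3)],
[(0,0),(4,16),(61,9),(23,32),(18,88),(0,66),(62,208),(71,41),(54,18)],
[(0,0),(24,96),(35,54),(49,192),(40,70),(0,167),(20,103),(53,17),(10,108)],
[(0,0),(8,118),(23,95),(61,7),(66,191),(0,86),(22,160),(13,102),(30,190)],
[(0,0),(48,21),(49,112),(35,42),(44,1),(0,58),(64,44),(31,154),(2,224)],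
[(0,0),(4,126),(61,214),(23,23),(18,6),(0,119),(62,35),(71,8),(54,199)],
[(0,0),(24,69),(35,139),(49,138),(40,36),(0,27),(20,210),(53,48),(10,49)],
[(0,0),(8,185),(23,147),(61,141),(66,216),(0,162),(22,115),(13,59),(30,65)],
[(0,0),(48,194),(49,195),(35,159),(44,151),(0,56),(64,3),(31,125),(2,161)],
[(0,0),(4,19),(61,25),(23,38),(18,219),(0,107),(62,18),(71,63),(54,50)],
[(0,0),(24,114),(35,150),(49,228),(40,169),(0,184),(20,108),(53,149),(10,71)],
[(0,0),(8,226),(23,213),(61,223),(66,98),(0,188),(22,190),(13,207),(30,197)],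
[(0,0),(48,211),(49,133),(35,193),(44,130),(0,212),(64,224),(31,97),(2,37)],
[(0,0),(4,121),(61,111),(23,13),(18,93),(0,127),(62,199),(71,124),(54,222)],
[(0,0),(24,39),(35,208),(49,78),(40,100),(0,75),(20,49),(53,57),(10,187)],
[(0,0),(8,5),(23,103),(61,10),(66,142),(0,221),(22,65),(13,113),(30,206)],
[(0,0),(48,30),(49,160),(35,60),(44,165),(0,181),(64,161),(31,220),(2,91)],
[(0,0),(4,180),(61,44),(23,131),(18,74),(0,170),(62,50),(71,175),(54,88)],
[(0,0),(24,164),(35,35),(49,99),(40,215),(0,104),(20,71),(53,134),(10,70)],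
[(0,0),(8,68),(23,210),(61,136),(66,145),(0,166),(22,197),(13,117),(30,191)],
[(0,0),(48,179),(49,115),(35,129),(44,183),(0,80),(64,37),(31,15),(2,1)],
[(0,0),(4,158),(61,3),(23,87),(18,182),(0,22),(62,222),(71,90),(54,6)],
[(0,0),(24,32),(35,18),(49,64),(40,176),(0,132),(20,187),(53,82),(10,36)],
[(0,0),(8,192),(23,108),(61,155),(66,140),(0,105),(22,206),(13,34),(30,216)],
[(0,0),(48,7),(49,190),(35,14),(44,153),(0,172),(64,91),(31,204),(2,151)],
[(0,0),(4,42),(61,224),(23,84),(18,2),(0,116),(62,88),(71,79),(54,219)],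
[(0,0),(24,23),(35,199),(49,46),(40,12),(0,9),(20,70),(53,16),(10,169)],
[(0,0),(8,138),(23,49),(61,47),(66,72),(0,54),(22,191),(13,96),(30,98)],
[(0,0),(48,141),(49,65),(35,53),(44,203),(0,95),(64,1),(31,118),(2,130)],
[(0,0),(4,159),(61,161),(23,89),(18,73),(0,112),(62,6),(71,21),(54,93)],
[(0,0),(24,38),(35,50),(49,76),(40,209),(0,214),(20,36),(53,126),(10,100)],
[(0,0),(15,131),(53,26),(6,228),(57,126),(18,171),(52,115),(20,162),(32,197)],
[(0,0),(1,99),(13,156),(6,223),(37,69),(40,110),(28,3),(22,56),(56,37)],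
[(0,0),(69,136),(31,20),(6,193),(27,185),(66,202),(32,18),(64,107),(52,222)],
[(0,0),(11,129),(71,120),(6,13),(47,194),(44,67),(56,108),(62,184),(28,187)],
[(0,0),(15,87),(53,33),(6,78),(57,19),(18,173),(52,190),(20,188),(32,206)],
[(0,0),(1,64),(13,198),(6,10),(37,114),(40,122),(28,224),(22,212),(56,91)],
[(0,0),(69,155),(31,43),(6,60),(27,226),(66,45),(32,199),(64,127),(52,88)],
[(0,0),(11,14),(71,29),(6,131),(47,211),(44,41),(56,49),(62,75),(28,70)],
[(0,0),(15,84),(53,174),(6,99),(57,121),(18,17),(52,65),(20,221),(32,191)],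
[(0,0),(1,46),(13,128),(6,136),(37,39),(40,102),(28,161),(22,181),(56,1)],
[(0,0),(69,47),(31,81),(6,129),(27,5),(66,154),(32,50),(64,170),(52,6)],
[(0,0),(11,53),(71,28),(6,87),(47,30),(44,8),(56,71),(62,104),(28,36)],
[(0,0),(15,89),(53,168),(6,64),(57,180),(18,48),(52,197),(20,166),(32,216)],
[(0,0),(1,76),(13,92),(6,155),(37,164),(40,59),(28,37),(22,80),(56,151)],
[(0,0),(69,227),(31,94),(6,14),(27,68),(66,125),(32,222),(64,22),(52,219)],
[(0,0),(11,217),(71,106),(6,84),(47,179),(44,63),(56,187),(62,132),(28,169)],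
[(0,0),(15,157),(53,178),(6,46),(57,158),(18,149),(52,206),(20,105),(32,98)],
[(0,0),(1,26),(13,152),(6,47),(37,32),(40,207),(28,91),(22,172),(56,130)],
[(0,0),(69,156),(31,225),(6,53),(27,192),(66,97),(32,88),(64,116),(52,93)],
[(0,0),(11,20),(71,205),(6,89),(47,7),(44,124),(56,70),(62,9),(28,100)],
[(0,0),(15,120),(53,85),(6,76),(57,42),(18,57),(52,191),(20,54),(32,142)],
[(0,0),(1,33),(13,52),(6,227),(37,23),(40,113),(28,1),(22,95),(56,165)],
[(0,0),(69,198),(31,83),(6,217),(27,138),(66,220),(32,6),(64,112),(52,74)],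
[(0,0),(11,43),(71,40),(6,157),(47,141),(44,175),(56,36),(62,214),(28,215)],
[(0,0),(15,29),(53,11),(6,26),(57,159),(18,134),(52,216),(20,139),(32,145)],
[(0,0),(1,174),(13,66),(6,156),(37,38),(40,117),(28,151),(22,147),(56,183)],
[(0,0),(69,128),(31,167),(6,20),(27,228),(66,15),(32,219),(64,195),(52,182)],
[(0,0),(11,81),(71,86),(6,120),(47,223),(44,90),(56,169),(62,25),(28,176)],
[(0,0),(15,28),(53,58),(6,33),(57,193),(18,82),(52,98),(20,150),(32,140)],
[(0,0),(1,168),(13,119),(6,198),(37,13),(40,34),(28,130),(22,213),(56,153)],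
[(0,0),(69,92),(31,27),(6,43),(27,78),(66,204),(32,93),(64,133),(52,2)],
[(0,0),(11,94),(71,162),(6,29),(47,10),(44,79),(56,100),(62,111),(28,12)],
[(0,0),(15,106),(53,56),(6,174),(57,60),(18,16),(52,142),(20,208),(32,72)],
[(0,0),(1,178),(13,107),(6,128),(37,131),(40,96),(28,165),(22,103),(56,203)],
[(0,0),(69,152),(31,184),(6,81),(27,99),(66,118),(32,74),(64,160),(52,73)],
[(0,0),(11,225),(71,188),(6,28),(47,136),(44,21),(56,215),(62,44),(28,209)],
[(0,0),(15,205),(53,212),(6,168),(57,129),(18,126),(52,145),(20,35),(32,109)],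
[(0,0),(1,85),(13,127),(6,92),(37,87),(40,69),(28,183),(22,210),(56,196)],
[(0,0),(69,52),(31,75),(6,94),(27,64),(66,185),(32,182),(64,115),(52,31)],
[(0,0),(11,83),(71,221),(6,106),(47,155),(44,194),(56,176),(62,3),(28,186)],
[(0,0),(15,40),(53,181),(6,178),(57,14),(18,19),(52,140),(20,18),(32,200)],
[(0,0),(1,11),(13,170),(6,152),(37,84),(40,114),(28,153),(22,108),(56,55)],
[(0,0),(69,66),(31,104),(6,225),(27,46),(66,226),(32,2),(64,190),(52,101)],
[(0,0),(11,167),(71,166),(6,205),(47,47),(44,211),(56,12),(62,224),(28,148)],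
[(0,0),(15,86),(53,80),(6,85),(57,53),(18,121),(52,72),(20,199),(32,201)],
[(0,0),(1,58),(13,22),(6,52),(37,89),(40,39),(28,203),(22,49),(56,61)],
[(0,0),(69,119),(31,132),(6,83),(27,76),(66,5),(32,73),(64,65),(52,137)],
[(0,0),(11,27),(71,105),(6,40),(47,227),(44,30),(56,209),(62,161),(28,135)],
[(0,0),(15,162),(53,172),(6,11),(57,217),(18,180),(52,109),(20,50),(32,123)],
[(0,0),(1,56),(13,116),(6,66),(37,157),(40,164),(28,196),(22,71),(56,51)],
[(0,0),(69,107),(31,9),(6,167),(27,26),(66,68),(32,31),(64,197),(52,77)],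
[(0,0),(11,184),(71,54),(6,86),(47,156),(44,179),(56,186),(62,37),(28,4)],
[(0,0),(15,188),(53,95),(6,58),(57,20),(18,158),(52,200),(20,222),(32,24)],
[(0,0),(1,212),(13,112),(6,119),(37,120),(40,32),(28,55),(22,187),(56,144)],
[(0,0),(69,127),(31,214),(6,27),(27,33),(66,192),(32,101),(64,206),(52,177)],
[(0,0),(11,75),(71,139),(6,162),(47,198),(44,7),(56,148),(62,91),(28,146)],
[(0,0),(15,221),(53,147),(6,56),(57,43),(18,42),(52,201),(20,88),(32,189)],
[(0,0),(1,181),(13,195),(6,107),(37,29),(40,23),(28,61),(22,70),(56,218)],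
[(0,0),(69,170),(31,25),(6,184),(27,174),(66,138),(32,137),(64,191),(52,163)],
[(0,0),(11,104),(71,150),(6,188),(47,128),(44,141),(56,135),(62,1),(28,62)],
[(0,0),(15,166),(53,213),(6,212),(57,81),(18,159),(52,123),(20,6),(32,143)],
[(0,0),(1,80),(13,133),(6,127),(37,28),(40,38),(28,51),(22,36),(56,171)],
[(0,0),(69,22),(31,111),(6,75),(27,168),(66,228),(32,77),(64,216),(52,110)],
[(0,0),(11,132),(71,208),(6,221),(47,92),(44,223),(56,4),(62,151),(28,202)],
[(0,0),(15,105),(53,103),(6,181),(57,94),(18,193),(52,24),(20,219),(32,67)],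
[(0,0),(1,172),(13,160),(6,170),(37,106),(40,13),(28,144),(22,169),(56,173)],
[(0,0),(69,116),(31,44),(6,104),(27,178),(66,78),(32,177),(64,98),(52,122)],
[(0,0),(11,9),(71,35),(6,166),(47,152),(44,10),(56,146),(62,130),(28,45)],
[(0,0),(15,54),(53,210),(6,80),(57,225),(18,60),(52,189),(20,93),(32,41)],
[(0,0),(1,95),(13,115),(6,22),(37,205),(40,131),(28,218),(22,100),(56,17)],
[(0,0),(69,112),(31,3),(6,132),(27,85),(66,99),(32,163),(64,142),(52,102)],
[(0,0),(11,214),(71,18),(6,105),(47,52),(44,136),(56,62),(62,165),(28,154)],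
[(0,0),(15,139),(53,108),(6,172),(57,83),(18,129),(52,143),(20,74),(32,8)],
[(0,0),(1,147),(13,190),(6,116),(37,40),(40,87),(28,171),(22,215),(56,48)],
[(0,0),(69,195),(31,224),(6,9),(27,11),(66,64),(32,110),(64,145),(52,59)],
[(0,0),(11,25),(71,199),(6,54),(47,66),(44,155),(56,202),(62,183),(28,125)],
[(0,0),(15,150),(53,49),(6,95),(57,167),(18,14),(52,67),(20,182),(32,63)],
[(0,0),(1,213),(13,65),(6,112),(37,86),(40,84),(28,173),(22,176),(56,149)],
[(0,0),(69,133),(31,161),(6,214),(27,58),(66,46),(32,122),(64,140),(52,207)],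
[(0,0),(11,111),(71,50),(6,139),(47,119),(44,47),(56,45),(62,153),(28,97)],
[(0,0),(15,208),(53,71),(6,147),(57,27),(18,53),(52,41),(20,2),(32,124)],
[(0,0),(1,103),(13,197),(6,195),(37,162),(40,89),(28,17),(22,12),(56,57)],
[(0,0),(69,160),(31,37),(6,25),(27,56),(66,76),(32,102),(64,72),(52,113)],
[(0,0),(11,44),(71,222),(6,150),(47,107),(44,227),(56,154),(62,203),(28,220)],
[(0,0),(15,35),(53,187),(6,213),(57,184),(18,217),(52,8),(20,73),(32,175)],
[(0,0),(1,210),(13,206),(6,133),(37,188),(40,157),(28,48),(22,209),(56,134)],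
[(0,0),(69,115),(31,91),(6,111),(27,212),(66,26),(32,59),(64,109),(52,117)],
[(0,0),(11,3),(71,88),(6,208),(47,127),(44,156),(56,125),(62,196),(28,15)],
[(0,0),(15,18),(53,70),(6,103),(57,75),(18,20),(52,63),(20,31),(32,90)],
[(0,0),(1,108),(13,191),(6,160),(37,221),(40,120),(28,149),(22,186),(56,82)],
[(0,0),(69,190),(31,1),(6,44),(27,181),(66,33),(32,207),(64,200),(52,34)],
[(0,0),(11,224),(71,6),(6,35),(47,170),(44,198),(56,97),(62,55),(28,204)],
[(0,0),(15,199),(53,36),(6,210),(57,104),(18,43),(52,124),(20,101),(32,79)],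
[(0,0),(1,49),(13,216),(6,115),(37,166),(40,29),(28,57),(22,148),(56,16)],
[(0,0),(69,65),(31,151),(6,3),(27,80),(66,174),(32,113),(64,201),(52,96)],
[(0,0),(11,161),(71,219),(6,18),(47,22),(44,128),(56,220),(62,61),(28,118)],
[(0,0),(15,50),(53,169),(6,108),(57,132),(18,81),(52,175),(20,137),(32,21)],
[(0,0),(1,71),(13,98),(6,190),(37,105),(40,28),(28,134),(22,135),(56,126)],
[(0,0),(69,197),(31,130),(6,224),(27,172),(66,168),(32,117),(64,123),(52,69)],
[(0,0),(11,37),(71,93),(6,199),(47,116),(44,92),(56,15),(62,51),(28,185)],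
[(0,0),(15,222),(53,100),(6,49),(57,9),(18,94),(52,90),(20,77),(32,194)],
[(0,0),(1,187),(13,142),(6,65),(37,54),(40,106),(28,82),(22,4),(56,19)],
[(0,0),(69,206),(31,165),(6,161),(27,95),(66,178),(32,34),(64,24),(52,114)],
[(0,0),(11,91),(71,74),(6,50),(47,112),(44,152),(56,204),(62,144),(28,226)],
[(0,0),(15,88),(53,215),(6,71),(57,214),(18,225),(52,79),(20,177),(32,211)],
[(0,0),(1,70),(13,145),(6,197),(37,139),(40,205),(28,16),(22,146),(56,121)],
[(0,0),(69,191),(31,183),(6,37),(27,147),(66,85),(32,96),(64,189),(52,39)],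
[(0,0),(11,1),(71,182),(6,222),(47,195),(44,52),(56,118),(62,218),(28,5)],
[(0,0),(15,6),(53,176),(6,187),(57,25),(18,83),(52,21),(20,163),(32,30)],
[(0,0),(1,36),(13,140),(6,206),(37,150),(40,40),(28,126),(22,62),(56,180)],
[(0,0),(69,216),(31,153),(6,91),(27,213),(66,11),(32,69),(64,143),(52,164)],
[(0,0),(11,151),(71,2),(6,88),(47,133),(44,66),(56,185),(62,171),(28,68)],
[(0,0),(15,219),(53,12),(6,70),(57,111),(18,167),(52,194),(20,110),(32,179)],
[(0,0),(1,169),(13,72),(6,191),(37,208),(40,86),(28,19),(22,202),(56,158)]]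

theorem g9x229 : Gdd (G3 1 6 12) (G3 1 1 229) 9 :=
  gdd_of_chk 1 6 12 1 1 229 9 L9x229 (by decide +kernel)

theorem s16497 : StOn (Fin 16497) 9 :=
  st_fillq g9x229 (by norm_num) (by simp) s81 (by simp)

end H9St
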