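import Mathlib
import Pool.Agent.H9.StBase

namespace H9St

set_option maxRecDepth 100000

def L8x19 : List (List (ℕ × ℕ)) := [
[(0,0),(0,1),(14,2),(40,16),(5,15),(34,5),(17,12),(15,13)],
[(0,0),(0,4),(28,8),(3,7),(24,3),(5,1),(48,10),(44,14)],
[(0,0),(0,16),(7,13),(20,9),(34,12),(24,4),(33,2),(39,18)],
[(0,0),(0,7),(14,14),(40,17),(5,10),(34,16),(17,8),(15,15)],
[(0,0),(0,9),(28,18),(3,11),(24,2),(5,7),(48,13),(44,3)],
[(0,0),(0,17),(7,15),(20,6),(34,8),(24,9),(33,14),(39,12)],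
[(0,0),(0,11),(14,3),(40,5),(5,13),(34,17),(17,18),(15,10)],
[(0,0),(0,6),(28,12),(3,1),(24,14),(5,11),(48,15),(44,2)],
[(0,0),(0,5),(7,10),(20,4),(34,18),(24,6),(33,3),(39,8)],
[(0,0),(18,4),(38,16),(39,6),(22,12),(32,13),(45,11),(40,3)],
[(0,0),(36,16),(13,7),(15,5),(30,10),(1,14),(55,6),(3,12)],
[(0,0),(9,7),(26,9),(44,1),(11,2),(16,18),(47,5),(20,10)],
[(0,0),(18,9),(38,17),(39,4),(22,8),(32,15),(45,1),(40,2)],
[(0,0),(36,17),(13,11),(15,16),(30,13),(1,3),(55,4),(3,8)],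
[(0,0),(9,11),(26,6),(44,7),(11,14),(16,12),(47,16),(20,13)],
[(0,0),(18,6),(38,5),(39,9),(22,18),(32,10),(45,7),(40,14)],
[(0,0),(36,5),(13,1),(15,17),(30,15),(1,2),(55,9),(3,18)],
[(0,0),(9,1),(26,4),(44,11),(11,3),(16,8),(47,17),(20,15)]]

theorem g8x19 : Gdd (G3 2 2 14) (G3 1 1 19) 8 :=
  gdd_of_chk 2 2 14 1 1 19 8 L8x19 (by decide +kernel)

theorem s1065 : StOn (Fin 1065) 8 :=
  st_fill1 (w := 1) g8x19 (by norm_num) (by simp) s57 (by simp)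
def Lm1567 : List (List (ℕ × ℕ)) := [
[(0,0),(5,1),(6,1072),(6,773),(5,348),(0,693),(6,1306),(4,1457),(3,661)],
[(0,0),(5,50),(6,322),(6,1042),(5,163),(0,176),(6,1053),(4,768),(3,143)],
[(0,0),(5,933),(6,430),(6,389),(5,315),(0,965),(6,939),(4,792),(3,882)],
[(0,0),(5,1207),(6,1129),(6,646),(5,80),(0,1240),(6,1507),(4,425),(3,224)],
[(0,0),(5,804),(6,38),(6,960),(5,866),(0,887),(6,134),(4,879),(3,231)],
[(0,0),(5,1025),(6,333),(6,990),(5,991),(0,474),(6,432),(4,74),(3,581)],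
[(0,0),(5,1106),(6,980),(6,923),(5,973),(0,195),(6,1229),(4,566),(3,844)],
[(0,0),(5,455),(6,423),(6,707),(5,73),(0,348),(6,337),(4,94),(3,1458)],
[(0,0),(5,812),(6,779),(6,876),(5,516),(0,163),(6,1180),(4,1566),(3,818)],
[(0,0),(5,1425),(6,1342),(6,1491),(5,728),(0,315),(6,1021),(4,1517),(3,158)],
[(0,0),(5,735),(6,1286),(6,901),(5,359),(0,80),(6,906),(4,634),(3,65)],
[(0,0),(5,709),(6,53),(6,1174),(5,713),(0,866),(6,1424),(4,360),(3,116)],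
[(0,0),(5,976),(6,1083),(6,721),(5,1176),(0,991),(6,685),(4,763),(3,1099)],
[(0,0),(5,223),(6,872),(6,9),(5,821),(0,973),(6,1343),(4,542),(3,105)],
[(0,0),(5,181),(6,1291),(6,450),(5,308),(0,73),(6,1336),(4,461),(3,549)],
[(0,0),(5,1215),(6,303),(6,562),(5,1297),(0,516),(6,986),(4,1112),(3,811)],
[(0,0),(5,1204),(6,1047),(6,1461),(5,603),(0,728),(6,723),(4,755),(3,1375)],
[(0,0),(5,654),(6,639),(6,968),(5,377),(0,359),(6,109),(4,142),(3,1369)],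
[(0,0),(5,1360),(6,610),(6,1390),(5,46),(0,713),(6,749),(4,832),(3,1069)],
[(0,0),(5,619),(6,727),(6,552),(5,733),(0,1176),(6,1409),(4,858),(3,172)],
[(0,0),(5,1177),(6,309),(6,961),(5,609),(0,821),(6,1502),(4,591),(3,765)],
[(0,0),(5,871),(6,1347),(6,1040),(5,677),(0,308),(6,1451),(4,1344),(3,642)],
[(0,0),(5,1241),(6,1536),(6,289),(5,943),(0,1297),(6,468),(4,1386),(3,760)],
[(0,0),(5,937),(6,17),(6,347),(5,140),(0,603),(6,1462),(4,352),(3,392)],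
[(0,0),(5,1407),(6,850),(6,113),(5,732),(0,377),(6,1018),(4,363),(3,796)],
[(0,0),(5,1402),(6,191),(6,949),(5,559),(0,46),(6,756),(4,913),(3,625)],
[(0,0),(5,1152),(6,148),(6,440),(5,1311),(0,733),(6,192),(4,207),(3,1477)],
[(0,0),(5,1188),(6,1132),(6,62),(5,1303),(0,609),(6,198),(4,948),(3,201)],
[(0,0),(5,1421),(6,188),(6,1533),(5,903),(0,677),(6,498),(4,390),(3,648)],
[(0,0),(5,535),(6,1565),(6,1434),(5,1274),(0,943),(6,1395),(4,696),(3,1060)],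
[(0,0),(5,111),(6,1467),(6,1185),(5,1020),(0,140),(6,802),(4,326),(3,1289)],
[(0,0),(5,849),(6,1268),(6,1271),(5,856),(0,732),(6,925),(4,630),(3,203)],
[(0,0),(5,141),(6,720),(6,870),(5,491),(0,559),(6,807),(4,160),(3,748)],
[(0,0),(5,782),(6,1526),(6,1191),(5,1045),(0,1311),(6,1175),(4,165),(3,1359)],
[(0,0),(5,1492),(6,1084),(6,4),(5,539),(0,1303),(6,771),(4,415),(3,569)],
[(0,0),(5,951),(6,922),(6,200),(5,311),(0,903),(6,942),(4,379),(3,244)],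
[(0,0),(5,540),(6,657),(6,598),(5,1447),(0,1274),(6,90),(4,146),(3,1231)],
[(0,0),(5,361),(6,1510),(6,127),(5,268),(0,1020),(6,1366),(4,1032),(3,437)],
[(0,0),(5,813),(6,284),(6,82),(5,864),(0,856),(6,919),(4,1456),(3,1479)],
[(0,0),(5,1475),(6,97),(6,966),(5,891),(0,491),(6,507),(4,718),(3,301)],
[(0,0),(5,101),(6,149),(6,1290),(5,674),(0,1045),(6,278),(4,1426),(3,947)],
[(0,0),(5,349),(6,1182),(6,253),(5,793),(0,539),(6,1364),(4,785),(3,340)],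
[(0,0),(5,213),(6,1121),(6,114),(5,475),(0,311),(6,819),(4,75),(3,1330)],
[(0,0),(5,1248),(6,1205),(6,999),(5,245),(0,1447),(6,208),(4,616),(3,686)],
[(0,0),(5,1287),(6,704),(6,1373),(5,1281),(0,268),(6,998),(4,1027),(3,1393)],
[(0,0),(5,103),(6,726),(6,1269),(5,1370),(0,864),(6,1323),(4,1206),(3,702)],
[(0,0),(5,449),(6,259),(6,770),(5,1119),(0,891),(6,336),(4,754),(3,626)],
[(0,0),(5,512),(6,414),(6,892),(5,1105),(0,674),(6,1130),(4,92),(3,1527)],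
[(0,0),(5,528),(6,329),(6,724),(5,405),(0,793),(6,88),(4,1466),(3,1134)],
[(0,0),(5,1328),(6,780),(6,159),(5,1446),(0,475),(6,1266),(4,1218),(3,288)],
[(0,0),(5,586),(6,1392),(6,115),(5,218),(0,245),(6,620),(4,1354),(3,297)],
[(0,0),(5,1094),(6,652),(6,1049),(5,1498),(0,1281),(6,1227),(4,319),(3,747)],
[(0,0),(5,1422),(6,1260),(6,739),(5,1251),(0,1370),(6,237),(4,280),(3,1309)],
[(0,0),(5,585),(6,320),(6,909),(5,1437),(0,1119),(6,881),(4,1464),(3,1203)],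
[(0,0),(5,1044),(6,330),(6,7),(5,1335),(0,1105),(6,174),(4,1118),(3,604)],
[(0,0),(5,489),(6,830),(6,350),(5,936),(0,405),(6,865),(4,1055),(3,427)],
[(0,0),(5,945),(6,758),(6,263),(5,1357),(0,1446),(6,941),(4,1039),(3,979)],
[(0,0),(5,240),(6,292),(6,614),(5,469),(0,218),(6,40),(4,239),(3,373)],
[(0,0),(5,1031),(6,497),(6,927),(5,1512),(0,1498),(6,433),(4,981),(3,1413)],
[(0,0),(5,1406),(6,1345),(6,907),(5,384),(0,1251),(6,1279),(4,473),(3,135)],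
[(0,0),(5,1352),(6,1436),(6,1474),(5,396),(0,1437),(6,1270),(4,145),(3,482)],
[(0,0),(5,219),(6,1285),(6,51),(5,996),(0,1335),(6,820),(4,982),(3,595)],
[(0,0),(5,1548),(6,3),(6,983),(5,1223),(0,936),(6,258),(4,523),(3,1544)],
[(0,0),(5,617),(6,150),(6,573),(5,37),(0,1357),(6,364),(4,1078),(3,417)],
[(0,0),(5,1077),(6,1232),(6,444),(5,283),(0,469),(6,963),(4,622),(3,479)],
[(0,0),(5,572),(6,487),(6,262),(5,47),(0,1512),(6,1140),(4,1327),(3,445)],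
[(0,0),(5,394),(6,845),(6,564),(5,783),(0,384),(6,588),(4,536),(3,312)],
[(0,0),(5,896),(6,1508),(6,1561),(5,1542),(0,396),(6,1194),(4,161),(3,1497)],
[(0,0),(5,924),(6,184),(6,1267),(5,317),(0,996),(6,154),(4,215),(3,1201)],
[(0,0),(5,757),(6,1365),(6,670),(5,180),(0,1223),(6,1432),(4,1348),(3,504)],
[(0,0),(5,242),(6,869),(6,593),(5,1165),(0,37),(6,1085),(4,19),(3,128)],
[(0,0),(5,1131),(6,1141),(6,1444),(5,271),(0,283),(6,972),(4,950),(3,132)],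
[(0,0),(5,138),(6,638),(6,118),(5,1014),(0,47),(6,23),(4,490),(3,332)],
[(0,0),(5,632),(6,560),(6,1199),(5,556),(0,783),(6,1150),(4,995),(3,930)],
[(0,0),(5,260),(6,1361),(6,404),(5,1161),(0,1542),(6,1088),(4,1173),(3,1057)],
[(0,0),(5,464),(6,669),(6,1396),(5,71),(0,317),(6,1122),(4,671),(3,1139)],
[(0,0),(5,1262),(6,543),(6,852),(5,416),(0,180),(6,1255),(4,643),(3,538)],
[(0,0),(5,420),(6,511),(6,291),(5,429),(0,1165),(6,70),(4,810),(3,261)],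
[(0,0),(5,629),(6,478),(6,447),(5,1079),(0,271),(6,366),(4,1325),(3,514)],
[(0,0),(5,110),(6,395),(6,412),(5,672),(0,1014),(6,1063),(4,436),(3,628)],
[(0,0),(5,799),(6,946),(6,229),(5,693),(0,556),(6,1439),(4,1429),(3,60)],
[(0,0),(5,775),(6,290),(6,481),(5,176),(0,1161),(6,1435),(4,935),(3,1433)],
[(0,0),(5,1142),(6,397),(6,545),(5,965),(0,71),(6,1235),(4,1307),(3,1135)],
[(0,0),(5,688),(6,1046),(6,611),(5,1240),(0,416),(6,637),(4,1103),(3,338)],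
[(0,0),(5,1493),(6,589),(6,777),(5,887),(0,429),(6,510),(4,305),(3,1230)],
[(0,0),(5,1001),(6,1244),(6,1242),(5,474),(0,1079),(6,428),(4,1147),(3,387)],
[(0,0),(5,1473),(6,1087),(6,987),(5,195),(0,672),(6,1029),(4,938),(3,546)],
[(0,0),(7,1162),(4,362),(4,1049),(4,1428),(2,461),(1,1361),(0,748),(3,333)],
[(0,0),(7,121),(4,863),(4,739),(4,885),(2,1112),(1,669),(0,1359),(3,980)],
[(0,0),(7,1349),(4,841),(4,909),(4,374),(2,755),(1,543),(0,569),(3,423)],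
[(0,0),(7,69),(4,1308),(4,7),(4,1463),(2,142),(1,511),(0,244),(3,779)],
[(0,0),(7,316),(4,1153),(4,350),(4,1068),(2,832),(1,478),(0,1231),(3,1342)],
[(0,0),(7,130),(4,1238),(4,263),(4,122),(2,858),(1,395),(0,437),(3,1286)],
[(0,0),(7,232),(4,787),(4,614),(4,1399),(2,591),(1,946),(0,1479),(3,53)],
[(0,0),(7,631),(4,175),(4,927),(4,1002),(2,1344),(1,290),(0,301),(3,1083)],
[(0,0),(7,210),(4,915),(4,907),(4,1523),(2,1386),(1,397),(0,947),(3,872)],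
[(0,0),(7,1098),(4,307),(4,1474),(4,934),(2,352),(1,1046),(0,340),(3,1291)],
[(0,0),(7,55),(4,1247),(4,51),(4,1257),(2,363),(1,589),(0,1330),(3,303)],
[(0,0),(7,1183),(4,1237),(4,983),(4,170),(2,913),(1,1244),(0,686),(3,1047)],
[(0,0),(7,1171),(4,737),(4,573),(4,665),(2,207),(1,1087),(0,1393),(3,639)],
[(0,0),(7,571),(4,809),(4,444),(4,343),(2,948),(1,1072),(0,702),(3,610)],
[(0,0),(7,344),(4,1275),(4,262),(4,1480),(2,390),(1,322),(0,626),(3,727)],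
[(0,0),(7,1530),(4,1070),(4,564),(4,351),(2,696),(1,430),(0,1527),(3,309)],
[(0,0),(7,1284),(4,222),(4,1561),(4,313),(2,326),(1,1129),(0,1134),(3,1347)],
[(0,0),(7,1520),(4,131),(4,1267),(4,1547),(2,630),(1,38),(0,288),(3,1536)],
[(0,0),(7,784),(4,282),(4,670),(4,567),(2,160),(1,333),(0,297),(3,17)],
[(0,0),(7,25),(4,1564),(4,593),(4,144),(2,165),(1,980),(0,747),(3,850)],
[(0,0),(7,1250),(4,1417),(4,1444),(4,932),(2,415),(1,423),(0,1309),(3,191)],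
[(0,0),(7,1387),(4,335),(4,118),(4,1157),(2,379),(1,779),(0,1203),(3,148)],
[(0,0),(7,402),(4,1080),(4,1199),(4,1438),(2,146),(1,1342),(0,604),(3,1132)],
[(0,0),(7,1296),(4,722),(4,404),(4,1385),(2,1032),(1,1286),(0,427),(3,188)],
[(0,0),(7,553),(4,59),(4,1396),(4,302),(2,1456),(1,53),(0,979),(3,1565)],
[(0,0),(7,1011),(4,1383),(4,852),(4,997),(2,718),(1,1083),(0,373),(3,1467)],
[(0,0),(7,406),(4,202),(4,291),(4,1273),(2,1426),(1,872),(0,1413),(3,1268)],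
[(0,0),(7,1496),(4,698),(4,447),(4,970),(2,785),(1,1291),(0,135),(3,720)],
[(0,0),(7,1151),(4,426),(4,412),(4,1490),(2,75),(1,303),(0,482),(3,1526)],
[(0,0),(7,1138),(4,929),(4,229),(4,851),(2,616),(1,1047),(0,595),(3,1084)],
[(0,0),(7,488),(4,1007),(4,481),(4,241),(2,1027),(1,639),(0,1544),(3,922)],
[(0,0),(7,895),(4,206),(4,545),(4,1081),(2,1206),(1,610),(0,417),(3,657)],
[(0,0),(7,874),(4,898),(4,611),(4,772),(2,754),(1,727),(0,479),(3,1510)],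
[(0,0),(7,1391),(4,1024),(4,777),(4,992),(2,92),(1,309),(0,445),(3,284)],
[(0,0),(7,602),(4,1056),(4,1242),(4,1023),(2,1466),(1,1347),(0,312),(3,97)],
[(0,0),(7,327),(4,1089),(4,987),(4,1006),(2,1218),(1,1536),(0,1497),(3,149)],
[(0,0),(7,680),(4,1172),(4,773),(4,156),(2,1354),(1,17),(0,1201),(3,1182)],
[(0,0),(7,1093),(4,621),(4,1042),(4,1532),(2,319),(1,850),(0,504),(3,1121)],
[(0,0),(7,1372),(4,1277),(4,389),(4,1384),(2,280),(1,191),(0,128),(3,1205)],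
[(0,0),(7,1219),(4,1170),(4,646),(4,252),(2,1464),(1,148),(0,132),(3,704)],
[(0,0),(7,1404),(4,521),(4,960),(4,64),(2,1118),(1,1132),(0,332),(3,726)],
[(0,0),(7,1252),(4,978),(4,990),(4,66),(2,1055),(1,188),(0,930),(3,259)],
[(0,0),(7,1487),(4,323),(4,923),(4,166),(2,1039),(1,1565),(0,1057),(3,414)],
[(0,0),(7,701),(4,480),(4,707),(4,465),(2,239),(1,1467),(0,1139),(3,329)],
[(0,0),(7,576),(4,495),(4,876),(4,1312),(2,981),(1,1268),(0,538),(3,780)],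
[(0,0),(7,594),(4,1245),(4,1491),(4,1353),(2,473),(1,720),(0,261),(3,1392)],
[(0,0),(7,1494),(4,1137),(4,901),(4,269),(2,145),(1,1526),(0,514),(3,652)],
[(0,0),(7,1051),(4,438),(4,1174),(4,914),(2,982),(1,1084),(0,628),(3,1260)],
[(0,0),(7,839),(4,1529),(4,721),(4,257),(2,523),(1,922),(0,60),(3,320)],
[(0,0),(7,1208),(4,1234),(4,9),(4,314),(2,1078),(1,657),(0,1433),(3,330)],
[(0,0),(7,854),(4,587),(4,450),(4,30),(2,622),(1,1510),(0,1135),(3,830)],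
[(0,0),(7,391),(4,1144),(4,562),(4,1500),(2,1327),(1,284),(0,338),(3,758)],
[(0,0),(7,746),(4,788),(4,1461),(4,1351),(2,536),(1,97),(0,1230),(3,292)],
[(0,0),(7,1259),(4,225),(4,968),(4,169),(2,161),(1,149),(0,387),(3,497)],
[(0,0),(7,270),(4,281),(4,1390),(4,615),(2,215),(1,1182),(0,546),(3,1345)],
[(0,0),(7,964),(4,1514),(4,552),(4,977),(2,1348),(1,1121),(0,661),(3,1436)],
[(0,0),(7,1190),(4,484),(4,961),(4,273),(2,19),(1,1205),(0,143),(3,1285)],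
[(0,0),(7,1521),(4,695),(4,1040),(4,1114),(2,950),(1,704),(0,882),(3,3)],
[(0,0),(7,834),(4,276),(4,289),(4,855),(2,490),(1,726),(0,224),(3,150)],
[(0,0),(7,958),(4,1264),(4,347),(4,441),(2,995),(1,259),(0,231),(3,1232)],
[(0,0),(7,890),(4,520),(4,113),(4,112),(2,1173),(1,414),(0,581),(3,487)],
[(0,0),(7,624),(4,928),(4,949),(4,899),(2,671),(1,329),(0,844),(3,845)],
[(0,0),(7,1427),(4,957),(4,440),(4,1074),(2,643),(1,780),(0,1458),(3,1508)],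
[(0,0),(7,835),(4,840),(4,62),(4,422),(2,810),(1,1392),(0,818),(3,184)],
[(0,0),(7,1008),(4,1258),(4,1533),(4,729),(2,1325),(1,652),(0,158),(3,1365)],
[(0,0),(7,256),(4,220),(4,1434),(4,409),(2,436),(1,1260),(0,65),(3,869)],
[(0,0),(7,264),(4,31),(4,1185),(4,79),(2,1429),(1,320),(0,116),(3,1141)],
[(0,0),(7,664),(4,1550),(4,1271),(4,816),(2,935),(1,330),(0,1099),(3,638)],
[(0,0),(7,293),(4,717),(4,870),(4,58),(2,1307),(1,830),(0,105),(3,560)],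
[(0,0),(7,547),(4,1376),(4,1191),(4,1333),(2,1103),(1,758),(0,549),(3,1361)],
[(0,0),(7,711),(4,1419),(4,4),(4,836),(2,305),(1,292),(0,811),(3,669)],
[(0,0),(7,1076),(4,435),(4,200),(4,1058),(2,1147),(1,497),(0,1375),(3,543)],
[(0,0),(7,522),(4,1379),(4,598),(4,1189),(2,938),(1,1345),(0,1369),(3,511)],
[(0,0),(7,1028),(4,2),(4,127),(4,1471),(2,1457),(1,1436),(0,1069),(3,478)],
[(0,0),(7,1256),(4,100),(4,82),(4,1468),(2,768),(1,1285),(0,172),(3,395)],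
[(0,0),(7,120),(4,299),(4,966),(4,1318),(2,792),(1,3),(0,765),(3,946)],
[(0,0),(7,1299),(4,847),(4,1290),(4,86),(2,425),(1,150),(0,642),(3,290)],
[(0,0),(7,703),(4,41),(4,253),(4,1166),(2,879),(1,1232),(0,760),(3,397)],
[(0,0),(7,676),(4,483),(4,114),(4,321),(2,74),(1,487),(0,392),(3,1046)],
[(0,0),(7,893),(4,645),(4,999),(4,380),(2,566),(1,845),(0,796),(3,589)],
[(0,0),(7,774),(4,910),(4,1373),(4,196),(2,94),(1,1508),(0,625),(3,1244)],
[(0,0),(7,1092),(4,57),(4,1269),(4,398),(2,1566),(1,184),(0,1477),(3,1087)],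
[(0,0),(7,1322),(4,1283),(4,770),(4,1096),(2,1517),(1,1365),(0,201),(3,1072)],
[(0,0),(7,286),(4,1470),(4,892),(4,1522),(2,634),(1,869),(0,648),(3,322)],
[(0,0),(7,197),(4,1418),(4,724),(4,884),(2,360),(1,1141),(0,1060),(3,430)],
[(0,0),(7,448),(4,385),(4,159),(4,324),(2,763),(1,638),(0,1289),(3,1129)],
[(0,0),(7,462),(4,446),(4,115),(4,530),(2,542),(1,560),(0,203),(3,38)]]

theorem gm1567 : Gdd (G3 1 1 8) (G3 1 1 1567) 9 :=
  gdd_of_chk 1 1 8 1 1 1567 9 Lm1567 (by decide +kernel)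

theorem s12537 : StOn (Fin 12537) 9 :=
  st_fill1 (w := 1) gm1567 (by norm_num) (by simp) (st_self _) (by simp)

end H9St
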