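import Mathlib
import Pool.Agent.H9.StDF

namespace H9St

def pc (v : ℕ) : List ℕ → List ℕ
  | [] => []
  | x :: t => t.map (fun y => x * v + y) ++ pc v t

def incr (v : ℕ) : List ℕ → Bool
  | [] => true
  | [x] => decide (x < v)
  | x :: y :: t => decide (x < y) && incr v (y :: t)

/-- mask of all codes `x * v + y` with `y ≤ x` -/
def low (v : ℕ) : ℕ := (List.range v).foldr (fun x m => m ||| ((2 ^ (x + 1) - 1) <<< (x * v))) 0

def mk3 (lll : List (List (List ℕ))) (v : ℕ) : ℕ :=
  lll.foldr (fun ll m => m ||| mk2 (ll.map (pc v))) 0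

def chkF (v q : ℕ) (L : List (List (List ℕ))) : Bool :=
  L.all (fun ll => ll.all fun l => l.length == q && incr v l) &&
  (mk3 L v ||| low v == 2 ^ (v * v) - 1) &&
  decide ((L.map List.length).sum * (q * q - q) ≤ v * v - v)

theorem incr_spec {v : ℕ} : ∀ {l : List ℕ}, incr v l = true → l.Pairwise (· < ·) ∧ ∀ x ∈ l, x < v
  | [], _ => by simp
  | [x], h => by simpa [incr] using h
  | x :: y :: t, h => by
    simp only [incr, Bool.and_eq_true, decide_eq_true_eq] at h
    obtain ⟨h1, h2⟩ := incr_spec h.2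
    refine ⟨List.Pairwise.cons (fun z hz => ?_) h1, fun z hz => ?_⟩
    · rcases List.mem_cons.1 hz with rfl | hz
      · exact h.1
      · exact h.1.trans (List.rel_of_pairwise_cons h1 hz)
    · rcases List.mem_cons.1 hz with rfl | hz
      · exact h.1.trans (h2 y (by simp))
      · exact h2 z hz

theorem pc_mem {v i : ℕ} {l : List ℕ} (h : i ∈ pc v l) : ∃ x ∈ l, ∃ y ∈ l, x * v + y = i := by
  induction l with
  | nil => simp [pc] at h
  | cons x t ih =>
    simp only [pc, List.mem_append, List.mem_map] at h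
    rcases h with ⟨y, hy, e⟩ | h
    · exact ⟨x, by simp, y, by simp [hy], e⟩
    · obtain ⟨a, ha, b, hb, e⟩ := ih h
      exact ⟨a, by simp [ha], b, by simp [hb], e⟩

theorem fold_bit {α : Type} (f : α → ℕ) {l : List α} {i : ℕ}
    (h : (l.foldr (fun x m => m ||| f x) 0).testBit i = true) : ∃ x ∈ l, (f x).testBit i = true := by
  induction l with
  | nil => simp at h
  | cons x t ih =>
    simp only [List.foldr_cons, Nat.testBit_or, Bool.or_eq_true] at h
    rcases h with h | h
    · obtain ⟨y, hy, e⟩ := ih h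
      exact ⟨y, List.mem_cons_of_mem _ hy, e⟩
    · exact ⟨x, by simp, h⟩

theorem st_of_chkF (v q : ℕ) (L : List (List (List ℕ))) (h : chkF v q L = true) :
    StOn (Fin v) q := by
  simp only [chkF, Bool.and_eq_true, List.all_eq_true, beq_iff_eq, decide_eq_true_eq] at h
  obtain ⟨⟨h1, h2⟩, h3⟩ := h
  let F : List ℕ → Finset (Fin v) := fun l => Finset.univ.filter (fun x => x.val ∈ l)
  have h1' : ∀ l ∈ L.flatten, l.length = q ∧ incr v l = true := fun l hl => by
    obtain ⟨ll, a, b⟩ := List.mem_flatten.1 hl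
    exact h1 ll a l b
  have hF : ∀ l ∈ L.flatten, (F l).card = q := by
    intro l hl
    obtain ⟨p1, p2⟩ := incr_spec (h1' l hl).2
    rw [← (h1' l hl).1, ← List.toFinset_card_of_nodup (p1.imp (fun h => h.ne)),
      ← Finset.card_image_of_injective _ Fin.val_injective]
    congr 1
    ext x
    simp only [F, Finset.mem_image, Finset.mem_filter, Finset.mem_univ, true_and, List.mem_toFinset]
    exact ⟨fun ⟨y, hy, e⟩ => e ▸ hy, fun hx => ⟨⟨x, p2 x hx⟩, hx, rfl⟩⟩
  let B : Finset (Finset (Fin v)) := (L.flatten.map F).toFinset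
  have hB : ∀ b ∈ B, b.card = q := fun b hb => by
    obtain ⟨l, hl, rfl⟩ := List.mem_map.1 (List.mem_toFinset.1 hb)
    exact hF l hl
  have ex0 : ∀ x y : Fin v, x < y → ∃ b ∈ B, x ∈ b ∧ y ∈ b := by
    intro x y hxy
    have hlt : x.val * v + y.val < v * v := lt_mul' x.2 y.2
    have hb := congrArg (fun m => m.testBit (x.val * v + y.val)) h2
    simp only [Nat.testBit_two_pow_sub_one, hlt, decide_true, Nat.testBit_or,
      Bool.or_eq_true] at hb
    rcases hb with hb | hb
    · obtain ⟨ll, hll, hb⟩ := fold_bit _ hb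
      obtain ⟨l0, hl0, hi⟩ := mk2_bit hb
      obtain ⟨l, hl, rfl⟩ := List.mem_map.1 hl0
      obtain ⟨a, ha, b, hb', e⟩ := pc_mem hi
      have hl' : l ∈ L.flatten := List.mem_flatten.2 ⟨ll, hll, hl⟩
      obtain ⟨e1, e2⟩ := dm ((incr_spec (h1' l hl').2).2 b hb') y.2 e
      exact ⟨F l, List.mem_toFinset.2 (List.mem_map_of_mem hl'), by simp [F, ← e1, ha],
        by simp [F, ← e2, hb']⟩
    · exfalso
      obtain ⟨z, hz, hb⟩ := fold_bit _ hb
      have hz := List.mem_range.1 hz
      simp only [Nat.testBit_shiftLeft, Nat.testBit_two_pow_sub_one, Bool.and_eq_true,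
        decide_eq_true_eq] at hb
      obtain ⟨u, hu⟩ := Nat.exists_eq_add_of_le hb.1
      have hu' : u < z + 1 := by have := hb.2; omega
      obtain ⟨e1, e2⟩ := dm y.2 (by omega : u < v) hu
      have : x.val < y.val := hxy
      omega
  have ex : ∀ x y : Fin v, x ≠ y → ∃ b ∈ B, x ∈ b ∧ y ∈ b := by
    intro x y hxy
    rcases lt_or_gt_of_ne hxy with h | h
    · exact ex0 x y h
    · obtain ⟨b, a1, a2, a3⟩ := ex0 y x h
      exact ⟨b, a1, a3, a2⟩
  have hinj := Finset.injOn_of_surjOn_of_card_le (s := B.sigma (fun b => b.offDiag))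
    (t := (Finset.univ : Finset (Fin v)).offDiag) (fun p => p.2)
    (fun p hp => by
      simp only [Finset.coe_sigma, Set.mem_sigma_iff, Finset.mem_coe, Finset.mem_offDiag] at hp
      simp [hp.2.2.2])
    (fun t ht => by
      have ht' : t.1 ≠ t.2 := by simpa using ht
      obtain ⟨b, a1, a2, a3⟩ := ex t.1 t.2 ht'
      exact ⟨⟨b, t⟩, by simp [*], rfl⟩)
    (by
      rw [Finset.card_sigma, Finset.sum_congr rfl (g := fun _ => q * q - q)]
      · have : B.card ≤ (L.map List.length).sum := (List.toFinset_card_le _).trans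
          (by rw [List.length_map, List.length_flatten])
        simpa using (Nat.mul_le_mul_right _ this).trans h3
      · intro b hb; rw [Finset.offDiag_card, hB b hb])
  refine ⟨B, hB, fun x y hxy => ?_⟩
  obtain ⟨b, a1, a2, a3⟩ := ex x y hxy
  refine ⟨b, ⟨a1, a2, a3⟩, fun c ⟨c1, c2, c3⟩ => ?_⟩
  have := @hinj ⟨c, x, y⟩ (by simp [*]) ⟨b, x, y⟩ (by simp [*]) rfl
  simpa using this

end H9St
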