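import Mathlib
import Pool.Agent.H9.StDF

namespace H9St

theorem st_of_count {V : Type} [DecidableEq V] [Fintype V] {q : ℕ} (B : Finset (Finset V))
    (hB : ∀ b ∈ B, b.card = q) (ex : ∀ x y : V, x ≠ y → ∃ b ∈ B, x ∈ b ∧ y ∈ b)
    (hc : B.card * (q * q - q) ≤ Fintype.card V * Fintype.card V - Fintype.card V) : StOn V q := by
  have hinj := Finset.injOn_of_surjOn_of_card_le (s := B.sigma (fun b => b.offDiag))
    (t := (Finset.univ : Finset V).offDiag) (fun p => p.2)
    (fun p hp => by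
      simp only [Finset.coe_sigma, Set.mem_sigma_iff, Finset.mem_coe, Finset.mem_offDiag] at hp
      simp [hp.2.2.2])
    (fun t ht => by
      have ht' : t.1 ≠ t.2 := by simpa using ht
      obtain ⟨b, a1, a2, a3⟩ := ex t.1 t.2 ht'
      exact ⟨⟨b, t⟩, by simp [*], rfl⟩)
    (by
      rw [Finset.card_sigma, Finset.sum_congr rfl (g := fun _ => q * q - q)]
      · simpa using hc
      · intro b hb; rw [Finset.offDiag_card, hB b hb])
  refine ⟨B, hB, fun x y hxy => ?_⟩
  obtain ⟨b, a1, a2, a3⟩ := ex x y hxy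
  refine ⟨b, ⟨a1, a2, a3⟩, fun c ⟨c1, c2, c3⟩ => ?_⟩
  have := @hinj ⟨c, x, y⟩ (by simp [*]) ⟨b, x, y⟩ (by simp [*]) rfl
  simpa using this

theorem st_of_lay {W I K : Type} [DecidableEq W] [DecidableEq I] [DecidableEq K] [Fintype W]
    [Fintype I] [Fintype K] [AddCommGroup K] [Subsingleton W] {q : ℕ}
    (D : Finset (Finset (W ⊕ I × K))) (h1 : ∀ b ∈ D, b.card = q)
    (h2 : ∀ i j : I, ∀ d : K, ∃ b ∈ D, ∃ x y, .inr (i, x) ∈ b ∧ .inr (j, y) ∈ b ∧ y - x = d)
    (h3 : ∀ w : W, ∀ j : I, ∃ b ∈ D, ∃ y, .inl w ∈ b ∧ .inr (j, y) ∈ b)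
    (h4 : D.card * Fintype.card K * (q * q - q) ≤ Fintype.card (W ⊕ I × K) *
      Fintype.card (W ⊕ I × K) - Fintype.card (W ⊕ I × K)) : StOn (W ⊕ I × K) q := by
  let τ : K → (W ⊕ I × K) → (W ⊕ I × K) := fun g => Sum.map id (Prod.map id (· + g))
  have hτ : ∀ g, Function.Injective (τ g) := fun g => Function.injective_id.sumMap
    (Function.injective_id.prodMap (add_left_injective g))
  have mem : ∀ b ∈ D, ∀ g, b.image (τ g) ∈ (D ×ˢ Finset.univ).image (fun p => p.1.image (τ p.2)) :=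
    fun b hb g => Finset.mem_image.2 ⟨(b, g), by simp [hb], rfl⟩
  refine st_of_count ((D ×ˢ Finset.univ).image (fun p => p.1.image (τ p.2))) ?_ ?_ ?_
  · intro s hs
    obtain ⟨⟨b, g⟩, hp, rfl⟩ := Finset.mem_image.1 hs
    rw [Finset.card_image_of_injective _ (hτ g), h1 b (Finset.mem_product.1 hp).1]
  · rintro (w | ⟨i, u⟩) (w' | ⟨j, v⟩) hne
    · exact absurd (congrArg _ (Subsingleton.elim _ _)) hne
    · obtain ⟨b, hb, y, k1, k2⟩ := h3 w j
      exact ⟨_, mem b hb (v - y), Finset.mem_image.2 ⟨_, k1, rfl⟩,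
        Finset.mem_image.2 ⟨_, k2, by simp [τ]⟩⟩
    · obtain ⟨b, hb, y, k1, k2⟩ := h3 w' i
      exact ⟨_, mem b hb (u - y), Finset.mem_image.2 ⟨_, k2, by simp [τ]⟩,
        Finset.mem_image.2 ⟨_, k1, rfl⟩⟩
    · obtain ⟨b, hb, x, y, k1, k2, e⟩ := h2 i j (v - u)
      refine ⟨_, mem b hb (u - x), Finset.mem_image.2 ⟨_, k1, by simp [τ]⟩,
        Finset.mem_image.2 ⟨_, k2, ?_⟩⟩
      simp only [τ, Sum.map_inr, Prod.map, id, Sum.inr.injEq, Prod.mk.injEq, true_and]
      rw [show y + (u - x) = (y - x) + u by abel, e]; abel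
  · refine le_trans (Nat.mul_le_mul_right _ (Finset.card_image_le.trans (by simp))) h4

def codesL (m a b c : ℕ) (l : List (ℕ × ℕ)) : List ℕ :=
  l.flatMap fun x => l.map fun y => (x.1 % m * m + y.1 % m) * (a * b * c) + sub3 a b c y.2 x.2

def sepL (m a b c : ℕ) : List (ℕ × ℕ) → Bool
  | [] => true
  | x :: t => t.all (fun y => x.1 % m != y.1 % m || sub3 a b c x.2 y.2 != 0) && sepL m a b c t

def chkL (w m a b c q : ℕ) (L1 L2 : List (List (ℕ × ℕ))) : Bool :=
  (L1 ++ L2).all (sepL m a b c) && L1.all (fun l => l.length == q) &&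
  L2.all (fun l => w + l.length == q) &&
  (mk2 ((L1 ++ L2).map (codesL m a b c)) == 2 ^ (m * m * (a * b * c)) - 1) &&
  (w == 0 || mk2 (L2.map (List.map (·.1 % m))) == 2 ^ m - 1) &&
  decide ((L1.length + L2.length) * (a * b * c) * (q * q - q) ≤
    (w + m * (a * b * c)) * (w + m * (a * b * c)) - (w + m * (a * b * c)))

theorem st_of_chkL (w m a b c q : ℕ) [NeZero m] [NeZero a] [NeZero b] [NeZero c] (hw : w ≤ 1)
    (L1 L2 : List (List (ℕ × ℕ))) (h : chkL w m a b c q L1 L2 = true) :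
    StOn (Fin (w + m * (a * b * c))) q := by
  simp only [chkL, Bool.and_eq_true, List.all_eq_true, beq_iff_eq, decide_eq_true_eq,
    Bool.or_eq_true] at h
  obtain ⟨⟨⟨⟨⟨h1, h2⟩, h3⟩, h4⟩, h5⟩, h6⟩ := h
  have : Subsingleton (Fin w) := Fin.subsingleton_iff_le_one.2 hw
  let φ : ℕ × ℕ → Fin w ⊕ Fin m × G3 a b c := fun x => .inr (Fin.ofNat m x.1, ph a b c x.2)
  have nd : ∀ l, sepL m a b c l = true → (l.map φ).Nodup := by
    intro l hl
    refine List.pairwise_map.2 ?_
    induction l with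
    | nil => simp
    | cons x t ih =>
      simp only [sepL, Bool.and_eq_true, List.all_eq_true, bne_iff_ne, Bool.or_eq_true] at hl
      refine List.Pairwise.cons (fun y hy e0 => ?_) (ih hl.2)
      simp only [φ, Sum.inr.injEq, Prod.mk.injEq] at e0
      rcases hl.1 y hy with h | h
      · exact h (congrArg Fin.val e0.1)
      · exact h (by rw [← enc_sub, e0.2, sub_self, enc_zero])
  let F1 : List (ℕ × ℕ) → Finset (Fin w ⊕ Fin m × G3 a b c) := fun l => (l.map φ).toFinset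
  let F2 : List (ℕ × ℕ) → Finset (Fin w ⊕ Fin m × G3 a b c) := fun l =>
    Finset.univ.image Sum.inl ∪ F1 l
  have m1 : ∀ l, ∀ x ∈ l, φ x ∈ F1 l := fun l x hx => List.mem_toFinset.2 (List.mem_map_of_mem hx)
  refine StOn.card (V := Fin w ⊕ Fin m × G3 a b c) (by simp [mul_assoc])
    (st_of_lay (L1.map F1 ++ L2.map F2).toFinset ?_ ?_ ?_ ?_)
  · intro s hs
    rcases List.mem_append.1 (List.mem_toFinset.1 hs) with hs | hs
    · obtain ⟨l, hl, rfl⟩ := List.mem_map.1 hs
      rw [List.toFinset_card_of_nodup (nd l (h1 l (by simp [hl]))), List.length_map, h2 l hl]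
    · obtain ⟨l, hl, rfl⟩ := List.mem_map.1 hs
      rw [Finset.card_union_of_disjoint, List.toFinset_card_of_nodup (nd l (h1 l (by simp [hl]))),
        List.length_map, Finset.card_image_of_injective _ Sum.inl_injective, ← h3 l hl]
      · simp
      · simp [Finset.disjoint_left, F1, φ]
  · intro i j d
    have hlt : (i.val * m + j.val) * (a * b * c) + enc d < m * m * (a * b * c) :=
      lt_mul' (lt_mul' i.2 j.2) (enc_lt d)
    have hb := congrArg (fun n => n.testBit ((i.val * m + j.val) * (a * b * c) + enc d)) h4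
    simp only [Nat.testBit_two_pow_sub_one, hlt, decide_true] at hb
    obtain ⟨l0, hl0, hi⟩ := mk2_bit hb
    obtain ⟨l, hl, rfl⟩ := List.mem_map.1 hl0
    simp only [codesL, List.mem_flatMap, List.mem_map] at hi
    obtain ⟨x, hx, y, hy, hi⟩ := hi
    rw [← enc_sub] at hi
    obtain ⟨e1, e2⟩ := dm (enc_lt _) (enc_lt _) hi
    obtain ⟨e3, e4⟩ := dm (Nat.mod_lt _ (NeZero.pos m)) j.2 e1
    obtain rfl : Fin.ofNat m x.1 = i := Fin.ext e3
    obtain rfl : Fin.ofNat m y.1 = j := Fin.ext e4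
    rcases List.mem_append.1 hl with hl | hl
    · exact ⟨F1 l, List.mem_toFinset.2 (List.mem_append_left _ (List.mem_map_of_mem hl)), _, _,
        m1 l x hx, m1 l y hy, enc_inj e2⟩
    · exact ⟨F2 l, List.mem_toFinset.2 (List.mem_append_right _ (List.mem_map_of_mem hl)), _, _,
        Finset.mem_union_right _ (m1 l x hx), Finset.mem_union_right _ (m1 l y hy), enc_inj e2⟩
  · intro u j
    have h5' := h5.resolve_left (by rintro rfl; exact u.elim0)
    have hb := congrArg (fun n => n.testBit j.val) h5'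
    simp only [Nat.testBit_two_pow_sub_one, j.2, decide_true] at hb
    obtain ⟨l0, hl0, hi⟩ := mk2_bit hb
    obtain ⟨l, hl, rfl⟩ := List.mem_map.1 hl0
    obtain ⟨y, hy, e⟩ := List.mem_map.1 hi
    obtain rfl : Fin.ofNat m y.1 = j := Fin.ext e
    exact ⟨F2 l, List.mem_toFinset.2 (List.mem_append_right _ (List.mem_map_of_mem hl)), _,
      Finset.mem_union_left _ (by simp), Finset.mem_union_right _ (m1 l y hy)⟩
  · refine le_trans (Nat.mul_le_mul_right _ (Nat.mul_le_mul_right _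
      (List.toFinset_card_le _))) ?_
    simpa [G3, mul_assoc] using h6

end H9St
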