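import Mathlib
import Pool.Agent.H9.StLay

namespace H9St

theorem count_le {V : Type} [DecidableEq V] [Fintype V] {q : ℕ} (B : Finset (Finset V))
    (hB : ∀ b ∈ B, b.card = q) (hu : ∀ x y : V, x ≠ y → ∃! b, b ∈ B ∧ x ∈ b ∧ y ∈ b) :
    B.card * (q * q - q) ≤ Fintype.card V * Fintype.card V - Fintype.card V := by
  have h := Finset.card_le_card_of_injOn (s := B.sigma (fun b => b.offDiag))
    (t := (Finset.univ : Finset V).offDiag) (fun p => p.2)
    (fun p hp => by
      simp only [Finset.coe_sigma, Set.mem_sigma_iff, Finset.mem_coe, Finset.mem_offDiag] at hp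
      simp [hp.2.2.2])
    (by
      rintro ⟨b, x, y⟩ hp ⟨c, x', y'⟩ hq e
      simp only [Finset.coe_sigma, Set.mem_sigma_iff, Finset.mem_coe, Finset.mem_offDiag] at hp hq
      obtain ⟨rfl, rfl⟩ : x = x' ∧ y = y' := by simpa using e
      obtain rfl : b = c := (hu x y hp.2.2.2).unique ⟨hp.1, hp.2.1, hp.2.2.1⟩
        ⟨hq.1, hq.2.1, hq.2.2.1⟩
      rfl)
  rw [Finset.card_sigma, Finset.sum_congr rfl (g := fun _ => q * q - q)] at h
  · simpa using h
  · intro b hb; rw [Finset.offDiag_card, hB b hb]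

theorem st_of_hole {W I K : Type} [DecidableEq W] [DecidableEq I] [DecidableEq K] [Fintype W]
    [Fintype I] [Fintype K] [AddCommGroup K] {q : ℕ} (hW : StOn W q)
    (D : Finset (Finset (W ⊕ I × K))) (h1 : ∀ b ∈ D, b.card = q)
    (h2 : ∀ i j : I, ∀ d : K, ∃ b ∈ D, ∃ x y, .inr (i, x) ∈ b ∧ .inr (j, y) ∈ b ∧ y - x = d)
    (h3 : ∀ w : W, ∀ j : I, ∃ b ∈ D, ∃ y, .inl w ∈ b ∧ .inr (j, y) ∈ b)
    (h4 : D.card * Fintype.card K * (q * q - q) +
      (Fintype.card W * Fintype.card W - Fintype.card W) ≤ Fintype.card (W ⊕ I × K) *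
      Fintype.card (W ⊕ I × K) - Fintype.card (W ⊕ I × K)) : StOn (W ⊕ I × K) q := by
  obtain ⟨C, c1, c2⟩ := hW
  have c3 := count_le C c1 c2
  let τ : K → (W ⊕ I × K) → (W ⊕ I × K) := fun g => Sum.map id (Prod.map id (· + g))
  have hτ : ∀ g, Function.Injective (τ g) := fun g => Function.injective_id.sumMap
    (Function.injective_id.prodMap (add_left_injective g))
  let B1 := (D ×ˢ Finset.univ).image (fun p : Finset (W ⊕ I × K) × K => p.1.image (τ p.2))
  let B2 := C.image (fun b => b.image (Sum.inl : W → W ⊕ I × K))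
  have mem : ∀ b ∈ D, ∀ g, b.image (τ g) ∈ B1 ∪ B2 :=
    fun b hb g => Finset.mem_union_left _ (Finset.mem_image.2 ⟨(b, g), by simp [hb], rfl⟩)
  refine st_of_count (B1 ∪ B2) ?_ ?_ ?_
  · intro s hs
    rcases Finset.mem_union.1 hs with hs | hs
    · obtain ⟨⟨b, g⟩, hp, rfl⟩ := Finset.mem_image.1 hs
      rw [Finset.card_image_of_injective _ (hτ g), h1 b (Finset.mem_product.1 hp).1]
    · obtain ⟨b, hb, rfl⟩ := Finset.mem_image.1 hs
      rw [Finset.card_image_of_injective _ Sum.inl_injective, c1 b hb]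
  · rintro (w | ⟨i, u⟩) (w' | ⟨j, v⟩) hne
    · obtain ⟨b, ⟨hb, k1, k2⟩, -⟩ := c2 w w' (fun e => hne (congrArg _ e))
      exact ⟨_, Finset.mem_union_right _ (Finset.mem_image_of_mem _ hb),
        Finset.mem_image_of_mem _ k1, Finset.mem_image_of_mem _ k2⟩
    · obtain ⟨b, hb, y, k1, k2⟩ := h3 w j
      exact ⟨_, mem b hb (v - y), Finset.mem_image.2 ⟨_, k1, rfl⟩,
        Finset.mem_image.2 ⟨_, k2, by simp [τ]⟩⟩
    · obtain ⟨b, hb, y, k1, k2⟩ := h3 w' i
      exact ⟨_, mem b hb (u - y), Finset.mem_image.2 ⟨_, k2, by simp [τ]⟩,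
        Finset.mem_image.2 ⟨_, k1, rfl⟩⟩
    · obtain ⟨b, hb, x, y, k1, k2, e⟩ := h2 i j (v - u)
      refine ⟨_, mem b hb (u - x), Finset.mem_image.2 ⟨_, k1, by simp [τ]⟩,
        Finset.mem_image.2 ⟨_, k2, ?_⟩⟩
      simp only [τ, Sum.map_inr, Prod.map, id, Sum.inr.injEq, Prod.mk.injEq, true_and]
      rw [show y + (u - x) = (y - x) + u by abel, e]; abel
  · have e1 : B1.card ≤ D.card * Fintype.card K := Finset.card_image_le.trans (by simp)
    have e2 : B2.card ≤ C.card := Finset.card_image_le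
    refine le_trans (Nat.mul_le_mul_right _ ((Finset.card_union_le _ _).trans
      (Nat.add_le_add e1 e2))) (le_trans ?_ h4)
    rw [add_mul]
    exact Nat.add_le_add_left c3 _

def chkH (w m a b c q : ℕ) (L1 : List (List (ℕ × ℕ))) (L2 : List (ℕ × List (ℕ × ℕ))) : Bool :=
  (L1 ++ L2.map (·.2)).all (sepL m a b c) && L1.all (fun l => l.length == q) &&
  L2.all (fun l => 1 + l.2.length == q) &&
  (mk2 ((L1 ++ L2.map (·.2)).map (codesL m a b c)) == 2 ^ (m * m * (a * b * c)) - 1) &&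
  (mk2 (L2.map (fun l => l.2.map (fun x => l.1 % w * m + x.1 % m))) == 2 ^ (w * m) - 1) &&
  decide ((L1.length + L2.length) * (a * b * c) * (q * q - q) + (w * w - w) ≤
    (w + m * (a * b * c)) * (w + m * (a * b * c)) - (w + m * (a * b * c)))

theorem st_of_chkH (w m a b c q : ℕ) [NeZero w] [NeZero m] [NeZero a] [NeZero b] [NeZero c]
    (hw : StOn (Fin w) q) (L1 : List (List (ℕ × ℕ))) (L2 : List (ℕ × List (ℕ × ℕ)))
    (h : chkH w m a b c q L1 L2 = true) : StOn (Fin (w + m * (a * b * c))) q := by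
  simp only [chkH, Bool.and_eq_true, List.all_eq_true, beq_iff_eq, decide_eq_true_eq] at h
  obtain ⟨⟨⟨⟨⟨h1, h2⟩, h3⟩, h4⟩, h5⟩, h6⟩ := h
  let φ : ℕ × ℕ → Fin w ⊕ Fin m × G3 a b c := fun x => .inr (Fin.ofNat m x.1, ph a b c x.2)
  have nd : ∀ l, sepL m a b c l = true → (l.map φ).Nodup := by
    intro l hl
    refine List.pairwise_map.2 ?_
    induction l with
    | nil => simp
    | cons x t ih =>
      simp only [sepL, Bool.and_eq_true, List.all_eq_true, bne_iff_ne, Bool.or_eq_true] at hl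
      refine List.Pairwise.cons (fun y hy e0 => ?_) (ih hl.2)
      simp only [φ, Sum.inr.injEq, Prod.mk.injEq] at e0
      rcases hl.1 y hy with h | h
      · exact h (congrArg Fin.val e0.1)
      · exact h (by rw [← enc_sub, e0.2, sub_self, enc_zero])
  let F1 : List (ℕ × ℕ) → Finset (Fin w ⊕ Fin m × G3 a b c) := fun l => (l.map φ).toFinset
  let F2 : ℕ × List (ℕ × ℕ) → Finset (Fin w ⊕ Fin m × G3 a b c) := fun l =>
    insert (.inl (Fin.ofNat w l.1)) (F1 l.2)
  have m1 : ∀ l, ∀ x ∈ l, φ x ∈ F1 l := fun l x hx => List.mem_toFinset.2 (List.mem_map_of_mem hx)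
  refine StOn.card (V := Fin w ⊕ Fin m × G3 a b c) (by simp [mul_assoc])
    (st_of_hole hw (L1.map F1 ++ L2.map F2).toFinset ?_ ?_ ?_ ?_)
  · intro s hs
    rcases List.mem_append.1 (List.mem_toFinset.1 hs) with hs | hs
    · obtain ⟨l, hl, rfl⟩ := List.mem_map.1 hs
      rw [List.toFinset_card_of_nodup (nd l (h1 l (by simp [hl]))), List.length_map, h2 l hl]
    · obtain ⟨l, hl, rfl⟩ := List.mem_map.1 hs
      rw [Finset.card_insert_of_notMem (by simp [F1, φ]), List.toFinset_card_of_nodup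
        (nd l.2 (h1 l.2 (List.mem_append_right _ (List.mem_map_of_mem hl)))),
        List.length_map, ← h3 l hl, add_comm]
  · intro i j d
    have hlt : (i.val * m + j.val) * (a * b * c) + enc d < m * m * (a * b * c) :=
      lt_mul' (lt_mul' i.2 j.2) (enc_lt d)
    have hb := congrArg (fun n => n.testBit ((i.val * m + j.val) * (a * b * c) + enc d)) h4
    simp only [Nat.testBit_two_pow_sub_one, hlt, decide_true] at hb
    obtain ⟨l0, hl0, hi⟩ := mk2_bit hb
    obtain ⟨l, hl, rfl⟩ := List.mem_map.1 hl0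
    simp only [codesL, List.mem_flatMap, List.mem_map] at hi
    obtain ⟨x, hx, y, hy, hi⟩ := hi
    rw [← enc_sub] at hi
    obtain ⟨e1, e2⟩ := dm (enc_lt _) (enc_lt _) hi
    obtain ⟨e3, e4⟩ := dm (Nat.mod_lt _ (NeZero.pos m)) j.2 e1
    obtain rfl : Fin.ofNat m x.1 = i := Fin.ext e3
    obtain rfl : Fin.ofNat m y.1 = j := Fin.ext e4
    rcases List.mem_append.1 hl with hl | hl
    · exact ⟨F1 l, List.mem_toFinset.2 (List.mem_append_left _ (List.mem_map_of_mem hl)), _, _,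
        m1 l x hx, m1 l y hy, enc_inj e2⟩
    · obtain ⟨l', hl', rfl⟩ := List.mem_map.1 hl
      exact ⟨F2 l', List.mem_toFinset.2 (List.mem_append_right _ (List.mem_map_of_mem hl')), _, _,
        Finset.mem_insert_of_mem (m1 _ x hx), Finset.mem_insert_of_mem (m1 _ y hy), enc_inj e2⟩
  · intro u j
    have hlt : u.val * m + j.val < w * m := lt_mul' u.2 j.2
    have hb := congrArg (fun n => n.testBit (u.val * m + j.val)) h5
    simp only [Nat.testBit_two_pow_sub_one, hlt, decide_true] at hb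
    obtain ⟨l0, hl0, hi⟩ := mk2_bit hb
    obtain ⟨l, hl, rfl⟩ := List.mem_map.1 hl0
    obtain ⟨y, hy, e⟩ := List.mem_map.1 hi
    obtain ⟨e3, e4⟩ := dm (Nat.mod_lt _ (NeZero.pos m)) j.2 e
    obtain rfl : Fin.ofNat w l.1 = u := Fin.ext e3
    obtain rfl : Fin.ofNat m y.1 = j := Fin.ext e4
    exact ⟨F2 l, List.mem_toFinset.2 (List.mem_append_right _ (List.mem_map_of_mem hl)), _,
      Finset.mem_insert_self _ _, Finset.mem_insert_of_mem (m1 _ y hy)⟩
  · refine le_trans (Nat.add_le_add_right (Nat.mul_le_mul_right _ (Nat.mul_le_mul_right _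
      (List.toFinset_card_le _))) _) ?_
    simpa [G3, mul_assoc] using h6

end H9St
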