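import Mathlib
import Pool.Agent.H9.StHole

namespace H9St

theorem s106 : StOn (Fin 106) 6 :=
  st_of_chkL 0 2 1 1 53 6 (by norm_num) [
    [(0,0),(0,1),(0,3),(0,11),(0,38),(1,0)],
    [(0,0),(0,13),(0,30),(1,23),(1,35),(1,51)],
    [(0,0),(0,9),(0,21),(1,12),(1,13),(1,27)],
    [(0,0),(0,7),(0,29),(1,8),(1,16),(1,48)],
    [(0,0),(0,5),(0,19),(0,25),(1,36),(1,39)],
    [(0,0),(0,4),(1,28),(1,30),(1,37),(1,47)],
    [(1,0),(1,4),(0,28),(1,24),(1,30),(1,35)]] []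
    (by decide +kernel)

end H9St
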