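import Mathlib
import Pool.Agent.H9.StHole

namespace H9St

theorem s31 : StOn (Fin 31) 6 :=
  st_of_chkL 0 1 1 1 31 6 (by norm_num) [[(0,1),(0,5),(0,11),(0,24),(0,25),(0,27)]] []
    (by decide +kernel)

end H9St
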