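import Mathlib
import Pool.Agent.H9.StHole

namespace H9St

set_option maxRecDepth 100000

def P316x0 : List (List (ℕ × ℕ)) := [
[(0,0),(0,26),(0,28),(5,8),(6,3),(7,25)],
[(0,0),(0,21),(0,25),(5,6),(7,16),(9,19)],
[(0,0),(0,16),(0,9),(6,23),(8,11),(9,2)],
[(0,0),(0,11),(0,19),(7,12),(8,7),(9,1)],
[(0,0),(0,1),(0,18),(5,15),(6,22),(8,4)],
[(0,0),(1,26),(4,12),(9,22),(9,14),(9,5)],
[(0,0),(1,21),(4,24),(8,28),(8,13),(8,10)],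
[(0,0),(1,16),(3,4),(6,16),(7,15),(8,25)],
[(0,0),(1,11),(4,17),(6,26),(6,25),(6,20)],
[(0,0),(1,6),(2,19),(3,9),(4,26),(6,12)],
[(0,0),(1,1),(3,8),(5,1),(6,19),(9,30)],
[(0,0),(1,22),(4,3),(5,21),(5,19),(5,9)],
[(0,0),(1,17),(2,28),(3,10),(4,22),(9,3)],
[(0,0),(1,12),(2,7),(3,18),(4,21),(5,24)],
[(0,0),(1,7),(2,30),(6,0),(7,29),(8,18)],
[(0,0),(1,2),(3,16),(5,7),(7,2),(8,29)],
[(0,0),(1,28),(2,27),(5,10),(7,0),(8,23)],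
[(0,0),(1,18),(2,26),(3,27),(4,16),(7,5)],
[(0,0),(1,13),(4,6),(7,11),(7,7),(7,18)],
[(0,0),(1,8),(3,2),(5,23),(8,8),(9,28)],
[(0,0),(1,3),(2,25),(3,20),(4,13),(8,6)],
[(0,0),(1,24),(2,14),(3,5),(4,11),(7,17)],
[(0,0),(1,19),(2,15),(5,30),(8,0),(9,9)],
[(0,0),(1,14),(2,29),(5,0),(6,5),(9,27)],
[(0,0),(1,9),(2,13),(3,29),(4,8),(5,18)],
[(0,0),(1,4),(3,1),(6,27),(7,14),(9,4)],
[(0,0),(1,25),(2,23),(6,15),(7,20),(9,0)],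
[(0,0),(1,20),(2,22),(3,30),(4,4),(6,9)],
[(0,0),(1,10),(2,11),(3,15),(4,2),(8,20)],
[(0,0),(1,5),(2,21),(3,23),(4,1),(9,10)],
[(0,0),(2,6),(4,29),(5,26),(7,6),(8,21)],
[(0,0),(2,17),(4,15),(6,17),(7,13),(8,22)],
[(0,0),(2,12),(4,27),(6,11),(7,21),(9,12)],
[(0,0),(2,18),(3,24),(5,29),(5,25),(5,5)],
[(0,0),(2,3),(4,30),(5,3),(6,13),(9,26)],
[(0,0),(2,24),(4,23),(5,22),(8,24),(9,11)],
[(0,0),(2,9),(3,12),(6,28),(6,18),(6,30)],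
[(0,0),(2,20),(3,6),(8,14),(8,9),(8,15)],
[(0,0),(2,10),(3,3),(9,7),(9,23),(9,20)],
[(0,0),(2,5),(3,17),(7,27),(7,19),(7,10)],
[(0,0),(3,7),(4,28),(5,17),(5,4),(5,20)],
[(0,0),(3,28),(4,19),(9,16),(9,6),(9,18)],
[(0,0),(3,19),(4,14),(6,2),(6,24),(6,10)],
[(0,0),(3,14),(4,25),(7,8),(7,3),(7,9)],
[(0,0),(3,25),(4,7),(8,1),(8,12),(8,5)],
[(0,0),(5,27),(6,29),(7,23),(8,30),(9,15)],
[(0,0),(5,2),(6,1),(7,4),(8,16),(9,8)],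
[(1,0),(1,26),(1,28),(5,3),(7,8),(9,25)],
[(1,0),(1,21),(1,25),(7,6),(8,19),(9,16)],
[(1,0),(1,16),(1,9),(5,23),(6,11),(8,2)],
[(1,0),(1,11),(1,19),(6,7),(8,1),(9,12)],
[(1,0),(1,1),(1,18),(5,22),(6,4),(7,15)],
[(1,0),(2,6),(3,13),(9,11),(9,7),(9,18)],
[(1,0),(2,17),(3,11),(5,26),(5,25),(5,20)],
[(1,0),(2,12),(3,26),(8,22),(8,14),(8,5)],
[(1,0),(2,7),(4,25),(6,1),(6,12),(6,5)],
[(1,0),(2,28),(4,7),(7,17),(7,4),(7,20)],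
[(1,0),(2,3),(3,22),(7,21),(7,19),(7,9)],
[(1,0),(2,24),(3,21),(6,28),(6,13),(6,10)],
[(1,0),(2,19),(4,28),(8,16),(8,6),(8,18)],
[(1,0),(2,14),(4,19),(5,2),(5,24),(5,10)],
[(1,0),(2,25),(4,14),(9,8),(9,3),(9,9)],
[(1,0),(3,16),(4,4),(5,16),(6,25),(9,15)],
[(1,0),(3,1),(4,8),(5,19),(7,1),(8,30)],
[(1,0),(3,2),(4,16),(6,29),(7,7),(9,2)],
[(1,0),(3,8),(4,2),(6,8),(7,23),(8,28)],
[(1,0),(3,4),(4,1),(5,27),(8,4),(9,14)],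
[(1,0),(5,1),(6,16),(7,2),(8,8),(9,4)],
[(1,0),(5,29),(6,30),(7,27),(8,15),(9,23)],
[(2,0),(2,26),(2,28),(5,25),(6,8),(8,3)],
[(2,0),(2,21),(2,25),(5,16),(6,6),(7,19)],
[(2,0),(2,16),(2,9),(7,2),(8,23),(9,11)],
[(2,0),(2,11),(2,19),(5,12),(7,1),(9,7)],
[(2,0),(2,1),(2,18),(6,15),(8,22),(9,4)],
[(2,0),(3,27),(4,12),(5,21),(7,12),(8,11)],
[(2,0),(3,23),(4,24),(6,22),(7,11),(9,24)],
[(2,0),(3,29),(4,6),(5,6),(6,26),(9,21)],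
[(2,0),(3,30),(4,3),(6,3),(7,26),(8,13)],
[(2,0),(3,15),(4,17),(5,13),(8,17),(9,22)],
[(2,0),(5,23),(6,27),(7,15),(8,29),(9,30)],
[(2,0),(5,4),(6,2),(7,8),(8,1),(9,16)],
[(3,0),(3,26),(3,28),(7,3),(8,25),(9,8)],
[(3,0),(3,21),(3,25),(6,19),(8,16),(9,6)],
[(3,0),(3,16),(3,9),(5,11),(6,2),(7,23)],
[(3,0),(3,11),(3,19),(5,7),(6,1),(8,12)],
[(3,0),(3,1),(3,18),(5,4),(7,22),(9,15)],
[(3,0),(5,16),(6,8),(7,1),(8,4),(9,2)],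
[(3,0),(5,30),(6,15),(7,29),(8,23),(9,27)],
[(4,0),(4,26),(4,28),(6,25),(8,8),(9,3)],
[(4,0),(4,21),(4,25),(5,19),(6,16),(8,6)],
[(4,0),(4,16),(4,9),(5,2),(7,11),(9,23)],
[(4,0),(4,11),(4,19),(5,1),(6,12),(7,7)],
[(4,0),(4,1),(4,18),(7,4),(8,15),(9,22)],
[(4,0),(5,8),(6,4),(7,16),(8,2),(9,1)],
[(4,0),(5,15),(6,23),(7,30),(8,27),(9,29)]]

def Q316x0 : List (ℕ × List (ℕ × ℕ)) := [
(5,[(0,0),(1,0),(2,0),(3,0),(4,0)]),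
(0,[(0,0),(1,27),(2,16),(3,26),(4,18)]),
(1,[(0,0),(1,23),(2,1),(3,21),(4,5)]),
(4,[(0,0),(1,29),(2,8),(3,13),(4,9)]),
(2,[(0,0),(1,30),(2,4),(3,22),(4,20)]),
(3,[(0,0),(1,15),(2,2),(3,11),(4,10)]),
(5,[(5,0),(6,0),(7,0),(8,0),(9,0)]),
(4,[(5,0),(6,6),(7,7),(8,23),(9,4)]),
(1,[(5,0),(6,17),(7,25),(8,29),(9,1)]),
(2,[(5,0),(6,12),(7,14),(8,15),(9,8)]),
(0,[(5,0),(6,3),(7,19),(8,27),(9,2)]),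
(3,[(5,0),(6,24),(7,28),(8,30),(9,16)])]

theorem s316 : StOn (Fin 316) 6 :=
  st_of_chkH 6 10 1 1 31 6 (st_self _) (P316x0)
    (Q316x0) (by decide +kernel)

end H9St
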