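import Mathlib
import Pool.Agent.H9.StHole

namespace H9St

set_option maxRecDepth 100000

def P351x0 : List (List (ℕ × ℕ)) := [
[(0,0),(0,3),(0,86),(0,47),(1,34),(1,8)],
[(0,0),(0,6),(0,116),(0,98),(2,107),(2,55)],
[(0,0),(0,9),(0,89),(1,89),(1,63),(2,115)],
[(0,0),(0,12),(1,102),(1,105),(2,60),(2,69)],
[(0,0),(0,15),(1,37),(1,4),(2,5),(2,23)],
[(0,0),(0,104),(1,12),(1,27),(1,61),(1,43)],
[(0,0),(0,107),(0,105),(0,88),(1,24),(1,57)],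
[(0,0),(0,113),(0,34),(1,45),(2,31),(2,54)],
[(0,0),(0,95),(0,31),(1,72),(2,34),(2,63)],
[(0,0),(0,101),(0,90),(0,94),(1,15),(1,60)],
[(0,0),(0,65),(1,52),(2,65),(2,96),(2,99)],
[(0,0),(0,71),(1,49),(1,25),(1,29),(2,33)],
[(0,0),(0,74),(1,30),(1,79),(1,2),(2,62)],
[(0,0),(0,41),(0,23),(1,16),(2,1),(2,51)],
[(0,0),(0,50),(0,29),(1,10),(2,25),(2,66)],
[(0,0),(0,56),(1,9),(1,103),(1,11),(2,68)],
[(0,0),(0,59),(1,55),(1,1),(1,23),(2,6)],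
[(0,0),(0,13),(2,52),(2,91),(2,32),(2,20)],
[(0,0),(0,25),(1,76),(1,19),(1,85),(2,114)],
[(0,0),(0,1),(1,67),(1,7),(1,97),(2,81)],
[(0,0),(0,81),(0,48),(1,38),(2,50),(2,72)],
[(0,0),(0,87),(0,45),(1,101),(2,15),(2,11)],
[(0,0),(0,93),(2,58),(2,47),(2,111),(2,42)],
[(0,0),(0,102),(2,46),(2,44),(2,84),(2,75)],
[(0,0),(1,3),(1,82),(2,53),(2,102),(2,109)],
[(0,0),(1,18),(1,62),(2,61),(2,28),(2,14)],
[(0,0),(1,21),(1,68),(2,43),(2,37),(2,38)],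
[(0,0),(1,36),(1,100),(2,77),(2,93),(2,112)],
[(0,0),(1,58),(1,48),(2,40),(2,4),(2,94)],
[(0,0),(1,46),(1,69),(2,64),(2,22),(2,88)],
[(0,0),(1,71),(1,59),(1,13),(2,104),(2,13)],
[(1,0),(1,9),(1,89),(1,50),(2,37),(2,11)],
[(1,0),(1,104),(2,3),(2,36),(2,64),(2,40)],
[(1,0),(1,113),(1,81),(1,82),(2,33),(2,54)],
[(1,0),(1,95),(1,114),(1,100),(2,6),(2,63)]]

theorem s351 : StOn (Fin 351) 6 :=
  st_of_chkL 0 3 1 3 39 6 (by norm_num) (P351x0) []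
    (by decide +kernel)

end H9St
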