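import Mathlib
import Pool.Agent.H9.StHole

namespace H9St

set_option maxRecDepth 100000

def P376x0 : List (List (ℕ × ℕ)) := [
[(0,0),(1,0),(7,2),(9,3),(31,4),(30,1)],
[(0,0),(2,0),(53,0),(54,0),(68,2),(69,3)],
[(0,0),(3,0),(51,0),(52,0),(66,2),(67,3)],
[(0,0),(4,0),(6,2),(8,3),(30,4),(34,1)],
[(0,0),(1,2),(18,1),(43,1),(53,1),(73,1)],
[(0,0),(3,2),(33,0),(30,2),(36,0),(37,2)],
[(0,0),(4,2),(22,0),(22,2),(66,4),(68,3)],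
[(0,0),(0,2),(13,0),(12,2),(74,4),(71,3)],
[(0,0),(2,4),(21,0),(21,4),(61,2),(71,2)],
[(0,0),(3,4),(16,2),(17,2),(27,1),(26,3)],
[(0,0),(0,4),(14,0),(11,4),(50,2),(55,2)],
[(0,0),(1,4),(28,1),(28,3),(50,1),(51,3)],
[(0,0),(3,1),(24,0),(24,1),(64,3),(74,3)],
[(0,0),(4,1),(27,2),(27,4),(54,2),(50,4)],
[(0,0),(2,1),(19,3),(18,3),(29,2),(28,4)],
[(0,0),(4,3),(17,4),(42,4),(52,4),(72,4)],
[(0,0),(1,3),(23,0),(23,3),(67,2),(69,1)],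
[(0,0),(2,3),(32,0),(30,3),(39,0),(38,3)],
[(0,0),(5,0),(26,2),(29,3),(36,4),(39,1)],
[(0,0),(6,0),(35,3),(45,2),(57,1),(69,2)],
[(0,0),(7,0),(23,1),(59,2),(64,0),(71,0)],
[(0,0),(8,0),(22,4),(56,3),(61,0),(74,0)],
[(0,0),(9,0),(35,2),(45,3),(58,4),(66,3)],
[(0,0),(8,2),(40,1),(46,1),(64,1),(68,0)],
[(0,0),(9,2),(15,4),(29,4),(37,1),(43,4)],
[(0,0),(5,2),(10,4),(31,1),(63,1),(67,4)],
[(0,0),(7,4),(8,1),(25,0),(55,0),(60,0)],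
[(0,0),(8,4),(12,1),(25,2),(65,4),(72,3)],
[(0,0),(9,4),(17,0),(53,3),(56,0),(73,0)],
[(0,0),(5,4),(21,2),(27,0),(31,0),(43,3)],
[(0,0),(6,4),(25,1),(39,4),(48,2),(64,2)],
[(0,0),(9,1),(25,4),(36,1),(47,3),(61,3)],
[(0,0),(5,1),(24,3),(28,0),(34,0),(42,2)],
[(0,0),(6,1),(18,0),(52,2),(59,0),(72,0)],
[(0,0),(7,1),(13,4),(25,3),(65,1),(73,2)],
[(0,0),(5,3),(10,1),(34,4),(62,4),(68,1)],
[(0,0),(6,3),(15,1),(26,1),(38,4),(42,1)],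
[(0,0),(7,3),(40,4),(49,4),(61,4),(67,0)],
[(0,0),(10,0),(38,2),(37,3),(45,0),(70,0)],
[(0,0),(11,2),(16,3),(39,2),(40,2),(48,4)],
[(0,0),(13,2),(33,1),(42,0),(49,2),(59,3)],
[(0,0),(14,2),(22,1),(47,4),(57,2),(65,3)],
[(0,0),(10,2),(20,4),(39,3),(52,3),(58,0)],
[(0,0),(12,4),(19,4),(53,4),(56,4),(66,1)],
[(0,0),(14,4),(29,0),(41,1),(57,3),(70,4)],
[(0,0),(13,1),(16,1),(52,1),(59,1),(69,4)],
[(0,0),(11,1),(26,0),(44,4),(58,2),(70,1)],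
[(0,0),(14,3),(19,2),(36,3),(40,3),(47,1)],
[(0,0),(10,3),(20,1),(36,2),(53,2),(57,0)],
[(0,0),(11,3),(23,4),(48,1),(58,3),(65,2)],
[(0,0),(12,3),(32,4),(43,0),(46,3),(56,2)],
[(0,0),(15,0),(41,2),(44,3),(46,4),(49,1)],
[(0,0),(16,0),(31,3),(46,2),(54,4),(62,3)],
[(0,0),(19,0),(34,2),(49,3),(51,1),(63,2)],
[(0,0),(18,2),(32,1),(38,1),(60,2),(74,1)],
[(0,0),(15,2),(20,3),(29,1),(63,3),(72,1)],
[(0,0),(18,4),(21,3),(43,2),(56,1),(63,0)],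
[(0,0),(16,4),(33,2),(41,3),(47,0),(72,2)],
[(0,0),(19,1),(32,3),(44,2),(48,0),(73,3)],
[(0,0),(17,1),(24,2),(42,3),(59,4),(62,0)],
[(0,0),(15,3),(20,2),(26,4),(62,2),(73,4)],
[(0,0),(17,3),(33,4),(37,4),(60,3),(71,4)],
[(0,0),(20,0),(28,2),(27,3),(40,0),(65,0)],
[(0,0),(23,2),(31,2),(35,1),(44,0),(64,4)],
[(0,0),(24,4),(33,3),(45,4),(62,1),(69,0)],
[(0,0),(21,1),(32,2),(45,1),(63,4),(66,0)],
[(0,0),(22,3),(34,3),(35,4),(41,0),(61,1)],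
[(0,0),(30,0),(35,0),(50,0),(55,4),(55,1)],
[(0,0),(37,0),(47,2),(51,2),(67,1),(70,3)],
[(0,0),(38,0),(48,3),(54,3),(68,4),(70,2)],
[(0,0),(41,4),(46,0),(54,1),(58,1),(60,1)],
[(0,0),(44,1),(49,0),(51,4),(57,4),(60,4)],
[(1,0),(2,0),(8,2),(5,3),(32,4),(31,1)],
[(1,0),(3,0),(50,0),(54,0),(69,2),(65,3)],
[(1,0),(4,0),(52,0),(53,0),(67,2),(68,3)],
[(1,0),(1,2),(14,0),(13,2),(70,4),(72,3)],
[(1,0),(2,2),(19,1),(44,1),(54,1),(74,1)],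
[(1,0),(4,2),(34,0),(31,2),(37,0),(38,2)],
[(1,0),(2,4),(29,1),(29,3),(51,1),(52,3)],
[(1,0),(3,4),(22,0),(22,4),(62,2),(72,2)],
[(1,0),(4,4),(17,2),(18,2),(28,1),(27,3)],
[(1,0),(1,4),(10,0),(12,4),(51,2),(56,2)],
[(1,0),(3,1),(19,3),(15,3),(25,2),(29,4)],
[(1,0),(4,1),(20,0),(20,1),(60,3),(70,3)],
[(1,0),(2,3),(24,0),(24,3),(68,2),(65,1)],
[(1,0),(3,3),(33,0),(31,3),(35,0),(39,3)],
[(1,0),(5,0),(36,2),(46,3),(59,4),(67,3)],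
[(1,0),(6,0),(27,2),(25,3),(37,4),(35,1)],
[(1,0),(7,0),(36,3),(46,2),(58,1),(65,2)],
[(1,0),(8,0),(24,1),(55,2),(60,0),(72,0)],
[(1,0),(9,0),(23,4),(57,3),(62,0),(70,0)],
[(1,0),(6,2),(11,4),(32,1),(64,1),(68,4)],
[(1,0),(9,2),(41,1),(47,1),(60,1),(69,0)],
[(1,0),(5,2),(16,4),(25,4),(38,1),(44,4)],
[(1,0),(7,4),(26,1),(35,4),(49,2),(60,2)],
[(1,0),(8,4),(9,1),(26,0),(56,0),(61,0)],
[(1,0),(9,4),(13,1),(26,2),(66,4),(73,3)],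
[(1,0),(5,4),(18,0),(54,3),(57,0),(74,0)],
[(1,0),(6,4),(22,2),(28,0),(32,0),(44,3)],
[(1,0),(8,1),(14,4),(26,3),(66,1),(74,2)]]

def P376x1 : List (List (ℕ × ℕ)) := [
[(1,0),(5,1),(26,4),(37,1),(48,3),(62,3)],
[(1,0),(6,1),(20,3),(29,0),(30,0),(43,2)],
[(1,0),(7,1),(19,0),(53,2),(55,0),(73,0)],
[(1,0),(6,3),(11,1),(30,4),(63,4),(69,1)],
[(1,0),(7,3),(16,1),(27,1),(39,4),(43,1)],
[(1,0),(8,3),(41,4),(45,4),(62,4),(68,0)],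
[(1,0),(11,0),(39,2),(38,3),(46,0),(71,0)],
[(1,0),(11,2),(21,4),(35,3),(53,3),(59,0)],
[(1,0),(12,2),(17,3),(35,2),(41,2),(49,4)],
[(1,0),(14,2),(34,1),(43,0),(45,2),(55,3)],
[(1,0),(10,2),(23,1),(48,4),(58,2),(66,3)],
[(1,0),(13,4),(15,4),(54,4),(57,4),(67,1)],
[(1,0),(10,4),(25,0),(42,1),(58,3),(71,4)],
[(1,0),(14,1),(17,1),(53,1),(55,1),(65,4)],
[(1,0),(12,1),(27,0),(40,4),(59,2),(71,1)],
[(1,0),(10,3),(15,2),(37,3),(41,3),(48,1)],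
[(1,0),(11,3),(21,1),(37,2),(54,2),(58,0)],
[(1,0),(12,3),(24,4),(49,1),(59,3),(66,2)],
[(1,0),(13,3),(33,4),(44,0),(47,3),(57,2)],
[(1,0),(15,0),(30,2),(45,3),(52,1),(64,2)],
[(1,0),(16,0),(42,2),(40,3),(47,4),(45,1)],
[(1,0),(17,0),(32,3),(47,2),(50,4),(63,3)],
[(1,0),(16,2),(21,3),(25,1),(64,3),(73,1)],
[(1,0),(19,2),(33,1),(39,1),(61,2),(70,1)],
[(1,0),(17,4),(34,2),(42,3),(48,0),(73,2)],
[(1,0),(19,4),(22,3),(44,2),(57,1),(64,0)],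
[(1,0),(18,1),(20,2),(43,3),(55,4),(63,0)],
[(1,0),(15,1),(33,3),(40,2),(49,0),(74,3)],
[(1,0),(16,3),(21,2),(27,4),(63,2),(74,4)],
[(1,0),(18,3),(34,4),(38,4),(61,3),(72,4)],
[(1,0),(21,0),(29,2),(28,3),(41,0),(66,0)],
[(1,0),(24,2),(32,2),(36,1),(40,0),(60,4)],
[(1,0),(20,4),(34,3),(46,4),(63,1),(65,0)],
[(1,0),(22,1),(33,2),(46,1),(64,4),(67,0)],
[(1,0),(23,3),(30,3),(36,4),(42,0),(62,1)],
[(1,0),(31,0),(36,0),(51,0),(56,4),(56,1)],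
[(1,0),(38,0),(48,2),(52,2),(68,1),(71,3)],
[(1,0),(39,0),(49,3),(50,3),(69,4),(71,2)],
[(1,0),(42,4),(47,0),(50,1),(59,1),(61,1)],
[(1,0),(40,1),(45,0),(52,4),(58,4),(61,4)],
[(2,0),(3,0),(9,2),(6,3),(33,4),(32,1)],
[(2,0),(4,0),(50,0),(51,0),(65,2),(66,3)],
[(2,0),(2,2),(10,0),(14,2),(71,4),(73,3)],
[(2,0),(3,2),(15,1),(40,1),(50,1),(70,1)],
[(2,0),(2,4),(11,0),(13,4),(52,2),(57,2)],
[(2,0),(3,4),(25,1),(25,3),(52,1),(53,3)],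
[(2,0),(4,4),(23,0),(23,4),(63,2),(73,2)],
[(2,0),(4,1),(15,3),(16,3),(26,2),(25,4)],
[(2,0),(4,3),(34,0),(32,3),(36,0),(35,3)],
[(2,0),(3,3),(20,0),(20,3),(69,2),(66,1)],
[(2,0),(5,0),(24,4),(58,3),(63,0),(71,0)],
[(2,0),(6,0),(37,2),(47,3),(55,4),(68,3)],
[(2,0),(7,0),(28,2),(26,3),(38,4),(36,1)],
[(2,0),(8,0),(37,3),(47,2),(59,1),(66,2)],
[(2,0),(9,0),(20,1),(56,2),(61,0),(73,0)],
[(2,0),(6,2),(17,4),(26,4),(39,1),(40,4)],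
[(2,0),(7,2),(12,4),(33,1),(60,1),(69,4)],
[(2,0),(5,2),(42,1),(48,1),(61,1),(65,0)],
[(2,0),(7,4),(23,2),(29,0),(33,0),(40,3)],
[(2,0),(8,4),(27,1),(36,4),(45,2),(61,2)],
[(2,0),(9,4),(5,1),(27,0),(57,0),(62,0)],
[(2,0),(5,4),(14,1),(27,2),(67,4),(74,3)],
[(2,0),(6,4),(19,0),(50,3),(58,0),(70,0)],
[(2,0),(8,1),(15,0),(54,2),(56,0),(74,0)],
[(2,0),(9,1),(10,4),(27,3),(67,1),(70,2)],
[(2,0),(6,1),(27,4),(38,1),(49,3),(63,3)],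
[(2,0),(7,1),(21,3),(25,0),(31,0),(44,2)],
[(2,0),(9,3),(42,4),(46,4),(63,4),(69,0)],
[(2,0),(7,3),(12,1),(31,4),(64,4),(65,1)],
[(2,0),(8,3),(17,1),(28,1),(35,4),(44,1)],
[(2,0),(12,0),(35,2),(39,3),(47,0),(72,0)],
[(2,0),(11,2),(24,1),(49,4),(59,2),(67,3)],
[(2,0),(12,2),(22,4),(36,3),(54,3),(55,0)],
[(2,0),(13,2),(18,3),(36,2),(42,2),(45,4)],
[(2,0),(10,2),(30,1),(44,0),(46,2),(56,3)],
[(2,0),(14,4),(16,4),(50,4),(58,4),(68,1)],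
[(2,0),(11,4),(26,0),(43,1),(59,3),(72,4)],
[(2,0),(13,1),(28,0),(41,4),(55,2),(72,1)],
[(2,0),(10,1),(18,1),(54,1),(56,1),(66,4)],
[(2,0),(14,3),(34,4),(40,0),(48,3),(58,2)],
[(2,0),(11,3),(16,2),(38,3),(42,3),(49,1)],
[(2,0),(12,3),(22,1),(38,2),(50,2),(59,0)],
[(2,0),(13,3),(20,4),(45,1),(55,3),(67,2)],
[(2,0),(16,0),(31,2),(46,3),(53,1),(60,2)],
[(2,0),(17,0),(43,2),(41,3),(48,4),(46,1)],
[(2,0),(18,0),(33,3),(48,2),(51,4),(64,3)],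
[(2,0),(17,2),(22,3),(26,1),(60,3),(74,1)],
[(2,0),(15,2),(34,1),(35,1),(62,2),(71,1)],
[(2,0),(18,4),(30,2),(43,3),(49,0),(74,2)],
[(2,0),(15,4),(23,3),(40,2),(58,1),(60,0)],
[(2,0),(19,1),(21,2),(44,3),(56,4),(64,0)],
[(2,0),(16,1),(34,3),(41,2),(45,0),(70,3)],
[(2,0),(19,3),(30,4),(39,4),(62,3),(73,4)],
[(2,0),(17,3),(22,2),(28,4),(64,2),(70,4)],
[(2,0),(22,0),(25,2),(29,3),(42,0),(67,0)],
[(2,0),(20,2),(33,2),(37,1),(41,0),(61,4)],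
[(2,0),(21,4),(30,3),(47,4),(64,1),(66,0)],
[(2,0),(23,1),(34,2),(47,1),(60,4),(68,0)],
[(2,0),(24,3),(31,3),(37,4),(43,0),(63,1)],
[(2,0),(32,0),(37,0),(52,0),(57,4),(57,1)]]

def P376x2 : List (List (ℕ × ℕ)) := [
[(2,0),(35,0),(45,3),(51,3),(65,4),(72,2)],
[(2,0),(39,0),(49,2),(53,2),(69,1),(72,3)],
[(2,0),(43,4),(48,0),(51,1),(55,1),(62,1)],
[(2,0),(41,1),(46,0),(53,4),(59,4),(62,4)],
[(3,0),(4,0),(5,2),(7,3),(34,4),(33,1)],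
[(3,0),(3,2),(11,0),(10,2),(72,4),(74,3)],
[(3,0),(4,2),(16,1),(41,1),(51,1),(71,1)],
[(3,0),(3,4),(12,0),(14,4),(53,2),(58,2)],
[(3,0),(4,4),(26,1),(26,3),(53,1),(54,3)],
[(3,0),(4,3),(21,0),(21,3),(65,2),(67,1)],
[(3,0),(5,0),(21,1),(57,2),(62,0),(74,0)],
[(3,0),(6,0),(20,4),(59,3),(64,0),(72,0)],
[(3,0),(7,0),(38,2),(48,3),(56,4),(69,3)],
[(3,0),(8,0),(29,2),(27,3),(39,4),(37,1)],
[(3,0),(9,0),(38,3),(48,2),(55,1),(67,2)],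
[(3,0),(6,2),(43,1),(49,1),(62,1),(66,0)],
[(3,0),(7,2),(18,4),(27,4),(35,1),(41,4)],
[(3,0),(8,2),(13,4),(34,1),(61,1),(65,4)],
[(3,0),(7,4),(15,0),(51,3),(59,0),(71,0)],
[(3,0),(8,4),(24,2),(25,0),(34,0),(41,3)],
[(3,0),(9,4),(28,1),(37,4),(46,2),(62,2)],
[(3,0),(5,4),(6,1),(28,0),(58,0),(63,0)],
[(3,0),(6,4),(10,1),(28,2),(68,4),(70,3)],
[(3,0),(8,1),(22,3),(26,0),(32,0),(40,2)],
[(3,0),(9,1),(16,0),(50,2),(57,0),(70,0)],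
[(3,0),(5,1),(11,4),(28,3),(68,1),(71,2)],
[(3,0),(7,1),(28,4),(39,1),(45,3),(64,3)],
[(3,0),(9,3),(18,1),(29,1),(36,4),(40,1)],
[(3,0),(5,3),(43,4),(47,4),(64,4),(65,0)],
[(3,0),(8,3),(13,1),(32,4),(60,4),(66,1)],
[(3,0),(13,0),(36,2),(35,3),(48,0),(73,0)],
[(3,0),(11,2),(31,1),(40,0),(47,2),(57,3)],
[(3,0),(12,2),(20,1),(45,4),(55,2),(68,3)],
[(3,0),(13,2),(23,4),(37,3),(50,3),(56,0)],
[(3,0),(14,2),(19,3),(37,2),(43,2),(46,4)],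
[(3,0),(12,4),(27,0),(44,1),(55,3),(73,4)],
[(3,0),(10,4),(17,4),(51,4),(59,4),(69,1)],
[(3,0),(14,1),(29,0),(42,4),(56,2),(73,1)],
[(3,0),(11,1),(19,1),(50,1),(57,1),(67,4)],
[(3,0),(14,3),(21,4),(46,1),(56,3),(68,2)],
[(3,0),(10,3),(30,4),(41,0),(49,3),(59,2)],
[(3,0),(12,3),(17,2),(39,3),(43,3),(45,1)],
[(3,0),(13,3),(23,1),(39,2),(51,2),(55,0)],
[(3,0),(17,0),(32,2),(47,3),(54,1),(61,2)],
[(3,0),(18,0),(44,2),(42,3),(49,4),(47,1)],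
[(3,0),(19,0),(34,3),(49,2),(52,4),(60,3)],
[(3,0),(16,2),(30,1),(36,1),(63,2),(72,1)],
[(3,0),(18,2),(23,3),(27,1),(61,3),(70,1)],
[(3,0),(19,4),(31,2),(44,3),(45,0),(70,2)],
[(3,0),(16,4),(24,3),(41,2),(59,1),(61,0)],
[(3,0),(15,1),(22,2),(40,3),(57,4),(60,0)],
[(3,0),(17,1),(30,3),(42,2),(46,0),(71,3)],
[(3,0),(15,3),(31,4),(35,4),(63,3),(74,4)],
[(3,0),(18,3),(23,2),(29,4),(60,2),(71,4)],
[(3,0),(23,0),(26,2),(25,3),(43,0),(68,0)],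
[(3,0),(21,2),(34,2),(38,1),(42,0),(62,4)],
[(3,0),(22,4),(31,3),(48,4),(60,1),(67,0)],
[(3,0),(24,1),(30,2),(48,1),(61,4),(69,0)],
[(3,0),(20,3),(32,3),(38,4),(44,0),(64,1)],
[(3,0),(33,0),(38,0),(53,0),(58,4),(58,1)],
[(3,0),(35,0),(45,2),(54,2),(65,1),(73,3)],
[(3,0),(36,0),(46,3),(52,3),(66,4),(73,2)],
[(3,0),(44,4),(49,0),(52,1),(56,1),(63,1)],
[(3,0),(42,1),(47,0),(54,4),(55,4),(63,4)],
[(4,0),(4,2),(12,0),(11,2),(73,4),(70,3)],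
[(4,0),(4,4),(13,0),(10,4),(54,2),(59,2)],
[(4,0),(5,0),(39,3),(49,2),(56,1),(68,2)],
[(4,0),(6,0),(22,1),(58,2),(63,0),(70,0)],
[(4,0),(7,0),(21,4),(55,3),(60,0),(73,0)],
[(4,0),(8,0),(39,2),(49,3),(57,4),(65,3)],
[(4,0),(9,0),(25,2),(28,3),(35,4),(38,1)],
[(4,0),(7,2),(44,1),(45,1),(63,1),(67,0)],
[(4,0),(8,2),(19,4),(28,4),(36,1),(42,4)],
[(4,0),(9,2),(14,4),(30,1),(62,1),(66,4)],
[(4,0),(7,4),(11,1),(29,2),(69,4),(71,3)],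
[(4,0),(8,4),(16,0),(52,3),(55,0),(72,0)],
[(4,0),(9,4),(20,2),(26,0),(30,0),(42,3)],
[(4,0),(5,4),(29,1),(38,4),(47,2),(63,2)],
[(4,0),(6,4),(7,1),(29,0),(59,0),(64,0)],
[(4,0),(8,1),(29,4),(35,1),(46,3),(60,3)],
[(4,0),(9,1),(23,3),(27,0),(33,0),(41,2)],
[(4,0),(5,1),(17,0),(51,2),(58,0),(71,0)],
[(4,0),(6,1),(12,4),(29,3),(69,1),(72,2)],
[(4,0),(9,3),(14,1),(33,4),(61,4),(67,1)],
[(4,0),(5,3),(19,1),(25,1),(37,4),(41,1)],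
[(4,0),(6,3),(44,4),(48,4),(60,4),(66,0)],
[(4,0),(14,0),(37,2),(36,3),(49,0),(74,0)],
[(4,0),(12,2),(32,1),(41,0),(48,2),(58,3)],
[(4,0),(13,2),(21,1),(46,4),(56,2),(69,3)],
[(4,0),(14,2),(24,4),(38,3),(51,3),(57,0)],
[(4,0),(10,2),(15,3),(38,2),(44,2),(47,4)],
[(4,0),(13,4),(28,0),(40,1),(56,3),(74,4)],
[(4,0),(11,4),(18,4),(52,4),(55,4),(65,1)],
[(4,0),(10,1),(25,0),(43,4),(57,2),(74,1)],
[(4,0),(12,1),(15,1),(51,1),(58,1),(68,4)],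
[(4,0),(14,3),(24,1),(35,2),(52,2),(56,0)],
[(4,0),(10,3),(22,4),(47,1),(57,3),(69,2)],
[(4,0),(11,3),(31,4),(42,0),(45,3),(55,2)],
[(4,0),(13,3),(18,2),(35,3),(44,3),(46,1)],
[(4,0),(15,0),(30,3),(45,2),(53,4),(61,3)]]

def P376x3 : List (List (ℕ × ℕ)) := [
[(4,0),(18,0),(33,2),(48,3),(50,1),(62,2)],
[(4,0),(19,0),(40,2),(43,3),(45,4),(48,1)],
[(4,0),(17,2),(31,1),(37,1),(64,2),(73,1)],
[(4,0),(19,2),(24,3),(28,1),(62,3),(71,1)],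
[(4,0),(17,4),(20,3),(42,2),(55,1),(62,0)],
[(4,0),(15,4),(32,2),(40,3),(46,0),(71,2)],
[(4,0),(18,1),(31,3),(43,2),(47,0),(72,3)],
[(4,0),(16,1),(23,2),(41,3),(58,4),(61,0)],
[(4,0),(19,3),(24,2),(25,4),(61,2),(72,4)],
[(4,0),(16,3),(32,4),(36,4),(64,3),(70,4)],
[(4,0),(24,0),(27,2),(26,3),(44,0),(69,0)],
[(4,0),(22,2),(30,2),(39,1),(43,0),(63,4)],
[(4,0),(23,4),(32,3),(49,4),(61,1),(68,0)],
[(4,0),(20,1),(31,2),(49,1),(62,4),(65,0)],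
[(4,0),(21,3),(33,3),(39,4),(40,0),(60,1)],
[(4,0),(34,0),(39,0),(54,0),(59,4),(59,1)],
[(4,0),(36,0),(46,2),(50,2),(66,1),(74,3)],
[(4,0),(37,0),(47,3),(53,3),(67,4),(74,2)],
[(4,0),(40,4),(45,0),(53,1),(57,1),(64,1)],
[(4,0),(43,1),(48,0),(50,4),(56,4),(64,4)],
[(5,0),(6,0),(22,2),(24,3),(46,4),(45,1)],
[(5,0),(7,0),(53,2),(54,3),(58,0),(59,0)],
[(5,0),(8,0),(51,2),(52,3),(56,0),(57,0)],
[(5,0),(9,0),(21,2),(23,3),(45,4),(49,1)],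
[(5,0),(8,2),(41,0),(42,2),(48,0),(45,2)],
[(5,0),(9,2),(12,0),(12,2),(51,4),(53,3)],
[(5,0),(5,2),(18,0),(17,2),(64,4),(61,3)],
[(5,0),(7,4),(11,0),(11,4),(61,2),(66,2)],
[(5,0),(5,4),(19,0),(16,4),(55,2),(70,2)],
[(5,0),(6,4),(33,1),(33,3),(55,1),(56,3)],
[(5,0),(8,1),(14,0),(14,1),(64,3),(69,3)],
[(5,0),(9,1),(32,2),(32,4),(59,2),(55,4)],
[(5,0),(6,3),(13,0),(13,3),(52,2),(54,1)],
[(5,0),(7,3),(44,0),(43,3),(47,0),(45,3)],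
[(5,0),(10,0),(25,0),(33,2),(32,3),(50,0)],
[(5,0),(11,2),(20,4),(28,3),(32,0),(46,0)],
[(5,0),(13,2),(29,0),(40,1),(46,2),(69,4)],
[(5,0),(12,4),(23,0),(64,0),(66,0),(71,3)],
[(5,0),(13,4),(16,3),(38,1),(50,2),(73,3)],
[(5,0),(14,4),(35,4),(48,3),(54,0),(67,1)],
[(5,0),(10,4),(15,2),(44,3),(57,3),(73,0)],
[(5,0),(13,1),(22,0),(61,0),(69,0),(74,2)],
[(5,0),(10,1),(15,3),(41,2),(58,2),(72,0)],
[(5,0),(11,1),(35,1),(47,2),(51,0),(68,4)],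
[(5,0),(12,1),(19,2),(37,4),(50,3),(72,2)],
[(5,0),(14,3),(20,1),(27,2),(33,0),(49,0)],
[(5,0),(12,3),(26,0),(40,4),(49,3),(66,1)],
[(5,0),(15,0),(35,0),(43,2),(42,3),(60,0)],
[(5,0),(18,2),(27,0),(39,2),(48,1),(74,3)],
[(5,0),(18,4),(22,1),(30,3),(50,1),(63,2)],
[(5,0),(19,4),(26,1),(34,0),(60,4),(72,3)],
[(5,0),(15,4),(20,2),(46,1),(52,4),(68,1)],
[(5,0),(15,1),(20,3),(49,4),(53,1),(67,4)],
[(5,0),(16,1),(29,4),(31,0),(60,1),(73,2)],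
[(5,0),(17,1),(23,4),(30,2),(50,4),(62,3)],
[(5,0),(17,3),(28,0),(36,3),(47,4),(71,2)],
[(5,0),(20,0),(31,2),(34,3),(41,4),(44,1)],
[(5,0),(21,0),(35,2),(40,3),(54,2),(72,1)],
[(5,0),(24,0),(35,3),(40,2),(51,3),(73,4)],
[(5,0),(23,2),(25,1),(36,1),(53,0),(69,1)],
[(5,0),(22,4),(23,1),(30,0),(65,0),(70,0)],
[(5,0),(21,4),(30,1),(38,2),(44,4),(69,2)],
[(5,0),(24,1),(30,4),(37,3),(41,1),(66,3)],
[(5,0),(22,3),(25,4),(39,4),(52,0),(66,4)],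
[(5,0),(26,4),(36,0),(59,1),(65,1),(73,1)],
[(5,0),(29,1),(39,0),(56,4),(65,4),(72,4)],
[(5,0),(37,2),(42,0),(52,1),(56,2),(60,3)],
[(5,0),(38,3),(43,0),(53,4),(59,3),(60,2)],
[(5,0),(40,0),(45,0),(55,0),(70,4),(70,1)],
[(6,0),(7,0),(23,2),(20,3),(47,4),(46,1)],
[(6,0),(8,0),(54,2),(50,3),(55,0),(59,0)],
[(6,0),(9,0),(52,2),(53,3),(57,0),(58,0)],
[(6,0),(6,2),(19,0),(18,2),(60,4),(62,3)],
[(6,0),(9,2),(42,0),(43,2),(49,0),(46,2)],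
[(6,0),(7,4),(34,1),(34,3),(56,1),(57,3)],
[(6,0),(8,4),(12,0),(12,4),(62,2),(67,2)],
[(6,0),(6,4),(15,0),(17,4),(56,2),(71,2)],
[(6,0),(9,1),(10,0),(10,1),(60,3),(65,3)],
[(6,0),(7,3),(14,0),(14,3),(53,2),(50,1)],
[(6,0),(8,3),(40,0),(44,3),(48,0),(46,3)],
[(6,0),(11,0),(26,0),(34,2),(33,3),(51,0)],
[(6,0),(12,2),(21,4),(29,3),(33,0),(47,0)],
[(6,0),(14,2),(25,0),(41,1),(47,2),(65,4)],
[(6,0),(13,4),(24,0),(60,0),(67,0),(72,3)],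
[(6,0),(14,4),(17,3),(39,1),(51,2),(74,3)],
[(6,0),(10,4),(36,4),(49,3),(50,0),(68,1)],
[(6,0),(11,4),(16,2),(40,3),(58,3),(74,0)],
[(6,0),(13,1),(15,2),(38,4),(51,3),(73,2)],
[(6,0),(14,1),(23,0),(62,0),(65,0),(70,2)],
[(6,0),(11,1),(16,3),(42,2),(59,2),(73,0)],
[(6,0),(12,1),(36,1),(48,2),(52,0),(69,4)],
[(6,0),(10,3),(21,1),(28,2),(34,0),(45,0)],
[(6,0),(13,3),(27,0),(41,4),(45,3),(67,1)],
[(6,0),(16,0),(36,0),(44,2),(43,3),(61,0)],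
[(6,0),(19,2),(28,0),(35,2),(49,1),(70,3)],
[(6,0),(19,4),(23,1),(31,3),(51,1),(64,2)],
[(6,0),(15,4),(27,1),(30,0),(61,4),(73,3)],
[(6,0),(16,4),(21,2),(47,1),(53,4),(69,1)],
[(6,0),(18,1),(24,4),(31,2),(51,4),(63,3)],
[(6,0),(16,1),(21,3),(45,4),(54,1),(68,4)]]

def P376x4 : List (List (ℕ × ℕ)) := [
[(6,0),(17,1),(25,4),(32,0),(61,1),(74,2)],
[(6,0),(18,3),(29,0),(37,3),(48,4),(72,2)],
[(6,0),(20,0),(36,3),(41,2),(52,3),(74,4)],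
[(6,0),(21,0),(32,2),(30,3),(42,4),(40,1)],
[(6,0),(22,0),(36,2),(41,3),(50,2),(73,1)],
[(6,0),(24,2),(26,1),(37,1),(54,0),(65,1)],
[(6,0),(22,4),(31,1),(39,2),(40,4),(65,2)],
[(6,0),(23,4),(24,1),(31,0),(66,0),(71,0)],
[(6,0),(20,1),(31,4),(38,3),(42,1),(67,3)],
[(6,0),(23,3),(26,4),(35,4),(53,0),(67,4)],
[(6,0),(27,4),(37,0),(55,1),(66,1),(74,1)],
[(6,0),(25,1),(35,0),(57,4),(66,4),(73,4)],
[(6,0),(38,2),(43,0),(53,1),(57,2),(61,3)],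
[(6,0),(39,3),(44,0),(54,4),(55,3),(61,2)],
[(6,0),(41,0),(46,0),(56,0),(71,4),(71,1)],
[(7,0),(8,0),(24,2),(21,3),(48,4),(47,1)],
[(7,0),(9,0),(50,2),(51,3),(55,0),(56,0)],
[(7,0),(7,2),(15,0),(19,2),(61,4),(63,3)],
[(7,0),(7,4),(16,0),(18,4),(57,2),(72,2)],
[(7,0),(8,4),(30,1),(30,3),(57,1),(58,3)],
[(7,0),(9,4),(13,0),(13,4),(63,2),(68,2)],
[(7,0),(9,3),(41,0),(40,3),(49,0),(47,3)],
[(7,0),(8,3),(10,0),(10,3),(54,2),(51,1)],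
[(7,0),(12,0),(27,0),(30,2),(34,3),(52,0)],
[(7,0),(13,2),(22,4),(25,3),(34,0),(48,0)],
[(7,0),(10,2),(26,0),(42,1),(48,2),(66,4)],
[(7,0),(12,4),(17,2),(41,3),(59,3),(70,0)],
[(7,0),(14,4),(20,0),(61,0),(68,0),(73,3)],
[(7,0),(10,4),(18,3),(35,1),(52,2),(70,3)],
[(7,0),(11,4),(37,4),(45,3),(51,0),(69,1)],
[(7,0),(13,1),(37,1),(49,2),(53,0),(65,4)],
[(7,0),(14,1),(16,2),(39,4),(52,3),(74,2)],
[(7,0),(10,1),(24,0),(63,0),(66,0),(71,2)],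
[(7,0),(12,1),(17,3),(43,2),(55,2),(74,0)],
[(7,0),(14,3),(28,0),(42,4),(46,3),(68,1)],
[(7,0),(11,3),(22,1),(29,2),(30,0),(46,0)],
[(7,0),(17,0),(37,0),(40,2),(44,3),(62,0)],
[(7,0),(15,2),(29,0),(36,2),(45,1),(71,3)],
[(7,0),(17,4),(22,2),(48,1),(54,4),(65,1)],
[(7,0),(15,4),(24,1),(32,3),(52,1),(60,2)],
[(7,0),(16,4),(28,1),(31,0),(62,4),(74,3)],
[(7,0),(18,1),(26,4),(33,0),(62,1),(70,2)],
[(7,0),(19,1),(20,4),(32,2),(52,4),(64,3)],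
[(7,0),(17,1),(22,3),(46,4),(50,1),(69,4)],
[(7,0),(19,3),(25,0),(38,3),(49,4),(73,2)],
[(7,0),(21,0),(37,3),(42,2),(53,3),(70,4)],
[(7,0),(22,0),(33,2),(31,3),(43,4),(41,1)],
[(7,0),(23,0),(37,2),(42,3),(51,2),(74,1)],
[(7,0),(20,2),(27,1),(38,1),(50,0),(66,1)],
[(7,0),(23,4),(32,1),(35,2),(41,4),(66,2)],
[(7,0),(24,4),(20,1),(32,0),(67,0),(72,0)],
[(7,0),(21,1),(32,4),(39,3),(43,1),(68,3)],
[(7,0),(24,3),(27,4),(36,4),(54,0),(68,4)],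
[(7,0),(28,4),(38,0),(56,1),(67,1),(70,1)],
[(7,0),(26,1),(36,0),(58,4),(67,4),(74,4)],
[(7,0),(39,2),(44,0),(54,1),(58,2),(62,3)],
[(7,0),(35,3),(40,0),(50,4),(56,3),(62,2)],
[(7,0),(42,0),(47,0),(57,0),(72,4),(72,1)],
[(8,0),(9,0),(20,2),(22,3),(49,4),(48,1)],
[(8,0),(8,2),(16,0),(15,2),(62,4),(64,3)],
[(8,0),(8,4),(17,0),(19,4),(58,2),(73,2)],
[(8,0),(9,4),(31,1),(31,3),(58,1),(59,3)],
[(8,0),(9,3),(11,0),(11,3),(50,2),(52,1)],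
[(8,0),(13,0),(28,0),(31,2),(30,3),(53,0)],
[(8,0),(11,2),(27,0),(43,1),(49,2),(67,4)],
[(8,0),(14,2),(23,4),(26,3),(30,0),(49,0)],
[(8,0),(12,4),(38,4),(46,3),(52,0),(65,1)],
[(8,0),(13,4),(18,2),(42,3),(55,3),(71,0)],
[(8,0),(10,4),(21,0),(62,0),(69,0),(74,3)],
[(8,0),(11,4),(19,3),(36,1),(53,2),(71,3)],
[(8,0),(13,1),(18,3),(44,2),(56,2),(70,0)],
[(8,0),(14,1),(38,1),(45,2),(54,0),(66,4)],
[(8,0),(10,1),(17,2),(35,4),(53,3),(70,2)],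
[(8,0),(11,1),(20,0),(64,0),(67,0),(72,2)],
[(8,0),(10,3),(29,0),(43,4),(47,3),(69,1)],
[(8,0),(12,3),(23,1),(25,2),(31,0),(47,0)],
[(8,0),(18,0),(38,0),(41,2),(40,3),(63,0)],
[(8,0),(16,2),(25,0),(37,2),(46,1),(72,3)],
[(8,0),(17,4),(29,1),(32,0),(63,4),(70,3)],
[(8,0),(18,4),(23,2),(49,1),(50,4),(66,1)],
[(8,0),(16,4),(20,1),(33,3),(53,1),(61,2)],
[(8,0),(18,1),(23,3),(47,4),(51,1),(65,4)],
[(8,0),(19,1),(27,4),(34,0),(63,1),(71,2)],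
[(8,0),(15,1),(21,4),(33,2),(53,4),(60,3)],
[(8,0),(15,3),(26,0),(39,3),(45,4),(74,2)],
[(8,0),(22,0),(38,3),(43,2),(54,3),(71,4)],
[(8,0),(23,0),(34,2),(32,3),(44,4),(42,1)],
[(8,0),(24,0),(38,2),(43,3),(52,2),(70,1)],
[(8,0),(21,2),(28,1),(39,1),(51,0),(67,1)],
[(8,0),(24,4),(33,1),(36,2),(42,4),(67,2)],
[(8,0),(20,4),(21,1),(33,0),(68,0),(73,0)],
[(8,0),(22,1),(33,4),(35,3),(44,1),(69,3)],
[(8,0),(20,3),(28,4),(37,4),(50,0),(69,4)],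
[(8,0),(29,4),(39,0),(57,1),(68,1),(71,1)],
[(8,0),(27,1),(37,0),(59,4),(68,4),(70,4)],
[(8,0),(35,2),(40,0),(50,1),(59,2),(63,3)],
[(8,0),(36,3),(41,0),(51,4),(57,3),(63,2)],
[(8,0),(43,0),(48,0),(58,0),(73,4),(73,1)],
[(9,0),(9,2),(17,0),(16,2),(63,4),(60,3)],
[(9,0),(9,4),(18,0),(15,4),(59,2),(74,2)]]

def P376x5 : List (List (ℕ × ℕ)) := [
[(9,0),(14,0),(29,0),(32,2),(31,3),(54,0)],
[(9,0),(12,2),(28,0),(44,1),(45,2),(68,4)],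
[(9,0),(10,2),(24,4),(27,3),(31,0),(45,0)],
[(9,0),(12,4),(15,3),(37,1),(54,2),(72,3)],
[(9,0),(13,4),(39,4),(47,3),(53,0),(66,1)],
[(9,0),(14,4),(19,2),(43,3),(56,3),(72,0)],
[(9,0),(11,4),(22,0),(63,0),(65,0),(70,3)],
[(9,0),(14,1),(19,3),(40,2),(57,2),(71,0)],
[(9,0),(10,1),(39,1),(46,2),(50,0),(67,4)],
[(9,0),(11,1),(18,2),(36,4),(54,3),(71,2)],
[(9,0),(12,1),(21,0),(60,0),(68,0),(73,2)],
[(9,0),(11,3),(25,0),(44,4),(48,3),(65,1)],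
[(9,0),(13,3),(24,1),(26,2),(32,0),(48,0)],
[(9,0),(19,0),(39,0),(42,2),(41,3),(64,0)],
[(9,0),(17,2),(26,0),(38,2),(47,1),(73,3)],
[(9,0),(17,4),(21,1),(34,3),(54,1),(62,2)],
[(9,0),(18,4),(25,1),(33,0),(64,4),(71,3)],
[(9,0),(19,4),(24,2),(45,1),(51,4),(67,1)],
[(9,0),(19,1),(24,3),(48,4),(52,1),(66,4)],
[(9,0),(15,1),(28,4),(30,0),(64,1),(72,2)],
[(9,0),(16,1),(22,4),(34,2),(54,4),(61,3)],
[(9,0),(16,3),(27,0),(35,3),(46,4),(70,2)],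
[(9,0),(20,0),(39,2),(44,3),(53,2),(71,1)],
[(9,0),(23,0),(39,3),(44,2),(50,3),(72,4)],
[(9,0),(24,0),(30,2),(33,3),(40,4),(43,1)],
[(9,0),(22,2),(29,1),(35,1),(52,0),(68,1)],
[(9,0),(20,4),(34,1),(37,2),(43,4),(68,2)],
[(9,0),(21,4),(22,1),(34,0),(69,0),(74,0)],
[(9,0),(23,1),(34,4),(36,3),(40,1),(65,3)],
[(9,0),(21,3),(29,4),(38,4),(51,0),(65,4)],
[(9,0),(25,4),(35,0),(58,1),(69,1),(72,1)],
[(9,0),(28,1),(38,0),(55,4),(69,4),(71,4)],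
[(9,0),(36,2),(41,0),(51,1),(55,2),(64,3)],
[(9,0),(37,3),(42,0),(52,4),(58,3),(64,2)],
[(9,0),(44,0),(49,0),(59,0),(74,4),(74,1)],
[(10,0),(11,0),(17,2),(19,3),(41,4),(40,1)],
[(10,0),(12,0),(63,0),(64,0),(73,2),(74,3)],
[(10,0),(13,0),(61,0),(62,0),(71,2),(72,3)],
[(10,0),(14,0),(16,2),(18,3),(40,4),(44,1)],
[(10,0),(11,2),(23,1),(48,1),(53,1),(63,1)],
[(10,0),(13,2),(31,0),(32,2),(43,0),(40,2)],
[(10,0),(13,4),(21,2),(22,2),(37,1),(36,3)],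
[(10,0),(11,4),(38,1),(38,3),(60,1),(61,3)],
[(10,0),(14,1),(37,2),(37,4),(64,2),(60,4)],
[(10,0),(12,1),(24,3),(23,3),(39,2),(38,4)],
[(10,0),(14,3),(22,4),(47,4),(52,4),(62,4)],
[(10,0),(12,3),(34,0),(33,3),(42,0),(40,3)],
[(10,0),(15,0),(31,4),(34,1),(36,2),(39,3)],
[(10,0),(16,0),(25,2),(30,3),(67,1),(74,2)],
[(10,0),(19,0),(25,3),(30,2),(68,4),(71,3)],
[(10,0),(18,2),(26,1),(45,1),(59,1),(73,0)],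
[(10,0),(19,2),(20,4),(32,1),(39,4),(48,4)],
[(10,0),(17,4),(18,1),(35,0),(55,0),(65,0)],
[(10,0),(19,4),(22,0),(53,0),(63,3),(66,0)],
[(10,0),(16,4),(28,2),(34,4),(35,1),(59,2)],
[(10,0),(19,1),(27,3),(31,1),(35,4),(56,3)],
[(10,0),(16,1),(23,0),(52,0),(62,2),(69,0)],
[(10,0),(16,3),(20,1),(33,4),(36,1),(47,1)],
[(10,0),(17,3),(29,4),(45,4),(56,4),(72,0)],
[(10,0),(20,0),(26,4),(29,1),(46,2),(49,3)],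
[(10,0),(21,0),(26,2),(41,3),(57,3),(64,4)],
[(10,0),(24,0),(29,3),(44,2),(58,2),(61,1)],
[(10,0),(23,2),(33,1),(42,1),(54,1),(55,2)],
[(10,0),(21,4),(27,0),(43,2),(46,3),(52,2)],
[(10,0),(24,1),(28,0),(42,3),(49,2),(53,3)],
[(10,0),(22,3),(32,4),(43,4),(51,4),(55,3)],
[(10,0),(26,0),(46,4),(55,1),(64,1),(68,1)],
[(10,0),(29,0),(49,1),(55,4),(61,4),(67,4)],
[(10,0),(27,2),(32,0),(50,3),(61,2),(72,1)],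
[(10,0),(28,3),(33,0),(50,2),(64,3),(73,4)],
[(10,0),(30,0),(40,0),(60,0),(65,4),(65,1)],
[(11,0),(12,0),(18,2),(15,3),(42,4),(41,1)],
[(11,0),(13,0),(60,0),(64,0),(74,2),(70,3)],
[(11,0),(14,0),(62,0),(63,0),(72,2),(73,3)],
[(11,0),(12,2),(24,1),(49,1),(54,1),(64,1)],
[(11,0),(14,2),(32,0),(33,2),(44,0),(41,2)],
[(11,0),(12,4),(39,1),(39,3),(61,1),(62,3)],
[(11,0),(14,4),(22,2),(23,2),(38,1),(37,3)],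
[(11,0),(13,1),(24,3),(20,3),(35,2),(39,4)],
[(11,0),(13,3),(30,0),(34,3),(43,0),(41,3)],
[(11,0),(15,0),(26,3),(31,2),(69,4),(72,3)],
[(11,0),(16,0),(32,4),(30,1),(37,2),(35,3)],
[(11,0),(17,0),(26,2),(31,3),(68,1),(70,2)],
[(11,0),(19,2),(27,1),(46,1),(55,1),(74,0)],
[(11,0),(15,2),(21,4),(33,1),(35,4),(49,4)],
[(11,0),(17,4),(29,2),(30,4),(36,1),(55,2)],
[(11,0),(18,4),(19,1),(36,0),(56,0),(66,0)],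
[(11,0),(15,4),(23,0),(54,0),(64,3),(67,0)],
[(11,0),(15,1),(28,3),(32,1),(36,4),(57,3)],
[(11,0),(17,1),(24,0),(53,0),(63,2),(65,0)],
[(11,0),(17,3),(21,1),(34,4),(37,1),(48,1)],
[(11,0),(18,3),(25,4),(46,4),(57,4),(73,0)],
[(11,0),(20,0),(25,3),(40,2),(59,2),(62,1)],
[(11,0),(21,0),(27,4),(25,1),(47,2),(45,3)],
[(11,0),(22,0),(27,2),(42,3),(58,3),(60,4)],
[(11,0),(24,2),(34,1),(43,1),(50,1),(56,2)],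
[(11,0),(22,4),(28,0),(44,2),(47,3),(53,2)],
[(11,0),(20,1),(29,0),(43,3),(45,2),(54,3)],
[(11,0),(23,3),(33,4),(44,4),(52,4),(56,3)],
[(11,0),(25,0),(45,1),(56,4),(62,4),(68,4)]]

def P376x6 : List (List (ℕ × ℕ)) := [
[(11,0),(27,0),(47,4),(56,1),(60,1),(69,1)],
[(11,0),(28,2),(33,0),(51,3),(62,2),(73,1)],
[(11,0),(29,3),(34,0),(51,2),(60,3),(74,4)],
[(11,0),(31,0),(41,0),(61,0),(66,4),(66,1)],
[(12,0),(13,0),(19,2),(16,3),(43,4),(42,1)],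
[(12,0),(14,0),(60,0),(61,0),(70,2),(71,3)],
[(12,0),(13,2),(20,1),(45,1),(50,1),(60,1)],
[(12,0),(13,4),(35,1),(35,3),(62,1),(63,3)],
[(12,0),(14,1),(20,3),(21,3),(36,2),(35,4)],
[(12,0),(14,3),(31,0),(30,3),(44,0),(42,3)],
[(12,0),(16,0),(27,3),(32,2),(65,4),(73,3)],
[(12,0),(17,0),(33,4),(31,1),(38,2),(36,3)],
[(12,0),(18,0),(27,2),(32,3),(69,1),(71,2)],
[(12,0),(16,2),(22,4),(34,1),(36,4),(45,4)],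
[(12,0),(15,2),(28,1),(47,1),(56,1),(70,0)],
[(12,0),(18,4),(25,2),(31,4),(37,1),(56,2)],
[(12,0),(19,4),(15,1),(37,0),(57,0),(67,0)],
[(12,0),(16,4),(24,0),(50,0),(60,3),(68,0)],
[(12,0),(18,1),(20,0),(54,0),(64,2),(66,0)],
[(12,0),(16,1),(29,3),(33,1),(37,4),(58,3)],
[(12,0),(19,3),(26,4),(47,4),(58,4),(74,0)],
[(12,0),(18,3),(22,1),(30,4),(38,1),(49,1)],
[(12,0),(21,0),(26,3),(41,2),(55,2),(63,1)],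
[(12,0),(22,0),(28,4),(26,1),(48,2),(46,3)],
[(12,0),(23,0),(28,2),(43,3),(59,3),(61,4)],
[(12,0),(20,2),(30,1),(44,1),(51,1),(57,2)],
[(12,0),(23,4),(29,0),(40,2),(48,3),(54,2)],
[(12,0),(21,1),(25,0),(44,3),(46,2),(50,3)],
[(12,0),(24,3),(34,4),(40,4),(53,4),(57,3)],
[(12,0),(26,0),(46,1),(57,4),(63,4),(69,4)],
[(12,0),(28,0),(48,4),(57,1),(61,1),(65,1)],
[(12,0),(29,2),(34,0),(52,3),(63,2),(74,1)],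
[(12,0),(25,3),(30,0),(52,2),(61,3),(70,4)],
[(12,0),(32,0),(42,0),(62,0),(67,4),(67,1)],
[(13,0),(14,0),(15,2),(17,3),(44,4),(43,1)],
[(13,0),(14,2),(21,1),(46,1),(51,1),(61,1)],
[(13,0),(14,4),(36,1),(36,3),(63,1),(64,3)],
[(13,0),(17,0),(28,3),(33,2),(66,4),(74,3)],
[(13,0),(18,0),(34,4),(32,1),(39,2),(37,3)],
[(13,0),(19,0),(28,2),(33,3),(65,1),(72,2)],
[(13,0),(16,2),(29,1),(48,1),(57,1),(71,0)],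
[(13,0),(17,2),(23,4),(30,1),(37,4),(46,4)],
[(13,0),(17,4),(20,0),(51,0),(61,3),(69,0)],
[(13,0),(19,4),(26,2),(32,4),(38,1),(57,2)],
[(13,0),(15,4),(16,1),(38,0),(58,0),(68,0)],
[(13,0),(19,1),(21,0),(50,0),(60,2),(67,0)],
[(13,0),(17,1),(25,3),(34,1),(38,4),(59,3)],
[(13,0),(19,3),(23,1),(31,4),(39,1),(45,1)],
[(13,0),(15,3),(27,4),(48,4),(59,4),(70,0)],
[(13,0),(22,0),(27,3),(42,2),(56,2),(64,1)],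
[(13,0),(23,0),(29,4),(27,1),(49,2),(47,3)],
[(13,0),(24,0),(29,2),(44,3),(55,3),(62,4)],
[(13,0),(21,2),(31,1),(40,1),(52,1),(58,2)],
[(13,0),(24,4),(25,0),(41,2),(49,3),(50,2)],
[(13,0),(22,1),(26,0),(40,3),(47,2),(51,3)],
[(13,0),(20,3),(30,4),(41,4),(54,4),(58,3)],
[(13,0),(27,0),(47,1),(58,4),(64,4),(65,4)],
[(13,0),(29,0),(49,4),(58,1),(62,1),(66,1)],
[(13,0),(25,2),(30,0),(53,3),(64,2),(70,1)],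
[(13,0),(26,3),(31,0),(53,2),(62,3),(71,4)],
[(13,0),(33,0),(43,0),(63,0),(68,4),(68,1)],
[(14,0),(15,0),(29,2),(34,3),(66,1),(73,2)],
[(14,0),(18,0),(29,3),(34,2),(67,4),(70,3)],
[(14,0),(19,0),(30,4),(33,1),(35,2),(38,3)],
[(14,0),(17,2),(25,1),(49,1),(58,1),(72,0)],
[(14,0),(18,2),(24,4),(31,1),(38,4),(47,4)],
[(14,0),(18,4),(21,0),(52,0),(62,3),(65,0)],
[(14,0),(15,4),(27,2),(33,4),(39,1),(58,2)],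
[(14,0),(16,4),(17,1),(39,0),(59,0),(69,0)],
[(14,0),(18,1),(26,3),(30,1),(39,4),(55,3)],
[(14,0),(15,1),(22,0),(51,0),(61,2),(68,0)],
[(14,0),(15,3),(24,1),(32,4),(35,1),(46,1)],
[(14,0),(16,3),(28,4),(49,4),(55,4),(71,0)],
[(14,0),(20,0),(25,2),(40,3),(56,3),(63,4)],
[(14,0),(23,0),(28,3),(43,2),(57,2),(60,1)],
[(14,0),(24,0),(25,4),(28,1),(45,2),(48,3)],
[(14,0),(22,2),(32,1),(41,1),(53,1),(59,2)],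
[(14,0),(20,4),(26,0),(42,2),(45,3),(51,2)],
[(14,0),(23,1),(27,0),(41,3),(48,2),(52,3)],
[(14,0),(21,3),(31,4),(42,4),(50,4),(59,3)],
[(14,0),(25,0),(45,4),(59,1),(63,1),(67,1)],
[(14,0),(28,0),(48,1),(59,4),(60,4),(66,4)],
[(14,0),(26,2),(31,0),(54,3),(60,2),(71,1)],
[(14,0),(27,3),(32,0),(54,2),(63,3),(72,4)],
[(14,0),(34,0),(44,0),(64,0),(69,4),(69,1)],
[(15,0),(17,0),(63,2),(64,3),(68,0),(69,0)],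
[(15,0),(18,0),(61,2),(62,3),(66,0),(67,0)],
[(15,0),(18,2),(28,0),(25,2),(46,0),(47,2)],
[(15,0),(15,2),(23,0),(22,2),(59,4),(56,3)],
[(15,0),(15,4),(24,0),(21,4),(50,2),(65,2)],
[(15,0),(16,4),(43,1),(43,3),(65,1),(66,3)],
[(15,0),(19,1),(42,2),(42,4),(69,2),(65,4)],
[(15,0),(17,3),(27,0),(25,3),(49,0),(48,3)],
[(15,0),(20,0),(30,0),(48,2),(47,3),(55,0)],
[(15,0),(23,2),(28,1),(34,2),(37,0),(54,3)],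
[(15,0),(24,4),(36,1),(44,0),(52,3),(55,4)],
[(15,0),(21,1),(39,4),(41,0),(53,2),(55,1)],
[(15,0),(22,3),(27,4),(31,3),(38,0),(51,2)],
[(15,0),(25,0),(45,0),(50,4),(50,1),(65,0)],
[(15,0),(31,0),(36,4),(53,1),(69,1),(70,1)]]

def P376x7 : List (List (ℕ × ℕ)) := [
[(15,0),(34,0),(39,1),(52,4),(66,4),(70,4)],
[(15,0),(32,2),(47,0),(55,3),(62,1),(66,2)],
[(15,0),(33,3),(48,0),(55,2),(63,4),(69,3)],
[(16,0),(18,0),(64,2),(60,3),(65,0),(69,0)],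
[(16,0),(19,0),(62,2),(63,3),(67,0),(68,0)],
[(16,0),(16,2),(24,0),(23,2),(55,4),(57,3)],
[(16,0),(19,2),(29,0),(26,2),(47,0),(48,2)],
[(16,0),(17,4),(44,1),(44,3),(66,1),(67,3)],
[(16,0),(16,4),(20,0),(22,4),(51,2),(66,2)],
[(16,0),(18,3),(28,0),(26,3),(45,0),(49,3)],
[(16,0),(21,0),(31,0),(49,2),(48,3),(56,0)],
[(16,0),(24,2),(29,1),(30,2),(38,0),(50,3)],
[(16,0),(20,4),(37,1),(40,0),(53,3),(56,4)],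
[(16,0),(22,1),(35,4),(42,0),(54,2),(56,1)],
[(16,0),(23,3),(28,4),(32,3),(39,0),(52,2)],
[(16,0),(26,0),(46,0),(51,4),(51,1),(66,0)],
[(16,0),(30,0),(35,1),(53,4),(67,4),(71,4)],
[(16,0),(32,0),(37,4),(54,1),(65,1),(71,1)],
[(16,0),(33,2),(48,0),(56,3),(63,1),(67,2)],
[(16,0),(34,3),(49,0),(56,2),(64,4),(65,3)],
[(17,0),(19,0),(60,2),(61,3),(65,0),(66,0)],
[(17,0),(17,2),(20,0),(24,2),(56,4),(58,3)],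
[(17,0),(17,4),(21,0),(23,4),(52,2),(67,2)],
[(17,0),(18,4),(40,1),(40,3),(67,1),(68,3)],
[(17,0),(19,3),(29,0),(27,3),(46,0),(45,3)],
[(17,0),(22,0),(32,0),(45,2),(49,3),(57,0)],
[(17,0),(20,2),(25,1),(31,2),(39,0),(51,3)],
[(17,0),(21,4),(38,1),(41,0),(54,3),(57,4)],
[(17,0),(23,1),(36,4),(43,0),(50,2),(57,1)],
[(17,0),(24,3),(29,4),(33,3),(35,0),(53,2)],
[(17,0),(27,0),(47,0),(52,4),(52,1),(67,0)],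
[(17,0),(31,0),(36,1),(54,4),(68,4),(72,4)],
[(17,0),(33,0),(38,4),(50,1),(66,1),(72,1)],
[(17,0),(34,2),(49,0),(57,3),(64,1),(68,2)],
[(17,0),(30,3),(45,0),(57,2),(60,4),(66,3)],
[(18,0),(18,2),(21,0),(20,2),(57,4),(59,3)],
[(18,0),(18,4),(22,0),(24,4),(53,2),(68,2)],
[(18,0),(19,4),(41,1),(41,3),(68,1),(69,3)],
[(18,0),(23,0),(33,0),(46,2),(45,3),(58,0)],
[(18,0),(21,2),(26,1),(32,2),(35,0),(52,3)],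
[(18,0),(22,4),(39,1),(42,0),(50,3),(58,4)],
[(18,0),(24,1),(37,4),(44,0),(51,2),(58,1)],
[(18,0),(20,3),(25,4),(34,3),(36,0),(54,2)],
[(18,0),(28,0),(48,0),(53,4),(53,1),(68,0)],
[(18,0),(32,0),(37,1),(50,4),(69,4),(73,4)],
[(18,0),(34,0),(39,4),(51,1),(67,1),(73,1)],
[(18,0),(30,2),(45,0),(58,3),(60,1),(69,2)],
[(18,0),(31,3),(46,0),(58,2),(61,4),(67,3)],
[(19,0),(19,2),(22,0),(21,2),(58,4),(55,3)],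
[(19,0),(19,4),(23,0),(20,4),(54,2),(69,2)],
[(19,0),(24,0),(34,0),(47,2),(46,3),(59,0)],
[(19,0),(22,2),(27,1),(33,2),(36,0),(53,3)],
[(19,0),(23,4),(35,1),(43,0),(51,3),(59,4)],
[(19,0),(20,1),(38,4),(40,0),(52,2),(59,1)],
[(19,0),(21,3),(26,4),(30,3),(37,0),(50,2)],
[(19,0),(29,0),(49,0),(54,4),(54,1),(69,0)],
[(19,0),(30,0),(35,4),(52,1),(68,1),(74,1)],
[(19,0),(33,0),(38,1),(51,4),(65,4),(74,4)],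
[(19,0),(31,2),(46,0),(59,3),(61,1),(65,2)],
[(19,0),(32,3),(47,0),(59,2),(62,4),(68,3)],
[(20,0),(22,0),(58,2),(59,3),(73,0),(74,0)],
[(20,0),(23,0),(56,2),(57,3),(71,0),(72,0)],
[(20,0),(23,2),(26,0),(27,2),(38,0),(35,2)],
[(20,0),(21,4),(48,1),(48,3),(70,1),(71,3)],
[(20,0),(24,1),(47,2),(47,4),(74,2),(70,4)],
[(20,0),(22,3),(29,0),(28,3),(37,0),(35,3)],
[(20,0),(25,0),(35,0),(60,4),(60,1),(70,0)],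
[(20,0),(27,0),(42,2),(57,1),(65,3),(71,2)],
[(20,0),(28,0),(43,3),(58,4),(65,2),(74,3)],
[(20,0),(31,4),(41,0),(50,1),(63,1),(74,1)],
[(20,0),(34,1),(44,0),(50,4),(62,4),(71,4)],
[(21,0),(23,0),(59,2),(55,3),(70,0),(74,0)],
[(21,0),(24,0),(57,2),(58,3),(72,0),(73,0)],
[(21,0),(24,2),(27,0),(28,2),(39,0),(36,2)],
[(21,0),(22,4),(49,1),(49,3),(71,1),(72,3)],
[(21,0),(23,3),(25,0),(29,3),(38,0),(36,3)],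
[(21,0),(26,0),(36,0),(61,4),(61,1),(71,0)],
[(21,0),(28,0),(43,2),(58,1),(66,3),(72,2)],
[(21,0),(29,0),(44,3),(59,4),(66,2),(70,3)],
[(21,0),(32,4),(42,0),(51,1),(64,1),(70,1)],
[(21,0),(30,1),(40,0),(51,4),(63,4),(72,4)],
[(22,0),(24,0),(55,2),(56,3),(70,0),(71,0)],
[(22,0),(23,4),(45,1),(45,3),(72,1),(73,3)],
[(22,0),(24,3),(26,0),(25,3),(39,0),(37,3)],
[(22,0),(25,0),(40,3),(55,4),(67,2),(71,3)],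
[(22,0),(27,0),(37,0),(62,4),(62,1),(72,0)],
[(22,0),(29,0),(44,2),(59,1),(67,3),(73,2)],
[(22,0),(33,4),(43,0),(52,1),(60,1),(71,1)],
[(22,0),(31,1),(41,0),(52,4),(64,4),(73,4)],
[(23,0),(24,4),(46,1),(46,3),(73,1),(74,3)],
[(23,0),(25,0),(40,2),(55,1),(68,3),(74,2)],
[(23,0),(26,0),(41,3),(56,4),(68,2),(72,3)],
[(23,0),(28,0),(38,0),(63,4),(63,1),(73,0)],
[(23,0),(34,4),(44,0),(53,1),(61,1),(72,1)],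
[(23,0),(32,1),(42,0),(53,4),(60,4),(74,4)],
[(24,0),(26,0),(41,2),(56,1),(69,3),(70,2)],
[(24,0),(27,0),(42,3),(57,4),(69,2),(73,3)],
[(24,0),(29,0),(39,0),(64,4),(64,1),(74,0)],
[(24,0),(30,4),(40,0),(54,1),(62,1),(73,1)],
[(24,0),(33,1),(43,0),(54,4),(61,4),(70,4)]]

def P376x8 : List (List (ℕ × ℕ)) := [
[(25,0),(28,4),(32,0),(31,4),(58,1),(55,3)],
[(25,0),(29,4),(43,0),(41,4),(51,1),(53,3)],
[(25,0),(25,4),(56,2),(59,2),(62,0),(63,4)],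
[(25,0),(26,1),(42,0),(44,1),(52,2),(54,4)],
[(25,0),(27,1),(33,0),(34,1),(55,2),(57,4)],
[(25,0),(30,0),(51,4),(54,1),(60,2),(60,3)],
[(25,0),(32,2),(43,1),(51,0),(61,1),(69,4)],
[(25,0),(32,4),(49,1),(51,3),(58,4),(68,0)],
[(25,0),(33,1),(46,4),(54,2),(57,1),(67,0)],
[(25,0),(33,3),(42,4),(54,0),(64,4),(66,1)],
[(25,0),(36,4),(43,3),(62,2),(69,3),(74,4)],
[(25,0),(39,1),(42,2),(63,3),(66,2),(71,1)],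
[(25,0),(40,0),(66,4),(69,1),(70,2),(70,3)],
[(26,0),(29,4),(33,0),(32,4),(59,1),(56,3)],
[(26,0),(26,4),(57,2),(55,2),(63,0),(64,4)],
[(26,0),(28,1),(34,0),(30,1),(56,2),(58,4)],
[(26,0),(27,1),(43,0),(40,1),(53,2),(50,4)],
[(26,0),(31,0),(52,4),(50,1),(61,2),(61,3)],
[(26,0),(33,2),(44,1),(52,0),(62,1),(65,4)],
[(26,0),(33,4),(45,1),(52,3),(59,4),(69,0)],
[(26,0),(34,1),(47,4),(50,2),(58,1),(68,0)],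
[(26,0),(34,3),(43,4),(50,0),(60,4),(67,1)],
[(26,0),(37,4),(44,3),(63,2),(65,3),(70,4)],
[(26,0),(35,1),(43,2),(64,3),(67,2),(72,1)],
[(26,0),(41,0),(67,4),(65,1),(71,2),(71,3)],
[(27,0),(27,4),(56,2),(58,2),(64,0),(60,4)],
[(27,0),(28,1),(44,0),(41,1),(54,2),(51,4)],
[(27,0),(29,1),(30,0),(31,1),(57,2),(59,4)],
[(27,0),(32,0),(53,4),(51,1),(62,2),(62,3)],
[(27,0),(34,2),(40,1),(53,0),(63,1),(66,4)],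
[(27,0),(34,4),(46,1),(53,3),(55,4),(65,0)],
[(27,0),(30,1),(48,4),(51,2),(59,1),(69,0)],
[(27,0),(30,3),(44,4),(51,0),(61,4),(68,1)],
[(27,0),(38,4),(40,3),(64,2),(66,3),(71,4)],
[(27,0),(36,1),(44,2),(60,3),(68,2),(73,1)],
[(27,0),(42,0),(68,4),(66,1),(72,2),(72,3)],
[(28,0),(28,4),(57,2),(59,2),(60,0),(61,4)],
[(28,0),(29,1),(40,0),(42,1),(50,2),(52,4)],
[(28,0),(33,0),(54,4),(52,1),(63,2),(63,3)],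
[(28,0),(30,2),(41,1),(54,0),(64,1),(67,4)],
[(28,0),(30,4),(47,1),(54,3),(56,4),(66,0)],
[(28,0),(31,1),(49,4),(52,2),(55,1),(65,0)],
[(28,0),(31,3),(40,4),(52,0),(62,4),(69,1)],
[(28,0),(39,4),(41,3),(60,2),(67,3),(72,4)],
[(28,0),(37,1),(40,2),(61,3),(69,2),(74,1)],
[(28,0),(43,0),(69,4),(67,1),(73,2),(73,3)],
[(29,0),(29,4),(58,2),(55,2),(61,0),(62,4)],
[(29,0),(34,0),(50,4),(53,1),(64,2),(64,3)],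
[(29,0),(31,2),(42,1),(50,0),(60,1),(68,4)],
[(29,0),(31,4),(48,1),(50,3),(57,4),(67,0)],
[(29,0),(32,1),(45,4),(53,2),(56,1),(66,0)],
[(29,0),(32,3),(41,4),(53,0),(63,4),(65,1)],
[(29,0),(35,4),(42,3),(61,2),(68,3),(73,4)],
[(29,0),(38,1),(41,2),(62,3),(65,2),(70,1)],
[(29,0),(44,0),(65,4),(68,1),(74,2),(74,3)],
[(30,0),(33,4),(47,0),(46,4),(73,1),(70,3)],
[(30,0),(30,4),(67,0),(68,4),(71,2),(74,2)],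
[(30,0),(32,1),(48,0),(49,1),(70,2),(72,4)],
[(30,0),(36,4),(48,1),(52,0),(59,2),(72,1)],
[(30,0),(39,1),(47,4),(53,0),(56,3),(73,4)],
[(30,0),(45,0),(56,4),(59,1),(65,2),(65,3)],
[(31,0),(34,4),(48,0),(47,4),(74,1),(71,3)],
[(31,0),(31,4),(68,0),(69,4),(72,2),(70,2)],
[(31,0),(33,1),(49,0),(45,1),(71,2),(73,4)],
[(31,0),(37,4),(49,1),(53,0),(55,2),(73,1)],
[(31,0),(35,1),(48,4),(54,0),(57,3),(74,4)],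
[(31,0),(46,0),(57,4),(55,1),(66,2),(66,3)],
[(32,0),(32,4),(69,0),(65,4),(71,2),(73,2)],
[(32,0),(34,1),(45,0),(46,1),(72,2),(74,4)],
[(32,0),(38,4),(45,1),(54,0),(56,2),(74,1)],
[(32,0),(36,1),(49,4),(50,0),(58,3),(70,4)],
[(32,0),(47,0),(58,4),(56,1),(67,2),(67,3)],
[(33,0),(33,4),(65,0),(66,4),(72,2),(74,2)],
[(33,0),(39,4),(46,1),(50,0),(57,2),(70,1)],
[(33,0),(37,1),(45,4),(51,0),(59,3),(71,4)],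
[(33,0),(48,0),(59,4),(57,1),(68,2),(68,3)],
[(34,0),(34,4),(66,0),(67,4),(73,2),(70,2)],
[(34,0),(35,4),(47,1),(51,0),(58,2),(71,1)],
[(34,0),(38,1),(46,4),(52,0),(55,3),(72,4)],
[(34,0),(49,0),(55,4),(58,1),(69,2),(69,3)],
[(35,0),(38,4),(42,0),(41,4),(68,1),(65,3)],
[(35,0),(39,4),(48,0),(46,4),(61,1),(63,3)],
[(35,0),(35,4),(57,0),(58,4),(66,2),(69,2)],
[(35,0),(36,1),(47,0),(49,1),(62,2),(64,4)],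
[(35,0),(37,1),(43,0),(44,1),(65,2),(67,4)],
[(35,0),(40,0),(55,2),(55,3),(61,4),(64,1)],
[(35,0),(42,2),(48,1),(56,1),(61,0),(74,4)],
[(35,0),(43,3),(47,4),(59,4),(64,0),(71,1)],
[(35,0),(45,0),(50,2),(50,3),(71,4),(74,1)],
[(36,0),(39,4),(43,0),(42,4),(69,1),(66,3)],
[(36,0),(36,4),(58,0),(59,4),(67,2),(65,2)],
[(36,0),(38,1),(44,0),(40,1),(66,2),(68,4)],
[(36,0),(37,1),(48,0),(45,1),(63,2),(60,4)],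
[(36,0),(41,0),(56,2),(56,3),(62,4),(60,1)],
[(36,0),(43,2),(49,1),(57,1),(62,0),(70,4)],
[(36,0),(44,3),(48,4),(55,4),(60,0),(72,1)],
[(36,0),(46,0),(51,2),(51,3),(72,4),(70,1)],
[(37,0),(37,4),(59,0),(55,4),(66,2),(68,2)],
[(37,0),(38,1),(49,0),(46,1),(64,2),(61,4)],
[(37,0),(39,1),(40,0),(41,1),(67,2),(69,4)]]

def P376x9 : List (List (ℕ × ℕ)) := [
[(37,0),(42,0),(57,2),(57,3),(63,4),(61,1)],
[(37,0),(44,2),(45,1),(58,1),(63,0),(71,4)],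
[(37,0),(40,3),(49,4),(56,4),(61,0),(73,1)],
[(37,0),(47,0),(52,2),(52,3),(73,4),(71,1)],
[(38,0),(38,4),(55,0),(56,4),(67,2),(69,2)],
[(38,0),(39,1),(45,0),(47,1),(60,2),(62,4)],
[(38,0),(43,0),(58,2),(58,3),(64,4),(62,1)],
[(38,0),(40,2),(46,1),(59,1),(64,0),(72,4)],
[(38,0),(41,3),(45,4),(57,4),(62,0),(74,1)],
[(38,0),(48,0),(53,2),(53,3),(74,4),(72,1)],
[(39,0),(39,4),(56,0),(57,4),(68,2),(65,2)],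
[(39,0),(44,0),(59,2),(59,3),(60,4),(63,1)],
[(39,0),(41,2),(47,1),(55,1),(60,0),(73,4)],
[(39,0),(42,3),(46,4),(58,4),(63,0),(70,1)],
[(39,0),(49,0),(54,2),(54,3),(70,4),(73,1)],
[(40,0),(40,4),(51,2),(54,2),(72,0),(73,4)],
[(41,0),(41,4),(52,2),(50,2),(73,0),(74,4)],
[(42,0),(42,4),(51,2),(53,2),(74,0),(70,4)],
[(43,0),(43,4),(52,2),(54,2),(70,0),(71,4)],
[(44,0),(44,4),(53,2),(50,2),(71,0),(72,4)],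
[(45,0),(45,4),(52,0),(53,4),(61,2),(64,2)],
[(46,0),(46,4),(53,0),(54,4),(62,2),(60,2)],
[(47,0),(47,4),(54,0),(50,4),(61,2),(63,2)],
[(48,0),(48,4),(50,0),(51,4),(62,2),(64,2)],
[(49,0),(49,4),(51,0),(52,4),(63,2),(60,2)]]

def Q376x0 : List (ℕ × List (ℕ × ℕ)) := [
(0,[(0,0),(2,2),(4,4),(1,1),(3,3)]),
(0,[(5,0),(7,2),(9,4),(6,1),(8,3)]),
(0,[(10,0),(12,2),(14,4),(11,1),(13,3)]),
(0,[(15,0),(17,2),(19,4),(16,1),(18,3)]),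
(0,[(20,0),(22,2),(24,4),(21,1),(23,3)]),
(0,[(25,0),(26,0),(27,0),(28,0),(29,0)]),
(0,[(30,0),(31,0),(32,0),(33,0),(34,0)]),
(0,[(35,0),(36,0),(37,0),(38,0),(39,0)]),
(0,[(40,0),(41,0),(42,0),(43,0),(44,0)]),
(0,[(45,0),(46,0),(47,0),(48,0),(49,0)]),
(0,[(50,0),(54,2),(53,4),(52,1),(51,3)]),
(0,[(55,0),(59,2),(58,4),(57,1),(56,3)]),
(0,[(60,0),(64,2),(63,4),(62,1),(61,3)]),
(0,[(65,0),(69,2),(68,4),(67,1),(66,3)]),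
(0,[(70,0),(74,2),(73,4),(72,1),(71,3)])]

theorem s376 : StOn (Fin 376) 6 :=
  st_of_chkH 1 75 1 1 5 6 (st_one _) (P376x0 ++ P376x1 ++ P376x2 ++ P376x3 ++ P376x4 ++ P376x5 ++ P376x6 ++ P376x7 ++ P376x8 ++ P376x9)
    (Q376x0) (by decide +kernel)

end H9St
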