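import Mathlib
import Pool.Agent.H9.StHole

namespace H9St

set_option maxRecDepth 100000

def P406x0 : List (List (ℕ × ℕ)) := [
[(0,0),(0,8),(10,0),(22,5),(30,0),(40,7)],
[(0,0),(1,0),(17,5),(19,8),(20,6),(26,8)],
[(0,0),(1,8),(2,4),(21,0),(22,8),(23,4)],
[(0,0),(1,4),(17,3),(16,6),(21,5),(25,2)],
[(0,0),(2,0),(16,5),(18,8),(19,6),(25,8)],
[(0,0),(2,8),(16,2),(15,5),(23,1),(24,7)],
[(0,0),(0,7),(2,1),(28,1),(32,8),(41,7)],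
[(0,0),(0,3),(12,1),(15,2),(18,0),(19,3)],
[(0,0),(0,2),(6,6),(25,4),(37,5),(42,0)],
[(0,0),(1,7),(7,8),(12,3),(15,3),(34,5)],
[(0,0),(1,3),(18,2),(18,1),(36,0),(41,8)],
[(0,0),(1,2),(1,6),(29,0),(30,7),(39,6)],
[(0,0),(2,7),(11,0),(23,6),(33,6),(43,0)],
[(0,0),(2,2),(6,2),(11,6),(24,5),(26,5)],
[(0,0),(1,5),(9,5),(21,2),(34,2),(44,5)],
[(0,0),(1,1),(7,0),(9,7),(24,3),(25,3)],
[(0,0),(2,5),(6,1),(14,8),(17,8),(33,7)],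
[(0,0),(2,6),(20,8),(20,7),(38,6),(40,5)],
[(0,0),(3,0),(9,6),(12,8),(14,1),(35,7)],
[(0,0),(3,8),(6,4),(10,2),(13,7),(16,3)],
[(0,0),(3,4),(16,0),(17,4),(29,8),(32,2)],
[(0,0),(4,0),(26,0),(26,3),(28,8),(35,0)],
[(0,0),(4,8),(8,4),(38,4),(39,0),(43,8)],
[(0,0),(4,4),(8,8),(9,1),(13,5),(17,6)],
[(0,0),(5,0),(3,1),(14,7),(18,3),(20,3)],
[(0,0),(5,8),(27,0),(33,3),(37,2),(38,1)],
[(0,0),(5,4),(3,2),(11,7),(17,7),(27,6)],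
[(0,0),(3,7),(13,4),(20,5),(33,0),(38,2)],
[(0,0),(3,3),(3,5),(19,7),(36,3),(40,8)],
[(0,0),(4,7),(31,8),(31,3),(30,6),(38,0)],
[(0,0),(4,3),(8,6),(27,2),(31,5),(35,8)],
[(0,0),(4,2),(29,5),(32,6),(42,8),(43,6)],
[(0,0),(5,7),(15,1),(21,8),(31,1),(39,3)],
[(0,0),(5,3),(10,5),(13,6),(38,7),(39,4)],
[(0,0),(5,2),(24,1),(26,6),(29,4),(30,3)],
[(0,0),(3,6),(12,0),(12,6),(28,5),(35,1)],
[(0,0),(4,5),(24,0),(40,1),(43,4),(43,3)],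
[(0,0),(4,1),(8,2),(37,0),(41,1),(42,2)],
[(0,0),(4,6),(23,2),(26,1),(36,5),(40,4)],
[(0,0),(5,5),(13,1),(16,7),(43,7),(44,1)],
[(0,0),(5,1),(7,2),(28,0),(30,1),(35,2)],
[(0,0),(5,6),(7,3),(20,1),(22,7),(24,4)],
[(0,0),(6,0),(9,8),(11,1),(15,6),(32,7)],
[(0,0),(6,8),(13,8),(14,0),(29,7),(35,4)],
[(0,0),(7,4),(31,7),(34,4),(44,3),(42,5)],
[(0,0),(8,0),(22,0),(22,3),(31,0),(33,8)],
[(0,0),(6,3),(9,0),(9,3),(32,4),(34,8)],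
[(0,0),(7,7),(11,8),(14,5),(39,8),(41,5)],
[(0,0),(8,7),(23,7),(36,8),(39,2),(39,1)],
[(0,0),(8,3),(19,5),(22,4),(36,7),(44,8)],
[(0,0),(6,5),(10,6),(26,7),(30,5),(44,4)],
[(0,0),(7,5),(13,3),(19,1),(29,3),(37,8)],
[(0,0),(7,1),(21,7),(22,2),(28,4),(33,5)],
[(0,0),(7,6),(11,3),(17,2),(37,1),(42,4)],
[(0,0),(8,5),(27,8),(29,2),(27,1),(43,5)],
[(0,0),(8,1),(28,7),(34,3),(39,7),(41,6)],
[(0,0),(9,4),(20,4),(25,1),(27,5),(36,2)],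
[(0,0),(10,8),(25,6),(27,7),(31,4),(38,5)],
[(0,0),(11,4),(23,3),(31,2),(32,5),(37,7)],
[(0,0),(9,2),(13,2),(38,8),(38,3),(42,3)],
[(0,0),(10,7),(14,6),(22,1),(34,0),(41,2)],
[(0,0),(10,3),(10,1),(17,1),(37,4),(41,4)],
[(0,0),(11,2),(13,0),(20,0),(28,6),(36,6)],
[(0,0),(11,5),(18,4),(28,2),(41,3),(44,2)],
[(0,0),(12,4),(17,0),(26,2),(32,0),(43,1)],
[(0,0),(14,4),(25,0),(34,1),(35,6),(36,4)],
[(0,0),(12,2),(23,5),(24,6),(29,6),(44,7)],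
[(0,0),(14,3),(15,4),(24,2),(27,4),(39,5)],
[(0,0),(14,2),(18,5),(30,8),(42,7),(43,2)],
[(0,0),(12,5),(23,0),(26,4),(34,6),(40,3)],
[(0,0),(15,0),(21,6),(30,2),(34,7),(42,6)],
[(0,0),(16,4),(20,2),(35,5),(37,6),(44,0)],
[(0,0),(15,7),(19,4),(25,7),(32,3),(44,6)],
[(0,0),(16,1),(18,7),(33,4),(40,0),(40,6)],
[(0,0),(19,2),(21,4),(27,3),(35,3),(33,1)],
[(0,0),(23,8),(21,3),(24,8),(31,6),(33,2)],
[(1,0),(1,8),(11,0),(23,5),(31,0),(41,7)],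
[(1,0),(2,0),(15,5),(20,8),(18,6),(24,8)],
[(1,0),(2,4),(15,3),(17,6),(22,5),(26,2)],
[(1,0),(1,3),(13,1),(16,2),(19,0),(20,3)],
[(1,0),(1,2),(7,6),(26,4),(38,5),(43,0)],
[(1,0),(2,7),(8,8),(13,3),(16,3),(35,5)],
[(1,0),(2,3),(19,2),(19,1),(37,0),(39,8)],
[(1,0),(2,2),(2,6),(27,0),(31,7),(40,6)],
[(1,0),(2,5),(10,5),(22,2),(35,2),(42,5)],
[(1,0),(2,1),(8,0),(10,7),(25,3),(26,3)],
[(1,0),(3,0),(4,1),(12,7),(18,3),(19,3)],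
[(1,0),(3,8),(28,0),(34,3),(38,2),(36,1)],
[(1,0),(3,4),(4,2),(9,7),(15,7),(28,6)],
[(1,0),(4,0),(10,6),(13,8),(12,1),(33,7)],
[(1,0),(4,8),(7,4),(11,2),(14,7),(17,3)],
[(1,0),(4,4),(15,4),(17,0),(27,8),(30,2)],
[(1,0),(5,0),(24,0),(24,3),(29,8),(33,0)],
[(1,0),(5,8),(6,4),(36,4),(40,0),(44,8)],
[(1,0),(5,4),(6,8),(10,1),(14,5),(15,6)],
[(1,0),(3,7),(16,1),(22,8),(32,1),(40,3)],
[(1,0),(3,3),(11,5),(14,6),(36,7),(40,4)],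
[(1,0),(3,2),(24,6),(25,1),(27,4),(31,3)],
[(1,0),(4,7),(14,4),(18,5),(34,0),(36,2)],
[(1,0),(4,3),(4,5),(20,7),(37,3),(41,8)]]

def P406x1 : List (List (ℕ × ℕ)) := [
[(1,0),(5,7),(32,8),(32,3),(31,6),(36,0)],
[(1,0),(5,3),(6,6),(28,2),(32,5),(33,8)],
[(1,0),(5,2),(27,5),(30,6),(43,8),(44,6)],
[(1,0),(3,5),(14,1),(17,7),(44,7),(42,1)],
[(1,0),(3,1),(8,2),(29,0),(31,1),(33,2)],
[(1,0),(3,6),(8,3),(18,1),(23,7),(25,4)],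
[(1,0),(4,6),(13,0),(13,6),(29,5),(33,1)],
[(1,0),(5,5),(25,0),(41,1),(44,4),(44,3)],
[(1,0),(5,1),(6,2),(38,0),(39,1),(43,2)],
[(1,0),(5,6),(21,2),(24,1),(37,5),(41,4)],
[(1,0),(6,0),(23,0),(23,3),(32,0),(34,8)],
[(1,0),(7,0),(10,8),(9,1),(16,6),(30,7)],
[(1,0),(7,8),(12,0),(14,8),(27,7),(33,4)],
[(1,0),(8,4),(32,7),(35,4),(42,3),(43,5)],
[(1,0),(6,7),(21,7),(37,8),(40,2),(40,1)],
[(1,0),(6,3),(20,5),(23,4),(37,7),(42,8)],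
[(1,0),(7,3),(10,0),(10,3),(30,4),(35,8)],
[(1,0),(8,7),(9,8),(12,5),(40,8),(39,5)],
[(1,0),(6,5),(28,8),(27,2),(28,1),(44,5)],
[(1,0),(6,1),(29,7),(35,3),(40,7),(39,6)],
[(1,0),(7,5),(11,6),(24,7),(31,5),(42,4)],
[(1,0),(8,5),(14,3),(20,1),(27,3),(38,8)],
[(1,0),(8,1),(22,7),(23,2),(29,4),(34,5)],
[(1,0),(8,6),(9,3),(15,2),(38,1),(43,4)],
[(1,0),(9,4),(21,3),(32,2),(30,5),(38,7)],
[(1,0),(10,4),(18,4),(26,1),(28,5),(37,2)],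
[(1,0),(11,8),(26,6),(28,7),(32,4),(36,5)],
[(1,0),(9,2),(14,0),(18,0),(29,6),(37,6)],
[(1,0),(10,2),(14,2),(36,8),(36,3),(43,3)],
[(1,0),(11,7),(12,6),(23,1),(35,0),(39,2)],
[(1,0),(11,3),(11,1),(15,1),(38,4),(39,4)],
[(1,0),(9,5),(19,4),(29,2),(39,3),(42,2)],
[(1,0),(12,4),(26,0),(33,6),(35,1),(37,4)],
[(1,0),(13,4),(15,0),(24,2),(30,0),(44,1)],
[(1,0),(12,3),(16,4),(25,2),(28,4),(40,5)],
[(1,0),(12,2),(19,5),(31,8),(43,7),(44,2)],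
[(1,0),(13,2),(21,5),(25,6),(27,6),(42,7)],
[(1,0),(13,5),(21,0),(24,4),(35,6),(41,3)],
[(1,0),(16,0),(22,6),(31,2),(35,7),(43,6)],
[(1,0),(17,4),(18,2),(33,5),(38,6),(42,0)],
[(1,0),(16,7),(20,4),(26,7),(30,3),(42,6)],
[(1,0),(17,1),(19,7),(34,4),(41,0),(41,6)],
[(1,0),(20,2),(22,4),(28,3),(33,3),(34,1)],
[(1,0),(21,8),(22,3),(25,8),(32,6),(34,2)],
[(2,0),(2,8),(9,0),(21,5),(32,0),(39,7)],
[(2,0),(2,3),(14,1),(17,2),(20,0),(18,3)],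
[(2,0),(2,2),(8,6),(24,4),(36,5),(44,0)],
[(2,0),(3,0),(25,0),(25,3),(27,8),(34,0)],
[(2,0),(3,8),(7,4),(37,4),(41,0),(42,8)],
[(2,0),(3,4),(7,8),(11,1),(12,5),(16,6)],
[(2,0),(4,0),(5,1),(13,7),(19,3),(20,3)],
[(2,0),(4,8),(29,0),(35,3),(36,2),(37,1)],
[(2,0),(4,4),(5,2),(10,7),(16,7),(29,6)],
[(2,0),(5,0),(11,6),(14,8),(13,1),(34,7)],
[(2,0),(5,8),(8,4),(9,2),(12,7),(15,3)],
[(2,0),(5,4),(15,0),(16,4),(28,8),(31,2)],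
[(2,0),(3,7),(30,8),(30,3),(32,6),(37,0)],
[(2,0),(3,3),(7,6),(29,2),(30,5),(34,8)],
[(2,0),(3,2),(28,5),(31,6),(44,8),(42,6)],
[(2,0),(4,7),(17,1),(23,8),(30,1),(41,3)],
[(2,0),(4,3),(9,5),(12,6),(37,7),(41,4)],
[(2,0),(4,2),(25,6),(26,1),(28,4),(32,3)],
[(2,0),(5,7),(12,4),(19,5),(35,0),(37,2)],
[(2,0),(5,3),(5,5),(18,7),(38,3),(39,8)],
[(2,0),(3,5),(26,0),(39,1),(42,4),(42,3)],
[(2,0),(3,1),(7,2),(36,0),(40,1),(44,2)],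
[(2,0),(3,6),(22,2),(25,1),(38,5),(39,4)],
[(2,0),(4,5),(12,1),(15,7),(42,7),(43,1)],
[(2,0),(4,1),(6,2),(27,0),(32,1),(34,2)],
[(2,0),(4,6),(6,3),(19,1),(21,7),(26,4)],
[(2,0),(5,6),(14,0),(14,6),(27,5),(34,1)],
[(2,0),(6,4),(30,7),(33,4),(43,3),(44,5)],
[(2,0),(7,0),(21,0),(21,3),(30,0),(35,8)],
[(2,0),(8,0),(11,8),(10,1),(17,6),(31,7)],
[(2,0),(8,8),(12,8),(13,0),(28,7),(34,4)],
[(2,0),(6,7),(10,8),(13,5),(41,8),(40,5)],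
[(2,0),(7,7),(22,7),(38,8),(41,2),(41,1)],
[(2,0),(7,3),(18,5),(21,4),(38,7),(43,8)],
[(2,0),(8,3),(11,0),(11,3),(31,4),(33,8)],
[(2,0),(6,5),(12,3),(18,1),(28,3),(36,8)],
[(2,0),(6,1),(21,2),(23,7),(27,4),(35,5)],
[(2,0),(6,6),(10,3),(16,2),(36,1),(44,4)],
[(2,0),(7,5),(29,8),(28,2),(29,1),(42,5)],
[(2,0),(7,1),(27,7),(33,3),(41,7),(40,6)],
[(2,0),(8,5),(9,6),(25,7),(32,5),(43,4)],
[(2,0),(9,8),(24,6),(29,7),(30,4),(37,5)],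
[(2,0),(10,4),(22,3),(30,2),(31,5),(36,7)],
[(2,0),(11,4),(19,4),(24,1),(29,5),(38,2)],
[(2,0),(9,7),(13,6),(21,1),(33,0),(40,2)],
[(2,0),(9,3),(9,1),(16,1),(36,4),(40,4)],
[(2,0),(10,2),(12,0),(19,0),(27,6),(38,6)],
[(2,0),(11,2),(12,2),(37,8),(37,3),(44,3)],
[(2,0),(10,5),(20,4),(27,2),(40,3),(43,2)],
[(2,0),(13,4),(24,0),(33,1),(34,6),(38,4)],
[(2,0),(14,4),(16,0),(25,2),(31,0),(42,1)],
[(2,0),(13,3),(17,4),(26,2),(29,4),(41,5)],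
[(2,0),(13,2),(20,5),(32,8),(42,2),(44,7)],
[(2,0),(14,2),(22,5),(26,6),(28,6),(43,7)],
[(2,0),(14,5),(22,0),(25,4),(33,6),(39,3)],
[(2,0),(15,4),(19,2),(34,5),(36,6),(43,0)]]

def P406x2 : List (List (ℕ × ℕ)) := [
[(2,0),(17,0),(23,6),(32,2),(33,7),(44,6)],
[(2,0),(17,7),(18,4),(24,7),(31,3),(43,6)],
[(2,0),(15,1),(20,7),(35,4),(39,0),(39,6)],
[(2,0),(18,2),(23,4),(29,3),(34,3),(35,1)],
[(2,0),(22,8),(23,3),(26,8),(30,6),(35,2)],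
[(3,0),(3,8),(13,0),(25,5),(33,0),(43,7)],
[(3,0),(4,0),(11,5),(20,8),(22,8),(23,6)],
[(3,0),(4,8),(5,4),(24,0),(25,8),(26,4)],
[(3,0),(4,4),(11,3),(10,6),(19,2),(24,5)],
[(3,0),(5,0),(10,5),(19,8),(21,8),(22,6)],
[(3,0),(5,8),(10,2),(9,5),(18,7),(26,1)],
[(3,0),(3,7),(5,1),(31,1),(35,8),(44,7)],
[(3,0),(3,3),(9,2),(15,1),(21,0),(22,3)],
[(3,0),(4,3),(21,2),(21,1),(39,0),(44,8)],
[(3,0),(4,2),(4,6),(32,0),(33,7),(42,6)],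
[(3,0),(5,7),(14,0),(26,6),(27,6),(37,0)],
[(3,0),(4,5),(12,5),(24,2),(28,2),(38,5)],
[(3,0),(5,6),(23,8),(23,7),(41,6),(43,5)],
[(3,0),(6,0),(12,6),(15,8),(17,1),(29,7)],
[(3,0),(6,4),(10,0),(11,4),(32,8),(35,2)],
[(3,0),(7,0),(20,0),(20,3),(29,0),(31,8)],
[(3,0),(8,0),(6,1),(17,7),(21,3),(23,3)],
[(3,0),(8,8),(27,3),(30,0),(40,2),(41,1)],
[(3,0),(8,4),(6,2),(11,7),(14,7),(30,6)],
[(3,0),(6,7),(16,4),(23,5),(27,0),(41,2)],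
[(3,0),(6,3),(6,5),(22,7),(39,3),(43,8)],
[(3,0),(7,7),(34,8),(34,3),(33,6),(41,0)],
[(3,0),(7,2),(32,5),(35,6),(36,8),(37,6)],
[(3,0),(8,7),(9,1),(24,8),(34,1),(42,3)],
[(3,0),(8,3),(13,5),(16,6),(41,7),(42,4)],
[(3,0),(8,2),(18,1),(20,6),(32,4),(33,3)],
[(3,0),(6,6),(15,0),(15,6),(29,1),(31,5)],
[(3,0),(7,5),(18,0),(37,4),(37,3),(43,1)],
[(3,0),(7,6),(20,1),(26,2),(39,5),(43,4)],
[(3,0),(8,5),(10,7),(16,1),(37,7),(38,1)],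
[(3,0),(9,0),(24,6),(28,7),(33,2),(36,6)],
[(3,0),(9,4),(17,3),(18,2),(30,4),(42,5)],
[(3,0),(10,4),(23,2),(29,5),(38,0),(40,6)],
[(3,0),(11,0),(15,4),(20,2),(35,0),(37,1)],
[(3,0),(9,7),(19,7),(22,4),(35,3),(38,6)],
[(3,0),(10,1),(21,7),(27,4),(43,0),(43,6)],
[(3,0),(11,1),(13,3),(13,1),(40,4),(44,4)],
[(3,0),(12,4),(19,1),(23,4),(30,5),(39,2)],
[(3,0),(13,8),(19,6),(30,7),(34,4),(41,5)],
[(3,0),(14,4),(26,3),(34,2),(35,5),(40,7)],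
[(3,0),(12,2),(16,2),(36,3),(41,8),(41,3)],
[(3,0),(13,7),(17,6),(25,1),(28,0),(44,2)],
[(3,0),(14,2),(16,0),(23,0),(31,6),(39,6)],
[(3,0),(14,5),(21,4),(31,2),(38,2),(44,3)],
[(3,0),(17,4),(19,0),(28,1),(29,6),(39,4)],
[(3,0),(15,2),(18,6),(26,5),(32,6),(38,7)],
[(3,0),(17,2),(21,5),(33,8),(36,7),(37,2)],
[(3,0),(15,5),(20,4),(26,0),(28,6),(43,3)],
[(3,0),(18,8),(26,8),(24,3),(27,2),(34,6)],
[(3,0),(22,2),(24,4),(29,3),(27,1),(30,3)],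
[(4,0),(4,8),(14,0),(26,5),(34,0),(44,7)],
[(4,0),(5,0),(9,5),(18,8),(23,8),(21,6)],
[(4,0),(5,4),(9,3),(11,6),(20,2),(25,5)],
[(4,0),(4,3),(10,2),(16,1),(22,0),(23,3)],
[(4,0),(5,3),(22,2),(22,1),(40,0),(42,8)],
[(4,0),(5,2),(5,6),(30,0),(34,7),(43,6)],
[(4,0),(5,5),(13,5),(25,2),(29,2),(36,5)],
[(4,0),(6,0),(7,1),(15,7),(21,3),(22,3)],
[(4,0),(6,8),(28,3),(31,0),(41,2),(39,1)],
[(4,0),(6,4),(7,2),(9,7),(12,7),(31,6)],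
[(4,0),(7,0),(13,6),(16,8),(15,1),(27,7)],
[(4,0),(7,4),(9,4),(11,0),(30,8),(33,2)],
[(4,0),(8,0),(18,0),(18,3),(27,0),(32,8)],
[(4,0),(6,7),(10,1),(25,8),(35,1),(43,3)],
[(4,0),(6,3),(14,5),(17,6),(39,7),(43,4)],
[(4,0),(6,2),(18,6),(19,1),(30,4),(34,3)],
[(4,0),(7,7),(17,4),(21,5),(28,0),(39,2)],
[(4,0),(7,3),(7,5),(23,7),(40,3),(44,8)],
[(4,0),(8,7),(35,8),(35,3),(34,6),(39,0)],
[(4,0),(8,2),(30,5),(33,6),(37,8),(38,6)],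
[(4,0),(6,5),(11,7),(17,1),(38,7),(36,1)],
[(4,0),(7,6),(16,0),(16,6),(27,1),(32,5)],
[(4,0),(8,5),(19,0),(38,4),(38,3),(44,1)],
[(4,0),(8,6),(18,1),(24,2),(40,5),(44,4)],
[(4,0),(9,0),(16,4),(18,2),(33,0),(38,1)],
[(4,0),(10,0),(25,6),(29,7),(34,2),(37,6)],
[(4,0),(10,4),(15,3),(19,2),(31,4),(43,5)],
[(4,0),(11,4),(21,2),(27,5),(36,0),(41,6)],
[(4,0),(10,7),(20,7),(23,4),(33,3),(36,6)],
[(4,0),(9,1),(14,3),(14,1),(41,4),(42,4)],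
[(4,0),(11,1),(22,7),(28,4),(44,0),(44,6)],
[(4,0),(12,4),(24,3),(35,2),(33,5),(41,7)],
[(4,0),(13,4),(20,1),(21,4),(31,5),(40,2)],
[(4,0),(14,8),(20,6),(31,7),(35,4),(39,5)],
[(4,0),(12,2),(17,0),(21,0),(32,6),(40,6)],
[(4,0),(13,2),(17,2),(37,3),(39,8),(39,3)],
[(4,0),(14,7),(15,6),(26,1),(29,0),(42,2)],
[(4,0),(12,5),(22,4),(32,2),(36,2),(42,3)],
[(4,0),(15,4),(20,0),(27,6),(29,1),(40,4)],
[(4,0),(15,2),(22,5),(34,8),(37,7),(38,2)],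
[(4,0),(16,2),(19,6),(24,5),(30,6),(36,7)],
[(4,0),(16,5),(18,4),(24,0),(29,6),(44,3)],
[(4,0),(19,8),(24,8),(25,3),(28,2),(35,6)],
[(4,0),(23,2),(25,4),(27,3),(28,1),(31,3)],
[(5,0),(5,8),(12,0),(24,5),(35,0),(42,7)]]

def P406x3 : List (List (ℕ × ℕ)) := [
[(5,0),(5,3),(11,2),(17,1),(23,0),(21,3)],
[(5,0),(6,0),(19,0),(19,3),(28,0),(30,8)],
[(5,0),(7,0),(8,1),(16,7),(22,3),(23,3)],
[(5,0),(7,8),(29,3),(32,0),(39,2),(40,1)],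
[(5,0),(7,4),(8,2),(10,7),(13,7),(32,6)],
[(5,0),(8,0),(14,6),(17,8),(16,1),(28,7)],
[(5,0),(8,4),(9,0),(10,4),(31,8),(34,2)],
[(5,0),(6,7),(33,8),(33,3),(35,6),(40,0)],
[(5,0),(6,2),(31,5),(34,6),(38,8),(36,6)],
[(5,0),(7,7),(11,1),(26,8),(33,1),(44,3)],
[(5,0),(7,3),(12,5),(15,6),(40,7),(44,4)],
[(5,0),(7,2),(19,6),(20,1),(31,4),(35,3)],
[(5,0),(8,7),(15,4),(22,5),(29,0),(40,2)],
[(5,0),(8,3),(8,5),(21,7),(41,3),(42,8)],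
[(5,0),(6,5),(20,0),(36,4),(36,3),(42,1)],
[(5,0),(6,6),(19,1),(25,2),(41,5),(42,4)],
[(5,0),(7,5),(9,7),(15,1),(36,7),(37,1)],
[(5,0),(8,6),(17,0),(17,6),(28,1),(30,5)],
[(5,0),(9,4),(22,2),(28,5),(37,0),(39,6)],
[(5,0),(10,0),(17,4),(19,2),(34,0),(36,1)],
[(5,0),(11,0),(26,6),(27,7),(35,2),(38,6)],
[(5,0),(11,4),(16,3),(20,2),(32,4),(44,5)],
[(5,0),(11,7),(18,7),(21,4),(34,3),(37,6)],
[(5,0),(9,1),(23,7),(29,4),(42,0),(42,6)],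
[(5,0),(10,1),(12,3),(12,1),(39,4),(43,4)],
[(5,0),(12,8),(18,6),(32,7),(33,4),(40,5)],
[(5,0),(13,4),(25,3),(33,2),(34,5),(39,7)],
[(5,0),(14,4),(18,1),(22,4),(32,5),(41,2)],
[(5,0),(12,7),(16,6),(24,1),(27,0),(43,2)],
[(5,0),(13,2),(15,0),(22,0),(30,6),(41,6)],
[(5,0),(14,2),(15,2),(38,3),(40,8),(40,3)],
[(5,0),(13,5),(23,4),(30,2),(37,2),(43,3)],
[(5,0),(16,4),(18,0),(27,1),(28,6),(41,4)],
[(5,0),(16,2),(23,5),(35,8),(36,2),(38,7)],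
[(5,0),(17,2),(20,6),(25,5),(31,6),(37,7)],
[(5,0),(17,5),(19,4),(25,0),(27,6),(42,3)],
[(5,0),(20,8),(25,8),(26,3),(29,2),(33,6)],
[(5,0),(21,2),(26,4),(28,3),(29,1),(32,3)],
[(6,0),(6,8),(16,0),(19,5),(27,0),(37,7)],
[(6,0),(7,0),(14,5),(23,8),(25,8),(26,6)],
[(6,0),(7,8),(8,4),(18,0),(19,8),(20,4)],
[(6,0),(7,4),(14,3),(13,6),(18,5),(22,2)],
[(6,0),(8,0),(13,5),(22,8),(24,8),(25,6)],
[(6,0),(8,8),(13,2),(12,5),(20,1),(21,7)],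
[(6,0),(6,7),(8,1),(29,8),(34,1),(38,7)],
[(6,0),(6,3),(9,1),(12,2),(24,0),(25,3)],
[(6,0),(7,3),(24,2),(24,1),(38,8),(42,0)],
[(6,0),(7,2),(7,6),(27,7),(35,0),(36,6)],
[(6,0),(8,7),(17,0),(20,6),(30,6),(40,0)],
[(6,0),(7,5),(15,5),(18,2),(31,2),(41,5)],
[(6,0),(8,6),(26,8),(26,7),(37,5),(44,6)],
[(6,0),(9,4),(14,0),(23,2),(29,0),(40,1)],
[(6,0),(10,0),(17,2),(26,0),(34,6),(42,6)],
[(6,0),(11,4),(22,0),(31,1),(32,6),(42,4)],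
[(6,0),(9,2),(20,5),(21,6),(35,6),(41,7)],
[(6,0),(10,2),(15,2),(39,3),(44,8),(44,3)],
[(6,0),(11,3),(12,4),(21,2),(33,4),(36,5)],
[(6,0),(11,2),(24,5),(27,8),(39,7),(40,2)],
[(6,0),(9,5),(20,0),(23,4),(31,6),(37,3)],
[(6,0),(11,6),(16,7),(19,1),(31,0),(38,2)],
[(6,0),(12,0),(18,6),(27,2),(31,7),(39,6)],
[(6,0),(13,4),(26,2),(32,5),(41,0),(43,6)],
[(6,0),(12,7),(22,7),(25,4),(29,3),(41,6)],
[(6,0),(13,1),(24,7),(30,4),(37,0),(37,6)],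
[(6,0),(14,1),(16,3),(16,1),(38,4),(43,4)],
[(6,0),(15,4),(22,1),(26,4),(33,5),(42,2)],
[(6,0),(16,8),(22,6),(28,4),(33,7),(44,5)],
[(6,0),(17,4),(20,3),(28,2),(29,5),(43,7)],
[(6,0),(17,5),(24,4),(34,2),(38,3),(41,2)],
[(6,0),(18,4),(25,2),(32,3),(30,1),(33,3)],
[(6,0),(20,8),(18,3),(21,8),(28,6),(30,2)],
[(7,0),(7,8),(17,0),(20,5),(28,0),(38,7)],
[(7,0),(8,0),(12,5),(21,8),(26,8),(24,6)],
[(7,0),(8,4),(12,3),(14,6),(19,5),(23,2)],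
[(7,0),(7,3),(10,1),(13,2),(25,0),(26,3)],
[(7,0),(8,3),(25,2),(25,1),(36,8),(43,0)],
[(7,0),(8,2),(8,6),(28,7),(33,0),(37,6)],
[(7,0),(8,5),(16,5),(19,2),(32,2),(39,5)],
[(7,0),(9,4),(23,0),(30,6),(32,1),(43,4)],
[(7,0),(10,4),(12,0),(21,2),(27,0),(41,1)],
[(7,0),(11,0),(15,2),(24,0),(35,6),(43,6)],
[(7,0),(9,3),(13,4),(22,2),(34,4),(37,5)],
[(7,0),(9,2),(25,5),(28,8),(40,7),(41,2)],
[(7,0),(10,2),(18,5),(22,6),(33,6),(39,7)],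
[(7,0),(11,2),(16,2),(40,3),(42,8),(42,3)],
[(7,0),(9,6),(17,7),(20,1),(32,0),(36,2)],
[(7,0),(10,5),(18,0),(21,4),(32,6),(38,3)],
[(7,0),(13,0),(19,6),(28,2),(32,7),(40,6)],
[(7,0),(14,4),(24,2),(30,5),(39,0),(44,6)],
[(7,0),(13,7),(23,7),(26,4),(27,3),(39,6)],
[(7,0),(12,1),(17,3),(17,1),(36,4),(44,4)],
[(7,0),(14,1),(25,7),(31,4),(38,0),(38,6)],
[(7,0),(15,4),(18,3),(29,2),(27,5),(44,7)],
[(7,0),(16,4),(23,1),(24,4),(34,5),(43,2)],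
[(7,0),(17,8),(23,6),(29,4),(34,7),(42,5)],
[(7,0),(15,5),(25,4),(35,2),(36,3),(39,2)],
[(7,0),(18,8),(19,3),(22,8),(29,6),(31,2)],
[(7,0),(19,4),(26,2),(30,3),(31,1),(34,3)],
[(8,0),(8,8),(15,0),(18,5),(29,0),(36,7)],
[(8,0),(8,3),(11,1),(14,2),(26,0),(24,3)]]

def P406x4 : List (List (ℕ × ℕ)) := [
[(8,0),(9,0),(16,2),(25,0),(33,6),(44,6)],
[(8,0),(10,4),(21,0),(30,1),(31,6),(44,4)],
[(8,0),(11,4),(13,0),(22,2),(28,0),(39,1)],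
[(8,0),(9,2),(17,2),(41,3),(43,8),(43,3)],
[(8,0),(10,3),(14,4),(23,2),(35,4),(38,5)],
[(8,0),(10,2),(26,5),(29,8),(39,2),(41,7)],
[(8,0),(11,2),(19,5),(23,6),(34,6),(40,7)],
[(8,0),(10,6),(15,7),(18,1),(30,0),(37,2)],
[(8,0),(11,5),(19,0),(22,4),(30,6),(36,3)],
[(8,0),(12,4),(25,2),(31,5),(40,0),(42,6)],
[(8,0),(14,0),(20,6),(29,2),(30,7),(41,6)],
[(8,0),(14,7),(21,7),(24,4),(28,3),(40,6)],
[(8,0),(12,1),(26,7),(32,4),(36,0),(36,6)],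
[(8,0),(13,1),(15,3),(15,1),(37,4),(42,4)],
[(8,0),(15,8),(21,6),(27,4),(35,7),(43,5)],
[(8,0),(16,4),(19,3),(27,2),(28,5),(42,7)],
[(8,0),(17,4),(21,1),(25,4),(35,5),(44,2)],
[(8,0),(16,5),(26,4),(33,2),(37,3),(40,2)],
[(8,0),(19,8),(20,3),(23,8),(27,6),(32,2)],
[(8,0),(20,4),(24,2),(31,3),(32,1),(35,3)],
[(9,0),(9,8),(22,1),(26,3),(27,8),(27,2)],
[(9,0),(10,0),(29,0),(29,4),(38,0),(44,3)],
[(9,0),(10,8),(11,4),(42,0),(43,8),(44,4)],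
[(9,0),(11,0),(28,0),(28,4),(37,0),(43,3)],
[(9,0),(9,2),(26,0),(27,6),(35,4),(34,3)],
[(9,0),(10,3),(18,0),(18,4),(40,7),(44,5)],
[(9,0),(10,2),(19,7),(23,5),(25,4),(40,2)],
[(9,0),(11,7),(10,5),(31,0),(30,7),(32,5)],
[(9,0),(11,2),(13,5),(22,2),(27,4),(27,5)],
[(9,0),(10,1),(14,3),(23,0),(28,3),(28,5)],
[(9,0),(11,1),(18,8),(22,3),(24,5),(39,0)],
[(9,0),(11,6),(20,1),(20,6),(39,4),(43,2)],
[(9,0),(13,8),(17,4),(19,8),(23,4),(24,0)],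
[(9,0),(12,7),(15,5),(19,5),(22,0),(25,7)],
[(9,0),(12,3),(16,1),(26,4),(24,3),(39,2)],
[(9,0),(13,7),(15,6),(21,0),(23,1),(36,8)],
[(9,0),(13,3),(17,6),(36,2),(40,5),(44,8)],
[(9,0),(14,7),(19,4),(19,6),(33,1),(35,6)],
[(9,0),(14,2),(17,5),(19,3),(20,5),(44,1)],
[(9,0),(12,5),(31,1),(33,8),(41,7),(44,2)],
[(9,0),(13,6),(19,1),(21,8),(42,7),(43,5)],
[(9,0),(14,6),(16,3),(29,1),(31,7),(33,4)],
[(9,0),(15,7),(28,8),(30,3),(38,5),(41,6)],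
[(9,0),(17,7),(16,6),(18,6),(35,0),(35,2)],
[(9,0),(17,3),(20,2),(24,4),(39,8),(41,1)],
[(9,0),(16,5),(26,2),(26,6),(30,2),(31,3)],
[(9,0),(29,5),(33,3),(35,3),(38,8),(44,7)],
[(9,0),(31,6),(34,7),(36,4),(37,4),(39,3)],
[(10,0),(10,8),(23,1),(24,3),(28,8),(28,2)],
[(10,0),(11,0),(27,0),(27,4),(36,0),(42,3)],
[(10,0),(10,2),(24,0),(28,6),(33,4),(35,3)],
[(10,0),(11,3),(19,0),(19,4),(41,7),(42,5)],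
[(10,0),(11,2),(20,7),(21,5),(26,4),(41,2)],
[(10,0),(11,1),(12,3),(21,0),(29,3),(29,5)],
[(10,0),(14,8),(15,4),(20,8),(21,4),(25,0)],
[(10,0),(12,7),(20,4),(20,6),(33,6),(34,1)],
[(10,0),(12,2),(15,5),(20,3),(18,5),(42,1)],
[(10,0),(13,7),(16,5),(20,5),(23,0),(26,7)],
[(10,0),(13,3),(17,1),(24,4),(25,3),(40,2)],
[(10,0),(14,7),(16,6),(22,0),(21,1),(37,8)],
[(10,0),(14,3),(15,6),(37,2),(41,5),(42,8)],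
[(10,0),(12,6),(17,3),(27,1),(32,7),(34,4)],
[(10,0),(13,5),(32,1),(34,8),(39,7),(42,2)],
[(10,0),(14,6),(20,1),(22,8),(43,7),(44,5)],
[(10,0),(15,7),(17,6),(19,6),(33,0),(33,2)],
[(10,0),(15,3),(18,2),(25,4),(40,8),(39,1)],
[(10,0),(16,7),(29,8),(31,3),(36,5),(39,6)],
[(10,0),(17,5),(24,2),(24,6),(31,2),(32,3)],
[(10,0),(27,5),(33,3),(34,3),(36,8),(42,7)],
[(10,0),(32,6),(35,7),(37,4),(38,4),(40,3)],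
[(11,0),(11,8),(21,1),(25,3),(29,8),(29,2)],
[(11,0),(11,2),(25,0),(29,6),(34,4),(33,3)],
[(11,0),(12,8),(16,4),(18,8),(22,4),(26,0)],
[(11,0),(12,7),(17,6),(23,0),(22,1),(38,8)],
[(11,0),(12,3),(16,6),(38,2),(39,5),(43,8)],
[(11,0),(13,7),(18,4),(18,6),(34,6),(35,1)],
[(11,0),(13,2),(16,5),(18,3),(19,5),(43,1)],
[(11,0),(14,7),(17,5),(18,5),(21,0),(24,7)],
[(11,0),(14,3),(15,1),(25,4),(26,3),(41,2)],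
[(11,0),(12,6),(18,1),(23,8),(44,7),(42,5)],
[(11,0),(13,6),(15,3),(28,1),(30,7),(35,4)],
[(11,0),(14,5),(30,1),(35,8),(40,7),(43,2)],
[(11,0),(16,7),(15,6),(20,6),(34,0),(34,2)],
[(11,0),(16,3),(19,2),(26,4),(41,8),(40,1)],
[(11,0),(17,7),(27,8),(32,3),(37,5),(40,6)],
[(11,0),(15,5),(25,2),(25,6),(30,3),(32,2)],
[(11,0),(28,5),(34,3),(35,3),(37,8),(43,7)],
[(11,0),(30,6),(33,7),(36,4),(38,4),(41,3)],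
[(12,0),(12,8),(20,3),(25,1),(30,8),(30,2)],
[(12,0),(13,0),(32,0),(32,4),(38,3),(41,0)],
[(12,0),(13,8),(14,4),(36,0),(37,8),(38,4)],
[(12,0),(14,0),(31,0),(31,4),(37,3),(40,0)],
[(12,0),(12,2),(20,0),(29,4),(28,3),(30,6)],
[(12,0),(13,3),(21,0),(21,4),(38,5),(43,7)],
[(12,0),(13,2),(19,4),(22,7),(26,5),(43,2)],
[(12,0),(14,7),(13,5),(34,0),(33,7),(35,5)],
[(12,0),(14,2),(16,5),(25,2),(30,4),(30,5)],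
[(12,0),(13,1),(17,3),(26,0),(31,3),(31,5)],
[(12,0),(14,1),(18,5),(21,8),(25,3),(42,0)],
[(12,0),(14,6),(23,1),(23,6),(37,2),(42,4)]]

def P406x5 : List (List (ℕ × ℕ)) := [
[(12,0),(17,7),(22,4),(22,6),(27,1),(29,6)],
[(12,0),(15,5),(27,8),(34,1),(38,2),(44,7)],
[(12,0),(16,6),(22,1),(24,8),(36,7),(37,5)],
[(12,0),(27,3),(29,3),(32,5),(38,7),(41,8)],
[(12,0),(28,7),(34,6),(39,4),(40,4),(42,3)],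
[(13,0),(13,8),(18,3),(26,1),(31,8),(31,2)],
[(13,0),(14,0),(30,0),(30,4),(36,3),(39,0)],
[(13,0),(13,2),(18,0),(27,4),(29,3),(31,6)],
[(13,0),(14,3),(22,0),(22,4),(36,5),(44,7)],
[(13,0),(14,2),(20,4),(23,7),(24,5),(44,2)],
[(13,0),(14,1),(15,3),(24,0),(32,3),(32,5)],
[(13,0),(15,7),(23,4),(23,6),(27,6),(28,1)],
[(13,0),(16,5),(28,8),(35,1),(36,2),(42,7)],
[(13,0),(17,6),(23,1),(25,8),(37,7),(38,5)],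
[(13,0),(27,3),(28,3),(30,5),(36,7),(39,8)],
[(13,0),(29,7),(35,6),(40,4),(41,4),(43,3)],
[(14,0),(14,8),(19,3),(24,1),(32,8),(32,2)],
[(14,0),(14,2),(19,0),(28,4),(27,3),(32,6)],
[(14,0),(16,7),(21,4),(21,6),(28,6),(29,1)],
[(14,0),(15,6),(21,1),(26,8),(38,7),(36,5)],
[(14,0),(17,5),(29,8),(33,1),(37,2),(43,7)],
[(14,0),(27,7),(33,6),(39,4),(41,4),(44,3)],
[(14,0),(28,3),(29,3),(31,5),(37,7),(40,8)],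
[(15,0),(15,8),(19,1),(23,3),(33,8),(33,2)],
[(15,0),(16,0),(35,0),(35,4),(41,3),(44,0)],
[(15,0),(16,8),(17,4),(39,0),(40,8),(41,4)],
[(15,0),(17,0),(34,0),(34,4),(40,3),(43,0)],
[(15,0),(15,2),(23,0),(32,4),(31,3),(33,6)],
[(15,0),(16,3),(24,0),(24,4),(37,7),(41,5)],
[(15,0),(16,2),(20,5),(22,4),(25,7),(37,2)],
[(15,0),(17,7),(16,5),(28,0),(27,7),(29,5)],
[(15,0),(17,1),(19,3),(21,5),(24,8),(36,0)],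
[(15,0),(17,6),(26,1),(26,6),(36,4),(40,2)],
[(15,0),(28,6),(31,7),(36,3),(42,4),(43,4)],
[(15,0),(30,3),(32,3),(35,5),(41,7),(44,8)],
[(16,0),(16,8),(20,1),(21,3),(34,8),(34,2)],
[(16,0),(17,0),(33,0),(33,4),(39,3),(42,0)],
[(16,0),(16,2),(21,0),(30,4),(32,3),(34,6)],
[(16,0),(17,3),(25,0),(25,4),(38,7),(39,5)],
[(16,0),(17,2),(18,5),(23,4),(26,7),(38,2)],
[(16,0),(29,6),(32,7),(37,3),(43,4),(44,4)],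
[(16,0),(30,3),(31,3),(33,5),(39,7),(42,8)],
[(17,0),(17,8),(18,1),(22,3),(35,8),(35,2)],
[(17,0),(17,2),(22,0),(31,4),(30,3),(35,6)],
[(17,0),(27,6),(30,7),(38,3),(42,4),(44,4)],
[(17,0),(31,3),(32,3),(34,5),(40,7),(43,8)],
[(18,0),(20,7),(19,5),(40,0),(39,7),(41,5)],
[(18,0),(20,3),(23,3),(29,2),(36,3),(43,2)],
[(18,0),(19,6),(21,0),(27,8),(37,0),(44,8)],
[(18,0),(21,8),(24,4),(28,2),(31,7),(34,3)],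
[(18,0),(23,8),(30,0),(33,0),(36,0),(36,4)],
[(18,0),(23,4),(30,4),(41,0),(39,6),(44,0)],
[(18,0),(22,2),(27,7),(32,7),(37,8),(39,3)],
[(18,0),(22,1),(26,2),(29,0),(30,1),(34,2)],
[(18,0),(23,1),(25,2),(38,0),(40,1),(42,2)],
[(18,0),(24,0),(25,6),(33,8),(41,8),(43,0)],
[(18,0),(25,8),(28,0),(36,8),(37,5),(39,8)],
[(18,0),(25,4),(28,4),(31,4),(43,8),(43,4)],
[(18,0),(26,1),(28,8),(35,8),(38,4),(42,6)],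
[(19,0),(20,6),(22,0),(28,8),(38,0),(42,8)],
[(19,0),(21,8),(31,0),(34,0),(37,0),(37,4)],
[(19,0),(21,4),(31,4),(39,0),(40,6),(42,0)],
[(19,0),(22,8),(25,4),(29,2),(32,7),(35,3)],
[(19,0),(23,2),(28,7),(30,7),(38,8),(40,3)],
[(19,0),(21,1),(26,2),(36,0),(41,1),(43,2)],
[(19,0),(23,1),(24,2),(27,0),(31,1),(35,2)],
[(19,0),(25,0),(26,6),(34,8),(39,8),(44,0)],
[(19,0),(26,8),(29,0),(37,8),(38,5),(40,8)],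
[(19,0),(26,4),(29,4),(32,4),(44,8),(44,4)],
[(19,0),(24,1),(29,8),(33,8),(36,4),(43,6)],
[(20,0),(22,8),(32,0),(35,0),(38,0),(38,4)],
[(20,0),(22,4),(32,4),(40,0),(41,6),(43,0)],
[(20,0),(23,8),(26,4),(27,2),(30,7),(33,3)],
[(20,0),(21,2),(29,7),(31,7),(36,8),(41,3)],
[(20,0),(21,1),(25,2),(28,0),(32,1),(33,2)],
[(20,0),(22,1),(24,2),(37,0),(39,1),(44,2)],
[(20,0),(24,8),(27,0),(38,8),(36,5),(41,8)],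
[(20,0),(24,4),(27,4),(30,4),(42,8),(42,4)],
[(20,0),(26,0),(24,6),(35,8),(40,8),(42,0)],
[(20,0),(25,1),(27,8),(34,8),(37,4),(44,6)],
[(21,0),(23,7),(22,5),(43,0),(42,7),(44,5)],
[(21,0),(23,3),(26,3),(32,2),(37,2),(39,3)],
[(21,0),(22,6),(24,0),(30,8),(38,8),(40,0)],
[(21,0),(26,8),(27,0),(33,0),(39,0),(39,4)],
[(21,0),(26,4),(33,4),(38,0),(44,0),(42,6)],
[(21,0),(25,2),(30,7),(35,7),(40,8),(42,3)],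
[(22,0),(23,6),(25,0),(31,8),(36,8),(41,0)],
[(22,0),(24,8),(28,0),(34,0),(40,0),(40,4)],
[(22,0),(24,4),(34,4),(36,0),(42,0),(43,6)],
[(22,0),(26,2),(31,7),(33,7),(41,8),(43,3)],
[(23,0),(25,8),(29,0),(35,0),(41,0),(41,4)],
[(23,0),(25,4),(35,4),(37,0),(43,0),(44,6)],
[(23,0),(24,2),(32,7),(34,7),(39,8),(44,3)],
[(24,0),(26,7),(25,5),(37,0),(36,7),(38,5)],
[(27,0),(31,4),(35,8),(36,1),(40,5),(44,6)],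
[(27,0),(30,7),(33,5),(37,5),(40,0),(43,7)],
[(28,0),(32,4),(33,8),(37,1),(41,5),(42,6)],
[(28,0),(31,7),(34,5),(38,5),(41,0),(44,7)],
[(29,0),(30,4),(34,8),(38,1),(39,5),(43,6)],
[(29,0),(32,7),(35,5),(36,5),(39,0),(42,7)]]

def Q406x0 : List (ℕ × List (ℕ × ℕ)) := [
(0,[(0,0),(16,8),(21,1),(29,1),(36,1)]),
(0,[(1,0),(17,8),(22,1),(27,1),(37,1)]),
(0,[(2,0),(15,8),(23,1),(28,1),(38,1)]),
(0,[(3,0),(10,8),(24,1),(32,1),(39,1)]),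
(0,[(4,0),(11,8),(25,1),(30,1),(40,1)]),
(0,[(5,0),(9,8),(26,1),(31,1),(41,1)]),
(0,[(6,0),(13,8),(18,1),(35,1),(42,1)]),
(0,[(7,0),(14,8),(19,1),(33,1),(43,1)]),
(0,[(8,0),(12,8),(20,1),(34,1),(44,1)])]

theorem s406 : StOn (Fin 406) 6 :=
  st_of_chkH 1 45 1 3 3 6 (st_one _) (P406x0 ++ P406x1 ++ P406x2 ++ P406x3 ++ P406x4 ++ P406x5)
    (Q406x0) (by decide +kernel)

end H9St
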