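import Mathlib
import Pool.Agent.H9.StHole

namespace H9St

set_option maxRecDepth 100000

def P411x0 : List (List (ℕ × ℕ)) := [
[(0,0),(0,34),(1,4),(1,3),(5,9),(8,14)],
[(0,0),(0,27),(1,5),(4,3),(7,16),(8,36)],
[(0,0),(0,20),(4,18),(5,33),(7,4),(9,10)],
[(0,0),(0,13),(1,38),(1,1),(5,39),(9,18)],
[(0,0),(0,6),(1,14),(4,19),(5,7),(7,39)],
[(0,0),(0,40),(3,37),(3,30),(6,10),(8,5)],
[(0,0),(0,33),(4,1),(6,37),(7,36),(8,23)],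
[(0,0),(0,26),(1,6),(4,14),(5,5),(6,3)],
[(0,0),(0,19),(1,17),(4,26),(8,29),(9,21)],
[(0,0),(0,12),(1,40),(1,30),(6,17),(8,8)],
[(0,0),(0,5),(4,21),(5,23),(8,7),(9,4)],
[(0,0),(0,39),(4,8),(6,23),(7,40),(9,30)],
[(0,0),(0,32),(4,37),(5,31),(6,20),(8,16)],
[(0,0),(0,25),(3,18),(3,29),(5,37),(9,39)],
[(0,0),(0,18),(3,25),(3,28),(7,26),(9,34)],
[(0,0),(0,11),(1,23),(1,7),(7,21),(9,19)],
[(0,0),(0,4),(3,3),(3,16),(5,21),(8,1)],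
[(0,0),(0,38),(1,13),(1,31),(6,39),(7,6)],
[(0,0),(0,31),(3,13),(3,1),(6,9),(7,18)],
[(0,0),(0,24),(1,9),(4,30),(6,32),(9,37)],
[(0,0),(1,27),(2,10),(3,26),(4,4),(6,38)],
[(0,0),(1,20),(4,34),(7,17),(8,0),(8,22)],
[(0,0),(1,33),(4,11),(8,26),(9,0),(9,24)],
[(0,0),(1,32),(4,38),(5,19),(7,0),(7,27)],
[(0,0),(1,24),(2,18),(3,14),(4,40),(7,11)],
[(0,0),(1,2),(4,28),(5,0),(5,35),(6,14)],
[(0,0),(1,36),(4,12),(6,0),(6,15),(9,6)],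
[(0,0),(1,22),(2,37),(3,6),(4,23),(5,34)],
[(0,0),(1,15),(2,1),(3,19),(4,25),(8,12)],
[(0,0),(1,35),(2,16),(3,17),(4,31),(9,28)],
[(0,0),(2,34),(2,15),(4,32),(6,36),(9,3)],
[(0,0),(2,27),(2,12),(4,33),(5,30),(7,32)],
[(0,0),(2,20),(2,25),(6,24),(7,2),(9,27)],
[(0,0),(2,13),(4,15),(5,27),(7,13),(7,7)],
[(0,0),(2,6),(3,9),(8,28),(9,9),(9,36)],
[(0,0),(2,40),(2,32),(5,36),(8,35),(9,22)],
[(0,0),(2,33),(2,31),(5,15),(6,22),(8,32)],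
[(0,0),(2,26),(3,39),(7,12),(8,33),(8,39)],
[(0,0),(2,19),(3,8),(5,32),(5,8),(6,34)],
[(0,0),(2,5),(3,27),(3,33),(8,34),(9,25)],
[(0,0),(2,39),(3,36),(3,22),(6,31),(9,11)],
[(0,0),(2,11),(2,35),(4,20),(5,2),(6,7)],
[(0,0),(2,4),(2,36),(5,24),(7,35),(9,20)],
[(0,0),(2,38),(2,24),(4,2),(8,13),(9,33)],
[(0,0),(2,17),(3,5),(5,11),(7,20),(7,5)],
[(0,0),(2,3),(4,35),(7,22),(8,3),(8,30)],
[(0,0),(2,30),(4,22),(6,13),(6,30),(9,15)],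
[(0,0),(2,23),(2,2),(6,33),(7,15),(8,27)],
[(0,0),(2,9),(3,24),(3,2),(5,4),(6,12)],
[(0,0),(2,29),(4,24),(5,3),(5,29),(6,35)],
[(0,0),(2,22),(2,28),(4,36),(7,29),(8,20)],
[(0,0),(2,8),(3,20),(3,35),(7,38),(8,40)],
[(0,0),(2,21),(3,32),(3,15),(5,28),(7,23)],
[(0,0),(2,14),(3,21),(6,2),(6,21),(9,38)],
[(0,0),(2,7),(4,27),(8,24),(9,29),(9,7)],
[(0,0),(5,6),(7,19),(7,24),(7,37),(9,12)],
[(0,0),(5,25),(6,40),(7,31),(8,4),(9,23)],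
[(0,0),(5,38),(8,19),(9,26),(9,1),(9,35)],
[(0,0),(5,10),(5,22),(5,14),(6,26),(8,11)],
[(0,0),(6,27),(6,6),(6,16),(7,34),(9,17)],
[(0,0),(6,28),(7,14),(8,18),(8,17),(8,15)],
[(1,0),(1,34),(2,4),(2,3),(5,14),(9,9)],
[(1,0),(1,27),(2,5),(3,3),(5,36),(6,16)],
[(1,0),(1,20),(3,18),(6,4),(7,10),(9,33)],
[(1,0),(1,13),(2,38),(2,1),(7,18),(9,39)],
[(1,0),(1,6),(2,14),(3,19),(6,39),(9,7)],
[(1,0),(1,33),(3,1),(5,23),(6,36),(8,37)],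
[(1,0),(1,26),(2,6),(3,14),(8,3),(9,5)],
[(1,0),(1,19),(2,17),(3,26),(5,29),(7,21)],
[(1,0),(1,12),(2,40),(2,30),(5,8),(8,17)],
[(1,0),(1,5),(3,21),(5,7),(7,4),(9,23)],
[(1,0),(1,39),(3,8),(6,40),(7,30),(8,23)],
[(1,0),(1,32),(3,37),(5,16),(8,20),(9,31)],
[(1,0),(1,11),(2,23),(2,7),(6,21),(7,19)],
[(1,0),(1,38),(2,13),(2,31),(6,6),(8,39)],
[(1,0),(1,24),(2,9),(3,30),(7,37),(8,32)],
[(1,0),(2,20),(3,34),(5,0),(5,22),(6,17)],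
[(1,0),(2,33),(3,11),(5,26),(7,0),(7,24)],
[(1,0),(2,32),(3,38),(6,0),(6,27),(9,19)],
[(1,0),(2,2),(3,28),(8,14),(9,0),(9,35)],
[(1,0),(2,36),(3,12),(7,6),(8,0),(8,15)],
[(1,0),(3,27),(4,7),(5,24),(7,29),(7,7)],
[(1,0),(3,20),(4,11),(4,35),(8,7),(9,2)],
[(1,0),(3,33),(4,27),(4,12),(6,32),(9,30)],
[(1,0),(3,32),(4,34),(4,15),(7,3),(8,36)],
[(1,0),(3,24),(4,29),(8,35),(9,3),(9,29)],
[(1,0),(3,2),(4,38),(4,24),(5,13),(7,33)],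
[(1,0),(3,36),(4,22),(4,28),(5,20),(6,29)],
[(1,0),(3,22),(4,30),(7,15),(8,13),(8,30)],
[(1,0),(3,15),(4,13),(6,13),(6,7),(9,27)],
[(1,0),(3,35),(4,3),(5,3),(5,30),(6,22)],
[(1,0),(4,20),(4,25),(6,2),(7,27),(8,24)],
[(1,0),(4,40),(4,32),(5,35),(7,22),(9,36)],
[(1,0),(4,33),(4,31),(5,32),(8,22),(9,15)],
[(1,0),(4,4),(4,36),(6,35),(7,20),(9,24)],
[(1,0),(4,23),(4,2),(5,27),(6,15),(8,33)],
[(1,0),(5,19),(7,26),(7,1),(7,35),(9,38)],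
[(1,0),(5,18),(5,17),(5,15),(6,14),(8,28)],
[(1,0),(5,11),(8,26),(9,10),(9,22),(9,14)],
[(1,0),(5,4),(6,31),(7,23),(8,40),(9,25)]]

def P411x1 : List (List (ℕ × ℕ)) := [
[(1,0),(6,34),(7,17),(8,27),(8,6),(8,16)],
[(1,0),(6,19),(6,24),(6,37),(7,12),(9,6)],
[(2,0),(2,34),(4,4),(4,3),(7,9),(9,14)],
[(2,0),(2,13),(4,38),(4,1),(6,18),(7,39)],
[(2,0),(2,12),(4,40),(4,30),(5,17),(9,8)],
[(2,0),(2,11),(4,23),(4,7),(6,19),(8,21)],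
[(2,0),(2,38),(4,13),(4,31),(5,39),(8,6)],
[(2,0),(3,20),(3,25),(5,24),(6,27),(8,2)],
[(2,0),(3,40),(3,32),(6,22),(7,36),(9,35)],
[(2,0),(3,33),(3,31),(5,22),(7,15),(9,32)],
[(2,0),(3,4),(3,36),(6,20),(7,24),(8,35)],
[(2,0),(3,23),(3,2),(5,33),(8,15),(9,27)],
[(2,0),(5,27),(5,6),(5,16),(6,17),(8,34)],
[(2,0),(5,40),(6,23),(7,25),(8,31),(9,4)],
[(2,0),(5,26),(7,10),(7,22),(7,14),(9,11)],
[(2,0),(5,28),(8,14),(9,18),(9,17),(9,15)],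
[(2,0),(6,26),(6,1),(6,35),(7,38),(9,19)],
[(2,0),(6,12),(7,6),(8,19),(8,24),(8,37)],
[(3,0),(3,40),(4,37),(4,30),(6,5),(7,10)],
[(3,0),(3,25),(4,18),(4,29),(5,39),(8,37)],
[(3,0),(3,18),(4,25),(4,28),(5,34),(9,26)],
[(3,0),(3,4),(4,3),(4,16),(6,1),(8,21)],
[(3,0),(3,31),(4,13),(4,1),(7,9),(9,18)],
[(3,0),(5,26),(5,1),(5,35),(6,19),(8,38)],
[(3,0),(5,12),(8,6),(9,19),(9,24),(9,37)],
[(3,0),(5,17),(7,27),(7,6),(7,16),(9,34)],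
[(3,0),(5,23),(6,4),(7,40),(8,25),(9,31)],
[(3,0),(6,18),(6,17),(6,15),(7,28),(9,14)],
[(3,0),(6,11),(7,26),(8,10),(8,22),(8,14)],
[(4,0),(5,34),(8,17),(9,27),(9,6),(9,16)],
[(4,0),(5,19),(5,24),(5,37),(6,6),(8,12)],
[(4,0),(5,31),(6,25),(7,4),(8,23),(9,40)],
[(4,0),(5,14),(7,18),(7,17),(7,15),(9,28)],
[(4,0),(6,38),(7,19),(8,26),(8,1),(8,35)],
[(4,0),(6,10),(6,22),(6,14),(7,11),(9,26)]]

def Q411x0 : List (ℕ × List (ℕ × ℕ)) := [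
(0,[(0,0),(1,0),(2,0),(3,0),(4,0)]),
(0,[(5,0),(6,0),(7,0),(8,0),(9,0)])]

theorem s411 : StOn (Fin 411) 6 :=
  st_of_chkH 1 10 1 1 41 6 (st_one _) (P411x0 ++ P411x1)
    (Q411x0) (by decide +kernel)

end H9St
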