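import Mathlib
import Pool.Agent.H9.StH31

namespace H9St

set_option maxRecDepth 100000

def P436x0 : List (List (ℕ × ℕ)) := [
[(0,0),(1,0),(2,0),(43,5),(44,5),(42,5)],
[(0,0),(3,0),(6,4),(8,5),(14,6),(32,6)],
[(0,0),(4,0),(16,0),(25,4),(31,6),(36,3)],
[(0,0),(5,0),(1,3),(0,6),(0,1),(4,5)],
[(0,0),(6,0),(3,4),(5,5),(11,6),(29,6)],
[(0,0),(7,0),(8,3),(7,6),(7,1),(2,5)],
[(0,0),(8,0),(12,0),(21,4),(27,6),(44,3)],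
[(0,0),(7,4),(5,8),(35,0),(30,4),(28,8)],
[(0,0),(8,4),(8,8),(8,7),(1,7),(6,1)],
[(0,0),(1,4),(2,8),(12,6),(13,1),(14,5)],
[(0,0),(2,4),(3,7),(3,5),(22,1),(40,1)],
[(0,0),(5,4),(7,8),(33,0),(29,4),(31,8)],
[(0,0),(3,8),(6,8),(2,1),(17,5),(35,5)],
[(0,0),(1,8),(4,3),(4,1),(23,6),(41,6)],
[(0,0),(6,3),(11,3),(25,0),(27,3),(38,8)],
[(0,0),(7,3),(13,8),(18,8),(34,1),(37,7)],
[(0,0),(2,3),(2,7),(3,2),(4,6),(2,6)],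
[(0,0),(3,3),(6,6),(24,4),(18,7),(21,1)],
[(0,0),(5,7),(10,5),(24,1),(29,0),(40,5)],
[(0,0),(4,7),(7,7),(1,2),(15,4),(33,4)],
[(0,0),(6,7),(8,2),(0,5),(19,8),(37,8)],
[(0,0),(2,2),(1,1),(15,0),(17,2),(16,1)],
[(0,0),(4,2),(8,1),(36,8),(40,7),(44,6)],
[(0,0),(6,2),(15,6),(18,1),(33,1),(37,5)],
[(0,0),(7,2),(5,1),(21,8),(19,7),(26,6)],
[(0,0),(5,6),(15,5),(23,5),(27,7),(39,4)],
[(0,0),(3,6),(14,0),(19,6),(30,0),(41,5)],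
[(0,0),(3,1),(9,7),(21,2),(27,2),(40,3)],
[(0,0),(7,5),(17,7),(22,3),(33,5),(38,7)],
[(0,0),(9,0),(40,4),(42,6),(37,6),(37,1)],
[(0,0),(10,0),(22,8),(30,2),(28,6),(43,0)],
[(0,0),(17,0),(12,2),(24,2),(30,7),(39,5)],
[(0,0),(16,4),(9,2),(16,6),(14,1),(18,0)],
[(0,0),(17,4),(26,0),(34,0),(42,7),(43,6)],
[(0,0),(12,8),(20,7),(33,7),(39,0),(44,7)],
[(0,0),(17,8),(11,1),(18,4),(34,5),(42,1)],
[(0,0),(10,8),(24,0),(20,5),(34,6),(41,2)],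
[(0,0),(17,3),(11,7),(18,3),(30,3),(43,1)],
[(0,0),(15,3),(24,8),(29,1),(41,0),(39,1)],
[(0,0),(9,3),(23,3),(21,5),(32,2),(39,6)],
[(0,0),(14,3),(26,4),(31,1),(42,0),(36,4)],
[(0,0),(13,3),(10,6),(20,4),(32,0),(38,1)],
[(0,0),(10,7),(23,0),(26,7),(28,5),(41,8)],
[(0,0),(10,2),(18,6),(25,5),(31,0),(43,7)],
[(0,0),(14,2),(17,6),(22,4),(27,4),(42,4)],
[(0,0),(9,6),(19,2),(35,3),(31,3),(44,2)],
[(0,0),(12,1),(19,5),(31,4),(28,2),(38,5)],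
[(0,0),(15,1),(19,4),(27,8),(36,2),(36,6)],
[(0,0),(11,5),(26,5),(35,4),(35,6),(44,8)],
[(0,0),(9,5),(24,7),(29,7),(30,6),(41,7)],
[(0,0),(12,5),(21,0),(18,2),(31,7),(39,2)],
[(0,0),(20,0),(25,8),(26,8),(26,3),(27,0)],
[(0,0),(29,8),(32,3),(35,7),(31,2),(36,0)],
[(1,0),(3,0),(2,3),(1,6),(1,1),(5,5)],
[(1,0),(4,0),(7,4),(6,5),(12,6),(30,6)],
[(1,0),(5,0),(17,0),(26,4),(32,6),(37,3)],
[(1,0),(6,0),(13,0),(22,4),(28,6),(42,3)],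
[(1,0),(7,0),(4,4),(3,5),(9,6),(27,6)],
[(1,0),(6,4),(6,8),(6,7),(2,7),(7,1)],
[(1,0),(8,4),(3,8),(33,0),(31,4),(29,8)],
[(1,0),(3,4),(8,8),(34,0),(27,4),(32,8)],
[(1,0),(2,8),(5,3),(5,1),(21,6),(39,6)],
[(1,0),(8,3),(14,8),(19,8),(35,1),(38,7)],
[(1,0),(7,3),(9,3),(26,0),(28,3),(36,8)],
[(1,0),(4,3),(7,6),(25,4),(19,7),(22,1)],
[(1,0),(5,7),(8,7),(2,2),(16,4),(34,4)],
[(1,0),(3,7),(11,5),(25,1),(27,0),(41,5)],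
[(1,0),(7,7),(6,2),(1,5),(20,8),(38,8)],
[(1,0),(5,2),(6,1),(37,8),(41,7),(42,6)],
[(1,0),(8,2),(3,1),(22,8),(20,7),(24,6)],
[(1,0),(7,2),(16,6),(19,1),(34,1),(38,5)],
[(1,0),(4,6),(12,0),(20,6),(31,0),(39,5)],
[(1,0),(3,6),(16,5),(21,5),(28,7),(40,4)],
[(1,0),(4,1),(10,7),(22,2),(28,2),(41,3)],
[(1,0),(8,5),(15,7),(23,3),(34,5),(36,7)],
[(1,0),(10,0),(41,4),(43,6),(38,6),(38,1)],
[(1,0),(11,0),(23,8),(31,2),(29,6),(44,0)],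
[(1,0),(15,0),(13,2),(25,2),(31,7),(40,5)],
[(1,0),(15,4),(24,0),(35,0),(43,7),(44,6)],
[(1,0),(17,4),(10,2),(17,6),(12,1),(19,0)],
[(1,0),(13,8),(18,7),(34,7),(40,0),(42,7)],
[(1,0),(15,8),(9,1),(19,4),(35,5),(43,1)],
[(1,0),(11,8),(25,0),(18,5),(35,6),(39,2)],
[(1,0),(15,3),(9,7),(19,3),(31,3),(44,1)],
[(1,0),(16,3),(25,8),(27,1),(39,0),(40,1)],
[(1,0),(10,3),(21,3),(22,5),(30,2),(40,6)],
[(1,0),(14,3),(11,6),(18,4),(30,0),(36,1)],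
[(1,0),(12,3),(24,4),(32,1),(43,0),(37,4)],
[(1,0),(11,7),(21,0),(24,7),(29,5),(39,8)],
[(1,0),(11,2),(19,6),(26,5),(32,0),(44,7)],
[(1,0),(12,2),(15,6),(23,4),(28,4),(43,4)],
[(1,0),(10,6),(20,2),(33,3),(32,3),(42,2)],
[(1,0),(13,1),(20,5),(32,4),(29,2),(36,5)],
[(1,0),(16,1),(20,4),(28,8),(37,2),(37,6)],
[(1,0),(10,5),(25,7),(27,7),(31,6),(39,7)],
[(1,0),(9,5),(24,5),(33,4),(33,6),(42,8)],
[(1,0),(13,5),(22,0),(19,2),(32,7),(40,2)],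
[(1,0),(18,0),(24,8),(26,8),(24,3),(28,0)],
[(1,0),(27,8),(30,3),(33,7),(32,2),(37,0)],
[(2,0),(3,0),(15,0),(24,4),(30,6),(38,3)]]

def P436x1 : List (List (ℕ × ℕ)) := [
[(2,0),(5,0),(8,4),(7,5),(13,6),(31,6)],
[(2,0),(7,0),(14,0),(23,4),(29,6),(43,3)],
[(2,0),(8,0),(5,4),(4,5),(10,6),(28,6)],
[(2,0),(6,4),(4,8),(34,0),(32,4),(27,8)],
[(2,0),(4,4),(6,8),(35,0),(28,4),(30,8)],
[(2,0),(8,3),(10,3),(24,0),(29,3),(37,8)],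
[(2,0),(6,3),(12,8),(20,8),(33,1),(36,7)],
[(2,0),(5,3),(8,6),(26,4),(20,7),(23,1)],
[(2,0),(4,7),(9,5),(26,1),(28,0),(39,5)],
[(2,0),(8,7),(7,2),(2,5),(18,8),(36,8)],
[(2,0),(3,2),(7,1),(38,8),(39,7),(43,6)],
[(2,0),(8,2),(17,6),(20,1),(35,1),(36,5)],
[(2,0),(6,2),(4,1),(23,8),(18,7),(25,6)],
[(2,0),(4,6),(17,5),(22,5),(29,7),(41,4)],
[(2,0),(5,6),(13,0),(18,6),(32,0),(40,5)],
[(2,0),(5,1),(11,7),(23,2),(29,2),(39,3)],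
[(2,0),(6,5),(16,7),(21,3),(35,5),(37,7)],
[(2,0),(9,0),(21,8),(32,2),(27,6),(42,0)],
[(2,0),(11,0),(39,4),(44,6),(36,6),(36,1)],
[(2,0),(16,0),(14,2),(26,2),(32,7),(41,5)],
[(2,0),(15,4),(11,2),(15,6),(13,1),(20,0)],
[(2,0),(16,4),(25,0),(33,0),(44,7),(42,6)],
[(2,0),(14,8),(19,7),(35,7),(41,0),(43,7)],
[(2,0),(16,8),(10,1),(20,4),(33,5),(44,1)],
[(2,0),(9,8),(26,0),(19,5),(33,6),(40,2)],
[(2,0),(17,3),(26,8),(28,1),(40,0),(41,1)],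
[(2,0),(16,3),(10,7),(20,3),(32,3),(42,1)],
[(2,0),(11,3),(22,3),(23,5),(31,2),(41,6)],
[(2,0),(12,3),(9,6),(19,4),(31,0),(37,1)],
[(2,0),(13,3),(25,4),(30,1),(44,0),(38,4)],
[(2,0),(9,7),(22,0),(25,7),(27,5),(40,8)],
[(2,0),(9,2),(20,6),(24,5),(30,0),(42,7)],
[(2,0),(13,2),(16,6),(21,4),(29,4),(44,4)],
[(2,0),(11,6),(18,2),(34,3),(30,3),(43,2)],
[(2,0),(14,1),(18,5),(30,4),(27,2),(37,5)],
[(2,0),(17,1),(18,4),(29,8),(38,2),(38,6)],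
[(2,0),(10,5),(25,5),(34,4),(34,6),(43,8)],
[(2,0),(11,5),(26,7),(28,7),(32,6),(40,7)],
[(2,0),(14,5),(23,0),(20,2),(30,7),(41,2)],
[(2,0),(19,0),(24,8),(25,8),(25,3),(29,0)],
[(2,0),(28,8),(31,3),(34,7),(30,2),(38,0)],
[(3,0),(4,0),(5,0),(37,5),(38,5),(36,5)],
[(3,0),(7,0),(10,0),(19,4),(34,6),(39,3)],
[(3,0),(8,0),(4,3),(3,6),(3,1),(7,5)],
[(3,0),(4,4),(5,8),(15,6),(16,1),(17,5)],
[(3,0),(5,4),(6,7),(6,5),(25,1),(43,1)],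
[(3,0),(4,8),(7,3),(7,1),(26,6),(44,6)],
[(3,0),(5,3),(5,7),(6,2),(5,6),(7,6)],
[(3,0),(8,7),(13,5),(18,1),(32,0),(43,5)],
[(3,0),(5,2),(4,1),(9,0),(11,2),(10,1)],
[(3,0),(8,6),(9,5),(26,5),(30,7),(42,4)],
[(3,0),(6,6),(17,0),(22,6),(33,0),(44,5)],
[(3,0),(6,1),(12,7),(24,2),(30,2),(43,3)],
[(3,0),(11,0),(15,2),(18,2),(33,7),(42,5)],
[(3,0),(12,0),(43,4),(40,6),(36,6),(40,1)],
[(3,0),(13,0),(25,8),(33,2),(31,6),(37,0)],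
[(3,0),(10,4),(12,2),(10,6),(17,1),(21,0)],
[(3,0),(11,4),(20,0),(28,0),(36,7),(37,6)],
[(3,0),(13,8),(18,0),(23,5),(28,6),(44,2)],
[(3,0),(15,8),(23,7),(27,7),(42,0),(38,7)],
[(3,0),(11,8),(14,1),(21,4),(28,5),(36,1)],
[(3,0),(17,3),(20,4),(34,1),(36,0),(39,4)],
[(3,0),(16,3),(13,6),(23,4),(35,0),(41,1)],
[(3,0),(11,3),(14,7),(21,3),(33,3),(37,1)],
[(3,0),(9,3),(18,8),(32,1),(44,0),(42,1)],
[(3,0),(12,3),(26,3),(24,5),(35,2),(42,6)],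
[(3,0),(13,7),(26,0),(20,7),(31,5),(44,8)],
[(3,0),(13,2),(21,6),(19,5),(34,0),(37,7)],
[(3,0),(17,2),(11,6),(25,4),(30,4),(36,4)],
[(3,0),(12,6),(22,2),(34,3),(29,3),(38,2)],
[(3,0),(9,1),(22,4),(30,8),(39,2),(39,6)],
[(3,0),(15,1),(22,5),(34,4),(31,2),(41,5)],
[(3,0),(15,5),(24,0),(21,2),(34,7),(42,2)],
[(3,0),(14,5),(20,5),(29,4),(29,6),(38,8)],
[(3,0),(12,5),(18,7),(32,7),(33,6),(44,7)],
[(3,0),(23,0),(19,8),(20,8),(20,3),(30,0)],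
[(3,0),(32,8),(35,3),(29,7),(34,2),(39,0)],
[(4,0),(6,0),(5,3),(4,6),(4,1),(8,5)],
[(4,0),(8,0),(11,0),(20,4),(35,6),(40,3)],
[(4,0),(5,8),(8,3),(8,1),(24,6),(42,6)],
[(4,0),(6,7),(14,5),(19,1),(30,0),(44,5)],
[(4,0),(7,6),(15,0),(23,6),(34,0),(42,5)],
[(4,0),(6,6),(10,5),(24,5),(31,7),(43,4)],
[(4,0),(7,1),(13,7),(25,2),(31,2),(44,3)],
[(4,0),(9,0),(16,2),(19,2),(34,7),(43,5)],
[(4,0),(13,0),(44,4),(41,6),(37,6),(41,1)],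
[(4,0),(14,0),(26,8),(34,2),(32,6),(38,0)],
[(4,0),(9,4),(18,0),(29,0),(37,7),(38,6)],
[(4,0),(11,4),(13,2),(11,6),(15,1),(22,0)],
[(4,0),(14,8),(19,0),(21,5),(29,6),(42,2)],
[(4,0),(16,8),(21,7),(28,7),(43,0),(36,7)],
[(4,0),(9,8),(12,1),(22,4),(29,5),(37,1)],
[(4,0),(17,3),(14,6),(21,4),(33,0),(39,1)],
[(4,0),(15,3),(18,4),(35,1),(37,0),(40,4)],
[(4,0),(9,3),(12,7),(22,3),(34,3),(38,1)],
[(4,0),(10,3),(19,8),(30,1),(42,0),(43,1)],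
[(4,0),(13,3),(24,3),(25,5),(33,2),(43,6)],
[(4,0),(14,7),(24,0),(18,7),(32,5),(42,8)],
[(4,0),(14,2),(22,6),(20,5),(35,0),(38,7)],
[(4,0),(15,2),(9,6),(26,4),(31,4),(37,4)]]

def P436x2 : List (List (ℕ × ℕ)) := [
[(4,0),(13,6),(23,2),(35,3),(27,3),(36,2)],
[(4,0),(10,1),(23,4),(31,8),(40,2),(40,6)],
[(4,0),(16,1),(23,5),(35,4),(32,2),(39,5)],
[(4,0),(16,5),(25,0),(22,2),(35,7),(43,2)],
[(4,0),(13,5),(19,7),(30,7),(34,6),(42,7)],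
[(4,0),(12,5),(18,5),(27,4),(27,6),(36,8)],
[(4,0),(21,0),(18,8),(20,8),(18,3),(31,0)],
[(4,0),(30,8),(33,3),(27,7),(35,2),(40,0)],
[(5,0),(6,0),(9,0),(18,4),(33,6),(41,3)],
[(5,0),(7,7),(12,5),(20,1),(31,0),(42,5)],
[(5,0),(7,6),(11,5),(25,5),(32,7),(44,4)],
[(5,0),(8,6),(16,0),(21,6),(35,0),(43,5)],
[(5,0),(8,1),(14,7),(26,2),(32,2),(42,3)],
[(5,0),(10,0),(17,2),(20,2),(35,7),(44,5)],
[(5,0),(12,0),(24,8),(35,2),(30,6),(36,0)],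
[(5,0),(14,0),(42,4),(39,6),(38,6),(39,1)],
[(5,0),(9,4),(14,2),(9,6),(16,1),(23,0)],
[(5,0),(10,4),(19,0),(27,0),(38,7),(36,6)],
[(5,0),(12,8),(20,0),(22,5),(27,6),(43,2)],
[(5,0),(17,8),(22,7),(29,7),(44,0),(37,7)],
[(5,0),(10,8),(13,1),(23,4),(27,5),(38,1)],
[(5,0),(15,3),(12,6),(22,4),(34,0),(40,1)],
[(5,0),(16,3),(19,4),(33,1),(38,0),(41,4)],
[(5,0),(11,3),(20,8),(31,1),(43,0),(44,1)],
[(5,0),(10,3),(13,7),(23,3),(35,3),(36,1)],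
[(5,0),(14,3),(25,3),(26,5),(34,2),(44,6)],
[(5,0),(12,7),(25,0),(19,7),(30,5),(43,8)],
[(5,0),(12,2),(23,6),(18,5),(33,0),(36,7)],
[(5,0),(16,2),(10,6),(24,4),(32,4),(38,4)],
[(5,0),(14,6),(21,2),(33,3),(28,3),(37,2)],
[(5,0),(11,1),(21,4),(32,8),(41,2),(41,6)],
[(5,0),(17,1),(21,5),(33,4),(30,2),(40,5)],
[(5,0),(17,5),(26,0),(23,2),(33,7),(44,2)],
[(5,0),(13,5),(19,5),(28,4),(28,6),(37,8)],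
[(5,0),(14,5),(20,7),(31,7),(35,6),(43,7)],
[(5,0),(22,0),(18,8),(19,8),(19,3),(32,0)],
[(5,0),(31,8),(34,3),(28,7),(33,2),(41,0)],
[(6,0),(7,0),(8,0),(40,5),(41,5),(39,5)],
[(6,0),(7,4),(8,8),(9,6),(10,1),(11,5)],
[(6,0),(8,2),(7,1),(12,0),(14,2),(13,1)],
[(6,0),(14,0),(9,2),(21,2),(27,7),(36,5)],
[(6,0),(15,0),(37,4),(39,6),(43,6),(43,1)],
[(6,0),(16,0),(19,8),(27,2),(34,6),(40,0)],
[(6,0),(13,4),(15,2),(13,6),(11,1),(24,0)],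
[(6,0),(14,4),(23,0),(31,0),(39,7),(40,6)],
[(6,0),(14,8),(17,1),(24,4),(31,5),(39,1)],
[(6,0),(16,8),(21,0),(26,5),(31,6),(38,2)],
[(6,0),(9,8),(26,7),(30,7),(36,0),(41,7)],
[(6,0),(15,3),(20,3),(18,5),(29,2),(36,6)],
[(6,0),(11,3),(23,4),(28,1),(39,0),(42,4)],
[(6,0),(10,3),(16,6),(26,4),(29,0),(44,1)],
[(6,0),(14,3),(17,7),(24,3),(27,3),(40,1)],
[(6,0),(12,3),(21,8),(35,1),(38,0),(36,1)],
[(6,0),(16,7),(20,0),(23,7),(34,5),(38,8)],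
[(6,0),(11,2),(14,6),(19,4),(33,4),(39,4)],
[(6,0),(16,2),(24,6),(22,5),(28,0),(40,7)],
[(6,0),(15,6),(25,2),(28,3),(32,3),(41,2)],
[(6,0),(9,1),(25,5),(28,4),(34,2),(44,5)],
[(6,0),(12,1),(25,4),(33,8),(42,2),(42,6)],
[(6,0),(17,5),(23,5),(32,4),(32,6),(41,8)],
[(6,0),(15,5),(21,7),(35,7),(27,6),(38,7)],
[(6,0),(9,5),(18,0),(24,2),(28,7),(36,2)],
[(6,0),(26,0),(22,8),(23,8),(23,3),(33,0)],
[(6,0),(35,8),(29,3),(32,7),(28,2),(42,0)],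
[(7,0),(12,0),(10,2),(22,2),(28,7),(37,5)],
[(7,0),(16,0),(38,4),(40,6),(44,6),(44,1)],
[(7,0),(17,0),(20,8),(28,2),(35,6),(41,0)],
[(7,0),(12,4),(21,0),(32,0),(40,7),(41,6)],
[(7,0),(14,4),(16,2),(14,6),(9,1),(25,0)],
[(7,0),(12,8),(15,1),(25,4),(32,5),(40,1)],
[(7,0),(17,8),(22,0),(24,5),(32,6),(36,2)],
[(7,0),(10,8),(24,7),(31,7),(37,0),(39,7)],
[(7,0),(16,3),(18,3),(19,5),(27,2),(37,6)],
[(7,0),(11,3),(17,6),(24,4),(27,0),(42,1)],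
[(7,0),(9,3),(21,4),(29,1),(40,0),(43,4)],
[(7,0),(12,3),(15,7),(25,3),(28,3),(41,1)],
[(7,0),(13,3),(22,8),(33,1),(36,0),(37,1)],
[(7,0),(17,7),(18,0),(21,7),(35,5),(36,8)],
[(7,0),(9,2),(12,6),(20,4),(34,4),(40,4)],
[(7,0),(17,2),(25,6),(23,5),(29,0),(41,7)],
[(7,0),(16,6),(26,2),(29,3),(30,3),(39,2)],
[(7,0),(10,1),(26,5),(29,4),(35,2),(42,5)],
[(7,0),(13,1),(26,4),(34,8),(43,2),(43,6)],
[(7,0),(16,5),(22,7),(33,7),(28,6),(36,7)],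
[(7,0),(15,5),(21,5),(30,4),(30,6),(39,8)],
[(7,0),(10,5),(19,0),(25,2),(29,7),(37,2)],
[(7,0),(24,0),(21,8),(23,8),(21,3),(34,0)],
[(7,0),(33,8),(27,3),(30,7),(29,2),(43,0)],
[(8,0),(13,0),(11,2),(23,2),(29,7),(38,5)],
[(8,0),(15,0),(18,8),(29,2),(33,6),(39,0)],
[(8,0),(17,0),(36,4),(41,6),(42,6),(42,1)],
[(8,0),(12,4),(17,2),(12,6),(10,1),(26,0)],
[(8,0),(13,4),(22,0),(30,0),(41,7),(39,6)],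
[(8,0),(13,8),(16,1),(26,4),(30,5),(41,1)],
[(8,0),(15,8),(23,0),(25,5),(30,6),(37,2)],
[(8,0),(11,8),(25,7),(32,7),(38,0),(40,7)],
[(8,0),(17,3),(19,3),(20,5),(28,2),(38,6)],
[(8,0),(9,3),(15,6),(25,4),(28,0),(43,1)],
[(8,0),(10,3),(22,4),(27,1),(41,0),(44,4)],
[(8,0),(14,3),(23,8),(34,1),(37,0),(38,1)]]

def P436x3 : List (List (ℕ × ℕ)) := [
[(8,0),(13,3),(16,7),(26,3),(29,3),(39,1)],
[(8,0),(15,7),(19,0),(22,7),(33,5),(37,8)],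
[(8,0),(10,2),(13,6),(18,4),(35,4),(41,4)],
[(8,0),(15,2),(26,6),(21,5),(27,0),(39,7)],
[(8,0),(17,6),(24,2),(27,3),(31,3),(40,2)],
[(8,0),(11,1),(24,5),(27,4),(33,2),(43,5)],
[(8,0),(14,1),(24,4),(35,8),(44,2),(44,6)],
[(8,0),(16,5),(22,5),(31,4),(31,6),(40,8)],
[(8,0),(17,5),(23,7),(34,7),(29,6),(37,7)],
[(8,0),(11,5),(20,0),(26,2),(27,7),(38,2)],
[(8,0),(25,0),(21,8),(22,8),(22,3),(35,0)],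
[(8,0),(34,8),(28,3),(31,7),(27,2),(44,0)],
[(9,0),(10,0),(17,0),(15,2),(35,2),(44,2)],
[(9,0),(11,0),(16,0),(17,2),(34,2),(43,2)],
[(9,0),(12,0),(12,8),(13,3),(9,6),(13,5)],
[(9,0),(13,0),(14,0),(10,2),(27,2),(36,2)],
[(9,0),(15,0),(9,8),(10,3),(15,6),(10,5)],
[(9,0),(17,4),(11,3),(17,7),(11,7),(9,1)],
[(9,0),(11,4),(10,8),(40,0),(39,4),(41,8)],
[(9,0),(13,4),(17,8),(32,3),(33,7),(28,2)],
[(9,0),(14,4),(16,8),(41,0),(43,4),(36,8)],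
[(9,0),(16,3),(14,6),(32,0),(27,3),(34,6)],
[(9,0),(13,7),(17,5),(20,0),(21,7),(25,5)],
[(9,0),(13,2),(17,1),(19,0),(23,2),(24,1)],
[(9,0),(11,1),(13,1),(12,1),(29,0),(38,0)],
[(9,0),(18,0),(28,8),(30,3),(31,2),(31,5)],
[(9,0),(24,4),(19,4),(25,8),(22,6),(36,0)],
[(10,0),(11,0),(15,0),(16,2),(33,2),(42,2)],
[(10,0),(12,0),(14,0),(11,2),(28,2),(37,2)],
[(10,0),(13,0),(13,8),(14,3),(10,6),(14,5)],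
[(10,0),(16,0),(10,8),(11,3),(16,6),(11,5)],
[(10,0),(12,4),(17,8),(39,0),(44,4),(37,8)],
[(10,0),(14,4),(15,8),(30,3),(34,7),(29,2)],
[(10,0),(17,3),(12,6),(30,0),(28,3),(35,6)],
[(10,0),(14,7),(15,5),(18,0),(22,7),(26,5)],
[(10,0),(14,2),(15,1),(20,0),(21,2),(25,1)],
[(10,0),(19,0),(29,8),(31,3),(32,2),(32,5)],
[(10,0),(25,4),(20,4),(26,8),(23,6),(37,0)],
[(11,0),(14,0),(14,8),(12,3),(11,6),(12,5)],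
[(11,0),(12,4),(16,8),(31,3),(35,7),(27,2)],
[(11,0),(13,4),(15,8),(40,0),(42,4),(38,8)],
[(11,0),(15,3),(13,6),(31,0),(29,3),(33,6)],
[(11,0),(12,7),(16,5),(19,0),(23,7),(24,5)],
[(11,0),(12,2),(16,1),(18,0),(22,2),(26,1)],
[(11,0),(20,0),(27,8),(32,3),(30,2),(30,5)],
[(11,0),(26,4),(18,4),(24,8),(21,6),(38,0)],
[(12,0),(15,0),(15,8),(16,3),(12,6),(16,5)],
[(12,0),(16,0),(17,0),(13,2),(30,2),(39,2)],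
[(12,0),(14,4),(13,8),(43,0),(42,4),(44,8)],
[(12,0),(14,1),(16,1),(15,1),(32,0),(41,0)],
[(12,0),(21,0),(31,8),(33,3),(34,2),(34,5)],
[(12,0),(18,4),(22,4),(19,8),(25,6),(39,0)],
[(13,0),(15,0),(17,0),(14,2),(31,2),(40,2)],
[(13,0),(16,0),(16,8),(17,3),(13,6),(17,5)],
[(13,0),(22,0),(32,8),(34,3),(35,2),(35,5)],
[(13,0),(19,4),(23,4),(20,8),(26,6),(40,0)],
[(14,0),(17,0),(17,8),(15,3),(14,6),(15,5)],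
[(14,0),(23,0),(30,8),(35,3),(33,2),(33,5)],
[(14,0),(20,4),(21,4),(18,8),(24,6),(41,0)],
[(15,0),(17,4),(16,8),(37,0),(36,4),(38,8)],
[(15,0),(24,0),(34,8),(27,3),(28,2),(28,5)],
[(15,0),(25,4),(21,4),(22,8),(19,6),(42,0)],
[(16,0),(25,0),(35,8),(28,3),(29,2),(29,5)],
[(16,0),(26,4),(22,4),(23,8),(20,6),(43,0)],
[(17,0),(26,0),(33,8),(29,3),(27,2),(27,5)],
[(17,0),(24,4),(23,4),(21,8),(18,6),(44,0)],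
[(18,0),(21,0),(20,4),(20,3),(22,3),(20,7)],
[(18,0),(23,0),(18,4),(22,6),(19,6),(18,1)],
[(18,0),(24,0),(26,4),(26,3),(19,3),(26,7)],
[(18,0),(25,0),(25,4),(26,6),(20,6),(25,1)],
[(18,0),(25,3),(23,6),(44,8),(39,2),(37,5)],
[(18,0),(23,3),(25,6),(40,4),(42,7),(38,1)],
[(18,0),(20,2),(19,1),(28,4),(27,3),(29,5)],
[(18,0),(26,2),(22,1),(29,8),(34,7),(30,6)],
[(18,0),(27,0),(41,8),(38,3),(37,1),(44,5)],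
[(19,0),(21,0),(19,4),(23,6),(20,6),(19,1)],
[(19,0),(25,0),(24,4),(24,3),(20,3),(24,7)],
[(19,0),(26,3),(21,6),(42,8),(40,2),(38,5)],
[(19,0),(21,3),(26,6),(41,4),(43,7),(36,1)],
[(19,0),(24,2),(23,1),(27,8),(35,7),(31,6)],
[(19,0),(28,0),(39,8),(36,3),(38,1),(42,5)],
[(20,0),(24,3),(22,6),(43,8),(41,2),(36,5)],
[(20,0),(22,3),(24,6),(39,4),(44,7),(37,1)],
[(20,0),(25,2),(21,1),(28,8),(33,7),(32,6)],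
[(20,0),(29,0),(40,8),(37,3),(36,1),(43,5)],
[(21,0),(24,0),(23,4),(25,3),(23,3),(23,7)],
[(21,0),(26,0),(21,4),(22,6),(25,6),(21,1)],
[(21,0),(23,2),(22,1),(31,4),(30,3),(32,5)],
[(21,0),(30,0),(44,8),(41,3),(40,1),(38,5)],
[(22,0),(24,0),(22,4),(23,6),(26,6),(22,1)],
[(22,0),(31,0),(42,8),(39,3),(41,1),(36,5)],
[(23,0),(32,0),(43,8),(40,3),(39,1),(37,5)],
[(24,0),(26,2),(25,1),(34,4),(33,3),(35,5)],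
[(24,0),(33,0),(38,8),(44,3),(43,1),(41,5)],
[(25,0),(34,0),(36,8),(42,3),(44,1),(39,5)],
[(26,0),(35,0),(37,8),(43,3),(42,1),(40,5)],
[(27,0),(28,0),(34,0),(29,3),(29,7),(34,1)],
[(27,0),(29,0),(33,0),(28,3),(28,7),(33,1)],
[(27,0),(30,0),(32,0),(31,3),(31,7),(27,1)],
[(27,0),(33,4),(30,8),(42,6),(39,1),(36,5)]]

def P436x4 : List (List (ℕ × ℕ)) := [
[(27,0),(27,4),(35,7),(35,6),(28,6),(29,6)],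
[(27,0),(34,2),(32,1),(44,4),(39,3),(37,5)],
[(28,0),(30,0),(31,0),(32,3),(32,7),(28,1)],
[(28,0),(34,4),(31,8),(43,6),(40,1),(37,5)],
[(28,0),(35,2),(30,1),(42,4),(40,3),(38,5)],
[(29,0),(31,0),(32,0),(30,3),(30,7),(29,1)],
[(29,0),(35,4),(32,8),(44,6),(41,1),(38,5)],
[(29,0),(33,2),(31,1),(43,4),(41,3),(36,5)],
[(30,0),(33,0),(35,0),(34,3),(34,7),(30,1)],
[(31,0),(33,0),(34,0),(35,3),(35,7),(31,1)],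
[(32,0),(34,0),(35,0),(33,3),(33,7),(32,1)],
[(36,0),(39,0),(40,3),(39,2),(44,2),(40,6)],
[(36,0),(41,0),(37,4),(37,7),(36,1),(42,1)],
[(36,0),(43,0),(44,4),(44,7),(40,1),(43,1)],
[(36,0),(40,8),(38,8),(36,3),(44,6),(38,6)],
[(37,0),(39,0),(38,4),(38,7),(37,1),(43,1)],
[(37,0),(40,0),(41,3),(40,2),(42,2),(41,6)],
[(37,0),(44,0),(42,4),(42,7),(41,1),(44,1)],
[(38,0),(41,0),(39,3),(41,2),(43,2),(39,6)],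
[(38,0),(42,0),(43,4),(43,7),(39,1),(42,1)]]

def Q436x0 : List (ℕ × List (ℕ × ℕ)) := [
(28,[(0,0),(11,0),(20,2),(27,1),(44,1)]),
(19,[(0,0),(13,0),(24,5),(29,3),(43,2)]),
(11,[(0,0),(9,4),(25,7),(34,8),(36,5)]),
(0,[(0,0),(10,4),(25,3),(30,5),(38,4)]),
(16,[(0,0),(11,4),(19,1),(28,3),(40,8)]),
(18,[(0,0),(12,4),(22,5),(29,2),(42,2)]),
(3,[(0,0),(13,4),(19,0),(35,8),(39,3)]),
(23,[(0,0),(14,4),(23,7),(32,5),(36,1)]),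
(4,[(0,0),(14,8),(25,6),(28,4),(41,3)]),
(20,[(0,0),(15,8),(23,2),(27,5),(40,2)]),
(14,[(0,0),(16,8),(21,6),(33,2),(38,3)]),
(17,[(0,0),(9,8),(22,7),(32,1),(38,6)]),
(2,[(0,0),(11,8),(22,0),(35,1),(37,4)]),
(5,[(0,0),(16,3),(20,1),(30,8),(37,0)]),
(27,[(0,0),(10,3),(25,1),(35,2),(43,8)]),
(6,[(0,0),(12,3),(24,6),(32,7),(38,2)]),
(22,[(0,0),(14,7),(22,6),(28,1),(44,0)]),
(30,[(0,0),(12,7),(23,1),(34,7),(44,4)]),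
(8,[(0,0),(13,7),(21,3),(34,3),(37,2)]),
(9,[(0,0),(15,7),(26,2),(32,8),(43,3)]),
(10,[(0,0),(16,7),(18,5),(33,8),(39,7)]),
(12,[(0,0),(11,2),(20,8),(34,2),(40,6)]),
(25,[(0,0),(13,2),(20,6),(28,7),(39,8)]),
(1,[(0,0),(15,2),(23,4),(28,0),(38,0)]),
(7,[(0,0),(16,2),(23,8),(34,4),(42,3)]),
(24,[(0,0),(13,6),(26,1),(33,3),(36,7)]),
(21,[(0,0),(10,1),(21,7),(29,5),(42,8)]),
(15,[(0,0),(9,1),(22,2),(30,1),(40,0)]),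
(26,[(0,0),(17,1),(20,3),(32,4),(43,4)]),
(29,[(0,0),(16,5),(24,3),(31,5),(41,1)]),
(13,[(0,0),(13,5),(25,2),(33,6),(41,4)]),
(28,[(1,0),(9,0),(18,2),(28,1),(42,1)]),
(19,[(1,0),(14,0),(25,5),(27,3),(44,2)]),
(16,[(1,0),(9,4),(20,1),(29,3),(41,8)]),
(11,[(1,0),(10,4),(26,7),(35,8),(37,5)]),
(0,[(1,0),(11,4),(26,3),(31,5),(36,4)]),
(23,[(1,0),(12,4),(21,7),(30,5),(37,1)]),
(18,[(1,0),(13,4),(23,5),(27,2),(43,2)]),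
(3,[(1,0),(14,4),(20,0),(33,8),(40,3)]),
(4,[(1,0),(12,8),(26,6),(29,4),(39,3)]),
(20,[(1,0),(16,8),(21,2),(28,5),(41,2)]),
(14,[(1,0),(17,8),(22,6),(34,2),(36,3)]),
(2,[(1,0),(9,8),(23,0),(33,1),(38,4)]),
(17,[(1,0),(10,8),(23,7),(30,1),(36,6)]),
(5,[(1,0),(17,3),(18,1),(31,8),(38,0)]),
(27,[(1,0),(11,3),(26,1),(33,2),(44,8)]),
(6,[(1,0),(13,3),(25,6),(30,7),(36,2)]),
(8,[(1,0),(14,7),(22,3),(35,3),(38,2)]),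
(22,[(1,0),(12,7),(23,6),(29,1),(42,0)]),
(30,[(1,0),(13,7),(21,1),(35,7),(42,4)]),
(10,[(1,0),(17,7),(19,5),(34,8),(40,7)]),
(9,[(1,0),(16,7),(24,2),(30,8),(44,3)]),
(12,[(1,0),(9,2),(18,8),(35,2),(41,6)]),
(25,[(1,0),(14,2),(18,6),(29,7),(40,8)]),
(7,[(1,0),(17,2),(21,8),(35,4),(43,3)]),
(1,[(1,0),(16,2),(21,4),(29,0),(36,0)]),
(24,[(1,0),(14,6),(24,1),(34,3),(37,7)]),
(15,[(1,0),(10,1),(23,2),(31,1),(41,0)]),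
(21,[(1,0),(11,1),(22,7),(27,5),(43,8)]),
(26,[(1,0),(15,1),(18,3),(30,4),(44,4)]),
(29,[(1,0),(17,5),(25,3),(32,5),(39,1)]),
(13,[(1,0),(14,5),(26,2),(34,6),(39,4)]),
(28,[(2,0),(10,0),(19,2),(29,1),(43,1)]),
(19,[(2,0),(12,0),(26,5),(28,3),(42,2)]),
(0,[(2,0),(9,4),(24,3),(32,5),(37,4)]),
(16,[(2,0),(10,4),(18,1),(27,3),(39,8)]),
(11,[(2,0),(11,4),(24,7),(33,8),(38,5)]),
(3,[(2,0),(12,4),(18,0),(34,8),(41,3)]),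
(23,[(2,0),(13,4),(22,7),(31,5),(38,1)]),
(18,[(2,0),(14,4),(21,5),(28,2),(44,2)]),
(4,[(2,0),(13,8),(24,6),(27,4),(40,3)]),
(14,[(2,0),(15,8),(23,6),(35,2),(37,3)]),
(20,[(2,0),(17,8),(22,2),(29,5),(39,2)]),
(2,[(2,0),(10,8),(21,0),(34,1),(36,4)]),
(17,[(2,0),(11,8),(21,7),(31,1),(37,6)]),
(5,[(2,0),(15,3),(19,1),(32,8),(36,0)]),
(27,[(2,0),(9,3),(24,1),(34,2),(42,8)]),
(6,[(2,0),(14,3),(26,6),(31,7),(37,2)]),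
(30,[(2,0),(14,7),(22,1),(33,7),(43,4)]),
(8,[(2,0),(12,7),(23,3),(33,3),(36,2)]),
(22,[(2,0),(13,7),(21,6),(27,1),(43,0)]),
(9,[(2,0),(17,7),(25,2),(31,8),(42,3)]),
(10,[(2,0),(15,7),(20,5),(35,8),(41,7)]),
(12,[(2,0),(10,2),(19,8),(33,2),(39,6)]),
(25,[(2,0),(12,2),(19,6),(27,7),(41,8)]),
(1,[(2,0),(17,2),(22,4),(27,0),(37,0)]),
(7,[(2,0),(15,2),(22,8),(33,4),(44,3)]),
(24,[(2,0),(12,6),(25,1),(35,3),(38,7)]),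
(15,[(2,0),(11,1),(21,2),(32,1),(39,0)]),
(21,[(2,0),(9,1),(23,7),(28,5),(44,8)]),
(26,[(2,0),(16,1),(19,3),(31,4),(42,4)]),
(29,[(2,0),(15,5),(26,3),(30,5),(40,1)]),
(13,[(2,0),(12,5),(24,2),(35,6),(40,4)]),
(28,[(3,0),(14,0),(23,2),(30,1),(38,1)]),
(19,[(3,0),(16,0),(18,5),(32,3),(37,2)]),
(18,[(3,0),(15,4),(25,5),(32,2),(36,2)]),
(3,[(3,0),(16,4),(22,0),(29,8),(42,3)]),
(23,[(3,0),(17,4),(26,7),(35,5),(39,1)]),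
(11,[(3,0),(12,4),(19,7),(28,8),(39,5)]),
(0,[(3,0),(13,4),(19,3),(33,5),(41,4)])]

def Q436x1 : List (ℕ × List (ℕ × ℕ)) := [
(16,[(3,0),(14,4),(22,1),(31,3),(43,8)]),
(17,[(3,0),(12,8),(25,7),(35,1),(41,6)]),
(2,[(3,0),(14,8),(25,0),(29,1),(40,4)]),
(4,[(3,0),(17,8),(19,6),(31,4),(44,3)]),
(20,[(3,0),(9,8),(26,2),(30,5),(43,2)]),
(14,[(3,0),(10,8),(24,6),(27,2),(41,3)]),
(6,[(3,0),(15,3),(18,6),(35,7),(41,2)]),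
(5,[(3,0),(10,3),(23,1),(33,8),(40,0)]),
(27,[(3,0),(13,3),(19,1),(29,2),(37,8)]),
(22,[(3,0),(17,7),(25,6),(31,1),(38,0)]),
(30,[(3,0),(15,7),(26,1),(28,7),(38,4)]),
(8,[(3,0),(16,7),(24,3),(28,3),(40,2)]),
(9,[(3,0),(9,7),(20,2),(35,8),(37,3)]),
(10,[(3,0),(10,7),(21,5),(27,8),(42,7)]),
(1,[(3,0),(9,2),(26,4),(31,0),(41,0)]),
(7,[(3,0),(10,2),(26,8),(28,4),(36,3)]),
(12,[(3,0),(14,2),(23,8),(28,2),(43,6)]),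
(25,[(3,0),(16,2),(23,6),(31,7),(42,8)]),
(24,[(3,0),(16,6),(20,1),(27,3),(39,7)]),
(26,[(3,0),(11,1),(23,3),(35,4),(37,4)]),
(21,[(3,0),(13,1),(24,7),(32,5),(36,8)]),
(15,[(3,0),(12,1),(25,2),(33,1),(43,0)]),
(13,[(3,0),(16,5),(19,2),(27,6),(44,4)]),
(29,[(3,0),(10,5),(18,3),(34,5),(44,1)]),
(28,[(4,0),(12,0),(21,2),(31,1),(36,1)]),
(19,[(4,0),(17,0),(19,5),(30,3),(38,2)]),
(23,[(4,0),(15,4),(24,7),(33,5),(40,1)]),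
(18,[(4,0),(16,4),(26,5),(30,2),(37,2)]),
(3,[(4,0),(17,4),(23,0),(27,8),(43,3)]),
(16,[(4,0),(12,4),(23,1),(32,3),(44,8)]),
(11,[(4,0),(13,4),(20,7),(29,8),(40,5)]),
(0,[(4,0),(14,4),(20,3),(34,5),(39,4)]),
(2,[(4,0),(12,8),(26,0),(27,1),(41,4)]),
(17,[(4,0),(13,8),(26,7),(33,1),(39,6)]),
(4,[(4,0),(15,8),(20,6),(32,4),(42,3)]),
(20,[(4,0),(10,8),(24,2),(31,5),(44,2)]),
(14,[(4,0),(11,8),(25,6),(28,2),(39,3)]),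
(6,[(4,0),(16,3),(19,6),(33,7),(39,2)]),
(5,[(4,0),(11,3),(21,1),(34,8),(41,0)]),
(27,[(4,0),(14,3),(20,1),(27,2),(38,8)]),
(8,[(4,0),(17,7),(25,3),(29,3),(41,2)]),
(22,[(4,0),(15,7),(26,6),(32,1),(36,0)]),
(30,[(4,0),(16,7),(24,1),(29,7),(36,4)]),
(10,[(4,0),(11,7),(22,5),(28,8),(43,7)]),
(9,[(4,0),(10,7),(18,2),(33,8),(38,3)]),
(7,[(4,0),(11,2),(24,8),(29,4),(37,3)]),
(1,[(4,0),(10,2),(24,4),(32,0),(39,0)]),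
(12,[(4,0),(12,2),(21,8),(29,2),(44,6)]),
(25,[(4,0),(17,2),(21,6),(32,7),(43,8)]),
(24,[(4,0),(17,6),(18,1),(28,3),(40,7)]),
(26,[(4,0),(9,1),(21,3),(33,4),(38,4)]),
(15,[(4,0),(13,1),(26,2),(34,1),(44,0)]),
(21,[(4,0),(14,1),(25,7),(30,5),(37,8)]),
(13,[(4,0),(17,5),(20,2),(28,6),(42,4)]),
(29,[(4,0),(11,5),(19,3),(35,5),(42,1)]),
(28,[(5,0),(13,0),(22,2),(32,1),(37,1)]),
(19,[(5,0),(15,0),(20,5),(31,3),(36,2)]),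
(3,[(5,0),(15,4),(21,0),(28,8),(44,3)]),
(23,[(5,0),(16,4),(25,7),(34,5),(41,1)]),
(18,[(5,0),(17,4),(24,5),(31,2),(38,2)]),
(0,[(5,0),(12,4),(18,3),(35,5),(40,4)]),
(16,[(5,0),(13,4),(21,1),(30,3),(42,8)]),
(11,[(5,0),(14,4),(18,7),(27,8),(41,5)]),
(2,[(5,0),(13,8),(24,0),(28,1),(39,4)]),
(17,[(5,0),(14,8),(24,7),(34,1),(40,6)]),
(4,[(5,0),(16,8),(18,6),(30,4),(43,3)]),
(14,[(5,0),(9,8),(26,6),(29,2),(40,3)]),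
(20,[(5,0),(11,8),(25,2),(32,5),(42,2)]),
(6,[(5,0),(17,3),(20,6),(34,7),(40,2)]),
(5,[(5,0),(9,3),(22,1),(35,8),(39,0)]),
(27,[(5,0),(12,3),(18,1),(28,2),(36,8)]),
(30,[(5,0),(17,7),(25,1),(27,7),(37,4)]),
(8,[(5,0),(15,7),(26,3),(27,3),(39,2)]),
(22,[(5,0),(16,7),(24,6),(30,1),(37,0)]),
(9,[(5,0),(11,7),(19,2),(34,8),(36,3)]),
(10,[(5,0),(9,7),(23,5),(29,8),(44,7)]),
(1,[(5,0),(11,2),(25,4),(30,0),(40,0)]),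
(7,[(5,0),(9,2),(25,8),(27,4),(38,3)]),
(12,[(5,0),(13,2),(22,8),(27,2),(42,6)]),
(25,[(5,0),(15,2),(22,6),(30,7),(44,8)]),
(24,[(5,0),(15,6),(19,1),(29,3),(41,7)]),
(26,[(5,0),(10,1),(22,3),(34,4),(36,4)]),
(15,[(5,0),(14,1),(24,2),(35,1),(42,0)]),
(21,[(5,0),(12,1),(26,7),(31,5),(38,8)]),
(13,[(5,0),(15,5),(18,2),(29,6),(43,4)]),
(29,[(5,0),(9,5),(20,3),(33,5),(43,1)]),
(19,[(6,0),(10,0),(21,5),(35,3),(40,2)]),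
(28,[(6,0),(17,0),(26,2),(33,1),(41,1)]),
(11,[(6,0),(15,4),(22,7),(31,8),(42,5)]),
(0,[(6,0),(16,4),(22,3),(27,5),(44,4)]),
(16,[(6,0),(17,4),(25,1),(34,3),(37,8)]),
(18,[(6,0),(9,4),(19,5),(35,2),(39,2)]),
(3,[(6,0),(10,4),(25,0),(32,8),(36,3)]),
(23,[(6,0),(11,4),(20,7),(29,5),(42,1)]),
(20,[(6,0),(12,8),(20,2),(33,5),(37,2)]),
(14,[(6,0),(13,8),(18,6),(30,2),(44,3)]),
(17,[(6,0),(15,8),(19,7),(29,1),(44,6)]),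
(2,[(6,0),(17,8),(19,0),(32,1),(43,4)]),
(4,[(6,0),(11,8),(22,6),(34,4),(38,3)]),
(27,[(6,0),(16,3),(22,1),(32,2),(40,8)])]

def Q436x2 : List (ℕ × List (ℕ × ℕ)) := [
(6,[(6,0),(9,3),(21,6),(29,7),(44,2)]),
(5,[(6,0),(13,3),(26,1),(27,8),(43,0)]),
(9,[(6,0),(12,7),(23,2),(29,8),(40,3)]),
(10,[(6,0),(13,7),(24,5),(30,8),(36,7)]),
(22,[(6,0),(11,7),(19,6),(34,1),(41,0)]),
(30,[(6,0),(9,7),(20,1),(31,7),(41,4)]),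
(8,[(6,0),(10,7),(18,3),(31,3),(43,2)]),
(25,[(6,0),(10,2),(26,6),(34,7),(36,8)]),
(1,[(6,0),(12,2),(20,4),(34,0),(44,0)]),
(7,[(6,0),(13,2),(20,8),(31,4),(39,3)]),
(12,[(6,0),(17,2),(26,8),(31,2),(37,6)]),
(24,[(6,0),(10,6),(23,1),(30,3),(42,7)]),
(26,[(6,0),(14,1),(26,3),(29,4),(40,4)]),
(21,[(6,0),(16,1),(18,7),(35,5),(39,8)]),
(15,[(6,0),(15,1),(19,2),(27,1),(37,0)]),
(13,[(6,0),(10,5),(22,2),(30,6),(38,4)]),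
(29,[(6,0),(13,5),(21,3),(28,5),(38,1)]),
(19,[(7,0),(11,0),(22,5),(33,3),(41,2)]),
(28,[(7,0),(15,0),(24,2),(34,1),(39,1)]),
(16,[(7,0),(15,4),(26,1),(35,3),(38,8)]),
(11,[(7,0),(16,4),(23,7),(32,8),(43,5)]),
(0,[(7,0),(17,4),(23,3),(28,5),(42,4)]),
(23,[(7,0),(9,4),(18,7),(27,5),(43,1)]),
(18,[(7,0),(10,4),(20,5),(33,2),(40,2)]),
(3,[(7,0),(11,4),(26,0),(30,8),(37,3)]),
(20,[(7,0),(13,8),(18,2),(34,5),(38,2)]),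
(14,[(7,0),(14,8),(19,6),(31,2),(42,3)]),
(2,[(7,0),(15,8),(20,0),(30,1),(44,4)]),
(17,[(7,0),(16,8),(20,7),(27,1),(42,6)]),
(4,[(7,0),(9,8),(23,6),(35,4),(36,3)]),
(27,[(7,0),(17,3),(23,1),(30,2),(41,8)]),
(6,[(7,0),(10,3),(22,6),(27,7),(42,2)]),
(5,[(7,0),(14,3),(24,1),(28,8),(44,0)]),
(10,[(7,0),(14,7),(25,5),(31,8),(37,7)]),
(9,[(7,0),(13,7),(21,2),(27,8),(41,3)]),
(8,[(7,0),(11,7),(19,3),(32,3),(44,2)]),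
(22,[(7,0),(9,7),(20,6),(35,1),(39,0)]),
(30,[(7,0),(10,7),(18,1),(32,7),(39,4)]),
(25,[(7,0),(11,2),(24,6),(35,7),(37,8)]),
(7,[(7,0),(14,2),(18,8),(32,4),(40,3)]),
(1,[(7,0),(13,2),(18,4),(35,0),(42,0)]),
(12,[(7,0),(15,2),(24,8),(32,2),(38,6)]),
(24,[(7,0),(11,6),(21,1),(31,3),(43,7)]),
(26,[(7,0),(12,1),(24,3),(27,4),(41,4)]),
(15,[(7,0),(16,1),(20,2),(28,1),(38,0)]),
(21,[(7,0),(17,1),(19,7),(33,5),(40,8)]),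
(13,[(7,0),(11,5),(23,2),(31,6),(36,4)]),
(29,[(7,0),(14,5),(22,3),(29,5),(36,1)]),
(19,[(8,0),(9,0),(23,5),(34,3),(39,2)]),
(28,[(8,0),(16,0),(25,2),(35,1),(40,1)]),
(0,[(8,0),(15,4),(21,3),(29,5),(43,4)]),
(16,[(8,0),(16,4),(24,1),(33,3),(36,8)]),
(11,[(8,0),(17,4),(21,7),(30,8),(44,5)]),
(3,[(8,0),(9,4),(24,0),(31,8),(38,3)]),
(23,[(8,0),(10,4),(19,7),(28,5),(44,1)]),
(18,[(8,0),(11,4),(18,5),(34,2),(41,2)]),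
(14,[(8,0),(12,8),(20,6),(32,2),(43,3)]),
(20,[(8,0),(14,8),(19,2),(35,5),(36,2)]),
(2,[(8,0),(16,8),(18,0),(31,1),(42,4)]),
(17,[(8,0),(17,8),(18,7),(28,1),(43,6)]),
(4,[(8,0),(10,8),(21,6),(33,4),(37,3)]),
(27,[(8,0),(15,3),(21,1),(31,2),(39,8)]),
(6,[(8,0),(11,3),(23,6),(28,7),(43,2)]),
(5,[(8,0),(12,3),(25,1),(29,8),(42,0)]),
(9,[(8,0),(14,7),(22,2),(28,8),(39,3)]),
(10,[(8,0),(12,7),(26,5),(32,8),(38,7)]),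
(30,[(8,0),(11,7),(19,1),(30,7),(40,4)]),
(8,[(8,0),(9,7),(20,3),(30,3),(42,2)]),
(22,[(8,0),(10,7),(18,6),(33,1),(40,0)]),
(25,[(8,0),(9,2),(25,6),(33,7),(38,8)]),
(1,[(8,0),(14,2),(19,4),(33,0),(43,0)]),
(7,[(8,0),(12,2),(19,8),(30,4),(41,3)]),
(12,[(8,0),(16,2),(25,8),(30,2),(36,6)]),
(24,[(8,0),(9,6),(22,1),(32,3),(44,7)]),
(26,[(8,0),(13,1),(25,3),(28,4),(39,4)]),
(15,[(8,0),(17,1),(18,2),(29,1),(36,0)]),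
(21,[(8,0),(15,1),(20,7),(34,5),(41,8)]),
(13,[(8,0),(9,5),(21,2),(32,6),(37,4)]),
(29,[(8,0),(12,5),(23,3),(27,5),(37,1)])]

theorem s436 : StOn (Fin 436) 6 :=
  st_of_chkH 31 45 1 3 3 6 s31 (P436x0 ++ P436x1 ++ P436x2 ++ P436x3 ++ P436x4)
    (Q436x0 ++ Q436x1 ++ Q436x2) (by decide +kernel)

end H9St
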