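import Mathlib
import Pool.Agent.H9.StHole

namespace H9St

set_option maxRecDepth 100000

def P471x0 : List (List (ℕ × ℕ)) := [
[(0,0),(0,1),(2,6),(2,26),(11,16),(13,16)],
[(0,0),(0,2),(4,13),(4,20),(7,14),(7,19)],
[(0,0),(0,3),(12,5),(12,29),(14,15),(14,19)],
[(0,0),(0,4),(10,9),(10,26),(14,11),(14,24)],
[(0,0),(0,5),(2,15),(2,21),(5,8),(5,28)],
[(0,0),(0,6),(5,2),(5,4),(6,8),(6,29)],
[(0,0),(0,7),(4,9),(4,29),(11,18),(11,20)],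
[(0,0),(0,8),(8,4),(10,4),(14,10),(14,29)],
[(0,0),(0,9),(12,18),(12,22),(13,13),(13,27)],
[(0,0),(0,10),(2,1),(2,9),(14,4),(14,6)],
[(0,0),(0,11),(1,16),(1,26),(3,4),(3,7)],
[(0,0),(0,12),(1,14),(1,29),(3,18),(3,25)],
[(0,0),(0,13),(1,20),(1,24),(3,21),(3,23)],
[(0,0),(0,14),(2,2),(2,12),(13,5),(13,9)],
[(0,0),(0,15),(2,23),(8,23),(9,23),(11,23)],
[(0,0),(1,0),(6,14),(6,17),(9,1),(9,30)],
[(0,0),(1,1),(3,26),(5,22),(7,24),(9,12)],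
[(0,0),(1,3),(6,6),(7,2),(9,28),(14,23)],
[(0,0),(1,4),(7,8),(10,14),(11,3),(12,24)],
[(0,0),(1,6),(2,4),(6,11),(8,2),(10,19)],
[(0,0),(1,8),(7,28),(9,13),(11,17),(13,19)],
[(0,0),(1,9),(3,17),(8,14),(10,18),(12,25)],
[(0,0),(1,10),(5,19),(6,4),(11,26),(12,27)],
[(0,0),(1,12),(5,1),(9,15),(10,10),(12,16)],
[(0,0),(1,13),(2,7),(5,21),(12,1),(13,20)],
[(0,0),(1,18),(2,24),(5,10),(12,30),(13,11)],
[(0,0),(1,19),(5,30),(9,16),(10,21),(12,15)],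
[(0,0),(1,21),(5,12),(6,27),(11,5),(12,4)],
[(0,0),(1,22),(3,14),(8,17),(10,13),(12,6)],
[(0,0),(1,23),(7,3),(9,18),(11,14),(13,12)],
[(0,0),(1,25),(2,27),(6,20),(8,29),(10,12)],
[(0,0),(1,27),(7,23),(10,17),(11,28),(12,7)],
[(0,0),(1,28),(6,25),(7,29),(9,3),(14,8)],
[(0,0),(1,30),(3,5),(5,9),(7,7),(9,19)],
[(0,0),(2,0),(9,2),(9,29),(12,0),(13,0)],
[(0,0),(2,3),(6,22),(8,15),(11,2),(13,1)],
[(0,0),(2,11),(4,19),(9,27),(10,6),(12,3)],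
[(0,0),(2,13),(9,21),(10,1),(11,10),(14,9)],
[(0,0),(2,14),(6,15),(7,27),(12,10),(13,3)],
[(0,0),(2,17),(6,16),(7,4),(12,21),(13,28)],
[(0,0),(2,18),(9,10),(10,30),(11,21),(14,22)],
[(0,0),(2,20),(4,12),(9,4),(10,25),(12,28)],
[(0,0),(2,28),(6,9),(8,16),(11,29),(13,30)],
[(0,0),(3,0),(4,8),(4,23),(7,5),(7,26)],
[(0,0),(3,1),(4,25),(6,21),(8,3),(12,11)],
[(0,0),(3,2),(7,15),(8,21),(9,7),(10,20)],
[(0,0),(3,3),(6,30),(9,22),(10,29),(11,27)],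
[(0,0),(3,9),(5,24),(7,6),(11,7),(14,17)],
[(0,0),(3,11),(5,20),(8,19),(10,7),(14,26)],
[(0,0),(3,12),(4,1),(9,14),(10,23),(14,18)],
[(0,0),(3,15),(4,16),(5,5),(7,30),(13,24)],
[(0,0),(3,16),(4,15),(5,26),(7,1),(13,7)],
[(0,0),(3,19),(4,30),(9,17),(10,8),(14,13)],
[(0,0),(3,20),(5,11),(8,12),(10,24),(14,5)],
[(0,0),(3,22),(5,7),(7,25),(11,24),(14,14)],
[(0,0),(3,28),(6,1),(9,9),(10,2),(11,4)],
[(0,0),(3,29),(7,16),(8,10),(9,24),(10,11)],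
[(0,0),(3,30),(4,6),(6,10),(8,28),(12,20)],
[(0,0),(4,0),(7,0),(8,1),(8,30),(11,0)],
[(0,0),(4,5),(5,18),(10,28),(11,9),(13,2)],
[(0,0),(4,10),(6,19),(7,22),(10,15),(11,25)],
[(0,0),(4,14),(5,6),(7,21),(11,19),(12,12)],
[(0,0),(4,17),(5,25),(7,10),(11,12),(12,19)],
[(0,0),(4,21),(6,12),(7,9),(10,16),(11,6)],
[(0,0),(4,26),(5,13),(10,3),(11,22),(13,29)],
[(0,0),(5,0),(6,0),(8,0),(14,3),(14,28)],
[(0,0),(5,14),(6,13),(7,18),(8,9),(11,30)],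
[(0,0),(5,15),(6,26),(8,25),(12,8),(13,21)],
[(0,0),(5,16),(6,5),(8,6),(12,23),(13,10)],
[(0,0),(5,17),(6,18),(7,13),(8,22),(11,1)],
[(0,0),(6,3),(7,11),(8,26),(12,14),(14,30)],
[(0,0),(6,7),(6,24),(9,0),(10,0),(14,0)],
[(0,0),(6,28),(7,20),(8,5),(12,17),(14,1)],
[(1,0),(1,1),(4,3),(4,29),(7,14),(7,18)],
[(1,0),(1,2),(4,8),(4,25),(11,7),(11,26)],
[(1,0),(1,3),(4,17),(5,17),(10,17),(13,17)],
[(1,0),(1,5),(2,17),(2,19),(7,12),(7,24)],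
[(1,0),(1,6),(4,1),(4,5),(13,3),(14,3)],
[(1,0),(1,7),(11,11),(11,27),(12,8),(12,30)],
[(1,0),(1,8),(8,16),(8,23),(14,15),(14,24)],
[(1,0),(1,9),(4,19),(4,21),(14,1),(14,8)],
[(1,0),(1,11),(6,19),(6,23),(13,15),(13,27)],
[(1,0),(1,12),(6,16),(6,27),(9,21),(9,22)],
[(1,0),(1,13),(8,1),(8,12),(11,3),(11,10)],
[(1,0),(1,14),(10,7),(11,2),(11,12),(12,7)],
[(1,0),(2,0),(7,0),(10,0),(11,13),(11,18)],
[(1,0),(2,1),(7,28),(8,17),(10,26),(14,2)],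
[(1,0),(2,3),(4,9),(8,2),(9,24),(14,13)],
[(1,0),(2,4),(3,5),(4,24),(10,12),(12,21)],
[(1,0),(2,5),(3,18),(5,13),(9,12),(11,14)],
[(1,0),(2,7),(3,2),(7,10),(8,24),(13,30)],
[(1,0),(2,8),(4,18),(10,28),(13,12),(14,6)],
[(1,0),(2,9),(2,22),(3,0),(5,6),(5,25)],
[(1,0),(2,10),(6,2),(9,23),(12,3),(13,5)],
[(1,0),(2,11),(2,20),(5,0),(11,0),(12,0)],
[(1,0),(2,13),(8,9),(9,27),(10,30),(11,6)],
[(1,0),(2,15),(7,9),(9,16),(10,8),(13,6)],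
[(1,0),(2,16),(7,22),(9,15),(10,23),(13,25)],
[(1,0),(2,18),(8,22),(9,4),(10,1),(11,25)],
[(1,0),(2,21),(6,29),(9,8),(12,28),(13,26)]]

def P471x1 : List (List (ℕ × ℕ)) := [
[(1,0),(2,23),(4,13),(10,3),(13,19),(14,25)],
[(1,0),(2,24),(3,29),(7,21),(8,7),(13,1)],
[(1,0),(2,26),(3,13),(5,18),(9,19),(11,17)],
[(1,0),(2,27),(3,26),(4,7),(10,19),(12,10)],
[(1,0),(2,28),(4,22),(8,29),(9,7),(14,18)],
[(1,0),(2,30),(7,3),(8,14),(10,5),(14,29)],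
[(1,0),(3,7),(8,11),(9,14),(12,9),(13,13)],
[(1,0),(3,10),(5,28),(7,6),(8,3),(12,29)],
[(1,0),(3,14),(5,15),(9,18),(13,22),(14,10)],
[(1,0),(3,15),(4,20),(7,29),(8,25),(14,4)],
[(1,0),(3,16),(4,11),(7,2),(8,6),(14,27)],
[(1,0),(3,17),(5,16),(9,13),(13,9),(14,21)],
[(1,0),(3,21),(5,3),(7,25),(8,28),(12,2)],
[(1,0),(3,24),(8,20),(9,17),(12,22),(13,18)],
[(1,0),(4,0),(5,12),(5,19),(8,0),(14,0)],
[(1,0),(4,4),(5,7),(6,21),(8,18),(12,5)],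
[(1,0),(4,15),(5,29),(11,8),(12,25),(13,2)],
[(1,0),(4,16),(5,2),(11,23),(12,6),(13,29)],
[(1,0),(4,27),(5,24),(6,10),(8,13),(12,26)],
[(1,0),(6,0),(9,0),(10,6),(10,25),(13,0)],
[(1,0),(6,1),(7,16),(12,18),(13,8),(14,19)],
[(1,0),(6,9),(7,26),(8,21),(9,29),(13,10)],
[(1,0),(6,22),(7,5),(8,10),(9,2),(13,21)],
[(1,0),(6,30),(7,15),(12,13),(13,23),(14,12)],
[(2,0),(2,1),(4,5),(4,27),(6,15),(6,17)],
[(2,0),(2,3),(5,9),(5,25),(8,11),(8,23)],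
[(2,0),(2,4),(3,7),(3,28),(5,5),(5,30)],
[(2,0),(2,5),(7,17),(7,19),(10,1),(10,4)],
[(2,0),(2,7),(3,17),(3,21),(14,14),(14,24)],
[(2,0),(2,12),(4,3),(4,9),(6,2),(6,10)],
[(2,0),(2,14),(4,2),(4,12),(6,20),(6,25)],
[(2,0),(2,15),(8,5),(8,10),(9,20),(9,26)],
[(2,0),(3,0),(5,0),(12,5),(12,26),(14,0)],
[(2,0),(3,2),(6,9),(7,22),(8,3),(10,18)],
[(2,0),(3,6),(8,22),(9,3),(11,16),(14,20)],
[(2,0),(3,8),(5,27),(9,9),(10,10),(14,6)],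
[(2,0),(3,12),(4,14),(5,29),(8,25),(14,13)],
[(2,0),(3,19),(4,17),(5,2),(8,6),(14,18)],
[(2,0),(3,23),(5,4),(9,22),(10,21),(14,25)],
[(2,0),(3,25),(8,9),(9,28),(11,15),(14,11)],
[(2,0),(3,29),(6,22),(7,9),(8,28),(10,13)],
[(2,0),(4,0),(9,4),(9,27),(12,13),(12,18)],
[(2,0),(4,1),(8,13),(12,9),(13,6),(14,22)],
[(2,0),(4,7),(6,27),(11,4),(13,14),(14,16)],
[(2,0),(4,13),(6,28),(8,7),(10,2),(12,1)],
[(2,0),(4,15),(5,10),(9,12),(11,5),(13,1)],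
[(2,0),(4,16),(5,21),(9,19),(11,26),(13,30)],
[(2,0),(4,18),(6,3),(8,24),(10,29),(12,30)],
[(2,0),(4,24),(6,4),(11,27),(13,17),(14,15)],
[(2,0),(4,30),(8,18),(12,22),(13,25),(14,9)],
[(2,0),(5,12),(7,1),(12,21),(13,15),(14,23)],
[(2,0),(5,19),(7,30),(12,10),(13,16),(14,8)],
[(2,0),(6,0),(7,11),(7,20),(10,3),(10,28)],
[(2,0),(6,5),(10,22),(11,6),(12,2),(13,19)],
[(2,0),(6,13),(7,15),(9,25),(11,8),(14,19)],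
[(2,0),(6,18),(7,16),(9,6),(11,23),(14,12)],
[(2,0),(6,26),(10,9),(11,25),(12,29),(13,12)],
[(3,0),(3,1),(4,10),(4,22),(9,11),(9,21)],
[(3,0),(3,5),(6,6),(6,30),(11,18),(14,18)],
[(3,0),(3,6),(6,18),(6,19),(9,15),(9,22)],
[(3,0),(3,8),(6,10),(6,29),(11,14),(11,25)],
[(3,0),(3,9),(8,20),(12,20),(13,19),(13,21)],
[(3,0),(3,11),(8,17),(8,25),(13,4),(13,7)],
[(3,0),(3,12),(6,17),(6,26),(13,1),(13,11)],
[(3,0),(3,13),(6,22),(7,22),(12,22),(14,22)],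
[(3,0),(3,14),(10,17),(10,28),(11,3),(11,11)],
[(3,0),(3,15),(10,21),(10,25),(13,2),(13,13)],
[(3,0),(4,0),(9,0),(12,0),(13,15),(13,16)],
[(3,0),(4,3),(5,28),(9,8),(12,14),(14,26)],
[(3,0),(4,4),(4,27),(7,0),(8,0),(13,0)],
[(3,0),(4,6),(9,13),(10,9),(11,12),(12,1)],
[(3,0),(4,13),(5,11),(6,8),(10,19),(11,15)],
[(3,0),(4,14),(6,16),(11,26),(12,18),(14,21)],
[(3,0),(4,15),(5,24),(10,8),(12,6),(13,26)],
[(3,0),(4,16),(5,7),(10,23),(12,25),(13,5)],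
[(3,0),(4,17),(6,15),(11,5),(12,13),(14,10)],
[(3,0),(4,18),(5,20),(6,23),(10,12),(11,16)],
[(3,0),(4,25),(9,18),(10,22),(11,19),(12,30)],
[(3,0),(4,28),(5,3),(9,23),(12,17),(14,5)],
[(3,0),(6,0),(7,10),(7,21),(10,0),(11,0)],
[(3,0),(6,3),(7,12),(8,5),(13,14),(14,19)],
[(3,0),(6,28),(7,19),(8,26),(13,17),(14,12)],
[(4,0),(4,1),(9,10),(9,22),(12,7),(12,25)],
[(4,0),(4,3),(5,4),(5,30),(10,1),(10,2)],
[(4,0),(4,13),(7,5),(7,8),(10,17),(10,27)],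
[(4,0),(5,7),(5,24),(6,0),(8,15),(8,16)],
[(4,0),(5,10),(6,28),(7,29),(13,30),(14,6)],
[(4,0),(5,21),(6,3),(7,2),(13,1),(14,25)],
[(4,0),(6,6),(8,23),(10,16),(11,8),(14,5)],
[(4,0),(6,25),(8,8),(10,15),(11,23),(14,26)],
[(4,0),(7,10),(8,2),(9,6),(11,14),(14,28)],
[(4,0),(7,21),(8,29),(9,25),(11,17),(14,3)],
[(5,0),(5,1),(7,8),(7,24),(9,6),(9,26)],
[(5,0),(5,3),(10,4),(10,30),(13,13),(13,21)],
[(5,0),(5,4),(7,5),(7,30),(9,16),(9,19)],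
[(5,0),(5,8),(8,15),(8,24),(11,19),(11,20)],
[(5,0),(5,9),(11,3),(11,6),(12,12),(12,28)],
[(5,0),(5,10),(6,2),(6,8),(8,13),(8,28)],
[(5,0),(5,13),(7,3),(7,10),(9,4),(9,9)],
[(5,0),(6,5),(9,7),(10,24),(11,23),(13,14)]]

def P471x2 : List (List (ℕ × ℕ)) := [
[(5,0),(6,26),(9,24),(10,7),(11,8),(13,17)],
[(5,0),(7,0),(12,10),(12,21),(14,14),(14,17)],
[(5,0),(7,14),(9,23),(11,29),(13,26),(14,13)],
[(5,0),(7,17),(9,8),(11,2),(13,5),(14,18)],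
[(5,0),(9,0),(10,12),(10,19),(13,8),(13,23)],
[(6,0),(6,13),(7,6),(7,7),(12,19),(12,25)],
[(6,0),(6,15),(9,1),(9,14),(12,22),(12,24)],
[(7,0),(7,8),(8,18),(8,21),(13,13),(13,26)],
[(7,0),(7,13),(12,6),(12,7),(14,15),(14,29)],
[(7,0),(7,14),(10,3),(10,11),(13,4),(13,10)],
[(7,0),(8,2),(8,29),(9,0),(11,9),(11,22)],
[(8,0),(8,6),(9,11),(9,26),(11,14),(11,23)],
[(8,0),(8,10),(10,13),(10,28),(12,1),(12,9)],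
[(8,0),(8,13),(10,2),(10,11),(12,16),(12,28)],
[(8,0),(8,14),(10,6),(10,8),(12,21),(12,24)],
[(9,0),(9,9),(12,13),(12,27),(14,2),(14,7)],
[(9,0),(9,14),(10,16),(10,29),(14,15),(14,30)],
[(11,0),(11,4),(13,15),(13,20),(14,6),(14,29)],
[(11,0),(11,6),(13,14),(13,23),(14,13),(14,24)],
[(11,0),(11,14),(13,19),(13,26),(14,22),(14,23)]]

def Q471x0 : List (ℕ × List (ℕ × ℕ)) := [
(3,[(0,0),(4,3),(8,13),(9,20),(13,25)]),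
(5,[(0,0),(4,4),(8,7),(9,6),(13,23)]),
(4,[(0,0),(4,7),(8,20),(9,26),(13,17)]),
(1,[(0,0),(4,24),(8,11),(9,5),(13,14)]),
(2,[(0,0),(4,27),(8,24),(9,25),(13,8)]),
(0,[(0,0),(4,28),(8,18),(9,11),(13,6)]),
(5,[(1,0),(5,1),(6,11),(10,27),(14,9)]),
(1,[(1,0),(5,4),(6,13),(10,15),(14,5)]),
(0,[(1,0),(5,5),(6,24),(10,11),(14,14)]),
(3,[(1,0),(5,26),(6,7),(10,20),(14,17)]),
(4,[(1,0),(5,27),(6,18),(10,16),(14,26)]),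
(2,[(1,0),(5,30),(6,20),(10,4),(14,22)]),
(3,[(2,0),(3,4),(7,29),(11,12),(12,28)]),
(1,[(2,0),(3,11),(7,10),(11,2),(12,15)]),
(2,[(2,0),(3,15),(7,8),(11,14),(12,12)]),
(5,[(2,0),(3,16),(7,23),(11,17),(12,19)]),
(4,[(2,0),(3,20),(7,21),(11,29),(12,16)]),
(0,[(2,0),(3,27),(7,2),(11,19),(12,3)])]

theorem s471 : StOn (Fin 471) 6 :=
  st_of_chkH 6 15 1 1 31 6 (st_self _) (P471x0 ++ P471x1 ++ P471x2)
    (Q471x0) (by decide +kernel)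

end H9St
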