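import Mathlib
import Pool.Agent.H9.StHole

namespace H9St

set_option maxRecDepth 100000

def P76x0 : List (List (ℕ × ℕ)) := [
[(0,0),(0,5),(1,16),(1,8),(2,14),(3,4)],
[(0,0),(0,10),(0,4),(1,10),(2,4),(3,0)],
[(0,0),(0,1),(0,8),(1,15),(2,11),(3,2)],
[(0,0),(0,16),(1,9),(2,17),(2,18),(3,3)],
[(0,0),(0,2),(1,4),(2,8),(3,7),(3,14)],
[(0,0),(1,5),(2,5),(2,15),(2,7),(2,12)],
[(0,0),(1,1),(1,17),(1,13),(1,18),(3,17)],
[(0,0),(2,16),(3,10),(3,11),(3,16),(3,8)],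
[(1,0),(1,10),(2,5),(2,11),(3,12),(3,8)],
[(1,0),(1,6),(2,3),(2,18),(3,1),(3,11)]]

theorem s76 : StOn (Fin 76) 6 :=
  st_of_chkL 0 4 1 1 19 6 (by norm_num) (P76x0) []
    (by decide +kernel)

end H9St
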