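import Mathlib
import Pool.Agent.H9.StH76

namespace H9St

set_option maxRecDepth 100000

def P561x0 : List (List (ℕ × ℕ)) := [
[(0,0),(0,95),(0,83),(0,11),(0,3),(0,30)],
[(0,0),(0,93),(0,71),(0,56),(0,50),(0,16)],
[(0,0),(0,87),(0,51),(0,23),(0,96),(0,58)],
[(0,0),(0,79),(1,63),(2,36),(3,18),(4,3)],
[(0,0),(0,49),(1,71),(2,96),(3,48),(4,8)],
[(0,0),(0,31),(1,91),(2,93),(3,62),(4,20)],
[(0,0),(1,89),(1,41),(2,63),(3,88),(4,40)],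
[(0,0),(1,79),(2,64),(3,61),(3,43),(4,27)],
[(0,0),(1,77),(1,11),(2,71),(3,73),(4,42)],
[(0,0),(1,57),(2,49),(2,1),(3,23),(4,48)],
[(0,0),(1,55),(2,35),(2,66),(3,29),(4,31)],
[(0,0),(1,49),(2,9),(3,1),(3,50),(4,72)],
[(0,0),(1,25),(2,74),(3,34),(4,75),(4,26)],
[(0,0),(1,94),(1,76),(2,60),(3,33),(4,15)],
[(0,0),(1,82),(2,79),(2,61),(3,45),(4,18)],
[(0,0),(1,70),(2,52),(3,37),(4,34),(4,16)],
[(0,0),(1,66),(2,24),(3,35),(3,4),(4,95)],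
[(0,0),(1,2),(2,68),(3,26),(4,37),(4,6)],
[(1,0),(1,95),(1,83),(1,11),(1,3),(1,30)],
[(1,0),(1,93),(1,71),(1,56),(1,50),(1,16)],
[(1,0),(1,87),(1,51),(1,23),(1,96),(1,58)],
[(2,0),(2,95),(2,83),(2,11),(2,3),(2,30)],
[(2,0),(2,93),(2,71),(2,56),(2,50),(2,16)],
[(2,0),(2,87),(2,51),(2,23),(2,96),(2,58)],
[(3,0),(3,95),(3,83),(3,11),(3,3),(3,30)],
[(3,0),(3,93),(3,71),(3,56),(3,50),(3,16)],
[(3,0),(3,87),(3,51),(3,23),(3,96),(3,58)],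
[(4,0),(4,95),(4,83),(4,11),(4,3),(4,30)],
[(4,0),(4,93),(4,71),(4,56),(4,50),(4,16)],
[(4,0),(4,87),(4,51),(4,23),(4,96),(4,58)]]

def Q561x0 : List (ℕ × List (ℕ × ℕ)) := [
(75,[(0,0),(1,0),(2,0),(3,0),(4,0)]),
(38,[(0,0),(1,95),(2,4),(3,32),(4,90)]),
(45,[(0,0),(1,93),(2,94),(3,77),(4,9)]),
(3,[(0,0),(1,87),(2,76),(3,57),(4,12)]),
(6,[(0,0),(1,85),(2,75),(3,64),(4,45)]),
(28,[(0,0),(1,83),(2,48),(3,69),(4,93)]),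
(30,[(0,0),(1,75),(2,37),(3,83),(4,25)]),
(53,[(0,0),(1,73),(2,30),(3,65),(4,52)]),
(13,[(0,0),(1,69),(2,77),(3,82),(4,53)]),
(74,[(0,0),(1,67),(2,2),(3,42),(4,60)]),
(11,[(0,0),(1,65),(2,6),(3,9),(4,23)]),
(52,[(0,0),(1,61),(2,91),(3,17),(4,50)]),
(42,[(0,0),(1,59),(2,8),(3,47),(4,22)]),
(61,[(0,0),(1,53),(2,95),(3,46),(4,80)]),
(31,[(0,0),(1,51),(2,78),(3,94),(4,7)]),
(55,[(0,0),(1,47),(2,11),(3,41),(4,64)]),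
(56,[(0,0),(1,45),(2,21),(3,75),(4,13)]),
(21,[(0,0),(1,43),(2,38),(3,74),(4,33)]),
(36,[(0,0),(1,39),(2,14),(3,89),(4,51)]),
(62,[(0,0),(1,37),(2,7),(3,39),(4,79)]),
(47,[(0,0),(1,35),(2,22),(3,67),(4,43)]),
(58,[(0,0),(1,33),(2,80),(3,44),(4,74)]),
(60,[(0,0),(1,31),(2,57),(3,70),(4,82)]),
(51,[(0,0),(1,29),(2,20),(3,16),(4,17)]),
(43,[(0,0),(1,27),(2,43),(3,53),(4,46)]),
(46,[(0,0),(1,23),(2,56),(3,6),(4,67)]),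
(22,[(0,0),(1,21),(2,45),(3,49),(4,35)]),
(23,[(0,0),(1,19),(2,18),(3,38),(4,47)]),
(64,[(0,0),(1,17),(2,70),(3,15),(4,63)]),
(63,[(0,0),(1,15),(2,46),(3,72),(4,85)]),
(69,[(0,0),(1,13),(2,25),(3,40),(4,71)]),
(29,[(0,0),(1,9),(2,59),(3,78),(4,77)]),
(41,[(0,0),(1,7),(2,5),(3,11),(4,39)]),
(7,[(0,0),(1,5),(2,73),(3,20),(4,89)]),
(5,[(0,0),(1,3),(2,17),(3,91),(4,59)]),
(57,[(0,0),(1,1),(2,81),(3,13),(4,4)]),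
(20,[(0,0),(1,96),(2,19),(3,28),(4,78)]),
(18,[(0,0),(1,92),(2,31),(3,87),(4,54)]),
(34,[(0,0),(1,90),(2,44),(3,71),(4,87)]),
(48,[(0,0),(1,88),(2,84),(3,85),(4,68)]),
(0,[(0,0),(1,86),(2,67),(3,22),(4,10)]),
(59,[(0,0),(1,84),(2,32),(3,8),(4,62)]),
(54,[(0,0),(1,80),(2,12),(3,3),(4,96)]),
(12,[(0,0),(1,78),(2,33),(3,21),(4,11)]),
(14,[(0,0),(1,74),(2,42),(3,80),(4,83)]),
(33,[(0,0),(1,72),(2,50),(3,12),(4,58)]),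
(4,[(0,0),(1,68),(2,15),(3,84),(4,92)]),
(24,[(0,0),(1,64),(2,10),(3,5),(4,41)]),
(25,[(0,0),(1,62),(2,83),(3,10),(4,14)]),
(44,[(0,0),(1,58),(2,65),(3,63),(4,69)]),
(27,[(0,0),(1,56),(2,23),(3,66),(4,61)]),
(50,[(0,0),(1,54),(2,89),(3,76),(4,24)]),
(9,[(0,0),(1,52),(2,40),(3,30),(4,19)]),
(26,[(0,0),(1,50),(2,69),(3,68),(4,88)]),
(70,[(0,0),(1,48),(2,82),(3,2),(4,55)]),
(39,[(0,0),(1,46),(2,85),(3,60),(4,38)]),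
(1,[(0,0),(1,44),(2,16),(3,24),(4,29)]),
(73,[(0,0),(1,42),(2,90),(3,27),(4,44)]),
(68,[(0,0),(1,40),(2,58),(3,95),(4,65)]),
(8,[(0,0),(1,38),(2,41),(3,55),(4,32)]),
(15,[(0,0),(1,36),(2,92),(3,59),(4,5)]),
(67,[(0,0),(1,34),(2,51),(3,7),(4,49)]),
(71,[(0,0),(1,32),(2,72),(3,90),(4,30)]),
(49,[(0,0),(1,30),(2,53),(3,86),(4,36)]),
(32,[(0,0),(1,28),(2,86),(3,93),(4,91)]),
(72,[(0,0),(1,26),(2,39),(3,51),(4,66)]),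
(19,[(0,0),(1,24),(2,28),(3,14),(4,76)]),
(17,[(0,0),(1,20),(2,29),(3,79),(4,1)]),
(65,[(0,0),(1,18),(2,55),(3,25),(4,57)]),
(40,[(0,0),(1,16),(2,26),(3,19),(4,70)]),
(2,[(0,0),(1,14),(2,88),(3,56),(4,94)]),
(66,[(0,0),(1,12),(2,27),(3,58),(4,84)]),
(37,[(0,0),(1,10),(2,3),(3,54),(4,81)]),
(10,[(0,0),(1,8),(2,13),(3,81),(4,28)]),
(35,[(0,0),(1,6),(2,34),(3,92),(4,2)]),
(16,[(0,0),(1,4),(2,87),(3,52),(4,73)])]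

theorem s561 : StOn (Fin 561) 6 :=
  st_of_chkH 76 5 1 1 97 6 s76 (P561x0)
    (Q561x0) (by decide +kernel)

end H9St
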