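import Mathlib
import Pool.Agent.H9.StH76

namespace H9St

set_option maxRecDepth 100000

def P591x0 : List (List (ℕ × ℕ)) := [
[(0,0),(0,68),(0,52),(0,83),(0,55),(0,45)],
[(0,0),(0,33),(0,27),(4,48),(4,43),(4,72)],
[(0,0),(0,101),(0,9),(4,93),(4,67),(4,53)],
[(0,0),(0,66),(0,12),(1,5),(1,90),(1,86)],
[(0,0),(0,99),(0,18),(4,25),(4,13),(4,79)],
[(0,0),(0,64),(0,43),(3,33),(3,58),(3,16)],
[(0,0),(0,29),(0,5),(1,60),(1,93),(1,87)],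
[(0,0),(0,62),(0,30),(3,89),(3,36),(3,70)],
[(0,0),(0,95),(0,59),(3,48),(3,1),(3,2)],
[(0,0),(0,25),(0,86),(2,31),(2,10),(2,70)],
[(0,0),(0,56),(0,57),(2,11),(2,55),(2,47)],
[(0,0),(0,89),(0,26),(1,36),(1,34),(1,45)],
[(0,0),(0,19),(0,69),(2,33),(2,95),(2,63)],
[(1,0),(1,68),(1,52),(1,83),(1,55),(1,45)],
[(1,0),(1,66),(1,12),(2,5),(2,90),(2,86)],
[(1,0),(1,64),(1,43),(4,33),(4,58),(4,16)],
[(1,0),(1,29),(1,5),(2,60),(2,93),(2,87)],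
[(1,0),(1,62),(1,30),(4,89),(4,36),(4,70)],
[(1,0),(1,95),(1,59),(4,48),(4,1),(4,2)],
[(1,0),(1,25),(1,86),(3,31),(3,10),(3,70)],
[(1,0),(1,56),(1,57),(3,11),(3,55),(3,47)],
[(1,0),(1,89),(1,26),(2,36),(2,34),(2,45)],
[(1,0),(1,19),(1,69),(3,33),(3,95),(3,63)],
[(2,0),(2,68),(2,52),(2,83),(2,55),(2,45)],
[(2,0),(2,66),(2,12),(3,5),(3,90),(3,86)],
[(2,0),(2,29),(2,5),(3,60),(3,93),(3,87)],
[(2,0),(2,25),(2,86),(4,31),(4,10),(4,70)],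
[(2,0),(2,56),(2,57),(4,11),(4,55),(4,47)],
[(2,0),(2,89),(2,26),(3,36),(3,34),(3,45)],
[(2,0),(2,19),(2,69),(4,33),(4,95),(4,63)],
[(3,0),(3,68),(3,52),(3,83),(3,55),(3,45)],
[(3,0),(3,66),(3,12),(4,5),(4,90),(4,86)],
[(3,0),(3,29),(3,5),(4,60),(4,93),(4,87)],
[(3,0),(3,89),(3,26),(4,36),(4,34),(4,45)],
[(4,0),(4,68),(4,52),(4,83),(4,55),(4,45)]]

def Q591x0 : List (ℕ × List (ℕ × ℕ)) := [
(75,[(0,0),(1,0),(2,0),(3,0),(4,0)]),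
(66,[(0,0),(1,68),(2,50),(3,30),(4,73)]),
(33,[(0,0),(1,33),(2,5),(3,7),(4,54)]),
(58,[(0,0),(1,101),(2,61),(3,28),(4,99)]),
(41,[(0,0),(1,66),(2,60),(3,37),(4,46)]),
(73,[(0,0),(1,99),(2,3),(3,24),(4,65)]),
(16,[(0,0),(1,29),(2,81),(3,82),(4,14)]),
(38,[(0,0),(1,97),(2,74),(3,83),(4,37)]),
(54,[(0,0),(1,62),(2,80),(3,71),(4,97)]),
(47,[(0,0),(1,27),(2,100),(3,78),(4,89)]),
(3,[(0,0),(1,95),(2,46),(3,4),(4,88)]),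
(7,[(0,0),(1,25),(2,78),(3,47),(4,91)]),
(23,[(0,0),(1,23),(2,69),(3,31),(4,5)]),
(31,[(0,0),(1,91),(2,64),(3,12),(4,1)]),
(15,[(0,0),(1,56),(2,59),(3,99),(4,75)]),
(67,[(0,0),(1,21),(2,62),(3,100),(4,96)]),
(19,[(0,0),(1,89),(2,15),(3,67),(4,68)]),
(0,[(0,0),(1,54),(2,12),(3,96),(4,8)]),
(28,[(0,0),(1,52),(2,53),(3,88),(4,74)]),
(2,[(0,0),(1,17),(2,86),(3,102),(4,66)]),
(63,[(0,0),(1,85),(2,65),(3,5),(4,35)]),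
(6,[(0,0),(1,15),(2,7),(3,61),(4,19)]),
(60,[(0,0),(1,83),(2,23),(3,53),(4,18)]),
(65,[(0,0),(1,13),(2,52),(3,84),(4,81)]),
(56,[(0,0),(1,81),(2,92),(3,3),(4,30)]),
(20,[(0,0),(1,46),(2,8),(3,85),(4,80)]),
(53,[(0,0),(1,11),(2,25),(3,52),(4,22)]),
(21,[(0,0),(1,79),(2,4),(3,60),(4,63)]),
(13,[(0,0),(1,44),(2,56),(3,81),(4,31)]),
(32,[(0,0),(1,9),(2,66),(3,29),(4,23)]),
(29,[(0,0),(1,77),(2,72),(3,95),(4,38)]),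
(70,[(0,0),(1,7),(2,28),(3,69),(4,4)]),
(30,[(0,0),(1,75),(2,77),(3,21),(4,70)]),
(24,[(0,0),(1,40),(2,16),(3,44),(4,100)]),
(59,[(0,0),(1,73),(2,51),(3,62),(4,76)]),
(61,[(0,0),(1,38),(2,34),(3,41),(4,62)]),
(27,[(0,0),(1,3),(2,43),(3,19),(4,47)]),
(49,[(0,0),(1,71),(2,75),(3,73),(4,33)]),
(25,[(0,0),(1,1),(2,36),(3,22),(4,51)]),
(14,[(0,0),(1,69),(2,85),(3,49),(4,86)]),
(34,[(0,0),(1,102),(2,90),(3,63),(4,11)]),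
(8,[(0,0),(1,67),(2,1),(3,18),(4,87)]),
(74,[(0,0),(1,32),(2,29),(3,51),(4,64)]),
(71,[(0,0),(1,100),(2,19),(3,32),(4,71)]),
(17,[(0,0),(1,65),(2,39),(3,34),(4,57)]),
(69,[(0,0),(1,30),(2,98),(3,80),(4,60)]),
(26,[(0,0),(1,98),(2,18),(3,64),(4,26)]),
(55,[(0,0),(1,63),(2,30),(3,101),(4,2)]),
(18,[(0,0),(1,28),(2,84),(3,87),(4,24)]),
(12,[(0,0),(1,61),(2,42),(3,57),(4,49)]),
(45,[(0,0),(1,26),(2,32),(3,94),(4,9)]),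
(48,[(0,0),(1,94),(2,17),(3,23),(4,85)]),
(37,[(0,0),(1,92),(2,91),(3,79),(4,52)]),
(44,[(0,0),(1,57),(2,20),(3,14),(4,94)]),
(68,[(0,0),(1,22),(2,35),(3,74),(4,3)]),
(4,[(0,0),(1,53),(2,22),(3,66),(4,78)]),
(51,[(0,0),(1,18),(2,9),(3,35),(4,41)]),
(40,[(0,0),(1,51),(2,40),(3,39),(4,27)]),
(11,[(0,0),(1,16),(2,83),(3,17),(4,34)]),
(9,[(0,0),(1,84),(2,99),(3,91),(4,42)]),
(36,[(0,0),(1,49),(2,82),(3,54),(4,56)]),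
(50,[(0,0),(1,14),(2,41),(3,11),(4,92)]),
(39,[(0,0),(1,47),(2,96),(3,26),(4,101)]),
(10,[(0,0),(1,12),(2,37),(3,90),(4,59)]),
(35,[(0,0),(1,80),(2,89),(3,43),(4,6)]),
(72,[(0,0),(1,43),(2,73),(3,38),(4,20)]),
(43,[(0,0),(1,76),(2,24),(3,13),(4,12)]),
(64,[(0,0),(1,41),(2,79),(3,75),(4,82)]),
(57,[(0,0),(1,6),(2,68),(3,86),(4,77)]),
(62,[(0,0),(1,39),(2,71),(3,68),(4,90)]),
(46,[(0,0),(1,4),(2,2),(3,65),(4,32)]),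
(1,[(0,0),(1,72),(2,13),(3,25),(4,50)]),
(5,[(0,0),(1,37),(2,54),(3,20),(4,36)]),
(42,[(0,0),(1,2),(2,49),(3,98),(4,28)]),
(52,[(0,0),(1,70),(2,38),(3,42),(4,40)]),
(22,[(0,0),(1,35),(2,21),(3,50),(4,102)])]

theorem s591 : StOn (Fin 591) 6 :=
  st_of_chkH 76 5 1 1 103 6 s76 (P591x0)
    (Q591x0) (by decide +kernel)

end H9St
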