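import Mathlib
import Pool.Agent.H9.StH76

namespace H9St

set_option maxRecDepth 100000

def P646x0 : List (List (ℕ × ℕ)) := [
[(0,0),(0,4),(0,10),(5,8),(5,16),(5,9)],
[(0,0),(0,8),(0,1),(25,2),(25,11),(25,15)],
[(0,0),(0,16),(7,15),(20,12),(22,5),(23,13)],
[(0,0),(0,5),(7,13),(20,18),(22,17),(23,10)],
[(0,0),(0,17),(7,10),(20,8),(22,16),(23,15)],
[(0,0),(1,0),(3,0),(8,0),(12,0),(18,0)],
[(0,0),(1,8),(8,14),(8,11),(15,10),(28,7)],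
[(0,0),(1,12),(8,2),(8,7),(15,15),(28,1)],
[(0,0),(1,1),(4,18),(10,5),(21,12),(25,4)],
[(0,0),(1,18),(8,1),(8,3),(15,13),(28,11)],
[(0,0),(1,7),(4,12),(10,16),(21,8),(25,9)],
[(0,0),(1,11),(4,8),(10,17),(21,18),(25,6)],
[(0,0),(2,8),(3,7),(10,9),(10,11),(17,2)],
[(0,0),(2,12),(3,1),(10,4),(10,7),(17,3)],
[(0,0),(2,18),(3,11),(10,1),(10,6),(17,14)],
[(0,0),(3,16),(9,6),(20,7),(24,14),(29,8)],
[(0,0),(3,5),(9,9),(20,1),(24,2),(29,12)],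
[(0,0),(3,17),(9,4),(20,11),(24,3),(29,18)],
[(0,0),(4,0),(10,0),(23,0),(24,0),(26,0)],
[(0,0),(4,1),(9,11),(10,18),(13,4),(19,8)],
[(0,0),(4,7),(9,1),(10,12),(13,9),(19,18)],
[(0,0),(4,11),(9,7),(10,8),(13,6),(19,12)],
[(0,0),(5,0),(9,0),(15,0),(28,0),(29,0)],
[(0,0),(5,1),(10,15),(15,3),(20,6),(25,17)],
[(0,0),(5,13),(6,5),(9,2),(15,11),(26,12)],
[(0,0),(5,2),(10,3),(15,17),(20,5),(25,8)],
[(0,0),(5,10),(6,17),(9,3),(15,7),(26,18)],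
[(0,0),(5,14),(10,2),(15,5),(20,16),(25,18)],
[(0,0),(5,3),(10,14),(15,16),(20,17),(25,12)],
[(0,0),(5,7),(10,10),(15,2),(20,4),(25,5)],
[(0,0),(5,11),(10,13),(15,14),(20,9),(25,16)],
[(0,0),(5,15),(6,16),(9,14),(15,1),(26,8)],
[(0,0),(6,0),(19,0),(20,0),(22,0),(27,0)],
[(0,0),(6,4),(17,15),(21,16),(26,7),(27,14)],
[(0,0),(6,9),(17,10),(21,17),(26,11),(27,3)],
[(0,0),(6,6),(17,13),(21,5),(26,1),(27,2)],
[(0,0),(7,4),(7,2),(14,14),(27,12),(29,1)],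
[(0,0),(7,9),(7,14),(14,3),(27,8),(29,7)],
[(0,0),(7,6),(7,3),(14,2),(27,18),(29,11)],
[(0,0),(11,1),(15,8),(20,2),(21,13),(24,10)],
[(0,0),(11,7),(15,18),(20,14),(21,15),(24,13)],
[(0,0),(11,11),(15,12),(20,3),(21,10),(24,15)],
[(0,0),(13,0),(14,0),(16,0),(21,0),(25,0)],
[(0,0),(13,16),(15,9),(16,17),(23,4),(23,1)],
[(0,0),(13,5),(15,4),(16,16),(23,6),(23,11)],
[(0,0),(13,17),(15,6),(16,5),(23,9),(23,7)],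
[(1,0),(1,4),(1,10),(6,8),(6,16),(6,9)],
[(1,0),(1,8),(1,1),(26,2),(26,11),(26,15)],
[(1,0),(1,16),(8,15),(21,12),(23,5),(24,13)],
[(1,0),(1,5),(8,13),(21,18),(23,17),(24,10)],
[(1,0),(1,17),(8,10),(21,8),(23,16),(24,15)],
[(1,0),(2,0),(4,0),(9,0),(13,0),(19,0)],
[(1,0),(2,8),(9,14),(9,11),(16,10),(29,7)],
[(1,0),(2,12),(9,2),(9,7),(16,15),(29,1)],
[(1,0),(2,1),(5,18),(11,5),(22,12),(26,4)],
[(1,0),(2,18),(9,1),(9,3),(16,13),(29,11)],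
[(1,0),(2,7),(5,12),(11,16),(22,8),(26,9)],
[(1,0),(2,11),(5,8),(11,17),(22,18),(26,6)],
[(1,0),(3,8),(4,7),(11,9),(11,11),(18,2)],
[(1,0),(3,12),(4,1),(11,4),(11,7),(18,3)],
[(1,0),(3,18),(4,11),(11,1),(11,6),(18,14)],
[(1,0),(5,0),(11,0),(24,0),(25,0),(27,0)],
[(1,0),(5,1),(10,11),(11,18),(14,4),(20,8)],
[(1,0),(5,7),(10,1),(11,12),(14,9),(20,18)],
[(1,0),(5,11),(10,7),(11,8),(14,6),(20,12)],
[(1,0),(6,1),(11,15),(16,3),(21,6),(26,17)],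
[(1,0),(6,13),(7,5),(10,2),(16,11),(27,12)],
[(1,0),(6,2),(11,3),(16,17),(21,5),(26,8)],
[(1,0),(6,10),(7,17),(10,3),(16,7),(27,18)],
[(1,0),(6,14),(11,2),(16,5),(21,16),(26,18)],
[(1,0),(6,3),(11,14),(16,16),(21,17),(26,12)],
[(1,0),(6,7),(11,10),(16,2),(21,4),(26,5)],
[(1,0),(6,11),(11,13),(16,14),(21,9),(26,16)],
[(1,0),(6,15),(7,16),(10,14),(16,1),(27,8)],
[(1,0),(7,0),(20,0),(21,0),(23,0),(28,0)],
[(1,0),(7,4),(18,15),(22,16),(27,7),(28,14)],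
[(1,0),(7,9),(18,10),(22,17),(27,11),(28,3)],
[(1,0),(7,6),(18,13),(22,5),(27,1),(28,2)],
[(1,0),(12,1),(16,8),(21,2),(22,13),(25,10)],
[(1,0),(12,7),(16,18),(21,14),(22,15),(25,13)],
[(1,0),(12,11),(16,12),(21,3),(22,10),(25,15)],
[(1,0),(14,0),(15,0),(17,0),(22,0),(26,0)],
[(1,0),(14,16),(16,9),(17,17),(24,4),(24,1)],
[(1,0),(14,5),(16,4),(17,16),(24,6),(24,11)],
[(1,0),(14,17),(16,6),(17,5),(24,9),(24,7)],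
[(2,0),(2,4),(2,10),(7,8),(7,16),(7,9)],
[(2,0),(2,8),(2,1),(27,2),(27,11),(27,15)],
[(2,0),(2,16),(9,15),(22,12),(24,5),(25,13)],
[(2,0),(2,5),(9,13),(22,18),(24,17),(25,10)],
[(2,0),(2,17),(9,10),(22,8),(24,16),(25,15)],
[(2,0),(3,0),(5,0),(10,0),(14,0),(20,0)],
[(2,0),(3,1),(6,18),(12,5),(23,12),(27,4)],
[(2,0),(3,7),(6,12),(12,16),(23,8),(27,9)],
[(2,0),(3,11),(6,8),(12,17),(23,18),(27,6)],
[(2,0),(4,8),(5,7),(12,9),(12,11),(19,2)],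
[(2,0),(4,12),(5,1),(12,4),(12,7),(19,3)],
[(2,0),(4,18),(5,11),(12,1),(12,6),(19,14)],
[(2,0),(6,0),(12,0),(25,0),(26,0),(28,0)],
[(2,0),(6,1),(11,11),(12,18),(15,4),(21,8)],
[(2,0),(6,7),(11,1),(12,12),(15,9),(21,18)]]

def P646x1 : List (List (ℕ × ℕ)) := [
[(2,0),(6,11),(11,7),(12,8),(15,6),(21,12)],
[(2,0),(7,1),(12,15),(17,3),(22,6),(27,17)],
[(2,0),(7,13),(8,5),(11,2),(17,11),(28,12)],
[(2,0),(7,2),(12,3),(17,17),(22,5),(27,8)],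
[(2,0),(7,10),(8,17),(11,3),(17,7),(28,18)],
[(2,0),(7,14),(12,2),(17,5),(22,16),(27,18)],
[(2,0),(7,3),(12,14),(17,16),(22,17),(27,12)],
[(2,0),(7,7),(12,10),(17,2),(22,4),(27,5)],
[(2,0),(7,11),(12,13),(17,14),(22,9),(27,16)],
[(2,0),(7,15),(8,16),(11,14),(17,1),(28,8)],
[(2,0),(8,0),(21,0),(22,0),(24,0),(29,0)],
[(2,0),(8,4),(19,15),(23,16),(28,7),(29,14)],
[(2,0),(8,9),(19,10),(23,17),(28,11),(29,3)],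
[(2,0),(8,6),(19,13),(23,5),(28,1),(29,2)],
[(2,0),(13,1),(17,8),(22,2),(23,13),(26,10)],
[(2,0),(13,7),(17,18),(22,14),(23,15),(26,13)],
[(2,0),(13,11),(17,12),(22,3),(23,10),(26,15)],
[(2,0),(15,0),(16,0),(18,0),(23,0),(27,0)],
[(2,0),(15,16),(17,9),(18,17),(25,4),(25,1)],
[(2,0),(15,5),(17,4),(18,16),(25,6),(25,11)],
[(2,0),(15,17),(17,6),(18,5),(25,9),(25,7)],
[(3,0),(3,4),(3,10),(8,8),(8,16),(8,9)],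
[(3,0),(3,8),(3,1),(28,2),(28,11),(28,15)],
[(3,0),(3,16),(10,15),(23,12),(25,5),(26,13)],
[(3,0),(3,5),(10,13),(23,18),(25,17),(26,10)],
[(3,0),(3,17),(10,10),(23,8),(25,16),(26,15)],
[(3,0),(4,0),(6,0),(11,0),(15,0),(21,0)],
[(3,0),(4,1),(7,18),(13,5),(24,12),(28,4)],
[(3,0),(4,7),(7,12),(13,16),(24,8),(28,9)],
[(3,0),(4,11),(7,8),(13,17),(24,18),(28,6)],
[(3,0),(5,8),(6,7),(13,9),(13,11),(20,2)],
[(3,0),(5,12),(6,1),(13,4),(13,7),(20,3)],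
[(3,0),(5,18),(6,11),(13,1),(13,6),(20,14)],
[(3,0),(7,0),(13,0),(26,0),(27,0),(29,0)],
[(3,0),(7,1),(12,11),(13,18),(16,4),(22,8)],
[(3,0),(7,7),(12,1),(13,12),(16,9),(22,18)],
[(3,0),(7,11),(12,7),(13,8),(16,6),(22,12)],
[(3,0),(8,1),(13,15),(18,3),(23,6),(28,17)],
[(3,0),(8,13),(9,5),(12,2),(18,11),(29,12)],
[(3,0),(8,2),(13,3),(18,17),(23,5),(28,8)],
[(3,0),(8,10),(9,17),(12,3),(18,7),(29,18)],
[(3,0),(8,14),(13,2),(18,5),(23,16),(28,18)],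
[(3,0),(8,3),(13,14),(18,16),(23,17),(28,12)],
[(3,0),(8,7),(13,10),(18,2),(23,4),(28,5)],
[(3,0),(8,11),(13,13),(18,14),(23,9),(28,16)],
[(3,0),(8,15),(9,16),(12,14),(18,1),(29,8)],
[(3,0),(14,1),(18,8),(23,2),(24,13),(27,10)],
[(3,0),(14,7),(18,18),(23,14),(24,15),(27,13)],
[(3,0),(14,11),(18,12),(23,3),(24,10),(27,15)],
[(3,0),(16,0),(17,0),(19,0),(24,0),(28,0)],
[(3,0),(16,16),(18,9),(19,17),(26,4),(26,1)],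
[(3,0),(16,5),(18,4),(19,16),(26,6),(26,11)],
[(3,0),(16,17),(18,6),(19,5),(26,9),(26,7)],
[(4,0),(4,4),(4,10),(9,8),(9,16),(9,9)],
[(4,0),(4,8),(4,1),(29,2),(29,11),(29,15)],
[(4,0),(4,16),(11,15),(24,12),(26,5),(27,13)],
[(4,0),(4,5),(11,13),(24,18),(26,17),(27,10)],
[(4,0),(4,17),(11,10),(24,8),(26,16),(27,15)],
[(4,0),(5,0),(7,0),(12,0),(16,0),(22,0)],
[(4,0),(5,1),(8,18),(14,5),(25,12),(29,4)],
[(4,0),(5,7),(8,12),(14,16),(25,8),(29,9)],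
[(4,0),(5,11),(8,8),(14,17),(25,18),(29,6)],
[(4,0),(6,8),(7,7),(14,9),(14,11),(21,2)],
[(4,0),(6,12),(7,1),(14,4),(14,7),(21,3)],
[(4,0),(6,18),(7,11),(14,1),(14,6),(21,14)],
[(4,0),(8,1),(13,11),(14,18),(17,4),(23,8)],
[(4,0),(8,7),(13,1),(14,12),(17,9),(23,18)],
[(4,0),(8,11),(13,7),(14,8),(17,6),(23,12)],
[(4,0),(9,1),(14,15),(19,3),(24,6),(29,17)],
[(4,0),(9,2),(14,3),(19,17),(24,5),(29,8)],
[(4,0),(9,14),(14,2),(19,5),(24,16),(29,18)],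
[(4,0),(9,3),(14,14),(19,16),(24,17),(29,12)],
[(4,0),(9,7),(14,10),(19,2),(24,4),(29,5)],
[(4,0),(9,11),(14,13),(19,14),(24,9),(29,16)],
[(4,0),(15,1),(19,8),(24,2),(25,13),(28,10)],
[(4,0),(15,7),(19,18),(24,14),(25,15),(28,13)],
[(4,0),(15,11),(19,12),(24,3),(25,10),(28,15)],
[(4,0),(17,0),(18,0),(20,0),(25,0),(29,0)],
[(4,0),(17,16),(19,9),(20,17),(27,4),(27,1)],
[(4,0),(17,5),(19,4),(20,16),(27,6),(27,11)],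
[(4,0),(17,17),(19,6),(20,5),(27,9),(27,7)],
[(5,0),(5,4),(5,10),(10,8),(10,16),(10,9)],
[(5,0),(5,16),(12,15),(25,12),(27,5),(28,13)],
[(5,0),(5,5),(12,13),(25,18),(27,17),(28,10)],
[(5,0),(5,17),(12,10),(25,8),(27,16),(28,15)],
[(5,0),(6,0),(8,0),(13,0),(17,0),(23,0)],
[(5,0),(7,8),(8,7),(15,9),(15,11),(22,2)],
[(5,0),(7,12),(8,1),(15,4),(15,7),(22,3)],
[(5,0),(7,18),(8,11),(15,1),(15,6),(22,14)],
[(5,0),(9,1),(14,11),(15,18),(18,4),(24,8)],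
[(5,0),(9,7),(14,1),(15,12),(18,9),(24,18)],
[(5,0),(9,11),(14,7),(15,8),(18,6),(24,12)],
[(5,0),(16,1),(20,8),(25,2),(26,13),(29,10)],
[(5,0),(16,7),(20,18),(25,14),(26,15),(29,13)],
[(5,0),(16,11),(20,12),(25,3),(26,10),(29,15)],
[(5,0),(18,16),(20,9),(21,17),(28,4),(28,1)],
[(5,0),(18,5),(20,4),(21,16),(28,6),(28,11)],
[(5,0),(18,17),(20,6),(21,5),(28,9),(28,7)],
[(6,0),(6,4),(6,10),(11,8),(11,16),(11,9)],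
[(6,0),(6,16),(13,15),(26,12),(28,5),(29,13)]]

def P646x2 : List (List (ℕ × ℕ)) := [
[(6,0),(6,5),(13,13),(26,18),(28,17),(29,10)],
[(6,0),(6,17),(13,10),(26,8),(28,16),(29,15)],
[(6,0),(7,0),(9,0),(14,0),(18,0),(24,0)],
[(6,0),(8,8),(9,7),(16,9),(16,11),(23,2)],
[(6,0),(8,12),(9,1),(16,4),(16,7),(23,3)],
[(6,0),(8,18),(9,11),(16,1),(16,6),(23,14)],
[(6,0),(10,1),(15,11),(16,18),(19,4),(25,8)],
[(6,0),(10,7),(15,1),(16,12),(19,9),(25,18)],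
[(6,0),(10,11),(15,7),(16,8),(19,6),(25,12)],
[(6,0),(19,16),(21,9),(22,17),(29,4),(29,1)],
[(6,0),(19,5),(21,4),(22,16),(29,6),(29,11)],
[(6,0),(19,17),(21,6),(22,5),(29,9),(29,7)],
[(7,0),(7,4),(7,10),(12,8),(12,16),(12,9)],
[(7,0),(8,0),(10,0),(15,0),(19,0),(25,0)],
[(7,0),(9,8),(10,7),(17,9),(17,11),(24,2)],
[(7,0),(9,12),(10,1),(17,4),(17,7),(24,3)],
[(7,0),(9,18),(10,11),(17,1),(17,6),(24,14)],
[(7,0),(11,1),(16,11),(17,18),(20,4),(26,8)],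
[(7,0),(11,7),(16,1),(17,12),(20,9),(26,18)],
[(7,0),(11,11),(16,7),(17,8),(20,6),(26,12)],
[(8,0),(8,4),(8,10),(13,8),(13,16),(13,9)],
[(8,0),(9,0),(11,0),(16,0),(20,0),(26,0)],
[(8,0),(10,8),(11,7),(18,9),(18,11),(25,2)],
[(8,0),(10,12),(11,1),(18,4),(18,7),(25,3)],
[(8,0),(10,18),(11,11),(18,1),(18,6),(25,14)],
[(8,0),(12,1),(17,11),(18,18),(21,4),(27,8)],
[(8,0),(12,7),(17,1),(18,12),(21,9),(27,18)],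
[(8,0),(12,11),(17,7),(18,8),(21,6),(27,12)],
[(9,0),(9,4),(9,10),(14,8),(14,16),(14,9)],
[(9,0),(10,0),(12,0),(17,0),(21,0),(27,0)],
[(9,0),(11,8),(12,7),(19,9),(19,11),(26,2)],
[(9,0),(11,12),(12,1),(19,4),(19,7),(26,3)],
[(9,0),(11,18),(12,11),(19,1),(19,6),(26,14)],
[(9,0),(13,1),(18,11),(19,18),(22,4),(28,8)],
[(9,0),(13,7),(18,1),(19,12),(22,9),(28,18)],
[(9,0),(13,11),(18,7),(19,8),(22,6),(28,12)],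
[(10,0),(10,4),(10,10),(15,8),(15,16),(15,9)],
[(10,0),(11,0),(13,0),(18,0),(22,0),(28,0)],
[(10,0),(12,8),(13,7),(20,9),(20,11),(27,2)],
[(10,0),(12,12),(13,1),(20,4),(20,7),(27,3)],
[(10,0),(12,18),(13,11),(20,1),(20,6),(27,14)],
[(10,0),(14,1),(19,11),(20,18),(23,4),(29,8)],
[(10,0),(14,7),(19,1),(20,12),(23,9),(29,18)],
[(10,0),(14,11),(19,7),(20,8),(23,6),(29,12)],
[(11,0),(11,4),(11,10),(16,8),(16,16),(16,9)],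
[(11,0),(12,0),(14,0),(19,0),(23,0),(29,0)],
[(11,0),(13,8),(14,7),(21,9),(21,11),(28,2)],
[(11,0),(13,12),(14,1),(21,4),(21,7),(28,3)],
[(11,0),(13,18),(14,11),(21,1),(21,6),(28,14)],
[(12,0),(12,4),(12,10),(17,8),(17,16),(17,9)],
[(12,0),(14,8),(15,7),(22,9),(22,11),(29,2)],
[(12,0),(14,12),(15,1),(22,4),(22,7),(29,3)],
[(12,0),(14,18),(15,11),(22,1),(22,6),(29,14)],
[(13,0),(13,4),(13,10),(18,8),(18,16),(18,9)],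
[(14,0),(14,4),(14,10),(19,8),(19,16),(19,9)],
[(15,0),(15,4),(15,10),(20,8),(20,16),(20,9)],
[(16,0),(16,4),(16,10),(21,8),(21,16),(21,9)],
[(17,0),(17,4),(17,10),(22,8),(22,16),(22,9)],
[(18,0),(18,4),(18,10),(23,8),(23,16),(23,9)],
[(19,0),(19,4),(19,10),(24,8),(24,16),(24,9)],
[(20,0),(20,4),(20,10),(25,8),(25,16),(25,9)],
[(21,0),(21,4),(21,10),(26,8),(26,16),(26,9)],
[(22,0),(22,4),(22,10),(27,8),(27,16),(27,9)],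
[(23,0),(23,4),(23,10),(28,8),(28,16),(28,9)],
[(24,0),(24,4),(24,10),(29,8),(29,16),(29,9)]]

def Q646x0 : List (ℕ × List (ℕ × ℕ)) := [
(21,[(0,0),(1,4),(13,7),(19,17),(27,6)]),
(66,[(0,0),(1,16),(19,11),(27,7),(28,2)]),
(68,[(0,0),(1,5),(19,7),(27,1),(28,3)]),
(22,[(0,0),(1,9),(13,11),(19,5),(27,4)]),
(32,[(0,0),(1,13),(12,10),(14,4),(18,18)]),
(67,[(0,0),(1,17),(19,1),(27,11),(28,14)]),
(62,[(0,0),(1,2),(3,18),(4,4),(22,6)]),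
(23,[(0,0),(1,6),(13,1),(19,16),(27,9)]),
(31,[(0,0),(1,10),(12,15),(14,6),(18,8)]),
(60,[(0,0),(1,14),(3,12),(4,9),(22,4)]),
(61,[(0,0),(1,3),(3,8),(4,6),(22,9)]),
(30,[(0,0),(1,15),(12,13),(14,9),(18,12)]),
(75,[(0,0),(2,0),(7,0),(11,0),(17,0)]),
(54,[(0,0),(2,4),(8,5),(11,9),(24,17)]),
(74,[(0,0),(2,16),(3,2),(21,4),(29,17)]),
(4,[(0,0),(2,1),(4,15),(16,14),(23,2)]),
(73,[(0,0),(2,5),(3,3),(21,6),(29,16)]),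
(55,[(0,0),(2,9),(8,16),(11,6),(24,5)]),
(41,[(0,0),(2,13),(6,8),(18,9),(19,3)]),
(72,[(0,0),(2,17),(3,14),(21,9),(29,5)]),
(12,[(0,0),(2,2),(14,10),(21,11),(28,8)]),
(56,[(0,0),(2,6),(8,17),(11,4),(24,16)]),
(40,[(0,0),(2,10),(6,12),(18,4),(19,14)]),
(13,[(0,0),(2,14),(14,13),(21,1),(28,18)]),
(14,[(0,0),(2,3),(14,15),(21,7),(28,12)]),
(5,[(0,0),(2,7),(4,10),(16,3),(23,14)]),
(3,[(0,0),(2,11),(4,13),(16,2),(23,3)]),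
(39,[(0,0),(2,15),(6,18),(18,6),(19,2)]),
(45,[(0,0),(3,4),(16,12),(22,14),(24,18)]),
(46,[(0,0),(3,9),(16,8),(22,3),(24,12)]),
(15,[(0,0),(3,13),(4,17),(16,1),(22,11)]),
(47,[(0,0),(3,6),(16,18),(22,2),(24,8)]),
(17,[(0,0),(3,10),(4,16),(16,11),(22,7)]),
(16,[(0,0),(3,15),(4,5),(16,7),(22,1)]),
(34,[(0,0),(4,2),(16,13),(17,4),(28,9)]),
(35,[(0,0),(4,14),(16,15),(17,9),(28,6)]),
(33,[(0,0),(4,3),(16,10),(17,6),(28,4)]),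
(48,[(0,0),(6,1),(9,5),(22,13),(28,15)]),
(28,[(0,0),(6,13),(14,12),(17,8),(18,17)]),
(57,[(0,0),(6,2),(8,6),(14,7),(17,11)]),
(27,[(0,0),(6,10),(14,18),(17,12),(18,16)]),
(58,[(0,0),(6,14),(8,4),(14,11),(17,1)]),
(59,[(0,0),(6,3),(8,9),(14,1),(17,7)]),
(49,[(0,0),(6,7),(9,16),(22,15),(28,10)]),
(50,[(0,0),(6,11),(9,17),(22,10),(28,13)]),
(29,[(0,0),(6,15),(14,8),(17,18),(18,5)]),
(9,[(0,0),(7,16),(9,8),(11,10),(23,18)]),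
(0,[(0,0),(7,1),(14,17),(16,9),(18,11)]),
(11,[(0,0),(7,5),(9,12),(11,15),(23,8)]),
(10,[(0,0),(7,17),(9,18),(11,13),(23,12)]),
(1,[(0,0),(7,7),(14,5),(16,6),(18,1)]),
(2,[(0,0),(7,11),(14,16),(16,4),(18,7)]),
(24,[(0,0),(8,8),(11,2),(12,6),(24,9)]),
(26,[(0,0),(8,12),(11,3),(12,9),(24,4)]),
(71,[(0,0),(8,13),(9,15),(11,12),(12,17)]),
(70,[(0,0),(8,10),(9,13),(11,18),(12,16)]),
(25,[(0,0),(8,18),(11,14),(12,4),(24,6)]),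
(69,[(0,0),(8,15),(9,10),(11,8),(12,5)]),
(44,[(0,0),(11,16),(13,10),(17,5),(29,6)]),
(43,[(0,0),(11,5),(13,15),(17,17),(29,9)]),
(42,[(0,0),(11,17),(13,13),(17,16),(29,4)]),
(6,[(0,0),(12,8),(19,9),(26,6),(28,17)]),
(8,[(0,0),(12,12),(19,4),(26,9),(28,16)]),
(38,[(0,0),(12,1),(13,14),(24,11),(26,5)]),
(19,[(0,0),(12,2),(18,15),(26,14),(29,10)]),
(20,[(0,0),(12,14),(18,10),(26,3),(29,13)]),
(7,[(0,0),(12,18),(19,6),(26,4),(28,5)]),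
(18,[(0,0),(12,3),(18,13),(26,2),(29,15)]),
(36,[(0,0),(12,7),(13,3),(24,1),(26,16)]),
(37,[(0,0),(12,11),(13,2),(24,7),(26,17)]),
(51,[(0,0),(13,8),(19,10),(21,14),(27,15)]),
(53,[(0,0),(13,12),(19,15),(21,2),(27,13)]),
(52,[(0,0),(13,18),(19,13),(21,3),(27,10)]),
(65,[(0,0),(18,2),(26,15),(27,17),(29,14)]),
(63,[(0,0),(18,14),(26,10),(27,5),(29,3)]),
(64,[(0,0),(18,3),(26,13),(27,16),(29,2)]),
(24,[(1,0),(2,4),(14,7),(20,17),(28,6)]),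
(69,[(1,0),(2,16),(20,11),(28,7),(29,2)]),
(71,[(1,0),(2,5),(20,7),(28,1),(29,3)]),
(25,[(1,0),(2,9),(14,11),(20,5),(28,4)]),
(35,[(1,0),(2,13),(13,10),(15,4),(19,18)]),
(70,[(1,0),(2,17),(20,1),(28,11),(29,14)]),
(65,[(1,0),(2,2),(4,18),(5,4),(23,6)]),
(26,[(1,0),(2,6),(14,1),(20,16),(28,9)]),
(34,[(1,0),(2,10),(13,15),(15,6),(19,8)]),
(63,[(1,0),(2,14),(4,12),(5,9),(23,4)]),
(64,[(1,0),(2,3),(4,8),(5,6),(23,9)]),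
(33,[(1,0),(2,15),(13,13),(15,9),(19,12)]),
(57,[(1,0),(3,4),(9,5),(12,9),(25,17)]),
(7,[(1,0),(3,1),(5,15),(17,14),(24,2)]),
(58,[(1,0),(3,9),(9,16),(12,6),(25,5)]),
(44,[(1,0),(3,13),(7,8),(19,9),(20,3)]),
(0,[(1,0),(3,2),(15,10),(22,11),(29,8)]),
(59,[(1,0),(3,6),(9,17),(12,4),(25,16)]),
(43,[(1,0),(3,10),(7,12),(19,4),(20,14)]),
(1,[(1,0),(3,14),(15,13),(22,1),(29,18)]),
(2,[(1,0),(3,3),(15,15),(22,7),(29,12)]),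
(8,[(1,0),(3,7),(5,10),(17,3),(24,14)]),
(6,[(1,0),(3,11),(5,13),(17,2),(24,3)]),
(42,[(1,0),(3,15),(7,18),(19,6),(20,2)])]

def Q646x1 : List (ℕ × List (ℕ × ℕ)) := [
(48,[(1,0),(4,4),(17,12),(23,14),(25,18)]),
(49,[(1,0),(4,9),(17,8),(23,3),(25,12)]),
(18,[(1,0),(4,13),(5,17),(17,1),(23,11)]),
(50,[(1,0),(4,6),(17,18),(23,2),(25,8)]),
(20,[(1,0),(4,10),(5,16),(17,11),(23,7)]),
(19,[(1,0),(4,15),(5,5),(17,7),(23,1)]),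
(37,[(1,0),(5,2),(17,13),(18,4),(29,9)]),
(38,[(1,0),(5,14),(17,15),(18,9),(29,6)]),
(36,[(1,0),(5,3),(17,10),(18,6),(29,4)]),
(75,[(1,0),(6,0),(10,0),(16,0),(29,0)]),
(51,[(1,0),(7,1),(10,5),(23,13),(29,15)]),
(16,[(1,0),(7,13),(15,12),(18,8),(19,17)]),
(45,[(1,0),(7,2),(9,6),(15,7),(18,11)]),
(15,[(1,0),(7,10),(15,18),(18,12),(19,16)]),
(46,[(1,0),(7,14),(9,4),(15,11),(18,1)]),
(47,[(1,0),(7,3),(9,9),(15,1),(18,7)]),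
(52,[(1,0),(7,7),(10,16),(23,15),(29,10)]),
(53,[(1,0),(7,11),(10,17),(23,10),(29,13)]),
(17,[(1,0),(7,15),(15,8),(18,18),(19,5)]),
(12,[(1,0),(8,16),(10,8),(12,10),(24,18)]),
(3,[(1,0),(8,1),(15,17),(17,9),(19,11)]),
(14,[(1,0),(8,5),(10,12),(12,15),(24,8)]),
(13,[(1,0),(8,17),(10,18),(12,13),(24,12)]),
(4,[(1,0),(8,7),(15,5),(17,6),(19,1)]),
(5,[(1,0),(8,11),(15,16),(17,4),(19,7)]),
(27,[(1,0),(9,8),(12,2),(13,6),(25,9)]),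
(29,[(1,0),(9,12),(12,3),(13,9),(25,4)]),
(74,[(1,0),(9,13),(10,15),(12,12),(13,17)]),
(73,[(1,0),(9,10),(10,13),(12,18),(13,16)]),
(28,[(1,0),(9,18),(12,14),(13,4),(25,6)]),
(72,[(1,0),(9,15),(10,10),(12,8),(13,5)]),
(9,[(1,0),(13,8),(20,9),(27,6),(29,17)]),
(11,[(1,0),(13,12),(20,4),(27,9),(29,16)]),
(41,[(1,0),(13,1),(14,14),(25,11),(27,5)]),
(10,[(1,0),(13,18),(20,6),(27,4),(29,5)]),
(39,[(1,0),(13,7),(14,3),(25,1),(27,16)]),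
(40,[(1,0),(13,11),(14,2),(25,7),(27,17)]),
(54,[(1,0),(14,8),(20,10),(22,14),(28,15)]),
(56,[(1,0),(14,12),(20,15),(22,2),(28,13)]),
(55,[(1,0),(14,18),(20,13),(22,3),(28,10)]),
(27,[(2,0),(3,4),(15,7),(21,17),(29,6)]),
(28,[(2,0),(3,9),(15,11),(21,5),(29,4)]),
(38,[(2,0),(3,13),(14,10),(16,4),(20,18)]),
(68,[(2,0),(3,2),(5,18),(6,4),(24,6)]),
(29,[(2,0),(3,6),(15,1),(21,16),(29,9)]),
(37,[(2,0),(3,10),(14,15),(16,6),(20,8)]),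
(66,[(2,0),(3,14),(5,12),(6,9),(24,4)]),
(67,[(2,0),(3,3),(5,8),(6,6),(24,9)]),
(36,[(2,0),(3,15),(14,13),(16,9),(20,12)]),
(45,[(2,0),(4,4),(10,5),(13,9),(26,17)]),
(10,[(2,0),(4,1),(6,15),(18,14),(25,2)]),
(46,[(2,0),(4,9),(10,16),(13,6),(26,5)]),
(32,[(2,0),(4,13),(8,8),(20,9),(21,3)]),
(47,[(2,0),(4,6),(10,17),(13,4),(26,16)]),
(31,[(2,0),(4,10),(8,12),(20,4),(21,14)]),
(11,[(2,0),(4,7),(6,10),(18,3),(25,14)]),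
(9,[(2,0),(4,11),(6,13),(18,2),(25,3)]),
(30,[(2,0),(4,15),(8,18),(20,6),(21,2)]),
(51,[(2,0),(5,4),(18,12),(24,14),(26,18)]),
(52,[(2,0),(5,9),(18,8),(24,3),(26,12)]),
(21,[(2,0),(5,13),(6,17),(18,1),(24,11)]),
(53,[(2,0),(5,6),(18,18),(24,2),(26,8)]),
(23,[(2,0),(5,10),(6,16),(18,11),(24,7)]),
(22,[(2,0),(5,15),(6,5),(18,7),(24,1)]),
(19,[(2,0),(8,13),(16,12),(19,8),(20,17)]),
(48,[(2,0),(8,2),(10,6),(16,7),(19,11)]),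
(18,[(2,0),(8,10),(16,18),(19,12),(20,16)]),
(49,[(2,0),(8,14),(10,4),(16,11),(19,1)]),
(50,[(2,0),(8,3),(10,9),(16,1),(19,7)]),
(20,[(2,0),(8,15),(16,8),(19,18),(20,5)]),
(0,[(2,0),(9,16),(11,8),(13,10),(25,18)]),
(6,[(2,0),(9,1),(16,17),(18,9),(20,11)]),
(2,[(2,0),(9,5),(11,12),(13,15),(25,8)]),
(1,[(2,0),(9,17),(11,18),(13,13),(25,12)]),
(7,[(2,0),(9,7),(16,5),(18,6),(20,1)]),
(8,[(2,0),(9,11),(16,16),(18,4),(20,7)]),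
(15,[(2,0),(10,8),(13,2),(14,6),(26,9)]),
(17,[(2,0),(10,12),(13,3),(14,9),(26,4)]),
(62,[(2,0),(10,13),(11,15),(13,12),(14,17)]),
(61,[(2,0),(10,10),(11,13),(13,18),(14,16)]),
(16,[(2,0),(10,18),(13,14),(14,4),(26,6)]),
(60,[(2,0),(10,15),(11,10),(13,8),(14,5)]),
(44,[(2,0),(14,1),(15,14),(26,11),(28,5)]),
(42,[(2,0),(14,7),(15,3),(26,1),(28,16)]),
(43,[(2,0),(14,11),(15,2),(26,7),(28,17)]),
(57,[(2,0),(15,8),(21,10),(23,14),(29,15)]),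
(59,[(2,0),(15,12),(21,15),(23,2),(29,13)]),
(58,[(2,0),(15,18),(21,13),(23,3),(29,10)]),
(41,[(3,0),(4,13),(15,10),(17,4),(21,18)]),
(71,[(3,0),(4,2),(6,18),(7,4),(25,6)]),
(40,[(3,0),(4,10),(15,15),(17,6),(21,8)]),
(69,[(3,0),(4,14),(6,12),(7,9),(25,4)]),
(70,[(3,0),(4,3),(6,8),(7,6),(25,9)]),
(39,[(3,0),(4,15),(15,13),(17,9),(21,12)]),
(48,[(3,0),(5,4),(11,5),(14,9),(27,17)]),
(13,[(3,0),(5,1),(7,15),(19,14),(26,2)]),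
(49,[(3,0),(5,9),(11,16),(14,6),(27,5)]),
(35,[(3,0),(5,13),(9,8),(21,9),(22,3)]),
(50,[(3,0),(5,6),(11,17),(14,4),(27,16)]),
(34,[(3,0),(5,10),(9,12),(21,4),(22,14)])]

def Q646x2 : List (ℕ × List (ℕ × ℕ)) := [
(14,[(3,0),(5,7),(7,10),(19,3),(26,14)]),
(12,[(3,0),(5,11),(7,13),(19,2),(26,3)]),
(33,[(3,0),(5,15),(9,18),(21,6),(22,2)]),
(54,[(3,0),(6,4),(19,12),(25,14),(27,18)]),
(55,[(3,0),(6,9),(19,8),(25,3),(27,12)]),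
(24,[(3,0),(6,13),(7,17),(19,1),(25,11)]),
(56,[(3,0),(6,6),(19,18),(25,2),(27,8)]),
(26,[(3,0),(6,10),(7,16),(19,11),(25,7)]),
(25,[(3,0),(6,15),(7,5),(19,7),(25,1)]),
(75,[(3,0),(9,0),(22,0),(23,0),(25,0)]),
(22,[(3,0),(9,13),(17,12),(20,8),(21,17)]),
(51,[(3,0),(9,2),(11,6),(17,7),(20,11)]),
(21,[(3,0),(9,10),(17,18),(20,12),(21,16)]),
(52,[(3,0),(9,14),(11,4),(17,11),(20,1)]),
(53,[(3,0),(9,3),(11,9),(17,1),(20,7)]),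
(23,[(3,0),(9,15),(17,8),(20,18),(21,5)]),
(3,[(3,0),(10,16),(12,8),(14,10),(26,18)]),
(9,[(3,0),(10,1),(17,17),(19,9),(21,11)]),
(5,[(3,0),(10,5),(12,12),(14,15),(26,8)]),
(4,[(3,0),(10,17),(12,18),(14,13),(26,12)]),
(10,[(3,0),(10,7),(17,5),(19,6),(21,1)]),
(11,[(3,0),(10,11),(17,16),(19,4),(21,7)]),
(18,[(3,0),(11,8),(14,2),(15,6),(27,9)]),
(20,[(3,0),(11,12),(14,3),(15,9),(27,4)]),
(65,[(3,0),(11,13),(12,15),(14,12),(15,17)]),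
(64,[(3,0),(11,10),(12,13),(14,18),(15,16)]),
(19,[(3,0),(11,18),(14,14),(15,4),(27,6)]),
(63,[(3,0),(11,15),(12,10),(14,8),(15,5)]),
(32,[(3,0),(15,1),(16,14),(27,11),(29,5)]),
(30,[(3,0),(15,7),(16,3),(27,1),(29,16)]),
(31,[(3,0),(15,11),(16,2),(27,7),(29,17)]),
(44,[(4,0),(5,13),(16,10),(18,4),(22,18)]),
(74,[(4,0),(5,2),(7,18),(8,4),(26,6)]),
(43,[(4,0),(5,10),(16,15),(18,6),(22,8)]),
(72,[(4,0),(5,14),(7,12),(8,9),(26,4)]),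
(73,[(4,0),(5,3),(7,8),(8,6),(26,9)]),
(42,[(4,0),(5,15),(16,13),(18,9),(22,12)]),
(51,[(4,0),(6,4),(12,5),(15,9),(28,17)]),
(1,[(4,0),(6,1),(8,15),(20,14),(27,2)]),
(52,[(4,0),(6,9),(12,16),(15,6),(28,5)]),
(38,[(4,0),(6,13),(10,8),(22,9),(23,3)]),
(53,[(4,0),(6,6),(12,17),(15,4),(28,16)]),
(37,[(4,0),(6,10),(10,12),(22,4),(23,14)]),
(2,[(4,0),(6,7),(8,10),(20,3),(27,14)]),
(0,[(4,0),(6,11),(8,13),(20,2),(27,3)]),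
(36,[(4,0),(6,15),(10,18),(22,6),(23,2)]),
(57,[(4,0),(7,4),(20,12),(26,14),(28,18)]),
(58,[(4,0),(7,9),(20,8),(26,3),(28,12)]),
(27,[(4,0),(7,13),(8,17),(20,1),(26,11)]),
(59,[(4,0),(7,6),(20,18),(26,2),(28,8)]),
(29,[(4,0),(7,10),(8,16),(20,11),(26,7)]),
(28,[(4,0),(7,15),(8,5),(20,7),(26,1)]),
(75,[(4,0),(8,0),(14,0),(27,0),(28,0)]),
(25,[(4,0),(10,13),(18,12),(21,8),(22,17)]),
(54,[(4,0),(10,2),(12,6),(18,7),(21,11)]),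
(24,[(4,0),(10,10),(18,18),(21,12),(22,16)]),
(55,[(4,0),(10,14),(12,4),(18,11),(21,1)]),
(56,[(4,0),(10,3),(12,9),(18,1),(21,7)]),
(26,[(4,0),(10,15),(18,8),(21,18),(22,5)]),
(6,[(4,0),(11,16),(13,8),(15,10),(27,18)]),
(12,[(4,0),(11,1),(18,17),(20,9),(22,11)]),
(8,[(4,0),(11,5),(13,12),(15,15),(27,8)]),
(7,[(4,0),(11,17),(13,18),(15,13),(27,12)]),
(13,[(4,0),(11,7),(18,5),(20,6),(22,1)]),
(14,[(4,0),(11,11),(18,16),(20,4),(22,7)]),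
(21,[(4,0),(12,8),(15,2),(16,6),(28,9)]),
(23,[(4,0),(12,12),(15,3),(16,9),(28,4)]),
(68,[(4,0),(12,13),(13,15),(15,12),(16,17)]),
(67,[(4,0),(12,10),(13,13),(15,18),(16,16)]),
(22,[(4,0),(12,18),(15,14),(16,4),(28,6)]),
(66,[(4,0),(12,15),(13,10),(15,8),(16,5)]),
(32,[(5,0),(6,13),(17,10),(19,4),(23,18)]),
(62,[(5,0),(6,2),(8,18),(9,4),(27,6)]),
(31,[(5,0),(6,10),(17,15),(19,6),(23,8)]),
(60,[(5,0),(6,14),(8,12),(9,9),(27,4)]),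
(61,[(5,0),(6,3),(8,8),(9,6),(27,9)]),
(30,[(5,0),(6,15),(17,13),(19,9),(23,12)]),
(54,[(5,0),(7,4),(13,5),(16,9),(29,17)]),
(4,[(5,0),(7,1),(9,15),(21,14),(28,2)]),
(55,[(5,0),(7,9),(13,16),(16,6),(29,5)]),
(41,[(5,0),(7,13),(11,8),(23,9),(24,3)]),
(56,[(5,0),(7,6),(13,17),(16,4),(29,16)]),
(40,[(5,0),(7,10),(11,12),(23,4),(24,14)]),
(5,[(5,0),(7,7),(9,10),(21,3),(28,14)]),
(3,[(5,0),(7,11),(9,13),(21,2),(28,3)]),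
(39,[(5,0),(7,15),(11,18),(23,6),(24,2)]),
(45,[(5,0),(8,4),(21,12),(27,14),(29,18)]),
(46,[(5,0),(8,9),(21,8),(27,3),(29,12)]),
(15,[(5,0),(8,13),(9,17),(21,1),(27,11)]),
(47,[(5,0),(8,6),(21,18),(27,2),(29,8)]),
(17,[(5,0),(8,10),(9,16),(21,11),(27,7)]),
(16,[(5,0),(8,15),(9,5),(21,7),(27,1)]),
(28,[(5,0),(11,13),(19,12),(22,8),(23,17)]),
(57,[(5,0),(11,2),(13,6),(19,7),(22,11)]),
(27,[(5,0),(11,10),(19,18),(22,12),(23,16)]),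
(58,[(5,0),(11,14),(13,4),(19,11),(22,1)]),
(59,[(5,0),(11,3),(13,9),(19,1),(22,7)]),
(29,[(5,0),(11,15),(19,8),(22,18),(23,5)]),
(9,[(5,0),(12,16),(14,8),(16,10),(28,18)]),
(0,[(5,0),(12,1),(19,17),(21,9),(23,11)])]

def Q646x3 : List (ℕ × List (ℕ × ℕ)) := [
(11,[(5,0),(12,5),(14,12),(16,15),(28,8)]),
(10,[(5,0),(12,17),(14,18),(16,13),(28,12)]),
(1,[(5,0),(12,7),(19,5),(21,6),(23,1)]),
(2,[(5,0),(12,11),(19,16),(21,4),(23,7)]),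
(24,[(5,0),(13,8),(16,2),(17,6),(29,9)]),
(26,[(5,0),(13,12),(16,3),(17,9),(29,4)]),
(71,[(5,0),(13,13),(14,15),(16,12),(17,17)]),
(70,[(5,0),(13,10),(14,13),(16,18),(17,16)]),
(25,[(5,0),(13,18),(16,14),(17,4),(29,6)]),
(69,[(5,0),(13,15),(14,10),(16,8),(17,5)]),
(75,[(5,0),(18,0),(19,0),(21,0),(26,0)]),
(35,[(6,0),(7,13),(18,10),(20,4),(24,18)]),
(65,[(6,0),(7,2),(9,18),(10,4),(28,6)]),
(34,[(6,0),(7,10),(18,15),(20,6),(24,8)]),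
(63,[(6,0),(7,14),(9,12),(10,9),(28,4)]),
(64,[(6,0),(7,3),(9,8),(10,6),(28,9)]),
(33,[(6,0),(7,15),(18,13),(20,9),(24,12)]),
(7,[(6,0),(8,1),(10,15),(22,14),(29,2)]),
(44,[(6,0),(8,13),(12,8),(24,9),(25,3)]),
(43,[(6,0),(8,10),(12,12),(24,4),(25,14)]),
(8,[(6,0),(8,7),(10,10),(22,3),(29,14)]),
(6,[(6,0),(8,11),(10,13),(22,2),(29,3)]),
(42,[(6,0),(8,15),(12,18),(24,6),(25,2)]),
(18,[(6,0),(9,13),(10,17),(22,1),(28,11)]),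
(20,[(6,0),(9,10),(10,16),(22,11),(28,7)]),
(19,[(6,0),(9,15),(10,5),(22,7),(28,1)]),
(16,[(6,0),(12,13),(20,12),(23,8),(24,17)]),
(45,[(6,0),(12,2),(14,6),(20,7),(23,11)]),
(15,[(6,0),(12,10),(20,18),(23,12),(24,16)]),
(46,[(6,0),(12,14),(14,4),(20,11),(23,1)]),
(47,[(6,0),(12,3),(14,9),(20,1),(23,7)]),
(17,[(6,0),(12,15),(20,8),(23,18),(24,5)]),
(12,[(6,0),(13,16),(15,8),(17,10),(29,18)]),
(3,[(6,0),(13,1),(20,17),(22,9),(24,11)]),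
(14,[(6,0),(13,5),(15,12),(17,15),(29,8)]),
(13,[(6,0),(13,17),(15,18),(17,13),(29,12)]),
(4,[(6,0),(13,7),(20,5),(22,6),(24,1)]),
(5,[(6,0),(13,11),(20,16),(22,4),(24,7)]),
(74,[(6,0),(14,13),(15,15),(17,12),(18,17)]),
(73,[(6,0),(14,10),(15,13),(17,18),(18,16)]),
(72,[(6,0),(14,15),(15,10),(17,8),(18,5)]),
(38,[(7,0),(8,13),(19,10),(21,4),(25,18)]),
(68,[(7,0),(8,2),(10,18),(11,4),(29,6)]),
(37,[(7,0),(8,10),(19,15),(21,6),(25,8)]),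
(66,[(7,0),(8,14),(10,12),(11,9),(29,4)]),
(67,[(7,0),(8,3),(10,8),(11,6),(29,9)]),
(36,[(7,0),(8,15),(19,13),(21,9),(25,12)]),
(32,[(7,0),(9,13),(13,8),(25,9),(26,3)]),
(31,[(7,0),(9,10),(13,12),(25,4),(26,14)]),
(30,[(7,0),(9,15),(13,18),(25,6),(26,2)]),
(21,[(7,0),(10,13),(11,17),(23,1),(29,11)]),
(23,[(7,0),(10,10),(11,16),(23,11),(29,7)]),
(22,[(7,0),(10,15),(11,5),(23,7),(29,1)]),
(19,[(7,0),(13,13),(21,12),(24,8),(25,17)]),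
(48,[(7,0),(13,2),(15,6),(21,7),(24,11)]),
(18,[(7,0),(13,10),(21,18),(24,12),(25,16)]),
(49,[(7,0),(13,14),(15,4),(21,11),(24,1)]),
(50,[(7,0),(13,3),(15,9),(21,1),(24,7)]),
(20,[(7,0),(13,15),(21,8),(24,18),(25,5)]),
(6,[(7,0),(14,1),(21,17),(23,9),(25,11)]),
(7,[(7,0),(14,7),(21,5),(23,6),(25,1)]),
(8,[(7,0),(14,11),(21,16),(23,4),(25,7)]),
(62,[(7,0),(15,13),(16,15),(18,12),(19,17)]),
(61,[(7,0),(15,10),(16,13),(18,18),(19,16)]),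
(60,[(7,0),(15,15),(16,10),(18,8),(19,5)]),
(41,[(8,0),(9,13),(20,10),(22,4),(26,18)]),
(40,[(8,0),(9,10),(20,15),(22,6),(26,8)]),
(39,[(8,0),(9,15),(20,13),(22,9),(26,12)]),
(35,[(8,0),(10,13),(14,8),(26,9),(27,3)]),
(34,[(8,0),(10,10),(14,12),(26,4),(27,14)]),
(33,[(8,0),(10,15),(14,18),(26,6),(27,2)]),
(22,[(8,0),(14,13),(22,12),(25,8),(26,17)]),
(51,[(8,0),(14,2),(16,6),(22,7),(25,11)]),
(21,[(8,0),(14,10),(22,18),(25,12),(26,16)]),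
(52,[(8,0),(14,14),(16,4),(22,11),(25,1)]),
(53,[(8,0),(14,3),(16,9),(22,1),(25,7)]),
(23,[(8,0),(14,15),(22,8),(25,18),(26,5)]),
(9,[(8,0),(15,1),(22,17),(24,9),(26,11)]),
(10,[(8,0),(15,7),(22,5),(24,6),(26,1)]),
(11,[(8,0),(15,11),(22,16),(24,4),(26,7)]),
(65,[(8,0),(16,13),(17,15),(19,12),(20,17)]),
(64,[(8,0),(16,10),(17,13),(19,18),(20,16)]),
(63,[(8,0),(16,15),(17,10),(19,8),(20,5)]),
(44,[(9,0),(10,13),(21,10),(23,4),(27,18)]),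
(43,[(9,0),(10,10),(21,15),(23,6),(27,8)]),
(42,[(9,0),(10,15),(21,13),(23,9),(27,12)]),
(38,[(9,0),(11,13),(15,8),(27,9),(28,3)]),
(37,[(9,0),(11,10),(15,12),(27,4),(28,14)]),
(36,[(9,0),(11,15),(15,18),(27,6),(28,2)]),
(25,[(9,0),(15,13),(23,12),(26,8),(27,17)]),
(54,[(9,0),(15,2),(17,6),(23,7),(26,11)]),
(24,[(9,0),(15,10),(23,18),(26,12),(27,16)]),
(55,[(9,0),(15,14),(17,4),(23,11),(26,1)]),
(56,[(9,0),(15,3),(17,9),(23,1),(26,7)]),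
(26,[(9,0),(15,15),(23,8),(26,18),(27,5)]),
(12,[(9,0),(16,1),(23,17),(25,9),(27,11)]),
(13,[(9,0),(16,7),(23,5),(25,6),(27,1)]),
(14,[(9,0),(16,11),(23,16),(25,4),(27,7)]),
(68,[(9,0),(17,13),(18,15),(20,12),(21,17)]),
(67,[(9,0),(17,10),(18,13),(20,18),(21,16)])]

def Q646x4 : List (ℕ × List (ℕ × ℕ)) := [
(66,[(9,0),(17,15),(18,10),(20,8),(21,5)]),
(32,[(10,0),(11,13),(22,10),(24,4),(28,18)]),
(31,[(10,0),(11,10),(22,15),(24,6),(28,8)]),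
(30,[(10,0),(11,15),(22,13),(24,9),(28,12)]),
(41,[(10,0),(12,13),(16,8),(28,9),(29,3)]),
(40,[(10,0),(12,10),(16,12),(28,4),(29,14)]),
(39,[(10,0),(12,15),(16,18),(28,6),(29,2)]),
(28,[(10,0),(16,13),(24,12),(27,8),(28,17)]),
(57,[(10,0),(16,2),(18,6),(24,7),(27,11)]),
(27,[(10,0),(16,10),(24,18),(27,12),(28,16)]),
(58,[(10,0),(16,14),(18,4),(24,11),(27,1)]),
(59,[(10,0),(16,3),(18,9),(24,1),(27,7)]),
(29,[(10,0),(16,15),(24,8),(27,18),(28,5)]),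
(0,[(10,0),(17,1),(24,17),(26,9),(28,11)]),
(1,[(10,0),(17,7),(24,5),(26,6),(28,1)]),
(2,[(10,0),(17,11),(24,16),(26,4),(28,7)]),
(71,[(10,0),(18,13),(19,15),(21,12),(22,17)]),
(70,[(10,0),(18,10),(19,13),(21,18),(22,16)]),
(69,[(10,0),(18,15),(19,10),(21,8),(22,5)]),
(35,[(11,0),(12,13),(23,10),(25,4),(29,18)]),
(34,[(11,0),(12,10),(23,15),(25,6),(29,8)]),
(33,[(11,0),(12,15),(23,13),(25,9),(29,12)]),
(16,[(11,0),(17,13),(25,12),(28,8),(29,17)]),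
(45,[(11,0),(17,2),(19,6),(25,7),(28,11)]),
(15,[(11,0),(17,10),(25,18),(28,12),(29,16)]),
(46,[(11,0),(17,14),(19,4),(25,11),(28,1)]),
(47,[(11,0),(17,3),(19,9),(25,1),(28,7)]),
(17,[(11,0),(17,15),(25,8),(28,18),(29,5)]),
(3,[(11,0),(18,1),(25,17),(27,9),(29,11)]),
(4,[(11,0),(18,7),(25,5),(27,6),(29,1)]),
(5,[(11,0),(18,11),(25,16),(27,4),(29,7)]),
(74,[(11,0),(19,13),(20,15),(22,12),(23,17)]),
(73,[(11,0),(19,10),(20,13),(22,18),(23,16)]),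
(72,[(11,0),(19,15),(20,10),(22,8),(23,5)]),
(75,[(12,0),(13,0),(15,0),(20,0),(24,0)]),
(48,[(12,0),(18,2),(20,6),(26,7),(29,11)]),
(49,[(12,0),(18,14),(20,4),(26,11),(29,1)]),
(50,[(12,0),(18,3),(20,9),(26,1),(29,7)]),
(62,[(12,0),(20,13),(21,15),(23,12),(24,17)]),
(61,[(12,0),(20,10),(21,13),(23,18),(24,16)]),
(60,[(12,0),(20,15),(21,10),(23,8),(24,5)]),
(65,[(13,0),(21,13),(22,15),(24,12),(25,17)]),
(64,[(13,0),(21,10),(22,13),(24,18),(25,16)]),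
(63,[(13,0),(21,15),(22,10),(24,8),(25,5)]),
(68,[(14,0),(22,13),(23,15),(25,12),(26,17)]),
(67,[(14,0),(22,10),(23,13),(25,18),(26,16)]),
(66,[(14,0),(22,15),(23,10),(25,8),(26,5)]),
(71,[(15,0),(23,13),(24,15),(26,12),(27,17)]),
(70,[(15,0),(23,10),(24,13),(26,18),(27,16)]),
(69,[(15,0),(23,15),(24,10),(26,8),(27,5)]),
(74,[(16,0),(24,13),(25,15),(27,12),(28,17)]),
(73,[(16,0),(24,10),(25,13),(27,18),(28,16)]),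
(72,[(16,0),(24,15),(25,10),(27,8),(28,5)]),
(62,[(17,0),(25,13),(26,15),(28,12),(29,17)]),
(61,[(17,0),(25,10),(26,13),(28,18),(29,16)]),
(60,[(17,0),(25,15),(26,10),(28,8),(29,5)])]

theorem s646 : StOn (Fin 646) 6 :=
  st_of_chkH 76 30 1 1 19 6 s76 (P646x0 ++ P646x1 ++ P646x2)
    (Q646x0 ++ Q646x1 ++ Q646x2 ++ Q646x3 ++ Q646x4) (by decide +kernel)

end H9St
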