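import Mathlib
import Pool.Agent.H9.StH106

namespace H9St

set_option maxRecDepth 100000

def P676x0 : List (List (ℕ × ℕ)) := [
[(0,0),(0,6),(3,14),(12,12),(16,16),(23,17)],
[(0,0),(0,12),(0,11),(1,18),(1,4),(1,1)],
[(0,0),(0,5),(0,2),(29,12),(29,1),(29,13)],
[(0,0),(0,4),(3,3),(12,8),(16,17),(23,5)],
[(0,0),(0,10),(3,12),(12,9),(16,15),(23,7)],
[(0,0),(1,0),(3,0),(8,0),(12,0),(18,0)],
[(0,0),(4,0),(10,0),(23,0),(24,0),(26,0)],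
[(0,0),(4,6),(11,17),(18,10),(18,1),(21,3)],
[(0,0),(4,4),(11,5),(18,7),(18,13),(21,2)],
[(0,0),(4,9),(11,16),(18,11),(18,15),(21,14)],
[(0,0),(5,0),(9,0),(15,0),(28,0),(29,0)],
[(0,0),(6,0),(19,0),(20,0),(22,0),(27,0)],
[(0,0),(7,12),(7,3),(10,5),(19,2),(23,8)],
[(0,0),(7,18),(7,14),(10,17),(19,3),(23,12)],
[(0,0),(7,11),(14,4),(14,14),(17,16),(26,13)],
[(0,0),(7,2),(7,8),(10,16),(19,14),(23,18)],
[(0,0),(7,1),(14,3),(14,9),(17,17),(26,15)],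
[(0,0),(7,7),(14,6),(14,2),(17,5),(26,10)],
[(0,0),(9,5),(13,14),(20,2),(27,16),(27,1)],
[(0,0),(9,17),(13,2),(20,3),(27,5),(27,11)],
[(0,0),(9,16),(13,3),(20,14),(27,17),(27,7)],
[(0,0),(13,0),(14,0),(16,0),(21,0),(25,0)],
[(1,0),(1,6),(4,14),(13,12),(17,16),(24,17)],
[(1,0),(1,12),(1,11),(2,18),(2,4),(2,1)],
[(1,0),(1,4),(4,3),(13,8),(17,17),(24,5)],
[(1,0),(1,10),(4,12),(13,9),(17,15),(24,7)],
[(1,0),(2,0),(4,0),(9,0),(13,0),(19,0)],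
[(1,0),(5,0),(11,0),(24,0),(25,0),(27,0)],
[(1,0),(5,6),(12,17),(19,10),(19,1),(22,3)],
[(1,0),(5,4),(12,5),(19,7),(19,13),(22,2)],
[(1,0),(5,9),(12,16),(19,11),(19,15),(22,14)],
[(1,0),(7,0),(20,0),(21,0),(23,0),(28,0)],
[(1,0),(8,12),(8,3),(11,5),(20,2),(24,8)],
[(1,0),(8,18),(8,14),(11,17),(20,3),(24,12)],
[(1,0),(8,11),(15,4),(15,14),(18,16),(27,13)],
[(1,0),(8,2),(8,8),(11,16),(20,14),(24,18)],
[(1,0),(8,1),(15,3),(15,9),(18,17),(27,15)],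
[(1,0),(8,7),(15,6),(15,2),(18,5),(27,10)],
[(1,0),(10,5),(14,14),(21,2),(28,16),(28,1)],
[(1,0),(10,17),(14,2),(21,3),(28,5),(28,11)],
[(1,0),(10,16),(14,3),(21,14),(28,17),(28,7)],
[(1,0),(14,0),(15,0),(17,0),(22,0),(26,0)],
[(2,0),(2,6),(5,14),(14,12),(18,16),(25,17)],
[(2,0),(2,12),(2,11),(3,18),(3,4),(3,1)],
[(2,0),(2,4),(5,3),(14,8),(18,17),(25,5)],
[(2,0),(2,10),(5,12),(14,9),(18,15),(25,7)],
[(2,0),(3,0),(5,0),(10,0),(14,0),(20,0)],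
[(2,0),(6,0),(12,0),(25,0),(26,0),(28,0)],
[(2,0),(6,6),(13,17),(20,10),(20,1),(23,3)],
[(2,0),(6,4),(13,5),(20,7),(20,13),(23,2)],
[(2,0),(6,9),(13,16),(20,11),(20,15),(23,14)],
[(2,0),(8,0),(21,0),(22,0),(24,0),(29,0)],
[(2,0),(9,12),(9,3),(12,5),(21,2),(25,8)],
[(2,0),(9,18),(9,14),(12,17),(21,3),(25,12)],
[(2,0),(9,11),(16,4),(16,14),(19,16),(28,13)],
[(2,0),(9,2),(9,8),(12,16),(21,14),(25,18)],
[(2,0),(9,1),(16,3),(16,9),(19,17),(28,15)],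
[(2,0),(9,7),(16,6),(16,2),(19,5),(28,10)],
[(2,0),(11,5),(15,14),(22,2),(29,16),(29,1)],
[(2,0),(11,17),(15,2),(22,3),(29,5),(29,11)],
[(2,0),(11,16),(15,3),(22,14),(29,17),(29,7)],
[(2,0),(15,0),(16,0),(18,0),(23,0),(27,0)],
[(3,0),(3,6),(6,14),(15,12),(19,16),(26,17)],
[(3,0),(3,12),(3,11),(4,18),(4,4),(4,1)],
[(3,0),(3,4),(6,3),(15,8),(19,17),(26,5)],
[(3,0),(3,10),(6,12),(15,9),(19,15),(26,7)],
[(3,0),(4,0),(6,0),(11,0),(15,0),(21,0)],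
[(3,0),(7,0),(13,0),(26,0),(27,0),(29,0)],
[(3,0),(7,6),(14,17),(21,10),(21,1),(24,3)],
[(3,0),(7,4),(14,5),(21,7),(21,13),(24,2)],
[(3,0),(7,9),(14,16),(21,11),(21,15),(24,14)],
[(3,0),(10,12),(10,3),(13,5),(22,2),(26,8)],
[(3,0),(10,18),(10,14),(13,17),(22,3),(26,12)],
[(3,0),(10,11),(17,4),(17,14),(20,16),(29,13)],
[(3,0),(10,2),(10,8),(13,16),(22,14),(26,18)],
[(3,0),(10,1),(17,3),(17,9),(20,17),(29,15)],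
[(3,0),(10,7),(17,6),(17,2),(20,5),(29,10)],
[(3,0),(16,0),(17,0),(19,0),(24,0),(28,0)],
[(4,0),(4,6),(7,14),(16,12),(20,16),(27,17)],
[(4,0),(4,12),(4,11),(5,18),(5,4),(5,1)],
[(4,0),(4,4),(7,3),(16,8),(20,17),(27,5)],
[(4,0),(4,10),(7,12),(16,9),(20,15),(27,7)],
[(4,0),(5,0),(7,0),(12,0),(16,0),(22,0)],
[(4,0),(8,6),(15,17),(22,10),(22,1),(25,3)],
[(4,0),(8,4),(15,5),(22,7),(22,13),(25,2)],
[(4,0),(8,9),(15,16),(22,11),(22,15),(25,14)],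
[(4,0),(11,12),(11,3),(14,5),(23,2),(27,8)],
[(4,0),(11,18),(11,14),(14,17),(23,3),(27,12)],
[(4,0),(11,2),(11,8),(14,16),(23,14),(27,18)],
[(4,0),(17,0),(18,0),(20,0),(25,0),(29,0)],
[(5,0),(5,6),(8,14),(17,12),(21,16),(28,17)],
[(5,0),(5,12),(5,11),(6,18),(6,4),(6,1)],
[(5,0),(5,4),(8,3),(17,8),(21,17),(28,5)],
[(5,0),(5,10),(8,12),(17,9),(21,15),(28,7)],
[(5,0),(6,0),(8,0),(13,0),(17,0),(23,0)],
[(5,0),(9,6),(16,17),(23,10),(23,1),(26,3)],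
[(5,0),(9,4),(16,5),(23,7),(23,13),(26,2)],
[(5,0),(9,9),(16,16),(23,11),(23,15),(26,14)],
[(5,0),(12,12),(12,3),(15,5),(24,2),(28,8)],
[(5,0),(12,18),(12,14),(15,17),(24,3),(28,12)]]

def P676x1 : List (List (ℕ × ℕ)) := [
[(5,0),(12,2),(12,8),(15,16),(24,14),(28,18)],
[(6,0),(6,6),(9,14),(18,12),(22,16),(29,17)],
[(6,0),(6,12),(6,11),(7,18),(7,4),(7,1)],
[(6,0),(6,4),(9,3),(18,8),(22,17),(29,5)],
[(6,0),(6,10),(9,12),(18,9),(22,15),(29,7)],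
[(6,0),(7,0),(9,0),(14,0),(18,0),(24,0)],
[(6,0),(10,6),(17,17),(24,10),(24,1),(27,3)],
[(6,0),(10,4),(17,5),(24,7),(24,13),(27,2)],
[(6,0),(10,9),(17,16),(24,11),(24,15),(27,14)],
[(6,0),(13,12),(13,3),(16,5),(25,2),(29,8)],
[(6,0),(13,18),(13,14),(16,17),(25,3),(29,12)],
[(6,0),(13,2),(13,8),(16,16),(25,14),(29,18)],
[(7,0),(7,12),(7,11),(8,18),(8,4),(8,1)],
[(7,0),(8,0),(10,0),(15,0),(19,0),(25,0)],
[(7,0),(11,6),(18,17),(25,10),(25,1),(28,3)],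
[(7,0),(11,4),(18,5),(25,7),(25,13),(28,2)],
[(7,0),(11,9),(18,16),(25,11),(25,15),(28,14)],
[(8,0),(8,12),(8,11),(9,18),(9,4),(9,1)],
[(8,0),(9,0),(11,0),(16,0),(20,0),(26,0)],
[(8,0),(12,6),(19,17),(26,10),(26,1),(29,3)],
[(8,0),(12,4),(19,5),(26,7),(26,13),(29,2)],
[(8,0),(12,9),(19,16),(26,11),(26,15),(29,14)],
[(9,0),(9,12),(9,11),(10,18),(10,4),(10,1)],
[(9,0),(10,0),(12,0),(17,0),(21,0),(27,0)],
[(10,0),(10,12),(10,11),(11,18),(11,4),(11,1)],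
[(10,0),(11,0),(13,0),(18,0),(22,0),(28,0)],
[(11,0),(11,12),(11,11),(12,18),(12,4),(12,1)],
[(11,0),(12,0),(14,0),(19,0),(23,0),(29,0)],
[(12,0),(12,12),(12,11),(13,18),(13,4),(13,1)],
[(13,0),(13,12),(13,11),(14,18),(14,4),(14,1)],
[(14,0),(14,12),(14,11),(15,18),(15,4),(15,1)],
[(15,0),(15,12),(15,11),(16,18),(16,4),(16,1)],
[(16,0),(16,12),(16,11),(17,18),(17,4),(17,1)],
[(17,0),(17,12),(17,11),(18,18),(18,4),(18,1)],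
[(18,0),(18,12),(18,11),(19,18),(19,4),(19,1)],
[(19,0),(19,12),(19,11),(20,18),(20,4),(20,1)],
[(20,0),(20,12),(20,11),(21,18),(21,4),(21,1)],
[(21,0),(21,12),(21,11),(22,18),(22,4),(22,1)],
[(22,0),(22,12),(22,11),(23,18),(23,4),(23,1)],
[(23,0),(23,12),(23,11),(24,18),(24,4),(24,1)],
[(24,0),(24,12),(24,11),(25,18),(25,4),(25,1)],
[(25,0),(25,12),(25,11),(26,18),(26,4),(26,1)],
[(26,0),(26,12),(26,11),(27,18),(27,4),(27,1)],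
[(27,0),(27,12),(27,11),(28,18),(28,4),(28,1)],
[(28,0),(28,12),(28,11),(29,18),(29,4),(29,1)]]

def Q676x0 : List (ℕ × List (ℕ × ℕ)) := [
(73,[(0,0),(1,5),(16,7),(21,11),(26,16)]),
(72,[(0,0),(1,17),(16,1),(21,7),(26,5)]),
(91,[(0,0),(1,10),(14,1),(17,12),(23,14)]),
(74,[(0,0),(1,16),(16,11),(21,1),(26,17)]),
(36,[(0,0),(1,3),(6,13),(8,12),(12,5)]),
(90,[(0,0),(1,15),(14,11),(17,18),(23,2)]),
(37,[(0,0),(1,2),(6,15),(8,8),(12,16)]),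
(38,[(0,0),(1,14),(6,10),(8,18),(12,17)]),
(92,[(0,0),(1,13),(14,7),(17,8),(23,3)]),
(105,[(0,0),(2,0),(7,0),(11,0),(17,0)]),
(61,[(0,0),(2,6),(4,16),(11,7),(28,18)]),
(19,[(0,0),(2,12),(6,1),(24,4),(25,6)]),
(18,[(0,0),(2,18),(6,11),(24,6),(25,9)]),
(57,[(0,0),(2,5),(5,1),(17,14),(22,16)]),
(66,[(0,0),(2,11),(4,1),(6,16),(13,12)]),
(59,[(0,0),(2,17),(5,11),(17,2),(22,5)]),
(62,[(0,0),(2,4),(4,17),(11,11),(28,12)]),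
(55,[(0,0),(2,10),(9,1),(26,12),(28,13)]),
(58,[(0,0),(2,16),(5,7),(17,3),(22,17)]),
(23,[(0,0),(2,3),(8,11),(11,9),(22,2)]),
(60,[(0,0),(2,9),(4,5),(11,1),(28,8)]),
(54,[(0,0),(2,15),(9,11),(26,18),(28,10)]),
(21,[(0,0),(2,2),(8,1),(11,6),(22,14)]),
(20,[(0,0),(2,8),(6,7),(24,9),(25,4)]),
(22,[(0,0),(2,14),(8,7),(11,4),(22,3)]),
(67,[(0,0),(2,1),(4,7),(6,17),(13,8)]),
(68,[(0,0),(2,7),(4,11),(6,5),(13,18)]),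
(56,[(0,0),(2,13),(9,7),(26,8),(28,15)]),
(40,[(0,0),(3,6),(12,1),(18,5),(22,15)]),
(87,[(0,0),(3,5),(14,13),(22,18),(24,1)]),
(94,[(0,0),(3,11),(9,13),(16,18),(17,9)]),
(89,[(0,0),(3,17),(14,10),(22,8),(24,11)]),
(41,[(0,0),(3,4),(12,7),(18,16),(22,10)]),
(52,[(0,0),(3,10),(15,6),(20,1),(28,3)]),
(88,[(0,0),(3,16),(14,15),(22,12),(24,7)]),
(39,[(0,0),(3,9),(12,11),(18,17),(22,13)]),
(51,[(0,0),(3,15),(15,9),(20,11),(28,14)]),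
(95,[(0,0),(3,1),(9,15),(16,12),(17,6)]),
(93,[(0,0),(3,7),(9,10),(16,8),(17,4)]),
(53,[(0,0),(3,13),(15,4),(20,7),(28,2)]),
(12,[(0,0),(4,12),(22,7),(23,10),(28,1)]),
(14,[(0,0),(4,18),(22,1),(23,15),(28,11)]),
(76,[(0,0),(4,10),(12,14),(15,1),(24,15)]),
(85,[(0,0),(4,3),(5,8),(20,10),(25,14)]),
(75,[(0,0),(4,15),(12,2),(15,11),(24,13)]),
(86,[(0,0),(4,2),(5,18),(20,13),(25,3)]),
(13,[(0,0),(4,8),(22,11),(23,13),(28,7)]),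
(84,[(0,0),(4,14),(5,12),(20,15),(25,2)]),
(77,[(0,0),(4,13),(12,3),(15,7),(24,10)]),
(24,[(0,0),(5,6),(10,4),(14,18),(15,16)]),
(10,[(0,0),(5,5),(9,8),(10,13),(25,15)]),
(9,[(0,0),(5,17),(9,12),(10,10),(25,13)]),
(25,[(0,0),(5,4),(10,9),(14,12),(15,17)]),
(33,[(0,0),(5,10),(7,9),(11,2),(29,16)]),
(11,[(0,0),(5,16),(9,18),(10,15),(25,10)]),
(8,[(0,0),(5,3),(13,17),(15,15),(18,9)]),
(26,[(0,0),(5,9),(10,6),(14,8),(15,5)]),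
(35,[(0,0),(5,15),(7,4),(11,3),(29,5)]),
(6,[(0,0),(5,2),(13,5),(15,10),(18,6)]),
(7,[(0,0),(5,14),(13,16),(15,13),(18,4)]),
(34,[(0,0),(5,13),(7,6),(11,14),(29,17)]),
(3,[(0,0),(6,6),(10,2),(18,8),(21,17)]),
(16,[(0,0),(6,12),(9,9),(20,8),(28,5)]),
(15,[(0,0),(6,18),(9,4),(20,12),(28,17)]),
(4,[(0,0),(6,4),(10,14),(18,18),(21,5)]),
(99,[(0,0),(6,3),(13,1),(14,16),(27,12)]),
(5,[(0,0),(6,9),(10,3),(18,12),(21,16)]),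
(100,[(0,0),(6,2),(13,7),(14,17),(27,8)]),
(17,[(0,0),(6,8),(9,6),(20,18),(28,16)]),
(101,[(0,0),(6,14),(13,11),(14,5),(27,18)]),
(97,[(0,0),(7,5),(8,15),(21,6),(24,17)]),
(96,[(0,0),(7,17),(8,13),(21,9),(24,16)]),
(49,[(0,0),(7,10),(24,2),(26,3),(28,9)]),
(98,[(0,0),(7,16),(8,10),(21,4),(24,5)]),
(48,[(0,0),(7,15),(24,3),(26,14),(28,4)]),
(50,[(0,0),(7,13),(24,14),(26,2),(28,6)]),
(63,[(0,0),(8,6),(11,15),(20,17),(26,4)]),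
(45,[(0,0),(8,5),(10,7),(16,6),(19,11)]),
(47,[(0,0),(8,17),(10,1),(16,9),(19,7)]),
(64,[(0,0),(8,4),(11,10),(20,5),(26,9)]),
(46,[(0,0),(8,16),(10,11),(16,4),(19,1)]),
(81,[(0,0),(8,3),(10,8),(13,4),(25,17)]),
(65,[(0,0),(8,9),(11,13),(20,16),(26,6)]),
(82,[(0,0),(8,2),(10,18),(13,9),(25,5)]),
(83,[(0,0),(8,14),(10,12),(13,6),(25,16)]),
(32,[(0,0),(9,3),(15,12),(19,6),(27,15)]),
(30,[(0,0),(9,2),(15,8),(19,4),(27,10)]),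
(31,[(0,0),(9,14),(15,18),(19,9),(27,13)]),
(80,[(0,0),(11,12),(19,10),(21,13),(27,2)]),
(79,[(0,0),(11,18),(19,15),(21,10),(27,3)]),
(78,[(0,0),(11,8),(19,13),(21,15),(27,14)]),
(44,[(0,0),(12,10),(17,13),(25,8),(27,6)]),
(43,[(0,0),(12,15),(17,10),(25,12),(27,9)]),
(42,[(0,0),(12,13),(17,15),(25,18),(27,4)]),
(103,[(0,0),(13,10),(16,2),(22,4),(29,9)]),
(102,[(0,0),(13,15),(16,3),(22,6),(29,4)]),
(104,[(0,0),(13,13),(16,14),(22,9),(29,6)]),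
(69,[(0,0),(15,3),(20,9),(25,7),(29,2)]),
(70,[(0,0),(15,2),(20,6),(25,11),(29,14)]),
(71,[(0,0),(15,14),(20,4),(25,1),(29,3)])]

def Q676x1 : List (ℕ × List (ℕ × ℕ)) := [
(28,[(0,0),(17,11),(19,12),(21,18),(23,9)]),
(29,[(0,0),(17,1),(19,8),(21,12),(23,6)]),
(27,[(0,0),(17,7),(19,18),(21,8),(23,4)]),
(1,[(0,0),(18,3),(19,5),(24,18),(26,11)]),
(2,[(0,0),(18,2),(19,16),(24,12),(26,1)]),
(0,[(0,0),(18,14),(19,17),(24,8),(26,7)]),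
(76,[(1,0),(2,5),(17,7),(22,11),(27,16)]),
(75,[(1,0),(2,17),(17,1),(22,7),(27,5)]),
(94,[(1,0),(2,10),(15,1),(18,12),(24,14)]),
(77,[(1,0),(2,16),(17,11),(22,1),(27,17)]),
(39,[(1,0),(2,3),(7,13),(9,12),(13,5)]),
(93,[(1,0),(2,15),(15,11),(18,18),(24,2)]),
(40,[(1,0),(2,2),(7,15),(9,8),(13,16)]),
(41,[(1,0),(2,14),(7,10),(9,18),(13,17)]),
(95,[(1,0),(2,13),(15,7),(18,8),(24,3)]),
(64,[(1,0),(3,6),(5,16),(12,7),(29,18)]),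
(22,[(1,0),(3,12),(7,1),(25,4),(26,6)]),
(21,[(1,0),(3,18),(7,11),(25,6),(26,9)]),
(60,[(1,0),(3,5),(6,1),(18,14),(23,16)]),
(69,[(1,0),(3,11),(5,1),(7,16),(14,12)]),
(62,[(1,0),(3,17),(6,11),(18,2),(23,5)]),
(65,[(1,0),(3,4),(5,17),(12,11),(29,12)]),
(58,[(1,0),(3,10),(10,1),(27,12),(29,13)]),
(61,[(1,0),(3,16),(6,7),(18,3),(23,17)]),
(26,[(1,0),(3,3),(9,11),(12,9),(23,2)]),
(63,[(1,0),(3,9),(5,5),(12,1),(29,8)]),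
(57,[(1,0),(3,15),(10,11),(27,18),(29,10)]),
(24,[(1,0),(3,2),(9,1),(12,6),(23,14)]),
(23,[(1,0),(3,8),(7,7),(25,9),(26,4)]),
(25,[(1,0),(3,14),(9,7),(12,4),(23,3)]),
(70,[(1,0),(3,1),(5,7),(7,17),(14,8)]),
(71,[(1,0),(3,7),(5,11),(7,5),(14,18)]),
(59,[(1,0),(3,13),(10,7),(27,8),(29,15)]),
(43,[(1,0),(4,6),(13,1),(19,5),(23,15)]),
(0,[(1,0),(4,5),(15,13),(23,18),(25,1)]),
(97,[(1,0),(4,11),(10,13),(17,18),(18,9)]),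
(2,[(1,0),(4,17),(15,10),(23,8),(25,11)]),
(44,[(1,0),(4,4),(13,7),(19,16),(23,10)]),
(55,[(1,0),(4,10),(16,6),(21,1),(29,3)]),
(1,[(1,0),(4,16),(15,15),(23,12),(25,7)]),
(42,[(1,0),(4,9),(13,11),(19,17),(23,13)]),
(54,[(1,0),(4,15),(16,9),(21,11),(29,14)]),
(98,[(1,0),(4,1),(10,15),(17,12),(18,6)]),
(96,[(1,0),(4,7),(10,10),(17,8),(18,4)]),
(56,[(1,0),(4,13),(16,4),(21,7),(29,2)]),
(15,[(1,0),(5,12),(23,7),(24,10),(29,1)]),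
(17,[(1,0),(5,18),(23,1),(24,15),(29,11)]),
(79,[(1,0),(5,10),(13,14),(16,1),(25,15)]),
(88,[(1,0),(5,3),(6,8),(21,10),(26,14)]),
(78,[(1,0),(5,15),(13,2),(16,11),(25,13)]),
(89,[(1,0),(5,2),(6,18),(21,13),(26,3)]),
(16,[(1,0),(5,8),(23,11),(24,13),(29,7)]),
(87,[(1,0),(5,14),(6,12),(21,15),(26,2)]),
(80,[(1,0),(5,13),(13,3),(16,7),(25,10)]),
(105,[(1,0),(6,0),(10,0),(16,0),(29,0)]),
(27,[(1,0),(6,6),(11,4),(15,18),(16,16)]),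
(13,[(1,0),(6,5),(10,8),(11,13),(26,15)]),
(12,[(1,0),(6,17),(10,12),(11,10),(26,13)]),
(28,[(1,0),(6,4),(11,9),(15,12),(16,17)]),
(14,[(1,0),(6,16),(10,18),(11,15),(26,10)]),
(11,[(1,0),(6,3),(14,17),(16,15),(19,9)]),
(29,[(1,0),(6,9),(11,6),(15,8),(16,5)]),
(9,[(1,0),(6,2),(14,5),(16,10),(19,6)]),
(10,[(1,0),(6,14),(14,16),(16,13),(19,4)]),
(6,[(1,0),(7,6),(11,2),(19,8),(22,17)]),
(19,[(1,0),(7,12),(10,9),(21,8),(29,5)]),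
(18,[(1,0),(7,18),(10,4),(21,12),(29,17)]),
(7,[(1,0),(7,4),(11,14),(19,18),(22,5)]),
(102,[(1,0),(7,3),(14,1),(15,16),(28,12)]),
(8,[(1,0),(7,9),(11,3),(19,12),(22,16)]),
(103,[(1,0),(7,2),(14,7),(15,17),(28,8)]),
(20,[(1,0),(7,8),(10,6),(21,18),(29,16)]),
(104,[(1,0),(7,14),(14,11),(15,5),(28,18)]),
(100,[(1,0),(8,5),(9,15),(22,6),(25,17)]),
(99,[(1,0),(8,17),(9,13),(22,9),(25,16)]),
(52,[(1,0),(8,10),(25,2),(27,3),(29,9)]),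
(101,[(1,0),(8,16),(9,10),(22,4),(25,5)]),
(51,[(1,0),(8,15),(25,3),(27,14),(29,4)]),
(53,[(1,0),(8,13),(25,14),(27,2),(29,6)]),
(66,[(1,0),(9,6),(12,15),(21,17),(27,4)]),
(48,[(1,0),(9,5),(11,7),(17,6),(20,11)]),
(50,[(1,0),(9,17),(11,1),(17,9),(20,7)]),
(67,[(1,0),(9,4),(12,10),(21,5),(27,9)]),
(49,[(1,0),(9,16),(11,11),(17,4),(20,1)]),
(84,[(1,0),(9,3),(11,8),(14,4),(26,17)]),
(68,[(1,0),(9,9),(12,13),(21,16),(27,6)]),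
(85,[(1,0),(9,2),(11,18),(14,9),(26,5)]),
(86,[(1,0),(9,14),(11,12),(14,6),(26,16)]),
(35,[(1,0),(10,3),(16,12),(20,6),(28,15)]),
(33,[(1,0),(10,2),(16,8),(20,4),(28,10)]),
(34,[(1,0),(10,14),(16,18),(20,9),(28,13)]),
(83,[(1,0),(12,12),(20,10),(22,13),(28,2)]),
(82,[(1,0),(12,18),(20,15),(22,10),(28,3)]),
(81,[(1,0),(12,8),(20,13),(22,15),(28,14)]),
(47,[(1,0),(13,10),(18,13),(26,8),(28,6)]),
(46,[(1,0),(13,15),(18,10),(26,12),(28,9)]),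
(45,[(1,0),(13,13),(18,15),(26,18),(28,4)]),
(31,[(1,0),(18,11),(20,12),(22,18),(24,9)]),
(32,[(1,0),(18,1),(20,8),(22,12),(24,6)]),
(30,[(1,0),(18,7),(20,18),(22,8),(24,4)])]

def Q676x2 : List (ℕ × List (ℕ × ℕ)) := [
(4,[(1,0),(19,3),(20,5),(25,18),(27,11)]),
(5,[(1,0),(19,2),(20,16),(25,12),(27,1)]),
(3,[(1,0),(19,14),(20,17),(25,8),(27,7)]),
(79,[(2,0),(3,5),(18,7),(23,11),(28,16)]),
(78,[(2,0),(3,17),(18,1),(23,7),(28,5)]),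
(97,[(2,0),(3,10),(16,1),(19,12),(25,14)]),
(80,[(2,0),(3,16),(18,11),(23,1),(28,17)]),
(42,[(2,0),(3,3),(8,13),(10,12),(14,5)]),
(96,[(2,0),(3,15),(16,11),(19,18),(25,2)]),
(43,[(2,0),(3,2),(8,15),(10,8),(14,16)]),
(44,[(2,0),(3,14),(8,10),(10,18),(14,17)]),
(98,[(2,0),(3,13),(16,7),(19,8),(25,3)]),
(25,[(2,0),(4,12),(8,1),(26,4),(27,6)]),
(24,[(2,0),(4,18),(8,11),(26,6),(27,9)]),
(63,[(2,0),(4,5),(7,1),(19,14),(24,16)]),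
(72,[(2,0),(4,11),(6,1),(8,16),(15,12)]),
(65,[(2,0),(4,17),(7,11),(19,2),(24,5)]),
(64,[(2,0),(4,16),(7,7),(19,3),(24,17)]),
(29,[(2,0),(4,3),(10,11),(13,9),(24,2)]),
(27,[(2,0),(4,2),(10,1),(13,6),(24,14)]),
(26,[(2,0),(4,8),(8,7),(26,9),(27,4)]),
(28,[(2,0),(4,14),(10,7),(13,4),(24,3)]),
(73,[(2,0),(4,1),(6,7),(8,17),(15,8)]),
(74,[(2,0),(4,7),(6,11),(8,5),(15,18)]),
(46,[(2,0),(5,6),(14,1),(20,5),(24,15)]),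
(3,[(2,0),(5,5),(16,13),(24,18),(26,1)]),
(100,[(2,0),(5,11),(11,13),(18,18),(19,9)]),
(5,[(2,0),(5,17),(16,10),(24,8),(26,11)]),
(47,[(2,0),(5,4),(14,7),(20,16),(24,10)]),
(4,[(2,0),(5,16),(16,15),(24,12),(26,7)]),
(45,[(2,0),(5,9),(14,11),(20,17),(24,13)]),
(101,[(2,0),(5,1),(11,15),(18,12),(19,6)]),
(99,[(2,0),(5,7),(11,10),(18,8),(19,4)]),
(82,[(2,0),(6,10),(14,14),(17,1),(26,15)]),
(1,[(2,0),(6,3),(7,8),(22,10),(27,14)]),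
(81,[(2,0),(6,15),(14,2),(17,11),(26,13)]),
(2,[(2,0),(6,2),(7,18),(22,13),(27,3)]),
(0,[(2,0),(6,14),(7,12),(22,15),(27,2)]),
(83,[(2,0),(6,13),(14,3),(17,7),(26,10)]),
(30,[(2,0),(7,6),(12,4),(16,18),(17,16)]),
(16,[(2,0),(7,5),(11,8),(12,13),(27,15)]),
(15,[(2,0),(7,17),(11,12),(12,10),(27,13)]),
(31,[(2,0),(7,4),(12,9),(16,12),(17,17)]),
(17,[(2,0),(7,16),(11,18),(12,15),(27,10)]),
(14,[(2,0),(7,3),(15,17),(17,15),(20,9)]),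
(32,[(2,0),(7,9),(12,6),(16,8),(17,5)]),
(12,[(2,0),(7,2),(15,5),(17,10),(20,6)]),
(13,[(2,0),(7,14),(15,16),(17,13),(20,4)]),
(9,[(2,0),(8,6),(12,2),(20,8),(23,17)]),
(10,[(2,0),(8,4),(12,14),(20,18),(23,5)]),
(90,[(2,0),(8,3),(15,1),(16,16),(29,12)]),
(11,[(2,0),(8,9),(12,3),(20,12),(23,16)]),
(91,[(2,0),(8,2),(15,7),(16,17),(29,8)]),
(92,[(2,0),(8,14),(15,11),(16,5),(29,18)]),
(103,[(2,0),(9,5),(10,15),(23,6),(26,17)]),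
(102,[(2,0),(9,17),(10,13),(23,9),(26,16)]),
(104,[(2,0),(9,16),(10,10),(23,4),(26,5)]),
(69,[(2,0),(10,6),(13,15),(22,17),(28,4)]),
(51,[(2,0),(10,5),(12,7),(18,6),(21,11)]),
(53,[(2,0),(10,17),(12,1),(18,9),(21,7)]),
(70,[(2,0),(10,4),(13,10),(22,5),(28,9)]),
(52,[(2,0),(10,16),(12,11),(18,4),(21,1)]),
(87,[(2,0),(10,3),(12,8),(15,4),(27,17)]),
(71,[(2,0),(10,9),(13,13),(22,16),(28,6)]),
(88,[(2,0),(10,2),(12,18),(15,9),(27,5)]),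
(89,[(2,0),(10,14),(12,12),(15,6),(27,16)]),
(38,[(2,0),(11,3),(17,12),(21,6),(29,15)]),
(36,[(2,0),(11,2),(17,8),(21,4),(29,10)]),
(37,[(2,0),(11,14),(17,18),(21,9),(29,13)]),
(86,[(2,0),(13,12),(21,10),(23,13),(29,2)]),
(85,[(2,0),(13,18),(21,15),(23,10),(29,3)]),
(84,[(2,0),(13,8),(21,13),(23,15),(29,14)]),
(50,[(2,0),(14,10),(19,13),(27,8),(29,6)]),
(49,[(2,0),(14,15),(19,10),(27,12),(29,9)]),
(48,[(2,0),(14,13),(19,15),(27,18),(29,4)]),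
(34,[(2,0),(19,11),(21,12),(23,18),(25,9)]),
(35,[(2,0),(19,1),(21,8),(23,12),(25,6)]),
(33,[(2,0),(19,7),(21,18),(23,8),(25,4)]),
(7,[(2,0),(20,3),(21,5),(26,18),(28,11)]),
(8,[(2,0),(20,2),(21,16),(26,12),(28,1)]),
(6,[(2,0),(20,14),(21,17),(26,8),(28,7)]),
(82,[(3,0),(4,5),(19,7),(24,11),(29,16)]),
(81,[(3,0),(4,17),(19,1),(24,7),(29,5)]),
(100,[(3,0),(4,10),(17,1),(20,12),(26,14)]),
(83,[(3,0),(4,16),(19,11),(24,1),(29,17)]),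
(45,[(3,0),(4,3),(9,13),(11,12),(15,5)]),
(99,[(3,0),(4,15),(17,11),(20,18),(26,2)]),
(46,[(3,0),(4,2),(9,15),(11,8),(15,16)]),
(47,[(3,0),(4,14),(9,10),(11,18),(15,17)]),
(101,[(3,0),(4,13),(17,7),(20,8),(26,3)]),
(28,[(3,0),(5,12),(9,1),(27,4),(28,6)]),
(27,[(3,0),(5,18),(9,11),(27,6),(28,9)]),
(66,[(3,0),(5,5),(8,1),(20,14),(25,16)]),
(75,[(3,0),(5,11),(7,1),(9,16),(16,12)]),
(68,[(3,0),(5,17),(8,11),(20,2),(25,5)]),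
(67,[(3,0),(5,16),(8,7),(20,3),(25,17)]),
(32,[(3,0),(5,3),(11,11),(14,9),(25,2)]),
(30,[(3,0),(5,2),(11,1),(14,6),(25,14)]),
(29,[(3,0),(5,8),(9,7),(27,9),(28,4)]),
(31,[(3,0),(5,14),(11,7),(14,4),(25,3)])]

def Q676x3 : List (ℕ × List (ℕ × ℕ)) := [
(76,[(3,0),(5,1),(7,7),(9,17),(16,8)]),
(77,[(3,0),(5,7),(7,11),(9,5),(16,18)]),
(49,[(3,0),(6,6),(15,1),(21,5),(25,15)]),
(6,[(3,0),(6,5),(17,13),(25,18),(27,1)]),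
(103,[(3,0),(6,11),(12,13),(19,18),(20,9)]),
(8,[(3,0),(6,17),(17,10),(25,8),(27,11)]),
(50,[(3,0),(6,4),(15,7),(21,16),(25,10)]),
(7,[(3,0),(6,16),(17,15),(25,12),(27,7)]),
(48,[(3,0),(6,9),(15,11),(21,17),(25,13)]),
(104,[(3,0),(6,1),(12,15),(19,12),(20,6)]),
(102,[(3,0),(6,7),(12,10),(19,8),(20,4)]),
(85,[(3,0),(7,10),(15,14),(18,1),(27,15)]),
(4,[(3,0),(7,3),(8,8),(23,10),(28,14)]),
(84,[(3,0),(7,15),(15,2),(18,11),(27,13)]),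
(5,[(3,0),(7,2),(8,18),(23,13),(28,3)]),
(3,[(3,0),(7,14),(8,12),(23,15),(28,2)]),
(86,[(3,0),(7,13),(15,3),(18,7),(27,10)]),
(33,[(3,0),(8,6),(13,4),(17,18),(18,16)]),
(19,[(3,0),(8,5),(12,8),(13,13),(28,15)]),
(18,[(3,0),(8,17),(12,12),(13,10),(28,13)]),
(34,[(3,0),(8,4),(13,9),(17,12),(18,17)]),
(20,[(3,0),(8,16),(12,18),(13,15),(28,10)]),
(17,[(3,0),(8,3),(16,17),(18,15),(21,9)]),
(35,[(3,0),(8,9),(13,6),(17,8),(18,5)]),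
(15,[(3,0),(8,2),(16,5),(18,10),(21,6)]),
(16,[(3,0),(8,14),(16,16),(18,13),(21,4)]),
(105,[(3,0),(9,0),(22,0),(23,0),(25,0)]),
(12,[(3,0),(9,6),(13,2),(21,8),(24,17)]),
(13,[(3,0),(9,4),(13,14),(21,18),(24,5)]),
(14,[(3,0),(9,9),(13,3),(21,12),(24,16)]),
(91,[(3,0),(10,5),(11,15),(24,6),(27,17)]),
(90,[(3,0),(10,17),(11,13),(24,9),(27,16)]),
(92,[(3,0),(10,16),(11,10),(24,4),(27,5)]),
(72,[(3,0),(11,6),(14,15),(23,17),(29,4)]),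
(54,[(3,0),(11,5),(13,7),(19,6),(22,11)]),
(56,[(3,0),(11,17),(13,1),(19,9),(22,7)]),
(73,[(3,0),(11,4),(14,10),(23,5),(29,9)]),
(55,[(3,0),(11,16),(13,11),(19,4),(22,1)]),
(0,[(3,0),(11,3),(13,8),(16,4),(28,17)]),
(74,[(3,0),(11,9),(14,13),(23,16),(29,6)]),
(1,[(3,0),(11,2),(13,18),(16,9),(28,5)]),
(2,[(3,0),(11,14),(13,12),(16,6),(28,16)]),
(37,[(3,0),(20,11),(22,12),(24,18),(26,9)]),
(38,[(3,0),(20,1),(22,8),(24,12),(26,6)]),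
(36,[(3,0),(20,7),(22,18),(24,8),(26,4)]),
(10,[(3,0),(21,3),(22,5),(27,18),(29,11)]),
(11,[(3,0),(21,2),(22,16),(27,12),(29,1)]),
(9,[(3,0),(21,14),(22,17),(27,8),(29,7)]),
(103,[(4,0),(5,10),(18,1),(21,12),(27,14)]),
(48,[(4,0),(5,3),(10,13),(12,12),(16,5)]),
(102,[(4,0),(5,15),(18,11),(21,18),(27,2)]),
(49,[(4,0),(5,2),(10,15),(12,8),(16,16)]),
(50,[(4,0),(5,14),(10,10),(12,18),(16,17)]),
(104,[(4,0),(5,13),(18,7),(21,8),(27,3)]),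
(31,[(4,0),(6,12),(10,1),(28,4),(29,6)]),
(30,[(4,0),(6,18),(10,11),(28,6),(29,9)]),
(69,[(4,0),(6,5),(9,1),(21,14),(26,16)]),
(78,[(4,0),(6,11),(8,1),(10,16),(17,12)]),
(71,[(4,0),(6,17),(9,11),(21,2),(26,5)]),
(70,[(4,0),(6,16),(9,7),(21,3),(26,17)]),
(35,[(4,0),(6,3),(12,11),(15,9),(26,2)]),
(33,[(4,0),(6,2),(12,1),(15,6),(26,14)]),
(32,[(4,0),(6,8),(10,7),(28,9),(29,4)]),
(34,[(4,0),(6,14),(12,7),(15,4),(26,3)]),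
(79,[(4,0),(6,1),(8,7),(10,17),(17,8)]),
(80,[(4,0),(6,7),(8,11),(10,5),(17,18)]),
(52,[(4,0),(7,6),(16,1),(22,5),(26,15)]),
(9,[(4,0),(7,5),(18,13),(26,18),(28,1)]),
(91,[(4,0),(7,11),(13,13),(20,18),(21,9)]),
(11,[(4,0),(7,17),(18,10),(26,8),(28,11)]),
(53,[(4,0),(7,4),(16,7),(22,16),(26,10)]),
(10,[(4,0),(7,16),(18,15),(26,12),(28,7)]),
(51,[(4,0),(7,9),(16,11),(22,17),(26,13)]),
(92,[(4,0),(7,1),(13,15),(20,12),(21,6)]),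
(90,[(4,0),(7,7),(13,10),(20,8),(21,4)]),
(105,[(4,0),(8,0),(14,0),(27,0),(28,0)]),
(88,[(4,0),(8,10),(16,14),(19,1),(28,15)]),
(7,[(4,0),(8,3),(9,8),(24,10),(29,14)]),
(87,[(4,0),(8,15),(16,2),(19,11),(28,13)]),
(8,[(4,0),(8,2),(9,18),(24,13),(29,3)]),
(6,[(4,0),(8,14),(9,12),(24,15),(29,2)]),
(89,[(4,0),(8,13),(16,3),(19,7),(28,10)]),
(36,[(4,0),(9,6),(14,4),(18,18),(19,16)]),
(22,[(4,0),(9,5),(13,8),(14,13),(29,15)]),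
(21,[(4,0),(9,17),(13,12),(14,10),(29,13)]),
(37,[(4,0),(9,4),(14,9),(18,12),(19,17)]),
(23,[(4,0),(9,16),(13,18),(14,15),(29,10)]),
(20,[(4,0),(9,3),(17,17),(19,15),(22,9)]),
(38,[(4,0),(9,9),(14,6),(18,8),(19,5)]),
(18,[(4,0),(9,2),(17,5),(19,10),(22,6)]),
(19,[(4,0),(9,14),(17,16),(19,13),(22,4)]),
(15,[(4,0),(10,6),(14,2),(22,8),(25,17)]),
(16,[(4,0),(10,4),(14,14),(22,18),(25,5)]),
(17,[(4,0),(10,9),(14,3),(22,12),(25,16)]),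
(94,[(4,0),(11,5),(12,15),(25,6),(28,17)]),
(93,[(4,0),(11,17),(12,13),(25,9),(28,16)]),
(95,[(4,0),(11,16),(12,10),(25,4),(28,5)]),
(57,[(4,0),(12,5),(14,7),(20,6),(23,11)]),
(59,[(4,0),(12,17),(14,1),(20,9),(23,7)]),
(58,[(4,0),(12,16),(14,11),(20,4),(23,1)])]

def Q676x4 : List (ℕ × List (ℕ × ℕ)) := [
(3,[(4,0),(12,3),(14,8),(17,4),(29,17)]),
(4,[(4,0),(12,2),(14,18),(17,9),(29,5)]),
(5,[(4,0),(12,14),(14,12),(17,6),(29,16)]),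
(40,[(4,0),(21,11),(23,12),(25,18),(27,9)]),
(41,[(4,0),(21,1),(23,8),(25,12),(27,6)]),
(39,[(4,0),(21,7),(23,18),(25,8),(27,4)]),
(91,[(5,0),(6,10),(19,1),(22,12),(28,14)]),
(51,[(5,0),(6,3),(11,13),(13,12),(17,5)]),
(90,[(5,0),(6,15),(19,11),(22,18),(28,2)]),
(52,[(5,0),(6,2),(11,15),(13,8),(17,16)]),
(53,[(5,0),(6,14),(11,10),(13,18),(17,17)]),
(92,[(5,0),(6,13),(19,7),(22,8),(28,3)]),
(72,[(5,0),(7,5),(10,1),(22,14),(27,16)]),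
(81,[(5,0),(7,11),(9,1),(11,16),(18,12)]),
(74,[(5,0),(7,17),(10,11),(22,2),(27,5)]),
(73,[(5,0),(7,16),(10,7),(22,3),(27,17)]),
(38,[(5,0),(7,3),(13,11),(16,9),(27,2)]),
(36,[(5,0),(7,2),(13,1),(16,6),(27,14)]),
(37,[(5,0),(7,14),(13,7),(16,4),(27,3)]),
(82,[(5,0),(7,1),(9,7),(11,17),(18,8)]),
(83,[(5,0),(7,7),(9,11),(11,5),(18,18)]),
(55,[(5,0),(8,6),(17,1),(23,5),(27,15)]),
(12,[(5,0),(8,5),(19,13),(27,18),(29,1)]),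
(94,[(5,0),(8,11),(14,13),(21,18),(22,9)]),
(14,[(5,0),(8,17),(19,10),(27,8),(29,11)]),
(56,[(5,0),(8,4),(17,7),(23,16),(27,10)]),
(13,[(5,0),(8,16),(19,15),(27,12),(29,7)]),
(54,[(5,0),(8,9),(17,11),(23,17),(27,13)]),
(95,[(5,0),(8,1),(14,15),(21,12),(22,6)]),
(93,[(5,0),(8,7),(14,10),(21,8),(22,4)]),
(1,[(5,0),(9,10),(17,14),(20,1),(29,15)]),
(0,[(5,0),(9,15),(17,2),(20,11),(29,13)]),
(2,[(5,0),(9,13),(17,3),(20,7),(29,10)]),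
(39,[(5,0),(10,6),(15,4),(19,18),(20,16)]),
(40,[(5,0),(10,4),(15,9),(19,12),(20,17)]),
(23,[(5,0),(10,3),(18,17),(20,15),(23,9)]),
(41,[(5,0),(10,9),(15,6),(19,8),(20,5)]),
(21,[(5,0),(10,2),(18,5),(20,10),(23,6)]),
(22,[(5,0),(10,14),(18,16),(20,13),(23,4)]),
(18,[(5,0),(11,6),(15,2),(23,8),(26,17)]),
(19,[(5,0),(11,4),(15,14),(23,18),(26,5)]),
(20,[(5,0),(11,9),(15,3),(23,12),(26,16)]),
(97,[(5,0),(12,5),(13,15),(26,6),(29,17)]),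
(96,[(5,0),(12,17),(13,13),(26,9),(29,16)]),
(98,[(5,0),(12,16),(13,10),(26,4),(29,5)]),
(60,[(5,0),(13,5),(15,7),(21,6),(24,11)]),
(62,[(5,0),(13,17),(15,1),(21,9),(24,7)]),
(61,[(5,0),(13,16),(15,11),(21,4),(24,1)]),
(105,[(5,0),(18,0),(19,0),(21,0),(26,0)]),
(43,[(5,0),(22,11),(24,12),(26,18),(28,9)]),
(44,[(5,0),(22,1),(24,8),(26,12),(28,6)]),
(42,[(5,0),(22,7),(24,18),(26,8),(28,4)]),
(94,[(6,0),(7,10),(20,1),(23,12),(29,14)]),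
(54,[(6,0),(7,3),(12,13),(14,12),(18,5)]),
(93,[(6,0),(7,15),(20,11),(23,18),(29,2)]),
(55,[(6,0),(7,2),(12,15),(14,8),(18,16)]),
(56,[(6,0),(7,14),(12,10),(14,18),(18,17)]),
(95,[(6,0),(7,13),(20,7),(23,8),(29,3)]),
(75,[(6,0),(8,5),(11,1),(23,14),(28,16)]),
(84,[(6,0),(8,11),(10,1),(12,16),(19,12)]),
(77,[(6,0),(8,17),(11,11),(23,2),(28,5)]),
(76,[(6,0),(8,16),(11,7),(23,3),(28,17)]),
(41,[(6,0),(8,3),(14,11),(17,9),(28,2)]),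
(39,[(6,0),(8,2),(14,1),(17,6),(28,14)]),
(40,[(6,0),(8,14),(14,7),(17,4),(28,3)]),
(85,[(6,0),(8,1),(10,7),(12,17),(19,8)]),
(86,[(6,0),(8,7),(10,11),(12,5),(19,18)]),
(58,[(6,0),(9,6),(18,1),(24,5),(28,15)]),
(97,[(6,0),(9,11),(15,13),(22,18),(23,9)]),
(59,[(6,0),(9,4),(18,7),(24,16),(28,10)]),
(57,[(6,0),(9,9),(18,11),(24,17),(28,13)]),
(98,[(6,0),(9,1),(15,15),(22,12),(23,6)]),
(96,[(6,0),(9,7),(15,10),(22,8),(23,4)]),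
(42,[(6,0),(11,6),(16,4),(20,18),(21,16)]),
(43,[(6,0),(11,4),(16,9),(20,12),(21,17)]),
(26,[(6,0),(11,3),(19,17),(21,15),(24,9)]),
(44,[(6,0),(11,9),(16,6),(20,8),(21,5)]),
(24,[(6,0),(11,2),(19,5),(21,10),(24,6)]),
(25,[(6,0),(11,14),(19,16),(21,13),(24,4)]),
(21,[(6,0),(12,6),(16,2),(24,8),(27,17)]),
(22,[(6,0),(12,4),(16,14),(24,18),(27,5)]),
(23,[(6,0),(12,9),(16,3),(24,12),(27,16)]),
(63,[(6,0),(14,5),(16,7),(22,6),(25,11)]),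
(65,[(6,0),(14,17),(16,1),(22,9),(25,7)]),
(64,[(6,0),(14,16),(16,11),(22,4),(25,1)]),
(46,[(6,0),(23,11),(25,12),(27,18),(29,9)]),
(47,[(6,0),(23,1),(25,8),(27,12),(29,6)]),
(45,[(6,0),(23,7),(25,18),(27,8),(29,4)]),
(57,[(7,0),(8,3),(13,13),(15,12),(19,5)]),
(58,[(7,0),(8,2),(13,15),(15,8),(19,16)]),
(59,[(7,0),(8,14),(13,10),(15,18),(19,17)]),
(78,[(7,0),(9,5),(12,1),(24,14),(29,16)]),
(87,[(7,0),(9,11),(11,1),(13,16),(20,12)]),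
(80,[(7,0),(9,17),(12,11),(24,2),(29,5)]),
(79,[(7,0),(9,16),(12,7),(24,3),(29,17)]),
(44,[(7,0),(9,3),(15,11),(18,9),(29,2)]),
(42,[(7,0),(9,2),(15,1),(18,6),(29,14)]),
(43,[(7,0),(9,14),(15,7),(18,4),(29,3)]),
(88,[(7,0),(9,1),(11,7),(13,17),(20,8)]),
(89,[(7,0),(9,7),(11,11),(13,5),(20,18)])]

def Q676x5 : List (ℕ × List (ℕ × ℕ)) := [
(61,[(7,0),(10,6),(19,1),(25,5),(29,15)]),
(100,[(7,0),(10,11),(16,13),(23,18),(24,9)]),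
(62,[(7,0),(10,4),(19,7),(25,16),(29,10)]),
(60,[(7,0),(10,9),(19,11),(25,17),(29,13)]),
(101,[(7,0),(10,1),(16,15),(23,12),(24,6)]),
(99,[(7,0),(10,7),(16,10),(23,8),(24,4)]),
(45,[(7,0),(12,6),(17,4),(21,18),(22,16)]),
(46,[(7,0),(12,4),(17,9),(21,12),(22,17)]),
(29,[(7,0),(12,3),(20,17),(22,15),(25,9)]),
(47,[(7,0),(12,9),(17,6),(21,8),(22,5)]),
(27,[(7,0),(12,2),(20,5),(22,10),(25,6)]),
(28,[(7,0),(12,14),(20,16),(22,13),(25,4)]),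
(24,[(7,0),(13,6),(17,2),(25,8),(28,17)]),
(25,[(7,0),(13,4),(17,14),(25,18),(28,5)]),
(26,[(7,0),(13,9),(17,3),(25,12),(28,16)]),
(66,[(7,0),(15,5),(17,7),(23,6),(26,11)]),
(68,[(7,0),(15,17),(17,1),(23,9),(26,7)]),
(67,[(7,0),(15,16),(17,11),(23,4),(26,1)]),
(60,[(8,0),(9,3),(14,13),(16,12),(20,5)]),
(61,[(8,0),(9,2),(14,15),(16,8),(20,16)]),
(62,[(8,0),(9,14),(14,10),(16,18),(20,17)]),
(0,[(8,0),(10,11),(12,1),(14,16),(21,12)]),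
(1,[(8,0),(10,1),(12,7),(14,17),(21,8)]),
(2,[(8,0),(10,7),(12,11),(14,5),(21,18)]),
(103,[(8,0),(11,11),(17,13),(24,18),(25,9)]),
(104,[(8,0),(11,1),(17,15),(24,12),(25,6)]),
(102,[(8,0),(11,7),(17,10),(24,8),(25,4)]),
(48,[(8,0),(13,6),(18,4),(22,18),(23,16)]),
(49,[(8,0),(13,4),(18,9),(22,12),(23,17)]),
(32,[(8,0),(13,3),(21,17),(23,15),(26,9)]),
(50,[(8,0),(13,9),(18,6),(22,8),(23,5)]),
(30,[(8,0),(13,2),(21,5),(23,10),(26,6)]),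
(31,[(8,0),(13,14),(21,16),(23,13),(26,4)]),
(27,[(8,0),(14,6),(18,2),(26,8),(29,17)]),
(28,[(8,0),(14,4),(18,14),(26,18),(29,5)]),
(29,[(8,0),(14,9),(18,3),(26,12),(29,16)]),
(69,[(8,0),(16,5),(18,7),(24,6),(27,11)]),
(71,[(8,0),(16,17),(18,1),(24,9),(27,7)]),
(70,[(8,0),(16,16),(18,11),(24,4),(27,1)]),
(63,[(9,0),(10,3),(15,13),(17,12),(21,5)]),
(64,[(9,0),(10,2),(15,15),(17,8),(21,16)]),
(65,[(9,0),(10,14),(15,10),(17,18),(21,17)]),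
(3,[(9,0),(11,11),(13,1),(15,16),(22,12)]),
(4,[(9,0),(11,1),(13,7),(15,17),(22,8)]),
(5,[(9,0),(11,7),(13,11),(15,5),(22,18)]),
(91,[(9,0),(12,11),(18,13),(25,18),(26,9)]),
(92,[(9,0),(12,1),(18,15),(25,12),(26,6)]),
(90,[(9,0),(12,7),(18,10),(25,8),(26,4)]),
(51,[(9,0),(14,6),(19,4),(23,18),(24,16)]),
(52,[(9,0),(14,4),(19,9),(23,12),(24,17)]),
(35,[(9,0),(14,3),(22,17),(24,15),(27,9)]),
(53,[(9,0),(14,9),(19,6),(23,8),(24,5)]),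
(33,[(9,0),(14,2),(22,5),(24,10),(27,6)]),
(34,[(9,0),(14,14),(22,16),(24,13),(27,4)]),
(72,[(9,0),(17,5),(19,7),(25,6),(28,11)]),
(74,[(9,0),(17,17),(19,1),(25,9),(28,7)]),
(73,[(9,0),(17,16),(19,11),(25,4),(28,1)]),
(66,[(10,0),(11,3),(16,13),(18,12),(22,5)]),
(67,[(10,0),(11,2),(16,15),(18,8),(22,16)]),
(68,[(10,0),(11,14),(16,10),(18,18),(22,17)]),
(6,[(10,0),(12,11),(14,1),(16,16),(23,12)]),
(7,[(10,0),(12,1),(14,7),(16,17),(23,8)]),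
(8,[(10,0),(12,7),(14,11),(16,5),(23,18)]),
(94,[(10,0),(13,11),(19,13),(26,18),(27,9)]),
(95,[(10,0),(13,1),(19,15),(26,12),(27,6)]),
(93,[(10,0),(13,7),(19,10),(26,8),(27,4)]),
(54,[(10,0),(15,6),(20,4),(24,18),(25,16)]),
(55,[(10,0),(15,4),(20,9),(24,12),(25,17)]),
(38,[(10,0),(15,3),(23,17),(25,15),(28,9)]),
(56,[(10,0),(15,9),(20,6),(24,8),(25,5)]),
(36,[(10,0),(15,2),(23,5),(25,10),(28,6)]),
(37,[(10,0),(15,14),(23,16),(25,13),(28,4)]),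
(75,[(10,0),(18,5),(20,7),(26,6),(29,11)]),
(77,[(10,0),(18,17),(20,1),(26,9),(29,7)]),
(76,[(10,0),(18,16),(20,11),(26,4),(29,1)]),
(69,[(11,0),(12,3),(17,13),(19,12),(23,5)]),
(70,[(11,0),(12,2),(17,15),(19,8),(23,16)]),
(71,[(11,0),(12,14),(17,10),(19,18),(23,17)]),
(9,[(11,0),(13,11),(15,1),(17,16),(24,12)]),
(10,[(11,0),(13,1),(15,7),(17,17),(24,8)]),
(11,[(11,0),(13,7),(15,11),(17,5),(24,18)]),
(97,[(11,0),(14,11),(20,13),(27,18),(28,9)]),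
(98,[(11,0),(14,1),(20,15),(27,12),(28,6)]),
(96,[(11,0),(14,7),(20,10),(27,8),(28,4)]),
(57,[(11,0),(16,6),(21,4),(25,18),(26,16)]),
(58,[(11,0),(16,4),(21,9),(25,12),(26,17)]),
(41,[(11,0),(16,3),(24,17),(26,15),(29,9)]),
(59,[(11,0),(16,9),(21,6),(25,8),(26,5)]),
(39,[(11,0),(16,2),(24,5),(26,10),(29,6)]),
(40,[(11,0),(16,14),(24,16),(26,13),(29,4)]),
(105,[(12,0),(13,0),(15,0),(20,0),(24,0)]),
(72,[(12,0),(13,3),(18,13),(20,12),(24,5)]),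
(73,[(12,0),(13,2),(18,15),(20,8),(24,16)]),
(74,[(12,0),(13,14),(18,10),(20,18),(24,17)]),
(12,[(12,0),(14,11),(16,1),(18,16),(25,12)]),
(13,[(12,0),(14,1),(16,7),(18,17),(25,8)]),
(14,[(12,0),(14,7),(16,11),(18,5),(25,18)]),
(100,[(12,0),(15,11),(21,13),(28,18),(29,9)]),
(101,[(12,0),(15,1),(21,15),(28,12),(29,6)]),
(99,[(12,0),(15,7),(21,10),(28,8),(29,4)])]

def Q676x6 : List (ℕ × List (ℕ × ℕ)) := [
(60,[(12,0),(17,6),(22,4),(26,18),(27,16)]),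
(61,[(12,0),(17,4),(22,9),(26,12),(27,17)]),
(62,[(12,0),(17,9),(22,6),(26,8),(27,5)]),
(75,[(13,0),(14,3),(19,13),(21,12),(25,5)]),
(76,[(13,0),(14,2),(19,15),(21,8),(25,16)]),
(77,[(13,0),(14,14),(19,10),(21,18),(25,17)]),
(15,[(13,0),(15,11),(17,1),(19,16),(26,12)]),
(16,[(13,0),(15,1),(17,7),(19,17),(26,8)]),
(17,[(13,0),(15,7),(17,11),(19,5),(26,18)]),
(63,[(13,0),(18,6),(23,4),(27,18),(28,16)]),
(64,[(13,0),(18,4),(23,9),(27,12),(28,17)]),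
(65,[(13,0),(18,9),(23,6),(27,8),(28,5)]),
(78,[(14,0),(15,3),(20,13),(22,12),(26,5)]),
(79,[(14,0),(15,2),(20,15),(22,8),(26,16)]),
(80,[(14,0),(15,14),(20,10),(22,18),(26,17)]),
(18,[(14,0),(16,11),(18,1),(20,16),(27,12)]),
(19,[(14,0),(16,1),(18,7),(20,17),(27,8)]),
(20,[(14,0),(16,7),(18,11),(20,5),(27,18)]),
(66,[(14,0),(19,6),(24,4),(28,18),(29,16)]),
(67,[(14,0),(19,4),(24,9),(28,12),(29,17)]),
(68,[(14,0),(19,9),(24,6),(28,8),(29,5)]),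
(81,[(15,0),(16,3),(21,13),(23,12),(27,5)]),
(82,[(15,0),(16,2),(21,15),(23,8),(27,16)]),
(83,[(15,0),(16,14),(21,10),(23,18),(27,17)]),
(21,[(15,0),(17,11),(19,1),(21,16),(28,12)]),
(22,[(15,0),(17,1),(19,7),(21,17),(28,8)]),
(23,[(15,0),(17,7),(19,11),(21,5),(28,18)]),
(84,[(16,0),(17,3),(22,13),(24,12),(28,5)]),
(85,[(16,0),(17,2),(22,15),(24,8),(28,16)]),
(86,[(16,0),(17,14),(22,10),(24,18),(28,17)]),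
(24,[(16,0),(18,11),(20,1),(22,16),(29,12)]),
(25,[(16,0),(18,1),(20,7),(22,17),(29,8)]),
(26,[(16,0),(18,7),(20,11),(22,5),(29,18)]),
(87,[(17,0),(18,3),(23,13),(25,12),(29,5)]),
(88,[(17,0),(18,2),(23,15),(25,8),(29,16)]),
(89,[(17,0),(18,14),(23,10),(25,18),(29,17)])]

theorem s676 : StOn (Fin 676) 6 :=
  st_of_chkH 106 30 1 1 19 6 s106 (P676x0 ++ P676x1)
    (Q676x0 ++ Q676x1 ++ Q676x2 ++ Q676x3 ++ Q676x4 ++ Q676x5 ++ Q676x6) (by decide +kernel)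

end H9St
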