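import Mathlib
import Pool.Agent.H9.StH76

namespace H9St

set_option maxRecDepth 100000

def P771x0 : List (List (ℕ × ℕ)) := [
[(0,0),(0,39),(0,128),(0,84),(0,137),(0,54)],
[(0,0),(0,78),(0,18),(4,34),(4,85),(4,116)],
[(0,0),(0,117),(0,27),(1,38),(1,45),(1,61)],
[(0,0),(0,17),(0,36),(3,68),(3,31),(3,93)],
[(0,0),(0,134),(0,70),(0,138),(0,28),(0,91)],
[(0,0),(0,34),(1,111),(2,103),(3,94),(3,74)],
[(0,0),(0,73),(0,81),(4,124),(4,31),(4,138)],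
[(0,0),(0,12),(1,103),(2,35),(3,34),(4,22)],
[(0,0),(0,51),(0,82),(1,123),(1,105),(1,44)],
[(0,0),(0,129),(0,3),(3,29),(3,109),(3,133)],
[(0,0),(0,107),(0,93),(1,50),(1,108),(1,42)],
[(0,0),(0,7),(0,23),(4,128),(4,101),(4,79)],
[(0,0),(0,24),(0,59),(2,33),(2,30),(2,20)],
[(0,0),(0,102),(0,25),(2,107),(2,71),(2,88)],
[(0,0),(0,119),(2,45),(2,79),(3,17),(4,9)],
[(0,0),(0,87),(1,17),(2,80),(3,38),(4,90)],
[(0,0),(0,26),(2,78),(2,11),(3,103),(4,30)],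
[(0,0),(0,99),(1,118),(2,123),(3,27),(4,126)],
[(0,0),(0,38),(1,75),(2,17),(3,56),(3,50)],
[(0,0),(0,133),(2,121),(2,83),(3,19),(4,100)],
[(0,0),(0,72),(1,25),(2,91),(3,87),(3,61)],
[(0,0),(1,39),(1,33),(3,21),(3,122),(4,58)],
[(0,0),(1,117),(1,129),(2,81),(3,13),(4,12)],
[(0,0),(1,112),(1,13),(2,131),(3,136),(4,40)],
[(0,0),(1,63),(2,21),(3,73),(4,70),(4,122)],
[(0,0),(1,97),(2,10),(3,7),(3,59),(4,76)],
[(0,0),(1,136),(1,49),(2,66),(3,129),(4,87)],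
[(0,0),(1,131),(2,102),(2,122),(4,28),(4,62)],
[(0,0),(1,109),(1,135),(3,48),(3,120),(4,73)],
[(0,0),(1,43),(2,3),(3,16),(3,115),(4,134)],
[(0,0),(1,99),(2,112),(2,72),(3,91),(4,96)],
[(0,0),(1,138),(2,126),(3,104),(3,116),(4,68)],
[(0,0),(1,52),(2,101),(2,49),(3,118),(4,42)],
[(0,0),(1,130),(1,110),(3,36),(3,70),(4,8)],
[(0,0),(1,81),(2,114),(2,120),(4,102),(4,64)],
[(0,0),(1,71),(2,70),(3,58),(4,36),(4,48)],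
[(0,0),(1,127),(2,117),(2,105),(3,69),(4,1)],
[(0,0),(1,66),(2,36),(2,62),(4,114),(4,47)],
[(0,0),(1,5),(2,48),(3,8),(4,21),(4,120)],
[(1,0),(1,39),(1,128),(1,84),(1,137),(1,54)],
[(1,0),(1,117),(1,27),(2,38),(2,45),(2,61)],
[(1,0),(1,17),(1,36),(4,68),(4,31),(4,93)],
[(1,0),(1,134),(1,70),(1,138),(1,28),(1,91)],
[(1,0),(1,34),(2,111),(3,103),(4,94),(4,74)],
[(1,0),(1,51),(1,82),(2,123),(2,105),(2,44)],
[(1,0),(1,129),(1,3),(4,29),(4,109),(4,133)],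
[(1,0),(1,107),(1,93),(2,50),(2,108),(2,42)],
[(1,0),(1,24),(1,59),(3,33),(3,30),(3,20)],
[(1,0),(1,102),(1,25),(3,107),(3,71),(3,88)],
[(1,0),(1,38),(2,75),(3,17),(4,56),(4,50)],
[(1,0),(1,72),(2,25),(3,91),(4,87),(4,61)],
[(2,0),(2,39),(2,128),(2,84),(2,137),(2,54)],
[(2,0),(2,117),(2,27),(3,38),(3,45),(3,61)],
[(2,0),(2,134),(2,70),(2,138),(2,28),(2,91)],
[(2,0),(2,51),(2,82),(3,123),(3,105),(3,44)],
[(2,0),(2,107),(2,93),(3,50),(3,108),(3,42)],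
[(2,0),(2,24),(2,59),(4,33),(4,30),(4,20)],
[(2,0),(2,102),(2,25),(4,107),(4,71),(4,88)],
[(3,0),(3,39),(3,128),(3,84),(3,137),(3,54)],
[(3,0),(3,117),(3,27),(4,38),(4,45),(4,61)],
[(3,0),(3,134),(3,70),(3,138),(3,28),(3,91)],
[(3,0),(3,51),(3,82),(4,123),(4,105),(4,44)],
[(3,0),(3,107),(3,93),(4,50),(4,108),(4,42)],
[(4,0),(4,39),(4,128),(4,84),(4,137),(4,54)],
[(4,0),(4,134),(4,70),(4,138),(4,28),(4,91)]]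

def Q771x0 : List (ℕ × List (ℕ × ℕ)) := [
(75,[(0,0),(1,0),(2,0),(3,0),(4,0)]),
(48,[(0,0),(1,78),(2,34),(3,43),(4,127)]),
(10,[(0,0),(1,56),(2,136),(3,131),(4,13)]),
(45,[(0,0),(1,95),(2,104),(3,49),(4,61)]),
(4,[(0,0),(1,134),(2,16),(3,3),(4,59)]),
(19,[(0,0),(1,73),(2,95),(3,124),(4,17)]),
(51,[(0,0),(1,12),(2,90),(3,46),(4,55)]),
(73,[(0,0),(1,51),(2,137),(3,63),(4,26)]),
(26,[(0,0),(1,90),(2,57),(3,11),(4,131)]),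
(28,[(0,0),(1,29),(2,61),(3,44),(4,117)]),
(14,[(0,0),(1,68),(2,116),(3,126),(4,115)]),
(30,[(0,0),(1,107),(2,133),(3,98),(4,23)]),
(43,[(0,0),(1,7),(2,53),(3,33),(4,92)]),
(40,[(0,0),(1,46),(2,26),(3,85),(4,132)]),
(50,[(0,0),(1,85),(2,115),(3,117),(4,18)]),
(72,[(0,0),(1,124),(2,47),(3,53),(4,84)]),
(2,[(0,0),(1,24),(2,92),(3,1),(4,11)]),
(64,[(0,0),(1,102),(2,76),(3,127),(4,74)]),
(59,[(0,0),(1,2),(2,42),(3,24),(4,109)]),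
(7,[(0,0),(1,80),(2,75),(3,96),(4,83)]),
(37,[(0,0),(1,119),(2,39),(3,86),(4,93)]),
(24,[(0,0),(1,58),(2,85),(3,89),(4,103)]),
(27,[(0,0),(1,36),(2,94),(3,121),(4,125)]),
(74,[(0,0),(1,114),(2,134),(3,52),(4,50)]),
(15,[(0,0),(1,14),(2,50),(3,108),(4,135)]),
(49,[(0,0),(1,53),(2,1),(3,80),(4,39)]),
(63,[(0,0),(1,31),(2,86),(3,71),(4,133)]),
(6,[(0,0),(1,70),(2,73),(3,28),(4,63)]),
(57,[(0,0),(1,9),(2,93),(3,105),(4,44)]),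
(11,[(0,0),(1,48),(2,58),(3,47),(4,71)]),
(46,[(0,0),(1,87),(2,27),(3,125),(4,86)]),
(13,[(0,0),(1,126),(2,43),(3,123),(4,118)]),
(42,[(0,0),(1,26),(2,130),(3,55),(4,32)]),
(67,[(0,0),(1,65),(2,28),(3,2),(4,53)]),
(39,[(0,0),(1,104),(2,29),(3,6),(4,113)]),
(18,[(0,0),(1,4),(2,18),(3,54),(4,112)]),
(53,[(0,0),(1,121),(2,67),(3,97),(4,99)]),
(1,[(0,0),(1,21),(2,8),(3,64),(4,5)]),
(33,[(0,0),(1,116),(2,84),(3,110),(4,75)]),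
(38,[(0,0),(1,16),(2,2),(3,135),(4,111)]),
(60,[(0,0),(1,55),(2,40),(3,102),(4,108)]),
(0,[(0,0),(1,94),(2,129),(3,66),(4,136)]),
(32,[(0,0),(1,133),(2,109),(3,137),(4,14)]),
(62,[(0,0),(1,89),(2,64),(3,84),(4,2)]),
(5,[(0,0),(1,128),(2,13),(3,81),(4,129)]),
(41,[(0,0),(1,28),(2,44),(3,30),(4,24)]),
(23,[(0,0),(1,106),(2,60),(3,41),(4,49)]),
(66,[(0,0),(1,6),(2,37),(3,92),(4,77)]),
(54,[(0,0),(1,84),(2,96),(3,35),(4,130)]),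
(69,[(0,0),(1,62),(2,68),(3,99),(4,15)]),
(56,[(0,0),(1,40),(2,22),(3,107),(4,137)]),
(58,[(0,0),(1,79),(2,38),(3,138),(4,52)]),
(68,[(0,0),(1,57),(2,55),(3,5),(4,119)]),
(12,[(0,0),(1,35),(2,111),(3,42),(4,45)]),
(61,[(0,0),(1,113),(2,25),(3,111),(4,37)]),
(47,[(0,0),(1,30),(2,32),(3,72),(4,54)]),
(29,[(0,0),(1,8),(2,98),(3,65),(4,19)]),
(31,[(0,0),(1,47),(2,54),(3,100),(4,80)]),
(70,[(0,0),(1,86),(2,12),(3,114),(4,88)]),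
(35,[(0,0),(1,125),(2,119),(3,95),(4,123)]),
(36,[(0,0),(1,64),(2,41),(3,9),(4,35)]),
(3,[(0,0),(1,3),(2,97),(3,132),(4,69)]),
(17,[(0,0),(1,120),(2,128),(3,79),(4,46)]),
(71,[(0,0),(1,20),(2,77),(3,75),(4,25)]),
(34,[(0,0),(1,59),(2,106),(3,113),(4,20)]),
(55,[(0,0),(1,98),(2,59),(3,112),(4,60)]),
(65,[(0,0),(1,137),(2,87),(3,62),(4,82)]),
(9,[(0,0),(1,76),(2,7),(3,10),(4,104)]),
(44,[(0,0),(1,115),(2,4),(3,20),(4,6)]),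
(20,[(0,0),(1,93),(2,74),(3,82),(4,33)]),
(25,[(0,0),(1,32),(2,15),(3,88),(4,110)]),
(8,[(0,0),(1,10),(2,138),(3,23),(4,91)]),
(21,[(0,0),(1,27),(2,31),(3,45),(4,81)]),
(22,[(0,0),(1,122),(2,56),(3,78),(4,107)]),
(16,[(0,0),(1,22),(2,51),(3,83),(4,66)]),
(52,[(0,0),(1,100),(2,14),(3,101),(4,41)])]

theorem s771 : StOn (Fin 771) 6 :=
  st_of_chkH 76 5 1 1 139 6 s76 (P771x0)
    (Q771x0) (by decide +kernel)

end H9St
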