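import Mathlib
import Pool.Agent.H9.StHole

namespace H9St

set_option maxRecDepth 100000

def P96x0 : List (List (ℕ × ℕ)) := [
[(0,0),(0,17),(0,3),(2,15),(2,16),(2,8)],
[(0,0),(0,15),(0,6),(1,5),(1,12),(1,4)],
[(0,0),(0,11),(0,18),(4,7),(4,12),(4,10)],
[(0,0),(1,15),(2,14),(3,18),(3,2),(4,4)],
[(0,0),(1,13),(2,2),(3,3),(3,8),(4,6)],
[(0,0),(1,11),(2,6),(3,5),(3,4),(4,16)],
[(0,0),(1,7),(2,9),(3,17),(3,6),(4,5)],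
[(0,0),(1,3),(2,7),(3,1),(3,10),(4,14)],
[(0,0),(1,1),(2,4),(3,9),(3,16),(4,17)],
[(0,0),(1,14),(2,1),(3,15),(3,11),(4,2)],
[(0,0),(1,10),(2,3),(3,14),(3,12),(4,9)],
[(0,0),(1,2),(2,11),(3,13),(3,7),(4,3)],
[(1,0),(1,17),(1,14),(2,15),(2,11),(2,5)],
[(1,0),(1,15),(1,6),(4,9),(4,10),(4,2)],
[(2,0),(2,17),(2,14),(4,3),(4,16),(4,12)]]

def Q96x0 : List (ℕ × List (ℕ × ℕ)) := [
(0,[(0,0),(1,0),(2,0),(3,0),(4,0)])]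

theorem s96 : StOn (Fin 96) 6 :=
  st_of_chkH 1 5 1 1 19 6 (st_one _) (P96x0)
    (Q96x0) (by decide +kernel)

end H9St
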