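import Mathlib
import Pool.Agent.H9.StH96

namespace H9St

set_option maxRecDepth 100000

def P796x0 : List (List (ℕ × ℕ)) := [
[(0,0),(0,5),(10,2),(55,6),(75,1),(80,3)],
[(0,0),(0,3),(18,4),(25,2),(49,6),(99,5)],
[(0,0),(0,1),(2,2),(26,4),(50,5),(51,6)],
[(0,0),(1,3),(20,1),(48,2),(66,5),(87,4)],
[(0,0),(1,1),(50,3),(50,2),(52,4),(76,6)],
[(0,0),(1,4),(3,1),(10,5),(15,6),(22,3)],
[(0,0),(2,3),(35,6),(47,1),(64,5),(74,4)],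
[(0,0),(2,6),(3,3),(12,4),(17,5),(24,2)],
[(0,0),(2,4),(4,3),(14,1),(19,2),(21,6)],
[(0,0),(3,0),(77,0),(79,0),(86,0),(96,0)],
[(0,0),(3,5),(3,6),(29,2),(53,3),(54,4)],
[(0,0),(3,4),(38,3),(45,5),(62,2),(72,1)],
[(0,0),(4,0),(17,0),(23,0),(85,0),(88,0)],
[(0,0),(4,6),(51,3),(54,1),(54,2),(75,5)],
[(0,0),(4,4),(24,5),(47,6),(65,2),(86,1)],
[(0,0),(5,0),(32,0),(36,0),(66,0),(69,0)],
[(0,0),(5,1),(12,5),(15,2),(16,6),(18,3)],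
[(0,0),(5,6),(6,2),(28,1),(71,4),(92,3)],
[(0,0),(5,2),(30,5),(75,6),(75,4),(85,1)],
[(0,0),(6,0),(27,0),(57,0),(65,0),(97,0)],
[(0,0),(6,5),(8,4),(9,1),(18,2),(23,3)],
[(0,0),(6,3),(31,1),(31,4),(49,5),(50,6)],
[(0,0),(7,4),(10,1),(11,5),(13,2),(20,6)],
[(0,0),(8,5),(62,3),(70,2),(77,1),(86,4)],
[(0,0),(8,2),(17,6),(35,3),(71,1),(94,4)],
[(0,0),(10,0),(41,0),(52,0),(53,0),(67,0)],
[(0,0),(10,6),(66,2),(68,5),(76,1),(88,3)],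
[(0,0),(12,0),(18,0),(45,0),(80,0),(83,0)],
[(0,0),(12,3),(12,6),(31,2),(37,5),(81,1)],
[(0,0),(12,2),(40,1),(42,4),(79,6),(89,5)],
[(0,0),(13,0),(14,0),(16,0),(24,0),(64,0)],
[(0,0),(13,1),(16,3),(48,4),(59,2),(77,5)],
[(0,0),(13,6),(29,1),(40,5),(68,4),(71,2)],
[(0,0),(14,3),(35,2),(48,1),(78,6),(81,4)],
[(0,0),(14,4),(22,5),(32,1),(68,6),(86,2)],
[(0,0),(15,0),(37,0),(59,0),(71,0),(87,0)],
[(0,0),(15,5),(15,3),(70,4),(90,6),(95,1)],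
[(0,0),(15,1),(56,3),(58,6),(78,4),(91,2)],
[(0,0),(16,4),(26,6),(39,5),(94,3),(97,1)],
[(0,0),(17,1),(32,6),(41,2),(55,5),(63,3)],
[(0,0),(18,5),(30,2),(33,6),(77,3),(92,4)],
[(0,0),(20,0),(43,0),(50,0),(58,0),(90,0)],
[(0,0),(20,5),(25,3),(80,6),(95,4),(95,2)],
[(0,0),(22,0),(29,0),(68,0),(81,0),(89,0)],
[(0,0),(22,2),(59,5),(67,4),(83,6),(99,3)],
[(0,0),(24,4),(25,5),(25,1),(43,2),(74,3)],
[(0,0),(25,0),(39,0),(40,0),(42,0),(91,0)],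
[(0,0),(25,4),(45,2),(55,3),(70,1),(70,6)],
[(0,0),(26,0),(31,0),(44,0),(60,0),(63,0)],
[(0,0),(26,5),(29,3),(29,4),(75,2),(79,1)],
[(0,0),(27,6),(32,5),(33,1),(69,2),(98,3)],
[(0,0),(30,0),(38,0),(55,0),(93,0),(94,0)],
[(0,0),(32,3),(40,4),(48,6),(59,1),(86,5)],
[(0,0),(32,4),(71,6),(78,2),(86,3),(94,5)],
[(0,0),(34,1),(61,5),(88,4),(93,3),(94,6)],
[(0,0),(46,0),(73,0),(75,0),(82,0),(92,0)],
[(0,0),(46,6),(59,3),(60,5),(64,2),(82,4)],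
[(0,0),(48,3),(59,6),(62,1),(71,5),(94,2)],
[(0,0),(50,1),(56,4),(81,5),(81,2),(99,6)],
[(0,0),(51,0),(56,0),(74,0),(78,0),(98,0)],
[(1,0),(1,5),(11,2),(56,6),(76,1),(81,3)],
[(1,0),(1,3),(19,4),(26,2),(45,6),(95,5)],
[(1,0),(1,1),(3,2),(27,4),(51,5),(52,6)],
[(1,0),(2,0),(4,0),(11,0),(37,0),(51,0)],
[(1,0),(2,3),(21,1),(49,2),(67,5),(88,4)],
[(1,0),(2,1),(51,3),(51,2),(53,4),(77,6)],
[(1,0),(2,4),(4,1),(11,5),(16,6),(23,3)],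
[(1,0),(3,3),(36,6),(48,1),(60,5),(70,4)],
[(1,0),(3,6),(4,3),(13,4),(18,5),(20,2)],
[(1,0),(4,5),(4,6),(25,2),(50,4),(54,3)],
[(1,0),(4,4),(39,3),(46,5),(63,2),(73,1)],
[(1,0),(5,0),(79,0),(81,0),(88,0),(98,0)],
[(1,0),(5,1),(7,5),(9,4),(19,2),(24,3)],
[(1,0),(6,0),(19,0),(25,0),(87,0),(90,0)],
[(1,0),(6,1),(13,5),(16,2),(17,6),(19,3)],
[(1,0),(6,6),(7,2),(29,1),(72,4),(93,3)],
[(1,0),(6,2),(31,5),(76,6),(76,4),(86,1)],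
[(1,0),(7,3),(32,1),(32,4),(45,5),(51,6)],
[(1,0),(8,4),(11,1),(12,5),(14,2),(21,6)],
[(1,0),(9,0),(21,0),(63,0),(64,0),(78,0)],
[(1,0),(9,5),(63,3),(71,2),(78,1),(87,4)],
[(1,0),(9,2),(18,6),(36,3),(72,1),(90,4)],
[(1,0),(10,3),(36,2),(49,1),(79,6),(82,4)],
[(1,0),(10,4),(23,5),(33,1),(69,6),(87,2)],
[(1,0),(11,6),(67,2),(69,5),(77,1),(89,3)],
[(1,0),(12,0),(43,0),(54,0),(55,0),(69,0)],
[(1,0),(13,0),(30,0),(49,0),(74,0),(86,0)],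
[(1,0),(13,3),(13,6),(32,2),(38,5),(82,1)],
[(1,0),(13,2),(41,1),(43,4),(75,6),(85,5)],
[(1,0),(14,0),(20,0),(47,0),(82,0),(85,0)],
[(1,0),(14,1),(17,3),(49,4),(55,2),(78,5)],
[(1,0),(14,6),(25,1),(41,5),(69,4),(72,2)],
[(1,0),(15,0),(16,0),(18,0),(26,0),(66,0)],
[(1,0),(16,5),(16,3),(71,4),(91,6),(96,1)],
[(1,0),(16,1),(57,3),(59,6),(79,4),(92,2)],
[(1,0),(17,0),(39,0),(61,0),(73,0),(89,0)],
[(1,0),(17,4),(27,6),(35,5),(90,3),(98,1)],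
[(1,0),(18,1),(33,6),(42,2),(56,5),(64,3)],
[(1,0),(19,5),(31,2),(34,6),(78,3),(93,4)],
[(1,0),(20,4),(26,5),(26,1),(44,2),(70,3)]]

def P796x1 : List (List (ℕ × ℕ)) := [
[(1,0),(21,5),(26,3),(81,6),(96,4),(96,2)],
[(1,0),(22,0),(45,0),(52,0),(60,0),(92,0)],
[(1,0),(23,0),(35,0),(56,0),(72,0),(97,0)],
[(1,0),(23,2),(55,5),(68,4),(84,6),(95,3)],
[(1,0),(24,0),(31,0),(70,0),(83,0),(91,0)],
[(1,0),(25,3),(25,4),(27,5),(75,1),(76,2)],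
[(1,0),(26,4),(46,2),(56,3),(71,1),(71,6)],
[(1,0),(27,0),(41,0),(42,0),(44,0),(93,0)],
[(1,0),(28,0),(33,0),(46,0),(62,0),(65,0)],
[(1,0),(28,6),(33,5),(34,1),(65,2),(99,3)],
[(1,0),(30,1),(62,5),(89,4),(90,6),(94,3)],
[(1,0),(32,0),(40,0),(57,0),(95,0),(96,0)],
[(1,0),(33,3),(41,4),(49,6),(55,1),(87,5)],
[(1,0),(33,4),(72,6),(79,2),(87,3),(90,5)],
[(1,0),(47,6),(55,3),(60,2),(61,5),(83,4)],
[(1,0),(49,3),(55,6),(63,1),(72,5),(90,2)],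
[(1,0),(51,1),(57,4),(82,5),(82,2),(95,6)],
[(2,0),(2,5),(12,2),(57,6),(77,1),(82,3)],
[(2,0),(2,3),(15,4),(27,2),(46,6),(96,5)],
[(2,0),(2,1),(4,2),(28,4),(52,5),(53,6)],
[(2,0),(3,0),(5,0),(12,0),(38,0),(52,0)],
[(2,0),(3,3),(22,1),(45,2),(68,5),(89,4)],
[(2,0),(3,1),(52,3),(52,2),(54,4),(78,6)],
[(2,0),(4,3),(37,6),(49,1),(61,5),(71,4)],
[(2,0),(5,5),(64,3),(72,2),(79,1),(88,4)],
[(2,0),(5,4),(6,1),(8,5),(15,2),(20,3)],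
[(2,0),(5,2),(19,6),(37,3),(73,1),(91,4)],
[(2,0),(6,0),(80,0),(82,0),(89,0),(99,0)],
[(2,0),(7,0),(20,0),(26,0),(88,0),(91,0)],
[(2,0),(7,1),(14,5),(15,3),(17,2),(18,6)],
[(2,0),(7,6),(8,2),(25,1),(73,4),(94,3)],
[(2,0),(7,2),(32,5),(77,6),(77,4),(87,1)],
[(2,0),(8,3),(33,1),(33,4),(46,5),(52,6)],
[(2,0),(9,4),(10,2),(12,1),(13,5),(22,6)],
[(2,0),(10,0),(22,0),(64,0),(65,0),(79,0)],
[(2,0),(10,1),(18,3),(45,4),(56,2),(79,5)],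
[(2,0),(10,6),(26,1),(42,5),(65,4),(73,2)],
[(2,0),(11,3),(37,2),(45,1),(75,6),(83,4)],
[(2,0),(11,4),(24,5),(34,1),(65,6),(88,2)],
[(2,0),(12,6),(65,5),(68,2),(78,1),(85,3)],
[(2,0),(13,0),(44,0),(55,0),(56,0),(70,0)],
[(2,0),(14,0),(31,0),(50,0),(75,0),(87,0)],
[(2,0),(14,3),(14,6),(33,2),(39,5),(83,1)],
[(2,0),(14,2),(42,1),(44,4),(76,6),(86,5)],
[(2,0),(15,5),(30,6),(32,2),(79,3),(94,4)],
[(2,0),(16,0),(17,0),(19,0),(27,0),(67,0)],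
[(2,0),(17,5),(17,3),(72,4),(92,6),(97,1)],
[(2,0),(17,1),(55,6),(58,3),(75,4),(93,2)],
[(2,0),(18,0),(40,0),(62,0),(74,0),(90,0)],
[(2,0),(18,4),(28,6),(36,5),(91,3),(99,1)],
[(2,0),(19,1),(34,6),(43,2),(57,5),(60,3)],
[(2,0),(21,4),(27,5),(27,1),(40,2),(71,3)],
[(2,0),(22,5),(27,3),(82,6),(97,4),(97,2)],
[(2,0),(23,0),(46,0),(53,0),(61,0),(93,0)],
[(2,0),(24,0),(36,0),(57,0),(73,0),(98,0)],
[(2,0),(24,2),(56,5),(69,4),(80,6),(96,3)],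
[(2,0),(25,0),(32,0),(71,0),(84,0),(92,0)],
[(2,0),(26,3),(26,4),(28,5),(76,1),(77,2)],
[(2,0),(27,4),(47,2),(57,3),(72,1),(72,6)],
[(2,0),(28,0),(42,0),(43,0),(45,0),(94,0)],
[(2,0),(29,6),(30,1),(34,5),(66,2),(95,3)],
[(2,0),(31,1),(63,5),(85,4),(90,3),(91,6)],
[(2,0),(33,0),(41,0),(58,0),(96,0),(97,0)],
[(2,0),(34,3),(42,4),(45,6),(56,1),(88,5)],
[(2,0),(34,4),(73,6),(75,2),(88,3),(91,5)],
[(2,0),(45,3),(56,6),(64,1),(73,5),(91,2)],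
[(2,0),(48,0),(54,0),(59,0),(77,0),(81,0)],
[(2,0),(48,6),(56,3),(61,2),(62,5),(84,4)],
[(2,0),(52,1),(58,4),(83,5),(83,2),(96,6)],
[(3,0),(3,5),(13,2),(58,6),(78,1),(83,3)],
[(3,0),(3,3),(16,4),(28,2),(47,6),(97,5)],
[(3,0),(4,0),(6,0),(13,0),(39,0),(53,0)],
[(3,0),(4,3),(23,1),(46,2),(69,5),(85,4)],
[(3,0),(4,1),(50,4),(53,3),(53,2),(79,6)],
[(3,0),(5,4),(11,2),(13,1),(14,5),(23,6)],
[(3,0),(6,5),(60,3),(73,2),(75,1),(89,4)],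
[(3,0),(6,4),(7,1),(9,5),(16,2),(21,3)],
[(3,0),(6,2),(15,6),(38,3),(74,1),(92,4)],
[(3,0),(8,0),(35,0),(40,0),(70,0),(73,0)],
[(3,0),(8,1),(10,5),(16,3),(18,2),(19,6)],
[(3,0),(8,6),(9,2),(26,1),(74,4),(90,3)],
[(3,0),(8,2),(33,5),(78,6),(78,4),(88,1)],
[(3,0),(9,0),(31,0),(48,0),(61,0),(69,0)],
[(3,0),(9,3),(34,1),(34,4),(47,5),(53,6)],
[(3,0),(10,3),(10,6),(34,2),(35,5),(84,1)],
[(3,0),(10,2),(40,4),(43,1),(77,6),(87,5)],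
[(3,0),(11,0),(23,0),(65,0),(66,0),(80,0)],
[(3,0),(11,1),(19,3),(46,4),(57,2),(75,5)],
[(3,0),(11,6),(27,1),(43,5),(66,4),(74,2)],
[(3,0),(12,3),(38,2),(46,1),(76,6),(84,4)],
[(3,0),(12,4),(20,5),(30,1),(66,6),(89,2)],
[(3,0),(13,6),(66,5),(69,2),(79,1),(86,3)],
[(3,0),(14,0),(45,0),(56,0),(57,0),(71,0)],
[(3,0),(15,0),(32,0),(51,0),(76,0),(88,0)],
[(3,0),(15,1),(30,6),(44,2),(58,5),(61,3)],
[(3,0),(16,5),(31,6),(33,2),(75,3),(90,4)],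
[(3,0),(17,0),(18,0),(20,0),(28,0),(68,0)],
[(3,0),(18,5),(18,3),(73,4),(93,6),(98,1)],
[(3,0),(18,1),(56,6),(59,3),(76,4),(94,2)],
[(3,0),(19,0),(41,0),(63,0),(75,0),(91,0)]]

def P796x2 : List (List (ℕ × ℕ)) := [
[(3,0),(19,4),(29,6),(37,5),(92,3),(95,1)],
[(3,0),(20,2),(57,5),(65,4),(81,6),(97,3)],
[(3,0),(22,4),(28,5),(28,1),(41,2),(72,3)],
[(3,0),(23,5),(28,3),(83,6),(98,4),(98,2)],
[(3,0),(24,0),(47,0),(54,0),(62,0),(94,0)],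
[(3,0),(25,0),(37,0),(58,0),(74,0),(99,0)],
[(3,0),(25,6),(30,5),(31,1),(67,2),(96,3)],
[(3,0),(26,0),(33,0),(72,0),(85,0),(93,0)],
[(3,0),(27,3),(27,4),(29,5),(77,1),(78,2)],
[(3,0),(28,4),(48,2),(58,3),(73,1),(73,6)],
[(3,0),(29,0),(43,0),(44,0),(46,0),(95,0)],
[(3,0),(30,3),(43,4),(46,6),(57,1),(89,5)],
[(3,0),(30,4),(74,6),(76,2),(89,3),(92,5)],
[(3,0),(32,1),(64,5),(86,4),(91,3),(92,6)],
[(3,0),(46,3),(57,6),(60,1),(74,5),(92,2)],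
[(3,0),(49,0),(55,0),(60,0),(78,0),(82,0)],
[(3,0),(49,6),(57,3),(62,2),(63,5),(80,4)],
[(3,0),(53,1),(59,4),(84,5),(84,2),(97,6)],
[(4,0),(4,5),(14,2),(59,6),(79,1),(84,3)],
[(4,0),(4,3),(17,4),(29,2),(48,6),(98,5)],
[(4,0),(5,0),(7,0),(14,0),(40,0),(54,0)],
[(4,0),(5,5),(7,4),(8,1),(17,2),(22,3)],
[(4,0),(5,3),(30,1),(30,4),(48,5),(54,6)],
[(4,0),(5,2),(9,6),(27,1),(70,4),(91,3)],
[(4,0),(6,4),(10,5),(12,2),(14,1),(24,6)],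
[(4,0),(7,5),(61,3),(74,2),(76,1),(85,4)],
[(4,0),(7,2),(16,6),(39,3),(70,1),(93,4)],
[(4,0),(8,0),(22,0),(28,0),(90,0),(93,0)],
[(4,0),(9,0),(36,0),(41,0),(71,0),(74,0)],
[(4,0),(9,1),(11,5),(15,6),(17,3),(19,2)],
[(4,0),(9,2),(34,5),(79,6),(79,4),(89,1)],
[(4,0),(10,0),(32,0),(49,0),(62,0),(70,0)],
[(4,0),(11,3),(11,6),(30,2),(36,5),(80,1)],
[(4,0),(11,2),(41,4),(44,1),(78,6),(88,5)],
[(4,0),(12,0),(24,0),(66,0),(67,0),(81,0)],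
[(4,0),(12,1),(15,3),(47,4),(58,2),(76,5)],
[(4,0),(12,6),(28,1),(44,5),(67,4),(70,2)],
[(4,0),(13,3),(39,2),(47,1),(77,6),(80,4)],
[(4,0),(13,4),(21,5),(31,1),(67,6),(85,2)],
[(4,0),(14,6),(65,2),(67,5),(75,1),(87,3)],
[(4,0),(15,0),(46,0),(57,0),(58,0),(72,0)],
[(4,0),(15,4),(25,6),(38,5),(93,3),(96,1)],
[(4,0),(16,0),(33,0),(52,0),(77,0),(89,0)],
[(4,0),(16,1),(31,6),(40,2),(59,5),(62,3)],
[(4,0),(17,5),(32,6),(34,2),(76,3),(91,4)],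
[(4,0),(18,0),(19,0),(21,0),(29,0),(69,0)],
[(4,0),(19,5),(19,3),(74,4),(94,6),(99,1)],
[(4,0),(19,1),(55,3),(57,6),(77,4),(90,2)],
[(4,0),(20,0),(42,0),(64,0),(76,0),(92,0)],
[(4,0),(21,2),(58,5),(66,4),(82,6),(98,3)],
[(4,0),(23,4),(29,5),(29,1),(42,2),(73,3)],
[(4,0),(24,5),(29,3),(84,6),(99,4),(99,2)],
[(4,0),(25,5),(28,3),(28,4),(78,1),(79,2)],
[(4,0),(26,6),(31,5),(32,1),(68,2),(97,3)],
[(4,0),(29,4),(49,2),(59,3),(74,1),(74,6)],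
[(4,0),(30,0),(44,0),(45,0),(47,0),(96,0)],
[(4,0),(31,3),(44,4),(47,6),(58,1),(85,5)],
[(4,0),(31,4),(70,6),(77,2),(85,3),(93,5)],
[(4,0),(33,1),(60,5),(87,4),(92,3),(93,6)],
[(4,0),(34,0),(43,0),(60,0),(98,0),(99,0)],
[(4,0),(45,6),(58,3),(63,2),(64,5),(81,4)],
[(4,0),(47,3),(58,6),(61,1),(70,5),(93,2)],
[(4,0),(50,0),(56,0),(61,0),(79,0),(83,0)],
[(4,0),(54,1),(55,4),(80,5),(80,2),(98,6)],
[(5,0),(5,5),(15,2),(60,6),(80,1),(85,3)],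
[(5,0),(5,3),(23,4),(29,6),(30,2),(79,5)],
[(5,0),(5,1),(7,2),(31,4),(55,5),(56,6)],
[(5,0),(6,1),(55,3),(55,2),(57,4),(81,6)],
[(5,0),(7,3),(27,1),(40,6),(54,4),(69,5)],
[(5,0),(8,0),(49,0),(83,0),(85,0),(92,0)],
[(5,0),(8,5),(8,6),(34,2),(58,3),(59,4)],
[(5,0),(8,4),(25,5),(43,3),(52,1),(67,2)],
[(5,0),(9,0),(23,0),(29,0),(91,0),(94,0)],
[(5,0),(9,6),(56,3),(59,1),(59,2),(80,5)],
[(5,0),(10,0),(37,0),(42,0),(72,0),(75,0)],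
[(5,0),(10,1),(17,5),(20,2),(21,6),(23,3)],
[(5,0),(10,6),(11,2),(33,1),(51,4),(97,3)],
[(5,0),(10,2),(35,5),(80,6),(80,4),(90,1)],
[(5,0),(11,0),(33,0),(50,0),(63,0),(71,0)],
[(5,0),(11,3),(29,5),(36,1),(36,4),(55,6)],
[(5,0),(13,0),(25,0),(67,0),(68,0),(82,0)],
[(5,0),(13,5),(50,2),(67,3),(82,1),(91,4)],
[(5,0),(13,2),(22,6),(40,3),(51,1),(99,4)],
[(5,0),(15,6),(71,2),(73,5),(81,1),(93,3)],
[(5,0),(16,0),(47,0),(58,0),(59,0),(73,0)],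
[(5,0),(17,3),(17,6),(36,2),(42,5),(86,1)],
[(5,0),(17,2),(45,1),(47,4),(84,6),(94,5)],
[(5,0),(18,1),(21,3),(28,4),(64,2),(82,5)],
[(5,0),(18,6),(34,1),(45,5),(51,2),(73,4)],
[(5,0),(19,0),(20,0),(22,0),(30,0),(70,0)],
[(5,0),(19,3),(28,1),(40,2),(83,6),(86,4)],
[(5,0),(20,5),(20,3),(50,4),(75,1),(95,6)],
[(5,0),(20,1),(61,3),(63,6),(83,4),(96,2)],
[(5,0),(21,0),(43,0),(65,0),(77,0),(93,0)],
[(5,0),(21,4),(31,6),(44,5),(77,1),(99,3)],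
[(5,0),(22,1),(37,6),(46,2),(60,5),(68,3)],
[(5,0),(23,5),(35,2),(38,6),(82,3),(97,4)],
[(5,0),(25,2),(30,4),(50,1),(50,6),(60,3)],
[(5,0),(26,6),(64,3),(65,5),(69,2),(87,4)],
[(5,0),(27,0),(39,0),(48,0),(60,0),(76,0)]]

def P796x3 : List (List (ℕ × ℕ)) := [
[(5,0),(28,0),(34,0),(74,0),(87,0),(95,0)],
[(5,0),(28,3),(51,5),(64,6),(67,1),(99,2)],
[(5,0),(28,6),(37,3),(45,4),(64,1),(91,5)],
[(5,0),(31,5),(34,3),(34,4),(80,2),(84,1)],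
[(5,0),(32,6),(37,5),(38,1),(74,2),(78,3)],
[(5,0),(37,4),(51,6),(83,2),(91,3),(99,5)],
[(5,0),(39,1),(66,5),(93,4),(98,3),(99,6)],
[(5,0),(51,0),(57,0),(62,0),(80,0),(84,0)],
[(5,0),(55,1),(61,4),(79,6),(86,5),(86,2)],
[(6,0),(6,5),(16,2),(61,6),(81,1),(86,3)],
[(6,0),(6,3),(24,4),(25,6),(31,2),(75,5)],
[(6,0),(6,1),(8,2),(32,4),(56,5),(57,6)],
[(6,0),(7,0),(8,0),(16,0),(42,0),(56,0)],
[(6,0),(7,1),(56,3),(56,2),(58,4),(82,6)],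
[(6,0),(8,3),(28,1),(41,6),(50,4),(65,5)],
[(6,0),(9,0),(50,0),(84,0),(86,0),(93,0)],
[(6,0),(9,5),(9,6),(30,2),(55,4),(59,3)],
[(6,0),(9,4),(26,5),(44,3),(53,1),(68,2)],
[(6,0),(10,0),(24,0),(30,0),(92,0),(95,0)],
[(6,0),(11,0),(38,0),(43,0),(73,0),(76,0)],
[(6,0),(11,1),(18,5),(21,2),(22,6),(24,3)],
[(6,0),(11,6),(12,2),(34,1),(52,4),(98,3)],
[(6,0),(11,2),(36,5),(81,6),(81,4),(91,1)],
[(6,0),(12,3),(25,5),(37,1),(37,4),(56,6)],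
[(6,0),(14,0),(26,0),(68,0),(69,0),(83,0)],
[(6,0),(14,5),(51,2),(68,3),(83,1),(92,4)],
[(6,0),(14,2),(23,6),(41,3),(52,1),(95,4)],
[(6,0),(15,3),(29,1),(41,2),(84,6),(87,4)],
[(6,0),(16,6),(72,2),(74,5),(82,1),(94,3)],
[(6,0),(18,0),(34,0),(54,0),(79,0),(91,0)],
[(6,0),(18,3),(18,6),(37,2),(43,5),(87,1)],
[(6,0),(18,2),(46,1),(48,4),(80,6),(90,5)],
[(6,0),(19,1),(22,3),(29,4),(60,2),(83,5)],
[(6,0),(19,6),(30,1),(46,5),(52,2),(74,4)],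
[(6,0),(20,0),(21,0),(23,0),(31,0),(71,0)],
[(6,0),(21,5),(21,3),(51,4),(76,1),(96,6)],
[(6,0),(21,1),(62,3),(64,6),(84,4),(97,2)],
[(6,0),(22,0),(44,0),(66,0),(78,0),(94,0)],
[(6,0),(22,4),(32,6),(40,5),(78,1),(95,3)],
[(6,0),(23,1),(38,6),(47,2),(61,5),(69,3)],
[(6,0),(24,5),(36,2),(39,6),(83,3),(98,4)],
[(6,0),(26,2),(31,4),(51,1),(51,6),(61,3)],
[(6,0),(27,6),(60,3),(65,2),(66,5),(88,4)],
[(6,0),(28,0),(40,0),(49,0),(61,0),(77,0)],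
[(6,0),(29,0),(35,0),(75,0),(88,0),(96,0)],
[(6,0),(29,3),(52,5),(60,6),(68,1),(95,2)],
[(6,0),(29,6),(38,3),(46,4),(60,1),(92,5)],
[(6,0),(30,3),(30,4),(32,5),(80,1),(81,2)],
[(6,0),(33,6),(38,5),(39,1),(70,2),(79,3)],
[(6,0),(35,1),(67,5),(94,4),(95,6),(99,3)],
[(6,0),(38,4),(52,6),(84,2),(92,3),(95,5)],
[(6,0),(52,0),(58,0),(63,0),(81,0),(85,0)],
[(6,0),(56,1),(62,4),(75,6),(87,5),(87,2)],
[(7,0),(7,5),(17,2),(62,6),(82,1),(87,3)],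
[(7,0),(7,3),(20,4),(26,6),(32,2),(76,5)],
[(7,0),(7,1),(9,2),(33,4),(57,5),(58,6)],
[(7,0),(8,1),(57,3),(57,2),(59,4),(83,6)],
[(7,0),(9,3),(29,1),(42,6),(51,4),(66,5)],
[(7,0),(10,0),(51,0),(85,0),(87,0),(94,0)],
[(7,0),(10,5),(52,2),(69,3),(84,1),(93,4)],
[(7,0),(10,2),(24,6),(42,3),(53,1),(96,4)],
[(7,0),(11,0),(25,0),(31,0),(93,0),(96,0)],
[(7,0),(12,0),(39,0),(44,0),(74,0),(77,0)],
[(7,0),(12,1),(19,5),(20,3),(22,2),(23,6)],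
[(7,0),(12,6),(13,2),(30,1),(53,4),(99,3)],
[(7,0),(12,2),(37,5),(82,6),(82,4),(92,1)],
[(7,0),(13,0),(34,0),(52,0),(65,0),(73,0)],
[(7,0),(13,3),(26,5),(38,1),(38,4),(57,6)],
[(7,0),(15,0),(27,0),(69,0),(70,0),(84,0)],
[(7,0),(15,1),(23,3),(25,4),(61,2),(84,5)],
[(7,0),(15,6),(31,1),(47,5),(53,2),(70,4)],
[(7,0),(16,3),(25,1),(42,2),(80,6),(88,4)],
[(7,0),(17,6),(70,5),(73,2),(83,1),(90,3)],
[(7,0),(19,0),(35,0),(55,0),(80,0),(92,0)],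
[(7,0),(19,3),(19,6),(38,2),(44,5),(88,1)],
[(7,0),(19,2),(47,1),(49,4),(81,6),(91,5)],
[(7,0),(20,5),(35,6),(37,2),(84,3),(99,4)],
[(7,0),(21,0),(22,0),(24,0),(32,0),(72,0)],
[(7,0),(22,5),(22,3),(52,4),(77,1),(97,6)],
[(7,0),(22,1),(60,6),(63,3),(80,4),(98,2)],
[(7,0),(23,0),(45,0),(67,0),(79,0),(95,0)],
[(7,0),(23,4),(33,6),(41,5),(79,1),(96,3)],
[(7,0),(24,1),(39,6),(48,2),(62,5),(65,3)],
[(7,0),(25,3),(53,5),(61,6),(69,1),(96,2)],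
[(7,0),(25,6),(39,3),(47,4),(61,1),(93,5)],
[(7,0),(27,2),(32,4),(52,1),(52,6),(62,3)],
[(7,0),(28,6),(61,3),(66,2),(67,5),(89,4)],
[(7,0),(29,0),(41,0),(50,0),(62,0),(78,0)],
[(7,0),(30,0),(36,0),(76,0),(89,0),(97,0)],
[(7,0),(31,3),(31,4),(33,5),(81,1),(82,2)],
[(7,0),(34,6),(35,1),(39,5),(71,2),(75,3)],
[(7,0),(36,1),(68,5),(90,4),(95,3),(96,6)],
[(7,0),(37,0),(46,0),(48,0),(49,0),(63,0)],
[(7,0),(39,4),(53,6),(80,2),(93,3),(96,5)],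
[(7,0),(53,0),(59,0),(64,0),(82,0),(86,0)],
[(7,0),(57,1),(63,4),(76,6),(88,5),(88,2)],
[(8,0),(8,5),(18,2),(63,6),(83,1),(88,3)],
[(8,0),(8,3),(21,4),(27,6),(33,2),(77,5)],
[(8,0),(9,0),(11,0),(19,0),(45,0),(59,0)],
[(8,0),(9,1),(55,4),(58,3),(58,2),(84,6)]]

def P796x4 : List (List (ℕ × ℕ)) := [
[(8,0),(11,5),(53,2),(65,3),(80,1),(94,4)],
[(8,0),(11,2),(20,6),(43,3),(54,1),(97,4)],
[(8,0),(12,0),(53,0),(87,0),(89,0),(96,0)],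
[(8,0),(13,0),(27,0),(33,0),(95,0),(98,0)],
[(8,0),(13,1),(15,5),(21,3),(23,2),(24,6)],
[(8,0),(13,6),(14,2),(31,1),(54,4),(95,3)],
[(8,0),(13,2),(38,5),(83,6),(83,4),(93,1)],
[(8,0),(14,0),(41,0),(46,0),(76,0),(79,0)],
[(8,0),(14,3),(27,5),(39,1),(39,4),(58,6)],
[(8,0),(15,0),(36,0),(54,0),(67,0),(75,0)],
[(8,0),(15,3),(15,6),(39,2),(40,5),(89,1)],
[(8,0),(15,2),(45,4),(48,1),(82,6),(92,5)],
[(8,0),(16,1),(24,3),(26,4),(62,2),(80,5)],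
[(8,0),(16,6),(32,1),(48,5),(54,2),(71,4)],
[(8,0),(17,0),(29,0),(71,0),(72,0),(86,0)],
[(8,0),(17,3),(26,1),(43,2),(81,6),(89,4)],
[(8,0),(18,6),(71,5),(74,2),(84,1),(91,3)],
[(8,0),(20,1),(35,6),(49,2),(63,5),(66,3)],
[(8,0),(21,0),(37,0),(57,0),(82,0),(94,0)],
[(8,0),(21,5),(36,6),(38,2),(80,3),(95,4)],
[(8,0),(23,5),(23,3),(53,4),(78,1),(98,6)],
[(8,0),(23,1),(61,6),(64,3),(81,4),(99,2)],
[(8,0),(24,4),(34,6),(42,5),(75,1),(97,3)],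
[(8,0),(25,0),(47,0),(69,0),(81,0),(97,0)],
[(8,0),(26,3),(54,5),(62,6),(65,1),(97,2)],
[(8,0),(26,6),(35,3),(48,4),(62,1),(94,5)],
[(8,0),(28,2),(33,4),(53,1),(53,6),(63,3)],
[(8,0),(29,6),(62,3),(67,2),(68,5),(85,4)],
[(8,0),(30,6),(35,5),(36,1),(72,2),(76,3)],
[(8,0),(31,0),(43,0),(52,0),(64,0),(80,0)],
[(8,0),(32,0),(38,0),(78,0),(91,0),(99,0)],
[(8,0),(32,3),(32,4),(34,5),(82,1),(83,2)],
[(8,0),(35,4),(54,6),(81,2),(94,3),(97,5)],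
[(8,0),(37,1),(69,5),(91,4),(96,3),(97,6)],
[(8,0),(55,0),(61,0),(66,0),(84,0),(88,0)],
[(8,0),(58,1),(64,4),(77,6),(89,5),(89,2)],
[(9,0),(9,5),(19,2),(64,6),(84,1),(89,3)],
[(9,0),(9,3),(22,4),(28,6),(34,2),(78,5)],
[(9,0),(10,0),(12,0),(20,0),(46,0),(60,0)],
[(9,0),(10,3),(28,5),(35,1),(35,4),(59,6)],
[(9,0),(10,2),(14,6),(32,1),(50,4),(96,3)],
[(9,0),(12,5),(54,2),(66,3),(81,1),(90,4)],
[(9,0),(12,2),(21,6),(44,3),(50,1),(98,4)],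
[(9,0),(13,0),(54,0),(88,0),(90,0),(97,0)],
[(9,0),(14,1),(16,5),(20,6),(22,3),(24,2)],
[(9,0),(14,2),(39,5),(84,6),(84,4),(94,1)],
[(9,0),(15,0),(42,0),(47,0),(77,0),(80,0)],
[(9,0),(16,0),(37,0),(55,0),(68,0),(76,0)],
[(9,0),(16,3),(16,6),(35,2),(41,5),(85,1)],
[(9,0),(16,2),(46,4),(49,1),(83,6),(93,5)],
[(9,0),(17,1),(20,3),(27,4),(63,2),(81,5)],
[(9,0),(17,6),(33,1),(49,5),(50,2),(72,4)],
[(9,0),(18,0),(30,0),(72,0),(73,0),(87,0)],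
[(9,0),(18,3),(27,1),(44,2),(82,6),(85,4)],
[(9,0),(19,6),(70,2),(72,5),(80,1),(92,3)],
[(9,0),(20,4),(30,6),(43,5),(76,1),(98,3)],
[(9,0),(21,1),(36,6),(45,2),(64,5),(67,3)],
[(9,0),(22,0),(38,0),(58,0),(83,0),(95,0)],
[(9,0),(22,5),(37,6),(39,2),(81,3),(96,4)],
[(9,0),(24,0),(25,0),(27,0),(34,0),(75,0)],
[(9,0),(24,5),(24,3),(54,4),(79,1),(99,6)],
[(9,0),(24,1),(60,3),(62,6),(82,4),(95,2)],
[(9,0),(25,6),(63,3),(68,2),(69,5),(86,4)],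
[(9,0),(27,3),(50,5),(63,6),(66,1),(98,2)],
[(9,0),(27,6),(36,3),(49,4),(63,1),(90,5)],
[(9,0),(29,2),(34,4),(54,1),(54,6),(64,3)],
[(9,0),(30,5),(33,3),(33,4),(83,1),(84,2)],
[(9,0),(31,6),(36,5),(37,1),(73,2),(77,3)],
[(9,0),(32,0),(44,0),(53,0),(65,0),(81,0)],
[(9,0),(36,4),(50,6),(82,2),(90,3),(98,5)],
[(9,0),(38,1),(65,5),(92,4),(97,3),(98,6)],
[(9,0),(56,0),(62,0),(67,0),(85,0),(89,0)],
[(9,0),(59,1),(60,4),(78,6),(85,5),(85,2)],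
[(10,0),(10,5),(20,2),(65,6),(85,1),(90,3)],
[(10,0),(10,1),(12,2),(36,4),(60,5),(61,6)],
[(10,0),(11,0),(13,0),(21,0),(47,0),(61,0)],
[(10,0),(11,1),(60,3),(60,2),(62,4),(86,6)],
[(10,0),(12,3),(32,1),(45,6),(59,4),(74,5)],
[(10,0),(13,5),(13,6),(39,2),(63,3),(64,4)],
[(10,0),(13,4),(30,5),(48,3),(57,1),(72,2)],
[(10,0),(14,0),(55,0),(89,0),(91,0),(98,0)],
[(10,0),(14,6),(61,3),(64,1),(64,2),(85,5)],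
[(10,0),(15,6),(16,2),(38,1),(56,4),(77,3)],
[(10,0),(15,2),(40,5),(85,6),(85,4),(95,1)],
[(10,0),(16,3),(34,5),(41,1),(41,4),(60,6)],
[(10,0),(17,0),(38,0),(56,0),(69,0),(77,0)],
[(10,0),(18,5),(55,2),(72,3),(87,1),(96,4)],
[(10,0),(19,0),(31,0),(73,0),(74,0),(88,0)],
[(10,0),(20,6),(51,2),(53,5),(86,1),(98,3)],
[(10,0),(22,3),(22,6),(41,2),(47,5),(91,1)],
[(10,0),(22,2),(25,1),(27,4),(89,6),(99,5)],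
[(10,0),(23,0),(39,0),(59,0),(84,0),(96,0)],
[(10,0),(23,6),(25,5),(39,1),(53,4),(56,2)],
[(10,0),(24,3),(33,1),(45,2),(88,6),(91,4)],
[(10,0),(25,0),(26,0),(28,0),(35,0),(76,0)],
[(10,0),(25,4),(33,6),(42,3),(69,1),(96,5)],
[(10,0),(30,2),(35,4),(55,1),(55,6),(65,3)],
[(10,0),(31,6),(69,3),(70,5),(74,2),(92,4)],
[(10,0),(33,0),(45,0),(54,0),(66,0),(82,0)],
[(10,0),(33,3),(56,5),(69,6),(72,1),(79,2)]]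

def P796x5 : List (List (ℕ × ℕ)) := [
[(10,0),(36,5),(39,3),(39,4),(85,2),(89,1)],
[(10,0),(37,6),(42,5),(43,1),(54,2),(83,3)],
[(10,0),(42,4),(56,6),(79,5),(88,2),(96,3)],
[(10,0),(44,1),(71,5),(78,3),(79,6),(98,4)],
[(10,0),(57,0),(63,0),(68,0),(86,0),(90,0)],
[(10,0),(60,1),(66,4),(84,6),(91,5),(91,2)],
[(11,0),(11,5),(21,2),(66,6),(86,1),(91,3)],
[(11,0),(11,1),(13,2),(37,4),(61,5),(62,6)],
[(11,0),(12,1),(61,3),(61,2),(63,4),(87,6)],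
[(11,0),(13,3),(33,1),(46,6),(55,4),(70,5)],
[(11,0),(14,5),(14,6),(35,2),(60,4),(64,3)],
[(11,0),(14,4),(31,5),(49,3),(58,1),(73,2)],
[(11,0),(15,0),(56,0),(90,0),(92,0),(99,0)],
[(11,0),(16,0),(30,0),(35,0),(48,0),(98,0)],
[(11,0),(16,6),(17,2),(39,1),(57,4),(78,3)],
[(11,0),(16,2),(41,5),(86,6),(86,4),(96,1)],
[(11,0),(17,3),(30,5),(42,1),(42,4),(61,6)],
[(11,0),(18,0),(39,0),(57,0),(70,0),(78,0)],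
[(11,0),(19,5),(56,2),(73,3),(88,1),(97,4)],
[(11,0),(20,0),(32,0),(74,0),(75,0),(89,0)],
[(11,0),(20,3),(34,1),(46,2),(89,6),(92,4)],
[(11,0),(21,6),(52,2),(54,5),(87,1),(99,3)],
[(11,0),(23,3),(23,6),(42,2),(48,5),(92,1)],
[(11,0),(23,2),(26,1),(28,4),(85,6),(95,5)],
[(11,0),(24,0),(40,0),(60,0),(85,0),(97,0)],
[(11,0),(24,6),(26,5),(35,1),(54,4),(57,2)],
[(11,0),(26,0),(27,0),(29,0),(36,0),(77,0)],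
[(11,0),(26,4),(34,6),(43,3),(65,1),(97,5)],
[(11,0),(31,2),(36,4),(56,1),(56,6),(66,3)],
[(11,0),(32,6),(65,3),(70,2),(71,5),(93,4)],
[(11,0),(34,0),(41,0),(49,0),(81,0),(94,0)],
[(11,0),(34,3),(57,5),(65,6),(73,1),(75,2)],
[(11,0),(35,3),(35,4),(37,5),(85,1),(86,2)],
[(11,0),(38,6),(43,5),(44,1),(50,2),(84,3)],
[(11,0),(40,1),(72,5),(75,6),(79,3),(99,4)],
[(11,0),(43,4),(57,6),(75,5),(89,2),(97,3)],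
[(11,0),(58,0),(64,0),(69,0),(87,0),(91,0)],
[(11,0),(61,1),(67,4),(80,6),(92,5),(92,2)],
[(12,0),(12,5),(22,2),(67,6),(87,1),(92,3)],
[(12,0),(12,1),(14,2),(38,4),(62,5),(63,6)],
[(12,0),(13,1),(62,3),(62,2),(64,4),(88,6)],
[(12,0),(14,3),(34,1),(47,6),(56,4),(71,5)],
[(12,0),(15,5),(57,2),(74,3),(89,1),(98,4)],
[(12,0),(17,0),(31,0),(36,0),(49,0),(99,0)],
[(12,0),(17,6),(18,2),(35,1),(58,4),(79,3)],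
[(12,0),(17,2),(42,5),(87,6),(87,4),(97,1)],
[(12,0),(18,3),(31,5),(43,1),(43,4),(62,6)],
[(12,0),(19,0),(40,0),(58,0),(71,0),(79,0)],
[(12,0),(20,6),(27,5),(36,1),(50,4),(58,2)],
[(12,0),(21,0),(33,0),(75,0),(76,0),(90,0)],
[(12,0),(21,3),(30,1),(47,2),(85,6),(93,4)],
[(12,0),(22,6),(50,5),(53,2),(88,1),(95,3)],
[(12,0),(24,3),(24,6),(43,2),(49,5),(93,1)],
[(12,0),(24,2),(27,1),(29,4),(86,6),(96,5)],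
[(12,0),(25,0),(41,0),(61,0),(86,0),(98,0)],
[(12,0),(27,0),(28,0),(30,0),(37,0),(78,0)],
[(12,0),(27,4),(30,6),(44,3),(66,1),(98,5)],
[(12,0),(30,3),(58,5),(66,6),(74,1),(76,2)],
[(12,0),(32,2),(37,4),(57,1),(57,6),(67,3)],
[(12,0),(33,6),(66,3),(71,2),(72,5),(94,4)],
[(12,0),(34,0),(47,0),(56,0),(68,0),(84,0)],
[(12,0),(35,0),(42,0),(50,0),(82,0),(95,0)],
[(12,0),(36,3),(36,4),(38,5),(86,1),(87,2)],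
[(12,0),(39,6),(40,1),(44,5),(51,2),(80,3)],
[(12,0),(41,1),(73,5),(75,3),(76,6),(95,4)],
[(12,0),(44,4),(58,6),(76,5),(85,2),(98,3)],
[(12,0),(59,0),(65,0),(70,0),(88,0),(92,0)],
[(12,0),(62,1),(68,4),(81,6),(93,5),(93,2)],
[(13,0),(13,5),(23,2),(68,6),(88,1),(93,3)],
[(13,0),(14,1),(60,4),(63,3),(63,2),(89,6)],
[(13,0),(16,5),(58,2),(70,3),(85,1),(99,4)],
[(13,0),(17,0),(48,0),(58,0),(92,0),(94,0)],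
[(13,0),(18,6),(19,2),(36,1),(59,4),(75,3)],
[(13,0),(18,2),(43,5),(88,6),(88,4),(98,1)],
[(13,0),(19,3),(32,5),(44,1),(44,4),(63,6)],
[(13,0),(20,0),(41,0),(59,0),(72,0),(80,0)],
[(13,0),(20,3),(20,6),(44,2),(45,5),(94,1)],
[(13,0),(20,2),(25,4),(28,1),(87,6),(97,5)],
[(13,0),(21,6),(28,5),(37,1),(51,4),(59,2)],
[(13,0),(22,3),(31,1),(48,2),(86,6),(94,4)],
[(13,0),(23,6),(51,5),(54,2),(89,1),(96,3)],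
[(13,0),(26,0),(42,0),(62,0),(87,0),(99,0)],
[(13,0),(28,0),(29,0),(31,0),(38,0),(79,0)],
[(13,0),(28,4),(31,6),(40,3),(67,1),(99,5)],
[(13,0),(31,3),(59,5),(67,6),(70,1),(77,2)],
[(13,0),(33,2),(38,4),(58,1),(58,6),(68,3)],
[(13,0),(34,6),(67,3),(72,2),(73,5),(90,4)],
[(13,0),(35,6),(40,5),(41,1),(52,2),(81,3)],
[(13,0),(36,0),(43,0),(51,0),(83,0),(96,0)],
[(13,0),(37,3),(37,4),(39,5),(87,1),(88,2)],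
[(13,0),(40,4),(59,6),(77,5),(86,2),(99,3)],
[(13,0),(42,1),(74,5),(76,3),(77,6),(96,4)],
[(13,0),(60,0),(66,0),(71,0),(89,0),(93,0)],
[(13,0),(63,1),(69,4),(82,6),(94,5),(94,2)],
[(14,0),(14,5),(24,2),(69,6),(89,1),(94,3)],
[(14,0),(15,3),(33,5),(40,1),(40,4),(64,6)],
[(14,0),(15,2),(19,6),(37,1),(55,4),(76,3)],
[(14,0),(17,5),(59,2),(71,3),(86,1),(95,4)],
[(14,0),(18,0),(49,0),(59,0),(93,0),(95,0)],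
[(14,0),(19,0),(33,0),(38,0),(48,0),(51,0)]]

def P796x6 : List (List (ℕ × ℕ)) := [
[(14,0),(19,2),(44,5),(89,6),(89,4),(99,1)],
[(14,0),(21,0),(42,0),(60,0),(73,0),(81,0)],
[(14,0),(21,3),(21,6),(40,2),(46,5),(90,1)],
[(14,0),(21,2),(26,4),(29,1),(88,6),(98,5)],
[(14,0),(22,6),(29,5),(38,1),(52,4),(55,2)],
[(14,0),(23,0),(34,0),(77,0),(78,0),(92,0)],
[(14,0),(23,3),(32,1),(49,2),(87,6),(90,4)],
[(14,0),(24,6),(50,2),(52,5),(85,1),(97,3)],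
[(14,0),(29,0),(30,0),(32,0),(39,0),(80,0)],
[(14,0),(29,4),(32,6),(41,3),(68,1),(95,5)],
[(14,0),(30,6),(68,3),(73,2),(74,5),(91,4)],
[(14,0),(32,3),(55,5),(68,6),(71,1),(78,2)],
[(14,0),(34,2),(39,4),(59,1),(59,6),(69,3)],
[(14,0),(35,5),(38,3),(38,4),(88,1),(89,2)],
[(14,0),(36,6),(41,5),(42,1),(53,2),(82,3)],
[(14,0),(37,0),(44,0),(52,0),(84,0),(97,0)],
[(14,0),(41,4),(55,6),(78,5),(87,2),(95,3)],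
[(14,0),(43,1),(70,5),(77,3),(78,6),(97,4)],
[(14,0),(61,0),(67,0),(72,0),(90,0),(94,0)],
[(14,0),(64,1),(65,4),(83,6),(90,5),(90,2)],
[(15,0),(15,1),(17,2),(41,4),(65,5),(66,6)],
[(15,0),(16,1),(65,3),(65,2),(67,4),(91,6)],
[(15,0),(17,3),(25,6),(37,1),(54,5),(64,4)],
[(15,0),(18,5),(18,6),(44,2),(68,3),(69,4)],
[(15,0),(18,4),(28,3),(35,5),(52,2),(62,1)],
[(15,0),(19,0),(50,0),(60,0),(94,0),(96,0)],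
[(15,0),(19,6),(66,3),(69,1),(69,2),(90,5)],
[(15,0),(20,6),(21,2),(43,1),(61,4),(82,3)],
[(15,0),(20,2),(45,5),(75,1),(90,6),(90,4)],
[(15,0),(21,3),(39,5),(46,1),(46,4),(65,6)],
[(15,0),(22,0),(43,0),(61,0),(74,0),(82,0)],
[(15,0),(23,5),(52,3),(60,2),(76,4),(92,1)],
[(15,0),(24,0),(35,0),(78,0),(79,0),(93,0)],
[(15,0),(28,0),(44,0),(48,0),(64,0),(89,0)],
[(15,0),(30,0),(31,0),(33,0),(40,0),(81,0)],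
[(15,0),(30,4),(38,6),(47,3),(74,1),(76,5)],
[(15,0),(35,2),(40,4),(60,1),(60,6),(70,3)],
[(15,0),(36,6),(50,5),(54,2),(74,3),(97,4)],
[(15,0),(38,0),(45,0),(53,0),(85,0),(98,0)],
[(15,0),(38,3),(52,1),(61,5),(74,6),(84,2)],
[(15,0),(41,5),(44,3),(44,4),(90,2),(94,1)],
[(15,0),(42,6),(47,5),(48,1),(59,2),(88,3)],
[(15,0),(47,4),(61,6),(76,3),(84,5),(93,2)],
[(15,0),(49,1),(51,5),(78,4),(83,3),(84,6)],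
[(15,0),(62,0),(68,0),(73,0),(91,0),(95,0)],
[(15,0),(65,1),(71,4),(89,6),(96,5),(96,2)],
[(16,0),(16,1),(18,2),(42,4),(66,5),(67,6)],
[(16,0),(17,1),(66,3),(66,2),(68,4),(92,6)],
[(16,0),(18,3),(26,6),(38,1),(50,5),(60,4)],
[(16,0),(19,5),(19,6),(40,2),(65,4),(69,3)],
[(16,0),(19,4),(29,3),(36,5),(53,2),(63,1)],
[(16,0),(20,0),(51,0),(61,0),(95,0),(97,0)],
[(16,0),(21,0),(34,0),(40,0),(50,0),(53,0)],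
[(16,0),(21,6),(22,2),(44,1),(62,4),(83,3)],
[(16,0),(21,2),(46,5),(76,1),(91,6),(91,4)],
[(16,0),(22,3),(35,5),(47,1),(47,4),(66,6)],
[(16,0),(23,0),(44,0),(62,0),(75,0),(83,0)],
[(16,0),(24,5),(53,3),(61,2),(77,4),(93,1)],
[(16,0),(25,0),(36,0),(79,0),(80,0),(94,0)],
[(16,0),(29,0),(45,0),(49,0),(65,0),(90,0)],
[(16,0),(31,4),(39,6),(48,3),(70,1),(77,5)],
[(16,0),(36,2),(41,4),(61,1),(61,6),(71,3)],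
[(16,0),(37,6),(50,2),(51,5),(70,3),(98,4)],
[(16,0),(39,0),(46,0),(54,0),(86,0),(99,0)],
[(16,0),(39,3),(53,1),(62,5),(70,6),(80,2)],
[(16,0),(40,3),(40,4),(42,5),(90,1),(91,2)],
[(16,0),(43,6),(48,5),(49,1),(55,2),(89,3)],
[(16,0),(45,1),(52,5),(79,4),(80,6),(84,3)],
[(16,0),(48,4),(62,6),(77,3),(80,5),(94,2)],
[(16,0),(63,0),(69,0),(74,0),(92,0),(96,0)],
[(16,0),(66,1),(72,4),(85,6),(97,5),(97,2)],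
[(17,0),(17,1),(19,2),(43,4),(67,5),(68,6)],
[(17,0),(18,1),(67,3),(67,2),(69,4),(93,6)],
[(17,0),(19,3),(27,6),(39,1),(51,5),(61,4)],
[(17,0),(20,5),(54,3),(62,2),(78,4),(94,1)],
[(17,0),(21,0),(52,0),(62,0),(96,0),(98,0)],
[(17,0),(22,0),(35,0),(41,0),(51,0),(54,0)],
[(17,0),(22,6),(23,2),(40,1),(63,4),(84,3)],
[(17,0),(22,2),(47,5),(77,1),(92,6),(92,4)],
[(17,0),(23,3),(36,5),(48,1),(48,4),(67,6)],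
[(17,0),(24,0),(45,0),(63,0),(76,0),(84,0)],
[(17,0),(26,0),(37,0),(80,0),(81,0),(95,0)],
[(17,0),(30,0),(46,0),(50,0),(66,0),(91,0)],
[(17,0),(32,0),(33,0),(34,0),(42,0),(83,0)],
[(17,0),(32,4),(35,6),(49,3),(71,1),(78,5)],
[(17,0),(35,3),(54,1),(63,5),(71,6),(81,2)],
[(17,0),(37,2),(42,4),(62,1),(62,6),(72,3)],
[(17,0),(38,6),(51,2),(52,5),(71,3),(99,4)],
[(17,0),(41,3),(41,4),(43,5),(91,1),(92,2)],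
[(17,0),(44,6),(45,1),(49,5),(56,2),(85,3)],
[(17,0),(46,1),(53,5),(75,4),(80,3),(81,6)],
[(17,0),(49,4),(63,6),(78,3),(81,5),(90,2)],
[(17,0),(64,0),(70,0),(75,0),(93,0),(97,0)],
[(17,0),(67,1),(73,4),(86,6),(98,5),(98,2)],
[(18,0),(19,1),(65,4),(68,3),(68,2),(94,6)],
[(18,0),(21,5),(50,3),(63,2),(79,4),(90,1)],
[(18,0),(22,0),(53,0),(63,0),(97,0),(99,0)],
[(18,0),(23,0),(36,0),(42,0),(52,0),(55,0)],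
[(18,0),(23,6),(24,2),(41,1),(64,4),(80,3)],
[(18,0),(23,2),(48,5),(78,1),(93,6),(93,4)]]

def P796x7 : List (List (ℕ × ℕ)) := [
[(18,0),(24,3),(37,5),(49,1),(49,4),(68,6)],
[(18,0),(25,0),(46,0),(64,0),(77,0),(85,0)],
[(18,0),(27,0),(38,0),(81,0),(82,0),(96,0)],
[(18,0),(31,0),(47,0),(51,0),(67,0),(92,0)],
[(18,0),(33,4),(36,6),(45,3),(72,1),(79,5)],
[(18,0),(36,3),(50,1),(64,5),(72,6),(82,2)],
[(18,0),(38,2),(43,4),(63,1),(63,6),(73,3)],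
[(18,0),(39,6),(52,2),(53,5),(72,3),(95,4)],
[(18,0),(40,6),(45,5),(46,1),(57,2),(86,3)],
[(18,0),(42,3),(42,4),(44,5),(92,1),(93,2)],
[(18,0),(45,4),(64,6),(79,3),(82,5),(91,2)],
[(18,0),(47,1),(54,5),(76,4),(81,3),(82,6)],
[(18,0),(65,0),(71,0),(76,0),(94,0),(98,0)],
[(18,0),(68,1),(74,4),(87,6),(99,5),(99,2)],
[(19,0),(20,3),(38,5),(45,1),(45,4),(69,6)],
[(19,0),(20,2),(24,6),(42,1),(60,4),(81,3)],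
[(19,0),(22,5),(51,3),(64,2),(75,4),(91,1)],
[(19,0),(24,0),(37,0),(43,0),(53,0),(56,0)],
[(19,0),(24,2),(49,5),(79,1),(94,6),(94,4)],
[(19,0),(26,0),(47,0),(65,0),(78,0),(86,0)],
[(19,0),(28,0),(39,0),(82,0),(83,0),(97,0)],
[(19,0),(34,4),(37,6),(46,3),(73,1),(75,5)],
[(19,0),(35,6),(53,2),(54,5),(73,3),(96,4)],
[(19,0),(37,3),(51,1),(60,5),(73,6),(83,2)],
[(19,0),(39,2),(44,4),(64,1),(64,6),(74,3)],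
[(19,0),(40,5),(43,3),(43,4),(93,1),(94,2)],
[(19,0),(41,6),(46,5),(47,1),(58,2),(87,3)],
[(19,0),(46,4),(60,6),(75,3),(83,5),(92,2)],
[(19,0),(48,1),(50,5),(77,4),(82,3),(83,6)],
[(19,0),(66,0),(72,0),(77,0),(95,0),(99,0)],
[(19,0),(69,1),(70,4),(88,6),(95,5),(95,2)],
[(20,0),(20,1),(22,2),(46,4),(70,5),(71,6)],
[(20,0),(21,1),(70,3),(70,2),(72,4),(96,6)],
[(20,0),(22,3),(30,6),(42,1),(59,5),(69,4)],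
[(20,0),(23,5),(23,6),(49,2),(73,3),(74,4)],
[(20,0),(23,4),(33,3),(40,5),(57,2),(67,1)],
[(20,0),(24,0),(48,0),(55,0),(65,0),(99,0)],
[(20,0),(24,6),(71,3),(74,1),(74,2),(95,5)],
[(20,0),(25,0),(38,0),(44,0),(54,0),(57,0)],
[(20,0),(27,5),(28,1),(47,6),(64,2),(93,3)],
[(20,0),(27,3),(35,4),(43,6),(54,1),(81,5)],
[(20,0),(27,4),(66,6),(81,3),(89,5),(98,2)],
[(20,0),(29,0),(40,0),(83,0),(84,0),(98,0)],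
[(20,0),(29,1),(56,5),(83,4),(88,3),(89,6)],
[(20,0),(34,0),(35,0),(37,0),(45,0),(86,0)],
[(20,0),(40,2),(45,4),(50,3),(65,1),(65,6)],
[(20,0),(41,6),(54,3),(55,5),(59,2),(77,4)],
[(20,0),(43,3),(54,6),(57,1),(66,5),(89,2)],
[(20,0),(46,5),(49,3),(49,4),(95,2),(99,1)],
[(20,0),(51,4),(70,1),(76,5),(76,2),(94,6)],
[(21,0),(21,1),(23,2),(47,4),(71,5),(72,6)],
[(21,0),(22,1),(71,3),(71,2),(73,4),(97,6)],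
[(21,0),(23,3),(31,6),(43,1),(55,5),(65,4)],
[(21,0),(24,5),(24,6),(45,2),(70,4),(74,3)],
[(21,0),(24,4),(34,3),(41,5),(58,2),(68,1)],
[(21,0),(25,1),(57,5),(84,4),(85,6),(89,3)],
[(21,0),(26,0),(39,0),(45,0),(55,0),(58,0)],
[(21,0),(28,5),(29,1),(48,6),(60,2),(94,3)],
[(21,0),(28,3),(36,4),(44,6),(50,1),(82,5)],
[(21,0),(28,4),(67,6),(82,3),(85,5),(99,2)],
[(21,0),(30,0),(41,0),(84,0),(85,0),(99,0)],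
[(21,0),(35,0),(36,0),(38,0),(46,0),(87,0)],
[(21,0),(41,2),(46,4),(51,3),(66,1),(66,6)],
[(21,0),(42,6),(50,3),(55,2),(56,5),(78,4)],
[(21,0),(44,3),(50,6),(58,1),(67,5),(85,2)],
[(21,0),(45,3),(45,4),(47,5),(95,1),(96,2)],
[(21,0),(48,0),(68,0),(74,0),(79,0),(97,0)],
[(21,0),(52,4),(71,1),(77,5),(77,2),(90,6)],
[(22,0),(22,1),(24,2),(48,4),(72,5),(73,6)],
[(22,0),(23,1),(72,3),(72,2),(74,4),(98,6)],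
[(22,0),(24,3),(32,6),(44,1),(56,5),(66,4)],
[(22,0),(25,1),(29,5),(49,6),(61,2),(90,3)],
[(22,0),(26,0),(48,0),(50,0),(57,0),(67,0)],
[(22,0),(26,1),(58,5),(80,4),(85,3),(86,6)],
[(22,0),(27,0),(40,0),(46,0),(56,0),(59,0)],
[(22,0),(29,3),(37,4),(40,6),(51,1),(83,5)],
[(22,0),(29,4),(68,6),(83,3),(86,5),(95,2)],
[(22,0),(36,0),(37,0),(39,0),(47,0),(88,0)],
[(22,0),(40,3),(51,6),(59,1),(68,5),(86,2)],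
[(22,0),(42,2),(47,4),(52,3),(67,1),(67,6)],
[(22,0),(43,6),(51,3),(56,2),(57,5),(79,4)],
[(22,0),(46,3),(46,4),(48,5),(96,1),(97,2)],
[(22,0),(49,0),(69,0),(75,0),(80,0),(98,0)],
[(22,0),(53,4),(72,1),(78,5),(78,2),(91,6)],
[(23,0),(24,1),(70,4),(73,3),(73,2),(99,6)],
[(23,0),(25,5),(26,1),(45,6),(62,2),(91,3)],
[(23,0),(25,3),(38,4),(41,6),(52,1),(84,5)],
[(23,0),(25,4),(69,6),(84,3),(87,5),(96,2)],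
[(23,0),(27,0),(49,0),(51,0),(58,0),(68,0)],
[(23,0),(27,1),(59,5),(81,4),(86,3),(87,6)],
[(23,0),(28,0),(41,0),(47,0),(57,0),(60,0)],
[(23,0),(32,0),(43,0),(48,0),(86,0),(87,0)],
[(23,0),(41,3),(52,6),(55,1),(69,5),(87,2)],
[(23,0),(43,2),(48,4),(53,3),(68,1),(68,6)],
[(23,0),(44,6),(52,3),(57,2),(58,5),(75,4)],
[(23,0),(47,3),(47,4),(49,5),(97,1),(98,2)],
[(23,0),(50,0),(70,0),(76,0),(81,0),(99,0)],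
[(23,0),(54,4),(73,1),(79,5),(79,2),(92,6)],
[(24,0),(26,5),(27,1),(46,6),(63,2),(92,3)],
[(24,0),(26,3),(39,4),(42,6),(53,1),(80,5)]]

def P796x8 : List (List (ℕ × ℕ)) := [
[(24,0),(26,4),(65,6),(80,3),(88,5),(97,2)],
[(24,0),(28,0),(50,0),(52,0),(59,0),(69,0)],
[(24,0),(28,1),(55,5),(82,4),(87,3),(88,6)],
[(24,0),(33,0),(44,0),(49,0),(87,0),(88,0)],
[(24,0),(40,6),(53,3),(58,2),(59,5),(76,4)],
[(24,0),(42,3),(53,6),(56,1),(65,5),(88,2)],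
[(24,0),(44,2),(49,4),(54,3),(69,1),(69,6)],
[(24,0),(45,5),(48,3),(48,4),(98,1),(99,2)],
[(24,0),(50,4),(74,1),(75,5),(75,2),(93,6)],
[(25,0),(25,5),(35,2),(50,1),(55,3),(80,6)],
[(25,0),(26,1),(51,6),(75,3),(75,2),(77,4)],
[(25,0),(26,4),(28,1),(35,5),(40,6),(47,3)],
[(25,0),(27,6),(28,3),(37,4),(42,5),(49,2)],
[(25,0),(27,4),(29,3),(39,1),(44,2),(46,6)],
[(25,0),(29,0),(51,0),(53,0),(60,0),(70,0)],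
[(25,0),(29,6),(50,5),(76,3),(79,1),(79,2)],
[(25,0),(30,1),(37,5),(40,2),(41,6),(43,3)],
[(25,0),(31,5),(33,4),(34,1),(43,2),(48,3)],
[(25,0),(32,4),(35,1),(36,5),(38,2),(45,6)],
[(25,0),(33,5),(52,1),(61,4),(87,3),(95,2)],
[(25,0),(35,6),(51,1),(63,3),(91,2),(93,5)],
[(25,0),(40,5),(40,3),(65,6),(70,1),(95,4)],
[(25,0),(40,1),(53,4),(66,2),(81,3),(83,6)],
[(25,0),(47,2),(58,6),(74,3),(84,5),(92,4)],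
[(25,0),(48,0),(52,0),(72,0),(78,0),(83,0)],
[(25,0),(56,5),(56,2),(74,6),(75,1),(81,4)],
[(26,0),(26,5),(36,2),(51,1),(56,3),(81,6)],
[(26,0),(27,1),(52,6),(76,3),(76,2),(78,4)],
[(26,0),(27,4),(29,1),(36,5),(41,6),(48,3)],
[(26,0),(28,6),(29,3),(38,4),(43,5),(45,2)],
[(26,0),(30,0),(52,0),(54,0),(61,0),(71,0)],
[(26,0),(30,1),(32,5),(34,4),(44,2),(49,3)],
[(26,0),(31,1),(38,5),(41,2),(42,6),(44,3)],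
[(26,0),(33,4),(36,1),(37,5),(39,2),(46,6)],
[(26,0),(34,0),(46,0),(51,0),(89,0),(90,0)],
[(26,0),(34,5),(53,1),(62,4),(88,3),(96,2)],
[(26,0),(36,6),(52,1),(64,3),(92,2),(94,5)],
[(26,0),(41,5),(41,3),(66,6),(71,1),(96,4)],
[(26,0),(41,1),(54,4),(67,2),(82,3),(84,6)],
[(26,0),(48,2),(59,6),(70,3),(80,5),(93,4)],
[(26,0),(49,0),(53,0),(73,0),(79,0),(84,0)],
[(26,0),(57,5),(57,2),(70,6),(76,1),(82,4)],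
[(27,0),(27,5),(37,2),(52,1),(57,3),(82,6)],
[(27,0),(28,1),(53,6),(77,3),(77,2),(79,4)],
[(27,0),(30,5),(54,1),(63,4),(89,3),(97,2)],
[(27,0),(30,4),(31,1),(33,5),(40,2),(45,3)],
[(27,0),(31,0),(53,0),(55,0),(62,0),(72,0)],
[(27,0),(32,1),(39,5),(40,3),(42,2),(43,6)],
[(27,0),(34,4),(35,2),(37,1),(38,5),(47,6)],
[(27,0),(35,0),(47,0),(52,0),(90,0),(91,0)],
[(27,0),(37,6),(53,1),(60,3),(90,5),(93,2)],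
[(27,0),(42,5),(42,3),(67,6),(72,1),(97,4)],
[(27,0),(42,1),(50,4),(68,2),(80,6),(83,3)],
[(27,0),(49,2),(55,6),(71,3),(81,5),(94,4)],
[(27,0),(50,0),(54,0),(74,0),(80,0),(85,0)],
[(27,0),(58,5),(58,2),(71,6),(77,1),(83,4)],
[(28,0),(28,5),(38,2),(53,1),(58,3),(83,6)],
[(28,0),(29,1),(54,6),(75,4),(78,3),(78,2)],
[(28,0),(30,4),(36,2),(38,1),(39,5),(48,6)],
[(28,0),(31,5),(50,1),(64,4),(85,3),(98,2)],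
[(28,0),(31,4),(32,1),(34,5),(41,2),(46,3)],
[(28,0),(32,0),(54,0),(56,0),(63,0),(73,0)],
[(28,0),(33,1),(35,5),(41,3),(43,2),(44,6)],
[(28,0),(38,6),(54,1),(61,3),(91,5),(94,2)],
[(28,0),(43,5),(43,3),(68,6),(73,1),(98,4)],
[(28,0),(43,1),(51,4),(69,2),(81,6),(84,3)],
[(28,0),(45,2),(56,6),(72,3),(82,5),(90,4)],
[(28,0),(51,0),(55,0),(75,0),(81,0),(86,0)],
[(28,0),(59,5),(59,2),(72,6),(78,1),(84,4)],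
[(29,0),(29,5),(39,2),(54,1),(59,3),(84,6)],
[(29,0),(30,5),(32,4),(33,1),(42,2),(47,3)],
[(29,0),(31,4),(35,5),(37,2),(39,1),(49,6)],
[(29,0),(32,5),(51,1),(60,4),(86,3),(99,2)],
[(29,0),(33,0),(55,0),(57,0),(64,0),(74,0)],
[(29,0),(34,1),(36,5),(40,6),(42,3),(44,2)],
[(29,0),(39,6),(50,1),(62,3),(90,2),(92,5)],
[(29,0),(44,5),(44,3),(69,6),(74,1),(99,4)],
[(29,0),(44,1),(52,4),(65,2),(80,3),(82,6)],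
[(29,0),(46,2),(57,6),(73,3),(83,5),(91,4)],
[(29,0),(52,0),(56,0),(76,0),(82,0),(87,0)],
[(29,0),(55,5),(55,2),(73,6),(79,1),(80,4)],
[(30,0),(30,5),(40,2),(55,1),(60,3),(85,6)],
[(30,0),(31,1),(56,6),(80,3),(80,2),(82,4)],
[(30,0),(34,6),(55,5),(81,3),(84,1),(84,2)],
[(30,0),(35,1),(42,5),(45,2),(46,6),(48,3)],
[(30,0),(38,5),(57,1),(66,4),(75,2),(92,3)],
[(30,0),(40,6),(56,1),(68,3),(96,2),(98,5)],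
[(30,0),(45,5),(45,3),(50,1),(70,6),(75,4)],
[(30,0),(45,1),(58,4),(71,2),(86,3),(88,6)],
[(30,0),(53,0),(57,0),(77,0),(83,0),(88,0)],
[(30,0),(54,6),(61,5),(61,2),(80,1),(86,4)],
[(31,0),(31,5),(41,2),(56,1),(61,3),(86,6)],
[(31,0),(32,1),(57,6),(81,3),(81,2),(83,4)],
[(31,0),(34,0),(57,0),(59,0),(66,0),(76,0)],
[(31,0),(36,1),(43,5),(46,2),(47,6),(49,3)],
[(31,0),(39,5),(58,1),(67,4),(76,2),(93,3)],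
[(31,0),(41,6),(57,1),(69,3),(97,2),(99,5)],
[(31,0),(46,5),(46,3),(51,1),(71,6),(76,4)],
[(31,0),(46,1),(59,4),(72,2),(87,3),(89,6)],
[(31,0),(50,6),(62,5),(62,2),(81,1),(87,4)]]

def P796x9 : List (List (ℕ × ℕ)) := [
[(31,0),(54,0),(58,0),(78,0),(84,0),(89,0)],
[(32,0),(32,5),(42,2),(57,1),(62,3),(87,6)],
[(32,0),(33,1),(58,6),(82,3),(82,2),(84,4)],
[(32,0),(35,0),(58,0),(60,0),(67,0),(77,0)],
[(32,0),(35,5),(59,1),(68,4),(77,2),(94,3)],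
[(32,0),(37,1),(44,5),(45,3),(47,2),(48,6)],
[(32,0),(42,6),(58,1),(65,3),(95,5),(98,2)],
[(32,0),(47,5),(47,3),(52,1),(72,6),(77,4)],
[(32,0),(47,1),(55,4),(73,2),(85,6),(88,3)],
[(32,0),(51,6),(63,5),(63,2),(82,1),(88,4)],
[(32,0),(55,0),(59,0),(79,0),(85,0),(90,0)],
[(33,0),(33,5),(43,2),(58,1),(63,3),(88,6)],
[(33,0),(34,1),(59,6),(80,4),(83,3),(83,2)],
[(33,0),(36,0),(59,0),(61,0),(68,0),(78,0)],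
[(33,0),(36,5),(55,1),(69,4),(78,2),(90,3)],
[(33,0),(38,1),(40,5),(46,3),(48,2),(49,6)],
[(33,0),(43,6),(59,1),(66,3),(96,5),(99,2)],
[(33,0),(48,5),(48,3),(53,1),(73,6),(78,4)],
[(33,0),(48,1),(56,4),(74,2),(86,6),(89,3)],
[(33,0),(52,6),(64,5),(64,2),(83,1),(89,4)],
[(33,0),(56,0),(60,0),(80,0),(86,0),(91,0)],
[(34,0),(34,5),(44,2),(59,1),(64,3),(89,6)],
[(34,0),(37,5),(56,1),(65,4),(79,2),(91,3)],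
[(34,0),(38,0),(61,0),(63,0),(70,0),(80,0)],
[(34,0),(39,1),(41,5),(45,6),(47,3),(49,2)],
[(34,0),(44,6),(55,1),(67,3),(95,2),(97,5)],
[(34,0),(49,5),(49,3),(54,1),(74,6),(79,4)],
[(34,0),(49,1),(57,4),(70,2),(85,3),(87,6)],
[(34,0),(53,6),(60,5),(60,2),(84,1),(85,4)],
[(34,0),(58,0),(62,0),(82,0),(88,0),(93,0)],
[(35,0),(35,5),(45,2),(60,1),(65,3),(90,6)],
[(35,0),(36,1),(61,6),(85,3),(85,2),(87,4)],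
[(35,0),(39,0),(62,0),(64,0),(71,0),(81,0)],
[(35,0),(39,6),(60,5),(86,3),(89,1),(89,2)],
[(35,0),(43,5),(62,1),(71,4),(80,2),(97,3)],
[(35,0),(45,6),(61,1),(73,3),(76,2),(78,5)],
[(35,0),(59,0),(63,0),(83,0),(89,0),(94,0)],
[(35,0),(59,6),(66,5),(66,2),(85,1),(91,4)],
[(36,0),(36,5),(46,2),(61,1),(66,3),(91,6)],
[(36,0),(37,1),(62,6),(86,3),(86,2),(88,4)],
[(36,0),(40,0),(63,0),(65,0),(72,0),(82,0)],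
[(36,0),(44,5),(63,1),(72,4),(81,2),(98,3)],
[(36,0),(46,6),(62,1),(74,3),(77,2),(79,5)],
[(36,0),(55,6),(67,5),(67,2),(86,1),(92,4)],
[(36,0),(60,0),(64,0),(84,0),(90,0),(95,0)],
[(37,0),(37,5),(47,2),(62,1),(67,3),(92,6)],
[(37,0),(38,1),(63,6),(87,3),(87,2),(89,4)],
[(37,0),(40,5),(64,1),(73,4),(82,2),(99,3)],
[(37,0),(41,0),(64,0),(66,0),(73,0),(83,0)],
[(37,0),(47,6),(63,1),(70,3),(75,5),(78,2)],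
[(37,0),(56,6),(68,5),(68,2),(87,1),(93,4)],
[(37,0),(61,0),(65,0),(85,0),(91,0),(96,0)],
[(38,0),(38,5),(48,2),(63,1),(68,3),(93,6)],
[(38,0),(39,1),(64,6),(85,4),(88,3),(88,2)],
[(38,0),(41,5),(60,1),(74,4),(83,2),(95,3)],
[(38,0),(42,0),(65,0),(67,0),(74,0),(84,0)],
[(38,0),(48,6),(64,1),(71,3),(76,5),(79,2)],
[(38,0),(57,6),(69,5),(69,2),(88,1),(94,4)],
[(38,0),(62,0),(66,0),(86,0),(92,0),(97,0)],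
[(39,0),(39,5),(49,2),(64,1),(69,3),(94,6)],
[(39,0),(42,5),(61,1),(70,4),(84,2),(96,3)],
[(39,0),(43,0),(66,0),(68,0),(75,0),(85,0)],
[(39,0),(49,6),(60,1),(72,3),(75,2),(77,5)],
[(39,0),(58,6),(65,5),(65,2),(89,1),(90,4)],
[(39,0),(63,0),(67,0),(87,0),(93,0),(98,0)],
[(40,0),(41,1),(66,6),(90,3),(90,2),(92,4)],
[(40,0),(44,0),(67,0),(69,0),(76,0),(86,0)],
[(40,0),(44,6),(65,5),(91,3),(94,1),(94,2)],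
[(40,0),(48,5),(51,4),(67,1),(77,3),(85,2)],
[(40,0),(64,0),(68,0),(88,0),(94,0),(99,0)],
[(40,0),(64,6),(71,5),(71,2),(90,1),(96,4)],
[(41,0),(42,1),(67,6),(91,3),(91,2),(93,4)],
[(41,0),(45,0),(68,0),(70,0),(77,0),(87,0)],
[(41,0),(49,5),(52,4),(68,1),(78,3),(86,2)],
[(41,0),(60,6),(72,5),(72,2),(91,1),(97,4)],
[(42,0),(43,1),(68,6),(92,3),(92,2),(94,4)],
[(42,0),(45,5),(53,4),(69,1),(79,3),(87,2)],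
[(42,0),(46,0),(69,0),(71,0),(78,0),(88,0)],
[(42,0),(48,0),(66,0),(70,0),(90,0),(96,0)],
[(42,0),(61,6),(73,5),(73,2),(92,1),(98,4)],
[(43,0),(44,1),(69,6),(90,4),(93,3),(93,2)],
[(43,0),(46,5),(54,4),(65,1),(75,3),(88,2)],
[(43,0),(47,0),(70,0),(72,0),(79,0),(89,0)],
[(43,0),(49,0),(67,0),(71,0),(91,0),(97,0)],
[(43,0),(62,6),(74,5),(74,2),(93,1),(99,4)],
[(44,0),(47,5),(50,4),(66,1),(76,3),(89,2)],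
[(44,0),(50,0),(68,0),(72,0),(92,0),(98,0)],
[(44,0),(63,6),(70,5),(70,2),(94,1),(95,4)],
[(45,0),(46,1),(71,6),(95,3),(95,2),(97,4)],
[(45,0),(49,6),(70,5),(96,3),(99,1),(99,2)],
[(45,0),(51,0),(69,0),(73,0),(93,0),(99,0)],
[(45,0),(51,5),(51,2),(69,6),(76,4),(95,1)],
[(46,0),(47,1),(72,6),(96,3),(96,2),(98,4)],
[(46,0),(52,5),(52,2),(65,6),(77,4),(96,1)],
[(47,0),(48,0),(53,0),(71,0),(75,0),(95,0)],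
[(47,0),(48,1),(73,6),(97,3),(97,2),(99,4)],
[(47,0),(53,5),(53,2),(66,6),(78,4),(97,1)],
[(48,0),(49,1),(74,6),(95,4),(98,3),(98,2)],
[(48,0),(54,5),(54,2),(67,6),(79,4),(98,1)],
[(49,0),(50,5),(50,2),(68,6),(75,4),(99,1)]]

def P796x10 : List (List (ℕ × ℕ)) := [
[(50,0),(51,4),(53,1),(60,5),(65,6),(72,3)],
[(50,0),(52,6),(53,3),(62,4),(67,5),(74,2)],
[(50,0),(52,4),(54,3),(64,1),(69,2),(71,6)],
[(50,0),(55,1),(62,5),(65,2),(66,6),(68,3)],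
[(50,0),(56,5),(58,4),(59,1),(68,2),(73,3)],
[(50,0),(57,4),(60,1),(61,5),(63,2),(70,6)],
[(51,0),(52,4),(54,1),(61,5),(66,6),(73,3)],
[(51,0),(53,6),(54,3),(63,4),(68,5),(70,2)],
[(51,0),(55,1),(57,5),(59,4),(69,2),(74,3)],
[(51,0),(56,1),(63,5),(66,2),(67,6),(69,3)],
[(51,0),(58,4),(61,1),(62,5),(64,2),(71,6)],
[(52,0),(55,4),(56,1),(58,5),(65,2),(70,3)],
[(52,0),(57,1),(64,5),(65,3),(67,2),(68,6)],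
[(52,0),(59,4),(60,2),(62,1),(63,5),(72,6)],
[(53,0),(55,4),(61,2),(63,1),(64,5),(73,6)],
[(53,0),(56,4),(57,1),(59,5),(66,2),(71,3)],
[(53,0),(58,1),(60,5),(66,3),(68,2),(69,6)],
[(54,0),(55,5),(57,4),(58,1),(67,2),(72,3)],
[(54,0),(56,4),(60,5),(62,2),(64,1),(74,6)],
[(54,0),(59,1),(61,5),(65,6),(67,3),(69,2)],
[(55,0),(60,1),(67,5),(70,2),(71,6),(73,3)],
[(56,0),(61,1),(68,5),(71,2),(72,6),(74,3)],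
[(57,0),(62,1),(69,5),(70,3),(72,2),(73,6)],
[(58,0),(63,1),(65,5),(71,3),(73,2),(74,6)],
[(59,0),(64,1),(66,5),(70,6),(72,3),(74,2)],
[(75,0),(76,4),(78,1),(85,5),(90,6),(97,3)],
[(75,0),(77,6),(78,3),(87,4),(92,5),(99,2)],
[(75,0),(77,4),(79,3),(89,1),(94,2),(96,6)],
[(75,0),(80,1),(87,5),(90,2),(91,6),(93,3)],
[(75,0),(81,5),(83,4),(84,1),(93,2),(98,3)],
[(75,0),(82,4),(85,1),(86,5),(88,2),(95,6)],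
[(76,0),(77,4),(79,1),(86,5),(91,6),(98,3)],
[(76,0),(78,6),(79,3),(88,4),(93,5),(95,2)],
[(76,0),(80,1),(82,5),(84,4),(94,2),(99,3)],
[(76,0),(81,1),(88,5),(91,2),(92,6),(94,3)],
[(76,0),(83,4),(86,1),(87,5),(89,2),(96,6)],
[(77,0),(80,4),(81,1),(83,5),(90,2),(95,3)],
[(77,0),(82,1),(89,5),(90,3),(92,2),(93,6)],
[(77,0),(84,4),(85,2),(87,1),(88,5),(97,6)],
[(78,0),(80,4),(86,2),(88,1),(89,5),(98,6)],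
[(78,0),(81,4),(82,1),(84,5),(91,2),(96,3)],
[(78,0),(83,1),(85,5),(91,3),(93,2),(94,6)],
[(79,0),(80,5),(82,4),(83,1),(92,2),(97,3)],
[(79,0),(81,4),(85,5),(87,2),(89,1),(99,6)],
[(79,0),(84,1),(86,5),(90,6),(92,3),(94,2)],
[(80,0),(85,1),(92,5),(95,2),(96,6),(98,3)],
[(81,0),(86,1),(93,5),(96,2),(97,6),(99,3)],
[(82,0),(87,1),(94,5),(95,3),(97,2),(98,6)],
[(83,0),(88,1),(90,5),(96,3),(98,2),(99,6)],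
[(84,0),(89,1),(91,5),(95,6),(97,3),(99,2)]]

def Q796x0 : List (ℕ × List (ℕ × ℕ)) := [
(91,[(0,0),(1,0),(8,0),(34,0),(48,0)]),
(86,[(0,0),(1,5),(65,3),(81,6),(83,4)]),
(36,[(0,0),(1,6),(64,3),(73,1),(78,5)]),
(52,[(0,0),(1,2),(44,5),(65,1),(93,4)]),
(92,[(0,0),(2,0),(9,0),(35,0),(49,0)]),
(87,[(0,0),(2,5),(39,4),(95,6),(99,1)]),
(88,[(0,0),(3,2),(37,6),(97,3),(98,1)]),
(50,[(0,0),(4,5),(43,3),(69,6),(92,2)]),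
(37,[(0,0),(4,1),(63,4),(72,2),(77,6)]),
(89,[(0,0),(4,2),(69,5),(80,1),(82,6)]),
(41,[(0,0),(5,5),(40,3),(88,6),(96,2)]),
(76,[(0,0),(5,3),(29,5),(39,1),(87,6)]),
(57,[(0,0),(5,4),(27,1),(57,3),(87,2)]),
(84,[(0,0),(6,1),(34,6),(51,4),(69,3)]),
(45,[(0,0),(6,6),(34,3),(66,1),(85,5)]),
(32,[(0,0),(6,4),(39,2),(42,1),(68,3)]),
(90,[(0,0),(7,0),(33,0),(47,0),(99,0)]),
(60,[(0,0),(7,5),(14,6),(84,2),(88,1)]),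
(74,[(0,0),(7,3),(51,2),(62,5),(73,6)]),
(61,[(0,0),(7,1),(23,2),(77,4),(81,3)]),
(14,[(0,0),(7,6),(43,5),(71,3),(85,2)]),
(23,[(0,0),(7,2),(72,6),(89,4),(92,5)]),
(70,[(0,0),(8,3),(19,6),(57,1),(64,4)]),
(20,[(0,0),(8,1),(38,2),(91,3),(98,5)]),
(33,[(0,0),(8,6),(41,5),(47,2),(84,1)]),
(4,[(0,0),(9,5),(43,4),(52,3),(86,6)]),
(65,[(0,0),(9,3),(13,5),(33,2),(44,4)]),
(64,[(0,0),(9,6),(78,3),(80,4),(96,5)]),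
(28,[(0,0),(9,4),(38,1),(47,3),(91,5)]),
(66,[(0,0),(9,2),(21,4),(29,6),(35,1)]),
(77,[(0,0),(10,3),(26,2),(31,5),(63,1)]),
(95,[(0,0),(11,0),(28,0),(72,0),(84,0)]),
(72,[(0,0),(11,3),(22,4),(54,5),(56,1)]),
(71,[(0,0),(11,1),(19,4),(68,2),(70,5)]),
(19,[(0,0),(11,6),(28,2),(52,5),(69,1)]),
(5,[(0,0),(11,4),(34,2),(63,5),(96,3)]),
(68,[(0,0),(11,2),(26,1),(30,3),(47,5)]),
(83,[(0,0),(12,1),(61,4),(67,5),(90,3)]),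
(43,[(0,0),(13,3),(57,4),(92,1),(97,6)]),
(15,[(0,0),(13,4),(61,6),(72,5),(89,1)]),
(38,[(0,0),(14,5),(44,2),(66,4),(67,3)]),
(25,[(0,0),(14,2),(42,6),(46,3),(58,4)]),
(78,[(0,0),(15,4),(41,6),(46,2),(53,5)]),
(27,[(0,0),(16,5),(33,4),(37,1),(74,2)]),
(62,[(0,0),(16,1),(23,6),(79,2),(95,3)]),
(35,[(0,0),(16,2),(30,4),(57,6),(58,5)]),
(17,[(0,0),(17,3),(53,2),(64,1),(76,4)]),
(40,[(0,0),(17,4),(74,1),(84,5),(89,3)]),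
(67,[(0,0),(17,2),(21,5),(31,6),(45,4)]),
(82,[(0,0),(18,6),(54,3),(55,4),(83,2)]),
(93,[(0,0),(19,0),(61,0),(62,0),(76,0)]),
(69,[(0,0),(19,5),(36,3),(40,6),(49,1)]),
(9,[(0,0),(19,3),(48,5),(52,1),(85,6)]),
(18,[(0,0),(19,1),(42,3),(58,2),(66,6)]),
(55,[(0,0),(20,3),(47,4),(52,6),(82,5)]),
(79,[(0,0),(20,4),(34,5),(49,2),(82,3)]),
(42,[(0,0),(20,2),(35,5),(83,1),(91,4)]),
(94,[(0,0),(21,0),(54,0),(70,0),(95,0)]),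
(29,[(0,0),(21,3),(34,4),(43,6),(87,1)]),
(63,[(0,0),(21,1),(76,5),(92,6),(99,4)]),
(0,[(0,0),(21,2),(39,6),(73,5),(82,1)]),
(30,[(0,0),(22,1),(38,6),(44,3),(76,2)]),
(22,[(0,0),(22,6),(30,1),(88,2),(90,4)]),
(24,[(0,0),(23,5),(65,4),(82,2),(85,3)]),
(10,[(0,0),(23,1),(36,6),(69,4),(83,3)]),
(73,[(0,0),(23,4),(55,2),(66,3),(74,6)]),
(31,[(0,0),(24,3),(33,5),(36,4),(62,6)]),
(47,[(0,0),(24,1),(28,4),(60,2),(84,6)]),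
(81,[(0,0),(24,6),(28,5),(63,2),(70,3)]),
(16,[(0,0),(27,5),(38,4),(79,3),(91,6)]),
(49,[(0,0),(27,3),(46,4),(56,2),(87,5)]),
(53,[(0,0),(27,4),(51,1),(87,3),(88,5)]),
(80,[(0,0),(27,2),(46,1),(85,4),(97,5)]),
(54,[(0,0),(28,3),(60,6),(61,1),(79,4)]),
(58,[(0,0),(28,6),(33,3),(60,1),(80,2)]),
(56,[(0,0),(30,6),(53,1),(73,4),(95,5)]),
(46,[(0,0),(31,3),(74,5),(90,2),(96,1)]),
(8,[(0,0),(32,2),(46,5),(67,1),(84,3)]),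
(44,[(0,0),(35,4),(40,2),(56,6),(73,3)]),
(39,[(0,0),(36,5),(45,3),(77,2),(78,1)]),
(11,[(0,0),(36,1),(58,3),(90,5),(97,4)]),
(51,[(0,0),(36,2),(37,4),(54,6),(76,3)]),
(1,[(0,0),(37,3),(41,1),(73,2),(89,6)]),
(12,[(0,0),(37,2),(44,1),(72,4),(83,5)]),
(6,[(0,0),(38,5),(53,6),(67,2),(96,4)]),
(2,[(0,0),(39,3),(53,4),(57,2),(91,1)]),
(85,[(0,0),(41,3),(43,1),(60,4),(61,2)]),
(3,[(0,0),(41,4),(57,5),(94,1),(98,6)]),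
(21,[(0,0),(42,5),(45,6),(58,1),(60,3)]),
(7,[(0,0),(42,2),(63,6),(84,4),(90,1)]),
(13,[(0,0),(44,6),(59,4),(61,3),(97,2)]),
(59,[(0,0),(45,1),(65,6),(93,5),(98,2)]),
(48,[(0,0),(49,4),(64,6),(65,5),(93,2)]),
(75,[(0,0),(52,2),(67,6),(93,1),(98,4)]),
(26,[(0,0),(56,5),(72,3),(89,2),(93,6)]),
(34,[(0,0),(62,4),(68,1),(79,5),(96,6)]),
(88,[(1,0),(2,5),(66,3),(82,6),(84,4)]),
(35,[(1,0),(2,6),(60,3),(74,1),(79,5)]),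
(54,[(1,0),(2,2),(40,5),(66,1),(94,4)]),
(92,[(1,0),(3,0),(10,0),(36,0),(50,0)])]

def Q796x1 : List (ℕ × List (ℕ × ℕ)) := [
(89,[(1,0),(3,5),(35,4),(95,1),(96,6)]),
(85,[(1,0),(4,2),(38,6),(98,3),(99,1)]),
(0,[(1,0),(5,5),(44,4),(53,3),(87,6)]),
(67,[(1,0),(5,3),(14,5),(34,2),(40,4)]),
(60,[(1,0),(5,6),(79,3),(81,4),(97,5)]),
(28,[(1,0),(5,4),(39,1),(48,3),(92,5)]),
(68,[(1,0),(5,2),(22,4),(25,6),(36,1)]),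
(41,[(1,0),(6,5),(41,3),(89,6),(97,2)]),
(77,[(1,0),(6,3),(25,5),(35,1),(88,6)]),
(59,[(1,0),(6,4),(28,1),(58,3),(88,2)]),
(94,[(1,0),(7,0),(38,0),(68,0),(71,0)]),
(81,[(1,0),(7,1),(30,6),(52,4),(65,3)]),
(46,[(1,0),(7,6),(30,3),(67,1),(86,5)]),
(33,[(1,0),(7,4),(35,2),(43,1),(69,3)]),
(61,[(1,0),(8,5),(10,6),(80,2),(89,1)]),
(71,[(1,0),(8,3),(52,2),(63,5),(74,6)]),
(62,[(1,0),(8,1),(24,2),(78,4),(82,3)]),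
(14,[(1,0),(8,6),(44,5),(72,3),(86,2)]),
(22,[(1,0),(8,2),(73,6),(85,4),(93,5)]),
(72,[(1,0),(9,3),(15,6),(58,1),(60,4)]),
(24,[(1,0),(9,1),(39,2),(92,3),(99,5)]),
(34,[(1,0),(9,6),(42,5),(48,2),(80,1)]),
(37,[(1,0),(10,5),(40,2),(67,4),(68,3)]),
(25,[(1,0),(10,2),(43,6),(47,3),(59,4)]),
(78,[(1,0),(11,3),(27,2),(32,5),(64,1)]),
(74,[(1,0),(12,3),(23,4),(50,5),(57,1)]),
(73,[(1,0),(12,1),(15,4),(69,2),(71,5)]),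
(15,[(1,0),(12,6),(29,2),(53,5),(65,1)]),
(9,[(1,0),(12,4),(30,2),(64,5),(97,3)]),
(65,[(1,0),(12,2),(27,1),(31,3),(48,5)]),
(80,[(1,0),(13,1),(62,4),(68,5),(91,3)]),
(43,[(1,0),(14,3),(58,4),(93,1),(98,6)]),
(16,[(1,0),(14,4),(62,6),(73,5),(85,1)]),
(66,[(1,0),(15,5),(37,3),(41,6),(45,1)]),
(8,[(1,0),(15,3),(49,5),(53,1),(86,6)]),
(19,[(1,0),(15,1),(43,3),(59,2),(67,6)]),
(79,[(1,0),(16,4),(42,6),(47,2),(54,5)]),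
(27,[(1,0),(17,5),(34,4),(38,1),(70,2)]),
(63,[(1,0),(17,1),(24,6),(75,2),(96,3)]),
(39,[(1,0),(17,2),(31,4),(58,6),(59,5)]),
(18,[(1,0),(18,3),(54,2),(60,1),(77,4)]),
(40,[(1,0),(18,4),(70,1),(80,5),(85,3)]),
(69,[(1,0),(18,2),(22,5),(32,6),(46,4)]),
(84,[(1,0),(19,6),(50,3),(56,4),(84,2)]),
(32,[(1,0),(20,3),(34,5),(37,4),(63,6)]),
(48,[(1,0),(20,1),(29,4),(61,2),(80,6)]),
(83,[(1,0),(20,6),(29,5),(64,2),(71,3)]),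
(57,[(1,0),(21,3),(48,4),(53,6),(83,5)]),
(75,[(1,0),(21,4),(30,5),(45,2),(83,3)]),
(42,[(1,0),(21,2),(36,5),(84,1),(92,4)]),
(29,[(1,0),(22,3),(30,4),(44,6),(88,1)]),
(64,[(1,0),(22,1),(77,5),(93,6),(95,4)]),
(1,[(1,0),(22,2),(35,6),(74,5),(83,1)]),
(31,[(1,0),(23,1),(39,6),(40,3),(77,2)]),
(21,[(1,0),(23,6),(31,1),(89,2),(91,4)]),
(23,[(1,0),(24,5),(66,4),(83,2),(86,3)]),
(10,[(1,0),(24,1),(37,6),(65,4),(84,3)]),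
(70,[(1,0),(24,4),(56,2),(67,3),(70,6)]),
(17,[(1,0),(28,5),(39,4),(75,3),(92,6)]),
(45,[(1,0),(28,3),(47,4),(57,2),(88,5)]),
(50,[(1,0),(28,4),(52,1),(88,3),(89,5)]),
(82,[(1,0),(28,2),(47,1),(86,4),(98,5)]),
(93,[(1,0),(29,0),(59,0),(67,0),(99,0)]),
(51,[(1,0),(29,3),(61,6),(62,1),(75,4)]),
(55,[(1,0),(29,6),(34,3),(61,1),(81,2)]),
(58,[(1,0),(31,6),(54,1),(74,4),(96,5)]),
(47,[(1,0),(32,3),(70,5),(91,2),(97,1)]),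
(7,[(1,0),(33,2),(47,5),(68,1),(80,3)]),
(3,[(1,0),(35,3),(54,4),(58,2),(92,1)]),
(44,[(1,0),(36,4),(41,2),(57,6),(74,3)]),
(38,[(1,0),(37,5),(46,3),(78,2),(79,1)]),
(11,[(1,0),(37,1),(59,3),(91,5),(98,4)]),
(53,[(1,0),(37,2),(38,4),(50,6),(77,3)]),
(2,[(1,0),(38,3),(42,1),(74,2),(85,6)]),
(12,[(1,0),(38,2),(40,1),(73,4),(84,5)]),
(5,[(1,0),(39,5),(54,6),(68,2),(97,4)]),
(13,[(1,0),(40,6),(55,4),(62,3),(98,2)]),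
(87,[(1,0),(42,3),(44,1),(61,4),(62,2)]),
(4,[(1,0),(42,4),(58,5),(90,1),(99,6)]),
(20,[(1,0),(43,5),(46,6),(59,1),(61,3)]),
(6,[(1,0),(43,2),(64,6),(80,4),(91,1)]),
(49,[(1,0),(45,4),(60,6),(66,5),(94,2)]),
(56,[(1,0),(46,1),(66,6),(94,5),(99,2)]),
(95,[(1,0),(53,0),(58,0),(76,0),(80,0)]),
(76,[(1,0),(53,2),(68,6),(94,1),(99,4)]),
(26,[(1,0),(57,5),(73,3),(85,2),(94,6)]),
(30,[(1,0),(63,4),(69,1),(75,5),(97,6)]),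
(90,[(1,0),(75,0),(77,0),(84,0),(94,0)]),
(85,[(2,0),(3,5),(67,3),(80,4),(83,6)]),
(39,[(2,0),(3,6),(61,3),(70,1),(75,5)]),
(51,[(2,0),(3,2),(41,5),(67,1),(90,4)]),
(86,[(2,0),(4,5),(36,4),(96,1),(97,6)]),
(74,[(2,0),(5,3),(16,6),(59,1),(61,4)]),
(23,[(2,0),(5,1),(35,2),(93,3),(95,5)]),
(30,[(2,0),(5,6),(43,5),(49,2),(81,1)]),
(1,[(2,0),(6,5),(40,4),(54,3),(88,6)]),
(69,[(2,0),(6,3),(10,5),(30,2),(41,4)]),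
(61,[(2,0),(6,6),(75,3),(82,4),(98,5)]),
(28,[(2,0),(6,4),(35,1),(49,3),(93,5)]),
(65,[(2,0),(6,2),(23,4),(26,6),(37,1)])]

def Q796x2 : List (ℕ × List (ℕ × ℕ)) := [
(41,[(2,0),(7,5),(42,3),(85,6),(98,2)]),
(78,[(2,0),(7,3),(26,5),(36,1),(89,6)]),
(56,[(2,0),(7,4),(29,1),(59,3),(89,2)]),
(95,[(2,0),(8,0),(30,0),(60,0),(68,0)]),
(83,[(2,0),(8,1),(31,6),(53,4),(66,3)]),
(47,[(2,0),(8,6),(31,3),(68,1),(87,5)]),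
(34,[(2,0),(8,4),(36,2),(44,1),(65,3)]),
(62,[(2,0),(9,5),(11,6),(81,2),(85,1)]),
(73,[(2,0),(9,3),(53,2),(64,5),(70,6)]),
(63,[(2,0),(9,1),(20,2),(79,4),(83,3)]),
(14,[(2,0),(9,6),(40,5),(73,3),(87,2)]),
(21,[(2,0),(9,2),(74,6),(86,4),(94,5)]),
(43,[(2,0),(10,3),(59,4),(94,1),(99,6)]),
(17,[(2,0),(10,4),(63,6),(74,5),(86,1)]),
(36,[(2,0),(11,5),(41,2),(68,4),(69,3)]),
(25,[(2,0),(11,2),(44,6),(48,3),(55,4)]),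
(79,[(2,0),(12,3),(28,2),(33,5),(60,1)]),
(71,[(2,0),(13,3),(24,4),(51,5),(58,1)]),
(70,[(2,0),(13,1),(16,4),(65,2),(72,5)]),
(16,[(2,0),(13,6),(25,2),(54,5),(66,1)]),
(8,[(2,0),(13,4),(31,2),(60,5),(98,3)]),
(67,[(2,0),(13,2),(28,1),(32,3),(49,5)]),
(82,[(2,0),(14,1),(63,4),(69,5),(92,3)]),
(90,[(2,0),(15,0),(21,0),(83,0),(86,0)]),
(81,[(2,0),(15,6),(51,3),(57,4),(80,2)]),
(68,[(2,0),(16,5),(38,3),(42,6),(46,1)]),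
(7,[(2,0),(16,3),(45,5),(54,1),(87,6)]),
(15,[(2,0),(16,1),(44,3),(55,2),(68,6)]),
(75,[(2,0),(17,4),(43,6),(48,2),(50,5)]),
(27,[(2,0),(18,5),(30,4),(39,1),(71,2)]),
(64,[(2,0),(18,1),(20,6),(76,2),(97,3)]),
(38,[(2,0),(18,2),(32,4),(55,5),(59,6)]),
(19,[(2,0),(19,3),(50,2),(61,1),(78,4)]),
(40,[(2,0),(19,4),(71,1),(81,5),(86,3)]),
(66,[(2,0),(19,2),(23,5),(33,6),(47,4)]),
(22,[(2,0),(20,5),(67,4),(84,2),(87,3)]),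
(10,[(2,0),(20,1),(38,6),(66,4),(80,3)]),
(72,[(2,0),(20,4),(57,2),(68,3),(71,6)]),
(33,[(2,0),(21,3),(30,5),(38,4),(64,6)]),
(49,[(2,0),(21,1),(25,4),(62,2),(81,6)]),
(80,[(2,0),(21,6),(25,5),(60,2),(72,3)]),
(59,[(2,0),(22,3),(49,4),(54,6),(84,5)]),
(76,[(2,0),(22,4),(31,5),(46,2),(84,3)]),
(42,[(2,0),(22,2),(37,5),(80,1),(93,4)]),
(29,[(2,0),(23,3),(31,4),(40,6),(89,1)]),
(60,[(2,0),(23,1),(78,5),(94,6),(96,4)]),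
(2,[(2,0),(23,2),(36,6),(70,5),(84,1)]),
(32,[(2,0),(24,1),(35,6),(41,3),(78,2)]),
(20,[(2,0),(24,6),(32,1),(85,2),(92,4)]),
(53,[(2,0),(25,3),(62,6),(63,1),(76,4)]),
(57,[(2,0),(25,6),(30,3),(62,1),(82,2)]),
(94,[(2,0),(29,0),(47,0),(63,0),(66,0)]),
(18,[(2,0),(29,5),(35,4),(76,3),(93,6)]),
(46,[(2,0),(29,3),(48,4),(58,2),(89,5)]),
(52,[(2,0),(29,4),(53,1),(85,5),(89,3)]),
(84,[(2,0),(29,2),(48,1),(87,4),(99,5)]),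
(55,[(2,0),(32,6),(50,1),(70,4),(97,5)]),
(48,[(2,0),(33,3),(71,5),(92,2),(98,1)]),
(93,[(2,0),(34,0),(39,0),(69,0),(72,0)]),
(6,[(2,0),(34,2),(48,5),(69,1),(81,3)]),
(9,[(2,0),(35,5),(50,6),(69,2),(98,4)]),
(4,[(2,0),(36,3),(50,4),(59,2),(93,1)]),
(44,[(2,0),(37,4),(42,2),(58,6),(70,3)]),
(37,[(2,0),(38,5),(47,3),(75,1),(79,2)]),
(11,[(2,0),(38,1),(55,3),(92,5),(99,4)]),
(50,[(2,0),(38,2),(39,4),(51,6),(78,3)]),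
(3,[(2,0),(39,3),(43,1),(70,2),(86,6)]),
(12,[(2,0),(39,2),(41,1),(74,4),(80,5)]),
(89,[(2,0),(40,1),(43,3),(62,4),(63,2)]),
(13,[(2,0),(41,6),(56,4),(63,3),(99,2)]),
(0,[(2,0),(43,4),(59,5),(91,1),(95,6)]),
(24,[(2,0),(44,5),(47,6),(55,1),(62,3)]),
(5,[(2,0),(44,2),(60,6),(81,4),(92,1)]),
(45,[(2,0),(46,4),(61,6),(67,5),(90,2)]),
(58,[(2,0),(47,1),(67,6),(90,5),(95,2)]),
(77,[(2,0),(54,2),(69,6),(90,1),(95,4)]),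
(26,[(2,0),(58,5),(74,3),(86,2),(90,6)]),
(31,[(2,0),(64,4),(65,1),(76,5),(98,6)]),
(91,[(2,0),(76,0),(78,0),(85,0),(95,0)]),
(87,[(3,0),(4,5),(68,3),(81,4),(84,6)]),
(38,[(3,0),(4,6),(62,3),(71,1),(76,5)]),
(53,[(3,0),(4,2),(42,5),(68,1),(91,4)]),
(63,[(3,0),(5,5),(12,6),(82,2),(86,1)]),
(70,[(3,0),(5,3),(54,2),(60,5),(71,6)]),
(64,[(3,0),(5,1),(21,2),(75,4),(84,3)]),
(14,[(3,0),(5,6),(41,5),(74,3),(88,2)]),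
(20,[(3,0),(5,2),(70,6),(87,4),(90,5)]),
(71,[(3,0),(6,3),(17,6),(55,1),(62,4)]),
(22,[(3,0),(6,1),(36,2),(94,3),(96,5)]),
(31,[(3,0),(6,6),(44,5),(45,2),(82,1)]),
(95,[(3,0),(7,0),(81,0),(83,0),(90,0)]),
(2,[(3,0),(7,5),(41,4),(50,3),(89,6)]),
(66,[(3,0),(7,3),(11,5),(31,2),(42,4)]),
(62,[(3,0),(7,6),(76,3),(83,4),(99,5)]),
(28,[(3,0),(7,4),(36,1),(45,3),(94,5)]),
(67,[(3,0),(7,2),(24,4),(27,6),(38,1)]),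
(41,[(3,0),(8,5),(43,3),(86,6),(99,2)]),
(79,[(3,0),(8,3),(27,5),(37,1),(85,6)]),
(58,[(3,0),(8,4),(25,1),(55,3),(85,2)]),
(80,[(3,0),(9,1),(32,6),(54,4),(67,3)])]

def Q796x3 : List (ℕ × List (ℕ × ℕ)) := [
(48,[(3,0),(9,6),(32,3),(69,1),(88,5)]),
(30,[(3,0),(9,4),(37,2),(40,1),(66,3)]),
(84,[(3,0),(10,1),(64,4),(65,5),(93,3)]),
(43,[(3,0),(11,3),(55,4),(90,1),(95,6)]),
(18,[(3,0),(11,4),(64,6),(70,5),(87,1)]),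
(35,[(3,0),(12,5),(42,2),(65,3),(69,4)]),
(25,[(3,0),(12,2),(40,6),(49,3),(56,4)]),
(75,[(3,0),(13,3),(29,2),(34,5),(61,1)]),
(73,[(3,0),(14,3),(20,4),(52,5),(59,1)]),
(72,[(3,0),(14,1),(17,4),(66,2),(73,5)]),
(17,[(3,0),(14,6),(26,2),(50,5),(67,1)]),
(7,[(3,0),(14,4),(32,2),(61,5),(99,3)]),
(69,[(3,0),(14,2),(29,1),(33,3),(45,5)]),
(15,[(3,0),(15,3),(51,2),(62,1),(79,4)]),
(40,[(3,0),(15,4),(72,1),(82,5),(87,3)]),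
(68,[(3,0),(15,2),(24,5),(34,6),(48,4)]),
(91,[(3,0),(16,0),(22,0),(84,0),(87,0)]),
(83,[(3,0),(16,6),(52,3),(58,4),(81,2)]),
(65,[(3,0),(17,5),(39,3),(43,6),(47,1)]),
(6,[(3,0),(17,3),(46,5),(50,1),(88,6)]),
(16,[(3,0),(17,1),(40,3),(56,2),(69,6)]),
(76,[(3,0),(18,4),(44,6),(49,2),(51,5)]),
(27,[(3,0),(19,5),(31,4),(35,1),(72,2)]),
(60,[(3,0),(19,1),(21,6),(77,2),(98,3)]),
(37,[(3,0),(19,2),(33,4),(55,6),(56,5)]),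
(33,[(3,0),(20,1),(36,6),(42,3),(79,2)]),
(24,[(3,0),(20,6),(33,1),(86,2),(93,4)]),
(93,[(3,0),(21,0),(27,0),(89,0),(92,0)]),
(21,[(3,0),(21,5),(68,4),(80,2),(88,3)]),
(10,[(3,0),(21,1),(39,6),(67,4),(81,3)]),
(74,[(3,0),(21,4),(58,2),(69,3),(72,6)]),
(34,[(3,0),(22,3),(31,5),(39,4),(60,6)]),
(45,[(3,0),(22,1),(26,4),(63,2),(82,6)]),
(82,[(3,0),(22,6),(26,5),(61,2),(73,3)]),
(56,[(3,0),(23,3),(45,4),(50,6),(80,5)]),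
(77,[(3,0),(23,4),(32,5),(47,2),(80,3)]),
(42,[(3,0),(23,2),(38,5),(81,1),(94,4)]),
(29,[(3,0),(24,3),(32,4),(41,6),(85,1)]),
(61,[(3,0),(24,1),(79,5),(90,6),(97,4)]),
(3,[(3,0),(24,2),(37,6),(71,5),(80,1)]),
(19,[(3,0),(25,5),(36,4),(77,3),(94,6)]),
(47,[(3,0),(25,3),(49,4),(59,2),(85,5)]),
(54,[(3,0),(25,4),(54,1),(85,3),(86,5)]),
(81,[(3,0),(25,2),(49,1),(88,4),(95,5)]),
(50,[(3,0),(26,3),(63,6),(64,1),(77,4)]),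
(59,[(3,0),(26,6),(31,3),(63,1),(83,2)]),
(90,[(3,0),(30,0),(34,0),(64,0),(67,0)]),
(5,[(3,0),(30,2),(49,5),(65,1),(82,3)]),
(57,[(3,0),(33,6),(51,1),(71,4),(98,5)]),
(49,[(3,0),(34,3),(72,5),(93,2),(99,1)]),
(4,[(3,0),(35,3),(44,1),(71,2),(87,6)]),
(52,[(3,0),(35,4),(39,2),(52,6),(79,3)]),
(12,[(3,0),(35,2),(42,1),(70,4),(81,5)]),
(8,[(3,0),(36,5),(51,6),(65,2),(99,4)]),
(0,[(3,0),(37,3),(51,4),(55,2),(94,1)]),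
(44,[(3,0),(38,4),(43,2),(59,6),(71,3)]),
(36,[(3,0),(39,5),(48,3),(75,2),(76,1)]),
(11,[(3,0),(39,1),(56,3),(93,5),(95,4)]),
(23,[(3,0),(40,5),(48,6),(56,1),(63,3)]),
(9,[(3,0),(40,2),(61,6),(82,4),(93,1)]),
(86,[(3,0),(41,1),(44,3),(63,4),(64,2)]),
(94,[(3,0),(42,0),(59,0),(97,0),(98,0)]),
(13,[(3,0),(42,6),(57,4),(64,3),(95,2)]),
(1,[(3,0),(44,4),(55,5),(92,1),(96,6)]),
(46,[(3,0),(47,4),(62,6),(68,5),(91,2)]),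
(55,[(3,0),(48,1),(68,6),(91,5),(96,2)]),
(78,[(3,0),(50,2),(65,6),(91,1),(96,4)]),
(26,[(3,0),(59,5),(70,3),(87,2),(91,6)]),
(32,[(3,0),(60,4),(66,1),(77,5),(99,6)]),
(82,[(4,0),(5,1),(33,6),(50,4),(68,3)]),
(49,[(4,0),(5,6),(33,3),(65,1),(89,5)]),
(31,[(4,0),(5,4),(38,2),(41,1),(67,3)]),
(64,[(4,0),(6,5),(13,6),(83,2),(87,1)]),
(72,[(4,0),(6,3),(50,2),(61,5),(72,6)]),
(60,[(4,0),(6,1),(22,2),(76,4),(80,3)]),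
(14,[(4,0),(6,6),(42,5),(70,3),(89,2)]),
(24,[(4,0),(6,2),(71,6),(88,4),(91,5)]),
(73,[(4,0),(7,3),(18,6),(56,1),(63,4)]),
(21,[(4,0),(7,1),(37,2),(90,3),(97,5)]),
(32,[(4,0),(7,6),(40,5),(46,2),(83,1)]),
(3,[(4,0),(8,5),(42,4),(51,3),(85,6)]),
(68,[(4,0),(8,3),(12,5),(32,2),(43,4)]),
(63,[(4,0),(8,6),(77,3),(84,4),(95,5)]),
(28,[(4,0),(8,4),(37,1),(46,3),(90,5)]),
(69,[(4,0),(8,2),(20,4),(28,6),(39,1)]),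
(41,[(4,0),(9,5),(44,3),(87,6),(95,2)]),
(75,[(4,0),(9,3),(28,5),(38,1),(86,6)]),
(55,[(4,0),(9,4),(26,1),(56,3),(86,2)]),
(70,[(4,0),(10,3),(21,4),(53,5),(55,1)]),
(74,[(4,0),(10,1),(18,4),(67,2),(74,5)]),
(18,[(4,0),(10,6),(27,2),(51,5),(68,1)]),
(6,[(4,0),(10,4),(33,2),(62,5),(95,3)]),
(66,[(4,0),(10,2),(25,1),(34,3),(46,5)]),
(81,[(4,0),(11,1),(60,4),(66,5),(94,3)]),
(43,[(4,0),(12,3),(56,4),(91,1),(96,6)]),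
(19,[(4,0),(12,4),(60,6),(71,5),(88,1)]),
(39,[(4,0),(13,5),(43,2),(65,4),(66,3)]),
(25,[(4,0),(13,2),(41,6),(45,3),(57,4)]),
(76,[(4,0),(14,3),(25,2),(30,5),(62,1)]),
(27,[(4,0),(15,5),(32,4),(36,1),(73,2)])]

def Q796x4 : List (ℕ × List (ℕ × ℕ)) := [
(61,[(4,0),(15,1),(22,6),(78,2),(99,3)]),
(36,[(4,0),(15,2),(34,4),(56,6),(57,5)]),
(16,[(4,0),(16,3),(52,2),(63,1),(75,4)]),
(40,[(4,0),(16,4),(73,1),(83,5),(88,3)]),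
(65,[(4,0),(16,2),(20,5),(30,6),(49,4)]),
(80,[(4,0),(17,6),(53,3),(59,4),(82,2)]),
(67,[(4,0),(18,5),(35,3),(44,6),(48,1)]),
(5,[(4,0),(18,3),(47,5),(51,1),(89,6)]),
(17,[(4,0),(18,1),(41,3),(57,2),(65,6)]),
(77,[(4,0),(19,4),(40,6),(45,2),(52,5)]),
(29,[(4,0),(20,3),(33,4),(42,6),(86,1)]),
(62,[(4,0),(20,1),(75,5),(91,6),(98,4)]),
(4,[(4,0),(20,2),(38,6),(72,5),(81,1)]),
(34,[(4,0),(21,1),(37,6),(43,3),(75,2)]),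
(23,[(4,0),(21,6),(34,1),(87,2),(94,4)]),
(20,[(4,0),(22,5),(69,4),(81,2),(89,3)]),
(10,[(4,0),(22,1),(35,6),(68,4),(82,3)]),
(71,[(4,0),(22,4),(59,2),(65,3),(73,6)]),
(30,[(4,0),(23,3),(32,5),(35,4),(61,6)]),
(46,[(4,0),(23,1),(27,4),(64,2),(83,6)]),
(84,[(4,0),(23,6),(27,5),(62,2),(74,3)]),
(58,[(4,0),(24,3),(46,4),(51,6),(81,5)]),
(78,[(4,0),(24,4),(33,5),(48,2),(81,3)]),
(42,[(4,0),(24,2),(39,5),(82,1),(90,4)]),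
(90,[(4,0),(25,0),(55,0),(63,0),(95,0)]),
(95,[(4,0),(26,0),(38,0),(59,0),(75,0)]),
(15,[(4,0),(26,5),(37,4),(78,3),(90,6)]),
(48,[(4,0),(26,3),(45,4),(55,2),(86,5)]),
(51,[(4,0),(26,4),(50,1),(86,3),(87,5)]),
(83,[(4,0),(26,2),(45,1),(89,4),(96,5)]),
(94,[(4,0),(27,0),(73,0),(86,0),(94,0)]),
(52,[(4,0),(27,3),(60,1),(64,6),(78,4)]),
(56,[(4,0),(27,6),(32,3),(64,1),(84,2)]),
(45,[(4,0),(30,3),(73,5),(94,2),(95,1)]),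
(91,[(4,0),(31,0),(35,0),(65,0),(68,0)]),
(9,[(4,0),(31,2),(45,5),(66,1),(83,3)]),
(59,[(4,0),(34,6),(52,1),(72,4),(99,5)]),
(35,[(4,0),(35,5),(49,3),(76,2),(77,1)]),
(11,[(4,0),(35,1),(57,3),(94,5),(96,4)]),
(54,[(4,0),(35,2),(36,4),(53,6),(75,3)]),
(0,[(4,0),(36,3),(40,1),(72,2),(88,6)]),
(12,[(4,0),(36,2),(43,1),(71,4),(82,5)]),
(7,[(4,0),(37,5),(52,6),(66,2),(95,4)]),
(1,[(4,0),(38,3),(52,4),(56,2),(90,1)]),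
(44,[(4,0),(39,4),(44,2),(55,6),(72,3)]),
(88,[(4,0),(40,3),(42,1),(60,2),(64,4)]),
(2,[(4,0),(40,4),(56,5),(93,1),(97,6)]),
(22,[(4,0),(41,5),(49,6),(57,1),(64,3)]),
(8,[(4,0),(41,2),(62,6),(83,4),(94,1)]),
(13,[(4,0),(43,6),(58,4),(60,3),(96,2)]),
(93,[(4,0),(48,0),(82,0),(84,0),(91,0)]),
(47,[(4,0),(48,4),(63,6),(69,5),(92,2)]),
(57,[(4,0),(49,1),(69,6),(92,5),(97,2)]),
(79,[(4,0),(51,2),(66,6),(92,1),(97,4)]),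
(26,[(4,0),(55,5),(71,3),(88,2),(92,6)]),
(33,[(4,0),(61,4),(67,1),(78,5),(95,6)]),
(92,[(4,0),(78,0),(80,0),(87,0),(97,0)]),
(93,[(5,0),(6,0),(15,0),(41,0),(55,0)]),
(88,[(5,0),(6,5),(70,3),(86,6),(88,4)]),
(37,[(5,0),(6,6),(53,1),(69,3),(83,5)]),
(53,[(5,0),(6,2),(49,5),(70,1),(98,4)]),
(89,[(5,0),(7,5),(44,4),(75,6),(79,1)]),
(85,[(5,0),(8,2),(42,6),(77,3),(78,1)]),
(51,[(5,0),(9,5),(48,3),(74,6),(97,2)]),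
(38,[(5,0),(9,1),(52,2),(68,4),(82,6)]),
(86,[(5,0),(9,2),(74,5),(85,1),(87,6)]),
(40,[(5,0),(10,5),(45,3),(76,2),(93,6)]),
(78,[(5,0),(10,3),(34,5),(44,1),(92,6)]),
(59,[(5,0),(10,4),(32,1),(62,3),(92,2)]),
(80,[(5,0),(11,1),(39,6),(56,4),(74,3)]),
(47,[(5,0),(11,6),(39,3),(71,1),(90,5)]),
(32,[(5,0),(11,4),(44,2),(47,1),(73,3)]),
(62,[(5,0),(12,5),(19,6),(89,2),(93,1)]),
(71,[(5,0),(12,3),(53,6),(56,2),(67,5)]),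
(13,[(5,0),(12,6),(48,5),(51,3),(90,2)]),
(24,[(5,0),(12,2),(52,6),(94,4),(97,5)]),
(72,[(5,0),(13,3),(24,6),(62,1),(69,4)]),
(21,[(5,0),(13,1),(43,2),(78,5),(96,3)]),
(33,[(5,0),(13,6),(27,2),(46,5),(89,1)]),
(4,[(5,0),(14,5),(48,4),(57,3),(91,6)]),
(66,[(5,0),(14,3),(18,5),(38,2),(49,4)]),
(61,[(5,0),(14,6),(76,5),(83,3),(85,4)]),
(27,[(5,0),(14,4),(27,3),(43,1),(96,5)]),
(79,[(5,0),(15,3),(31,2),(36,5),(68,1)]),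
(73,[(5,0),(16,1),(24,4),(50,5),(73,2)]),
(19,[(5,0),(16,6),(33,2),(57,5),(74,1)]),
(6,[(5,0),(16,4),(39,2),(68,5),(76,3)]),
(69,[(5,0),(16,2),(27,5),(31,1),(35,3)]),
(94,[(5,0),(17,0),(53,0),(78,0),(90,0)]),
(84,[(5,0),(17,1),(66,4),(72,5),(95,3)]),
(92,[(5,0),(18,0),(24,0),(86,0),(89,0)]),
(42,[(5,0),(18,3),(62,4),(77,6),(97,1)]),
(15,[(5,0),(18,4),(52,5),(66,6),(94,1)]),
(39,[(5,0),(19,5),(49,2),(71,4),(72,3)]),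
(29,[(5,0),(19,2),(26,3),(47,6),(63,4)]),
(75,[(5,0),(20,4),(26,2),(46,6),(58,5)]),
(26,[(5,0),(21,5),(38,4),(42,1),(54,2)]),
(36,[(5,0),(21,2),(35,4),(62,6),(63,5)]),
(17,[(5,0),(22,3),(58,2),(69,1),(81,4)]),
(44,[(5,0),(22,4),(54,1),(89,5),(94,3)])]

def Q796x5 : List (ℕ × List (ℕ × ℕ)) := [
(83,[(5,0),(23,6),(59,3),(60,4),(88,2)]),
(65,[(5,0),(24,5),(29,1),(41,3),(45,6)]),
(5,[(5,0),(24,3),(28,5),(57,1),(90,6)]),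
(18,[(5,0),(24,1),(47,3),(63,2),(71,6)]),
(35,[(5,0),(25,3),(41,5),(82,2),(83,1)]),
(56,[(5,0),(25,1),(70,6),(78,2),(98,5)]),
(22,[(5,0),(25,6),(47,5),(63,1),(65,3)]),
(91,[(5,0),(26,0),(56,0),(64,0),(96,0)]),
(9,[(5,0),(26,5),(37,2),(72,1),(89,3)]),
(81,[(5,0),(26,1),(32,2),(77,5),(90,4)]),
(46,[(5,0),(26,4),(32,3),(61,2),(92,5)]),
(45,[(5,0),(29,4),(69,6),(70,5),(98,2)]),
(90,[(5,0),(31,0),(45,0),(46,0),(97,0)]),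
(16,[(5,0),(32,5),(43,4),(84,3),(96,6)]),
(54,[(5,0),(32,4),(56,1),(92,3),(93,5)]),
(50,[(5,0),(33,3),(65,6),(66,1),(84,4)]),
(55,[(5,0),(33,6),(38,3),(65,1),(85,2)]),
(95,[(5,0),(35,0),(44,0),(61,0),(99,0)]),
(58,[(5,0),(35,6),(53,4),(58,1),(75,5)]),
(48,[(5,0),(36,3),(54,5),(76,1),(95,2)]),
(43,[(5,0),(40,4),(45,2),(53,3),(61,6)]),
(10,[(5,0),(41,1),(63,3),(77,4),(95,5)]),
(52,[(5,0),(41,2),(42,4),(59,6),(81,3)]),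
(1,[(5,0),(42,3),(46,1),(53,2),(94,6)]),
(11,[(5,0),(42,2),(49,1),(52,4),(88,5)]),
(7,[(5,0),(43,5),(58,6),(72,2),(76,4)]),
(2,[(5,0),(44,3),(58,4),(62,2),(96,1)]),
(87,[(5,0),(46,3),(48,1),(65,4),(66,2)]),
(3,[(5,0),(46,4),(62,5),(78,6),(99,1)]),
(8,[(5,0),(47,2),(68,6),(89,4),(95,1)]),
(12,[(5,0),(49,6),(64,4),(66,3),(77,2)]),
(25,[(5,0),(52,3),(61,5),(94,2),(98,6)]),
(77,[(5,0),(57,2),(72,6),(78,4),(98,1)]),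
(34,[(5,0),(67,4),(73,1),(76,6),(84,5)]),
(85,[(6,0),(7,5),(71,3),(87,6),(89,4)]),
(36,[(6,0),(7,6),(54,1),(65,3),(84,5)]),
(50,[(6,0),(7,2),(45,5),(71,1),(99,4)]),
(86,[(6,0),(8,5),(40,4),(75,1),(76,6)]),
(87,[(6,0),(9,2),(43,6),(78,3),(79,1)]),
(0,[(6,0),(10,5),(49,4),(58,3),(92,6)]),
(68,[(6,0),(10,3),(19,5),(39,2),(45,4)]),
(62,[(6,0),(10,6),(77,5),(84,3),(86,4)]),
(27,[(6,0),(10,4),(28,3),(44,1),(97,5)]),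
(40,[(6,0),(11,5),(46,3),(77,2),(94,6)]),
(79,[(6,0),(11,3),(30,5),(40,1),(93,6)]),
(56,[(6,0),(11,4),(33,1),(63,3),(93,2)]),
(94,[(6,0),(12,0),(51,0),(64,0),(72,0)]),
(82,[(6,0),(12,1),(35,6),(57,4),(70,3)]),
(48,[(6,0),(12,6),(35,3),(72,1),(91,5)]),
(33,[(6,0),(12,4),(40,2),(48,1),(74,3)]),
(63,[(6,0),(13,5),(15,6),(85,2),(94,1)]),
(73,[(6,0),(13,3),(54,6),(57,2),(68,5)]),
(13,[(6,0),(13,6),(49,5),(52,3),(91,2)]),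
(23,[(6,0),(13,2),(53,6),(90,4),(98,5)]),
(74,[(6,0),(14,3),(20,6),(63,1),(65,4)]),
(20,[(6,0),(14,1),(44,2),(79,5),(97,3)]),
(34,[(6,0),(14,6),(28,2),(47,5),(85,1)]),
(38,[(6,0),(15,5),(45,2),(72,4),(73,3)]),
(29,[(6,0),(15,2),(27,3),(48,6),(64,4)]),
(75,[(6,0),(16,3),(32,2),(37,5),(69,1)]),
(90,[(6,0),(17,0),(59,0),(60,0),(74,0)]),
(70,[(6,0),(17,1),(20,4),(51,5),(74,2)]),
(15,[(6,0),(17,6),(34,2),(58,5),(70,1)]),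
(5,[(6,0),(17,4),(35,2),(69,5),(77,3)]),
(66,[(6,0),(17,2),(28,5),(32,1),(36,3)]),
(81,[(6,0),(18,1),(67,4),(73,5),(96,3)]),
(42,[(6,0),(19,3),(63,4),(78,6),(98,1)]),
(16,[(6,0),(19,4),(53,5),(67,6),(90,1)]),
(67,[(6,0),(20,5),(25,1),(42,3),(46,6)]),
(9,[(6,0),(20,3),(29,5),(58,1),(91,6)]),
(19,[(6,0),(20,1),(48,3),(64,2),(72,6)]),
(76,[(6,0),(21,4),(27,2),(47,6),(59,5)]),
(26,[(6,0),(22,5),(39,4),(43,1),(50,2)]),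
(35,[(6,0),(22,2),(36,4),(63,6),(64,5)]),
(18,[(6,0),(23,3),(59,2),(65,1),(82,4)]),
(44,[(6,0),(23,4),(50,1),(85,5),(90,3)]),
(80,[(6,0),(24,6),(55,3),(61,4),(89,2)]),
(46,[(6,0),(25,4),(65,6),(71,5),(99,2)]),
(39,[(6,0),(26,3),(42,5),(83,2),(84,1)]),
(58,[(6,0),(26,1),(71,6),(79,2),(99,5)]),
(21,[(6,0),(26,6),(48,5),(64,1),(66,3)]),
(8,[(6,0),(27,5),(38,2),(73,1),(85,3)]),
(83,[(6,0),(27,1),(33,2),(78,5),(91,4)]),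
(47,[(6,0),(27,4),(33,3),(62,2),(93,5)]),
(91,[(6,0),(32,0),(46,0),(47,0),(98,0)]),
(92,[(6,0),(33,0),(37,0),(67,0),(70,0)]),
(17,[(6,0),(33,5),(44,4),(80,3),(97,6)]),
(51,[(6,0),(33,4),(57,1),(93,3),(94,5)]),
(52,[(6,0),(34,3),(66,6),(67,1),(80,4)]),
(57,[(6,0),(34,6),(39,3),(66,1),(86,2)]),
(95,[(6,0),(36,0),(45,0),(48,0),(62,0)]),
(55,[(6,0),(36,6),(54,4),(59,1),(76,5)]),
(49,[(6,0),(37,3),(50,5),(77,1),(96,2)]),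
(3,[(6,0),(40,3),(59,4),(63,2),(97,1)]),
(43,[(6,0),(41,4),(46,2),(54,3),(62,6)]),
(10,[(6,0),(42,1),(64,3),(78,4),(96,5)]),
(54,[(6,0),(42,2),(43,4),(55,6),(82,3)]),
(2,[(6,0),(43,3),(47,1),(54,2),(90,6)]),
(11,[(6,0),(43,2),(45,1),(53,4),(89,5)]),
(6,[(6,0),(44,5),(59,6),(73,2),(77,4)])]

def Q796x6 : List (ℕ × List (ℕ × ℕ)) := [
(12,[(6,0),(45,6),(60,4),(67,3),(78,2)]),
(89,[(6,0),(47,3),(49,1),(66,4),(67,2)]),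
(4,[(6,0),(47,4),(63,5),(79,6),(95,1)]),
(7,[(6,0),(48,2),(69,6),(85,4),(96,1)]),
(25,[(6,0),(53,3),(62,5),(90,2),(99,6)]),
(78,[(6,0),(58,2),(73,6),(79,4),(99,1)]),
(30,[(6,0),(68,4),(74,1),(77,6),(80,5)]),
(87,[(7,0),(8,5),(72,3),(85,4),(88,6)]),
(35,[(7,0),(8,6),(50,1),(66,3),(80,5)]),
(52,[(7,0),(8,2),(46,5),(72,1),(95,4)]),
(93,[(7,0),(9,0),(17,0),(43,0),(57,0)]),
(88,[(7,0),(9,5),(41,4),(76,1),(77,6)]),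
(71,[(7,0),(10,3),(21,6),(64,1),(66,4)]),
(24,[(7,0),(10,1),(40,2),(75,5),(98,3)]),
(30,[(7,0),(10,6),(29,2),(48,5),(86,1)]),
(1,[(7,0),(11,5),(45,4),(59,3),(93,6)]),
(65,[(7,0),(11,3),(15,5),(35,2),(46,4)]),
(63,[(7,0),(11,6),(78,5),(80,3),(87,4)]),
(27,[(7,0),(11,4),(29,3),(40,1),(98,5)]),
(40,[(7,0),(12,5),(47,3),(78,2),(90,6)]),
(75,[(7,0),(12,3),(31,5),(41,1),(94,6)]),
(58,[(7,0),(12,4),(34,1),(64,3),(94,2)]),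
(84,[(7,0),(13,1),(36,6),(58,4),(71,3)]),
(49,[(7,0),(13,6),(36,3),(73,1),(92,5)]),
(34,[(7,0),(13,4),(41,2),(49,1),(70,3)]),
(64,[(7,0),(14,5),(16,6),(86,2),(90,1)]),
(70,[(7,0),(14,3),(50,6),(58,2),(69,5)]),
(13,[(7,0),(14,6),(45,5),(53,3),(92,2)]),
(22,[(7,0),(14,2),(54,6),(91,4),(99,5)]),
(42,[(7,0),(15,3),(64,4),(79,6),(99,1)]),
(17,[(7,0),(15,4),(54,5),(68,6),(91,1)]),
(37,[(7,0),(16,5),(46,2),(73,4),(74,3)]),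
(29,[(7,0),(16,2),(28,3),(49,6),(60,4)]),
(76,[(7,0),(17,3),(33,2),(38,5),(65,1)]),
(91,[(7,0),(18,0),(60,0),(61,0),(75,0)]),
(72,[(7,0),(18,1),(21,4),(52,5),(70,2)]),
(16,[(7,0),(18,6),(30,2),(59,5),(71,1)]),
(9,[(7,0),(18,4),(36,2),(65,5),(78,3)]),
(68,[(7,0),(18,2),(29,5),(33,1),(37,3)]),
(83,[(7,0),(19,1),(68,4),(74,5),(97,3)]),
(82,[(7,0),(20,6),(56,3),(62,4),(85,2)]),
(69,[(7,0),(21,5),(26,1),(43,3),(47,6)]),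
(8,[(7,0),(21,3),(25,5),(59,1),(92,6)]),
(15,[(7,0),(21,1),(49,3),(60,2),(73,6)]),
(77,[(7,0),(22,4),(28,2),(48,6),(55,5)]),
(26,[(7,0),(23,5),(35,4),(44,1),(51,2)]),
(39,[(7,0),(23,2),(37,4),(60,5),(64,6)]),
(19,[(7,0),(24,3),(55,2),(66,1),(83,4)]),
(44,[(7,0),(24,4),(51,1),(86,5),(91,3)]),
(47,[(7,0),(26,4),(66,6),(72,5),(95,2)]),
(38,[(7,0),(27,3),(43,5),(80,1),(84,2)]),
(55,[(7,0),(27,1),(72,6),(75,2),(95,5)]),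
(20,[(7,0),(27,6),(49,5),(60,1),(67,3)]),
(92,[(7,0),(28,0),(58,0),(66,0),(98,0)]),
(7,[(7,0),(28,5),(39,2),(74,1),(86,3)]),
(80,[(7,0),(28,1),(34,2),(79,5),(92,4)]),
(48,[(7,0),(28,4),(34,3),(63,2),(94,5)]),
(54,[(7,0),(30,3),(67,6),(68,1),(81,4)]),
(59,[(7,0),(30,6),(35,3),(67,1),(87,2)]),
(18,[(7,0),(34,5),(40,4),(81,3),(98,6)]),
(53,[(7,0),(34,4),(58,1),(90,5),(94,3)]),
(57,[(7,0),(37,6),(50,4),(55,1),(77,5)]),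
(45,[(7,0),(38,3),(51,5),(78,1),(97,2)]),
(5,[(7,0),(40,5),(55,6),(74,2),(78,4)]),
(4,[(7,0),(41,3),(55,4),(64,2),(98,1)]),
(43,[(7,0),(42,4),(47,2),(50,3),(63,6)]),
(10,[(7,0),(43,1),(60,3),(79,4),(97,5)]),
(51,[(7,0),(43,2),(44,4),(56,6),(83,3)]),
(3,[(7,0),(44,3),(48,1),(50,2),(91,6)]),
(11,[(7,0),(44,2),(46,1),(54,4),(85,5)]),
(86,[(7,0),(45,1),(48,3),(67,4),(68,2)]),
(12,[(7,0),(46,6),(61,4),(68,3),(79,2)]),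
(0,[(7,0),(48,4),(64,5),(75,6),(96,1)]),
(6,[(7,0),(49,2),(65,6),(86,4),(97,1)]),
(25,[(7,0),(54,3),(63,5),(91,2),(95,6)]),
(79,[(7,0),(59,2),(74,6),(75,4),(95,1)]),
(31,[(7,0),(69,4),(70,1),(78,6),(81,5)]),
(89,[(8,0),(9,5),(73,3),(86,4),(89,6)]),
(39,[(8,0),(9,6),(51,1),(67,3),(81,5)]),
(54,[(8,0),(9,2),(47,5),(73,1),(96,4)]),
(93,[(8,0),(10,0),(18,0),(44,0),(58,0)]),
(60,[(8,0),(10,5),(17,6),(87,2),(91,1)]),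
(72,[(8,0),(10,3),(51,6),(59,2),(65,5)]),
(13,[(8,0),(10,6),(46,5),(54,3),(93,2)]),
(21,[(8,0),(10,2),(50,6),(92,4),(95,5)]),
(73,[(8,0),(11,3),(22,6),(60,1),(67,4)]),
(23,[(8,0),(11,1),(41,2),(76,5),(99,3)]),
(31,[(8,0),(11,6),(25,2),(49,5),(87,1)]),
(2,[(8,0),(12,5),(46,4),(55,3),(94,6)]),
(67,[(8,0),(12,3),(16,5),(36,2),(47,4)]),
(64,[(8,0),(12,6),(79,5),(81,3),(88,4)]),
(27,[(8,0),(12,4),(25,3),(41,1),(99,5)]),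
(40,[(8,0),(13,5),(48,3),(79,2),(91,6)]),
(76,[(8,0),(13,3),(32,5),(42,1),(90,6)]),
(55,[(8,0),(13,4),(30,1),(60,3),(90,2)]),
(81,[(8,0),(14,1),(37,6),(59,4),(72,3)]),
(45,[(8,0),(14,6),(37,3),(74,1),(93,5)]),
(30,[(8,0),(14,4),(42,2),(45,1),(71,3)]),
(80,[(8,0),(15,1),(69,4),(70,5),(98,3)]),
(42,[(8,0),(16,3),(60,4),(75,6),(95,1)])]

def Q796x7 : List (ℕ × List (ℕ × ℕ)) := [
(18,[(8,0),(16,4),(50,5),(69,6),(92,1)]),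
(36,[(8,0),(17,5),(47,2),(70,3),(74,4)]),
(29,[(8,0),(17,2),(29,3),(45,6),(61,4)]),
(77,[(8,0),(18,3),(34,2),(39,5),(66,1)]),
(74,[(8,0),(19,1),(22,4),(53,5),(71,2)]),
(17,[(8,0),(19,6),(31,2),(55,5),(72,1)]),
(8,[(8,0),(19,4),(37,2),(66,5),(79,3)]),
(65,[(8,0),(19,2),(25,5),(34,1),(38,3)]),
(92,[(8,0),(20,0),(62,0),(63,0),(77,0)]),
(15,[(8,0),(20,3),(56,2),(67,1),(84,4)]),
(44,[(8,0),(20,4),(52,1),(87,5),(92,3)]),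
(84,[(8,0),(21,6),(57,3),(63,4),(86,2)]),
(66,[(8,0),(22,5),(27,1),(44,3),(48,6)]),
(7,[(8,0),(22,3),(26,5),(55,1),(93,6)]),
(16,[(8,0),(22,1),(45,3),(61,2),(74,6)]),
(94,[(8,0),(23,0),(24,0),(26,0),(74,0)]),
(78,[(8,0),(23,4),(29,2),(49,6),(56,5)]),
(26,[(8,0),(24,5),(36,4),(40,1),(52,2)]),
(38,[(8,0),(24,2),(38,4),(60,6),(61,5)]),
(48,[(8,0),(27,4),(67,6),(73,5),(96,2)]),
(37,[(8,0),(28,3),(44,5),(80,2),(81,1)]),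
(57,[(8,0),(28,1),(73,6),(76,2),(96,5)]),
(24,[(8,0),(28,6),(45,5),(61,1),(68,3)]),
(6,[(8,0),(29,5),(35,2),(70,1),(87,3)]),
(82,[(8,0),(29,1),(30,2),(75,5),(93,4)]),
(49,[(8,0),(29,4),(30,3),(64,2),(90,5)]),
(19,[(8,0),(30,5),(41,4),(82,3),(99,6)]),
(50,[(8,0),(30,4),(59,1),(90,3),(91,5)]),
(51,[(8,0),(31,3),(68,6),(69,1),(82,4)]),
(56,[(8,0),(31,6),(36,3),(68,1),(88,2)]),
(59,[(8,0),(38,6),(51,4),(56,1),(78,5)]),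
(90,[(8,0),(39,0),(50,0),(51,0),(65,0)]),
(46,[(8,0),(39,3),(52,5),(79,1),(98,2)]),
(4,[(8,0),(40,3),(49,1),(51,2),(92,6)]),
(53,[(8,0),(40,4),(44,2),(57,6),(84,3)]),
(11,[(8,0),(40,2),(47,1),(50,4),(86,5)]),
(9,[(8,0),(41,5),(56,6),(70,2),(79,4)]),
(0,[(8,0),(42,3),(56,4),(60,2),(99,1)]),
(43,[(8,0),(43,4),(48,2),(51,3),(64,6)]),
(10,[(8,0),(44,1),(61,3),(75,4),(98,5)]),
(5,[(8,0),(45,2),(66,6),(87,4),(98,1)]),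
(88,[(8,0),(46,1),(49,3),(68,4),(69,2)]),
(12,[(8,0),(47,6),(62,4),(69,3),(75,2)]),
(1,[(8,0),(49,4),(60,5),(76,6),(97,1)]),
(25,[(8,0),(50,3),(64,5),(92,2),(96,6)]),
(75,[(8,0),(55,2),(70,6),(76,4),(96,1)]),
(32,[(8,0),(65,4),(71,1),(79,6),(82,5)]),
(83,[(9,0),(10,1),(38,6),(55,4),(73,3)]),
(46,[(9,0),(10,6),(38,3),(70,1),(94,5)]),
(31,[(9,0),(10,4),(43,2),(46,1),(72,3)]),
(61,[(9,0),(11,5),(18,6),(88,2),(92,1)]),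
(74,[(9,0),(11,3),(52,6),(55,2),(66,5)]),
(13,[(9,0),(11,6),(47,5),(50,3),(94,2)]),
(20,[(9,0),(11,2),(51,6),(93,4),(96,5)]),
(70,[(9,0),(12,3),(23,6),(61,1),(68,4)]),
(22,[(9,0),(12,1),(42,2),(77,5),(95,3)]),
(32,[(9,0),(12,6),(26,2),(45,5),(88,1)]),
(3,[(9,0),(13,5),(47,4),(56,3),(90,6)]),
(69,[(9,0),(13,3),(17,5),(37,2),(48,4)]),
(60,[(9,0),(13,6),(75,5),(82,3),(89,4)]),
(27,[(9,0),(13,4),(26,3),(42,1),(95,5)]),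
(94,[(9,0),(14,0),(28,0),(96,0),(99,0)]),
(40,[(9,0),(14,5),(49,3),(75,2),(92,6)]),
(77,[(9,0),(14,3),(33,5),(43,1),(91,6)]),
(57,[(9,0),(14,4),(31,1),(61,3),(91,2)]),
(71,[(9,0),(15,1),(23,4),(54,5),(72,2)]),
(18,[(9,0),(15,6),(32,2),(56,5),(73,1)]),
(7,[(9,0),(15,4),(38,2),(67,5),(75,3)]),
(67,[(9,0),(15,2),(26,5),(30,1),(39,3)]),
(82,[(9,0),(16,1),(65,4),(71,5),(99,3)]),
(42,[(9,0),(17,3),(61,4),(76,6),(96,1)]),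
(19,[(9,0),(17,4),(51,5),(65,6),(93,1)]),
(35,[(9,0),(18,5),(48,2),(70,4),(71,3)]),
(29,[(9,0),(18,2),(25,3),(46,6),(62,4)]),
(78,[(9,0),(19,3),(30,2),(35,5),(67,1)]),
(26,[(9,0),(20,5),(37,4),(41,1),(53,2)]),
(37,[(9,0),(20,2),(39,4),(61,6),(62,5)]),
(16,[(9,0),(21,3),(57,2),(68,1),(80,4)]),
(44,[(9,0),(21,4),(53,1),(88,5),(93,3)]),
(81,[(9,0),(22,6),(58,3),(64,4),(87,2)]),
(68,[(9,0),(23,5),(28,1),(40,3),(49,6)]),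
(6,[(9,0),(23,3),(27,5),(56,1),(94,6)]),
(17,[(9,0),(23,1),(46,3),(62,2),(70,6)]),
(79,[(9,0),(24,4),(25,2),(45,6),(57,5)]),
(5,[(9,0),(25,5),(36,2),(71,1),(88,3)]),
(84,[(9,0),(25,1),(31,2),(76,5),(94,4)]),
(45,[(9,0),(25,4),(31,3),(60,2),(91,5)]),
(90,[(9,0),(26,0),(70,0),(82,0),(98,0)]),
(49,[(9,0),(28,4),(68,6),(74,5),(97,2)]),
(36,[(9,0),(29,3),(40,5),(81,2),(82,1)]),
(59,[(9,0),(29,1),(74,6),(77,2),(97,5)]),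
(23,[(9,0),(29,6),(46,5),(62,1),(69,3)]),
(15,[(9,0),(31,5),(42,4),(83,3),(95,6)]),
(52,[(9,0),(31,4),(55,1),(91,3),(92,5)]),
(53,[(9,0),(32,3),(65,1),(69,6),(83,4)]),
(58,[(9,0),(32,6),(37,3),(69,1),(89,2)]),
(95,[(9,0),(33,0),(39,0),(79,0),(92,0)]),
(47,[(9,0),(35,3),(53,5),(75,1),(99,2)]),
(56,[(9,0),(39,6),(52,4),(57,1),(79,5)]),
(91,[(9,0),(40,0),(51,0),(52,0),(66,0)])]

def Q796x8 : List (ℕ × List (ℕ × ℕ)) := [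
(10,[(9,0),(40,1),(62,3),(76,4),(99,5)]),
(50,[(9,0),(40,2),(41,4),(58,6),(80,3)]),
(0,[(9,0),(41,3),(45,1),(52,2),(93,6)]),
(11,[(9,0),(41,2),(48,1),(51,4),(87,5)]),
(8,[(9,0),(42,5),(57,6),(71,2),(75,4)]),
(1,[(9,0),(43,3),(57,4),(61,2),(95,1)]),
(43,[(9,0),(44,4),(49,2),(52,3),(60,6)]),
(85,[(9,0),(45,3),(47,1),(65,2),(69,4)]),
(2,[(9,0),(45,4),(61,5),(77,6),(98,1)]),
(9,[(9,0),(46,2),(67,6),(88,4),(99,1)]),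
(12,[(9,0),(48,6),(63,4),(65,3),(76,2)]),
(25,[(9,0),(51,3),(60,5),(93,2),(97,6)]),
(76,[(9,0),(56,2),(71,6),(77,4),(97,1)]),
(33,[(9,0),(66,4),(72,1),(75,6),(83,5)]),
(85,[(10,0),(11,5),(50,3),(91,6),(93,4)]),
(38,[(10,0),(11,6),(58,1),(74,3),(88,5)]),
(54,[(10,0),(11,2),(29,5),(50,1),(78,4)]),
(86,[(10,0),(12,5),(49,4),(80,6),(84,1)]),
(87,[(10,0),(13,2),(47,6),(82,3),(83,1)]),
(52,[(10,0),(14,5),(28,3),(54,6),(77,2)]),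
(39,[(10,0),(14,1),(57,2),(73,4),(87,6)]),
(88,[(10,0),(14,2),(54,5),(90,1),(92,6)]),
(95,[(10,0),(15,0),(29,0),(34,0),(97,0)]),
(44,[(10,0),(15,5),(25,3),(81,2),(98,6)]),
(75,[(10,0),(15,3),(39,5),(49,1),(97,6)]),
(56,[(10,0),(15,4),(37,1),(67,3),(97,2)]),
(90,[(10,0),(16,0),(43,0),(78,0),(81,0)]),
(81,[(10,0),(16,1),(44,6),(54,3),(61,4)]),
(49,[(10,0),(16,6),(44,3),(51,1),(95,5)]),
(32,[(10,0),(16,4),(27,1),(49,2),(53,3)]),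
(64,[(10,0),(17,5),(24,6),(94,2),(98,1)]),
(73,[(10,0),(17,3),(58,6),(61,2),(72,5)]),
(12,[(10,0),(17,6),(28,5),(56,3),(95,2)]),
(20,[(10,0),(17,2),(57,6),(77,5),(99,4)]),
(22,[(10,0),(18,1),(48,2),(76,3),(83,5)]),
(33,[(10,0),(18,6),(26,5),(32,2),(94,1)]),
(4,[(10,0),(19,5),(28,4),(62,3),(96,6)]),
(67,[(10,0),(19,3),(23,5),(29,4),(43,2)]),
(63,[(10,0),(19,6),(81,5),(88,3),(90,4)]),
(26,[(10,0),(19,4),(32,3),(48,1),(76,5)]),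
(76,[(10,0),(20,3),(36,2),(41,5),(73,1)]),
(19,[(10,0),(21,6),(38,2),(54,1),(62,5)]),
(7,[(10,0),(21,4),(44,2),(73,5),(81,3)]),
(65,[(10,0),(21,2),(32,5),(36,1),(40,3)]),
(80,[(10,0),(22,1),(52,5),(71,4),(75,3)]),
(41,[(10,0),(23,3),(67,4),(77,1),(82,6)]),
(15,[(10,0),(23,4),(57,5),(71,6),(99,1)]),
(35,[(10,0),(24,5),(29,2),(51,4),(52,3)]),
(28,[(10,0),(24,2),(27,6),(31,3),(68,4)]),
(42,[(10,0),(25,2),(45,4),(58,3),(66,6)]),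
(89,[(10,0),(26,3),(28,1),(70,4),(71,2)]),
(1,[(10,0),(26,1),(47,3),(58,2),(99,6)]),
(3,[(10,0),(26,4),(67,5),(79,1),(83,6)]),
(91,[(10,0),(27,0),(71,0),(83,0),(99,0)]),
(23,[(10,0),(27,5),(30,6),(68,1),(70,3)]),
(9,[(10,0),(27,2),(73,6),(75,1),(94,4)]),
(10,[(10,0),(29,1),(47,2),(57,4),(93,5)]),
(11,[(10,0),(29,6),(69,4),(71,3),(82,2)]),
(36,[(10,0),(30,3),(46,5),(87,2),(88,1)]),
(58,[(10,0),(30,1),(50,6),(78,5),(83,2)]),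
(5,[(10,0),(31,5),(42,2),(52,1),(94,3)]),
(82,[(10,0),(31,1),(37,2),(82,5),(95,4)]),
(48,[(10,0),(31,4),(37,3),(66,2),(97,5)]),
(47,[(10,0),(34,4),(50,5),(74,6),(78,2)]),
(16,[(10,0),(37,5),(48,4),(76,6),(89,3)]),
(50,[(10,0),(37,4),(61,1),(97,3),(98,5)]),
(51,[(10,0),(38,3),(70,6),(71,1),(89,4)]),
(57,[(10,0),(38,6),(43,3),(70,1),(90,2)]),
(94,[(10,0),(40,0),(48,0),(80,0),(93,0)]),
(55,[(10,0),(40,6),(58,4),(63,1),(80,5)]),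
(45,[(10,0),(41,3),(59,5),(75,2),(81,1)]),
(14,[(10,0),(46,1),(68,3),(75,5),(82,4)]),
(53,[(10,0),(46,2),(47,4),(64,6),(86,3)]),
(8,[(10,0),(48,5),(52,2),(63,6),(81,4)]),
(2,[(10,0),(49,3),(63,4),(67,2),(76,1)]),
(79,[(10,0),(52,6),(62,2),(78,1),(83,4)]),
(34,[(10,0),(53,1),(72,4),(81,6),(89,5)]),
(29,[(10,0),(57,3),(66,5),(78,6),(99,2)]),
(90,[(11,0),(12,0),(14,0),(22,0),(62,0)]),
(87,[(11,0),(12,5),(51,3),(92,6),(94,4)]),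
(37,[(11,0),(12,6),(59,1),(70,3),(89,5)]),
(51,[(11,0),(12,2),(25,5),(51,1),(79,4)]),
(88,[(11,0),(13,5),(45,4),(80,1),(81,6)]),
(89,[(11,0),(14,2),(48,6),(83,3),(84,1)]),
(0,[(11,0),(15,5),(29,4),(63,3),(97,6)]),
(69,[(11,0),(15,3),(24,5),(25,4),(44,2)]),
(64,[(11,0),(15,6),(82,5),(89,3),(91,4)]),
(26,[(11,0),(15,4),(33,3),(49,1),(77,5)]),
(44,[(11,0),(16,5),(26,3),(82,2),(99,6)]),
(76,[(11,0),(16,3),(35,5),(45,1),(98,6)]),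
(58,[(11,0),(16,4),(38,1),(68,3),(98,2)]),
(91,[(11,0),(17,0),(44,0),(79,0),(82,0)]),
(83,[(11,0),(17,1),(40,6),(50,3),(62,4)]),
(45,[(11,0),(17,6),(40,3),(52,1),(96,5)]),
(33,[(11,0),(17,4),(28,1),(45,2),(54,3)]),
(60,[(11,0),(18,5),(20,6),(90,2),(99,1)]),
(70,[(11,0),(18,3),(59,6),(62,2),(73,5)]),
(12,[(11,0),(18,6),(29,5),(57,3),(96,2)]),
(24,[(11,0),(18,2),(58,6),(78,5),(95,4)]),
(21,[(11,0),(19,1),(49,2),(77,3),(84,5)])]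

def Q796x9 : List (ℕ × List (ℕ × ℕ)) := [
(34,[(11,0),(19,6),(27,5),(33,2),(90,1)]),
(39,[(11,0),(20,5),(25,2),(52,4),(53,3)]),
(28,[(11,0),(20,2),(28,6),(32,3),(69,4)]),
(77,[(11,0),(21,3),(37,2),(42,5),(74,1)]),
(15,[(11,0),(22,6),(39,2),(50,1),(63,5)]),
(6,[(11,0),(22,4),(40,2),(74,5),(82,3)]),
(67,[(11,0),(22,2),(33,5),(37,1),(41,3)]),
(82,[(11,0),(23,1),(53,5),(72,4),(76,3)]),
(41,[(11,0),(24,3),(68,4),(78,1),(83,6)]),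
(16,[(11,0),(24,4),(58,5),(72,6),(95,1)]),
(10,[(11,0),(25,1),(48,2),(58,4),(94,5)]),
(11,[(11,0),(25,6),(65,4),(72,3),(83,2)]),
(42,[(11,0),(26,2),(46,4),(59,3),(67,6)]),
(86,[(11,0),(27,3),(29,1),(71,4),(72,2)]),
(2,[(11,0),(27,1),(48,3),(59,2),(95,6)]),
(4,[(11,0),(27,4),(68,5),(75,1),(84,6)]),
(22,[(11,0),(28,5),(31,6),(69,1),(71,3)]),
(8,[(11,0),(28,2),(74,6),(76,1),(90,4)]),
(48,[(11,0),(30,4),(51,5),(70,6),(79,2)]),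
(35,[(11,0),(31,3),(47,5),(88,2),(89,1)]),
(55,[(11,0),(31,1),(51,6),(79,5),(84,2)]),
(9,[(11,0),(32,5),(43,2),(53,1),(90,3)]),
(84,[(11,0),(32,1),(38,2),(83,5),(96,4)]),
(49,[(11,0),(32,4),(38,3),(67,2),(98,5)]),
(17,[(11,0),(38,5),(49,4),(77,6),(85,3)]),
(52,[(11,0),(38,4),(62,1),(98,3),(99,5)]),
(53,[(11,0),(39,3),(71,6),(72,1),(85,4)]),
(59,[(11,0),(39,6),(44,3),(71,1),(91,2)]),
(57,[(11,0),(41,6),(59,4),(64,1),(81,5)]),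
(92,[(11,0),(42,0),(53,0),(54,0),(68,0)]),
(46,[(11,0),(42,3),(55,5),(76,2),(82,1)]),
(3,[(11,0),(45,3),(64,4),(68,2),(77,1)]),
(94,[(11,0),(46,0),(55,0),(67,0),(83,0)]),
(14,[(11,0),(47,1),(69,3),(76,5),(83,4)]),
(50,[(11,0),(47,2),(48,4),(60,6),(87,3)]),
(7,[(11,0),(49,5),(53,2),(64,6),(82,4)]),
(93,[(11,0),(52,0),(86,0),(88,0),(95,0)]),
(75,[(11,0),(53,6),(63,2),(79,1),(84,4)]),
(30,[(11,0),(54,1),(73,4),(82,6),(85,5)]),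
(29,[(11,0),(58,3),(67,5),(79,6),(95,2)]),
(91,[(12,0),(13,0),(15,0),(23,0),(63,0)]),
(89,[(12,0),(13,5),(52,3),(90,4),(93,6)]),
(36,[(12,0),(13,6),(55,1),(71,3),(85,5)]),
(53,[(12,0),(13,2),(26,5),(52,1),(75,4)]),
(85,[(12,0),(14,5),(46,4),(81,1),(82,6)]),
(20,[(12,0),(15,1),(45,2),(78,3),(80,5)]),
(30,[(12,0),(15,6),(28,5),(34,2),(91,1)]),
(95,[(12,0),(16,0),(57,0),(91,0),(93,0)]),
(1,[(12,0),(16,5),(25,4),(64,3),(98,6)]),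
(66,[(12,0),(16,3),(20,5),(26,4),(40,2)]),
(60,[(12,0),(16,6),(83,5),(85,3),(92,4)]),
(26,[(12,0),(16,4),(34,3),(45,1),(78,5)]),
(44,[(12,0),(17,5),(27,3),(83,2),(95,6)]),
(77,[(12,0),(17,3),(36,5),(46,1),(99,6)]),
(55,[(12,0),(17,4),(39,1),(69,3),(99,2)]),
(80,[(12,0),(18,1),(41,6),(51,3),(63,4)]),
(46,[(12,0),(18,6),(41,3),(53,1),(97,5)]),
(34,[(12,0),(18,4),(29,1),(46,2),(50,3)]),
(61,[(12,0),(19,5),(21,6),(91,2),(95,1)]),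
(72,[(12,0),(19,3),(55,6),(63,2),(74,5)]),
(12,[(12,0),(19,6),(25,5),(58,3),(97,2)]),
(23,[(12,0),(19,2),(59,6),(79,5),(96,4)]),
(41,[(12,0),(20,3),(69,4),(79,1),(84,6)]),
(17,[(12,0),(20,4),(59,5),(73,6),(96,1)]),
(38,[(12,0),(21,5),(26,2),(53,4),(54,3)]),
(28,[(12,0),(21,2),(29,6),(33,3),(65,4)]),
(78,[(12,0),(22,3),(38,2),(43,5),(70,1)]),
(16,[(12,0),(23,6),(35,2),(51,1),(64,5)]),
(5,[(12,0),(23,4),(41,2),(70,5),(83,3)]),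
(69,[(12,0),(23,2),(34,5),(38,1),(42,3)]),
(84,[(12,0),(24,1),(54,5),(73,4),(77,3)]),
(88,[(12,0),(25,1),(28,3),(72,4),(73,2)]),
(93,[(12,0),(26,0),(32,0),(94,0),(97,0)]),
(10,[(12,0),(26,1),(49,2),(59,4),(90,5)]),
(11,[(12,0),(26,6),(66,4),(73,3),(84,2)]),
(42,[(12,0),(27,2),(47,4),(55,3),(68,6)]),
(3,[(12,0),(28,1),(49,3),(55,2),(96,6)]),
(0,[(12,0),(28,4),(69,5),(76,1),(80,6)]),
(92,[(12,0),(29,0),(48,0),(73,0),(85,0)]),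
(21,[(12,0),(29,5),(32,6),(65,1),(72,3)]),
(7,[(12,0),(29,2),(70,6),(77,1),(91,4)]),
(49,[(12,0),(31,4),(52,5),(71,6),(75,2)]),
(39,[(12,0),(32,3),(48,5),(85,1),(89,2)]),
(57,[(12,0),(32,1),(52,6),(75,5),(80,2)]),
(8,[(12,0),(33,5),(44,2),(54,1),(91,3)]),
(81,[(12,0),(33,1),(39,2),(84,5),(97,4)]),
(45,[(12,0),(33,4),(39,3),(68,2),(99,5)]),
(50,[(12,0),(35,3),(72,6),(73,1),(86,4)]),
(56,[(12,0),(35,6),(40,3),(72,1),(92,2)]),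
(18,[(12,0),(39,5),(45,4),(78,6),(86,3)]),
(54,[(12,0),(39,4),(63,1),(95,5),(99,3)]),
(59,[(12,0),(42,6),(55,4),(60,1),(82,5)]),
(47,[(12,0),(43,3),(56,5),(77,2),(83,1)]),
(6,[(12,0),(45,5),(54,2),(60,6),(83,4)]),
(4,[(12,0),(46,3),(60,4),(69,2),(78,1)]),
(14,[(12,0),(48,1),(65,3),(77,5),(84,4)]),
(52,[(12,0),(48,2),(49,4),(61,6),(88,3)]),
(31,[(12,0),(50,1),(74,4),(83,6),(86,5)]),
(76,[(12,0),(54,6),(64,2),(75,1),(80,4)]),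
(29,[(12,0),(59,3),(68,5),(75,6),(96,2)])]

def Q796x10 : List (ℕ × List (ℕ × ℕ)) := [
(86,[(13,0),(14,5),(53,3),(91,4),(94,6)]),
(35,[(13,0),(14,6),(56,1),(72,3),(86,5)]),
(50,[(13,0),(14,2),(27,5),(53,1),(76,4)]),
(62,[(13,0),(15,5),(22,6),(92,2),(96,1)]),
(74,[(13,0),(15,3),(56,6),(64,2),(70,5)]),
(12,[(13,0),(15,6),(26,5),(59,3),(98,2)]),
(22,[(13,0),(15,2),(55,6),(75,5),(97,4)]),
(24,[(13,0),(16,1),(46,2),(79,3),(81,5)]),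
(31,[(13,0),(16,6),(29,5),(30,2),(92,1)]),
(2,[(13,0),(17,5),(26,4),(60,3),(99,6)]),
(68,[(13,0),(17,3),(21,5),(27,4),(41,2)]),
(61,[(13,0),(17,6),(84,5),(86,3),(93,4)]),
(26,[(13,0),(17,4),(30,3),(46,1),(79,5)]),
(95,[(13,0),(18,0),(32,0),(37,0),(50,0)]),
(44,[(13,0),(18,5),(28,3),(84,2),(96,6)]),
(78,[(13,0),(18,3),(37,5),(47,1),(95,6)]),
(57,[(13,0),(18,4),(35,1),(65,3),(95,2)]),
(92,[(13,0),(19,0),(46,0),(81,0),(84,0)]),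
(82,[(13,0),(19,1),(42,6),(52,3),(64,4)]),
(47,[(13,0),(19,6),(42,3),(54,1),(98,5)]),
(30,[(13,0),(19,4),(25,1),(47,2),(51,3)]),
(81,[(13,0),(20,1),(50,5),(74,4),(78,3)]),
(41,[(13,0),(21,3),(65,4),(75,1),(80,6)]),
(18,[(13,0),(21,4),(55,5),(74,6),(97,1)]),
(94,[(13,0),(22,0),(76,0),(77,0),(91,0)]),
(37,[(13,0),(22,5),(27,2),(50,3),(54,4)]),
(28,[(13,0),(22,2),(25,6),(34,3),(66,4)]),
(79,[(13,0),(23,3),(39,2),(44,5),(71,1)]),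
(17,[(13,0),(24,6),(36,2),(52,1),(60,5)]),
(9,[(13,0),(24,4),(42,2),(71,5),(84,3)]),
(66,[(13,0),(24,2),(30,5),(39,1),(43,3)]),
(20,[(13,0),(25,5),(33,6),(66,1),(73,3)]),
(6,[(13,0),(25,2),(71,6),(78,1),(92,4)]),
(85,[(13,0),(26,1),(29,3),(73,4),(74,2)]),
(10,[(13,0),(27,1),(45,2),(55,4),(91,5)]),
(11,[(13,0),(27,6),(67,4),(74,3),(80,2)]),
(42,[(13,0),(28,2),(48,4),(56,3),(69,6)]),
(4,[(13,0),(29,1),(45,3),(56,2),(97,6)]),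
(1,[(13,0),(29,4),(65,5),(77,1),(81,6)]),
(45,[(13,0),(32,4),(53,5),(72,6),(76,2)]),
(38,[(13,0),(33,3),(49,5),(85,2),(86,1)]),
(59,[(13,0),(33,1),(53,6),(76,5),(81,2)]),
(7,[(13,0),(34,5),(40,2),(50,1),(92,3)]),
(83,[(13,0),(34,1),(35,2),(80,5),(98,4)]),
(46,[(13,0),(34,4),(35,3),(69,2),(95,5)]),
(90,[(13,0),(35,0),(57,0),(69,0),(85,0)]),
(19,[(13,0),(35,5),(46,4),(79,6),(87,3)]),
(51,[(13,0),(35,4),(64,1),(95,3),(96,5)]),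
(52,[(13,0),(36,3),(73,6),(74,1),(87,4)]),
(58,[(13,0),(36,6),(41,3),(73,1),(93,2)]),
(93,[(13,0),(40,0),(45,0),(75,0),(78,0)]),
(56,[(13,0),(43,6),(56,4),(61,1),(83,5)]),
(48,[(13,0),(44,3),(57,5),(78,2),(84,1)]),
(54,[(13,0),(45,4),(49,2),(62,6),(89,3)]),
(5,[(13,0),(46,5),(50,2),(61,6),(84,4)]),
(0,[(13,0),(47,3),(61,4),(65,2),(79,1)]),
(14,[(13,0),(49,1),(66,3),(78,5),(80,4)]),
(77,[(13,0),(50,6),(60,2),(76,1),(81,4)]),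
(32,[(13,0),(51,1),(70,4),(84,6),(87,5)]),
(29,[(13,0),(55,3),(69,5),(76,6),(97,2)]),
(92,[(14,0),(15,0),(17,0),(25,0),(65,0)]),
(84,[(14,0),(15,1),(43,6),(53,3),(60,4)]),
(48,[(14,0),(15,6),(43,3),(50,1),(99,5)]),
(31,[(14,0),(15,4),(26,1),(48,2),(52,3)]),
(63,[(14,0),(16,5),(23,6),(93,2),(97,1)]),
(71,[(14,0),(16,3),(57,6),(60,2),(71,5)]),
(12,[(14,0),(16,6),(27,5),(55,3),(99,2)]),
(21,[(14,0),(16,2),(56,6),(76,5),(98,4)]),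
(23,[(14,0),(17,1),(47,2),(75,3),(82,5)]),
(32,[(14,0),(17,6),(25,5),(31,2),(93,1)]),
(3,[(14,0),(18,5),(27,4),(61,3),(95,6)]),
(65,[(14,0),(18,3),(22,5),(28,4),(42,2)]),
(62,[(14,0),(18,6),(80,5),(87,3),(94,4)]),
(26,[(14,0),(18,4),(31,3),(47,1),(75,5)]),
(44,[(14,0),(19,5),(29,3),(80,2),(97,6)]),
(79,[(14,0),(19,3),(38,5),(48,1),(96,6)]),
(59,[(14,0),(19,4),(36,1),(66,3),(96,2)]),
(18,[(14,0),(20,6),(37,2),(53,1),(61,5)]),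
(8,[(14,0),(20,4),(43,2),(72,5),(80,3)]),
(68,[(14,0),(20,2),(31,5),(35,1),(44,3)]),
(83,[(14,0),(21,1),(51,5),(70,4),(79,3)]),
(41,[(14,0),(22,3),(66,4),(76,1),(81,6)]),
(19,[(14,0),(22,4),(56,5),(70,6),(98,1)]),
(36,[(14,0),(23,5),(28,2),(50,4),(51,3)]),
(28,[(14,0),(23,2),(26,6),(30,3),(67,4)]),
(75,[(14,0),(24,3),(35,2),(40,5),(72,1)]),
(87,[(14,0),(25,3),(27,1),(70,2),(74,4)]),
(0,[(14,0),(25,1),(46,3),(57,2),(98,6)]),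
(2,[(14,0),(25,4),(66,5),(78,1),(82,6)]),
(24,[(14,0),(26,5),(34,6),(67,1),(74,3)]),
(5,[(14,0),(26,2),(72,6),(79,1),(93,4)]),
(95,[(14,0),(27,0),(43,0),(63,0),(88,0)]),
(10,[(14,0),(28,1),(46,2),(56,4),(92,5)]),
(11,[(14,0),(28,6),(68,4),(70,3),(81,2)]),
(42,[(14,0),(29,2),(49,4),(57,3),(65,6)]),
(6,[(14,0),(30,5),(41,2),(51,1),(93,3)]),
(80,[(14,0),(30,1),(36,2),(81,5),(99,4)]),
(47,[(14,0),(30,4),(36,3),(65,2),(96,5)]),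
(46,[(14,0),(33,4),(54,5),(73,6),(77,2)]),
(37,[(14,0),(34,3),(45,5),(86,2),(87,1)])]

def Q796x11 : List (ℕ × List (ℕ × ℕ)) := [
(56,[(14,0),(34,1),(54,6),(77,5),(82,2)]),
(93,[(14,0),(35,0),(53,0),(66,0),(74,0)]),
(91,[(14,0),(36,0),(58,0),(70,0),(86,0)]),
(15,[(14,0),(36,5),(47,4),(75,6),(88,3)]),
(53,[(14,0),(36,4),(60,1),(96,3),(97,5)]),
(54,[(14,0),(37,3),(70,1),(74,6),(88,4)]),
(55,[(14,0),(37,6),(42,3),(74,1),(94,2)]),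
(49,[(14,0),(40,3),(58,5),(79,2),(80,1)]),
(58,[(14,0),(44,6),(57,4),(62,1),(84,5)]),
(14,[(14,0),(45,1),(67,3),(79,5),(81,4)]),
(51,[(14,0),(45,2),(46,4),(63,6),(85,3)]),
(9,[(14,0),(47,5),(51,2),(62,6),(80,4)]),
(1,[(14,0),(48,3),(62,4),(66,2),(75,1)]),
(78,[(14,0),(51,6),(61,2),(77,1),(82,4)]),
(33,[(14,0),(52,1),(71,4),(80,6),(88,5)]),
(29,[(14,0),(56,3),(65,5),(77,6),(98,2)]),
(87,[(15,0),(16,5),(55,3),(96,6),(98,4)]),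
(39,[(15,0),(16,6),(54,3),(63,1),(93,5)]),
(50,[(15,0),(16,2),(34,5),(55,1),(83,4)]),
(88,[(15,0),(17,5),(29,4),(85,6),(89,1)]),
(89,[(15,0),(18,2),(27,6),(87,3),(88,1)]),
(53,[(15,0),(19,5),(33,3),(59,6),(82,2)]),
(35,[(15,0),(19,1),(53,4),(62,2),(92,6)]),
(85,[(15,0),(19,2),(59,5),(95,1),(97,6)]),
(94,[(15,0),(20,0),(39,0),(49,0),(52,0)]),
(43,[(15,0),(20,5),(30,3),(78,6),(86,2)]),
(77,[(15,0),(20,3),(29,1),(44,5),(77,6)]),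
(58,[(15,0),(20,4),(42,1),(72,3),(77,2)]),
(82,[(15,0),(21,1),(49,6),(59,3),(66,4)]),
(46,[(15,0),(21,6),(49,3),(56,1),(75,5)]),
(32,[(15,0),(21,4),(29,2),(32,1),(58,3)]),
(70,[(15,0),(22,3),(52,5),(63,6),(66,2)]),
(11,[(15,0),(22,6),(33,5),(61,3),(75,2)]),
(21,[(15,0),(22,2),(62,6),(79,4),(82,5)]),
(23,[(15,0),(23,1),(28,2),(81,3),(88,5)]),
(33,[(15,0),(23,6),(31,5),(37,2),(99,1)]),
(4,[(15,0),(24,5),(33,4),(67,3),(76,6)]),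
(60,[(15,0),(24,6),(86,5),(93,3),(95,4)]),
(25,[(15,0),(24,4),(28,1),(37,3),(81,5)]),
(41,[(15,0),(25,4),(30,2),(63,3),(71,6)]),
(37,[(15,0),(26,5),(35,3),(92,2),(93,1)]),
(13,[(15,0),(26,1),(73,3),(80,5),(87,4)]),
(54,[(15,0),(26,2),(27,4),(69,6),(91,3)]),
(1,[(15,0),(27,3),(31,1),(63,2),(79,6)]),
(14,[(15,0),(27,2),(34,1),(62,4),(98,5)]),
(9,[(15,0),(28,5),(57,2),(68,6),(86,4)]),
(16,[(15,0),(28,4),(42,5),(81,6),(94,3)]),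
(2,[(15,0),(29,3),(68,4),(72,2),(81,1)]),
(86,[(15,0),(31,3),(33,1),(50,4),(51,2)]),
(3,[(15,0),(31,4),(72,5),(84,1),(88,6)]),
(24,[(15,0),(32,5),(35,6),(50,3),(73,1)]),
(5,[(15,0),(32,2),(53,6),(80,1),(99,4)]),
(10,[(15,0),(34,6),(51,3),(74,4),(87,2)]),
(55,[(15,0),(35,1),(55,6),(83,5),(88,2)]),
(6,[(15,0),(36,5),(47,2),(57,1),(99,3)]),
(83,[(15,0),(36,1),(42,2),(75,4),(87,5)]),
(45,[(15,0),(36,4),(42,3),(71,2),(77,5)]),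
(49,[(15,0),(39,4),(54,6),(55,5),(83,2)]),
(51,[(15,0),(42,4),(66,1),(77,3),(78,5)]),
(52,[(15,0),(43,3),(50,6),(51,1),(94,4)]),
(59,[(15,0),(43,6),(48,3),(50,1),(95,2)]),
(57,[(15,0),(45,6),(63,4),(68,1),(85,5)]),
(47,[(15,0),(46,3),(64,5),(80,2),(86,1)]),
(34,[(15,0),(52,4),(58,1),(86,6),(94,5)]),
(76,[(15,0),(57,6),(67,2),(83,1),(88,4)]),
(28,[(15,0),(62,3),(71,5),(79,2),(83,6)]),
(89,[(16,0),(17,5),(56,3),(97,6),(99,4)]),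
(38,[(16,0),(17,6),(50,3),(64,1),(94,5)]),
(52,[(16,0),(17,2),(30,5),(56,1),(84,4)]),
(85,[(16,0),(18,5),(25,4),(85,1),(86,6)]),
(86,[(16,0),(19,2),(28,6),(88,3),(89,1)]),
(0,[(16,0),(20,5),(34,4),(68,3),(77,6)]),
(61,[(16,0),(20,6),(87,5),(94,3),(96,4)]),
(25,[(16,0),(20,4),(29,1),(38,3),(82,5)]),
(43,[(16,0),(21,5),(31,3),(79,6),(87,2)]),
(78,[(16,0),(21,3),(25,1),(40,5),(78,6)]),
(55,[(16,0),(21,4),(43,1),(73,3),(78,2)]),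
(84,[(16,0),(22,1),(45,6),(55,3),(67,4)]),
(47,[(16,0),(22,6),(45,3),(57,1),(76,5)]),
(33,[(16,0),(22,4),(25,2),(33,1),(59,3)]),
(72,[(16,0),(23,3),(53,5),(64,6),(67,2)]),
(11,[(16,0),(23,6),(34,5),(62,3),(76,2)]),
(20,[(16,0),(23,2),(63,6),(75,4),(83,5)]),
(22,[(16,0),(24,1),(29,2),(82,3),(89,5)]),
(34,[(16,0),(24,6),(32,5),(38,2),(95,1)]),
(3,[(16,0),(25,3),(69,4),(73,2),(82,1)]),
(41,[(16,0),(26,4),(31,2),(64,3),(72,6)]),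
(36,[(16,0),(27,5),(36,3),(93,2),(94,1)]),
(13,[(16,0),(27,1),(74,3),(81,5),(88,4)]),
(51,[(16,0),(27,2),(28,4),(65,6),(92,3)]),
(93,[(16,0),(28,0),(70,0),(71,0),(85,0)]),
(2,[(16,0),(28,3),(32,1),(64,2),(75,6)]),
(14,[(16,0),(28,2),(30,1),(63,4),(99,5)]),
(8,[(16,0),(29,5),(58,2),(69,6),(87,4)]),
(17,[(16,0),(29,4),(43,5),(82,6),(90,3)]),
(10,[(16,0),(30,6),(52,3),(70,4),(88,2)]),
(94,[(16,0),(31,0),(32,0),(41,0),(82,0)]),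
(88,[(16,0),(32,3),(34,1),(51,4),(52,2)]),
(4,[(16,0),(32,4),(73,5),(80,1),(89,6)]),
(23,[(16,0),(33,5),(36,6),(51,3),(74,1)])]

def Q796x12 : List (ℕ × List (ℕ × ℕ)) := [
(9,[(16,0),(33,2),(54,6),(81,1),(95,4)]),
(45,[(16,0),(35,4),(50,6),(56,5),(84,2)]),
(57,[(16,0),(36,1),(56,6),(84,5),(89,2)]),
(5,[(16,0),(37,5),(48,2),(58,1),(95,3)]),
(80,[(16,0),(37,1),(43,2),(76,4),(88,5)]),
(46,[(16,0),(37,4),(43,3),(72,2),(78,5)]),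
(92,[(16,0),(38,0),(60,0),(72,0),(88,0)]),
(53,[(16,0),(43,4),(67,1),(78,3),(79,5)]),
(54,[(16,0),(44,3),(51,6),(52,1),(90,4)]),
(56,[(16,0),(44,6),(49,3),(51,1),(96,2)]),
(59,[(16,0),(46,6),(64,4),(69,1),(86,5)]),
(48,[(16,0),(47,3),(60,5),(81,2),(87,1)]),
(30,[(16,0),(53,4),(59,1),(87,6),(90,5)]),
(77,[(16,0),(58,6),(68,2),(84,1),(89,4)]),
(28,[(16,0),(63,3),(72,5),(75,2),(84,6)]),
(86,[(17,0),(18,5),(57,3),(95,4),(98,6)]),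
(37,[(17,0),(18,6),(51,3),(60,1),(90,5)]),
(54,[(17,0),(18,2),(31,5),(57,1),(80,4)]),
(87,[(17,0),(19,5),(26,4),(86,1),(87,6)]),
(21,[(17,0),(20,1),(25,2),(83,3),(85,5)]),
(30,[(17,0),(20,6),(33,5),(39,2),(96,1)]),
(1,[(17,0),(21,5),(30,4),(69,3),(78,6)]),
(62,[(17,0),(21,6),(88,5),(90,3),(97,4)]),
(25,[(17,0),(21,4),(25,1),(39,3),(83,5)]),
(43,[(17,0),(22,5),(32,3),(75,6),(88,2)]),
(79,[(17,0),(22,3),(26,1),(41,5),(79,6)]),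
(57,[(17,0),(22,4),(44,1),(74,3),(79,2)]),
(81,[(17,0),(23,1),(46,6),(56,3),(68,4)]),
(48,[(17,0),(23,6),(46,3),(58,1),(77,5)]),
(34,[(17,0),(23,4),(26,2),(34,1),(55,3)]),
(74,[(17,0),(24,3),(54,5),(60,6),(68,2)]),
(11,[(17,0),(24,6),(30,5),(63,3),(77,2)]),
(24,[(17,0),(24,2),(64,6),(76,4),(84,5)]),
(7,[(17,0),(25,5),(59,2),(65,6),(88,4)]),
(18,[(17,0),(25,4),(44,5),(83,6),(91,3)]),
(4,[(17,0),(26,3),(65,4),(74,2),(83,1)]),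
(41,[(17,0),(27,4),(32,2),(60,3),(73,6)]),
(35,[(17,0),(28,5),(37,3),(90,1),(94,2)]),
(13,[(17,0),(28,1),(70,3),(82,5),(89,4)]),
(53,[(17,0),(28,2),(29,4),(66,6),(93,3)]),
(3,[(17,0),(29,3),(33,1),(60,2),(76,6)]),
(14,[(17,0),(29,2),(31,1),(64,4),(95,5)]),
(85,[(17,0),(30,1),(33,3),(52,4),(53,2)]),
(10,[(17,0),(31,6),(53,3),(71,4),(89,2)]),
(0,[(17,0),(33,4),(74,5),(81,1),(85,6)]),
(22,[(17,0),(34,5),(37,6),(52,3),(70,1)]),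
(8,[(17,0),(34,2),(50,6),(82,1),(96,4)]),
(46,[(17,0),(36,4),(51,6),(57,5),(80,2)]),
(59,[(17,0),(37,1),(57,6),(80,5),(85,2)]),
(9,[(17,0),(38,5),(49,2),(59,1),(96,3)]),
(82,[(17,0),(38,1),(44,2),(77,4),(89,5)]),
(47,[(17,0),(38,4),(44,3),(73,2),(79,5)]),
(95,[(17,0),(40,0),(47,0),(55,0),(87,0)]),
(51,[(17,0),(40,3),(52,6),(53,1),(91,4)]),
(58,[(17,0),(40,6),(45,3),(52,1),(97,2)]),
(50,[(17,0),(44,4),(68,1),(75,5),(79,3)]),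
(56,[(17,0),(47,6),(60,4),(65,1),(87,5)]),
(49,[(17,0),(48,3),(61,5),(82,2),(88,1)]),
(31,[(17,0),(54,4),(55,1),(88,6),(91,5)]),
(78,[(17,0),(59,6),(69,2),(80,1),(85,4)]),
(28,[(17,0),(64,3),(73,5),(76,2),(80,6)]),
(88,[(18,0),(19,5),(58,3),(96,4),(99,6)]),
(36,[(18,0),(19,6),(52,3),(61,1),(91,5)]),
(51,[(18,0),(19,2),(32,5),(58,1),(81,4)]),
(71,[(18,0),(20,3),(50,5),(61,6),(69,2)]),
(11,[(18,0),(20,6),(31,5),(64,3),(78,2)]),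
(23,[(18,0),(20,2),(60,6),(77,4),(80,5)]),
(20,[(18,0),(21,1),(26,2),(84,3),(86,5)]),
(31,[(18,0),(21,6),(34,5),(35,2),(97,1)]),
(2,[(18,0),(22,5),(31,4),(65,3),(79,6)]),
(63,[(18,0),(22,6),(89,5),(91,3),(98,4)]),
(25,[(18,0),(22,4),(26,1),(35,3),(84,5)]),
(43,[(18,0),(23,5),(33,3),(76,6),(89,2)]),
(75,[(18,0),(23,3),(27,1),(42,5),(75,6)]),
(59,[(18,0),(23,4),(40,1),(70,3),(75,2)]),
(83,[(18,0),(24,1),(47,6),(57,3),(69,4)]),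
(49,[(18,0),(24,6),(47,3),(59,1),(78,5)]),
(30,[(18,0),(24,4),(27,2),(30,1),(56,3)]),
(4,[(18,0),(25,3),(34,1),(61,2),(77,6)]),
(50,[(18,0),(25,4),(29,2),(67,6),(94,3)]),
(14,[(18,0),(25,2),(32,1),(60,4),(96,5)]),
(6,[(18,0),(26,5),(55,2),(66,6),(89,4)]),
(19,[(18,0),(26,4),(40,5),(84,6),(92,3)]),
(0,[(18,0),(27,3),(66,4),(70,2),(84,1)]),
(41,[(18,0),(28,4),(33,2),(61,3),(74,6)]),
(39,[(18,0),(29,5),(38,3),(90,2),(91,1)]),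
(13,[(18,0),(29,1),(71,3),(83,5),(85,4)]),
(21,[(18,0),(30,5),(38,6),(53,3),(71,1)]),
(7,[(18,0),(30,2),(51,6),(83,1),(97,4)]),
(87,[(18,0),(31,1),(34,3),(53,4),(54,2)]),
(10,[(18,0),(32,6),(54,3),(72,4),(85,2)]),
(94,[(18,0),(33,0),(35,0),(43,0),(84,0)]),
(1,[(18,0),(34,4),(70,5),(82,1),(86,6)]),
(47,[(18,0),(37,4),(52,6),(58,5),(81,2)]),
(56,[(18,0),(38,1),(58,6),(81,5),(86,2)]),
(8,[(18,0),(39,5),(45,2),(55,1),(97,3)]),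
(84,[(18,0),(39,1),(40,2),(78,4),(85,5)]),
(48,[(18,0),(39,4),(40,3),(74,2),(75,5)]),
(52,[(18,0),(40,4),(69,1),(75,3),(76,5)]),
(90,[(18,0),(41,0),(48,0),(56,0),(88,0)])]

def Q796x13 : List (ℕ × List (ℕ × ℕ)) := [
(53,[(18,0),(41,3),(53,6),(54,1),(92,4)]),
(55,[(18,0),(41,6),(46,3),(53,1),(98,2)]),
(58,[(18,0),(48,6),(61,4),(66,1),(88,5)]),
(45,[(18,0),(49,3),(62,5),(83,2),(89,1)]),
(32,[(18,0),(50,4),(56,1),(89,6),(92,5)]),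
(79,[(18,0),(55,6),(65,2),(81,1),(86,4)]),
(28,[(18,0),(60,3),(74,5),(77,2),(81,6)]),
(80,[(19,0),(20,1),(48,6),(58,3),(65,4)]),
(45,[(19,0),(20,6),(48,3),(55,1),(79,5)]),
(31,[(19,0),(20,4),(28,2),(31,1),(57,3)]),
(73,[(19,0),(21,3),(51,5),(62,6),(65,2)]),
(11,[(19,0),(21,6),(32,5),(60,3),(79,2)]),
(22,[(19,0),(21,2),(61,6),(78,4),(81,5)]),
(24,[(19,0),(22,1),(27,2),(80,3),(87,5)]),
(32,[(19,0),(22,6),(30,5),(36,2),(98,1)]),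
(95,[(19,0),(23,0),(54,0),(64,0),(98,0)]),
(3,[(19,0),(23,5),(32,4),(66,3),(75,6)]),
(64,[(19,0),(23,6),(85,5),(92,3),(99,4)]),
(25,[(19,0),(23,4),(27,1),(36,3),(80,5)]),
(43,[(19,0),(24,5),(34,3),(77,6),(85,2)]),
(76,[(19,0),(24,3),(28,1),(43,5),(76,6)]),
(56,[(19,0),(24,4),(41,1),(71,3),(76,2)]),
(38,[(19,0),(25,5),(39,3),(91,2),(92,1)]),
(13,[(19,0),(25,1),(72,3),(84,5),(86,4)]),
(52,[(19,0),(25,2),(26,4),(68,6),(90,3)]),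
(0,[(19,0),(26,3),(30,1),(62,2),(78,6)]),
(14,[(19,0),(26,2),(33,1),(61,4),(97,5)]),
(5,[(19,0),(27,5),(56,2),(67,6),(85,4)]),
(15,[(19,0),(27,4),(41,5),(80,6),(93,3)]),
(1,[(19,0),(28,3),(67,4),(71,2),(80,1)]),
(41,[(19,0),(29,4),(34,2),(62,3),(70,6)]),
(89,[(19,0),(30,3),(32,1),(50,2),(54,4)]),
(2,[(19,0),(30,4),(71,5),(83,1),(87,6)]),
(20,[(19,0),(31,5),(39,6),(54,3),(72,1)]),
(6,[(19,0),(31,2),(52,6),(84,1),(98,4)]),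
(90,[(19,0),(32,0),(52,0),(68,0),(93,0)]),
(10,[(19,0),(33,6),(50,3),(73,4),(86,2)]),
(94,[(19,0),(34,0),(36,0),(44,0),(85,0)]),
(7,[(19,0),(35,5),(46,2),(56,1),(98,3)]),
(81,[(19,0),(35,1),(41,2),(79,4),(86,5)]),
(49,[(19,0),(35,4),(41,3),(70,2),(76,5)]),
(48,[(19,0),(38,4),(53,6),(59,5),(82,2)]),
(58,[(19,0),(39,1),(59,6),(82,5),(87,2)]),
(54,[(19,0),(41,4),(65,1),(76,3),(77,5)]),
(91,[(19,0),(42,0),(49,0),(57,0),(89,0)]),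
(50,[(19,0),(42,3),(50,1),(54,6),(93,4)]),
(57,[(19,0),(42,6),(47,3),(54,1),(99,2)]),
(46,[(19,0),(45,3),(63,5),(84,2),(85,1)]),
(55,[(19,0),(49,6),(62,4),(67,1),(89,5)]),
(33,[(19,0),(51,4),(57,1),(85,6),(93,5)]),
(75,[(19,0),(56,6),(66,2),(82,1),(87,4)]),
(28,[(19,0),(61,3),(70,5),(78,2),(82,6)]),
(89,[(20,0),(21,5),(60,3),(76,6),(78,4)]),
(35,[(20,0),(21,6),(59,3),(68,1),(98,5)]),
(51,[(20,0),(21,2),(39,5),(60,1),(88,4)]),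
(85,[(20,0),(22,5),(34,4),(90,6),(94,1)]),
(86,[(20,0),(23,2),(32,6),(92,3),(93,1)]),
(54,[(20,0),(24,5),(38,3),(64,6),(87,2)]),
(36,[(20,0),(24,1),(58,4),(67,2),(97,6)]),
(87,[(20,0),(24,2),(64,5),(75,1),(77,6)]),
(59,[(20,0),(25,6),(68,4),(73,1),(90,5)]),
(49,[(20,0),(26,3),(69,5),(85,2),(91,1)]),
(90,[(20,0),(27,0),(66,0),(79,0),(87,0)]),
(7,[(20,0),(27,2),(41,5),(62,1),(79,3)]),
(56,[(20,0),(28,3),(48,6),(55,1),(75,2)]),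
(40,[(20,0),(30,4),(35,2),(51,6),(68,3)]),
(38,[(20,0),(31,5),(40,3),(97,2),(98,1)]),
(12,[(20,0),(31,1),(53,3),(85,5),(92,4)]),
(50,[(20,0),(31,2),(32,4),(74,6),(96,3)]),
(1,[(20,0),(32,3),(36,1),(68,2),(84,6)]),
(13,[(20,0),(32,2),(39,1),(67,4),(78,5)]),
(91,[(20,0),(33,0),(53,0),(69,0),(94,0)]),
(5,[(20,0),(33,5),(62,2),(73,6),(91,4)]),
(16,[(20,0),(33,4),(47,5),(86,6),(99,3)]),
(2,[(20,0),(34,3),(52,2),(73,4),(86,1)]),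
(93,[(20,0),(36,0),(56,0),(81,0),(93,0)]),
(88,[(20,0),(36,3),(38,1),(55,4),(56,2)]),
(3,[(20,0),(36,4),(52,5),(89,1),(93,6)]),
(20,[(20,0),(37,5),(40,6),(53,1),(55,3)]),
(6,[(20,0),(37,2),(58,6),(79,4),(85,1)]),
(14,[(20,0),(39,6),(54,4),(56,3),(92,2)]),
(57,[(20,0),(40,1),(60,6),(88,5),(93,2)]),
(84,[(20,0),(41,1),(47,2),(80,4),(92,5)]),
(47,[(20,0),(41,4),(47,3),(51,2),(82,5)]),
(46,[(20,0),(44,4),(59,6),(60,5),(88,2)]),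
(52,[(20,0),(47,4),(71,1),(82,3),(83,5)]),
(53,[(20,0),(48,3),(55,6),(56,1),(99,4)]),
(27,[(20,0),(51,5),(67,3),(84,2),(88,6)]),
(34,[(20,0),(57,4),(63,1),(91,6),(99,5)]),
(78,[(20,0),(62,6),(72,2),(88,1),(93,4)]),
(95,[(20,0),(67,0),(73,0),(78,0),(96,0)]),
(86,[(21,0),(22,5),(61,3),(77,6),(79,4)]),
(39,[(21,0),(22,6),(55,3),(69,1),(99,5)]),
(53,[(21,0),(22,2),(35,5),(61,1),(89,4)]),
(87,[(21,0),(23,5),(30,4),(90,1),(91,6)]),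
(88,[(21,0),(24,2),(33,6),(93,3),(94,1)]),
(95,[(21,0),(25,0),(49,0),(56,0),(66,0)]),
(56,[(21,0),(26,6),(69,4),(74,1),(91,5)]),
(45,[(21,0),(27,3),(65,5),(86,2),(92,1)]),
(91,[(21,0),(28,0),(67,0),(80,0),(88,0)])]

def Q796x14 : List (ℕ × List (ℕ × ℕ)) := [
(6,[(21,0),(28,2),(42,5),(63,1),(75,3)]),
(58,[(21,0),(29,3),(49,6),(56,1),(76,2)]),
(3,[(21,0),(30,3),(53,2),(74,4),(87,1)]),
(40,[(21,0),(31,4),(36,2),(52,6),(69,3)]),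
(37,[(21,0),(32,5),(41,3),(98,2),(99,1)]),
(12,[(21,0),(32,1),(54,3),(86,5),(93,4)]),
(52,[(21,0),(32,2),(33,4),(70,6),(97,3)]),
(2,[(21,0),(33,3),(37,1),(69,2),(80,6)]),
(13,[(21,0),(33,2),(35,1),(68,4),(79,5)]),
(9,[(21,0),(34,5),(63,2),(74,6),(92,4)]),
(17,[(21,0),(34,4),(48,5),(87,6),(95,3)]),
(14,[(21,0),(35,6),(50,4),(57,3),(93,2)]),
(85,[(21,0),(37,3),(39,1),(56,4),(57,2)]),
(4,[(21,0),(37,4),(53,5),(85,1),(94,6)]),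
(24,[(21,0),(38,5),(41,6),(54,1),(56,3)]),
(5,[(21,0),(38,2),(59,6),(75,4),(86,1)]),
(47,[(21,0),(40,4),(55,6),(61,5),(89,2)]),
(59,[(21,0),(41,1),(61,6),(89,5),(94,2)]),
(81,[(21,0),(42,1),(48,2),(81,4),(93,5)]),
(48,[(21,0),(42,4),(48,3),(52,2),(83,5)]),
(92,[(21,0),(44,0),(51,0),(59,0),(91,0)]),
(54,[(21,0),(48,4),(72,1),(83,3),(84,5)]),
(50,[(21,0),(49,3),(56,6),(57,1),(95,4)]),
(27,[(21,0),(52,5),(68,3),(80,2),(89,6)]),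
(30,[(21,0),(58,4),(64,1),(92,6),(95,5)]),
(79,[(21,0),(63,6),(73,2),(89,1),(94,4)]),
(93,[(22,0),(23,0),(25,0),(33,0),(73,0)]),
(88,[(22,0),(23,5),(62,3),(75,4),(78,6)]),
(38,[(22,0),(23,6),(56,3),(65,1),(95,5)]),
(50,[(22,0),(23,2),(36,5),(62,1),(85,4)]),
(89,[(22,0),(24,5),(31,4),(91,1),(92,6)]),
(55,[(22,0),(25,3),(45,6),(57,1),(77,2)]),
(58,[(22,0),(27,6),(65,4),(70,1),(92,5)]),
(46,[(22,0),(28,3),(66,5),(87,2),(93,1)]),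
(5,[(22,0),(29,2),(43,5),(64,1),(76,3)]),
(8,[(22,0),(30,5),(64,2),(70,6),(93,4)]),
(18,[(22,0),(30,4),(49,5),(88,6),(96,3)]),
(95,[(22,0),(31,0),(42,0),(85,0),(86,0)]),
(4,[(22,0),(31,3),(54,2),(70,4),(88,1)]),
(40,[(22,0),(32,4),(37,2),(53,6),(65,3)]),
(36,[(22,0),(33,5),(42,3),(95,1),(99,2)]),
(12,[(22,0),(33,1),(50,3),(87,5),(94,4)]),
(54,[(22,0),(33,2),(34,4),(71,6),(98,3)]),
(92,[(22,0),(34,0),(55,0),(71,0),(96,0)]),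
(3,[(22,0),(34,3),(38,1),(65,2),(81,6)]),
(13,[(22,0),(34,2),(36,1),(69,4),(75,5)]),
(87,[(22,0),(35,1),(38,3),(57,4),(58,2)]),
(14,[(22,0),(36,6),(51,4),(58,3),(94,2)]),
(0,[(22,0),(38,4),(54,5),(86,1),(90,6)]),
(23,[(22,0),(39,5),(42,6),(50,1),(57,3)]),
(9,[(22,0),(39,2),(55,6),(76,4),(87,1)]),
(48,[(22,0),(41,4),(56,6),(62,5),(85,2)]),
(56,[(22,0),(42,1),(62,6),(85,5),(90,2)]),
(83,[(22,0),(43,1),(49,2),(82,4),(94,5)]),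
(49,[(22,0),(43,4),(49,3),(53,2),(84,5)]),
(52,[(22,0),(45,3),(57,6),(58,1),(96,4)]),
(51,[(22,0),(49,4),(73,1),(80,5),(84,3)]),
(27,[(22,0),(53,5),(69,3),(81,2),(85,6)]),
(31,[(22,0),(59,4),(60,1),(93,6),(96,5)]),
(75,[(22,0),(64,6),(74,2),(85,1),(90,4)]),
(85,[(23,0),(24,5),(63,3),(76,4),(79,6)]),
(37,[(23,0),(24,6),(57,3),(66,1),(96,5)]),
(52,[(23,0),(24,2),(37,5),(63,1),(86,4)]),
(9,[(23,0),(25,2),(44,5),(60,1),(77,3)]),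
(57,[(23,0),(26,3),(46,6),(58,1),(78,2)]),
(55,[(23,0),(28,6),(66,4),(71,1),(93,5)]),
(47,[(23,0),(29,3),(67,5),(88,2),(94,1)]),
(92,[(23,0),(30,0),(69,0),(82,0),(90,0)]),
(4,[(23,0),(30,3),(39,1),(66,2),(82,6)]),
(51,[(23,0),(30,4),(34,2),(72,6),(99,3)]),
(13,[(23,0),(30,2),(37,1),(65,4),(76,5)]),
(7,[(23,0),(31,5),(60,2),(71,6),(94,4)]),
(19,[(23,0),(31,4),(45,5),(89,6),(97,3)]),
(0,[(23,0),(32,3),(50,2),(71,4),(89,1)]),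
(40,[(23,0),(33,4),(38,2),(54,6),(66,3)]),
(35,[(23,0),(34,5),(43,3),(95,2),(96,1)]),
(12,[(23,0),(34,1),(51,3),(88,5),(90,4)]),
(22,[(23,0),(35,5),(43,6),(51,1),(58,3)]),
(8,[(23,0),(35,2),(56,6),(77,4),(88,1)]),
(89,[(23,0),(36,1),(39,3),(58,4),(59,2)]),
(90,[(23,0),(37,0),(38,0),(40,0),(89,0)]),
(14,[(23,0),(37,6),(52,4),(59,3),(90,2)]),
(1,[(23,0),(39,4),(50,5),(87,1),(91,6)]),
(49,[(23,0),(42,4),(57,6),(63,5),(86,2)]),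
(58,[(23,0),(43,1),(63,6),(86,5),(91,2)]),
(80,[(23,0),(44,1),(45,2),(83,4),(90,5)]),
(45,[(23,0),(44,4),(45,3),(54,2),(80,5)]),
(53,[(23,0),(45,4),(74,1),(80,3),(81,5)]),
(54,[(23,0),(46,3),(58,6),(59,1),(97,4)]),
(27,[(23,0),(54,5),(65,3),(82,2),(86,6)]),
(32,[(23,0),(55,4),(61,1),(94,6),(97,5)]),
(76,[(23,0),(60,6),(70,2),(86,1),(91,4)]),
(48,[(24,0),(25,3),(68,5),(89,2),(90,1)]),
(8,[(24,0),(26,2),(40,5),(61,1),(78,3)]),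
(59,[(24,0),(27,3),(47,6),(59,1),(79,2)]),
(90,[(24,0),(29,0),(42,0),(58,0),(61,0)]),
(57,[(24,0),(29,6),(67,4),(72,1),(94,5)]),
(39,[(24,0),(30,5),(44,3),(96,2),(97,1)]),
(12,[(24,0),(30,1),(52,3),(89,5),(91,4)]),
(53,[(24,0),(30,2),(31,4),(73,6),(95,3)])]

def Q796x15 : List (ℕ × List (ℕ × ℕ)) := [
(0,[(24,0),(31,3),(35,1),(67,2),(83,6)]),
(13,[(24,0),(31,2),(38,1),(66,4),(77,5)]),
(6,[(24,0),(32,5),(61,2),(72,6),(90,4)]),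
(15,[(24,0),(32,4),(46,5),(85,6),(98,3)]),
(1,[(24,0),(33,3),(51,2),(72,4),(85,1)]),
(40,[(24,0),(34,4),(39,2),(50,6),(67,3)]),
(86,[(24,0),(35,3),(37,1),(55,2),(59,4)]),
(2,[(24,0),(35,4),(51,5),(88,1),(92,6)]),
(21,[(24,0),(36,5),(44,6),(52,1),(59,3)]),
(7,[(24,0),(36,2),(57,6),(78,4),(89,1)]),
(91,[(24,0),(38,0),(39,0),(41,0),(90,0)]),
(14,[(24,0),(38,6),(53,4),(55,3),(91,2)]),
(82,[(24,0),(40,1),(46,2),(84,4),(91,5)]),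
(46,[(24,0),(40,4),(46,3),(50,2),(81,5)]),
(45,[(24,0),(43,4),(58,6),(64,5),(87,2)]),
(55,[(24,0),(44,1),(64,6),(87,5),(92,2)]),
(93,[(24,0),(46,0),(68,0),(80,0),(96,0)]),
(50,[(24,0),(46,4),(70,1),(81,3),(82,5)]),
(51,[(24,0),(47,3),(55,1),(59,6),(98,4)]),
(27,[(24,0),(50,5),(66,3),(83,2),(87,6)]),
(95,[(24,0),(51,0),(71,0),(77,0),(82,0)]),
(33,[(24,0),(56,4),(62,1),(90,6),(98,5)]),
(77,[(24,0),(61,6),(71,2),(87,1),(92,4)]),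
(86,[(25,0),(26,5),(56,6),(58,4),(90,3)]),
(36,[(25,0),(26,6),(53,5),(89,3),(98,1)]),
(37,[(25,0),(29,1),(52,6),(88,4),(97,2)]),
(89,[(25,0),(29,2),(55,1),(57,6),(94,5)]),
(91,[(25,0),(30,0),(43,0),(59,0),(62,0)]),
(60,[(25,0),(32,5),(39,6),(59,2),(63,1)]),
(74,[(25,0),(32,3),(76,2),(87,5),(98,6)]),
(61,[(25,0),(32,1),(48,2),(52,4),(56,3)]),
(23,[(25,0),(32,2),(64,4),(67,5),(97,6)]),
(70,[(25,0),(33,3),(44,6),(82,1),(89,4)]),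
(64,[(25,0),(34,6),(53,3),(55,4),(71,5)]),
(72,[(25,0),(36,3),(47,4),(79,5),(81,1)]),
(71,[(25,0),(36,1),(44,4),(93,2),(95,5)]),
(83,[(25,0),(37,1),(65,3),(86,4),(92,5)]),
(43,[(25,0),(38,3),(67,1),(72,6),(82,4)]),
(15,[(25,0),(38,4),(64,1),(86,6),(97,5)]),
(62,[(25,0),(41,1),(48,6),(54,2),(70,3)]),
(17,[(25,0),(42,3),(51,4),(78,2),(89,1)]),
(40,[(25,0),(42,4),(59,5),(64,3),(99,1)]),
(82,[(25,0),(43,6),(58,2),(79,3),(80,4)]),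
(94,[(25,0),(45,0),(50,0),(88,0),(89,0)]),
(63,[(25,0),(46,1),(51,5),(67,6),(74,4)]),
(24,[(25,0),(48,5),(57,2),(60,3),(90,4)]),
(73,[(25,0),(48,4),(80,2),(91,3),(99,6)]),
(34,[(25,0),(54,5),(71,6),(87,4),(93,1)]),
(26,[(25,0),(64,2),(68,6),(81,5),(97,3)]),
(75,[(25,0),(68,1),(73,4),(77,2),(92,6)]),
(88,[(26,0),(27,5),(57,6),(59,4),(91,3)]),
(35,[(26,0),(27,6),(54,5),(85,3),(99,1)]),
(60,[(26,0),(30,6),(54,3),(56,4),(72,5)]),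
(61,[(26,0),(33,5),(35,6),(55,2),(64,1)]),
(71,[(26,0),(33,3),(77,2),(88,5),(99,6)]),
(62,[(26,0),(33,1),(49,2),(53,4),(57,3)]),
(22,[(26,0),(33,2),(60,4),(68,5),(98,6)]),
(72,[(26,0),(34,3),(40,6),(83,1),(85,4)]),
(74,[(26,0),(37,3),(48,4),(75,5),(82,1)]),
(73,[(26,0),(37,1),(40,4),(94,2),(96,5)]),
(80,[(26,0),(38,1),(66,3),(87,4),(93,5)]),
(43,[(26,0),(39,3),(68,1),(73,6),(83,4)]),
(16,[(26,0),(39,4),(60,1),(87,6),(98,5)]),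
(92,[(26,0),(40,0),(41,0),(43,0),(92,0)]),
(63,[(26,0),(42,1),(49,6),(50,2),(71,3)]),
(18,[(26,0),(43,3),(52,4),(79,2),(85,1)]),
(40,[(26,0),(43,4),(55,5),(60,3),(95,1)]),
(84,[(26,0),(44,6),(59,2),(75,3),(81,4)]),
(64,[(26,0),(47,1),(52,5),(68,6),(70,4)]),
(23,[(26,0),(49,5),(58,2),(61,3),(91,4)]),
(70,[(26,0),(49,4),(81,2),(92,3),(95,6)]),
(30,[(26,0),(50,5),(72,6),(88,4),(94,1)]),
(26,[(26,0),(60,2),(69,6),(82,5),(98,3)]),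
(76,[(26,0),(69,1),(74,4),(78,2),(93,6)]),
(85,[(27,0),(28,5),(55,4),(58,6),(92,3)]),
(39,[(27,0),(28,6),(50,5),(86,3),(95,1)]),
(74,[(27,0),(30,3),(41,6),(84,1),(86,4)]),
(61,[(27,0),(31,6),(50,3),(57,4),(73,5)]),
(92,[(27,0),(32,0),(45,0),(61,0),(64,0)]),
(62,[(27,0),(34,5),(36,6),(56,2),(60,1)]),
(73,[(27,0),(34,3),(78,2),(89,5),(95,6)]),
(63,[(27,0),(34,1),(45,2),(54,4),(58,3)]),
(21,[(27,0),(34,2),(61,4),(69,5),(99,6)]),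
(43,[(27,0),(35,3),(69,1),(74,6),(84,4)]),
(17,[(27,0),(35,4),(61,1),(88,6),(99,5)]),
(71,[(27,0),(38,3),(49,4),(76,5),(83,1)]),
(70,[(27,0),(38,1),(41,4),(90,2),(97,5)]),
(82,[(27,0),(39,1),(67,3),(88,4),(94,5)]),
(81,[(27,0),(40,6),(55,2),(76,3),(82,4)]),
(64,[(27,0),(43,1),(45,6),(51,2),(72,3)]),
(19,[(27,0),(44,3),(53,4),(75,2),(86,1)]),
(40,[(27,0),(44,4),(56,5),(61,3),(96,1)]),
(22,[(27,0),(45,5),(59,2),(62,3),(92,4)]),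
(72,[(27,0),(45,4),(82,2),(93,3),(96,6)]),
(60,[(27,0),(48,1),(53,5),(69,6),(71,4)]),
(31,[(27,0),(51,5),(73,6),(89,4),(90,1)]),
(26,[(27,0),(61,2),(65,6),(83,5),(99,3)]),
(77,[(27,0),(65,1),(70,4),(79,2),(94,6)]),
(87,[(28,0),(29,5),(56,4),(59,6),(93,3)]),
(38,[(28,0),(29,6),(51,5),(87,3),(96,1)])]

def Q796x16 : List (ℕ × List (ℕ × ℕ)) := [
(63,[(28,0),(30,5),(37,6),(57,2),(61,1)]),
(70,[(28,0),(30,3),(79,2),(85,5),(96,6)]),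
(64,[(28,0),(30,1),(46,2),(50,4),(59,3)]),
(20,[(28,0),(30,2),(62,4),(65,5),(95,6)]),
(71,[(28,0),(31,3),(42,6),(80,1),(87,4)]),
(62,[(28,0),(32,6),(51,3),(58,4),(74,5)]),
(84,[(28,0),(35,1),(68,3),(89,4),(90,5)]),
(90,[(28,0),(36,0),(53,0),(91,0),(92,0)]),
(43,[(28,0),(36,3),(65,1),(70,6),(80,4)]),
(18,[(28,0),(36,4),(62,1),(89,6),(95,5)]),
(73,[(28,0),(39,3),(45,4),(77,5),(84,1)]),
(72,[(28,0),(39,1),(42,4),(91,2),(98,5)]),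
(15,[(28,0),(40,3),(54,4),(76,2),(87,1)]),
(40,[(28,0),(40,4),(57,5),(62,3),(97,1)]),
(83,[(28,0),(41,6),(56,2),(77,3),(83,4)]),
(60,[(28,0),(44,1),(46,6),(52,2),(73,3)]),
(21,[(28,0),(46,5),(55,2),(63,3),(93,4)]),
(74,[(28,0),(46,4),(83,2),(94,3),(97,6)]),
(61,[(28,0),(49,1),(54,5),(65,6),(72,4)]),
(32,[(28,0),(52,5),(74,6),(85,4),(91,1)]),
(26,[(28,0),(62,2),(66,6),(84,5),(95,3)]),
(78,[(28,0),(66,1),(71,4),(75,2),(90,6)]),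
(64,[(29,0),(31,5),(38,6),(58,2),(62,1)]),
(72,[(29,0),(31,3),(75,2),(86,5),(97,6)]),
(60,[(29,0),(31,1),(47,2),(51,4),(55,3)]),
(24,[(29,0),(31,2),(63,4),(66,5),(96,6)]),
(73,[(29,0),(32,3),(43,6),(81,1),(88,4)]),
(63,[(29,0),(33,6),(52,3),(59,4),(70,5)]),
(70,[(29,0),(35,3),(46,4),(78,5),(80,1)]),
(74,[(29,0),(35,1),(43,4),(92,2),(99,5)]),
(81,[(29,0),(36,1),(69,3),(85,4),(91,5)]),
(91,[(29,0),(37,0),(54,0),(92,0),(93,0)]),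
(43,[(29,0),(37,3),(66,1),(71,6),(81,4)]),
(19,[(29,0),(37,4),(63,1),(85,6),(96,5)]),
(61,[(29,0),(40,1),(47,6),(53,2),(74,3)]),
(16,[(29,0),(41,3),(50,4),(77,2),(88,1)]),
(40,[(29,0),(41,4),(58,5),(63,3),(98,1)]),
(80,[(29,0),(42,6),(57,2),(78,3),(84,4)]),
(62,[(29,0),(45,1),(50,5),(66,6),(73,4)]),
(20,[(29,0),(47,5),(56,2),(64,3),(94,4)]),
(71,[(29,0),(47,4),(84,2),(90,3),(98,6)]),
(33,[(29,0),(53,5),(70,6),(86,4),(92,1)]),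
(26,[(29,0),(63,2),(67,6),(80,5),(96,3)]),
(79,[(29,0),(67,1),(72,4),(76,2),(91,6)]),
(88,[(30,0),(31,5),(61,6),(63,4),(95,3)]),
(37,[(30,0),(31,6),(58,5),(78,1),(94,3)]),
(38,[(30,0),(34,1),(57,6),(77,2),(93,4)]),
(86,[(30,0),(34,2),(60,1),(62,6),(99,5)]),
(62,[(30,0),(37,5),(44,6),(64,2),(68,1)]),
(71,[(30,0),(37,3),(78,6),(81,2),(92,5)]),
(24,[(30,0),(37,2),(69,4),(72,5),(77,6)]),
(72,[(30,0),(38,3),(49,6),(87,1),(94,4)]),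
(61,[(30,0),(39,6),(51,5),(58,3),(60,4)]),
(73,[(30,0),(41,1),(49,4),(75,5),(98,2)]),
(93,[(30,0),(42,0),(51,0),(63,0),(79,0)]),
(84,[(30,0),(42,1),(70,3),(91,4),(97,5)]),
(42,[(30,0),(43,3),(52,6),(72,1),(87,4)]),
(15,[(30,0),(43,4),(69,1),(77,5),(91,6)]),
(17,[(30,0),(47,3),(56,4),(83,2),(94,1)]),
(44,[(30,0),(47,4),(64,5),(69,3),(79,1)]),
(83,[(30,0),(48,6),(63,2),(84,3),(85,4)]),
(34,[(30,0),(51,6),(59,5),(92,4),(98,1)]),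
(77,[(30,0),(53,4),(73,1),(82,2),(97,6)]),
(94,[(30,0),(56,0),(58,0),(65,0),(75,0)]),
(25,[(30,0),(69,2),(73,6),(77,3),(86,5)]),
(85,[(31,0),(32,5),(62,6),(64,4),(96,3)]),
(36,[(31,0),(32,6),(59,5),(79,1),(90,3)]),
(62,[(31,0),(35,6),(52,5),(59,3),(61,4)]),
(93,[(31,0),(37,0),(77,0),(90,0),(98,0)]),
(63,[(31,0),(38,5),(40,6),(60,2),(69,1)]),
(73,[(31,0),(38,3),(79,6),(82,2),(93,5)]),
(23,[(31,0),(38,2),(65,4),(73,5),(78,6)]),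
(92,[(31,0),(39,0),(56,0),(94,0),(95,0)]),
(74,[(31,0),(39,3),(45,6),(88,1),(90,4)]),
(70,[(31,0),(42,1),(45,4),(76,5),(99,2)]),
(81,[(31,0),(43,1),(71,3),(92,4),(98,5)]),
(42,[(31,0),(44,3),(53,6),(73,1),(88,4)]),
(16,[(31,0),(44,4),(65,1),(78,5),(92,6)]),
(18,[(31,0),(48,3),(57,4),(84,2),(90,1)]),
(44,[(31,0),(48,4),(60,5),(65,3),(75,1)]),
(80,[(31,0),(49,6),(64,2),(80,3),(86,4)]),
(30,[(31,0),(52,6),(55,5),(93,4),(99,1)]),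
(78,[(31,0),(54,4),(74,1),(83,2),(98,6)]),
(25,[(31,0),(65,2),(74,6),(78,3),(87,5)]),
(87,[(32,0),(33,5),(60,4),(63,6),(97,3)]),
(35,[(32,0),(33,6),(55,5),(75,1),(91,3)]),
(71,[(32,0),(35,3),(46,6),(89,1),(91,4)]),
(63,[(32,0),(36,6),(53,5),(55,3),(62,4)]),
(64,[(32,0),(39,5),(41,6),(61,2),(65,1)]),
(70,[(32,0),(39,3),(75,6),(83,2),(94,5)]),
(22,[(32,0),(39,2),(66,4),(74,5),(79,6)]),
(42,[(32,0),(40,3),(54,6),(74,1),(89,4)]),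
(17,[(32,0),(40,4),(66,1),(79,5),(93,6)]),
(72,[(32,0),(43,1),(46,4),(77,5),(95,2)]),
(83,[(32,0),(44,1),(72,3),(93,4),(99,5)]),
(82,[(32,0),(45,6),(60,2),(81,3),(87,4)]),
(19,[(32,0),(49,3),(58,4),(80,2),(91,1)]),
(44,[(32,0),(49,4),(61,5),(66,3),(76,1)]),
(79,[(32,0),(50,4),(70,1),(84,2),(99,6)]),
(31,[(32,0),(53,6),(56,5),(94,4),(95,1)])]

def Q796x17 : List (ℕ × List (ℕ × ℕ)) := [
(25,[(32,0),(66,2),(70,6),(79,3),(88,5)]),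
(89,[(33,0),(34,5),(61,4),(64,6),(98,3)]),
(39,[(33,0),(34,6),(56,5),(76,1),(92,3)]),
(60,[(33,0),(35,5),(42,6),(62,2),(66,1)]),
(72,[(33,0),(35,3),(76,6),(84,2),(90,5)]),
(21,[(33,0),(35,2),(67,4),(70,5),(75,6)]),
(73,[(33,0),(36,3),(47,6),(85,1),(92,4)]),
(64,[(33,0),(37,6),(54,5),(56,3),(63,4)]),
(80,[(33,0),(40,1),(73,3),(94,4),(95,5)]),
(42,[(33,0),(41,3),(50,6),(70,1),(85,4)]),
(18,[(33,0),(41,4),(67,1),(75,5),(94,6)]),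
(74,[(33,0),(44,1),(47,4),(78,5),(96,2)]),
(15,[(33,0),(45,3),(59,4),(81,2),(92,1)]),
(44,[(33,0),(45,4),(62,5),(67,3),(77,1)]),
(84,[(33,0),(46,6),(61,2),(82,3),(88,4)]),
(75,[(33,0),(51,4),(71,1),(80,2),(95,6)]),
(32,[(33,0),(54,6),(57,5),(90,4),(96,1)]),
(25,[(33,0),(67,2),(71,6),(75,3),(89,5)]),
(61,[(34,0),(36,5),(43,6),(63,2),(67,1)]),
(74,[(34,0),(36,3),(77,6),(80,2),(91,5)]),
(20,[(34,0),(36,2),(68,4),(71,5),(76,6)]),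
(70,[(34,0),(37,3),(48,6),(86,1),(93,4)]),
(60,[(34,0),(38,6),(50,5),(57,3),(64,4)]),
(71,[(34,0),(40,1),(48,4),(79,5),(97,2)]),
(82,[(34,0),(41,1),(74,3),(90,4),(96,5)]),
(42,[(34,0),(42,3),(51,6),(71,1),(86,4)]),
(19,[(34,0),(42,4),(68,1),(76,5),(90,6)]),
(16,[(34,0),(46,3),(55,4),(82,2),(93,1)]),
(44,[(34,0),(46,4),(63,5),(68,3),(78,1)]),
(81,[(34,0),(47,6),(62,2),(83,3),(89,4)]),
(33,[(34,0),(50,6),(58,5),(91,4),(97,1)]),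
(76,[(34,0),(52,4),(72,1),(81,2),(96,6)]),
(25,[(34,0),(68,2),(72,6),(76,3),(85,5)]),
(85,[(35,0),(36,5),(66,6),(68,4),(75,3)]),
(38,[(35,0),(36,6),(63,5),(83,1),(99,3)]),
(39,[(35,0),(39,1),(62,6),(82,2),(98,4)]),
(88,[(35,0),(39,2),(65,1),(67,6),(79,5)]),
(64,[(35,0),(42,5),(49,6),(69,2),(73,1)]),
(73,[(35,0),(42,3),(83,6),(86,2),(97,5)]),
(20,[(35,0),(42,2),(52,5),(74,4),(82,6)]),
(63,[(35,0),(44,6),(56,5),(63,3),(65,4)]),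
(80,[(35,0),(47,1),(50,3),(77,5),(96,4)]),
(41,[(35,0),(48,3),(52,1),(57,6),(92,4)]),
(15,[(35,0),(48,4),(74,1),(82,5),(96,6)]),
(79,[(35,0),(53,1),(58,4),(77,6),(87,2)]),
(29,[(35,0),(53,6),(74,2),(82,3),(91,5)]),
(34,[(35,0),(56,6),(64,5),(78,1),(97,4)]),
(87,[(36,0),(37,5),(67,6),(69,4),(76,3)]),
(37,[(36,0),(37,6),(64,5),(84,1),(95,3)]),
(64,[(36,0),(40,6),(57,5),(64,3),(66,4)]),
(60,[(36,0),(43,5),(45,6),(65,2),(74,1)]),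
(70,[(36,0),(43,3),(84,6),(87,2),(98,5)]),
(24,[(36,0),(43,2),(53,5),(70,4),(83,6)]),
(82,[(36,0),(48,1),(51,3),(78,5),(97,4)]),
(41,[(36,0),(49,3),(53,1),(58,6),(93,4)]),
(16,[(36,0),(49,4),(70,1),(83,5),(97,6)]),
(75,[(36,0),(54,1),(59,4),(78,6),(88,2)]),
(29,[(36,0),(54,6),(70,2),(83,3),(92,5)]),
(30,[(36,0),(57,6),(60,5),(79,1),(98,4)]),
(89,[(37,0),(38,5),(65,4),(68,6),(77,3)]),
(36,[(37,0),(38,6),(60,5),(80,1),(96,3)]),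
(60,[(37,0),(41,6),(58,5),(60,3),(67,4)]),
(61,[(37,0),(44,5),(46,6),(66,2),(70,1)]),
(72,[(37,0),(44,3),(80,6),(88,2),(99,5)]),
(23,[(37,0),(44,2),(54,5),(71,4),(84,6)]),
(41,[(37,0),(45,3),(54,1),(59,6),(94,4)]),
(17,[(37,0),(45,4),(71,1),(84,5),(98,6)]),
(84,[(37,0),(49,1),(52,3),(79,5),(98,4)]),
(76,[(37,0),(50,1),(55,4),(79,6),(89,2)]),
(29,[(37,0),(50,6),(71,2),(84,3),(93,5)]),
(31,[(37,0),(58,6),(61,5),(75,1),(99,4)]),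
(94,[(37,0),(60,0),(62,0),(69,0),(79,0)]),
(86,[(38,0),(39,5),(66,4),(69,6),(78,3)]),
(35,[(38,0),(39,6),(61,5),(81,1),(97,3)]),
(62,[(38,0),(40,5),(47,6),(67,2),(71,1)]),
(74,[(38,0),(40,3),(81,6),(89,2),(95,5)]),
(22,[(38,0),(40,2),(50,5),(72,4),(80,6)]),
(61,[(38,0),(42,6),(59,5),(61,3),(68,4)]),
(81,[(38,0),(45,1),(53,3),(75,5),(99,4)]),
(41,[(38,0),(46,3),(50,1),(55,6),(90,4)]),
(18,[(38,0),(46,4),(72,1),(80,5),(99,6)]),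
(93,[(38,0),(47,0),(49,0),(50,0),(64,0)]),
(77,[(38,0),(51,1),(56,4),(75,6),(85,2)]),
(29,[(38,0),(51,6),(72,2),(80,3),(94,5)]),
(32,[(38,0),(59,6),(62,5),(76,1),(95,4)]),
(63,[(39,0),(41,5),(48,6),(68,2),(72,1)]),
(71,[(39,0),(41,3),(82,6),(85,2),(96,5)]),
(21,[(39,0),(41,2),(51,5),(73,4),(81,6)]),
(62,[(39,0),(43,6),(55,5),(62,3),(69,4)]),
(83,[(39,0),(46,1),(54,3),(76,5),(95,4)]),
(41,[(39,0),(47,3),(51,1),(56,6),(91,4)]),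
(19,[(39,0),(47,4),(73,1),(81,5),(95,6)]),
(78,[(39,0),(52,1),(57,4),(76,6),(86,2)]),
(29,[(39,0),(52,6),(73,2),(81,3),(90,5)]),
(33,[(39,0),(55,6),(63,5),(77,1),(96,4)]),
(87,[(40,0),(41,5),(71,6),(73,4),(80,3)]),
(39,[(40,0),(41,6),(68,5),(79,3),(88,1)]),
(35,[(40,0),(44,1),(67,6),(78,4),(87,2)]),
(85,[(40,0),(44,2),(70,1),(72,6),(84,5)]),
(70,[(40,0),(47,3),(77,5),(88,6),(91,2)])]

def Q796x18 : List (ℕ × List (ℕ × ℕ)) := [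
(21,[(40,0),(47,2),(54,4),(57,5),(87,6)]),
(60,[(40,0),(49,6),(61,5),(68,3),(70,4)]),
(28,[(40,0),(54,2),(58,6),(87,3),(96,5)]),
(76,[(40,0),(58,1),(63,4),(82,6),(92,2)]),
(34,[(40,0),(61,6),(69,5),(77,4),(83,1)]),
(89,[(41,0),(42,5),(72,6),(74,4),(81,3)]),
(38,[(41,0),(42,6),(69,5),(75,3),(89,1)]),
(61,[(41,0),(45,6),(62,5),(69,3),(71,4)]),
(72,[(41,0),(48,3),(78,5),(89,6),(92,2)]),
(20,[(41,0),(48,2),(50,4),(58,5),(88,6)]),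
(28,[(41,0),(50,2),(59,6),(88,3),(97,5)]),
(77,[(41,0),(59,1),(64,4),(83,6),(93,2)]),
(30,[(41,0),(62,6),(65,5),(78,4),(84,1)]),
(95,[(41,0),(65,0),(69,0),(89,0),(95,0)]),
(86,[(42,0),(43,5),(70,4),(73,6),(82,3)]),
(37,[(42,0),(43,6),(65,5),(76,3),(85,1)]),
(62,[(42,0),(46,6),(63,5),(65,3),(72,4)]),
(74,[(42,0),(49,3),(79,5),(85,6),(93,2)]),
(24,[(42,0),(49,2),(51,4),(59,5),(89,6)]),
(28,[(42,0),(51,2),(55,6),(89,3),(98,5)]),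
(78,[(42,0),(55,1),(60,4),(84,6),(94,2)]),
(31,[(42,0),(63,6),(66,5),(79,4),(80,1)]),
(88,[(43,0),(44,5),(71,4),(74,6),(83,3)]),
(36,[(43,0),(44,6),(66,5),(77,3),(86,1)]),
(71,[(43,0),(45,3),(75,5),(86,6),(94,2)]),
(23,[(43,0),(45,2),(52,4),(55,5),(85,6)]),
(63,[(43,0),(47,6),(64,5),(66,3),(73,4)]),
(28,[(43,0),(52,2),(56,6),(85,3),(99,5)]),
(79,[(43,0),(56,1),(61,4),(80,6),(90,2)]),
(32,[(43,0),(64,6),(67,5),(75,4),(81,1)]),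
(73,[(44,0),(46,3),(76,5),(87,6),(90,2)]),
(22,[(44,0),(46,2),(53,4),(56,5),(86,6)]),
(64,[(44,0),(48,6),(60,5),(67,3),(74,4)]),
(28,[(44,0),(53,2),(57,6),(86,3),(95,5)]),
(75,[(44,0),(57,1),(62,4),(81,6),(91,2)]),
(33,[(44,0),(60,6),(68,5),(76,4),(82,1)]),
(90,[(44,0),(71,0),(73,0),(80,0),(90,0)]),
(89,[(45,0),(46,5),(51,6),(53,4),(85,3)]),
(35,[(45,0),(46,6),(73,5),(84,3),(93,1)]),
(36,[(45,0),(49,1),(72,6),(83,4),(92,2)]),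
(87,[(45,0),(49,2),(50,1),(52,6),(89,5)]),
(27,[(45,0),(59,2),(63,6),(76,5),(92,3)]),
(78,[(45,0),(63,1),(68,4),(87,6),(97,2)]),
(34,[(45,0),(66,6),(74,5),(82,4),(88,1)]),
(91,[(45,0),(72,0),(74,0),(81,0),(91,0)]),
(86,[(46,0),(47,5),(52,6),(54,4),(86,3)]),
(39,[(46,0),(47,6),(74,5),(80,3),(94,1)]),
(95,[(46,0),(52,0),(70,0),(74,0),(94,0)]),
(27,[(46,0),(55,2),(64,6),(77,5),(93,3)]),
(79,[(46,0),(64,1),(69,4),(88,6),(98,2)]),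
(30,[(46,0),(67,6),(70,5),(83,4),(89,1)]),
(88,[(47,0),(48,5),(50,4),(53,6),(87,3)]),
(38,[(47,0),(48,6),(70,5),(81,3),(90,1)]),
(27,[(47,0),(56,2),(60,6),(78,5),(94,3)]),
(75,[(47,0),(60,1),(65,4),(89,6),(99,2)]),
(31,[(47,0),(68,6),(71,5),(84,4),(85,1)]),
(92,[(47,0),(74,0),(76,0),(83,0),(93,0)]),
(85,[(48,0),(49,5),(51,4),(54,6),(88,3)]),
(37,[(48,0),(49,6),(71,5),(82,3),(91,1)]),
(27,[(48,0),(57,2),(61,6),(79,5),(90,3)]),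
(76,[(48,0),(61,1),(66,4),(85,6),(95,2)]),
(32,[(48,0),(69,6),(72,5),(80,4),(86,1)]),
(90,[(49,0),(54,0),(72,0),(76,0),(96,0)]),
(27,[(49,0),(58,2),(62,6),(75,5),(91,3)]),
(77,[(49,0),(62,1),(67,4),(86,6),(96,2)]),
(33,[(49,0),(65,6),(73,5),(81,4),(87,1)]),
(91,[(50,0),(55,0),(73,0),(77,0),(97,0)]),
(65,[(50,0),(59,3),(63,5),(83,2),(94,4)]),
(66,[(50,0),(59,2),(71,4),(79,6),(85,1)]),
(68,[(50,0),(61,2),(76,1),(80,3),(97,5)]),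
(67,[(50,0),(67,2),(71,5),(81,6),(95,4)]),
(69,[(50,0),(69,5),(86,3),(90,6),(99,1)]),
(67,[(51,0),(55,3),(64,5),(84,2),(90,4)]),
(68,[(51,0),(55,2),(72,4),(75,6),(86,1)]),
(65,[(51,0),(62,2),(77,1),(81,3),(98,5)]),
(66,[(51,0),(65,5),(87,3),(91,6),(95,1)]),
(69,[(51,0),(68,2),(72,5),(82,6),(96,4)]),
(69,[(52,0),(56,3),(60,5),(80,2),(91,4)]),
(65,[(52,0),(56,2),(73,4),(76,6),(87,1)]),
(92,[(52,0),(57,0),(75,0),(79,0),(99,0)]),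
(67,[(52,0),(63,2),(78,1),(82,3),(99,5)]),
(68,[(52,0),(66,5),(88,3),(92,6),(96,1)]),
(66,[(52,0),(69,2),(73,5),(83,6),(97,4)]),
(66,[(53,0),(57,3),(61,5),(81,2),(92,4)]),
(67,[(53,0),(57,2),(74,4),(77,6),(88,1)]),
(69,[(53,0),(64,2),(79,1),(83,3),(95,5)]),
(68,[(53,0),(65,2),(74,5),(84,6),(98,4)]),
(65,[(53,0),(67,5),(89,3),(93,6),(97,1)]),
(68,[(54,0),(58,3),(62,5),(82,2),(93,4)]),
(69,[(54,0),(58,2),(70,4),(78,6),(89,1)]),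
(93,[(54,0),(60,0),(65,0),(83,0),(87,0)]),
(66,[(54,0),(60,2),(75,1),(84,3),(96,5)]),
(65,[(54,0),(66,2),(70,5),(80,6),(99,4)]),
(67,[(54,0),(68,5),(85,3),(94,6),(98,1)]),
(66,[(55,0),(64,3),(68,5),(88,2),(99,4)]),
(69,[(55,0),(66,2),(77,5),(81,1),(85,3)]),
(65,[(55,0),(74,5),(79,1),(91,3),(95,6)]),
(68,[(56,0),(60,3),(69,5),(89,2),(95,4)]),
(66,[(56,0),(67,2),(78,5),(82,1),(86,3)]),
(67,[(56,0),(70,5),(75,1),(92,3),(96,6)])]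

def Q796x19 : List (ℕ × List (ℕ × ℕ)) := [
(94,[(57,0),(61,0),(81,0),(87,0),(92,0)]),
(65,[(57,0),(61,3),(65,5),(85,2),(96,4)]),
(68,[(57,0),(68,2),(79,5),(83,1),(87,3)]),
(69,[(57,0),(71,5),(76,1),(93,3),(97,6)]),
(67,[(58,0),(62,3),(66,5),(86,2),(97,4)]),
(65,[(58,0),(69,2),(75,5),(84,1),(88,3)]),
(66,[(58,0),(72,5),(77,1),(94,3),(98,6)]),
(69,[(59,0),(63,3),(67,5),(87,2),(98,4)]),
(67,[(59,0),(65,2),(76,5),(80,1),(89,3)]),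
(68,[(59,0),(73,5),(78,1),(90,3),(99,6)]),
(67,[(60,0),(69,3),(73,5),(79,4),(93,2)]),
(65,[(60,0),(71,2),(82,5),(86,1),(90,3)]),
(69,[(61,0),(65,3),(74,5),(75,4),(94,2)]),
(67,[(61,0),(72,2),(83,5),(87,1),(91,3)]),
(66,[(62,0),(66,3),(70,5),(76,4),(90,2)]),
(69,[(62,0),(73,2),(84,5),(88,1),(92,3)]),
(68,[(63,0),(67,3),(71,5),(77,4),(91,2)]),
(66,[(63,0),(74,2),(80,5),(89,1),(93,3)]),
(65,[(64,0),(68,3),(72,5),(78,4),(92,2)]),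
(68,[(64,0),(70,2),(81,5),(85,1),(94,3)])]

theorem s796 : StOn (Fin 796) 6 :=
  st_of_chkH 96 100 1 1 7 6 s96 (P796x0 ++ P796x1 ++ P796x2 ++ P796x3 ++ P796x4 ++ P796x5 ++ P796x6 ++ P796x7 ++ P796x8 ++ P796x9 ++ P796x10)
    (Q796x0 ++ Q796x1 ++ Q796x2 ++ Q796x3 ++ Q796x4 ++ Q796x5 ++ Q796x6 ++ Q796x7 ++ Q796x8 ++ Q796x9 ++ Q796x10 ++ Q796x11 ++ Q796x12 ++ Q796x13 ++ Q796x14 ++ Q796x15 ++ Q796x16 ++ Q796x17 ++ Q796x18 ++ Q796x19) (by decide +kernel)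

end H9St
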