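import Mathlib
import Pool.Agent.H9.StH106

namespace H9St

set_option maxRecDepth 100000

def P801x0 : List (List (ℕ × ℕ)) := [
[(0,0),(0,108),(0,105),(0,118),(0,36),(0,17)],
[(0,0),(0,77),(0,137),(0,53),(0,35),(0,78)],
[(0,0),(0,46),(0,32),(1,108),(1,134),(1,114)],
[(0,0),(0,15),(0,89),(2,29),(2,121),(2,93)],
[(0,0),(0,123),(0,135),(0,40),(0,7),(0,94)],
[(0,0),(0,92),(0,64),(3,60),(3,110),(3,125)],
[(0,0),(0,30),(1,78),(3,131),(4,98),(4,17)],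
[(0,0),(0,76),(0,71),(2,28),(2,118),(2,1)],
[(0,0),(0,90),(0,112),(3,43),(3,111),(3,48)],
[(0,0),(0,58),(1,41),(1,71),(2,119),(4,33)],
[(0,0),(0,73),(1,54),(1,63),(2,133),(4,135)],
[(0,0),(0,119),(0,113),(4,37),(4,5),(4,51)],
[(0,0),(0,9),(1,79),(3,81),(4,85),(4,19)],
[(0,0),(0,39),(1,21),(3,105),(4,134),(4,3)],
[(0,0),(0,8),(1,44),(1,5),(2,26),(4,110)],
[(0,0),(1,77),(1,4),(2,58),(2,67),(3,137)],
[(0,0),(1,29),(1,37),(2,73),(2,34),(3,55)],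
[(0,0),(1,106),(1,25),(2,8),(2,38),(3,86)],
[(0,0),(2,84),(3,121),(3,113),(4,118),(4,18)],
[(0,0),(2,53),(3,20),(3,78),(4,61),(4,91)],
[(0,0),(2,2),(3,6),(3,79),(4,60),(4,69)],
[(1,0),(1,108),(1,105),(1,118),(1,36),(1,17)],
[(1,0),(1,77),(1,137),(1,53),(1,35),(1,78)],
[(1,0),(1,46),(1,32),(2,108),(2,134),(2,114)],
[(1,0),(1,15),(1,89),(3,29),(3,121),(3,93)],
[(1,0),(1,123),(1,135),(1,40),(1,7),(1,94)],
[(1,0),(1,92),(1,64),(4,60),(4,110),(4,125)],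
[(1,0),(1,76),(1,71),(3,28),(3,118),(3,1)],
[(1,0),(1,90),(1,112),(4,43),(4,111),(4,48)],
[(1,0),(2,77),(2,4),(3,58),(3,67),(4,137)],
[(1,0),(2,29),(2,37),(3,73),(3,34),(4,55)],
[(1,0),(2,106),(2,25),(3,8),(3,38),(4,86)],
[(2,0),(2,108),(2,105),(2,118),(2,36),(2,17)],
[(2,0),(2,77),(2,137),(2,53),(2,35),(2,78)],
[(2,0),(2,46),(2,32),(3,108),(3,134),(3,114)],
[(2,0),(2,15),(2,89),(4,29),(4,121),(4,93)],
[(2,0),(2,123),(2,135),(2,40),(2,7),(2,94)],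
[(2,0),(2,76),(2,71),(4,28),(4,118),(4,1)],
[(3,0),(3,108),(3,105),(3,118),(3,36),(3,17)],
[(3,0),(3,77),(3,137),(3,53),(3,35),(3,78)],
[(3,0),(3,46),(3,32),(4,108),(4,134),(4,114)],
[(3,0),(3,123),(3,135),(3,40),(3,7),(3,94)],
[(4,0),(4,108),(4,105),(4,118),(4,36),(4,17)],
[(4,0),(4,77),(4,137),(4,53),(4,35),(4,78)],
[(4,0),(4,123),(4,135),(4,40),(4,7),(4,94)]]

def Q801x0 : List (ℕ × List (ℕ × ℕ)) := [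
(105,[(0,0),(1,0),(2,0),(3,0),(4,0)]),
(13,[(0,0),(1,46),(2,111),(3,27),(4,130)]),
(86,[(0,0),(1,15),(2,23),(3,63),(4,28)]),
(17,[(0,0),(1,123),(2,27),(3,108),(4,132)]),
(79,[(0,0),(1,92),(2,3),(3,76),(4,24)]),
(57,[(0,0),(1,61),(2,40),(3,123),(4,11)]),
(6,[(0,0),(1,30),(2,137),(3,122),(4,120)]),
(24,[(0,0),(1,138),(2,65),(3,100),(4,116)]),
(3,[(0,0),(1,107),(2,92),(3,90),(4,109)]),
(56,[(0,0),(1,45),(2,135),(3,52),(4,70)]),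
(64,[(0,0),(1,14),(2,56),(3,44),(4,108)]),
(49,[(0,0),(1,91),(2,102),(3,124),(4,79)]),
(52,[(0,0),(1,60),(2,12),(3,23),(4,45)]),
(12,[(0,0),(1,137),(2,17),(3,47),(4,15)]),
(84,[(0,0),(1,75),(2,10),(3,68),(4,80)]),
(53,[(0,0),(1,90),(2,7),(3,25),(4,94)]),
(87,[(0,0),(1,59),(2,134),(3,69),(4,127)]),
(60,[(0,0),(1,28),(2,85),(3,39),(4,40)]),
(92,[(0,0),(1,105),(2,107),(3,1),(4,113)]),
(81,[(0,0),(1,74),(2,132),(3,5),(4,64)]),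
(29,[(0,0),(1,43),(2,124),(3,9),(4,16)]),
(75,[(0,0),(1,12),(2,71),(3,7),(4,81)]),
(5,[(0,0),(1,89),(2,36),(3,53),(4,14)]),
(78,[(0,0),(1,58),(2,70),(3,129),(4,65)]),
(48,[(0,0),(1,27),(2,16),(3,77),(4,56)]),
(96,[(0,0),(1,135),(2,113),(3,93),(4,55)]),
(77,[(0,0),(1,104),(2,76),(3,91),(4,99)]),
(88,[(0,0),(1,73),(2,21),(3,136),(4,89)]),
(61,[(0,0),(1,42),(2,30),(3,94),(4,125)]),
(46,[(0,0),(1,11),(2,33),(3,127),(4,48)]),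
(90,[(0,0),(1,119),(2,81),(3,26),(4,22)]),
(72,[(0,0),(1,57),(2,11),(3,12),(4,111)]),
(95,[(0,0),(1,26),(2,131),(3,133),(4,27)]),
(4,[(0,0),(1,103),(2,112),(3,19),(4,84)]),
(97,[(0,0),(1,72),(2,125),(3,96),(4,6)]),
(37,[(0,0),(1,10),(2,108),(3,114),(4,105)]),
(54,[(0,0),(1,118),(2,62),(3,89),(4,78)]),
(85,[(0,0),(1,87),(2,63),(3,16),(4,66)]),
(50,[(0,0),(1,56),(2,74),(3,4),(4,49)]),
(100,[(0,0),(1,133),(2,66),(3,119),(4,90)]),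
(80,[(0,0),(1,40),(2,5),(3,116),(4,131)]),
(1,[(0,0),(1,9),(2,55),(3,120),(4,36)]),
(93,[(0,0),(1,117),(2,97),(3,59),(4,4)]),
(2,[(0,0),(1,86),(2,103),(3,64),(4,50)]),
(7,[(0,0),(1,55),(2,19),(3,28),(4,74)]),
(23,[(0,0),(1,24),(2,31),(3,15),(4,58)]),
(22,[(0,0),(1,132),(2,90),(3,82),(4,23)]),
(102,[(0,0),(1,101),(2,46),(3,42),(4,20)]),
(38,[(0,0),(1,39),(2,77),(3,80),(4,26)]),
(83,[(0,0),(1,8),(2,48),(3,13),(4,124)]),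
(25,[(0,0),(1,116),(2,109),(3,67),(4,59)]),
(44,[(0,0),(1,85),(2,59),(3,98),(4,136)]),
(27,[(0,0),(1,23),(2,22),(3,88),(4,123)]),
(16,[(0,0),(1,131),(2,72),(3,49),(4,42)]),
(11,[(0,0),(1,100),(2,86),(3,36),(4,122)]),
(59,[(0,0),(1,69),(2,114),(3,65),(4,121)]),
(35,[(0,0),(1,38),(2,41),(3,126),(4,100)]),
(20,[(0,0),(1,7),(2,130),(3,34),(4,115)]),
(82,[(0,0),(1,115),(2,68),(3,118),(4,52)]),
(99,[(0,0),(1,84),(2,80),(3,58),(4,38)]),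
(94,[(0,0),(1,53),(2,24),(3,73),(4,67)]),
(58,[(0,0),(1,22),(2,116),(3,37),(4,128)]),
(43,[(0,0),(1,130),(2,25),(3,35),(4,133)]),
(63,[(0,0),(1,99),(2,127),(3,45),(4,138)]),
(31,[(0,0),(1,6),(2,136),(3,31),(4,41)]),
(51,[(0,0),(1,83),(2,110),(3,99),(4,21)]),
(68,[(0,0),(1,52),(2,99),(3,11),(4,43)]),
(34,[(0,0),(1,98),(2,104),(3,95),(4,129)]),
(30,[(0,0),(1,67),(2,54),(3,10),(4,30)]),
(41,[(0,0),(1,113),(2,13),(3,51),(4,54)]),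
(62,[(0,0),(1,51),(2,83),(3,40),(4,92)]),
(36,[(0,0),(1,20),(2,129),(3,57),(4,44)]),
(45,[(0,0),(1,128),(2,50),(3,29),(4,112)]),
(19,[(0,0),(1,97),(2,89),(3,30),(4,7)]),
(21,[(0,0),(1,66),(2,101),(3,117),(4,1)]),
(18,[(0,0),(1,35),(2,51),(3,74),(4,73)]),
(98,[(0,0),(1,112),(2,138),(3,104),(4,106)]),
(26,[(0,0),(1,81),(2,105),(3,112),(4,96)]),
(76,[(0,0),(1,50),(2,123),(3,71),(4,47)]),
(9,[(0,0),(1,19),(2,49),(3,17),(4,2)]),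
(73,[(0,0),(1,127),(2,52),(3,83),(4,97)]),
(71,[(0,0),(1,96),(2,9),(3,56),(4,107)]),
(10,[(0,0),(1,65),(2,120),(3,84),(4,93)]),
(40,[(0,0),(1,34),(2,44),(3,3),(4,9)]),
(32,[(0,0),(1,3),(2,88),(3,62),(4,101)]),
(89,[(0,0),(1,111),(2,126),(3,134),(4,35)]),
(28,[(0,0),(1,80),(2,57),(3,50),(4,8)]),
(103,[(0,0),(1,49),(2,43),(3,115),(4,29)]),
(47,[(0,0),(1,18),(2,87),(3,132),(4,83)]),
(42,[(0,0),(1,126),(2,82),(3,102),(4,72)]),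
(39,[(0,0),(1,95),(2,115),(3,85),(4,13)]),
(70,[(0,0),(1,64),(2,95),(3,109),(4,12)]),
(101,[(0,0),(1,33),(2,6),(3,32),(4,137)]),
(104,[(0,0),(1,2),(2,35),(3,8),(4,34)]),
(91,[(0,0),(1,110),(2,20),(3,14),(4,86)]),
(14,[(0,0),(1,17),(2,117),(3,103),(4,53)]),
(8,[(0,0),(1,125),(2,75),(3,22),(4,39)]),
(55,[(0,0),(1,94),(2,15),(3,106),(4,117)]),
(74,[(0,0),(1,32),(2,128),(3,41),(4,88)]),
(66,[(0,0),(1,1),(2,100),(3,128),(4,46)])]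

def Q801x1 : List (ℕ × List (ℕ × ℕ)) := [
(33,[(0,0),(1,109),(2,37),(3,24),(4,119)]),
(65,[(0,0),(1,47),(2,98),(3,130),(4,87)]),
(15,[(0,0),(1,16),(2,39),(3,38),(4,104)]),
(0,[(0,0),(1,124),(2,122),(3,2),(4,32)]),
(69,[(0,0),(1,93),(2,94),(3,54),(4,82)]),
(67,[(0,0),(1,31),(2,45),(3,87),(4,75)])]

theorem s801 : StOn (Fin 801) 6 :=
  st_of_chkH 106 5 1 1 139 6 s106 (P801x0)
    (Q801x0 ++ Q801x1) (by decide +kernel)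

end H9St
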