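import Mathlib
import Pool.Agent.H9.StLay

namespace H9St

set_option maxRecDepth 100000

def Y616x0 : List (List (ℕ × ℕ)) := [
[(0,0),(0,1),(7,15),(7,27),(9,21),(14,21)],
[(0,0),(0,2),(6,12),(6,31),(12,18),(12,25)],
[(0,0),(0,3),(4,22),(6,22),(8,20),(8,24)],
[(0,0),(0,4),(8,2),(9,19),(9,26),(12,2)],
[(0,0),(0,5),(9,16),(9,30),(13,1),(13,4)],
[(0,0),(0,6),(10,2),(10,4),(11,23),(11,24)],
[(0,0),(0,7),(4,24),(5,15),(5,33),(7,24)],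
[(0,0),(0,8),(5,1),(5,7),(10,18),(10,31)],
[(0,0),(0,9),(7,13),(7,37),(11,10),(11,40)],
[(0,0),(0,10),(5,24),(5,27),(7,5),(13,5)],
[(0,0),(0,11),(4,26),(8,26),(9,5),(9,6)],
[(0,0),(0,12),(4,6),(5,6),(6,14),(6,39)],
[(0,0),(0,13),(4,27),(7,22),(7,32),(9,27)],
[(0,0),(0,14),(13,23),(13,32),(14,15),(14,40)],
[(0,0),(0,15),(12,19),(12,37),(14,5),(14,10)],
[(0,0),(0,16),(6,8),(8,22),(8,35),(10,8)],
[(0,0),(0,17),(11,25),(11,33),(13,27),(13,31)],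
[(0,0),(0,18),(5,9),(6,24),(6,35),(11,9)],
[(0,0),(0,19),(10,25),(10,35),(12,20),(12,40)],
[(0,0),(0,20),(8,23),(8,38),(14,4),(14,16)],
[(0,0),(1,1),(2,31),(3,38),(4,13),(8,33)],
[(0,0),(1,2),(3,16),(9,1),(10,14),(13,29)],
[(0,0),(1,3),(2,12),(3,33),(4,5),(12,27)],
[(0,0),(1,4),(2,1),(3,29),(4,11),(6,9)],
[(0,0),(1,5),(3,40),(5,23),(10,11),(14,35)],
[(0,0),(1,6),(2,5),(7,23),(12,35),(13,11)],
[(0,0),(1,7),(2,28),(3,36),(4,39),(11,22)],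
[(0,0),(1,8),(3,23),(8,4),(11,15),(14,34)],
[(0,0),(1,9),(3,31),(6,25),(12,28),(13,22)],
[(0,0),(1,10),(2,23),(3,11),(4,7),(9,2)],
[(0,0),(1,11),(2,3),(3,39),(4,32),(14,17)],
[(0,0),(1,12),(2,7),(3,9),(4,20),(10,26)],
[(0,0),(1,13),(2,11),(3,20),(4,8),(13,35)],
[(0,0),(1,14),(2,39),(8,40),(11,27),(12,12)],
[(0,0),(1,15),(2,33),(6,37),(10,7),(13,26)],
[(0,0),(1,16),(2,4),(3,34),(4,3),(5,36)],
[(0,0),(1,17),(2,21),(9,31),(10,24),(14,38)],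
[(0,0),(1,18),(2,25),(3,28),(4,29),(7,20)],
[(0,0),(1,19),(2,9),(5,25),(11,28),(14,22)],
[(0,0),(1,20),(3,37),(7,10),(11,3),(12,17)],
[(0,0),(1,21),(3,4),(7,31),(11,38),(12,24)],
[(0,0),(1,22),(2,32),(5,16),(11,13),(14,19)],
[(0,0),(1,23),(2,16),(3,13),(4,12),(7,21)],
[(0,0),(1,24),(2,20),(9,10),(10,17),(14,3)],
[(0,0),(1,25),(2,37),(3,7),(4,38),(5,5)],
[(0,0),(1,26),(2,8),(6,4),(10,34),(13,15)],
[(0,0),(1,27),(2,2),(8,1),(11,14),(12,29)],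
[(0,0),(1,28),(2,30),(3,21),(4,33),(13,6)],
[(0,0),(1,29),(2,34),(3,32),(4,21),(10,15)],
[(0,0),(1,30),(2,38),(3,2),(4,9),(14,24)],
[(0,0),(1,31),(2,18),(3,30),(4,34),(9,39)],
[(0,0),(1,32),(3,10),(6,16),(12,13),(13,19)],
[(0,0),(1,33),(3,18),(8,37),(11,26),(14,7)],
[(0,0),(1,34),(2,13),(3,5),(4,2),(11,19)],
[(0,0),(1,35),(2,36),(7,18),(12,6),(13,30)],
[(0,0),(1,36),(3,1),(5,18),(10,30),(14,6)],
[(0,0),(1,37),(2,40),(3,12),(4,30),(6,32)],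
[(0,0),(1,38),(2,29),(3,8),(4,36),(12,14)],
[(0,0),(1,39),(3,25),(9,40),(10,27),(13,12)],
[(0,0),(1,40),(2,10),(3,3),(4,28),(8,8)],
[(0,0),(2,6),(4,1),(9,24),(11,36),(14,12)],
[(0,0),(2,14),(4,16),(6,15),(10,28),(14,2)],
[(0,0),(2,15),(4,23),(5,19),(11,30),(12,8)],
[(0,0),(2,17),(4,37),(8,27),(12,34),(13,20)],
[(0,0),(2,19),(4,10),(7,35),(10,32),(13,38)],
[(0,0),(2,22),(4,31),(7,6),(10,9),(13,3)],
[(0,0),(2,24),(4,4),(8,14),(12,7),(13,21)],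
[(0,0),(2,26),(4,18),(5,22),(11,11),(12,33)],
[(0,0),(2,27),(4,25),(6,26),(10,13),(14,39)],
[(0,0),(2,35),(4,40),(9,17),(11,5),(14,29)],
[(0,0),(3,6),(3,35),(8,0),(9,8),(9,33)],
[(0,0),(3,14),(3,27),(5,0),(6,5),(6,36)],
[(0,0),(3,15),(3,26),(5,20),(5,21),(7,0)],
[(0,0),(3,17),(3,24),(6,0),(8,9),(8,32)],
[(0,0),(3,19),(3,22),(7,2),(7,39),(9,0)],
[(0,0),(5,2),(7,40),(8,13),(10,22),(14,23)],
[(0,0),(5,3),(8,25),(9,32),(10,40),(13,24)],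
[(0,0),(5,4),(5,37),(12,3),(12,38),(14,0)],
[(0,0),(5,10),(6,21),(9,34),(12,26),(13,16)],
[(0,0),(5,11),(7,34),(8,29),(10,5),(14,13)],
[(0,0),(5,12),(6,28),(9,3),(12,9),(13,7)],
[(0,0),(5,13),(8,11),(9,12),(10,3),(13,39)],
[(0,0),(5,28),(8,30),(9,29),(10,38),(13,2)],
[(0,0),(5,29),(6,13),(9,38),(12,32),(13,34)],
[(0,0),(5,30),(7,7),(8,12),(10,36),(14,28)],
[(0,0),(5,31),(6,20),(9,7),(12,15),(13,25)],
[(0,0),(5,38),(8,16),(9,9),(10,1),(13,17)],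
[(0,0),(5,39),(7,1),(8,28),(10,19),(14,18)],
[(0,0),(6,1),(6,40),(13,0),(14,11),(14,30)],
[(0,0),(6,3),(7,11),(8,7),(11,12),(14,33)],
[(0,0),(6,7),(7,38),(9,28),(11,21),(12,30)],
[(0,0),(6,11),(7,8),(9,37),(11,6),(12,10)],
[(0,0),(6,18),(7,12),(8,5),(11,37),(14,14)],
[(0,0),(6,23),(7,29),(8,36),(11,4),(14,27)],
[(0,0),(6,30),(7,33),(9,4),(11,35),(12,31)],
[(0,0),(6,34),(7,3),(9,13),(11,20),(12,11)],
[(0,0),(6,38),(7,30),(8,34),(11,29),(14,8)],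
[(0,0),(7,16),(7,25),(10,12),(10,29),(12,0)],
[(0,0),(8,10),(8,31),(11,0),(13,13),(13,28)],
[(0,0),(9,18),(9,23),(10,0),(11,7),(11,34)]]

def Y616x1 : List (List (ℕ × ℕ)) := [
[(0,0),(10,20),(11,2),(12,36),(13,33),(14,32)],
[(0,0),(10,21),(11,39),(12,5),(13,8),(14,9)],
[(1,0),(1,1),(5,15),(5,27),(7,21),(12,21)],
[(1,0),(1,2),(8,12),(8,31),(10,18),(10,25)],
[(1,0),(1,3),(2,22),(8,22),(9,20),(9,24)],
[(1,0),(1,4),(7,19),(7,26),(9,2),(10,2)],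
[(1,0),(1,5),(7,16),(7,30),(14,1),(14,4)],
[(1,0),(1,6),(11,2),(11,4),(13,23),(13,24)],
[(1,0),(1,7),(2,24),(5,24),(6,15),(6,33)],
[(1,0),(1,8),(6,1),(6,7),(11,18),(11,31)],
[(1,0),(1,9),(5,13),(5,37),(13,10),(13,40)],
[(1,0),(1,10),(5,5),(6,24),(6,27),(14,5)],
[(1,0),(1,11),(2,26),(7,5),(7,6),(9,26)],
[(1,0),(1,12),(2,6),(6,6),(8,14),(8,39)],
[(1,0),(1,13),(2,27),(5,22),(5,32),(7,27)],
[(1,0),(1,14),(12,15),(12,40),(14,23),(14,32)],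
[(1,0),(1,15),(10,19),(10,37),(12,5),(12,10)],
[(1,0),(1,16),(8,8),(9,22),(9,35),(11,8)],
[(1,0),(1,17),(13,25),(13,33),(14,27),(14,31)],
[(1,0),(1,18),(6,9),(8,24),(8,35),(13,9)],
[(1,0),(1,19),(10,20),(10,40),(11,25),(11,35)],
[(1,0),(1,20),(9,23),(9,38),(12,4),(12,16)],
[(1,0),(3,2),(4,16),(7,1),(11,14),(14,29)],
[(1,0),(3,5),(4,40),(6,23),(11,11),(12,35)],
[(1,0),(3,8),(4,23),(9,4),(12,34),(13,15)],
[(1,0),(3,9),(4,31),(8,25),(10,28),(14,22)],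
[(1,0),(3,20),(4,37),(5,10),(10,17),(13,3)],
[(1,0),(3,21),(4,4),(5,31),(10,24),(13,38)],
[(1,0),(3,32),(4,10),(8,16),(10,13),(14,19)],
[(1,0),(3,33),(4,18),(9,37),(12,7),(13,26)],
[(1,0),(3,36),(4,1),(6,18),(11,30),(12,6)],
[(1,0),(3,39),(4,25),(7,40),(11,27),(14,12)],
[(1,0),(4,6),(4,35),(7,8),(7,33),(9,0)],
[(1,0),(4,14),(4,27),(6,0),(8,5),(8,36)],
[(1,0),(4,15),(4,26),(5,0),(6,20),(6,21)],
[(1,0),(4,17),(4,24),(8,0),(9,9),(9,32)],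
[(1,0),(4,19),(4,22),(5,2),(5,39),(7,0)],
[(1,0),(5,1),(6,39),(9,28),(11,19),(12,18)],
[(1,0),(5,3),(7,13),(8,34),(10,11),(13,20)],
[(1,0),(5,7),(6,30),(9,12),(11,36),(12,28)],
[(1,0),(5,8),(7,37),(8,11),(10,10),(13,6)],
[(1,0),(5,11),(8,3),(9,7),(12,33),(13,12)],
[(1,0),(5,12),(8,18),(9,5),(12,14),(13,37)],
[(1,0),(5,16),(5,25),(10,0),(11,12),(11,29)],
[(1,0),(5,29),(8,23),(9,36),(12,27),(13,4)],
[(1,0),(5,30),(8,38),(9,34),(12,8),(13,29)],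
[(1,0),(5,33),(7,4),(8,30),(10,31),(13,35)],
[(1,0),(5,34),(6,11),(9,29),(11,5),(12,13)],
[(1,0),(5,38),(7,28),(8,7),(10,30),(13,21)],
[(1,0),(5,40),(6,2),(9,13),(11,22),(12,23)],
[(1,0),(6,3),(7,32),(9,25),(11,40),(14,24)],
[(1,0),(6,4),(6,37),(10,3),(10,38),(12,0)],
[(1,0),(6,10),(7,34),(8,21),(10,26),(14,16)],
[(1,0),(6,12),(7,3),(8,28),(10,9),(14,7)],
[(1,0),(6,13),(7,12),(9,11),(11,3),(14,39)],
[(1,0),(6,28),(7,29),(9,30),(11,38),(14,2)],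
[(1,0),(6,29),(7,38),(8,13),(10,32),(14,34)],
[(1,0),(6,31),(7,7),(8,20),(10,15),(14,25)],
[(1,0),(6,38),(7,9),(9,16),(11,1),(14,17)],
[(1,0),(7,18),(7,23),(11,0),(13,7),(13,34)],
[(1,0),(8,1),(8,40),(12,11),(12,30),(14,0)],
[(1,0),(9,10),(9,31),(13,0),(14,13),(14,28)],
[(1,0),(10,5),(11,21),(12,9),(13,39),(14,8)],
[(1,0),(10,36),(11,20),(12,32),(13,2),(14,33)],
[(2,0),(2,1),(8,21),(9,15),(9,27),(13,21)],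
[(2,0),(2,2),(5,12),(5,31),(14,18),(14,25)],
[(2,0),(2,3),(3,22),(5,22),(6,20),(6,24)],
[(2,0),(2,4),(6,2),(8,19),(8,26),(14,2)],
[(2,0),(2,5),(8,16),(8,30),(11,1),(11,4)],
[(2,0),(2,6),(10,23),(10,24),(12,2),(12,4)],
[(2,0),(2,7),(3,24),(7,15),(7,33),(9,24)],
[(2,0),(2,8),(7,1),(7,7),(12,18),(12,31)],
[(2,0),(2,9),(9,13),(9,37),(10,10),(10,40)],
[(2,0),(2,10),(7,24),(7,27),(9,5),(11,5)],
[(2,0),(2,11),(3,26),(6,26),(8,5),(8,6)],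
[(2,0),(2,12),(3,6),(5,14),(5,39),(7,6)],
[(2,0),(2,13),(3,27),(8,27),(9,22),(9,32)],
[(2,0),(2,14),(11,23),(11,32),(13,15),(13,40)],
[(2,0),(2,15),(13,5),(13,10),(14,19),(14,37)],
[(2,0),(2,16),(5,8),(6,22),(6,35),(12,8)],
[(2,0),(2,17),(10,25),(10,33),(11,27),(11,31)],
[(2,0),(2,18),(5,24),(5,35),(7,9),(10,9)],
[(2,0),(2,19),(12,25),(12,35),(14,20),(14,40)],
[(2,0),(2,20),(6,23),(6,38),(13,4),(13,16)],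
[(2,0),(3,1),(4,6),(8,24),(10,36),(13,12)],
[(2,0),(3,4),(4,24),(6,14),(11,21),(14,7)],
[(2,0),(3,10),(4,19),(9,35),(11,38),(12,32)],
[(2,0),(3,16),(4,14),(5,15),(12,28),(13,2)],
[(2,0),(3,18),(4,26),(7,22),(10,11),(14,33)],
[(2,0),(3,23),(4,15),(7,19),(10,30),(14,8)],
[(2,0),(3,25),(4,27),(5,26),(12,13),(13,39)],
[(2,0),(3,31),(4,22),(9,6),(11,3),(12,9)],
[(2,0),(3,37),(4,17),(6,27),(11,20),(14,34)],
[(2,0),(3,40),(4,35),(8,17),(10,5),(13,29)],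
[(2,0),(5,1),(5,40),(11,0),(13,11),(13,30)],
[(2,0),(5,3),(6,7),(9,11),(10,12),(13,33)],
[(2,0),(5,7),(8,28),(9,38),(10,21),(14,30)],
[(2,0),(5,11),(8,37),(9,8),(10,6),(14,10)],
[(2,0),(5,13),(7,29),(8,38),(11,34),(14,32)],
[(2,0),(5,18),(6,5),(9,12),(10,37),(13,14)]]

def Y616x2 : List (List (ℕ × ℕ)) := [
[(2,0),(5,20),(7,31),(8,7),(11,25),(14,15)],
[(2,0),(5,21),(7,10),(8,34),(11,16),(14,26)],
[(2,0),(5,23),(6,36),(9,29),(10,4),(13,27)],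
[(2,0),(5,28),(7,12),(8,3),(11,7),(14,9)],
[(2,0),(5,30),(8,4),(9,33),(10,35),(14,31)],
[(2,0),(5,34),(8,13),(9,3),(10,20),(14,11)],
[(2,0),(5,38),(6,34),(9,30),(10,29),(13,8)],
[(2,0),(6,10),(6,31),(10,0),(11,13),(11,28)],
[(2,0),(6,11),(7,13),(8,12),(11,39),(12,3)],
[(2,0),(6,12),(7,30),(9,7),(12,36),(13,28)],
[(2,0),(6,13),(7,2),(9,40),(12,22),(13,23)],
[(2,0),(6,16),(7,38),(8,9),(11,17),(12,1)],
[(2,0),(6,25),(7,3),(8,32),(11,24),(12,40)],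
[(2,0),(6,28),(7,39),(9,1),(12,19),(13,18)],
[(2,0),(6,29),(7,11),(9,34),(12,5),(13,13)],
[(2,0),(6,30),(7,28),(8,29),(11,2),(12,38)],
[(2,0),(7,4),(7,37),(13,0),(14,3),(14,38)],
[(2,0),(8,18),(8,23),(10,7),(10,34),(12,0)],
[(2,0),(9,16),(9,25),(12,12),(12,29),(14,0)],
[(2,0),(10,2),(11,33),(12,20),(13,32),(14,36)],
[(2,0),(10,39),(11,8),(12,21),(13,9),(14,5)],
[(3,0),(3,1),(5,21),(6,15),(6,27),(10,21)],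
[(3,0),(3,2),(9,12),(9,31),(11,18),(11,25)],
[(3,0),(3,4),(5,19),(5,26),(7,2),(11,2)],
[(3,0),(3,5),(5,16),(5,30),(12,1),(12,4)],
[(3,0),(3,6),(13,2),(13,4),(14,23),(14,24)],
[(3,0),(3,8),(8,1),(8,7),(13,18),(13,31)],
[(3,0),(3,9),(6,13),(6,37),(14,10),(14,40)],
[(3,0),(3,10),(6,5),(8,24),(8,27),(12,5)],
[(3,0),(3,14),(10,15),(10,40),(12,23),(12,32)],
[(3,0),(3,15),(10,5),(10,10),(11,19),(11,37)],
[(3,0),(3,16),(7,22),(7,35),(9,8),(13,8)],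
[(3,0),(3,17),(12,27),(12,31),(14,25),(14,33)],
[(3,0),(3,18),(8,9),(9,24),(9,35),(14,9)],
[(3,0),(3,19),(11,20),(11,40),(13,25),(13,35)],
[(3,0),(3,20),(7,23),(7,38),(10,4),(10,16)],
[(3,0),(5,3),(8,12),(9,28),(11,9),(12,7)],
[(3,0),(5,4),(6,33),(9,30),(11,31),(14,35)],
[(3,0),(5,7),(8,31),(9,20),(11,15),(12,25)],
[(3,0),(5,9),(7,16),(8,38),(12,17),(13,1)],
[(3,0),(5,12),(7,11),(8,13),(12,39),(13,3)],
[(3,0),(5,13),(6,3),(9,34),(11,11),(14,20)],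
[(3,0),(5,18),(5,23),(13,0),(14,7),(14,34)],
[(3,0),(5,28),(6,38),(9,7),(11,30),(14,21)],
[(3,0),(5,29),(7,30),(8,28),(12,2),(13,38)],
[(3,0),(5,32),(7,25),(8,3),(12,24),(13,40)],
[(3,0),(5,34),(8,10),(9,21),(11,26),(12,16)],
[(3,0),(5,37),(6,8),(9,11),(11,10),(14,6)],
[(3,0),(5,38),(8,29),(9,13),(11,32),(12,34)],
[(3,0),(6,1),(7,28),(8,39),(10,18),(13,19)],
[(3,0),(6,7),(7,12),(8,30),(10,28),(13,36)],
[(3,0),(6,11),(7,7),(9,3),(10,33),(14,12)],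
[(3,0),(6,12),(7,5),(9,18),(10,14),(14,37)],
[(3,0),(6,16),(6,25),(11,0),(13,12),(13,29)],
[(3,0),(6,29),(7,36),(9,23),(10,27),(14,4)],
[(3,0),(6,30),(7,34),(9,38),(10,8),(14,29)],
[(3,0),(6,34),(7,29),(8,11),(10,13),(13,5)],
[(3,0),(6,40),(7,13),(8,2),(10,23),(13,22)],
[(3,0),(7,10),(7,31),(12,13),(12,28),(14,0)],
[(3,0),(8,4),(8,37),(10,0),(11,3),(11,38)],
[(3,0),(9,1),(9,40),(10,11),(10,30),(12,0)],
[(3,0),(10,9),(11,5),(12,8),(13,21),(14,39)],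
[(3,0),(10,32),(11,36),(12,33),(13,20),(14,2)],
[(4,0),(4,1),(6,21),(8,15),(8,27),(11,21)],
[(4,0),(4,2),(7,12),(7,31),(13,18),(13,25)],
[(4,0),(4,4),(5,2),(6,19),(6,26),(13,2)],
[(4,0),(4,5),(6,16),(6,30),(10,1),(10,4)],
[(4,0),(4,6),(12,23),(12,24),(14,2),(14,4)],
[(4,0),(4,8),(9,1),(9,7),(14,18),(14,31)],
[(4,0),(4,9),(8,13),(8,37),(12,10),(12,40)],
[(4,0),(4,10),(8,5),(9,24),(9,27),(10,5)],
[(4,0),(4,14),(10,23),(10,32),(11,15),(11,40)],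
[(4,0),(4,15),(11,5),(11,10),(13,19),(13,37)],
[(4,0),(4,16),(5,22),(5,35),(7,8),(14,8)],
[(4,0),(4,17),(10,27),(10,31),(12,25),(12,33)],
[(4,0),(4,18),(7,24),(7,35),(9,9),(12,9)],
[(4,0),(4,19),(13,20),(13,40),(14,25),(14,35)],
[(4,0),(4,20),(5,23),(5,38),(11,4),(11,16)],
[(4,0),(5,5),(7,18),(8,12),(11,14),(12,37)],
[(4,0),(5,7),(7,3),(8,11),(11,33),(12,12)],
[(4,0),(5,10),(5,31),(10,13),(10,28),(12,0)],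
[(4,0),(5,11),(6,12),(9,13),(10,39),(14,3)],
[(4,0),(5,12),(8,7),(9,30),(11,28),(14,36)],
[(4,0),(5,13),(8,40),(9,2),(11,23),(14,22)],
[(4,0),(5,16),(6,9),(9,38),(10,17),(14,1)],
[(4,0),(5,25),(6,32),(9,3),(10,24),(14,40)],
[(4,0),(5,28),(8,1),(9,39),(11,18),(14,19)],
[(4,0),(5,29),(8,34),(9,11),(11,13),(14,5)],
[(4,0),(5,30),(6,29),(9,28),(10,2),(14,38)],
[(4,0),(5,34),(7,38),(8,30),(11,8),(12,29)],
[(4,0),(5,36),(7,23),(8,29),(11,27),(12,4)],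
[(4,0),(6,3),(7,28),(9,12),(10,7),(13,9)],
[(4,0),(6,4),(7,30),(8,33),(12,35),(13,31)],
[(4,0),(6,7),(7,20),(9,31),(10,25),(13,15)],
[(4,0),(6,13),(7,34),(8,3),(12,20),(13,11)],
[(4,0),(6,18),(6,23),(12,7),(12,34),(14,0)],
[(4,0),(6,28),(7,7),(8,38),(12,21),(13,30)],
[(4,0),(6,34),(7,21),(9,10),(10,16),(13,26)],
[(4,0),(6,37),(7,11),(8,8),(12,6),(13,10)],
[(4,0),(6,38),(7,13),(9,29),(10,34),(13,32)]]

def Y616x3 : List (List (ℕ × ℕ)) := [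
[(4,0),(7,1),(7,40),(10,0),(11,11),(11,30)],
[(4,0),(8,16),(8,25),(13,0),(14,12),(14,29)],
[(4,0),(9,4),(9,37),(11,0),(13,3),(13,38)],
[(4,0),(10,8),(11,9),(12,39),(13,5),(14,21)],
[(4,0),(10,33),(11,32),(12,2),(13,36),(14,20)]]

def Z616 : List (List (ℕ × ℕ)) := [
[(0,0),(1,0),(2,0),(3,0),(4,0)],
[(5,0),(6,0),(7,0),(8,0),(9,0)],
[(10,0),(11,0),(12,0),(13,0),(14,0)]]

theorem s616 : StOn (Fin 616) 6 :=
  st_of_chkL 1 15 1 1 41 6 (by norm_num) (Y616x0 ++ Y616x1 ++ Y616x2 ++ Y616x3) Z616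
    (by decide +kernel)

end H9St
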