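import Mathlib

set_option autoImplicit false

open Filter

namespace Pool.Agent.H9.Tang

def Tr (t : ℝ) : Prop := ∀ A B C : ℤ, A * t ^ 2 + B * t + C = 0 → A = 0 ∧ B = 0 ∧ C = 0

lemma exists_tr : ∃ t : ℝ, 1 < t ∧ t < 2 ∧ Tr t := by
  obtain ⟨t, ⟨h1, h2⟩, h3⟩ := ((Algebraic.countable ℤ ℝ).dense_compl ℝ).inter_open_nonempty
    (Set.Ioo 1 2) isOpen_Ioo ⟨3 / 2, by norm_num, by norm_num⟩
  refine ⟨t, h1, h2, fun A B C h => ?_⟩
  have : (Polynomial.C A * Polynomial.X ^ 2 + Polynomial.C B * Polynomial.X + Polynomial.C C :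
      Polynomial ℤ) = 0 := by
    by_contra hp
    exact h3 ⟨_, hp, by simpa using h⟩
  refine ⟨?_, ?_, ?_⟩
  · simpa [-eq_intCast, Polynomial.coeff_X, Polynomial.coeff_C] using congrArg (Polynomial.coeff · 2) this
  · simpa [-eq_intCast, Polynomial.coeff_X, Polynomial.coeff_C] using congrArg (Polynomial.coeff · 1) this
  · simpa using congrArg (Polynomial.coeff · 0) this

def pc (t : ℝ) : Bool × ℤ × ℤ → ℝ → ℝ
  | (true, a, b), x => (x - t * a) ^ 2 + 2 * t * b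
  | (false, s, c), x => 2 * s * x - s ^ 2 + 2 * t * c

lemma pc_cont (t : ℝ) (p : Bool × ℤ × ℤ) : Continuous (pc t p) := by
  obtain ⟨_ | _, a, b⟩ := p <;> unfold pc <;> fun_prop

lemma neP {t x : ℝ} (t0 : t ≠ 0) {u : Bool} {a b a' b' : ℤ} (h : (u, a, b) ≠ (u, a', b'))
    (e : pc t (u, a, b) x = pc t (u, a', b') x) : a - a' ≠ 0 := by
  intro z
  obtain rfl : a = a' := by omega
  apply h
  have : (b : ℝ) = b' := by
    cases u <;> simp only [pc] at e <;> exact mul_left_cancel₀ t0 (by linarith)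
  rw [Int.cast_injective this]

lemma PPL {t x : ℝ} (t0 : t ≠ 0) (T : Tr t) {a b a' b' s c : ℤ} (h : (true, a, b) ≠ (true, a', b'))
    (e1 : pc t (true, a, b) x = pc t (true, a', b') x)
    (e2 : pc t (true, a, b) x = pc t (false, s, c) x) : False := by
  have n := neP t0 h e1
  simp only [pc] at e1 e2
  have e3 : -2 * ((a : ℝ) - a') * x + t * (a ^ 2 - a' ^ 2) + 2 * (b - b') = 0 :=
    mul_left_cancel₀ t0 (by linarith)
  have := (T ((a - a') ^ 4) (-2 * (a - a') ^ 2 * (2 * (b - b') - 2 * (a - a') * s) +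
    8 * (a - a') ^ 2 * (b - s * a - c)) ((2 * (b - b') - 2 * (a - a') * s) ^ 2) (by
      push_cast
      linear_combination (2 * ((a : ℝ) - a')) ^ 2 * e2 + (2 * ((a : ℝ) - a') * (x - t * a - s) +
        (-(a - a') ^ 2 * t + (2 * (b - b') - 2 * (a - a') * s))) * e3)).1
  exact pow_ne_zero 4 n this

lemma PLL {t x : ℝ} (t0 : t ≠ 0) (T : Tr t) {a b s c s' c' : ℤ} (h : (false, s, c) ≠ (false, s', c'))
    (e1 : pc t (false, s, c) x = pc t (false, s', c') x)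
    (e2 : pc t (true, a, b) x = pc t (false, s, c) x) : False := by
  have n := neP t0 h e1
  simp only [pc] at e1 e2
  have := (T ((2 * (c - c') + 2 * (s - s') * a) ^ 2) (2 * (s - s') ^ 2 *
    (2 * (c - c') + 2 * (s - s') * a) + 8 * (s - s') ^ 2 * (b - s * a - c)) ((s - s') ^ 4) (by
      push_cast
      linear_combination (2 * ((s : ℝ) - s')) ^ 2 * e2 - (2 * ((s : ℝ) - s') * (x - t * a - s) -
        ((s - s') ^ 2 + t * (2 * (c - c') + 2 * (s - s') * a))) * e1)).2.2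
  exact pow_ne_zero 4 n this

lemma triple {t x : ℝ} (t0 : t ≠ 0) (T : Tr t) (p q r : Bool × ℤ × ℤ) (h1 : p ≠ q) (h2 : p ≠ r)
    (h3 : q ≠ r) (e1 : pc t p x = pc t q x) (e2 : pc t p x = pc t r x) : False := by
  have e3 := e1.symm.trans e2
  obtain ⟨_ | _, a, b⟩ := p <;> obtain ⟨_ | _, a', b'⟩ := q <;> obtain ⟨_ | _, a'', b''⟩ := r
  · have n1 := neP t0 h1 e1
    have n2 := neP t0 h2 e2
    have n3 := neP t0 h3 e3
    simp only [pc] at e1 e2
    have := (T 0 (2 * ((a - a') * (b - b'') - (a - a'') * (b - b')))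
      ((a - a'') * (a - a') * (a' - a'')) (by
        push_cast
        linear_combination ((a : ℝ) - a') * e2 - ((a : ℝ) - a'') * e1)).2.2
    exact mul_ne_zero (mul_ne_zero n2 n1) n3 this
  · exact PLL t0 T h1 e1 e2.symm
  · exact PLL t0 T h2 e2 e1.symm
  · exact PPL t0 T h3 e3 e1.symm
  · exact PLL t0 T h3 e3 e1
  · exact PPL t0 T h2 e2 e1
  · exact PPL t0 T h1 e1 e2
  · have n1 := neP t0 h1 e1
    have n2 := neP t0 h2 e2
    have n3 := neP t0 h3 e3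
    simp only [pc] at e1 e2
    have := (T ((a - a'') * (a - a') * (a' - a''))
      (2 * ((a - a'') * (b - b') - (a - a') * (b - b''))) 0 (by
        push_cast
        linear_combination ((a : ℝ) - a'') * e1 - ((a : ℝ) - a') * e2)).1
    exact mul_ne_zero (mul_ne_zero n2 n1) n3 this

lemma quad (A B C : ℝ) (h : ¬ (A = 0 ∧ B = 0 ∧ C = 0)) (S : Set ℝ)
    (hS : ∀ x ∈ S, A * x ^ 2 + B * x + C = 0) : S.encard ≤ 2 := by
  by_contra hc
  obtain ⟨U, hU, h3⟩ := Set.exists_subset_encard_eq (s := S) (k := 3)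
    (Order.add_one_le_of_lt (not_le.1 hc))
  obtain ⟨a, b, c, h1, h2, h4, rfl⟩ := Set.encard_eq_three.1 h3
  have e1 := hS a (hU (by simp))
  have e2 := hS b (hU (by simp))
  have e3 := hS c (hU (by simp))
  have f1 : A * (a + b) + B = 0 :=
    mul_left_cancel₀ (sub_ne_zero.2 h1) (by linear_combination e1 - e2)
  have f2 : A * (a + c) + B = 0 :=
    mul_left_cancel₀ (sub_ne_zero.2 h2) (by linear_combination e1 - e3)
  have f3 : A = 0 := mul_left_cancel₀ (sub_ne_zero.2 h4) (by linear_combination f1 - f2)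
  have f4 : B = 0 := by rw [f3] at f1; linarith
  exact h ⟨f3, f4, by rw [f3, f4] at e1; linarith⟩

lemma two {t : ℝ} (t0 : t ≠ 0) (p q : Bool × ℤ × ℤ) (h : p ≠ q) :
    {x | pc t p x = pc t q x}.encard ≤ 2 := by
  rcases Set.eq_empty_or_nonempty {x | pc t p x = pc t q x} with e | ⟨x, hx⟩
  · rw [e]; simp
  obtain ⟨_ | _, a, b⟩ := p <;> obtain ⟨_ | _, a', b'⟩ := q
  · have n : (a : ℝ) - a' ≠ 0 := by exact_mod_cast neP t0 h hx
    exact quad 0 (2 * (a - a')) (a' ^ 2 - a ^ 2 + 2 * t * (b - b')) (fun z => n (by linarith [z.2.1]))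
      _ fun y hy => by simp only [pc, Set.mem_ofPred_eq] at hy; linarith
  · exact quad 1 (-2 * t * a' - 2 * a) (t ^ 2 * a' ^ 2 + 2 * t * b' + a ^ 2 - 2 * t * b) (by simp)
      _ fun y hy => by simp only [pc, Set.mem_ofPred_eq] at hy; linarith
  · exact quad 1 (-2 * t * a - 2 * a') (t ^ 2 * a ^ 2 + 2 * t * b + a' ^ 2 - 2 * t * b') (by simp)
      _ fun y hy => by simp only [pc, Set.mem_ofPred_eq] at hy; linarith
  · have n : (a : ℝ) - a' ≠ 0 := by exact_mod_cast neP t0 h hx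
    exact quad 0 (-2 * t * (a - a')) (t ^ 2 * (a ^ 2 - a' ^ 2) + 2 * t * (b - b'))
      (fun z => mul_ne_zero t0 n (by linarith [z.2.1]))
      _ fun y hy => by simp only [pc, Set.mem_ofPred_eq] at hy; linarith

abbrev I (m : ℕ) := (Fin m × Fin (2 * m ^ 2)) ⊕ (Fin m × Fin (m ^ 2))

def p1 {m : ℕ} : I m → Bool × ℤ × ℤ
  | .inl (a, b) => (true, (a : ℕ), (b : ℕ))
  | .inr (s, c) => (false, (s : ℕ) + 1, (c : ℕ))

def p2 {m : ℕ} : I m → Bool × ℤ × ℤ
  | .inl (a, b) => (true, (a : ℕ) + 8 * m ^ 2, 1 - (b : ℕ))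
  | .inr (s, c) => (false, -((s : ℕ) + 1), ((s : ℕ) + 1) * (8 * m ^ 2) - (c : ℕ))

noncomputable def cv (t : ℝ) {m : ℕ} (i : I m) (x : ℝ) : ℝ := min (pc t (p1 i) x) (pc t (p2 i) x)

lemma cv_cont (t : ℝ) {m : ℕ} (i : I m) : Continuous (cv t i) := (pc_cont _ _).min (pc_cont _ _)

lemma dist_pc {m : ℕ} {i j : I m} (h : i ≠ j) {p q : Bool × ℤ × ℤ} (hp : p = p1 i ∨ p = p2 i)
    (hq : q = p1 j ∨ q = p2 j) : p ≠ q := by
  rintro rfl
  apply h
  rcases i with ⟨a, b⟩ | ⟨a, b⟩ <;> rcases j with ⟨a', b'⟩ | ⟨a', b'⟩ <;>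
    rcases hp with rfl | rfl <;> rcases hq with e | e <;>
    simp only [p1, p2, Prod.mk.injEq, Bool.true_eq_false, Bool.false_eq_true, false_and,
      true_and] at e <;> obtain ⟨e1, e2⟩ := e
  · rw [Fin.ext (a := a) (b := a') (by omega), Fin.ext (a := b) (b := b') (by omega)]
  · have : (a : ℕ) < m := a.2
    have : (m : ℤ) ≤ m ^ 2 := Int.le_self_sq _
    omega
  · have : (a' : ℕ) < m := a'.2
    have : (m : ℤ) ≤ m ^ 2 := Int.le_self_sq _
    omega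
  · rw [Fin.ext (a := a) (b := a') (by omega), Fin.ext (a := b) (b := b') (by omega)]
  · rw [Fin.ext (a := a) (b := a') (by omega), Fin.ext (a := b) (b := b') (by omega)]
  · omega
  · omega
  · obtain rfl : a = a' := Fin.ext (by omega)
    rw [Fin.ext (a := b) (b := b') (by omega)]

lemma cv_piece (t : ℝ) {m : ℕ} (i : I m) (x : ℝ) :
    ∃ p, (p = p1 i ∨ p = p2 i) ∧ cv t i x = pc t p x := by
  rcases min_choice (pc t (p1 i) x) (pc t (p2 i) x) with h | h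
  exacts [⟨_, Or.inl rfl, h⟩, ⟨_, Or.inr rfl, h⟩]

lemma eight {t : ℝ} (t0 : t ≠ 0) {m : ℕ} {i j : I m} (h : i ≠ j) :
    {x | cv t i x = cv t j x}.encard ≤ 8 := by
  have s : {x | cv t i x = cv t j x} ⊆ ({x | pc t (p1 i) x = pc t (p1 j) x} ∪
      {x | pc t (p1 i) x = pc t (p2 j) x}) ∪ ({x | pc t (p2 i) x = pc t (p1 j) x} ∪
      {x | pc t (p2 i) x = pc t (p2 j) x}) := by
    intro x hx
    obtain ⟨p, hp, e1⟩ := cv_piece t i x
    obtain ⟨q, hq, e2⟩ := cv_piece t j x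
    have : pc t p x = pc t q x := by rw [← e1, ← e2]; exact hx
    rcases hp with rfl | rfl <;> rcases hq with rfl | rfl <;> simp [this]
  refine (Set.encard_le_encard s).trans ((Set.encard_union_le _ _).trans ?_)
  refine (add_le_add ((Set.encard_union_le _ _).trans (add_le_add
    (two t0 _ _ (dist_pc h (Or.inl rfl) (Or.inl rfl))) (two t0 _ _ (dist_pc h (Or.inl rfl) (Or.inr rfl)))))
    ((Set.encard_union_le _ _).trans (add_le_add
    (two t0 _ _ (dist_pc h (Or.inr rfl) (Or.inl rfl))) (two t0 _ _ (dist_pc h (Or.inr rfl) (Or.inr rfl)))))).trans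
    (by norm_num)

lemma no_triple {t : ℝ} (t0 : t ≠ 0) (T : Tr t) {m : ℕ} {i j l : I m} (h1 : i ≠ j) (h2 : i ≠ l)
    (h3 : j ≠ l) (x : ℝ) (e1 : cv t i x = cv t j x) (e2 : cv t i x = cv t l x) : False := by
  obtain ⟨p, hp, a⟩ := cv_piece t i x
  obtain ⟨q, hq, b⟩ := cv_piece t j x
  obtain ⟨r, hr, c⟩ := cv_piece t l x
  exact triple (x := x) t0 T p q r (dist_pc h1 hp hq) (dist_pc h2 hp hr) (dist_pc h3 hq hr)
    (by rw [← a, ← b, e1]) (by rw [← a, ← c, e2])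

lemma evT (k c : ℝ) (h : 0 < k ∨ (k = 0 ∧ c ≤ 0)) : ∀ᶠ x in atTop, c ≤ k * x := by
  rcases h with h | ⟨h, hc⟩
  · exact (eventually_ge_atTop (c / k)).mono fun x hx => by rwa [div_le_iff₀' h] at hx
  · simp [h, hc]

lemma evB (k c : ℝ) (h : 0 < k ∨ (k = 0 ∧ c ≤ 0)) : ∀ᶠ x in atBot, c ≤ k * -x :=
  tendsto_neg_atBot_atTop.eventually (evT k c h)

lemma at01 {t : ℝ} (t1 : 1 < t) {m : ℕ} (a : Fin m) (b : Fin (2 * m ^ 2)) (s : Fin m)
    (c : Fin (m ^ 2)) :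
    cv t (m := m) (.inl (a, b)) (t * a + (s + 1)) - cv t (m := m) (.inr (s, c)) (t * a + (s + 1)) =
      2 * t * (b - (s + 1) * a - c) ∧
    cv t (m := m) (.inl (a, b)) (t * (a + 8 * m ^ 2) - (s + 1)) -
      cv t (m := m) (.inr (s, c)) (t * (a + 8 * m ^ 2) - (s + 1)) =
      2 * t * (1 - (b - (s + 1) * a - c)) := by
  have a1 : ((a : ℕ) : ℝ) + 1 ≤ m := by exact_mod_cast a.2
  have s1 : ((s : ℕ) : ℝ) + 1 ≤ m := by exact_mod_cast s.2
  have b1 : ((b : ℕ) : ℝ) ≤ 2 * m ^ 2 := by exact_mod_cast b.2.le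
  have c1 : ((c : ℕ) : ℝ) ≤ m ^ 2 := by exact_mod_cast c.2.le
  have a0 : (0 : ℝ) ≤ (a : ℕ) := by positivity
  have s0 : (0 : ℝ) ≤ (s : ℕ) := by positivity
  have b0 : (0 : ℝ) ≤ (b : ℕ) := by positivity
  have c0 : (0 : ℝ) ≤ (c : ℕ) := by positivity
  simp only [cv, p1, p2, pc]
  push_cast
  generalize ((a : ℕ) : ℝ) = a at *
  generalize ((b : ℕ) : ℝ) = b at *
  generalize ((c : ℕ) : ℝ) = c at *
  generalize ((s : ℕ) : ℝ) = s at *
  generalize (m : ℝ) = m at *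
  have mm : m ≤ m ^ 2 := by nlinarith
  set B := 8 * m ^ 2 with hB
  have B1 : 8 ≤ B := by nlinarith
  have k1 : 4 * b + 2 * (s + 1) * B ≤ t * B ^ 2 := by nlinarith
  have k2 : 2 * (s + 1) * (t * a + (s + 1)) + 2 * t * c ≤ t * (s + 1) * B := by
    have : t * a + (s + 1) + t * c ≤ t * (4 * m ^ 2) := by nlinarith
    nlinarith [mul_le_mul_of_nonneg_left this (show 0 ≤ s + 1 by linarith),
      mul_nonneg (mul_nonneg (show 0 ≤ t by linarith) c0) s0]
  have k3 : 2 + 2 * (s + 1) * B ≤ t * B ^ 2 := by nlinarith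
  have k4 : 2 * (s + 1) ≤ t * B := by nlinarith
  have t0 : 0 < t := by linarith
  constructor
  · rw [min_eq_left (by nlinarith), min_eq_left (by nlinarith)]; ring
  · rw [min_eq_right (by nlinarith [mul_nonneg t0.le b0]), min_eq_right (by
      nlinarith [mul_le_mul_of_nonneg_left k4 (show 0 ≤ s + 1 by linarith), mul_nonneg t0.le c0,
        mul_nonneg (mul_nonneg t0.le a0) (show 0 ≤ s + 1 by linarith)])]; ring

lemma le_some {t : ℝ} (t1 : 1 < t) {m : ℕ} (i j : I m) : ∃ x, cv t i x ≤ cv t j x := by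
  have t0 : 0 < t := by linarith
  have L1 : ∀ x, pc t (p1 i) x ≤ pc t (p1 j) x ∧ pc t (p1 i) x ≤ pc t (p2 j) x →
      cv t i x ≤ cv t j x := fun x h => (min_le_left _ _).trans (le_min h.1 h.2)
  have L2 : ∀ x, pc t (p2 i) x ≤ pc t (p1 j) x ∧ pc t (p2 i) x ≤ pc t (p2 j) x →
      cv t i x ≤ cv t j x := fun x h => (min_le_right _ _).trans (le_min h.1 h.2)
  rcases i with ⟨a, b⟩ | ⟨a, b⟩ <;> rcases j with ⟨a', b'⟩ | ⟨a', b'⟩
  · have a1 : ((a : ℕ) : ℝ) + 1 ≤ m := by exact_mod_cast a.2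
    have a0 : (0 : ℝ) ≤ (a : ℕ) := by positivity
    have m0 : (0 : ℝ) < m ^ 2 := by nlinarith
    by_cases h : (a : ℕ) < a' ∨ ((a : ℕ) = a' ∧ (b : ℕ) ≤ b')
    · have k : ((a : ℕ) : ℝ) < (a' : ℕ) ∨ (((a : ℕ) : ℝ) = (a' : ℕ) ∧ ((b : ℕ) : ℝ) ≤ (b' : ℕ)) := by
        exact_mod_cast h
      obtain ⟨x, h1, h2⟩ := ((evB (2 * t * (a' - a)) (t ^ 2 * (a ^ 2 - a' ^ 2) + 2 * t * (b - b'))
        (k.imp (fun k => by nlinarith) fun k => by rw [k.1]; constructor <;> nlinarith [k.2])).and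
        (evB (2 * t * (a' + 8 * m ^ 2 - a)) (t ^ 2 * (a ^ 2 - (a' + 8 * m ^ 2) ^ 2) +
          2 * t * (b - (1 - b'))) (Or.inl (by rcases k with k | k <;> nlinarith [k])))).exists
      exact ⟨x, L1 x (by simp only [p1, p2, pc]; push_cast; constructor <;> linarith)⟩
    · have h : (a' : ℕ) < a ∨ ((a : ℕ) = a' ∧ (b' : ℕ) ≤ b) := by omega
      have k : ((a' : ℕ) : ℝ) < (a : ℕ) ∨ (((a : ℕ) : ℝ) = (a' : ℕ) ∧ ((b' : ℕ) : ℝ) ≤ (b : ℕ)) := by
        exact_mod_cast h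
      obtain ⟨x, h1, h2⟩ := ((evT (2 * t * (a - a')) (t ^ 2 * ((a + 8 * m ^ 2) ^ 2 -
        (a' + 8 * m ^ 2) ^ 2) + 2 * t * (b' - b))
        (k.imp (fun k => by nlinarith) fun k => by rw [k.1]; constructor <;> nlinarith [k.2])).and
        (evT (2 * t * (a + 8 * m ^ 2 - a')) (t ^ 2 * ((a + 8 * m ^ 2) ^ 2 - a' ^ 2) +
          2 * t * (1 - b - b')) (Or.inl (by rcases k with k | k <;> nlinarith [k])))).exists
      exact ⟨x, L2 x (by simp only [p1, p2, pc]; push_cast; constructor <;> linarith)⟩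
  · obtain ⟨h1, h2⟩ := at01 t1 a b a' b'
    by_cases h : ((b : ℕ) : ℤ) - ((a' : ℕ) + 1) * (a : ℕ) - (b' : ℕ) ≤ 0
    · have : ((b : ℕ) : ℝ) - ((a' : ℕ) + 1) * (a : ℕ) - (b' : ℕ) ≤ 0 := by exact_mod_cast h
      exact ⟨_, sub_nonpos.1 (h1.trans_le (by nlinarith))⟩
    · have h : 1 ≤ ((b : ℕ) : ℤ) - ((a' : ℕ) + 1) * (a : ℕ) - (b' : ℕ) := by omega
      have : 1 ≤ ((b : ℕ) : ℝ) - ((a' : ℕ) + 1) * (a : ℕ) - (b' : ℕ) := by exact_mod_cast h
      exact ⟨_, sub_nonpos.1 (h2.trans_le (by nlinarith))⟩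
  · obtain ⟨h1, h2⟩ := at01 t1 a' b' a b
    rcases le_total 0 (((b' : ℕ) : ℝ) - ((a : ℕ) + 1) * (a' : ℕ) - (b : ℕ)) with h | h
    · exact ⟨_, sub_nonneg.1 (le_of_le_of_eq (by nlinarith) h1.symm)⟩
    · exact ⟨_, sub_nonneg.1 (le_of_le_of_eq (by nlinarith) h2.symm)⟩
  · have a0 : (0 : ℝ) ≤ (a : ℕ) := by positivity
    have a0' : (0 : ℝ) ≤ (a' : ℕ) := by positivity
    rcases lt_trichotomy (a : ℕ) a' with h | h | h
    · have k : ((a : ℕ) : ℝ) + 1 ≤ (a' : ℕ) := by exact_mod_cast h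
      have a1 : ((a' : ℕ) : ℝ) + 1 ≤ m := by exact_mod_cast a'.2
      have c1 : ((b : ℕ) : ℝ) ≤ m ^ 2 := by exact_mod_cast b.2.le
      have c2 : ((b' : ℕ) : ℝ) ≤ m ^ 2 := by exact_mod_cast b'.2.le
      have c0 : (0 : ℝ) ≤ (b' : ℕ) := by positivity
      have m0 : (0 : ℝ) ≤ t * m ^ 2 := by positivity
      have q : (((a' : ℕ) : ℝ) + 1) ^ 2 ≤ t * m ^ 2 := by nlinarith
      have q1 := mul_le_mul_of_nonneg_left k m0
      have q2 := mul_le_mul_of_nonneg_left c1 t0.le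
      have q3 := mul_le_mul_of_nonneg_left c2 t0.le
      refine ⟨t * (4 * m ^ 2), L1 _ ?_⟩
      simp only [p1, p2, pc]; push_cast
      constructor <;> nlinarith [sq_nonneg (((a : ℕ) : ℝ) + 1), mul_nonneg t0.le c0]
    · have k : ((a : ℕ) : ℝ) = (a' : ℕ) := by exact_mod_cast h
      rcases le_total ((b : ℕ) : ℝ) (b' : ℕ) with g | g
      · obtain ⟨x, h1⟩ := (evB (4 * (a + 1)) (2 * t * (b - ((a + 1) * (8 * m ^ 2) - b')))
          (Or.inl (by linarith))).exists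
        exact ⟨x, L1 x (by simp only [p1, p2, pc]; push_cast; rw [← k]; constructor <;> nlinarith)⟩
      · obtain ⟨x, h1⟩ := (evT (4 * (a + 1)) (2 * t * ((a + 1) * (8 * m ^ 2) - b - b'))
          (Or.inl (by linarith))).exists
        exact ⟨x, L2 x (by simp only [p1, p2, pc]; push_cast; rw [← k]; constructor <;> nlinarith)⟩
    · have k : ((a' : ℕ) : ℝ) < (a : ℕ) := by exact_mod_cast h
      obtain ⟨x, h1, h2⟩ := ((evB (2 * (a - a')) ((a' + 1) ^ 2 - (a + 1) ^ 2 + 2 * t * (b - b'))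
        (Or.inl (by linarith))).and (evB (2 * (a + a' + 2)) ((a' + 1) ^ 2 - (a + 1) ^ 2 +
          2 * t * (b - ((a' + 1) * (8 * m ^ 2) - b'))) (Or.inl (by linarith)))).exists
      exact ⟨x, L1 x (by simp only [p1, p2, pc]; push_cast; constructor <;> linarith)⟩

lemma meet {t : ℝ} (t1 : 1 < t) {m : ℕ} (i j : I m) : ∃ x, cv t i x = cv t j x := by
  obtain ⟨x, hx⟩ := le_some t1 i j
  obtain ⟨y, hy⟩ := le_some t1 j i
  exact intermediate_value_univ₂ (cv_cont t i) (cv_cont t j) hx hy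

lemma tangent {t : ℝ} (t1 : 1 < t) {m : ℕ} (a : Fin m) (b : Fin (2 * m ^ 2)) (s : Fin m)
    (c : Fin (m ^ 2)) (h : (b : ℕ) = (s + 1) * a + c) :
    (∃! x, cv t (m := m) (.inr (s, c)) x = cv t (m := m) (.inl (a, b)) x) ∧
      ∀ x, cv t (m := m) (.inr (s, c)) x ≤ cv t (m := m) (.inl (a, b)) x := by
  have h' : ((b : ℕ) : ℝ) = ((s : ℕ) + 1) * (a : ℕ) + (c : ℕ) := by exact_mod_cast h
  have key : ∀ x, cv t (m := m) (.inr (s, c)) x + min ((x - (t * a + (s + 1))) ^ 2) (2 * t) ≤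
      cv t (m := m) (.inl (a, b)) x := by
    intro x
    refine le_min ((add_le_add (min_le_left _ _) (min_le_left _ _)).trans (le_of_eq ?_))
      ((add_le_add (min_le_right _ _) (min_le_right _ _)).trans ?_)
    · simp only [p1, pc]; push_cast; rw [h']; ring
    · simp only [p2, pc]; push_cast; rw [h']
      nlinarith [sq_nonneg (x - t * (a + 8 * m ^ 2) + (s + 1))]
  refine ⟨⟨t * a + (s + 1), ?_, fun y hy => ?_⟩, fun x => le_trans (le_add_of_nonneg_right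
    (le_min (sq_nonneg _) (by linarith))) (key x)⟩
  · have := (at01 t1 a b s c).1
    rw [h'] at this
    linarith
  · have := key y
    rw [hy, add_le_iff_nonpos_right, min_le_iff] at this
    rcases this with k | k
    · exact sub_eq_zero.1 (pow_eq_zero_iff two_ne_zero |>.1 (le_antisymm k (sq_nonneg _)))
    · linarith

theorem main (m : ℕ) : ∃ f : Fin (3 * m ^ 3) → ℝ → ℝ, (∀ i, Continuous (f i)) ∧
    (∀ i j, i ≠ j → {x | f i x = f j x}.Nonempty ∧ {x | f i x = f j x}.encard ≤ 8) ∧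
    (∀ i j l, i ≠ j → i ≠ l → j ≠ l → ∀ x, ¬ (f i x = f j x ∧ f i x = f l x)) ∧
    m ^ 4 ≤ {p : Sym2 (Fin (3 * m ^ 3)) | ∃ i j, p = s(i, j) ∧ i ≠ j ∧ (∃! x, f i x = f j x) ∧
      ((∀ x, f i x ≤ f j x) ∨ (∀ x, f j x ≤ f i x))}.ncard := by
  obtain ⟨t, t1, -, T⟩ := exists_tr
  have t0 : t ≠ 0 := by linarith
  let e : I m ≃ Fin (3 * m ^ 3) := Fintype.equivFinOfCardEq (by simp; ring)
  refine ⟨fun i => cv t (e.symm i), fun i => cv_cont _ _, fun i j h =>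
    ⟨meet t1 _ _, eight t0 (e.symm.injective.ne h)⟩, fun i j l h1 h2 h3 x h => no_triple t0 T
      (e.symm.injective.ne h1) (e.symm.injective.ne h2) (e.symm.injective.ne h3) x h.1 h.2, ?_⟩
  have lt : ∀ (a s : Fin m) (c : Fin (m ^ 2)), ((s : ℕ) + 1) * a + c < 2 * m ^ 2 := by
    intro a s c
    have := Nat.mul_le_mul (Nat.succ_le_of_lt s.2) a.2.le
    have := c.2
    simp only [Nat.succ_eq_add_one] at *
    nlinarith
  let g : Fin m × Fin m × Fin (m ^ 2) → Sym2 (Fin (3 * m ^ 3)) := fun u =>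
    s(e (.inr (u.2.1, u.2.2)), e (.inl (u.1, ⟨_, lt u.1 u.2.1 u.2.2⟩)))
  have gi : Function.Injective g := by
    rintro ⟨a, s, c⟩ ⟨a', s', c'⟩ h
    simp only [g, Sym2.eq_iff, EmbeddingLike.apply_eq_iff_eq, Sum.inr.injEq, Sum.inl.injEq,
      Prod.mk.injEq, reduceCtorEq, false_and, or_false] at h
    rw [h.1.1, h.1.2, h.2.1]
  have c : (Set.range g).ncard = m ^ 4 := by
    rw [Set.ncard_range_of_injective gi]; simp; ring
  rw [← c]
  refine Set.ncard_le_ncard ?_ (Set.toFinite _)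
  rintro _ ⟨⟨a, s, c⟩, rfl⟩
  refine ⟨_, _, rfl, by simp, ?_⟩
  simp only [Equiv.symm_apply_apply]
  exact (tangent t1 a _ s c rfl).imp_right Or.inl

end Pool.Agent.H9.Tang
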