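import Mathlib

namespace H9Tur

open Finset

/-- `F` is a family of `t`-subsets of `Fin n` such that every `k`-subset contains a member. -/
def Covering (n k t : ℕ) (F : Finset (Finset (Fin n))) : Prop :=
  (∀ f ∈ F, f.card = t) ∧ ∀ K : Finset (Fin n), K.card = k → ∃ f ∈ F, f ⊆ K

/-- The Turán number `T(n,k,t)`: least size of a `k`-covering family of `t`-subsets. -/
noncomputable def turan (n k t : ℕ) : ℕ :=
  sInf {m : ℕ | ∃ F : Finset (Finset (Fin n)), Covering n k t F ∧ F.card = m}

theorem lower {n q r : ℕ} (hq : q ≤ n) (hr : r ≤ n) {F : Finset (Finset (Fin n))}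
    (h : Covering n (n - r) (n - q) F) : n.choose r ≤ F.card * q.choose r := by
  classical
  have hsub : powersetCard r (univ : Finset (Fin n)) ⊆ F.biUnion (fun f => powersetCard r fᶜ) := by
    intro R hR
    have hRc : R.card = r := (mem_powersetCard.1 hR).2
    obtain ⟨f, hf, hfs⟩ := h.2 Rᶜ (by rw [card_compl, Fintype.card_fin, hRc])
    refine mem_biUnion.2 ⟨f, hf, mem_powersetCard.2 ⟨?_, hRc⟩⟩
    intro x hx
    rw [mem_compl]
    intro hxf
    exact (mem_compl.1 (hfs hxf)) hx
  have h1 := card_le_card hsub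
  rw [card_powersetCard, card_univ, Fintype.card_fin] at h1
  refine h1.trans (card_biUnion_le.trans ?_)
  have : ∀ f ∈ F, (powersetCard r fᶜ).card = q.choose r := by
    intro f hf
    rw [card_powersetCard, card_compl, Fintype.card_fin, h.1 f hf]
    congr 1
    omega
  rw [sum_congr rfl this, sum_const, smul_eq_mul]

theorem of_steiner {n q r : ℕ} (hq : q ≤ n) (hrq : r ≤ q) (B : Finset (Finset (Fin n)))
    (h1 : ∀ b ∈ B, b.card = q)
    (h2 : ∀ T : Finset (Fin n), T.card = r → ∃! b, b ∈ B ∧ T ⊆ b) :
    turan n (n - r) (n - q) * q.choose r = n.choose r := by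
  classical
  have hr : r ≤ n := hrq.trans hq
  have hcov : Covering n (n - r) (n - q) (B.image compl) := by
    refine ⟨?_, ?_⟩
    · intro f hf
      obtain ⟨b, hb, rfl⟩ := mem_image.1 hf
      rw [card_compl, Fintype.card_fin, h1 b hb]
    · intro K hK
      obtain ⟨b, ⟨hb, hKb⟩, -⟩ := h2 Kᶜ (by rw [card_compl, Fintype.card_fin, hK]; omega)
      refine ⟨bᶜ, mem_image_of_mem _ hb, ?_⟩
      intro x hx
      by_contra hxK
      exact (mem_compl.1 hx) (hKb (mem_compl.2 hxK))
  have hup : B.card * q.choose r ≤ n.choose r := by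
    have hdisj : (B : Set (Finset (Fin n))).PairwiseDisjoint (fun b => powersetCard r b) := by
      intro b hb c hc hbc
      rw [Function.onFun, disjoint_left]
      intro T hTb hTc
      obtain ⟨hTb1, hT⟩ := mem_powersetCard.1 hTb
      obtain ⟨hTc1, -⟩ := mem_powersetCard.1 hTc
      exact hbc ((h2 T hT).unique ⟨hb, hTb1⟩ ⟨hc, hTc1⟩)
    have hcard := card_biUnion hdisj
    have hs : ∀ b ∈ B, (powersetCard r b).card = q.choose r := by
      intro b hb
      rw [card_powersetCard, h1 b hb]
    rw [sum_congr rfl hs, sum_const, smul_eq_mul] at hcard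
    rw [← hcard]
    have hsub : B.biUnion (fun b => powersetCard r b) ⊆ powersetCard r (univ : Finset (Fin n)) := by
      intro T hT
      obtain ⟨b, -, hTb⟩ := mem_biUnion.1 hT
      exact mem_powersetCard.2 ⟨subset_univ _, (mem_powersetCard.1 hTb).2⟩
    have := card_le_card hsub
    rwa [card_powersetCard, card_univ, Fintype.card_fin] at this
  have hne : {m : ℕ | ∃ F : Finset (Finset (Fin n)), Covering n (n - r) (n - q) F ∧
      F.card = m}.Nonempty := ⟨_, _, hcov, rfl⟩
  apply le_antisymm
  · have hle : turan n (n - r) (n - q) ≤ (B.image compl).card := Nat.sInf_le ⟨_, hcov, rfl⟩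
    exact (Nat.mul_le_mul_right _ (hle.trans card_image_le)).trans hup
  · obtain ⟨F, hF, hFc⟩ := Nat.sInf_mem hne
    have := lower hq hr hF
    rw [hFc] at this
    exact this

end H9Tur
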