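import Mathlib

set_option autoImplicit false

open Finset

namespace Pool.Agent.H9.Wqo

abbrev Pt := ℝ × ℝ

def D (a b c : Pt) : ℝ := (b.1 - a.1) * (c.2 - a.2) - (b.2 - a.2) * (c.1 - a.1)

lemma D_cyc (a b c : Pt) : D a b c = D b c a := by unfold D; ring

lemma D_swap (a b c : Pt) : D a b c = -D a c b := by unfold D; ring

def GP (G : Finset Pt) : Prop :=
  ∀ a ∈ G, ∀ b ∈ G, ∀ c ∈ G, a ≠ b → a ≠ c → b ≠ c → D a b c ≠ 0

def Emb (S S' : Finset Pt) : Prop :=
  ∃ f : Pt → Pt, Set.InjOn f S ∧ (∀ x ∈ S, f x ∈ S') ∧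
    ∀ x ∈ S, ∀ y ∈ S, ∀ z ∈ S,
      SignType.sign (D (f x) (f y) (f z)) = SignType.sign (D x y z)

lemma higman {G : Type} [Finite G] (A : ℕ → Finset ℝ) (c : ℕ → ℝ → G) :
    ∃ i j, i < j ∧ ∃ g : ℝ → ℝ, StrictMonoOn g (A i) ∧ (∀ t ∈ A i, g t ∈ A j) ∧
      ∀ t ∈ A i, c j (g t) = c i t := by
  classical
  have h0 : (Set.univ : Set G).PartiallyWellOrderedOn (· = ·) :=
    Set.Finite.partiallyWellOrderedOn (r := fun a b : G => a = b) Set.finite_univ
  have h1 := Set.PartiallyWellOrderedOn.partiallyWellOrderedOn_sublistForall₂ (fun a b : G => a = b) h0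
  set w : ℕ → List G := fun n =>
    List.ofFn (fun k : Fin (A n).card => c n ((A n).orderEmbOfFin rfl k)) with hw
  obtain ⟨i, j, hij, h⟩ := h1.exists_lt (f := w) (fun n => by simp)
  refine ⟨i, j, hij, ?_⟩
  rw [List.sublistForall₂_iff] at h
  obtain ⟨l, hl, hs⟩ := h
  rw [List.forall₂_eq_eq_eq] at hl
  subst hl
  obtain ⟨e, he⟩ := List.sublist_iff_exists_fin_orderEmbedding_get_eq.1 hs
  have li : (w i).length = (A i).card := by simp [hw]
  have lj : (w j).length = (A j).card := by simp [hw]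
  let idx : ∀ t ∈ A i, Fin (w i).length := fun t ht =>
    Fin.cast li.symm (((A i).orderIsoOfFin rfl).symm ⟨t, ht⟩)
  refine ⟨fun t => if ht : t ∈ A i then (A j).orderEmbOfFin rfl (Fin.cast lj (e (idx t ht))) else 0,
    ?_, ?_, ?_⟩
  · intro s hs t ht hst
    have hs' : s ∈ A i := hs
    have ht' : t ∈ A i := ht
    simp only [hs', ht', dif_pos]
    apply ((A j).orderEmbOfFin rfl).strictMono
    have : idx s hs' < idx t ht' := by
      have : ((A i).orderIsoOfFin rfl).symm ⟨s, hs'⟩ < ((A i).orderIsoOfFin rfl).symm ⟨t, ht'⟩ :=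
        ((A i).orderIsoOfFin rfl).symm.strictMono (by exact hst)
      exact this
    exact e.strictMono this
  · intro t ht
    simp only [ht, dif_pos]
    exact Finset.orderEmbOfFin_mem _ _ _
  · intro t ht
    simp only [ht, dif_pos]
    have hg : ∀ n (k : Fin (w n).length) (hn : (w n).length = (A n).card),
        (w n).get k = c n ((A n).orderEmbOfFin rfl (Fin.cast hn k)) := by
      intro n k hn
      exact List.get_ofFn _ _
    have := he (idx t ht)
    rw [hg i _ li, hg j _ lj] at this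
    have e2 : (A i).orderEmbOfFin rfl (Fin.cast li (idx t ht)) = t := by
      have : (((A i).orderIsoOfFin rfl) (((A i).orderIsoOfFin rfl).symm ⟨t, ht⟩) : ℝ) = t := by
        simp
      exact this
    have e3 : c i t = c i ((A i).orderEmbOfFin rfl (Fin.cast li (idx t ht))) := by rw [e2]
    rw [e3]
    exact this.symm

def Code (L : Type) (S : Finset Pt) : Prop :=
  ∃ (th : Pt → ℝ) (lab : Pt → L),
    (∀ x ∈ S, ∀ y ∈ S, th x = th y → lab x = lab y → x = y) ∧
    ∀ x ∈ S, ∀ y ∈ S, ∀ z ∈ S, ∀ x' ∈ S, ∀ y' ∈ S, ∀ z' ∈ S,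
      lab x = lab x' → lab y = lab y' → lab z = lab z' →
      SignType.sign (th x - th y) = SignType.sign (th x' - th y') →
      SignType.sign (th y - th z) = SignType.sign (th y' - th z') →
      SignType.sign (th z - th x) = SignType.sign (th z' - th x') →
      SignType.sign (D x y z) = SignType.sign (D x' y' z')

lemma Code.map {L L' : Type} {S : Finset Pt} (h : Code L S) (e : L → L')
    (he : Function.Injective e) : Code L' S := by
  obtain ⟨th, lab, h1, h2⟩ := h
  exact ⟨th, e ∘ lab, fun x hx y hy a b => h1 x hx y hy a (he b),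
    fun x hx y hy z hz x' hx' y' hy' z' hz' a b c =>
      h2 x hx y hy z hz x' hx' y' hy' z' hz' (he a) (he b) (he c)⟩

lemma sign_mono {g : ℝ → ℝ} {A : Set ℝ} (hg : StrictMonoOn g A) {s t : ℝ} (hs : s ∈ A)
    (ht : t ∈ A) : SignType.sign (g s - g t) = SignType.sign (s - t) := by
  rcases lt_trichotomy s t with h | h | h
  · rw [sign_neg (sub_neg.2 h), sign_neg (sub_neg.2 (hg hs ht h))]
  · subst h; simp
  · rw [sign_pos (sub_pos.2 h), sign_pos (sub_pos.2 (hg ht hs h))]

lemma wqo_of_code {L : Type} [Finite L] (S : ℕ → Finset Pt) (h : ∀ n, Code L (S n)) :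
    ∃ i j, i < j ∧ Emb (S i) (S j) := by
  classical
  choose th lab h1 h2 using h
  let tab : ℕ → Set (L × L × L × SignType × SignType × SignType × SignType) := fun n =>
    {u | ∃ x ∈ S n, ∃ y ∈ S n, ∃ z ∈ S n, u = (lab n x, lab n y, lab n z,
      SignType.sign (th n x - th n y), SignType.sign (th n y - th n z),
      SignType.sign (th n z - th n x), SignType.sign (D x y z))}
  let c : ℕ → ℝ → Set (L × L × L × SignType × SignType × SignType × SignType) × Set L :=
    fun n t => (tab n, {l | ∃ x ∈ S n, th n x = t ∧ lab n x = l})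
  obtain ⟨i, j, hij, g, g1, g2, g3⟩ := higman (fun n => (S n).image (th n)) c
  refine ⟨i, j, hij, ?_⟩
  have hm : ∀ x ∈ S i, th i x ∈ (S i).image (th i) := fun x hx => mem_image_of_mem _ hx
  have key : ∀ x ∈ S i, ∃ y ∈ S j, th j y = g (th i x) ∧ lab j y = lab i x := by
    intro x hx
    have := congrArg Prod.snd (g3 _ (hm x hx))
    have h3 : lab i x ∈ (c i (th i x)).2 := ⟨x, hx, rfl, rfl⟩
    rw [← this] at h3
    exact h3
  choose! f f1 f2 f3 using key
  refine ⟨f, ?_, f1, ?_⟩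
  · intro x hx y hy hxy
    apply h1 i x hx y hy
    · apply g1.injOn (hm x hx) (hm y hy)
      rw [← f2 x hx, ← f2 y hy, hxy]
    · rw [← f3 x hx, ← f3 y hy, hxy]
  · intro x hx y hy z hz
    have ht : tab j = tab i := congrArg Prod.fst (g3 _ (hm x hx))
    have : (lab i x, lab i y, lab i z,
      SignType.sign (th i x - th i y), SignType.sign (th i y - th i z),
      SignType.sign (th i z - th i x), SignType.sign (D x y z)) ∈ tab j := by
      rw [ht]; exact ⟨x, hx, y, hy, z, hz, rfl⟩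
    obtain ⟨x', hx', y', hy', z', hz', e⟩ := this
    simp only [Prod.mk.injEq] at e
    obtain ⟨e1, e2, e3, e4, e5, e6, e7⟩ := e
    rw [e7]
    apply h2 j _ (f1 x hx) _ (f1 y hy) _ (f1 z hz) _ hx' _ hy' _ hz'
    · rw [f3 x hx, e1]
    · rw [f3 y hy, e2]
    · rw [f3 z hz, e3]
    · rw [f2 x hx, f2 y hy, sign_mono g1 (hm x hx) (hm y hy), e4]
    · rw [f2 y hy, f2 z hz, sign_mono g1 (hm y hy) (hm z hz), e5]
    · rw [f2 z hz, f2 x hx, sign_mono g1 (hm z hz) (hm x hx), e6]

lemma par (a b r y z : Pt) (hy : D a b y = 0) (hz : D a b z = 0) :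
    D r y z * ((b.1 - a.1) ^ 2 + (b.2 - a.2) ^ 2) =
      (((z.1 - a.1) * (b.1 - a.1) + (z.2 - a.2) * (b.2 - a.2)) -
        ((y.1 - a.1) * (b.1 - a.1) + (y.2 - a.2) * (b.2 - a.2))) * D r a b := by
  unfold D at *
  linear_combination
    (((y.1 - r.1) * (b.1 - a.1) + (y.2 - r.2) * (b.2 - a.2))) * hz -
    (((z.1 - r.1) * (b.1 - a.1) + (z.2 - r.2) * (b.2 - a.2))) * hy

lemma npos {a b : Pt} (h : a ≠ b) : 0 < (b.1 - a.1) ^ 2 + (b.2 - a.2) ^ 2 := by
  by_contra hc
  have h1 : b.1 - a.1 = 0 := by nlinarith [sq_nonneg (b.1 - a.1), sq_nonneg (b.2 - a.2)]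
  have h2 : b.2 - a.2 = 0 := by nlinarith [sq_nonneg (b.1 - a.1), sq_nonneg (b.2 - a.2)]
  exact h (Prod.ext (by linarith) (by linarith))

lemma col3 {a b x y z : Pt} (h : a ≠ b) (hx : D a b x = 0) (hy : D a b y = 0)
    (hz : D a b z = 0) : D x y z = 0 := by
  have h1 := par a b x y z hy hz
  have h2 : D x a b = 0 := by rw [D_cyc]; exact hx
  rw [h2, mul_zero] at h1
  exact (mul_eq_zero.1 h1).resolve_right (npos h).ne'

lemma sign_neg' (t : ℝ) : SignType.sign (-t) = -SignType.sign t := Left.sign_neg t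

lemma codeA (N : ℕ) (S : Finset Pt) (a b : Pt) (hab : a ≠ b)
    (hN : (S.filter (fun x => D a b x ≠ 0)).card ≤ N) :
    Code ((Fin N → Fin N → SignType) × (Fin N → Prop)) S := by
  classical
  obtain ⟨r, hr⟩ : ∃ r : Fin N → Pt, ∀ x ∈ S, D a b x ≠ 0 → ∃ k, r k = x := by
    set R := S.filter (fun x => D a b x ≠ 0)
    refine ⟨fun k => if h : k.val < R.card then (R.equivFin.symm ⟨k, h⟩ : Pt) else 0, ?_⟩
    intro x hx hx0
    have hxR : x ∈ R := mem_filter.2 ⟨hx, hx0⟩
    refine ⟨⟨R.equivFin ⟨x, hxR⟩, lt_of_lt_of_le (R.equivFin ⟨x, hxR⟩).2 hN⟩, ?_⟩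
    simp
  let th : Pt → ℝ := fun z => (z.1 - a.1) * (b.1 - a.1) + (z.2 - a.2) * (b.2 - a.2)
  let lab : Pt → (Fin N → Fin N → SignType) × (Fin N → Prop) :=
    fun x => (fun k l => SignType.sign (D (r k) (r l) x), fun k => r k = x)
  have hl : ∀ x x' k, lab x = lab x' → r k = x → r k = x' := by
    intro x x' k h hk
    have := congrFun (congrArg Prod.snd h) k
    simp only [lab] at this
    rw [← this]; exact hk
  have hoff : ∀ x ∈ S, ∀ x', lab x = lab x' → D a b x ≠ 0 → x' = x ∧ ∃ k, r k = x := by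
    intro x hx x' h h0
    obtain ⟨k, hk⟩ := hr x hx h0
    exact ⟨by rw [← hl x x' k h hk, hk], k, hk⟩
  have hon : ∀ x, ∀ x' ∈ S, lab x = lab x' → D a b x = 0 → D a b x' = 0 := by
    intro x x' hx' h h0
    by_contra hc
    obtain ⟨e, -⟩ := hoff x' hx' x h.symm hc
    exact hc (e ▸ h0)
  have n0 := npos hab
  have one : ∀ x y z y' z' : Pt, D a b y = 0 → D a b z = 0 → D a b y' = 0 → D a b z' = 0 →
      SignType.sign (th y - th z) = SignType.sign (th y' - th z') →
      SignType.sign (D x y z) = SignType.sign (D x y' z') := by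
    intro x y z y' z' hy hz hy' hz' hs
    have e1 := congrArg SignType.sign (par a b x y z hy hz)
    have e2 := congrArg SignType.sign (par a b x y' z' hy' hz')
    rw [sign_mul, sign_pos n0, mul_one, sign_mul] at e1 e2
    have f1 : SignType.sign (th z - th y) = SignType.sign (th z' - th y') := by
      rw [← neg_sub, sign_neg', hs, ← sign_neg', neg_sub]
    rw [e1, e2]
    exact congrArg (· * _) f1
  have two : ∀ x y z z' : Pt, (∃ k, r k = x) → (∃ k, r k = y) → lab z = lab z' →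
      SignType.sign (D x y z) = SignType.sign (D x y z') := by
    rintro x y z z' ⟨k, rfl⟩ ⟨l, rfl⟩ h
    exact congrFun (congrFun (congrArg Prod.fst h) k) l
  have main : ∀ x ∈ S, ∀ y ∈ S, ∀ z ∈ S, ∀ x' ∈ S, ∀ y' ∈ S, ∀ z' ∈ S,
      lab x = lab x' → lab y = lab y' → lab z = lab z' →
      SignType.sign (th y - th z) = SignType.sign (th y' - th z') → D a b x ≠ 0 →
      SignType.sign (D x y z) = SignType.sign (D x' y' z') := by
    intro x hx y hy z hz x' hx' y' hy' z' hz' lx ly lz hs h0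
    obtain ⟨rfl, kx⟩ := hoff x hx x' lx h0
    by_cases hy0 : D a b y = 0
    · by_cases hz0 : D a b z = 0
      · exact one _ _ _ _ _ hy0 hz0 (hon _ _ hy' ly hy0) (hon _ _ hz' lz hz0) hs
      · obtain ⟨rfl, kz⟩ := hoff z hz z' lz hz0
        rw [D_cyc, D_cyc y, D_cyc x' y', D_cyc y']
        exact two _ _ _ _ kz kx ly
    · obtain ⟨rfl, ky⟩ := hoff y hy y' ly hy0
      exact two _ _ _ _ kx ky lz
  refine ⟨th, lab, ?_, ?_⟩
  · intro x hx y hy ht hxy
    by_cases h0 : D a b x = 0
    · have h1 := hon x y hy hxy h0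
      have e1 : (x.1 - y.1) * ((b.1 - a.1) ^ 2 + (b.2 - a.2) ^ 2) = 0 := by
        simp only [th, D] at ht h0 h1
        linear_combination (b.1 - a.1) * ht - (b.2 - a.2) * h0 + (b.2 - a.2) * h1
      have e2 : (x.2 - y.2) * ((b.1 - a.1) ^ 2 + (b.2 - a.2) ^ 2) = 0 := by
        simp only [th, D] at ht h0 h1
        linear_combination (b.2 - a.2) * ht + (b.1 - a.1) * h0 - (b.1 - a.1) * h1
      have f1 := (mul_eq_zero.1 e1).resolve_right n0.ne'
      have f2 := (mul_eq_zero.1 e2).resolve_right n0.ne'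
      exact Prod.ext (by linarith) (by linarith)
    · exact (hoff x hx y hxy h0).1.symm
  · intro x hx y hy z hz x' hx' y' hy' z' hz' lx ly lz s1 s2 s3
    by_cases hx0 : D a b x = 0
    · by_cases hy0 : D a b y = 0
      · by_cases hz0 : D a b z = 0
        · rw [col3 hab hx0 hy0 hz0,
            col3 hab (hon _ _ hx' lx hx0) (hon _ _ hy' ly hy0) (hon _ _ hz' lz hz0)]
        · rw [D_cyc, D_cyc y, D_cyc x', D_cyc y']
          exact main z hz x hx y hy z' hz' x' hx' y' hy' lz lx ly s1 hz0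
      · rw [D_cyc, D_cyc x']
        exact main y hy z hz x hx y' hy' z' hz' x' hx' ly lz lx s3 hy0
    · exact main x hx y hy z hz x' hx' y' hy' z' hz' lx ly lz s2 hx0

lemma two_on {a b c d x y : Pt} (hxy : x ≠ y) (h1 : D a b x = 0) (h2 : D a b y = 0)
    (h3 : D c d x = 0) (h4 : D c d y = 0) (hcd : c ≠ d) (hab : a ≠ b) :
    D a b c = 0 ∧ D a b d = 0 := by
  have hc : D x y c = 0 := col3 hcd h3 h4 (by unfold D; ring)
  have hd : D x y d = 0 := col3 hcd h3 h4 (by unfold D; ring)
  have ha : D x y a = 0 := col3 hab h1 h2 (by unfold D; ring)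
  have hb : D x y b = 0 := col3 hab h1 h2 (by unfold D; ring)
  exact ⟨col3 hxy ha hb hc, col3 hxy ha hb hd⟩

lemma prop (a b x y z p : Pt) (hx : D a b x = 0) (hy : D a b y = 0) :
    D x y z * D a b p = D x y p * D a b z := by
  unfold D at *
  linear_combination
    ((z.1 - y.1) * (p.2 - y.2) - (z.2 - y.2) * (p.1 - y.1)) * hx -
    ((z.1 - x.1) * (p.2 - x.2) - (z.2 - x.2) * (p.1 - x.1)) * hy

lemma codeB (S : Finset Pt) (a b c d p : Pt) (hab : a ≠ b) (hcd : c ≠ d)
    (p1 : D a b p ≠ 0) (p2 : D c d p ≠ 0) (hS : ∀ x ∈ S, x = p ∨ D a b x = 0 ∨ D c d x = 0) :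
    Code (SignType × SignType × SignType) S := by
  classical
  obtain ⟨s, hs⟩ : ∃ s : ℝ, ∀ x ∈ S, x ≠ p → (x.1 - p.1) + s * (x.2 - p.2) ≠ 0 := by
    obtain ⟨s, hs⟩ := Infinite.exists_notMem_finset
      (S.image (fun x => -(x.1 - p.1) / (x.2 - p.2)))
    refine ⟨s, fun x hx hxp h => ?_⟩
    by_cases h2 : x.2 - p.2 = 0
    · rw [h2] at h
      exact hxp (Prod.ext (by linarith) (by linarith))
    · apply hs
      refine mem_image.2 ⟨x, hx, ?_⟩
      field_simp
      linarith
  let l : Pt → ℝ := fun x => (x.1 - p.1) + s * (x.2 - p.2)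
  let th : Pt → ℝ := fun x => (x.2 - p.2) / l x
  let lab : Pt → SignType × SignType × SignType :=
    fun x => (SignType.sign (l x), SignType.sign (D a b x), SignType.sign (D c d x))
  have lp : l p = 0 := by simp [l]
  have form : ∀ y ∈ S, ∀ z ∈ S, D p y z = l y * l z * -(th y - th z) := by
    intro y hy z hz
    by_cases hyp : y = p
    · rw [hyp, lp]; simp [D]
    by_cases hzp : z = p
    · rw [hzp, lp]; simp [D]
    have h1 : l y ≠ 0 := hs y hy hyp
    have h2 : l z ≠ 0 := hs z hz hzp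
    simp only [th]
    field_simp
    simp only [l, D]
    ring
  have hp : ∀ x ∈ S, ∀ x', lab x = lab x' → x' = p → x = p := by
    intro x hx x' h e
    by_contra hc
    have h1 : SignType.sign (l x) = SignType.sign (l x') := congrArg Prod.fst h
    rw [e, lp, sign_zero, sign_eq_zero_iff] at h1
    exact hs x hx hc h1
  have h1 : ∀ x x', lab x = lab x' → SignType.sign (D a b x) = SignType.sign (D a b x') :=
    fun x x' h => congrArg (fun u => u.2.1) h
  have h2 : ∀ x x', lab x = lab x' → SignType.sign (D c d x) = SignType.sign (D c d x') :=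
    fun x x' h => congrArg (fun u => u.2.2) h
  have z0 : ∀ u v : ℝ, SignType.sign u = SignType.sign v → u = 0 → v = 0 := by
    intro u v h e
    rw [e, sign_zero] at h
    exact sign_eq_zero_iff.1 h.symm
  have withp : ∀ y ∈ S, ∀ z ∈ S, ∀ y' ∈ S, ∀ z' ∈ S, lab y = lab y' → lab z = lab z' →
      SignType.sign (th y - th z) = SignType.sign (th y' - th z') →
      SignType.sign (D p y z) = SignType.sign (D p y' z') := by
    intro y hy z hz y' hy' z' hz' ly lz e
    have e1 : SignType.sign (l y) = SignType.sign (l y') := congrArg Prod.fst ly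
    have e2 : SignType.sign (l z) = SignType.sign (l z') := congrArg Prod.fst lz
    rw [form y hy z hz, form y' hy' z' hz', sign_mul, sign_mul, sign_mul, sign_mul, sign_neg',
      sign_neg', e, e1, e2]
  have same : ∀ u v : Pt, D u v p ≠ 0 →
      ∀ x ∈ S, ∀ y ∈ S, ∀ z x', x' ∈ S → ∀ y' ∈ S, ∀ z', lab x = lab x' → lab y = lab y' →
      D u v x = 0 → D u v y = 0 → D u v x' = 0 → D u v y' = 0 →
      SignType.sign (D u v z) = SignType.sign (D u v z') →
      SignType.sign (th x - th y) = SignType.sign (th x' - th y') →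
      SignType.sign (D x y z) = SignType.sign (D x' y' z') := by
    intro u v hp0 x hx y hy z x' hx' y' hy' z' lx ly a1 a2 a3 a4 e1 e2
    have f1 := congrArg SignType.sign (prop u v x y z p a1 a2)
    have f2 := congrArg SignType.sign (prop u v x' y' z' p a3 a4)
    have f3 := withp x hx y hy x' hx' y' hy' lx ly e2
    rw [D_cyc p, D_cyc p] at f3
    rw [sign_mul, sign_mul] at f1 f2
    rw [f3, e1, ← f2] at f1
    exact mul_right_cancel₀ (sign_ne_zero.2 hp0) f1
  have main : ∀ x ∈ S, ∀ y ∈ S, ∀ z x', x' ∈ S → ∀ y' ∈ S, ∀ z',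
      lab x = lab x' → lab y = lab y' → lab z = lab z' →
      SignType.sign (th x - th y) = SignType.sign (th x' - th y') →
      ((D a b x = 0 ∧ D a b y = 0) ∨ (D c d x = 0 ∧ D c d y = 0)) →
      SignType.sign (D x y z) = SignType.sign (D x' y' z') := by
    intro x hx y hy z x' hx' y' hy' z' lx ly lz e h
    rcases h with ⟨u1, u2⟩ | ⟨u1, u2⟩
    · exact same a b p1 x hx y hy z x' hx' y' hy' z' lx ly u1 u2 (z0 _ _ (h1 _ _ lx) u1)
        (z0 _ _ (h1 _ _ ly) u2) (h1 _ _ lz) e
    · exact same c d p2 x hx y hy z x' hx' y' hy' z' lx ly u1 u2 (z0 _ _ (h2 _ _ lx) u1)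
        (z0 _ _ (h2 _ _ ly) u2) (h2 _ _ lz) e
  refine ⟨th, lab, ?_, ?_⟩
  · intro x hx y hy ht hxy
    by_cases hxp : x = p
    · rw [hp y hy x hxy.symm hxp, hxp]
    by_contra hne
    have e : D p x y = 0 := by rw [form x hx y hy, ht]; simp
    have e' : D x y p = 0 := by rw [← D_cyc]; exact e
    have k1 : ∀ u v : Pt, u ≠ v → D u v x = 0 → D u v y = 0 → D u v p = 0 := by
      intro u v huv a1 a2
      have hu : D x y u = 0 := col3 huv a1 a2 (by unfold D; ring)
      have hv : D x y v = 0 := col3 huv a1 a2 (by unfold D; ring)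
      exact col3 hne hu hv e'
    rcases hS x hx with h | h | h
    · exact hxp h
    · exact p1 (k1 a b hab h (z0 _ _ (h1 _ _ hxy) h))
    · exact p2 (k1 c d hcd h (z0 _ _ (h2 _ _ hxy) h))
  · intro x hx y hy z hz x' hx' y' hy' z' hz' lx ly lz s1 s2 s3
    by_cases hxp : x = p
    · rw [hp x' hx' x lx.symm hxp, hxp]
      exact withp y hy z hz y' hy' z' hz' ly lz s2
    by_cases hyp : y = p
    · rw [D_cyc, D_cyc x', hp y' hy' y ly.symm hyp, hyp]
      exact withp z hz x hx z' hz' x' hx' lz lx s3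
    by_cases hzp : z = p
    · rw [D_cyc, D_cyc y, D_cyc x', D_cyc y', hp z' hz' z lz.symm hzp, hzp]
      exact withp x hx y hy x' hx' y' hy' lx ly s1
    have ax := (hS x hx).resolve_left hxp
    have ay := (hS y hy).resolve_left hyp
    have az := (hS z hz).resolve_left hzp
    by_cases c1 : (D a b x = 0 ∧ D a b y = 0) ∨ (D c d x = 0 ∧ D c d y = 0)
    · exact main x hx y hy z x' hx' y' hy' z' lx ly lz s1 c1
    by_cases c2 : (D a b y = 0 ∧ D a b z = 0) ∨ (D c d y = 0 ∧ D c d z = 0)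
    · rw [D_cyc, D_cyc x']
      exact main y hy z hz x y' hy' z' hz' x' ly lz lx s2 c2
    have c3 : (D a b z = 0 ∧ D a b x = 0) ∨ (D c d z = 0 ∧ D c d x = 0) := by tauto
    rw [D_cyc, D_cyc y, D_cyc x', D_cyc y']
    exact main z hz x hx y z' hz' x' hx' y' lz lx ly s3 c3

lemma GP_insert {G : Finset Pt} {x : Pt} (hG : GP G)
    (h : ∀ c ∈ G, ∀ d ∈ G, c ≠ d → D c d x ≠ 0) : GP (insert x G) := by
  intro a ha b hb c hc hab hac hbc
  rcases mem_insert.1 ha with rfl | ha' <;> rcases mem_insert.1 hb with rfl | hb' <;>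
    rcases mem_insert.1 hc with rfl | hc' <;> try contradiction
  · rw [D_cyc]; exact h b hb' c hc' hbc
  · rw [D_cyc, D_cyc]; exact h c hc' a ha' hac.symm
  · exact h a ha' b hb' hab
  · exact hG a ha' b hb' c hc' hab hac hbc

lemma extend (G A : Finset Pt) (a b : Pt) (hab : a ≠ b) (hG : GP G)
    (hA : ∀ x ∈ A, D a b x = 0) (hc : G.card * G.card < A.card)
    (h2 : ∀ c ∈ G, ∀ d ∈ G, c ≠ d → D a b c = 0 → D a b d ≠ 0) :
    ∃ x ∈ A, x ∉ G ∧ GP (insert x G) := by
  classical
  let bad : Pt × Pt → Finset Pt := fun u =>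
    A.filter (fun x => if u.1 = u.2 then x = u.1 else D u.1 u.2 x = 0)
  have hb : ∀ u ∈ G ×ˢ G, (bad u).card ≤ 1 := by
    rintro ⟨c, d⟩ hu
    obtain ⟨hc, hd⟩ := mem_product.1 hu
    rw [card_le_one]
    intro x hx y hy
    obtain ⟨hxA, hx⟩ := mem_filter.1 hx
    obtain ⟨hyA, hy⟩ := mem_filter.1 hy
    by_cases e : c = d
    · simp only [e, if_true] at hx hy
      rw [hx, hy]
    · simp only [e, if_false] at hx hy
      by_contra hxy
      obtain ⟨k1, k2⟩ := two_on hxy (hA x hxA) (hA y hyA) hx hy e hab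
      exact h2 c hc d hd e k1 k2
  have : ((G ×ˢ G).biUnion bad).card < A.card := by
    calc _ ≤ (G ×ˢ G).card * 1 := card_biUnion_le_card_mul _ _ _ hb
      _ < _ := by rw [card_product, mul_one]; exact hc
  obtain ⟨x, hxA, hx⟩ := exists_mem_notMem_of_card_lt_card this
  refine ⟨x, hxA, fun hxG => hx ?_, GP_insert hG fun c hc d hd hcd h => hx ?_⟩
  · exact mem_biUnion.2 ⟨(x, x), mem_product.2 ⟨hxG, hxG⟩, mem_filter.2 ⟨hxA, by simp⟩⟩
  · exact mem_biUnion.2 ⟨(c, d), mem_product.2 ⟨hc, hd⟩, mem_filter.2 ⟨hxA, by simp [hcd, h]⟩⟩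

lemma rich (S : Finset Pt) (hS : ∀ G ⊆ S, GP G → G.card < 6) (B : Finset Pt) (hB : B ⊆ S)
    (hc : 755 < B.card) : ∃ a b : Pt, a ≠ b ∧ 30 ≤ (B.filter (fun x => D a b x = 0)).card := by
  classical
  obtain ⟨G, hG, hmax⟩ := exists_max_image (S.powerset.filter GP) card
    ⟨∅, mem_filter.2 ⟨by simp, by simp [GP]⟩⟩
  obtain ⟨hGS, hGP⟩ := mem_filter.1 hG
  rw [mem_powerset] at hGS
  have h5 := hS G hGS hGP
  by_contra hcon
  push Not at hcon
  let bad : Pt × Pt → Finset Pt := fun u =>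
    B.filter (fun x => if u.1 = u.2 then x = u.1 else D u.1 u.2 x = 0)
  have hb : ∀ u ∈ G ×ˢ G, (bad u).card ≤ 30 := by
    rintro ⟨c, d⟩ -
    by_cases e : c = d
    · refine le_trans (card_le_one.2 ?_) (by norm_num)
      intro x hx y hy
      have hx := (mem_filter.1 hx).2
      have hy := (mem_filter.1 hy).2
      simp only [e, if_true] at hx hy
      rw [hx, hy]
    · have := hcon c d e
      simp only [bad, e, if_false]
      omega
  have : ((G ×ˢ G).biUnion bad).card < B.card := by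
    calc _ ≤ (G ×ˢ G).card * 30 := card_biUnion_le_card_mul _ _ _ hb
      _ < _ := by rw [card_product]; nlinarith
  obtain ⟨x, hxA, hx⟩ := exists_mem_notMem_of_card_lt_card this
  have hxG : x ∉ G := fun hxG =>
    hx (mem_biUnion.2 ⟨(x, x), mem_product.2 ⟨hxG, hxG⟩, mem_filter.2 ⟨hxA, by simp⟩⟩)
  have : GP (insert x G) := GP_insert hGP fun c hc d hd hcd h =>
    hx (mem_biUnion.2 ⟨(c, d), mem_product.2 ⟨hc, hd⟩, mem_filter.2 ⟨hxA, by simp [hcd, h]⟩⟩)
  have := hmax (insert x G)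
    (mem_filter.2 ⟨mem_powerset.2 (insert_subset (hB hxA) hGS), this⟩)
  rw [card_insert_of_notMem hxG] at this
  omega

lemma six (S A B : Finset Pt) (hS : ∀ G ⊆ S, GP G → G.card < 6) (a b c d p q : Pt)
    (hab : a ≠ b) (hcd : c ≠ d) (hA : A ⊆ S) (hB : B ⊆ S) (cA : 25 < A.card) (cB : 25 < B.card)
    (A1 : ∀ x ∈ A, D a b x = 0) (A2 : ∀ x ∈ A, D c d x ≠ 0)
    (B1 : ∀ x ∈ B, D c d x = 0)
    (hp : p ∈ S) (hq : q ∈ S) (p1 : D a b p ≠ 0) (p2 : D c d p ≠ 0)
    (q1 : D a b q ≠ 0) (q2 : D c d q ≠ 0) : p = q := by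
  classical
  by_contra hpq
  have g0 : GP {p, q} := by
    intro x hx y hy z hz h1 h2 h3
    simp only [mem_insert, mem_singleton] at hx hy hz
    rcases hx with rfl | rfl <;> rcases hy with rfl | rfl <;> rcases hz with rfl | rfl <;>
      contradiction
  have c0 : ({p, q} : Finset Pt).card = 2 := card_pair hpq
  obtain ⟨x1, x1A, n1, g1⟩ := extend {p, q} A a b hab g0 A1 (by rw [c0]; omega) (by
    intro x hx y hy h h0
    simp only [mem_insert, mem_singleton] at hx
    rcases hx with rfl | rfl <;> contradiction)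
  have c1 := card_insert_of_notMem n1
  obtain ⟨x2, x2A, n2, g2⟩ := extend _ A a b hab g1 A1 (by rw [c1, c0]; omega) (by
    intro x hx y hy h h0
    simp only [mem_insert, mem_singleton] at hx hy
    rcases hx with rfl | rfl | rfl <;> rcases hy with rfl | rfl | rfl <;>
      first | contradiction | assumption)
  have c2 := card_insert_of_notMem n2
  have u1 := A2 x1 x1A
  have u2 := A2 x2 x2A
  obtain ⟨y1, y1B, m1, g3⟩ := extend _ B c d hcd g2 B1 (by rw [c2, c1, c0]; omega) (by
    intro x hx y hy h h0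
    simp only [mem_insert, mem_singleton] at hx
    rcases hx with rfl | rfl | rfl | rfl <;> contradiction)
  have c3 := card_insert_of_notMem m1
  obtain ⟨y2, y2B, m2, g4⟩ := extend _ B c d hcd g3 B1 (by rw [c3, c2, c1, c0]; omega) (by
    intro x hx y hy h h0
    simp only [mem_insert, mem_singleton] at hx hy
    rcases hx with rfl | rfl | rfl | rfl | rfl <;> rcases hy with rfl | rfl | rfl | rfl | rfl <;>
      first | contradiction | assumption)
  have c4 := card_insert_of_notMem m2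
  have := hS _ (by
    intro x hx
    simp only [mem_insert, mem_singleton] at hx
    rcases hx with rfl | rfl | rfl | rfl | rfl | rfl
    exacts [hB y2B, hB y1B, hA x2A, hA x1A, hp, hq]) g4
  omega

lemma code_all (S : Finset Pt) (hS : ∀ G ⊆ S, GP G → G.card < 6) :
    Code (((Fin 755 → Fin 755 → SignType) × (Fin 755 → Prop)) ⊕
      (SignType × SignType × SignType)) S := by
  classical
  by_cases h0 : S.card ≤ 755
  · exact (codeA 755 S (0, 0) (1, 0) (by simp) ((card_filter_le _ _).trans h0)).map _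
      Sum.inl_injective
  obtain ⟨a, b, hab, h1⟩ := rich S hS S Subset.rfl (by omega)
  by_cases h2 : (S.filter (fun x => D a b x ≠ 0)).card ≤ 755
  · exact (codeA 755 S a b hab h2).map _ Sum.inl_injective
  obtain ⟨c, d, hcd, h3⟩ := rich S hS _ (filter_subset (fun x => D a b x ≠ 0) S) (by omega)
  set B := (S.filter (fun x => D a b x ≠ 0)).filter (fun x => D c d x = 0) with hB
  set A := (S.filter (fun x => D a b x = 0)).filter (fun x => D c d x ≠ 0) with hA
  obtain ⟨y, hy⟩ : B.Nonempty := card_pos.1 (by omega)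
  have y1 : D a b y ≠ 0 := (mem_filter.1 (mem_filter.1 hy).1).2
  have y2 : D c d y = 0 := (mem_filter.1 hy).2
  have cA : 25 < A.card := by
    have e := card_filter_add_card_filter_not (s := S.filter (fun x => D a b x = 0))
      (fun x => D c d x = 0)
    have : ((S.filter (fun x => D a b x = 0)).filter (fun x => D c d x = 0)).card ≤ 1 := by
      rw [card_le_one]
      intro u hu v hv
      by_contra huv
      obtain ⟨k1, k2⟩ := two_on huv (mem_filter.1 (mem_filter.1 hu).1).2
        (mem_filter.1 (mem_filter.1 hv).1).2 (mem_filter.1 hu).2 (mem_filter.1 hv).2 hcd hab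
      have hu' : D c d a = 0 ∧ D c d b = 0 := two_on huv (mem_filter.1 hu).2 (mem_filter.1 hv).2
        (mem_filter.1 (mem_filter.1 hu).1).2 (mem_filter.1 (mem_filter.1 hv).1).2 hab hcd
      exact y1 (col3 hcd hu'.1 hu'.2 y2)
    have e2 : A.card = ((S.filter (fun x => D a b x = 0)).filter (fun x => ¬ D c d x = 0)).card :=
      rfl
    omega
  obtain ⟨x, hx⟩ : A.Nonempty := card_pos.1 (by omega)
  have x1 : D a b x = 0 := (mem_filter.1 (mem_filter.1 hx).1).2
  have x2 : D c d x ≠ 0 := (mem_filter.1 hx).2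
  refine Code.map ?_ _ Sum.inr_injective
  by_cases hp : ∃ p ∈ S, D a b p ≠ 0 ∧ D c d p ≠ 0
  · obtain ⟨p, hp, p1, p2⟩ := hp
    refine codeB S a b c d p hab hcd p1 p2 fun q hq => ?_
    by_contra hc
    push Not at hc
    exact hc.1 (six S A B hS a b c d q p hab hcd
      ((filter_subset _ _).trans (filter_subset _ _))
      ((filter_subset _ _).trans (filter_subset _ _)) cA (by omega)
      (fun u hu => (mem_filter.1 (mem_filter.1 hu).1).2) (fun u hu => (mem_filter.1 hu).2)
      (fun u hu => (mem_filter.1 hu).2) hq hp hc.2.1 hc.2.2 p1 p2)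
  · refine codeB S a b c d ((x.1 + y.1) / 2, (x.2 + y.2) / 2) hab hcd ?_ ?_ fun q hq => ?_
    · intro h; apply y1
      unfold D at *
      simp only at h
      linear_combination 2 * h - x1
    · intro h; apply x2
      unfold D at *
      simp only at h
      linear_combination 2 * h - y2
    · right
      by_contra hc
      push Not at hc
      exact hp ⟨q, hq, hc⟩

theorem main (S : ℕ → Finset Pt) (h : ∀ n, ∀ G ⊆ S n, GP G → G.card < 6) :
    ∃ i j, i < j ∧ Emb (S i) (S j) :=
  wqo_of_code S fun n => code_all (S n) (h n)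

end Pool.Agent.H9.Wqo
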